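import Mathlib

/-! Triangular matrices: the filtration, the unitriangular group and its normaliser. -/

namespace Pool.Agent.Lib.MP_1ae3da_al

open Matrix

variable {F : Type} [Field F] {m : ℕ}

/-- entries `(i, j)` vanish unless `j ≥ i + r`. -/
def Lev (r : ℕ) (A : Matrix (Fin m) (Fin m) F) : Prop :=
  ∀ i j : Fin m, (j : ℕ) < i + r → A i j = 0

namespace Lev
variable {r s : ℕ} {A B : Matrix (Fin m) (Fin m) F}

lemma mono (h : Lev r A) (hs : s ≤ r) : Lev s A := fun i j hij => h i j (by omega)
lemma zero : Lev r (0 : Matrix (Fin m) (Fin m) F) := fun _ _ _ => rfl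
lemma add (h : Lev r A) (h' : Lev r B) : Lev r (A + B) := fun i j hij => by
  simp [h i j hij, h' i j hij]
lemma neg (h : Lev r A) : Lev r (-A) := fun i j hij => by simp [h i j hij]
lemma sub (h : Lev r A) (h' : Lev r B) : Lev r (A - B) := fun i j hij => by
  simp [h i j hij, h' i j hij]
lemma smul (h : Lev r A) (c : F) : Lev r (c • A) := fun i j hij => by simp [h i j hij]
lemma one : Lev 0 (1 : Matrix (Fin m) (Fin m) F) := fun i j hij =>
  Matrix.one_apply_ne (by intro h; rw [h] at hij; omega)
lemma diagonal (d : Fin m → F) : Lev 0 (Matrix.diagonal d) := fun i j hij =>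
  Matrix.diagonal_apply_ne _ (by intro h; rw [h] at hij; omega)
lemma single {i j : Fin m} (h : (i : ℕ) + r ≤ j) (c : F) : Lev r (Matrix.single i j c) := by
  intro a b hab
  apply Matrix.single_apply_of_ne
  rintro ⟨rfl, rfl⟩
  omega

lemma mul (h : Lev r A) (h' : Lev s B) : Lev (r + s) (A * B) := by
  intro i j hij
  rw [Matrix.mul_apply]
  refine Finset.sum_eq_zero fun l _ => ?_
  by_cases hl : (l : ℕ) < i + r
  · rw [h i l hl, zero_mul]
  · rw [h' l j (by omega), mul_zero]

lemma mul0 (h : Lev 0 A) (h' : Lev s B) : Lev s (A * B) := by simpa using h.mul h'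
lemma mul0' (h : Lev s A) (h' : Lev 0 B) : Lev s (A * B) := by simpa using h.mul h'

lemma mul_apply (h : Lev r A) (h' : Lev s B) {i l j : Fin m} (hl : (l : ℕ) = i + r)
    (hj : (j : ℕ) = l + s) : (A * B) i j = A i l * B l j := by
  rw [Matrix.mul_apply, Finset.sum_eq_single l]
  · intro b _ hb
    by_cases hb' : (b : ℕ) < i + r
    · rw [h i b hb', zero_mul]
    · have : (b : ℕ) ≠ l := fun e => hb (Fin.ext e)
      rw [h' b j (by omega), mul_zero]
  · simp

lemma mul_super (h : Lev 0 A) (h' : Lev 0 B) {i j : Fin m} (hj : (j : ℕ) = i + 1) :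
    (A * B) i j = A i i * B i j + A i j * B j j := by
  have hij : i ≠ j := by intro e; rw [e] at hj; omega
  rw [Matrix.mul_apply, ← Finset.sum_pair (f := fun l => A i l * B l j) hij]
  symm
  apply Finset.sum_subset (Finset.subset_univ _)
  intro l _ hl
  simp only [Finset.mem_insert, Finset.mem_singleton, not_or] at hl
  have h1 : (l : ℕ) ≠ i := fun e => hl.1 (Fin.ext e)
  have h2 : (l : ℕ) ≠ j := fun e => hl.2 (Fin.ext e)
  by_cases hb' : (l : ℕ) < i + 0
  · rw [h i l hb', zero_mul]
  · rw [h' l j (by omega), mul_zero]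

lemma eq_zero (h : Lev m A) : A = 0 := by
  ext i j
  exact h i j (by have := j.2; omega)

lemma pow (h : Lev 0 A) (k : ℕ) : Lev 0 (A ^ k) := by
  induction k with
  | zero => simpa using one
  | succ k ih => rw [pow_succ]; exact ih.mul0 h

lemma inv {g : GL (Fin m) F} (h : Lev 0 (g : Matrix (Fin m) (Fin m) F)) :
    Lev 0 ((g⁻¹ : GL (Fin m) F) : Matrix (Fin m) (Fin m) F) := by
  have h1 : (g : Matrix (Fin m) (Fin m) F).BlockTriangular id := fun i j hij => h i j hij
  haveI := g.invertible
  have := Matrix.blockTriangular_inv_of_blockTriangular h1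
  intro i j hij
  rw [Matrix.coe_units_inv]
  exact this hij

lemma det_one_add (h : Lev 1 A) : (1 + A).det = 1 := by
  have h0 : Lev 0 (1 + A) := one.add (h.mono (by omega))
  rw [Matrix.det_of_upperTriangular (fun i j hij => h0 i j hij)]
  refine Finset.prod_eq_one fun i _ => ?_
  simp [h i i (by omega)]

lemma diag_ne_zero {g : GL (Fin m) F} (h : Lev 0 (g : Matrix (Fin m) (Fin m) F)) (i : Fin m) :
    (g : Matrix (Fin m) (Fin m) F) i i ≠ 0 := by
  have := h.mul_apply h.inv (i := i) (l := i) (j := i) rfl rfl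
  rw [Units.mul_inv, Matrix.one_apply_eq] at this
  intro h0
  rw [h0, zero_mul] at this
  exact one_ne_zero this

end Lev

open Classical in
/-- the unitriangular element `1 + n`. -/
noncomputable def uni (n : Matrix (Fin m) (Fin m) F) : GL (Fin m) F :=
  if h : Lev 1 n then GeneralLinearGroup.mkOfDetNeZero (1 + n) (by rw [h.det_one_add]; simp)
  else 1

lemma uni_val {n : Matrix (Fin m) (Fin m) F} (h : Lev 1 n) :
    (uni n : Matrix (Fin m) (Fin m) F) = 1 + n := by
  simp [uni, h]

lemma uni_zero : uni (0 : Matrix (Fin m) (Fin m) F) = 1 := by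
  ext1; rw [uni_val Lev.zero]; simp

/-- upper triangular invertible matrices. -/
def Bor (m : ℕ) (F : Type) [Field F] : Subgroup (GL (Fin m) F) where
  carrier := {g | Lev 0 (g : Matrix (Fin m) (Fin m) F)}
  mul_mem' ha hb := Lev.mul0 ha hb
  one_mem' := Lev.one
  inv_mem' h := Lev.inv h

lemma lev0_of_lev1 {g : Matrix (Fin m) (Fin m) F} (h : Lev 1 (g - 1)) : Lev 0 g := by
  simpa using (h.mono (Nat.zero_le 1)).add Lev.one

/-- upper unitriangular matrices. -/
def Uni (m : ℕ) (F : Type) [Field F] : Subgroup (GL (Fin m) F) where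
  carrier := {g | Lev 1 ((g : Matrix (Fin m) (Fin m) F) - 1)}
  mul_mem' {a b} ha hb := by
    have : ((a * b : GL (Fin m) F) : Matrix (Fin m) (Fin m) F) - 1
        = a * ((b : Matrix (Fin m) (Fin m) F) - 1) + (a - 1) := by
      rw [Units.val_mul]; noncomm_ring
    change Lev 1 _
    rw [this]
    exact ((lev0_of_lev1 ha).mul0 hb).add ha
  one_mem' := by change Lev 1 _; simpa using Lev.zero
  inv_mem' {a} ha := by
    have : ((a⁻¹ : GL (Fin m) F) : Matrix (Fin m) (Fin m) F) - 1
        = -(((a⁻¹ : GL (Fin m) F) : Matrix (Fin m) (Fin m) F) *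
          ((a : Matrix (Fin m) (Fin m) F) - 1)) := by
      rw [mul_sub, Units.inv_mul]; noncomm_ring
    change Lev 1 _
    rw [this]
    exact ((lev0_of_lev1 ha).inv.mul0 ha).neg

lemma mem_Uni {g : GL (Fin m) F} : g ∈ Uni m F ↔ Lev 1 ((g : Matrix (Fin m) (Fin m) F) - 1) :=
  Iff.rfl
lemma mem_Bor {g : GL (Fin m) F} : g ∈ Bor m F ↔ Lev 0 (g : Matrix (Fin m) (Fin m) F) := Iff.rfl

lemma uni_mem (n : Matrix (Fin m) (Fin m) F) : uni n ∈ Uni m F := by
  by_cases h : Lev 1 n
  · rw [mem_Uni, uni_val h]; simpa using h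
  · simp [uni, h]

lemma Uni_le_Bor : Uni m F ≤ Bor m F := fun _ h => lev0_of_lev1 h

lemma uni_sub_one {g : GL (Fin m) F} (h : g ∈ Uni m F) :
    uni ((g : Matrix (Fin m) (Fin m) F) - 1) = g := by
  ext1; rw [uni_val h]; simp

lemma conj_sub_one (b g : GL (Fin m) F) :
    ((b * g * b⁻¹ : GL (Fin m) F) : Matrix (Fin m) (Fin m) F) - 1
      = b * ((g : Matrix (Fin m) (Fin m) F) - 1) * (b⁻¹ : GL (Fin m) F) := by
  rw [mul_sub, sub_mul, mul_one, Units.mul_inv, Units.val_mul, Units.val_mul]

lemma normalizer_Uni : Subgroup.normalizer (Uni m F : Set (GL (Fin m) F)) = Bor m F := by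
  apply le_antisymm
  · have key : ∀ r : ℕ, ∀ g ∈ Subgroup.normalizer (Uni m F : Set (GL (Fin m) F)),
        ∀ v : Fin m → F, (∀ i : Fin m, r ≤ i → v i = 0) →
        ∀ i : Fin m, r ≤ i → ((g : Matrix (Fin m) (Fin m) F) *ᵥ v) i = 0 := by
      intro r
      induction r with
      | zero =>
        intro g _ v hv i _
        have : v = 0 := funext fun j => hv j (Nat.zero_le _)
        simp [this]
      | succ r ih =>
        intro g hg v hv i hi
        let a : Fin m := ⟨r, by have := i.2; omega⟩
        have hs : Lev 1 (Matrix.single a i (1 : F)) := Lev.single (by simpa [a] using hi) 1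
        have h1 : g⁻¹ * uni (Matrix.single a i (1 : F)) * g ∈ Uni m F :=
          (Subgroup.mem_normalizer_iff''.mp hg _).mp (uni_mem _)
        have h2 := conj_sub_one g⁻¹ (uni (Matrix.single a i (1 : F)))
        rw [inv_inv, uni_val hs, add_sub_cancel_left] at h2
        rw [mem_Uni, h2] at h1
        have h3 := ih g hg ((((g⁻¹ : GL (Fin m) F) : Matrix (Fin m) (Fin m) F) *
          Matrix.single a i (1 : F) * (g : Matrix (Fin m) (Fin m) F)) *ᵥ v) (by
            intro b hb
            simp only [Matrix.mulVec, dotProduct]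
            refine Finset.sum_eq_zero fun c _ => ?_
            by_cases hc : (c : ℕ) < b + 1
            · rw [h1 b c hc, zero_mul]
            · rw [hv c (by omega), mul_zero]) a (by simp [a])
        rw [Matrix.mulVec_mulVec, ← mul_assoc, ← mul_assoc, Units.mul_inv, one_mul,
          ← Matrix.mulVec_mulVec, Matrix.single_mulVec] at h3
        simpa using h3
    intro g hg i j hij
    have := key (j + 1) g hg (Pi.single j 1) (by
      intro a ha
      apply Pi.single_eq_of_ne
      intro e; rw [e] at ha; omega) i (by omega)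
    simpa using this
  · rw [Subgroup.le_normalizer_iff]
    intro b hb g hg
    rw [mem_Uni, conj_sub_one]
    exact (Lev.mul0 hb hg).mul0' (Lev.inv hb)

/-- strictly upper triangular matrices as an additive group. -/
def Nil (m : ℕ) (F : Type) [Field F] : AddSubgroup (Matrix (Fin m) (Fin m) F) where
  carrier := {n | Lev 1 n}
  add_mem' := Lev.add
  zero_mem' := Lev.zero
  neg_mem' := Lev.neg

/-- `U` is in bijection with the strictly upper triangular matrices. -/
noncomputable def uniEquiv : Nil m F ≃ Uni m F where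
  toFun n := ⟨uni n, uni_mem _⟩
  invFun g := ⟨(g.1 : Matrix (Fin m) (Fin m) F) - 1, g.2⟩
  left_inv n := by ext1; simp [uni_val n.2]
  right_inv g := by ext1; exact uni_sub_one g.2

lemma card_Nil [Finite F] : Nat.card (Nil m F) = Nat.card F ^ (∑ i : Fin m, (i : ℕ)) := by
  let e : Nil m F ≃ ((Σ j : Fin m, Fin j) → F) :=
    { toFun := fun n x => n.1 ⟨x.2, x.2.2.trans x.1.2⟩ x.1
      invFun := fun f => ⟨Matrix.of fun i j => if h : (i : ℕ) < j then f ⟨j, ⟨i, h⟩⟩ else 0, by
        intro i j hij
        simp only [Matrix.of_apply]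
        rw [dif_neg (by omega)]⟩
      left_inv := by
        intro n
        ext i j
        simp only [Matrix.of_apply]
        split_ifs with h
        · rfl
        · exact (n.2 i j (by omega)).symm
      right_inv := by
        intro f
        funext x
        simp only [Matrix.of_apply]
        rw [dif_pos x.2.2] }
  rw [Nat.card_congr e, Nat.card_fun, Nat.card_sigma]
  simp

lemma card_Uni (p : ℕ) [Fact p.Prime] :
    Nat.card (Uni m (ZMod p)) = p ^ (∑ i : Fin m, (i : ℕ)) := by
  rw [← Nat.card_congr uniEquiv, card_Nil, Nat.card_zmod]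

lemma index_Uni (p : ℕ) [Fact p.Prime] : ¬ p ∣ (Uni m (ZMod p)).index := by
  have hp : p.Prime := Fact.out
  have h1 := (Uni m (ZMod p)).card_mul_index
  rw [card_Uni, Matrix.card_GL_field, ZMod.card] at h1
  have h2 : ∏ i : Fin m, (p ^ m - p ^ (i : ℕ))
      = p ^ (∑ i : Fin m, (i : ℕ)) * ∏ i : Fin m, (p ^ (m - i) - 1) := by
    rw [← Finset.prod_pow_eq_pow_sum, ← Finset.prod_mul_distrib]
    refine Finset.prod_congr rfl fun i _ => ?_
    rw [Nat.mul_sub, mul_one, ← pow_add]
    congr 2
    have := i.2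
    omega
  rw [h2] at h1
  rw [Nat.eq_of_mul_eq_mul_left (pow_pos hp.pos _) h1, hp.prime.dvd_finsetProd_iff]
  rintro ⟨i, -, hi⟩
  have h3 : p ∣ p ^ (m - i) := dvd_pow_self p (by have := i.2; omega)
  have h4 : 1 ≤ p ^ (m - i) := Nat.one_le_pow _ _ hp.pos
  have := (Nat.dvd_sub_iff_right h4 h3).mp hi
  exact hp.one_lt.ne' (Nat.dvd_one.mp this)

/-- the unitriangular group as a Sylow subgroup. -/
noncomputable def uniSylow (m p : ℕ) [Fact p.Prime] : Sylow p (GL (Fin m) (ZMod p)) :=
  (IsPGroup.of_card (card_Uni p)).toSylow (index_Uni p)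

lemma coe_uniSylow (m p : ℕ) [Fact p.Prime] :
    (uniSylow m p : Subgroup (GL (Fin m) (ZMod p))) = Uni m (ZMod p) := rfl

end Pool.Agent.Lib.MP_1ae3da_al
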