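import Pool.Agent.Lib.MP_1ae3da_al.Rep
import Pool.Agent.Lib.MP_1ae3da_al.Tri

/-! Characters of degree prime to `p` of the Borel subgroup of `GL_m(F_p)`. -/

namespace Pool.Agent.Lib.MP_1ae3da_al

open Matrix Module

variable {K : Type} [Field K] [CharZero K] {V : Type} [AddCommGroup V] [Module K V]
  [FiniteDimensional K V] {p : ℕ} [Fact p.Prime] {m : ℕ}

lemma heis {H : Type} [Group H] (ρ : Representation K H V) (x y z : ZMod p → H)
    (hy : ∀ a b, y (a + b) = y a * y b) (hy0 : y 0 = 1)
    (hc : ∀ a b, x a * y b * (x a)⁻¹ = z (a * b) * y b) (hz : ∑ s, ρ (z s) = 0) :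
    p ∣ finrank K V := by
  have hp : (p : K) ≠ 0 := by exact_mod_cast (Fact.out : p.Prime).ne_zero
  have h1 : ∀ b, b ≠ 0 → ρ.character (y b) = 0 := by
    intro b hb
    have e1 : ∑ a : ZMod p, ρ.character (x a * y b * (x a)⁻¹) = p * ρ.character (y b) := by
      simp [ZMod.card]
    have e2 : ∑ a : ZMod p, ρ.character (x a * y b * (x a)⁻¹) = 0 := by
      simp only [hc, Representation.character, map_mul]
      rw [← map_sum, ← Finset.sum_mul,
        Fintype.sum_equiv (Equiv.mulRight₀ b hb) (fun a => ρ (z (a * b))) (fun s => ρ (z s))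
          (fun _ => rfl), hz, zero_mul, map_zero]
    rw [e1] at e2
    exact (mul_eq_zero.mp e2).resolve_left hp
  let E : V →ₗ[K] V := (p : K)⁻¹ • ∑ b, ρ (y b)
  have hE1 : ∀ a, ρ (y a) * E = E := by
    intro a
    simp only [E, mul_smul_comm, Finset.mul_sum, ← map_mul, ← hy]
    rw [Fintype.sum_equiv (Equiv.addLeft a) (fun b => ρ (y (a + b))) (fun s => ρ (y s))
          (fun _ => rfl)]
  have hEE : E * E = E := by
    conv_lhs => enter [1]; simp only [E]
    rw [smul_mul_assoc, Finset.sum_mul]
    simp only [hE1, Finset.sum_const, Finset.card_univ, ZMod.card]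
    rw [← Nat.cast_smul_eq_nsmul K, smul_smul, inv_mul_cancel₀ hp, one_smul]
  obtain ⟨r, hr⟩ := trace_idem E hEE
  have h2 : LinearMap.trace K V E = (p : K)⁻¹ * finrank K V := by
    simp only [E, map_smul, map_sum, smul_eq_mul]
    congr 1
    rw [Finset.sum_eq_single 0]
    · rw [hy0]; simp
    · intro b _ hb; exact h1 b hb
    · simp
  refine ⟨r, ?_⟩
  have : (finrank K V : K) = p * r := by
    rw [← hr, h2, ← mul_assoc, mul_inv_cancel₀ hp, one_mul]
  exact_mod_cast this

/-- unitriangular elements as elements of the Borel subgroup. -/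
noncomputable def ub (n : Matrix (Fin m) (Fin m) (ZMod p)) : Bor m (ZMod p) :=
  ⟨uni n, Uni_le_Bor (uni_mem n)⟩

lemma ub_val {n : Matrix (Fin m) (Fin m) (ZMod p)} (h : Lev 1 n) :
    (((ub n : Bor m (ZMod p)) : GL (Fin m) (ZMod p)) : Matrix (Fin m) (Fin m) (ZMod p)) = 1 + n :=
  uni_val h

/-- the underlying matrix. -/
abbrev mat (b : Bor m (ZMod p)) : Matrix (Fin m) (Fin m) (ZMod p) :=
  ((b : GL (Fin m) (ZMod p)) : Matrix (Fin m) (Fin m) (ZMod p))

lemma mat_mul (a b : Bor m (ZMod p)) : mat (a * b) = mat a * mat b := rfl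
lemma mat_inj {a b : Bor m (ZMod p)} (h : mat a = mat b) : a = b :=
  Subtype.ext (Units.ext h)
lemma mat_lev (a : Bor m (ZMod p)) : Lev 0 (mat a) := a.2
lemma mat_mul_inv (a : Bor m (ZMod p)) : mat a * mat a⁻¹ = 1 := by
  rw [← mat_mul, mul_inv_cancel]; rfl
lemma mat_inv_mul (a : Bor m (ZMod p)) : mat a⁻¹ * mat a = 1 := by
  rw [← mat_mul, inv_mul_cancel]; rfl
lemma mat_ub {n : Matrix (Fin m) (Fin m) (ZMod p)} (h : Lev 1 n) : mat (ub n) = 1 + n := uni_val h

omit [CharZero K] [FiniteDimensional K V] in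
lemma cong (ρ : Representation K (Bor m (ZMod p)) V) {r : ℕ} (hr : 1 ≤ r)
    (h : ∀ n, Lev r n → ρ (ub n) = 1) (a b : Bor m (ZMod p)) (hab : Lev r (mat b - mat a)) :
    ρ b = ρ a := by
  have h1 : Lev r (mat a⁻¹ * (mat b - mat a)) := (mat_lev _).mul0 hab
  have : b = a * ub (mat a⁻¹ * (mat b - mat a)) := by
    apply mat_inj
    rw [mat_mul, mat_ub (h1.mono hr), mul_add, ← mul_assoc, mat_mul_inv]
    simp
  rw [this, map_mul, h _ h1, mul_one]

lemma triv_root (ρ : Representation K (Bor m (ZMod p)) V) (hρ : ρ.IsIrreducible)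
    (hp : ¬ p ∣ finrank K V) {r : ℕ} (hr : 2 ≤ r)
    (h : ∀ n, Lev (r + 1) n → ρ (ub n) = 1) (i j : Fin m) (hij : (j : ℕ) = i + r) (s : ZMod p) :
    ρ (ub (single i j s)) = 1 := by
  have hL : ∀ t : ZMod p, Lev r (single i j t) := fun t => Lev.single hij.ge t
  have hL1 : ∀ t : ZMod p, Lev 1 (single i j t) := fun t => (hL t).mono (by omega)
  have hne : j ≠ i := by intro e; rw [e] at hij; omega
  let W : Submodule K V :=
    { carrier := {v | ∀ t, ρ (ub (single i j t)) v = v}
      add_mem' := fun ha hb t => by rw [map_add, ha t, hb t]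
      zero_mem' := fun t => map_zero _
      smul_mem' := fun c v hv t => by rw [map_smul, hv t] }
  have hW : ∀ g v, v ∈ W → ρ g v ∈ W := by
    intro b v hv t
    have e : ρ (b⁻¹ * ub (single i j t) * b)
        = ρ (ub (single i j (mat b⁻¹ i i * t * mat b j j))) := by
      apply cong ρ (r := r + 1) (by omega) h
      rw [mat_mul, mat_mul, mat_ub (hL1 _), mat_ub (hL1 _), mul_add, add_mul, mul_one,
        mat_inv_mul, add_sub_add_left_eq_sub]
      have l1 : Lev r (mat b⁻¹ * single i j t) := (mat_lev _).mul0 (hL t)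
      have l2 : Lev r (mat b⁻¹ * single i j t * mat b) := l1.mul0' (mat_lev _)
      intro a c hac
      by_cases hc : (c : ℕ) < a + r
      · exact (l2.sub (hL _)) a c hc
      · have hc' : (c : ℕ) = a + r := by omega
        rw [Matrix.sub_apply, l1.mul_apply (mat_lev b) hc' (j := c) rfl,
          (mat_lev b⁻¹).mul_apply (hL t) (i := a) (l := a) rfl hc']
        by_cases hai : i = a ∧ j = c
        · obtain ⟨rfl, rfl⟩ := hai
          simp
        · rw [single_apply_of_ne _ _ _ _ _ hai, single_apply_of_ne _ _ _ _ _ hai]; simp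
    have e2 : ub (single i j t) * b = b * (b⁻¹ * ub (single i j t) * b) := by group
    rw [← Module.End.mul_apply, ← map_mul, e2, map_mul, e, Module.End.mul_apply, hv]
  rcases inv_eq_bot_or_top ρ hρ W hW with h0 | h0
  · exfalso
    apply hp
    let l : Fin m := ⟨i + 1, by have := j.2; omega⟩
    have hil : Lev 1 (single i l (1 : ZMod p)) := Lev.single (by simp [l]) _
    have hx : ∀ t : ZMod p, Lev 1 (single i l t) := fun t => Lev.single (by simp [l]) _
    have hy : ∀ t : ZMod p, Lev 1 (single l j t) := fun t => Lev.single (by simp [l]; omega) _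
    have hjl : j ≠ l := by intro e; have := congrArg Fin.val e; simp [l] at this; omega
    have hli : l ≠ i := by intro e; have := congrArg Fin.val e; simp [l] at this
    have hz : ∀ a b : ZMod p, ub (single i j (a + b)) = ub (single i j a) * ub (single i j b) := by
      intro a b
      apply mat_inj
      rw [mat_mul, mat_ub (hL1 _), mat_ub (hL1 _), mat_ub (hL1 _), single_add]
      simp only [mul_add, add_mul, mul_one, one_mul, single_mul_single_of_ne _ _ _ _ hne]
      abel
    apply heis ρ (fun a => ub (single i l a)) (fun a => ub (single l j a))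
      (fun a => ub (single i j a))
    · intro a b
      apply mat_inj
      rw [mat_mul, mat_ub (hy _), mat_ub (hy _), mat_ub (hy _), single_add]
      simp only [mul_add, add_mul, mul_one, one_mul, single_mul_single_of_ne _ _ _ _ hjl]
      abel
    · apply mat_inj
      rw [mat_ub (hy _)]; simp [mat]
    · intro a b
      rw [mul_inv_eq_iff_eq_mul]
      apply mat_inj
      simp only [mat_mul, mat_ub (hy _), mat_ub (hx _), mat_ub (hL1 _)]
      simp only [mul_add, add_mul, mul_one, one_mul, single_mul_single_of_ne _ _ _ _ hjl,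
        single_mul_single_of_ne _ _ _ _ hne, single_mul_single_same, zero_mul]
      abel
    · ext v
      have : (∑ s, ρ (ub (single i j s))) v ∈ W := by
        intro t
        rw [← Module.End.mul_apply, Finset.mul_sum]
        simp only [← map_mul, ← hz]
        rw [Fintype.sum_equiv (Equiv.addLeft t) (fun b => ρ (ub (single i j (t + b))))
          (fun s => ρ (ub (single i j s))) (fun _ => rfl)]
      rw [h0] at this
      simpa using this
  · ext v
    have : v ∈ W := by rw [h0]; trivial
    exact this s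

lemma triv_two (ρ : Representation K (Bor m (ZMod p)) V) (hρ : ρ.IsIrreducible)
    (hp : ¬ p ∣ finrank K V) : ∀ n, Lev 2 n → ρ (ub n) = 1 := by
  have key : ∀ d r, 2 ≤ r → m ≤ r + d → ∀ n, Lev r n → ρ (ub n) = 1 := by
    intro d
    induction d with
    | zero =>
      intro r _ hm n hn
      rw [(hn.mono (by omega : m ≤ r)).eq_zero]
      have : (ub 0 : Bor m (ZMod p)) = 1 := Subtype.ext uni_zero
      rw [this, map_one]
    | succ d ih =>
      intro r hr hm n hn
      have h := ih (r + 1) (by omega) (by omega)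
      have hadd : ∀ a b : Matrix (Fin m) (Fin m) (ZMod p), Lev r a ∧ ρ (ub a) = 1 →
          Lev r b ∧ ρ (ub b) = 1 → Lev r (a + b) ∧ ρ (ub (a + b)) = 1 := by
        rintro a b ⟨ha, ha'⟩ ⟨hb, hb'⟩
        refine ⟨ha.add hb, ?_⟩
        rw [← cong ρ (r := r + 1) (by omega) h (ub (a + b)) (ub a * ub b), map_mul, ha', hb',
          mul_one]
        rw [mat_mul, mat_ub (ha.mono (by omega)), mat_ub (hb.mono (by omega)),
          mat_ub ((ha.add hb).mono (by omega))]
        have : (1 + a) * (1 + b) - (1 + (a + b)) = a * b := by noncomm_ring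
        rw [this]
        exact (ha.mul hb).mono (by omega)
      have h0 : Lev r (0 : Matrix (Fin m) (Fin m) (ZMod p)) ∧ ρ (ub 0) = 1 :=
        ⟨Lev.zero, h _ Lev.zero⟩
      rw [matrix_eq_sum_single n]
      refine (Finset.sum_induction _ (fun a => Lev r a ∧ ρ (ub a) = 1) hadd h0 ?_).2
      intro i _
      refine Finset.sum_induction _ (fun a => Lev r a ∧ ρ (ub a) = 1) hadd h0 ?_
      intro j _
      rcases lt_trichotomy (j : ℕ) (i + r) with hj | hj | hj
      · rw [hn i j hj, single_zero]; exact h0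
      · exact ⟨Lev.single hj.ge _, triv_root ρ hρ hp hr h i j hj _⟩
      · exact ⟨Lev.single hj.le _, h _ (Lev.single (by omega) _)⟩
  exact key m 2 le_rfl (by omega)

lemma pow_diag {F : Type} [Field F] {A : Matrix (Fin m) (Fin m) F} (h : Lev 0 A) (i : Fin m)
    (k : ℕ) : (A ^ k) i i = A i i ^ k := by
  induction k with
  | zero => simp
  | succ k ih => rw [pow_succ, (h.pow k).mul_apply h (l := i) rfl rfl, ih, pow_succ]

lemma pow_super {F : Type} [Field F] {A : Matrix (Fin m) (Fin m) F} (h : Lev 0 A) {i j : Fin m}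
    (hj : (j : ℕ) = i + 1) (k : ℕ) :
    (A ^ k) i j * (A i i - A j j) = (A i i ^ k - A j j ^ k) * A i j ∧
    (A i i = A j j → (A ^ k) i j * A i i = k * A i i ^ k * A i j) := by
  have hij : i ≠ j := by intro e; rw [e] at hj; omega
  induction k with
  | zero => simp [Matrix.one_apply_ne hij]
  | succ k ih =>
    rw [pow_succ, (h.pow k).mul_super h hj, pow_diag h]
    refine ⟨?_, fun e => ?_⟩
    · linear_combination (A j j) * ih.1
    · have := ih.2 e
      rw [← e]
      push_cast
      linear_combination (A i i) * this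

/-- in the Borel subgroup, characters of degree prime to `p` are invariant under `b ↦ b ^ k`. -/
lemma borel_pow (ρ : Representation K (Bor m (ZMod p)) V) (hρ : ρ.IsIrreducible)
    (hp : ¬ p ∣ finrank K V) (k : ℕ) (hk : (k : ZMod p) ≠ 0)
    (hk1 : ∀ t : ZMod p, t ≠ 0 → t ^ k = t) (b : Bor m (ZMod p)) :
    ρ.character (b ^ k) = ρ.character b := by
  classical
  let d : ℕ → ZMod p := fun a => if h : a < m then mat b ⟨a, h⟩ ⟨a, h⟩ else 1
  have hd : ∀ i : Fin m, d i = mat b i i := fun i => by simp [d]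
  let c : ℕ → ZMod p := fun a => if d a = d (a + 1) then k else 1
  have hc : ∀ a, c a ≠ 0 := fun a => by
    simp only [c]; split_ifs
    exacts [hk, one_ne_zero]
  let t : Fin m → ZMod p := fun i => ∏ a ∈ Finset.range i, c a
  have ht : ∀ i, t i ≠ 0 := fun i => Finset.prod_ne_zero_iff.mpr fun a _ => hc a
  let D : GL (Fin m) (ZMod p) :=
    ⟨diagonal t, diagonal fun i => (t i)⁻¹,
      by rw [diagonal_mul_diagonal]; simp [mul_inv_cancel₀ (ht _)],
      by rw [diagonal_mul_diagonal]; simp [inv_mul_cancel₀ (ht _)]⟩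
  let D' : Bor m (ZMod p) := ⟨D, Lev.diagonal t⟩
  have e : ρ (b ^ k) = ρ (D'⁻¹ * b * D') := by
    apply cong ρ (r := 2) (by omega) (triv_two ρ hρ hp)
    have e1 : mat (D'⁻¹ * b * D') = diagonal (fun i => (t i)⁻¹) * mat b * diagonal t := rfl
    have e2 : mat (b ^ k) = mat b ^ k := by simp [mat]
    have hb := mat_lev b
    have hb0 : ∀ i, mat b i i ≠ 0 := Lev.diag_ne_zero hb
    intro i j hij
    rw [Matrix.sub_apply, e1, e2, mul_diagonal, diagonal_mul, sub_eq_zero]
    rcases lt_trichotomy (j : ℕ) i with h | h | h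
    · rw [hb.pow k i j h, hb i j h]; simp
    · obtain rfl : j = i := Fin.ext h
      rw [pow_diag hb, hk1 _ (hb0 _)]
      field_simp [ht j]
    · have hj : (j : ℕ) = i + 1 := by omega
      have htj : t j = t i * c i := by simp only [t]; rw [hj, Finset.prod_range_succ]
      have hci : c i = if mat b i i = mat b j j then (k : ZMod p) else 1 := by
        simp only [c]; rw [← hj, hd, hd]
      obtain ⟨s1, s2⟩ := pow_super hb hj k
      rw [hk1 _ (hb0 _)] at s1 s2
      rw [hk1 _ (hb0 _)] at s1
      rw [htj, hci]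
      have := ht i
      split_ifs with h1
      · have s3 := s2 h1
        apply mul_right_cancel₀ (hb0 i)
        rw [s3]
        field_simp
      · apply mul_right_cancel₀ (sub_ne_zero.mpr h1)
        rw [s1]
        field_simp
  have := ρ.char_conj b D'⁻¹
  rw [inv_inv] at this
  rw [← this]
  unfold Representation.character
  rw [e]

end Pool.Agent.Lib.MP_1ae3da_al
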