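import Pool.Agent.Lib.MP_1ae3da_al.GT

/-! Stability of the pairs and the count of the invariant characters. -/

namespace Pool.Agent.Lib.MP_1ae3da_al.GM

open Equiv Module

namespace AbsC

variable {G G0 : Type} [Group G] [Group G0]

lemma rel_of (Γ : Sg G) {T : Subgroup G} {ω : ℤˣ} {f : G → K} (hc : Cl f)
    (hT : ∀ r ∈ T, ∀ x, f (r * x) = f x) (hz : ∀ x, f (Γ.z * x) = uK ω * f x) :
    ∀ x y u, Γ.Rel T ω 0 x y u → f y = uK u * f x := by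
  rintro x y u ⟨r, hr, j, h, rfl, rfl⟩
  rw [mul_assoc, hT r hr, pow_zero, mul_one]
  induction j with
  | zero => simpa using hc x h
  | succ j ih => rw [pow_succ', mul_assoc, hz, ih, pow_succ', uK_mul, mul_assoc]

lemma fix_of [Fintype G] (hch : ChSt) (hsq : SqSt) {Γ : Gr G G0} {p : ℕ} {T : Subgroup G} {M : ℕ}
    {S : Set Ga} (H : AbsH Γ p T M S) {ω : ℤˣ} {f : G → K} (hf : f ∈ VC G)
    (hT : ∀ r ∈ T, ∀ x, f (r * x) = f x) (hz : ∀ x, f (Γ.z * x) = uK ω * f x)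
    (h0 : ∀ x, Γ.sg x = -1 → f x = 0) {σ : Ga} (hσ : σ ∈ S) (x : G) : σ (f x) = f x := by
  have h1 : f ∈ Γ.Sp T ω 0 (fun x => Γ.sg x = 1) M ∅ 1 :=
    ⟨rel_of Γ.toSg ((hch.a G).cl f hf) hT hz,
      fun x hx => h0 x ((Int.units_eq_one_or _).resolve_left hx), by simp⟩
  obtain ⟨s, hs⟩ := hsq.ex M σ H.pos
  rw [(hch.b G).gal f hf σ M s x H.pos (H.exp x) hs, (H.stab ω h1).2.2 σ hσ s hs x]
  simp

lemma covM [Fintype G] [Fintype G0] (hch : ChSt) (hix : IxSt) (hsq : SqSt) {Γ : Gr G G0} {p : ℕ}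
    {T : Subgroup G} {M : ℕ} {S : Set Ga} (H : AbsH Γ p T M S) (ω : ℤˣ) (θ : G0 → K)
    (hθ : θ ∈ Γ.IM p ∅ ω 1) : ∃ ε, θ ∈ Γ.IM p S ω ε := by
  classical
  obtain ⟨h1, h2, h3, -⟩ := hθ
  have I := hix G G0 Γ
  obtain ⟨t, ht⟩ := Γ.odd
  obtain ⟨n, hn, hp⟩ := id h1
  obtain ⟨χ, hχ, htw, hres⟩ := I.b2 n θ hn t ht (h3 t ht)
  have hcl : Cl θ := (hch.a G0).cl θ ((hch.a G0).ch_vc _ ((hch.a G0).irr_ch _ ⟨n, hn⟩))
  have hV : χ ∈ VC G := (hch.a G).ch_vc _ ((hch.a G).irr_ch _ ⟨_, hχ⟩)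
  have h0 : ∀ x, Γ.sg x = -1 → χ x = 0 := fun x hx => by
    have := congrFun htw x
    rw [Sg.tw, hx, uK_neg, uK_one, neg_one_mul] at this
    exact self_eq_neg.1 this.symm
  have hr : ∀ x, χ (Γ.ι x) = θ x + θ (Γ.cj t x) := fun x => congrFun hres x
  have hθT := (H.hG0 θ ⟨n, hn⟩).1 h1
  have hT : ∀ r ∈ T, ∀ x, χ (r * x) = χ x := fun r hr' x => by
    rcases Int.units_eq_one_or (Γ.sg x) with hx | hx
    · obtain ⟨x, rfl⟩ := (Γ.rng x).1 hx
      obtain ⟨r0, rfl⟩ := (Γ.rng r).1 (H.ev r hr')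
      rw [← map_mul, hr, hr, hθT _ hr' x (r0 * x) (map_mul _ _ _),
        hθT _ (H.nrm.conj_mem _ hr' t) (Γ.cj t x) (Γ.cj t (r0 * x))]
      rw [Γ.ι_cj, Γ.ι_cj, map_mul]; group
    · rw [h0 x hx, h0]
      rw [map_mul, H.ev r hr', hx, one_mul]
  have hz : ∀ x, χ (Γ.z * x) = uK ω * χ x := fun x => by
    rcases Int.units_eq_one_or (Γ.sg x) with hx | hx
    · obtain ⟨x, rfl⟩ := (Γ.rng x).1 hx
      obtain ⟨z0, hz0⟩ := (Γ.rng Γ.z).1 Γ.zs
      rw [← hz0, ← map_mul, hr, hr, h2 x (z0 * x) (by rw [map_mul, hz0]),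
        h2 (Γ.cj t x) (Γ.cj t (z0 * x)), mul_add]
      rw [Γ.ι_cj, Γ.ι_cj, map_mul, hz0, ← mul_assoc t, ← Γ.zc t]; group
    · rw [h0 x hx, h0, mul_zero]
      rw [map_mul, Γ.zs, hx, one_mul]
  refine ⟨fun σ => if σ ∘ θ = θ then 1 else -1, h1, h2, h3, fun σ hσ t' ht' => ?_⟩
  have h4 := I.c2 θ ⟨n, hn⟩ (σ ∘ θ) ⟨n, hn.twist σ⟩ t (funext fun x => by
    have := fix_of hch hsq H hV hT hz h0 hσ (Γ.ι x)
    rw [hr, map_add] at this
    exact this)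
  dsimp only at ht'
  split_ifs at ht' with h5
  · rw [h5, I.cj_even θ hcl t' ht']
  · rw [h4.resolve_left h5, I.cj_odd θ hcl t t' (ht.trans ht'.symm)]

lemma covQ [Fintype G] (hch : ChSt) (hix : IxSt) (hsq : SqSt) {Γ : Gr G G0} {p : ℕ}
    {T : Subgroup G} {M : ℕ} {S : Set Ga} (H : AbsH Γ p T M S) (ω : ℤˣ) (χ : G → K)
    (hχ : χ ∈ Γ.IQ p ∅ ω 1) : ∃ ε, χ ∈ Γ.IQ p S ω ε := by
  classical
  obtain ⟨h1, h2, h3, -⟩ := hχ
  have I := hix G G0 Γ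
  obtain ⟨n, hn, hp⟩ := id h1
  have hT := (H.hG χ ⟨n, hn⟩).1 h1
  have hV : χ + Γ.tw χ ∈ VC G := add_mem ((hch.a G).ch_vc _ ((hch.a G).irr_ch _ ⟨_, hn⟩))
    ((hch.a G).ch_vc _ ((hch.a G).irr_ch _ ⟨_, I.tw_irr n χ hn⟩))
  refine ⟨fun σ => if σ ∘ χ = χ then 1 else -1, h1, h2, h3, fun σ hσ => ?_⟩
  have h4 := I.c1 χ ⟨n, hn⟩ (σ ∘ χ) ⟨n, hn.twist σ⟩ (funext fun x => by
    have := fix_of hch hsq H (ω := ω) hV
      (fun r hr x => by simp [Sg.tw, hT r hr, H.ev r hr])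
      (fun x => by simp only [Pi.add_apply, Sg.tw, h2, map_mul, Γ.zs, one_mul]; ring)
      (fun x hx => by simp [Sg.tw, hx]) hσ (Γ.ι x)
    simp only [Pi.add_apply, Sg.tw, Γ.sg_ι, uK_one, one_mul, map_add] at this
    rw [← two_mul, ← two_mul] at this
    exact mul_left_cancel₀ two_ne_zero this)
  by_cases h5 : σ ∘ χ = χ
  · simp [h5]
  · simp [h5, h4.resolve_left h5]

lemma ip_shift [Fintype G] (χ f : G → K) (a : G) (hf : ∀ g, f (g * a⁻¹) = f g) :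
    ip χ f = (Nat.card G : K)⁻¹ * ∑ g, χ (a * g) * f g⁻¹ := by
  unfold ip
  congr 1
  rw [← Equiv.sum_comp (Equiv.mulLeft a)]
  simp [hf]

lemma cnt [Fintype G] (hch : ChSt) {Γ : Gr G G0} {p : ℕ}
    {T : Subgroup G} {M : ℕ} {S : Set Ga} (H : AbsH Γ p T M S) :
    (Γ.IA p 1).ncard = finrank K (Γ.Sp T 1 0 (fun _ => True) M ∅ 1) := by
  classical
  have ha := hch.a G
  have hsub : Γ.IA p 1 ⊆ Irr G := fun χ ⟨⟨n, hn, _⟩, _⟩ => ⟨n, hn⟩
  have := (ha.fin.subset hsub).fintype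
  have hli : LinearIndepOn K id (Γ.IA p 1) := by
    rw [linearIndepOn_iff'']
    intro t g ht _ h0 χ hχ
    have h1 := congrArg (fun f => ip f χ) h0
    simp only [ip_sum_left, id, ip_smul_left] at h1
    rw [Finset.sum_eq_single χ, ha.orth1 χ (hsub (ht hχ)), mul_one] at h1
    · simpa [ip] using h1
    · intro ψ hψ hne
      rw [ha.orth0 ψ (hsub (ht hψ)) χ (hsub (ht hχ)) hne, mul_zero]
    · exact fun h => absurd hχ h
  have hsp : Γ.Sp T 1 0 (fun _ => True) M ∅ 1 = Submodule.span K (Γ.IA p 1) := by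
    apply le_antisymm
    · rintro f ⟨h1, -, -⟩
      have hc : Cl f := fun g h => by
        simpa using h1 g _ 1 ⟨1, one_mem _, 0, h, by simp, by simp⟩
      have hT : ∀ r ∈ T, ∀ x, f (x * r⁻¹) = f x := fun r hr x => by
        simpa using h1 x (x * r⁻¹) 1 ⟨x * r⁻¹ * x⁻¹, H.nrm.conj_mem _ (inv_mem hr) x, 0, 1,
          by simp, by simp⟩
      have hz : ∀ x, f (x * Γ.z⁻¹) = f x := fun x => by
        have h2 : Γ.z⁻¹ = Γ.z := inv_eq_of_mul_eq_one_left Γ.zz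
        simpa using h1 x (x * Γ.z⁻¹) 1 ⟨1, one_mem _, 1, 1, by simp [h2, Γ.zc], by simp⟩
      rw [ha.expand f hc ha.fin.toFinset (by simp)]
      refine Submodule.sum_mem _ fun χ hχ => ?_
      have hI : χ ∈ Irr G := by simpa using hχ
      by_cases h2 : χ ∈ Γ.IA p 1
      · exact Submodule.smul_mem _ _ (Submodule.subset_span h2)
      suffices h3 : ip f χ = 0 by rw [h3, zero_smul]; exact zero_mem _
      rw [ha.symm]
      have := H.nrm
      have := Fintype.ofFinite T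
      rcases (hch.b G).ker χ hI T with h3 | h3
      · obtain ⟨ω, hω⟩ := (hch.b G).cen χ hI Γ.z Γ.zc Γ.zz
        rcases Int.units_eq_one_or ω with rfl | rfl
        · exact absurd ⟨(H.hG χ hI).2 h3, hω⟩ h2
        · have h4 := ip_shift χ f Γ.z hz
          simp only [hω, uK_neg, uK_one, neg_mul, one_mul, Finset.sum_neg_distrib, mul_neg] at h4
          exact self_eq_neg.1 h4
      · have h4 : ∑ r : T, ip χ f = 0 := by
          rw [Finset.sum_congr rfl fun (r : T) _ => ip_shift χ f r (hT r r.2), ← Finset.mul_sum,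
            Finset.sum_comm]
          simp only [← Finset.sum_mul, h3, zero_mul, Finset.sum_const_zero, mul_zero]
        rw [Finset.sum_const, nsmul_eq_mul, mul_eq_zero] at h4
        exact h4.resolve_left (Nat.cast_ne_zero.2 Fintype.card_ne_zero)
    · rw [Submodule.span_le]
      intro χ hχ
      exact ⟨rel_of Γ.toSg (ha.cl χ (ha.ch_vc _ (ha.irr_ch _ (hsub hχ))))
        ((H.hG χ (hsub hχ)).1 hχ.1) hχ.2, by simp, by simp⟩
  rw [hsp, finrank_span_set_eq_card hli, Set.ncard_eq_toFinset_card']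

end AbsC

theorem absC (hch : ChSt) (hix : IxSt) (hsq : SqSt) : AbsCSt := by
  intro G G0 _ _ _ Γ p T M S H
  have := Fintype.ofFinite G
  have : Finite G0 := Finite.of_injective _ Γ.inj
  have := Fintype.ofFinite G0
  exact ⟨fun ω => ⟨AbsC.covM hch hix hsq H ω, AbsC.covQ hch hix hsq H ω⟩, AbsC.cnt hch H⟩

end Pool.Agent.Lib.MP_1ae3da_al.GM
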