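import Pool.Agent.Lib.MP_1ae3da_al.GT

/-! Counting the characters of the even part that are not invariant. -/

namespace Pool.Agent.Lib.MP_1ae3da_al.GM

open Equiv Module

namespace AbsM

/-- functions that change sign under `c`. -/
def Anti {I : Type} (c : I → I) : Submodule K (I → K) where
  carrier := {a | ∀ i, a (c i) = -a i}
  zero_mem' := by simp
  add_mem' := by
    intro a b ha hb i
    simp only [Pi.add_apply, ha i, hb i]; ring
  smul_mem' := by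
    intro t a ha i
    simp only [Pi.smul_apply, ha i, smul_eq_mul]; ring

lemma mem_anti {I : Type} (c : I → I) (a : I → K) : a ∈ Anti c ↔ ∀ i, a (c i) = -a i := Iff.rfl

/-- for a fixed point free involution the space has dimension half the cardinality. -/
lemma card_eq {I : Type} [Finite I] (c : I → I) (h2 : ∀ i, c (c i) = i) (h1 : ∀ i, c i ≠ i) :
    Nat.card I = 2 * finrank K (Anti c) := by
  classical
  have := Fintype.ofFinite I
  let e := Fintype.equivFin I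
  let s : I → K := fun i => if e i < e (c i) then 1 else -1
  have hs : ∀ i, s (c i) = -s i := by
    intro i
    have hne : e (c i) ≠ e i := fun h => h1 i (e.injective h)
    simp only [s, h2]
    by_cases h : e i < e (c i)
    · rw [if_pos h, if_neg (not_lt.2 h.le)]
    · rw [if_neg h, if_pos (lt_of_le_of_ne (not_lt.1 h) hne), neg_neg]
  have hss : ∀ i, s i * s i = 1 := by
    intro i; simp only [s]; split_ifs <;> simp
  let Ψ : (Anti c × Anti c) →ₗ[K] (I → K) :=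
    { toFun := fun w i => w.1.1 i + s i * w.2.1 i
      map_add' := by
        intro x y; funext i
        simp only [Prod.fst_add, Prod.snd_add, Submodule.coe_add, Pi.add_apply]; ring
      map_smul' := by
        intro t x; funext i
        simp only [Prod.smul_fst, Prod.smul_snd, Submodule.coe_smul, Pi.smul_apply, smul_eq_mul,
          RingHom.id_apply]; ring }
  have hinj : Function.Injective Ψ := by
    rw [injective_iff_map_eq_zero]
    rintro ⟨a, b⟩ h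
    have k : ∀ i, a.1 i = 0 ∧ b.1 i = 0 := by
      intro i
      have k1 : a.1 i + s i * b.1 i = 0 := congrFun h i
      have k2 : a.1 (c i) + s (c i) * b.1 (c i) = 0 := congrFun h (c i)
      rw [a.2 i, b.2 i, hs i] at k2
      refine ⟨by linear_combination (k1 - k2) / 2, ?_⟩
      linear_combination s i * (k1 + k2) / 2 - b.1 i * hss i
    exact Prod.ext (Subtype.ext (funext fun i => (k i).1)) (Subtype.ext (funext fun i => (k i).2))
  have hsurj : Function.Surjective Ψ := by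
    intro f
    refine ⟨(⟨fun i => (f i - f (c i)) / 2, fun i => ?_⟩,
      ⟨fun i => s i * (f i + f (c i)) / 2, fun i => ?_⟩), funext fun i => ?_⟩
    · simp only [h2]; ring
    · simp only [h2, hs]; ring
    · change (f i - f (c i)) / 2 + s i * (s i * (f i + f (c i)) / 2) = f i
      linear_combination (f i + f (c i)) / 2 * hss i
  have := (LinearEquiv.ofBijective Ψ ⟨hinj, hsurj⟩).finrank_eq
  rw [finrank_prod, finrank_pi, ← Nat.card_eq_fintype_card] at this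
  omega

lemma ip_equiv {H : Type} [Group H] [Fintype H] (e : H ≃ H) (θ θ' F : H → K) (a b : K)
    (h1 : ∀ g, θ (e g) = a * θ' g) (h2 : ∀ g, F (e g)⁻¹ = b * F g⁻¹) :
    ip θ F = a * b * ip θ' F := by
  unfold ip
  rw [← Equiv.sum_comp e]
  simp only [h1, h2, Finset.mul_sum]
  exact Finset.sum_congr rfl fun g _ => by ring

variable {G G0 : Type} [Group G] [Group G0] (Γ : Gr G G0)

lemma sp_rel {T : Subgroup G} {ω : ℤˣ} {M : ℕ} {S : Set Ga} {ε : Ga → ℤˣ} {f : G → K}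
    (hf : f ∈ Γ.Sp T ω 1 (fun x => Γ.sg x = 1) M S ε) (r : G) (hr : r ∈ T) (j : ℕ) (h x : G) :
    f (r * Γ.z ^ j * (h * x * h⁻¹)) = uK (ω ^ j * Γ.sg h) * f x :=
  hf.1 x _ _ ⟨r, hr, j, h, rfl, by rw [pow_one]⟩

lemma sp_cj {T : Subgroup G} {ω : ℤˣ} {M : ℕ} {S : Set Ga} {ε : Ga → ℤˣ} {f : G → K}
    (hf : f ∈ Γ.Sp T ω 1 (fun x => Γ.sg x = 1) M S ε) (t : G) (x : G0) :
    f (Γ.ι (Γ.cj t x)) = uK (Γ.sg t) * f (Γ.ι x) := by
  have := sp_rel Γ hf 1 T.one_mem 0 t (Γ.ι x)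
  rw [Γ.ι_cj]
  simpa using this

lemma sp_cl {T : Subgroup G} {ω : ℤˣ} {M : ℕ} {S : Set Ga} {ε : Ga → ℤˣ} {f : G → K}
    (hf : f ∈ Γ.Sp T ω 1 (fun x => Γ.sg x = 1) M S ε) : Cl (f ∘ Γ.ι) := by
  intro g h
  have := sp_rel Γ hf 1 T.one_mem 0 (Γ.ι h) (Γ.ι g)
  simpa [Γ.sg_ι] using this

lemma cj_inv (t : G) (x : G0) : (Γ.cj t x)⁻¹ = Γ.cj t x⁻¹ := (map_inv (Γ.cjA t) x).symm

lemma ip_cj [Fintype G0] {T : Subgroup G} {ω : ℤˣ} {M : ℕ} {S : Set Ga} {ε : Ga → ℤˣ} {f : G → K}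
    (hf : f ∈ Γ.Sp T ω 1 (fun x => Γ.sg x = 1) M S ε) (t : G) (θ : G0 → K) :
    ip (θ ∘ Γ.cj t) (f ∘ Γ.ι) = uK (Γ.sg t) * ip θ (f ∘ Γ.ι) := by
  have := ip_equiv (Γ.cjA t).toEquiv θ (θ ∘ Γ.cj t) (f ∘ Γ.ι) 1 (uK (Γ.sg t))
    (fun g => by simp [Gr.cjA_apply]) fun g => by
      change f (Γ.ι (Γ.cj t g)⁻¹) = _
      rw [cj_inv, sp_cj Γ hf]; rfl
  rw [this, one_mul, ← mul_assoc, uK_sq, one_mul]

/-- a constituent of an element of the space lies in `IM`. -/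
lemma mem_IM (hch : ChSt) (hsq : SqSt) [Fintype G0] {p : ℕ} {T : Subgroup G} {M : ℕ}
    {S : Set Ga} (H : AbsH Γ p T M S) {ω : ℤˣ} {ε : Ga → ℤˣ} (hc : Γ.Cov p S ω) {f : G → K}
    (hf : f ∈ Γ.Sp T ω 1 (fun x => Γ.sg x = 1) M S ε) {θ : G0 → K} (hθ : θ ∈ Irr G0)
    (hne : ip θ (f ∘ Γ.ι) ≠ 0) : θ ∈ Γ.IM p S ω ε := by
  classical
  have ha := hch.a G0
  have hb := hch.b G0
  have hn := H.nrm
  -- invariance under `T`
  have h1 : θ ∈ IrrP G0 p := by
    rw [H.hG0 θ hθ]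
    have : Fintype (T.comap Γ.ι) := Fintype.ofFinite _
    rcases hb.ker θ hθ (T.comap Γ.ι) with h | h
    · intro r hr x y hy
      obtain ⟨r0, rfl⟩ := (Γ.rng r).1 (H.ev r hr)
      rw [← map_mul] at hy
      rw [Γ.inj hy]
      exact h r0 hr x
    · exfalso
      apply hne
      have k : ∀ r : T.comap Γ.ι, ip θ (f ∘ Γ.ι) = ip (fun g => θ (r * g)) (f ∘ Γ.ι) := by
        intro r
        have := ip_equiv (Equiv.mulLeft (r : G0)) θ (fun g => θ (r * g)) (f ∘ Γ.ι) 1 1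
          (fun g => by simp) fun g => by
            have h3 := sp_rel Γ hf (Γ.ι g⁻¹ * (Γ.ι r)⁻¹ * (Γ.ι g⁻¹)⁻¹)
              (hn.conj_mem _ (T.inv_mem r.2) _) 0 1 (Γ.ι g⁻¹)
            simpa using h3
        simpa using this
      have k2 : ∑ r : T.comap Γ.ι, ip θ (f ∘ Γ.ι) = 0 := by
        rw [Finset.sum_congr rfl fun r _ => k r, ← ip_sum_left]
        have : (∑ r : T.comap Γ.ι, fun g => θ (r * g)) = 0 := by
          funext g; rw [Finset.sum_apply]; exact h g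
        rw [this]; simp [ip]
      rw [Finset.sum_const, nsmul_eq_mul, mul_eq_zero] at k2
      exact k2.resolve_left (Nat.cast_ne_zero.2 (Finset.card_pos.2 Finset.univ_nonempty).ne')
  -- the central sign
  have h2 : ∀ x y, Γ.ι y = Γ.z * Γ.ι x → θ y = uK ω * θ x := by
    obtain ⟨z0, hz⟩ := (Γ.rng Γ.z).1 Γ.zs
    have hzc : ∀ g, z0 * g = g * z0 := fun g => Γ.inj (by rw [map_mul, map_mul, hz, Γ.zc])
    have hzz : z0 * z0 = 1 := Γ.inj (by rw [map_mul, hz, Γ.zz, map_one])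
    obtain ⟨ω', hω⟩ := hb.cen θ hθ z0 hzc hzz
    have := ip_equiv (Equiv.mulLeft z0) θ θ (f ∘ Γ.ι) (uK ω') (uK ω) (fun g => hω g) fun g => by
      have h3 := sp_rel Γ hf 1 T.one_mem 1 1 (Γ.ι g⁻¹)
      have h4 : (z0 * g)⁻¹ = z0 * g⁻¹ := by
        rw [mul_inv_rev, inv_eq_of_mul_eq_one_right hzz, hzc]
      simp only [Equiv.coe_mulLeft, h4, Function.comp, map_mul, hz]
      simpa using h3
    have h5 : uK ω' * uK ω = 1 := mul_right_cancel₀ hne (by rw [← this, one_mul])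
    have h6 : uK ω' = uK ω := by rw [← mul_one (uK ω'), ← uK_sq ω, ← mul_assoc, h5, one_mul]
    intro x y hy
    rw [← hz, ← map_mul] at hy
    rw [Γ.inj hy, hω, h6]
  -- not invariant
  have h3 : ∀ t, Γ.sg t = -1 → θ ∘ Γ.cj t ≠ θ := by
    intro t ht he
    have := ip_cj Γ hf t θ
    rw [he, ht, uK_neg, uK_one] at this
    apply hne
    linear_combination this / 2
  obtain ⟨ε', hε⟩ := hc.1 θ ⟨h1, h2, h3, fun _ h => h.elim⟩
  refine ⟨h1, h2, h3, fun σ hσ t ht => hε.2.2.2 σ hσ t (ht.trans ?_)⟩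
  obtain ⟨s, hs⟩ := hsq.ex M σ H.pos
  have hM : ∀ x : G0, x ^ M = 1 := fun x => Γ.inj (by rw [map_pow, H.exp, map_one])
  have hcop : s.Coprime M := hsq.cop M σ s H.pos hs
  have hbij : Function.Bijective fun x : G0 => x ^ s := by
    refine Finite.surjective_iff_bijective.1 fun x => ?_
    obtain ⟨m, hm⟩ := exists_pow_eq_self_of_coprime
      (Nat.Coprime.coprime_dvd_right (orderOf_dvd_of_pow_eq_one (hM x)) hcop)
    exact ⟨x ^ m, by rw [← pow_mul, mul_comm, pow_mul]; exact hm⟩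
  obtain ⟨t', ht'⟩ : ∃ t', Γ.sg t' = ε' σ := by
    rcases Int.units_eq_one_or (ε' σ) with h | h
    · exact ⟨1, by rw [h, map_one]⟩
    · rw [h]; exact Γ.odd
  have k1 := ip_equiv (Equiv.ofBijective _ hbij) θ (σ ∘ θ) (f ∘ Γ.ι) 1 (uK (ε σ))
    (fun g => by
      rw [one_mul]
      exact (hb.gal θ (ha.ch_vc _ (ha.irr_ch _ hθ)) σ M s g H.pos (hM g) hs).symm)
    fun g => by
      change f (Γ.ι (g ^ s)⁻¹) = _
      rw [← inv_pow, map_pow]
      exact hf.2.2 σ hσ s hs _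
  rw [hε.2.2.2 σ hσ t' ht', ip_cj Γ hf, ht', one_mul, ← mul_assoc] at k1
  have h5 : uK (ε σ) * uK (ε' σ) = 1 := mul_right_cancel₀ hne (by rw [← k1, one_mul])
  apply uK_inj
  rw [← mul_one (uK (ε σ)), ← uK_sq (ε' σ), ← mul_assoc, h5, one_mul]

lemma IM_irr {p : ℕ} {S : Set Ga} {ω : ℤˣ} {ε : Ga → ℤˣ} {θ : G0 → K}
    (h : θ ∈ Γ.IM p S ω ε) : θ ∈ Irr G0 := by
  obtain ⟨n, hn, -⟩ := h.1
  exact ⟨n, hn⟩

lemma IM_cj (hx : IxG Γ) {p : ℕ} {S : Set Ga} {ω : ℤˣ} {ε : Ga → ℤˣ} {θ : G0 → K}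
    (hcl : Cl θ) (h : θ ∈ Γ.IM p S ω ε) {t : G} (ht : Γ.sg t = -1) :
    θ ∘ Γ.cj t ∈ Γ.IM p S ω ε := by
  obtain ⟨⟨n, hn, hp⟩, h2, h3, h4⟩ := h
  refine ⟨⟨n, hx.cj_irr n θ t hn, hp⟩, fun x y hy => h2 _ _ ?_, fun t' ht' => ?_,
    fun σ hσ t' ht' => ?_⟩
  · rw [Γ.ι_cj, Γ.ι_cj, hy, ← mul_assoc t, ← Γ.zc t]; simp only [mul_assoc]
  · rw [hx.cj_mul, hx.cj_even θ hcl _ (by rw [map_mul, ht, ht']; simp)]
    exact (h3 t ht).symm
  · rw [← Function.comp_assoc, h4 σ hσ t' ht', hx.cj_mul, hx.cj_mul]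
    exact hx.cj_odd θ hcl _ _ (by rw [map_mul, map_mul, mul_comm])

end AbsM

open AbsM in
theorem absM (hch : ChSt) (hix : IxSt) (hsq : SqSt) : AbsMSt := by
  intro G G0 _ _ _ Γ p T M S H ω ε hc
  classical
  have : Finite G0 := Finite.of_injective _ Γ.inj
  have : Fintype G0 := Fintype.ofFinite _
  have ha := hch.a G0
  have hb := hch.b G0
  have hx := hix G G0 Γ
  obtain ⟨t0, ht0⟩ := Γ.odd
  have hfin : (Γ.IM p S ω ε).Finite := ha.fin.subset fun θ h => IM_irr Γ h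
  have : Finite (Γ.IM p S ω ε) := hfin
  have : Fintype (Γ.IM p S ω ε) := Fintype.ofFinite _
  have hvc : ∀ θ : Γ.IM p S ω ε, θ.1 ∈ VC G0 := fun θ => ha.ch_vc _ (ha.irr_ch _ (IM_irr Γ θ.2))
  have hcl : ∀ θ : Γ.IM p S ω ε, Cl θ.1 := fun θ => ha.cl _ (hvc θ)
  let c : Γ.IM p S ω ε → Γ.IM p S ω ε := fun θ => ⟨θ.1 ∘ Γ.cj t0, IM_cj Γ hx (hcl θ) θ.2 ht0⟩
  have c2 : ∀ θ, c (c θ) = θ := fun θ => Subtype.ext (by
    change (θ.1 ∘ Γ.cj t0) ∘ Γ.cj t0 = θ.1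
    rw [hx.cj_mul, hx.cj_even _ (hcl θ) _ (by rw [map_mul, ht0]; simp)])
  have c1 : ∀ θ, c θ ≠ θ := fun θ h => θ.2.2.2.1 t0 ht0 (congrArg Subtype.val h)
  rw [← Nat.card_coe_set_eq, card_eq c c2 c1]
  congr 1
  let Φ : Γ.Sp T ω 1 (fun x => Γ.sg x = 1) M S ε →ₗ[K] (Γ.IM p S ω ε → K) :=
    { toFun := fun f θ => ip θ.1 (f.1 ∘ Γ.ι)
      map_add' := fun f g => funext fun θ => ip_add_right θ.1 (f.1 ∘ Γ.ι) (g.1 ∘ Γ.ι)
      map_smul' := fun t f => funext fun θ => ip_smul_right t θ.1 (f.1 ∘ Γ.ι) }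
  have hinj : Function.Injective Φ := by
    rw [injective_iff_map_eq_zero]
    intro f hf
    have h0 : f.1 ∘ Γ.ι = 0 := by
      refine ha.compl _ (sp_cl Γ f.2) fun θ hθ => ?_
      rw [ha.symm]
      by_contra hne
      exact hne (congrFun hf ⟨θ, mem_IM Γ hch hsq H hc f.2 hθ hne⟩)
    refine Subtype.ext (funext fun g => ?_)
    by_cases hg : Γ.sg g = 1
    · obtain ⟨x, rfl⟩ := (Γ.rng g).1 hg
      exact congrFun h0 x
    · exact f.2.2.1 g hg
  rw [← LinearMap.finrank_range_of_inj hinj]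
  suffices h : Anti c = LinearMap.range Φ by rw [h]
  apply le_antisymm
  swap
  · rintro _ ⟨f, rfl⟩ θ
    change ip (θ.1 ∘ Γ.cj t0) (f.1 ∘ Γ.ι) = -ip θ.1 (f.1 ∘ Γ.ι)
    rw [ip_cj Γ f.2, ht0]; simp
  intro a haa
  let F : G0 → K := ∑ θ : Γ.IM p S ω ε, a θ • θ.1
  have hF : ∀ x, F x = ∑ θ : Γ.IM p S ω ε, a θ * θ.1 x := fun x => by
    simp [F, Finset.sum_apply]
  have hFc : ∀ t x, F (Γ.cj t x) = uK (Γ.sg t) * F x := by
    intro t x
    rcases Int.units_eq_one_or (Γ.sg t) with h | h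
    · rw [h, uK_one, one_mul, hF, hF]
      exact Finset.sum_congr rfl fun θ _ => by rw [← congrFun (hx.cj_even _ (hcl θ) t h) x]; rfl
    · rw [h, uK_neg, uK_one, hF, hF, Finset.mul_sum,
        ← Equiv.sum_comp (Function.Involutive.toPerm c c2)]
      refine Finset.sum_congr rfl fun θ _ => ?_
      have k : (θ.1 ∘ Γ.cj t0) ∘ Γ.cj t = θ.1 := by
        rw [hx.cj_mul, hx.cj_even _ (hcl θ) _ (by rw [map_mul, ht0, h]; simp)]
      change a (c θ) * ((θ.1 ∘ Γ.cj t0) ∘ Γ.cj t) x = _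
      rw [haa θ, k]; ring
  let f : G → K := Function.extend Γ.ι F 0
  have hf1 : ∀ x, f (Γ.ι x) = F x := fun x => Γ.inj.extend_apply _ _ _
  have hf0 : ∀ g, ¬ Γ.sg g = 1 → f g = 0 := fun g hg =>
    Function.extend_apply' _ _ _ fun h => hg ((Γ.rng g).2 h)
  have hfT : ∀ r ∈ T, ∀ g, f (r * g) = f g := by
    intro r hr g
    by_cases hg : Γ.sg g = 1
    · obtain ⟨x, rfl⟩ := (Γ.rng g).1 hg
      obtain ⟨y, hy⟩ := (Γ.rng (r * Γ.ι x)).1 (by rw [map_mul, H.ev r hr, hg, one_mul])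
      rw [← hy, hf1, hf1, hF, hF]
      exact Finset.sum_congr rfl fun θ _ => by
        rw [(H.hG0 _ (IM_irr Γ θ.2)).1 θ.2.1 r hr x y hy]
    · rw [hf0 g hg, hf0 _ (by rwa [map_mul, H.ev r hr, one_mul])]
  have hfz : ∀ g, f (Γ.z * g) = uK ω * f g := by
    intro g
    by_cases hg : Γ.sg g = 1
    · obtain ⟨x, rfl⟩ := (Γ.rng g).1 hg
      obtain ⟨y, hy⟩ := (Γ.rng (Γ.z * Γ.ι x)).1 (by rw [map_mul, Γ.zs, hg, one_mul])
      rw [← hy, hf1, hf1, hF, hF, Finset.mul_sum]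
      exact Finset.sum_congr rfl fun θ _ => by rw [θ.2.2.1 x y hy]; ring
    · rw [hf0 g hg, hf0 _ (by rwa [map_mul, Γ.zs, one_mul]), mul_zero]
  have hfj : ∀ (j : ℕ) g, f (Γ.z ^ j * g) = uK (ω ^ j) * f g := by
    intro j g
    induction j with
    | zero => simp
    | succ j ih => rw [pow_succ', mul_assoc, hfz, ih, pow_succ', uK_mul, mul_assoc]
  have hfc : ∀ h g, f (h * g * h⁻¹) = uK (Γ.sg h) * f g := by
    intro h g
    by_cases hg : Γ.sg g = 1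
    · obtain ⟨x, rfl⟩ := (Γ.rng g).1 hg
      rw [← Γ.ι_cj, hf1, hf1, hFc]
    · rw [hf0 g hg, hf0 _ (by
        rwa [map_mul, map_mul, map_inv, mul_comm (Γ.sg h), mul_inv_cancel_right]), mul_zero]
  have hM : ∀ x : G0, x ^ M = 1 := fun x => Γ.inj (by rw [map_pow, H.exp, map_one])
  have hM2 : Even M := by
    have := congrArg Γ.sg (H.exp t0)
    rw [map_pow, ht0, map_one] at this
    exact (neg_one_pow_eq_one_iff_even (by decide)).1 this
  have hf : f ∈ Γ.Sp T ω 1 (fun x => Γ.sg x = 1) M S ε := by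
    refine ⟨?_, hf0, fun σ hσ s hs g => ?_⟩
    · rintro x y u ⟨r, hr, j, h, rfl, rfl⟩
      rw [mul_assoc, hfT r hr, hfj, hfc, pow_one, uK_mul, mul_assoc]
    · by_cases hg : Γ.sg g = 1
      · obtain ⟨x, rfl⟩ := (Γ.rng g).1 hg
        obtain ⟨t', ht'⟩ : ∃ t', Γ.sg t' = ε σ := by
          rcases Int.units_eq_one_or (ε σ) with h | h
          · exact ⟨1, by rw [h, map_one]⟩
          · exact ⟨t0, by rw [h, ht0]⟩
        rw [← map_pow, hf1, hf1, ← ht', ← hFc, hF, hF]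
        refine Finset.sum_congr rfl fun θ _ => ?_
        rw [← hb.gal _ (hvc θ) σ M s x H.pos (hM x) hs]
        exact congrArg _ (congrFun (θ.2.2.2.2 σ hσ t' ht') x)
      · have hs2 : Odd s := Nat.coprime_two_right.1
          (Nat.Coprime.coprime_dvd_right hM2.two_dvd (hsq.cop M σ s H.pos hs))
        have hg' : Γ.sg g = -1 := (Int.units_eq_one_or _).resolve_left hg
        rw [hf0 g hg, hf0 _ (by rw [map_pow, hg', hs2.neg_one_pow]; decide), mul_zero]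
  refine ⟨⟨f, hf⟩, funext fun θ => ?_⟩
  change ip θ.1 (f ∘ Γ.ι) = a θ
  have : f ∘ Γ.ι = F := funext hf1
  rw [this, ip_sum_right, Finset.sum_eq_single θ]
  · rw [ip_smul_right, ha.orth1 _ (IM_irr Γ θ.2), mul_one]
  · intro θ' _ hne
    rw [ip_smul_right, ha.orth0 _ (IM_irr Γ θ.2) _ (IM_irr Γ θ'.2)
      (fun h => hne (Subtype.ext h.symm)), mul_zero]
  · simp

end Pool.Agent.Lib.MP_1ae3da_al.GM
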