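import Pool.Agent.Lib.MP_1ae3da_al.GT

/-! Automorphisms of alternating groups and of their double covers. -/

namespace Pool.Agent.Lib.MP_1ae3da_al.GM

open Equiv
open scoped commutatorElement

namespace Aut

variable {Ω : Type} [Fintype Ω] [DecidableEq Ω]

lemma card_cent (x : alternatingGroup Ω)
    (h : ¬ Subgroup.centralizer {(x : Perm Ω)} ≤ alternatingGroup Ω) :
    Nat.card (Subgroup.centralizer {x}) * 2 = Nat.card (Subgroup.centralizer {(x : Perm Ω)}) := by
  set Z := Subgroup.centralizer {(x : Perm Ω)} with hZ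
  have h1 : (alternatingGroup Ω).relIndex Z ≠ 1 := fun e => h (Subgroup.relIndex_eq_one.1 e)
  have hnt : Nontrivial Ω := by
    by_contra hn
    rw [not_nontrivial_iff_subsingleton] at hn
    apply h
    intro g _
    rw [Subsingleton.elim g 1]
    exact Subgroup.one_mem _
  have h2 : (alternatingGroup Ω).relIndex Z ∣ 2 := by
    rw [← alternatingGroup.index_eq_two (α := Ω)]
    exact Subgroup.relIndex_dvd_index_of_normal _ _
  have h3 : (alternatingGroup Ω).relIndex Z = 2 :=
    ((Nat.dvd_prime Nat.prime_two).1 h2).resolve_left h1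
  have h4 := ((alternatingGroup Ω).subgroupOf Z).card_mul_index
  rw [← h4]
  change _ = _ * (alternatingGroup Ω).relIndex Z
  rw [h3]
  congr 1
  refine Nat.card_congr
    { toFun := fun y => ⟨⟨y.1.1, ?_⟩, y.1.2⟩
      invFun := fun y => ⟨⟨y.1.1, y.2⟩, ?_⟩
      left_inv := fun y => rfl
      right_inv := fun y => rfl }
  · have := y.2
    rw [Subgroup.mem_centralizer_singleton_iff] at this
    rw [hZ, Subgroup.mem_centralizer_singleton_iff]
    exact congrArg Subtype.val this
  · have := Subgroup.mem_centralizer_singleton_iff.1 y.1.2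
    rw [Subgroup.mem_centralizer_singleton_iff]
    exact Subtype.ext this

lemma card_cent_aut {G : Type} [Group G] (γ : MulAut G) (x : G) :
    Nat.card (Subgroup.centralizer {γ x}) = Nat.card (Subgroup.centralizer {x}) := by
  refine Nat.card_congr
    { toFun := fun y => ⟨γ.symm y.1, ?_⟩
      invFun := fun y => ⟨γ y.1, ?_⟩
      left_inv := fun y => Subtype.ext (by simp)
      right_inv := fun y => Subtype.ext (by simp) }
  · have := y.2
    rw [Subgroup.mem_centralizer_singleton_iff] at this ⊢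
    apply γ.injective
    simpa using this
  · have := y.2
    rw [Subgroup.mem_centralizer_singleton_iff] at this ⊢
    rw [← map_mul, this, map_mul]

lemma fact_le (m k : ℕ) :
    m.factorial * 3 ^ (k + 1) * (k + 2).factorial ≤ (m + 3 * (k + 1)).factorial ∧
      (0 < m + k → m.factorial * 3 ^ (k + 1) * (k + 2).factorial <
        (m + 3 * (k + 1)).factorial) := by
  induction k with
  | zero =>
    have e : (m + 3 * (0 + 1)).factorial = (m + 3) * ((m + 2) * ((m + 1) * m.factorial)) := by
      simp [Nat.factorial_succ]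
    have hp := Nat.factorial_pos m
    rw [e]
    constructor
    · simp only [zero_add, pow_one, Nat.factorial_two]
      nlinarith [Nat.zero_le (m * m * m * m.factorial), Nat.zero_le (m * m * m.factorial),
        Nat.zero_le (m * m.factorial)]
    · intro hm
      simp only [zero_add, pow_one, Nat.factorial_two]
      have : 0 < m * m.factorial := Nat.mul_pos (by omega) hp
      nlinarith [Nat.zero_le (m * m * m * m.factorial), Nat.zero_le (m * m * m.factorial)]
  | succ k ih =>
    have e : (m + 3 * (k + 1 + 1)).factorial = (m + 3 * (k + 1) + 3) * (m + 3 * (k + 1) + 2) *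
        (m + 3 * (k + 1) + 1) * (m + 3 * (k + 1)).factorial := by
      rw [show m + 3 * (k + 1 + 1) = m + 3 * (k + 1) + 1 + 1 + 1 by ring]
      simp only [Nat.factorial_succ]
      ring
    have e2 : m.factorial * 3 ^ (k + 1 + 1) * (k + 1 + 2).factorial =
        (3 * (k + 3)) * (m.factorial * 3 ^ (k + 1) * (k + 2).factorial) := by
      rw [show k + 1 + 2 = k + 2 + 1 by ring, Nat.factorial_succ (k + 2)]
      ring
    have hlt : 3 * (k + 3) < (m + 3 * (k + 1) + 3) * (m + 3 * (k + 1) + 2) *
        (m + 3 * (k + 1) + 1) := by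
      have a1 : 3 * (k + 3) < (m + 3 * (k + 1) + 3) * 2 := by omega
      have a2 : (m + 3 * (k + 1) + 3) * 2 ≤ (m + 3 * (k + 1) + 3) * (m + 3 * (k + 1) + 2) :=
        Nat.mul_le_mul_left _ (by omega)
      have a3 : (m + 3 * (k + 1) + 3) * (m + 3 * (k + 1) + 2) ≤
          (m + 3 * (k + 1) + 3) * (m + 3 * (k + 1) + 2) * (m + 3 * (k + 1) + 1) :=
        Nat.le_mul_of_pos_right _ (by omega)
      omega
    have hp := Nat.factorial_pos (m + 3 * (k + 1))
    have : m.factorial * 3 ^ (k + 1 + 1) * (k + 1 + 2).factorial <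
        (m + 3 * (k + 1 + 1)).factorial := by
      rw [e, e2]
      calc _ ≤ 3 * (k + 3) * (m + 3 * (k + 1)).factorial := Nat.mul_le_mul_left _ ih.1
        _ < _ := Nat.mul_lt_mul_of_pos_right hlt hp
    exact ⟨this.le, fun _ => this⟩

lemma three (h7 : 7 ≤ Fintype.card Ω) (γ : MulAut (alternatingGroup Ω)) (x : alternatingGroup Ω)
    (hx : Perm.IsThreeCycle (x : Perm Ω)) : Perm.IsThreeCycle (γ x : Perm Ω) := by
  have ho : orderOf (γ x : Perm Ω) = 3 := by
    rw [Subgroup.orderOf_coe, MulEquiv.orderOf_eq, ← Subgroup.orderOf_coe, hx.orderOf]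
  obtain ⟨k, hk⟩ := Perm.cycleType_prime_order (σ := (γ x : Perm Ω))
    (by rw [ho]; exact Nat.prime_three)
  rw [ho] at hk
  rcases k with _ | k
  · exact hk
  exfalso
  have h1 : ¬ Subgroup.centralizer {(x : Perm Ω)} ≤ alternatingGroup Ω := fun h => by
    have := Perm.card_le_of_centralizer_le_alternating h
    rw [hx.cycleType] at this
    simp at this
    omega
  have h2 : ¬ Subgroup.centralizer {(γ x : Perm Ω)} ≤ alternatingGroup Ω := fun h => by
    have := Perm.count_le_one_of_centralizer_le_alternating h 3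
    rw [hk] at this
    simp at this
  have e1 := card_cent x h1
  have e2 := card_cent (γ x) h2
  rw [card_cent_aut, e1, Perm.nat_card_centralizer, Perm.nat_card_centralizer, hk,
    hx.cycleType] at e2
  have hs := Perm.sum_cycleType_le (γ x : Perm Ω)
  rw [hk] at hs
  simp only [Multiset.sum_replicate, smul_eq_mul] at hs
  obtain ⟨m, hm⟩ := Nat.exists_eq_add_of_le hs
  have hts : (Multiset.replicate (k + 1 + 1) 3).toFinset = {3} := by
    rw [Multiset.toFinset_replicate, if_neg (by omega)]
  rw [hts] at e2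
  simp only [Multiset.sum_singleton, Multiset.prod_singleton, Multiset.toFinset_singleton,
    Finset.prod_singleton, Multiset.count_singleton_self, Nat.factorial_one, mul_one,
    Multiset.sum_replicate, smul_eq_mul, Multiset.prod_replicate,
    Multiset.count_replicate_self] at e2
  rw [show Fintype.card Ω - 3 = m + 3 * (k + 1) by omega,
    show Fintype.card Ω - (k + 1 + 1) * 3 = m by omega] at e2
  have := (fact_le m k).2 (by omega)
  rw [pow_succ, show k + 1 + 1 = k + 2 by ring] at e2
  nlinarith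

lemma cube {y : Perm Ω} (hy : y.IsThreeCycle) (u : Ω) : y (y (y u)) = u := by
  have : (y ^ 3) u = u := by simp [← hy.orderOf]
  simpa [pow_succ] using this

lemma edge {y y' : Perm Ω} (hy : y.IsThreeCycle) (hy' : y'.IsThreeCycle)
    (h2 : y * y' * (y * y') = 1) (h1 : y * y' ≠ 1) : ∃ u, y u ≠ u ∧ y' u = y u := by
  by_cases hs : y.support ⊆ y'.support
  · have he : y.support = y'.support :=
      Finset.eq_of_subset_of_card_le hs (by rw [hy.card_support, hy'.card_support])
    by_contra hc
    push Not at hc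
    apply h1
    ext u
    by_cases hu : u ∈ y.support
    · have a1 := hy.support_eq_iff_mem_support.2 hu
      have a2 : y' u ∈ y.support := by rw [he, Perm.apply_mem_support, ← he]; exact hu
      have a3 : y' u ≠ u := by rw [← Perm.mem_support, ← he]; exact hu
      have a4 := hc u (Perm.mem_support.1 hu)
      rw [a1] at a2
      simp only [Finset.mem_insert, Finset.mem_singleton] at a2
      rcases a2 with a2 | a2 | a2
      · exact absurd a2 a3
      · exact absurd a2 a4
      · rw [Perm.mul_apply, a2, cube hy]; rfl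
    · have a1 : y u = u := Perm.notMem_support.1 hu
      have a2 : y' u = u := by rw [← Perm.notMem_support, ← he]; exact hu
      rw [Perm.mul_apply, a2, a1]; rfl
  · obtain ⟨t, ht, ht'⟩ := Finset.not_subset.1 hs
    have a2 : y' t = t := Perm.notMem_support.1 ht'
    have a3 : y (y' (y t)) = t := by
      have := congrArg (fun g : Perm Ω => g t) h2
      simpa [a2] using this
    refine ⟨y t, ?_, ?_⟩
    · rw [← Perm.mem_support, Perm.apply_mem_support]; exact ht
    · apply y.injective
      rw [a3, cube hy]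

lemma ext3 {y y' : Perm Ω} (hy : y.IsThreeCycle) (hy' : y'.IsThreeCycle) {u : Ω} (hu : y u ≠ u)
    (h1 : y' u = y u) (h2 : y' (y u) = y (y u)) : y' = y := by
  have a1 := hy.eq_swap_mul_swap_iff_mem_support.2 (Perm.mem_support.2 hu)
  have a2 := hy'.eq_swap_mul_swap_iff_mem_support (a := u).2
    (Perm.mem_support.2 (by rw [h1]; exact hu))
  rw [h1, h2] at a2
  rw [a2, ← a1]

lemma pts {y : Perm Ω} (hy : y.IsThreeCycle) {u v : Ω} (hu : y u ≠ u) (hv : y v ≠ v) :
    v = u ∨ v = y u ∨ v = y (y u) := by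
  have a1 := hy.support_eq_iff_mem_support.2 (Perm.mem_support.2 hu)
  have a2 := Perm.mem_support.2 hv
  rw [a1] at a2
  simpa using a2

lemma common {y1 y2 y3 : Perm Ω} (h1 : y1.IsThreeCycle) (h2 : y2.IsThreeCycle)
    (h3 : y3.IsThreeCycle) {u v w : Ω} (hu : y1 u ≠ u) (hu' : y2 u = y1 u) (hne : y2 ≠ y1)
    (hv : y1 v ≠ v) (hv' : y3 v = y1 v) (hw : y2 w ≠ w) (hw' : y3 w = y2 w) : y3 u = y1 u := by
  have hc : y2 (y1 u) ≠ y1 (y1 u) := fun e => hne (ext3 h1 h2 hu hu' e)
  have c1 := cube h1 u
  have c2 := cube h2 u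
  rw [hu'] at c2
  have hu2 : y2 u ≠ u := by rw [hu']; exact hu
  have hb1 : y1 (y1 u) ≠ y1 u := fun e => hu (y1.injective e)
  have hb2 : y2 (y1 u) ≠ y1 u := fun e => hu (y2.injective (e.trans hu'.symm))
  rcases pts h1 hu hv with rfl | rfl | rfl
  · exact hv'
  · rcases pts h2 hu2 hw with rfl | rfl | rfl
    · rw [hw', hu']
    · rw [hu'] at hw'
      exact absurd (hw'.symm.trans hv') hc
    · rw [hu'] at hw' hw
      exfalso
      rw [c2] at hw' hw
      rcases pts h3 (u := y1 u) (v := y2 (y1 u)) (by rw [hv']; exact hb1)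
        (by rw [hw']; exact hw) with e | e | e
      · exact hb2 e
      · exact hc (e.trans hv')
      · rw [e, cube h3] at hw'
        exact hu hw'
  · rw [c1] at hv' hv
    rcases pts h2 hu2 hw with rfl | rfl | rfl
    · rw [hw', hu']
    · rw [hu'] at hw' hw
      exfalso
      rcases pts h3 (u := y1 u) (v := y1 (y1 u)) (by rw [hw']; exact hb2)
        (by rw [hv']; exact hv) with e | e | e
      · exact hb1 e
      · exact hc (e.trans hw').symm
      · rw [e, cube h3] at hv'
        exact hu hv'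
    · rw [hu', c2] at hw'
      exact absurd (y3.injective (hw'.trans hv'.symm)) hc

lemma gen {a b : Ω} (hab : a ≠ b) (H : Subgroup (Perm Ω))
    (hH : ∀ i, i ≠ a → i ≠ b → swap a i * swap a b ∈ H) (g : Perm Ω)
    (hg : g ∈ alternatingGroup Ω) : g ∈ H := by
  set T : Subgroup (Perm Ω) :=
    Subgroup.closure {x | ∃ i, i ≠ a ∧ i ≠ b ∧ x = swap a i * swap a b} with hT
  have hle : T ≤ H := (Subgroup.closure_le _).2 (by rintro _ ⟨i, h1, h2, rfl⟩; exact hH i h1 h2)
  have hA : T ≤ alternatingGroup Ω := (Subgroup.closure_le _).2 (by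
    rintro _ ⟨i, h1, h2, rfl⟩
    simp [Perm.mem_alternatingGroup, hab, h1.symm])
  have tt : swap a b * swap a b = 1 := swap_mul_self a b
  have pa : ∀ i, i ≠ a → swap a i * swap a b ∈ T := fun i hi => by
    by_cases hb : i = b
    · rw [hb, tt]; exact T.one_mem
    · exact Subgroup.subset_closure ⟨i, hi, hb, rfl⟩
  have pa' : ∀ i, i ≠ a → swap a b * swap a i ∈ T := fun i hi => by
    simpa using T.inv_mem (pa i hi)
  have hn : ∀ x ∈ T, swap a b * x * swap a b ∈ T := by
    intro x hx
    induction hx using Subgroup.closure_induction with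
    | mem x hx =>
      obtain ⟨i, h1, h2, rfl⟩ := hx
      rw [mul_assoc, mul_assoc, tt, mul_one]
      exact pa' i h1
    | one => rw [mul_one, tt]; exact T.one_mem
    | mul x y _ _ hx hy =>
      have := T.mul_mem hx hy
      rwa [show swap a b * x * swap a b * (swap a b * y * swap a b) =
        swap a b * x * (swap a b * swap a b) * y * swap a b by group, tt, mul_one,
        mul_assoc _ x y] at this
    | inv x _ hx => simpa [mul_assoc] using T.inv_mem hx
  have ps : ∀ u v, u ≠ v → swap u v * swap a b ∈ T := by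
    intro u v huv
    by_cases hu : u = a
    · rw [hu]; exact pa v (by rw [← hu]; exact huv.symm)
    by_cases hv : v = a
    · rw [hv, swap_comm u a]; exact pa u hu
    have e : swap u v = swap a u * swap a v * swap a u := by
      rw [swap_comm a v, swap_mul_swap_mul_swap hv (Ne.symm huv)]
    have := T.mul_mem (T.mul_mem (pa u hu) (pa' v hv)) (pa u hu)
    rwa [show swap a u * swap a b * (swap a b * swap a v) * (swap a u * swap a b) =
      swap a u * (swap a b * swap a b) * swap a v * swap a u * swap a b by group, tt, mul_one,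
      ← e] at this
  have key : ∀ f : Perm Ω, f ∈ T ∨ f * swap a b ∈ T := by
    intro f
    induction f using Perm.swap_induction_on with
    | one => exact Or.inl T.one_mem
    | swap_mul f u v huv ih =>
      rcases ih with ih | ih
      · right
        have := T.mul_mem (ps u v huv) (hn f ih)
        rwa [show swap u v * swap a b * (swap a b * f * swap a b) =
          swap u v * (swap a b * swap a b) * f * swap a b by group, tt, mul_one] at this
      · left
        have := T.mul_mem (ps u v huv) (hn _ ih)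
        rwa [show swap u v * swap a b * (swap a b * (f * swap a b) * swap a b) =
          swap u v * (swap a b * swap a b) * f * (swap a b * swap a b) by group, tt, mul_one,
          mul_one] at this
  rcases key g with h | h
  · exact hle h
  · exfalso
    have := hA h
    rw [Perm.mem_alternatingGroup] at this hg
    rw [map_mul, hg, Perm.sign_swap hab] at this
    simp at this

lemma xi_three {a b i : Ω} (hab : a ≠ b) (h1 : i ≠ a) (h2 : i ≠ b) :
    Perm.IsThreeCycle (swap a i * swap a b) :=
  Perm.isThreeCycle_swap_mul_swap_same h1.symm hab h2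

omit [Fintype Ω] in
lemma xi_sq {a b i j : Ω} (hab : a ≠ b) (h1 : i ≠ a) (h2 : i ≠ b) (k1 : j ≠ a) (k2 : j ≠ b)
    (hij : i ≠ j) : swap a i * swap a b * (swap a j * swap a b) *
      (swap a i * swap a b * (swap a j * swap a b)) = 1 ∧
      swap a i * swap a b * (swap a j * swap a b) ≠ 1 := by
  constructor
  · ext u
    simp only [Perm.mul_apply, Perm.one_apply, swap_apply_def]
    grind
  · intro e
    have := congrArg (fun g : Perm Ω => g a) e
    simp only [Perm.mul_apply, Perm.one_apply, swap_apply_def] at this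
    grind

/-- the map from the even part to the alternating group. -/
def fA {X X0 : Type} [Group X] [Group X0] (C : Cover Ω X) (Γ : Gr X X0) (h : Γ.toSg = C.toSg) :
    X0 →* alternatingGroup Ω :=
  (C.π.comp Γ.ι).codRestrict _ fun x => by
    have := Γ.sg_ι x
    rw [h] at this
    exact this

lemma fA_coe {X X0 : Type} [Group X] [Group X0] (C : Cover Ω X) (Γ : Gr X X0)
    (h : Γ.toSg = C.toSg) (x : X0) : (fA C Γ h x : Perm Ω) = C.π (Γ.ι x) := rfl

lemma fA_surj {X X0 : Type} [Group X] [Group X0] (C : Cover Ω X) (Γ : Gr X X0)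
    (h : Γ.toSg = C.toSg) : Function.Surjective (fA C Γ h) := by
  rintro ⟨g, hg⟩
  obtain ⟨y, rfl⟩ := C.surj g
  obtain ⟨x, rfl⟩ := (Γ.rng y).1 (by rw [h]; exact hg)
  exact ⟨x, rfl⟩

lemma fA_ker {X X0 : Type} [Group X] [Group X0] (C : Cover Ω X) (Γ : Gr X X0)
    (h : Γ.toSg = C.toSg) (x : X0) : fA C Γ h x = 1 ↔ x = 1 ∨ Γ.ι x = C.z := by
  rw [← Subtype.coe_inj, fA_coe, Subgroup.coe_one, C.ker, ← map_one Γ.ι, Γ.inj.eq_iff]

lemma fA_cen {X X0 : Type} [Group X] [Group X0] (C : Cover Ω X) (Γ : Gr X X0)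
    (h : Γ.toSg = C.toSg) (h4 : 4 ≤ Nat.card Ω) (x : X0) :
    fA C Γ h x = 1 ↔ ∀ y, y * x = x * y := by
  constructor
  · intro e y
    rcases (fA_ker C Γ h x).1 e with e | e
    · simp [e]
    · apply Γ.inj
      rw [map_mul, map_mul, e]
      exact (C.toSg.zc _).symm
  · intro e
    rw [← Subgroup.mem_bot, ← alternatingGroup.center_eq_bot h4, Subgroup.mem_center_iff]
    intro g
    obtain ⟨y, rfl⟩ := fA_surj C Γ h g
    rw [← map_mul, e, map_mul]

end Aut

open Aut in
theorem aut : AutSt := by
  intro Ω _ _ h7 γ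
  obtain ⟨a, b, hab⟩ := Fintype.exists_pair_of_one_lt_card (α := Ω) (by omega)
  have hmem : ∀ i, i ≠ a → swap a i * swap a b ∈ alternatingGroup Ω := fun i hi => by
    simp [Perm.mem_alternatingGroup, hab, hi.symm]
  let y : ∀ i, i ≠ a → Perm Ω := fun i hi => γ ⟨_, hmem i hi⟩
  have y3 : ∀ i (h1 : i ≠ a), i ≠ b → (y i h1).IsThreeCycle := fun i h1 h2 =>
    three h7 γ _ (xi_three hab h1 h2)
  have ye : ∀ i j (h1 : i ≠ a) (k1 : j ≠ a), i ≠ b → j ≠ b → i ≠ j →
      (∃ u, y i h1 u ≠ u ∧ y j k1 u = y i h1 u) ∧ y j k1 ≠ y i h1 := by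
    intro i j h1 k1 h2 k2 hij
    obtain ⟨e1, e2⟩ := xi_sq hab h1 h2 k1 k2 hij
    refine ⟨edge (y3 i h1 h2) (y3 j k1 k2) ?_ ?_, fun e => ?_⟩
    · have : γ (⟨_, hmem i h1⟩ * ⟨_, hmem j k1⟩ * (⟨_, hmem i h1⟩ * ⟨_, hmem j k1⟩)) = 1 := by
        rw [← map_one γ]; congr 1; exact Subtype.ext e1
      rw [map_mul, map_mul] at this
      exact congrArg Subtype.val this
    · intro e
      apply e2
      have : γ (⟨_, hmem i h1⟩ * ⟨_, hmem j k1⟩) = γ 1 := by
        rw [map_mul, map_one]; exact Subtype.ext e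
      exact congrArg Subtype.val (γ.injective this)
    · have := congrArg (fun g : alternatingGroup Ω => (g : Perm Ω) b)
        (γ.injective (Subtype.ext e))
      simp only [Perm.mul_apply, swap_apply_right, swap_apply_left] at this
      exact hij this.symm
  obtain ⟨i1, hi1, i2, hi2, h12⟩ :=
    Finset.one_lt_card.1 (show 1 < ((Finset.univ.erase a).erase b).card by
      rw [Finset.card_erase_of_mem (by simp [hab.symm]), Finset.card_erase_of_mem (by simp),
        Finset.card_univ]
      omega)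
  simp only [Finset.mem_erase, Finset.mem_univ, and_true] at hi1 hi2
  obtain ⟨⟨u, hu, hu'⟩, hne⟩ := ye i1 i2 hi1.2 hi2.2 hi1.1 hi2.1 h12
  set v := y i1 hi1.2 u with hv
  have yu : ∀ i (h1 : i ≠ a), i ≠ b → y i h1 u = v := by
    intro i h1 h2
    by_cases e1 : i = i1
    · subst e1; rfl
    by_cases e2 : i = i2
    · subst e2; exact hu'
    obtain ⟨⟨w, hw, hw'⟩, -⟩ := ye i1 i hi1.2 h1 hi1.1 h2 (Ne.symm e1)
    obtain ⟨⟨w', hx, hx'⟩, -⟩ := ye i2 i hi2.2 h1 hi2.1 h2 (Ne.symm e2)
    exact common (y3 _ hi1.2 hi1.1) (y3 _ hi2.2 hi2.1) (y3 _ h1 h2) hu hu' hne hw hw' hx hx'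
  have yv : ∀ i (h1 : i ≠ a), i ≠ b → y i h1 v ≠ u ∧ y i h1 v ≠ v := by
    intro i h1 h2
    have := (y3 i h1 h2).nodup_iff_mem_support (a := u).2
      (Perm.mem_support.2 (by rw [yu i h1 h2]; exact hu))
    rw [yu i h1 h2] at this
    simp only [List.nodup_cons, List.mem_cons, List.not_mem_nil, or_false, not_or] at this
    exact ⟨Ne.symm this.1.2, Ne.symm this.2.1⟩
  let s : Ω → Ω := fun i => if h : i = a then u else if i = b then v else y i h v
  have sa : s a = u := dif_pos rfl
  have sb : s b = v := by simp [s, hab.symm]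
  have si : ∀ i (h1 : i ≠ a), i ≠ b → s i = y i h1 v := fun i h1 h2 => by simp [s, h1, h2]
  have sinj : Function.Injective s := by
    intro i j e
    by_cases h1 : i = a
    · by_cases k1 : j = a
      · rw [h1, k1]
      by_cases k2 : j = b
      · rw [h1, k2, sa, sb] at e; exact absurd e.symm hu
      · rw [h1, sa, si j k1 k2] at e; exact absurd e.symm (yv j k1 k2).1
    by_cases h2 : i = b
    · by_cases k1 : j = a
      · rw [h2, k1, sa, sb] at e; exact absurd e hu
      by_cases k2 : j = b
      · rw [h2, k2]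
      · rw [h2, sb, si j k1 k2] at e; exact absurd e.symm (yv j k1 k2).2
    rw [si i h1 h2] at e
    by_cases k1 : j = a
    · rw [k1, sa] at e; exact absurd e (yv i h1 h2).1
    by_cases k2 : j = b
    · rw [k2, sb] at e; exact absurd e (yv i h1 h2).2
    rw [si j k1 k2] at e
    by_contra hij
    refine (ye i j h1 k1 h2 k2 hij).2 (ext3 (y3 i h1 h2) (y3 j k1 k2) (u := u)
      (by rw [yu i h1 h2]; exact hu) (by rw [yu i h1 h2, yu j k1 k2]) ?_)
    rw [yu i h1 h2, e]
  let S : Perm Ω := Equiv.ofBijective s (Finite.injective_iff_bijective.1 sinj)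
  have hS : ∀ i, S i = s i := fun _ => rfl
  let H : Subgroup (Perm Ω) := (((alternatingGroup Ω).subtype.comp γ.toMonoidHom).eqLocus
    ((MulAut.conj S).toMonoidHom.comp (alternatingGroup Ω).subtype)).map
      (alternatingGroup Ω).subtype
  have hH : ∀ i, i ≠ a → i ≠ b → swap a i * swap a b ∈ H := by
    intro i h1 h2
    refine ⟨⟨_, hmem i h1⟩, ?_, rfl⟩
    change y i h1 = S * (swap a i * swap a b) * S⁻¹
    have t3 : (S * (swap a i * swap a b) * S⁻¹).IsThreeCycle := by
      unfold Perm.IsThreeCycle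
      rw [Perm.cycleType_conj]
      exact xi_three hab h1 h2
    have ea : (S * (swap a i * swap a b) * S⁻¹) u = v := by
      rw [← sa, ← hS, ← sb, ← hS]
      simp [swap_apply_of_ne_of_ne hab.symm h2.symm]
    have eb : (S * (swap a i * swap a b) * S⁻¹) v = y i h1 v := by
      rw [← si i h1 h2, ← hS, ← sb, ← hS]
      simp
    refine ext3 t3 (y3 i h1 h2) (u := u) (by rw [ea]; exact hu) (by rw [ea, yu i h1 h2]) ?_
    rw [ea, eb]
  refine ⟨S, fun x => ?_⟩
  obtain ⟨x', hx', e⟩ := gen hab H hH x x.2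
  obtain rfl : x' = x := Subtype.ext e
  exact hx'

open Aut in
theorem aut2 (haut : AutSt) (hcb : CbSt) : Aut2St := by
  intro Ω _ _ X X0 _ _ C Γ h h7
  have h5 : 5 ≤ Nat.card Ω := by rw [Nat.card_eq_fintype_card]; omega
  have h4 : 4 ≤ Nat.card Ω := by omega
  have hs := fA_surj C Γ h
  have hc := fA_cen C Γ h h4
  have hk := fA_ker C Γ h
  set f := fA C Γ h with hf
  have hnt : Nontrivial Ω := Fintype.one_lt_card_iff_nontrivial.1 (by omega)
  refine ⟨fun γ => ?_, fun p R hp hp2 hpn hR hidx hN => ?_⟩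
  · have hker : ∀ δ : MulAut X0, f.ker ≤ (f.comp δ.toMonoidHom).ker := by
      intro δ x hx
      rw [MonoidHom.mem_ker] at hx ⊢
      refine (hc (δ x)).2 fun y => ?_
      obtain ⟨y, rfl⟩ := δ.surjective y
      rw [← map_mul, (hc x).1 hx, map_mul]
    let L : MulAut X0 → alternatingGroup Ω →* alternatingGroup Ω := fun δ =>
      f.liftOfSurjective hs ⟨_, hker δ⟩
    have hL : ∀ δ x, L δ (f x) = f (δ x) := fun δ x =>
      MonoidHom.liftOfRightInverse_comp_apply _ _ _ _ _
    let γ' : MulAut (alternatingGroup Ω) :=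
      { toFun := L γ
        invFun := L γ⁻¹
        left_inv := fun g => by
          obtain ⟨x, rfl⟩ := hs g
          rw [hL, hL]; simp
        right_inv := fun g => by
          obtain ⟨x, rfl⟩ := hs g
          rw [hL, hL]; simp
        map_mul' := map_mul _ }
    obtain ⟨s, hs'⟩ := haut Ω h7 γ'
    obtain ⟨g, rfl⟩ := C.surj s
    have h1 : ∀ x, f (γ x) = f (Γ.cjA g x) := by
      intro x
      apply Subtype.ext
      rw [← hL γ x]
      refine (hs' (f x)).trans ?_
      rw [hf, fA_coe, fA_coe, Gr.cjA_apply, Gr.ι_cj, map_mul, map_mul, map_inv]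
    have h2 : ∀ x y, y * (γ x * (Γ.cjA g x)⁻¹) = γ x * (Γ.cjA g x)⁻¹ * y := fun x =>
      (hc _).1 (by rw [map_mul, map_inv, h1, mul_inv_cancel])
    let N : Subgroup X0 := γ.toMonoidHom.eqLocus (Γ.cjA g).toMonoidHom
    have n1 : f.ker ≤ N := by
      intro x hx
      change γ x = Γ.cjA g x
      have a1 : f (γ x) = 1 := hker γ hx
      have a2 : f (Γ.cjA g x) = 1 := hker (Γ.cjA g) hx
      by_cases e : x = 1
      · simp [e]
      have b1 := ((hk _).1 a1).resolve_left (by simpa using e)
      have b2 := ((hk _).1 a2).resolve_left (by simpa using e)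
      exact Γ.inj (b1.trans b2.symm)
    have n2 : commutator X0 ≤ N := by
      rw [commutator_def, Subgroup.commutator_le]
      intro x _ y _
      change γ ⁅x, y⁆ = Γ.cjA g ⁅x, y⁆
      rw [map_commutatorElement, map_commutatorElement]
      obtain ⟨c, hc1, hc2⟩ : ∃ c, γ x = c * Γ.cjA g x ∧ ∀ w, w * c = c * w :=
        ⟨_, by simp, h2 x⟩
      obtain ⟨d, hd1, hd2⟩ : ∃ d, γ y = d * Γ.cjA g y ∧ ∀ w, w * d = d * w :=
        ⟨_, by simp, h2 y⟩
      rw [hc1, hd1, commutatorElement_def, commutatorElement_def]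
      generalize Γ.cjA g x = A
      generalize Γ.cjA g y = B
      have q1 : c * A * (d * B) * (c * A)⁻¹ = A * (d * B) * A⁻¹ := by
        rw [mul_inv_rev, mul_assoc c, mul_assoc c, ← hc2]; group
      have q2 : A * (d * B) * A⁻¹ * (d * B)⁻¹ = A * (d * B) * A⁻¹ * (B * d)⁻¹ := by rw [hd2]
      rw [q1, q2, ← mul_assoc A, hd2 A, mul_inv_rev, ← mul_assoc, mul_assoc d, mul_assoc d,
        ← hd2]
      group
    refine ⟨g, MulEquiv.ext fun x => ?_⟩
    have a1 : f x ∈ (commutator X0).map f := by
      rw [map_commutator_eq, MonoidHom.range_eq_top.2 hs, ← commutator_def,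
        commutator_alternatingGroup_eq_top h5]
      trivial
    obtain ⟨c, hc1, hc2⟩ := a1
    have a2 : c⁻¹ * x ∈ f.ker := by rw [MonoidHom.mem_ker, map_mul, map_inv, hc2, inv_mul_cancel]
    have a3 : x ∈ N := by simpa using N.mul_mem (n2 hc1) (n1 a2)
    exact a3.symm
  · have hRn : R.Normal := Subgroup.normalizer_eq_top_iff.1 hN
    have hRn' : (R.map f).Normal := hRn.map f hs
    have hcard := two_mul_nat_card_alternatingGroup (α := Ω)
    rw [Nat.card_perm, Nat.card_eq_fintype_card (α := Ω)] at hcard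
    rcases alternatingGroup.normal_subgroup_eq_bot_or_eq_top h5 (N := R.map f) with e | e
    · rw [Subgroup.map_eq_bot_iff] at e
      apply hidx
      refine dvd_trans ?_ (Subgroup.index_dvd_of_le e)
      rw [Subgroup.index_ker, MonoidHom.range_eq_top.2 hs, Subgroup.card_top]
      have : p ∣ 2 * Nat.card (alternatingGroup Ω) := by
        rw [hcard]; exact Nat.dvd_factorial hp.pos hpn
      exact ((Nat.Prime.dvd_mul hp).1 this).resolve_left fun e2 =>
        hp2 ((Nat.prime_dvd_prime_iff_eq hp Nat.prime_two).1 e2)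
    · have := Fact.mk hp
      have a1 := hR.map f
      rw [e] at a1
      obtain ⟨k, hk'⟩ := IsPGroup.iff_card.1 a1
      rw [Subgroup.card_top] at hk'
      have a2 : 2 * 2 ∣ 2 * p ^ k := by
        rw [← hk', hcard]; exact Nat.dvd_factorial (by norm_num) (by omega)
      have a3 := Nat.prime_two.dvd_of_dvd_pow (Nat.dvd_of_mul_dvd_mul_left two_pos a2)
      exact hp2 ((Nat.prime_dvd_prime_iff_eq Nat.prime_two hp).1 a3).symm

end Pool.Agent.Lib.MP_1ae3da_al.GM
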