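import Pool.Agent.Lib.MP_1ae3da_al.GT

/-! Brauer's theorem: irreducible characters are realised over the maximal abelian extension. -/

namespace Pool.Agent.Lib.MP_1ae3da_al.GM

open Representation Module

namespace Br

abbrev F : Type := NSV.Qab

variable (G : Type) [Group G]

/-- characters of representations over `F`. -/
def RF : Set (G → K) :=
  {f | ∃ (V : Type) (_ : AddCommGroup V) (_ : Module F V) (_ : FiniteDimensional F V)
    (ρ : Representation F G V), f = fun x => (ρ.character x : K)}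

/-- characters of simple representations over `F`. -/
def SF : Set (G → K) :=
  {f | ∃ (V : Type) (_ : AddCommGroup V) (_ : Module F V) (_ : FiniteDimensional F V)
    (ρ : Representation F G V), ρ.IsIrreducible ∧ f = fun x => (ρ.character x : K)}

variable {G}

lemma sf_rf {f : G → K} (h : f ∈ SF G) : f ∈ RF G := by
  obtain ⟨V, a, b, c, ρ, -, e⟩ := h
  exact ⟨V, a, b, c, ρ, e⟩

lemma mat {f : G → K} (h : f ∈ RF G) : ∃ (d : ℕ) (ρ : G →* Matrix (Fin d) (Fin d) K),
    (∀ x, (ρ x).trace = f x) ∧ ∀ x i j, ρ x i j ∈ NSV.Qab := by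
  obtain ⟨V, _, _, _, ρ, rfl⟩ := h
  let b := Module.finBasis F V
  refine ⟨finrank F V, ((NSV.Qab.subtype.mapMatrix (m := Fin (finrank F V))).toMonoidHom.comp
    (((LinearMap.toMatrixAlgEquiv b : _ ≃ₐ[F] Matrix _ _ F) : _ →* _).comp ρ)), ?_, ?_⟩
  · intro x
    have e2 : ρ.character x = Matrix.trace (LinearMap.toMatrix b b (ρ x)) := by
      unfold Representation.character
      rw [LinearMap.trace_eq_matrix_trace F b]
    change Matrix.trace ((LinearMap.toMatrix b b (ρ x)).map NSV.Qab.subtype)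
      = ((ρ.character x : F) : K)
    rw [e2]
    simp [Matrix.trace]
  · intro x i j
    exact (LinearMap.toMatrix b b (ρ x) i j).2

variable [Fintype G]

lemma dec (d : ℕ) : ∀ (V : Type) [AddCommGroup V] [Module F V] [FiniteDimensional F V]
    (ρ : Representation F G V), finrank F V = d →
    (fun x => (ρ.character x : K)) ∈ AddSubgroup.closure (SF G) := by
  induction d using Nat.strong_induction_on with
  | _ d ih =>
  intro V _ _ _ ρ hd
  by_cases hV : Subsingleton V
  · have : (fun x => (ρ.character x : K)) = 0 := by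
      funext g
      simp [Representation.character, Subsingleton.elim (ρ g) 0]
    rw [this]; exact zero_mem _
  by_cases hi : ρ.IsIrreducible
  · exact AddSubgroup.subset_closure ⟨V, _, _, inferInstance, ρ, hi, rfl⟩
  rw [not_subsingleton_iff_nontrivial] at hV
  have hne : (⊥ : Subrepresentation ρ) ≠ ⊤ := by
    intro h2
    have : (⊥ : Submodule F V) = ⊤ := congrArg Subrepresentation.toSubmodule h2
    exact bot_ne_top this
  obtain ⟨W, hW⟩ : ∃ W : Subrepresentation ρ, ¬ (W = ⊥ ∨ W = ⊤) := by
    by_contra hc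
    push Not at hc
    exact hi { toNontrivial := ⟨⊥, ⊤, hne⟩, eq_bot_or_eq_top := hc }
  push Not at hW
  obtain ⟨W', hc⟩ := exists_proj ρ W
  have h1 : W.toSubmodule ≠ ⊤ := fun h => hW.2 (Subrepresentation.toSubmodule_injective h)
  have h2 : W'.toSubmodule ≠ ⊤ := by
    intro h
    apply hW.1
    apply Subrepresentation.toSubmodule_injective
    have := hc.disjoint
    rw [h, disjoint_top] at this
    exact this
  have e1 := ih _ (hd ▸ Submodule.finrank_lt h1) _ W.toRepresentation rfl
  have e2 := ih _ (hd ▸ Submodule.finrank_lt h2) _ W'.toRepresentation rfl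
  have := add_mem e1 e2
  convert this using 1
  funext x
  rw [char_add ρ W W' hc]
  simp

lemma rf_cl {f : G → K} (h : f ∈ RF G) : f ∈ AddSubgroup.closure (SF G) := by
  obtain ⟨V, _, _, _, ρ, rfl⟩ := h
  exact dec _ V ρ rfl

lemma orth {f g : G → K} (hf : f ∈ SF G) (hg : g ∈ SF G) (h : ip f g ≠ 0) : f = g := by
  obtain ⟨V, _, _, _, ρ, hρ, rfl⟩ := hf
  obtain ⟨W, _, _, _, τ, hτ, rfl⟩ := hg
  have : Invertible (Nat.card G : F) := invertibleOfNonzero card_ne_zero'
  by_cases hE : Nonempty (Representation.Equiv τ ρ)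
  · obtain ⟨φ⟩ := hE
    rw [char_iso φ]
  · exfalso
    apply h
    have : IsEmpty (Representation.Equiv τ ρ) := not_nonempty_iff.mp hE
    have h1 := card_inv_mul_sum_char_mul_char_eq_finrank τ ρ
    rw [finrank_zero_of_subsingleton] at h1
    have h2 := congrArg NSV.Qab.subtype h1
    simpa [ip] using h2

lemma ind_rf [DecidableEq G] {C : Type} [Group C] [Fintype C] (ι : C →* G) (l : C →* K) :
    ind ι ⇑l ∈ RF G := by
  have hl : ∀ x, l x ∈ NSV.Qab := fun x =>
    Subfield.subset_closure ⟨Fintype.card C, Fintype.card_pos, by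
      rw [← map_pow, pow_card_eq_one, map_one]⟩
  let l0 : C →* F := l.codRestrict NSV.Qab hl
  obtain ⟨W, ρ, hρ⟩ := exists_rep_ind ι l0
  refine ⟨W, _, _, inferInstance, ρ, ?_⟩
  funext x
  rw [hρ]
  simp [ind, l0]

omit [Fintype G] in
lemma ind_add [Fintype G] [DecidableEq G] {C : Type} [Group C] [Fintype C] (ι : C →* G)
    (a b : C → K) : ind ι (a + b) = ind ι a + ind ι b := by
  funext g
  simp only [ind, Pi.add_apply, add_mul, Finset.sum_add_distrib, mul_add]

lemma step1 (hch : ChSt) (hsol : SolSt) (hmon : MonSt) {χ : G → K} (hχ : χ ∈ VC G) :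
    χ ∈ AddSubgroup.closure (SF G) := by
  classical
  have key : ∀ f ∈ AddSubgroup.closure
      {f : G → K | ∃ (H : Subgroup G) (_ : Fintype H), QE H ∧ f = ind H.subtype 1},
      f * χ ∈ AddSubgroup.closure (SF G) := by
    intro f hf
    induction hf using AddSubgroup.closure_induction with
    | mem f hf =>
      obtain ⟨H, _, hH, rfl⟩ := hf
      rw [← (hch.h H G H.subtype).ind_mul 1 χ ((hch.a G).cl χ hχ), one_mul]
      have h1 := (hch.h H G H.subtype).comp χ hχ
      generalize χ ∘ H.subtype = τ at h1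
      induction h1 using AddSubgroup.closure_induction with
      | mem τ hτ =>
        obtain ⟨H', _, l, rfl⟩ := hmon H hH τ hτ
        rw [(hch.h H G H.subtype).ind_ind]
        exact rf_cl (ind_rf _ l)
      | zero =>
        have := ind_sub H.subtype (0 : H → K) 0
        rw [sub_self, sub_self] at this
        rw [this]; exact zero_mem _
      | add a b _ _ ha hb => rw [ind_add]; exact add_mem ha hb
      | neg a _ ha =>
        have h0 := ind_sub H.subtype (0 : H → K) 0
        rw [sub_self, sub_self] at h0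
        have := ind_sub H.subtype (0 : H → K) a
        rw [zero_sub, h0, zero_sub] at this
        rw [this]; exact neg_mem ha
    | zero => rw [zero_mul]; exact zero_mem _
    | add a b _ _ ha hb => rw [add_mul]; exact add_mem ha hb
    | neg a _ ha => rw [neg_mul]; exact neg_mem ha
  simpa using key 1 (hsol G)

lemma norm_nat (ha : ChA G) {f : G → K} (hf : f ∈ VC G) : ∃ k : ℕ, ip f f = k := by
  classical
  obtain ⟨h1, h2⟩ := (ha.vc_iff f).1 hf
  choose! m hm using h2
  have e := ha.expand f h1 ha.fin.toFinset (by simp)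
  refine ⟨∑ χ ∈ ha.fin.toFinset, (m χ).natAbs ^ 2, ?_⟩
  conv_lhs => enter [2]; rw [e]
  rw [ip_sum_right]
  push_cast
  refine Finset.sum_congr rfl fun χ hχ => ?_
  rw [ip_smul_right, hm χ (by simpa using hχ)]
  have : (((m χ).natAbs : ℤ) : K) ^ 2 = (m χ : K) * m χ := by
    rw [← Int.cast_pow, Int.natAbs_sq]; push_cast; ring
  rw [← this]; simp

lemma ip_zsmul (a : ℤ) (f g : G → K) : ip (a • f) g = a * ip f g := by
  rw [← Int.cast_smul_eq_zsmul K, ip_smul_left]

end Br

open Br in
theorem br (hch : ChSt) (hsol : SolSt) (hmon : MonSt) : BrSt := by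
  intro G _ _ n χ hχ
  have := Fintype.ofFinite G
  have ha := hch.a G
  have hI : χ ∈ Irr G := ⟨n, hχ⟩
  have hV : χ ∈ VC G := ha.ch_vc _ (ha.irr_ch _ hI)
  have h1 := step1 hch hsol hmon hV
  have hneg : ∀ f g : G → K, ip (-f) g = -ip f g := fun f g => by
    have := ip_smul_left (-1 : K) f g
    simpa using this
  obtain ⟨ψ, hψ, hne⟩ : ∃ ψ ∈ SF G, ip ψ χ ≠ 0 := by
    by_contra hc
    push Not at hc
    have : ∀ f ∈ AddSubgroup.closure (SF G), ip f χ = 0 := by
      intro f hf
      induction hf using AddSubgroup.closure_induction with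
      | mem f hf => exact hc f hf
      | zero => simp [ip]
      | add a b _ _ h2 h3 => rw [ip_add_left, h2, h3, add_zero]
      | neg a _ h2 => rw [hneg, h2, neg_zero]
    have h2 := this χ h1
    rw [ha.orth1 χ hI] at h2
    exact one_ne_zero h2
  obtain ⟨a, ha1⟩ : ∃ a : ℤ, ip χ ψ = a * ip ψ ψ := by
    have : ∀ f ∈ AddSubgroup.closure (SF G), ∃ a : ℤ, ip f ψ = a * ip ψ ψ := by
      intro f hf
      induction hf using AddSubgroup.closure_induction with
      | mem f hf =>
        by_cases h0 : ip f ψ = 0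
        · exact ⟨0, by simp [h0]⟩
        · exact ⟨1, by rw [orth hf hψ h0]; simp⟩
      | zero => exact ⟨0, by simp [ip]⟩
      | add a b _ _ h2 h3 =>
        obtain ⟨u, hu⟩ := h2
        obtain ⟨v, hv⟩ := h3
        exact ⟨u + v, by rw [ip_add_left, hu, hv]; push_cast; ring⟩
      | neg a _ h2 =>
        obtain ⟨u, hu⟩ := h2
        exact ⟨-u, by rw [hneg, hu]; push_cast; ring⟩
    exact this χ h1
  obtain ⟨d, ρ, hρ, hF⟩ := mat (sf_rf hψ)
  have hC : ψ ∈ Ch G := by
    have := (hch.b G).mat (Fin d) ρ (map_mul ρ)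
    simpa only [hρ] using this
  obtain ⟨N, hN⟩ := norm_nat ha (ha.ch_vc _ hC)
  obtain ⟨k, hk⟩ := norm_nat ha (add_mem hV (zsmul_mem (ha.ch_vc _ hC) (-a)))
  have hs : ip ψ χ = a * N := by rw [ha.symm, ha1, hN]
  have e : (k : K) = 1 - a * a * N := by
    rw [← hk, ip_add_left, ip_add_right, ip_zsmul, ha.symm χ ((-a) • ψ), ip_zsmul, ip_add_right,
      ha.symm ψ ((-a) • ψ), ip_zsmul, ha.orth1 χ hI, hs, hN]
    push_cast; ring
  have e' : (k : ℤ) = 1 - a * a * N := by exact_mod_cast e
  have ha0 : a ≠ 0 := by rintro rfl; exact hne (by simp [hs])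
  have hN0 : N ≠ 0 := by rintro rfl; exact hne (by simp [hs])
  have hN1 : N = 1 := by
    have h2 : 1 ≤ a * a := mul_self_pos.mpr ha0
    have h3 : (1 : ℤ) ≤ N := by exact_mod_cast Nat.one_le_iff_ne_zero.mpr hN0
    have h4 : (N : ℤ) ≤ 1 := by nlinarith [Int.natCast_nonneg k]
    omega
  have hirr : ψ ∈ Irr G := ha.ch_one ψ hC (by rw [hN, hN1]; simp)
  have heq : ψ = χ := by
    by_contra h
    exact hne (ha.orth0 ψ hirr χ hI h)
  subst heq
  have hd : d = n := by
    have h2 := hρ 1
    rw [map_one, Matrix.trace_one, hχ.one, Fintype.card_fin] at h2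
    exact_mod_cast h2
  subst hd
  exact ⟨ρ, hρ, hF⟩

end Pool.Agent.Lib.MP_1ae3da_al.GM
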