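import Pool.Agent.Lib.MP_1ae3da_al.GT

/-! Basic properties of the double covers. -/

namespace Pool.Agent.Lib.MP_1ae3da_al.GM

open Equiv

namespace Cb

lemma two_one {H Q : Type} (P : H → Q) (u : H → H) (hs : Function.Surjective P)
    (h1 : ∀ x, P (u x) = P x) (h2 : ∀ x, u x ≠ x) (h3 : ∀ x y, P x = P y → y = x ∨ y = u x) :
    ∃ e : Q × Bool ≃ H, ∀ w, P (e w) = w.1 := by
  classical
  let s := Function.surjInv hs
  have hsP : ∀ q, P (s q) = q := Function.surjInv_eq hs
  let f : Q × Bool → H := fun w => if w.2 then u (s w.1) else s w.1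
  have hf : ∀ w, P (f w) = w.1 := by
    rintro ⟨q, b⟩
    cases b <;> simp [f, h1, hsP]
  refine ⟨Equiv.ofBijective f ⟨?_, ?_⟩, hf⟩
  · rintro ⟨q, b⟩ ⟨q', b'⟩ h
    have hq : q = q' := by
      have := congrArg P h
      rwa [hf, hf] at this
    subst hq
    cases b <;> cases b' <;> simp only [f, if_true, Bool.false_eq_true, if_false] at h
    · rfl
    · exact absurd h.symm (h2 _)
    · exact absurd h (h2 _)
    · rfl
  · intro y
    rcases h3 (s (P y)) y (hsP _) with h | h
    · exact ⟨(P y, false), by simp only [f, Bool.false_eq_true, if_false]; exact h.symm⟩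
    · exact ⟨(P y, true), by simp only [f, if_true]; exact h.symm⟩

lemma two_card {H Q : Type} (e : Q × Bool ≃ H) : Nat.card H = 2 * Nat.card Q := by
  rw [← Nat.card_congr e, Nat.card_prod, mul_comm]; simp

lemma two_sum {H Q : Type} [Fintype H] [Fintype Q] (P : H → Q) (e : Q × Bool ≃ H)
    (he : ∀ w, P (e w) = w.1) (F : Q → K) : ∑ x, F (P x) = 2 * ∑ q, F q := by
  rw [← e.sum_comp, Fintype.sum_prod_type, Finset.mul_sum]
  refine Finset.sum_congr rfl fun q _ => ?_
  simp [he]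

variable {Ω : Type} [Fintype Ω] [DecidableEq Ω] {X : Type} [Group X] (C : Cover Ω X)

lemma lift2 (x y : X) (h : C.π x = C.π y) : y = x ∨ y = C.z * x := by
  have : C.π (y * x⁻¹) = 1 := by simp [h]
  rcases (C.ker _).1 this with h1 | h1
  · exact Or.inl (by simpa [mul_inv_eq_one] using h1)
  · exact Or.inr (by rw [← h1]; simp)

lemma lift (x y : X) (h : C.π x = C.π y) : ∃ j : ℕ, y = C.z ^ j * x := by
  rcases lift2 C x y h with h1 | h1
  · exact ⟨0, by simpa using h1⟩
  · exact ⟨1, by simpa using h1⟩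

lemma mem (I : Finset Ω) (x : X) : x ∈ C.sub I ↔ ∀ i ∉ I, C.π x i = i := Iff.rfl

lemma t_mem (I : Finset Ω) (i : Ω) (hi : i ∈ I) (j : Ω) (hj : j ∈ I) (h : i ≠ j) :
    C.t i j ∈ C.sub I := by
  intro k hk
  rw [C.πt i j h, swap_apply_of_ne_of_ne]
  · rintro rfl; exact hk hi
  · rintro rfl; exact hk hj

omit [Fintype Ω] in
lemma iff_mem (I : Finset Ω) (g : Perm Ω) (hg : ∀ i ∉ I, g i = i) (x : Ω) : g x ∈ I ↔ x ∈ I := by
  constructor
  · intro h
    by_contra hx
    rw [hg x hx] at h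
    exact hx h
  · intro h
    by_contra hx
    have := g.injective (hg _ hx)
    rw [this] at hx
    exact hx h

omit [Fintype Ω] in
lemma of_sub (I : Finset Ω) (g : Perm Ω) (hg : ∀ i ∉ I, g i = i) :
    Perm.ofSubtype (g.subtypePerm (iff_mem I g hg) : Perm I) = g :=
  Perm.ofSubtype_subtypePerm _ fun x hx => by
    by_contra h
    exact hx (hg x h)

omit [Fintype Ω] in
lemma of_fix (I : Finset Ω) (f : Perm I) : ∀ i ∉ I, Perm.ofSubtype f i = i :=
  fun _ hi => Perm.ofSubtype_apply_of_not_mem f hi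

lemma gen (I : Finset Ω) :
    C.sub I = Subgroup.closure ({C.z} ∪ {x | ∃ i ∈ I, ∃ j ∈ I, i ≠ j ∧ x = C.t i j}) := by
  apply le_antisymm
  · have key : ∀ f : Perm I, ∃ y ∈ Subgroup.closure
        ({C.z} ∪ {x | ∃ i ∈ I, ∃ j ∈ I, i ≠ j ∧ x = C.t i j}), C.π y = Perm.ofSubtype f := by
      intro f
      induction f using Perm.swap_induction_on with
      | one => exact ⟨1, one_mem _, by simp⟩
      | swap_mul f a b hab ih =>
        obtain ⟨y, hy, hy'⟩ := ih
        have hab' : (a : Ω) ≠ b := fun h => hab (Subtype.ext h)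
        refine ⟨C.t a b * y, mul_mem (Subgroup.subset_closure
          (Or.inr ⟨a, a.2, b, b.2, hab', rfl⟩)) hy, ?_⟩
        rw [map_mul, map_mul, hy', C.πt _ _ hab', Perm.ofSubtype_swap_eq]
    intro x hx
    obtain ⟨y, hy, hy'⟩ := key ((C.π x).subtypePerm (iff_mem I _ hx))
    rw [of_sub I _ hx] at hy'
    obtain ⟨j, hj⟩ := lift C y x hy'
    rw [hj]
    refine mul_mem (pow_mem ?_ j) hy
    exact Subgroup.subset_closure (Or.inl rfl)
  · rw [Subgroup.closure_le]
    rintro x (rfl | ⟨i, hi, j, hj, hij, rfl⟩)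
    · exact C.z_mem I
    · exact t_mem C I i hi j hj hij

lemma comm (I J : Finset Ω) (hd : Disjoint I J) (x : X) (hx : x ∈ C.sub I) (y : X)
    (hy : y ∈ C.sub J) : x * y = C.toSg.zp (C.toSg.sg x) (C.toSg.sg y) * (y * x) := by
  rw [gen] at hy
  induction hy using Subgroup.closure_induction with
  | mem y hy =>
    rcases hy with rfl | ⟨i, hi, j, hj, hij, rfl⟩
    · have h1 : C.toSg.sg C.z = 1 := C.toSg.zs
      rw [h1, Sg.zp_one, one_mul]
      exact (C.toSg.zc x).symm
    · have h := C.t_conj x i j hij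
      rw [hx i (Finset.disjoint_right.1 hd hi), hx j (Finset.disjoint_right.1 hd hj),
        mul_inv_eq_iff_eq_mul] at h
      have h2 : C.toSg.sg (C.t i j) = -1 := by
        rw [Cover.toSg_sg, C.πt i j hij, Perm.sign_swap hij]
      rw [h, h2, mul_assoc, Cover.toSg_sg]
      congr 1
      rcases Int.units_eq_one_or (Perm.sign (C.π x)) with h3 | h3 <;> simp [h3]
  | one => simp
  | mul y y' _ _ h1 h2 =>
    rw [map_mul, Sg.zp_mul, ← mul_assoc, h1, mul_assoc, mul_assoc, h2, mul_assoc, mul_assoc,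
      ← mul_assoc y, ← C.toSg.zp_comm _ _ y, mul_assoc]
  | inv y _ h1 =>
    rw [map_inv, Int.units_inv_eq_self]
    have hc := C.toSg.zp_comm (C.toSg.sg x) (C.toSg.sg y)
    have hq := C.toSg.zp_sq (C.toSg.sg x) (C.toSg.sg y)
    generalize C.toSg.zp (C.toSg.sg x) (C.toSg.sg y) = c at *
    have h2 : y⁻¹ * x = c * (x * y⁻¹) := by
      have : y⁻¹ * x = y⁻¹ * (x * y) * y⁻¹ := by group
      rw [this, h1, ← mul_assoc y⁻¹ c, ← hc y⁻¹]
      group
    rw [h2, ← mul_assoc, hq, one_mul]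

lemma eqI (I : Finset Ω) : ∃ (P : C.sub I → Perm I) (e : Perm I × Bool ≃ C.sub I),
    (∀ w, P (e w) = w.1) ∧ ∀ x, Perm.ofSubtype (P x) = C.π x := by
  let P : C.sub I → Perm I := fun x => (C.π x).subtypePerm (iff_mem I _ x.2)
  have hP : ∀ x, Perm.ofSubtype (P x) = C.π x := fun x => of_sub I _ x.2
  have hinj : ∀ f g : Perm I, Perm.ofSubtype f = Perm.ofSubtype g → f = g := by
    intro f g h
    ext a
    have := congrArg (fun k : Perm Ω => k a) h
    simpa [Perm.ofSubtype_apply_coe] using this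
  obtain ⟨e, he⟩ := two_one P (fun x => ⟨C.z, C.z_mem I⟩ * x) (fun f => by
      obtain ⟨x, hx⟩ := C.surj (Perm.ofSubtype f)
      refine ⟨⟨x, fun i hi => by rw [hx]; exact of_fix I f i hi⟩, hinj _ _ ?_⟩
      rw [hP]; exact hx)
    (fun x => hinj _ _ (by rw [hP, hP]; simp [C.πz]))
    (fun x h => C.z_ne (by simpa using congrArg Subtype.val h))
    (fun x y h => by
      have h' : C.π x = C.π y := by rw [← hP, ← hP, h]
      rcases lift2 C x y h' with h1 | h1
      · exact Or.inl (Subtype.ext h1)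
      · exact Or.inr (Subtype.ext h1))
  exact ⟨P, e, he, hP⟩

lemma eqX : ∃ e : Perm Ω × Bool ≃ X, ∀ w, C.π (e w) = w.1 :=
  two_one C.π (fun x => C.z * x) C.surj (fun x => by simp [C.πz])
    (fun x h => C.z_ne (by simpa using h)) (lift2 C)

lemma card (I : Finset Ω) : Nat.card (C.sub I) = 2 * I.card.factorial := by
  obtain ⟨P, e, -, -⟩ := eqI C I
  rw [two_card e, Nat.card_eq_fintype_card, Fintype.card_perm, Fintype.card_coe]

lemma cent (h4 : 4 ≤ Fintype.card Ω) (g : X) (hg : ∀ x, C.toSg.sg x = 1 → g * x = x * g) :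
    g = 1 ∨ g = C.z := by
  rw [← C.ker]
  ext a
  by_contra hab
  simp only [Perm.coe_one, id_eq] at hab
  set b := C.π g a with hb
  have hc : 1 < (Finset.univ \ {a, b} : Finset Ω).card := by
    have h1 := Finset.card_sdiff_add_card_eq_card (Finset.subset_univ ({a, b} : Finset Ω))
    have h2 : ({a, b} : Finset Ω).card ≤ 2 := Finset.card_le_two
    rw [Finset.card_univ] at h1
    omega
  obtain ⟨c, hc1, d, hd1, hcd⟩ := Finset.one_lt_card.1 hc
  simp only [Finset.mem_sdiff, Finset.mem_univ, Finset.mem_insert, Finset.mem_singleton, true_and,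
    not_or] at hc1 hd1
  obtain ⟨x, hx⟩ := C.surj (swap b c * swap b d)
  have h1 := hg x (by
    rw [Cover.toSg_sg, hx, map_mul, Perm.sign_swap (Ne.symm hc1.2), Perm.sign_swap (Ne.symm hd1.2)]
    simp)
  have h2 := congrArg (fun y => C.π y a) h1
  simp only [map_mul, Perm.mul_apply, hx] at h2
  rw [← hb, swap_apply_left, swap_apply_of_ne_of_ne (Ne.symm hab) (Ne.symm hd1.1),
    swap_apply_of_ne_of_ne (Ne.symm hab) (Ne.symm hc1.1), ← hb,
    swap_apply_of_ne_of_ne hd1.2 (Ne.symm hcd)] at h2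
  exact hd1.2 h2.symm

lemma coe_zp (I : Finset Ω) (u v : ℤˣ) : (((C.sgI I).zp u v : C.sub I) : X) = C.toSg.zp u v := by
  unfold Sg.zp
  split_ifs <;> rfl

lemma mono (I J : Finset Ω) (h : I ⊆ J) : C.sub I ≤ C.sub J :=
  fun _ hx i hi => hx i fun h' => hi (h h')

lemma tri (I J : Finset Ω) (hd : Disjoint I J) :
    ∃ T : Tri (C.sgI I) (C.sgI J) (C.sgI (I ∪ J)),
      (∀ x, (T.α x : X) = x) ∧ ∀ y, (T.β y : X) = y := by
  refine ⟨⟨Subgroup.inclusion (mono C _ _ Finset.subset_union_left),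
    Subgroup.inclusion (mono C _ _ Finset.subset_union_right), rfl, rfl, fun _ => rfl,
    fun _ => rfl, fun x y => Subtype.ext ?_⟩, fun _ => rfl, fun _ => rfl⟩
  have := comm C I J hd x x.2 y y.2
  rw [Subgroup.coe_mul, Subgroup.coe_mul, coe_zp]
  exact this

lemma map (Ω' : Type) [Fintype Ω'] [DecidableEq Ω'] (e : Ω ≃ Ω') : ∃ C' : Cover Ω' X,
    (∀ x, C'.π x = e.permCongr (C.π x)) ∧ C'.z = C.z ∧ C'.q = C.q := by
  refine ⟨⟨e.permCongrHom.toMonoidHom.comp C.π, C.z, C.q, fun i j => C.t (e.symm i) (e.symm j),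
    e.permCongrHom.surjective.comp C.surj, fun x => ?_, C.z_ne, fun i j h => ?_,
    fun i j h => C.t_sq _ _ (e.symm.injective.ne h), fun x i j h => ?_⟩, fun _ => rfl, rfl, rfl⟩
  · rw [← C.ker]
    exact e.permCongrHom.map_eq_one_iff
  · change e.permCongr (C.π (C.t (e.symm i) (e.symm j))) = swap i j
    rw [C.πt _ _ (e.symm.injective.ne h)]
    ext a
    rw [Equiv.permCongr_apply, e.symm.injective.swap_apply, apply_symm_apply]
  · have h1 := C.t_conj x _ _ (e.symm.injective.ne h)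
    change _ = (if Perm.sign (e.permCongr (C.π x)) = 1 then 1 else C.z) *
      C.t (e.symm (e.permCongr (C.π x) i)) (e.symm (e.permCongr (C.π x) j))
    rw [h1, Perm.sign_permCongr, Equiv.permCongr_apply, Equiv.permCongr_apply, symm_apply_apply,
      symm_apply_apply]

lemma wcyc (n : ℕ) : ∀ f : Perm Ω, f.IsCycle → f.support.card = n → ∃ L : List (Ω × Ω),
    (∀ w ∈ L, w.1 ≠ w.2 ∧ w.1 ∈ f.support ∧ w.2 ∈ f.support) ∧ L.length + 1 = f.support.card ∧
      f = (L.map fun w => swap w.1 w.2).prod := by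
  induction n using Nat.strong_induction_on with
  | _ n ih =>
    intro f hf hn
    obtain ⟨x, hx, -⟩ := id hf
    have hx1 : x ∈ f.support := Perm.mem_support.2 hx
    have hx2 : f x ∈ f.support := Perm.apply_mem_support.2 hx1
    by_cases h2 : f (f x) = x
    · have h3 := hf.eq_swap_of_apply_apply_eq_self hx h2
      refine ⟨[(x, f x)], ?_, ?_, by simpa using h3⟩
      · intro w hw
        rw [List.mem_singleton.1 hw]
        exact ⟨hx.symm, hx1, hx2⟩
      · have : f.support.card = 2 := by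
          rw [h3]; exact Perm.card_support_swap hx.symm
        rw [this]; rfl
    · have hs := Perm.support_swap_mul_eq f x h2
      rw [Finset.sdiff_singleton_eq_erase] at hs
      have hcard : (swap x (f x) * f).support.card + 1 = f.support.card := by
        rw [hs, Finset.card_erase_add_one hx1]
      obtain ⟨L, h3, h4, h5⟩ := ih _ (by omega) _ (hf.swap_mul hx h2) rfl
      refine ⟨(x, f x) :: L, ?_, by rw [List.length_cons]; omega, ?_⟩
      · intro w hw
        rcases List.mem_cons.1 hw with rfl | hw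
        · exact ⟨hx.symm, hx1, hx2⟩
        · obtain ⟨k1, k2, k3⟩ := h3 w hw
          rw [hs] at k2 k3
          exact ⟨k1, Finset.mem_of_mem_erase k2, Finset.mem_of_mem_erase k3⟩
      · rw [List.map_cons, List.prod_cons, ← h5, swap_mul_self_mul]

omit [Fintype Ω] [DecidableEq Ω] in
lemma same_mul {σ τ : Perm Ω} (hd : σ.Disjoint τ) {a b : Ω} (hab : a ≠ b)
    (h : σ.SameCycle a b) : (σ * τ).SameCycle a b := by
  obtain ⟨i, hi⟩ := h
  have ha : τ a = a := by
    rcases hd a with h1 | h1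
    · rw [Perm.zpow_apply_eq_self_of_apply_eq_self h1] at hi
      exact absurd hi hab
    · exact h1
  refine ⟨i, ?_⟩
  rw [hd.commute.mul_zpow, Perm.mul_apply, Perm.zpow_apply_eq_self_of_apply_eq_self ha, hi]

lemma wperm (g : Perm Ω) : ∃ L : List (Ω × Ω),
    (∀ w ∈ L, w.1 ≠ w.2 ∧ g.SameCycle w.1 w.2) ∧
      L.length + g.cycleType.card = g.support.card ∧
      g = (L.map fun w => swap w.1 w.2).prod := by
  induction g using Perm.cycle_induction_on with
  | base_one => exact ⟨[], by simp, by simp, by simp⟩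
  | base_cycles f hf =>
    obtain ⟨L, h1, h2, h3⟩ := wcyc _ f hf rfl
    refine ⟨L, fun w hw => ⟨(h1 w hw).1, hf.sameCycle (Perm.mem_support.1 (h1 w hw).2.1)
      (Perm.mem_support.1 (h1 w hw).2.2)⟩, ?_, h3⟩
    rw [hf.cycleType, ← h2]; simp
  | induction_disjoint σ τ hd _ h1 h2 =>
    obtain ⟨L, a1, a2, a3⟩ := h1
    obtain ⟨M, b1, b2, b3⟩ := h2
    refine ⟨L ++ M, fun w hw => ?_, ?_, ?_⟩
    · rcases List.mem_append.1 hw with hw | hw
      · exact ⟨(a1 w hw).1, same_mul hd (a1 w hw).1 (a1 w hw).2⟩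
      · refine ⟨(b1 w hw).1, ?_⟩
        rw [hd.commute.eq]
        exact same_mul hd.symm (b1 w hw).1 (b1 w hw).2
    · rw [hd.cycleType_mul, hd.card_support_mul, List.length_append, Multiset.card_add]
      omega
    · rw [List.map_append, List.prod_append, ← a3, ← b3]

end Cb

theorem cb (hpa : PermASt) : CbSt := by
  intro Ω _ _ X _ C
  refine ⟨Cb.lift C, Cb.t_mem C, Cb.gen C, ?_, Cb.comm C, Cb.card C, ?_, ?_, ?_, ?_, ?_,
    Cb.cent C, Cb.tri C, Cb.map C⟩
  · exact eq_top_iff.2 fun x _ i hi => absurd (Finset.mem_univ i) hi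
  · intro I _ F
    obtain ⟨P, e, he, hP⟩ := Cb.eqI C I
    have h1 : ∑ x : C.sub I, F (tyI I (C.π x)) = 2 * ∑ f : Perm I, F (ty f) := by
      rw [← Cb.two_sum P e he fun f => F (ty f)]
      refine Finset.sum_congr rfl fun x _ => ?_
      rw [← hP, (hpa Ω).tyI_sub]
    have h2 := (hpa I).dict F
    rw [Fintype.card_coe] at h2
    rw [h1, ← h2, ← Nat.card_eq_fintype_card, Cb.card]
    push_cast
    rw [mul_inv, mul_mul_mul_comm, inv_mul_cancel₀ two_ne_zero, one_mul]
  · intro _ F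
    obtain ⟨e, he⟩ := Cb.eqX C
    rw [Cb.two_sum C.π e he fun f => F (ty f), ← (hpa Ω).dict F, Cb.two_card e,
      Nat.card_eq_fintype_card, Fintype.card_perm]
    push_cast
    rw [mul_inv, mul_mul_mul_comm, inv_mul_cancel₀ two_ne_zero, one_mul]
  · intro I x hx y hy h
    obtain ⟨k, hk, hk'⟩ := (hpa Ω).tyI_conj I _ _ hx hy h
    obtain ⟨g, rfl⟩ := C.surj k
    exact ⟨g, hk, Cb.lift C _ _ (by rw [hk']; simp)⟩
  · intro I ρ h0 hs
    obtain ⟨g, hg⟩ := (hpa I).ex ρ h0 (by rw [hs, Fintype.card_coe])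
    obtain ⟨x, hx⟩ := C.surj (Perm.ofSubtype g)
    refine ⟨x, fun i hi => by rw [hx]; exact Cb.of_fix I g i hi, ?_⟩
    rw [hx, (hpa Ω).tyI_sub, hg]
  · intro I hI
    obtain ⟨i, hi, j, hj, hij⟩ := Finset.one_lt_card.1 hI
    exact ⟨⟨C.t i j, Cb.t_mem C I i hi j hj hij⟩, by
      rw [Cover.sgI_sg, C.πt i j hij, Perm.sign_swap hij]⟩

theorem word (hpa : PermASt) (hcb : CbSt) : WordSt := by
  intro Ω _ _ X _ C I x hx
  obtain ⟨L, h1, h2, h3⟩ := Cb.wperm (C.π x)
  have h4 : ∀ M : List (Ω × Ω), (∀ w ∈ M, w.1 ≠ w.2) →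
      C.π (M.map fun w => C.t w.1 w.2).prod = (M.map fun w => swap w.1 w.2).prod := by
    intro M hM
    rw [map_list_prod, List.map_map]
    congr 1
    exact List.map_congr_left fun w hw => C.πt _ _ (hM w hw)
  obtain ⟨e, he⟩ := (hcb Ω X C).lift (L.map fun w => C.t w.1 w.2).prod x
    (by rw [h4 L fun w hw => (h1 w hw).1, ← h3])
  refine ⟨e, L, fun w hw => ?_, ?_, he⟩
  · obtain ⟨k1, k2⟩ := h1 w hw
    refine ⟨?_, ?_, k1, k2⟩
    · by_contra h
      exact k1 (k2.eq_of_left (hx _ h))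
    · by_contra h
      exact k1 (k2.eq_of_right (hx _ h))
  · have h5 := congrArg Multiset.card ((hpa Ω).tyI_eq I _ hx)
    rw [ty, Perm.parts_partition, Multiset.card_add, Multiset.card_add, Multiset.card_replicate,
      Multiset.card_replicate] at h5
    have h6 := Finset.card_le_univ I
    have h7 := Finset.card_le_univ (C.π x).support
    omega

end Pool.Agent.Lib.MP_1ae3da_al.GM
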