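import Pool.Agent.Lib.MP_1ae3da_al.GT

/-! Orthogonality and completeness of the irreducible characters. -/

namespace Pool.Agent.Lib.MP_1ae3da_al.GM

namespace ChAx

open Module Representation

variable {G : Type} [Group G] [Fintype G]

lemma symm (f g : G → K) : ip f g = ip g f := by
  unfold ip
  congr 1
  rw [← Equiv.sum_comp (Equiv.inv G)]
  simp [mul_comm]

lemma ip_zero (g : G → K) : ip 0 g = 0 := by simp [ip]

lemma ip_neg (f g : G → K) : ip (-f) g = -ip f g := by simp [ip]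

lemma ip_sub (f f' g : G → K) : ip (f - f') g = ip f g - ip f' g := by
  rw [sub_eq_add_neg, ip_add_left, ip_neg, sub_eq_add_neg]

omit [Fintype G] in
lemma cl_irr {χ : G → K} (h : χ ∈ Irr G) : Cl χ := by
  obtain ⟨n, ρ, -, rfl⟩ := h
  exact fun g h => char_conj ρ g h

omit [Fintype G] in
lemma cl_vc (χ : G → K) (h : χ ∈ VC G) : Cl χ := by
  induction h using AddSubgroup.closure_induction with
  | mem x hx => exact cl_irr hx
  | zero => exact fun _ _ => rfl
  | add x y _ _ hx hy => exact fun g h => by simp [hx g h, hy g h]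
  | neg x _ hx => exact fun g h => by simp [hx g h]

lemma orth1 (χ : G → K) (h : χ ∈ Irr G) : ip χ χ = 1 := by
  classical
  obtain ⟨n, hn⟩ := h
  simpa using hn.ip_eq hn

lemma orth0 (χ : G → K) (h : χ ∈ Irr G) (ψ : G → K) (h' : ψ ∈ Irr G) (hne : χ ≠ ψ) :
    ip χ ψ = 0 := by
  classical
  obtain ⟨n, hn⟩ := h
  obtain ⟨m, hm⟩ := h'
  simpa [hne] using hn.ip_eq hm

lemma conv_zero {f : G → K} (hf : Cl f) {χ : G → K} (h : χ ∈ Irr G) (h0 : ip f χ = 0) (x : G) :
    ∑ g, f g * χ (g⁻¹ * x) = 0 := by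
  obtain ⟨n, hn⟩ := h
  have hpos := hn.pos
  obtain ⟨ρ, hρ, rfl⟩ := hn
  let A : (Fin n → K) →ₗ[K] (Fin n → K) := ∑ g, f g • ρ g⁻¹
  have hA : ∀ y, A * ρ y = ρ y * A := by
    intro y
    simp only [A, Finset.sum_mul, Finset.mul_sum, smul_mul_assoc, mul_smul_comm, ← map_mul]
    refine Fintype.sum_equiv ((Equiv.mulLeft y⁻¹).trans (Equiv.mulRight y)) _ _ fun g => ?_
    have := hf g y⁻¹
    simp only [inv_inv, mul_assoc] at this
    simp [this, mul_assoc]
  obtain ⟨c, hc⟩ := schur ρ hρ A fun g v => congrArg (fun T => T v) (hA g)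
  have hA1 : A = c • (1 : (Fin n → K) →ₗ[K] (Fin n → K)) := LinearMap.ext fun v => by simp [hc]
  have htr : ∀ y, LinearMap.trace K _ (A * ρ y) = ∑ g, f g * ρ.character (g⁻¹ * y) := by
    intro y
    simp [A, Finset.sum_mul, Representation.character]
  have h1 := htr 1
  have h2 : ∑ g, f g * ρ.character (g⁻¹ * 1) = 0 := by
    simp only [mul_one]
    exact (mul_eq_zero.mp h0).resolve_left (inv_ne_zero card_ne_zero')
  rw [h2, hA1] at h1
  have hc0 : c = 0 := by
    simp only [map_one, mul_one, map_smul, LinearMap.trace_one, smul_eq_mul, mul_eq_zero] at h1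
    refine h1.resolve_right ?_
    simpa using hpos.ne'
  rw [← htr, hA1, hc0]
  simp

lemma compl (f : G → K) (hf : Cl f) (h0 : ∀ χ ∈ Irr G, ip f χ = 0) : f = 0 := by
  classical
  let R : Representation K G (G → K) :=
    { toFun := fun g => LinearMap.funLeft K K fun y => g⁻¹ * y
      map_one' := by ext f y; simp
      map_mul' := fun a b => by ext f y; simp [mul_assoc] }
  have hR : ∀ g, R.character g = if g = 1 then (Fintype.card G : K) else 0 := by
    intro g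
    have := trace_funLeft (K := K) fun y : G => g⁻¹ * y
    change LinearMap.trace K _ (LinearMap.funLeft K K fun y : G => g⁻¹ * y) = _
    rw [this]
    split_ifs with h
    · simp [h]
    · simp [h]
  obtain ⟨s, hs, e⟩ := exists_decomp _ (G → K) R rfl
  have key : ∀ (s : Multiset (G → K)), (∀ χ ∈ s, ∃ n, IsIrr n χ) → ∀ x,
      ∑ g, f g * s.sum (g⁻¹ * x) = 0 := by
    intro s
    induction s using Multiset.induction_on with
    | empty => simp
    | cons a s ih =>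
      intro hs x
      simp only [Multiset.sum_cons, Pi.add_apply, mul_add, Finset.sum_add_distrib]
      have ha : a ∈ Irr G := hs a (by simp)
      rw [conv_zero hf ha (h0 a ha), ih (fun χ h => hs χ (by simp [h])), add_zero]
  funext x
  have := key s hs x
  rw [← e] at this
  simp only [hR, inv_mul_eq_one, mul_ite, mul_zero, Finset.sum_ite_eq', Finset.mem_univ, if_true,
    mul_eq_zero] at this
  exact this.resolve_right (Nat.cast_ne_zero.mpr Fintype.card_ne_zero)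

lemma fin : (Irr G).Finite := by
  classical
  have : LinearIndependent K ((↑) : Irr G → G → K) := by
    rw [linearIndependent_iff']
    intro s c hc i hi
    have := congrArg (fun f => ip f i.1) hc
    simp only [ip_sum_left, ip_smul_left, ip_zero] at this
    rw [Finset.sum_eq_single i, orth1 _ i.2, mul_one] at this
    · exact this
    · intro j _ hj
      rw [orth0 _ j.2 _ i.2 (fun h => hj (Subtype.ext h)), mul_zero]
    · exact fun h => absurd hi h
  exact this.setFinite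

lemma expand (f : G → K) (hf : Cl f) (s : Finset (G → K)) (hs : (s : Set (G → K)) = Irr G) :
    f = ∑ χ ∈ s, ip f χ • χ := by
  have hm : ∀ χ, χ ∈ s ↔ χ ∈ Irr G := fun χ => by rw [← hs]; simp
  rw [← sub_eq_zero]
  apply compl
  · intro g h
    simp only [Pi.sub_apply, Finset.sum_apply, Pi.smul_apply, hf g h]
    congr 1
    exact Finset.sum_congr rfl fun χ hχ => by rw [cl_irr ((hm χ).mp hχ) g h]
  · intro ψ hψ
    rw [ip_sub, ip_sum_left, Finset.sum_eq_single ψ, ip_smul_left, orth1 _ hψ, mul_one, sub_self]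
    · intro χ hχ hne
      rw [ip_smul_left, orth0 _ ((hm χ).mp hχ) _ hψ hne, mul_zero]
    · exact fun h => absurd ((hm ψ).mpr hψ) h

omit [Fintype G] in
lemma irr_ch (χ : G → K) (h : χ ∈ Irr G) : χ ∈ Ch G := AddSubmonoid.subset_closure h

omit [Fintype G] in
lemma irr_vc (χ : G → K) (h : χ ∈ Irr G) : χ ∈ VC G := AddSubgroup.subset_closure h

omit [Fintype G] in
lemma ch_vc (χ : G → K) (h : χ ∈ Ch G) : χ ∈ VC G := by
  induction h using AddSubmonoid.closure_induction with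
  | mem x hx => exact irr_vc x hx
  | zero => exact zero_mem _
  | add x y _ _ hx hy => exact add_mem hx hy

lemma irr_nat (χ : G → K) (h : χ ∈ Irr G) (ψ : G → K) (h' : ψ ∈ Irr G) :
    ∃ m : ℕ, ip χ ψ = m := by
  by_cases e : χ = ψ
  · exact ⟨1, by rw [e, orth1 _ h']; simp⟩
  · exact ⟨0, by rw [orth0 _ h _ h' e]; simp⟩

lemma ch_iff (f : G → K) : f ∈ Ch G ↔ Cl f ∧ ∀ χ ∈ Irr G, ∃ m : ℕ, ip f χ = m := by
  constructor
  · intro h
    refine ⟨cl_vc _ (ch_vc _ h), fun χ hχ => ?_⟩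
    induction h using AddSubmonoid.closure_induction with
    | mem x hx => exact irr_nat x hx χ hχ
    | zero => exact ⟨0, by simp [ip_zero]⟩
    | add x y _ _ hx hy =>
      obtain ⟨a, ha⟩ := hx
      obtain ⟨b, hb⟩ := hy
      exact ⟨a + b, by rw [ip_add_left, ha, hb]; simp⟩
  · rintro ⟨hf, h⟩
    rw [expand f hf fin.toFinset (by simp)]
    refine sum_mem fun χ hχ => ?_
    have hχ' : χ ∈ Irr G := by simpa using hχ
    obtain ⟨m, hm⟩ := h χ hχ'
    rw [hm, Nat.cast_smul_eq_nsmul]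
    exact nsmul_mem (irr_ch χ hχ') m

lemma vc_iff (f : G → K) : f ∈ VC G ↔ Cl f ∧ ∀ χ ∈ Irr G, ∃ m : ℤ, ip f χ = m := by
  constructor
  · intro h
    refine ⟨cl_vc _ h, fun χ hχ => ?_⟩
    induction h using AddSubgroup.closure_induction with
    | mem x hx =>
      obtain ⟨m, hm⟩ := irr_nat x hx χ hχ
      exact ⟨m, by rw [hm]; simp⟩
    | zero => exact ⟨0, by simp [ip_zero]⟩
    | add x y _ _ hx hy =>
      obtain ⟨a, ha⟩ := hx
      obtain ⟨b, hb⟩ := hy
      exact ⟨a + b, by rw [ip_add_left, ha, hb]; simp⟩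
    | neg x _ hx =>
      obtain ⟨a, ha⟩ := hx
      exact ⟨-a, by rw [ip_neg, ha]; simp⟩
  · rintro ⟨hf, h⟩
    rw [expand f hf fin.toFinset (by simp)]
    refine sum_mem fun χ hχ => ?_
    have hχ' : χ ∈ Irr G := by simpa using hχ
    obtain ⟨m, hm⟩ := h χ hχ'
    rw [hm, Int.cast_smul_eq_zsmul]
    exact zsmul_mem (irr_vc χ hχ') m

lemma ip_int (f : G → K) (hf : f ∈ VC G) (g : G → K) (hg : g ∈ VC G) : ∃ m : ℤ, ip f g = m := by
  rw [symm]
  induction hg using AddSubgroup.closure_induction with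
  | mem x hx => rw [symm]; exact ((vc_iff f).mp hf).2 x hx
  | zero => exact ⟨0, by simp [ip_zero]⟩
  | add x y _ _ hx hy =>
    obtain ⟨a, ha⟩ := hx
    obtain ⟨b, hb⟩ := hy
    exact ⟨a + b, by rw [ip_add_left, ha, hb]; simp⟩
  | neg x _ hx =>
    obtain ⟨a, ha⟩ := hx
    exact ⟨-a, by rw [ip_neg, ha]; simp⟩

lemma norm_sum (f : G → K) (hf : f ∈ VC G) : ∃ m : (G → K) → ℤ, (∀ χ ∈ Irr G, ip f χ = m χ) ∧
    ip f f = ((∑ χ ∈ (fin (G := G)).toFinset, m χ ^ 2 : ℤ) : K) := by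
  obtain ⟨hc, h⟩ := (vc_iff f).mp hf
  choose! m hm using h
  refine ⟨m, hm, ?_⟩
  conv_lhs => enter [1]; rw [expand f hc fin.toFinset (by simp)]
  rw [ip_sum_left]
  push_cast
  refine Finset.sum_congr rfl fun χ hχ => ?_
  rw [ip_smul_left, symm χ f, hm χ (by simpa using hχ), sq]

lemma norm_zero (f : G → K) (hf : f ∈ VC G) (h0 : ip f f = 0) : f = 0 := by
  obtain ⟨m, hm, e⟩ := norm_sum f hf
  rw [h0, eq_comm, Int.cast_eq_zero, Finset.sum_eq_zero_iff_of_nonneg fun _ _ => sq_nonneg _] at e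
  refine compl f (cl_vc f hf) fun χ hχ => ?_
  rw [hm χ hχ, pow_eq_zero_iff two_ne_zero |>.mp (e χ (by simpa using hχ)), Int.cast_zero]

/-- peel off one constituent. -/
lemma peel (f : G → K) (hf : f ∈ VC G) (k : ℤ) (hk : ip f f = k) (h0 : k ≠ 0) (h3 : k ≤ 3) :
    ∃ χ ∈ Irr G, ∃ u : ℤˣ, f - uK u • χ ∈ VC G ∧ ip (f - uK u • χ) χ = 0 ∧
      ip (f - uK u • χ) (f - uK u • χ) = (k : K) - 1 := by
  obtain ⟨χ, hχ, hne⟩ : ∃ χ ∈ Irr G, ip f χ ≠ 0 := by
    by_contra hc
    push Not at hc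
    rw [compl f (cl_vc f hf) hc, ip_zero] at hk
    exact h0 (by exact_mod_cast hk.symm)
  obtain ⟨m, hm⟩ := ((vc_iff f).mp hf).2 χ hχ
  have hm0 : m ≠ 0 := fun h => hne (by rw [hm, h, Int.cast_zero])
  have h1 : f - (m : K) • χ ∈ VC G := by
    rw [Int.cast_smul_eq_zsmul]
    exact sub_mem hf (zsmul_mem (irr_vc χ hχ) m)
  have h2 : ip (f - (m : K) • χ) χ = 0 := by
    rw [ip_sub, ip_smul_left, orth1 _ hχ, hm, mul_one, sub_self]
  have h4 : ip (f - (m : K) • χ) (f - (m : K) • χ) = (k : K) - m ^ 2 := by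
    rw [ip_sub, ip_smul_left, symm χ, h2, symm f, ip_sub, ip_smul_left, symm χ, hm, hk]
    ring
  obtain ⟨m', -, e⟩ := norm_sum _ h1
  have h5 : 0 ≤ k - m ^ 2 := by
    have : k - m ^ 2 = ∑ χ ∈ (fin (G := G)).toFinset, m' χ ^ 2 := by
      rw [h4] at e
      exact_mod_cast e
    rw [this]
    exact Finset.sum_nonneg fun _ _ => sq_nonneg _
  have h6 : m = 1 ∨ m = -1 := by
    have : m < 2 := by nlinarith
    have : -2 < m := by nlinarith
    omega
  rcases h6 with rfl | rfl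
  · exact ⟨χ, hχ, 1, by simpa using h1, by simpa using h2, by simpa using h4⟩
  · exact ⟨χ, hχ, -1, by simpa using h1, by simpa using h2, by simpa using h4⟩

lemma norm_one' (f : G → K) (hf : f ∈ VC G) (h : ip f f = 1) :
    ∃ χ ∈ Irr G, ∃ u : ℤˣ, f = uK u • χ := by
  obtain ⟨χ, hχ, u, h1, -, h2⟩ := peel f hf 1 (by simpa using h) one_ne_zero (by norm_num)
  exact ⟨χ, hχ, u, sub_eq_zero.mp (norm_zero _ h1 (by simpa using h2))⟩

lemma norm_one (f : G → K) (hf : f ∈ VC G) (h : ip f f = 1) : f ∈ Irr G ∨ -f ∈ Irr G := by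
  obtain ⟨χ, hχ, u, rfl⟩ := norm_one' f hf h
  rcases Int.units_eq_one_or u with rfl | rfl
  · left; simpa using hχ
  · right; simpa using hχ

lemma ch_one (f : G → K) (hf : f ∈ Ch G) (h : ip f f = 1) : f ∈ Irr G := by
  refine (norm_one f (ch_vc f hf) h).resolve_right fun hn => ?_
  obtain ⟨m, hm⟩ := ((ch_iff f).mp hf).2 _ hn
  rw [symm, ip_neg, h] at hm
  have : (-1 : ℤ) = m := by exact_mod_cast hm
  omega

lemma norm_two (f : G → K) (hf : f ∈ VC G) (h : ip f f = 2) : ∃ χ ∈ Irr G, ∃ ψ ∈ Irr G,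
    ∃ u v : ℤˣ, χ ≠ ψ ∧ f = uK u • χ + uK v • ψ := by
  obtain ⟨χ, hχ, u, h1, h2, h3⟩ := peel f hf 2 (by simpa using h) two_ne_zero (by norm_num)
  obtain ⟨ψ, hψ, v, e⟩ := norm_one' _ h1 (by rw [h3]; norm_num)
  refine ⟨χ, hχ, ψ, hψ, u, v, ?_, by rw [← e]; abel⟩
  rintro rfl
  rw [e, ip_smul_left, orth1 _ hχ, mul_one] at h2
  exact uK_ne v h2

omit [Fintype G] in
lemma ch_deg (f : G → K) (hf : f ∈ Ch G) : ∃ m : ℕ, f 1 = m ∧ (m = 0 → f = 0) := by
  induction hf using AddSubmonoid.closure_induction with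
  | mem x hx =>
    obtain ⟨n, hn⟩ := hx
    exact ⟨n, hn.one, fun h => absurd h hn.pos.ne'⟩
  | zero => exact ⟨0, by simp, fun _ => rfl⟩
  | add x y _ _ hx hy =>
    obtain ⟨a, ha, ha'⟩ := hx
    obtain ⟨b, hb, hb'⟩ := hy
    exact ⟨a + b, by simp [ha, hb], fun h => by rw [ha' (by omega), hb' (by omega), add_zero]⟩

lemma ch_sub (f : G → K) (hf : f ∈ Ch G) (χ : G → K) (hχ : χ ∈ Irr G) (h : ip f χ ≠ 0) :
    f - χ ∈ Ch G := by
  obtain ⟨hc, hm⟩ := (ch_iff f).mp hf
  refine (ch_iff _).mpr ⟨cl_vc _ (sub_mem (ch_vc f hf) (irr_vc χ hχ)), fun ψ hψ => ?_⟩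
  obtain ⟨m, e⟩ := hm ψ hψ
  by_cases hne : χ = ψ
  · subst hne
    obtain ⟨k, rfl⟩ : ∃ k, m = k + 1 :=
      Nat.exists_eq_succ_of_ne_zero fun h0 => h (by rw [e, h0, Nat.cast_zero])
    exact ⟨k, by rw [ip_sub, e, orth1 _ hχ]; simp⟩
  · exact ⟨m, by rw [ip_sub, e, orth0 _ hχ _ hψ hne, sub_zero]⟩

end ChAx

open ChAx in
theorem chA : ChASt := fun _ _ _ =>
  { fin := fin, cl := cl_vc, symm := symm, orth1 := orth1, orth0 := orth0, compl := compl,
    expand := expand, irr_ch := irr_ch, ch_vc := ch_vc, vc_iff := vc_iff, ch_iff := ch_iff,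
    ip_int := ip_int, norm_zero := norm_zero, norm_one := norm_one, ch_one := ch_one,
    norm_two := ChAx.norm_two, ch_deg := ch_deg, ch_sub := ch_sub }

end Pool.Agent.Lib.MP_1ae3da_al.GM
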