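import Pool.Agent.Lib.MP_1ae3da_al.GT

/-! The toolbox of character theory, second part. -/

namespace Pool.Agent.Lib.MP_1ae3da_al.GM

open Module

namespace ChB'

variable {G : Type} [Group G] [Fintype G]

lemma rep (V : Type) [AddCommGroup V] [Module K V] [FiniteDimensional K V]
    (ρ : Representation K G V) : ρ.character ∈ Ch G := by
  obtain ⟨s, hs, e⟩ := exists_decomp _ V ρ rfl
  rw [e]
  exact AddSubmonoid.multiset_sum_mem _ _ fun χ hχ => AddSubmonoid.subset_closure (hs χ hχ)

/-- the representation attached to a matrix representation. -/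
noncomputable def toRep {m : Type} [Fintype m] [DecidableEq m] (ρ : G →* Matrix m m K) :
    Representation K G (m → K) :=
  ((Matrix.toLinAlgEquiv' : Matrix m m K ≃ₐ[K] _) : _ →* _).comp ρ

omit [Fintype G] in
lemma toRep_apply {m : Type} [Fintype m] [DecidableEq m] (ρ : G →* Matrix m m K) (g : G) :
    toRep ρ g = Matrix.toLin' (ρ g) := rfl

omit [Fintype G] in
lemma toRep_char {m : Type} [Fintype m] [DecidableEq m] (ρ : G →* Matrix m m K) :
    (toRep ρ).character = fun x => (ρ x).trace := by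
  funext g
  unfold Representation.character
  rw [toRep_apply, Matrix.trace_toLin'_eq]

lemma mat (m : Type) [Fintype m] [DecidableEq m] (ρ : G → Matrix m m K)
    (h : ∀ x y, ρ (x * y) = ρ x * ρ y) : (fun x => (ρ x).trace) ∈ Ch G := by
  have h1 : ∀ x, ρ x * ρ 1 = ρ x := fun x => by rw [← h, mul_one]
  have h2 : ∀ x, ρ 1 * ρ x = ρ x := fun x => by rw [← h, one_mul]
  let ρ' : G →* Matrix m m K :=
    { toFun := fun x => ρ x + (1 - ρ 1)
      map_one' := by abel
      map_mul' := fun x y => by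
        simp only [add_mul, mul_add, mul_sub, sub_mul, one_mul, mul_one, h1, h2, h]
        abel }
  have h3 : ∀ x, ρ' x * ρ 1 = ρ x := fun x => by
    change (ρ x + (1 - ρ 1)) * ρ 1 = ρ x
    rw [add_mul, sub_mul, h1, h1, one_mul, sub_self, add_zero]
  let W : Subrepresentation (toRep ρ') :=
    ⟨LinearMap.range (Matrix.toLin' (ρ 1)), by
      rintro g _ ⟨f, rfl⟩
      refine ⟨Matrix.toLin' (ρ g) f, ?_⟩
      rw [toRep_apply, ← Matrix.toLin'_mul_apply, ← Matrix.toLin'_mul_apply, h2, h3]⟩
  have : W.toRepresentation.character = fun x => (ρ x).trace := by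
    funext g
    rw [char_sub (toRep ρ') W (Matrix.toLin' (ρ 1)) (fun v => ⟨v, rfl⟩)
      (by rintro _ ⟨f, rfl⟩; rw [← Matrix.toLin'_mul_apply, h1]), toRep_apply,
      Module.End.mul_eq_comp, ← Matrix.toLin'_mul, h3, Matrix.trace_toLin'_eq]
  rw [← this]
  exact rep _ _

omit [Fintype G] in
lemma real (n : ℕ) (χ : G → K) (h : IsIrr n χ) :
    ∃ ρ : G →* Matrix (Fin n) (Fin n) K, ∀ x, (ρ x).trace = χ x := by
  obtain ⟨ρ, -, rfl⟩ := h
  refine ⟨((LinearMap.toMatrixAlgEquiv' : _ ≃ₐ[K] Matrix (Fin n) (Fin n) K) : _ →* _).comp ρ,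
    fun g => ?_⟩
  unfold Representation.character
  rw [← Matrix.trace_toLin'_eq]
  congr 1
  exact Matrix.toLin'_toMatrix' (ρ g)

lemma norm_one {n : ℕ} {χ : G → K} (h : IsIrr n χ) : ip χ χ = 1 := by
  classical
  rw [h.ip_eq h, if_pos rfl]

lemma toRep_irr {n : ℕ} (ρ : G →* Matrix (Fin n) (Fin n) K)
    (h : (fun x => (ρ x).trace) ∈ Irr G) : (toRep ρ).IsIrreducible := by
  obtain ⟨m, hm⟩ := h
  exact irr_of_norm _ (by rw [toRep_char]; exact norm_one hm)

lemma sim (n : ℕ) (ρ ρ' : G →* Matrix (Fin n) (Fin n) K) (h : (fun x => (ρ x).trace) ∈ Irr G)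
    (h' : ∀ x, (ρ' x).trace = (ρ x).trace) :
    ∃ U : (Matrix (Fin n) (Fin n) K)ˣ, ∀ x, ρ' x = U.val * ρ x * U.inv := by
  have : Invertible (Nat.card G : K) := invertibleOfNonzero card_ne_zero'
  have e : (fun x => (ρ' x).trace) = fun x => (ρ x).trace := funext h'
  have i1 := toRep_irr ρ h
  have i2 := toRep_irr ρ' (e ▸ h)
  have h1 := Representation.char_orthonormal (toRep ρ') (toRep ρ)
  obtain ⟨m, hm⟩ := h
  have h2 := norm_one hm
  rw [toRep_char, toRep_char, e] at h1
  have h3 : Nonempty (Representation.Equiv (toRep ρ) (toRep ρ')) := by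
    by_contra hne
    rw [if_neg hne] at h1
    exact one_ne_zero (h2.symm.trans h1)
  obtain ⟨φ⟩ := h3
  let A := LinearMap.toMatrix' φ.toLinearEquiv.toLinearMap
  let B := LinearMap.toMatrix' φ.toLinearEquiv.symm.toLinearMap
  have hAB : A * B = 1 := by
    rw [← LinearMap.toMatrix'_comp, LinearEquiv.comp_symm, LinearMap.toMatrix'_id]
  have hBA : B * A = 1 := by
    rw [← LinearMap.toMatrix'_comp, LinearEquiv.symm_comp, LinearMap.toMatrix'_id]
  refine ⟨⟨A, B, hAB, hBA⟩, fun x => ?_⟩
  have h4 : A * ρ x = ρ' x * A := by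
    have := congrArg LinearMap.toMatrix' (φ.isIntertwining' x)
    rw [LinearMap.toMatrix'_comp, LinearMap.toMatrix'_comp, toRep_apply, toRep_apply,
      LinearMap.toMatrix'_toLin', LinearMap.toMatrix'_toLin'] at this
    exact this
  change ρ' x = A * ρ x * B
  rw [h4, mul_assoc, hAB, mul_one]

lemma schur' (n : ℕ) (ρ : G →* Matrix (Fin n) (Fin n) K) (h : (fun x => (ρ x).trace) ∈ Irr G)
    (A : Matrix (Fin n) (Fin n) K) (hA : ∀ x, A * ρ x = ρ x * A) : ∃ c : K, A = c • 1 := by
  obtain ⟨c, hc⟩ := schur (toRep ρ) (toRep_irr ρ h) (Matrix.toLin' A) fun g v => by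
    rw [toRep_apply, ← Matrix.toLin'_mul_apply, ← Matrix.toLin'_mul_apply, hA]
  refine ⟨c, Matrix.toLin'.injective (LinearMap.ext fun v => ?_)⟩
  rw [hc]
  simp

lemma mul_irr {f g : G → K} (hf : f ∈ Irr G) (hg : g ∈ Irr G) : f * g ∈ Ch G := by
  obtain ⟨n, ρ, -, rfl⟩ := hf
  obtain ⟨m, σ, -, rfl⟩ := hg
  rw [← Representation.char_tensor]
  exact rep _ _

lemma mulC {f g : G → K} (hf : f ∈ Ch G) (hg : g ∈ Ch G) : f * g ∈ Ch G := by
  induction hf using AddSubmonoid.closure_induction with
  | mem f hf =>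
    induction hg using AddSubmonoid.closure_induction with
    | mem g hg => exact mul_irr hf hg
    | zero => simp
    | add a b _ _ h1 h2 => rw [mul_add]; exact add_mem h1 h2
  | zero => simp
  | add a b _ _ h1 h2 => rw [add_mul]; exact add_mem h1 h2

lemma mul (ha : ChA G) {f g : G → K} (hf : f ∈ VC G) (hg : g ∈ VC G) : f * g ∈ VC G := by
  induction hf using AddSubgroup.closure_induction with
  | mem f hf =>
    induction hg using AddSubgroup.closure_induction with
    | mem g hg => exact ha.ch_vc _ (mul_irr hf hg)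
    | zero => simp
    | add a b _ _ h1 h2 => rw [mul_add]; exact add_mem h1 h2
    | neg a _ h => rw [mul_neg]; exact neg_mem h
  | zero => simp
  | add a b _ _ h1 h2 => rw [add_mul]; exact add_mem h1 h2
  | neg a _ h => rw [neg_mul]; exact neg_mem h

lemma invI (n : ℕ) (χ : G → K) (h : IsIrr n χ) : IsIrr n fun x => χ x⁻¹ := by
  have h1 := norm_one h
  obtain ⟨ρ, -, rfl⟩ := h
  have e : ρ.dual.character = fun x => ρ.character x⁻¹ := funext ρ.char_dual
  have := isIrr_of_irr ρ.dual (irr_of_norm _ (by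
    rw [e, ← h1]
    simp only [ip, inv_inv, mul_comm]))
  rw [e] at this
  simpa using this

lemma inv {f : G → K} (hf : f ∈ VC G) : (fun x => f x⁻¹) ∈ VC G := by
  induction hf using AddSubgroup.closure_induction with
  | mem f hf =>
    obtain ⟨n, hn⟩ := hf
    exact AddSubgroup.subset_closure ⟨n, invI n f hn⟩
  | zero => exact zero_mem _
  | add a b _ _ h1 h2 => exact add_mem h1 h2
  | neg a _ h => exact neg_mem h

lemma lin (l : G →* K) (n : ℕ) (χ : G → K) (h : IsIrr n χ) : IsIrr n (⇑l * χ) := by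
  have h1 := norm_one h
  obtain ⟨ρ, -, rfl⟩ := h
  let ρ' : Representation K G (Fin n → K) :=
    { toFun := fun x => l x • ρ x
      map_one' := by simp
      map_mul' := fun x y => by rw [map_mul, map_mul, smul_mul_smul_comm] }
  have e : ρ'.character = ⇑l * ρ.character := by
    funext x
    exact map_smul (LinearMap.trace K _) (l x) (ρ x)
  refine ⟨ρ', irr_of_norm _ ?_, e.symm⟩
  rw [e, ← h1]
  unfold ip
  congr 1
  refine Finset.sum_congr rfl fun x _ => ?_
  have : l x * l x⁻¹ = 1 := by rw [← map_mul, mul_inv_cancel, map_one]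
  simp only [Pi.mul_apply]
  linear_combination (ρ.character x * ρ.character x⁻¹) * this

omit [Fintype G] in
lemma lin1 (χ : G → K) (h : IsIrr 1 χ) : ∃ l : G →* K, χ = ⇑l := by
  obtain ⟨ρ, hρ⟩ := real 1 χ h
  refine ⟨Matrix.detMonoidHom.comp ρ, funext fun x => ?_⟩
  rw [← hρ, Matrix.trace_fin_one]
  exact (Matrix.det_fin_one (ρ x)).symm

omit [Fintype G] in
lemma gal {f : G → K} (hf : f ∈ VC G) (σ : Ga) (M s : ℕ) (x : G) (hM : 0 < M) (hx : x ^ M = 1)
    (hs : Ex M σ s) : σ (f x) = f (x ^ s) := by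
  induction hf using AddSubgroup.closure_induction with
  | mem f hf =>
    obtain ⟨n, ρ, -, rfl⟩ := hf
    exact sigma_char ρ M hM x hx σ s hs
  | zero => simp
  | add a b _ _ h1 h2 => simp [h1, h2]
  | neg a _ h => simp [h]

omit [Fintype G] in
lemma cen {χ : G → K} (h : χ ∈ Irr G) (z : G) (hz : ∀ g, z * g = g * z) (hzz : z * z = 1) :
    ∃ ω : ℤˣ, ∀ x, χ (z * x) = uK ω * χ x := by
  obtain ⟨n, ρ, hρ, rfl⟩ := h
  obtain ⟨c, hc⟩ := schur ρ hρ (ρ z) fun g v => by
    rw [← Module.End.mul_apply, ← Module.End.mul_apply, ← map_mul, ← map_mul, hz]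
  have h1 : ∀ x, ρ.character (z * x) = c * ρ.character x := by
    intro x
    have : ρ (z * x) = c • ρ x := LinearMap.ext fun v => by
      rw [map_mul, Module.End.mul_apply, hc]; rfl
    unfold Representation.character
    rw [this, map_smul, smul_eq_mul]
  have h2 : c * c = 1 := by
    have := nontrivial_of_irr ρ hρ
    obtain ⟨v, hv⟩ := exists_ne (0 : Fin n → K)
    have h3 : (c * c) • v = (1 : K) • v := by
      rw [mul_smul, ← hc v, ← hc, ← Module.End.mul_apply, ← map_mul, hzz, map_one, one_smul]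
      rfl
    exact smul_left_injective K hv h3
  rcases mul_self_eq_one_iff.1 h2 with rfl | rfl
  · exact ⟨1, by simpa using h1⟩
  · exact ⟨-1, by simpa using h1⟩

omit [Fintype G] in
lemma ker {χ : G → K} (h : χ ∈ Irr G) (T : Subgroup G) [hT : T.Normal] [Fintype T] :
    (∀ r ∈ T, ∀ x, χ (r * x) = χ x) ∨ ∀ x, ∑ r : T, χ (r * x) = 0 := by
  obtain ⟨n, ρ, hρ, rfl⟩ := h
  obtain ⟨c, hc⟩ := schur ρ hρ (∑ r : T, ρ r) fun g v => by
    rw [← Module.End.mul_apply, ← Module.End.mul_apply, Finset.sum_mul, Finset.mul_sum]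
    congr 1
    symm
    refine Fintype.sum_equiv (MulAut.conjNormal g).toEquiv _ _ fun r => ?_
    rw [← map_mul, ← map_mul]
    congr 1
    change g * r = g * r * g⁻¹ * g
    group
  by_cases h0 : c = 0
  · right
    intro x
    have : ∑ r : T, ρ r = 0 := LinearMap.ext fun v => by rw [hc, h0, zero_smul]; rfl
    unfold Representation.character
    simp only [map_mul]
    rw [← map_sum, ← Finset.sum_mul, this, zero_mul, map_zero]
  · left
    intro r hr x
    have h1 : ρ r * ∑ r : T, ρ r = ∑ r : T, ρ r := by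
      rw [Finset.mul_sum]
      refine Fintype.sum_equiv (Equiv.mulLeft (⟨r, hr⟩ : T)) _ _ fun y => ?_
      rw [← map_mul]
      rfl
    have h2 : ρ r = 1 := LinearMap.ext fun v => by
      have := congrArg (fun f => f v) h1
      simp only [Module.End.mul_apply, hc, map_smul] at this
      exact smul_right_injective _ h0 this
    unfold Representation.character
    rw [map_mul, h2, one_mul]

end ChB'

open ChB' in
theorem chB (ha : ChASt) (hd : DegSt) : ChBSt := fun G _ _ =>
  { rep := rep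
    mat := mat
    real := real
    sim := sim
    schur := schur'
    mul := fun _ hf _ hg => mul (ha G) hf hg
    mulC := fun _ hf _ hg => mulC hf hg
    inv := fun _ hf => inv hf
    invI := invI
    lin := lin
    lin1 := lin1
    gal := fun _ hf => gal hf
    int := (hd G).1
    cen := fun _ h => cen h
    deg := (hd G).2
    ker := fun _ h T _ _ => ker h T }

end Pool.Agent.Lib.MP_1ae3da_al.GM
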