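import Pool.Agent.Lib.MP_1ae3da_al.GT

/-! Restriction, inflation and induction along a homomorphism of finite groups. -/

namespace Pool.Agent.Lib.MP_1ae3da_al.GM

open Equiv

namespace ChHs

variable {C G : Type} [Group C] [Group G] [Fintype C] [Fintype G] [DecidableEq G] (f : C →* G)

lemma cardK (H : Type) [Group H] [Fintype H] : (Fintype.card H : K) ≠ 0 :=
  Nat.cast_ne_zero.mpr Fintype.card_ne_zero

lemma ind_eq (τ : C → K) (g : G) :
    ind f τ g = (Fintype.card C : K)⁻¹ * ∑ y : G, ∑ x with f x = y⁻¹ * g * y, τ x := by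
  rw [ind]
  congr 1
  simp only [nc, Finset.card_filter, Nat.cast_sum, Finset.mul_sum, Finset.sum_filter]
  rw [Finset.sum_comm]
  refine Finset.sum_congr rfl fun y _ => Finset.sum_congr rfl fun x _ => ?_
  have : g * y = y * f x ↔ f x = y⁻¹ * g * y := by
    rw [mul_assoc, eq_inv_mul_iff_mul_eq, eq_comm]
  simp [this]

lemma fib_card (hf : Function.Surjective f) (g : G) :
    (Finset.univ.filter fun c => f c = g).card = Nat.card f.ker := by
  obtain ⟨a, rfl⟩ := hf g
  classical
  rw [Nat.card_eq_fintype_card, Fintype.card_subtype]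
  refine Finset.card_bij (fun c _ => c * a⁻¹) ?_ ?_ ?_
  · intro c hc
    simp [MonoidHom.mem_ker, (Finset.mem_filter.1 hc).2]
  · intro c _ d _ h
    exact mul_right_cancel h
  · intro c hc
    refine ⟨c * a, ?_, by simp⟩
    have : f c = 1 := (Finset.mem_filter.1 hc).2
    simp [this]

lemma sum_comp (hf : Function.Surjective f) (F : G → K) :
    ∑ c, F (f c) = (Nat.card f.ker : K) * ∑ g, F g := by
  rw [← Finset.sum_fiberwise Finset.univ f, Finset.mul_sum]
  refine Finset.sum_congr rfl fun g _ => ?_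
  rw [Finset.sum_congr rfl (g := fun _ => F g) fun c hc => by rw [(Finset.mem_filter.1 hc).2],
    Finset.sum_const, fib_card f hf, nsmul_eq_mul]

lemma card_eq (hf : Function.Surjective f) :
    (Fintype.card C : K) = (Nat.card f.ker : K) * Fintype.card G := by
  simpa using sum_comp f hf fun _ => 1

lemma ker_ne : (Nat.card f.ker : K) ≠ 0 := card_ne_zero'

lemma ip_comp (hf : Function.Surjective f) (φ ψ : G → K) : ip (φ ∘ f) (ψ ∘ f) = ip φ ψ := by
  have h := sum_comp f hf fun g => φ g * ψ g⁻¹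
  have h1 := ker_ne f
  have h2 := cardK G
  simp only [ip, Function.comp_apply, map_inv, h, Nat.card_eq_fintype_card (α := C),
    Nat.card_eq_fintype_card (α := G), card_eq f hf]
  field_simp

lemma frob (τ : C → K) (φ : G → K) (hφ : Cl φ) : ip (ind f τ) φ = ip τ (φ ∘ f) := by
  have h := ind_recip f τ (fun g => φ g⁻¹) fun g y => by
    rw [← hφ g⁻¹ y]
    congr 1
    group
  have h2 := cardK G
  simp only [ip, h, Function.comp_apply, map_inv, Nat.card_eq_fintype_card]
  rw [← mul_assoc, ← mul_assoc, inv_mul_cancel₀ h2, one_mul]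

lemma ind_cl (τ : C → K) : Cl (ind f τ) := by
  intro g h
  rw [ind_eq, ind_eq, ← Equiv.sum_comp (Equiv.mulLeft h)]
  congr 1
  refine Finset.sum_congr rfl fun y _ => ?_
  have : (h * y)⁻¹ * (h * g * h⁻¹) * (h * y) = y⁻¹ * g * y := by group
  simp only [Equiv.coe_mulLeft, this]

lemma fib (hf : Function.Surjective f) (τ : C → K) (hτ : Cl τ) (g : G) :
    ind f τ g = (Nat.card f.ker : K)⁻¹ * ∑ c with f c = g, τ c := by
  have key : ∀ y : G, ∑ x with f x = y⁻¹ * g * y, τ x = ∑ c with f c = g, τ c := by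
    intro y
    obtain ⟨a, rfl⟩ := hf y
    refine Finset.sum_equiv (MulAut.conj a).toEquiv (fun x => ?_) fun x _ => (hτ x a).symm
    simp only [Finset.mem_filter, Finset.mem_univ, true_and, MulEquiv.toEquiv_eq_coe,
      MulEquiv.coe_toEquiv, MulAut.conj_apply, map_mul, map_inv]
    constructor
    · intro h; rw [h]; group
    · intro h; rw [← h]; group
  have h1 := ker_ne f
  have h2 := cardK G
  rw [ind_eq, Finset.sum_congr rfl fun y _ => key y, Finset.sum_const, Finset.card_univ,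
    nsmul_eq_mul, card_eq f hf]
  field_simp

omit [Fintype G] [DecidableEq G] in
lemma compC (hb : ChBSt) : ∀ χ ∈ Ch G, χ ∘ f ∈ Ch C := by
  intro χ hχ
  induction hχ using AddSubmonoid.closure_induction with
  | mem χ h =>
    obtain ⟨n, ρ, -, rfl⟩ := h
    exact (hb C).rep _ (ρ.comp f)
  | zero => exact zero_mem _
  | add a b _ _ ha hb => exact add_mem ha hb

omit [Fintype G] [DecidableEq G] in
lemma comp (ha : ChASt) (hb : ChBSt) : ∀ χ ∈ VC G, χ ∘ f ∈ VC C := by
  intro χ hχ
  induction hχ using AddSubgroup.closure_induction with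
  | mem χ h => exact (ha C).ch_vc _ (compC f hb χ (AddSubmonoid.subset_closure h))
  | zero => exact zero_mem _
  | add a b _ _ ha hb => exact add_mem ha hb
  | neg a _ ha => exact neg_mem ha

lemma ip_nat (ha : ChASt) (τ : C → K) (hτ : τ ∈ Ch C) : ∀ ψ ∈ Ch C, ∃ m : ℕ, ip τ ψ = m := by
  intro ψ hψ
  induction hψ using AddSubmonoid.closure_induction with
  | mem χ h => exact (((ha C).ch_iff τ).1 hτ).2 χ h
  | zero => exact ⟨0, by simp [ip]⟩
  | add a b _ _ ha hb =>
    obtain ⟨m, hm⟩ := ha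
    obtain ⟨n, hn⟩ := hb
    exact ⟨m + n, by rw [ip_add_right, hm, hn, Nat.cast_add]⟩

lemma ind_ch (ha : ChASt) (hb : ChBSt) (τ : C → K) (hτ : τ ∈ Ch C) : ind f τ ∈ Ch G :=
  ((ha G).ch_iff _).2 ⟨ind_cl f τ, fun χ hχ => by
    rw [frob f τ χ ((ha G).cl χ (AddSubgroup.subset_closure hχ))]
    exact ip_nat ha τ hτ _ (compC f hb χ (AddSubmonoid.subset_closure hχ))⟩

lemma isIrr_of {H : Type} [Group H] [Fintype H] {χ : H → K} (h : χ ∈ Irr H) {n : ℕ}
    (h1 : χ 1 = n) : IsIrr n χ := by
  obtain ⟨m, hm⟩ := h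
  have : m = n := by exact_mod_cast hm.one.symm.trans h1
  exact this ▸ hm

end ChHs

open ChHs in
theorem chH (ha : ChASt) (hb : ChBSt) : ChHSt := by
  intro C G _ _ _ _ _ f
  refine ⟨comp f ha hb, compC f hb, fun hf n χ hχ => ?_, fun hf n ψ hψ hk => ?_, frob f,
    ind_cl f, fun τ hτ => ?_, ind_ch f ha hb, fun τ φ hφ => ?_, fun hf τ => ?_,
    fun D _ _ _ g τ => ?_, fib f⟩
  · refine isIrr_of ((ha C).ch_one _ (compC f hb χ ((ha G).irr_ch χ ⟨n, hχ⟩)) ?_) ?_
    · rw [ip_comp f hf, (ha G).orth1 χ ⟨n, hχ⟩]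
    · rw [Function.comp_apply, map_one, hχ.one]
  · have h1 : ψ ∈ Ch C := (ha C).irr_ch ψ ⟨n, hψ⟩
    have h2 : ψ = ind f ψ ∘ f := by
      funext c
      rw [Function.comp_apply, fib f hf ψ ((ha C).cl ψ ((ha C).ch_vc ψ h1)),
        Finset.sum_congr rfl (g := fun _ => ψ c) fun x hx => ?_, Finset.sum_const, fib_card f hf,
        nsmul_eq_mul, ← mul_assoc, inv_mul_cancel₀ (ker_ne f), one_mul]
      rw [← hk (x * c⁻¹) c (by simp [(Finset.mem_filter.1 hx).2])]
      simp
    refine ⟨ind f ψ, isIrr_of ((ha G).ch_one _ (ind_ch f ha hb ψ h1) ?_) ?_, h2⟩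
    · rw [← ip_comp f hf, ← h2, (ha C).orth1 ψ ⟨n, hψ⟩]
    · rw [← hψ.one, ← map_one f]
      exact (congrFun h2 1).symm
  · refine ((ha G).vc_iff _).2 ⟨ind_cl f τ, fun χ hχ => ?_⟩
    rw [frob f τ χ ((ha G).cl χ (AddSubgroup.subset_closure hχ))]
    exact (ha C).ip_int τ hτ _ (comp f ha hb χ (AddSubgroup.subset_closure hχ))
  · funext g
    rw [Pi.mul_apply, ind_eq, ind_eq, mul_assoc, Finset.sum_mul]
    congr 1
    refine Finset.sum_congr rfl fun y _ => ?_
    rw [Finset.sum_mul]
    refine Finset.sum_congr rfl fun x hx => ?_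
    have := hφ g y⁻¹
    rw [inv_inv] at this
    rw [Pi.mul_apply, Function.comp_apply, (Finset.mem_filter.1 hx).2, this]
  · have h1 : ∀ y : G, ∑ x with f x = y⁻¹ * 1 * y, τ x = τ 1 := by
      intro y
      rw [Finset.sum_eq_single 1]
      · intro x hx h
        exact absurd (hf (by simpa using hx)) h
      · simp
    have h2 : (f.range.index : K) * Fintype.card C = Fintype.card G := by
      rw [← Nat.card_eq_fintype_card, ← Nat.card_eq_fintype_card, ← f.range.index_mul_card,
        Nat.card_congr (MonoidHom.ofInjective hf).toEquiv, Nat.cast_mul]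
    have h3 := cardK C
    rw [ind_eq, Finset.sum_congr rfl fun y _ => h1 y, Finset.sum_const, Finset.card_univ,
      nsmul_eq_mul, ← h2]
    field_simp
  · funext a
    have h := ind_recip g τ (fun x => (nc a (f x) : K)) fun x y => by
      have := nc_conj a (f x) (f y)⁻¹
      rw [inv_inv] at this
      simp only [map_mul, map_inv, this]
    have h3 := cardK C
    rw [ind, h, ind, ← mul_assoc, ← mul_assoc, inv_mul_cancel₀ h3, one_mul]
    rfl

end Pool.Agent.Lib.MP_1ae3da_al.GM
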