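import Pool.Agent.Lib.MP_1ae3da_al.GT

/-! Comparison of discriminants up to squares. -/

namespace Pool.Agent.Lib.MP_1ae3da_al.GM

namespace CmpL

/-- an even power of `p` times a nonzero square modulo `p`. -/
def S (p : ℕ) (x : ℤ) : Prop := ∃ (j : ℕ) (w : ℤ), x = (p : ℤ) ^ (2 * j) * w ∧ jacobiSym w p = 1

variable {p : ℕ}

lemma cmp_iff {a b : ℤ} : Cmp p a b ↔ S p (a * b) := Iff.rfl

lemma S.mul {a b : ℤ} (h : S p a) (h' : S p b) : S p (a * b) := by
  obtain ⟨j, w, rfl, h⟩ := h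
  obtain ⟨j', w', rfl, h'⟩ := h'
  exact ⟨j + j', w * w', by ring, by rw [jacobiSym.mul_left, h, h', mul_one]⟩

lemma S.congr {a b : ℤ} (h : S p a) (e : b = a) : S p b := e ▸ h

lemma gcd_iff (hp : p.Prime) {w : ℤ} : w.gcd p = 1 ↔ ¬ (p : ℤ) ∣ w := by
  rw [← Int.isCoprime_iff_gcd_eq_one, isCoprime_comm]
  exact (Nat.prime_iff_prime_int.1 hp).coprime_iff_not_dvd

lemma not_dvd (hp : p.Prime) {w : ℤ} (h : jacobiSym w p = 1) : ¬ (p : ℤ) ∣ w := by
  have : NeZero p := ⟨hp.ne_zero⟩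
  rw [← gcd_iff hp]
  by_contra e
  rw [jacobiSym.eq_zero_iff_not_coprime.2 e] at h
  exact zero_ne_one h

lemma split (hp : p.Prime) {e : ℤ} (h : e ≠ 0) :
    ∃ (n : ℕ) (u : ℤ), ¬ (p : ℤ) ∣ u ∧ e = (p : ℤ) ^ n * u :=
  WfDvdMonoid.max_power_factor h (Nat.prime_iff_prime_int.1 hp).irreducible

lemma S.sq (hp : p.Prime) {e : ℤ} (h : e ≠ 0) : S p (e ^ 2) := by
  obtain ⟨n, u, h1, rfl⟩ := split hp h
  exact ⟨n, u ^ 2, by ring, jacobiSym.sq_one' ((gcd_iff hp).2 h1)⟩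

lemma S.ne (hp : p.Prime) {a : ℤ} (h : S p a) : a ≠ 0 := by
  obtain ⟨j, w, rfl, h⟩ := h
  refine mul_ne_zero (pow_ne_zero _ (Nat.cast_ne_zero.2 hp.ne_zero)) ?_
  rintro rfl
  exact not_dvd hp h (dvd_zero _)

lemma uniq (hp : p.Prime) {i j : ℕ} {u w : ℤ} (hw : ¬ (p : ℤ) ∣ w)
    (h : (p : ℤ) ^ i * u = (p : ℤ) ^ j * w) : i ≤ j := by
  by_contra hij
  obtain ⟨d, rfl⟩ : ∃ d, i = j + (d + 1) := ⟨i - j - 1, by omega⟩
  rw [pow_add, mul_assoc] at h
  have := mul_left_cancel₀ (pow_ne_zero _ (Nat.cast_ne_zero.2 hp.ne_zero)) h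
  exact hw ⟨(p : ℤ) ^ d * u, by rw [← this]; ring⟩

lemma S.cancel (hp : p.Prime) {x e : ℤ} (h : S p (x * e ^ 2)) : S p x := by
  have h0 := h.ne hp
  obtain ⟨a, x', hx, rfl⟩ := split hp (left_ne_zero_of_mul h0)
  obtain ⟨b, e', he, rfl⟩ := split hp (e := e) fun h1 => h0 (by simp [h1])
  obtain ⟨j, w, h1, h2⟩ := h
  have hP := Nat.prime_iff_prime_int.1 hp
  have h3 : ¬ (p : ℤ) ∣ x' * e' ^ 2 := fun h => by
    rcases hP.dvd_or_dvd h with h | h
    · exact hx h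
    · exact he (hP.dvd_of_dvd_pow h)
  have h4 : (p : ℤ) ^ (a + 2 * b) * (x' * e' ^ 2) = (p : ℤ) ^ (2 * j) * w := by
    rw [← h1]; ring
  have h5 := uniq hp (not_dvd hp h2) h4
  have h6 := uniq hp h3 h4.symm
  rw [show 2 * j = a + 2 * b by omega] at h4
  have h7 := mul_left_cancel₀ (pow_ne_zero _ (Nat.cast_ne_zero.2 hp.ne_zero)) h4
  rw [← h7, jacobiSym.mul_left, jacobiSym.sq_one' ((gcd_iff hp).2 he), mul_one] at h2
  exact ⟨j - b, x', by rw [show 2 * (j - b) = a by omega], h2⟩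

lemma sgn_congr {a b : ℕ} (h : a % 2 = b % 2) : (-1 : ℤ) ^ a = (-1) ^ b := by
  rw [neg_one_pow_eq_pow_mod_two, h, ← neg_one_pow_eq_pow_mod_two]

lemma choose_mod (N : ℕ) : N.choose 2 % 2 = N / 2 % 2 := by
  induction N with
  | zero => simp
  | succ n ih =>
    rw [Nat.choose_succ_succ' n 1, Nat.choose_one_right]
    change (n + n.choose 2) % 2 = _
    generalize n.choose 2 = C at ih ⊢
    obtain ⟨k, rfl | rfl⟩ := Nat.even_or_odd' n
    · rw [show 2 * k / 2 = k by omega] at ih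
      rw [show (2 * k + 1) / 2 = k by omega]
      omega
    · rw [show (2 * k + 1) / 2 = k by omega] at ih
      rw [show (2 * k + 1 + 1) / 2 = k + 1 by omega]
      omega

lemma prod_ne {ρ : Multiset ℕ} (h : 0 ∉ ρ) : ((ρ.prod : ℕ) : ℤ) ≠ 0 :=
  Nat.cast_ne_zero.2 (Multiset.prod_ne_zero h)

lemma trans (hp : p.Prime) {a b c : ℤ} (h : Cmp p a b) (h' : Cmp p b c) : Cmp p a c :=
  S.cancel hp (e := b) (((cmp_iff.1 h).mul (cmp_iff.1 h')).congr (by ring))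

end CmpL

open CmpL

theorem cmpSt : CmpSt where
  symm p D D' h := (cmp_iff.1 h).congr (mul_comm _ _)
  ne p D D' hp h := mul_ne_zero_iff.1 ((cmp_iff.1 h).ne hp)
  refl p D hp h := (S.sq hp h).congr (sq D).symm
  trans p D D' D'' hp h h' := CmpL.trans hp h h'
  mul p a b c d _ h h' := ((cmp_iff.1 h).mul (cmp_iff.1 h')).congr (by ring)
  prod p ι s a b hp h := by
    induction s using Multiset.induction_on with
    | empty => exact (S.sq hp one_ne_zero).congr (by simp)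
    | cons i s ih =>
      rw [Multiset.map_cons, Multiset.map_cons, Multiset.prod_cons, Multiset.prod_cons]
      exact ((cmp_iff.1 (h i (Multiset.mem_cons_self _ _))).mul
        (cmp_iff.1 (ih fun j hj => h j (Multiset.mem_cons_of_mem hj)))).congr (by ring)
  sq p D e hp h h' := (S.sq hp (mul_ne_zero h h')).congr (by ring)
  cancel p a b c hp h := S.cancel hp (e := c) ((cmp_iff.1 h).congr (by ring))
  move p a b c h := (cmp_iff.1 h).congr (by ring)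
  unit p D D' h := ⟨0, D * D', by simp, h⟩
  zmod p D D' c hp hc h := by
    have : Fact p.Prime := ⟨hp⟩
    refine ⟨0, D * D', by simp, ?_⟩
    rw [← jacobiSym.legendreSym.to_jacobiSym,
      legendreSym.eq_one_iff p (by rw [h]; exact pow_ne_zero _ hc), h]
    exact ⟨c, sq c⟩
  sim_refl p ρ hp h := ⟨h, ⟨_, rfl⟩,
    (S.sq hp (mul_ne_zero (pow_ne_zero _ (by norm_num)) (prod_ne h))).congr (sq _).symm⟩
  sim_trans p ρ ρ' ρ'' hp h h' h0 := by
    obtain ⟨h1, h2, h3⟩ := h h0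
    obtain ⟨h4, h5, h6⟩ := h' h1
    refine ⟨h4, ?_, CmpL.trans hp h3 h6⟩
    rw [Nat.even_iff] at h2 h5 ⊢
    omega
  sim_add p κ ρ ρ' hp h h0 := by
    rw [Multiset.mem_add, not_or] at h0
    obtain ⟨h1, h2, h3⟩ := h h0.2
    rw [Nat.even_iff] at h2
    refine ⟨by rw [Multiset.mem_add, not_or]; exact ⟨h0.1, h1⟩, ?_, ?_⟩
    · rw [Nat.even_iff, Multiset.card_add, Multiset.card_add]
      omega
    · refine ((S.sq hp (prod_ne h0.1)).mul (cmp_iff.1 h3)).congr ?_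
      have e := sgn_congr (a := (κ + ρ).card / 2 + (κ + ρ').card / 2)
        (b := ρ.card / 2 + ρ'.card / 2) (by rw [Multiset.card_add, Multiset.card_add]; omega)
      rw [pow_add, pow_add] at e
      rw [Multiset.prod_add, Multiset.prod_add, Nat.cast_mul, Nat.cast_mul]
      linear_combination ((κ.prod : ℕ) : ℤ) ^ 2 * (ρ.prod : ℕ) * (ρ'.prod : ℕ) * e
  sim_map p ρ ρ' hp h h0 := by
    have h0' : 0 ∉ ρ := fun e => h0 (Multiset.mem_map.2 ⟨0, e, mul_zero p⟩)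
    obtain ⟨h1, ⟨t, h2⟩, h3⟩ := h h0'
    refine ⟨fun e => ?_, ?_, ?_⟩
    · obtain ⟨r, hr, e⟩ := Multiset.mem_map.1 e
      rcases Nat.mul_eq_zero.1 e with e | e
      · exact hp.ne_zero e
      · exact h1 (e ▸ hr)
    · rw [Multiset.card_map, Multiset.card_map]
      exact ⟨t, h2⟩
    · have hp0 : (p : ℤ) ≠ 0 := Nat.cast_ne_zero.2 hp.ne_zero
      refine ((S.sq hp (pow_ne_zero t hp0)).mul (cmp_iff.1 h3)).congr ?_
      have e : (p : ℤ) ^ ρ.card * (p : ℤ) ^ ρ'.card = ((p : ℤ) ^ t) ^ 2 := by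
        rw [← pow_add, h2]; ring
      have e' : ∀ s : Multiset ℕ, (s.map (p * ·)).prod = p ^ s.card * s.prod := fun s => by
        rw [Multiset.prod_map_mul, Multiset.map_const', Multiset.prod_replicate, Multiset.map_id']
      rw [e', e', Multiset.card_map, Multiset.card_map, Nat.cast_mul, Nat.cast_mul, Nat.cast_pow,
        Nat.cast_pow, ← e]
      ring
  sim_dm p q n ρ ρ' hp h h0 hn hn' := by
    obtain ⟨-, h2, h3⟩ := h h0
    rw [Nat.even_iff] at h2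
    obtain ⟨t, ht⟩ : ∃ t, n - ρ.card + (n - ρ'.card) = 2 * t :=
      ⟨(n - ρ.card + (n - ρ'.card)) / 2, by omega⟩
    have hq : (2 * (q : ℤ)) ≠ 0 := mul_ne_zero two_ne_zero q.ne_zero
    refine ((S.sq hp (pow_ne_zero t hq)).mul (cmp_iff.1 h3)).congr ?_
    have e1 := sgn_congr (a := (n - ρ.card).choose 2 + (n - ρ'.card).choose 2)
      (b := ρ.card / 2 + ρ'.card / 2) (by
        have := choose_mod (n - ρ.card)
        have := choose_mod (n - ρ'.card)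
        omega)
    rw [pow_add, pow_add] at e1
    have e2 : (2 * (q : ℤ)) ^ (n - ρ.card) * (2 * (q : ℤ)) ^ (n - ρ'.card) =
        ((2 * (q : ℤ)) ^ t) ^ 2 := by
      rw [← pow_add, ht, pow_mul']
    rw [Dm, Dm, ← e2]
    linear_combination (2 * (q : ℤ)) ^ (n - ρ.card) * (2 * (q : ℤ)) ^ (n - ρ'.card) *
      (ρ.prod : ℕ) * (ρ'.prod : ℕ) * e1
  dm_ne q n ρ h := mul_ne_zero (mul_ne_zero (pow_ne_zero _ (by norm_num))
    (pow_ne_zero _ (mul_ne_zero two_ne_zero q.ne_zero))) (prod_ne h)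

end Pool.Agent.Lib.MP_1ae3da_al.GM
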