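import Pool.Agent.Lib.MP_1ae3da_al.GT

/-! Partitions in Frobenius coordinates are equinumerous with multisets of positive parts. -/

namespace Pool.Agent.Lib.MP_1ae3da_al.GM

open Equiv

namespace Cnt

/-- monotone tuples of length `n` and sum `n`. -/
abbrev Mo (n : ℕ) : Type := {g : Fin n → ℕ // Monotone g ∧ ∑ i, g i = n}

lemma sum_fin (n : ℕ) : ∑ i : Fin n, (i : ℕ) = n.choose 2 := by
  rw [Fin.sum_univ_eq_sum_range (fun i => i) n, Finset.sum_range_id, Nat.choose_two_right]

lemma sm_add {n : ℕ} {g : Fin n → ℕ} (hg : Monotone g) : StrictMono fun i => g i + (i : ℕ) :=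
  fun i j h => by
    have h1 := hg h.le
    have h2 : (i : ℕ) < j := h
    show g i + (i : ℕ) < g j + j
    omega

lemma sm_gap {n : ℕ} {f : Fin n → ℕ} (hf : StrictMono f) :
    ∀ (d : ℕ) (i j : Fin n), (j : ℕ) = i + d → f i + d ≤ f j := by
  intro d
  induction d with
  | zero => intro i j h; have : j = i := Fin.ext (by omega); simp [this]
  | succ d ih =>
    intro i j h
    have hj := j.2
    have h1 := ih i ⟨i + d, by omega⟩ rfl
    have h2 : f ⟨i + d, by omega⟩ < f j := hf (by rw [Fin.lt_def]; simp only; omega)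
    omega

lemma sm_le {n : ℕ} {f : Fin n → ℕ} (hf : StrictMono f) (i : Fin n) : (i : ℕ) ≤ f i := by
  have hi := i.2
  have := sm_gap hf i ⟨0, by omega⟩ i (by simp)
  omega

/-- bead sets. -/
def toA (n : ℕ) (g : Mo n) : {A : Finset ℕ // A.card = n ∧ A.sum id = n + n.choose 2} :=
  ⟨Finset.univ.image fun i => g.1 i + (i : ℕ), by
    rw [Finset.card_image_of_injective _ (sm_add g.2.1).injective]; simp, by
    rw [Finset.sum_image fun i _ j _ h => (sm_add g.2.1).injective h]
    simp only [id]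
    rw [Finset.sum_add_distrib, g.2.2, sum_fin]⟩

lemma toA_bij (n : ℕ) : Function.Bijective (toA n) := by
  constructor
  · intro g g' h
    have h0 : (toA n g).1 = (toA n g').1 := by rw [h]
    have h1 := Finset.orderEmbOfFin_unique (toA n g).2.1 (f := fun i => g.1 i + (i : ℕ))
      (fun x => Finset.mem_image_of_mem _ (Finset.mem_univ x)) (sm_add g.2.1)
    have h2 := Finset.orderEmbOfFin_unique (toA n g).2.1 (f := fun i => g'.1 i + (i : ℕ))
      (fun x => by rw [h0]; exact Finset.mem_image_of_mem _ (Finset.mem_univ x)) (sm_add g'.2.1)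
    apply Subtype.ext
    funext i
    have := congrFun (h1.trans h2.symm) i
    simpa using this
  · rintro ⟨A, hA, hs⟩
    have hf : StrictMono (A.orderEmbOfFin hA) := (A.orderEmbOfFin hA).strictMono
    have he : (fun i : Fin n => (A.orderEmbOfFin hA i - (i : ℕ)) + (i : ℕ)) =
        A.orderEmbOfFin hA := by
      funext i
      exact Nat.sub_add_cancel (sm_le hf i)
    have him : Finset.univ.image (A.orderEmbOfFin hA) = A := A.image_orderEmbOfFin_univ hA
    refine ⟨⟨fun i => A.orderEmbOfFin hA i - (i : ℕ), fun i j h => ?_, ?_⟩, ?_⟩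
    · have h1 : (i : ℕ) ≤ j := h
      have h2 := sm_gap hf (j - i) i j (by omega)
      have h3 := sm_le hf i
      show A.orderEmbOfFin hA i - (i : ℕ) ≤ A.orderEmbOfFin hA j - (j : ℕ)
      omega
    · have h1 : ∑ i, A.orderEmbOfFin hA i = n + n.choose 2 := by
        rw [← hs]
        conv_rhs => rw [← him]
        rw [Finset.sum_image fun i _ j _ h => hf.injective h]
        rfl
      have h2 : ∑ i : Fin n, ((A.orderEmbOfFin hA i - (i : ℕ)) + (i : ℕ)) = n + n.choose 2 := by
        rw [he, h1]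
      rw [Finset.sum_add_distrib, sum_fin] at h2
      exact Nat.add_right_cancel h2
    · apply Subtype.ext
      show Finset.univ.image (fun i : Fin n => (A.orderEmbOfFin hA i - (i : ℕ)) + (i : ℕ)) = A
      rw [he, him]

/-- multisets with `n` entries. -/
def toM (n : ℕ) (g : Mo n) : {m : Multiset ℕ // m.card = n ∧ m.sum = n} :=
  ⟨(List.ofFn g.1 : List ℕ), by simp, by
    rw [Multiset.sum_coe, List.sum_ofFn, g.2.2]⟩

lemma toM_bij (n : ℕ) : Function.Bijective (toM n) := by
  constructor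
  · intro g g' h
    have h0 : (toM n g).1 = (toM n g').1 := by rw [h]
    have h1 : (List.ofFn g.1).Perm (List.ofFn g'.1) := Multiset.coe_eq_coe.1 h0
    exact Subtype.ext (List.ofFn_injective
      (h1.eq_of_sortedLE g.2.1.sortedLE_ofFn g'.2.1.sortedLE_ofFn))
  · rintro ⟨m, hm, hs⟩
    have hl : (m.sort (· ≤ ·)).length = n := by rw [Multiset.length_sort, hm]
    obtain ⟨g, hg⟩ : ∃ g : Fin n → ℕ, List.ofFn g = m.sort (· ≤ ·) := by
      subst hl
      exact ⟨_, List.ofFn_get _⟩
    have hc : ((List.ofFn g : List ℕ) : Multiset ℕ) = m := by rw [hg, Multiset.sort_eq]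
    refine ⟨⟨g, ?_, ?_⟩, Subtype.ext hc⟩
    · rw [← List.sortedLE_ofFn_iff, hg]
      exact (Multiset.pairwise_sort m (· ≤ ·)).sortedLE
    · rw [← List.sum_ofFn, ← Multiset.sum_coe, hc, hs]

lemma card_le (ρ : Multiset ℕ) (h : 0 ∉ ρ) : ρ.card ≤ ρ.sum := by
  have := Multiset.card_nsmul_le_sum (s := ρ) (a := 1) fun x hx =>
    Nat.one_le_iff_ne_zero.2 fun h0 => h (h0 ▸ hx)
  simpa using this

/-- padding with zeros. -/
def pad (n : ℕ) (ρ : {ρ : {ρ : Multiset ℕ // 0 ∉ ρ} // ρ.1.sum = n}) :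
    {m : Multiset ℕ // m.card = n ∧ m.sum = n} :=
  ⟨ρ.1.1 + Multiset.replicate (n - ρ.1.1.card) 0, by
    have := card_le ρ.1.1 ρ.1.2
    have h2 := ρ.2
    simp only [Multiset.card_add, Multiset.card_replicate]
    omega, by simp [ρ.2]⟩

lemma filt (ρ : Multiset ℕ) (h : 0 ∉ ρ) (k : ℕ) :
    (ρ + Multiset.replicate k 0).filter (· ≠ 0) = ρ := by
  have h1 : ρ.filter (· ≠ 0) = ρ :=
    Multiset.filter_eq_self.2 fun a ha h0 => h (by rw [← h0]; exact ha)
  have h2 : (Multiset.replicate k 0).filter (· ≠ 0) = 0 :=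
    Multiset.filter_eq_nil.2 fun a ha h0 => h0 (Multiset.eq_of_mem_replicate ha)
  rw [Multiset.filter_add, h1, h2, add_zero]

lemma pad_bij (n : ℕ) : Function.Bijective (pad n) := by
  constructor
  · intro a b h
    have h0 : (pad n a).1 = (pad n b).1 := by rw [h]
    have h1 := congrArg (Multiset.filter (· ≠ 0)) h0
    simp only [pad] at h1
    rw [filt _ a.1.2, filt _ b.1.2] at h1
    exact Subtype.ext (Subtype.ext h1)
  · rintro ⟨m, hm, hs⟩
    have h1 : m.filter (· ≠ 0) + m.filter (fun a => ¬ a ≠ 0) = m := Multiset.filter_add_not _ m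
    have h2 : m.filter (fun a => ¬ a ≠ 0) =
        Multiset.replicate (m.filter (fun a => ¬ a ≠ 0)).card 0 :=
      Multiset.eq_replicate_card.2 fun b hb => not_not.1 (Multiset.mem_filter.1 hb).2
    have h3 := congrArg Multiset.card h1
    rw [Multiset.card_add, hm] at h3
    have h4 := congrArg Multiset.sum h1
    rw [Multiset.sum_add, h2, hs] at h4
    refine ⟨⟨⟨m.filter (· ≠ 0), fun h => Multiset.of_mem_filter h rfl⟩, by simpa using h4⟩,
      Subtype.ext ?_⟩
    show m.filter (· ≠ 0) + Multiset.replicate (n - (m.filter (· ≠ 0)).card) 0 = m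
    have h5 : n - (m.filter (· ≠ 0)).card = (m.filter (fun a => ¬ a ≠ 0)).card := by omega
    rw [h5, ← h2, h1]

lemma it_chg (hsh : ShSt) (N : ℕ) (w : Finset ℕ × Finset ℕ) :
    ((sh1^[N] w).1.card : ℤ) - (sh1^[N] w).2.card = (w.1.card : ℤ) - w.2.card + N ∧
      szN (sh1^[N] w) = szN w := by
  induction N with
  | zero => simp
  | succ N ih =>
    rw [Function.iterate_succ_apply', hsh.chg, hsh.sz, ih.1, ih.2]
    exact ⟨by push_cast; ring, rfl⟩

lemma snd_empty (hsh : ShSt) (n : ℕ) (w : Finset ℕ × Finset ℕ)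
    (h1 : (w.1.card : ℤ) - w.2.card = n) (h2 : szN w = n) :
    w.2 = ∅ ∧ w.1.card = n ∧ w.1.sum id = n + n.choose 2 := by
  have h3 : w.1.card = w.2.card + n := by omega
  have h4 : w.2.card = 0 := by
    by_contra h
    have h5 : w.1.card * 1 ≤ w.1.card * w.2.card :=
      Nat.mul_le_mul_left _ (Nat.one_le_iff_ne_zero.2 h)
    unfold szN at h2
    omega
  have h5 : w.2 = ∅ := Finset.card_eq_zero.1 h4
  have h6 := (hsh.pos w).2.2.2
  have h7 : w.1.card = n := by omega
  refine ⟨h5, h7, ?_⟩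
  unfold szN at h2
  rw [h5, h7] at h2
  rw [h7] at h6
  simp only [Finset.sum_empty, Finset.card_empty, Nat.zero_sub, mul_zero, add_zero] at h2
  omega

/-- moving the origin `n` times. -/
def toB (hsh : ShSt) (n : ℕ) (w : {w : PT0 // szN w.1 = n}) :
    {A : Finset ℕ // A.card = n ∧ A.sum id = n + n.choose 2} :=
  ⟨(sh1^[n] w.1.1).1, (snd_empty hsh n _ (by rw [(it_chg hsh n _).1, w.1.2]; ring)
    (by rw [(it_chg hsh n _).2, w.2])).2⟩

lemma toB_bij (hsh : ShSt) (n : ℕ) : Function.Bijective (toB hsh n) := by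
  constructor
  · intro a b h
    have h0 : (sh1^[n] a.1.1).1 = (sh1^[n] b.1.1).1 := congrArg Subtype.val h
    have ha := (snd_empty hsh n (sh1^[n] a.1.1) (by rw [(it_chg hsh n _).1, a.1.2]; ring)
      (by rw [(it_chg hsh n _).2, a.2])).1
    have hb := (snd_empty hsh n (sh1^[n] b.1.1) (by rw [(it_chg hsh n _).1, b.1.2]; ring)
      (by rw [(it_chg hsh n _).2, b.2])).1
    exact Subtype.ext (Subtype.ext
      ((hsh.bij.1.iterate n) (Prod.ext h0 (ha.trans hb.symm))))
  · rintro ⟨A, hA, hs⟩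
    obtain ⟨w, hw⟩ := (hsh.bij.2.iterate n) (A, ∅)
    have h1 := it_chg hsh n w
    rw [hw] at h1
    obtain ⟨h1, h2⟩ := h1
    simp only [hA, Finset.card_empty] at h1
    have h3 : szN (A, ∅) = n := by
      unfold szN
      simp only [hA, hs, Finset.sum_empty, Finset.card_empty, Nat.zero_sub, mul_zero, add_zero]
      omega
    refine ⟨⟨⟨w, by omega⟩, by rw [← h2, h3]⟩, Subtype.ext ?_⟩
    show (sh1^[n] w).1 = A
    rw [hw]

end Cnt

theorem cnt (hsh : ShSt) : CntSt := by
  let e : ∀ n : ℕ, {w : PT0 // szN w.1 = n} ≃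
      {ρ : {ρ : Multiset ℕ // 0 ∉ ρ} // ρ.1.sum = n} := fun n =>
    (((Equiv.ofBijective _ (Cnt.toB_bij hsh n)).trans
      (Equiv.ofBijective _ (Cnt.toA_bij n)).symm).trans
      (Equiv.ofBijective _ (Cnt.toM_bij n))).trans (Equiv.ofBijective _ (Cnt.pad_bij n)).symm
  exact ⟨Equiv.ofFiberEquiv (f := fun w : PT0 => szN w.1)
    (g := fun ρ : {ρ : Multiset ℕ // 0 ∉ ρ} => ρ.1.sum) e,
    fun w => Equiv.ofFiberEquiv_map e w⟩

end Pool.Agent.Lib.MP_1ae3da_al.GM
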