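import Pool.Agent.Lib.MP_1ae3da_al.GT

/-! The induction product of two spin class functions. -/

namespace Pool.Agent.Lib.MP_1ae3da_al.GM

open Equiv Module

namespace Conv

variable {G : Type} [Group G] [Fintype G] [DecidableEq G]

lemma sum_nc (φ : G → K) (hφ : Cl φ) (h : G) :
    ∑ g, (nc g h : K) * φ g = Fintype.card G * φ h := by
  simp only [nc, Finset.card_filter, Nat.cast_sum, Finset.sum_mul]
  rw [Finset.sum_comm]
  have : ∀ y : G, ∑ g : G, ((if g * y = y * h then 1 else 0 : ℕ) : K) * φ g = φ h := by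
    intro y
    rw [Finset.sum_eq_single (y * h * y⁻¹)]
    · simp [hφ h y]
    · intro g _ hg
      rw [if_neg]
      · simp
      · intro e; apply hg; rw [← e]; simp
    · simp
  rw [Finset.sum_congr rfl fun y _ => this y]
  simp

lemma nc_conj_left (g m a : G) : nc (a * g * a⁻¹) m = nc g m := by
  unfold nc
  symm
  refine Finset.card_bij (fun y _ => a * y) ?_ ?_ ?_
  · intro y hy
    simp only [Finset.mem_filter, Finset.mem_univ, true_and] at hy ⊢
    rw [mul_assoc a y, ← hy]; group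
  · intro y _ z _ h; exact mul_left_cancel h
  · intro y hy
    simp only [Finset.mem_filter, Finset.mem_univ, true_and] at hy
    refine ⟨a⁻¹ * y, ?_, by simp⟩
    simp only [Finset.mem_filter, Finset.mem_univ, true_and]
    rw [mul_assoc a⁻¹ y, ← hy]; group

lemma nc_central (z : G) (hz : ∀ g, z * g = g * z) (g m : G) : nc (z * g) (z * m) = nc g m := by
  unfold nc
  congr 1
  ext y
  simp only [Finset.mem_filter, Finset.mem_univ, true_and]
  rw [← mul_assoc y, ← hz y, mul_assoc, mul_assoc, mul_right_inj]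

end Conv

open Conv in
theorem convSt (hpa : PermASt) (hcb : CbSt) (hav : AvSt) : ConvSt := by
  intro Ω _ _ X _ C τ hτ I J _ _ _ _ T F F' hIJ hα hβ hF hF' g0
  classical
  have hp := hpa Ω
  have hc := hcb Ω X C
  let L : C.sub (I ∪ J) → K := fun g =>
    ((Fintype.card (C.sub I) : K) * Fintype.card (C.sub J))⁻¹ * ∑ x : C.sub I, ∑ y : C.sub J,
      F (tyI I (C.π x)) * F' (tyI J (C.π y)) * nc g (T.α x * T.β y)
  have hm : ∀ (x : C.sub I) (y : C.sub J),
      ((T.α x * T.β y : C.sub (I ∪ J)) : X) = (x : X) * y := by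
    intro x y
    rw [Subgroup.coe_mul, hα, hβ]
  have h1 : T.pr (fun x => τ x * F (tyI I (C.π x))) (fun y => τ y * F' (tyI J (C.π y))) g0 =
      τ g0 * L g0 := by
    unfold Tri.pr
    rw [mul_left_comm]
    congr 1
    rw [Finset.mul_sum]
    refine Finset.sum_congr rfl fun x _ => ?_
    rw [Finset.mul_sum]
    refine Finset.sum_congr rfl fun y _ => ?_
    by_cases h0 : nc g0 (T.α x * T.β y) = 0
    · rw [h0]; simp
    · obtain ⟨h, hh⟩ := nc_ne_zero h0
      have e : (g0 : X) = h * ((x : X) * y) * (h : X)⁻¹ := by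
        rw [← hm, ← Subgroup.coe_mul, ← hh]; simp
      rw [e, hτ.cl, hτ.mul I J hIJ x x.2 y y.2]
      ring
  rw [h1]
  congr 1
  have hty : ∀ g h : C.sub (I ∪ J),
      tyI (I ∪ J) (C.π (h * g * h⁻¹ : C.sub (I ∪ J))) = tyI (I ∪ J) (C.π g) := by
    intro g h
    unfold tyI
    congr 1
    rw [← hp.conj]
    simp only [Subgroup.coe_mul, Subgroup.coe_inv, map_mul, map_inv]
    exact (isConj_iff.2 ⟨C.π h, rfl⟩).symm
  have hLc : ∀ g h : C.sub (I ∪ J), L (h * g * h⁻¹) = L g := by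
    intro g h
    simp only [L, nc_conj_left]
  have hLz : ∀ g : C.sub (I ∪ J), L ((C.sgI (I ∪ J)).z * g) = L g := by
    intro g
    simp only [L]
    congr 1
    symm
    refine Fintype.sum_equiv (Equiv.mulLeft (C.sgI I).z) _ _ fun x => ?_
    refine Finset.sum_congr rfl fun y _ => ?_
    simp only [Equiv.coe_mulLeft]
    rw [map_mul T.α, T.αz, mul_assoc (C.sgI (I ∪ J)).z, nc_central _ (C.sgI (I ∪ J)).zc,
      Subgroup.coe_mul, map_mul, Cover.sgI_z, C.πz, one_mul]
  have hLzp : ∀ (j : ℕ) (g : C.sub (I ∪ J)), L ((C.sgI (I ∪ J)).z ^ j * g) = L g := by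
    intro j g
    induction j with
    | zero => rw [pow_zero, one_mul]
    | succ j ih => rw [pow_succ', mul_assoc, hLz, ih]
  have hLt : ∀ g : C.sub (I ∪ J), tyI (I ∪ J) (C.π g) = tyI (I ∪ J) (C.π g0) → L g = L g0 := by
    intro g hg
    obtain ⟨h, hh, j, e⟩ := hc.conj (I ∪ J) g g.2 g0 g0.2 hg
    rw [← hLc g ⟨h, hh⟩, ← hLzp j g0]
    congr 1
    apply Subtype.ext
    simpa using e
  have hG : (Fintype.card (C.sub (I ∪ J)) : K) ≠ 0 := Nat.cast_ne_zero.mpr Fintype.card_ne_zero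
  have test : ∀ Φ : Multiset ℕ → K, ∑ g : C.sub (I ∪ J), L g * Φ (tyI (I ∪ J) (C.π g)) =
      ∑ g : C.sub (I ∪ J), conv F F' (tyI (I ∪ J) (C.π g)) * Φ (tyI (I ∪ J) (C.π g)) := by
    intro Φ
    have hcl : Cl fun g : C.sub (I ∪ J) => Φ (tyI (I ∪ J) (C.π g)) := fun g h => by
      simp only [hty]
    have r1 := hc.dict (I ∪ J) fun ρ => conv F F' ρ * Φ ρ
    rw [Finset.card_union_of_disjoint hIJ, hav.fub _ _ F F' Φ hF hF', ← hc.dict I] at r1
    simp only [← hc.dict J] at r1
    apply mul_left_cancel₀ (inv_ne_zero hG)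
    rw [r1]
    simp only [L, mul_assoc, ← Finset.mul_sum, Finset.sum_mul]
    rw [Finset.sum_comm, mul_inv, mul_left_comm, mul_assoc]
    congr 2
    rw [Finset.mul_sum]
    refine Finset.sum_congr rfl fun x _ => ?_
    simp only [Finset.mul_sum]
    rw [Finset.sum_comm]
    refine Finset.sum_congr rfl fun y _ => ?_
    simp only [← Finset.mul_sum]
    rw [sum_nc _ hcl, hm, map_mul, hp.tyI_mul I J _ _ hIJ x.2 y.2]
    field_simp
  have h2 := test (Pi.single (tyI (I ∪ J) (C.π g0)) 1)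
  rw [← sub_eq_zero, ← Finset.sum_sub_distrib] at h2
  have h3 : ∀ g : C.sub (I ∪ J),
      L g * (Pi.single (tyI (I ∪ J) (C.π g0)) 1 : Multiset ℕ → K) (tyI (I ∪ J) (C.π g)) -
        conv F F' (tyI (I ∪ J) (C.π g)) *
          (Pi.single (tyI (I ∪ J) (C.π g0)) 1 : Multiset ℕ → K) (tyI (I ∪ J) (C.π g)) =
      if tyI (I ∪ J) (C.π g) = tyI (I ∪ J) (C.π g0) then
        L g0 - conv F F' (tyI (I ∪ J) (C.π g0)) else 0 := by
    intro g
    split_ifs with hg
    · rw [hLt g hg, hg]; simp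
    · rw [Pi.single_eq_of_ne hg]; simp
  rw [Finset.sum_congr rfl fun g _ => h3 g, ← Finset.sum_filter, Finset.sum_const,
    nsmul_eq_mul, mul_eq_zero] at h2
  rcases h2 with h2 | h2
  · exfalso
    rw [Nat.cast_eq_zero, Finset.card_eq_zero] at h2
    have : g0 ∈ Finset.univ.filter fun g : C.sub (I ∪ J) =>
        tyI (I ∪ J) (C.π g) = tyI (I ∪ J) (C.π g0) := by simp
    rw [h2] at this
    exact absurd this (Finset.notMem_empty _)
  · exact sub_eq_zero.1 h2

end Pool.Agent.Lib.MP_1ae3da_al.GM
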