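import Pool.Agent.Lib.MP_1ae3da_al.GT

/-! A double cover of a symmetric group in which two disjoint transpositions have non commuting
lifts is a Schur cover. -/

namespace Pool.Agent.Lib.MP_1ae3da_al.GM

open Equiv

namespace Cov

variable {Ω : Type} [Fintype Ω] [DecidableEq Ω] {X : Type} [Group X]

/-- `z` on odd elements and `1` on even elements. -/
def zs (π : X →* Perm Ω) (z g : X) : X := if Perm.sign (π g) = 1 then 1 else z

variable {π : X →* Perm Ω} {z : X}

lemma zs_mul (hz : z * z = 1) (g h : X) : zs π z (g * h) = zs π z g * zs π z h := by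
  unfold zs
  rw [map_mul, map_mul]
  rcases Int.units_eq_one_or (Perm.sign (π g)) with a | a <;>
    rcases Int.units_eq_one_or (Perm.sign (π h)) with b | b <;> simp [a, b, hz]

lemma zs_sq (hz : z * z = 1) (g : X) : zs π z g * zs π z g = 1 := by
  unfold zs; split_ifs <;> simp [hz]

lemma zs_comm (hc : ∀ g, z * g = g * z) (g h : X) : zs π z g * h = h * zs π z g := by
  unfold zs; split_ifs <;> simp [hc]

omit [Fintype Ω] [DecidableEq Ω] in
lemma inj4 {a b c d : Ω} (h1 : a ≠ b) (h2 : a ≠ c) (h3 : a ≠ d) (h4 : b ≠ c) (h5 : b ≠ d)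
    (h6 : c ≠ d) : Function.Injective ![a, b, c, d] := by
  intro i j h
  fin_cases i <;> fin_cases j <;> simp_all [eq_comm]

lemma key (hs : Function.Surjective π) (hk : ∀ g, π g = 1 ↔ g = 1 ∨ g = z)
    (hc : ∀ g, z * g = g * z) (hz : z * z = 1) {x y : X} {a b c d : Ω}
    (hn : [a, b, c, d].Nodup) (hx : π x = swap a b) (hy : π y = swap c d)
    (hxy : x * y ≠ y * x) (g : X) (ha : π g a = a) (hb : π g b = b) :
    g * x * g⁻¹ = zs π z g * x := by
  have lift : ∀ g g' : X, π g = π g' → g' * x * g'⁻¹ = zs π z g' * x →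
      g * x * g⁻¹ = zs π z g * x := by
    intro g g' e h
    have e1 : zs π z g = zs π z g' := by unfold zs; rw [e]
    rcases (hk (g * g'⁻¹)).1 (by rw [map_mul, map_inv, e, mul_inv_cancel]) with h1 | h1
    · rw [e1, mul_inv_eq_one.1 h1, h]
    · rw [e1, ← h, mul_inv_eq_iff_eq_mul.1 h1]
      calc z * g' * x * (z * g')⁻¹ = z * (g' * x * g'⁻¹) * z⁻¹ := by group
        _ = g' * x * g'⁻¹ := by rw [hc, mul_inv_cancel_right]
  simp only [List.nodup_cons, List.mem_cons, not_or, List.not_mem_nil, not_false_eq_true,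
    List.nodup_nil, and_true] at hn
  obtain ⟨⟨hab, hac, had⟩, ⟨hbc, hbd⟩, hcd⟩ := hn
  have hyx : y * x * y⁻¹ = z * x := by
    rcases (hk (y * x * y⁻¹ * x⁻¹)).1 (by
      rw [map_mul, map_mul, map_mul, map_inv, map_inv, hx, hy, ← swap_apply_apply,
        swap_apply_of_ne_of_ne hac had, swap_apply_of_ne_of_ne hbc hbd, mul_inv_cancel])
      with h | h
    · exact absurd (by rw [mul_inv_eq_one, mul_inv_eq_iff_eq_mul] at h; exact h.symm) hxy
    · exact mul_inv_eq_iff_eq_mul.1 h
  have hsw : ∀ u v : Ω, u ≠ a → u ≠ b → v ≠ a → v ≠ b → u ≠ v → ∀ g, π g = swap u v →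
      g * x * g⁻¹ = zs π z g * x := by
    intro u v h1 h2 h3 h4 h5 g hg
    obtain ⟨k, hk'⟩ := Perm.exists_extending_pair (f := ![a, b, c, d]) (g := ![a, b, u, v])
      (inj4 hab hac had hbc hbd hcd) (inj4 hab h1.symm h3.symm h2.symm h4.symm h5)
    obtain ⟨k, rfl⟩ := hs k
    have k0 : π k a = a := hk' 0
    have k1 : π k b = b := hk' 1
    have k2 : π k c = u := hk' 2
    have k3 : π k d = v := hk' 3
    have e0 : π (k * y * k⁻¹) = swap u v := by
      rw [map_mul, map_mul, map_inv, hy, ← swap_apply_apply, k2, k3]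
    refine lift g (k * y * k⁻¹) (hg.trans e0.symm) ?_
    have e1 : zs π z (k * y * k⁻¹) = z := by
      unfold zs
      rw [e0, Perm.sign_swap h5, if_neg (by decide)]
    have e2 : y * (k⁻¹ * x * k) * y⁻¹ = z * (k⁻¹ * x * k) := by
      rcases (hk (k⁻¹ * x * k * x⁻¹)).1 (by
        rw [map_mul, map_mul, map_mul, map_inv, map_inv, hx, mul_inv_eq_one, mul_assoc,
          inv_mul_eq_iff_eq_mul, mul_inv_eq_iff_eq_mul.1 (swap_apply_apply (π k) a b).symm,
          k0, k1]) with h | h
      · rw [mul_inv_eq_one.1 h, hyx]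
      · rw [mul_inv_eq_iff_eq_mul.1 h, ← mul_assoc y, ← hc, mul_assoc z, mul_assoc z, hyx]
    rw [e1]
    calc k * y * k⁻¹ * x * (k * y * k⁻¹)⁻¹ = k * (y * (k⁻¹ * x * k) * y⁻¹) * k⁻¹ := by group
      _ = k * z * k⁻¹ * x := by rw [e2]; group
      _ = z * x := by rw [← hc, mul_inv_cancel_right]
  have main : ∀ (s : Perm {i // i ≠ a ∧ i ≠ b}) (g : X), π g = Perm.ofSubtype s →
      g * x * g⁻¹ = zs π z g * x := by
    intro s
    induction s using Perm.swap_induction_on with
    | one =>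
      intro g hg
      exact lift g 1 (by rw [hg, map_one, map_one]) (by simp [zs])
    | swap_mul s u v huv ih =>
      intro g hg
      obtain ⟨g1, h1⟩ := hs (swap u.1 v.1)
      obtain ⟨g2, h2⟩ := hs (Perm.ofSubtype s)
      refine lift g (g1 * g2) (by rw [hg, map_mul, map_mul, h1, h2, Perm.ofSubtype_swap_eq]) ?_
      calc g1 * g2 * x * (g1 * g2)⁻¹ = g1 * (g2 * x * g2⁻¹) * g1⁻¹ := by group
        _ = zs π z g2 * (g1 * x * g1⁻¹) := by
          rw [ih g2 h2, ← mul_assoc g1, ← zs_comm hc]; group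
        _ = _ := by
          rw [hsw u v u.2.1 u.2.2 v.2.1 v.2.2 (fun e => huv (Subtype.ext e)) g1 h1, zs_mul hz,
            ← mul_assoc, zs_comm hc g2]
  refine main ((π g).subtypePerm fun i => ?_) g (Perm.ofSubtype_subtypePerm _ fun i hi => ?_).symm
  · constructor
    · rintro ⟨h1, h2⟩
      exact ⟨fun e => h1 (by rw [e, ha]), fun e => h2 (by rw [e, hb])⟩
    · rintro ⟨h1, h2⟩
      exact ⟨fun e => h1 ((π g).injective (e.trans ha.symm)),
        fun e => h2 ((π g).injective (e.trans hb.symm))⟩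
  · exact ⟨fun e => hi (by rw [e, ha]), fun e => hi (by rw [e, hb])⟩

end Cov

open Cov in
theorem cov : CovSt := by
  intro Ω _ _ X _ π hs hcard ⟨x, y, a, b, c, d, hn, hx, hy, hxy⟩
  obtain ⟨⟨z, hzk⟩, hz1, hzu⟩ := (Nat.card_eq_two_iff' (1 : π.ker)).1 hcard
  have hz0 : z ≠ 1 := fun e => hz1 (Subtype.ext e)
  have hk : ∀ g, π g = 1 ↔ g = 1 ∨ g = z := by
    intro g
    refine ⟨fun h => ?_, ?_⟩
    · by_cases e : g = 1
      · exact Or.inl e
      · exact Or.inr (congrArg Subtype.val (hzu ⟨g, h⟩ fun e' => e (congrArg Subtype.val e')))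
    · rintro (rfl | rfl)
      · exact map_one _
      · exact hzk
  have hπz : π z = 1 := hzk
  have hc : ∀ g, z * g = g * z := fun g => by
    rcases (hk (g * z * g⁻¹)).1 (by simp [hπz]) with h | h
    · exact absurd (by simpa using h) hz0
    · rw [mul_inv_eq_iff_eq_mul] at h; exact h.symm
  have hz : z * z = 1 := by
    rcases (hk (z * z)).1 (by simp [hπz]) with h | h
    · exact h
    · exact absurd (by simpa using h) hz0
  have hab : a ≠ b := by
    intro e
    simp [e] at hn
  have hex : ∀ i j : Ω, i ≠ j → ∃ g : X, π g a = i ∧ π g b = j := by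
    intro i j hij
    obtain ⟨k, hk'⟩ := Perm.exists_extending_pair (f := ![a, b]) (g := ![i, j])
      (by
        intro i j h
        fin_cases i <;> fin_cases j <;> simp_all [eq_comm])
      (by
        intro i j h
        fin_cases i <;> fin_cases j <;> simp_all [eq_comm])
    obtain ⟨k, rfl⟩ := hs k
    exact ⟨k, hk' 0, hk' 1⟩
  choose! G hG using hex
  let t : Ω → Ω → X := fun i j => zs π z (G i j) * (G i j * x * (G i j)⁻¹)
  have ht : ∀ g, t (π g a) (π g b) = zs π z g * (g * x * g⁻¹) := by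
    intro g
    obtain ⟨h1, h2⟩ := hG (π g a) (π g b) fun e => hab ((π g).injective e)
    change zs π z (G (π g a) (π g b)) * (G (π g a) (π g b) * x * (G (π g a) (π g b))⁻¹) = _
    generalize G (π g a) (π g b) = g' at h1 h2
    have := key hs hk hc hz hn hx hy hxy (g⁻¹ * g')
      (by rw [map_mul, map_inv, Perm.mul_apply, h1]; simp)
      (by rw [map_mul, map_inv, Perm.mul_apply, h2]; simp)
    have e : g' = g * (g⁻¹ * g') := by group
    generalize g⁻¹ * g' = k at this e
    rw [e, zs_mul hz]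
    calc zs π z g * zs π z k * (g * k * x * (g * k)⁻¹)
        = zs π z g * zs π z k * (g * (k * x * k⁻¹) * g⁻¹) := by group
      _ = zs π z g * (zs π z k * zs π z k) * (g * x * g⁻¹) := by
        rw [this, ← mul_assoc g, ← zs_comm hc k g]; group
      _ = _ := by rw [zs_sq hz, mul_one]
  have hπs : ∀ g, π (zs π z g) = 1 := fun g => by
    unfold zs; split_ifs <;> simp [hπz]
  classical
  refine ⟨⟨π, z, if x * x = 1 then 1 else -1, t, hs, hk, hz0, fun i j hij => ?_,
    fun i j hij => ?_, fun g i j hij => ?_⟩, rfl⟩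
  · obtain ⟨h1, h2⟩ := hG i j hij
    change π (zs π z (G i j) * (G i j * x * (G i j)⁻¹)) = _
    rw [map_mul, hπs, one_mul, map_mul, map_mul, map_inv, hx, ← swap_apply_apply, h1, h2]
  · change zs π z (G i j) * (G i j * x * (G i j)⁻¹) *
      (zs π z (G i j) * (G i j * x * (G i j)⁻¹)) = _
    generalize G i j = g
    have e : zs π z g * (g * x * g⁻¹) * (zs π z g * (g * x * g⁻¹)) = g * (x * x) * g⁻¹ := by
      rw [mul_assoc, ← mul_assoc (g * x * g⁻¹), ← zs_comm hc, mul_assoc, ← mul_assoc,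
        zs_sq hz]
      group
    rw [e]
    rcases (hk (x * x)).1 (by rw [map_mul, hx, swap_mul_self]) with h | h
    · simp [h]
    · rw [h, if_neg hz0, if_neg (by decide), ← hc, mul_inv_cancel_right]
  · obtain ⟨h1, h2⟩ := hG i j hij
    have e := ht (g * G i j)
    rw [map_mul, Perm.mul_apply, Perm.mul_apply, h1, h2] at e
    rw [e, zs_mul hz]
    change g * (zs π z (G i j) * (G i j * x * (G i j)⁻¹)) * g⁻¹ = zs π z g * _
    rw [← mul_assoc (zs π z g), ← mul_assoc (zs π z g), zs_sq hz, one_mul, ← mul_assoc g,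
      ← zs_comm hc]
    group

end Pool.Agent.Lib.MP_1ae3da_al.GM
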