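import Pool.Agent.Lib.MP_1ae3da_al.GT

/-! Character values are algebraic integers and degrees divide the group order. -/

namespace Pool.Agent.Lib.MP_1ae3da_al.GM

namespace Degx

open Module Representation

variable {G : Type} [Group G] [Fintype G]

lemma trace_int {V : Type} [AddCommGroup V] [Module K V] [FiniteDimensional K V]
    (A : Module.End K V) (N : ℕ) (hN : 0 < N) (hA : A ^ N = 1) :
    IsIntegral ℤ (LinearMap.trace K V A) := by
  rw [Module.End.trace_eq_sum_roots_charpoly_of_splits (IsAlgClosed.splits _)]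
  refine (integralClosure ℤ K).multiset_sum_mem fun μ hμ => ?_
  have h1 : A.HasEigenvalue μ := (Module.End.hasEigenvalue_iff_isRoot_charpoly A μ).mpr
    (Polynomial.isRoot_of_mem_roots hμ)
  obtain ⟨v, hv⟩ := h1.exists_hasEigenvector
  have h2 := hv.pow_apply N
  rw [hA, Module.End.one_apply] at h2
  have h3 : μ ^ N = 1 := by
    have : (μ ^ N - 1) • v = 0 := by rw [sub_smul, ← h2, one_smul, sub_self]
    exact sub_eq_zero.mp ((smul_eq_zero.mp this).resolve_right hv.2)
  exact IsIntegral.of_pow hN (by rw [h3]; exact isIntegral_one)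

lemma char_int {V : Type} [AddCommGroup V] [Module K V] [FiniteDimensional K V]
    (ρ : Representation K G V) (x : G) : IsIntegral ℤ (ρ.character x) :=
  trace_int (ρ x) (Fintype.card G) Fintype.card_pos (by rw [← map_pow, pow_card_eq_one, map_one])

lemma vc_int (f : G → K) (hf : f ∈ VC G) (x : G) : IsIntegral ℤ (f x) := by
  induction hf using AddSubgroup.closure_induction with
  | mem χ h =>
    obtain ⟨n, ρ, -, rfl⟩ := h
    exact char_int ρ x
  | zero => exact isIntegral_zero
  | add a b _ _ ha hb => exact ha.add hb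
  | neg a _ ha => exact ha.neg

lemma dvd (n : ℕ) (χ : G → K) (h : IsIrr n χ) : n ∣ Nat.card G := by
  have hpos := h.pos
  obtain ⟨ρ, hρ, rfl⟩ := h
  let A : (Fin n → K) →ₗ[K] (Fin n → K) := ∑ g, ρ.character g⁻¹ • ρ g
  have hA : ∀ y, A * ρ y = ρ y * A := by
    intro y
    simp only [A, Finset.sum_mul, Finset.mul_sum, smul_mul_assoc, mul_smul_comm, ← map_mul]
    refine Fintype.sum_equiv ((Equiv.mulLeft y⁻¹).trans (Equiv.mulRight y)) _ _ fun g => ?_
    have := char_conj ρ g⁻¹ y⁻¹
    simp only [inv_inv, mul_assoc] at this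
    simp [this, mul_assoc]
  obtain ⟨c, hc⟩ := schur ρ hρ A fun g v => congrArg (fun T => T v) (hA g)
  have hA1 : A = c • (1 : (Fin n → K) →ₗ[K] (Fin n → K)) := LinearMap.ext fun v => by simp [hc]
  have htr : c * n = Nat.card G := by
    have h1 : LinearMap.trace K _ A = ∑ g, ρ.character g * ρ.character g⁻¹ := by
      simp [A, Representation.character, mul_comm]
    have h2 := norm_of_irr ρ hρ
    rw [ip, ← h1, hA1, inv_mul_eq_one₀ card_ne_zero'] at h2
    simpa using h2.symm
  have := nontrivial_of_irr ρ hρ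
  obtain ⟨v, hv⟩ := exists_ne (0 : Fin n → K)
  let O := integralClosure ℤ K
  let N : Submodule O (Fin n → K) := Submodule.span O (Set.range fun g => ρ g v)
  have hc1 : IsIntegral O c := by
    refine isIntegral_of_smul_mem_submodule N ?_ (Submodule.fg_span (Set.finite_range _)) c ?_
    · intro h0
      have : ρ 1 v ∈ N := Submodule.subset_span ⟨1, rfl⟩
      rw [h0] at this
      exact hv (by simpa using this)
    · intro w hw
      induction hw using Submodule.span_induction with
      | mem w hw =>
        obtain ⟨y, rfl⟩ := hw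
        rw [← hc]
        simp only [A, LinearMap.sum_apply, LinearMap.smul_apply]
        refine sum_mem fun g _ => ?_
        have h1 : ρ g (ρ y v) ∈ N := Submodule.subset_span ⟨g * y, by simp⟩
        exact N.smul_mem (⟨_, char_int ρ g⁻¹⟩ : O) h1
      | zero => simp
      | add a b _ _ ha hb => rw [smul_add]; exact add_mem ha hb
      | smul t a _ ha => rw [smul_comm]; exact N.smul_mem t ha
  have hc2 : IsIntegral ℤ c := isIntegral_trans c hc1
  have hn : (n : K) ≠ 0 := Nat.cast_ne_zero.mpr hpos.ne'
  have hc3 : c = algebraMap ℚ K ((Nat.card G : ℚ) / n) := by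
    rw [map_div₀, map_natCast, map_natCast, eq_div_iff hn, htr]
  rw [hc3, isIntegral_algebraMap_iff (algebraMap ℚ K).injective,
    IsIntegrallyClosed.isIntegral_iff] at hc2
  obtain ⟨m, hm⟩ := hc2
  have hn' : (n : ℚ) ≠ 0 := Nat.cast_ne_zero.mpr hpos.ne'
  rw [eq_div_iff hn'] at hm
  have : (Nat.card G : ℤ) = n * m := by
    have : ((Nat.card G : ℤ) : ℚ) = ((n * m : ℤ) : ℚ) := by
      push_cast
      rw [← hm, mul_comm]
      simp
    exact_mod_cast this
  exact Int.natCast_dvd_natCast.mp ⟨m, this⟩

end Degx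

theorem deg (ha : ChASt) : DegSt := fun _ _ _ => ⟨Degx.vc_int, Degx.dvd⟩

end Pool.Agent.Lib.MP_1ae3da_al.GM
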