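import Pool.Agent.Lib.MP_1ae3da_al.GPrP

/-! Extraction of irreducible spin characters from lattice elements of norm one. -/

namespace Pool.Agent.Lib.MP_1ae3da_al.GM

namespace Ext

section inv
variable {G : Type} [Group G] [Fintype G]

lemma ip_sub_left (a b c : G → K) : ip (a - b) c = ip a c - ip b c := by
  simp [ip, sub_mul, Finset.sum_sub_distrib, mul_sub]

lemma ip_sub_right (a b c : G → K) : ip a (b - c) = ip a b - ip a c := by
  simp [ip, Finset.sum_sub_distrib, mul_sub]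

lemma ex_of_ip {a b : G → K} (h : ip a b ≠ 0) : ∃ x, a x ≠ 0 ∧ b x⁻¹ ≠ 0 := by
  obtain ⟨x, _, hx⟩ := Finset.exists_ne_zero_of_sum_ne_zero (right_ne_zero_of_mul h)
  exact ⟨x, left_ne_zero_of_mul hx, right_ne_zero_of_mul hx⟩

lemma two_mul_ne (m : ℤ) (u : ℤˣ) : (m : K) + m ≠ uK u := by
  intro h
  have h1 : m + m = (u : ℤ) := by
    have : ((m + m : ℤ) : K) = ((u : ℤ) : K) := by rw [Int.cast_add]; exact h
    exact Int.cast_injective this
  rcases Int.units_eq_one_or u with rfl | rfl <;> simp at h1 <;> omega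

/-- a symmetrised virtual character of norm two. -/
lemma invol (ha : ChA G) (T : (G → K) → G → K)
    (hadj : ∀ f g, Cl f → ip (T f) g = ip f (T g)) (hirr : ∀ a ∈ Irr G, T a ∈ Irr G)
    (hTT : ∀ f, Cl f → T (T f) = f) (χ : G → K) (hχ : χ ∈ VC G) (hT : T χ ∈ VC G)
    (h2 : ip (χ + T χ) (χ + T χ) = 2) :
    ∃ a ∈ Irr G, T a ≠ a ∧ (∃ u : ℤˣ, χ + T χ = uK u • (a + T a)) ∧
      ip (χ - T χ) (a - T a) ≠ 0 := by
  obtain ⟨a, hai, b, hbi, u, v, hab, hf⟩ := ha.norm_two _ ((VC G).add_mem hχ hT) h2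
  have hc := ha.cl χ hχ
  have hav : a ∈ VC G := ha.ch_vc a (ha.irr_ch a hai)
  have hTa := hirr a hai
  obtain ⟨m, hm⟩ := ha.ip_int χ hχ a hav
  obtain ⟨m', hm'⟩ := ha.ip_int χ hχ (T a) (ha.ch_vc _ (ha.irr_ch _ hTa))
  have e1 : ip (T χ) a = m' := by rw [hadj _ _ hc, hm']
  have e2 : ip (T χ) (T a) = m := by rw [hadj _ _ hc, hTT a (ha.cl a hav), hm]
  have e3 : (m : K) + m' = uK u := by
    have := congrArg (fun f => ip f a) hf
    simp only [ip_add_left, ip_smul_left, hm, e1, ha.orth1 a hai,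
      ha.orth0 b hbi a hai hab.symm] at this
    simpa using this
  have hne : T a ≠ a := by
    intro h
    rw [h, hm] at hm'
    rw [← hm'] at e3
    exact two_mul_ne m u e3
  have e4 : uK u = uK v * ip b (T a) := by
    have := congrArg (fun f => ip f (T a)) hf
    simp only [ip_add_left, ip_smul_left, hm', e2, ha.orth0 a hai _ hTa hne.symm] at this
    rw [← e3]
    linear_combination this
  have hb : b = T a := by
    by_contra h
    rw [ha.orth0 b hbi _ hTa h, mul_zero] at e4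
    exact uK_ne u e4
  subst hb
  rw [ha.orth1 _ hbi, mul_one] at e4
  refine ⟨a, hai, hne, ⟨u, by rw [hf, ← e4, smul_add]⟩, ?_⟩
  rw [ip_sub_left, ip_sub_right, ip_sub_right, hm, hm', e1, e2]
  intro h
  apply two_mul_ne m u
  have : (2 : K) * (m - m') = 0 := by linear_combination h
  have h3 : (m : K) - m' = 0 := by simpa using this
  linear_combination e3 + h3

end inv

lemma irr_one_ne {G : Type} [Group G] {a : G → K} (h : a ∈ Irr G) : a 1 ≠ 0 := by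
  obtain ⟨n, hn⟩ := h
  rw [hn.one]
  exact Nat.cast_ne_zero.mpr hn.pos.ne'

lemma rt2_ne : rt2 ≠ 0 := fun h => by
  have := rt2_mul
  rw [h] at this
  simp at this

/-- the sign character with values in `K`. -/
noncomputable def sgK {G : Type} [Group G] (Γ : Sg G) : G →* K where
  toFun x := uK (Γ.sg x)
  map_one' := by simp
  map_mul' x y := by rw [map_mul, uK_mul]

/-- the even part times the grading operator. -/
def ev {G G0 : Type} [Group G] [Group G0] (Γ : Gr G G0) :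
    (ℤˣ ⋊[(1 : G0 →* MulAut ℤˣ)] G0) →* Γ.TP where
  toFun c := ⟨Γ.ι c.right, c.left⟩
  map_one' := by ext <;> simp
  map_mul' c d := by ext <;> simp [Γ.sg_ι]

end Ext

open Ext

theorem ext1 (hch : ChSt) : Ext1St := by
  intro G _ _ Γ U S hL hU
  obtain ⟨χ, hχ, hs, hχU⟩ := hL
  have ha := hch.a G
  have hb := hch.b G
  have htw : ∀ f : G → K, Γ.tw f = ⇑(sgK Γ) * f := fun f => rfl
  have hT : Γ.tw χ ∈ VC G := by
    rw [htw]
    exact hb.mul _ (ha.ch_vc _ (ha.irr_ch _ ⟨1, isIrr_one _⟩)) _ hχ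
  have hf : χ + Γ.tw χ = rt2 • U := by
    funext x
    simp only [Pi.add_apply, Pi.smul_apply, smul_eq_mul, Sg.tw]
    rcases Int.units_eq_one_or (Γ.sg x) with hx | hx
    · rw [(hχU x).1 hx, hx, ← mul_assoc, rt2_mul, uK_one]
      ring
    · rw [((hχU x).2 hx).1, hx]
      simp
  obtain ⟨a, hai, hne, ⟨u, hu⟩, hip⟩ := invol ha Γ.tw
    (fun f g _ => by
      simp only [ip, Sg.tw, map_inv, Int.units_inv_eq_self]
      congr 1
      exact Finset.sum_congr rfl fun x _ => by ring)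
    (fun a ⟨n, hn⟩ => ⟨n, by rw [htw]; exact hb.lin _ n a hn⟩)
    (fun f _ => by
      funext x
      simp only [Sg.tw]
      rw [← mul_assoc, uK_sq, one_mul])
    χ hχ hT (by rw [hf, ip_smul_left, ip_smul_right, hU, mul_one, rt2_mul])
  have hev : ∀ x, Γ.sg x = 1 → χ x = uK u * a x := by
    intro x hx
    have := congrFun hu x
    simp only [Pi.add_apply, Pi.smul_apply, smul_eq_mul, Sg.tw, hx, uK_one, one_mul] at this
    linear_combination (2⁻¹ : K) * this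
  refine ⟨a, hai, ?_, hne, ⟨u, fun x hx => ?_⟩, ?_⟩
  · obtain ⟨ω, hω⟩ := hb.cen a hai Γ.z Γ.zc Γ.zz
    rcases Int.units_eq_one_or ω with rfl | rfl
    · exfalso
      have h1 := hs 1
      rw [hev _ (by simp [Γ.zs]), hev 1 (by simp), hω, uK_one, one_mul] at h1
      exact mul_ne_zero (uK_ne u) (irr_one_ne hai) (PrP.eq_zero_of_neg h1)
    · intro x
      rw [hω]
      simp
  · rw [(hχU x).1 hx, hev x hx]
    ring
  · obtain ⟨x, h1, h2⟩ := ex_of_ip hip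
    simp only [Pi.sub_apply, Sg.tw] at h1 h2
    rcases Int.units_eq_one_or (Γ.sg x) with hx | hx
    · rw [hx] at h1
      simp at h1
    · refine ⟨x, hx, ((hχU x).2 hx).2 fun h => h1 ?_, fun h => h2 ?_⟩
      · rw [h]
        simp
      · rw [h]
        simp

theorem ext0 (hch : ChSt) (hix : IxSt) : Ext0St := by
  intro G G0 _ _ _ Γ U S hL hU
  classical
  obtain ⟨Ψ, hΨ, hs, hΨU⟩ := hL
  have : Finite G0 := Finite.of_injective _ Γ.inj
  let _ := Fintype.ofFinite G0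
  let _ : Fintype (ℤˣ ⋊[(1 : G0 →* MulAut ℤˣ)] G0) :=
    Fintype.ofEquiv _ SemidirectProduct.equivProd.symm
  have hx := hix G G0 Γ
  have ha := hch.a G0
  have hb := hch.b G0
  have hc : Cl Ψ := (hch.a _).cl Ψ hΨ
  have ho := PrP.odd_zero Γ.toSg Ψ hc hs
  obtain ⟨t0, ht0⟩ := Γ.odd
  let χ : G0 → K := fun x => 2⁻¹ * (Ψ ⟨Γ.ι x, 1⟩ + Ψ ⟨Γ.ι x, -1⟩)
  have hχ : χ ∈ VC G0 := by
    have h1 := PrP.avg_vc (1 : G0 →* MulAut ℤˣ) hch _ ((hch.h _ _ (ev Γ)).comp Ψ hΨ)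
    convert h1 using 1
    funext x
    rw [Fintype.card_units_int, UnitsInt.univ, Finset.sum_pair (by decide)]
    rfl
  have hT : χ ∘ Γ.cj t0 ∈ VC G0 := (hch.h _ _ (Γ.cjA t0).toMonoidHom).comp χ hχ
  have c1 : ∀ m : G, Ψ ⟨t0 * m * t0⁻¹, 1⟩ = Ψ ⟨m, 1⟩ := by
    intro m
    rw [← hc ⟨m, 1⟩ ⟨t0, 1⟩]
    congr 1
    rw [eq_mul_inv_iff_mul_eq]
    ext <;> simp
  have c2 : ∀ m : G, Ψ ⟨t0 * m * t0⁻¹, -1⟩ = -Ψ ⟨m, -1⟩ := by
    intro m
    rw [← hc ⟨m, -1⟩ ⟨t0, 1⟩, ← neg_eq_iff_eq_neg, ← hs]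
    congr 1
    rw [eq_mul_inv_iff_mul_eq]
    ext
    · simp only [SemidirectProduct.mul_left, Sg.φ_apply, ht0, Sg.one_zp, Sg.zp_neg, one_mul]
      rw [Γ.zc (t0 * m * t0⁻¹), mul_assoc, ← mul_assoc Γ.z, Γ.zz, one_mul]
      simp
    · simp
  have hf : χ + χ ∘ Γ.cj t0 = U ∘ Γ.ι := by
    funext x
    simp only [Pi.add_apply, Function.comp_apply, χ, Γ.ι_cj, c1, c2, (hΨU _).1]
    ring
  have hd : ∀ x, (χ - χ ∘ Γ.cj t0) x = Ψ ⟨Γ.ι x, -1⟩ := by
    intro x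
    simp only [Pi.sub_apply, Function.comp_apply, χ, Γ.ι_cj, c1, c2]
    ring
  have hTT : ∀ f : G0 → K, Cl f → (f ∘ Γ.cj t0) ∘ Γ.cj t0 = f := fun f hf => by
    rw [hx.cj_mul, hx.cj_even f hf _ (by rw [map_mul, ht0]; simp)]
  obtain ⟨θ, hθ, hne, ⟨u, hu⟩, hip⟩ := invol ha (fun f => f ∘ Γ.cj t0)
    (fun f g hf => by
      simp only [ip]
      congr 1
      refine (Fintype.sum_equiv (Γ.cjA t0).toEquiv _ _ fun x => ?_).symm
      have h1 := congrFun (hTT f hf) x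
      have h2 : Γ.cj t0 x⁻¹ = (Γ.cj t0 x)⁻¹ := map_inv (Γ.cjA t0) x
      simp only [Function.comp_apply] at h1 ⊢
      rw [h2, ← h1]
      rfl)
    (fun a ⟨n, hn⟩ => ⟨n, hx.cj_irr n a t0 hn⟩) hTT χ hχ hT
    (by
      rw [hf, hx.ipι U U fun x h => by rw [(hΨU x).1, ho x h], hU, mul_one])
  have hθc : Cl θ := ha.cl θ (ha.ch_vc θ (ha.irr_ch θ hθ))
  have hUθ : ∀ x, U (Γ.ι x) = uK u * (θ x + θ (Γ.cj t0 x)) := fun x => by
    have := congrFun (hf.symm.trans hu) x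
    simpa using this
  refine ⟨θ, hθ, ?_, fun t ht => ?_⟩
  · obtain ⟨z0, hz0⟩ := (Γ.rng Γ.z).1 Γ.zs
    obtain ⟨ω, hω⟩ := hb.cen θ hθ z0 (fun g => Γ.inj (by rw [map_mul, map_mul, hz0, Γ.zc]))
      (Γ.inj (by rw [map_mul, hz0, Γ.zz, map_one]))
    rcases Int.units_eq_one_or ω with rfl | rfl
    · exfalso
      have h1 : U (Γ.ι z0) = -U (Γ.ι 1) := by
        rw [(hΨU _).1, (hΨU _).1, ← hs, hz0, map_one, mul_one]
      have h2 : Γ.cj t0 z0 = z0 := Γ.inj (by rw [Γ.ι_cj, hz0, ← Γ.zc]; simp)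
      have h3 : Γ.cj t0 1 = 1 := map_one (Γ.cjA t0)
      have h4 : θ z0 = θ 1 := by simpa using hω 1
      rw [hUθ, hUθ, h2, h3, h4] at h1
      have h5 := PrP.eq_zero_of_neg h1
      rw [← two_mul] at h5
      exact mul_ne_zero (uK_ne u) (mul_ne_zero two_ne_zero (irr_one_ne hθ)) h5
    · intro x y hy
      have : y = z0 * x := Γ.inj (by rw [hy, map_mul, hz0])
      rw [this, hω]
      simp
  · have e : θ ∘ Γ.cj t = θ ∘ Γ.cj t0 := hx.cj_odd θ hθc t t0 (ht.trans ht0.symm)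
    have e' : ∀ x, θ (Γ.cj t x) = θ (Γ.cj t0 x) := congrFun e
    refine ⟨by rw [e]; exact hne, ⟨u, fun x => by rw [e', hUθ]⟩, ?_⟩
    obtain ⟨x, h1, h2⟩ := ex_of_ip hip
    refine ⟨x, (hΨU _).2 (by rw [← hd]; exact h1), fun h => h2 ?_⟩
    rw [e'] at h
    simp [h]

end Pool.Agent.Lib.MP_1ae3da_al.GM
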