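import Pool.Agent.Lib.MP_1ae3da_al.GFa0

/-! The equivariant bijection for the graded groups. -/

namespace Pool.Agent.Lib.MP_1ae3da_al.GM

namespace Fa1

open Fa0

variable {G G0 : Type} [Group G] [Group G0] (Γ : Gr G G0) (p : ℕ) (S : Set Ga)

/-- self associate characters. -/
def IS (ω : ℤˣ) : Set (G → K) := {χ | χ ∈ Γ.IA p ω ∧ Γ.tw χ = χ}

/-- the labels. -/
def R (χ : IrrP G p) : ℤˣ × Option (Ga → ℤˣ) → Prop
  | (ω, none) => χ.1 ∈ IS Γ p ω ∧ True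
  | (ω, some ε) => χ.1 ∈ Γ.IQ p S ω ε ∧ Nm S ε

/-- the twist. -/
noncomputable def a (hx : IxG Γ) (χ : IrrP G p) : IrrP G p :=
  ⟨Γ.tw χ.1, by obtain ⟨n, h, hp⟩ := χ.2; exact ⟨n, hx.tw_irr n _ h, hp⟩⟩

variable {p S}

lemma R_ex (hch : ChSt) [Finite G] (hcov : ∀ ω, Γ.Cov p S ω) (χ : IrrP G p) :
    ∃! l, R Γ p S χ l := by
  letI := Fintype.ofFinite G
  refine existsUnique_of_exists_of_unique ?_ ?_
  · by_cases h : Γ.tw χ.1 = χ.1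
    · obtain ⟨ω, hω⟩ := (hch.b G).cen χ.1 ⟨_, χ.2.choose_spec.1⟩ Γ.z Γ.zc Γ.zz
      exact ⟨(ω, none), ⟨⟨χ.2, hω⟩, h⟩, trivial⟩
    · obtain ⟨ω, ε, h1⟩ := IQ_ex Γ hch hcov χ.2 h
      exact ⟨(ω, some ε), h1⟩
  · rintro ⟨ω, _ | ε⟩ ⟨ω', _ | ε'⟩ h h'
    · rw [cen_uniq Γ χ.2 h.1.1.2 h'.1.1.2]
    · exact absurd h.1.2 h'.1.2.2.1
    · exact absurd h'.1.2 h.1.2.2.1
    · obtain ⟨e1, e2⟩ := IQ_uniq Γ h.1 h'.1 h.2 h'.2
      rw [e1, e2]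

lemma R_a (hx : IxG Γ) (χ : IrrP G p) (l) (h : R Γ p S χ l) : R Γ p S (a Γ p hx χ) l := by
  rcases l with ⟨ω, _ | ε⟩
  · have : a Γ p hx χ = χ := Subtype.ext h.1.2
    rwa [this]
  · exact ⟨IQ_tw Γ hx h.1, h.2⟩

lemma R_fix (hx : IxG Γ) (χ : IrrP G p) (l) (h : R Γ p S χ l) :
    a Γ p hx χ = χ ↔ l.2 = none := by
  rcases l with ⟨ω, _ | ε⟩
  · exact ⟨fun _ => rfl, fun _ => Subtype.ext h.1.2⟩
  · exact ⟨fun e => absurd (congrArg Subtype.val e) h.1.2.2.1, fun e => by simp at e⟩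

lemma IS_card (hch : ChSt) [Finite G] (hx : IxG Γ) (hp : p.Prime) (hp2 : p ≠ 2) (ω : ℤˣ) :
    2 * (IS Γ p ω).ncard = (Γ.IM p ∅ ω 1).ncard := by
  have fA : (Γ.IA p ω).Finite := (irrP_fin hch G p).subset fun χ h => h.1
  have fS : (IS Γ p ω).Finite := fA.subset fun χ h => h.1
  have fQ : (Γ.IQ p ∅ ω 1).Finite := fA.subset fun χ h => ⟨h.1, h.2.1⟩
  have h1 : (Γ.IA p ω).ncard = (Γ.IQ p ∅ ω 1).ncard + (IS Γ p ω).ncard := by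
    rw [← Set.ncard_union_eq _ fQ fS]
    · congr 1
      ext χ
      constructor
      · intro h
        by_cases e : Γ.tw χ = χ
        · exact Or.inr ⟨h, e⟩
        · exact Or.inl ⟨h.1, h.2, e, fun σ hσ => absurd hσ (Set.notMem_empty σ)⟩
      · rintro (h | h)
        · exact ⟨h.1, h.2.1⟩
        · exact h.1
    · exact Set.disjoint_left.2 fun χ h h' => h.2.2.1 h'.2
  have := hx.rel p hp hp2 ω
  omega

lemma IM_lab {ω : ℤˣ} (hcov : Γ.Cov p S ω) (θ : Γ.IM p ∅ ω 1) :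
    ∃! ε, θ.1 ∈ Γ.IM p S ω ε ∧ Nm S ε := by
  refine existsUnique_of_exists_of_unique ?_ fun ε ε' h h' => (IM_uniq Γ h.1 h'.1 h.2 h'.2).2
  obtain ⟨ε, h⟩ := hcov.1 θ.1 θ.2
  exact IM_nm Γ h

lemma IM_sub (ω : ℤˣ) (ε : Ga → ℤˣ) : Γ.IM p S ω ε ⊆ Γ.IM p ∅ ω 1 :=
  fun _ h => ⟨h.1, h.2.1, h.2.2.1, fun σ hσ => absurd hσ (Set.notMem_empty σ)⟩

lemma fixed (hch : ChSt) [Finite G] (hx : IxG Γ) (hcov : ∀ ω, Γ.Cov p S ω) {χ : G → K}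
    (h : χ ∈ IrrP G p) (htw : Γ.tw χ = χ) {σ : Ga} (hσ : σ ∈ S) : σ ∘ χ = χ := by
  haveI : Finite G0 := Finite.of_injective Γ.ι Γ.inj
  have hcl := irrP_cl hch h
  obtain ⟨n, hn, hpn⟩ := h
  obtain ⟨m, θ, hm, rfl, key⟩ := hx.b1 n χ hn htw
  have hθ : θ ∈ IrrP G0 p := ⟨m, hm, fun h => hpn (h.mul_left 2)⟩
  obtain ⟨ω, ε, h1, -⟩ := IM_ex Γ hch hcov hθ fun t ht => (key t ht).1
  obtain ⟨t, ht⟩ := Γ.odd
  obtain ⟨s, hs⟩ : ∃ s, Γ.sg s = ε σ := by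
    rcases Int.units_eq_one_or (ε σ) with e | e
    · exact ⟨1, by rw [e, map_one]⟩
    · exact ⟨t, by rw [e, ht]⟩
  have h2 := h1.2.2.2 σ hσ s hs
  refine Ix.ext_even Γ (fun x hx => by simp [Ix.odd_of_tw Γ htw x hx]) (Ix.odd_of_tw Γ htw) ?_
  have h3 : (σ ∘ χ) ∘ Γ.ι = σ ∘ θ + (σ ∘ θ) ∘ Γ.cj t := by
    funext x
    have := congrFun (key t ht).2 x
    simp only [Function.comp_apply, Pi.add_apply] at this ⊢
    rw [this, map_add]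
  rw [h3, h2, ← hx.res_cj χ hcl s, (key t ht).2, Pi.add_comp, hx.cj_mul, hx.cj_mul,
    hx.cj_odd θ (irrP_cl hch hθ) (s * t) (t * s) (by rw [map_mul, map_mul, mul_comm])]

end Fa1

open Fa0 Fa1 in
theorem fa1 (hch : ChSt) (hix : IxSt) : Fa1St := by
  intro G G0 N N0 _ _ _ _ _ _ Γ Δ p S hp hp2 ⟨c1, c2, hM, hQ⟩
  haveI : Finite G0 := Finite.of_injective Γ.ι Γ.inj
  haveI : Finite N0 := Finite.of_injective Δ.ι Δ.inj
  have hx := hix G G0 Γ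
  have hy := hix N N0 Δ
  haveI : Finite (IrrP G p) := irrP_fin hch G p
  haveI : Finite (IrrP N p) := irrP_fin hch N p
  have hM0 : ∀ ω, (Γ.IM p ∅ ω 1).ncard = (Δ.IM p ∅ ω 1).ncard := by
    intro ω
    haveI : Finite (Γ.IM p ∅ ω 1) := (irrP_fin hch G0 p).subset fun _ h => h.1
    haveI : Finite (Δ.IM p ∅ ω 1) := (irrP_fin hch N0 p).subset fun _ h => h.1
    obtain ⟨f, -⟩ := glue (A := Γ.IM p ∅ ω 1) (B := Δ.IM p ∅ ω 1) id id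
      (fun θ ε => θ.1 ∈ Γ.IM p S ω ε ∧ Nm S ε) (fun θ ε => θ.1 ∈ Δ.IM p S ω ε ∧ Nm S ε)
      (IM_lab Γ (c1 ω)) (IM_lab Δ (c2 ω)) (fun _ => rfl) (fun _ => rfl) (fun _ _ h => h)
      (fun _ _ h => h) (fun _ => True) (fun _ _ _ => by simp) (fun _ _ _ => by simp)
      fun ε => card_sub_eq _ _ (IM_sub Γ ω ε) _ _ (IM_sub Δ ω ε) _ (hM ω ε)
    exact Nat.card_congr f
  obtain ⟨f, hf, hfa⟩ := glue (a Γ p hx) (a Δ p hy) (R Γ p S) (R Δ p S) (R_ex Γ hch c1)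
    (R_ex Δ hch c2) (fun χ => Subtype.ext (hx.tw_tw _)) (fun χ => Subtype.ext (hy.tw_tw _))
    (R_a Γ hx) (R_a Δ hy) (fun l => l.2 = none) (R_fix Γ hx) (R_fix Δ hy) (by
      rintro ⟨ω, _ | ε⟩
      · refine card_sub_eq _ (IS Γ p ω) (fun _ h => h.1.1) _ (IS Δ p ω) (fun _ h => h.1.1) True ?_
        have h1 := IS_card Γ hch hx hp hp2 ω
        have h2 := IS_card Δ hch hy hp hp2 ω
        have h3 := hM0 ω
        omega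
      · exact card_sub_eq _ _ (fun _ h => h.1) _ _ (fun _ h => h.1) _ (hQ ω ε))
  refine ⟨f, fun σ hσ χ χ' e => ?_⟩
  obtain ⟨⟨ω, _ | ε⟩, h, -⟩ := R_ex Γ hch c1 χ
  · have h' := hf _ _ h
    rw [fixed Γ hch hx c1 χ.2 h.1.2 hσ] at e
    rw [fixed Δ hch hy c2 (f χ).2 h'.1.2 hσ, Subtype.ext e]
  · have h' := hf _ _ h
    rw [h.1.2.2.2 σ hσ] at e
    rw [h'.1.2.2.2 σ hσ]
    split_ifs at e ⊢
    · rw [Subtype.ext e]
    · have : χ' = a Γ p hx χ := Subtype.ext e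
      rw [this, hfa]
      rfl

end Pool.Agent.Lib.MP_1ae3da_al.GM
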