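import Pool.Agent.Lib.MP_1ae3da_al.GFa0

/-! The bijection for the even parts. -/

namespace Pool.Agent.Lib.MP_1ae3da_al.GM

namespace Fa2

open Fa0

variable {G G0 : Type} [Group G] [Group G0] (Γ : Gr G G0) (p : ℕ) (S : Set Ga)

/-- the labels. -/
def R (θ : IrrP G0 p) : Bool × ℤˣ × (Ga → ℤˣ) → Prop
  | (true, ω, ε) => θ.1 ∈ Γ.IM p S ω ε ∧ Nm S ε
  | (false, ω, ε) => θ.1 ∈ (fun χ => χ ∘ Γ.ι) '' Γ.IQ p S ω ε ∧ Nm S ε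

/-- the conjugation. -/
noncomputable def a (hx : IxG Γ) (t : G) (θ : IrrP G0 p) : IrrP G0 p :=
  ⟨θ.1 ∘ Γ.cj t, by obtain ⟨n, h, hp⟩ := θ.2; exact ⟨n, hx.cj_irr n _ t h, hp⟩⟩

variable {p S}

lemma res_inv (hch : ChSt) [Finite G] (hx : IxG Γ) {θ : G0 → K} {ω : ℤˣ} {ε : Ga → ℤˣ}
    (h : θ ∈ (fun χ => χ ∘ Γ.ι) '' Γ.IQ p S ω ε) (t : G) : θ ∘ Γ.cj t = θ := by
  obtain ⟨χ, hχ, rfl⟩ := h
  exact hx.res_cj χ (irrP_cl hch hχ.1) t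

lemma R_ex (hch : ChSt) [Finite G] (hx : IxG Γ) (hcov : ∀ ω, Γ.Cov p S ω) (θ : IrrP G0 p) :
    ∃! l, R Γ p S θ l := by
  obtain ⟨t, ht⟩ := Γ.odd
  refine existsUnique_of_exists_of_unique ?_ ?_
  · by_cases h : ∀ t, Γ.sg t = -1 → θ.1 ∘ Γ.cj t ≠ θ.1
    · obtain ⟨ω, ε, h1⟩ := IM_ex Γ hch hcov θ.2 h
      exact ⟨(true, ω, ε), h1⟩
    · push Not at h
      obtain ⟨s, hs, e⟩ := h
      obtain ⟨n, hn, hp⟩ := θ.2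
      obtain ⟨χ, h1, h2, h3⟩ := hx.a1 n θ.1 hn s hs e
      obtain ⟨ω, ε, h4, h5⟩ := IQ_ex Γ hch hcov ⟨n, h1, hp⟩ h3
      exact ⟨(false, ω, ε), ⟨χ, h4, h2⟩, h5⟩
  · rintro ⟨_ | _, ω, ε⟩ ⟨_ | _, ω', ε'⟩ h h'
    · obtain ⟨⟨χ, h1, h2⟩, h3⟩ := h
      obtain ⟨⟨χ', h1', h2'⟩, h3'⟩ := h'
      have : χ' ∈ Γ.IQ p S ω ε := by
        rcases hx.c1 χ ⟨_, h1.1.choose_spec.1⟩ χ' ⟨_, h1'.1.choose_spec.1⟩ (h2'.trans h2.symm)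
          with e | e
        · rwa [e]
        · rw [e]; exact IQ_tw Γ hx h1
      obtain ⟨e1, e2⟩ := IQ_uniq Γ this h1' h3 h3'
      rw [e1, e2]
    · exact absurd (res_inv Γ hch hx h.1 t) (h'.1.2.2.1 t ht)
    · exact absurd (res_inv Γ hch hx h'.1 t) (h.1.2.2.1 t ht)
    · obtain ⟨e1, e2⟩ := IM_uniq Γ h.1 h'.1 h.2 h'.2
      rw [e1, e2]

lemma a_a (hch : ChSt) [Finite G] (hx : IxG Γ) (t : G) (θ : IrrP G0 p) :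
    a Γ p hx t (a Γ p hx t θ) = θ := by
  haveI : Finite G0 := Finite.of_injective Γ.ι Γ.inj
  apply Subtype.ext
  change (θ.1 ∘ Γ.cj t) ∘ Γ.cj t = θ.1
  rw [hx.cj_mul]
  exact hx.cj_even _ (irrP_cl hch θ.2) _ (by rw [map_mul, Int.units_mul_self])

lemma R_a (hch : ChSt) [Finite G] (hx : IxG Γ) (t : G) (ht : Γ.sg t = -1) (θ : IrrP G0 p) (l)
    (h : R Γ p S θ l) : R Γ p S (a Γ p hx t θ) l := by
  haveI : Finite G0 := Finite.of_injective Γ.ι Γ.inj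
  have hcl := irrP_cl hch θ.2
  rcases l with ⟨_ | _, ω, ε⟩
  · have : a Γ p hx t θ = θ := Subtype.ext (res_inv Γ hch hx h.1 t)
    rwa [this]
  · refine ⟨⟨(a Γ p hx t θ).2, Ix.cen_cj Γ h.1.2.1 t, fun s hs => ?_, fun σ hσ s hs => ?_⟩, h.2⟩
    · change (θ.1 ∘ Γ.cj t) ∘ Γ.cj s ≠ θ.1 ∘ Γ.cj t
      rw [hx.cj_mul, hx.cj_even _ hcl (t * s) (by simp [ht, hs])]
      exact (h.1.2.2.1 t ht).symm
    · change (σ ∘ θ.1) ∘ Γ.cj t = (θ.1 ∘ Γ.cj t) ∘ Γ.cj s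
      rw [h.1.2.2.2 σ hσ s hs, hx.cj_mul, hx.cj_mul]
      exact hx.cj_odd _ hcl _ _ (by rw [map_mul, map_mul, mul_comm])

lemma R_fix (hch : ChSt) [Finite G] (hx : IxG Γ) (t : G) (ht : Γ.sg t = -1) (θ : IrrP G0 p) (l)
    (h : R Γ p S θ l) : a Γ p hx t θ = θ ↔ l.1 = false := by
  rcases l with ⟨_ | _, ω, ε⟩
  · exact ⟨fun _ => rfl, fun _ => Subtype.ext (res_inv Γ hch hx h.1 t)⟩
  · exact ⟨fun e => absurd (congrArg Subtype.val e) (h.1.2.2.1 t ht), fun e => by simp at e⟩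

lemma im_sub (hx : IxG Γ) (ω : ℤˣ) (ε : Ga → ℤˣ) :
    (fun χ => χ ∘ Γ.ι) '' Γ.IQ p S ω ε ⊆ IrrP G0 p := by
  rintro _ ⟨χ, ⟨⟨n, hn, hp⟩, -, h, -⟩, rfl⟩
  exact ⟨n, hx.a2 n χ hn h, hp⟩

lemma im_card (hch : ChSt) [Finite G] (hx : IxG Γ) (ω : ℤˣ) (ε : Ga → ℤˣ) :
    (Γ.IQ p S ω ε).ncard = 2 * ((fun χ => χ ∘ Γ.ι) '' Γ.IQ p S ω ε).ncard := by
  refine two_to_one _ ((irrP_fin hch G p).subset fun _ h => h.1) _ Γ.tw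
    (fun _ h => IQ_tw Γ hx h) (fun _ h => h.2.2.1) fun χ h χ' h' => ⟨fun e => ?_, ?_⟩
  · exact hx.c1 χ ⟨_, h.1.choose_spec.1⟩ χ' ⟨_, h'.1.choose_spec.1⟩ e
  · rintro (rfl | rfl)
    · rfl
    · exact Ix.tw_ι Γ χ

end Fa2

open Fa0 Fa2 in
theorem fa2 (hch : ChSt) (hix : IxSt) : Fa2St := by
  intro G G0 N N0 _ _ _ _ _ _ Γ Δ p S _ _ ⟨c1, c2, hM, hQ⟩
  haveI : Finite G0 := Finite.of_injective Γ.ι Γ.inj
  haveI : Finite N0 := Finite.of_injective Δ.ι Δ.inj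
  have hx := hix G G0 Γ
  have hy := hix N N0 Δ
  haveI : Finite (IrrP G0 p) := irrP_fin hch G0 p
  haveI : Finite (IrrP N0 p) := irrP_fin hch N0 p
  obtain ⟨t0, ht0⟩ := Γ.odd
  obtain ⟨s0, hs0⟩ := Δ.odd
  obtain ⟨f, hf, hfa⟩ := glue (a Γ p hx t0) (a Δ p hy s0) (R Γ p S) (R Δ p S) (R_ex Γ hch hx c1)
    (R_ex Δ hch hy c2) (a_a Γ hch hx t0) (a_a Δ hch hy s0) (R_a Γ hch hx t0 ht0)
    (R_a Δ hch hy s0 hs0) (fun l => l.1 = false) (R_fix Γ hch hx t0 ht0) (R_fix Δ hch hy s0 hs0)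
    (by
      rintro ⟨_ | _, ω, ε⟩
      · refine card_sub_eq _ _ (im_sub Γ hx ω ε) _ _ (im_sub Δ hy ω ε) _ ?_
        have h1 := im_card Γ (p := p) (S := S) hch hx ω ε
        have h2 := im_card Δ (p := p) (S := S) hch hy ω ε
        have h3 := hQ ω ε
        omega
      · exact card_sub_eq _ _ (fun _ h => h.1) _ _ (fun _ h => h.1) _ (hM ω ε))
  refine ⟨f, fun θ => ?_⟩
  obtain ⟨⟨_ | _, ω, ε⟩, h, -⟩ := R_ex Γ hch hx c1 θ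
  · obtain ⟨⟨ψ, h3, h4⟩, -⟩ := hf _ _ h
    obtain ⟨⟨χ, h1, h2⟩, -⟩ := h
    exact Or.inr ⟨ω, ε, χ, ψ, h1, h3, h2.symm, h4.symm⟩
  · refine Or.inl ⟨ω, ε, h.1, (hf _ _ h).1, fun t t' ht ht' θ' e => ?_⟩
    have : θ' = a Γ p hx t0 θ :=
      Subtype.ext (e.trans (hx.cj_odd _ (irrP_cl hch θ.2) _ _ (ht.trans ht0.symm)))
    rw [this, hfa]
    exact hy.cj_odd _ (irrP_cl hch (f θ).2) _ _ (hs0.trans ht'.symm)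

end Pool.Agent.Lib.MP_1ae3da_al.GM
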