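import Pool.Agent.Lib.MP_1ae3da_al.GFb2

/-! From the sign respecting bijection to the inductive Galois-McKay condition. -/

namespace Pool.Agent.Lib.MP_1ae3da_al.GM

namespace Fb

open Classical

lemma irrP_iff (p : ℕ) (X : Type) [Group X] (χ : X → K) : χ ∈ NSV.IrrP p X ↔ χ ∈ IrrP X p := by
  constructor
  · rintro ⟨n, ρ, h1, h2, h3⟩
    exact ⟨n, ⟨ρ, h1, h2⟩, h3⟩
  · rintro ⟨n, ⟨ρ, h1, h2⟩, h3⟩
    exact ⟨n, ρ, h1, h2, h3⟩

lemma norm_stab {X : Type} [Group X] (R : Subgroup X) (γ : MulAut X) (hγ : ∀ x, γ x ∈ R ↔ x ∈ R)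
    {x : X} (hx : x ∈ Subgroup.normalizer (R : Set X)) :
    γ x ∈ Subgroup.normalizer (R : Set X) := by
  rw [Subgroup.mem_normalizer_iff] at hx ⊢
  intro h
  obtain ⟨h, rfl⟩ := γ.surjective h
  rw [← map_inv, ← map_mul, ← map_mul, hγ, hγ]
  exact hx h

/-- the pairs whose first component normalises `R`. -/
def TT {X : Type} [Group X] (R : Subgroup X) (Λ : Subgroup (MulAut X))
    (hΛ : ∀ γ ∈ Λ, ∀ x, γ x ∈ R ↔ x ∈ R) : Subgroup (X ⋊[Λ.subtype] Λ) where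
  carrier := {g | g.left ∈ Subgroup.normalizer (R : Set X)}
  one_mem' := (Subgroup.normalizer (R : Set X)).one_mem
  mul_mem' := by
    intro a b ha hb
    exact Subgroup.mul_mem _ ha (norm_stab R _ (hΛ _ a.right.2) hb)
  inv_mem' := by
    intro a ha
    exact norm_stab R _ (hΛ _ (a.right⁻¹).2) (Subgroup.inv_mem _ ha)

lemma mem_inl {X : Type} [Group X] {Λ : Subgroup (MulAut X)} (g : X ⋊[Λ.subtype] Λ) :
    g ∈ (SemidirectProduct.inl : X →* X ⋊[Λ.subtype] Λ).range ↔ g.right = 1 := by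
  rw [SemidirectProduct.range_inl_eq_ker_rightHom]; rfl

variable {G G0 N : Type} [Group G] [Group G0] [Group N]

lemma gec (Γ : Gr G G0) (p : ℕ) (R : Subgroup G0) (Δ : Gr N (Subgroup.normalizer (R : Set G0)))
    (j : N →* G) (hsq : SqSt) (hp : p.Prime) (hj : Function.Injective j)
    (hr : ∀ g, (∀ x, Γ.cj g x ∈ R ↔ x ∈ R) ↔ ∃ y, j y = g)
    (hs : ∀ y, Γ.sg (j y) = Δ.sg y) (hz : j Δ.z = Γ.z) (hι : ∀ x, j (Δ.ι x) = Γ.ι x)
    (hc : ∀ g, (∀ x, g * Γ.ι x = Γ.ι x * g) → g = 1 ∨ g = Γ.z)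
    (ha : ∀ γ : MulAut G0, ∃ g, Γ.cjA g = γ) (θ : G0 → K)
    (φ : Subgroup.normalizer (R : Set G0) → K) (m : Prop) (ω : ℤˣ) (ε : Ga → ℤˣ) {d d' : ℕ}
    (ρ : G → Matrix (Fin d) (Fin d) K) (ρ' : N → Matrix (Fin d') (Fin d') K)
    (D : RepD Γ (Hl p) θ m ω ε ρ) (D' : RepD Δ (Hl p) φ m ω ε ρ') :
    NSV.GeC (G := G0 ⋊[(NSV.Gam p R θ).subtype] NSV.Gam p R θ) p
      SemidirectProduct.inl.range
      (Subgroup.closure {g | g.left ∈ Subgroup.normalizer (R : Set G0)})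
      (fun g => θ g.left) (fun g => Function.extend Subtype.val φ 0 g.left) := by
  have hΛ : ∀ γ ∈ NSV.Gam p R θ, ∀ x, γ x ∈ R ↔ x ∈ R := fun γ h => h.1
  have hT : Subgroup.closure {g : G0 ⋊[(NSV.Gam p R θ).subtype] NSV.Gam p R θ |
      g.left ∈ Subgroup.normalizer (R : Set G0)} = TT R _ hΛ := (TT R _ hΛ).closure_eq
  rw [hT]
  set T := TT R _ hΛ with hTd
  have hmT : ∀ g, g ∈ T ↔ g.left ∈ Subgroup.normalizer (R : Set G0) := fun g => Iff.rfl
  obtain ⟨s, hs1, hs2⟩ : ∃ s : MulAut G0 → G, s 1 = 1 ∧ ∀ γ, Γ.cjA (s γ) = γ := by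
    refine ⟨fun γ => if γ = 1 then 1 else (ha γ).choose, by simp, fun γ => ?_⟩
    dsimp only
    split_ifs with h
    · rw [h, map_one]
    · exact (ha γ).choose_spec
  have hs3 : ∀ γ x, Γ.ι (γ x) = s γ * Γ.ι x * (s γ)⁻¹ := fun γ x => by
    rw [← Γ.ι_cj, ← Γ.cjA_apply, hs2]
  have hs4 : ∀ γ δ, s γ * s δ = (if s γ * s δ ≠ s (γ * δ) then Γ.z else 1) * s (γ * δ) := by
    intro γ δ
    split_ifs with h
    · have h1 : Γ.cjA (s γ * s δ * (s (γ * δ))⁻¹) = 1 := by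
        rw [map_mul, map_mul, map_inv, hs2, hs2, hs2, mul_inv_cancel]
      rcases hc (s γ * s δ * (s (γ * δ))⁻¹) (fun x => by
        have h2 := Γ.ι_cj (s γ * s δ * (s (γ * δ))⁻¹) x
        rw [← Γ.cjA_apply, h1, MulAut.one_apply] at h2
        rw [eq_mul_inv_iff_mul_eq] at h2
        exact h2.symm) with h2 | h2
      · exact absurd (mul_inv_eq_one.1 h2) h
      · rw [← h2, inv_mul_cancel_right]
    · rw [one_mul]; exact not_not.1 h
  let L : G0 ⋊[(NSV.Gam p R θ).subtype] NSV.Gam p R θ → G := fun a => Γ.ι a.left * s a.right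
  let cc : G0 ⋊[(NSV.Gam p R θ).subtype] NSV.Gam p R θ →
      G0 ⋊[(NSV.Gam p R θ).subtype] NSV.Gam p R θ → Prop :=
    fun a b => s a.right * s b.right ≠ s (a.right * b.right)
  have hLA : ∀ n : G0 ⋊[(NSV.Gam p R θ).subtype] NSV.Gam p R θ, n.right = 1 →
      L n = Γ.ι n.left := fun n hn => by
    change Γ.ι n.left * s n.right = _
    rw [hn, Subgroup.coe_one, hs1, mul_one]
  have hLm : ∀ a b, L a * L b = (if cc a b then Γ.z else 1) * L (a * b) := by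
    intro a b
    have zc : ∀ g, (if cc a b then Γ.z else 1) * g = g * (if cc a b then Γ.z else 1) := fun g => by
      split_ifs
      · exact Γ.zc g
      · rw [one_mul, mul_one]
    have h1 : s a.right * s b.right = (if cc a b then Γ.z else 1) * s (a.right * b.right) := by
      convert hs4 a.right b.right
    change Γ.ι a.left * s a.right * (Γ.ι b.left * s b.right) =
      _ * (Γ.ι (a.left * (a.right : MulAut G0) b.left) * s (a.right * b.right))
    rw [zc, mul_assoc (Γ.ι _) (s (_ * _)), ← zc, ← h1, map_mul, hs3]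
    group
  have hcl : ∀ n : G0 ⋊[(NSV.Gam p R θ).subtype] NSV.Gam p R θ, n.right = 1 → ∀ a b,
      (cc (n * a) b ↔ cc a b) ∧ (cc a (n * b) ↔ cc a b) := fun n hn a b => by
    simp only [cc, SemidirectProduct.mul_right, hn, one_mul, and_self]
  have hc1 : ∀ n : G0 ⋊[(NSV.Gam p R θ).subtype] NSV.Gam p R θ, n.right = 1 → ∀ a,
      ¬ cc n a ∧ ¬ cc a n := fun n hn a => by
    simp [cc, hn, hs1]
  have hnr : ∀ n h : G0 ⋊[(NSV.Gam p R θ).subtype] NSV.Gam p R θ, n.right = 1 →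
      (h * n * h⁻¹).right = 1 := fun n h hn => by simp [hn]
  have H : Lift SemidirectProduct.inl.range ⊤ (fun g => θ g.left) Γ θ L cc fun a => Γ.sg (L a) :=
    { le := le_top
      nrm := fun n hn h _ => (mem_inl _).2 (hnr n h ((mem_inl _).1 hn))
      ev := fun n hn => ⟨n.left, hLA n ((mem_inl _).1 hn), rfl⟩
      surj := fun x => ⟨SemidirectProduct.inl x, ⟨x, rfl⟩, hLA _ rfl⟩
      mul := fun a _ b _ => by convert hLm a b
      cl := fun n hn a b => (hcl n ((mem_inl _).1 hn) a b).1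
      cr := fun n hn a b => (hcl n ((mem_inl _).1 hn) a b).2
      c1 := fun n hn a => hc1 n ((mem_inl _).1 hn) a
      sg := fun _ _ => rfl }
  have hcjL : ∀ a x, Γ.cj (L a) x = a.left * (a.right : MulAut G0) x * a.left⁻¹ := fun a x =>
    Γ.inj (by
      rw [Γ.ι_cj, map_mul, map_mul, map_inv, hs3]
      change Γ.ι a.left * s a.right * _ * (Γ.ι a.left * s a.right)⁻¹ = _
      group)
  have hLj : ∀ a ∈ T, ∃ y, j y = L a := fun a ha => (hr _).1 fun x => by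
    rw [hcjL, ← (Subgroup.mem_normalizer_iff.1 ((hmT a).1 ha)), hΛ _ a.right.2]
  let L' : G0 ⋊[(NSV.Gam p R θ).subtype] NSV.Gam p R θ → N := fun a => Function.invFun j (L a)
  have hL' : ∀ a ∈ T, j (L' a) = L a := fun a ha => Function.invFun_eq (hLj a ha)
  have H' : Lift (SemidirectProduct.inl.range ⊓ T) T
      (fun g => Function.extend Subtype.val φ 0 g.left) Δ φ L' cc fun a => Γ.sg (L a) :=
    { le := inf_le_right
      nrm := fun n hn h hh => ⟨(mem_inl _).2 (hnr n h ((mem_inl _).1 hn.1)),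
        T.mul_mem (T.mul_mem hh hn.2) (T.inv_mem hh)⟩
      ev := fun n hn => ⟨⟨n.left, hn.2⟩,
        hj (by rw [hL' n hn.2, hι, hLA n ((mem_inl _).1 hn.1)]),
        Subtype.val_injective.extend_apply φ 0 ⟨n.left, hn.2⟩⟩
      surj := fun x => ⟨SemidirectProduct.inl x.1, ⟨⟨x.1, rfl⟩, x.2⟩,
        hj (by rw [hL' _ x.2, hι, hLA _ rfl]; rfl)⟩
      mul := fun a ha b hb => hj (by
        rw [map_mul, map_mul, hL' a ha, hL' b hb, hL' _ (T.mul_mem ha hb), hLm]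
        split_ifs
        · rw [hz]
        · rw [map_one])
      cl := fun n hn a b => (hcl n ((mem_inl _).1 hn.1) a b).1
      cr := fun n hn a b => (hcl n ((mem_inl _).1 hn.1) a b).2
      c1 := fun n hn a => hc1 n ((mem_inl _).1 hn.1) a
      sg := fun a ha => by rw [← hs, hL' a ha] }
  have hcT : Subgroup.centralizer ((SemidirectProduct.inl.range :
      Subgroup (G0 ⋊[(NSV.Gam p R θ).subtype] NSV.Gam p R θ)) : Set _) ≤ T := by
    intro c hc
    rw [hmT, Subgroup.mem_normalizer_iff]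
    intro x
    have h1 := congrArg SemidirectProduct.left
      (Subgroup.mem_centralizer_iff.1 hc (SemidirectProduct.inl (c.left * x * c.left⁻¹)) ⟨_, rfl⟩)
    simp only [SemidirectProduct.mul_left, SemidirectProduct.left_inl,
      SemidirectProduct.right_inl, map_one, MulAut.one_apply, inv_mul_cancel_right,
      mul_right_inj] at h1
    rw [← hΛ _ c.right.2 (c.left * x * c.left⁻¹)]
    exact iff_of_eq (congrArg (· ∈ R) h1)
  have hff : ∀ h ∈ T, ∀ σ ∈ NSV.H p,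
      NSV.Fix SemidirectProduct.inl.range (fun g => θ g.left) h σ ↔
      NSV.Fix (SemidirectProduct.inl.range ⊓ T)
        (fun g => Function.extend Subtype.val φ 0 g.left) h σ := by
    intro h hh σ hσ
    rw [H.fix (Subgroup.mem_top h), H'.fix hh]
    refine (D.fx _ (hsq.hl p σ hp hσ) _).trans (Iff.trans ?_ (D'.fx _ (hsq.hl p σ hp hσ) _).symm)
    rw [H'.sg h hh]
  have hf1 : ∀ g, ∃ σ ∈ NSV.H p,
      NSV.Fix SemidirectProduct.inl.range (fun g => θ g.left)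
        (g : G0 ⋊[(NSV.Gam p R θ).subtype] NSV.Gam p R θ) σ := by
    intro g
    obtain ⟨-, σ, hσ, h1⟩ := g.right.2
    refine ⟨σ⁻¹, Subgroup.inv_mem _ hσ, (H.fix (Subgroup.mem_top g) _).2 fun x => ?_⟩
    have h2 : Γ.cj (L g) x = Γ.cj (Γ.ι g.left) ((g.right : MulAut G0) x) := by
      rw [hcjL]
      exact Γ.inj (by rw [Γ.ι_cj, map_mul, map_mul, map_inv])
    rw [h2, (D.st _).2 fun _ => Γ.sg_ι _, h1]
    exact σ.symm_apply_apply _
  refine ⟨hf1, fun h hh => ?_, ?_, hcT, hff, d, d', _, _, _, _, assoc H D, assoc H' D',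
    fun _ _ _ _ _ _ => rfl, fun c hc' => ?_, fun h hh σ hσ hF => ?_⟩
  · obtain ⟨σ, hσ, h1⟩ := hf1 h
    exact ⟨σ, hσ, (hff h hh σ hσ).1 h1⟩
  · rw [eq_top_iff]
    intro g _
    rw [← SemidirectProduct.inl_left_mul_inr_right g]
    exact Subgroup.mul_mem_sup ⟨_, rfl⟩ ((hmT _).2 (Subgroup.one_mem _))
  · have h1 : ∀ x, L c * Γ.ι x = Γ.ι x * L c := fun x => by
      obtain ⟨n, hn, h2⟩ := H.surj x
      rw [← h2, ← H.mr hn (Subgroup.mem_top c), ← H.ml hn (Subgroup.mem_top c),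
        Subgroup.mem_centralizer_iff.1 hc' n hn]
    rcases hc _ h1 with h2 | h2
    · have h3 : L' c = 1 := hj (by rw [hL' c (hcT hc'), h2, map_one])
      refine ⟨1, ?_, ?_⟩
      · change ρ (L c) = _
        rw [h2, D.one, one_smul]
      · change ρ' (L' c) = _
        rw [h3, D'.one, one_smul]
    · have h3 : L' c = Δ.z := hj (by rw [hL' c (hcT hc'), h2, hz])
      refine ⟨uK ω, ?_, ?_⟩
      · change ρ (L c) = _
        rw [h2, D.z]
      · change ρ' (L' c) = _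
        rw [h3, D'.z]
  · exact ⟨_, _, isMu H D (Subgroup.mem_top h) σ (hsq.hl p σ hp hσ) hF,
      isMu H' D' hh σ (hsq.hl p σ hp hσ) ((hff h hh σ hσ).1 hF), fun _ _ _ => rfl⟩

end Fb

open Fb in
theorem fb (hch : ChSt) (hix : IxSt) (hbr : BrSt) (hsq : SqSt) : FbSt := by
  intro G G0 N _ _ _ _ Γ p R Δ j hp hj hr hs hz hι hc ha hne ⟨f, hf⟩
  haveI : Finite N := Finite.of_injective _ hj
  refine ⟨hne, ((Equiv.subtypeEquivRight (irrP_iff p G0)).trans f).trans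
    (Equiv.subtypeEquivRight (irrP_iff p _)).symm, ?_, fun θ => ?_⟩
  · intro γ hγ σ hσ θ θ' hθ m m' hm
    obtain ⟨g, rfl⟩ := ha γ
    obtain ⟨y, rfl⟩ := (hr g).1 hγ
    have hm' : m' = Δ.cj y m := Δ.inj (hj (by
      rw [Δ.ι_cj, map_mul, map_mul, map_inv, hι, hι, hm, Γ.cjA_apply, Γ.ι_cj]))
    have hσ' := hsq.hl p σ hp hσ
    set θ0 : IrrP G0 p := ⟨θ.1, (irrP_iff p G0 _).1 θ.2⟩ with hθ0
    set θ1 : IrrP G0 p := ⟨θ'.1, (irrP_iff p G0 _).1 θ'.2⟩ with hθ1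
    change (f θ1).1 m = σ ((f θ0).1 m')
    have hθ' : ∀ x, θ1.1 x = σ.toRingEquiv (θ0.1 (Γ.cj (j y) x)) := hθ
    change _ = σ.toRingEquiv _
    rw [hm']
    rcases hf θ0 with ⟨ω, ε, h1, h2, h3⟩ | ⟨ω, ε, χ, ψ, h1, h2, h3, h4⟩
    · obtain ⟨d, ρ, D⟩ := repM hch hix hbr Γ p _ ω ε _ h1
      obtain ⟨d', ρ', D'⟩ := repM hch hix hbr Δ p _ ω ε _ h2
      by_cases h : Δ.sg y = ε σ.toRingEquiv
      · have e : θ1 = θ0 := Subtype.ext (funext fun x => by
          rw [hθ', (D.fx _ hσ' _).2 fun _ => by rw [hs, h]])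
        rw [e, (D'.fx _ hσ' _).2 fun _ => h]
      · obtain ⟨t, ht⟩ := ex_sg Δ (ε σ.toRingEquiv)
        have h5 : Δ.sg (t * y) = -1 := by
          rw [map_mul, ht]
          rcases Int.units_eq_one_or (Δ.sg y) with h6 | h6 <;>
            rcases Int.units_eq_one_or (ε σ.toRingEquiv) with h7 | h7 <;> simp_all
        have h6 := h3 (j (t * y)) (t * y) (by rw [hs, h5]) h5 θ1 (funext fun x => by
          rw [hθ', Function.comp_apply, map_mul, ← cj_cj]
          exact congrFun (h1.2.2.2 _ hσ' (j t) (by rw [hs, ht])) _)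
        rw [h6, Function.comp_apply, ← cj_cj]
        exact (congrFun (h2.2.2.2 _ hσ' t ht) _).symm
    · obtain ⟨d, ρ, D⟩ := repQ hch hbr Γ p _ ω ε _ h1
      obtain ⟨d', ρ', D'⟩ := repQ hch hbr Δ p _ ω ε _ h2
      rw [← h3] at D
      rw [← h4] at D'
      have e : θ1 = θ0 := Subtype.ext (funext fun x => by
        rw [hθ', (D.fx _ hσ' _).2 False.elim])
      rw [e, (D'.fx _ hσ' _).2 False.elim]
  · set θ0 : IrrP G0 p := ⟨θ.1, (irrP_iff p G0 _).1 θ.2⟩ with hθ0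
    rcases hf θ0 with ⟨ω, ε, h1, h2, -⟩ | ⟨ω, ε, χ, ψ, h1, h2, h3, h4⟩
    · obtain ⟨d, ρ, D⟩ := repM hch hix hbr Γ p _ ω ε _ h1
      obtain ⟨d', ρ', D'⟩ := repM hch hix hbr Δ p _ ω ε _ h2
      exact gec Γ p R Δ j hsq hp hj hr hs hz hι hc ha θ0.1 (f θ0).1 True ω ε ρ ρ' D D'
    · obtain ⟨d, ρ, D⟩ := repQ hch hbr Γ p _ ω ε _ h1
      obtain ⟨d', ρ', D'⟩ := repQ hch hbr Δ p _ ω ε _ h2
      rw [← h3] at D
      rw [← h4] at D'
      exact gec Γ p R Δ j hsq hp hj hr hs hz hι hc ha θ0.1 (f θ0).1 False ω ε ρ ρ' D D'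

end Pool.Agent.Lib.MP_1ae3da_al.GM
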