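import Pool.Agent.Lib.MP_1ae3da_al.GT

/-! Orthonormality of the normalised `Q`-functions through the anticommutation relations of
the neutral fermion operators. -/

namespace Pool.Agent.Lib.MP_1ae3da_al.GM

namespace FkB

open Finset

/-- the sign of an integer parity. -/
noncomputable def sg (k : ℤ) : K := (-1 : K) ^ k

lemma sg_add (a b : ℤ) : sg (a + b) = sg a * sg b := zpow_add₀ (by norm_num) a b
lemma sg_zero : sg 0 = 1 := zpow_zero _
lemma sg_nat (n : ℕ) : sg n = (-1) ^ n := zpow_natCast _ _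
lemma sg_sq (a : ℤ) : sg a * sg a = 1 := by
  rw [sg, ← mul_zpow]; simp
lemma sg_neg (a : ℤ) : sg (-a) = sg a := by
  have h := sg_add (-a) a
  rw [neg_add_cancel, sg_zero] at h
  calc sg (-a) = sg (-a) * (sg a * sg a) := by rw [sg_sq, mul_one]
    _ = sg a := by rw [← mul_assoc, ← h, one_mul]
lemma sg_sub (a b : ℤ) : sg (a - b) = sg a * sg b := by rw [sub_eq_add_neg, sg_add, sg_neg]
lemma sg_odd {r : ℕ} (h : Odd r) : sg r = -1 := by rw [sg_nat, h.neg_one_pow]

lemma rt2_ne : rt2 ≠ 0 := fun h => by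
  have := rt2_mul
  rw [h, zero_mul] at this
  exact two_ne_zero this.symm

lemma rt2_inv_mul : rt2⁻¹ * rt2⁻¹ * 2 = 1 := by
  rw [← rt2_mul]
  have := rt2_ne
  field_simp

/-- the weight of a part. -/
noncomputable def cc (r : ℕ) : K := if Odd r then rt2 else 0
/-- the weight of a multiset. -/
noncomputable def wt (ρ : Multiset ℕ) : K := (ρ.map cc).prod

lemma wt_zero : wt 0 = 1 := by simp [wt]
lemma wt_cons (r : ℕ) (ρ : Multiset ℕ) : wt (r ::ₘ ρ) = cc r * wt ρ := by simp [wt]
lemma wt_add (ρ ρ' : Multiset ℕ) : wt (ρ + ρ') = wt ρ * wt ρ' := by simp [wt]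
lemma qf_eq (k : ℕ) (ρ : Multiset ℕ) : qf k ρ = if ρ.sum = k then wt ρ else 0 := rfl

lemma qf_sup (k : ℕ) (ρ : Multiset ℕ) (h : qf k ρ ≠ 0) : ρ.sum = k := by
  by_contra h'
  exact h (by rw [qf_eq, if_neg h'])

lemma cc_sg (r : ℕ) : cc r * (1 + sg r) = 0 := by
  unfold cc
  split_ifs with h
  · rw [sg_odd h]; ring
  · ring

/-! ### averages -/

lemma Av_zero (F : Multiset ℕ → K) : Av 0 F = F 0 := by
  rw [Av]; rfl

lemma Av_succ (n : ℕ) (F : Multiset ℕ → K) :
    Av (n + 1) F = ((n + 1 : ℕ) : K)⁻¹ *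
      ∑ r ∈ range (n + 1), Av (n - r) fun ρ => F ((r + 1) ::ₘ ρ) := by
  rw [Av, LinearMap.smul_apply, LinearMap.sum_apply, smul_eq_mul,
    ← Fin.sum_univ_eq_sum_range (fun r => Av (n - r) fun ρ => F ((r + 1) ::ₘ ρ))]
  rfl

lemma lin_mul (L : (Multiset ℕ → K) →ₗ[K] K) (c : K) (F : Multiset ℕ → K) :
    L (fun ρ => c * F ρ) = c * L F := L.map_smul c F

lemma lin_sum (L : (Multiset ℕ → K) →ₗ[K] K) (s : Finset ℕ) (F : ℕ → Multiset ℕ → K) :
    L (fun ρ => ∑ k ∈ s, F k ρ) = ∑ k ∈ s, L (F k) := by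
  rw [← map_sum]
  congr 1
  funext ρ
  rw [Finset.sum_apply]

lemma lin_add (L : (Multiset ℕ → K) →ₗ[K] K) (F G : Multiset ℕ → K) :
    L (fun ρ => F ρ + G ρ) = L F + L G := L.map_add F G

lemma lin_zero (L : (Multiset ℕ → K) →ₗ[K] K) : L (fun _ => 0) = 0 := L.map_zero

lemma Av_swap (L : (Multiset ℕ → K) →ₗ[K] K) (a : ℕ) :
    ∀ H : Multiset ℕ → Multiset ℕ → K,
      (Av a fun ρ1 => L fun ρ2 => H ρ1 ρ2) = L fun ρ2 => Av a fun ρ1 => H ρ1 ρ2 := by
  induction a using Nat.strong_induction_on with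
  | _ a ih =>
    intro H
    rcases a with _ | n
    · simp only [Av_zero]
    · simp only [Av_succ]
      rw [lin_mul, lin_sum]
      congr 1
      refine sum_congr rfl fun r _ => ?_
      exact ih (n - r) (by omega) fun ρ1 ρ2 => H ((r + 1) ::ₘ ρ1) ρ2

/-- the norms of the `q_m`. -/
noncomputable def cz (m : ℤ) : K := if m < 0 then 0 else if m = 0 then 1 else 2

lemma cz_add (m : ℤ) : cz m + cz (-m) = 2 := by
  unfold cz
  rcases lt_trichotomy m 0 with h | h | h
  · rw [if_pos h, if_neg (by omega), if_neg (by omega), zero_add]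
  · subst h; norm_num
  · rw [if_neg (by omega), if_neg (by omega), if_pos (by omega), add_zero]

lemma cc_sq_add (m : ℕ) : cc (m + 1) * cc (m + 1) + cc (m + 1 + 1) * cc (m + 1 + 1) = 2 := by
  unfold cc
  by_cases h : Odd (m + 1)
  · rw [if_pos h, if_neg (by rw [Nat.not_odd_iff_even]; exact h.add_one), rt2_mul]; ring
  · rw [if_neg h, if_pos (by rw [Nat.not_odd_iff_even] at h; exact h.add_one), rt2_mul]; ring

lemma cc_sum (m : ℕ) :
    ∑ r ∈ range m, cc (r + 1) * cc (r + 1) * 2 + cc (m + 1) * cc (m + 1) = 2 * (m + 1) := by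
  induction m with
  | zero => simp [cc, rt2_mul]
  | succ m ih =>
    rw [sum_range_succ]
    push_cast
    linear_combination ih + cc_sq_add m

lemma Av_qq (m : ℕ) : Av m (fun ρ => qf m ρ * qf m ρ) = cz m := by
  induction m using Nat.strong_induction_on with
  | _ m ih =>
    rcases m with _ | n
    · simp [Av_zero, qf_eq, wt_zero, cz]
    · rw [Av_succ]
      have h1 : ∀ r ∈ range (n + 1), (Av (n - r) fun ρ => qf (n + 1) ((r + 1) ::ₘ ρ) *
          qf (n + 1) ((r + 1) ::ₘ ρ)) = cc (r + 1) * cc (r + 1) * cz (n - r : ℕ) := by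
        intro r hr
        rw [mem_range] at hr
        rw [← ih (n - r) (by omega), ← lin_mul]
        congr 1
        funext ρ
        simp only [qf_eq, Multiset.sum_cons, wt_cons]
        by_cases h : ρ.sum = n - r
        · rw [if_pos h, if_pos (by omega)]; ring
        · rw [if_neg h, if_neg (by omega)]; ring
      rw [sum_congr rfl h1, sum_range_succ]
      have h2 : ∀ r ∈ range n, cc (r + 1) * cc (r + 1) * cz (n - r : ℕ) =
          cc (r + 1) * cc (r + 1) * 2 := by
        intro r hr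
        rw [mem_range] at hr
        rw [cz, if_neg (by omega), if_neg (by omega)]
      have h3 : cz (n - n : ℕ) = 1 := by simp [cz]
      have h4 : cz (n + 1 : ℕ) = 2 := by rw [cz, if_neg (by omega), if_neg (by omega)]
      rw [sum_congr rfl h2, h3, h4, mul_one, cc_sum]
      have : ((n + 1 : ℕ) : K) ≠ 0 := Nat.cast_ne_zero.mpr (by omega)
      push_cast at this ⊢
      field_simp

/-! ### the operators -/

/-- `perp` with an integer index. -/
noncomputable def pp (k : ℤ) (F : Multiset ℕ → K) (ρ : Multiset ℕ) : K :=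
  if 0 ≤ k then perp k.toNat F ρ else 0

lemma pp_nat (k : ℕ) (F : Multiset ℕ → K) : pp k F = perp k F := by
  funext ρ; simp [pp]

lemma pp_neg {k : ℤ} (h : k < 0) (F : Multiset ℕ → K) : pp k F = 0 := by
  funext ρ; simp [pp, not_le.mpr h]

lemma pp_cons (k : ℤ) (F : Multiset ℕ → K) (r : ℕ) (ρ : Multiset ℕ) :
    pp k F (r ::ₘ ρ) = pp k (fun σ => F (r ::ₘ σ)) ρ := by
  simp only [pp, perp, Multiset.add_cons]

lemma pp_lin (k : ℤ) (a b : K) (F G : Multiset ℕ → K) (ρ : Multiset ℕ) :
    pp k (fun σ => a * F σ + b * G σ) ρ = a * pp k F ρ + b * pp k G ρ := by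
  unfold pp
  split_ifs with h
  · unfold perp
    rw [← lin_mul, ← lin_mul, ← lin_add]
    congr 1
    funext σ
    ring
  · ring

/-- the fermion operators. -/
noncomputable def phi (j : ℤ) (F : Multiset ℕ → K) (ρ : Multiset ℕ) : K :=
  rt2⁻¹ * (ρ.antidiagonal.map fun w =>
    wt w.1 * (sg (w.1.sum - j) * pp (w.1.sum - j) F w.2)).sum

lemma phi_lin (j : ℤ) (a b : K) (F G : Multiset ℕ → K) (ρ : Multiset ℕ) :
    phi j (fun σ => a * F σ + b * G σ) ρ = a * phi j F ρ + b * phi j G ρ := by
  unfold phi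
  rw [mul_left_comm a, mul_left_comm b, ← mul_add]
  congr 1
  rw [← Multiset.sum_map_mul_left, ← Multiset.sum_map_mul_left, ← Multiset.sum_map_add]
  congr 1
  refine Multiset.map_congr rfl fun w _ => ?_
  rw [pp_lin]
  ring

lemma phi_smul (j : ℤ) (a : K) (F : Multiset ℕ → K) (ρ : Multiset ℕ) :
    phi j (fun σ => a * F σ) ρ = a * phi j F ρ := by
  have := phi_lin j a 0 F F ρ
  simpa using this

lemma phi_zero_fun (j : ℤ) : phi j 0 = 0 := by
  funext ρ
  have := phi_smul j 0 0 ρ
  simp only [zero_mul] at this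
  exact this

lemma phi_cons (j : ℤ) (F : Multiset ℕ → K) (r : ℕ) (ρ : Multiset ℕ) :
    phi j F (r ::ₘ ρ) = 1 * phi j (fun σ => F (r ::ₘ σ)) ρ + cc r * phi (j - r) F ρ := by
  unfold phi
  rw [Multiset.antidiagonal_cons, Multiset.map_add, Multiset.sum_add, Multiset.map_map,
    Multiset.map_map, one_mul, mul_left_comm (cc r), ← mul_add, ← Multiset.sum_map_mul_left]
  congr 3
  · refine Multiset.map_congr rfl fun w _ => ?_
    simp only [Function.comp, Prod.map, id, pp_cons]
  · refine Multiset.map_congr rfl fun w _ => ?_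
    simp only [Function.comp, Prod.map, id, wt_cons, Multiset.sum_cons]
    rw [show (((r + w.1.sum : ℕ) : ℤ) - j) = w.1.sum - (j - r) by push_cast; ring]
    ring

lemma phi_at_zero (j : ℤ) (F : Multiset ℕ → K) : phi j F 0 = rt2⁻¹ * (sg j * pp (-j) F 0) := by
  simp [phi, wt_zero, sg_neg]

lemma msum_comm (s : Finset ℕ) (m : Multiset (Multiset ℕ × Multiset ℕ))
    (f : ℕ → Multiset ℕ × Multiset ℕ → K) :
    ∑ k ∈ s, (m.map (f k)).sum = (m.map fun w => ∑ k ∈ s, f k w).sum := by
  induction m using Multiset.induction_on with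
  | empty => simp
  | cons a m ih => simp [sum_add_distrib, ih]

lemma UQ_cons (hav : AvSt) (j : ℕ) (l : List ℕ) : UQ (j :: l) = phi j (UQ l) := by
  funext ρ
  rw [UQ, phi]
  refine congrArg (rt2⁻¹ * ·) ?_
  simp only [conv, ← Multiset.sum_map_mul_left]
  rw [msum_comm]
  congr 1
  refine Multiset.map_congr rfl fun w _ => ?_
  by_cases h : w.1.sum < j
  · rw [pp_neg (by omega), Pi.zero_apply, mul_zero, mul_zero]
    refine sum_eq_zero fun k _ => ?_
    rw [qf_eq, if_neg (by omega)]; ring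
  · obtain ⟨k0, hk0⟩ : ∃ k0, w.1.sum = j + k0 := ⟨w.1.sum - j, by omega⟩
    have e : ((w.1.sum : ℕ) : ℤ) - j = k0 := by omega
    rw [e, pp_nat, sg_nat, sum_eq_single k0]
    · rw [qf_eq, if_pos hk0]; ring
    · intro k _ hk
      rw [qf_eq, if_neg (by omega)]; ring
    · intro hk
      rw [mem_range] at hk
      have : perp k0 (UQ l) w.2 = 0 := by
        by_contra h0
        have := hav.sup_perp k0 l.sum (UQ l) (fun ρ h => (hav.sup l ρ h).1) w.2 h0
        omega
      rw [this]; ring

/-! ### adjoints -/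

lemma adj0 (hav : AvSt) (n : ℕ) (j : ℤ) (F G : Multiset ℕ → K) :
    Av n (fun ρ => phi j F ρ * G ρ) = rt2⁻¹ * ∑ m ∈ range (n + 1),
      sg (m - j) * Av (n - m) fun ρ => pp (m - j) F ρ * perp m G ρ := by
  have h1 : Av n (fun ρ => phi j F ρ * G ρ) = Av n fun ρ => rt2⁻¹ * ∑ m ∈ range (n + 1),
      sg (m - j) * (conv (qf m) (fun σ => if σ.sum = n - m then pp (m - j) F σ else 0) ρ *
        G ρ) := by
    refine hav.congr n _ _ fun ρ hρ _ => ?_
    rw [phi, mul_assoc]
    congr 1
    simp only [← mul_assoc, ← sum_mul]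
    congr 1
    simp only [conv, ← Multiset.sum_map_mul_left]
    rw [msum_comm]
    congr 1
    refine Multiset.map_congr rfl fun w hw => ?_
    rw [Multiset.mem_antidiagonal] at hw
    have hs : w.1.sum + w.2.sum = n := by rw [← Multiset.sum_add, hw, hρ]
    rw [sum_eq_single w.1.sum]
    · rw [qf_eq, if_pos rfl, if_pos (by omega)]; ring
    · intro k _ hk
      rw [qf_eq, if_neg (Ne.symm hk)]; ring
    · intro hk
      exact absurd (mem_range.mpr (by omega)) hk
  rw [h1, lin_mul, lin_sum]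
  congr 1
  refine sum_congr rfl fun m hm => ?_
  rw [mem_range] at hm
  rw [lin_mul]
  congr 1
  have h2 := hav.fub m (n - m) (qf m) (fun σ => if σ.sum = n - m then pp (m - j) F σ else 0) G
    (qf_sup m) (fun ρ h => by by_contra h'; exact h (if_neg h'))
  rw [show m + (n - m) = n by omega] at h2
  rw [h2, Av_swap]
  refine hav.congr _ _ _ fun ρ hρ _ => ?_
  rw [if_pos hρ, perp, ← lin_mul]
  congr 1
  funext σ
  ring

lemma sum_shift (f : ℤ → K) (u v : ℤ) (A B : ℕ)
    (h : ∀ x, f x ≠ 0 → ((u ≤ x ∧ x < u + A) ↔ (v ≤ x ∧ x < v + B))) :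
    ∑ m ∈ range A, f (u + m) = ∑ k ∈ range B, f (v + k) := by
  refine sum_bij_ne_zero (fun m _ _ => (u + m - v).toNat) ?_ ?_ ?_ ?_
  · intro m hm h0
    rw [mem_range] at hm ⊢
    have := (h _ h0).mp (by omega)
    omega
  · intro a ha h0 b hb h1 hab
    rw [mem_range] at ha hb
    have := (h _ h0).mp (by omega)
    have := (h _ h1).mp (by omega)
    omega
  · intro k hk h0
    rw [mem_range] at hk
    have := (h _ h0).mpr (by omega)
    have e : u + ((v + k - u).toNat : ℕ) = v + k := by omega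
    refine ⟨(v + k - u).toNat, mem_range.mpr (by omega), by rw [e]; exact h0, by omega⟩
  · intro m hm h0
    rw [mem_range] at hm
    have := (h _ h0).mp (by omega)
    congr 1
    omega

lemma adj (hav : AvSt) (n n' : ℕ) (j : ℤ) (h : (n : ℤ) = n' + j) (F G : Multiset ℕ → K) :
    Av n (fun ρ => phi j F ρ * G ρ) = sg j * Av n' fun ρ => phi (-j) G ρ * F ρ := by
  rw [adj0 hav, adj0 hav, mul_left_comm]
  refine congrArg (rt2⁻¹ * ·) ?_
  rw [mul_sum]
  have key := sum_shift (fun x => sg (x - j) * Av (n - x).toNat fun ρ => pp (x - j) F ρ * pp x G ρ)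
    0 j (n + 1) (n' + 1) (by
      intro x hx
      have h1 : 0 ≤ x - j := by
        by_contra h'
        apply hx
        simp only [pp_neg (not_le.mp h'), Pi.zero_apply, zero_mul, lin_zero, mul_zero]
      have h2 : 0 ≤ x := by
        by_contra h'
        apply hx
        simp only [pp_neg (not_le.mp h'), Pi.zero_apply, lin_zero, mul_zero]
      push_cast
      omega)
  refine Eq.trans ?_ (key.trans ?_)
  · refine sum_congr rfl fun m _ => ?_
    simp only [zero_add, pp_nat]
    rw [show ((n : ℤ) - m).toNat = n - m by omega]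
  · refine sum_congr rfl fun k _ => ?_
    simp only [add_sub_cancel_left, pp_nat, sub_neg_eq_add]
    rw [show ((n : ℤ) - (j + k)).toNat = n' - k by omega, sg_add, ← mul_assoc,
      mul_comm (sg k) (sg j), ← mul_assoc, sg_sq, one_mul, add_comm j]
    congr 2
    funext ρ
    ring

/-! ### the anticommutation relations -/

/-- the double adjoint at the empty partition. -/
noncomputable def tt (F : Multiset ℕ → K) (x y : ℤ) : K := pp x (pp y F) 0

lemma tt_nat (F : Multiset ℕ → K) (x y : ℕ) :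
    tt F x y = Av x fun ρ1 => Av y fun ρ2 => qf x ρ1 * qf y ρ2 * F (ρ1 + ρ2) := by
  rw [tt, pp_nat, pp_nat, perp]
  congr 1
  funext ρ1
  rw [perp, ← lin_mul]
  congr 1
  funext ρ2
  rw [add_zero, add_comm ρ2, mul_assoc]

lemma tt_symm (F : Multiset ℕ → K) (x y : ℕ) : tt F x y = tt F y x := by
  rw [tt_nat, tt_nat, Av_swap]
  congr 1
  funext ρ1
  congr 1
  funext ρ2
  rw [add_comm ρ2]
  ring

lemma tt_left (F : Multiset ℕ → K) {x : ℤ} (y : ℤ) (h : x < 0) : tt F x y = 0 := by
  rw [tt, pp_neg h, Pi.zero_apply]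

lemma tt_right (F : Multiset ℕ → K) (x : ℤ) {y : ℤ} (h : y < 0) : tt F x y = 0 := by
  rw [tt, pp_neg h, pp]
  split_ifs
  · simp [perp, lin_zero]
  · rfl

lemma alt_zero (ρ : Multiset ℕ) :
    (ρ.antidiagonal.map fun w => sg w.2.sum * (wt w.1 * wt w.2)).sum = if ρ = 0 then 1 else 0 := by
  induction ρ using Multiset.induction_on with
  | empty => simp [wt_zero, sg_zero]
  | cons r ρ _ =>
    rw [if_neg Multiset.cons_ne_zero, Multiset.antidiagonal_cons, Multiset.map_add,
      Multiset.sum_add, Multiset.map_map, Multiset.map_map, ← Multiset.sum_map_add]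
    refine Multiset.sum_eq_zero fun x hx => ?_
    obtain ⟨w, _, rfl⟩ := Multiset.mem_map.mp hx
    simp only [Function.comp, Prod.map, id, wt_cons, Multiset.sum_cons, Nat.cast_add, sg_add]
    linear_combination (sg w.2.sum * (wt w.1 * wt w.2)) * cc_sg r

lemma tt_alt (hav : AvSt) (F : Multiset ℕ → K) (N : ℕ) :
    ∑ k ∈ range (N + 1), sg k * tt F (N - k : ℕ) k = if N = 0 then F 0 else 0 := by
  have h1 : ∀ k ∈ range (N + 1), sg k * tt F (N - k : ℕ) k =
      Av N fun ρ => sg k * (conv (qf (N - k)) (qf k) ρ * F ρ) := by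
    intro k hk
    rw [mem_range] at hk
    have h2 := hav.fub (N - k) k (qf (N - k)) (qf k) F (qf_sup _) (qf_sup _)
    rw [show N - k + k = N by omega] at h2
    rw [lin_mul, h2, tt_nat]
  rw [sum_congr rfl h1, ← lin_sum]
  have h3 : (Av N fun ρ => ∑ k ∈ range (N + 1), sg k * (conv (qf (N - k)) (qf k) ρ * F ρ)) =
      Av N fun ρ => (if ρ = 0 then 1 else 0) * F ρ := by
    refine hav.congr N _ _ fun ρ hρ _ => ?_
    simp only [← mul_assoc, ← sum_mul]
    congr 1
    rw [← alt_zero]
    simp only [conv, ← Multiset.sum_map_mul_left]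
    rw [msum_comm]
    congr 1
    refine Multiset.map_congr rfl fun w hw => ?_
    rw [Multiset.mem_antidiagonal] at hw
    have hs : w.1.sum + w.2.sum = N := by rw [← Multiset.sum_add, hw, hρ]
    rw [sum_eq_single w.2.sum]
    · rw [qf_eq, qf_eq, if_pos rfl, if_pos (by omega)]
    · intro k _ hk
      rw [qf_eq k, if_neg (Ne.symm hk)]; ring
    · intro hk
      exact absurd (mem_range.mpr (by omega)) hk
  rw [h3]
  split_ifs with h
  · subst h
    simp [Av_zero]
  · refine Eq.trans (hav.congr N _ _ fun ρ hρ _ => ?_) (lin_zero (Av N))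
    rw [if_neg, zero_mul]
    rintro rfl
    exact h (by simpa using hρ.symm)

lemma perp_qf (a m : ℕ) (h : m ≤ a) (ρ : Multiset ℕ) :
    perp m (qf a) ρ = cz m * qf (a - m) ρ := by
  rw [perp, ← Av_qq, mul_comm, ← lin_mul]
  congr 1
  funext σ
  simp only [qf_eq, Multiset.sum_add, wt_add]
  by_cases h1 : σ.sum = m
  · by_cases h2 : ρ.sum = a - m
    · rw [if_pos h1, if_pos h2, if_pos (by omega)]; ring
    · rw [if_pos h1, if_neg h2, if_neg (by omega)]; ring
  · rw [if_neg h1]; ring

lemma phi_phi_zero (hav : AvSt) (F : Multiset ℕ → K) (i j : ℤ) (N : ℕ) (h : 0 ≤ i + j + N) :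
    phi i (phi j F) 0 = rt2⁻¹ * rt2⁻¹ * sg i *
      ∑ k ∈ range (N + 1), cz (j + k) * (sg k * tt F (-i - j - k) k) := by
  rw [phi_at_zero]
  by_cases hi : 0 < i
  · rw [pp_neg (by omega), Pi.zero_apply, mul_zero, mul_zero, sum_eq_zero, mul_zero]
    intro k _
    by_cases hk : j + k < 0
    · rw [cz, if_pos hk, zero_mul]
    · rw [tt_left F _ (by omega), mul_zero, mul_zero]
  · obtain ⟨a, ha⟩ : ∃ a : ℕ, -i = a := ⟨(-i).toNat, by omega⟩
    have h1 : pp (-i) (phi j F) 0 = Av a fun ρ => phi j F ρ * qf a ρ := by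
      rw [ha, pp_nat, perp]
      congr 1
      funext ρ
      rw [add_zero, mul_comm]
    have key := sum_shift (fun x => cz x * (sg (x - j) * tt F (a - x) (x - j)))
      0 j (a + 1) (N + 1) (by
        intro x hx
        have h1 : 0 ≤ x - j := by
          by_contra h'
          apply hx
          simp only [tt_right F _ (not_le.mp h'), mul_zero]
        have h2 : 0 ≤ x := by
          by_contra h'
          apply hx
          simp only [cz, if_pos (not_le.mp h'), zero_mul]
        have h3 : 0 ≤ a - x := by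
          by_contra h'
          apply hx
          simp only [tt_left F _ (not_le.mp h'), mul_zero]
        push_cast
        omega)
    rw [h1, adj0 hav, mul_assoc, mul_assoc, mul_left_comm (sg i)]
    congr 3
    refine Eq.trans ?_ (key.trans ?_)
    · refine sum_congr rfl fun m hm => ?_
      rw [mem_range] at hm
      simp only [zero_add]
      rw [mul_left_comm, show ((a : ℤ) - m) = (a - m : ℕ) by omega, tt, pp_nat, perp,
        ← lin_mul _ (cz m)]
      congr 2
      funext ρ
      rw [perp_qf a m (by omega), add_zero]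
      ring
    · refine sum_congr rfl fun k _ => ?_
      simp only [add_sub_cancel_left]
      rw [ha, sub_sub]

lemma car_zero (hav : AvSt) (F : Multiset ℕ → K) (i j : ℤ) :
    phi i (phi j F) 0 + phi j (phi i F) 0 = if i + j = 0 then sg j * F 0 else 0 := by
  by_cases h : 0 < i + j
  · rw [phi_phi_zero hav F i j 0 (by omega), phi_phi_zero hav F j i 0 (by omega),
      if_neg (by omega)]
    simp only [zero_add, sum_range_one]
    rw [tt_left F _ (by omega), tt_left F _ (by omega)]
    ring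
  · obtain ⟨N, hN⟩ : ∃ N : ℕ, -i - j = N := ⟨(-i - j).toNat, by omega⟩
    rw [phi_phi_zero hav F i j N (by omega), phi_phi_zero hav F j i N (by omega),
      ← sum_range_reflect (fun k => cz (i + k) * (sg k * tt F (-j - i - k) k))]
    have h1 : ∀ k ∈ range (N + 1), cz (j + k) * (sg k * tt F (-i - j - k) k) =
        cz (j + k) * (sg k * tt F (N - k : ℕ) k) := by
      intro k hk
      rw [mem_range] at hk
      rw [show -i - j - k = (N - k : ℕ) by omega]
    have h2 : ∀ k ∈ range (N + 1), cz (i + (N + 1 - 1 - k : ℕ)) * (sg (N + 1 - 1 - k : ℕ) *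
        tt F (-j - i - (N + 1 - 1 - k : ℕ)) (N + 1 - 1 - k : ℕ)) =
        sg i * sg j * (cz (-(j + k)) * (sg k * tt F (N - k : ℕ) k)) := by
      intro k hk
      rw [mem_range] at hk
      rw [show -j - i - (N + 1 - 1 - k : ℕ) = k by omega, Nat.add_sub_cancel, tt_symm,
        show i + (N - k : ℕ) = -(j + k) by omega]
      have : sg (N - k : ℕ) = sg i * sg j * sg k := by
        rw [show ((N - k : ℕ) : ℤ) = -i - j - k by omega, sg_sub, sg_sub, sg_neg]
      rw [this]
      ring
    rw [sum_congr rfl h1, sum_congr rfl h2, ← mul_sum]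
    have h3 : ∑ k ∈ range (N + 1), cz (j + k) * (sg k * tt F (N - k : ℕ) k) +
        ∑ k ∈ range (N + 1), cz (-(j + k)) * (sg k * tt F (N - k : ℕ) k) =
        2 * if N = 0 then F 0 else 0 := by
      rw [← tt_alt hav, mul_sum, ← sum_add_distrib]
      refine sum_congr rfl fun k _ => ?_
      rw [← add_mul, cz_add]
    have h4 : (if i + j = 0 then sg j * F 0 else 0) = sg i * if N = 0 then F 0 else 0 := by
      by_cases h0 : N = 0
      · rw [if_pos h0, if_pos (by omega), show j = -i by omega, sg_neg]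
      · rw [if_neg h0, if_neg (by omega), mul_zero]
    rw [h4]
    linear_combination (rt2⁻¹ * rt2⁻¹ * sg i) * h3 +
      (sg i * if N = 0 then F 0 else 0) * rt2_inv_mul +
      (rt2⁻¹ * rt2⁻¹ * sg i *
        ∑ k ∈ range (N + 1), cz (-(j + k)) * (sg k * tt F (N - k : ℕ) k)) * sg_sq j

lemma car (hav : AvSt) (ρ : Multiset ℕ) : ∀ (F : Multiset ℕ → K) (i j : ℤ),
    phi i (phi j F) ρ + phi j (phi i F) ρ = if i + j = 0 then sg j * F ρ else 0 := by
  induction ρ using Multiset.induction_on with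
  | empty => exact car_zero hav
  | cons r ρ ih =>
    intro F i j
    rw [phi_cons, phi_cons]
    simp only [phi_cons]
    rw [phi_lin, phi_lin]
    have h1 := ih (fun σ => F (r ::ₘ σ)) i j
    have h2 := ih F i (j - r)
    have h3 := ih F (i - r) j
    have h4 : cc r * ((if i + (j - r) = 0 then sg (j - r) * F ρ else 0) +
        if i - r + j = 0 then sg j * F ρ else 0) = 0 := by
      by_cases h : i + (j - r) = 0
      · rw [if_pos h, if_pos (by omega), sg_sub]
        linear_combination (sg j * F ρ) * cc_sg r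
      · rw [if_neg h, if_neg (by omega)]; ring
    linear_combination h1 + cc r * h2 + cc r * h3 + h4

/-! ### consequences -/

lemma phi_kill (hav : AvSt) (j : ℕ) (hj : 0 < j) :
    ∀ l : List ℕ, j ∉ l → phi (-j) (UQ l) = 0
  | [], _ => by
    funext ρ
    rw [phi, Multiset.sum_eq_zero, mul_zero, Pi.zero_apply]
    intro x hx
    obtain ⟨w, _, rfl⟩ := Multiset.mem_map.mp hx
    rw [show ((w.1.sum : ℕ) : ℤ) - -(j : ℤ) = (w.1.sum + j : ℕ) by push_cast; ring, pp_nat]
    have : perp (w.1.sum + j) (UQ []) w.2 = 0 := by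
      by_contra h0
      have := hav.sup_perp _ 0 (UQ []) (fun ρ h => (hav.sup [] ρ h).1) w.2 h0
      omega
    rw [this]; ring
  | i :: l, h => by
    rw [List.mem_cons, not_or] at h
    funext ρ
    have h1 := car hav ρ (UQ l) (-j) i
    rw [phi_kill hav j hj l h.2, phi_zero_fun, if_neg (by omega), Pi.zero_apply, add_zero] at h1
    rw [UQ_cons hav, h1, Pi.zero_apply]

lemma phi_head (hav : AvSt) (j : ℕ) (hj : 0 < j) (l : List ℕ) (h : j ∉ l) (ρ : Multiset ℕ) :
    phi (-j) (UQ (j :: l)) ρ = sg j * UQ l ρ := by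
  have h1 := car hav ρ (UQ l) (-j) j
  rw [phi_kill hav j hj l h, phi_zero_fun, if_pos (by omega), Pi.zero_apply, add_zero] at h1
  rw [UQ_cons hav, h1]

lemma phi_erase (hav : AvSt) (j : ℕ) (hj : 0 < j) : ∀ l : List ℕ, l.Nodup → j ∈ l →
    ∃ s : K, ∀ ρ, phi (-j) (UQ l) ρ = s * UQ (l.erase j) ρ
  | [], _, h => by simp at h
  | i :: l, hn, h => by
    rw [List.nodup_cons] at hn
    by_cases hij : i = j
    · subst hij
      exact ⟨sg i, fun ρ => by rw [phi_head hav i hj l hn.1, List.erase_cons_head]⟩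
    · obtain ⟨s, hs⟩ := phi_erase hav j hj l hn.2 ((List.mem_cons.mp h).resolve_left (Ne.symm hij))
      refine ⟨-s, fun ρ => ?_⟩
      have h1 := car hav ρ (UQ l) (-j) i
      rw [if_neg (by omega), show phi (-j) (UQ l) = fun σ => s * UQ (l.erase j) σ from funext hs,
        phi_smul] at h1
      rw [List.erase_cons_tail (by simpa using hij), UQ_cons hav, UQ_cons hav]
      linear_combination h1

lemma adj_cons (hav : AvSt) (j : ℕ) (l : List ℕ) (G : Multiset ℕ → K) :
    Av (j :: l).sum (UQ (j :: l) * G) = sg j * Av l.sum fun ρ => phi (-j) G ρ * UQ l ρ := by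
  rw [← adj hav (j :: l).sum l.sum j (by simp [add_comm]), UQ_cons hav]
  rfl

lemma norm_one (hav : AvSt) : ∀ l : List ℕ, l.Nodup → 0 ∉ l → Av l.sum (UQ l * UQ l) = 1
  | [], _, _ => by simp [Av_zero, UQ]
  | j :: l, hn, h0 => by
    rw [List.nodup_cons] at hn
    rw [List.mem_cons, not_or] at h0
    rw [adj_cons hav]
    simp only [phi_head hav j (by omega) l hn.1, mul_assoc]
    rw [lin_mul, ← mul_assoc, sg_sq, one_mul]
    exact norm_one hav l hn.2 h0.2

lemma orth (hav : AvSt) : ∀ l l' : List ℕ, 0 ∉ l → l'.Nodup → 0 ∉ l' → l'.sum = l.sum →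
    (l : Multiset ℕ) ≠ l' → Av l.sum (UQ l * UQ l') = 0
  | [], l', _, _, h0', hs, hne => by
    rcases l' with _ | ⟨i, l'⟩
    · exact absurd rfl hne
    · rw [List.mem_cons, not_or] at h0'
      rw [List.sum_cons, List.sum_nil] at hs
      omega
  | j :: l, l', h0, hn', h0', hs, hne => by
    rw [List.mem_cons, not_or] at h0
    rw [adj_cons hav]
    by_cases hj : j ∈ l'
    · obtain ⟨s, hs'⟩ := phi_erase hav j (by omega) l' hn' hj
      have hp := List.perm_cons_erase hj
      have h1 := orth hav l (l'.erase j) h0.2 (hn'.erase j)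
        (fun h => h0' (List.mem_of_mem_erase h))
        (by have := hp.sum_eq; rw [List.sum_cons] at this hs; omega)
        (fun h => hne (by
          rw [Multiset.coe_eq_coe] at h ⊢
          exact (h.cons j).trans hp.symm))
      have h2 : (fun ρ => phi (-j) (UQ l') ρ * UQ l ρ) =
          fun ρ => s * (UQ l * UQ (l'.erase j)) ρ := by
        funext ρ
        rw [hs', Pi.mul_apply]
        ring
      rw [h2, lin_mul, h1, mul_zero, mul_zero]
    · rw [phi_kill hav j (by omega) l' hj]
      simp only [Pi.zero_apply, zero_mul, lin_zero, mul_zero]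

end FkB

theorem fkB (hav : AvSt) : FkBSt := fun l l' hn h0 hn' h0' hs =>
  ⟨FkB.norm_one hav l hn h0, FkB.orth hav l l' h0 hn' h0' hs⟩

theorem fkD (hav : AvSt) : FkDSt := by
  intro j l hj
  funext ρ
  have h := FkB.car hav ρ (UQ l) j j
  rw [if_neg (by omega), ← two_mul] at h
  rw [FkB.UQ_cons hav, FkB.UQ_cons hav, Pi.zero_apply]
  exact (mul_eq_zero.mp h).resolve_left two_ne_zero

end Pool.Agent.Lib.MP_1ae3da_al.GM
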