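import Pool.Agent.Lib.MP_1ae3da_al.GT

/-! The degrees of the normalised `Q`-functions. -/

namespace Pool.Agent.Lib.MP_1ae3da_al.GM

open Polynomial

namespace FkC

/-- the Lagrange identity. -/
lemma lag (s : Finset ℕ) (a b : ℕ → K) (ha : Set.InjOn a s) :
    ∑ i ∈ s, (∏ j ∈ s, (a i - b j)) / ∏ j ∈ s.erase i, (a i - a j) = ∑ i ∈ s, (a i - b i) := by
  rcases s.eq_empty_or_nonempty with rfl | hs
  · simp
  have hc : 0 < s.card := hs.card_pos
  set P : K[X] := ∏ j ∈ s, (X - C (b j)) - ∏ j ∈ s, (X - C (a j)) with hP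
  have d1 : ∀ f : ℕ → K, (∏ j ∈ s, (X - C (f j)) : K[X]).degree = s.card := fun f => by
    rw [degree_eq_natDegree (monic_prod_X_sub_C f s).ne_zero,
      natDegree_finsetProd_X_sub_C_eq_card]
  have hd : P.degree < s.card := by
    rw [← d1 b]
    exact degree_sub_lt_left (by rw [d1, d1]) (monic_prod_X_sub_C b s).ne_zero
      (by rw [(monic_prod_X_sub_C b s).leadingCoeff, (monic_prod_X_sub_C a s).leadingCoeff])
  have h := Lagrange.coeff_eq_sum ha hd
  rw [hP, coeff_sub, prod_X_sub_C_coeff_card_pred _ _ hc, prod_X_sub_C_coeff_card_pred _ _ hc] at h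
  rw [Finset.sum_sub_distrib]
  have e : ∑ i ∈ s, a i - ∑ i ∈ s, b i = -∑ i ∈ s, b i - -∑ i ∈ s, a i := by ring
  rw [e, h]
  refine Finset.sum_congr rfl fun i hi => ?_
  have : ∏ j ∈ s, (a i - a j) = 0 := Finset.prod_eq_zero hi (sub_self _)
  simp [eval_prod, this]

/-- the derivation. -/
def d (F : Multiset ℕ → K) : Multiset ℕ → K := fun ρ => F (1 ::ₘ ρ)

/-- the vertex operator. -/
noncomputable def ph (N j : ℕ) (F : Multiset ℕ → K) : Multiset ℕ → K := fun ρ =>
  rt2⁻¹ * ∑ k ∈ Finset.range N, (-1) ^ k * conv (qf (j + k)) (perp k F) ρ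

lemma UQ_cons (j : ℕ) (l : List ℕ) : UQ (j :: l) = ph (l.sum + 1) j (UQ l) := rfl

lemma conv_add (F G H : Multiset ℕ → K) : conv F (G + H) = conv F G + conv F H := by
  funext ρ
  simp [conv, mul_add, Multiset.sum_map_add]

lemma conv_smul (F G : Multiset ℕ → K) (c : K) : conv F (c • G) = c • conv F G := by
  funext ρ
  simp only [conv, Pi.smul_apply, smul_eq_mul, ← Multiset.sum_map_mul_left]
  congr 1
  refine Multiset.map_congr rfl fun w _ => by ring

lemma conv_smul' (F G : Multiset ℕ → K) (c : K) : conv (c • F) G = c • conv F G := by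
  funext ρ
  simp only [conv, Pi.smul_apply, smul_eq_mul, ← Multiset.sum_map_mul_left]
  congr 1
  refine Multiset.map_congr rfl fun w _ => by ring

lemma perp_add (k : ℕ) (G H : Multiset ℕ → K) : perp k (G + H) = perp k G + perp k H := by
  funext ρ
  simp only [perp, Pi.add_apply, ← map_add]
  congr 1
  funext ρ1
  simp [mul_add]

lemma perp_smul (k : ℕ) (G : Multiset ℕ → K) (c : K) : perp k (c • G) = c • perp k G := by
  funext ρ
  simp only [perp, Pi.smul_apply, ← map_smul]
  congr 1
  funext ρ1
  simp [mul_left_comm]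

lemma ph_add (N j : ℕ) (G H : Multiset ℕ → K) : ph N j (G + H) = ph N j G + ph N j H := by
  funext ρ
  simp only [ph, perp_add, conv_add, Pi.add_apply, mul_add, Finset.sum_add_distrib]

lemma ph_smul (N j : ℕ) (G : Multiset ℕ → K) (c : K) : ph N j (c • G) = c • ph N j G := by
  funext ρ
  simp only [ph, perp_smul, conv_smul, Pi.smul_apply, smul_eq_mul, Finset.mul_sum]
  refine Finset.sum_congr rfl fun k _ => by ring

lemma ph_zero (N j : ℕ) : ph N j 0 = 0 := by
  simpa using ph_smul N j 0 0

lemma ph_sum (N j : ℕ) (s : Finset ℕ) (G : ℕ → Multiset ℕ → K) :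
    ph N j (∑ x ∈ s, G x) = ∑ x ∈ s, ph N j (G x) := by
  induction s using Finset.induction_on with
  | empty => simp [ph_zero]
  | insert a s ha ih => rw [Finset.sum_insert ha, Finset.sum_insert ha, ph_add, ih]

lemma d_conv (F G : Multiset ℕ → K) : d (conv F G) = conv F (d G) + conv (d F) G := by
  funext ρ
  simp [d, conv, Multiset.antidiagonal_cons]

lemma d_perp (k : ℕ) (F : Multiset ℕ → K) : d (perp k F) = perp k (d F) := by
  funext ρ
  simp [d, perp, Multiset.add_cons]

lemma d_qf (m : ℕ) : d (qf (m + 1)) = rt2 • qf m := by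
  funext ρ
  simp only [d, qf, Multiset.sum_cons, Multiset.map_cons, Multiset.prod_cons, Pi.smul_apply,
    smul_eq_mul, odd_one, if_true, mul_ite, mul_zero]
  exact if_congr (by omega) rfl rfl

lemma d_ph (N j : ℕ) (F : Multiset ℕ → K) :
    d (ph N (j + 1) F) = rt2 • ph N j F + ph N (j + 1) (d F) := by
  funext ρ
  have h : ∀ k, conv (qf (j + 1 + k)) (perp k F) (1 ::ₘ ρ) =
      conv (qf (j + 1 + k)) (perp k (d F)) ρ + rt2 * conv (qf (j + k)) (perp k F) ρ := fun k => by
    have := congrFun (d_conv (qf (j + 1 + k)) (perp k F)) ρ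
    rw [d_perp, show j + 1 + k = j + k + 1 by ring, d_qf, conv_smul'] at this
    rw [show j + 1 + k = j + k + 1 by ring]
    exact this
  simp only [d, ph, Pi.add_apply, Pi.smul_apply, smul_eq_mul, h, Finset.mul_sum,
    ← Finset.sum_add_distrib]
  refine Finset.sum_congr rfl fun k _ => by ring

lemma ph_ext (hav : AvSt) (j : ℕ) (l : List ℕ) :
    ph (l.sum + 1 + 1) j (UQ l) = ph (l.sum + 1) j (UQ l) := by
  funext ρ
  have : perp (l.sum + 1) (UQ l) = 0 := by
    funext ρ
    by_contra h
    have := hav.sup_perp _ _ _ (fun ρ h => (hav.sup l ρ h).1) ρ h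
    omega
  rw [ph, Finset.sum_range_succ, this, show conv (qf (j + (l.sum + 1))) 0 = 0 by
    simpa using conv_smul (qf (j + (l.sum + 1))) 0 0]
  simp [ph]

/-- lowering the part `x`. -/
def up (x y : ℕ) : ℕ := if y = x then x - 1 else y

lemma map_up (x : ℕ) (l : List ℕ) (h : x ∉ l) : l.map (up x) = l := by
  conv_rhs => rw [← l.map_id]
  exact List.map_congr_left fun y hy => if_neg fun e : y = x => h (e ▸ hy)

lemma sum_up (x : ℕ) (l : List ℕ) (hl : l.Nodup) (h0 : 0 < x) (h : x ∈ l) :
    (l.map (up x)).sum + 1 = l.sum := by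
  induction l with
  | nil => simp at h
  | cons a l ih =>
    rw [List.nodup_cons] at hl
    by_cases e : a = x
    · subst e
      rw [List.map_cons, map_up _ _ hl.1]
      simp only [up, if_true, List.sum_cons]
      omega
    · have := ih hl.2 ((List.mem_cons.1 h).resolve_left fun e' => e e'.symm)
      simp only [List.map_cons, List.sum_cons, up, if_neg e] at this ⊢
      omega

lemma d_UQ (hav : AvSt) (l : List ℕ) (hl : l.Nodup) (h0 : 0 ∉ l) :
    d (UQ l) = rt2 • ∑ x ∈ l.toFinset, UQ (l.map (up x)) := by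
  induction l with
  | nil => funext ρ; simp [d, UQ]
  | cons a l ih =>
    rw [List.nodup_cons] at hl
    rw [List.mem_cons, not_or] at h0
    obtain ⟨j, rfl⟩ : ∃ j, a = j + 1 := ⟨a - 1, by omega⟩
    rw [UQ_cons, d_ph, ih hl.2 h0.2, List.toFinset_cons, Finset.sum_insert (by simpa using hl.1),
      smul_add, List.map_cons, map_up _ _ hl.1, ph_smul, ph_sum]
    congr 2
    · simp [up, UQ_cons]
    · refine Finset.sum_congr rfl fun x hx => ?_
      rw [List.mem_toFinset] at hx
      have hx0 : 0 < x := Nat.pos_of_ne_zero fun e => h0.2 (e ▸ hx)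
      have hne : j + 1 ≠ x := fun e => hl.1 (e ▸ hx)
      rw [List.map_cons, UQ_cons, ← sum_up x l hl.2 hx0 hx, ph_ext hav, up, if_neg hne]

lemma UQ_zero : UQ [0] = rt2⁻¹ • UQ [] := by
  funext ρ
  have hp : perp 0 (UQ []) = UQ [] := by
    funext ρ
    simp [perp, Av, qf]
  simp only [UQ_cons, ph, List.sum_nil, zero_add, Finset.range_one, Finset.sum_singleton, pow_zero,
    one_mul, hp, Pi.smul_apply, smul_eq_mul]
  congr 1
  induction ρ using Multiset.induction_on with
  | empty => simp [conv, qf, UQ]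
  | cons a ρ _ =>
    simp only [conv, UQ, Multiset.cons_ne_zero, if_false]
    refine Multiset.sum_eq_zero fun y hy => ?_
    obtain ⟨w, hw, rfl⟩ := Multiset.mem_map.1 hy
    rw [Multiset.mem_antidiagonal] at hw
    split_ifs with h
    · rw [h, add_zero] at hw
      rw [hw, mul_one, qf]
      split_ifs with h'
      · have : a = 0 := by
          rw [Multiset.sum_cons] at h'; omega
        simp [this]
      · rfl
    · simp

lemma UQ_app (l : List ℕ) : UQ (l ++ [0]) = rt2⁻¹ • UQ l := by
  induction l with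
  | nil => exact UQ_zero
  | cons a l ih => rw [List.cons_append, UQ_cons, ih, ph_smul, UQ_cons]; simp

lemma UQ_dup (hfD : FkDSt) (l : List ℕ) (hl : l.Pairwise (· ≥ ·)) (h0 : l.count 0 ≤ 1)
    (hd : ¬ l.Nodup) : UQ l = 0 := by
  induction l with
  | nil => simp at hd
  | cons a l ih =>
    rw [List.pairwise_cons] at hl
    by_cases hn : l.Nodup
    · have ha : a ∈ l := by
        by_contra h
        exact hd (List.nodup_cons.2 ⟨h, hn⟩)
      cases l with
      | nil => simp at ha
      | cons b l =>
        have h1 : a ≥ b := hl.1 b (by simp)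
        have h2 : b ≥ a := by
          rcases List.mem_cons.1 ha with e | e
          · exact e.le
          · exact (List.pairwise_cons.1 hl.2).1 a e
        obtain rfl : a = b := le_antisymm h2 h1
        refine hfD a l (Nat.pos_of_ne_zero ?_)
        rintro rfl
        simp at h0
    · rw [UQ_cons, ih hl.2 (le_trans List.count_le_count_cons h0) hn, ph_zero]

/-- the factor attached to a pair of parts. -/
noncomputable def w (a b : ℕ) : K := ((a : K) - b) / ((a : K) + b)

lemma w_anti (a b : ℕ) : w a b = -w b a := by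
  rw [w, w, ← neg_div, neg_sub, add_comm]

/-- the closed form. -/
noncomputable def pp : List ℕ → K
  | [] => 1
  | j :: l => (j.factorial : K)⁻¹ * (l.map (w j)).prod * pp l

lemma pp_app (l : List ℕ) (h : 0 ∉ l) : pp (l ++ [0]) = pp l := by
  induction l with
  | nil => simp [pp]
  | cons a l ih =>
    rw [List.mem_cons, not_or] at h
    have : (a : K) ≠ 0 := by exact_mod_cast Ne.symm h.1
    rw [List.cons_append, pp, pp, ih h.2]
    simp [w, this]

lemma pp_dup (l : List ℕ) (hd : ¬ l.Nodup) : pp l = 0 := by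
  induction l with
  | nil => simp at hd
  | cons a l ih =>
    by_cases hn : l.Nodup
    · have ha : a ∈ l := by
        by_contra h
        exact hd (List.nodup_cons.2 ⟨h, hn⟩)
      rw [pp, List.prod_eq_zero (List.mem_map.2 ⟨a, ha, by simp [w]⟩)]
      simp
    · rw [pp, ih hn, mul_zero]

lemma pp_up (x : ℕ) (l : List ℕ) (hl : l.Nodup) (h0 : 0 < x) (h : x ∈ l) :
    pp (l.map (up x)) * ∏ y ∈ l.toFinset.erase x, w x y =
      x * pp l * ∏ y ∈ l.toFinset.erase x, w (x - 1) y := by
  induction l with
  | nil => simp at h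
  | cons a l ih =>
    rw [List.nodup_cons] at hl
    by_cases e : a = x
    · subst e
      obtain ⟨j, rfl⟩ : ∃ j, a = j + 1 := ⟨a - 1, by omega⟩
      rw [List.map_cons, map_up _ _ hl.1, List.toFinset_cons,
        Finset.erase_insert (by simpa using hl.1), pp, pp, List.prod_toFinset _ hl.2,
        List.prod_toFinset _ hl.2]
      have h1 : (j.factorial : K) ≠ 0 := by exact_mod_cast j.factorial_ne_zero
      have h2 : ((j + 1 : ℕ) : K) ≠ 0 := by exact_mod_cast j.succ_ne_zero
      simp only [up, if_true, Nat.add_sub_cancel, Nat.factorial_succ, Nat.cast_mul]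
      field_simp
    · have hx : x ∈ l := (List.mem_cons.1 h).resolve_left fun e' => e e'.symm
      have := ih hl.2 hx
      have hu : up x a = a := if_neg e
      have ha : a ∉ l.toFinset.erase x := fun h => hl.1 (by simpa using Finset.mem_of_mem_erase h)
      have hx' : x ∈ l.toFinset := List.mem_toFinset.2 hx
      have e2 : ∏ y ∈ l.toFinset.erase x, w a (up x y) = ∏ y ∈ l.toFinset.erase x, w a y :=
        Finset.prod_congr rfl fun y hy => by rw [up, if_neg (Finset.ne_of_mem_erase hy)]
      rw [List.map_cons, hu, pp, pp, List.toFinset_cons, Finset.erase_insert_of_ne e,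
        Finset.prod_insert ha, Finset.prod_insert ha, List.map_map, ← List.prod_toFinset _ hl.2,
        ← List.prod_toFinset _ hl.2, ← Finset.mul_prod_erase _ _ hx',
        ← Finset.mul_prod_erase _ (w a) hx', w_anti x a, w_anti (x - 1) a]
      simp only [Function.comp, e2]
      rw [show up x x = x - 1 from if_pos rfl]
      linear_combination (-((a.factorial : K)⁻¹ * (∏ y ∈ l.toFinset.erase x, w a y) * w a x *
        w a (x - 1))) * this

lemma pp_rec (l : List ℕ) (hl : l.Nodup) (h0 : 0 ∉ l) :
    ∑ x ∈ l.toFinset, pp (l.map (up x)) = l.sum * pp l := by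
  have pos : ∀ x ∈ l.toFinset, 0 < x := fun x hx =>
    Nat.pos_of_ne_zero fun e => h0 (e ▸ List.mem_toFinset.1 hx)
  have n1 : ∀ x ∈ l.toFinset, ∀ y ∈ l.toFinset, (x : K) - 1 + y ≠ 0 := fun x hx y hy e => by
    have h1 := pos x hx
    have h2 := pos y hy
    have : ((x + y : ℕ) : K) = (1 : ℕ) := by push_cast; linear_combination e
    have := Nat.cast_injective this
    omega
  have n2 : ∀ x ∈ l.toFinset, ∀ y : ℕ, (x : K) + y ≠ 0 := fun x hx y e => by
    have h1 := pos x hx
    have : ((x + y : ℕ) : K) = (0 : ℕ) := by push_cast; linear_combination e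
    have := Nat.cast_injective this
    omega
  have n3 : ∀ x y : ℕ, y ≠ x → (x : K) - y ≠ 0 := fun x y h e =>
    h (Nat.cast_injective (R := K) (by linear_combination -e))
  have hL := lag l.toFinset (fun x => (x : K) * (x - 1)) (fun x => (x : K) * (x + 1))
    fun x hx y hy e => by
      by_contra hne
      refine mul_ne_zero (n3 x y (Ne.symm hne)) (n1 x hx y hy) ?_
      simp only at e
      linear_combination e
  have hs : (l.sum : K) = ∑ x ∈ l.toFinset, (x : K) := by
    rw [← Nat.cast_sum, List.sum_toFinset _ hl]; simp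
  have h2 : (-2 : K) ≠ 0 := by norm_num
  apply mul_left_cancel₀ h2
  have e : -2 * ((l.sum : K) * pp l) =
      (∑ i ∈ l.toFinset, ((i : K) * (i - 1) - (i : K) * (i + 1))) * pp l := by
    rw [hs, ← mul_assoc, Finset.mul_sum]
    congr 1
    exact Finset.sum_congr rfl fun x _ => by ring
  rw [e, ← hL, Finset.mul_sum, Finset.sum_mul]
  refine Finset.sum_congr rfl fun x hx => ?_
  have h := pp_up x l hl (pos x hx) (List.mem_toFinset.1 hx)
  have hw : ∏ y ∈ l.toFinset.erase x, w x y ≠ 0 := Finset.prod_ne_zero_iff.2 fun y hy =>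
    div_ne_zero (n3 x y (Finset.ne_of_mem_erase hy)) (n2 x hx y)
  rw [← eq_div_iff hw, mul_div_assoc, ← Finset.prod_div_distrib] at h
  rw [h, ← Finset.mul_prod_erase _ _ hx, mul_div_assoc, ← Finset.prod_div_distrib]
  have e3 : ∏ y ∈ l.toFinset.erase x, w (x - 1) y / w x y = ∏ y ∈ l.toFinset.erase x,
      ((x : K) * (x - 1) - y * (y + 1)) / ((x : K) * (x - 1) - y * (y - 1)) := by
    refine Finset.prod_congr rfl fun y hy => ?_
    have a1 := n1 x hx y (Finset.mem_of_mem_erase hy)
    have a2 := n2 x hx y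
    have a3 := n3 x y (Finset.ne_of_mem_erase hy)
    rw [w, w, Nat.cast_sub (pos x hx), Nat.cast_one,
      show (x : K) * (x - 1) - y * (y + 1) = (x - 1 - y) * (x + y) by ring,
      show (x : K) * (x - 1) - y * (y - 1) = (x - 1 + y) * (x - y) by ring]
    field_simp
  rw [e3]
  ring

lemma rt2_ne : rt2 ≠ 0 := fun h => by
  have := rt2_mul
  rw [h] at this
  norm_num at this

lemma main (hav : AvSt) (hfD : FkDSt) (n : ℕ) : ∀ l : List ℕ, l.sum = n → l.Pairwise (· ≥ ·) →
    l.count 0 ≤ 1 → UQ l (Multiset.replicate n 1) =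
      rt2 ^ n * rt2⁻¹ ^ l.length * n.factorial * pp l := by
  have red : ∀ n : ℕ, (∀ l : List ℕ, l.sum = n → l.Pairwise (· ≥ ·) → l.Nodup → 0 ∉ l →
      UQ l (Multiset.replicate n 1) = rt2 ^ n * rt2⁻¹ ^ l.length * n.factorial * pp l) →
      ∀ l : List ℕ, l.sum = n → l.Pairwise (· ≥ ·) → l.count 0 ≤ 1 →
      UQ l (Multiset.replicate n 1) = rt2 ^ n * rt2⁻¹ ^ l.length * n.factorial * pp l := by
    intro n H l hs hp hc
    by_cases hd : l.Nodup
    · by_cases h0 : 0 ∈ l
      · obtain ⟨s, t, rfl⟩ := List.append_of_mem h0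
        have ht : t = [] := by
          cases t with
          | nil => rfl
          | cons b t =>
            have h1 := (List.pairwise_cons.1 (List.pairwise_append.1 hp).2.1).1 b (by simp)
            have h2 := (List.nodup_cons.1 (List.nodup_append.1 hd).2.1).1
            obtain rfl : b = 0 := by omega
            simp at h2
        subst ht
        have h3 : 0 ∉ s := fun h => (List.nodup_append.1 hd).2.2 0 h 0 (by simp) rfl
        rw [UQ_app, pp_app _ h3, Pi.smul_apply, H s (by simpa using hs)
          (List.pairwise_append.1 hp).1 (List.nodup_append.1 hd).1 h3]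
        simp only [List.length_append, List.length_singleton, smul_eq_mul]
        ring
      · exact H l hs hp hd h0
    · rw [UQ_dup hfD l hp hc hd, pp_dup l hd]; simp
  induction n with
  | zero =>
    refine red 0 fun l hs _ _ h0 => ?_
    cases l with
    | nil => simp [UQ, pp]
    | cons a l =>
      rw [List.sum_cons] at hs
      exact absurd (List.mem_cons.2 (Or.inl (by omega))) h0
  | succ n ih =>
    refine red _ fun l hs hp hd h0 => ?_
    have h := congrFun (d_UQ hav l hd h0) (Multiset.replicate n 1)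
    rw [d, ← Multiset.replicate_succ] at h
    have e : ∀ x ∈ l.toFinset, UQ (l.map (up x)) (Multiset.replicate n 1) =
        rt2 ^ n * rt2⁻¹ ^ l.length * n.factorial * pp (l.map (up x)) := by
      intro x hx
      rw [List.mem_toFinset] at hx
      have hx0 : 0 < x := Nat.pos_of_ne_zero fun e => h0 (e ▸ hx)
      have h1 := sum_up x l hd hx0 hx
      rw [ih _ (by omega), List.length_map]
      · rw [List.pairwise_map]
        refine (hp.and hd).imp fun {a b} hab => ?_
        have h1 : a ≥ b := hab.1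
        have h2 : a ≠ b := hab.2
        unfold up
        split_ifs <;> omega
      · refine le_trans ?_ (List.nodup_iff_count_le_one.1 hd x)
        rw [List.count_eq_countP, List.count_eq_countP, List.countP_map]
        refine List.countP_mono_left fun y hy hu => ?_
        have hy0 : y ≠ 0 := fun e => h0 (e ▸ hy)
        simp only [Function.comp, up, beq_iff_eq] at hu ⊢
        split_ifs at hu with h
        · exact h
        · exact absurd hu hy0
    rw [h, Pi.smul_apply, Finset.sum_apply, Finset.sum_congr rfl e, ← Finset.mul_sum,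
      pp_rec l hd h0, hs, Nat.factorial_succ, smul_eq_mul]
    push_cast
    ring

lemma prod_ins (f : ℕ → ℕ → ℕ) (j : ℕ) (A : Finset ℕ) (h : ∀ a ∈ A, a < j) :
    ∏ a ∈ insert j A, ∏ b ∈ insert j A with a < b, f a b =
      (∏ a ∈ A, f a j) * ∏ a ∈ A, ∏ b ∈ A with a < b, f a b := by
  have hj : j ∉ A := fun e => lt_irrefl _ (h j e)
  rw [Finset.prod_insert hj, ← Finset.prod_mul_distrib, Finset.filter_insert, if_neg (lt_irrefl _),
    Finset.filter_eq_empty_iff.2 fun a ha => not_lt.2 (h a ha).le, Finset.prod_empty, one_mul]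
  refine Finset.prod_congr rfl fun a ha => ?_
  rw [Finset.filter_insert, if_pos (h a ha),
    Finset.prod_insert fun e => hj (Finset.mem_of_mem_filter _ e)]

lemma pp_Hs (l : List ℕ) (hp : l.Pairwise (· > ·)) :
    pp l * (Hs l.toFinset : K) = (Vd l.toFinset : K) := by
  induction l with
  | nil => simp [pp, Hs, Vd]
  | cons j l ih =>
    rw [List.pairwise_cons] at hp
    have h : ∀ a ∈ l.toFinset, a < j := fun a ha => hp.1 a (List.mem_toFinset.1 ha)
    have hj : j ∉ l.toFinset := fun e => lt_irrefl _ (h j e)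
    have hd : l.Nodup := hp.2.imp fun hab => ne_of_gt hab
    have ih := ih hp.2
    rw [Hs] at ih
    rw [List.toFinset_cons, Hs, Vd, prod_ins (fun a b => a + b) j _ h,
      prod_ins (fun a b => b - a) j _ h, Finset.prod_insert hj, pp, ← List.prod_toFinset _ hd,
      ← Vd, Nat.cast_mul _ (Vd _), ← ih]
    have h1 : (j.factorial : K) ≠ 0 := by exact_mod_cast j.factorial_ne_zero
    have e : (∏ a ∈ l.toFinset, w j a) * ((∏ a ∈ l.toFinset, (a + j) : ℕ) : K) =
        ((∏ a ∈ l.toFinset, (j - a) : ℕ) : K) := by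
      rw [Nat.cast_prod, Nat.cast_prod, ← Finset.prod_mul_distrib]
      refine Finset.prod_congr rfl fun a ha => ?_
      have := h a ha
      have h2 : (j : K) + a ≠ 0 := by exact_mod_cast (show j + a ≠ 0 by omega)
      rw [w, Nat.cast_sub this.le, Nat.cast_add, add_comm (a : K), div_mul_cancel₀ _ h2]
    rw [← e]
    simp only [Nat.cast_mul]
    field_simp

end FkC

theorem fkC (hav : AvSt) (hfD : FkDSt) : FkCSt := by
  intro l hp h0
  have hle : l.length ≤ l.sum := List.length_le_sum_of_one_le l fun i hi =>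
    Nat.pos_of_ne_zero fun e => h0 (e ▸ hi)
  rw [FkC.main hav hfD l.sum l rfl (hp.imp fun h => le_of_lt h)
    (by rw [List.count_eq_zero.2 h0]; omega), mul_assoc, FkC.pp_Hs l hp,
    pow_sub₀ _ FkC.rt2_ne hle, inv_pow]

end Pool.Agent.Lib.MP_1ae3da_al.GM
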