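import Pool.Agent.Lib.MP_1ae3da_al.GGlM1

/-! The global count for the even part, spin characters. -/

namespace Pool.Agent.Lib.MP_1ae3da_al.GM

open Equiv Module

namespace GlM

set_option linter.unusedSectionVars false

variable {Ω : Type} [Fintype Ω] [DecidableEq Ω] {X X0 : Type} [Group X] [Group X0]
  {C : Cover Ω X} {Γ : Gr X X0} {τ : X → K}

/-- spin functions on the even part. -/
def Spn (Γ : Gr X X0) (θ : X0 → K) : Prop := ∀ x y, Γ.ι y = Γ.z * Γ.ι x → θ y = -θ x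

lemma Spn.pow {θ : X0 → K} (h : Spn Γ θ) (j : ℕ) :
    ∀ x y, Γ.ι y = Γ.z ^ j * Γ.ι x → θ y = uK ((-1) ^ j) * θ x := by
  obtain ⟨z0, hz⟩ := (Γ.rng Γ.z).1 Γ.zs
  induction j with
  | zero => intro x y e; rw [pow_zero, one_mul] at e; simp [Γ.inj e]
  | succ j ih =>
    intro x y e
    rw [h (z0 ^ j * x) y (by rw [e, map_mul, map_pow, hz, pow_succ', mul_assoc]),
      ih x (z0 ^ j * x) (by rw [map_mul, map_pow, hz]), pow_succ, uK_mul]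
    simp

lemma Spn.cj {θ : X0 → K} (h : Spn Γ θ) (t : X) : Spn Γ (θ ∘ Γ.cj t) := by
  intro x y e
  refine h _ _ ?_
  rw [Γ.ι_cj, Γ.ι_cj, e, ← mul_assoc t, ← Γ.zc t]
  simp only [mul_assoc]

lemma cj_pow (t : X) (x : X0) (s : ℕ) : Γ.cj t (x ^ s) = Γ.cj t x ^ s := map_pow (Γ.cjA t) x s

lemma cj_one (t : X) : Γ.cj t 1 = 1 := map_one (Γ.cjA t)

variable (C Γ τ) in
/-- `θ` is one of the two characters attached to `A`. -/
structure P (t : X) (A : Finset ℕ) (θ : X0 → K) : Prop where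
  irr : θ ∈ Irr X0
  spn : Spn Γ θ
  ne : θ ∘ Γ.cj t ≠ θ
  res : ∃ u : ℤˣ, ∀ x, U C τ A (Γ.ι x) = uK u * (θ x + θ (Γ.cj t x))
  wit : ∃ x, ty (C.π (Γ.ι x)) = A.val ∧ θ (Γ.cj t x⁻¹) ≠ θ x⁻¹

lemma cj_cj (hx : IxG Γ) {θ : X0 → K} (hc : Cl θ) {t : X} (ht : Γ.sg t = -1) (x : X0) :
    θ (Γ.cj t (Γ.cj t x)) = θ x := by
  have h1 := hx.cj_mul θ t t
  rw [hx.cj_even θ hc (t * t) (by rw [map_mul, ht]; simp)] at h1
  exact congrFun h1 x

lemma P.cj (hx : IxG Γ) {t : X} (ht : Γ.sg t = -1) {A : Finset ℕ} {θ : X0 → K} (hc : Cl θ)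
    (h : P C Γ τ t A θ) : P C Γ τ t A (θ ∘ Γ.cj t) := by
  obtain ⟨m, hm⟩ := h.irr
  obtain ⟨u, hu⟩ := h.res
  obtain ⟨x, h1, h2⟩ := h.wit
  refine ⟨⟨m, hx.cj_irr m θ t hm⟩, h.spn.cj t, fun e => h.ne ?_, ⟨u, fun y => ?_⟩, x, h1, ?_⟩
  · rw [← e]; funext y; exact cj_cj hx hc ht y
  · rw [hu y]; simp only [Function.comp, cj_cj hx hc ht, add_comm]
  · simp only [Function.comp, cj_cj hx hc ht]; exact h2.symm

lemma delta (hx : IxG Γ) {θ : X0 → K} (hc : Cl θ) {t : X} (ht : Γ.sg t = -1) (a b : X)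
    (hab : Γ.sg b = -Γ.sg a) (x : X0) :
    θ (Γ.cj a x) - θ (Γ.cj b x) = uK (Γ.sg a) * (θ x - θ (Γ.cj t x)) := by
  rcases Int.units_eq_one_or (Γ.sg a) with h | h
  · have e1 := congrFun (hx.cj_even θ hc a h) x
    have e2 := congrFun (hx.cj_odd θ hc b t (by rw [hab, h, ht])) x
    simp only [Function.comp] at e1 e2
    rw [e1, e2, h]; simp
  · have e1 := congrFun (hx.cj_even θ hc b (by rw [hab, h]; simp)) x
    have e2 := congrFun (hx.cj_odd θ hc a t (by rw [h, ht])) x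
    simp only [Function.comp] at e1 e2
    rw [e1, e2, h]; simp

section main
variable [Fintype X] [Fintype X0]

lemma exP (hpa : PermASt) (hcb : CbSt) (hlat : LatSt) (he0 : Ext0St) (hspin : SpinSt)
    (hav : AvSt) (hfB : FkBSt) (hΓ : Γ.toSg = C.toSg) (hτ : Tau C τ) {t : X} (ht : Γ.sg t = -1)
    {A : Finset ℕ} (h0 : 0 ∉ A) (hs : A.sum id = Fintype.card Ω)
    (he : Even (Fintype.card Ω + A.card)) : ∃ θ, P C Γ τ t A θ := by
  have h1 := U_ls hpa hlat hspin hτ h0 hs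
  rw [← hΓ] at h1
  obtain ⟨θ, a, b, c⟩ := he0 X X0 Γ _ _ (h1.1 he.neg_one_pow) (U_one hpa hcb hav hfB hτ h0 hs)
  exact ⟨θ, a, b, (c t ht).1, (c t ht).2.1, (c t ht).2.2⟩

lemma P.uniq (hpa : PermASt) (hcb : CbSt) (hlat : LatSt) (hspin : SpinSt)
    (hav : AvSt) (hfB : FkBSt) (hΓ : Γ.toSg = C.toSg) (hτ : Tau C τ) {t : X}
    {A B : Finset ℕ} (h0 : 0 ∉ A) (hs : A.sum id = Fintype.card Ω) (k0 : 0 ∉ B)
    (ks : B.sum id = Fintype.card Ω) {θ : X0 → K} (hA : P C Γ τ t A θ) (hB : P C Γ τ t B θ) :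
    A = B := by
  by_contra hne
  obtain ⟨u, hu⟩ := hA.res
  obtain ⟨v, hv⟩ := hB.res
  have e : U C τ A = (uK u * uK v) • U C τ B := by
    funext x
    rcases Int.units_eq_one_or (Γ.sg x) with h | h
    · obtain ⟨y, rfl⟩ := (Γ.rng x).1 h
      rw [Pi.smul_apply, smul_eq_mul, hu, hv]
      linear_combination (-uK u * (θ y + θ (Γ.cj t y))) * uK_sq v
    · rw [hΓ] at h
      rw [Pi.smul_apply, (hlat X C.toSg).ev _ _ _ (U_ls hpa hlat hspin hτ h0 hs) x h,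
        (hlat X C.toSg).ev _ _ _ (U_ls hpa hlat hspin hτ k0 ks) x h, smul_zero]
  have h1 := U_zero hpa hcb hav hfB hτ h0 hs k0 ks hne
  rw [e, ip_smul_left, U_one hpa hcb hav hfB hτ k0 ks, mul_one] at h1
  exact mul_ne_zero (uK_ne u) (uK_ne v) h1

lemma P.deg (hpa : PermASt) (hfC : FkCSt) (hsh : ShSt) (hτ : Tau C τ) {t : X}
    {A : Finset ℕ} (h0 : 0 ∉ A) (hs : A.sum id = Fintype.card Ω)
    (he : Even (Fintype.card Ω + A.card)) {θ : X0 → K} (h : P C Γ τ t A θ) {p : ℕ}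
    (hp : p.Prime) (h2 : p ≠ 2) : θ ∈ IrrP X0 p ↔ A ∈ STp p (Fintype.card Ω) := by
  obtain ⟨m, hm⟩ := h.irr
  obtain ⟨u, hu⟩ := h.res
  obtain ⟨r, hr⟩ : ∃ r, Fintype.card Ω - A.card = 2 * r := by
    obtain ⟨c, hc⟩ := he
    exact ⟨(Fintype.card Ω - A.card) / 2, by omega⟩
  have h1 := U_deg hpa hfC hτ h0 hs
  have h3 := hu 1
  rw [map_one, cj_one, hm.one] at h3
  rw [h3, hr, pow_mul, pow_two, rt2_mul] at h1
  have h4 : (u : ℤ) * ((2 ^ 1 * m * Hs A : ℕ) : ℤ) =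
      ((2 ^ r * ((Fintype.card Ω).factorial * Vd A) : ℕ) : ℤ) := by
    apply Int.cast_injective (α := K)
    push_cast
    rw [uK] at h1
    linear_combination h1
  have h5 := congrArg Int.natAbs h4
  rw [Int.natAbs_mul, Int.units_natAbs, one_mul, Int.natAbs_natCast, Int.natAbs_natCast] at h5
  have hv := val_iff hp h2 hm.pos (hsh.pos (A, ∅)).2.2.1
    (Nat.mul_pos (Nat.factorial_pos _) (hsh.pos (A, ∅)).2.1) h5
  constructor
  · rintro ⟨m', hm', hd⟩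
    have : m' = m := Nat.cast_injective (R := K) (hm'.one.symm.trans hm.one)
    exact ⟨h0, hs, hv.1 (this ▸ hd)⟩
  · exact fun hA => ⟨m, hm, hv.2 hA.2.2⟩

lemma gal0 (hch : ChSt) {θ : X0 → K} (h : θ ∈ Irr X0) {σ : Ga} {s : ℕ}
    (hs : Ex (Nat.card X) σ s) (Γ : Gr X X0) (x : X0) : σ (θ x) = θ (x ^ s) :=
  (hch.b X0).gal θ ((hch.a X0).ch_vc θ ((hch.a X0).irr_ch θ h)) σ _ s x Nat.card_pos
    (Γ.inj (by rw [map_pow, map_one, pow_card_eq_one'])) hs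

lemma cl0 (hch : ChSt) {θ : X0 → K} (h : θ ∈ Irr X0) : Cl θ :=
  (hch.a X0).cl θ ((hch.a X0).ch_vc θ ((hch.a X0).irr_ch θ h))

lemma P.gal (hch : ChSt) (hx : IxG Γ) (hsq : SqSt) (hpa : PermASt) (hτ : Tau C τ) {t : X}
    {A : Finset ℕ} {θ : X0 → K} (h : P C Γ τ t A θ) (σ : Ga) :
    ∃ t', σ ∘ θ = θ ∘ Γ.cj t' := by
  obtain ⟨s, hs⟩ := hsq.ex (Nat.card X) σ Nat.card_pos
  obtain ⟨m, hm⟩ := h.irr
  obtain ⟨u, hu⟩ := h.res
  have := hx.c2 θ h.irr (σ ∘ θ) ⟨m, hm.twist σ⟩ t (by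
    funext x
    simp only [Pi.add_apply, Function.comp, gal0 hch h.irr hs Γ]
    rw [← cj_pow]
    apply mul_left_cancel₀ (uK_ne u)
    rw [← hu, ← hu, map_pow, U_pow hpa hsq hτ A hs])
  rcases this with e | e
  · exact ⟨1, by rw [e, hx.cj_even θ (cl0 hch h.irr) 1 (map_one _)]⟩
  · exact ⟨t, e⟩

lemma P.eps (hch : ChSt) (hx : IxG Γ) (hsq : SqSt) (hpa : PermASt) (hpb : PermBSt) (hcb : CbSt)
    (huf : UfSt) (hΓ : Γ.toSg = C.toSg) {t : X} (ht : Γ.sg t = -1)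
    {A : Finset ℕ} {θ : X0 → K} (h : P C Γ τ t A θ) (σ : Ga) (t' : X)
    (e : σ ∘ θ = θ ∘ Γ.cj t') : Eps (Dm C.q (Fintype.card Ω) A.val) σ (Γ.sg t') := by
  obtain ⟨s, hs⟩ := hsq.ex (Nat.card X) σ Nat.card_pos
  obtain ⟨x0, h1, h2⟩ := h.wit
  have hc := cl0 hch h.irr
  have hz : Γ.z = C.z := congrArg Sg.z hΓ
  have hsg : ∀ x, Γ.sg x = Perm.sign (C.π x) := fun x => by rw [hΓ]; rfl
  set x := x0⁻¹ with hxd
  have hty : ty (C.π (Γ.ι x)) = A.val := by rw [hxd, map_inv, map_inv, (hpa Ω).inv, h1]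
  obtain ⟨g, -, j, hj⟩ := (hcb Ω X C).conj Finset.univ (Γ.ι x) (mem_univ C _) (Γ.ι x ^ s)
    (mem_univ C _) (by rw [(hpa Ω).tyI_univ, (hpa Ω).tyI_univ, ty_pow hpa hsq hs])
  have h3 := huf Ω X C (Γ.ι x) g j s _ σ Nat.card_pos pow_card_eq_one' hs hj
  have h4 : so (C.π (Γ.ι x)) (C.π g) = 1 :=
    (hpb Ω).strict _ _ s (by rw [hty]; exact A.nodup) (by
      rw [← map_inv, ← map_mul, ← map_mul, hj, map_mul, map_pow, C.πz, one_pow, one_mul, map_pow])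
  rw [hty, h4, ← hsg, ← hsg, Γ.sg_ι, if_pos rfl, mul_one] at h3
  have hι : Γ.ι (Γ.cj g x) = Γ.z ^ j * Γ.ι (x ^ s) := by rw [Γ.ι_cj, hj, hz, map_pow]
  have a1 := h.spn.pow j _ _ hι
  have a2 := (h.spn.cj t).pow j _ _ hι
  have a3 := congrFun (hx.cj_mul θ t g) x
  have a4 := delta hx hc ht g (t * g) (by rw [map_mul, ht]; simp) x
  have a5 := congrFun e x
  have a6 := congrFun e (Γ.cj t x)
  have a7 := congrFun (hx.cj_mul θ t' t) x
  have a8 := delta hx hc ht t' (t' * t) (by rw [map_mul, ht]; simp) x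
  simp only [Function.comp, gal0 hch h.irr hs Γ] at a2 a3 a5 a6 a7
  rw [← cj_pow] at a6
  have hd : θ x - θ (Γ.cj t x) ≠ 0 := sub_ne_zero.2 h2.symm
  have a9 : uK (Γ.sg g) = uK ((-1) ^ j) * uK (Γ.sg t') := by
    apply mul_right_cancel₀ hd
    rw [← a4, mul_assoc, ← a8, ← a3, ← a7, ← a5, ← a6, a1, a2]
    ring
  rw [← uK_mul] at a9
  rwa [uK_inj a9, ← mul_assoc, Int.units_mul_self, one_mul] at h3

lemma P.iff (hch : ChSt) (hx : IxG Γ) (hsq : SqSt) (hcmp : CmpSt) (hpa : PermASt)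
    (hpb : PermBSt) (hcb : CbSt) (huf : UfSt) (hΓ : Γ.toSg = C.toSg) (hτ : Tau C τ) {t : X}
    (ht : Γ.sg t = -1) {A : Finset ℕ} (h0 : 0 ∉ A) {θ : X0 → K} (h : P C Γ τ t A θ) (σ : Ga)
    (u : ℤˣ) : (∀ t', Γ.sg t' = u → σ ∘ θ = θ ∘ Γ.cj t') ↔
      Eps (Dm C.q (Fintype.card Ω) A.val) σ u := by
  constructor
  · intro H
    rcases Int.units_eq_one_or u with rfl | rfl
    · have := h.eps hch hx hsq hpa hpb hcb huf hΓ ht σ 1 (H 1 (map_one _))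
      rwa [map_one] at this
    · have := h.eps hch hx hsq hpa hpb hcb huf hΓ ht σ t (H t ht)
      rwa [ht] at this
  · intro H t' ht'
    obtain ⟨t'', e⟩ := h.gal hch hx hsq hpa hτ σ
    have := hsq.eps_uniq _ σ _ _ (hcmp.dm_ne _ _ _ h0)
      (h.eps hch hx hsq hpa hpb hcb huf hΓ ht σ t'' e) H
    rw [e, hx.cj_odd θ (cl0 hch h.irr) t'' t' (this.trans ht'.symm)]

lemma absH (Γ : Gr X X0) : AbsH Γ 0 ⊥ (Nat.card X) ∅ where
  nrm := inferInstance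
  ev r hr := by rw [Subgroup.mem_bot.1 hr, map_one]
  hG := by
    rintro χ ⟨m, hm⟩
    refine iff_of_true ⟨m, hm, fun h => hm.pos.ne' (Nat.eq_zero_of_zero_dvd h)⟩ fun r hr x => ?_
    rw [Subgroup.mem_bot.1 hr, one_mul]
  hG0 := by
    rintro χ ⟨m, hm⟩
    refine iff_of_true ⟨m, hm, fun h => hm.pos.ne' (Nat.eq_zero_of_zero_dvd h)⟩
      fun r hr x y e => ?_
    rw [Subgroup.mem_bot.1 hr, one_mul] at e
    rw [Γ.inj e]
  pos := Nat.card_pos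
  exp _ := pow_card_eq_one'
  stab _ := le_rfl

/-- strict partitions of even type. -/
abbrev St (n : ℕ) : Type := {A : Finset ℕ // 0 ∉ A ∧ A.sum id = n ∧ Even (n + A.card)}

instance (n : ℕ) : Finite (St n) :=
  ((fin_st n).subset (t := {A : Finset ℕ | 0 ∉ A ∧ A.sum id = n ∧ Even (n + A.card)})
    fun _ h => h.2.1).to_subtype

lemma rank_le (hsq : SqSt) (hcmp : CmpSt) (hpa : PermASt) (hpb : PermBSt) (hcb : CbSt)
    (huf : UfSt) (hΓ : Γ.toSg = C.toSg) :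
    finrank K (Γ.Sp ⊥ (-1) 1 (fun x => Γ.sg x = 1) (Nat.card X) ∅ 1) ≤
      Nat.card (St (Fintype.card Ω)) := by
  have hz : Γ.z = C.z := congrArg Sg.z hΓ
  have hsg : ∀ x, Γ.sg x = Perm.sign (C.π x) := fun x => by rw [hΓ]; rfl
  have ex : ∀ A : St (Fintype.card Ω), ∃ x : X, ty (C.π x) = A.1.val := fun A => by
    obtain ⟨x, -, hx⟩ := (hcb Ω X C).ex Finset.univ A.1.val A.2.1
      (by have := A.2.2.1; rwa [Finset.sum, Multiset.map_id] at this)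
    exact ⟨x, by rwa [(hpa Ω).tyI_univ] at hx⟩
  choose xa hxa using ex
  have := Fintype.ofFinite (St (Fintype.card Ω))
  rw [Nat.card_eq_fintype_card (α := St _), ← Module.finrank_fintype_fun_eq_card K]
  refine LinearMap.finrank_le_finrank_of_injective
    (f := (LinearMap.funLeft K K xa).comp (Submodule.subtype _)) ?_
  rw [injective_iff_map_eq_zero]
  rintro ⟨f, h1, h2, h0⟩ hf
  have hf' : ∀ A, f (xa A) = 0 := fun A => congrFun hf A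
  refine Subtype.ext (funext fun x => ?_)
  change f x = 0
  by_cases hx : Γ.sg x = 1
  swap
  · exact h2 x hx
  by_cases hn : (ty (C.π x)).Nodup
  · have hev : Even (Fintype.card Ω + (ty (C.π x)).card) := by
      rw [hsg, (hpa Ω).sign] at hx
      exact (neg_one_pow_eq_one_iff_even (by decide)).1 hx
    let A : St (Fintype.card Ω) := ⟨⟨ty (C.π x), hn⟩, (hpa Ω).pos _, by
      rw [Finset.sum, Multiset.map_id]; exact (hpa Ω).sum _, hev⟩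
    obtain ⟨g, -, j, hj⟩ := (hcb Ω X C).conj Finset.univ (xa A) (mem_univ C _) x
      (mem_univ C _) (by rw [(hpa Ω).tyI_univ, (hpa Ω).tyI_univ, hxa])
    rw [h1 (xa A) x _ ⟨1, Subgroup.one_mem _, j, g, by
      rw [hj, one_mul, ← mul_assoc, hz, zj_sq, one_mul], rfl⟩, hf', mul_zero]
  · obtain ⟨g0, e1, e2⟩ := (hpb Ω).nonstrict _ hn
    obtain ⟨g, rfl⟩ := C.surj g0
    obtain ⟨j, hj⟩ := (hcb Ω X C).lift x (g * x * g⁻¹) (by rw [map_mul, map_mul, map_inv, e1])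
    have h3 := huf Ω X C x g j 1 _ _ Nat.card_pos pow_card_eq_one' (hsq.refl _)
      (by rw [hj, pow_one])
    have h4 := hsq.eps_refl _ _ (hcmp.dm_ne _ _ _ ((hpa Ω).pos _)) h3
    rw [e2, ← hsg, ← hsg, if_pos hx] at h4
    have h5 : (-1 : ℤˣ) ^ j * Γ.sg g ^ 1 = -1 := by
      rw [mul_neg_one, neg_mul, neg_eq_iff_eq_neg] at h4
      rwa [pow_one]
    have h6 := h1 x x _ ⟨1, Subgroup.one_mem _, j, g, by
      rw [hj, one_mul, ← mul_assoc, hz, zj_sq, one_mul], rfl⟩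
    rw [h5, uK_neg, uK_one] at h6
    have h7 : (2 : K) * f x = 0 := by linear_combination h6
    exact (mul_eq_zero.1 h7).resolve_left two_ne_zero

lemma P.mem (hch : ChSt) (hx : IxG Γ) {t : X} (ht : Γ.sg t = -1) {A : Finset ℕ} {θ : X0 → K}
    (h : P C Γ τ t A θ) (p : ℕ) (S : Set Ga) (ε : Ga → ℤˣ) :
    θ ∈ Γ.IM p S (-1) ε ↔ θ ∈ IrrP X0 p ∧
      ∀ σ ∈ S, ∀ t', Γ.sg t' = ε σ → σ ∘ θ = θ ∘ Γ.cj t' := by
  refine ⟨fun H => ⟨H.1, H.2.2.2⟩, fun H => ⟨H.1, fun x y e => ?_, fun t' ht' => ?_, H.2⟩⟩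
  · rw [h.spn x y e]; simp
  · rw [hx.cj_odd θ (cl0 hch h.irr) t' t (ht'.trans ht.symm)]; exact h.ne

end main

end GlM

open GlM in
theorem glmM (hch : ChSt) (hix : IxSt) (habM : AbsMSt) (hsq : SqSt) (hcmp : CmpSt)
    (hpa : PermASt) (hpb : PermBSt) (hcb : CbSt) (htau : TauSt) (huf : UfSt) (hlat : LatSt)
    (he0 : Ext0St) (hspin : SpinSt) (hav : AvSt) (hfB : FkBSt) (hfC : FkCSt) (hsh : ShSt) :
    GlmMSt := by
  intro Ω _ _ X X0 _ _ _ C Γ hΓ p S hp h2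
  have : Finite X0 := Finite.of_injective _ Γ.inj
  have := Fintype.ofFinite X
  have := Fintype.ofFinite X0
  obtain ⟨τ, hτ⟩ := htau Ω X C
  obtain ⟨t, ht⟩ := Γ.odd
  have hx := hix X X0 Γ
  choose th hth using fun A : St (Fintype.card Ω) =>
    exP hpa hcb hlat he0 hspin hav hfB hΓ hτ ht A.2.1 A.2.2.1 A.2.2.2
  let Φ : St (Fintype.card Ω) × Bool → X0 → K := fun w =>
    if w.2 = true then th w.1 else th w.1 ∘ Γ.cj t
  have hΦ : ∀ w, P C Γ τ t w.1.1 (Φ w) := by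
    rintro ⟨A, _ | _⟩
    · exact (hth A).cj hx ht (cl0 hch (hth A).irr)
    · exact hth A
  have inj : Function.Injective Φ := by
    rintro ⟨A, a⟩ ⟨B, b⟩ e
    have hAB : A = B := Subtype.ext (P.uniq hpa hcb hlat hspin hav hfB hΓ hτ A.2.1 A.2.2.1 B.2.1
      B.2.2.1 (hΦ (A, a)) (e ▸ hΦ (B, b)))
    subst hAB
    rcases a with _ | _ <;> rcases b with _ | _
    · rfl
    · exact absurd e (hth A).ne
    · exact absurd e.symm (hth A).ne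
    · rfl
  have irr0 : ∀ θ ∈ Irr X0, θ ∈ IrrP X0 0 := fun θ ⟨m, hm⟩ =>
    ⟨m, hm, fun h => hm.pos.ne' (Nat.eq_zero_of_zero_dvd h)⟩
  have all : Set.range Φ = Γ.IM 0 ∅ (-1) 1 := by
    refine Set.eq_of_subset_of_ncard_le ?_ ?_
      ((hch.a X0).fin.subset fun θ h => h.1.imp fun _ k => k.1)
    · rintro _ ⟨w, rfl⟩
      exact ((hΦ w).mem hch hx ht _ _ _).2 ⟨irr0 _ (hΦ w).irr, fun _ h => h.elim⟩
    · rw [habM X X0 Γ 0 ⊥ _ ∅ (absH Γ) (-1) 1 ⟨fun θ h => ⟨1, h⟩, fun θ h => ⟨1, h⟩⟩,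
        ← Nat.card_coe_set_eq, Nat.card_range_of_injective inj, Nat.card_prod,
        Nat.card_eq_fintype_card (α := Bool), Fintype.card_bool, mul_comm]
      exact Nat.mul_le_mul_right 2 (rank_le hsq hcmp hpa hpb hcb huf hΓ)
  have get : ∀ (S : Set Ga) ε, ∀ θ ∈ Γ.IM p S (-1) ε, ∃ w, Φ w = θ := fun S ε θ h => by
    have : θ ∈ Γ.IM 0 ∅ (-1) 1 :=
      ⟨irr0 θ (h.1.imp fun _ k => k.1), h.2.1, h.2.2.1, fun _ k => k.elim⟩
    rwa [← all] at this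
  have mem : ∀ ε w, Φ w ∈ Γ.IM p S (-1) ε ↔ w.1.1 ∈ STp p (Fintype.card Ω) ∧
      ∀ σ ∈ S, Eps (Dm C.q (Fintype.card Ω) w.1.1.val) σ (ε σ) := fun ε w => by
    rw [(hΦ w).mem hch hx ht, (hΦ w).deg hpa hfC hsh hτ w.1.2.1 w.1.2.2.1 w.1.2.2.2 hp h2]
    exact and_congr_right fun _ => forall₂_congr fun σ _ =>
      (hΦ w).iff hch hx hsq hcmp hpa hpb hcb huf hΓ hτ ht w.1.2.1 σ _
  refine ⟨fun θ h => ?_, fun ε => ?_⟩
  · obtain ⟨w, rfl⟩ := get _ _ θ h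
    choose ε hε using hsq.eps_ex (Dm C.q (Fintype.card Ω) w.1.1.val)
    exact ⟨ε, (mem ε w).2 ⟨((hΦ w).deg hpa hfC hsh hτ w.1.2.1 w.1.2.2.1 w.1.2.2.2 hp h2).1 h.1,
      fun σ _ => hε σ⟩⟩
  · let Ψ : {A // A ∈ STp p (Fintype.card Ω) ∧ Even (Fintype.card Ω + A.card) ∧
        ∀ σ ∈ S, Eps (Dm C.q (Fintype.card Ω) A.val) σ (ε σ)} × Bool → X0 → K := fun w =>
      Φ (⟨w.1.1, w.1.2.1.1, w.1.2.1.2.1, w.1.2.2.1⟩, w.2)
    have inj' : Function.Injective Ψ := by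
      rintro ⟨A, a⟩ ⟨B, b⟩ e
      have := inj e
      simp only [Prod.mk.injEq, Subtype.mk.injEq] at this
      exact Prod.ext (Subtype.ext this.1) this.2
    have rg : Set.range Ψ = Γ.IM p S (-1) ε := by
      ext θ
      constructor
      · rintro ⟨w, rfl⟩
        exact (mem ε _).2 ⟨w.1.2.1, w.1.2.2.2⟩
      · intro h
        obtain ⟨w, rfl⟩ := get _ _ θ h
        exact ⟨(⟨w.1.1, ((mem ε w).1 h).1, w.1.2.2.2, ((mem ε w).1 h).2⟩, w.2), rfl⟩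
    rw [← rg, ← Nat.card_coe_set_eq, Nat.card_range_of_injective inj', Nat.card_prod,
      Nat.card_eq_fintype_card (α := Bool), Fintype.card_bool, mul_comm]

end Pool.Agent.Lib.MP_1ae3da_al.GM
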