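import Pool.Agent.Lib.MP_1ae3da_al.GT

/-! The global count for the characters with the central element in the kernel. -/

namespace Pool.Agent.Lib.MP_1ae3da_al.GM

open Equiv

namespace GlP

lemma not_int (a : K) (h : (a + a) * (a + a) = 1) : ¬ IsIntegral ℤ a := by
  intro ha
  have h1 : a * a = algebraMap ℚ K (1 / 4) := by
    rw [map_div₀, map_one, map_ofNat, eq_div_iff (by norm_num)]
    linear_combination h
  have h2 : IsIntegral ℤ (algebraMap ℚ K (1 / 4)) := h1 ▸ ha.mul ha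
  rw [isIntegral_algebraMap_iff (algebraMap ℚ K).injective] at h2
  obtain ⟨y, hy⟩ := IsIntegrallyClosed.isIntegral_iff.1 h2
  have h3 : (4 * y : ℤ) = 1 := by
    have : ((4 * y : ℤ) : ℚ) = ((1 : ℤ) : ℚ) := by
      have hy' : (y : ℚ) = 1 / 4 := by simpa using hy
      push_cast; rw [hy']; norm_num
    exact_mod_cast this
  omega

lemma swap_mem {n : ℕ} {w : Finset ℕ × Finset ℕ} (h : w ∈ PT n) : w.swap ∈ PT n := by
  obtain ⟨h1, h2⟩ := h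
  refine ⟨h1.symm, ?_⟩
  simp only [Prod.fst_swap, Prod.snd_swap]
  omega

lemma hk_zero (A : Finset ℕ) : 0 ∉ hk A := by simp [hk]

lemma hk_odd (A : Finset ℕ) : ∀ m ∈ hk A, Odd m := by
  intro m hm
  obtain ⟨a, _, rfl⟩ := Multiset.mem_map.1 hm
  exact odd_two_mul_add_one a

lemma hk_nodup (A : Finset ℕ) : (hk A).Nodup :=
  A.nodup.map fun a b h => by simpa using h

lemma hk_sum {n : ℕ} {A : Finset ℕ} (h : (A, A) ∈ PT n) : (hk A).sum = n := by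
  have h2 := h.2
  simp only at h2
  have : (hk A).sum = ∑ a ∈ A, (2 * a + 1) := rfl
  rw [this, Finset.sum_add_distrib, ← Finset.mul_sum, ← h2]
  simp [two_mul]

/-- the data of the statement. -/
structure Da {Ω : Type} [Fintype Ω] [DecidableEq Ω] {X X0 : Type} [Group X] [Group X0]
    (C : Cover Ω X) (Γ : Gr X X0) (c : Finset ℕ × Finset ℕ → Perm Ω → K) : Prop where
  hch : ChSt
  hix : IxG Γ
  hsq : SqSt
  hcmp : CmpSt
  hpa : PermA Ω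
  hpb : PermB Ω
  hcb : CbC C
  huf : UfSt
  hsh : ShSt
  eq : Γ.toSg = C.toSg
  bij : Set.BijOn c (PT (Fintype.card Ω)) (Irr (Perm Ω))
  pr : ∀ w ∈ PT (Fintype.card Ω),
      c w 1 * (Hn w : K) = ((Fintype.card Ω).factorial * (Vd w.1 * Vd w.2) : ℕ) ∧
      (∀ g, c w.swap g = uK (Perm.sign g) * c w g) ∧ (∀ g, ∃ m : ℤ, c w g = m) ∧
      (w.2 = w.1 → ∀ g, ty g = hk w.1 → c w g * c w g = 1)

variable {Ω : Type} [Fintype Ω] [DecidableEq Ω] {X X0 : Type} [Group X] [Group X0] [Finite X]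
  {C : Cover Ω X} {Γ : Gr X X0} {c : Finset ℕ × Finset ℕ → Perm Ω → K}

namespace Da

omit [Finite X] in
lemma z (D : Da C Γ c) : Γ.z = C.z := congrArg Sg.z D.eq

omit [Finite X] in
lemma sg (D : Da C Γ c) (x : X) : Γ.sg x = Perm.sign (C.π x) := by
  rw [D.eq]; rfl

lemma irr (D : Da C Γ c) {w} (hw : w ∈ PT (Fintype.card Ω)) : c w ∘ C.π ∈ Irr X := by
  haveI := Fintype.ofFinite X
  obtain ⟨m, hm⟩ := D.bij.mapsTo hw
  exact ⟨m, (D.hch.h X (Perm Ω) C.π).infl C.surj m _ hm⟩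

omit [Finite X] in
lemma zinv (D : Da C Γ c) (w) (x : X) : (c w ∘ C.π) (Γ.z * x) = (c w ∘ C.π) x := by
  simp [D.z, C.πz]

lemma ex (D : Da C Γ c) {χ : X → K} (h : χ ∈ Irr X) (hz : ∀ x, χ (Γ.z * x) = χ x) :
    ∃ w ∈ PT (Fintype.card Ω), c w ∘ C.π = χ := by
  haveI := Fintype.ofFinite X
  obtain ⟨m, hm⟩ := h
  obtain ⟨ψ, h1, h2⟩ := (D.hch.h X (Perm Ω) C.π).defl C.surj m χ hm fun r x hr => by
    rcases (C.ker r).1 hr with rfl | rfl
    · rw [one_mul]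
    · rw [← D.z, hz]
  obtain ⟨w, hw, rfl⟩ := D.bij.surjOn ⟨m, h1⟩
  exact ⟨w, hw, h2.symm⟩

omit [Finite X] in
lemma inj (D : Da C Γ c) : Set.InjOn (fun w => c w ∘ C.π) (PT (Fintype.card Ω)) :=
  fun _ hw _ hw' h => D.bij.injOn hw hw' (C.surj.injective_comp_right h)

omit [Finite X] in
lemma tw (D : Da C Γ c) {w} (hw : w ∈ PT (Fintype.card Ω)) :
    Γ.tw (c w ∘ C.π) = c w.swap ∘ C.π := by
  funext x
  simp only [Sg.tw, Function.comp_apply, D.sg, (D.pr w hw).2.1]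

omit [Finite X] in
lemma gal (D : Da C Γ c) {w} (hw : w ∈ PT (Fintype.card Ω)) (σ : Ga) :
    σ ∘ (c w ∘ C.π) = c w ∘ C.π := by
  funext x
  obtain ⟨m, hm⟩ := (D.pr w hw).2.2.1 (C.π x)
  simp only [Function.comp_apply, hm, map_intCast]

omit [Finite X] in
lemma deg (D : Da C Γ c) {w} (hw : w ∈ PT (Fintype.card Ω)) {p m : ℕ} (hp : p.Prime)
    (hm : 0 < m) (h : c w 1 = m) : ¬ p ∣ m ↔ w ∈ PTp p (Fintype.card Ω) := by
  haveI : Fact p.Prime := ⟨hp⟩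
  have h1 : m * Hn w = (Fintype.card Ω).factorial * (Vd w.1 * Vd w.2) := by
    have := (D.pr w hw).1
    rw [h] at this
    exact_mod_cast this
  have h2 := (D.hsh.pos w).1
  simp only [PTp, Set.mem_setOf_eq, hw, true_and]
  rw [← h1, padicValNat.mul hm.ne' h2.ne']
  constructor
  · intro k
    rw [padicValNat.eq_zero_of_not_dvd k, zero_add]
  · intro k hd
    have := one_le_padicValNat_of_dvd hm.ne' hd
    omega

lemma irrP (D : Da C Γ c) {w} (hw : w ∈ PT (Fintype.card Ω)) {p : ℕ} (hp : p.Prime) :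
    c w ∘ C.π ∈ IrrP X p ↔ w ∈ PTp p (Fintype.card Ω) := by
  haveI := Fintype.ofFinite X
  have key : ∀ m, IsIrr m (c w ∘ C.π) → (¬ p ∣ m ↔ w ∈ PTp p (Fintype.card Ω)) := by
    intro m hm
    exact D.deg hw hp hm.pos (by simpa using hm.one)
  constructor
  · rintro ⟨m, hm, h⟩
    exact (key m hm).1 h
  · intro h
    obtain ⟨m, hm⟩ := D.irr hw
    exact ⟨m, hm, (key m hm).2 h⟩

lemma ia (D : Da C Γ c) {p : ℕ} (hp : p.Prime) :
    (Γ.IA p 1).ncard = Nat.card (PTp p (Fintype.card Ω)) := by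
  have : Γ.IA p 1 = (fun w => c w ∘ C.π) '' PTp p (Fintype.card Ω) := by
    ext χ
    constructor
    · rintro ⟨h1, h2⟩
      obtain ⟨m, hm, hd⟩ := h1
      obtain ⟨w, hw, rfl⟩ := D.ex ⟨m, hm⟩ fun x => by simpa using h2 x
      exact ⟨w, (D.irrP hw hp).1 ⟨m, hm, hd⟩, rfl⟩
    · rintro ⟨w, hw, rfl⟩
      exact ⟨(D.irrP hw.1 hp).2 hw, fun x => by rw [uK_one, one_mul]; exact D.zinv w x⟩
  rw [this, Set.ncard_image_of_injOn (D.inj.mono fun w hw => hw.1), Nat.card_coe_set_eq]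

lemma iq (D : Da C Γ c) {p : ℕ} (S : Set Ga) (ε : Ga → ℤˣ) (χ : X → K) :
    χ ∈ Γ.IQ p S 1 ε ↔ χ ∈ Γ.IQ p ∅ 1 1 ∧ ∀ σ ∈ S, ε σ = 1 := by
  constructor
  · rintro ⟨h1, h2, h3, h4⟩
    refine ⟨⟨h1, h2, h3, by simp⟩, fun σ hσ => ?_⟩
    obtain ⟨m, hm, -⟩ := h1
    obtain ⟨w, hw, rfl⟩ := D.ex ⟨m, hm⟩ fun x => by simpa using h2 x
    by_contra k
    have := h4 σ hσ
    rw [if_neg k, D.gal hw] at this
    exact h3 this.symm
  · rintro ⟨⟨h1, h2, h3, -⟩, h4⟩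
    refine ⟨h1, h2, h3, fun σ hσ => ?_⟩
    obtain ⟨m, hm, -⟩ := h1
    obtain ⟨w, hw, rfl⟩ := D.ex ⟨m, hm⟩ fun x => by simpa using h2 x
    rw [if_pos (h4 σ hσ), D.gal hw]

end Da

/-- `θ` is a constituent of the self associate character attached to `A`. -/
structure Att (C : Cover Ω X) (Γ : Gr X X0) (c : Finset ℕ × Finset ℕ → Perm Ω → K) (t : X)
    (θ : X0 → K) (A : Finset ℕ) : Prop where
  irr : θ ∈ Irr X0
  mem : (A, A) ∈ PT (Fintype.card Ω)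
  res : (c (A, A) ∘ C.π) ∘ Γ.ι = θ + θ ∘ Γ.cj t
  ne : θ ∘ Γ.cj t ≠ θ

namespace Da

lemma cl (D : Da C Γ c) {θ : X0 → K} (h : θ ∈ Irr X0) : θ ∈ VC X0 ∧ Cl θ := by
  haveI : Finite X0 := Finite.of_injective _ Γ.inj
  haveI := Fintype.ofFinite X0
  have := (D.hch.a X0).ch_vc _ ((D.hch.a X0).irr_ch _ h)
  exact ⟨this, (D.hch.a X0).cl _ this⟩

omit [Finite X] in
lemma att_of (D : Da C Γ c) [Finite X] {t : X} (ht : Γ.sg t = -1) {A : Finset ℕ}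
    (hA : (A, A) ∈ PT (Fintype.card Ω)) : ∃ θ, Att C Γ c t θ A := by
  obtain ⟨n, hn⟩ := D.irr hA
  obtain ⟨m, θ, h1, -, h2⟩ := D.hix.b1 n _ hn (D.tw hA)
  exact ⟨θ, ⟨m, h1⟩, hA, (h2 t ht).2, (h2 t ht).1⟩

lemma att_cj (D : Da C Γ c) {t : X} (ht : Γ.sg t = -1) {θ A} (h : Att C Γ c t θ A) :
    Att C Γ c t (θ ∘ Γ.cj t) A := by
  have h1 : (θ ∘ Γ.cj t) ∘ Γ.cj t = θ := by
    rw [D.hix.cj_mul, D.hix.cj_even θ (D.cl h.irr).2 _ (by simp [ht])]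
  obtain ⟨m, hm⟩ := h.irr
  exact ⟨⟨m, D.hix.cj_irr m θ t hm⟩, h.mem, by rw [h1, add_comm, h.res],
    by rw [h1]; exact h.ne.symm⟩

lemma att_uniq (D : Da C Γ c) {t : X} {θ A A'} (h : Att C Γ c t θ A) (h' : Att C Γ c t θ A') :
    A = A' := by
  have h1 : c (A', A') ∘ C.π = c (A, A) ∘ C.π := by
    rcases D.hix.c1 _ (D.irr h.mem) _ (D.irr h'.mem) (h'.res.trans h.res.symm) with k | k
    · exact k
    · rw [k, D.tw h.mem]; rfl
  exact (congrArg Prod.fst (D.inj h'.mem h.mem h1)).symm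

omit [Finite X] in
lemma att_two (D : Da C Γ c) {t : X} {θ θ' A} (h : Att C Γ c t θ A) (h' : Att C Γ c t θ' A) :
    θ' = θ ∨ θ' = θ ∘ Γ.cj t :=
  D.hix.c2 _ h.irr _ h'.irr t (h'.res.symm.trans h.res)

lemma att_ex (D : Da C Γ c) {t : X} (ht : Γ.sg t = -1) {θ : X0 → K} (h : θ ∈ Irr X0)
    (hz : ∀ x y, Γ.ι y = Γ.z * Γ.ι x → θ y = θ x) (hne : θ ∘ Γ.cj t ≠ θ) :
    ∃ A, Att C Γ c t θ A := by
  obtain ⟨m, hm⟩ := h
  obtain ⟨χ, h1, h2, h3⟩ := D.hix.b2 m θ hm t ht hne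
  have hodd : ∀ x, Γ.sg x = -1 → χ x = 0 := by
    intro x hx
    have := congrFun h2 x
    simp only [Sg.tw, hx, uK_neg, uK_one] at this
    linear_combination (-1 / 2 : K) * this
  have hzχ : ∀ x, χ (Γ.z * x) = χ x := by
    intro x
    rcases Int.units_eq_one_or (Γ.sg x) with hx | hx
    · obtain ⟨x0, rfl⟩ := (Γ.rng x).1 hx
      obtain ⟨y0, hy⟩ := (Γ.rng (Γ.z * Γ.ι x0)).1 (by rw [map_mul, Γ.zs, hx, mul_one])
      have e1 := congrFun h3 x0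
      have e2 := congrFun h3 y0
      simp only [Function.comp_apply, Pi.add_apply] at e1 e2
      rw [← hy, e1, e2, hz x0 y0 hy, hz (Γ.cj t x0) (Γ.cj t y0)]
      rw [Γ.ι_cj, Γ.ι_cj, hy, ← mul_assoc, ← Γ.zc t]
      simp only [mul_assoc]
    · rw [hodd x hx, hodd _ (by rw [map_mul, Γ.zs, hx, one_mul])]
  obtain ⟨w, hw, rfl⟩ := D.ex ⟨_, h1⟩ hzχ
  have h4 : w.swap = w := D.inj (swap_mem hw) hw ((D.tw hw).symm.trans h2)
  obtain ⟨A, B⟩ := w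
  obtain rfl : A = B := (congrArg Prod.snd h4)
  exact ⟨A, ⟨m, hm⟩, hw, h3, hne⟩

lemma att_gal (D : Da C Γ c) {t : X} {θ A} (h : Att C Γ c t θ A) (σ : Ga) :
    ∃ t', σ ∘ θ = θ ∘ Γ.cj t' := by
  haveI : Finite X0 := Finite.of_injective _ Γ.inj
  haveI := Fintype.ofFinite X0
  obtain ⟨m, hm⟩ := h.irr
  have h1 : σ ∘ θ + (σ ∘ θ) ∘ Γ.cj t = θ + θ ∘ Γ.cj t := by
    rw [← h.res, ← D.gal h.mem σ, Function.comp_assoc σ (c (A, A) ∘ C.π), h.res]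
    funext x; simp
  rcases D.hix.c2 _ h.irr _ ⟨m, hm.twist σ⟩ t h1 with k | k
  · exact ⟨1, by rw [k, D.hix.cj_even θ (D.cl h.irr).2 1 (map_one _)]⟩
  · exact ⟨t, k⟩

omit [Finite X] in
lemma odd_lift (D : Da C Γ c) (g : Perm Ω) (hg : ∀ m ∈ ty g, Odd m) :
    ∃ (x : X) (d : ℕ), C.π x = g ∧ Odd d ∧ x ^ d = 1 := by
  have hd : Odd (ty g).prod :=
    Multiset.prod_induction _ _ (fun a b ha hb => ha.mul hb) odd_one hg
  have h1 : g ^ (ty g).prod = 1 := by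
    rw [← orderOf_dvd_iff_pow_eq_one, ← Perm.lcm_cycleType, Multiset.lcm_dvd]
    intro b hb
    apply Multiset.dvd_prod
    rw [ty, Perm.parts_partition]
    exact Multiset.mem_add.2 (Or.inl hb)
  obtain ⟨x, rfl⟩ := C.surj g
  rcases (C.ker (x ^ (ty (C.π x)).prod)).1 (by rw [map_pow, h1]) with h | h
  · exact ⟨x, _, rfl, hd, h⟩
  · refine ⟨C.z * x, _, by rw [map_mul, C.πz, one_mul], hd, ?_⟩
    have hc : Commute C.z x := C.toSg.zc x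
    obtain ⟨k, hk⟩ := hd
    rw [hc.mul_pow, h, hk, pow_succ, pow_mul, sq, show C.z * C.z = 1 from C.toSg.zz, one_pow,
      one_mul]
    exact C.toSg.zz

lemma att_eps (D : Da C Γ c) {t : X} (ht : Γ.sg t = -1) {θ A} (h : Att C Γ c t θ A) (σ : Ga)
    (t' : X) (hσ : σ ∘ θ = θ ∘ Γ.cj t') :
    Eps (Dm C.q (Fintype.card Ω) (hk A)) σ (Γ.sg t') := by
  haveI : Finite X0 := Finite.of_injective _ Γ.inj
  haveI := Fintype.ofFinite X0
  obtain ⟨g, hg⟩ := D.hpa.ex (hk A) (hk_zero A) (hk_sum h.mem)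
  obtain ⟨x, d, rfl, hd, hx⟩ := D.odd_lift g (hg ▸ hk_odd A)
  have hs1 : Perm.sign (C.π x) = 1 := by
    have : Perm.sign (C.π x) ^ d = 1 := by rw [← map_pow, ← map_pow, hx, map_one, map_one]
    rcases Int.units_eq_one_or (Perm.sign (C.π x)) with k | k
    · exact k
    · rw [k, hd.neg_one_pow] at this
      exact absurd this (by decide)
  obtain ⟨x0, rfl⟩ := (Γ.rng x).1 (by rw [D.sg, hs1])
  obtain ⟨s, hs⟩ := D.hsq.ex d σ hd.pos
  have hcop : s.Coprime (orderOf (C.π (Γ.ι x0))) :=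
    (D.hsq.cop d σ s hd.pos hs).coprime_dvd_right
      (orderOf_dvd_of_pow_eq_one (by rw [← map_pow, hx, map_one]))
  obtain ⟨k, hk'⟩ := isConj_iff.1 ((D.hpa.conj _ _).2 (D.hpa.pow _ s hcop).symm)
  obtain ⟨h0, rfl⟩ := C.surj k
  obtain ⟨j, hj⟩ := D.hcb.lift (Γ.ι x0 ^ s) (h0 * Γ.ι x0 * h0⁻¹)
    (by rw [map_mul, map_mul, map_inv, hk', map_pow])
  have hzz : C.z * C.z = 1 := C.toSg.zz
  have hje : Even j := by
    by_contra hne
    obtain ⟨i, rfl⟩ := Nat.not_even_iff_odd.1 hne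
    have hc : Commute C.z (Γ.ι x0 ^ s) := C.toSg.zc _
    have e1 : (h0 * Γ.ι x0 * h0⁻¹) ^ d = 1 := by rw [conj_pow, hx]; simp
    rw [hj, pow_succ, pow_mul, sq, hzz, one_pow, one_mul, hc.mul_pow, ← pow_mul, mul_comm s,
      pow_mul, hx, one_pow, mul_one] at e1
    obtain ⟨i', rfl⟩ := hd
    rw [pow_succ, pow_mul, sq, hzz, one_pow, one_mul] at e1
    exact C.z_ne e1
  have hU := D.huf Ω X C (Γ.ι x0) h0 j s d σ hd.pos hx hs hj
  rw [hje.neg_one_pow, D.hpb.strict _ _ s (hg ▸ hk_nodup A) hk', if_pos hs1, one_mul, one_mul,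
    hg, ← D.sg] at hU
  have hj' : x0 ^ s = Γ.cj h0 x0 := by
    apply Γ.inj
    obtain ⟨i, rfl⟩ := hje
    rw [Γ.ι_cj, hj, ← two_mul, pow_mul, sq, hzz, one_pow, one_mul, map_pow]
  have e2 : θ (Γ.cj t' x0) = θ (Γ.cj h0 x0) := by
    have := (D.hch.b X0).gal θ (D.cl h.irr).1 σ d s x0 hd.pos
      (Γ.inj (by rw [map_pow, hx, map_one])) hs
    rw [← hj', ← this]
    exact (congrFun hσ x0).symm
  have hne : θ (Γ.cj t x0) ≠ θ x0 := by
    intro k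
    have e3 := congrFun h.res x0
    simp only [Function.comp_apply, Pi.add_apply, k] at e3
    have e4 := (D.pr _ h.mem).2.2.2 rfl _ hg
    rw [e3] at e4
    exact not_int _ e4 ((D.hch.b X0).int θ (D.cl h.irr).1 x0)
  have hev : ∀ a, Γ.sg a = 1 → θ (Γ.cj a x0) = θ x0 := fun a ha =>
    congrFun (D.hix.cj_even θ (D.cl h.irr).2 a ha) x0
  have hod : ∀ a, Γ.sg a = -1 → θ (Γ.cj a x0) = θ (Γ.cj t x0) := fun a ha =>
    congrFun (D.hix.cj_odd θ (D.cl h.irr).2 a t (ha.trans ht.symm)) x0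
  have : Γ.sg t' = Γ.sg h0 := by
    rcases Int.units_eq_one_or (Γ.sg t') with k | k <;>
      rcases Int.units_eq_one_or (Γ.sg h0) with k' | k'
    · rw [k, k']
    · rw [hev _ k, hod _ k'] at e2; exact absurd e2.symm hne
    · rw [hod _ k, hev _ k'] at e2; exact absurd e2 hne
    · rw [k, k']
  rw [this]; exact hU

lemma att_z (D : Da C Γ c) {t : X} {θ A} (h : Att C Γ c t θ A) (x y : X0)
    (hy : Γ.ι y = Γ.z * Γ.ι x) : θ y = θ x := by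
  haveI : Finite X0 := Finite.of_injective _ Γ.inj
  haveI := Fintype.ofFinite X0
  obtain ⟨z0, hz0⟩ := (Γ.rng Γ.z).1 Γ.zs
  obtain ⟨ω, hω⟩ := (D.hch.b X0).cen θ h.irr z0
    (fun g => Γ.inj (by rw [map_mul, map_mul, hz0, Γ.zc]))
    (Γ.inj (by rw [map_mul, hz0, Γ.zz, map_one]))
  obtain rfl : y = z0 * x := Γ.inj (by rw [hy, map_mul, hz0])
  obtain ⟨m, hm⟩ := h.irr
  have c1 : Γ.cj t 1 = 1 := Γ.inj (by rw [Γ.ι_cj]; simp)
  have c2 : Γ.cj t z0 = z0 := Γ.inj (by rw [Γ.ι_cj, hz0, ← Γ.zc]; simp)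
  have e1 := congrFun h.res 1
  have e2 := congrFun h.res z0
  have e3 := hω 1
  simp only [Function.comp_apply, Pi.add_apply, c1, c2, hz0, D.z, C.πz, map_one, mul_one,
    hm.one] at e1 e2 e3
  rcases Int.units_eq_one_or ω with rfl | rfl
  · rw [hω, uK_one, one_mul]
  · exfalso
    rw [e1, e3, uK_neg, uK_one] at e2
    have : (m : K) = 0 := by linear_combination (1 / 4 : K) * e2
    exact hm.pos.ne' (Nat.cast_eq_zero.1 this)

lemma att_mem (D : Da C Γ c) {t : X} (ht : Γ.sg t = -1) {θ A} (h : Att C Γ c t θ A) {p : ℕ}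
    (hp : p.Prime) (hp2 : p ≠ 2) (S : Set Ga) (ε : Ga → ℤˣ) :
    θ ∈ Γ.IM p S 1 ε ↔ A ∈ CTp p (Fintype.card Ω) ∧
      ∀ σ ∈ S, Eps (Dm C.q (Fintype.card Ω) (hk A)) σ (ε σ) := by
  haveI : Finite X0 := Finite.of_injective _ Γ.inj
  haveI := Fintype.ofFinite X0
  have key : ∀ m, IsIrr m θ → (¬ p ∣ m ↔ A ∈ CTp p (Fintype.card Ω)) := by
    intro m hm
    have c1 : Γ.cj t 1 = 1 := Γ.inj (by rw [Γ.ι_cj]; simp)
    have e1 := congrFun h.res 1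
    simp only [Function.comp_apply, Pi.add_apply, c1, map_one, hm.one] at e1
    have := D.deg h.mem hp (m := 2 * m) (by have := hm.pos; omega) (by rw [e1]; push_cast; ring)
    rw [CTp, Set.mem_setOf_eq, ← this, (hp.dvd_mul).trans (or_iff_right _)]
    intro k
    exact hp2 ((Nat.prime_dvd_prime_iff_eq hp Nat.prime_two).1 k)
  constructor
  · rintro ⟨⟨m, hm, hd⟩, -, -, h4⟩
    refine ⟨(key m hm).1 hd, fun σ hσ => ?_⟩
    rcases Int.units_eq_one_or (ε σ) with k | k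
    · have := D.att_eps ht h σ 1 (h4 σ hσ 1 (by rw [k, map_one]))
      rwa [map_one, ← k] at this
    · have := D.att_eps ht h σ t (h4 σ hσ t (by rw [k, ht]))
      rwa [ht, ← k] at this
  · rintro ⟨h1, h2⟩
    obtain ⟨m, hm⟩ := h.irr
    refine ⟨⟨m, hm, (key m hm).2 h1⟩, fun x y hy => by rw [D.att_z h x y hy, uK_one, one_mul],
      fun t' ht' => ?_, fun σ hσ t' ht' => ?_⟩
    · rw [D.hix.cj_odd θ (D.cl h.irr).2 t' t (ht'.trans ht.symm)]; exact h.ne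
    · obtain ⟨t0, h0⟩ := D.att_gal h σ
      have := D.hsq.eps_uniq _ σ _ _ (D.hcmp.dm_ne _ _ _ (hk_zero A)) (D.att_eps ht h σ t0 h0)
        (h2 σ hσ)
      rw [h0, D.hix.cj_odd θ (D.cl h.irr).2 t0 t' (this.trans ht'.symm)]

lemma im_att (D : Da C Γ c) {t : X} (ht : Γ.sg t = -1) {p : ℕ} {S ε θ}
    (h : θ ∈ Γ.IM p S 1 ε) : ∃ A, Att C Γ c t θ A := by
  obtain ⟨⟨m, hm, -⟩, h2, h3, -⟩ := h
  exact D.att_ex ht ⟨m, hm⟩ (fun x y hy => by simpa using h2 x y hy) (h3 t ht)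

lemma cov (D : Da C Γ c) {p : ℕ} (hp : p.Prime) (hp2 : p ≠ 2) (S : Set Ga) : Γ.Cov p S 1 := by
  obtain ⟨t, ht⟩ := Γ.odd
  refine ⟨fun θ h => ?_, fun χ h => ⟨1, (D.iq S 1 χ).2 ⟨h, fun _ _ => rfl⟩⟩⟩
  obtain ⟨A, hA⟩ := D.im_att ht h
  choose ε hε using D.hsq.eps_ex (Dm C.q (Fintype.card Ω) (hk A))
  exact ⟨ε, (D.att_mem ht hA hp hp2 S ε).2
    ⟨((D.att_mem ht hA hp hp2 ∅ 1).1 h).1, fun σ _ => hε σ⟩⟩

lemma im (D : Da C Γ c) {p : ℕ} (hp : p.Prime) (hp2 : p ≠ 2) (S : Set Ga) (ε : Ga → ℤˣ) :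
    (Γ.IM p S 1 ε).ncard = 2 * Nat.card {A // A ∈ CTp p (Fintype.card Ω) ∧
      ∀ σ ∈ S, Eps (Dm C.q (Fintype.card Ω) (hk A)) σ (ε σ)} := by
  obtain ⟨t, ht⟩ := Γ.odd
  have : ∀ A : Finset ℕ, ∃ θ, (A, A) ∈ PT (Fintype.card Ω) → Att C Γ c t θ A := by
    intro A
    by_cases hA : (A, A) ∈ PT (Fintype.card Ω)
    · obtain ⟨θ, h⟩ := D.att_of ht hA
      exact ⟨θ, fun _ => h⟩
    · exact ⟨0, fun k => absurd k hA⟩
  choose θf hθ using this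
  let T : Set (Finset ℕ) := {A | A ∈ CTp p (Fintype.card Ω) ∧
      ∀ σ ∈ S, Eps (Dm C.q (Fintype.card Ω) (hk A)) σ (ε σ)}
  let Φ : Finset ℕ × Bool → X0 → K := fun w => if w.2 then θf w.1 else θf w.1 ∘ Γ.cj t
  have hΦ : ∀ A b, A ∈ T → Att C Γ c t (Φ (A, b)) A := by
    intro A b hA
    cases b
    · exact D.att_cj ht (hθ A hA.1.1)
    · exact hθ A hA.1.1
  have h1 : Γ.IM p S 1 ε = Φ '' (T ×ˢ Set.univ) := by
    ext θ
    constructor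
    · intro h
      obtain ⟨A, hA⟩ := D.im_att ht h
      have hT : A ∈ T := (D.att_mem ht hA hp hp2 S ε).1 h
      rcases D.att_two (hθ A hA.mem) hA with k | k
      · exact ⟨(A, true), ⟨hT, trivial⟩, k.symm⟩
      · exact ⟨(A, false), ⟨hT, trivial⟩, k.symm⟩
    · rintro ⟨⟨A, b⟩, h, rfl⟩
      exact (D.att_mem ht (hΦ A b h.1) hp hp2 S ε).2 h.1
  have h2 : Set.InjOn Φ (T ×ˢ Set.univ) := by
    rintro ⟨A, b⟩ h ⟨A', b'⟩ h' k
    obtain rfl : A = A' := D.att_uniq (hΦ A b h.1) (k ▸ hΦ A' b' h'.1)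
    have := (hθ A h.1.1.1).ne
    cases b <;> cases b'
    · rfl
    · exact absurd k this
    · exact absurd k.symm this
    · rfl
  rw [h1, Set.ncard_image_of_injOn h2, Set.ncard_prod, Set.ncard_univ, mul_comm,
    ← Nat.card_coe_set_eq, Nat.card_eq_fintype_card, Fintype.card_bool]
  rfl

end Da

end GlP

theorem glp (hch : ChSt) (hix : IxSt) (hsq : SqSt) (hcmp : CmpSt) (hpa : PermASt)
    (hpb : PermBSt) (hcb : CbSt) (huf : UfSt) (hns : NsSt) (hsh : ShSt) : GlpSt := by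
  intro Ω _ _ X X0 _ _ _ C Γ hΓ p S hp hp2
  obtain ⟨c, h1, h2⟩ := hns Ω
  have D : GlP.Da C Γ c :=
    ⟨hch, hix X X0 Γ, hsq, hcmp, hpa Ω, hpb Ω, hcb Ω X C, huf, hsh, hΓ, h1, h2⟩
  refine ⟨D.cov hp hp2 S, D.im hp hp2 S, fun ε h => ?_, fun ε h => ?_, D.ia hp⟩
  · congr 1
    ext χ
    rw [D.iq, and_iff_left h]
  · have : Γ.IQ p S 1 ε = ∅ := Set.eq_empty_iff_forall_notMem.2 fun χ k => h ((D.iq S ε χ).1 k).2
    rw [this, Set.ncard_empty]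

end Pool.Agent.Lib.MP_1ae3da_al.GM
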