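import Pool.Agent.Lib.MP_1ae3da_al.GT

/-! The spin characters of the double covers that are not self associate. -/

namespace Pool.Agent.Lib.MP_1ae3da_al.GM

open Equiv Module

namespace GlQ

/-- the parts in decreasing order. -/
def ls (A : Finset ℕ) : List ℕ := A.sort (· ≥ ·)

lemma ls_coe (A : Finset ℕ) : (ls A : Multiset ℕ) = A.val := Finset.sort_eq _ _
lemma ls_nodup (A : Finset ℕ) : (ls A).Nodup := Finset.sort_nodup _ _
lemma ls_mem (A : Finset ℕ) (a : ℕ) : a ∈ ls A ↔ a ∈ A := Finset.mem_sort _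
lemma ls_len (A : Finset ℕ) : (ls A).length = A.card := Finset.length_sort _
lemma ls_fin (A : Finset ℕ) : (ls A).toFinset = A := Finset.sort_toFinset _ _
lemma ls_sum (A : Finset ℕ) : (ls A).sum = A.sum id := by
  rw [← Multiset.sum_coe, ls_coe, Finset.sum, Multiset.map_id]
lemma ls_pw (A : Finset ℕ) : (ls A).Pairwise (· > ·) := by
  have h1 : (ls A).Pairwise (· ≥ ·) := Finset.pairwise_sort _ _
  have h2 : (ls A).Pairwise (· ≠ ·) := ls_nodup A
  exact (h1.and h2).imp fun h => lt_of_le_of_ne h.1 h.2.symm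

lemma rt2_ne : rt2 ≠ 0 := fun h => by
  have := rt2_mul
  rw [h, mul_zero] at this
  exact two_ne_zero this.symm

lemma sig_uK (σ : Ga) (u : ℤˣ) : σ (uK u) = uK u := by simp [uK]

lemma zpow_neg {G : Type} [Group G] (z : G) (f : G → K) (h : ∀ x, f (z * x) = -f x) (j : ℕ)
    (x : G) : f (z ^ j * x) = uK ((-1) ^ j) * f x := by
  induction j with
  | zero => simp
  | succ j ih => rw [pow_succ', mul_assoc, h, ih, pow_succ, uK_mul]; simp

lemma deg_iff (p d k : ℕ) (a b : ℕ) (hp : p.Prime) (h2 : p ≠ 2) (hd : 0 < d) (ha : 0 < a)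
    (hb : 0 < b) (u : ℤˣ) (h : uK u * rt2 * (d : K) * (a : K) = rt2 ^ k * (b : K)) :
    ¬ p ∣ d ↔ padicValNat p a = padicValNat p b := by
  haveI := Fact.mk hp
  have e1 : ((2 * ((d * a) * (d * a)) : ℕ) : K) = ((2 ^ k * (b * b) : ℕ) : K) := by
    have h3 := congrArg (fun t => t * t) h
    have h4 : rt2 ^ k * rt2 ^ k = 2 ^ k := by rw [← mul_pow, rt2_mul]
    push_cast
    rw [← h4, ← rt2_mul]
    linear_combination h3 - (rt2 * rt2 * (d * a) * (d * a)) * uK_sq u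
  have e2 : 2 * ((d * a) * (d * a)) = 2 ^ k * (b * b) := Nat.cast_injective e1
  have v2 : padicValNat p 2 = 0 := padicValNat.eq_zero_of_not_dvd fun h =>
    h2 ((Nat.prime_dvd_prime_iff_eq hp Nat.prime_two).1 h)
  have e3 := congrArg (padicValNat p) e2
  rw [padicValNat.mul (by norm_num) (by positivity), padicValNat.mul (by positivity) (by positivity),
    padicValNat.mul hd.ne' ha.ne', padicValNat.mul (by positivity) (by positivity),
    padicValNat.mul hb.ne' hb.ne', padicValNat.pow 2 k, v2] at e3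
  rw [dvd_iff_padicValNat_ne_zero hd.ne']
  omega

section
variable {Ω : Type} [Fintype Ω] [DecidableEq Ω] {X : Type} [Group X] [Fintype X]
  {C : Cover Ω X} {τ : X → K}

/-- the spin class function attached to a strict partition. -/
noncomputable def U (C : Cover Ω X) (τ : X → K) (A : Finset ℕ) : X → K :=
  fun x => τ x * UQ (ls A) (ty (C.π x))

lemma ipU (hτ : Tau C τ) (hpa : PermASt) (hcb : CbSt) (hav : AvSt) (A B : Finset ℕ) :
    ip (U C τ A) (U C τ B) = Av (Fintype.card Ω) (UQ (ls A) * UQ (ls B)) := by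
  rw [← (hcb Ω X C).dictX, ip]
  congr 1
  refine Finset.sum_congr rfl fun x _ => ?_
  simp only [U, hτ.inv, map_inv, (hpa Ω).inv, Pi.mul_apply]
  by_cases h : ∀ m ∈ ty (C.π x), Odd m
  · linear_combination (UQ (ls A) (ty (C.π x)) * UQ (ls B) (ty (C.π x))) * hτ.sq1 x h
  · have : UQ (ls A) (ty (C.π x)) = 0 := by
      by_contra h0
      exact h (hav.sup _ _ h0).2
    simp [this]

lemma U_LS (hτ : Tau C τ) (hpa : PermASt) (hlat : LatSt) (hspin : SpinSt) (A : Finset ℕ)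
    (h0 : 0 ∉ A) (hs : A.sum id = Fintype.card Ω) :
    C.toSg.LS ((-1) ^ (Fintype.card Ω + A.card)) (U C τ A) fun x => ty (C.π x) = A.val := by
  have h1 := hspin Ω X C τ hτ (ls A) (by rwa [ls_mem]) Finset.univ
    (by rw [ls_sum, hs, Finset.card_univ])
  let f : X →* C.sub Finset.univ :=
    (MonoidHom.id X).codRestrict _ fun x i hi => absurd (Finset.mem_univ i) hi
  have h2 := (hlat _ (C.sgI Finset.univ)).map X C.toSg f (fun x => rfl) rfl _ _ _ h1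
  rw [ls_sum, hs, ls_len, ls_coe] at h2
  have e1 : ((fun x : C.sub Finset.univ => τ x * UQ (ls A) (tyI Finset.univ (C.π x))) ∘ f) =
      U C τ A := by
    funext x
    simp only [Function.comp, U, (hpa Ω).tyI_univ]
    rfl
  have e2 : ((fun x : C.sub Finset.univ => tyI Finset.univ (C.π x) = A.val) ∘ f) =
      fun x => ty (C.π x) = A.val := by
    funext x
    simp only [Function.comp, (hpa Ω).tyI_univ]
    rfl
  rwa [e1, e2] at h2

lemma U_pow (hτ : Tau C τ) (hpa : PermASt) (hsq : SqSt) (A : Finset ℕ) (σ : Ga) (s : ℕ)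
    (hs : Ex (Nat.card X) σ s) (x : X) : U C τ A (x ^ s) = U C τ A x := by
  have hM : 0 < Nat.card X := Nat.card_pos
  have hc : s.Coprime (orderOf (C.π x)) :=
    Nat.Coprime.coprime_dvd_right ((orderOf_map_dvd _ _).trans (orderOf_dvd_natCard x))
      (hsq.cop _ σ s hM hs)
  simp only [U, map_pow, (hpa Ω).pow _ _ hc, hτ.pow _ σ s x hM pow_card_eq_one' hs]

lemma conjX (hpa : PermASt) (hcb : CbSt) (x y : X) (h : ty (C.π x) = ty (C.π y)) :
    ∃ (g : X) (j : ℕ), g * x * g⁻¹ = C.z ^ j * y := by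
  have hm : ∀ w : X, w ∈ C.sub Finset.univ := fun w i hi => absurd (Finset.mem_univ i) hi
  obtain ⟨g, _, j, hj⟩ := (hcb Ω X C).conj Finset.univ x (hm x) y (hm y)
    (by rw [(hpa Ω).tyI_univ, (hpa Ω).tyI_univ, h])
  exact ⟨g, j, hj⟩

/-- the data attached to a strict partition of odd type. -/
structure Dat {X0 : Type} [Group X0] (C : Cover Ω X) (Γ : Gr X X0) (τ : X → K) (A : Finset ℕ)
    (ψ : X → K) : Prop where
  irr : ψ ∈ Irr X
  zn : ∀ x, ψ (C.z * x) = -ψ x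
  tw : Γ.tw ψ ≠ ψ
  ev : ∃ u : ℤˣ, ∀ x, Γ.sg x = 1 → U C τ A x = uK u * rt2 * ψ x
  od : ∀ x, Γ.sg x = -1 → U C τ A x = 0
  deg : ∀ p d : ℕ, p.Prime → p ≠ 2 → IsIrr d ψ → (¬ p ∣ d ↔ A ∈ STp p (Fintype.card Ω))
  gal : ∀ (σ : Ga) (u : ℤˣ), Eps (Dm C.q (Fintype.card Ω) A.val) σ u →
    σ ∘ ψ = if u = 1 then ψ else Γ.tw ψ

lemma exDat {X0 : Type} [Group X0] (Γ : Gr X X0) (hΓ : Γ.toSg = C.toSg) (hτ : Tau C τ)
    (hch : ChSt) (hix : IxSt) (hsq : SqSt) (hcmp : CmpSt) (hpa : PermASt) (hpb : PermBSt)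
    (hcb : CbSt) (huf : UfSt) (hlat : LatSt) (he1 : Ext1St) (hspin : SpinSt) (hav : AvSt)
    (hfB : FkBSt) (hfC : FkCSt) (hsh : ShSt) (A : Finset ℕ) (h0 : 0 ∉ A)
    (hs : A.sum id = Fintype.card Ω) (ho : ¬ Even (Fintype.card Ω + A.card)) :
    ∃ ψ, Dat C Γ τ A ψ := by
  have hsg : ∀ x, Γ.sg x = Perm.sign (C.π x) := fun x => by
    rw [hΓ]; rfl
  have hL := U_LS hτ hpa hlat hspin A h0 hs
  rw [(Nat.not_even_iff_odd.1 ho).neg_one_pow] at hL
  have hn : ip (U C τ A) (U C τ A) = 1 := by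
    rw [ipU hτ hpa hcb hav, ← hs, ← ls_sum]
    exact (hfB _ _ (ls_nodup A) (by rwa [ls_mem]) (ls_nodup A) (by rwa [ls_mem]) rfl).1
  have hod := (hlat X C.toSg).ev _ _ _ hL
  obtain ⟨ψ, hirr, hz, htw, ⟨u, hu⟩, x0, hx0, hty, hne⟩ := he1 X C.toSg _ _ (hL.2 rfl) hn
  rw [← hΓ] at htw hu hod hx0
  have hvc : ψ ∈ VC X := (hch.a X).ch_vc _ ((hch.a X).irr_ch _ hirr)
  have hM : 0 < Nat.card X := Nat.card_pos
  refine ⟨ψ, hirr, hz, htw, ⟨u, hu⟩, hod, fun p d hp h2 hd => ?_, fun σ v hv => ?_⟩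
  · have e1 := hu 1 (map_one _)
    have e2 := hfC (ls A) (ls_pw A) (by rwa [ls_mem])
    rw [ls_sum, hs, ls_fin, ls_len] at e2
    simp only [U, hτ.one, map_one, (hpa Ω).one, one_mul, hd.one] at e1
    rw [e1, mul_assoc (rt2 ^ _), ← Nat.cast_mul] at e2
    have hp1 := hsh.pos (A, A)
    rw [deg_iff p d _ _ _ hp h2 hd.pos hp1.2.2.1
      (Nat.mul_pos (Nat.factorial_pos _) hp1.2.1) u e2]
    exact ⟨fun h => ⟨h0, hs, h⟩, fun h => h.2.2⟩
  · obtain ⟨s, hσ⟩ := hsq.ex _ σ hM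
    have hg : ∀ x, σ (ψ x) = ψ (x ^ s) := fun x =>
      (hch.b X).gal ψ hvc σ _ s x hM pow_card_eq_one' hσ
    have h1 : (σ ∘ ψ) ∘ Γ.ι = ψ ∘ Γ.ι := by
      funext y
      have a1 := hu _ (Γ.sg_ι y)
      have a2 := hu (Γ.ι y ^ s) (by rw [map_pow, Γ.sg_ι, one_pow])
      rw [U_pow hτ hpa hsq A σ s hσ, a1] at a2
      simp only [Function.comp, hg]
      exact (mul_left_cancel₀ (mul_ne_zero (uK_ne u) rt2_ne) a2).symm
    obtain ⟨d, hd⟩ := hirr
    have h2 := (hix X X0 Γ).c1 ψ ⟨d, hd⟩ (σ ∘ ψ) ⟨d, hd.twist σ⟩ h1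
    have hc : s.Coprime (orderOf (C.π x0⁻¹)) :=
      Nat.Coprime.coprime_dvd_right ((orderOf_map_dvd _ _).trans (orderOf_dvd_natCard _))
        (hsq.cop _ σ s hM hσ)
    have hty' : ty (C.π x0⁻¹) = A.val := by rw [map_inv, (hpa Ω).inv]; exact hty
    obtain ⟨g, j, hj⟩ := conjX hpa hcb x0⁻¹ (x0⁻¹ ^ s) (by rw [map_pow, (hpa Ω).pow _ _ hc])
    have hodd : Γ.sg x0⁻¹ = -1 := by rw [map_inv, hx0]; rfl
    have h3 := huf Ω X C x0⁻¹ g j s _ σ hM pow_card_eq_one' hσ hj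
    have h4 : so (C.π x0⁻¹) (C.π g) = 1 := by
      refine (hpb Ω).strict _ _ s (by rw [hty']; exact A.nodup) ?_
      rw [← map_inv, ← map_mul, ← map_mul, hj, map_mul, map_pow, map_pow, C.πz, one_pow, one_mul]
    rw [h4, hty', ← hsg, hodd, if_neg (by decide), mul_one, mul_one] at h3
    have h5 : v = (-1) ^ j := hsq.eps_uniq _ σ _ _ (hcmp.dm_ne _ _ _ h0) hv h3
    have h6 : ψ x0⁻¹ = uK v * σ (ψ x0⁻¹) := by
      rw [hg, h5, ← zpow_neg C.z ψ hz, ← hj, (hch.a X).cl ψ hvc]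
    have h7 : Γ.tw ψ x0⁻¹ = -ψ x0⁻¹ := by simp [Sg.tw, hodd, -map_inv]
    rcases Int.units_eq_one_or v with rfl | rfl
    · rw [if_pos rfl]
      refine h2.resolve_right fun h => hne ?_
      have := congrFun h x0⁻¹
      rw [h7, Function.comp_apply] at this
      rw [this, uK_one] at h6
      linear_combination h6 / 2
    · rw [if_neg (by decide)]
      refine h2.resolve_left fun h => hne ?_
      have := congrFun h x0⁻¹
      rw [Function.comp_apply] at this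
      rw [this, uK_neg, uK_one] at h6
      linear_combination h6 / 2

/-- one of the two characters of the pair. -/
noncomputable def pk {X0 : Type} [Group X0] (Γ : Gr X X0) (ψ : X → K) (b : Bool) : X → K :=
  if b then ψ else Γ.tw ψ

variable {X0 : Type} [Group X0] {Γ : Gr X X0}

lemma pk_ev (ψ : X → K) (b : Bool) (x : X) (h : Γ.sg x = 1) : pk Γ ψ b x = ψ x := by
  cases b <;> simp [pk, Sg.tw, h]

lemma pk_irr (hix : IxSt) (ψ : X → K) (b : Bool) (d : ℕ) (h : IsIrr d ψ) :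
    IsIrr d (pk Γ ψ b) := by
  cases b
  · exact (hix X X0 Γ).tw_irr d ψ h
  · exact h

lemma pk_tw (hix : IxSt) (ψ : X → K) (b : Bool) (h : Γ.tw ψ ≠ ψ) :
    Γ.tw (pk Γ ψ b) ≠ pk Γ ψ b := by
  cases b
  · simp only [pk, Bool.false_eq_true, if_false, (hix X X0 Γ).tw_tw]; exact h.symm
  · exact h

lemma pk_gal (hix : IxSt) (ψ : X → K) (b : Bool) (σ : Ga) (u : ℤˣ)
    (h : σ ∘ ψ = if u = 1 then ψ else Γ.tw ψ) :
    σ ∘ pk Γ ψ b = if u = 1 then pk Γ ψ b else Γ.tw (pk Γ ψ b) := by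
  cases b
  · have : σ ∘ Γ.tw ψ = Γ.tw (σ ∘ ψ) := by
      funext x
      simp [Sg.tw, sig_uK]
    simp only [pk, Bool.false_eq_true, if_false, this, h]
    split_ifs <;> rfl
  · exact h

lemma pk_mem (hΓ : Γ.toSg = C.toSg) (hix : IxSt) (hsq : SqSt) {A : Finset ℕ} {ψ : X → K}
    (h : Dat C Γ τ A ψ) (b : Bool) (p : ℕ) (S : Set Ga) (ε : Ga → ℤˣ) :
    pk Γ ψ b ∈ Γ.IQ p S (-1) ε ↔ (∀ d, IsIrr d ψ → ¬ p ∣ d) ∧
      ∀ σ ∈ S, Eps (Dm C.q (Fintype.card Ω) A.val) σ (ε σ) := by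
  obtain ⟨d, hd⟩ := h.irr
  have hdd : ∀ d', IsIrr d' (pk Γ ψ b) → d' = d := fun d' h' => by
    have := h'.one.symm.trans (pk_irr (Γ := Γ) hix ψ b d hd).one
    exact_mod_cast this
  have hdd' : ∀ d', IsIrr d' ψ → d' = d := fun d' h' => by
    have := h'.one.symm.trans hd.one
    exact_mod_cast this
  have hz : Γ.z = C.z := by rw [hΓ]; rfl
  constructor
  · rintro ⟨⟨d', h1, h2⟩, -, -, h3⟩
    refine ⟨fun d'' h4 => by rwa [hdd' _ h4, ← hdd _ h1], fun σ hσ => ?_⟩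
    obtain ⟨u, hu⟩ := hsq.eps_ex (Dm C.q (Fintype.card Ω) A.val) σ
    have h5 := (pk_gal hix ψ b σ u (h.gal σ u hu)).symm.trans (h3 σ hσ)
    have h6 := pk_tw hix ψ b h.tw
    have : u = ε σ := by
      rcases Int.units_eq_one_or u with rfl | rfl <;>
        rcases Int.units_eq_one_or (ε σ) with h7 | h7 <;> rw [h7] at h5 ⊢
      · rw [if_pos rfl, if_neg (by decide)] at h5; exact absurd h5.symm h6
      · rw [if_pos rfl, if_neg (by decide)] at h5; exact absurd h5 h6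
    rwa [← this]
  · rintro ⟨h1, h2⟩
    refine ⟨⟨d, pk_irr hix ψ b d hd, h1 d hd⟩, fun x => ?_, pk_tw hix ψ b h.tw,
      fun σ hσ => pk_gal hix ψ b σ _ (h.gal σ _ (h2 σ hσ))⟩
    cases b
    · simp only [pk, Bool.false_eq_true, if_false, Sg.tw, map_mul, Γ.zs, one_mul]
      rw [hz, h.zn]; simp
    · simp only [pk, if_true]
      rw [hz, h.zn]; simp

lemma pk_inj (hτ : Tau C τ) (hpa : PermASt) (hcb : CbSt) (hav : AvSt) (hfB : FkBSt)
    {A B : Finset ℕ} {ψ φ : X → K} (h : Dat C Γ τ A ψ) (k : Dat C Γ τ B φ) (hA : 0 ∉ A)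
    (hB : 0 ∉ B) (sA : A.sum id = Fintype.card Ω) (sB : B.sum id = Fintype.card Ω) {b c : Bool}
    (e : pk Γ ψ b = pk Γ φ c) : A = B := by
  by_contra hne
  obtain ⟨u, hu⟩ := h.ev
  obtain ⟨v, hv⟩ := k.ev
  have h1 : U C τ B = (uK u * uK v) • U C τ A := by
    funext x
    rcases Int.units_eq_one_or (Γ.sg x) with hx | hx
    · have := congrFun e x
      rw [pk_ev _ _ _ hx, pk_ev _ _ _ hx] at this
      rw [Pi.smul_apply, hu x hx, hv x hx, this, smul_eq_mul]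
      linear_combination (-(uK v * rt2 * φ x)) * uK_sq u
    · rw [Pi.smul_apply, h.od x hx, k.od x hx, smul_zero]
  have h2 := hfB (ls A) (ls B) (ls_nodup A) (by rwa [ls_mem]) (ls_nodup B) (by rwa [ls_mem])
    (by rw [ls_sum, ls_sum, sA, sB])
  rw [ls_sum, sA, ← ipU hτ hpa hcb hav, ← ipU hτ hpa hcb hav, ls_coe, ls_coe] at h2
  have h3 := h2.2 fun h => hne (Finset.val_injective h)
  rw [h1, ip_smul_right, h2.1, mul_one] at h3
  exact mul_ne_zero (uK_ne u) (uK_ne v) h3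

/-- strict partitions of odd type. -/
abbrev DD (n : ℕ) : Type := {A : Finset ℕ // 0 ∉ A ∧ A.sum id = n ∧ ¬ Even (n + A.card)}

lemma rank_le (hΓ : Γ.toSg = C.toSg) (hsq : SqSt) (hcmp : CmpSt) (hpa : PermASt) (hpb : PermBSt)
    (hcb : CbSt) (huf : UfSt) [Finite (DD (Fintype.card Ω))] :
    finrank K (Γ.Sp ⊥ (-1) 0 (fun x => Γ.sg x = -1) (Nat.card X) ∅ 1) ≤
      Nat.card (DD (Fintype.card Ω)) := by
  classical
  have hsg : ∀ x, Γ.sg x = Perm.sign (C.π x) := fun x => by rw [hΓ]; rfl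
  have hz : Γ.z = C.z := by rw [hΓ]; rfl
  have hM : 0 < Nat.card X := Nat.card_pos
  have hex : ∀ A : DD (Fintype.card Ω), ∃ x : X, ty (C.π x) = A.1.val := fun A => by
    obtain ⟨g, hg⟩ := (hpa Ω).ex A.1.val A.2.1 
      (Eq.trans (by rw [Finset.sum, Multiset.map_id]) A.2.2.1)
    obtain ⟨x, rfl⟩ := C.surj g
    exact ⟨x, hg⟩
  choose r hr using hex
  let Φ : Γ.Sp ⊥ (-1) 0 (fun x => Γ.sg x = -1) (Nat.card X) ∅ 1 →ₗ[K]
      (DD (Fintype.card Ω) → K) := (LinearMap.funLeft K K r).comp (Submodule.subtype _)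
  have hinj : Function.Injective Φ := by
    rw [injective_iff_map_eq_zero]
    rintro ⟨f, h1, h2, h9⟩ hf
    have hr0 : ∀ A, f (r A) = 0 := fun A => congrFun hf A
    have c1 : ∀ g x, f (g * x * g⁻¹) = f x := fun g x => by
      simpa using h1 x (g * x * g⁻¹) 1 ⟨1, Subgroup.one_mem _, 0, g, by simp, by simp⟩
    have c2 : ∀ (j : ℕ) x, f (C.z ^ j * x) = uK ((-1) ^ j) * f x := fun j x =>
      h1 x _ _ ⟨1, Subgroup.one_mem _, j, 1, by simp [hz], by simp⟩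
    apply Subtype.ext
    funext x
    change f x = 0
    by_cases hx : Γ.sg x = -1
    swap
    · exact h2 x hx
    by_cases hn : (ty (C.π x)).Nodup
    · have hs := (hpa Ω).sign (C.π x)
      rw [← hsg, hx] at hs
      let A : DD (Fintype.card Ω) := ⟨⟨ty (C.π x), hn⟩, (hpa Ω).pos _,
        by simpa [Finset.sum] using (hpa Ω).sum _, fun he => by
          have : Even (Fintype.card Ω + (ty (C.π x)).card) := he
          rw [this.neg_one_pow] at hs
          exact absurd hs (by decide)⟩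
      obtain ⟨g, j, hj⟩ := conjX hpa hcb x (r A) (hr A).symm
      rw [← c1 g x, hj, c2, hr0, mul_zero]
    · obtain ⟨g0, e1, e2⟩ := (hpb Ω).nonstrict _ hn
      obtain ⟨g, rfl⟩ := C.surj g0
      obtain ⟨j, hj⟩ := (hcb Ω X C).lift x (g * x * g⁻¹) (by simp only [map_mul, map_inv, e1])
      have h3 := huf Ω X C x g j 1 _ _ hM pow_card_eq_one' (hsq.refl _) (by rw [pow_one, hj])
      rw [e2, ← hsg, hx, if_neg (by decide), mul_one] at h3
      have h4 := hsq.eps_refl _ _ (hcmp.dm_ne _ _ _ ((hpa Ω).pos _)) h3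
      have h5 : (-1 : ℤˣ) ^ j = -1 := by rw [← neg_inj, ← mul_neg_one, h4, neg_neg]
      have h6 := c1 g x
      rw [hj, c2, h5, uK_neg, uK_one] at h6
      linear_combination h6 / (-2)
  haveI := Fintype.ofFinite (DD (Fintype.card Ω))
  have := LinearMap.finrank_le_finrank_of_injective hinj
  rwa [finrank_fintype_fun_eq_card, ← Nat.card_eq_fintype_card] at this

end

end GlQ

open GlQ in
theorem glmQ (hch : ChSt) (hix : IxSt) (habQ : AbsQSt) (hsq : SqSt) (hcmp : CmpSt)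
    (hpa : PermASt) (hpb : PermBSt) (hcb : CbSt) (htau : TauSt) (huf : UfSt) (hlat : LatSt)
    (he1 : Ext1St) (hspin : SpinSt) (hav : AvSt) (hfB : FkBSt) (hfC : FkCSt) (hsh : ShSt) :
    GlmQSt := by
  intro Ω _ _ X X0 _ _ _ C Γ hΓ p S hp h2
  haveI := Fintype.ofFinite X
  obtain ⟨τ, hτ⟩ := htau Ω X C
  have hex : ∀ A : DD (Fintype.card Ω), ∃ ψ, Dat C Γ τ A.1 ψ := fun A =>
    exDat Γ hΓ hτ hch hix hsq hcmp hpa hpb hcb huf hlat he1 hspin hav hfB hfC hsh A.1 A.2.1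
      A.2.2.1 A.2.2.2
  choose ψ hψ using hex
  let G : DD (Fintype.card Ω) × Bool → X → K := fun w => pk Γ (ψ w.1) w.2
  have hG : Function.Injective G := by
    rintro ⟨A, b⟩ ⟨B, c⟩ e
    obtain rfl : A = B := Subtype.ext
      (pk_inj hτ hpa hcb hav hfB (hψ A) (hψ B) A.2.1 B.2.1 A.2.2.1 B.2.2.1 e)
    have := (hψ A).tw
    cases b <;> cases c
    · rfl
    · exact absurd e this
    · exact absurd e.symm this
    · rfl
  have hsub : Set.range G ⊆ Γ.IQ 0 ∅ (-1) 1 := by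
    rintro _ ⟨w, rfl⟩
    exact (pk_mem hΓ hix hsq (hψ w.1) w.2 0 ∅ 1).2
      ⟨fun d hd h => hd.pos.ne' (Nat.eq_zero_of_zero_dvd h), fun _ h => h.elim⟩
  have hfin : (Γ.IQ 0 ∅ (-1) 1).Finite :=
    (hch.a X).fin.subset fun χ h => h.1.imp fun _ k => k.1
  haveI : Finite (DD (Fintype.card Ω) × Bool) :=
    (Set.finite_range_iff hG).1 (hfin.subset hsub)
  haveI : Finite (DD (Fintype.card Ω)) := Finite.prod_left Bool
  have hab : AbsH Γ 0 ⊥ (Nat.card X) ∅ :=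
    { nrm := inferInstance
      ev := fun r hr => by rw [Subgroup.mem_bot.1 hr, map_one]
      hG := fun χ ⟨d, hd⟩ => iff_of_true ⟨d, hd, fun h => hd.pos.ne' (Nat.eq_zero_of_zero_dvd h)⟩
        fun r hr x => by rw [Subgroup.mem_bot.1 hr, one_mul]
      hG0 := fun χ ⟨d, hd⟩ => iff_of_true ⟨d, hd, fun h => hd.pos.ne' (Nat.eq_zero_of_zero_dvd h)⟩
        fun r hr x y h => by rw [Subgroup.mem_bot.1 hr, one_mul] at h; rw [Γ.inj h]
      pos := Nat.card_pos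
      exp := fun _ => pow_card_eq_one'
      stab := fun _ => le_rfl }
  have hall : Set.range G = Γ.IQ 0 ∅ (-1) 1 := by
    refine Set.eq_of_subset_of_ncard_le hsub ?_ hfin
    rw [habQ X X0 Γ 0 ⊥ _ ∅ hab (-1) 1 ⟨fun θ h => ⟨1, h⟩, fun θ h => ⟨1, h⟩⟩,
      ← Nat.card_coe_set_eq, Nat.card_range_of_injective hG, Nat.card_prod]
    have := rank_le hΓ hsq hcmp hpa hpb hcb huf
    simp only [Nat.card_eq_fintype_card, Fintype.card_bool]
    omega
  have hcov : ∀ (S : Set Ga) (ε : Ga → ℤˣ), ∀ χ ∈ Γ.IQ p S (-1) ε, ∃ w, G w = χ := by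
    rintro S ε χ ⟨⟨d, hd, -⟩, k1, k2, -⟩
    have : χ ∈ Set.range G := hall ▸
      ⟨⟨d, hd, fun h => hd.pos.ne' (Nat.eq_zero_of_zero_dvd h)⟩, k1, k2, fun _ h => h.elim⟩
    exact this
  have hdeg : ∀ A : DD (Fintype.card Ω), (∀ d, IsIrr d (ψ A) → ¬ p ∣ d) ↔
      A.1 ∈ STp p (Fintype.card Ω) := fun A => by
    obtain ⟨d, hd⟩ := (hψ A).irr
    exact ⟨fun h => ((hψ A).deg p d hp h2 hd).1 (h d hd),
      fun h d' hd' => ((hψ A).deg p d' hp h2 hd').2 h⟩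
  refine ⟨fun χ hχ => ?_, fun ε => ?_⟩
  · obtain ⟨w, rfl⟩ := hcov _ _ χ hχ
    choose ε hε using hsq.eps_ex (Dm C.q (Fintype.card Ω) w.1.1.val)
    exact ⟨ε, (pk_mem hΓ hix hsq (hψ w.1) w.2 p S ε).2
      ⟨((pk_mem hΓ hix hsq (hψ w.1) w.2 p ∅ 1).1 hχ).1, fun σ _ => hε σ⟩⟩
  · let i : {A // A ∈ STp p (Fintype.card Ω) ∧ ¬ Even (Fintype.card Ω + A.card) ∧
        ∀ σ ∈ S, Eps (Dm C.q (Fintype.card Ω) A.val) σ (ε σ)} × Bool →
        DD (Fintype.card Ω) × Bool := fun w => (⟨w.1.1, w.1.2.1.1, w.1.2.1.2.1, w.1.2.2.1⟩, w.2)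
    have hi : Function.Injective i := by
      rintro ⟨A, b⟩ ⟨B, c⟩ e
      simp only [i, Prod.mk.injEq, Subtype.mk.injEq] at e
      exact Prod.ext (Subtype.ext e.1) e.2
    have hr : Set.range (G ∘ i) = Γ.IQ p S (-1) ε := by
      ext χ
      constructor
      · rintro ⟨w, rfl⟩
        exact (pk_mem hΓ hix hsq (hψ (i w).1) w.2 p S ε).2 ⟨(hdeg _).2 w.1.2.1, w.1.2.2.2⟩
      · intro hχ
        obtain ⟨w, rfl⟩ := hcov _ _ χ hχ
        have := (pk_mem hΓ hix hsq (hψ w.1) w.2 p S ε).1 hχ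
        exact ⟨(⟨w.1.1, (hdeg _).1 this.1, w.1.2.2.2, this.2⟩, w.2), rfl⟩
    rw [← hr, ← Nat.card_coe_set_eq, Nat.card_range_of_injective (hG.comp hi), Nat.card_prod,
      mul_comm]
    simp only [Nat.card_eq_fintype_card, Fintype.card_bool]

end Pool.Agent.Lib.MP_1ae3da_al.GM
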