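import Pool.Agent.Lib.MP_1ae3da_al.GT

/-! The image of `1 - l` on the abelianised Sylow subgroup and the standard form of a pair. -/

namespace Pool.Agent.Lib.MP_1ae3da_al.GM

open Equiv

namespace Img

lemma ofNat_succ (n s : ℕ) : Fin.ofNat (n + 1) (s + 1) = Fin.ofNat (n + 1) s + 1 := by
  apply Fin.ext
  simp [Fin.val_add]

lemma ofNat_val {n : ℕ} (i : Fin (n + 1)) : Fin.ofNat (n + 1) (i : ℕ) = i := by
  apply Fin.ext
  simp

lemma succ_val {n : ℕ} {i : Fin (n + 1)} (hi : i ≠ Fin.last n) :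
    ((i + 1 : Fin (n + 1)) : ℕ) = (i : ℕ) + 1 :=
  Fin.val_add_one_of_lt (lt_of_le_of_ne (Fin.le_last i) hi)

lemma add_eq_last {n : ℕ} (i : Fin (n + 1)) (s : ℕ) :
    i + Fin.ofNat (n + 1) s = Fin.last n ↔ (n + 1) ∣ (i : ℕ) + s + 1 := by
  rw [Fin.ext_iff, Fin.val_add, Fin.val_ofNat, Fin.val_last, Nat.add_mod_mod]
  generalize (i : ℕ) + s = a
  have h1 := Nat.mod_lt a (Nat.succ_pos n)
  have h2 := Nat.div_add_mod a (n + 1)
  constructor
  · intro h
    refine ⟨a / (n + 1) + 1, ?_⟩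
    rw [h] at h2
    rw [mul_add, mul_one]
    omega
  · intro h
    have h3 : (n + 1) ∣ a % (n + 1) + 1 := by
      have h4 : a + 1 = (n + 1) * (a / (n + 1)) + (a % (n + 1) + 1) := by omega
      rw [h4] at h
      exact (Nat.dvd_add_right (Dvd.intro _ rfl)).1 h
    have := Nat.le_of_dvd (Nat.succ_pos _) h3
    simp only [Nat.succ_eq_add_one] at h1
    omega

section
variable {p k0 : ℕ} [Fact p.Prime] {B : Type} {lv : B → Fin k0} {O : Type} {r : O → ℕ}
  {τ : O → Ty p k0} {e : (Σ o, Fin (r o + 1)) ≃ B} {l : Lg p k0 lv} {v : B → Fin k0 → ZMod p}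

lemma act_succ (h : Std r τ e l v) (w : B → Fin k0 → ZMod p) (o : O) (i : Fin (r o + 1))
    (j : Fin k0) : l.act w (e ⟨o, i + 1⟩) j =
      (if i = Fin.last (r o) then ((τ o).sc j : ZMod p) else 1) * w (e ⟨o, i⟩) j := by
  have h1 : l.π⁻¹ (e ⟨o, i + 1⟩) = e ⟨o, i⟩ := by rw [← h.hπ]; simp
  rw [Lg.act, h1, h.hc]
  split_ifs <;> simp

lemma img_mp (h : Std r τ e l v) (w : B → Fin k0 → ZMod p) (o : O) (j : Fin k0)
    (hs : (τ o).sc j = 1) : ∑ i, (w - l.act w) (e ⟨o, i⟩) j = 0 := by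
  simp only [Pi.sub_apply, Finset.sum_sub_distrib]
  rw [sub_eq_zero]
  symm
  rw [← Equiv.sum_comp (Equiv.addRight (1 : Fin (r o + 1)))]
  refine Finset.sum_congr rfl fun i _ => ?_
  rw [Equiv.coe_addRight, act_succ h, hs]
  simp

lemma img_mpr (h : Std r τ e l v) (u : B → Fin k0 → ZMod p) (hu : Vz lv u)
    (hs : ∀ o j, (τ o).sc j = 1 → ∑ i, u (e ⟨o, i⟩) j = 0) :
    ∃ w, Vz lv w ∧ u = w - l.act w := by
  let S : O → ℕ → Fin k0 → ZMod p := fun o i j =>
    ∑ k ∈ Finset.range i, u (e ⟨o, Fin.ofNat (r o + 1) (k + 1)⟩) j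
  let W : O → Fin k0 → ZMod p := fun o j =>
    (u (e ⟨o, 0⟩) j + ((τ o).sc j : ZMod p) * S o (r o) j) / (1 - ((τ o).sc j : ZMod p))
  let w : B → Fin k0 → ZMod p := fun b j => W (e.symm b).1 j + S (e.symm b).1 (e.symm b).2 j
  have hw : ∀ o (i : Fin (r o + 1)) j, w (e ⟨o, i⟩) j = W o j + S o i j := by
    intro o i j
    simp only [w]
    rw [e.symm_apply_apply]
  refine ⟨w, ?_, ?_⟩
  · intro b j hj
    obtain ⟨⟨o, i⟩, rfl⟩ := e.surjective b
    rw [h.hlv] at hj
    have h0 : ∀ i', u (e ⟨o, i'⟩) j = 0 := fun i' => hu _ _ (by rwa [h.hlv])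
    rw [hw]
    simp [W, S, h0]
  · funext b j
    obtain ⟨⟨o, i⟩, rfl⟩ := e.surjective b
    obtain ⟨i, rfl⟩ : ∃ i', i = i' + 1 := ⟨i - 1, by simp⟩
    rw [Pi.sub_apply, Pi.sub_apply, act_succ h, hw, hw]
    by_cases hi : i = Fin.last (r o)
    · subst hi
      rw [if_pos rfl, Fin.last_add_one, Fin.val_last, Fin.val_zero]
      have hS0 : S o 0 j = 0 := by simp [S]
      rw [hS0]
      by_cases hc : (τ o).sc j = 1
      · have h1 := hs o j hc
        have h2 : ∑ i, u (e ⟨o, i⟩) j =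
            ∑ k ∈ Finset.range (r o + 1), u (e ⟨o, Fin.ofNat (r o + 1) k⟩) j := by
          rw [← Fin.sum_univ_eq_sum_range (fun k => u (e ⟨o, Fin.ofNat (r o + 1) k⟩) j)]
          exact Finset.sum_congr rfl fun i _ => by rw [ofNat_val]
        rw [h2, Finset.sum_range_succ'] at h1
        have h3 : Fin.ofNat (r o + 1) 0 = 0 := rfl
        rw [h3] at h1
        simp only [hc, Units.val_one]
        simp only [S]
        linear_combination h1
      · have h1 : (1 : ZMod p) - ((τ o).sc j : ZMod p) ≠ 0 := by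
          rw [sub_ne_zero]
          intro h2
          exact hc (Units.ext h2.symm)
        have h2 : W o j * (1 - ((τ o).sc j : ZMod p)) =
            u (e ⟨o, 0⟩) j + ((τ o).sc j : ZMod p) * S o (r o) j := div_mul_cancel₀ _ h1
        linear_combination -h2
    · rw [if_neg hi, succ_val hi]
      simp only [S]
      rw [Finset.sum_range_succ, ofNat_succ, ofNat_val]
      ring

lemma geo (m : Lg p k0 lv) (w : B → Fin k0 → ZMod p) (hw : Vz lv w) (t : ℕ) :
    ∃ w', Vz lv w' ∧ w - (m ^ t).act w = w' - m.act w' := by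
  induction t with
  | zero => exact ⟨0, Vz.zero, by simp⟩
  | succ t ih =>
    obtain ⟨w', h1, h2⟩ := ih
    refine ⟨w + m.act w', hw.add (h1.act m), ?_⟩
    have h3 := congrArg m.act h2
    rw [Lg.act_sub, Lg.act_sub] at h3
    rw [pow_succ', Lg.act_mul, Lg.act_add]
    linear_combination h3

lemma vz (h : Std r τ e l v) : Vz lv v := by
  intro b j hj
  obtain ⟨⟨o, i⟩, rfl⟩ := e.surjective b
  rw [h.hlv] at hj
  rw [h.hv, h.nrm o j hj]
  simp

lemma lpow (h : Std r τ e l v) (s : ℕ) (o : O) (i : Fin (r o + 1)) :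
    (l ^ s).π (e ⟨o, i⟩) = e ⟨o, i + Fin.ofNat (r o + 1) s⟩ ∧
    ∀ j, (l ^ s).c (e ⟨o, i⟩) j = (τ o).sc j ^ (((i : ℕ) + s) / (r o + 1)) := by
  induction s with
  | zero =>
    refine ⟨by simp, fun j => ?_⟩
    rw [pow_zero, Lg.one_c, add_zero, Nat.div_eq_of_lt i.2, pow_zero]
  | succ s ih =>
    obtain ⟨h1, h2⟩ := ih
    refine ⟨?_, fun j => ?_⟩
    · rw [pow_succ', Lg.mul_π, Perm.mul_apply, h1, h.hπ, ofNat_succ, add_assoc]
    · rw [pow_succ', Lg.mul_c, h1, h2, h.hc, ← add_assoc, Nat.succ_div]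
      simp only [add_eq_last]
      split_ifs
      · rw [pow_succ']
      · rw [one_mul, add_zero]

end

/-- the cycle decomposition of a permutation of a finite type. -/
lemma cyc {B : Type} [Fintype B] (π : Perm B) : ∃ (O : Type) (_ : Fintype O) (r : O → ℕ)
    (e : (Σ o, Fin (r o + 1)) ≃ B), ∀ o i, π (e ⟨o, i⟩) = e ⟨o, i + 1⟩ := by
  classical
  let O := Quotient (Perm.SameCycle.setoid π)
  have hpos : ∀ b : B, 0 < Function.minimalPeriod π b := fun b =>
    Function.minimalPeriod_pos_of_mem_periodicPts (π.injective.mem_periodicPts b)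
  let r : O → ℕ := fun o => Function.minimalPeriod π o.out - 1
  have hr : ∀ o, r o + 1 = Function.minimalPeriod π o.out := fun o =>
    Nat.sub_add_cancel (hpos _)
  let f : (Σ o, Fin (r o + 1)) → B := fun x => π^[x.2] x.1.out
  have hq : ∀ (o : O) (k : ℕ), (Quotient.mk _ (π^[k] o.out) : O) = o := by
    intro o k
    conv_rhs => rw [← Quotient.out_eq o]
    apply Quotient.sound
    apply Perm.SameCycle.symm
    exact ⟨k, by rw [zpow_natCast, Perm.iterate_eq_pow]⟩
  have hf : Function.Bijective f := by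
    constructor
    · rintro ⟨o, i⟩ ⟨o', i'⟩ hh
      have h1 : o = o' := by
        have := congrArg (fun b => (Quotient.mk _ b : O)) hh
        simpa only [f, hq] using this
      subst h1
      have h2 : (i : ℕ) = i' := by
        refine (Function.iterate_eq_iterate_iff_of_lt_minimalPeriod ?_ ?_).1 hh
        · rw [← hr]; exact i.2
        · rw [← hr]; exact i'.2
      rw [Fin.ext h2]
    · intro b
      let o : O := Quotient.mk _ b
      have h1 : π.SameCycle o.out b := Quotient.exact (Quotient.out_eq o)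
      obtain ⟨k, -, hk⟩ := h1.exists_pow_eq'
      refine ⟨⟨o, Fin.ofNat (r o + 1) k⟩, ?_⟩
      simp only [f, Fin.val_ofNat]
      rw [hr, Function.iterate_mod_minimalPeriod_eq, Perm.iterate_eq_pow, hk]
  refine ⟨O, inferInstance, r, Equiv.ofBijective f hf, fun o i => ?_⟩
  simp only [Equiv.ofBijective_apply, f]
  rw [Fin.val_add, Fin.val_one', Nat.add_mod_mod]
  generalize (i : ℕ) = k
  rw [hr, Function.iterate_mod_minimalPeriod_eq, Function.iterate_succ_apply']

end Img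

theorem img : ImgSt where
  img := fun p k0 _ B lv O r τ e l v h u hu =>
    ⟨fun ⟨w, _, hw⟩ o j hs => by rw [hw]; exact Img.img_mp h w o j hs, Img.img_mpr h u hu⟩
  pow := fun p k0 _ B _ lv l s hs u ⟨w, hw, hu⟩ => by
    obtain ⟨t, ht⟩ := exists_pow_eq_self_of_coprime hs
    obtain ⟨w', h1, h2⟩ := Img.geo (l ^ s) w hw t
    exact ⟨w', h1, by rw [hu, ← h2, ht]⟩
  vz := fun p k0 _ B lv O r τ e l v h => Img.vz h
  lpow := fun p k0 _ B lv O r τ e l v h s o i => Img.lpow h s o i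

theorem lp0 (himg : ImgSt) : Lp0St := by
  intro p k0 _ B _ _ lv l v hv
  classical
  obtain ⟨O, _, r, e, he⟩ := Img.cyc l.π
  have hlv : ∀ o (i : Fin (r o + 1)), lv (e ⟨o, i⟩) = lv (e ⟨o, 0⟩) := by
    intro o i
    induction i using Fin.induction with
    | zero => rfl
    | succ i ih => rw [← Fin.coeSucc_eq_succ, ← he, l.hπ, ih]
  let P : O → ℕ → Fin k0 → (ZMod p)ˣ := fun o i j =>
    ∏ k ∈ Finset.range i, l.c (e ⟨o, Fin.ofNat (r o + 1) k⟩) j
  have hP1 : ∀ o i j, lv (e ⟨o, 0⟩) ≤ j → P o i j = 1 := fun o i j hj =>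
    Finset.prod_eq_one fun k _ => l.hc _ _ (by rwa [hlv])
  let s : O → Fin k0 → ZMod p := fun o j =>
    ∑ i : Fin (r o + 1), (((P o i j)⁻¹ : (ZMod p)ˣ) : ZMod p) * v (e ⟨o, i⟩) j
  have hs0 : ∀ o j, lv (e ⟨o, 0⟩) ≤ j → s o j = 0 := fun o j hj =>
    Finset.sum_eq_zero fun i _ => by rw [hv _ _ (by rwa [hlv]), mul_zero]
  let d : O → Fin k0 → (ZMod p)ˣ := fun o j =>
    if h : s o j = 0 then 1 else (Units.mk0 _ h)⁻¹
  let τ : O → Ty p k0 := fun o => (lv (e ⟨o, 0⟩),
    fun j => if P o (r o + 1) j = 1 ∧ s o j ≠ 0 then none else some (P o (r o + 1) j))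
  have hsc : ∀ o j, (τ o).sc j = P o (r o + 1) j := by
    intro o j
    simp only [Ty.sc, τ]
    split_ifs with h
    · rw [h.1]; rfl
    · rfl
  let h : Lg p k0 lv := ⟨1, fun b j => d (e.symm b).1 j * (P (e.symm b).1 (e.symm b).2 j)⁻¹,
    fun _ => rfl, fun b j hj => by
      obtain ⟨⟨o, i⟩, rfl⟩ := e.surjective b
      rw [hlv] at hj
      rw [e.symm_apply_apply]
      simp only [d]
      rw [hP1 o _ j hj, dif_pos (hs0 o j hj)]
      simp⟩
  have hhc : ∀ o (i : Fin (r o + 1)) j, h.c (e ⟨o, i⟩) j = d o j * (P o i j)⁻¹ := by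
    intro o i j
    simp only [h]
    rw [e.symm_apply_apply]
  have hhπ : h.π = 1 := rfl
  let v' : B → Fin k0 → ZMod p := fun b j =>
    if (e.symm b).2 = 0 ∧ (τ (e.symm b).1).2 j = none then 1 else 0
  have hstd : Std r τ e (h * l * h⁻¹) v' := by
    refine ⟨fun o j hj => ?_, hlv, fun o i => ?_, fun o i j => ?_, fun o i j => ?_⟩
    · have hj' : lv (e ⟨o, 0⟩) ≤ j := hj
      simp only [τ]
      rw [if_neg (fun h => h.2 (hs0 o j hj')), hP1 o _ j hj']
    · simp [hhπ, he]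
    · simp only [Lg.mul_c, Lg.inv_π, Lg.inv_c, hhπ, inv_one, Perm.one_apply]
      rw [he, hhc, hhc, hsc]
      have h1 : P o ((i : ℕ) + 1) j = P o i j * l.c (e ⟨o, i⟩) j := by
        simp only [P]
        rw [Finset.prod_range_succ, Img.ofNat_val]
      by_cases hi : i = Fin.last (r o)
      · subst hi
        rw [if_pos rfl, Fin.last_add_one, Fin.val_zero]
        rw [Fin.val_last] at h1 ⊢
        have h0 : P o 0 j = 1 := by simp [P]
        rw [h0, h1]
        simp [mul_comm, mul_left_comm]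
      · rw [if_neg hi, Img.succ_val hi, h1]
        generalize P o i j = x
        generalize l.c (e ⟨o, i⟩) j = y
        generalize d o j = z
        rw [mul_inv_eq_one, mul_inv, mul_assoc, mul_assoc, inv_mul_cancel, mul_one]
    · simp only [v']
      rw [e.symm_apply_apply]
  have hu : Vz lv (v' - h.act v) := (himg.vz p k0 B lv O r τ e _ v' hstd).sub (hv.act h)
  obtain ⟨w, hw, hw'⟩ := (himg.img p k0 B lv O r τ e _ v' hstd _ hu).2 (by
    intro o j hj
    rw [hsc] at hj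
    simp only [Pi.sub_apply, Finset.sum_sub_distrib]
    have h1 : ∑ i, h.act v (e ⟨o, i⟩) j = (d o j : ZMod p) * s o j := by
      simp only [s]
      rw [Finset.mul_sum]
      refine Finset.sum_congr rfl fun i _ => ?_
      simp only [Lg.act, hhπ, inv_one, Perm.one_apply]
      rw [hhc, Units.val_mul, mul_assoc]
    have h2 : ∑ i, v' (e ⟨o, i⟩) j = if s o j ≠ 0 then 1 else 0 := by
      rw [Finset.sum_eq_single (0 : Fin (r o + 1))]
      · rw [hstd.hv]
        simp [τ, hj]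
      · intro i _ hi
        rw [hstd.hv, if_neg (fun h => hi h.1)]
      · intro h; exact absurd (Finset.mem_univ _) h
    rw [h1, h2]
    simp only [d]
    by_cases h0 : s o j = 0
    · simp [h0]
    · rw [dif_neg h0, if_pos h0]
      simp [h0])
  refine ⟨O, inferInstance, r, τ, e, h * l * h⁻¹, v', h, hstd, rfl, w, hw, ?_⟩
  linear_combination hw'

end Pool.Agent.Lib.MP_1ae3da_al.GM
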