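import Pool.Agent.Lib.MP_1ae3da_al.GT

/-! Perfect central extensions of alternating groups of degree at least eight. -/

namespace Pool.Agent.Lib.MP_1ae3da_al.GM

open Equiv
open scoped commutatorElement

namespace Iso

variable {Ω : Type} [Fintype Ω] [DecidableEq Ω] {E : Type} [Group E]

/-- a central extension of the alternating group. -/
structure CE (f : E →* Perm Ω) : Prop where
  sur : ∀ g, Perm.sign g = 1 → ∃ x, f x = g
  ev : ∀ x, Perm.sign (f x) = 1
  cen : ∀ x, f x = 1 → ∀ y, x * y = y * x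

/-- three distinct points. -/
structure D3 (a b c : Ω) : Prop where
  ab : a ≠ b
  ac : a ≠ c
  bc : b ≠ c

/-- the cycle `a ↦ b ↦ c ↦ a`. -/
def cyc (a b c : Ω) : Perm Ω := swap a b * swap b c

omit [Fintype Ω] in
lemma cyc_conj (g : Perm Ω) (a b c : Ω) : g * cyc a b c * g⁻¹ = cyc (g a) (g b) (g c) := by
  simp [cyc, swap_apply_apply, mul_assoc]

omit [Fintype Ω] in
lemma cyc_ap {a b c : Ω} (h : D3 a b c) (i : Ω) :
    cyc a b c i = if i = a then b else if i = b then c else if i = c then a else i := by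
  obtain ⟨h1, h2, h3⟩ := h
  simp only [cyc, Perm.mul_apply, swap_apply_def]
  grind

lemma cyc_sign {a b c : Ω} (h : D3 a b c) : Perm.sign (cyc a b c) = 1 := by
  simp [cyc, Perm.sign_swap h.ab, Perm.sign_swap h.bc]

omit [Fintype Ω] [DecidableEq Ω] in
lemma D3.rot {a b c : Ω} (h : D3 a b c) : D3 b c a := ⟨h.bc, h.ab.symm, h.ac.symm⟩

omit [Fintype Ω] [DecidableEq Ω] in
lemma D3.flip {a b c : Ω} (h : D3 a b c) : D3 a c b := ⟨h.ac, h.ab, h.bc.symm⟩

omit [Fintype Ω] in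
lemma cyc_inv {a b c : Ω} (h : D3 a b c) : cyc a b c * cyc a c b = 1 := by
  ext i
  rw [Perm.mul_apply, cyc_ap h, cyc_ap h.flip]
  obtain ⟨h1, h2, h3⟩ := h
  simp only [Perm.one_apply]
  grind

omit [Fintype Ω] in
lemma cyc_sq {a b c : Ω} (h : D3 a b c) : cyc a b c * cyc a b c = cyc a c b := by
  ext i
  rw [Perm.mul_apply, cyc_ap h, cyc_ap h, cyc_ap h.flip]
  obtain ⟨h1, h2, h3⟩ := h
  grind

omit [Fintype Ω] in
lemma cyc_rel {x y z w : Ω} (h : D3 x y z) (h' : D3 x z w) (h'' : D3 z w y) :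
    cyc x y z * cyc x z w = cyc z w y := by
  ext i
  rw [Perm.mul_apply, cyc_ap h, cyc_ap h', cyc_ap h'']
  obtain ⟨h1, h2, h3⟩ := h
  obtain ⟨h4, h5, h6⟩ := h'
  obtain ⟨h7, h8, h9⟩ := h''
  grind

lemma ex_even {k : ℕ} (hk : k + 2 ≤ Fintype.card Ω) (u v : Fin k → Ω)
    (hu : Function.Injective u) (hv : Function.Injective v) :
    ∃ g : Perm Ω, Perm.sign g = 1 ∧ ∀ i, g (u i) = v i := by
  have h1 := alternatingGroup.isMultiplyPretransitive Ω
  have h2 : MulAction.IsMultiplyPretransitive (alternatingGroup Ω) Ω k :=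
    MulAction.isMultiplyPretransitive_of_le (n := Nat.card Ω - 2)
      (by rw [Nat.card_eq_fintype_card]; omega) (Nat.sub_le _ _)
  obtain ⟨g, hg⟩ := MulAction.exists_smul_eq (alternatingGroup Ω)
    (⟨u, hu⟩ : Fin k ↪ Ω) (⟨v, hv⟩ : Fin k ↪ Ω)
  exact ⟨g, Perm.mem_alternatingGroup.1 g.2, fun i => congrArg (fun e : Fin k ↪ Ω => e i) hg⟩

lemma tr3 {f : E →* Perm Ω} (hf : CE f) (h8 : 8 ≤ Fintype.card Ω) {a b c a' b' c' : Ω}
    (h : D3 a b c) (h' : D3 a' b' c') : ∃ x, f x a = a' ∧ f x b = b' ∧ f x c = c' := by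
  obtain ⟨h1, h2, h3⟩ := h
  obtain ⟨h4, h5, h6⟩ := h'
  obtain ⟨g, hg, k⟩ := ex_even (k := 3) (by omega) ![a, b, c] ![a', b', c']
    (by intro i j; fin_cases i <;> fin_cases j <;> simp <;> grind)
    (by intro i j; fin_cases i <;> fin_cases j <;> simp <;> grind)
  obtain ⟨x, rfl⟩ := hf.sur g hg
  exact ⟨x, k 0, k 1, k 2⟩

lemma tr4 {f : E →* Perm Ω} (hf : CE f) (h8 : 8 ≤ Fintype.card Ω) {a b c d a' b' c' d' : Ω}
    (h : D3 a b c) (k : D3 a c d) (l : b ≠ d) (h' : D3 a' b' c') (k' : D3 a' c' d')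
    (l' : b' ≠ d') : ∃ x, f x a = a' ∧ f x b = b' ∧ f x c = c' ∧ f x d = d' := by
  obtain ⟨h1, h2, h3⟩ := h
  obtain ⟨h4, h5, h6⟩ := h'
  obtain ⟨k1, k2, k3⟩ := k
  obtain ⟨k4, k5, k6⟩ := k'
  obtain ⟨g, hg, k⟩ := ex_even (k := 4) (by omega) ![a, b, c, d] ![a', b', c', d']
    (by intro i j; fin_cases i <;> fin_cases j <;> simp <;> grind)
    (by intro i j; fin_cases i <;> fin_cases j <;> simp <;> grind)
  obtain ⟨x, rfl⟩ := hf.sur g hg
  exact ⟨x, k 0, k 1, k 2, k 3⟩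

/-- a subgroup that contains all commutators of even permutations fixing `T` contains all of
them. -/
lemma perf (T : Finset Ω) (hT : T.card + 5 ≤ Fintype.card Ω) (S : Subgroup (Perm Ω))
    (hS : ∀ g h : Perm Ω, Perm.sign g = 1 → Perm.sign h = 1 → (∀ i ∈ T, g i = i) →
      (∀ i ∈ T, h i = i) → (h * g)⁻¹ * (g * h) ∈ S)
    (g : Perm Ω) (hg : Perm.sign g = 1) (hgT : ∀ i ∈ T, g i = i) : g ∈ S := by
  let ψ : alternatingGroup {i // i ∉ T} →* Perm Ω :=
    (Perm.ofSubtype (p := fun i => i ∉ T)).comp (alternatingGroup _).subtype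
  have h5 : 5 ≤ Nat.card {i // i ∉ T} := by
    rw [Nat.card_eq_fintype_card, Fintype.card_subtype_compl, Fintype.card_coe]
    omega
  have hs : ∀ x, Perm.sign (ψ x) = 1 := fun x => by
    change Perm.sign (Perm.ofSubtype _) = 1
    rw [Perm.sign_ofSubtype]
    exact Perm.mem_alternatingGroup.1 x.2
  have hfix : ∀ x, ∀ i ∈ T, ψ x i = i := fun x i hi =>
    Perm.ofSubtype_apply_of_not_mem _ (not_not.2 hi)
  have htop : (⊤ : Subgroup (alternatingGroup {i // i ∉ T})) ≤ S.comap ψ := by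
    rw [← commutator_alternatingGroup_eq_top h5, commutator_def, Subgroup.commutator_le]
    intro a _ b _
    have := hS _ _ (hs a⁻¹) (hs b⁻¹) (hfix _) (hfix _)
    rw [Subgroup.mem_comap, commutatorElement_def]
    simpa [mul_assoc] using this
  have h1 : ∀ x, g x ∉ T ↔ x ∉ T := fun x => by
    refine not_congr ⟨fun h => ?_, fun h => by rwa [hgT x h]⟩
    rwa [← g.injective (hgT _ h)]
  have h2 : ∀ x, g x ≠ x → x ∉ T := fun x hx h => hx (hgT x h)
  have := htop (Subgroup.mem_top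
    (⟨g.subtypePerm h1, Perm.mem_alternatingGroup.2 (by
      rw [Perm.sign_subtypePerm g h1 h2, hg])⟩ : alternatingGroup {i // i ∉ T}))
  rw [Subgroup.mem_comap] at this
  change Perm.ofSubtype (g.subtypePerm h1) ∈ S at this
  rwa [Perm.ofSubtype_subtypePerm h1 h2] at this

/-- elements fixing three points commute with the lifts of the three-cycle. -/
lemma comm3 {f : E →* Perm Ω} (hf : CE f) (h8 : 8 ≤ Fintype.card Ω) {a b c : Ω}
    {x0 : E} (h0 : f x0 = cyc a b c) {x : E} (ha : f x a = a) (hb : f x b = b)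
    (hc : f x c = c) : x * x0 = x0 * x := by
  have hT : ({a, b, c} : Finset Ω).card + 5 ≤ Fintype.card Ω := by
    have := Finset.card_le_three (a := a) (b := b) (c := c)
    omega
  have key : ∀ y : E, (∀ i ∈ ({a, b, c} : Finset Ω), f y i = i) →
      ∃ u, (∀ w, u * w = w * u) ∧ y * x0 * y⁻¹ = u * x0 := by
    intro y hy
    refine ⟨y * x0 * y⁻¹ * x0⁻¹, hf.cen _ ?_, by group⟩
    rw [map_mul, map_mul, map_mul, map_inv, map_inv, h0, cyc_conj, hy a (by simp),
      hy b (by simp), hy c (by simp), mul_inv_cancel]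
  have := perf {a, b, c} hT ((Subgroup.centralizer {x0}).map f) ?_ (f x) (hf.ev x)
    (by simp [ha, hb, hc])
  · obtain ⟨y, hy, e⟩ := this
    have hy' : x0 * y = y * x0 := hy x0 rfl
    have h1 := hf.cen (y⁻¹ * x) (by rw [map_mul, map_inv, e, inv_mul_cancel]) x0
    calc x * x0 = y * (y⁻¹ * x * x0) := by group
      _ = (y * x0) * (y⁻¹ * x) := by rw [h1]; group
      _ = x0 * x := by rw [← hy']; group
  · intro g h hg hh gT hT
    obtain ⟨y, rfl⟩ := hf.sur g hg
    obtain ⟨y', rfl⟩ := hf.sur h hh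
    obtain ⟨u, hu, e⟩ := key y gT
    obtain ⟨u', hu', e'⟩ := key y' hT
    refine ⟨(y' * y)⁻¹ * (y * y'), ?_, by simp⟩
    rw [SetLike.mem_coe, Subgroup.mem_centralizer_singleton_iff]
    have e1 : y * (y' * x0 * y'⁻¹) * y⁻¹ = u' * (u * x0) := by
      rw [e', ← mul_assoc, ← hu' y, ← e]; group
    have e2 : y' * (y * x0 * y⁻¹) * y'⁻¹ = u' * (u * x0) := by
      rw [e, ← mul_assoc, ← hu y', ← mul_assoc u', hu', mul_assoc u u', ← e']; group
    calc (y' * y)⁻¹ * (y * y') * x0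
        = (y' * y)⁻¹ * (y * (y' * x0 * y'⁻¹) * y⁻¹) * (y * y') := by group
      _ = x0 * ((y' * y)⁻¹ * (y * y')) := by rw [e1, ← e2]; group

/-- an equivariant section on the three-cycles. -/
structure Sec (f : E →* Perm Ω) (s : Ω → Ω → Ω → E) (η : E) : Prop where
  im : ∀ {a b c}, D3 a b c → f (s a b c) = cyc a b c
  cj : ∀ x {a b c}, D3 a b c → x * s a b c * x⁻¹ = s (f x a) (f x b) (f x c)
  inv : ∀ {a b c}, D3 a b c → s a b c * s a c b = 1
  sq : ∀ {a b c}, D3 a b c → s a b c * s a b c = s a c b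
  rel : ∀ {x y z w}, D3 x y z → D3 x z w → y ≠ w → s x y z * s x z w = η * s z w y
  ker : f η = 1
  two : η * η = 1

lemma ex_sec {f : E →* Perm Ω} (hf : CE f) (h8 : 8 ≤ Fintype.card Ω) :
    ∃ s η, Sec f s η := by
  classical
  obtain ⟨e⟩ : Nonempty (Fin 4 ↪ Ω) :=
    Function.Embedding.nonempty_of_card_le (by rw [Fintype.card_fin]; omega)
  have ne : ∀ i j : Fin 4, i ≠ j → e i ≠ e j := fun i j h => e.injective.ne h
  have h0 : D3 (e 0) (e 1) (e 2) := ⟨ne _ _ (by decide), ne _ _ (by decide), ne _ _ (by decide)⟩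
  have h0' : D3 (e 0) (e 2) (e 3) := ⟨ne _ _ (by decide), ne _ _ (by decide), ne _ _ (by decide)⟩
  have h0'' : e 1 ≠ e 3 := ne _ _ (by decide)
  generalize e 0 = a, e 1 = b, e 2 = c, e 3 = d at h0 h0' h0''
  obtain ⟨t, ta, tb, tc⟩ := tr3 hf h8 h0 h0.flip
  -- the normalised lift
  obtain ⟨x0, i0, c0, v0⟩ : ∃ x0 : E, f x0 = cyc a b c ∧ x0 * x0 * x0 = 1 ∧
      x0 * (t * x0 * t⁻¹) = 1 := by
    obtain ⟨y, hy⟩ := hf.sur _ (cyc_sign h0)
    obtain ⟨u, hu⟩ : ∃ u, u = y * (t * y * t⁻¹) := ⟨_, rfl⟩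
    obtain ⟨v, hv⟩ : ∃ v, v = y * y * y := ⟨_, rfl⟩
    have fu : f u = 1 := by
      rw [hu, map_mul, map_mul, map_mul, map_inv, hy, cyc_conj, ta, tb, tc, cyc_inv h0]
    have fv : f v = 1 := by
      rw [hv, map_mul, map_mul, hy, mul_assoc, cyc_sq h0, cyc_inv h0]
    have cu : ∀ w, Commute u w := hf.cen u fu
    have cv : ∀ w, Commute v w := hf.cen v fv
    have e1 : t * y * t⁻¹ = u * y⁻¹ := by rw [(cu _).eq, hu]; group
    have e2 : v * v = u * u * u := by
      have a1 : t * v * t⁻¹ = v := by rw [← (cv t).eq]; group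
      have a2 : t * v * t⁻¹ = (u * y⁻¹) ^ 3 := by rw [← e1, hv, conj_pow, pow_three']
      rw [(cu _).mul_pow, a1, inv_pow, pow_three', pow_three', ← hv] at a2
      exact eq_mul_inv_iff_mul_eq.1 a2
    obtain ⟨w, hw⟩ : ∃ w, w = u * v⁻¹ := ⟨_, rfl⟩
    have fw : f w = 1 := by rw [hw, map_mul, map_inv, fu, fv]; simp
    have cw : ∀ x, Commute w x := hf.cen w fw
    have w2 : w * w * u = 1 := by
      rw [← pow_two, hw, (cu _).mul_pow, mul_assoc, ← (cu _).eq, ← mul_assoc, pow_two, ← e2,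
        inv_pow, pow_two, mul_inv_cancel]
    have w3 : w * w * w * v = 1 := by
      rw [← w2]
      conv_rhs => rw [← inv_mul_cancel_right u v, ← hw]
      simp only [mul_assoc]
    refine ⟨w * y, by rw [map_mul, fw, one_mul, hy], ?_, ?_⟩
    · rw [← pow_three', (cw y).mul_pow, pow_three', pow_three', ← hv, w3]
    · rw [← w2, hu, ← mul_assoc t, ← (cw t).eq, mul_assoc w y, mul_assoc w t, mul_assoc w,
        ← mul_assoc y, ← (cw y).eq]
      simp only [mul_assoc]
  let P : Ω → Ω → Ω → E → Prop := fun i j k x => f x a = i ∧ f x b = j ∧ f x c = k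
  let s : Ω → Ω → Ω → E := fun i j k =>
    if h : ∃ x, P i j k x then h.choose * x0 * h.choose⁻¹ else 1
  have hs : ∀ x, s (f x a) (f x b) (f x c) = x * x0 * x⁻¹ := by
    intro x
    have h : ∃ y, P (f x a) (f x b) (f x c) y := ⟨x, rfl, rfl, rfl⟩
    obtain ⟨k1, k2, k3⟩ := h.choose_spec
    simp only [s, dif_pos h]
    generalize h.choose = y at k1 k2 k3
    have := comm3 hf h8 i0 (x := x⁻¹ * y) (by simp [k1]) (by simp [k2]) (by simp [k3])
    calc y * x0 * y⁻¹ = x * (x⁻¹ * y * x0) * y⁻¹ := by group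
      _ = x * x0 * x⁻¹ := by rw [this]; group
  have im : ∀ {i j k}, D3 i j k → f (s i j k) = cyc i j k := by
    intro i j k h
    obtain ⟨x, rfl, rfl, rfl⟩ := tr3 hf h8 h0 h
    rw [hs, map_mul, map_mul, map_inv, i0, cyc_conj]
  have cj : ∀ x {i j k}, D3 i j k → x * s i j k * x⁻¹ = s (f x i) (f x j) (f x k) := by
    intro y i j k h
    obtain ⟨x, rfl, rfl, rfl⟩ := tr3 hf h8 h0 h
    have := hs (y * x)
    simp only [map_mul, Perm.mul_apply] at this
    rw [hs, this]; group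
  have inv : ∀ {i j k}, D3 i j k → s i j k * s i k j = 1 := by
    intro i j k h
    obtain ⟨x, rfl, rfl, rfl⟩ := tr3 hf h8 h0 h
    have := hs (x * t)
    simp only [map_mul, Perm.mul_apply, ta, tb, tc] at this
    rw [hs, this]
    calc _ = x * (x0 * (t * x0 * t⁻¹)) * x⁻¹ := by group
      _ = 1 := by rw [v0]; group
  have sq : ∀ {i j k}, D3 i j k → s i j k * s i j k = s i k j := by
    intro i j k h
    apply mul_left_cancel (a := s i j k)
    rw [inv h]
    obtain ⟨x, rfl, rfl, rfl⟩ := tr3 hf h8 h0 h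
    rw [hs]
    calc _ = x * (x0 * x0 * x0) * x⁻¹ := by group
      _ = 1 := by rw [c0]; group
  obtain ⟨η, hη⟩ : ∃ η, η = s a b c * s a c d * (s c d b)⁻¹ := ⟨_, rfl⟩
  have h1 : D3 c d b := ⟨h0'.bc, h0.bc.symm, h0''.symm⟩
  have ker : f η = 1 := by
    rw [hη, map_mul, map_mul, map_inv, im h0, im h0', im h1, cyc_rel h0 h0' h1, mul_inv_cancel]
  have rel : ∀ {x y z w}, D3 x y z → D3 x z w → y ≠ w → s x y z * s x z w = η * s z w y := by
    intro x y z w k k' k''
    obtain ⟨g, rfl, rfl, rfl, rfl⟩ := tr4 hf h8 h0 h0' h0'' k k' k''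
    rw [← cj g h0, ← cj g h0', ← cj g h1, ← mul_assoc η, ← mul_assoc η, hf.cen η ker g, hη]
    group
  refine ⟨s, η, im, cj, inv, sq, rel, ker, ?_⟩
  have r1 := rel h0 h0' h0''
  have r2 := rel h0'.flip h0.flip h0''.symm
  have : s a b c * s a c d * (s a d c * s a c b) = 1 := by
    rw [mul_assoc, ← mul_assoc (s a c d), inv h0', one_mul, inv h0]
  rw [r1, r2, mul_assoc, ← mul_assoc (s c d b), ← hf.cen η ker, mul_assoc, inv h1, mul_one] at this
  exact this

/-- the generators supported in `I`. -/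
def Gen (s : Ω → Ω → Ω → E) (η : E) (I : Finset Ω) : Set E :=
  {x | x = η ∨ ∃ a ∈ I, ∃ b ∈ I, ∃ c ∈ I, D3 a b c ∧ x = s a b c}

namespace Sec

variable {f : E →* Perm Ω} {s : Ω → Ω → Ω → E} {η : E}

omit [Fintype Ω] in
lemma rot (S : Sec f s η) {a b c : Ω} (h : D3 a b c) : s a b c = s b c a := by
  have := S.cj (s a b c) h
  rw [mul_inv_cancel_right, S.im h, cyc_ap h, cyc_ap h, cyc_ap h] at this
  simpa [h.ab.symm, h.ac.symm, h.bc.symm] using this

omit [Fintype Ω] in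
lemma gen_inv (S : Sec f s η) {I : Finset Ω} {x : E} (hx : x ∈ Gen s η I) : x⁻¹ ∈ Gen s η I := by
  rcases hx with rfl | ⟨a, ha, b, hb, c, hc, h, rfl⟩
  · exact Or.inl (inv_eq_of_mul_eq_one_right S.two)
  · exact Or.inr ⟨a, ha, c, hc, b, hb, h.flip, inv_eq_of_mul_eq_one_right (S.inv h)⟩

omit [Fintype Ω] in
lemma fix (S : Sec f s η) {I : Finset Ω} {m : Ω} (hm : m ∉ I) {y : E}
    (hy : y ∈ Subgroup.closure (Gen s η I)) : f y m = m := by
  induction hy using Subgroup.closure_induction with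
  | mem x hx =>
    rcases hx with rfl | ⟨a, ha, b, hb, c, hc, h, rfl⟩
    · rw [S.ker]; rfl
    · rw [S.im h, cyc_ap h, if_neg, if_neg, if_neg] <;> rintro rfl <;> contradiction
  | one => simp
  | mul x y _ _ hx hy => rw [map_mul, Perm.mul_apply, hy, hx]
  | inv x _ hx => rw [map_inv, Perm.inv_eq_iff_eq, hx]

/-- the normal form. -/
def NF (s : Ω → Ω → Ω → E) (η : E) (I : Finset Ω) (m : Ω) (y : E) : Prop :=
  y ∈ Subgroup.closure (Gen s η I) ∨ ∃ i ∈ I, ∃ j ∈ I, i ≠ j ∧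
    ∃ h ∈ Subgroup.closure (Gen s η I), y = s m i j * h

lemma nf (hf : CE f) (S : Sec f s η) {I : Finset Ω} {m : Ω} (hm : m ∉ I) {y : E}
    (hy : y ∈ Subgroup.closure (Gen s η (insert m I))) : NF s η I m y := by
  have mη : η ∈ Subgroup.closure (Gen s η I) := Subgroup.subset_closure (Or.inl rfl)
  have ms : ∀ {a b c}, a ∈ I → b ∈ I → c ∈ I → D3 a b c →
      s a b c ∈ Subgroup.closure (Gen s η I) := fun ha hb hc h =>
    Subgroup.subset_closure (Or.inr ⟨_, ha, _, hb, _, hc, h, rfl⟩)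
  have dm : ∀ {i j}, i ∈ I → j ∈ I → i ≠ j → D3 m i j := fun hi hj h =>
    ⟨by rintro rfl; contradiction, by rintro rfl; contradiction, h⟩
  have chg : ∀ {i j k}, i ∈ I → j ∈ I → k ∈ I → i ≠ j → i ≠ k →
      ∃ h ∈ Subgroup.closure (Gen s η I), s m i j = s m i k * h := by
    intro i j k hi hj hk ij ik
    by_cases jk : j = k
    · exact ⟨1, one_mem _, by rw [jk, mul_one]⟩
    refine ⟨η * s i j k, mul_mem mη (ms hi hj hk ⟨ij, ik, jk⟩), ?_⟩
    rw [← S.rel (dm hk hi ik.symm) (dm hi hj ij) (Ne.symm jk), ← mul_assoc, S.inv (dm hi hk ik),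
      one_mul]
  have stepB : ∀ {a b}, a ∈ I → b ∈ I → a ≠ b → ∀ y, NF s η I m y →
      NF s η I m (s m a b * y) := by
    rintro a b ha hb ab y (hy | ⟨i, hi, j, hj, ij, h, hh, rfl⟩)
    · exact Or.inr ⟨a, ha, b, hb, ab, y, hy, rfl⟩
    by_cases ia : i = a
    · subst ia
      obtain ⟨h', hh', e⟩ := chg hi hj hb ij ab
      refine Or.inr ⟨b, hb, i, hi, ab.symm, h' * h, mul_mem hh' hh, ?_⟩
      rw [e, ← S.sq (dm hi hb ab)]; group
    obtain ⟨h', hh', e⟩ := chg hi hj ha ij ia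
    by_cases ib : i = b
    · subst ib
      left
      rw [e, mul_assoc, ← mul_assoc (s m a i), S.inv (dm ha hi ab), one_mul]
      exact mul_mem hh' hh
    refine Or.inr ⟨i, hi, b, hb, ib, η * h' * h, mul_mem (mul_mem mη hh') hh, ?_⟩
    have r := S.rel (dm ha hb ab).rot (dm hi ha ia).rot.rot (Ne.symm ib)
    rw [← S.rot (dm ha hb ab), ← S.rot (dm hi ha ia).rot, ← S.rot (dm hi ha ia),
      hf.cen η S.ker] at r
    rw [e, mul_assoc, ← mul_assoc (s m a b), r]; group
  have step : ∀ x ∈ Gen s η (insert m I), ∀ y, NF s η I m y → NF s η I m (x * y) := by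
    rintro x (rfl | ⟨a, ha, b, hb, c, hc, h, rfl⟩) y hy
    · rcases hy with hy | ⟨i, hi, j, hj, ij, h, hh, rfl⟩
      · exact Or.inl (mul_mem mη hy)
      · exact Or.inr ⟨i, hi, j, hj, ij, x * h, mul_mem mη hh, by
          rw [← mul_assoc, hf.cen x S.ker, mul_assoc]⟩
    rw [Finset.mem_insert] at ha hb hc
    rcases ha with rfl | ha
    · exact stepB (hb.resolve_left h.ab.symm) (hc.resolve_left h.ac.symm) h.bc y hy
    rcases hb with rfl | hb
    · rw [S.rot h]
      exact stepB (hc.resolve_left h.bc.symm) ha h.ac.symm y hy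
    rcases hc with rfl | hc
    · rw [S.rot h, S.rot h.rot]
      exact stepB ha hb h.ab y hy
    rcases hy with hy | ⟨i, hi, j, hj, ij, k, hk, rfl⟩
    · exact Or.inl (mul_mem (ms ha hb hc h) hy)
    have mI : ∀ {i}, i ∈ I → f (s a b c) i ∈ I := by
      intro i hi
      rw [S.im h, cyc_ap h]
      split_ifs <;> assumption
    refine Or.inr ⟨_, mI hi, _, mI hj, (f (s a b c)).injective.ne ij, s a b c * k,
      mul_mem (ms ha hb hc h) hk, ?_⟩
    have := S.cj (s a b c) (dm hi hj ij)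
    rw [S.fix hm (ms ha hb hc h)] at this
    rw [← this]; group
  induction hy using Subgroup.closure_induction_left with
  | one => exact Or.inl (one_mem _)
  | mul_left x hx y _ ih => exact step x hx y ih
  | inv_mul_cancel x hx y _ ih => exact step _ (S.gen_inv hx) y ih

lemma kerH (hf : CE f) (S : Sec f s η) (I : Finset Ω) :
    ∀ y ∈ Subgroup.closure (Gen s η I), f y = 1 → y = 1 ∨ y = η := by
  induction I using Finset.induction_on with
  | empty =>
    intro y hy h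
    clear h
    have g : ∀ x ∈ Gen s η ∅, x = η := by
      rintro x (h | ⟨a, ha, -⟩)
      · exact h
      · simp at ha
    have step : ∀ y, y = 1 ∨ y = η → η * y = 1 ∨ η * y = η := by
      rintro y (rfl | rfl)
      · exact Or.inr (mul_one _)
      · exact Or.inl S.two
    induction hy using Subgroup.closure_induction_left with
    | one => exact Or.inl rfl
    | mul_left x hx y _ ih => rw [g x hx]; exact step y ih
    | inv_mul_cancel x hx y _ ih => rw [g _ (S.gen_inv hx)]; exact step y ih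
  | insert m I hm ih =>
    intro y hy h
    rcases S.nf hf hm hy with hy | ⟨i, hi, j, hj, ij, k, hk, rfl⟩
    · exact ih y hy h
    exfalso
    have d : D3 m i j := ⟨by rintro rfl; contradiction, by rintro rfl; contradiction, ij⟩
    have := congrArg (fun g : Perm Ω => g m) h
    simp only [map_mul, Perm.mul_apply, S.fix hm hk, S.im d, cyc_ap d, if_pos,
      Perm.one_apply] at this
    exact d.ab this.symm

end Sec

lemma comm_le {f : E →* Perm Ω} (hf : CE f) (H : Subgroup E)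
    (hH : ∀ g, Perm.sign g = 1 → g ∈ H.map f) : commutator E ≤ H := by
  rw [commutator_def, Subgroup.commutator_le]
  intro x _ y _
  obtain ⟨a, ha, ea⟩ := hH _ (hf.ev x)
  obtain ⟨b, hb, eb⟩ := hH _ (hf.ev y)
  have hu := hf.cen (a⁻¹ * x) (by rw [map_mul, map_inv, ea, inv_mul_cancel])
  have hv := hf.cen (b⁻¹ * y) (by rw [map_mul, map_inv, eb, inv_mul_cancel])
  obtain ⟨u, rfl⟩ : ∃ u, x = a * u := ⟨a⁻¹ * x, by group⟩
  obtain ⟨v, rfl⟩ : ∃ v, y = b * v := ⟨b⁻¹ * y, by group⟩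
  rw [inv_mul_cancel_left] at hu hv
  have : ⁅a * u, b * v⁆ = a * b * a⁻¹ * b⁻¹ := by
    rw [commutatorElement_def]
    calc _ = a * (u * (b * v)) * u⁻¹ * a⁻¹ * (b * v)⁻¹ := by group
      _ = a * b * (v * a⁻¹) * (b * v)⁻¹ := by rw [hu]; group
      _ = _ := by rw [hv]; group
  rw [this]
  exact mul_mem (mul_mem (mul_mem ha hb) (inv_mem ha)) (inv_mem hb)

/-- the Schur multiplier has order at most two. -/
lemma mult {f : E →* Perm Ω} (hf : CE f) (h8 : 8 ≤ Fintype.card Ω) :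
    ∃ η, ∀ y ∈ commutator E, f y = 1 → y = 1 ∨ y = η := by
  obtain ⟨s, η, S⟩ := ex_sec hf h8
  refine ⟨η, fun y hy => S.kerH hf Finset.univ y (comm_le hf _ ?_ hy)⟩
  intro g hg
  have : alternatingGroup Ω ≤ (Subgroup.closure (Gen s η Finset.univ)).map f := by
    rw [← Perm.closure_three_cycles_eq_alternating, Subgroup.closure_le]
    intro g hg
    have hg : g.IsThreeCycle := hg
    obtain ⟨a, ha⟩ : g.support.Nonempty := by
      rw [← Finset.card_pos, hg.card_support]; norm_num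
    have h1 := hg.nodup_iff_mem_support.2 ha
    have d : D3 a (g a) (g (g a)) := by
      simp only [List.nodup_cons, List.mem_cons, not_or] at h1
      exact ⟨h1.1.1, h1.1.2.1, h1.2.1.1⟩
    refine ⟨s a (g a) (g (g a)), Subgroup.subset_closure (Or.inr ⟨_, Finset.mem_univ _, _,
      Finset.mem_univ _, _, Finset.mem_univ _, d, rfl⟩), ?_⟩
    rw [S.im d]
    exact (hg.eq_swap_mul_swap_iff_mem_support.2 ha).symm
  exact this (Perm.mem_alternatingGroup.2 hg)

omit [Fintype Ω] [DecidableEq Ω] in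
lemma bij {W : Type} [Group W] {F : W →* Perm Ω} {f : E →* Perm Ω} {η : W}
    (hη : ∀ y ∈ commutator W, F y = 1 → y = 1 ∨ y = η) (P : W →* E)
    (hP : Function.Surjective P) (hc : ∀ w, f (P w) = F w) (hE : commutator E = ⊤)
    (hz : ∃ z, z ≠ 1 ∧ f z = 1) : Function.Bijective (P.comp (commutator W).subtype) := by
  have sur : Function.Surjective (P.comp (commutator W).subtype) := by
    intro x
    have : x ∈ (commutator W).map P := by
      rw [commutator_def, Subgroup.map_commutator, ← MonoidHom.range_eq_map,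
        MonoidHom.range_eq_top.2 hP, ← commutator_def, hE]
      trivial
    obtain ⟨w, hw, e⟩ := this
    exact ⟨⟨w, hw⟩, e⟩
  refine ⟨(injective_iff_map_eq_one _).2 fun y hy => ?_, sur⟩
  obtain ⟨z, z1, fz⟩ := hz
  obtain ⟨w, rfl⟩ := sur z
  have hy' : P y = 1 := hy
  have z1' : P w ≠ 1 := z1
  rcases hη y y.2 (by rw [← hc, hy', map_one]) with h | h
  · exact Subtype.ext h
  rcases hη w w.2 (by rw [← hc]; exact fz) with k | k
  · exact absurd (by rw [k, map_one]) z1'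
  · exact absurd (by rw [k, ← h, hy']) z1'

/-- uniqueness of the double cover. -/
lemma uniq {E' : Type} [Group E'] {f : E →* Perm Ω} {f' : E' →* Perm Ω} (hf : CE f) (hf' : CE f')
    (h8 : 8 ≤ Fintype.card Ω) (hE : commutator E = ⊤) (hE' : commutator E' = ⊤)
    (hz : ∃ z, z ≠ 1 ∧ f z = 1) (hz' : ∃ z, z ≠ 1 ∧ f' z = 1) : Nonempty (E ≃* E') := by
  let W : Subgroup (E × E') :=
    (f.comp (MonoidHom.fst E E')).eqLocus (f'.comp (MonoidHom.snd E E'))
  let P : W →* E := (MonoidHom.fst E E').comp W.subtype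
  let P' : W →* E' := (MonoidHom.snd E E').comp W.subtype
  have hW : ∀ w : W, f' (P' w) = f (P w) := fun w => Eq.symm w.2
  have sP : Function.Surjective P := fun x => by
    obtain ⟨y, hy⟩ := hf'.sur _ (hf.ev x)
    exact ⟨⟨(x, y), hy.symm⟩, rfl⟩
  have sP' : Function.Surjective P' := fun y => by
    obtain ⟨x, hx⟩ := hf.sur _ (hf'.ev y)
    exact ⟨⟨(x, y), hx⟩, rfl⟩
  have hF : CE (f.comp P) := by
    refine ⟨fun g hg => ?_, fun w => hf.ev _, fun w hw y => Subtype.ext (Prod.ext ?_ ?_)⟩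
    · obtain ⟨x, rfl⟩ := hf.sur g hg
      obtain ⟨w, rfl⟩ := sP x
      exact ⟨w, rfl⟩
    · exact hf.cen (P w) hw (P y)
    · exact hf'.cen (P' w) ((hW w).trans hw) (P' y)
  obtain ⟨η, hη⟩ := mult hF h8
  exact ⟨(MulEquiv.ofBijective _ (bij hη P sP (fun _ => rfl) hE hz)).symm.trans
    (MulEquiv.ofBijective _ (bij hη P' sP' hW hE' hz'))⟩

/-- the even part of a Schur cover. -/
lemma even {X : Type} [Group X] (C : Cover Ω X) (h8 : 8 ≤ Fintype.card Ω) :
    CE (C.π.comp C.toSg.sg.ker.subtype) ∧ commutator C.toSg.sg.ker = ⊤ := by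
  have hf : CE (C.π.comp C.toSg.sg.ker.subtype) := by
    refine ⟨fun g hg => ?_, fun x => x.2, fun x hx y => Subtype.ext ?_⟩
    · obtain ⟨x, rfl⟩ := C.surj g
      exact ⟨⟨x, hg⟩, rfl⟩
    · rcases (C.ker x).1 hx with h | h
      · simp [h]
      · simpa [h] using C.toSg.zc y
  refine ⟨hf, eq_top_iff.2 fun x _ => ?_⟩
  obtain ⟨e⟩ : Nonempty (Fin 4 ↪ Ω) :=
    Function.Embedding.nonempty_of_card_le (by rw [Fintype.card_fin]; omega)
  have ne : ∀ i j : Fin 4, i ≠ j → e i ≠ e j := fun i j h => e.injective.ne h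
  have ab := ne 0 1 (by decide)
  have ac := ne 0 2 (by decide)
  have ad := ne 0 3 (by decide)
  have bc := ne 1 2 (by decide)
  have bd := ne 1 3 (by decide)
  have cd := ne 2 3 (by decide)
  generalize e 0 = a, e 1 = b, e 2 = c, e 3 = d at ab ac ad bc bd cd
  have ev : ∀ {i j k l}, i ≠ j → k ≠ l → C.t i j * C.t k l ∈ C.toSg.sg.ker := by
    intro i j k l h h'
    simp [MonoidHom.mem_ker, C.πt _ _ h, C.πt _ _ h', Perm.sign_swap h, Perm.sign_swap h']
  have hz : (⟨C.z, C.toSg.zs⟩ : C.toSg.sg.ker) ∈ commutator C.toSg.sg.ker := by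
    have : (⟨C.z, C.toSg.zs⟩ : C.toSg.sg.ker) = ⁅(⟨_, ev ab cd⟩ : C.toSg.sg.ker), ⟨_, ev bd ac⟩⁆ := by
      apply Subtype.ext
      have s1 : Perm.sign (C.π (C.t a b * C.t c d)) = 1 := ev ab cd
      have e1 := C.t_conj (C.t a b * C.t c d) a c ac
      have e2 := C.t_conj (C.t a b * C.t c d) b d bd
      have e3 := C.t_conj (C.t a c) b d bd
      rw [if_pos s1, one_mul, map_mul, C.πt _ _ ab, C.πt _ _ cd] at e1 e2
      rw [C.πt _ _ ac, Perm.sign_swap ac, if_neg (by decide),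
        swap_apply_of_ne_of_ne ab.symm bc, swap_apply_of_ne_of_ne ad.symm cd.symm] at e3
      simp only [Perm.mul_apply, swap_apply_left, swap_apply_right, swap_apply_of_ne_of_ne ac ad,
        swap_apply_of_ne_of_ne bc bd, swap_apply_of_ne_of_ne ad.symm bd.symm,
        swap_apply_of_ne_of_ne ac.symm bc.symm] at e1 e2
      change C.z = (C.t a b * C.t c d) * (C.t b d * C.t a c) * (C.t a b * C.t c d)⁻¹ *
        (C.t b d * C.t a c)⁻¹
      generalize C.t a b * C.t c d = A at e1 e2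
      calc C.z = C.z * C.t b d * (C.t b d)⁻¹ := by group
        _ = C.t a c * C.t b d * (C.t b d * C.t a c)⁻¹ := by rw [← e3]; group
        _ = (A * C.t b d * A⁻¹) * (A * C.t a c * A⁻¹) * (C.t b d * C.t a c)⁻¹ := by rw [e1, e2]
        _ = _ := by group
    rw [this, commutator_def]
    exact Subgroup.commutator_mem_commutator (Subgroup.mem_top _) (Subgroup.mem_top _)
  have := perf ∅ (by rw [Finset.card_empty]; omega)
    ((commutator C.toSg.sg.ker).map (C.π.comp C.toSg.sg.ker.subtype)) ?_ _ (hf.ev x) (by simp)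
  · obtain ⟨y, hy, e⟩ := this
    have k : C.π ((x * y⁻¹ : C.toSg.sg.ker) : X) = 1 := by
      change (C.π.comp C.toSg.sg.ker.subtype) (x * y⁻¹) = 1
      rw [map_mul, map_inv, e, mul_inv_cancel]
    have k' : x * y⁻¹ ∈ commutator C.toSg.sg.ker := by
      rcases (C.ker _).1 k with h | h
      · rw [show x * y⁻¹ = 1 from Subtype.ext h]; exact one_mem _
      · rw [show x * y⁻¹ = ⟨C.z, C.toSg.zs⟩ from Subtype.ext h]; exact hz
    simpa using mul_mem k' hy
  · intro g h hg hh _ _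
    obtain ⟨y, rfl⟩ := hf.sur g hg
    obtain ⟨y', rfl⟩ := hf.sur h hh
    refine ⟨⁅y⁻¹, y'⁻¹⁆, Subgroup.commutator_mem_commutator (Subgroup.mem_top _)
      (Subgroup.mem_top _), ?_⟩
    simp [commutatorElement_def, mul_assoc]

end Iso

set_option linter.unusedVariables false in
open Iso in
theorem iso (hcox : CoxSt) (hmod : ModSt) (hcb : CbSt) : IsoSt := by
  intro n X0 _ _ f h8 hp hs hc hk
  obtain ⟨X, iX, fX, C, -⟩ := hmod (Fin n) 1
  have h8' : 8 ≤ Fintype.card (Fin n) := by rwa [Fintype.card_fin]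
  obtain ⟨hf', hp'⟩ := even C h8'
  have hf : CE ((alternatingGroup (Fin n)).subtype.comp f) := by
    refine ⟨fun g hg => ?_, fun x => Perm.mem_alternatingGroup.1 (f x).2, fun x hx y => ?_⟩
    · obtain ⟨x, hx⟩ := hs ⟨g, Perm.mem_alternatingGroup.2 hg⟩
      exact ⟨x, congrArg Subtype.val hx⟩
    · exact (Subgroup.mem_center_iff.1 (hc (Subtype.ext hx)) y).symm
  obtain ⟨e⟩ := uniq hf hf' h8' hp hp'
    (by
      obtain ⟨z, hz⟩ := Subgroup.ne_bot_iff_exists_ne_one.1 hk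
      exact ⟨z, fun h => hz (Subtype.ext h), congrArg Subtype.val z.2⟩)
    ⟨⟨C.z, C.toSg.zs⟩, fun h => C.z_ne (congrArg Subtype.val h), C.πz⟩
  have h01 : (⟨0, by omega⟩ : Fin n) ≠ ⟨1, by omega⟩ := by simp
  refine ⟨X, iX, fX, C, ⟨C.toSg, C.toSg.sg.ker.subtype.comp e.toMonoidHom,
    Subtype.val_injective.comp e.injective, fun g => ⟨fun hg => ?_, ?_⟩,
    C.t _ _, by rw [Cover.toSg_sg, C.πt _ _ h01, Perm.sign_swap h01]⟩, rfl⟩
  · obtain ⟨x, hx⟩ := e.surjective ⟨g, hg⟩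
    exact ⟨x, congrArg Subtype.val hx⟩
  · rintro ⟨x, rfl⟩
    exact (e x).2

end Pool.Agent.Lib.MP_1ae3da_al.GM
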