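import Pool.Agent.Lib.MP_1ae3da_al.GT

/-! Characters of `p'`-degree of a group with a normal Sylow subgroup. -/

namespace Pool.Agent.Lib.MP_1ae3da_al.GM

namespace Ito

/-- an averaging lemma. -/
lemma avg {H ι : Type} [Group H] [Fintype H] [Fintype ι] [Nonempty ι] (a : ι → H) (f g : H → K)
    (hf : ∀ x, ∑ i, f (a i * x) = 0) (hg : ∀ i x, g (a i * x) = g x) :
    ∑ x, f x * g x = 0 := by
  have h1 : ∀ i, ∑ x, f x * g x = ∑ x, f (a i * x) * g x := fun i =>
    (Fintype.sum_equiv (Equiv.mulLeft (a i)) _ _ fun x => by simp [hg]).symm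
  have h2 : (Fintype.card ι : K) * ∑ x, f x * g x = 0 := by
    rw [← nsmul_eq_mul, ← Finset.card_univ, ← Finset.sum_const,
      Finset.sum_congr rfl fun i _ => h1 i, Finset.sum_comm]
    simp [← Finset.sum_mul, hf]
  exact (mul_eq_zero.1 h2).resolve_left (Nat.cast_ne_zero.2 Fintype.card_ne_zero)

/-- a normal subgroup that does not change the character acts trivially. -/
lemma triv {G : Type} [Group G] [Fintype G] (hb : ChB G) {n : ℕ} (hn : 0 < n)
    (ρ : G →* Matrix (Fin n) (Fin n) K) (hρ : (fun x => (ρ x).trace) ∈ Irr G) (T : Subgroup G)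
    [hT : T.Normal] (h : ∀ r ∈ T, (ρ r).trace = n) : ∀ r ∈ T, ρ r = 1 := by
  classical
  have hc : ∀ x, (∑ r : T, ρ r) * ρ x = ρ x * ∑ r : T, ρ r := by
    intro x
    rw [Finset.sum_mul, Finset.mul_sum]
    refine Fintype.sum_equiv (MulAut.conjNormal (H := T) x⁻¹).toEquiv _ _ fun r => ?_
    simp [← map_mul, mul_assoc]
  obtain ⟨c, hc⟩ := hb.schur n ρ hρ _ hc
  have h1 := congrArg Matrix.trace hc
  rw [Matrix.trace_sum, Finset.sum_congr rfl fun (r : T) _ => h r r.2] at h1
  simp only [Finset.sum_const, Finset.card_univ, nsmul_eq_mul, Matrix.trace_smul,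
    Matrix.trace_one, Fintype.card_fin, smul_eq_mul] at h1
  have h2 : c ≠ 0 := by
    rintro rfl
    simp [hn.ne'] at h1
  intro r hr
  have h3 : ρ r * ∑ r : T, ρ r = ∑ r : T, ρ r := by
    rw [Finset.mul_sum]
    exact Fintype.sum_equiv (Equiv.mulLeft ⟨r, hr⟩) _ _ fun s => by simp
  rw [hc, Matrix.mul_smul, mul_one] at h3
  exact smul_right_injective _ h2 h3

/-- an irreducible character that is trivial on the commutator subgroup is linear. -/
lemma lin {G : Type} [Group G] [Fintype G] (ha : ChA G) (hb : ChB G) {θ : G → K} (hθ : θ ∈ Irr G)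
    (h : ∀ r ∈ commutator G, ∀ x, θ (r * x) = θ x) : ∃ l : G →* K, θ = ⇑l := by
  obtain ⟨m, hm⟩ := hθ
  obtain ⟨ρ, hρ⟩ := hb.real m θ hm
  have hi : (fun x => (ρ x).trace) ∈ Irr G := by
    rw [funext hρ]; exact ⟨m, hm⟩
  have h1 := triv hb hm.pos ρ hi (commutator G) fun r hr => by
    rw [hρ, ← mul_one r, h r hr, hm.one]
  have h2 : ∀ x, ∃ c : K, ρ x = c • 1 := fun x => hb.schur m ρ hi _ fun y => by
    have := h1 (x * y * x⁻¹ * y⁻¹)
      (Subgroup.commutator_mem_commutator (Subgroup.mem_top x) (Subgroup.mem_top y))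
    rw [← map_mul, ← map_mul, show x * y = x * y * x⁻¹ * y⁻¹ * (y * x) by group, map_mul, this,
      one_mul]
  choose c hc using h2
  have hm0 : (m : K) ≠ 0 := Nat.cast_ne_zero.2 hm.pos.ne'
  have h3 : ∀ x, θ x * θ x⁻¹ = m * m := by
    intro x
    have e : ρ x * ρ x⁻¹ = 1 := by rw [← map_mul, mul_inv_cancel, map_one]
    have e' := congrArg Matrix.trace e
    rw [hc x, hc x⁻¹] at e'
    rw [← hρ, ← hρ, hc x, hc x⁻¹]
    simp only [Matrix.mul_smul, mul_one, Matrix.trace_smul, Matrix.trace_one,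
      Fintype.card_fin, smul_eq_mul] at e' ⊢
    linear_combination (m : K) * e'
  have h4 := ha.orth1 θ ⟨m, hm⟩
  simp only [ip, h3, Finset.sum_const, Finset.card_univ, nsmul_eq_mul, Nat.card_eq_fintype_card] at h4
  rw [← mul_assoc, inv_mul_cancel₀ (Nat.cast_ne_zero.2 Fintype.card_ne_zero), one_mul] at h4
  have h5 : m * m = 1 := by exact_mod_cast h4
  obtain rfl : m = 1 := Nat.eq_one_of_mul_eq_one_right h5
  exact hb.lin1 θ hm

/-- the degree divides the index of a normal subgroup with a linear constituent on which the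
representation is a sum of conjugates. -/
lemma dvd_index (hch : ChSt) {G : Type} [Group G] [Fintype G] {n : ℕ} {χ : G → K}
    (hχ : IsIrr n χ) (R : Subgroup G) [hR : R.Normal] [Fintype R] (l : R →* K)
    (hl : ∑ r : R, χ r * l r⁻¹ ≠ 0) : n ∣ R.index := by
  classical
  obtain ⟨ρ, hρ⟩ := (hch.b G).real n χ hχ
  have hi : (fun x => (ρ x).trace) ∈ Irr G := by
    rw [funext hρ]; exact ⟨n, hχ⟩
  have hR0 : (Fintype.card R : K) ≠ 0 := Nat.cast_ne_zero.2 Fintype.card_ne_zero
  have hn0 : (n : K) ≠ 0 := Nat.cast_ne_zero.2 hχ.pos.ne'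
  obtain ⟨e, he⟩ : ∃ e : Matrix (Fin n) (Fin n) K,
      e = (Fintype.card R : K)⁻¹ • ∑ r : R, l r⁻¹ • ρ r := ⟨_, rfl⟩
  have hre : ∀ r : R, ρ r * e = l r • e := by
    intro r
    rw [he, Matrix.mul_smul, smul_comm (l r), Finset.mul_sum]
    congr 1
    rw [Finset.smul_sum]
    refine Fintype.sum_equiv (Equiv.mulLeft r) _ _ fun s => ?_
    rw [Matrix.mul_smul, smul_smul, ← map_mul, Equiv.coe_mulLeft, mul_inv_rev, map_mul l s⁻¹,
      mul_comm (l s⁻¹), ← mul_assoc, ← map_mul l, mul_inv_cancel, map_one, one_mul,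
      Subgroup.coe_mul]
  have he0 : e ≠ 0 := by
    intro h0
    have := congrArg Matrix.trace (he.symm.trans h0)
    simp only [Matrix.trace_smul, Matrix.trace_sum, hρ, smul_eq_mul, Matrix.trace_zero,
      mul_eq_zero, inv_eq_zero, hR0, false_or] at this
    exact hl (by simpa [mul_comm] using this)
  -- the product `e ρ(g) e`
  have hege : ∀ g : G, e * (ρ g * e) = ((Fintype.card R : K)⁻¹ *
      ∑ r : R, l (r⁻¹ * MulAut.conjNormal g⁻¹ r)) • (ρ g * e) := by
    intro g
    nth_rewrite 1 [he]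
    rw [Matrix.smul_mul, mul_smul, Finset.sum_mul, Finset.sum_smul]
    congr 1
    refine Finset.sum_congr rfl fun r _ => ?_
    rw [Matrix.smul_mul, map_mul, mul_smul, ← Matrix.mul_smul (ρ g), ← hre, ← mul_assoc,
      ← mul_assoc, ← map_mul, ← map_mul]
    simp [mul_assoc]
  have hee : e * e = e := by
    have := hege 1
    simpa [hR0] using this
  let I : Subgroup G :=
    { carrier := {g | e * ρ g = ρ g * e}
      one_mem' := by simp
      mul_mem' := by
        intro a b ha hb
        simp only [Set.mem_ofPred_eq] at ha hb ⊢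
        rw [map_mul, ← mul_assoc, ha, mul_assoc, hb, mul_assoc]
      inv_mem' := by
        intro a ha
        simp only [Set.mem_ofPred_eq] at ha ⊢
        calc e * ρ a⁻¹ = ρ a⁻¹ * (ρ a * e) * ρ a⁻¹ := by
              rw [← mul_assoc, ← map_mul, inv_mul_cancel, map_one, one_mul]
          _ = ρ a⁻¹ * e := by
              rw [← ha, mul_assoc, mul_assoc, ← map_mul, mul_inv_cancel, map_one, mul_one] }
  have hint : ∀ g : G, IsIntegral ℤ (ρ g * e).trace := by
    intro g
    by_cases hg : ∀ r : R, l (MulAut.conjNormal g⁻¹ r) = l r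
    · have hI : g ∈ I := by
        change e * ρ g = ρ g * e
        nth_rewrite 1 [he]
        nth_rewrite 1 [he]
        rw [Matrix.smul_mul, Matrix.mul_smul, Finset.sum_mul, Finset.mul_sum]
        congr 1
        refine Fintype.sum_equiv (MulAut.conjNormal (H := R) g⁻¹).toEquiv _ _ fun r => ?_
        have := hg r⁻¹
        rw [map_inv] at this
        simp only [MulEquiv.toEquiv_eq_coe, EquivLike.coe_coe, this, Matrix.smul_mul,
          Matrix.mul_smul]
        simp [← map_mul, mul_assoc]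
      have hm := (hch.b I).mat (Fin n) (fun x => ρ x * e) fun x y => by
        have hy : e * ρ y = ρ y * e := y.2
        rw [Subgroup.coe_mul, map_mul, mul_assoc, mul_assoc, ← mul_assoc e, hy, mul_assoc, hee]
      exact (hch.b I).int _ ((hch.a I).ch_vc _ hm) ⟨g, hI⟩
    · let φ : R →* K :=
        { toFun := fun r => l (r⁻¹ * MulAut.conjNormal g⁻¹ r)
          map_one' := by simp
          map_mul' := fun a b => by simp only [map_mul, mul_inv_rev]; ring }
      have hφ : φ ≠ 1 := by
        intro h1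
        apply hg
        intro r
        have h2 : l (r⁻¹ * MulAut.conjNormal g⁻¹ r) = 1 := DFunLike.congr_fun h1 r
        rw [← mul_one (l r), ← h2, ← map_mul, mul_inv_cancel_left]
      have h0 : ∑ r : R, l (r⁻¹ * MulAut.conjNormal g⁻¹ r) = 0 := sum_hom_units_eq_zero φ hφ
      have h1 := hege g
      rw [h0, mul_zero, zero_smul] at h1
      have h2 : (ρ g * e).trace = 0 := by
        rw [← hee, ← mul_assoc, Matrix.trace_mul_comm, h1, Matrix.trace_zero]
      rw [h2]; exact isIntegral_zero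
  -- the central element
  have hz : ∑ g, χ g⁻¹ • ρ g = ((Fintype.card G : K) / n) • 1 := by
    have hcl := (hch.a G).cl χ ((hch.a G).ch_vc _ ((hch.a G).irr_ch _ ⟨n, hχ⟩))
    obtain ⟨c, hc⟩ := (hch.b G).schur n ρ hi (∑ g, χ g⁻¹ • ρ g) fun x => by
      rw [Finset.sum_mul, Finset.mul_sum]
      refine Fintype.sum_equiv (MulAut.conj x⁻¹).toEquiv _ _ fun r => ?_
      have := hcl r⁻¹ x⁻¹
      simp only [inv_inv] at this
      simp [← map_mul, mul_assoc, ← this]
    have h1 := congrArg Matrix.trace hc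
    have h2 := (hch.a G).orth1 χ ⟨n, hχ⟩
    simp only [Matrix.trace_sum, Matrix.trace_smul, hρ, smul_eq_mul, Matrix.trace_one,
      Fintype.card_fin] at h1
    rw [ip, Nat.card_eq_fintype_card, inv_mul_eq_one₀ (Nat.cast_ne_zero.2 Fintype.card_ne_zero)] at h2
    rw [hc, h2, Finset.sum_congr rfl fun x _ => mul_comm (χ x) (χ x⁻¹), h1,
      mul_div_cancel_right₀ _ hn0]
  have hbij : Function.Bijective fun w : (G ⧸ R) × R => w.1.out * (w.2 : G) := by
    rw [Fintype.bijective_iff_surjective_and_card]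
    refine ⟨fun g => ?_, ?_⟩
    · obtain ⟨h, hh⟩ := QuotientGroup.mk_out_eq_mul R g
      exact ⟨(QuotientGroup.mk g, h⁻¹), by simp [hh]⟩
    · simp only [← Nat.card_eq_fintype_card, Nat.card_prod]
      exact (Subgroup.card_eq_card_quotient_mul_card_subgroup R).symm
  have hce : ((R.index : K) / n) • e =
      ∑ q : G ⧸ R, (ρ (q.out)⁻¹ * e).trace • (ρ q.out * e) := by
    have h1 : (∑ g, χ g⁻¹ • ρ g) * e = ((Fintype.card G : K) / n) • e := by
      rw [hz, Matrix.smul_mul, one_mul]
    rw [Finset.sum_mul, ← hbij.sum_comp, Fintype.sum_prod_type] at h1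
    have h2 : (Fintype.card G : K) = Fintype.card R * R.index := by
      rw [← Nat.card_eq_fintype_card, ← Nat.card_eq_fintype_card, ← Nat.cast_mul,
        Subgroup.card_mul_index]
    apply smul_right_injective _ hR0
    simp only
    rw [smul_smul, ← mul_div_assoc, ← h2, ← h1, Finset.smul_sum]
    refine Finset.sum_congr rfl fun q _ => ?_
    have h3 : (Fintype.card R : K) * (ρ (q.out)⁻¹ * e).trace =
        ∑ r : R, χ (q.out * r)⁻¹ * l r := by
      rw [he, Matrix.mul_smul, Matrix.trace_smul, smul_eq_mul, mul_inv_cancel_left₀ hR0,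
        Finset.mul_sum, Matrix.trace_sum]
      refine Fintype.sum_equiv (Equiv.inv R) _ _ fun r => ?_
      rw [Matrix.mul_smul, Matrix.trace_smul, Matrix.trace_mul_comm, ← map_mul, hρ]
      simp [mul_comm]
    rw [smul_smul, h3, Finset.sum_smul]
    refine Finset.sum_congr rfl fun r _ => ?_
    rw [Matrix.smul_mul, map_mul, mul_assoc, hre, Matrix.mul_smul, smul_smul]
  let B := integralClosure ℤ K
  let N : Submodule B (Matrix (Fin n) (Fin n) K) := Submodule.span B (Set.range fun g => ρ g * e)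
  have hN0 : N ≠ ⊥ := by
    intro h0
    have : ρ 1 * e ∈ N := Submodule.subset_span ⟨1, rfl⟩
    rw [h0, map_one, one_mul] at this
    exact he0 this
  have hc : IsIntegral B ((R.index : K) / n) := by
    refine isIntegral_of_smul_mem_submodule N hN0 (Submodule.fg_span (Set.finite_range _)) _ ?_
    intro x hx
    induction hx using Submodule.span_induction with
    | mem x hx =>
      obtain ⟨g, rfl⟩ := hx
      rw [← Matrix.mul_smul, hce, Finset.mul_sum]
      refine Submodule.sum_mem _ fun q _ => ?_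
      rw [Matrix.mul_smul, ← mul_assoc, ← map_mul]
      exact N.smul_mem (⟨_, hint (q.out)⁻¹⟩ : B) (Submodule.subset_span ⟨_, rfl⟩)
    | zero => simp
    | add x y _ _ hx hy => rw [smul_add]; exact N.add_mem hx hy
    | smul a x _ hx => rw [smul_comm]; exact N.smul_mem a hx
  have hc' : IsIntegral ℤ ((R.index : K) / n) := isIntegral_trans _ hc
  have hq : (R.index : K) / n = algebraMap ℚ K ((R.index : ℚ) / n) := by simp
  rw [hq, isIntegral_algebraMap_iff (algebraMap ℚ K).injective] at hc'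
  obtain ⟨y, hy⟩ := IsIntegrallyClosed.isIntegral_iff.1 hc'
  have hn1 : (n : ℚ) ≠ 0 := Nat.cast_ne_zero.2 hχ.pos.ne'
  rw [eq_div_iff hn1] at hy
  have : (R.index : ℤ) = n * y := by
    have h4 : ((R.index : ℤ) : ℚ) = ((n * y : ℤ) : ℚ) := by
      push_cast; rw [← hy]; simp [mul_comm]
    exact_mod_cast h4
  exact Int.natCast_dvd_natCast.1 ⟨y, this⟩

end Ito

theorem ito (hch : ChSt) : ItoSt := by
  intro G _ _ p R hp hR hPG hidx χ hχ
  classical
  let _ := Fintype.ofFinite G
  have : Fact p.Prime := ⟨hp⟩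
  obtain ⟨n, hn⟩ := hχ
  have hres : χ ∘ R.subtype ∈ Ch R :=
    (hch.h R G R.subtype).compC χ ((hch.a G).irr_ch χ ⟨n, hn⟩)
  have hcl := (hch.a G).cl χ ((hch.a G).ch_vc _ ((hch.a G).irr_ch _ ⟨n, hn⟩))
  have hexp := (hch.a R).expand _ ((hch.a R).cl _ ((hch.a R).ch_vc _ hres))
    (hch.a R).fin.toFinset (by simp)
  have h1 : (n : K) = ∑ θ ∈ (hch.a R).fin.toFinset, ip (χ ∘ R.subtype) θ * θ 1 := by
    have := congrFun hexp 1
    simpa [hn.one, Finset.sum_apply] using this
  have hmem : ∀ r : R, r ∈ commutator R ↔ (r : G) ∈ ⁅R, R⁆ := by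
    intro r
    rw [← Subgroup.map_subtype_commutator]
    exact (Subgroup.mem_map_iff_mem R.subtype_injective).symm
  constructor
  · rintro ⟨n', hn', hpn⟩
    obtain rfl : n' = n := by
      have := hn'.one.symm.trans hn.one
      exact_mod_cast this
    rcases (hch.b G).ker χ ⟨n', hn⟩ ⁅R, R⁆ with h | h
    · exact h
    exfalso
    apply hpn
    have h2 : ∃ k : ℕ, (n' : K) = p * k := by
      rw [h1]
      refine Finset.sum_induction _ (fun x : K => ∃ k : ℕ, x = p * k) ?_ ⟨0, by simp⟩ ?_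
      · rintro a b ⟨k, rfl⟩ ⟨k', rfl⟩
        exact ⟨k + k', by push_cast; ring⟩
      · intro θ hθ
        rw [Set.Finite.mem_toFinset] at hθ
        obtain ⟨a, ha⟩ := (((hch.a R).ch_iff _).1 hres).2 θ hθ
        obtain ⟨m, hm⟩ := hθ
        obtain ⟨k, hk⟩ := hPG.exists_card_eq
        have hd := (hch.b R).deg m θ hm
        rw [hk, Nat.dvd_prime_pow hp] at hd
        obtain ⟨j, -, rfl⟩ := hd
        rcases j with _ | j
        · obtain ⟨l, rfl⟩ := (hch.b R).lin1 θ hm
          refine ⟨0, ?_⟩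
          have h3 := Ito.avg (H := R) (ι := ↥⁅R, R⁆)
            (fun r => ⟨r.1, R.commutator_le_self r.2⟩) (χ ∘ R.subtype) (fun x => l x⁻¹)
            (fun x => h x) (fun r x => by
              have h4 := Abelianization.commutator_subset_ker l.toHomUnits
                (inv_mem ((hmem ⟨r.1, R.commutator_le_self r.2⟩).2 r.2))
              rw [MonoidHom.mem_ker, Units.ext_iff, MonoidHom.coe_toHomUnits] at h4
              rw [mul_inv_rev, map_mul, h4, Units.val_one, mul_one])
          rw [ip, h3]; simp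
        · exact ⟨a * p ^ j, by rw [ha, hm.one]; push_cast; ring⟩
    obtain ⟨k, hk⟩ := h2
    exact ⟨k, by exact_mod_cast hk⟩
  · intro h
    refine ⟨n, hn, fun hpn => hidx (hpn.trans ?_)⟩
    obtain ⟨θ, hθ, hθ0⟩ := Finset.exists_ne_zero_of_sum_ne_zero
      (h1 ▸ Nat.cast_ne_zero.2 hn.pos.ne' :
        ∑ θ ∈ (hch.a R).fin.toFinset, ip (χ ∘ R.subtype) θ * θ 1 ≠ 0)
    rw [Set.Finite.mem_toFinset] at hθ
    have hθ1 := left_ne_zero_of_mul hθ0
    rcases (hch.b R).ker θ hθ (commutator R) with h2 | h2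
    · obtain ⟨l, rfl⟩ := Ito.lin (hch.a R) (hch.b R) hθ h2
      exact Ito.dvd_index hch hn R l (right_ne_zero_of_mul hθ1)
    · exfalso
      apply hθ1
      have h3 := Ito.avg (H := R) (ι := commutator R) (fun r => r.1) θ
        (fun x => (χ ∘ R.subtype) x⁻¹) h2 (fun r x => by
          have h4 := h _ (inv_mem ((hmem r.1).1 r.2)) (x : G)⁻¹
          have h5 := hcl ((x : G)⁻¹ * (r.1 : G)⁻¹) (x : G)
          simp only [Function.comp_apply, mul_inv_rev, Subgroup.coe_subtype, Subgroup.coe_mul,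
            Subgroup.coe_inv]
          rw [← h5, ← h4]
          congr 1; group)
      rw [(hch.a R).symm, ip, h3, mul_zero]

end Pool.Agent.Lib.MP_1ae3da_al.GM
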