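import Pool.Agent.Lib.MP_1ae3da_al.GT

/-! Clifford theory for a subgroup of index two. -/

namespace Pool.Agent.Lib.MP_1ae3da_al.GM

namespace Ix

variable {G G0 : Type} [Group G] [Group G0] (Γ : Gr G G0)

lemma sg_cases (g : G) : Γ.sg g = 1 ∨ Γ.sg g = -1 := Int.units_eq_one_or _

lemma tw_tw (χ : G → K) : Γ.tw (Γ.tw χ) = χ := by
  funext x
  simp only [Sg.tw]
  rw [← mul_assoc, uK_sq, one_mul]

lemma tw_ι (χ : G → K) : Γ.tw χ ∘ Γ.ι = χ ∘ Γ.ι := by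
  funext x
  simp [Sg.tw, Γ.sg_ι]

lemma cj_cj (t t' : G) (x : G0) : Γ.cj t (Γ.cj t' x) = Γ.cj (t * t') x :=
  Γ.inj (by simp [Gr.ι_cj, mul_assoc])

lemma cj_mul (θ : G0 → K) (t t' : G) : (θ ∘ Γ.cj t) ∘ Γ.cj t' = θ ∘ Γ.cj (t * t') := by
  funext x
  simp [cj_cj]

lemma cj_one (t : G) : Γ.cj t 1 = 1 := Γ.inj (by simp [Gr.ι_cj])

lemma cj_inv (t : G) (x : G0) : Γ.cj t x⁻¹ = (Γ.cj t x)⁻¹ :=
  Γ.inj (by simp [Gr.ι_cj, mul_assoc])

lemma cj_even (θ : G0 → K) (h : Cl θ) (t : G) (ht : Γ.sg t = 1) : θ ∘ Γ.cj t = θ := by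
  obtain ⟨y, rfl⟩ := (Γ.rng t).1 ht
  funext x
  have : Γ.cj (Γ.ι y) x = y * x * y⁻¹ := Γ.inj (by simp [Gr.ι_cj])
  simp only [Function.comp_apply, this]
  exact h x y

lemma cj_odd (θ : G0 → K) (h : Cl θ) (t t' : G) (ht : Γ.sg t = Γ.sg t') :
    θ ∘ Γ.cj t = θ ∘ Γ.cj t' := by
  have h1 : Γ.sg (t * t'⁻¹) = 1 := by rw [map_mul, map_inv, ht, mul_inv_cancel]
  have := cj_mul Γ θ (t * t'⁻¹) t'
  rw [cj_even Γ θ h _ h1, inv_mul_cancel_right] at this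
  exact this.symm

lemma res_cj (χ : G → K) (h : Cl χ) (t : G) : (χ ∘ Γ.ι) ∘ Γ.cj t = χ ∘ Γ.ι := by
  funext x
  simp only [Function.comp_apply, Gr.ι_cj]
  exact h _ _

lemma sum_even [Fintype G] [Fintype G0] (F : G → K) (hF : ∀ x, Γ.sg x = -1 → F x = 0) :
    ∑ g, F g = ∑ x, F (Γ.ι x) := by
  symm
  refine Fintype.sum_of_injective Γ.ι Γ.inj _ _ ?_ fun _ => rfl
  intro g hg
  rcases sg_cases Γ g with h | h
  · exact absurd ((Γ.rng g).1 h) hg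
  · exact hF g h

include Γ in
lemma card_eq [Fintype G] [Fintype G0] : (Nat.card G : K) = 2 * Nat.card G0 := by
  obtain ⟨t, ht⟩ := Γ.odd
  have h0 : ∑ g : G, uK (Γ.sg g) = 0 := by
    have : ∑ g : G, uK (Γ.sg g) = ∑ g : G, uK (Γ.sg (t * g)) :=
      (Fintype.sum_equiv (Equiv.mulLeft t) _ _ fun _ => rfl).symm
    simp only [map_mul, ht, neg_one_mul, uK_neg, Finset.sum_neg_distrib] at this
    have h2 : (2 : K) * ∑ g : G, uK (Γ.sg g) = 0 := by linear_combination this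
    exact (mul_eq_zero.1 h2).resolve_left two_ne_zero
  have h1 := sum_even Γ (fun g => 1 + uK (Γ.sg g)) (fun x hx => by simp [hx])
  simp only [Finset.sum_add_distrib, h0, Γ.sg_ι, uK_one, Finset.sum_const, Finset.card_univ,
    nsmul_eq_mul, mul_one, add_zero] at h1
  rw [Nat.card_eq_fintype_card, Nat.card_eq_fintype_card, h1]
  ring

lemma ipι [Fintype G] [Fintype G0] (f g : G → K) (hf : ∀ x, Γ.sg x = -1 → f x = 0) :
    ip (f ∘ Γ.ι) (g ∘ Γ.ι) = 2 * ip f g := by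
  unfold ip
  rw [sum_even Γ (fun x => f x * g x⁻¹) (fun x hx => by simp [hf x hx]), card_eq Γ]
  have : (Nat.card G0 : K) ≠ 0 := Nat.cast_ne_zero.2 Nat.card_pos.ne'
  simp only [Function.comp_apply, map_inv]
  field_simp

lemma ip_res [Fintype G] [Fintype G0] (f g : G → K) :
    ip (f ∘ Γ.ι) (g ∘ Γ.ι) = ip f g + ip (Γ.tw f) g := by
  have h := ipι Γ (f + Γ.tw f) g (fun x hx => by simp [Sg.tw, hx])
  have h2 : (f + Γ.tw f) ∘ Γ.ι = f ∘ Γ.ι + f ∘ Γ.ι := by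
    rw [Pi.add_comp, tw_ι]
  rw [h2, ip_add_left, ip_add_left] at h
  have h3 : (2 : K) * (ip (f ∘ Γ.ι) (g ∘ Γ.ι) - (ip f g + ip (Γ.tw f) g)) = 0 := by
    linear_combination h
  exact sub_eq_zero.1 ((mul_eq_zero.1 h3).resolve_left two_ne_zero)

lemma ip_cj [Fintype G0] (f g : G0 → K) (t : G) :
    ip (f ∘ Γ.cj t) (g ∘ Γ.cj t) = ip f g := by
  unfold ip
  congr 1
  refine Fintype.sum_equiv (Γ.cjA t).toEquiv _ _ fun x => ?_
  simp only [Function.comp_apply, cj_inv]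
  rfl

/-- the induced function. -/
noncomputable def J (t : G) (θ : G0 → K) : G → K := Function.extend Γ.ι (θ + θ ∘ Γ.cj t) 0

lemma J_ι (t : G) (θ : G0 → K) : J Γ t θ ∘ Γ.ι = θ + θ ∘ Γ.cj t := by
  funext x
  exact Γ.inj.extend_apply _ _ x

lemma J_ι' (t : G) (θ : G0 → K) (x : G0) : J Γ t θ (Γ.ι x) = θ x + θ (Γ.cj t x) :=
  congrFun (J_ι Γ t θ) x

lemma J_odd (t : G) (θ : G0 → K) (x : G) (hx : Γ.sg x = -1) : J Γ t θ x = 0 := by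
  unfold J
  rw [Function.extend_apply']
  · rfl
  · intro h
    rw [(Γ.rng x).2 h] at hx
    exact absurd hx (by decide)

lemma ext_even {f g : G → K} (hf : ∀ x, Γ.sg x = -1 → f x = 0)
    (hg : ∀ x, Γ.sg x = -1 → g x = 0) (h : f ∘ Γ.ι = g ∘ Γ.ι) : f = g := by
  funext x
  rcases sg_cases Γ x with hx | hx
  · obtain ⟨y, rfl⟩ := (Γ.rng x).1 hx
    exact congrFun h y
  · rw [hf x hx, hg x hx]

lemma tw_of_odd {f : G → K} (hf : ∀ x, Γ.sg x = -1 → f x = 0) : Γ.tw f = f := by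
  funext x
  rcases sg_cases Γ x with hx | hx
  · simp [Sg.tw, hx]
  · simp [Sg.tw, hf x hx]

lemma odd_of_tw {f : G → K} (hf : Γ.tw f = f) (x : G) (hx : Γ.sg x = -1) : f x = 0 := by
  have := congrFun hf x
  simp only [Sg.tw, hx, uK_neg, uK_one] at this
  have h2 : (2 : K) * f x = 0 := by linear_combination -this
  exact (mul_eq_zero.1 h2).resolve_left two_ne_zero

lemma J_cl (t : G) (ht : Γ.sg t = -1) (θ : G0 → K) (h : Cl θ) : Cl (J Γ t θ) := by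
  intro g k
  rcases sg_cases Γ g with hg | hg
  · obtain ⟨y, rfl⟩ := (Γ.rng g).1 hg
    rw [← Γ.ι_cj, J_ι', J_ι', cj_cj]
    rcases sg_cases Γ k with hk | hk
    · have h1 := congrFun (cj_even Γ θ h k hk) y
      have h2 := congrFun (cj_odd Γ θ h (t * k) t (by simp [hk])) y
      simp only [Function.comp_apply] at h1 h2
      rw [h1, h2]
    · have h1 := congrFun (cj_even Γ θ h (t * k) (by simp [hk, ht])) y
      have h2 := congrFun (cj_odd Γ θ h k t (by rw [hk, ht])) y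
      simp only [Function.comp_apply] at h1 h2
      rw [h1, h2, add_comm]
  · rw [J_odd Γ t θ g hg, J_odd]
    rw [map_mul, map_mul, map_inv, mul_inv_cancel_comm, hg]

lemma J_ip [Fintype G] [Fintype G0] (t : G) (θ : G0 → K) (φ : G → K) (hφ : Cl φ) :
    ip (J Γ t θ) φ = ip θ (φ ∘ Γ.ι) := by
  have h := ipι Γ (J Γ t θ) φ (J_odd Γ t θ)
  have h2 := ip_cj Γ θ (φ ∘ Γ.ι) t
  rw [res_cj Γ φ hφ] at h2
  rw [J_ι, ip_add_left, h2] at h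
  have h3 : (2 : K) * (ip (J Γ t θ) φ - ip θ (φ ∘ Γ.ι)) = 0 := by linear_combination -h
  exact sub_eq_zero.1 ((mul_eq_zero.1 h3).resolve_left two_ne_zero)

section fin
variable (hch : ChSt)
include hch

lemma irr_cl {H : Type} [Group H] [Fintype H] {χ : H → K} (h : χ ∈ Irr H) : Cl χ :=
  (hch.a H).cl _ ((hch.a H).ch_vc _ ((hch.a H).irr_ch _ h))

lemma deg_of {H : Type} [Group H] [Fintype H] {χ : H → K} (h : χ ∈ Irr H) {n : ℕ}
    (hn : χ 1 = n) : IsIrr n χ := by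
  obtain ⟨m, hm⟩ := h
  have : m = n := by
    have := hm.one
    rw [hn] at this
    exact_mod_cast this.symm
  exact this ▸ hm

lemma ip01 {H : Type} [Group H] [Fintype H] {χ ψ : H → K} (h : χ ∈ Irr H) (h' : ψ ∈ Irr H) :
    ip χ ψ = 0 ∨ ip χ ψ = 1 := by
  by_cases e : χ = ψ
  · right; rw [e]; exact (hch.a H).orth1 _ h'
  · left; exact (hch.a H).orth0 _ h _ h' e

lemma ch_two {H : Type} [Group H] [Fintype H] {f : H → K} (hf : f ∈ Ch H) (h2 : ip f f = 2) :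
    ∃ χ ∈ Irr H, ∃ ψ ∈ Irr H, χ ≠ ψ ∧ f = χ + ψ := by
  have A := hch.a H
  obtain ⟨χ, hχ, ψ, hψ, u, v, hne, e⟩ := A.norm_two f (A.ch_vc _ hf) h2
  have key : ∀ (w : ℤˣ) (m : ℕ), uK w = m → w = 1 := by
    intro w m hw
    rcases Int.units_eq_one_or w with rfl | rfl
    · rfl
    · exfalso
      rw [uK_neg, uK_one] at hw
      have : ((m + 1 : ℕ) : K) = 0 := by push_cast; rw [← hw]; ring
      exact absurd (Nat.cast_eq_zero.1 this) (by omega)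
  obtain ⟨m, hm⟩ := ((A.ch_iff f).1 hf).2 χ hχ
  obtain ⟨m', hm'⟩ := ((A.ch_iff f).1 hf).2 ψ hψ
  rw [e, ip_add_left, ip_smul_left, ip_smul_left] at hm hm'
  rw [A.orth1 _ hχ, A.orth0 _ hψ _ hχ hne.symm, mul_one, mul_zero, add_zero] at hm
  rw [A.orth1 _ hψ, A.orth0 _ hχ _ hψ hne, mul_one, mul_zero, zero_add] at hm'
  refine ⟨χ, hχ, ψ, hψ, hne, ?_⟩
  rw [e, key u m hm, key v m' hm', uK_one, one_smul, one_smul]

variable [Fintype G] [Fintype G0]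

omit [Fintype G0] in
lemma tw_irr (n : ℕ) (χ : G → K) (h : IsIrr n χ) : IsIrr n (Γ.tw χ) :=
  (hch.b G).lin ⟨⟨fun x => uK (Γ.sg x), by simp⟩, fun x y => by simp [uK_mul]⟩ n χ h

omit [Fintype G] in
lemma cj_irr (n : ℕ) (θ : G0 → K) (t : G) (h : IsIrr n θ) : IsIrr n (θ ∘ Γ.cj t) := by
  classical
  exact (hch.h G0 G0 (Γ.cjA t).toMonoidHom).infl (Γ.cjA t).surjective n θ h

lemma res_ch {χ : G → K} (h : χ ∈ Ch G) : χ ∘ Γ.ι ∈ Ch G0 := by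
  classical
  exact (hch.h G0 G Γ.ι).compC χ h

lemma J_ch (t : G) (ht : Γ.sg t = -1) {θ : G0 → K} (h : θ ∈ Irr G0) : J Γ t θ ∈ Ch G := by
  refine ((hch.a G).ch_iff _).2 ⟨J_cl Γ t ht θ (irr_cl hch h), fun χ hχ => ?_⟩
  rw [J_ip Γ t θ χ (irr_cl hch hχ), (hch.a G0).symm]
  exact (((hch.a G0).ch_iff _).1 (res_ch Γ hch ((hch.a G).irr_ch _ hχ))).2 θ h

lemma a2 (n : ℕ) (χ : G → K) (h : IsIrr n χ) (ht : Γ.tw χ ≠ χ) : IsIrr n (χ ∘ Γ.ι) := by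
  have A := hch.a G
  refine deg_of hch ((hch.a G0).ch_one _ (res_ch Γ hch (A.irr_ch _ ⟨n, h⟩)) ?_) ?_
  · rw [ip_res, A.orth1 _ ⟨n, h⟩, A.orth0 _ ⟨n, tw_irr Γ hch n χ h⟩ _ ⟨n, h⟩ ht, add_zero]
  · simp only [Function.comp_apply, map_one]
    exact h.one

lemma b2J (m : ℕ) (θ : G0 → K) (h : IsIrr m θ) (t : G) (ht : Γ.sg t = -1)
    (hne : θ ∘ Γ.cj t ≠ θ) : IsIrr (2 * m) (J Γ t θ) := by
  have A := hch.a G0
  refine deg_of hch ((hch.a G).ch_one _ (J_ch Γ hch t ht ⟨m, h⟩) ?_) ?_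
  · rw [J_ip Γ t θ _ (J_cl Γ t ht θ (irr_cl hch ⟨m, h⟩)), J_ι, ip_add_right, A.orth1 _ ⟨m, h⟩,
      A.orth0 _ ⟨m, h⟩ _ ⟨m, cj_irr Γ hch m θ t h⟩ hne.symm, add_zero]
  · rw [← map_one Γ.ι, J_ι', cj_one, h.one]
    push_cast
    ring

lemma a1 (n : ℕ) (θ : G0 → K) (h : IsIrr n θ) (t : G) (ht : Γ.sg t = -1)
    (he : θ ∘ Γ.cj t = θ) : ∃ χ : G → K, IsIrr n χ ∧ χ ∘ Γ.ι = θ ∧ Γ.tw χ ≠ χ := by
  have A := hch.a G0
  have B := hch.a G
  have hθ : θ ∈ Irr G0 := ⟨n, h⟩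
  obtain ⟨χ, hχ, ψ, hψ, hne, e⟩ := ch_two hch (J_ch Γ hch t ht hθ) (by
    rw [J_ip Γ t θ _ (J_cl Γ t ht θ (irr_cl hch hθ)), J_ι, he, ip_add_right, A.orth1 _ hθ]
    norm_num)
  have h1 : ip (χ ∘ Γ.ι) θ ≠ 0 := by
    rw [A.symm, ← J_ip Γ t θ χ (irr_cl hch hχ), e, ip_add_left, B.orth1 _ hχ,
      B.orth0 _ hψ _ hχ hne.symm]
    norm_num
  have h2 : ip (ψ ∘ Γ.ι) θ ≠ 0 := by
    rw [A.symm, ← J_ip Γ t θ ψ (irr_cl hch hψ), e, ip_add_left, B.orth1 _ hψ,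
      B.orth0 _ hχ _ hψ hne]
    norm_num
  obtain ⟨a, ha, ha0⟩ := A.ch_deg _ (A.ch_sub _ (res_ch Γ hch (B.irr_ch _ hχ)) θ hθ h1)
  obtain ⟨b, hb, -⟩ := A.ch_deg _ (A.ch_sub _ (res_ch Γ hch (B.irr_ch _ hψ)) θ hθ h2)
  have h3 := congrFun (J_ι Γ t θ) 1
  rw [he, e] at h3
  simp only [Function.comp_apply, Pi.add_apply, Pi.sub_apply] at h3 ha hb
  have h4 : ((a + b : ℕ) : K) = 0 := by
    push_cast
    linear_combination h3 - ha - hb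
  have h5 : χ ∘ Γ.ι = θ := sub_eq_zero.1 (ha0 (by have := Nat.cast_eq_zero.1 h4; omega))
  refine ⟨χ, deg_of hch hχ ?_, h5, fun htw => ?_⟩
  · rw [← h.one, ← h5]; simp
  · have := ip_res Γ χ χ
    rw [h5, htw, A.orth1 _ hθ, B.orth1 _ hχ] at this
    norm_num at this

lemma b1 (n : ℕ) (χ : G → K) (h : IsIrr n χ) (htw : Γ.tw χ = χ) : ∃ (m : ℕ) (θ : G0 → K),
    IsIrr m θ ∧ n = 2 * m ∧ ∀ t, Γ.sg t = -1 → θ ∘ Γ.cj t ≠ θ ∧ χ ∘ Γ.ι = θ + θ ∘ Γ.cj t := by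
  have A := hch.a G0
  have B := hch.a G
  have hχ : χ ∈ Irr G := ⟨n, h⟩
  obtain ⟨θ, hθ, η, hη, hne, e⟩ := ch_two hch (res_ch Γ hch (B.irr_ch _ hχ)) (by
    rw [ip_res, htw, B.orth1 _ hχ]
    norm_num)
  obtain ⟨m, hm⟩ := hθ
  have hθ : θ ∈ Irr G0 := ⟨m, hm⟩
  have h1 : ip (χ ∘ Γ.ι) θ = 1 := by
    rw [e, ip_add_left, A.orth1 _ hθ, A.orth0 _ hη _ hθ hne.symm, add_zero]
  have key : ∀ t, Γ.sg t = -1 → θ ∘ Γ.cj t ≠ θ ∧ χ ∘ Γ.ι = θ + θ ∘ Γ.cj t := by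
    intro t ht
    have hn : θ ∘ Γ.cj t ≠ θ := by
      intro he
      obtain ⟨ψ, hψ, e1, -⟩ := a1 Γ hch m θ hm t ht he
      have := ip_res Γ χ ψ
      rw [e1, h1, htw] at this
      rcases ip01 hch hχ ⟨m, hψ⟩ with h0 | h0 <;> rw [h0] at this <;> norm_num at this
    refine ⟨hn, ?_⟩
    have hθt : θ ∘ Γ.cj t ∈ Irr G0 := ⟨m, cj_irr Γ hch m θ t hm⟩
    have h2 := ip_cj Γ (χ ∘ Γ.ι) θ t
    rw [res_cj Γ χ (irr_cl hch hχ), h1, e, ip_add_left, A.orth0 _ hθ _ hθt hn.symm,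
      zero_add] at h2
    have : η = θ ∘ Γ.cj t := by
      by_contra hc
      rw [A.orth0 _ hη _ hθt hc] at h2
      exact zero_ne_one h2
    rw [e, this]
  refine ⟨m, θ, hm, ?_, key⟩
  obtain ⟨t, ht⟩ := Γ.odd
  have := congrFun (key t ht).2 1
  simp only [Function.comp_apply, Pi.add_apply, map_one, cj_one, h.one, hm.one] at this
  have h2 : (n : K) = ((2 * m : ℕ) : K) := by push_cast; linear_combination this
  exact_mod_cast h2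

lemma c1 (χ : G → K) (hχ : χ ∈ Irr G) (χ' : G → K) (hχ' : χ' ∈ Irr G)
    (e : χ' ∘ Γ.ι = χ ∘ Γ.ι) : χ' = χ ∨ χ' = Γ.tw χ := by
  have B := hch.a G
  by_contra hc
  rw [not_or] at hc
  obtain ⟨n, hn⟩ := hχ
  obtain ⟨n', hn'⟩ := hχ'
  have h1 := ip_res Γ χ χ'
  rw [B.orth0 _ ⟨n, hn⟩ _ ⟨n', hn'⟩ (Ne.symm hc.1),
    B.orth0 _ ⟨n, tw_irr Γ hch n χ hn⟩ _ ⟨n', hn'⟩ (Ne.symm hc.2), ← e, ip_res,
    B.orth1 _ ⟨n', hn'⟩] at h1
  rcases ip01 hch ⟨n', tw_irr Γ hch n' χ' hn'⟩ ⟨n', hn'⟩ with h0 | h0 <;> rw [h0] at h1 <;>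
    norm_num at h1

omit [Fintype G] in
lemma c2 (θ : G0 → K) (hθ : θ ∈ Irr G0) (θ' : G0 → K) (hθ' : θ' ∈ Irr G0) (t : G)
    (e : θ' + θ' ∘ Γ.cj t = θ + θ ∘ Γ.cj t) : θ' = θ ∨ θ' = θ ∘ Γ.cj t := by
  have A := hch.a G0
  by_contra hc
  rw [not_or] at hc
  obtain ⟨n, hn⟩ := hθ
  obtain ⟨n', hn'⟩ := hθ'
  have h1 := congrArg (fun f => ip f θ') e
  simp only [ip_add_left] at h1
  rw [A.orth0 _ ⟨n, hn⟩ _ ⟨n', hn'⟩ (Ne.symm hc.1),
    A.orth0 _ ⟨n, cj_irr Γ hch n θ t hn⟩ _ ⟨n', hn'⟩ (Ne.symm hc.2), A.orth1 _ ⟨n', hn'⟩] at h1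
  rcases ip01 hch ⟨n', cj_irr Γ hch n' θ' t hn'⟩ ⟨n', hn'⟩ with h0 | h0 <;> rw [h0] at h1 <;>
    norm_num at h1

omit hch [Fintype G] [Fintype G0] in
lemma cen_cj {θ : G0 → K} {ω : ℤˣ} (h : ∀ x y, Γ.ι y = Γ.z * Γ.ι x → θ y = uK ω * θ x) (t : G) :
    ∀ x y, Γ.ι y = Γ.z * Γ.ι x → (θ ∘ Γ.cj t) y = uK ω * (θ ∘ Γ.cj t) x := by
  intro x y e
  refine h _ _ ?_
  rw [Γ.ι_cj, Γ.ι_cj, e, ← mul_assoc, ← Γ.zc t]
  simp only [mul_assoc]

lemma rel (p : ℕ) (hp : p.Prime) (hp2 : p ≠ 2) (ω : ℤˣ) :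
    2 * (Γ.IA p ω).ncard = 2 * (Γ.IQ p ∅ ω 1).ncard + (Γ.IM p ∅ ω 1).ncard := by
  classical
  obtain ⟨t, ht⟩ := Γ.odd
  obtain ⟨z0, hz0⟩ := (Γ.rng Γ.z).1 Γ.zs
  set IS : Set (G → K) := {χ | χ ∈ Γ.IA p ω ∧ Γ.tw χ = χ} with hIS
  have fA : (Γ.IA p ω).Finite := (hch.a G).fin.subset fun χ h => ⟨_, h.1.choose_spec.1⟩
  have fM : (Γ.IM p ∅ ω 1).Finite := (hch.a G0).fin.subset fun χ h => ⟨_, h.1.choose_spec.1⟩
  have fS : IS.Finite := fA.subset fun χ h => h.1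
  have fQ : (Γ.IQ p ∅ ω 1).Finite := fA.subset fun χ h => ⟨h.1, h.2.1⟩
  have h1 : (Γ.IA p ω).ncard = (Γ.IQ p ∅ ω 1).ncard + IS.ncard := by
    rw [← Set.ncard_union_eq _ fQ fS]
    · congr 1
      ext χ
      constructor
      · intro h
        by_cases e : Γ.tw χ = χ
        · exact Or.inr ⟨h, e⟩
        · exact Or.inl ⟨h.1, h.2, e, fun σ hσ => absurd hσ (Set.notMem_empty σ)⟩
      · rintro (h | h)
        · exact ⟨h.1, h.2.1⟩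
        · exact h.1
    · exact Set.disjoint_left.2 fun χ h h' => h.2.2.1 h'.2
  have h2 : (Γ.IM p ∅ ω 1).ncard = 2 * IS.ncard := by
    rw [Set.ncard_eq_toFinset_card _ fM, Set.ncard_eq_toFinset_card _ fS,
      Finset.card_eq_sum_card_fiberwise (f := J Γ t) (t := fS.toFinset), mul_comm]
    · refine Finset.sum_const_nat fun χ hχ => ?_
      rw [Set.Finite.mem_toFinset] at hχ
      obtain ⟨⟨⟨n, hn, hpn⟩, hc⟩, htw⟩ := hχ
      obtain ⟨m, θ, hm, rfl, key⟩ := b1 Γ hch n χ hn htw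
      have hpm : ¬ p ∣ m := fun h => hpn (h.mul_left 2)
      have hcl : Cl θ := irr_cl hch ⟨m, hm⟩
      obtain ⟨ω', hω'⟩ := (hch.b G0).cen θ ⟨m, hm⟩ z0
        (fun g => Γ.inj (by rw [map_mul, map_mul, hz0, Γ.zc])) (Γ.inj (by
          rw [map_mul, hz0, Γ.zz, map_one]))
      have hc' : ∀ x y, Γ.ι y = Γ.z * Γ.ι x → θ y = uK ω' * θ x := by
        intro x y e
        rw [← hz0, ← map_mul] at e
        rw [Γ.inj e, hω']
      have hωω : ω' = ω := by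
        have e1 := hc 1
        have e2 := congrFun (key t ht).2 z0
        have e3 := hc' 1 z0 (by rw [hz0, map_one, mul_one])
        have e4 := cen_cj Γ hc' t 1 z0 (by rw [hz0, map_one, mul_one])
        simp only [Function.comp_apply, Pi.add_apply, cj_one, hm.one, hn.one, hz0,
          mul_one] at e1 e2 e3 e4
        have hm0 : (m : K) ≠ 0 := Nat.cast_ne_zero.2 hm.pos.ne'
        push_cast at e1
        apply uK_inj
        have e5 : (2 * m : K) * (uK ω' - uK ω) = 0 := by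
          linear_combination e1 - e2 - e3 - e4
        exact sub_eq_zero.1 ((mul_eq_zero.1 e5).resolve_left (mul_ne_zero two_ne_zero hm0))
      subst hωω
      have htt : (θ ∘ Γ.cj t) ∘ Γ.cj t = θ := by
        rw [cj_mul]; exact cj_even Γ θ hcl _ (by simp [ht])
      rw [← Finset.card_pair (key t ht).1.symm]
      congr 1
      ext θ'
      simp only [Finset.mem_filter, Set.Finite.mem_toFinset, Finset.mem_insert,
        Finset.mem_singleton]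
      constructor
      · rintro ⟨h, e⟩
        refine c2 Γ hch θ ⟨m, hm⟩ θ' ⟨_, h.1.choose_spec.1⟩ t ?_
        rw [← J_ι, e, (key t ht).2]
      · rintro (rfl | rfl)
        · refine ⟨⟨⟨m, hm, hpm⟩, hc', fun s hs => (key s hs).1,
            fun σ hσ => absurd hσ (Set.notMem_empty σ)⟩, ?_⟩
          exact ext_even Γ (J_odd Γ t _) (odd_of_tw Γ htw) (by rw [J_ι, (key t ht).2])
        · refine ⟨⟨⟨m, cj_irr Γ hch m θ t hm, hpm⟩, cen_cj Γ hc' t, fun s hs => ?_,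
            fun σ hσ => absurd hσ (Set.notMem_empty σ)⟩, ?_⟩
          · rw [cj_mul, cj_even Γ θ hcl (t * s) (by simp [ht, hs])]
            exact (key t ht).1.symm
          · exact ext_even Γ (J_odd Γ t _) (odd_of_tw Γ htw)
              (by rw [J_ι, htt, (key t ht).2, add_comm])
    · intro θ hθ
      rw [Finset.mem_coe, Set.Finite.mem_toFinset] at hθ ⊢
      obtain ⟨⟨m, hm, hpm⟩, hc, hne, -⟩ := hθ
      refine ⟨⟨⟨2 * m, b2J Γ hch m θ hm t ht (hne t ht), fun h => ?_⟩, fun x => ?_⟩,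
        tw_of_odd Γ (J_odd Γ t θ)⟩
      · rcases (Nat.Prime.dvd_mul hp).1 h with h | h
        · exact hp2 ((Nat.prime_dvd_prime_iff_eq hp Nat.prime_two).1 h)
        · exact hpm h
      · rcases sg_cases Γ x with hx | hx
        · obtain ⟨y, rfl⟩ := (Γ.rng x).1 hx
          have e : Γ.ι (z0 * y) = Γ.z * Γ.ι y := by rw [map_mul, hz0]
          have e4 := cen_cj Γ hc t y _ e
          simp only [Function.comp_apply] at e4
          rw [← e, J_ι', J_ι', hc y _ e, e4, mul_add]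
        · rw [J_odd Γ t θ x hx, J_odd, mul_zero]
          rw [map_mul, Γ.zs, one_mul, hx]
  omega

end fin

end Ix

theorem ix (hch : ChSt) : IxSt := by
  intro G G0 _ _ _ Γ
  haveI : Finite G0 := Finite.of_injective Γ.ι Γ.inj
  refine ⟨?_, Ix.tw_tw Γ, ?_, Ix.cj_even Γ, Ix.cj_mul Γ, Ix.cj_odd Γ, Ix.res_cj Γ, ?_, ?_, ?_, ?_,
    ?_, ?_, fun f g h => Ix.ipι Γ f g h, ?_⟩
  all_goals
    letI := Fintype.ofFinite G
    letI := Fintype.ofFinite G0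
  · exact Ix.tw_irr Γ hch
  · exact Ix.cj_irr Γ hch
  · exact Ix.a1 Γ hch
  · exact Ix.a2 Γ hch
  · exact Ix.b1 Γ hch
  · intro m θ h t ht hne
    exact ⟨Ix.J Γ t θ, Ix.b2J Γ hch m θ h t ht hne, Ix.tw_of_odd Γ (Ix.J_odd Γ t θ),
      Ix.J_ι Γ t θ⟩
  · exact Ix.c1 Γ hch
  · exact Ix.c2 Γ hch
  · exact Ix.rel Γ hch

end Pool.Agent.Lib.MP_1ae3da_al.GM
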