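import Pool.Agent.Lib.MP_1ae3da_al.GT

/-! Lattices of spin class functions. -/

namespace Pool.Agent.Lib.MP_1ae3da_al.GM

open Equiv Module

namespace LatA

/-- induction along an injective homomorphism, written with the extension by zero. -/
lemma ind_inj {C G : Type} [Group C] [Group G] [Fintype C] [Fintype G] [DecidableEq G]
    (f : C →* G) (hf : Function.Injective f) (ψ : C → K) (φ : G → K) (h1 : ∀ x, φ (f x) = ψ x)
    (h0 : ∀ g, (∀ x, f x ≠ g) → φ g = 0) (g : G) :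
    ind f ψ g = (Fintype.card C : K)⁻¹ * ∑ y : G, φ (y⁻¹ * g * y) := by
  classical
  unfold ind
  congr 1
  simp only [nc, Finset.card_filter, Nat.cast_sum, Finset.mul_sum]
  rw [Finset.sum_comm]
  refine Finset.sum_congr rfl fun y _ => ?_
  by_cases hy : ∃ x, f x = y⁻¹ * g * y
  · obtain ⟨x0, hx0⟩ := hy
    rw [Finset.sum_eq_single x0]
    · rw [if_pos (by simp [hx0, mul_assoc]), ← hx0, h1]; simp
    · intro x _ hx
      rw [if_neg]
      · simp
      · intro e
        apply hx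
        apply hf
        rw [hx0, mul_assoc, e, inv_mul_cancel_left]
    · simp
  · rw [h0 _ fun x hx => hy ⟨x, hx⟩]
    refine Finset.sum_eq_zero fun x _ => ?_
    rw [if_neg]
    · simp
    · intro e
      exact hy ⟨x, by rw [mul_assoc, e, inv_mul_cancel_left]⟩

variable {G : Type} [Group G] (Γ : Sg G)

lemma sg_conj (g h : G) : Γ.sg (h * g * h⁻¹) = Γ.sg g := by
  rw [map_mul, map_mul, map_inv, mul_comm (Γ.sg h), mul_inv_cancel_right]

lemma eq_zero_of_neg {a : K} (h : a = -a) : a = 0 := by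
  linear_combination (1 / 2 : K) * h

/-- a spin class function on the extended group vanishes at `(x, 1)` for odd `x`. -/
lemma ev0 (Ψ : Γ.TP → K) (hc : Cl Ψ) (hz : ∀ x u, Ψ ⟨Γ.z * x, u⟩ = -Ψ ⟨x, u⟩) (x : G)
    (hx : Γ.sg x = -1) : Ψ ⟨x, 1⟩ = 0 := by
  apply eq_zero_of_neg
  rw [← hz, ← hc ⟨x, 1⟩ ⟨1, -1⟩]
  congr 1
  ext <;> simp [hx]

/-- the map of the extended groups. -/
def tpMap {G' : Type} [Group G'] (Γ' : Sg G') (f : G' →* G) (hs : ∀ x, Γ.sg (f x) = Γ'.sg x)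
    (hz : f Γ'.z = Γ.z) : Γ'.TP →* Γ.TP where
  toFun c := ⟨f c.left, c.right⟩
  map_one' := by ext <;> simp
  map_mul' a b := by
    have : ∀ u v, f (Γ'.zp u v) = Γ.zp u v := by
      intro u v
      unfold Sg.zp
      split_ifs <;> simp [hz]
    ext <;> simp [this, hs]

lemma sum_units (F : ℤˣ → K) : ∑ u, F u = F 1 + F (-1) := by
  rw [UnitsInt.univ, Finset.sum_pair (by decide)]

/-- the character induced from `G` to the extended group. -/
lemma ind_inl [Fintype G] [DecidableEq Γ.TP] (χ : G → K) (hc : Cl χ) (x : G) (u : ℤˣ) :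
    ind (SemidirectProduct.inl : G →* Γ.TP) χ ⟨x, u⟩ =
      if u = 1 then χ x + χ (Γ.zp (-1) (Γ.sg x) * x) else 0 := by
  rw [ind_inj _ SemidirectProduct.inl_injective χ (fun c => if c.right = 1 then χ c.left else 0)
    (fun x => by simp) (fun g hg => if_neg fun h => hg g.left (by ext <;> simp [h]))]
  have h1 : ∀ y : Γ.TP, (y⁻¹ * ⟨x, u⟩ * y).right = u := by
    intro y
    rw [SemidirectProduct.mul_right, SemidirectProduct.mul_right, SemidirectProduct.inv_right,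
      mul_comm y.right⁻¹, inv_mul_cancel_right]
  simp only [h1]
  split_ifs with hu
  · subst hu
    have h2 : ∀ y : Γ.TP, χ (y⁻¹ * ⟨x, 1⟩ * y).left = χ (Γ.zp y.right (Γ.sg x) * x) := by
      intro y
      have e : (y⁻¹ * ⟨x, 1⟩ * y).left = Γ.φ y.right⁻¹ (y.left⁻¹ * x * y.left⁻¹⁻¹) := by
        simp only [SemidirectProduct.mul_left, SemidirectProduct.inv_left,
          SemidirectProduct.inv_right, SemidirectProduct.mul_right, mul_one, inv_inv, map_mul]
      rw [e, Sg.φ_apply, sg_conj, Int.units_inv_eq_self, ← hc (Γ.zp y.right (Γ.sg x) * x) y.left⁻¹]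
      congr 1
      simp only [← mul_assoc]
      rw [Γ.zp_comm]
    simp only [h2]
    rw [Fintype.sum_equiv SemidirectProduct.equivProd
      (fun y : Γ.TP => χ (Γ.zp y.right (Γ.sg x) * x))
      (fun w : G × ℤˣ => χ (Γ.zp w.2 (Γ.sg x) * x)) (fun _ => rfl), Fintype.sum_prod_type]
    have hc0 : (Fintype.card G : K) ≠ 0 := Nat.cast_ne_zero.mpr Fintype.card_ne_zero
    simp only [sum_units, Finset.sum_const, Finset.card_univ, nsmul_eq_mul, Sg.one_zp, one_mul]
    rw [← mul_assoc, inv_mul_cancel₀ hc0, one_mul]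
  · simp

end LatA

open LatA in
theorem lat (hch : ChSt) : LatSt := by
  intro G _ _ Γ
  classical
  have := Fintype.ofFinite G
  have hne : (1 : ℤˣ) ≠ -1 := by decide
  have hA := hch.a G
  have hT := hch.a Γ.TP
  have hev : ∀ e U S, Γ.LS e U S → ∀ x, Γ.sg x = -1 → U x = 0 := by
    intro e U S h x hx
    rcases Int.units_eq_one_or e with rfl | rfl
    · obtain ⟨Ψ, hΨ, hz, hU⟩ := h.1 rfl
      rw [(hU x).1, ev0 Γ Ψ (hT.cl Ψ hΨ) hz x hx]
    · obtain ⟨χ, _, _, hU⟩ := h.2 rfl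
      exact ((hU x).2 hx).1
  refine ⟨?_, ?_, ?_, ?_, ?_, hev, ?_, ?_⟩
  · intro e U S S' hS h
    refine ⟨fun he => ?_, fun he => ?_⟩
    · obtain ⟨Ψ, hΨ, hz, hU⟩ := h.1 he
      exact ⟨Ψ, hΨ, hz, fun x => ⟨(hU x).1, fun h0 => hS x ((hU x).2 h0)⟩⟩
    · obtain ⟨χ, hχ, hz, hU⟩ := h.2 he
      exact ⟨χ, hχ, hz, fun x => ⟨(hU x).1, fun hx =>
        ⟨((hU x).2 hx).1, fun h0 => hS x (((hU x).2 hx).2 h0)⟩⟩⟩
  · intro e S
    exact ⟨fun _ => ⟨0, zero_mem _, by simp, by simp⟩, fun _ => ⟨0, zero_mem _, by simp, by simp⟩⟩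
  · intro e U V S h h'
    refine ⟨fun he => ?_, fun he => ?_⟩
    · obtain ⟨Ψ, hΨ, hz, hU⟩ := h.1 he
      obtain ⟨Ψ', hΨ', hz', hU'⟩ := h'.1 he
      refine ⟨Ψ + Ψ', add_mem hΨ hΨ', fun x u => ?_, fun x => ⟨?_, fun h0 => ?_⟩⟩
      · rw [Pi.add_apply, Pi.add_apply, hz, hz', neg_add]
      · rw [Pi.add_apply, Pi.add_apply, (hU x).1, (hU' x).1]
      · by_cases h1 : Ψ ⟨x, -1⟩ = 0
        · exact (hU' x).2 (by rwa [Pi.add_apply, h1, zero_add] at h0)
        · exact (hU x).2 h1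
    · obtain ⟨χ, hχ, hz, hU⟩ := h.2 he
      obtain ⟨χ', hχ', hz', hU'⟩ := h'.2 he
      refine ⟨χ + χ', add_mem hχ hχ', fun x => ?_, fun x => ⟨fun hx => ?_, fun hx =>
        ⟨?_, fun h0 => ?_⟩⟩⟩
      · rw [Pi.add_apply, Pi.add_apply, hz, hz', neg_add]
      · rw [Pi.add_apply, Pi.add_apply, (hU x).1 hx, (hU' x).1 hx, mul_add]
      · rw [Pi.add_apply, ((hU x).2 hx).1, ((hU' x).2 hx).1, add_zero]
      · by_cases h1 : χ x = 0
        · exact ((hU' x).2 hx).2 (by simpa [h1] using h0)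
        · exact ((hU x).2 hx).2 h1
  · intro e U S h
    refine ⟨fun he => ?_, fun he => ?_⟩
    · obtain ⟨Ψ, hΨ, hz, hU⟩ := h.1 he
      refine ⟨-Ψ, neg_mem hΨ, fun x u => ?_, fun x => ⟨?_, fun h0 => ?_⟩⟩
      · rw [Pi.neg_apply, Pi.neg_apply, hz]
      · rw [Pi.neg_apply, Pi.neg_apply, (hU x).1]
      · exact (hU x).2 (by simpa using h0)
    · obtain ⟨χ, hχ, hz, hU⟩ := h.2 he
      refine ⟨-χ, neg_mem hχ, fun x => ?_, fun x => ⟨fun hx => ?_, fun hx =>
        ⟨?_, fun h0 => ?_⟩⟩⟩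
      · rw [Pi.neg_apply, Pi.neg_apply, hz]
      · rw [Pi.neg_apply, Pi.neg_apply, (hU x).1 hx, mul_neg]
      · rw [Pi.neg_apply, ((hU x).2 hx).1, neg_zero]
      · exact ((hU x).2 hx).2 (by simpa using h0)
  · intro e U S S' h
    refine ⟨fun he => ?_, fun he => ?_⟩
    · obtain ⟨χ, hχ, hz, hU⟩ := h.2 (neg_eq_iff_eq_neg.1 he)
      have hc := hA.cl χ hχ
      refine ⟨ind SemidirectProduct.inl χ, (hch.h G Γ.TP _).ind_vc χ hχ, fun x u => ?_,
        fun x => ⟨?_, fun h0 => ?_⟩⟩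
      · rw [ind_inl Γ χ hc, ind_inl Γ χ hc]
        split_ifs
        · rw [map_mul, Γ.zs, one_mul, ← mul_assoc, Γ.zp_comm, mul_assoc, hz, hz, neg_add]
        · rw [neg_zero]
      · rw [ind_inl Γ χ hc, if_pos rfl, Pi.smul_apply, smul_eq_mul]
        rcases Int.units_eq_one_or (Γ.sg x) with hx | hx
        · rw [(hU x).1 hx, hx, Sg.zp_one, one_mul, ← mul_assoc, rt2_mul, two_mul]
        · rw [((hU x).2 hx).1, hx, Sg.zp_neg, hz, mul_zero, add_neg_cancel]
      · rw [ind_inl Γ χ hc, if_neg hne.symm] at h0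
        exact absurd rfl h0
    · have he' : e = 1 := neg_injective he
      obtain ⟨Ψ, hΨ, hz, hU⟩ := h.1 he'
      refine ⟨Ψ ∘ (SemidirectProduct.inl : G →* Γ.TP), (hch.h G Γ.TP _).comp Ψ hΨ,
        fun x => hz x 1, fun x => ⟨fun _ => ?_, fun hx => ⟨?_, fun h0 => ?_⟩⟩⟩
      · rw [Pi.smul_apply, smul_eq_mul, (hU x).1]; rfl
      · rw [Pi.smul_apply, hev e U S h x hx, smul_zero]
      · exact absurd (ev0 Γ Ψ (hT.cl Ψ hΨ) hz x hx) h0
  · intro e U S h g k
    rcases Int.units_eq_one_or e with rfl | rfl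
    · obtain ⟨Ψ, hΨ, _, hU⟩ := h.1 rfl
      rw [(hU _).1, (hU _).1]
      exact hA.cl _ ((hch.h G Γ.TP SemidirectProduct.inl).comp Ψ hΨ) g k
    · obtain ⟨χ, hχ, _, hU⟩ := h.2 rfl
      rcases Int.units_eq_one_or (Γ.sg g) with hx | hx
      · rw [(hU g).1 hx, (hU _).1 (by rw [sg_conj, hx]), hA.cl χ hχ]
      · rw [((hU g).2 hx).1, ((hU _).2 (by rw [sg_conj, hx])).1]
  · intro G' _ _ Γ' f hs hz' e U S h
    have := Fintype.ofFinite G'
    refine ⟨fun he => ?_, fun he => ?_⟩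
    · obtain ⟨Ψ, hΨ, hz, hU⟩ := h.1 he
      refine ⟨Ψ ∘ tpMap Γ Γ' f hs hz', (hch.h _ _ _).comp Ψ hΨ, fun x u => ?_,
        fun x => hU (f x)⟩
      change Ψ ⟨f (Γ'.z * x), u⟩ = -Ψ ⟨f x, u⟩
      rw [map_mul, hz', hz]
    · obtain ⟨χ, hχ, hz, hU⟩ := h.2 he
      refine ⟨χ ∘ f, (hch.h _ _ _).comp χ hχ, fun x => ?_, fun x => ?_⟩
      · rw [Function.comp_apply, map_mul, hz', hz]; rfl
      · rw [← hs]; exact hU (f x)

open LatA in
theorem twSt (hch : ChSt) : TwSt := by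
  intro G E _ _ _ _ Γ f χ i hi hχ hz hf
  classical
  have := Fintype.ofFinite G
  have := Fintype.ofFinite E
  have key : ∀ ψ ∈ VC G, (fun c => (if (f c).right = 1 then 1 else i) *
      (2⁻¹ * (ψ (f c).left - ψ (Γ.z * (f c).left)))) ∈ VC E := by
    intro ψ hψ
    induction hψ using AddSubgroup.closure_induction with
    | mem ψ hψ =>
      obtain ⟨n, hn⟩ := hψ
      obtain ⟨ρ, hρ⟩ := (hch.b G).real n ψ hn
      have hzz : ρ Γ.z * ρ Γ.z = 1 := by rw [← map_mul, Γ.zz, map_one]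
      have hzc : ∀ x, ρ Γ.z * ρ x = ρ x * ρ Γ.z := fun x => by rw [← map_mul, Γ.zc, map_mul]
      have hP : ∀ x y, (1 - ρ Γ.z) * ρ x * ((1 - ρ Γ.z) * ρ y) =
          (2 : K) • ((1 - ρ Γ.z) * (ρ x * ρ y)) := by
        intro x y
        have h1 : ρ x * (1 - ρ Γ.z) = (1 - ρ Γ.z) * ρ x := by
          rw [mul_sub, sub_mul, hzc, mul_one, one_mul]
        have h2 : (1 - ρ Γ.z) * (1 - ρ Γ.z) = (2 : K) • (1 - ρ Γ.z) := by
          rw [mul_sub, sub_mul, sub_mul, hzz, two_smul]; simp only [mul_one, one_mul]; abel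
        rw [mul_assoc, ← mul_assoc (ρ x), h1, ← mul_assoc, ← mul_assoc, h2, smul_mul_assoc,
          smul_mul_assoc, mul_assoc]
      have hZ : (1 - ρ Γ.z) * ρ Γ.z = -(1 - ρ Γ.z) := by rw [sub_mul, hzz]; simp
      have h3 := (hch.b E).mat (Fin n) (fun c => ((if (f c).right = 1 then 1 else i) * 2⁻¹ : K) •
        ((1 - ρ Γ.z) * ρ (f c).left)) (by
          intro a b
          rw [smul_mul_assoc, mul_smul_comm, hP, map_mul, SemidirectProduct.mul_left,
            SemidirectProduct.mul_right, Sg.φ_apply, ← hf b, ← mul_assoc, ← Γ.zp_comm,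
            mul_assoc, map_mul, map_mul, smul_smul, smul_smul]
          rcases Int.units_eq_one_or (f a).right with ha | ha <;>
            rcases Int.units_eq_one_or (f b).right with hb | hb <;> rw [ha, hb]
          · simp
          · rw [Sg.one_zp, map_one, one_mul, one_mul, if_pos rfl]
            congr 1
            ring
          · simp
          · rw [Sg.zp_neg, ← mul_assoc (1 - ρ Γ.z), hZ, neg_mul (1 - ρ Γ.z), smul_neg, ← neg_smul,
              if_pos (by decide), if_neg (by decide)]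
            congr 1
            linear_combination (-2⁻¹ : K) * hi)
      have h4 := (hch.a E).ch_vc _ h3
      convert h4 using 2 with c
      rw [Matrix.trace_smul, sub_mul, one_mul, ← map_mul, Matrix.trace_sub, hρ, hρ, smul_eq_mul,
        mul_assoc]
    | zero =>
      convert zero_mem (VC E) using 2
      simp
    | add a b _ _ ha hb =>
      convert add_mem ha hb using 2
      simp only [Pi.add_apply]; ring
    | neg a _ ha =>
      convert neg_mem ha using 2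
      simp only [Pi.neg_apply]; ring
  convert key χ hχ using 2 with c
  rw [hz]; ring

end Pool.Agent.Lib.MP_1ae3da_al.GM
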