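import Pool.Agent.Lib.MP_1ae3da_al.GT

/-! The local counts from the invariant of the local classes. -/

namespace Pool.Agent.Lib.MP_1ae3da_al.GM

open Equiv Module

namespace Lc

variable {G : Type} [Group G] (Γ : Sg G) (T : Subgroup G)

lemma zc_pow (j : ℕ) (g : G) : Γ.z ^ j * g = g * Γ.z ^ j :=
  (Commute.pow_left (Γ.zc g) j).eq

variable {Γ T}

lemma rel_trans (hT : T.Normal) {ω : ℤˣ} {a : ℕ} {x y w : G} {u v : ℤˣ} (h1 : Γ.Rel T ω a x y u)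
    (h2 : Γ.Rel T ω a y w v) : Γ.Rel T ω a x w (v * u) := by
  obtain ⟨r, hr, j, h, rfl, rfl⟩ := h1
  obtain ⟨r', hr', j', h', rfl, rfl⟩ := h2
  refine ⟨r' * (h' * r * h'⁻¹), T.mul_mem hr' (hT.conj_mem r hr h'), j' + j, h' * h, ?_, ?_⟩
  · have e1 := zc_pow Γ j' (h' * r * h'⁻¹)
    have e2 := zc_pow Γ j h'
    calc r' * Γ.z ^ j' * (h' * (r * Γ.z ^ j * (h * x * h⁻¹)) * h'⁻¹)
        = r' * (Γ.z ^ j' * (h' * r * h'⁻¹)) * (h' * Γ.z ^ j) * (h * x * h⁻¹) * h'⁻¹ := by group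
      _ = _ := by rw [e1, ← e2, pow_add]; group
  · rw [pow_add, map_mul, mul_pow]
    simp only [mul_assoc, mul_comm, mul_left_comm]

lemma rel_symm (hT : T.Normal) {ω : ℤˣ} {a : ℕ} {x y : G} {u : ℤˣ} (h1 : Γ.Rel T ω a x y u) :
    Γ.Rel T ω a y x u := by
  obtain ⟨r, hr, j, h, rfl, rfl⟩ := h1
  refine ⟨h⁻¹ * r⁻¹ * h⁻¹⁻¹, hT.conj_mem _ (T.inv_mem hr) _, j, h⁻¹, ?_, ?_⟩
  · have e1 := zc_pow Γ j (h⁻¹ * r)
    have e2 : Γ.z ^ j * Γ.z ^ j = 1 := by rw [← mul_pow_of_commute_aux Γ j]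
    have e3 := zc_pow Γ j h
    calc x = h⁻¹ * r⁻¹ * h * (h⁻¹ * r * (Γ.z ^ j * Γ.z ^ j)) * (h * x) := by rw [e2]; group
      _ = h⁻¹ * r⁻¹ * h * ((h⁻¹ * r) * Γ.z ^ j) * Γ.z ^ j * (h * x) := by group
      _ = _ := by rw [← e1]; group
  · rw [map_inv, Int.units_inv_eq_self]
where
  mul_pow_of_commute_aux (Γ : Sg G) (j : ℕ) : (1 : G) = Γ.z ^ j * Γ.z ^ j := by
    rw [← (Commute.refl Γ.z).mul_pow, Γ.zz, one_pow]

lemma rel_uniq (hT : T.Normal) {ω : ℤˣ} {a : ℕ} {x y : G} {u v : ℤˣ}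
    (hg : ∀ u, Γ.Rel T ω a x x u → u = 1) (h1 : Γ.Rel T ω a x y u) (h2 : Γ.Rel T ω a x y v) :
    u = v := by
  have := hg _ (rel_trans hT h1 (rel_symm hT h2))
  rw [mul_eq_one_iff_inv_eq, Int.units_inv_eq_self] at this
  exact this.symm

lemma rel_sg (hT : ∀ r ∈ T, Γ.sg r = 1) {ω : ℤˣ} {a : ℕ} {x y : G} {u : ℤˣ}
    (h1 : Γ.Rel T ω a x y u) : Γ.sg y = Γ.sg x := by
  obtain ⟨r, hr, j, h, rfl, -⟩ := h1
  simp only [map_mul, map_pow, map_inv, hT r hr, Γ.zs, one_pow, one_mul, mul_inv_cancel_comm]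

lemma rel_one {x y : G} {u : ℤˣ} (h : Γ.Rel T 1 0 x y u) : u = 1 := by
  obtain ⟨r, -, j, h, -, rfl⟩ := h
  simp

lemma not_zero_lam {p k0 : ℕ} [Fact p.Prime] {a : Fin k0 → ℕ} {m : Ty p k0 → Multiset ℕ}
    (h : Val a m) : 0 ∉ Lam m := by
  intro h0
  obtain ⟨k, -, hk⟩ := Multiset.mem_sum.1 h0
  obtain ⟨r, hr, e⟩ := Multiset.mem_map.1 hk
  rcases Nat.mul_eq_zero.1 e with e | e
  · exact (pow_pos (Fact.out : p.Prime).pos _).ne' e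
  · exact h.1 _ (e ▸ hr)

lemma gp_sgm {p k0 : ℕ} [Fact p.Prime] {m : Ty p k0 → Multiset ℕ} (h : Gp m) : sgm m = 1 :=
  Finset.prod_eq_one fun τ _ => Multiset.prod_eq_one fun u hu => by
    obtain ⟨r, hr, rfl⟩ := Multiset.mem_map.1 hu
    exact h.2 τ r hr

end Lc

open Lc

theorem lc (hch : ChSt) (hix : IxSt) (habC : AbsCSt) (habM : AbsMSt) (habQ : AbsQSt)
    (horb : OrbSt) (hito : ItoSt) (hsq : SqSt) (hcmp : CmpSt) : LcSt := by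
  intro p k0 _ N N0 _ _ _ Δ R q n a M inv hp2 hRn hRp hRi hM h2 hexp hI
  have hp : p.Prime := Fact.out
  haveI : Finite N0 := Finite.of_injective _ Δ.inj
  set T : Subgroup N := ⁅R, R⁆ with hT
  have hTn : T.Normal := Subgroup.commutator_normal R R
  have hRe : ∀ r ∈ R, Δ.sg r = 1 := by
    intro x hx
    obtain ⟨k, hk⟩ := hRp ⟨x, hx⟩
    have h1 : Δ.sg x ^ p ^ k = 1 := by
      rw [← map_pow, show x ^ p ^ k = 1 from congrArg Subtype.val hk, map_one]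
    rcases Int.units_eq_one_or (Δ.sg x) with h | h
    · exact h
    · rw [h, (hp.odd_of_ne_two hp2).pow.neg_one_pow] at h1
      exact absurd h1 (by decide)
  have hTe : ∀ r ∈ T, Δ.sg r = 1 := fun r hr => hRe r (Subgroup.commutator_le_left R R hr)
  have hle : R ≤ Δ.ι.range := fun r hr => (Δ.rng r).1 (hRe r hr)
  have hmap : (R.comap Δ.ι).map Δ.ι = R := Subgroup.map_comap_eq_self hle
  have hG0 : ∀ θ ∈ Irr N0, θ ∈ IrrP N0 p ↔ ∀ r ∈ T, ∀ x y, Δ.ι y = r * Δ.ι x → θ y = θ x := by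
    intro θ hθ
    have hidx : ¬ p ∣ (R.comap Δ.ι).index := by
      intro h
      rw [Subgroup.index_comap] at h
      exact hRi (h.trans (Dvd.intro _ (Subgroup.relIndex_mul_index hle)))
    rw [hito N0 p (R.comap Δ.ι) hp (hRn.comap _) (hRp.comap_of_injective _ Δ.inj) hidx θ hθ]
    have hc : (⁅R.comap Δ.ι, R.comap Δ.ι⁆ : Subgroup N0).map Δ.ι = T := by
      rw [Subgroup.map_commutator, hmap]
    constructor
    · intro h r hr x y e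
      rw [← hc] at hr
      obtain ⟨r0, hr0, rfl⟩ := hr
      rw [← map_mul] at e
      rw [Δ.inj e, h r0 hr0]
    · intro h r hr x
      exact h (Δ.ι r) (hc ▸ ⟨r, hr, rfl⟩) x _ (map_mul _ _ _)
  have hinv : ∀ σ ∈ Hl p, ∀ s, Ex M σ s → ∀ x, inv (x ^ s) = inv x := fun σ hσ s hs x =>
    ((hI.l1 1 0 x _).1 ⟨1, hI.l5a σ hσ s hs x⟩).symm
  have hsgi : ∀ x y, inv x = inv y → Δ.sg x = Δ.sg y := fun x y e => by rw [hI.l3, hI.l3, e]
  have hstab : ∀ ω, Δ.Sp T ω 0 (fun x => Δ.sg x = 1) M ∅ 1 ≤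
      Δ.Sp T ω 0 (fun x => Δ.sg x = 1) M (Hl p) 1 := by
    rintro ω f ⟨f1, f2, -⟩
    refine ⟨f1, f2, fun σ hσ s hs x => ?_⟩
    rcases Int.units_eq_one_or ω with rfl | rfl
    · exact f1 _ _ _ (hI.l5a σ hσ s hs x)
    · obtain ⟨u, hu⟩ := (hI.l1 (-1) 0 x (x ^ s)).2 (hinv σ hσ s hs x).symm
      by_cases hx : Δ.sg x = 1
      · by_cases hg : ∀ u, Δ.Rel T (-1) 0 x x u → u = 1
        · exact f1 _ _ _ (hI.l5e σ hσ s hs x hx hg)
        · obtain ⟨v, hv⟩ := not_forall.1 hg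
          obtain ⟨hv1, hv2⟩ := Classical.not_imp.1 hv
          have h0 := f1 _ _ _ hv1
          rw [(Int.units_eq_one_or v).resolve_left hv2, uK_neg, uK_one] at h0
          have : f x = 0 := by linear_combination (1 / 2 : K) * h0
          rw [f1 _ _ _ hu, this, mul_zero, mul_zero]
      · rw [f1 _ _ _ hu, f2 x hx, mul_zero, mul_zero]
  have hH : AbsH Δ p T M (Hl p) :=
    ⟨hTn, hTe, hito N p R hp hRn hRp hRi, hG0, hM, hexp, hstab⟩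
  have hH0 : AbsH Δ p T M ∅ := ⟨hTn, hTe, hH.hG, hG0, hM, hexp, fun _ => le_rfl⟩
  obtain ⟨cov, ia⟩ := habC N N0 Δ p T M _ hH
  obtain ⟨cov0, -⟩ := habC N N0 Δ p T M _ hH0
  have cnt : ∀ (ω : ℤˣ) (b : ℕ) (P : N → Prop) (S : Set Ga) (ε : Ga → ℤˣ)
      (Q : (Ty p k0 → Multiset ℕ) → Prop), S ⊆ Hl p → (∀ x y, inv x = inv y → P x → P y) →
      (∀ x, Q (inv x) ↔ P x ∧ (∀ u, Δ.Rel T ω b x x u → u = 1) ∧
        ∀ σ ∈ S, ∀ s, Ex M σ s → Δ.Rel T ω b x (x ^ s) (ε σ)) →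
      finrank K (Δ.Sp T ω b P M S ε) = Nat.card {m // Val a m ∧ Q m} := by
    intro ω b P S ε Q hS hP hQ
    rw [horb N Δ.toSg T ω b P M S ε _ inv h2 (hI.l1 ω b) hP fun σ hσ => hinv σ (hS hσ)]
    refine Nat.card_congr (Equiv.subtypeEquivRight fun m => ?_)
    constructor
    · rintro ⟨x, rfl, h⟩
      exact ⟨(hI.l2 _).2 ⟨x, rfl⟩, (hQ x).2 h⟩
    · rintro ⟨h1, h⟩
      obtain ⟨x, rfl⟩ := (hI.l2 _).1 h1
      exact ⟨x, rfl, (hQ x).1 h⟩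
  have sel : ∀ (ω : ℤˣ) (b : ℕ) (x : N) (ε : Ga → ℤˣ), (∀ u, Δ.Rel T ω b x x u → u = 1) →
      (∀ σ ∈ Hl p, ∀ s, Ex M σ s → ∀ u, Eps (Dm q n (Lam (inv x))) σ u →
        Δ.Rel T ω b x (x ^ s) u) →
      ((∀ σ ∈ Hl p, Eps (Dm q n (Lam (inv x))) σ (ε σ)) ↔
        ∀ σ ∈ Hl p, ∀ s, Ex M σ s → Δ.Rel T ω b x (x ^ s) (ε σ)) := by
    intro ω b x ε hg h
    refine ⟨fun k σ hσ s hs => h σ hσ s hs _ (k σ hσ), fun k σ hσ => ?_⟩
    obtain ⟨s, hs⟩ := hsq.ex M σ hM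
    obtain ⟨u, hu⟩ := hsq.eps_ex (Dm q n (Lam (inv x))) σ
    rw [← rel_uniq hTn hg (h σ hσ s hs u hu) (k σ hσ s hs)]
    exact hu
  have spin : ∀ (e : ℤˣ) (b : ℕ) (ε : Ga → ℤˣ), (∀ x, Δ.sg x = e → Δ.toSg.pa x = b) →
      finrank K (Δ.Sp T (-1) b (fun x => Δ.sg x = e) M (Hl p) ε) =
        Nat.card {m : Ty p k0 → Multiset ℕ // Val a m ∧ Gm m ∧ sgm m = e ∧
          ∀ σ ∈ Hl p, Eps (Dm q n (Lam m)) σ (ε σ)} := by
    intro e b ε hb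
    refine cnt _ _ _ _ _ _ le_rfl (fun x y h k => (hsgi x y h).symm.trans k) fun x => ?_
    rw [← hI.l3]
    constructor
    · rintro ⟨g1, g2, g3⟩
      have hg := (hI.l4m x).2 g1
      rw [hb x g2] at hg
      refine ⟨g2, hg, (sel _ _ x ε hg fun σ hσ s hs u hu => ?_).1 g3⟩
      rw [← hb x g2]
      exact hI.l5m σ hσ s hs x u g1 hu
    · rintro ⟨g2, hg, g3⟩
      have g1 : Gm (inv x) := (hI.l4m x).1 (by rwa [hb x g2])
      refine ⟨g1, g2, (sel _ _ x ε hg fun σ hσ s hs u hu => ?_).2 g3⟩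
      rw [← hb x g2]
      exact hI.l5m σ hσ s hs x u g1 hu
  refine ⟨cov, fun ε => ?_, fun ε => ?_, fun ε => ?_, ?_, fun ε hε => ?_, fun ε hε => ?_, ?_⟩
  · rw [habM N N0 Δ p T M _ hH _ ε (cov _), spin 1 1 ε fun x hx => by simp [Sg.pa, hx]]
  · rw [habQ N N0 Δ p T M _ hH _ ε (cov _), spin (-1) 0 ε fun x hx => by simp [Sg.pa, hx]]
  · rw [habM N N0 Δ p T M _ hH _ ε (cov _)]
    congr 1
    refine cnt _ _ _ _ _ _ le_rfl (fun x y h k => (hsgi x y h).symm.trans k) fun x => ?_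
    constructor
    · rintro ⟨g1, g3⟩
      have hg := (hI.l4p x).2 g1
      exact ⟨(hI.l3 x).trans (gp_sgm g1), hg,
        (sel _ _ x ε hg fun σ hσ s hs u hu => hI.l5p σ hσ s hs x u g1 hu).1 g3⟩
    · rintro ⟨-, hg, g3⟩
      have g1 := (hI.l4p x).1 hg
      exact ⟨g1, (sel _ _ x ε hg fun σ hσ s hs u hu => hI.l5p σ hσ s hs x u g1 hu).2 g3⟩
  · rw [habM N N0 Δ p T M _ hH0 _ 1 (cov0 _)]
    congr 1
    refine cnt _ _ _ _ _ _ (Set.empty_subset _) (fun x y h k => (hsgi x y h).symm.trans k)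
      fun x => ?_
    constructor
    · intro g1
      exact ⟨(hI.l3 x).trans (gp_sgm g1), (hI.l4p x).2 g1, by simp⟩
    · rintro ⟨-, hg, -⟩
      exact (hI.l4p x).1 hg
  · rw [habQ N N0 Δ p T M _ hH _ ε (cov _), habQ N N0 Δ p T M _ hH0 _ 1 (cov0 _)]
    have : Δ.Sp T 1 0 (fun x => Δ.sg x = -1) M (Hl p) ε =
        Δ.Sp T 1 0 (fun x => Δ.sg x = -1) M ∅ 1 := by
      ext f
      refine ⟨fun ⟨f1, f2, _⟩ => ⟨f1, f2, by simp⟩, fun ⟨f1, f2, _⟩ => ⟨f1, f2, ?_⟩⟩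
      intro σ hσ s hs x
      rw [hε σ hσ]
      exact f1 _ _ _ (hI.l5a σ hσ s hs x)
    rw [this]
  · rw [habQ N N0 Δ p T M _ hH _ ε (cov _)]
    obtain ⟨σ, hσ⟩ := not_forall.1 hε
    obtain ⟨hσ1, hσ2⟩ := Classical.not_imp.1 hσ
    obtain ⟨s, hs⟩ := hsq.ex M σ hM
    have : Δ.Sp T 1 0 (fun x => Δ.sg x = -1) M (Hl p) ε = ⊥ := by
      rw [eq_bot_iff]
      rintro f ⟨f1, -, f3⟩
      funext x
      have e1 := f3 σ hσ1 s hs x
      rw [f1 _ _ _ (hI.l5a σ hσ1 s hs x), (Int.units_eq_one_or _).resolve_left hσ2, uK_neg,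
        uK_one] at e1
      change f x = 0
      linear_combination (1 / 2 : K) * e1
    rw [this, finrank_bot]
  · rw [ia, cnt 1 0 (fun _ => True) ∅ 1 (fun _ => True) (Set.empty_subset _) (fun _ _ _ h => h)
      fun x => ⟨fun _ => ⟨trivial, fun u hu => rel_one hu, by simp⟩, fun _ => trivial⟩]
    simp

end Pool.Agent.Lib.MP_1ae3da_al.GM
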