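import Pool.Agent.Lib.MP_1ae3da_al.GT

/-! From the coordinates on the normaliser to the invariant of the local classes. -/

namespace Pool.Agent.Lib.MP_1ae3da_al.GM

open Equiv Module

theorem lci (hlocp : LocpSt) (huf : UfSt) (hsgn : SgnSt) (hnum : NumSt) (hsq : SqSt)
    (hcmp : CmpSt) (hsA : SylASt) (hcb : CbSt) : LciSt := by
  intro p k0 _ B _ _ lv X N _ _ _ C Δ T lg vc a M hp2 ha hfib hL hM hdiv
  have hp : p.Prime := Fact.out
  obtain ⟨iv, hP⟩ := hlocp p k0 B lv a hp2 hfib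
  have hA := hsA p k0 B lv
  set n := ∑ k, a k * p ^ (k : ℕ) with hn
  have hcard : Fintype.card (Om p k0 lv) = n := by
    rw [hA.card, ← Finset.sum_fiberwise (s := Finset.univ) (g := lv)]
    refine Finset.sum_congr rfl fun k _ => ?_
    rw [Finset.sum_congr rfl (g := fun _ => p ^ (k : ℕ)) fun b hb => by
      rw [(Finset.mem_filter.1 hb).2], Finset.sum_const, hfib, smul_eq_mul]
  have hXM : ∀ x : X, x ^ M = 1 := fun x => by
    obtain ⟨c, rfl⟩ := hdiv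
    rw [mul_right_comm, pow_mul', pow_card_eq_one', one_pow]
  have h4 : 4 * p.factorial ∣ M := (Dvd.intro _ rfl).trans hdiv
  have hval : ∀ x, Val a (iv (lg x) (vc x)) := fun x => (hP.p2 _).2 ⟨_, _, hL.vz x, rfl⟩
  have hD : ∀ x, Dm C.q n (tyM (iv (lg x) (vc x))) ≠ 0 := fun x =>
    hcmp.dm_ne _ _ _ (hnum p k0 C.q a _ hp2 (hval x)).pos.2
  have key : ∀ (σ : Ga) (s : ℕ), Ex M σ s → ∀ (x r : N) (j : ℕ) (h : N), r ∈ T →
      x ^ s = r * Δ.z ^ j * (h * x * h⁻¹) → Eps (Dm C.q n (tyM (iv (lg x) (vc x)))) σ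
        ((-1) ^ j * Δ.sg h ^ Δ.pa x * so (Lg.tp (lg x)) (Lg.tp (lg h))) := by
    intro σ s hs x r j h hr e
    obtain ⟨x', h', e1, e2, e3⟩ := hL.lift x s r j h hr e
    have := huf _ X C x' h' j s M σ hM (hXM x') hs e3
    rw [hcard, e1, e2, hP.p6 _ _ (hL.vz x), ← hL.sg, ← hL.sg] at this
    convert this using 1
    unfold Sg.pa
    split_ifs <;> simp [mul_assoc, mul_comm (so _ _)]
  have key1 : ∀ (x r : N) (j : ℕ) (h : N), r ∈ T → x = r * Δ.z ^ j * (h * x * h⁻¹) →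
      (-1) ^ j * Δ.sg h ^ Δ.pa x = so (Lg.tp (lg x)) (Lg.tp (lg h)) := by
    intro x r j h hr e
    have := hsq.eps_refl _ _ (hD x) (key _ 1 (hsq.refl M) x r j h hr (by rwa [pow_one]))
    rwa [mul_eq_one_iff_eq_inv, Int.units_inv_eq_self] at this
  have pw : ∀ σ ∈ Hl p, ∀ s, Ex M σ s → ∀ x : N, ∃ r ∈ T, ∃ (j : ℕ) (h : N),
      x ^ s = r * Δ.z ^ j * (h * x * h⁻¹) ∧ Δ.sg h = sgP (iv (lg x) (vc x)) s ∧
        so (Lg.tp (lg x)) (Lg.tp (lg h)) = soP (iv (lg x) (vc x)) s := by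
    intro σ hσ s hs x
    have hc := hsq.cop M σ s hM hs
    have hpM : p ∣ M := ((Nat.dvd_factorial hp.pos le_rfl).mul_left 4).trans h4
    have hp1 : p - 1 ∣ M :=
      ((Nat.dvd_factorial (by have := hp.two_le; omega) (Nat.sub_le _ _)).mul_left 4).trans h4
    have hord : orderOf (lg x) ∣ M := by
      rw [orderOf_dvd_iff_pow_eq_one]
      apply hA.tp_inj
      obtain ⟨y, hy⟩ := C.surj (Lg.tp (lg x))
      rw [map_pow, ← hy, ← map_pow, hXM, map_one, map_one]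
    obtain ⟨h, h1, h2, h3⟩ := hP.p5 (lg x) (vc x) s (hL.vz x) (hsq.mod p M σ s hp hσ hp1 hs)
      (fun hd => hp.one_lt.ne' (Nat.eq_one_of_dvd_coprimes hc hd hpM))
      (hc.coprime_dvd_right hord)
    obtain ⟨r, hr, j, h', e1, e2⟩ := hL.ex x (x ^ s) h (by rwa [map_pow, hL.pow])
    exact ⟨r, hr, j, h', e2, by rw [hL.sg, e1, h2], by rw [e1, h3]⟩
  refine ⟨fun x => iv (lg x) (vc x), fun ω b x y => ?_, fun m => ?_, fun x => ?_, fun x => ?_,
    fun x => ?_, fun σ hσ s hs x => ?_, fun σ hσ s hs x u hg hu => ?_,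
    fun σ hσ s hs x u hg hu => ?_, fun σ hσ s hs x hx hg => ?_⟩
  · rw [hP.p1 _ _ _ _ (hL.vz x) (hL.vz y)]
    constructor
    · rintro ⟨u, r, hr, j, h, e, -⟩
      exact ⟨_, hL.rel x y r j h hr e⟩
    · rintro ⟨h, hh⟩
      obtain ⟨r, hr, j, h', -, e⟩ := hL.ex x y h hh
      exact ⟨_, r, hr, j, h', e, rfl⟩
  · rw [hP.p2]
    constructor
    · rintro ⟨l, v, hv, rfl⟩
      obtain ⟨x, rfl, rfl⟩ := hL.surj l v hv
      exact ⟨x, rfl⟩
    · rintro ⟨x, rfl⟩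
      exact ⟨_, _, hL.vz x, rfl⟩
  · rw [hL.sg, hP.p3 _ _ (hL.vz x)]
  · rw [hP.p4m _ _ (hL.vz x)]
    constructor
    · intro hg h hh
      obtain ⟨r, hr, j, h', rfl, e⟩ := hL.ex x x h hh
      rw [← key1 x r j h' hr e]
      exact hg _ ⟨r, hr, j, h', e, rfl⟩
    · rintro hg u ⟨r, hr, j, h, e, rfl⟩
      rw [key1 x r j h hr e]
      exact hg _ (hL.rel x x r j h hr e)
  · rw [hP.p4p _ _ (hL.vz x)]
    constructor
    · intro hg h hh
      obtain ⟨r, hr, j, h', rfl, e⟩ := hL.ex x x h hh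
      rw [← hL.sg]
      exact hg _ ⟨r, hr, j, h', e, by simp⟩
    · rintro hg u ⟨r, hr, j, h, e, rfl⟩
      rw [one_pow, one_mul, pow_one, hL.sg]
      exact hg _ (hL.rel x x r j h hr e)
  · obtain ⟨r, hr, j, h, e, -, -⟩ := pw σ hσ s hs x
    exact ⟨r, hr, j, h, e, by simp⟩
  · obtain ⟨r, hr, j, h, e, -, e2⟩ := pw σ hσ s hs x
    refine ⟨r, hr, j, h, e, ?_⟩
    rw [(hsgn p k0 C.q a _ M σ s hp2 ha (hval x) h4 hσ hs _ (key σ s hs x r j h hr e)).1 hg u hu,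
      e2, mul_assoc, Int.units_mul_self, mul_one]
  · obtain ⟨r, hr, j, h, e, e1, -⟩ := pw σ hσ s hs x
    refine ⟨r, hr, j, h, e, ?_⟩
    obtain ⟨w, hw⟩ := hsq.eps_ex (Dm C.q n (tyM (iv (lg x) (vc x)))) σ
    obtain ⟨s1, s2⟩ := hsgn p k0 C.q a _ M σ s hp2 ha (hval x) h4 hσ hs w hw
    rw [s1 hg.1 u hu, s2 hg.2, e1, mul_assoc, Int.units_mul_self, mul_one, one_pow, one_mul,
      pow_one]
  · have hpa : Δ.pa x = 1 := if_pos hx
    have hev : ∀ τ : Ty p k0, ∀ r ∈ iv (lg x) (vc x) τ, (-1) ^ (r - 1) * τ.par = 1 := by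
      intro τ r hr
      by_contra hne
      obtain ⟨h, h1, h2, h3⟩ := hP.p7 _ _ (hL.vz x)
        ⟨τ, r, hr, (Int.units_eq_one_or _).resolve_left hne⟩
      obtain ⟨r, hr, j, h', rfl, e⟩ := hL.ex x x h h1
      have k1 := key1 x r j h' hr e
      have k2 := hg _ ⟨r, hr, j, h', e, rfl⟩
      rw [pow_zero, mul_one] at k2
      rw [k2, hpa, hL.sg, h2, h3] at k1
      exact absurd k1 (by decide)
    obtain ⟨r, hr, j, h, e, e1, e2⟩ := pw σ hσ s hs x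
    refine ⟨r, hr, j, h, e, ?_⟩
    have := (hsgn p k0 C.q a _ M σ s hp2 ha (hval x) h4 hσ hs _ (key σ s hs x r j h hr e)).2 hev
    rw [hpa, pow_one, e1, e2, mul_assoc, mul_eq_right] at this
    rw [this, pow_zero, mul_one]

end Pool.Agent.Lib.MP_1ae3da_al.GM
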