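import Pool.Agent.Lib.MP_1ae3da_al.GT

/-! Transport of a cover and a Sylow subgroup to the model. -/

namespace Pool.Agent.Lib.MP_1ae3da_al.GM

open Equiv Module

theorem loc (hlcm : LcmSt) (hlci : LciSt) (hsA : SylASt) (hsB : SylBSt) (hcb : CbSt) :
    LocSt := by
  intro p k0 _ Ω _ _ X N _ _ _ C R Δ j a M hp2 ha hn hL hM hdiv
  classical
  let B : Type := Σ k : Fin k0, Fin (a k)
  let lv : B → Fin k0 := Sigma.fst
  have hfib : ∀ k, (Finset.univ.filter fun b : B => lv b = k).card = a k := by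
    intro k
    have : (Finset.univ.filter fun b : B => lv b = k) =
        Finset.univ.map (Function.Embedding.sigmaMk (β := fun k => Fin (a k)) k) := by
      ext ⟨k', i⟩
      simp only [Finset.mem_filter, Finset.mem_univ, true_and, Finset.mem_map,
        Function.Embedding.sigmaMk_apply, lv]
      constructor
      · rintro rfl; exact ⟨i, rfl⟩
      · rintro ⟨i', e⟩; exact (congrArg Sigma.fst e).symm
    rw [this, Finset.card_map, Finset.card_univ, Fintype.card_fin]
  have hA := hsA p k0 B lv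
  have hcard : Fintype.card Ω = Fintype.card (Om p k0 lv) := by
    rw [hA.card, hn, Fintype.sum_sigma]
    simp [lv]
  let e0 := Fintype.equivOfCardEq hcard
  obtain ⟨C0, c1, -, -⟩ := (hcb Ω X C).map _ e0
  let P1 : Sylow p (Perm (Om p k0 lv)) := (hL.pg.map C0.π).toSylow
    fun h => hL.idx (h.trans (R.index_map_dvd C0.surj))
  let P2 : Sylow p (Perm (Om p k0 lv)) :=
    hA.pg.toSylow (hsB p k0 B lv fun k => by rw [hfib]; exact ha k)
  obtain ⟨g, hg⟩ := MulAction.exists_smul_eq (Perm (Om p k0 lv)) P1 P2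
  obtain ⟨C', d1, d2, d3⟩ := (hcb Ω X C).map _ (e0.trans g)
  have hπ : ∀ x, C'.π x = g * C0.π x * g⁻¹ := fun x => by
    rw [d1, c1]; ext w : 1; simp [Perm.inv_def]
  have hmap : R.map C'.π = Qs p k0 lv := by
    have h1 : (P2 : Subgroup _) = Qs p k0 lv := rfl
    rw [← h1, ← hg, Sylow.coe_subgroup_smul]
    ext y
    rw [Subgroup.mem_pointwise_smul_iff_inv_smul_mem]
    constructor
    · rintro ⟨x, hx, rfl⟩
      refine ⟨x, hx, ?_⟩
      rw [hπ]
      simp [mul_assoc]
    · rintro ⟨x, hx, e⟩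
      refine ⟨x, hx, ?_⟩
      rw [hπ, e]
      simp [mul_assoc]
  have hL' : LocSet p C' R Δ j :=
    ⟨hL.pg, hL.idx, hL.inj, hL.rng, fun y => by rw [hL.sg, d1, Perm.sign_permCongr],
      hL.z.trans d2.symm⟩
  obtain ⟨lg, vc, hM'⟩ := hlcm p k0 B lv X N C' R Δ j hp2 hL' hmap
  have := hlci p k0 B lv X N C' Δ _ lg vc a M hp2 ha hfib hM' hM hdiv
  rwa [d3, ← hn] at this

end Pool.Agent.Lib.MP_1ae3da_al.GM
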