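import Pool.Agent.Lib.MP_1ae3da_al.GT

/-! The complete invariant of pairs `(l, v)`, and the number of types. -/

namespace Pool.Agent.Lib.MP_1ae3da_al.GM

open Equiv Module

namespace Locp

variable {p k0 : ℕ} [Fact p.Prime] {B : Type} {lv : B → Fin k0}

lemma act_sum (l : Lg p k0 lv) (s : Finset ℕ) (f : ℕ → B → Fin k0 → ZMod p) :
    l.act (∑ i ∈ s, f i) = ∑ i ∈ s, l.act (f i) := by
  classical
  induction s using Finset.induction_on with
  | empty => simp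
  | insert a s ha ih => rw [Finset.sum_insert ha, Finset.sum_insert ha, Lg.act_add, ih]

lemma rl_pow {k l l' : Lg p k0 lv} {v v' : B → Fin k0 → ZMod p} (h : Rl k l v l' v') (s : ℕ) :
    Rl k (l ^ s) (∑ i ∈ Finset.range s, (l ^ i).act v) (l' ^ s)
      (∑ i ∈ Finset.range s, (l' ^ i).act v') := by
  obtain ⟨h1, w, hw, h2⟩ := h
  refine ⟨by rw [← h1, conj_pow], w, hw, ?_⟩
  have e : ∀ i, l' ^ i * k = k * l ^ i := fun i => by rw [← h1, conj_pow]; group
  rw [act_sum, h2]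
  induction s with
  | zero => simp
  | succ s ih =>
    rw [Finset.sum_range_succ, Finset.sum_range_succ, ih, Lg.act_sub, Lg.act_add, ← Lg.act_mul,
      ← Lg.act_mul, ← Lg.act_mul, e, ← pow_succ]
    abel

end Locp

open Locp

theorem locp (hpa : PermASt) (hpb : PermBSt) (himg : ImgSt) (hl0 : Lp0St) (hl1 : Lp1St)
    (hl2 : Lp2St) (hl3 : Lp3St) (hl4a : Lp4aSt) (hl4b : Lp4bSt) (hl5 : Lp5St) : LocpSt := by
  intro p k0 _ B _ _ lv a hp2 hfib
  classical
  have hex : ∀ (l : Lg p k0 lv) (v : B → Fin k0 → ZMod p), ∃ m : Ty p k0 → Multiset ℕ, Vz lv v →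
      ∃ (O : Type) (_ : Fintype O) (r : O → ℕ) (τ : O → Ty p k0) (e : (Σ o, Fin (r o + 1)) ≃ B)
        (l' : Lg p k0 lv) (v' : B → Fin k0 → ZMod p) (h : Lg p k0 lv),
        Std r τ e l' v' ∧ Rl h l v l' v' ∧ m = mo r τ := by
    intro l v
    by_cases hv : Vz lv v
    · obtain ⟨O, i, r, τ, e, l', v', h, h1, h2⟩ := hl0 p k0 B lv l v hv
      exact ⟨mo r τ, fun _ => ⟨O, i, r, τ, e, l', v', h, h1, h2, rfl⟩⟩
    · exact ⟨0, fun h => absurd h hv⟩
  choose iv hiv using hex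
  have tpc : ∀ k l : Lg p k0 lv, Lg.tp (k * l * k⁻¹) = Lg.tp k * Lg.tp l * (Lg.tp k)⁻¹ :=
    fun k l => by rw [map_mul, map_mul, map_inv]
  have sgc : ∀ k l : Lg p k0 lv, Perm.sign (Lg.tp (k * l * k⁻¹)) = Perm.sign (Lg.tp l) :=
    fun k l => by rw [tpc, map_mul, map_mul, map_inv, mul_inv_cancel_comm]
  have soc : ∀ k l h : Lg p k0 lv, so (Lg.tp (k * l * k⁻¹)) (Lg.tp (k * h * k⁻¹)) =
      so (Lg.tp l) (Lg.tp h) := fun k l h => by rw [tpc, tpc, (hpb _).so_conj]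
  have up : ∀ {k l l' h : Lg p k0 lv} {v v' : B → Fin k0 → ZMod p}, Rl k l v l' v' →
      Rl h l v l v → Rl (k * h * k⁻¹) l' v' l' v' := fun a b => by
    simpa only [mul_assoc] using (a.symm.trans b).trans a
  have dn : ∀ {k l l' h : Lg p k0 lv} {v v' : B → Fin k0 → ZMod p}, Rl k l v l' v' →
      Rl h l' v' l' v' → Rl (k⁻¹ * h * k⁻¹⁻¹) l v l v := fun a b => up a.symm b
  refine ⟨iv, fun l v l' v' hv hv' => ?_, fun m => ?_, fun l v hv => ?_, fun l v hv => ?_,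
    fun l v hv => ?_, fun l v s hv h1 h2 h3 => ?_, fun l v hv => ?_, fun l v hv hh => ?_⟩
  · obtain ⟨O, i, r, τ, e, l1, v1, k, s1, r1, e1⟩ := hiv l v hv
    obtain ⟨O', i', r', τ', e', l2, v2, k', s2, r2, e2⟩ := hiv l' v' hv'
    rw [e1, e2, hl1 p k0 B lv O r τ e l1 v1 O' r' τ' e' l2 v2 s1 s2]
    exact ⟨fun ⟨h, hh⟩ => ⟨_, (r1.trans hh).trans r2.symm⟩,
      fun ⟨h, hh⟩ => ⟨_, (r1.symm.trans hh).trans r2⟩⟩
  · rw [hl2 p k0 B lv a hfib]
    constructor
    · rintro ⟨O, i, r, τ, e, l, v, s1, rfl⟩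
      have hv := himg.vz p k0 B lv O r τ e l v s1
      obtain ⟨O', i', r', τ', e', l2, v2, k', s2, r2, e2⟩ := hiv l v hv
      exact ⟨l, v, hv, e2.trans
        ((hl1 p k0 B lv O r τ e l v O' r' τ' e' l2 v2 s1 s2).2 ⟨_, r2⟩).symm⟩
    · rintro ⟨l, v, hv, rfl⟩
      obtain ⟨O, i, r, τ, e, l1, v1, k, s1, r1, e1⟩ := hiv l v hv
      exact ⟨O, i, r, τ, e, l1, v1, s1, e1.symm⟩
  · obtain ⟨O, i, r, τ, e, l1, v1, k, s1, r1, e1⟩ := hiv l v hv
    rw [e1, ← (hl3 p k0 B lv O r τ e l1 v1 hp2 s1).1, ← r1.1, sgc]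
  · obtain ⟨O, i, r, τ, e, l1, v1, k, s1, r1, e1⟩ := hiv l v hv
    rw [e1]
    constructor
    · intro hg h hh
      rw [← soc k, r1.1]
      exact (hl4a p k0 B lv O r τ e l1 v1 hp2 s1 _ (up r1 hh)).1 hg
    · intro hg
      by_contra hn
      obtain ⟨h, h1, h2⟩ := (hl4b p k0 B lv O r τ e l1 v1 hp2 s1).1 hn
      have := hg _ (dn r1 h1)
      rw [← r1.symm.1, soc, h2] at this
      exact absurd this (by decide)
  · obtain ⟨O, i, r, τ, e, l1, v1, k, s1, r1, e1⟩ := hiv l v hv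
    rw [e1]
    constructor
    · intro hg h hh
      rw [← sgc k]
      exact (hl4a p k0 B lv O r τ e l1 v1 hp2 s1 _ (up r1 hh)).2 hg
    · intro hg
      by_contra hn
      obtain ⟨h, h1, h2⟩ := (hl4b p k0 B lv O r τ e l1 v1 hp2 s1).2.1 hn
      have := hg _ (dn r1 h1)
      rw [sgc, h2] at this
      exact absurd this (by decide)
  · obtain ⟨O, i, r, τ, e, l1, v1, k, s1, r1, e1⟩ := hiv l v hv
    have ho : orderOf l1 = orderOf l := by
      rw [← r1.1]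
      exact (MulAut.conj k).orderOf_eq l
    obtain ⟨h, a1, a2, a3⟩ := hl5 p k0 B lv O r τ e l1 v1 hp2 s1 s h1 h2 (ho ▸ h3)
    refine ⟨k⁻¹ * h * k⁻¹⁻¹, ?_, ?_, ?_⟩
    · simpa only [mul_assoc, inv_inv] using (r1.trans a1).trans (rl_pow r1 s).symm
    · rw [sgc, a2, e1]
    · rw [e1, ← a3, ← soc k⁻¹ l1 h, r1.symm.1]
  · obtain ⟨O, i, r, τ, e, l1, v1, k, s1, r1, e1⟩ := hiv l v hv
    rw [e1, ← (hl3 p k0 B lv O r τ e l1 v1 hp2 s1).2, ← r1.1, tpc]
    exact ((hpa _).conj _ _).1 (isConj_iff.2 ⟨_, rfl⟩)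
  · obtain ⟨O, i, r, τ, e, l1, v1, k, s1, r1, e1⟩ := hiv l v hv
    rw [e1] at hh
    obtain ⟨h, a1, a2, a3⟩ := (hl4b p k0 B lv O r τ e l1 v1 hp2 s1).2.2 hh
    refine ⟨_, dn r1 a1, ?_, ?_⟩
    · rw [sgc, a2]
    · rw [← a3, ← soc k⁻¹ l1 h, r1.symm.1]

theorem tyCnt (hsq : SqSt) : TyCntSt := by
  intro p k0 _ k hp2
  classical
  have hp : p.Prime := Fact.out
  have chi1 : chi (1 : ZMod p) = 1 := if_pos IsSquare.one
  let D : Fin k0 → Finset (Option (ZMod p)ˣ) := fun j => if j < k then Finset.univ else {some 1}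
  have hmem : ∀ f : Fin k0 → Option (ZMod p)ˣ, f ∈ Fintype.piFinset D ↔ Ty.nrm (k, f) := by
    intro f
    rw [Fintype.mem_piFinset]
    refine forall_congr' fun j => ?_
    by_cases h : j < k
    · simp [D, h, not_le.2 h]
    · simp [D, h, not_lt.1 h]
  have hlt : (Finset.univ.filter fun j : Fin k0 => j < k).card = k := by
    rw [← Fin.card_Iio k]; congr 1; ext j; simp
  have hcard : ∀ Q : Ty p k0 → Prop, Nat.card {τ : Ty p k0 // τ.1 = k ∧ τ.nrm ∧ Q τ} =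
      ((Fintype.piFinset D).filter fun f => Q (k, f)).card := by
    intro Q
    rw [← Fintype.card_coe, ← Nat.card_eq_fintype_card]
    refine Nat.card_congr ⟨fun τ => ⟨τ.1.2, ?_⟩, fun f => ⟨(k, f.1), rfl, ?_⟩, ?_, fun _ => rfl⟩
    · obtain ⟨⟨k', f⟩, rfl, h1, h2⟩ := τ
      exact Finset.mem_filter.2 ⟨(hmem f).2 h1, h2⟩
    · exact ⟨(hmem _).1 (Finset.mem_filter.1 f.2).1, (Finset.mem_filter.1 f.2).2⟩
    · rintro ⟨⟨k', f⟩, rfl, h⟩; rfl
  have hD : (Fintype.piFinset D).card = p ^ (k : ℕ) := by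
    rw [Fintype.card_piFinset]
    have : ∀ j, (D j).card = if j < k then p else 1 := by
      intro j
      by_cases h : j < k
      · simp only [D, h, if_true, Finset.card_univ, Fintype.card_option, ZMod.card_units]
        have := hp.one_lt; omega
      · simp [D, h]
    simp only [this, Finset.prod_ite, Finset.prod_const, one_pow, mul_one, hlt]
  have hsum : ∑ c : (ZMod p)ˣ, (chi (c : ZMod p) : ℤ) = 0 := by
    obtain ⟨c0, hc0⟩ := hsq.chi_neg p hp hp2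
    have := Fintype.sum_equiv (Equiv.mulLeft c0) (fun c => -(chi (c : ZMod p) : ℤ))
      (fun c => (chi (c : ZMod p) : ℤ)) fun c => by
        simp only [Equiv.coe_mulLeft, Units.val_mul]
        rw [hsq.chi_mul p _ _ hp c0.ne_zero c.ne_zero, hc0]; simp
    rw [Finset.sum_neg_distrib] at this
    omega
  have hpar : ∑ f ∈ Fintype.piFinset D, (Ty.par (k, f) : ℤ) = 1 := by
    have : ∀ f : Fin k0 → Option (ZMod p)ˣ, (Ty.par (k, f) : ℤ) =
        ∏ j, (chi (((f j).getD 1 : (ZMod p)ˣ) : ZMod p) : ℤ) := fun f => by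
      simp [Ty.par, Ty.sc]
    simp only [this]
    rw [← Finset.prod_univ_sum D fun _ o => (chi ((o.getD 1 : (ZMod p)ˣ) : ZMod p) : ℤ)]
    refine Finset.prod_eq_one fun j _ => ?_
    by_cases h : j < k
    · simp [D, h, Fintype.sum_option, hsum, chi1]
    · simp [D, h, chi1]
  refine ⟨?_, ?_, fun j hj => if_neg (not_lt.2 hj), ?_, ?_⟩
  · have := hcard fun _ => True
    simp only [and_true, Finset.filter_true] at this
    rw [this, hD]
  · rw [hcard fun τ => τ.par = -1, ← hD]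
    have h1 : ∀ f ∈ Fintype.piFinset D, (Ty.par (k, f) : ℤ) =
        1 - 2 * (if Ty.par (k, f) = -1 then 1 else 0) := fun f _ => by
      rcases Int.units_eq_one_or (Ty.par (k, f)) with h | h <;> simp [h]
    rw [Finset.sum_congr rfl h1, Finset.sum_sub_distrib, ← Finset.mul_sum, Finset.sum_boole,
      Finset.sum_const, nsmul_eq_mul, mul_one] at hpar
    have h2 := eq_add_of_sub_eq hpar
    rw [add_comm]
    convert (Int.natCast_inj.1 (by push_cast; exact h2)).symm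
  · refine Finset.prod_eq_one fun j _ => ?_
    by_cases h : j < k <;> simp [Ty.sc, Ty.star, h, chi1]
  · rw [Ty.stc, ← hlt]
    congr 1
    ext j
    by_cases h : j < k <;> simp [Ty.star, h]

end Pool.Agent.Lib.MP_1ae3da_al.GM
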