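import Pool.Agent.Lib.MP_1ae3da_al.GT

/-! Standard forms: the local data are a complete invariant, and which data occur. -/

namespace Pool.Agent.Lib.MP_1ae3da_al.GM

open Equiv

namespace Lp1

variable {p k0 : ℕ} [Fact p.Prime]

lemma count_mo {O : Type} [Fintype O] (r : O → ℕ) (τ : O → Ty p k0) (t : Ty p k0) (n : ℕ) :
    (mo r τ t).count (n + 1) = Fintype.card {o // (τ o, r o) = (t, n)} := by
  rw [mo, Multiset.count_map, Fintype.card_subtype, Finset.filter_val, Multiset.filter_filter,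
    Finset.card_def, Finset.filter_val]
  congr 1
  refine Multiset.filter_congr fun o _ => ?_
  simp only [Prod.mk.injEq, Nat.add_right_cancel_iff]
  tauto

lemma mo_iff {O O' : Type} [Fintype O] [Fintype O'] (r : O → ℕ) (τ : O → Ty p k0)
    (r' : O' → ℕ) (τ' : O' → Ty p k0) :
    mo r τ = mo r' τ' ↔ ∃ η : O ≃ O', ∀ o, τ' (η o) = τ o ∧ r' (η o) = r o := by
  constructor
  · intro h
    let E : ∀ w : Ty p k0 × ℕ, {o // (τ o, r o) = w} ≃ {o // (τ' o, r' o) = w} := fun w =>
      Fintype.equivOfCardEq (by rw [← count_mo r τ w.1 w.2, ← count_mo r' τ' w.1 w.2, h])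
    exact ⟨Equiv.ofFiberEquiv E, fun o => Prod.mk.inj (Equiv.ofFiberEquiv_map E o)⟩
  · rintro ⟨η, hη⟩
    funext t
    have : (Finset.univ.filter fun o => τ' o = t) =
        (Finset.univ.filter fun o => τ o = t).map η.toEmbedding := by
      ext o
      obtain ⟨o, rfl⟩ := η.surjective o
      simp [(hη o).1]
    rw [mo, mo, this, Finset.map_val, Multiset.map_map]
    exact Multiset.map_congr rfl fun o _ => by simp [(hη o).2]

lemma card_fib {O : Type} [Fintype O] (r : O → ℕ) (τ : O → Ty p k0) (k : Fin k0) :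
    Fintype.card {x : Σ o, Fin (r o + 1) // (τ x.1).1 = k} =
      ∑ t : Ty p k0 with t.1 = k, (mo r τ t).sum := by
  have h1 : ∀ t, (mo r τ t).sum = ∑ o, if τ o = t then r o + 1 else 0 := fun t => by
    rw [← Finset.sum_filter]; rfl
  simp only [h1]
  rw [Finset.sum_comm, Fintype.card_subtype, Finset.card_filter, Fintype.sum_sigma]
  refine Finset.sum_congr rfl fun o _ => ?_
  rw [Finset.sum_ite_eq]
  by_cases h : (τ o).1 = k <;> simp [h]

lemma add_ofNat_eq {n : ℕ} (i : Fin (n + 1)) (s : ℕ) :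
    i + Fin.ofNat (n + 1) s = i ↔ n + 1 ∣ s := by
  rw [add_eq_left, Fin.ext_iff, Fin.val_ofNat, Fin.val_zero, Nat.dvd_iff_mod_eq_zero]

end Lp1

open Lp1 in
theorem lp1 (himg : ImgSt) : Lp1St := by
  intro p k0 _ B _ _ lv O _ r τ e l v O' _ r' τ' e' l' v' S S'
  rw [mo_iff]
  constructor
  · rintro ⟨η, hη⟩
    obtain rfl : r = fun o => r' (η o) := funext fun o => (hη o).2.symm
    obtain rfl : τ = fun o => τ' (η o) := funext fun o => (hη o).1.symm
    let π : Perm B := e.symm.trans ((Equiv.sigmaCongrLeft (β := fun o => Fin (r' o + 1)) η).trans e')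
    have hπ : ∀ o i, π (e ⟨o, i⟩) = e' ⟨η o, i⟩ := fun o i => by
      simp only [π, Equiv.trans_apply, Equiv.symm_apply_apply]; rfl
    let h : Lg p k0 lv := ⟨π, fun _ _ => 1, fun b => by
      obtain ⟨⟨o, i⟩, rfl⟩ := e.surjective b
      rw [hπ, S.hlv, S'.hlv], fun _ _ _ => rfl⟩
    refine ⟨h, ?_, 0, Vz.zero, ?_⟩
    · rw [mul_inv_eq_iff_eq_mul]
      apply Lg.ext
      · ext b
        obtain ⟨⟨o, i⟩, rfl⟩ := e.surjective b
        change π (l.π _) = l'.π (π _)
        rw [S.hπ, hπ, hπ, S'.hπ]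
      · funext b j
        obtain ⟨⟨o, i⟩, rfl⟩ := e.surjective b
        change 1 * l.c _ j = l'.c (π _) j * 1
        rw [hπ, S.hc, S'.hc, one_mul, mul_one]
    · rw [Lg.act_zero, add_zero, sub_zero]
      funext b j
      obtain ⟨b, rfl⟩ := π.surjective b
      obtain ⟨⟨o, i⟩, rfl⟩ := e.surjective b
      change _ = ((1 : (ZMod p)ˣ) : ZMod p) * v (π.symm (π _)) j
      rw [Equiv.symm_apply_apply, hπ, S.hv, S'.hv, Units.val_one, one_mul]
  · rintro ⟨h, h1, w, hw, h2⟩
    have hs : ∀ s : ℕ, h * l ^ s = l' ^ s * h := fun s => by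
      rw [← h1, conj_pow, inv_mul_cancel_right]
    have hsπ : ∀ (s : ℕ) b, h.π ((l ^ s).π b) = (l' ^ s).π (h.π b) := fun s b =>
      congrArg (fun x : Lg p k0 lv => x.π b) (hs s)
    have hsc : ∀ (s : ℕ) b j, h.c ((l ^ s).π b) j * (l ^ s).c b j =
        (l' ^ s).c (h.π b) j * h.c b j := fun s b j =>
      congrArg (fun x : Lg p k0 lv => x.c b j) (hs s)
    have P := himg.lpow p k0 B lv O r τ e l v S
    have P' := himg.lpow p k0 B lv O' r' τ' e' l' v' S'
    obtain ⟨η, a, ha⟩ : ∃ (η : O → O') (a : ∀ o, Fin (r' (η o) + 1)),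
        ∀ o, h.π (e ⟨o, 0⟩) = e' ⟨η o, a o⟩ :=
      ⟨fun o => (e'.symm (h.π (e ⟨o, 0⟩))).1, fun o => (e'.symm (h.π (e ⟨o, 0⟩))).2,
        fun o => (e'.apply_symm_apply _).symm⟩
    have main : ∀ o (s : ℕ), h.π (e ⟨o, 0 + Fin.ofNat _ s⟩) = e' ⟨η o, a o + Fin.ofNat _ s⟩ :=
      fun o s => by rw [← (P s o 0).1, hsπ, ha, (P' s _ _).1]
    have onto : ∀ {n : ℕ} (i i' : Fin (n + 1)), ∃ s : ℕ, i + Fin.ofNat _ s = i' :=
      fun i i' => ⟨(i' - i).val, by simp⟩
    have inj : Function.Injective η := by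
      intro o o2 ho
      have k := ha o2
      generalize a o2 = a2 at k
      generalize η o2 = x at ho a2 k
      subst ho
      obtain ⟨s, hs⟩ := onto (a o) a2
      rw [← hs, ← main] at k
      exact (congrArg Sigma.fst (e.injective (h.π.injective k))).symm
    have sur : Function.Surjective η := by
      intro o'
      obtain ⟨b, hb⟩ := h.π.surjective (e' ⟨o', 0⟩)
      obtain ⟨⟨o, i⟩, rfl⟩ := e.surjective b
      obtain ⟨s, rfl⟩ := onto 0 i
      rw [main] at hb
      exact ⟨o, congrArg Sigma.fst (e'.injective hb)⟩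
    have per : ∀ o (s : ℕ), r o + 1 ∣ s ↔ r' (η o) + 1 ∣ s := by
      intro o s
      rw [← add_ofNat_eq (0 : Fin (r o + 1)), ← add_ofNat_eq (a o)]
      constructor
      · intro k
        have := main o s
        rw [k, ha] at this
        exact (eq_of_heq (Sigma.mk.inj (e'.injective this)).2).symm
      · intro k
        have := main o s
        rw [k, ← ha] at this
        exact eq_of_heq (Sigma.mk.inj (e.injective (h.π.injective this))).2
    have hr : ∀ o, r' (η o) = r o := fun o => by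
      have := Nat.dvd_antisymm ((per o _).1 dvd_rfl) ((per o _).2 dvd_rfl)
      omega
    refine ⟨Equiv.ofBijective η ⟨inj, sur⟩, fun o => ⟨?_, hr o⟩⟩
    change τ' (η o) = τ o
    refine Prod.ext (by rw [← S'.hlv _ (a o), ← ha, h.hπ, S.hlv]) (funext fun j => ?_)
    have hsc' : (τ' (η o)).sc j = (τ o).sc j := by
      have k := hsc (r o + 1) (e ⟨o, 0⟩) j
      have d1 : (((0 : Fin (r o + 1)) : ℕ) + (r o + 1)) / (r o + 1) = 1 := by simp
      have d2 : ((a o : ℕ) + (r o + 1)) / (r' (η o) + 1) = 1 := by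
        rw [← hr o, Nat.add_div_right _ (Nat.succ_pos _), Nat.div_eq_of_lt (a o).2]
      rw [(P _ o 0).1, (add_ofNat_eq _ _).2 dvd_rfl, (P _ o 0).2, ha, (P' _ _ _).2, d1, d2,
        pow_one, pow_one, mul_comm] at k
      exact (mul_right_cancel k).symm
    suffices hn : (τ' (η o)).2 j = none ↔ (τ o).2 j = none by
      unfold Ty.sc at hsc'
      cases h1 : (τ' (η o)).2 j <;> cases h2 : (τ o).2 j <;> simp_all
    by_cases h0 : (τ o).sc j = 1
    swap
    · refine iff_of_false (fun k => h0 ?_) fun k => h0 ?_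
      · rw [← hsc', Ty.sc, k]; rfl
      · rw [Ty.sc, k]; rfl
    have vz := himg.vz p k0 B lv O r τ e l v S
    have vz' := himg.vz p k0 B lv O' r' τ' e' l' v' S'
    have k := (himg.img p k0 B lv O' r' τ' e' l' v' S' (v' - h.act v) (vz'.sub (vz.act h))).1
      ⟨w, hw, by rw [h2]; abel⟩ (η o) j (hsc'.trans h0)
    simp only [Pi.sub_apply, Finset.sum_sub_distrib] at k
    rw [Finset.sum_eq_single 0 (fun i _ hi => by rw [S'.hv, if_neg fun x => hi x.1]) (by simp),
      Finset.sum_eq_single (a o) ?_ (by simp), ← ha, S'.hv] at k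
    · simp only [Lg.act, Perm.coe_inv, Equiv.symm_apply_apply, S.hv, true_and] at k
      by_cases k1 : (τ' (η o)).2 j = none <;> by_cases k2 : (τ o).2 j = none <;> simp_all
    · intro i _ hi
      obtain ⟨b, hb⟩ := h.π.surjective (e' ⟨η o, i⟩)
      obtain ⟨⟨o2, i2⟩, rfl⟩ := e.surjective b
      rw [← hb]
      simp only [Lg.act, Perm.coe_inv, Equiv.symm_apply_apply, S.hv]
      rw [if_neg, mul_zero]
      rintro ⟨rfl, -⟩
      rw [ha] at hb
      obtain rfl : o2 = o := inj (congrArg Sigma.fst (e'.injective hb))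
      exact hi (eq_of_heq (Sigma.mk.inj (e'.injective hb)).2).symm

open Lp1 in
theorem lp2 : Lp2St := by
  intro p k0 _ B _ _ lv a ha m
  constructor
  · rintro ⟨h0, h1, h2⟩
    let O : Type := Σ t : Ty p k0, (m t).ToType
    let r : O → ℕ := fun o => (o.2 : ℕ) - 1
    let τ : O → Ty p k0 := fun o => o.1
    have hm : mo r τ = m := by
      funext t
      have : (Finset.univ.filter fun o : O => τ o = t) =
          Finset.univ.map (Function.Embedding.sigmaMk t) := by
        ext ⟨t', x⟩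
        simp only [Finset.mem_filter, Finset.mem_univ, true_and, Finset.mem_map, τ]
        constructor
        · rintro rfl
          exact ⟨x, rfl⟩
        · rintro ⟨y, hy⟩
          exact (congrArg Sigma.fst hy).symm
      rw [mo, this, Finset.map_val, Multiset.map_map]
      conv_rhs => rw [← Multiset.map_univ_coe (m t)]
      refine Multiset.map_congr rfl fun x _ => ?_
      have : (x : ℕ) ≠ 0 := fun h => h0 t (h ▸ Multiset.coe_mem)
      change (x : ℕ) - 1 + 1 = x
      omega
    have hn : ∀ o, (τ o).nrm := fun o => by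
      by_contra h
      have : (o.2 : ℕ) ∈ m o.1 := Multiset.coe_mem
      generalize (o.2 : ℕ) = y at this
      rw [h1 _ h] at this
      simp at this
    let E : ∀ k : Fin k0, {x : Σ o, Fin (r o + 1) // (τ x.1).1 = k} ≃ {b // lv b = k} := fun k =>
      Fintype.equivOfCardEq (by rw [card_fib, hm, h2, Fintype.card_subtype, ha])
    obtain ⟨e, he⟩ : ∃ e : (Σ o, Fin (r o + 1)) ≃ B, ∀ x, lv (e x) = (τ x.1).1 :=
      ⟨Equiv.ofFiberEquiv E, Equiv.ofFiberEquiv_map E⟩
    let π : Perm B := e.permCongr (Perm.sigmaCongrRight fun o => Equiv.addRight 1)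
    have hπ : ∀ o i, π (e ⟨o, i⟩) = e ⟨o, i + 1⟩ := fun o i => by
      simp only [π, Equiv.permCongr_apply, Equiv.symm_apply_apply]; rfl
    let F : (Σ o, Fin (r o + 1)) → Fin k0 → (ZMod p)ˣ := fun x j =>
      if x.2 = Fin.last (r x.1) then (τ x.1).sc j else 1
    let V : (Σ o, Fin (r o + 1)) → Fin k0 → ZMod p := fun x j =>
      if x.2 = 0 ∧ (τ x.1).2 j = none then 1 else 0
    let l : Lg p k0 lv := ⟨π, fun b => F (e.symm b), fun b => by
      obtain ⟨⟨o, i⟩, rfl⟩ := e.surjective b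
      rw [hπ, he, he], fun b j h => by
      obtain ⟨x, rfl⟩ := e.surjective b
      rw [he] at h
      rw [Equiv.symm_apply_apply]
      simp [F, Ty.sc, hn x.1 j h]⟩
    refine ⟨O, inferInstance, r, τ, e, l, fun b => V (e.symm b),
      ⟨hn, fun o i => he _, hπ, fun o i j => ?_, fun o i j => ?_⟩, hm⟩
    · change F (e.symm (e _)) j = _
      rw [Equiv.symm_apply_apply]
    · change V (e.symm (e _)) j = _
      rw [Equiv.symm_apply_apply]
  · rintro ⟨O, _, r, τ, e, l, v, S, rfl⟩
    refine ⟨fun t => by simp [mo], fun t h => ?_, fun k => ?_⟩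
    · rw [mo, Multiset.map_eq_zero, Finset.val_eq_zero, Finset.filter_eq_empty_iff]
      rintro o - rfl
      exact h (S.nrm o)
    · rw [← card_fib, ← ha, ← Fintype.card_subtype]
      exact Fintype.card_congr (e.subtypeEquiv fun x => by rw [S.hlv x.1 x.2])

end Pool.Agent.Lib.MP_1ae3da_al.GM
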