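import Pool.Agent.Lib.MP_1ae3da_al.GT

/-! The sign and the cycle type of a standard element of the local group. -/

namespace Pool.Agent.Lib.MP_1ae3da_al.GM

open Equiv

namespace Lp3

lemma ty_eq {Ω : Type} [Fintype Ω] [DecidableEq Ω] (h : PermA Ω) (g : Perm Ω) (M : Multiset ℕ)
    (h0 : 0 ∉ M)
    (hc : ∀ n, n * M.count n = (Finset.univ.filter fun x => Function.minimalPeriod g x = n).card) :
    ty g = M := by
  ext n
  rcases Nat.eq_zero_or_pos n with rfl | hn
  · rw [Multiset.count_eq_zero_of_notMem (h.pos g), Multiset.count_eq_zero_of_notMem h0]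
  · exact Nat.eq_of_mul_eq_mul_left hn ((h.per g n).trans (hc n).symm)

lemma per_eq {X : Type} (f : X → X) (x : X) (n : ℕ)
    (h : ∀ s, Function.IsPeriodicPt f s x ↔ n ∣ s) : Function.minimalPeriod f x = n :=
  Nat.dvd_antisymm (Function.isPeriodicPt_iff_minimalPeriod_dvd.1 ((h n).2 dvd_rfl))
    ((h _).1 (Function.isPeriodicPt_minimalPeriod f x))

lemma perm_per {X : Type} (g : Perm X) (s : ℕ) (x : X) :
    Function.IsPeriodicPt g s x ↔ (g ^ s) x = x := by
  rw [Function.IsPeriodicPt, Function.IsFixedPt, Equiv.Perm.iterate_eq_pow]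

lemma add_ofNat {m : ℕ} (i : Fin (m + 1)) (s : ℕ) :
    i + Fin.ofNat (m + 1) s = i ↔ m + 1 ∣ s := by
  rw [add_eq_left, Fin.ext_iff, Fin.val_ofNat, Nat.dvd_iff_mod_eq_zero]
  rfl

variable {p k0 : ℕ} [Fact p.Prime]

lemma tor_pow (t : Ty p k0) (ht : t.nrm) (s : ℕ) (j : Fin k0) :
    (t.tor ^ s).c () j = t.sc j ^ s := by
  induction s with
  | zero => simp
  | succ s ih =>
    rw [pow_succ, Lg.mul_c, pow_succ, ih]
    congr 1
    change (if j < t.1 then t.sc j else 1) = t.sc j
    split_ifs with h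
    · rfl
    · simp [Ty.sc, ht j (not_lt.1 h)]

lemma sum_mo {O : Type} [Fintype O] (r : O → ℕ) (τ : O → Ty p k0) :
    tyM (mo r τ) = ∑ o, (ty (Lg.tp (τ o).tor)).map fun u => (r o + 1) * u := by
  classical
  rw [tyM, ← Finset.sum_fiberwise Finset.univ τ]
  refine Finset.sum_congr rfl fun t _ => ?_
  rw [mo, Multiset.bind_map]
  change ∑ o ∈ Finset.univ.filter (fun o => τ o = t),
    ((ty (Lg.tp t.tor)).map fun u => (r o + 1) * u) = _
  refine Finset.sum_congr (by congr) fun o ho => ?_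
  rw [(Finset.mem_filter.1 ho).2]

lemma prod_mo {O : Type} [Fintype O] (r : O → ℕ) (τ : O → Ty p k0) :
    sgm (mo r τ) = ∏ o, (-1) ^ r o * (τ o).par := by
  classical
  rw [sgm, ← Finset.prod_fiberwise Finset.univ τ]
  refine Finset.prod_congr rfl fun t _ => ?_
  rw [mo, Multiset.map_map]
  change ∏ o ∈ Finset.univ.filter (fun o => τ o = t),
    ((-1 : ℤˣ) ^ (r o + 1 - 1) * t.par) = _
  refine Finset.prod_congr (by congr) fun o ho => ?_
  rw [(Finset.mem_filter.1 ho).2, Nat.add_sub_cancel]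

lemma count_mul {Ω : Type} [Fintype Ω] [DecidableEq Ω] (h : PermA Ω) (g : Perm Ω) (m n : ℕ) :
    n * ((ty g).map fun u => (m + 1) * u).count n =
      (m + 1) * (Finset.univ.filter fun x => (m + 1) * Function.minimalPeriod g x = n).card := by
  by_cases hd : m + 1 ∣ n
  · obtain ⟨u, rfl⟩ := hd
    have hi : Function.Injective fun u : ℕ => (m + 1) * u :=
      fun a b hab => Nat.eq_of_mul_eq_mul_left (Nat.succ_pos m) hab
    rw [Multiset.count_map_eq_count' _ _ hi, mul_assoc, h.per]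
    congr 2
    ext x
    simp only [Finset.mem_filter, Finset.mem_univ, true_and]
    exact ⟨fun e => by rw [e], fun e => hi e⟩
  · rw [Multiset.count_eq_zero_of_notMem, Finset.filter_eq_empty_iff.2]
    · simp
    · exact fun x _ e => hd ⟨_, e.symm⟩
    · intro hm
      obtain ⟨u, -, e⟩ := Multiset.mem_map.1 hm
      exact hd ⟨_, e.symm⟩

variable {B : Type} {lv : B → Fin k0} {O : Type} {r : O → ℕ} {τ : O → Ty p k0}
  {e : (Σ o, Fin (r o + 1)) ≃ B} {l : Lg p k0 lv} {v : B → Fin k0 → ZMod p}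

lemma per_pi (himg : ImgSt) (hs : Std r τ e l v) (o : O) (i : Fin (r o + 1)) :
    Function.minimalPeriod l.π (e ⟨o, i⟩) = r o + 1 := by
  refine per_eq _ _ _ fun s => ?_
  have h1 := (himg.lpow p k0 B lv O r τ e l v hs s o i).1
  have h2 : (l ^ s).π = l.π ^ s := map_pow Lg.pi l s
  rw [perm_per, ← h2, h1, e.apply_eq_iff_eq, ← add_ofNat i s]
  simp

/-- the point over the block `e ⟨o, i⟩` with the coordinates of `w`. -/
def pt (hs : Std r τ e l v) (o : O) (i : Fin (r o + 1))
    (w : Om p k0 (fun _ : Unit => (τ o).1)) : Om p k0 lv :=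
  ⟨(e ⟨o, i⟩, w.1.2), fun j hj => w.2 j (by rwa [hs.hlv] at hj)⟩

lemma per_pt (himg : ImgSt) (hs : Std r τ e l v) (o : O) (i : Fin (r o + 1))
    (w : Om p k0 (fun _ : Unit => (τ o).1)) :
    Function.minimalPeriod (Lg.tp l) (pt hs o i w) =
      (r o + 1) * Function.minimalPeriod (Lg.tp (τ o).tor) w := by
  refine per_eq _ _ _ fun s => ?_
  obtain ⟨h1, h2⟩ := himg.lpow p k0 B lv O r τ e l v hs s o i
  have key : ∀ t : ℕ, Function.minimalPeriod (Lg.tp (τ o).tor) w ∣ t ↔
      ∀ j, (((τ o).sc j ^ t : (ZMod p)ˣ) : ZMod p) * w.1.2 j = w.1.2 j := by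
    intro t
    rw [← Function.isPeriodicPt_iff_minimalPeriod_dvd, perm_per, ← map_pow, Lg.tp_apply,
      Subtype.ext_iff, Prod.ext_iff]
    simp only [Lg.ap, tor_pow _ (hs.nrm o), funext_iff, true_and]
  rw [perm_per, ← map_pow, Lg.tp_apply, Subtype.ext_iff, Prod.ext_iff]
  simp only [Lg.ap, pt, h1, h2, funext_iff, e.apply_eq_iff_eq, Sigma.mk.injEq, heq_eq_eq,
    true_and, add_ofNat]
  have hdiv : ∀ t : ℕ, ((i : ℕ) + (r o + 1) * t) / (r o + 1) = t := fun t => by
    rw [Nat.add_mul_div_left _ _ (Nat.succ_pos _), Nat.div_eq_of_lt i.2, zero_add]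
  constructor
  · rintro ⟨⟨t, rfl⟩, ht⟩
    rw [hdiv] at ht
    exact Nat.mul_dvd_mul_left _ ((key t).2 ht)
  · intro hd
    obtain ⟨t, rfl⟩ : r o + 1 ∣ s := (Dvd.intro _ rfl).trans hd
    refine ⟨Dvd.intro _ rfl, ?_⟩
    rw [hdiv]
    exact (key t).1 (Nat.dvd_of_mul_dvd_mul_left (Nat.succ_pos _) hd)

lemma pt_bij (hs : Std r τ e l v) : Function.Bijective
    fun x : (Σ o, Fin (r o + 1) × Om p k0 (fun _ : Unit => (τ o).1)) => pt hs x.1 x.2.1 x.2.2 := by
  constructor
  · rintro ⟨o, i, w⟩ ⟨o', i', w'⟩ h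
    simp only [pt, Subtype.mk.injEq, Prod.mk.injEq, e.apply_eq_iff_eq] at h
    obtain ⟨h1, h2⟩ := h
    obtain rfl : o = o' := congrArg Sigma.fst h1
    obtain rfl : i = i' := by simpa using h1
    obtain rfl : w = w' := Subtype.ext (Prod.ext rfl h2)
    rfl
  · rintro ⟨⟨b, x⟩, hx⟩
    obtain ⟨⟨o, i⟩, rfl⟩ := e.surjective b
    exact ⟨⟨o, i, ⟨((), x), fun j hj => hx j (by rwa [hs.hlv])⟩⟩, rfl⟩

end Lp3

open Lp3 in
theorem lp3 (htool : ToolSt) (hpa : PermASt) (hpb : PermBSt) (himg : ImgSt) : Lp3St := by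
  intro p k0 _ B _ _ lv O _ r τ e l v hp hs
  classical
  have _ := hpb
  constructor
  · have hty : ty l.π = Finset.univ.val.map fun o => r o + 1 := by
      refine ty_eq (hpa B) _ _ (by simp) fun n => ?_
      rw [Finset.card_filter, ← e.sum_comp, Fintype.sum_sigma, Multiset.count_map]
      simp only [per_pi himg hs, Finset.sum_const, Finset.card_univ, Fintype.card_fin,
        smul_eq_mul]
      change n * (Finset.univ.filter fun o => n = r o + 1).card = _
      rw [Finset.card_filter, Finset.mul_sum]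
      refine Finset.sum_congr rfl fun o _ => ?_
      by_cases h : n = r o + 1
      · simp [h]
      · simp [h, Ne.symm h]
    have hB : Fintype.card B = ∑ o, (r o + 1) := by
      rw [← Fintype.card_congr e, Fintype.card_sigma]; simp
    rw [(htool p k0 B lv hp).2 l, (hpa B).sign, hty, hB, prod_mo, Finset.prod_mul_distrib,
      ← e.prod_comp, Fintype.prod_sigma]
    congr 1
    · rw [Multiset.card_map, Finset.prod_pow_eq_pow_sum, Finset.sum_add_distrib]
      simp only [Finset.sum_const, smul_eq_mul, mul_one, Finset.card_val]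
      rw [add_assoc, pow_add, ← two_mul, pow_mul]
      simp
    · refine Finset.prod_congr rfl fun o _ => ?_
      rw [Finset.prod_eq_single (Fin.last (r o))]
      · simp [hs.hc, Ty.par]
      · intro i _ hi
        simp [hs.hc, hi, chi]
      · simp
  · rw [sum_mo]
    refine ty_eq (hpa _) _ _ ?_ fun n => ?_
    · intro h
      obtain ⟨o, -, ho⟩ := Multiset.mem_sum.1 h
      obtain ⟨u, hu, h0⟩ := Multiset.mem_map.1 ho
      obtain rfl : u = 0 := by simpa using h0
      exact (hpa _).pos _ hu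
    · rw [Multiset.count_sum', Finset.mul_sum, Finset.card_filter,
        ← (pt_bij hs).sum_comp, Fintype.sum_sigma]
      refine Finset.sum_congr rfl fun o _ => ?_
      rw [count_mul (hpa _), Fintype.sum_prod_type, Finset.card_filter]
      simp only [per_pt himg hs, Finset.sum_const, Finset.card_univ, Fintype.card_fin,
        smul_eq_mul]

end Pool.Agent.Lib.MP_1ae3da_al.GM
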