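import Pool.Agent.Lib.MP_1ae3da_al.GT

/-! Good local data: the stabiliser has trivial signs. -/

namespace Pool.Agent.Lib.MP_1ae3da_al.GM

open Equiv

namespace Lp4a

lemma sign_sigma {O : Type} [Fintype O] [DecidableEq O] {β : O → Type} [∀ o, Fintype (β o)]
    [∀ o, DecidableEq (β o)] (F : ∀ o, Perm (β o)) :
    Perm.sign (Perm.sigmaCongrRightHom β F) = ∏ o, Perm.sign (F o) := by
  have : (Perm.sign.comp (Perm.sigmaCongrRightHom β))
      = ∏ o, (Perm.sign : Perm (β o) →* ℤˣ).comp (Pi.evalMonoidHom (fun o => Perm (β o)) o) := by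
    refine MonoidHom.pi_ext fun o σ => ?_
    rw [MonoidHom.finsetProd_apply, Finset.prod_eq_single o]
    · simp only [MonoidHom.comp_apply, Pi.evalMonoidHom_apply, Pi.mulSingle_eq_same]
      induction σ using Perm.swap_induction_on with
      | one => simp
      | swap_mul f x y hxy ih =>
        rw [Pi.mulSingle_mul, map_mul, map_mul, map_mul, ih]
        congr 1
        have : Perm.sigmaCongrRightHom β (Pi.mulSingle o (swap x y))
            = swap ⟨o, x⟩ ⟨o, y⟩ := by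
          ext1 ⟨o', z⟩
          by_cases ho : o' = o
          · subst ho
            simp only [Perm.sigmaCongrRightHom_apply, sigmaCongrRight_apply, Pi.mulSingle_eq_same]
            exact (sigma_mk_injective.swap_apply x y z).symm
          · simp only [Perm.sigmaCongrRightHom_apply, sigmaCongrRight_apply,
              Pi.mulSingle_eq_of_ne ho, Perm.one_apply]
            rw [swap_apply_of_ne_of_ne]
            · exact fun h => ho (congrArg Sigma.fst h)
            · exact fun h => ho (congrArg Sigma.fst h)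
        rw [this, Perm.sign_swap hxy, Perm.sign_swap fun h => hxy (sigma_mk_injective h)]
    · intro o' _ ho
      simp [Pi.mulSingle_eq_of_ne ho]
    · simp
  have h2 := DFunLike.congr_fun this F
  rw [MonoidHom.finsetProd_apply] at h2
  exact h2

lemma ap_inv {B : Type} (g : Perm B) (x : B) : g (g⁻¹ x) = x := by simp
lemma inv_ap {B : Type} (g : Perm B) (x : B) : g⁻¹ (g x) = x := by simp

lemma prod_sg {ι : Type} [Fintype ι] (P : ι → Prop) {d : ∀ i, Decidable (P i)}
    [DecidablePred P] : (∏ i, @ite ℤˣ (P i) (d i) (-1) 1) = (-1) ^ (Finset.univ.filter P).card := by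
  rw [← Finset.prod_const, Finset.prod_filter]
  exact Finset.prod_congr rfl fun i _ => by congr

lemma chi_one {p : ℕ} : chi (1 : ZMod p) = 1 := by simp [chi]

lemma rot_pow (n s : ℕ) (i : Fin (n + 1)) :
    (finRotate (n + 1) ^ s) i = i + Fin.ofNat (n + 1) s := by
  induction s with
  | zero => simp
  | succ s ih =>
    rw [pow_succ', Perm.mul_apply, ih, finRotate_apply, add_assoc]
    congr 1
    ext
    simp [Fin.val_add]

variable {p k0 : ℕ} [Fact p.Prime] {B : Type} {lv : B → Fin k0} {O : Type} {r : O → ℕ}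
  {τ : O → Ty p k0} {e : (Σ o, Fin (r o + 1)) ≃ B} {l h : Lg p k0 lv} {v : B → Fin k0 → ZMod p}

/-- the cycle of a block. -/
def fo (e : (Σ o, Fin (r o + 1)) ≃ B) (b : B) : O := (e.symm b).1

@[simp] lemma fo_e (o : O) (i : Fin (r o + 1)) : fo e (e ⟨o, i⟩) = o := by simp [fo]

lemma ex_e (e : (Σ o, Fin (r o + 1)) ≃ B) (b : B) : ∃ o i, b = e ⟨o, i⟩ :=
  ⟨(e.symm b).1, (e.symm b).2, by simp⟩

lemma fo_lp (hi : ImgSt) (S : Std r τ e l v) (s : ℕ) (b : B) : fo e ((l ^ s).π b) = fo e b := by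
  obtain ⟨o, i, rfl⟩ := ex_e e b
  rw [(hi.lpow p k0 B lv O r τ e l v S s o i).1, fo_e, fo_e]

lemma fo_l (S : Std r τ e l v) (b : B) : fo e (l.π b) = fo e b := by
  obtain ⟨o, i, rfl⟩ := ex_e e b
  rw [S.hπ, fo_e, fo_e]

lemma same (hi : ImgSt) (S : Std r τ e l v) {b b' : B} (H : fo e b = fo e b') :
    ∃ s : ℕ, (l ^ s).π b = b' := by
  obtain ⟨o, i, rfl⟩ := ex_e e b
  obtain ⟨o', i', rfl⟩ := ex_e e b'
  rw [fo_e, fo_e] at H
  subst H
  refine ⟨(i' - i).val, ?_⟩
  rw [(hi.lpow p k0 B lv O r τ e l v S _ o i).1, Fin.ofNat_val_eq_self, add_sub_cancel]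

lemma fix_iff (hi : ImgSt) (S : Std r τ e l v) (s : ℕ) (b : B) :
    (l ^ s).π b = b ↔ r (fo e b) + 1 ∣ s := by
  obtain ⟨o, i, rfl⟩ := ex_e e b
  rw [(hi.lpow p k0 B lv O r τ e l v S _ o i).1, fo_e, e.injective.eq_iff,
    sigma_mk_injective.eq_iff, add_eq_left, Fin.ext_iff, Nat.dvd_iff_mod_eq_zero]
  simp

lemma full_c (hi : ImgSt) (S : Std r τ e l v) (b : B) (j : Fin k0) :
    (l ^ (r (fo e b) + 1)).c b j = (τ (fo e b)).sc j := by
  obtain ⟨o, i, rfl⟩ := ex_e e b
  rw [fo_e, (hi.lpow p k0 B lv O r τ e l v S _ o i).2, Nat.add_div_right _ (Nat.succ_pos _),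
    Nat.div_eq_of_lt i.2, zero_add, pow_one]

lemma cπ (hc : Commute h l) (s : ℕ) (b : B) : h.π ((l ^ s).π b) = (l ^ s).π (h.π b) :=
  congrArg (fun g : Lg p k0 lv => g.π b) (hc.pow_right s).eq

lemma cc (hc : Commute h l) (s : ℕ) (b : B) (j : Fin k0) :
    h.c ((l ^ s).π b) j * (l ^ s).c b j = (l ^ s).c (h.π b) j * h.c b j :=
  congrArg (fun g : Lg p k0 lv => g.c b j) (hc.pow_right s).eq

lemma fo_h (hi : ImgSt) (S : Std r τ e l v) (hc : Commute h l) (b b' : B) :
    fo e (h.π b) = fo e (h.π b') ↔ fo e b = fo e b' := by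
  constructor
  · intro H
    obtain ⟨s, hs⟩ := same hi S H
    rw [← cπ hc] at hs
    rw [← h.π.injective hs, fo_lp hi S]
  · intro H
    obtain ⟨s, rfl⟩ := same hi S H
    rw [cπ hc, fo_lp hi S]

lemma r_h (hi : ImgSt) (S : Std r τ e l v) (hc : Commute h l) (b : B) :
    r (fo e (h.π b)) = r (fo e b) := by
  have key : ∀ s, r (fo e (h.π b)) + 1 ∣ s ↔ r (fo e b) + 1 ∣ s := fun s => by
    rw [← fix_iff hi S, ← fix_iff hi S, ← cπ hc, h.π.injective.eq_iff]
  have := Nat.dvd_antisymm ((key _).2 dvd_rfl) ((key _).1 dvd_rfl)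
  omega

lemma sc_h (hi : ImgSt) (S : Std r τ e l v) (hc : Commute h l) (b : B) (j : Fin k0) :
    (τ (fo e (h.π b))).sc j = (τ (fo e b)).sc j := by
  have := cc hc (r (fo e b) + 1) b j
  rw [(fix_iff hi S _ b).2 dvd_rfl, full_c hi S, mul_comm] at this
  rw [mul_right_cancel this, ← r_h hi S hc b, full_c hi S]

lemma sum_fib [Fintype B] [DecidableEq O] (u : B → ZMod p) (o : O) :
    ∑ i, u (e ⟨o, i⟩) = ∑ b with fo e b = o, u b := by
  refine Finset.sum_bij (fun i _ => e ⟨o, i⟩) (by simp) ?_ ?_ (fun _ _ => rfl)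
  · intro i _ i' _ H
    exact eq_of_heq (Sigma.mk.inj (e.injective H)).2
  · intro b hb
    obtain ⟨o', i, rfl⟩ := ex_e e b
    have : o' = o := by simpa using hb
    subst this
    exact ⟨i, Finset.mem_univ _, rfl⟩

lemma func [Fintype B] (hi : ImgSt) (S : Std r τ e l v) (H : Rl h l v l v) (o : O) (j : Fin k0)
    (hj : (τ o).sc j = 1) :
    (if (τ (fo e (h.π (e ⟨o, 0⟩)))).2 j = none then (1 : ZMod p) else 0)
      = if (τ o).2 j = none then (h.c (e ⟨o, 0⟩) j : ZMod p) else 0 := by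
  classical
  have hc : Commute h l := mul_inv_eq_iff_eq_mul.1 H.1
  obtain ⟨w, hw, hv⟩ := H.2
  have hz := hi.vz p k0 B lv O r τ e l v S
  set o' := fo e (h.π (e ⟨o, 0⟩)) with ho'
  have h1 := (hi.img p k0 B lv O r τ e l v S (v - h.act v) (hz.sub (hz.act h))).1
    ⟨w, hw, by rw [sub_eq_iff_eq_add]; conv_lhs => rw [hv]
               abel⟩ o' j (by rw [ho', sc_h hi S hc, fo_e, hj])
  simp only [Pi.sub_apply, Finset.sum_sub_distrib, sub_eq_zero] at h1
  have h2 : ∑ i, v (e ⟨o', i⟩) j = if (τ o').2 j = none then (1 : ZMod p) else 0 := by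
    rw [Finset.sum_eq_single 0] <;> simp +contextual [S.hv]
  have h3 : ∑ i, h.act v (e ⟨o', i⟩) j = ∑ i, (h.c (e ⟨o, i⟩) j : ZMod p) * v (e ⟨o, i⟩) j := by
    rw [sum_fib (fun b => h.act v b j), sum_fib (fun b => (h.c b j : ZMod p) * v b j)]
    symm
    refine Finset.sum_equiv h.π (fun b => ?_) (fun b _ => by simp [Lg.act])
    simp only [Finset.mem_filter, Finset.mem_univ, true_and]
    rw [ho', fo_h hi S hc, fo_e]
  rw [← h2, h1, h3, Finset.sum_eq_single 0] <;> simp +contextual [S.hv]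

lemma tau_h [Fintype B] (hi : ImgSt) (S : Std r τ e l v) (H : Rl h l v l v) (b : B) :
    τ (fo e (h.π b)) = τ (fo e b) := by
  have hc : Commute h l := mul_inv_eq_iff_eq_mul.1 H.1
  obtain ⟨o, i, rfl⟩ := ex_e e b
  rw [(fo_h hi S hc _ (e ⟨o, 0⟩)).2 (by simp), fo_e]
  refine Prod.ext ?_ (funext fun j => ?_)
  · obtain ⟨o', i', h'⟩ := ex_e e (h.π (e ⟨o, 0⟩))
    rw [h', fo_e, ← S.hlv o' i', ← h', h.hπ, S.hlv]
  · have h1 := sc_h hi S hc (e ⟨o, 0⟩) j
    have h2 := func hi S H o j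
    rw [fo_e] at h1
    unfold Ty.sc at h1 h2
    rcases h3 : (τ o).2 j with _ | c <;>
      rcases h4 : (τ (fo e (h.π (e ⟨o, 0⟩)))).2 j with _ | c' <;> rw [h3, h4] at h1 h2
    · simp at h2
      exact absurd h2.symm (Units.ne_zero _)
    · simp at h1 h2
      exact absurd h1.symm h2
    · simpa using h1

lemma mem_mo [Fintype O] (o : O) : r o + 1 ∈ mo r τ (τ o) := by
  unfold mo
  exact Multiset.mem_map.2 ⟨o, by simp, rfl⟩

lemma star_l [Fintype O] (S : Std r τ e l v) (hG : Gm (mo r τ)) (b : B)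
    (hb : (τ (fo e b)).par = 1) (j : Fin k0) : l.c b j = 1 := by
  obtain ⟨o, i, rfl⟩ := ex_e e b
  rw [fo_e] at hb
  have h1 := (hG _ hb).1 fun h0 => by simpa [h0] using mem_mo (r := r) (τ := τ) o
  rw [S.hc]
  split_ifs
  · rw [h1]
    simp only [Ty.sc, Ty.star]
    split_ifs <;> rfl
  · rfl

lemma star_h [Fintype B] [Fintype O] (hi : ImgSt) (S : Std r τ e l v) (H : Rl h l v l v)
    (hG : Gm (mo r τ)) (b : B) (hb : (τ (fo e b)).par = 1) :
    fo e (h.π b) = fo e b ∧ ∀ j, h.c b j = 1 := by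
  have hc : Commute h l := mul_inv_eq_iff_eq_mul.1 H.1
  have h0 : ∀ b, (τ (fo e b)).par = 1 → fo e (h.π b) = fo e b := fun b hb => by
    have h2 := (hG _ hb).2
    unfold mo at h2
    refine Multiset.inj_on_of_nodup_map h2 _ ?_ _ ?_ ?_
    · simp [tau_h hi S H]
    · simp
    · rw [r_h hi S hc]
  refine ⟨h0 b hb, fun j => ?_⟩
  obtain ⟨o, i, rfl⟩ := ex_e e b
  rw [fo_e] at hb
  have h1 := (hG _ hb).1 fun h0 => by simpa [h0] using mem_mo (r := r) (τ := τ) o
  by_cases hj : j < (τ o).1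
  · have h3 : (τ o).2 j = none := by rw [h1]; simp [Ty.star, hj]
    have h4 := func hi S H o j (by simp [Ty.sc, h3])
    rw [h0 _ (by rwa [fo_e]), fo_e, if_pos h3, if_pos h3] at h4
    have h5 : h.c (e ⟨o, 0⟩) j = 1 := Units.ext h4.symm
    induction i using Fin.induction with
    | zero => exact h5
    | succ i ih =>
      have h6 := cc hc 1 (e ⟨o, i.castSucc⟩) j
      rw [pow_one, star_l S hG _ (by rwa [fo_e]), star_l S hG _ (by
        rwa [h0 _ (by rwa [fo_e]), fo_e]), ih, S.hπ, Fin.coeSucc_eq_succ] at h6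
      simpa using h6
  · exact h.hc _ _ (by rw [S.hlv]; exact not_lt.1 hj)

/-- the elements that act on the cycle `o` without scalings. -/
def Tr (lv : B → Fin k0) (e : (Σ o, Fin (r o + 1)) ≃ B) (o : O) : Subgroup (Lg p k0 lv) where
  carrier := {g | ∀ b, (fo e (g.π b) = o ↔ fo e b = o) ∧ (fo e b = o → ∀ j, g.c b j = 1)}
  one_mem' := fun _ => ⟨Iff.rfl, fun _ _ => rfl⟩
  mul_mem' := by
    intro a b ha hb x
    refine ⟨(ha _).1.trans (hb x).1, fun hx j => ?_⟩
    rw [Lg.mul_c, (ha _).2 ((hb x).1.2 hx), (hb x).2 hx, one_mul]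
  inv_mem' := by
    intro a ha x
    have h1 := (ha (a.π⁻¹ x)).1
    rw [ap_inv] at h1
    refine ⟨h1.symm, fun hx j => ?_⟩
    rw [Lg.inv_c, (ha _).2 (h1.1 hx), inv_one]

lemma oc_par [Fintype B] [DecidableEq B] [Fintype O] (htool : ToolSt) (hi : ImgSt) (hp : p ≠ 2)
    (S : Std r τ e l v) (Δ : Subgroup (Lg p k0 lv)) (hl : l ∈ Δ)
    (hΔ : ∀ o, (τ o).par = 1 → Δ ≤ Tr lv e o) :
    (-1 : ℤˣ) ^ oc (Δ.map Lg.tp) = (-1) ^ (Finset.univ.filter fun o => (τ o).par = 1).card := by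
  classical
  let s : Setoid B := ⟨fun b b' => ∃ δ ∈ Δ, δ.π b = b', ⟨fun b => ⟨1, one_mem _, rfl⟩,
    fun ⟨δ, h1, h2⟩ => ⟨δ⁻¹, inv_mem h1, by rw [← h2]; simp⟩,
    fun ⟨δ, h1, h2⟩ ⟨δ', h3, h4⟩ => ⟨δ' * δ, mul_mem h3 h1, by rw [← h4, ← h2]; rfl⟩⟩⟩
  rw [(htool p k0 B lv hp).1 Δ (Quotient s) (Quotient.mk s) Quotient.mk_surjective
    (fun b b' => Quotient.eq)]
  refine (prod_sg _).trans ?_
  congr 1
  symm
  refine Finset.card_bij (fun o _ => Quotient.mk s (e ⟨o, 0⟩)) ?_ ?_ ?_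
  · intro o ho
    simp only [Finset.mem_filter, Finset.mem_univ, true_and] at ho ⊢
    intro b hb δ hδ _
    obtain ⟨δ', h1, h2⟩ := Quotient.exact hb
    have h3 : fo e b = o := ((hΔ o ho h1 b).1).1 (by rw [h2, fo_e])
    simp [(hΔ o ho hδ b).2 h3, chi_one]
  · intro o ho o' _ H
    simp only [Finset.mem_filter, Finset.mem_univ, true_and] at ho
    obtain ⟨δ', h1, h2⟩ := Quotient.exact H
    have h3 := ((hΔ o ho h1 (e ⟨o, 0⟩)).1).2 (fo_e _ _)
    rw [h2, fo_e] at h3
    exact h3.symm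
  · intro q hq
    obtain ⟨b, rfl⟩ := Quotient.mk_surjective q
    simp only [Finset.mem_filter, Finset.mem_univ, true_and] at hq
    have h1 := hq b rfl (l ^ (r (fo e b) + 1)) (pow_mem hl _) ((fix_iff hi S _ b).2 dvd_rfl)
    simp only [full_c hi S] at h1
    refine ⟨fo e b, Finset.mem_filter.2 ⟨Finset.mem_univ _, h1⟩, ?_⟩
    obtain ⟨t, ht⟩ := same hi S (b := e ⟨fo e b, 0⟩) (b' := b) (fo_e _ _)
    exact Quotient.sound ⟨l ^ t, pow_mem hl _, ht⟩

lemma partM [Fintype B] [DecidableEq B] [Fintype O] (htool : ToolSt) (hi : ImgSt) (hp : p ≠ 2)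
    (S : Std r τ e l v) (H : Rl h l v l v) (hG : Gm (mo r τ)) :
    so (Lg.tp l) (Lg.tp h) = 1 := by
  have hc : Commute h l := mul_inv_eq_iff_eq_mul.1 H.1
  have h1 : ∀ o, (τ o).par = 1 → l ∈ Tr lv e o := fun o ho b =>
    ⟨by rw [fo_l S], fun hb j => star_l S hG b (by rwa [hb]) j⟩
  have h2 : ∀ o, (τ o).par = 1 → h ∈ Tr lv e o := fun o ho b => by
    have h3 := (star_h hi S H hG (e ⟨o, 0⟩) (by rwa [fo_e])).1
    refine ⟨?_, fun hb j => (star_h hi S H hG b (by rwa [hb])).2 j⟩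
    have h4 := fo_h hi S hc b (e ⟨o, 0⟩)
    rwa [h3, fo_e] at h4
  unfold so
  rw [← MonoidHom.map_zpowers, ← Set.image_pair, ← MonoidHom.map_closure, pow_add,
    oc_par htool hi hp S _ (Subgroup.mem_zpowers l)
      (fun o ho => Subgroup.zpowers_le.2 (h1 o ho)),
    oc_par htool hi hp S _ (Subgroup.subset_closure (by simp))
      (fun o ho => (Subgroup.closure_le _).2 (Set.insert_subset (h1 o ho)
        (Set.singleton_subset_iff.2 (h2 o ho)))), Int.units_mul_self]

/-- a permutation commuting with `l`, supported where `l` flips an invariant parity, is even. -/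
lemma sign_half [Fintype B] [DecidableEq B] (l g : Perm B) (E : B → Prop) (ε : B → ℤˣ)
    (hc : ∀ b, g (l b) = l (g b)) (hE : ∀ b, E (l b) ↔ E b) (hε : ∀ b, E b → ε (l b) = -ε b)
    (h0 : ∀ b, ¬ E b → g b = b) (h1 : ∀ b, E b → ε (g b) = ε b) : Perm.sign g = 1 := by
  classical
  have hg : ∀ b, E (g b) ↔ E b := fun b => by
    by_cases hb : E b
    · refine iff_of_true (by_contra fun h2 => h2 ?_) hb
      rwa [g.injective (h0 _ h2)]
    · rw [h0 b hb]
  have hP : ∀ b, (E (g b) ∧ ε (g b) = 1) ↔ (E b ∧ ε b = 1) := fun b => by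
    rw [hg]
    exact and_congr_right fun hb => by rw [h1 b hb]
  let g1 : Perm B := Perm.ofSubtype (g.subtypePerm (p := fun b => E b ∧ ε b = 1) hP)
  have e1 : ∀ b, E b → ε b = 1 → g1 b = g b := fun b h2 h3 =>
    Perm.ofSubtype_subtypePerm_of_mem (p := fun b => E b ∧ ε b = 1) hP ⟨h2, h3⟩
  have e2 : ∀ b, ¬ (E b ∧ ε b = 1) → g1 b = b := fun b h2 =>
    Perm.ofSubtype_subtypePerm_of_not_mem (p := fun b => E b ∧ ε b = 1) hP h2
  have key : g = g1 * (l * g1 * l⁻¹) := by
    ext b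
    obtain ⟨a, rfl⟩ := l.surjective b
    simp only [Perm.mul_apply, inv_ap]
    by_cases ha : E a
    · rcases Int.units_eq_one_or (ε a) with h2 | h2
      · rw [e1 a ha h2, ← hc, e2]
        rw [hP, hε a ha, h2]
        simp
      · rw [e2 a (by simp [h2]), e1 _ ((hE a).2 ha) (by rw [hε a ha, h2, neg_neg])]
    · rw [e2 a fun h2 => ha h2.1, e2 _ fun h2 => ha ((hE a).1 h2.1), h0 _ fun h2 => ha ((hE a).1 h2)]
  rw [key]
  simp only [map_mul, map_inv]
  rw [mul_inv_cancel_comm, Int.units_mul_self]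

/-- the parity of the position. -/
def ep (e : (Σ o, Fin (r o + 1)) ≃ B) (b : B) : ℤˣ := (-1) ^ ((e.symm b).2 : ℕ)

lemma ep_e (o : O) (i : Fin (r o + 1)) : ep e (e ⟨o, i⟩) = (-1) ^ (i : ℕ) := by
  unfold ep; rw [e.symm_apply_apply]

lemma ep_l (S : Std r τ e l v) (b : B) (hb : Odd (r (fo e b))) : ep e (l.π b) = -ep e b := by
  obtain ⟨o, i, rfl⟩ := ex_e e b
  rw [fo_e] at hb
  rw [S.hπ, ep_e, ep_e, Fin.val_add_one]
  split_ifs with h1
  · rw [h1, Fin.val_last, hb.neg_one_pow]; simp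
  · rw [pow_succ]; simp

lemma partP [Fintype B] [DecidableEq B] [Fintype O] (htool : ToolSt) (hsq : SqSt) (hi : ImgSt)
    (hp : p ≠ 2) (S : Std r τ e l v) (H : Rl h l v l v) (hG : Gp (mo r τ)) :
    Perm.sign (Lg.tp h) = 1 := by
  classical
  have hc : Commute h l := mul_inv_eq_iff_eq_mul.1 H.1
  have hcl : ∀ b, h.π (l.π b) = l.π (h.π b) := fun b => by simpa using cπ hc 1 b
  have hpar : ∀ o, (-1) ^ r o * (τ o).par = 1 := fun o => by
    simpa using hG.2 _ _ (mem_mo (r := r) (τ := τ) o)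
  have hev : ∀ o, ¬ Odd (r o) → (τ o).par = 1 := fun o ho => by
    have := hpar o
    rwa [(Nat.not_odd_iff_even.1 ho).neg_one_pow, one_mul] at this
  have hod : ∀ o, Odd (r o) → (τ o).par = -1 := fun o ho => by
    have := hpar o
    rw [ho.neg_one_pow, neg_one_mul, neg_eq_iff_eq_neg] at this
    exact this
  set a : B → ℤˣ := fun b => ∏ j, chi (h.c b j : ZMod p) with ha
  set lam : B → ℤˣ := fun b => ∏ j, chi (l.c b j : ZMod p) with hlam
  have hl1 : ∀ o i, lam (e ⟨o, i⟩) = if i = Fin.last _ then (τ o).par else 1 := fun o i => by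
    simp only [hlam, S.hc]
    split_ifs
    · rfl
    · simp [chi_one]
  have hal : ∀ b, a (l.π b) * lam b = lam (h.π b) * a b := fun b => by
    simp only [ha, hlam, ← Finset.prod_mul_distrib]
    refine Finset.prod_congr rfl fun j _ => ?_
    have h1 := cc hc 1 b j
    rw [pow_one] at h1
    rw [← hsq.chi_mul p _ _ Fact.out (Units.ne_zero _) (Units.ne_zero _),
      ← hsq.chi_mul p _ _ Fact.out (Units.ne_zero _) (Units.ne_zero _), ← Units.val_mul,
      ← Units.val_mul, h1]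
  let t : O → Prop := fun o => Odd (r o) ∧ ep e (h.π⁻¹ (e ⟨o, Fin.last _⟩)) = 1
  have hrh : ∀ b, Odd (r (fo e (h.π b))) ↔ Odd (r (fo e b)) := fun b => by rw [r_h hi S hc]
  -- the product of the scalings
  have A1 : ∏ b, a b = ∏ o, if t o then (-1 : ℤˣ) else 1 := by
    let P : B → Prop := fun b => Odd (r (fo e b)) ∧ ep e b = 1
    have s1 : ∀ b, a b = (if P b then a b else 1) * (if P (l.π⁻¹ b) then a b else 1) := by
      intro b
      obtain ⟨b, rfl⟩ := l.π.surjective b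
      simp only [P, inv_ap, fo_l S]
      by_cases hb : Odd (r (fo e b))
      · rw [ep_l S b hb]
        rcases Int.units_eq_one_or (ep e b) with h2 | h2 <;> simp [h2, hb]
      · have := (star_h hi S H hG.1 (l.π b) (by rw [fo_l S]; exact hev _ hb)).2
        simp [hb, ha, this, chi_one]
    have s2 : ∏ b, (if P (l.π⁻¹ b) then a b else 1) = ∏ b, if P b then a (l.π b) else 1 := by
      rw [← Equiv.prod_comp l.π]
      simp only [inv_ap]
    have s3 : ∀ b, (if P b then a b else 1) * (if P b then a (l.π b) else 1)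
        = if P b then lam (h.π b) else 1 := by
      intro b
      split_ifs with hb
      · have h1 : lam b = 1 := by
          obtain ⟨o, i, rfl⟩ := ex_e e b
          rw [hl1, if_neg]
          rintro rfl
          have h2 := hb.2
          have h3 := hb.1
          rw [fo_e] at h3
          rw [ep_e, Fin.val_last, h3.neg_one_pow] at h2
          simp at h2
        have h2 := hal b
        rw [h1, mul_one] at h2
        rw [h2, mul_left_comm, Int.units_mul_self, mul_one]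
      · simp
    rw [Finset.prod_congr rfl fun b _ => s1 b, Finset.prod_mul_distrib, s2,
      ← Finset.prod_mul_distrib, Finset.prod_congr rfl fun b _ => s3 b,
      ← (e.trans h.π⁻¹).prod_comp, Fintype.prod_sigma]
    refine Finset.prod_congr rfl fun o _ => ?_
    rw [Finset.prod_eq_single (Fin.last _)]
    · simp only [Equiv.trans_apply, ap_inv, hl1, if_true, P, t]
      have h1 := hrh (h.π⁻¹ (e ⟨o, Fin.last _⟩))
      rw [ap_inv, fo_e] at h1
      simp only [← h1]
      split_ifs with h2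
      · exact hod o h2.1
      · rfl
    · intro i _ hne
      simp [hl1, hne]
    · simp
  -- the correcting rotation
  have hk : ∀ o, ∃ k : ℕ, (Odd (r o) → k = if t o then 1 else 0) ∧
      (¬ Odd (r o) → (l ^ k).π (h.π (e ⟨o, 0⟩)) = e ⟨o, 0⟩) := fun o => by
    by_cases ho : Odd (r o)
    · exact ⟨_, fun _ => rfl, fun h1 => absurd ho h1⟩
    · obtain ⟨k, hk⟩ := same hi S (star_h hi S H hG.1 (e ⟨o, 0⟩) (by rw [fo_e]; exact hev _ ho)).1
      exact ⟨k, fun h1 => absurd h1 ho, fun _ => hk⟩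
  choose k hk1 hk2 using hk
  let R : Perm B := e.permCongr
    (Perm.sigmaCongrRightHom (fun o => Fin (r o + 1)) fun o => finRotate (r o + 1) ^ k o)
  have hR : ∀ b, R b = (l ^ k (fo e b)).π b := fun b => by
    obtain ⟨o, i, rfl⟩ := ex_e e b
    rw [fo_e, (hi.lpow p k0 B lv O r τ e l v S _ o i).1, ← rot_pow]
    simp [R]
  have A2 : Perm.sign R = ∏ o, if t o then (-1 : ℤˣ) else 1 := by
    rw [Perm.sign_permCongr, sign_sigma]
    refine Finset.prod_congr rfl fun o _ => ?_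
    rw [map_pow, sign_finRotate, Nat.add_sub_cancel]
    by_cases ho : Odd (r o)
    · rw [ho.neg_one_pow, hk1 o ho]
      split_ifs <;> simp
    · rw [(Nat.not_odd_iff_even.1 ho).neg_one_pow, one_pow, if_neg fun h1 => ho h1.1]
  have hll : ∀ (s s' : ℕ) b, (l ^ s).π ((l ^ s').π b) = (l ^ s').π ((l ^ s).π b) :=
    fun s s' b => cπ ((Commute.refl l).pow_left s) s' b
  have A3 : Perm.sign (R * h.π) = 1 := by
    refine sign_half l.π _ (fun b => Odd (r (fo e b))) (ep e) (fun b => ?_)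
      (fun b => by rw [fo_l S]) (ep_l S) (fun b hb => ?_) (fun b hb => ?_)
    · simp only [Perm.mul_apply, hR, hcl, fo_l S]
      simpa using hll _ 1 (h.π b)
    · obtain ⟨s, hs⟩ := same hi S (b := e ⟨fo e b, 0⟩) (b' := b) (fo_e _ _)
      rw [Perm.mul_apply, hR, (star_h hi S H hG.1 b (hev _ hb)).1]
      conv_lhs => enter [2]; rw [← hs, cπ hc]
      rw [hll, hk2 _ hb, hs]
    · have h1 : ∀ (s : ℕ) b, Odd (r (fo e b)) →
          ep e (h.π ((l ^ s).π b)) * ep e ((l ^ s).π b) = ep e (h.π b) * ep e b := by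
        intro s b hb
        induction s with
        | zero => rfl
        | succ s ih =>
          have h2 : Odd (r (fo e ((l ^ s).π b))) := by rwa [fo_lp hi S]
          rw [pow_succ', Lg.mul_π, Perm.mul_apply, hcl, ep_l S _ h2, ep_l S _ ((hrh _).2 h2),
            neg_mul_neg, ih]
      have hb' := (hrh b).2 hb
      obtain ⟨s, hs⟩ := same hi S (b := b) (b' := h.π⁻¹ (e ⟨fo e (h.π b), Fin.last _⟩))
        ((fo_h hi S hc _ _).1 (by rw [ap_inv, fo_e]))
      have h2 := h1 s b hb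
      rw [hs, ap_inv, ep_e, Fin.val_last, hb'.neg_one_pow] at h2
      rw [Perm.mul_apply, hR, hk1 _ hb']
      split_ifs with h3
      · rw [h3.2] at h2
        rw [pow_one, ep_l S _ hb']
        rcases Int.units_eq_one_or (ep e b) with h4 | h4 <;>
          rcases Int.units_eq_one_or (ep e (h.π b)) with h5 | h5 <;> simp_all
      · have h4 : ep e (h.π⁻¹ (e ⟨fo e (h.π b), Fin.last _⟩)) = -1 :=
          (Int.units_eq_one_or _).resolve_left fun h5 => h3 ⟨hb', h5⟩
        rw [h4] at h2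
        rw [pow_zero, Lg.one_π, Perm.one_apply]
        rcases Int.units_eq_one_or (ep e b) with h4 | h4 <;>
          rcases Int.units_eq_one_or (ep e (h.π b)) with h5 | h5 <;> simp_all
  rw [(htool p k0 B lv hp).2 h, mul_comm]
  rw [map_mul, A2, ← A1] at A3
  exact A3

end Lp4a

theorem lp4a (htool : ToolSt) (hsq : SqSt) (_hpa : PermASt) (_hpb : PermBSt) (himg : ImgSt) :
    Lp4aSt := fun _ _ _ _ _ _ _ _ _ _ _ _ _ _ hp S _ H =>
  ⟨Lp4a.partM htool himg hp S H, Lp4a.partP htool hsq himg hp S H⟩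

end Pool.Agent.Lib.MP_1ae3da_al.GM
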