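import Pool.Agent.Lib.MP_1ae3da_al.GT

/-! Elements of the stabiliser of a standard pair with nontrivial signs. -/

namespace Pool.Agent.Lib.MP_1ae3da_al.GM

open Equiv

namespace Lp4b

variable {p k0 : ℕ} [Fact p.Prime] {B : Type} {lv : B → Fin k0}

/-- the quadratic character as a homomorphism. -/
noncomputable def cH (hsq : SqSt) (p : ℕ) [Fact p.Prime] : (ZMod p)ˣ →* ℤˣ where
  toFun c := chi (c : ZMod p)
  map_one' := by simp [chi]
  map_mul' a b := hsq.chi_mul p _ _ Fact.out a.ne_zero b.ne_zero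

/-- the product of the quadratic characters at a block. -/
noncomputable def X (δ : Lg p k0 lv) (b : B) : ℤˣ := ∏ j, chi (δ.c b j : ZMod p)

lemma X_mul (hsq : SqSt) (δ γ : Lg p k0 lv) (b : B) : X (δ * γ) b = X δ (γ.π b) * X γ b := by
  rw [X, X, X, ← Finset.prod_mul_distrib]
  exact Finset.prod_congr rfl fun j _ => (cH hsq p).map_mul _ _

lemma X_triv (δ : Lg p k0 lv) (b : B) (h : ∀ j, δ.c b j = 1) : X δ b = 1 := by
  simp [X, h, chi]

lemma X_inv (hsq : SqSt) (δ : Lg p k0 lv) (b : B) : X δ⁻¹ b = X δ (δ.π⁻¹ b) := by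
  have := X_mul hsq δ δ⁻¹ b
  rw [mul_inv_cancel, X_triv _ _ fun _ => rfl, Lg.inv_π] at this
  rw [eq_inv_of_mul_eq_one_right this.symm, Int.units_inv_eq_self]

/-- the elements preserving the fibres of `F`. -/
def Pres {O : Type} (F : B → O) : Subgroup (Lg p k0 lv) where
  carrier := {δ | ∀ b, F (δ.π b) = F b}
  one_mem' _ := rfl
  mul_mem' := fun {x y} hx hy b => (hx _).trans (hy b)
  inv_mem' := fun {x} hx b => by
    have := hx (x.π⁻¹ b)
    simpa using this.symm

/-- those with trivial character on one fibre. -/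
def Tr (hsq : SqSt) {O : Type} (F : B → O) (o : O) : Subgroup (Lg p k0 lv) where
  carrier := {δ | (∀ b, F (δ.π b) = F b) ∧ ∀ b, F b = o → X δ b = 1}
  one_mem' := ⟨fun _ => rfl, fun _ _ => X_triv _ _ fun _ => rfl⟩
  mul_mem' := fun {x y} hx hy => ⟨fun b => (hx.1 _).trans (hy.1 b), fun b hb => by
    rw [X_mul hsq, hx.2 _ ((hy.1 b).trans hb), hy.2 b hb, mul_one]⟩
  inv_mem' := fun {x} hx => by
    have h := (Pres F).inv_mem (x := x) hx.1
    exact ⟨h, fun b hb => by rw [X_inv hsq]; exact hx.2 _ ((h b).trans hb)⟩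

lemma gen [Fintype B] [DecidableEq B] (htool : ToolSt) (hsq : SqSt) (hp2 : p ≠ 2)
    (Δ : Subgroup (Lg p k0 lv)) {O : Type} [Fintype O] (F : B → O) (hs : Function.Surjective F)
    (hP : Δ ≤ Pres F) (hR : ∀ b b', F b = F b' → ∃ δ ∈ Δ, δ.π b = b') (Q : O → Prop)
    [DecidablePred Q] (hQ : ∀ o, Q o → Δ ≤ Tr hsq F o)
    (hN : ∀ o, ¬ Q o → ∃ b, F b = o ∧ ∃ δ ∈ Δ, δ.π b = b ∧ X δ b = -1) :
    (-1 : ℤˣ) ^ oc (Δ.map Lg.tp) = ∏ o, if Q o then -1 else 1 := by
  rw [(htool p k0 B lv hp2).1 Δ O F hs fun b b' =>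
    ⟨hR b b', fun ⟨δ, hδ, h⟩ => by rw [← h, hP hδ b]⟩]
  refine Finset.prod_congr rfl fun o _ => ?_
  by_cases h : Q o
  · rw [if_pos h, if_pos]
    intro b hb δ hδ _
    exact (hQ o h hδ).2 b hb
  · rw [if_neg h, if_neg]
    intro k
    obtain ⟨b, hb, δ, hδ, h1, h2⟩ := hN o h
    have : X δ b = 1 := k b hb δ hδ h1
    rw [h2] at this
    exact absurd this (by decide)

lemma so_tp (l h : Lg p k0 lv) : so (Lg.tp l) (Lg.tp h) =
    (-1) ^ oc ((Subgroup.zpowers l).map Lg.tp) *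
      (-1) ^ oc ((Subgroup.closure {l, h}).map Lg.tp) := by
  rw [so, pow_add, MonoidHom.map_zpowers, MonoidHom.map_closure, Set.image_pair]

variable {O : Type} {r : O → ℕ} {τ : O → Ty p k0} (e : (Σ o, Fin (r o + 1)) ≃ B)

/-- the cycle of a block. -/
def cy (b : B) : O := (e.symm b).1
/-- the position of a block. -/
def ps (b : B) : ℕ := (e.symm b).2

@[simp] lemma cy_e (o : O) (i : Fin (r o + 1)) : cy e (e ⟨o, i⟩) = o := by simp [cy]
@[simp] lemma ps_e (o : O) (i : Fin (r o + 1)) : ps e (e ⟨o, i⟩) = i := by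
  unfold ps; rw [e.symm_apply_apply]

lemma ext' {b b' : B} (h1 : cy e b = cy e b') (h2 : ps e b = ps e b') : b = b' := by
  obtain ⟨⟨o, i⟩, rfl⟩ := e.surjective b
  obtain ⟨⟨o', i'⟩, rfl⟩ := e.surjective b'
  simp only [cy_e, ps_e] at h1 h2
  subst h1
  rw [Fin.ext h2]

lemma cy_surj : Function.Surjective (cy e) := fun o => ⟨e ⟨o, 0⟩, cy_e e o 0⟩

lemma fib_card [Fintype B] (o : O) [DecidablePred fun b => cy e b = o] :
    (Finset.univ.filter fun b => cy e b = o).card = r o + 1 := by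
  symm
  conv_lhs => rw [← Finset.card_fin (r o + 1)]
  refine Finset.card_bij (fun i _ => e ⟨o, i⟩) (fun i _ => by simp) ?_ ?_
  · intro i _ i' _ h
    simpa using h
  · intro b hb
    obtain ⟨⟨o', i⟩, rfl⟩ := e.surjective b
    obtain rfl : o' = o := by simpa using hb
    exact ⟨i, Finset.mem_univ _, rfl⟩

variable {e} {l : Lg p k0 lv} {v : B → Fin k0 → ZMod p}

lemma s_lv (S : Std r τ e l v) (b : B) : lv b = (τ (cy e b)).1 := by
  obtain ⟨⟨o, i⟩, rfl⟩ := e.surjective b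
  rw [S.hlv, cy_e]

lemma s_cy (S : Std r τ e l v) (b : B) : cy e (l.π b) = cy e b := by
  obtain ⟨⟨o, i⟩, rfl⟩ := e.surjective b
  rw [S.hπ, cy_e, cy_e]

lemma s_ps (S : Std r τ e l v) (b : B) : ps e (l.π b) = (ps e b + 1) % (r (cy e b) + 1) := by
  obtain ⟨⟨o, i⟩, rfl⟩ := e.surjective b
  rw [S.hπ, ps_e, ps_e, cy_e, Fin.val_add]
  simp

lemma s_c (S : Std r τ e l v) (b : B) (j : Fin k0) :
    l.c b j = if ps e b = r (cy e b) then (τ (cy e b)).sc j else 1 := by
  obtain ⟨⟨o, i⟩, rfl⟩ := e.surjective b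
  rw [S.hc, ps_e, cy_e]
  simp [Fin.ext_iff]

lemma s_v (S : Std r τ e l v) (b : B) (j : Fin k0) :
    v b j = if ps e b = 0 ∧ (τ (cy e b)).2 j = none then 1 else 0 := by
  obtain ⟨⟨o, i⟩, rfl⟩ := e.surjective b
  rw [S.hv, ps_e, cy_e]
  simp only [Fin.ext_iff, Fin.val_zero]

lemma s_X (S : Std r τ e l v) (b : B) :
    X l b = if ps e b = r (cy e b) then (τ (cy e b)).par else 1 := by
  split_ifs with h
  · simp only [X, s_c S, if_pos h]; rfl
  · exact X_triv _ _ fun j => by rw [s_c S, if_neg h]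

lemma reach (himg : ImgSt) (S : Std r τ e l v) {b b' : B} (h : cy e b = cy e b') :
    ∃ s : ℕ, (l ^ s).π b = b' := by
  obtain ⟨⟨o, i⟩, rfl⟩ := e.surjective b
  obtain ⟨⟨o', i'⟩, rfl⟩ := e.surjective b'
  simp only [cy_e] at h
  subst h
  refine ⟨(i' - i : Fin (r o + 1)), ?_⟩
  rw [(himg.lpow p k0 B lv O r τ e l v S _ o i).1]
  simp

lemma full (himg : ImgSt) (S : Std r τ e l v) (o : O) :
    (l ^ (r o + 1)).π (e ⟨o, 0⟩) = e ⟨o, 0⟩ ∧ X (l ^ (r o + 1)) (e ⟨o, 0⟩) = (τ o).par := by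
  obtain ⟨h1, h2⟩ := himg.lpow p k0 B lv O r τ e l v S (r o + 1) o 0
  refine ⟨by rw [h1]; simp, ?_⟩
  simp only [X, h2]
  simp [Ty.par]

lemma l_tr (hsq : SqSt) (S : Std r τ e l v) {O' : Type} (g : O → O') (o : O')
    (h : ∀ o1, g o1 = o → (τ o1).par = 1) : l ∈ Tr hsq (fun b => g (cy e b)) o :=
  ⟨fun b => by simp only [s_cy S], fun b hb => by rw [s_X S, h _ hb, ite_self]⟩

lemma ne_one {u : ℤˣ} (h : ¬ u = 1) : u = -1 := (Int.units_eq_one_or u).resolve_left h

variable [Fintype B] [DecidableEq B] [Fintype O]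

lemma oc_l (htool : ToolSt) (hsq : SqSt) (himg : ImgSt) (hp2 : p ≠ 2) (S : Std r τ e l v) :
    (-1 : ℤˣ) ^ oc ((Subgroup.zpowers l).map Lg.tp) = ∏ o, if (τ o).par = 1 then -1 else 1 := by
  refine gen htool hsq hp2 _ (cy e) (cy_surj e) ((Subgroup.zpowers_le).2 (s_cy S)) ?_ _ ?_ ?_
  · intro b b' h
    obtain ⟨s, hs⟩ := reach himg S h
    exact ⟨_, Subgroup.npow_mem_zpowers l s, hs⟩
  · intro o ho
    exact (Subgroup.zpowers_le).2 (l_tr hsq S id o fun o1 h => by rw [show o1 = o from h, ho])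
  · intro o ho
    exact ⟨e ⟨o, 0⟩, cy_e e o 0, _, Subgroup.npow_mem_zpowers l _, (full himg S o).1,
      (full himg S o).2.trans (ne_one ho)⟩

omit [Fintype O] in
lemma case1 (htool : ToolSt) (hpb : PermBSt) (hp2 : p ≠ 2) (S : Std r τ e l v)
    (hv : Vz lv v) (o : O) : ∃ h, Rl h l v l v ∧
      Perm.sign (Lg.tp h) = (-1) ^ r o * (τ o).par ∧ so (Lg.tp l) (Lg.tp h) = 1 := by
  classical
  let emb : Fin (r o + 1) ↪ B := ⟨fun i => e ⟨o, i⟩, fun i i' h => by simpa using h⟩
  let π : Perm B := (finRotate (r o + 1)).viaFintypeEmbedding emb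
  have hπ : ∀ b, π b = if cy e b = o then l.π b else b := by
    intro b
    split_ifs with h
    · obtain ⟨⟨o', i⟩, rfl⟩ := e.surjective b
      obtain rfl : o' = o := by simpa using h
      rw [S.hπ, ← finRotate_apply]
      exact Perm.viaFintypeEmbedding_apply_image _ emb i
    · refine Perm.viaFintypeEmbedding_apply_notMem_range _ _ ?_
      rintro ⟨i, rfl⟩
      exact h (cy_e e o i)
  let h : Lg p k0 lv := ⟨π, fun b j => if cy e b = o then l.c b j else 1,
    fun b => by rw [hπ]; split_ifs; exacts [l.hπ b, rfl],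
    fun b j hj => by rw [l.hc b j hj, ite_self]⟩
  have hc : ∀ b j, h.c b j = if cy e b = o then l.c b j else 1 := fun _ _ => rfl
  have hπ' : ∀ b, h.π b = if cy e b = o then l.π b else b := hπ
  refine ⟨h, ⟨?_, fun b j => if cy e b = o then v b j else 0, ?_, ?_⟩, ?_, ?_⟩
  · rw [mul_inv_eq_iff_eq_mul]
    refine Lg.ext (Equiv.ext fun b => ?_) (funext fun b => funext fun j => ?_)
    · simp only [Lg.mul_π, Perm.mul_apply, hπ', s_cy S]
      split_ifs <;> rfl
    · simp only [Lg.mul_c, hπ', hc, s_cy S]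
      split_ifs <;> simp
  · intro b j hj
    simp only [hv b j hj, ite_self]
  · funext b j
    obtain ⟨b, rfl⟩ := l.π.surjective b
    by_cases hb : cy e b = o
    · have : h.π⁻¹ (l.π b) = b := by rw [Perm.inv_eq_iff_eq, hπ', if_pos hb]
      simp [Lg.act, this, hc, hb, s_cy S]
    · have : h.π⁻¹ (l.π b) = l.π b := by rw [Perm.inv_eq_iff_eq, hπ', if_neg (by rwa [s_cy S])]
      simp [Lg.act, this, hc, hb, s_cy S]
  · rw [(htool p k0 B lv hp2).2]
    congr 1
    · exact (Perm.viaFintypeEmbedding_sign _ _).trans (by simp)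
    · rw [Finset.prod_eq_single (e ⟨o, Fin.last _⟩)]
      · have := s_X S (e ⟨o, Fin.last _⟩)
        simp only [cy_e, ps_e, Fin.val_last, if_true] at this
        simp only [hc, cy_e, if_true]
        exact this
      · intro b _ hb
        by_cases h1 : cy e b = o
        · simp only [hc, if_pos h1]
          refine (s_X S b).trans (if_neg fun k => hb (ext' e (by simp [h1]) ?_))
          simp [k, h1]
        · exact X_triv h b fun j => by rw [hc, if_neg h1]
      · simp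
  · refine (hpb _).so_fix _ _ fun x => ?_
    by_cases hb : cy e x.1.1 = o
    · have : Lg.tp h x = Lg.tp l x := Subtype.ext (by simp [Lg.ap, hπ', hc, hb])
      rw [this]
      exact ⟨1, by simp⟩
    · have : Lg.tp h x = x := Subtype.ext (by simp [Lg.ap, hπ', hc, hb])
      rw [this]

lemma case2 (htool : ToolSt) (hsq : SqSt) (himg : ImgSt) (hp2 : p ≠ 2) (S : Std r τ e l v)
    (o : O) (ho : (τ o).par = 1) (j : Fin k0) (hj : j < (τ o).1) (hn : (τ o).2 j ≠ none) :
    ∃ h, Rl h l v l v ∧ so (Lg.tp l) (Lg.tp h) = -1 ∧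
      Perm.sign (Lg.tp h) = (-1) ^ (r o + 1) := by
  classical
  obtain ⟨g, hg⟩ := hsq.chi_neg p Fact.out hp2
  let h : Lg p k0 lv := ⟨1, fun b j' => if cy e b = o ∧ j' = j then g else 1, fun _ => rfl,
    fun b j' hj' => if_neg fun k => by
      rw [s_lv S, k.1, k.2] at hj'
      exact absurd hj (not_lt.2 hj')⟩
  have hc : ∀ b j', h.c b j' = if cy e b = o ∧ j' = j then g else 1 := fun _ _ => rfl
  have hπ : h.π = 1 := rfl
  have hX : ∀ b, X h b = if cy e b = o then -1 else 1 := by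
    intro b
    split_ifs with hb
    · rw [X, Finset.prod_eq_single j]
      · rw [hc, if_pos ⟨hb, rfl⟩, hg]
      · intro j' _ hj'
        rw [hc, if_neg fun k => hj' k.2]; simp [chi]
      · simp
    · exact X_triv _ _ fun j' => by rw [hc, if_neg fun k => hb k.1]
  refine ⟨h, ⟨?_, 0, Vz.zero, ?_⟩, ?_, ?_⟩
  · rw [mul_inv_eq_iff_eq_mul]
    refine Lg.ext (by simp [hπ]) (funext fun b => funext fun j => ?_)
    simp only [Lg.mul_c, hπ, hc, s_cy S, Perm.one_apply, mul_comm]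
  · funext b j'
    simp only [Lg.act_zero, add_zero, sub_zero, Lg.act, hπ, inv_one, Perm.one_apply, hc]
    split_ifs with k
    · rw [s_v S, if_neg, mul_zero]
      rw [k.1, k.2]
      exact fun k' => hn k'.2
    · simp
  · have hl : l ∈ Subgroup.closure {l, h} := Subgroup.subset_closure (by simp)
    have hh : h ∈ Subgroup.closure {l, h} := Subgroup.subset_closure (by simp)
    rw [so_tp, oc_l htool hsq himg hp2 S, gen htool hsq hp2 _ (cy e) (cy_surj e) ?_ ?_
      (fun o' => (τ o').par = 1 ∧ o' ≠ o) ?_ ?_, ← Finset.prod_mul_distrib,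
      Finset.prod_eq_single o]
    · simp [ho]
    · intro o' _ ho'
      simp only [ho', ne_eq, not_false_eq_true, and_true, Int.units_mul_self]
    · simp
    · rw [Subgroup.closure_le]
      rintro _ (rfl | rfl)
      exacts [s_cy S, fun _ => rfl]
    · intro b b' k
      obtain ⟨s, hs⟩ := reach himg S k
      exact ⟨_, Subgroup.pow_mem _ hl s, hs⟩
    · intro o' ho'
      rw [Subgroup.closure_le]
      rintro _ (rfl | rfl)
      · exact l_tr hsq S id o' fun o1 k => by rw [show o1 = o' from k, ho'.1]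
      · exact ⟨fun _ => rfl, fun b hb => by rw [hX, hb, if_neg ho'.2]⟩
    · intro o' ho'
      by_cases k : o' = o
      · subst k
        exact ⟨e ⟨o', 0⟩, cy_e e o' 0, h, hh, rfl, by rw [hX, if_pos (cy_e e o' 0)]⟩
      · exact ⟨e ⟨o', 0⟩, cy_e e o' 0, _, Subgroup.pow_mem _ hl _, (full himg S o').1,
          (full himg S o').2.trans (ne_one fun k' => ho' ⟨k', k⟩)⟩
  · rw [(htool p k0 B lv hp2).2, hπ, map_one, one_mul]
    change ∏ b, X h b = _
    simp only [hX]
    rw [Finset.prod_ite, Finset.prod_const_one, mul_one, Finset.prod_const, fib_card]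

lemma case3 (htool : ToolSt) (hsq : SqSt) (himg : ImgSt) (hp2 : p ≠ 2) (S : Std r τ e l v)
    (o o2 : O) (ho : (τ o).par = 1) (hne : o ≠ o2) (h1 : τ o = τ o2) (h2 : r o = r o2) :
    ∃ h, Rl h l v l v ∧ so (Lg.tp l) (Lg.tp h) = -1 ∧
      Perm.sign (Lg.tp h) = (-1) ^ (r o + 1) := by
  classical
  have hr : ∀ x, r (swap o o2 x) = r x := fun x => apply_swap_eq_self h2 x
  have hτ : ∀ x, τ (swap o o2 x) = τ x := fun x => apply_swap_eq_self h1 x
  let sw : B → B := fun b =>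
    e ⟨swap o o2 (cy e b), Fin.cast (congrArg (· + 1) (hr _).symm) (e.symm b).2⟩
  have sc : ∀ b, cy e (sw b) = swap o o2 (cy e b) := fun b => cy_e e _ _
  have sp : ∀ b, ps e (sw b) = ps e b := fun b => ps_e e _ _
  have hi : Function.Involutive sw := fun b =>
    ext' e (by rw [sc, sc, swap_apply_self]) (by rw [sp, sp])
  let h : Lg p k0 lv := ⟨hi.toPerm sw, fun _ _ => 1,
    fun b => by
      change lv (sw b) = lv b
      rw [s_lv S, s_lv S, sc, hτ], fun _ _ _ => rfl⟩
  have hπ : ∀ b, h.π b = sw b := fun _ => rfl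
  have hc : ∀ b j, h.c b j = 1 := fun _ _ => rfl
  refine ⟨h, ⟨?_, 0, Vz.zero, ?_⟩, ?_, ?_⟩
  · rw [mul_inv_eq_iff_eq_mul]
    refine Lg.ext (Equiv.ext fun b => ?_) (funext fun b => funext fun j => ?_)
    · simp only [Lg.mul_π, Perm.mul_apply, hπ]
      exact ext' e (by rw [sc, s_cy S, s_cy S, sc]) (by rw [sp, s_ps S, s_ps S, sp, sc, hr])
    · simp only [Lg.mul_c, hπ, hc, s_c S, sp, sc, hr, hτ, one_mul, mul_one]
  · funext b j
    have : h.π⁻¹ b = sw b := by rw [Perm.inv_eq_iff_eq, hπ, hi]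
    simp only [Lg.act_zero, add_zero, sub_zero, Lg.act, this, hc, s_v S, sp, sc, hτ,
      Units.val_one, one_mul]
  · have hl : l ∈ Subgroup.closure {l, h} := Subgroup.subset_closure (by simp)
    have hh : h ∈ Subgroup.closure {l, h} := Subgroup.subset_closure (by simp)
    let g : O → {x // x ≠ o2} := fun x => if k : x = o2 then ⟨o, hne⟩ else ⟨x, k⟩
    have g1 : ∀ x : {x // x ≠ o2}, g x = x := fun x => dif_neg x.2
    have g2 : ∀ x, g (swap o o2 x) = g x := fun x => apply_swap_eq_self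
      ((g1 ⟨o, hne⟩).trans (by simp [g])) x
    have g3 : ∀ x, (g x).1 = x ∨ (g x).1 = swap o o2 x := by
      intro x
      by_cases k : x = o2
      · right; subst k; simp [g]
      · left; simp [g, k]
    have hP : ∀ b, g (cy e (h.π b)) = g (cy e b) := fun b => by rw [hπ, sc, g2]
    have hR : ∀ b, ∃ δ ∈ Subgroup.closure {l, h}, cy e (δ.π b) = (g (cy e b)).1 := by
      intro b
      rcases g3 (cy e b) with k | k
      · exact ⟨1, Subgroup.one_mem _, k.symm⟩
      · exact ⟨h, hh, by rw [k, hπ, sc]⟩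
    rw [so_tp, oc_l htool hsq himg hp2 S, gen htool hsq hp2 _ (fun b => g (cy e b)) ?_ ?_ ?_
      (fun o' => (τ o').par = 1) ?_ ?_, Fintype.prod_eq_mul_prod_subtype_ne _ o2, mul_assoc,
      Int.units_mul_self, ← h1, if_pos ho, mul_one]
    · intro x
      exact ⟨e ⟨x, 0⟩, by simp only [cy_e, g1]⟩
    · rw [Subgroup.closure_le]
      rintro _ (rfl | rfl)
      exacts [fun b => by simp only [s_cy S], hP]
    · intro b b' k
      obtain ⟨δ, hδ, k1⟩ := hR b
      obtain ⟨δ', hδ', k2⟩ := hR b'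
      obtain ⟨s, hs⟩ := reach himg S (k1.trans ((congrArg Subtype.val k).trans k2.symm))
      refine ⟨δ'⁻¹ * (l ^ s * δ), Subgroup.mul_mem _ (Subgroup.inv_mem _ hδ')
        (Subgroup.mul_mem _ (Subgroup.pow_mem _ hl s) hδ), ?_⟩
      simp only [Lg.mul_π, Perm.mul_apply, hs, Lg.inv_π]
      simp
    · intro o' ho'
      rw [Subgroup.closure_le]
      rintro _ (rfl | rfl)
      · refine l_tr hsq S g o' fun o1 k => ?_
        rcases g3 o1 with k' | k'
        · rw [← k', k, ho']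
        · rw [← hτ, ← k', k, ho']
      · exact ⟨hP, fun b _ => X_triv _ _ (hc b)⟩
    · intro o' ho'
      exact ⟨e ⟨o', 0⟩, by simp only [cy_e, g1], _, Subgroup.pow_mem _ hl _, (full himg S o').1,
        (full himg S o').2.trans (ne_one ho')⟩
  · have c0 : ∏ b, ∏ j, chi (h.c b j : ZMod p) = 1 :=
      Finset.prod_eq_one fun b _ => X_triv h b (hc b)
    rw [(htool p k0 B lv hp2).2, c0, mul_one,
      Perm.sign_of_pow_two_eq_one (Equiv.ext fun b => hi b)]
    have c1 : Fintype.card (Function.fixedPoints h.π) =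
        (Finset.univ.filter fun b => ¬ (cy e b = o ∨ cy e b = o2)).card := by
      rw [← Fintype.card_coe]
      refine Fintype.card_congr (Equiv.subtypeEquivRight fun b => ?_)
      simp only [Function.mem_fixedPoints_iff, Finset.mem_filter, Finset.mem_univ, true_and, hπ]
      constructor
      · rintro k (k' | k')
        · have := sc b
          rw [k, k', swap_apply_left] at this
          exact hne this
        · have := sc b
          rw [k, k', swap_apply_right] at this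
          exact hne this.symm
      · intro k
        rw [not_or] at k
        exact ext' e (by rw [sc, swap_apply_of_ne_of_ne k.1 k.2]) (sp b)
    have c2 := Finset.card_filter_add_card_filter_not (s := Finset.univ)
      fun b => cy e b = o ∨ cy e b = o2
    rw [Finset.filter_or, Finset.card_union_of_disjoint, fib_card, fib_card, Finset.card_univ]
      at c2
    · rw [c1]
      congr 1
      omega
    · rw [Finset.disjoint_filter]
      intro b _ k k'
      exact hne (k.symm.trans k')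

omit [Fintype B] [DecidableEq B] in
lemma mem_mo (t : Ty p k0) (k : ℕ) : k ∈ mo r τ t ↔ ∃ o, τ o = t ∧ r o + 1 = k := by
  simp [mo]

lemma notGm (htool : ToolSt) (hsq : SqSt) (himg : ImgSt) (hp2 : p ≠ 2) (S : Std r τ e l v)
    (hG : ¬ Gm (mo r τ)) : ∃ o, (τ o).par = 1 ∧ ∃ h, Rl h l v l v ∧
      so (Lg.tp l) (Lg.tp h) = -1 ∧ Perm.sign (Lg.tp h) = (-1) ^ (r o + 1) := by
  by_contra hc
  refine hG fun t ht => ⟨fun h0 => ?_, ?_⟩
  · obtain ⟨k, hk⟩ := Multiset.exists_mem_of_ne_zero h0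
    obtain ⟨o, rfl, -⟩ := (mem_mo t k).1 hk
    refine Prod.ext rfl (funext fun j => ?_)
    simp only [Ty.star]
    split_ifs with hj
    · by_contra hn
      exact hc ⟨o, ht, case2 htool hsq himg hp2 S o ht j hj hn⟩
    · exact S.nrm o j (not_lt.1 hj)
  · rw [mo, Multiset.nodup_map_iff_inj_on (Finset.nodup _)]
    intro o ho o2 ho2 h
    simp only [Finset.mem_val, Finset.mem_filter, Finset.mem_univ, true_and] at ho ho2
    by_contra hne
    exact hc ⟨o, ho ▸ ht, case3 htool hsq himg hp2 S o o2 (ho ▸ ht) hne (ho.trans ho2.symm)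
      (by omega)⟩

end Lp4b

theorem lp4b (htool : ToolSt) (hsq : SqSt) (hpa : PermASt) (hpb : PermBSt) (himg : ImgSt) :
    Lp4bSt := by
  intro p k0 _ B _ _ lv O _ r τ e l v hp2 S
  have h3 : (∃ t : Ty p k0, ∃ k ∈ mo r τ t, (-1) ^ (k - 1) * t.par = -1) →
      ∃ h, Rl h l v l v ∧ Perm.sign (Lg.tp h) = -1 ∧ so (Lg.tp l) (Lg.tp h) = 1 := by
    rintro ⟨t, k, hk, h⟩
    obtain ⟨o, rfl, rfl⟩ := (Lp4b.mem_mo t k).1 hk
    obtain ⟨g, h1, h2, h3⟩ := Lp4b.case1 htool hpb hp2 S (himg.vz p k0 B lv O r τ e l v S) o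
    exact ⟨g, h1, h2.trans h, h3⟩
  refine ⟨fun hG => ?_, fun hG => ?_, h3⟩
  · obtain ⟨o, -, h, h1, h2, -⟩ := Lp4b.notGm htool hsq himg hp2 S hG
    exact ⟨h, h1, h2⟩
  · by_cases hc : ∃ t : Ty p k0, ∃ k ∈ mo r τ t, (-1) ^ (k - 1) * t.par = -1
    · obtain ⟨h, h1, h2, -⟩ := h3 hc
      exact ⟨h, h1, h2⟩
    · have hall : ∀ t : Ty p k0, ∀ k ∈ mo r τ t, (-1) ^ (k - 1) * t.par = 1 := fun t k hk =>
        (Int.units_eq_one_or _).resolve_right fun h => hc ⟨t, k, hk, h⟩
      obtain ⟨o, ho, h, h1, -, h2⟩ := Lp4b.notGm htool hsq himg hp2 S fun k => hG ⟨k, hall⟩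
      have := hall (τ o) (r o + 1) ((Lp4b.mem_mo _ _).2 ⟨o, rfl, rfl⟩)
      rw [ho, mul_one, Nat.add_sub_cancel] at this
      exact ⟨h, h1, by rw [h2, pow_succ, this, one_mul]⟩

end Pool.Agent.Lib.MP_1ae3da_al.GM
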