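import Pool.Agent.Lib.MP_1ae3da_al.GT

/-! The element of the local complement that realises a power map, and its two signs. -/

namespace Pool.Agent.Lib.MP_1ae3da_al.GM

open Equiv

namespace Lp5

lemma sign_sigma {O : Type} [Fintype O] [DecidableEq O] {β : O → Type} [∀ o, Fintype (β o)]
    [∀ o, DecidableEq (β o)] (σ : ∀ o, Perm (β o)) :
    Perm.sign (Perm.sigmaCongrRight σ) = ∏ o, Perm.sign (σ o) := by
  let F : (∀ o, Perm (β o)) →* ℤˣ := Perm.sign.comp (Perm.sigmaCongrRightHom β)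
  let G : (∀ o, Perm (β o)) →* ℤˣ := ∏ o, Perm.sign.comp (Pi.evalMonoidHom (fun o => Perm (β o)) o)
  have : F = G := by
    refine MonoidHom.pi_ext fun a x => ?_
    have h1 : G (Pi.mulSingle a x) = Perm.sign x := by
      simp only [G, MonoidHom.finsetProd_apply, MonoidHom.comp_apply, Pi.evalMonoidHom_apply]
      rw [Finset.prod_eq_single a]
      · simp
      · intro b _ hb
        rw [Pi.mulSingle_eq_of_ne hb, map_one]
      · simp
    rw [h1, eq_comm]
    refine Perm.sign_bij (fun y _ => (⟨a, y⟩ : Σ o, β o)) (fun y _ _ => ?_)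
      (fun y y' _ _ h => ?_) fun y hy => ?_
    · simp [Perm.sigmaCongrRightHom]
    · simpa using h
    · obtain ⟨b, y⟩ := y
      by_cases hb : b = a
      · subst hb
        refine ⟨y, fun h => hy ?_, rfl⟩
        simp [Perm.sigmaCongrRightHom, h]
      · exact absurd (by simp [Perm.sigmaCongrRightHom, Pi.mulSingle_eq_of_ne hb]) hy
  have h2 := DFunLike.congr_fun this σ
  simpa [F, G, MonoidHom.finsetProd_apply, Perm.sigmaCongrRightHom] using h2

lemma ex_mul (r s : ℕ) (h : s.Coprime (r + 1)) :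
    ∃ σ : Perm (Fin (r + 1)), ∀ j, (σ j : ℕ) = s * j % (r + 1) := by
  have hi : Function.Injective fun i : Fin (r + 1) => Fin.ofNat (r + 1) (s * i) := by
    intro i j hij
    have h1 : s * i ≡ s * j [MOD r + 1] := congrArg Fin.val hij
    exact Fin.ext (Nat.ModEq.eq_of_lt_of_lt (Nat.ModEq.cancel_left_of_coprime h.symm h1) i.2 j.2)
  exact ⟨Equiv.ofBijective _ (Finite.injective_iff_bijective.1 hi), fun j => rfl⟩

lemma zm_eq (r s : ℕ) (σ : Perm (Fin r)) (h : ∀ j, (σ j : ℕ) = s * j % r) :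
    zm r s = Perm.sign σ := by
  have hex : ∃ e : Perm (Fin r), ∀ j, (e j : ℕ) = s * j % r := ⟨σ, h⟩
  rw [zm, dif_pos hex]
  have : hex.choose = σ := Equiv.ext fun j => Fin.ext (by rw [hex.choose_spec, h])
  rw [this]

lemma sum_div (r t : ℕ) (σ : Perm (Fin (r + 1)))
    (h : ∀ j, (σ j : ℕ) = (2 * t + 1) * j % (r + 1)) :
    ∑ i : Fin (r + 1), (2 * t + 1) * (i : ℕ) / (r + 1) = t * r := by
  have h1 : ∑ i : Fin (r + 1), (2 * t + 1) * (i : ℕ) =
      (r + 1) * (∑ i : Fin (r + 1), (2 * t + 1) * (i : ℕ) / (r + 1)) + ∑ i, (σ i : ℕ) := by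
    rw [Finset.mul_sum, ← Finset.sum_add_distrib]
    exact Finset.sum_congr rfl fun i _ => by rw [h, Nat.div_add_mod]
  have h2 : ∑ i, (σ i : ℕ) = ∑ i : Fin (r + 1), (i : ℕ) := Equiv.sum_comp σ fun i => (i : ℕ)
  have h3 : (∑ i : Fin (r + 1), (i : ℕ)) * 2 = (r + 1) * r := by
    rw [Fin.sum_univ_eq_sum_range (fun i => i) (r + 1), Finset.sum_range_id_mul_two]
    simp
  rw [h2, ← Finset.mul_sum] at h1
  refine Nat.eq_of_mul_eq_mul_left (Nat.succ_pos r) ?_
  nlinarith

variable {p k0 : ℕ} [Fact p.Prime]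

lemma prod_mo {O : Type} [Fintype O] (r : O → ℕ) (τ : O → Ty p k0) (F : Ty p k0 → ℕ → ℤˣ) :
    ∏ t : Ty p k0, ((mo r τ t).map (F t)).prod = ∏ o, F (τ o) (r o + 1) := by
  rw [← Finset.prod_fiberwise Finset.univ τ]
  refine Finset.prod_congr rfl fun t _ => ?_
  rw [mo, Multiset.map_map]
  refine Finset.prod_congr rfl fun o ho => ?_
  rw [← (Finset.mem_filter.1 ho).2]
  rfl

/-- the quadratic character as a homomorphism. -/
noncomputable def chH (hsq : SqSt) : (ZMod p)ˣ →* ℤˣ :=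
  MonoidHom.mk' (fun c => chi (c : ZMod p)) fun a b => by
    rw [Units.val_mul]
    exact hsq.chi_mul p _ _ Fact.out a.ne_zero b.ne_zero

lemma chH_apply (hsq : SqSt) (c : (ZMod p)ˣ) : chH hsq c = chi (c : ZMod p) := rfl

variable {B : Type} {lv : B → Fin k0}

/-- elements that preserve the fibres and have trivial character on one fibre. -/
def Sb (hsq : SqSt) {O : Type} (f : B → O) (P : O → Prop) : Subgroup (Lg p k0 lv) where
  carrier := {δ | ∀ b, f (δ.π b) = f b ∧ (P (f b) → ∏ j, chH hsq (δ.c b j) = 1)}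
  one_mem' := fun b => ⟨rfl, fun _ => by simp⟩
  mul_mem' := by
    intro a a' ha ha' b
    refine ⟨by rw [Lg.mul_π, Perm.mul_apply, (ha _).1, (ha' _).1], fun h => ?_⟩
    simp only [Lg.mul_c, map_mul, Finset.prod_mul_distrib]
    rw [(ha' b).2 h, (ha _).2 (by rwa [(ha' b).1]), one_mul]
  inv_mem' := by
    intro a ha b
    have h1 : f (a.π⁻¹ b) = f b := by rw [← (ha (a.π⁻¹ b)).1]; simp
    refine ⟨h1, fun h => ?_⟩
    simp only [Lg.inv_c, map_inv, Finset.prod_inv_distrib]
    rw [(ha _).2 (by rwa [h1]), inv_one]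

lemma act_π (g : Lg p k0 lv) (v : B → Fin k0 → ZMod p) (b : B) (j : Fin k0) :
    g.act v (g.π b) j = (g.c b j : ZMod p) * v b j := by
  simp [Lg.act]

lemma vz_sum (s : Finset ℕ) (u : ℕ → B → Fin k0 → ZMod p) (h : ∀ i, Vz lv (u i)) :
    Vz lv (∑ i ∈ s, u i) := fun b j hj => by
  simp only [Finset.sum_apply]
  exact Finset.sum_eq_zero fun i _ => h i b j hj

variable {O : Type} {r : O → ℕ} {τ : O → Ty p k0} {e : (Σ o, Fin (r o + 1)) ≃ B}
  {l : Lg p k0 lv} {v : B → Fin k0 → ZMod p}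

lemma cyc_sum (hs : Std r τ e l v) (g : Lg p k0 lv) (o : O) (σ : Perm (Fin (r o + 1)))
    (hg : ∀ i, g.π (e ⟨o, i⟩) = e ⟨o, σ i⟩) (j : Fin k0) :
    ∑ i, g.act v (e ⟨o, i⟩) j =
      if (τ o).2 j = none then (g.c (e ⟨o, 0⟩) j : ZMod p) else 0 := by
  rw [← Equiv.sum_comp σ fun i => g.act v (e ⟨o, i⟩) j]
  simp only [← hg, act_π, hs.hv]
  rw [Finset.sum_eq_single 0]
  · simp
  · intro i _ hi
    simp [hi]
  · simp

end Lp5

open Lp5 in
theorem lp5 (htool : ToolSt) (hsq : SqSt) (hpa : PermASt) (hpb : PermBSt) (himg : ImgSt) :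
    Lp5St := by
  intro p k0 _ B _ _ lv O _ r τ e l v hp hs s hs1 hps hcop
  classical
  have hpp : p.Prime := Fact.out
  have lpow := himg.lpow p k0 B lv O r τ e l v hs
  have hco : ∀ o, s.Coprime (r o + 1) := by
    intro o
    refine Nat.Coprime.coprime_dvd_right ?_ hcop
    have h1 := (lpow (orderOf l) o 0).1
    rw [pow_orderOf_eq_one, Lg.one_π, Perm.one_apply, zero_add] at h1
    have h2 := e.injective h1
    simp only [Sigma.mk.injEq, heq_eq_eq, true_and] at h2
    exact Nat.dvd_of_mod_eq_zero (congrArg Fin.val h2).symm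
  choose σ hσ using fun o => ex_mul (r o) s (hco o)
  have hσ0 : ∀ o, σ o 0 = 0 := fun o => Fin.ext (by simp [hσ])
  obtain ⟨t, rfl⟩ : Odd s := by
    have h2 : 2 ∣ p - 1 := (hpp.even_sub_one hp).two_dvd
    exact Nat.odd_iff.2 (hs1.of_dvd h2)
  set s := 2 * t + 1 with hst
  have hs0 : (s : ZMod p) ≠ 0 := fun h => hps ((ZMod.natCast_eq_zero_iff _ _).1 h)
  let su : (ZMod p)ˣ := Units.mk0 s hs0
  have hpow : ∀ c : (ZMod p)ˣ, c ^ s = c := by
    intro c
    have : c ^ s = c ^ 1 := pow_eq_pow_iff_modEq.2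
      (hs1.of_dvd (orderOf_dvd_of_pow_eq_one (ZMod.units_pow_card_sub_one_eq_one p c)))
    rw [this, pow_one]
  let h : Lg p k0 lv :=
    { π := e.permCongr (Perm.sigmaCongrRight σ)
      c := fun b j => (τ (e.symm b).1).sc j ^ (s * ((e.symm b).2 : ℕ) / (r (e.symm b).1 + 1)) *
        if (τ (e.symm b).1).2 j = none then su else 1
      hπ := fun b => by
        obtain ⟨⟨o, i⟩, rfl⟩ := e.surjective b
        simp [hs.hlv]
      hc := fun b j hj => by
        obtain ⟨⟨o, i⟩, rfl⟩ := e.surjective b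
        rw [hs.hlv] at hj
        have := hs.nrm o j hj
        rw [e.symm_apply_apply]
        simp [Ty.sc, this] }
  have hπ : ∀ o i, h.π (e ⟨o, i⟩) = e ⟨o, σ o i⟩ := fun o i => by simp [h]
  have hc : ∀ o i j, h.c (e ⟨o, i⟩) j = (τ o).sc j ^ (s * (i : ℕ) / (r o + 1)) *
      if (τ o).2 j = none then su else 1 := fun o i j => by
    simp only [h]
    rw [e.symm_apply_apply]
  have hl : h * l = l ^ s * h := by
    refine Lg.ext (Equiv.ext fun b => ?_) (funext fun b => funext fun j => ?_)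
    · obtain ⟨⟨o, i⟩, rfl⟩ := e.surjective b
      rw [Lg.mul_π, Lg.mul_π, Perm.mul_apply, Perm.mul_apply, hs.hπ, hπ, hπ, (lpow s o _).1]
      congr 2
      refine Fin.ext ?_
      simp [hσ, Fin.val_add, mul_add]
    · obtain ⟨⟨o, i⟩, rfl⟩ := e.surjective b
      rw [Lg.mul_c, Lg.mul_c, hs.hπ, hπ, hc, hc, hs.hc, (lpow s o _).2, hσ, ← mul_assoc,
        ← pow_add]
      have e1 : (s * i % (r o + 1) + s) / (r o + 1) + s * i / (r o + 1) =
          s * (i + 1) / (r o + 1) := by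
        conv_rhs => rw [mul_add, mul_one, ← Nat.mod_add_div (s * i) (r o + 1), add_right_comm,
          Nat.add_mul_div_left _ _ (Nat.succ_pos _)]
      rw [e1]
      by_cases hi : i = Fin.last (r o)
      · rw [if_pos hi, hi, Fin.last_add_one, Fin.val_last, Nat.mul_div_cancel _ (Nat.succ_pos _),
          hpow]
        simp [mul_comm]
      · rw [if_neg hi, mul_one, Fin.val_add_one, if_neg hi]
  have hch : ∀ o i, ∏ j, chH hsq (h.c (e ⟨o, i⟩) j) =
      (τ o).par ^ (s * (i : ℕ) / (r o + 1)) * chi (s : ZMod p) ^ (τ o).stc := by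
    intro o i
    simp only [hc, map_mul, map_pow, Finset.prod_mul_distrib, Finset.prod_pow, apply_ite (chH hsq),
      map_one, Finset.prod_ite, Finset.prod_const, one_pow, mul_one]
    rfl
  have hcl : ∀ (n : ℕ) o i, ∏ j, chH hsq ((l ^ n).c (e ⟨o, i⟩) j) =
      (τ o).par ^ (((i : ℕ) + n) / (r o + 1)) := by
    intro n o i
    simp only [(lpow n o i).2, map_pow, Finset.prod_pow]
    rfl
  have hv := himg.vz p k0 B lv O r τ e l v hs
  refine ⟨h, ⟨by rw [hl, mul_inv_cancel_right], ?_⟩, ?_, ?_⟩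
  · have hu : Vz lv (∑ i ∈ Finset.range s, (l ^ i).act v - h.act v) :=
      (vz_sum _ _ fun i => hv.act _).sub (hv.act h)
    obtain ⟨w, hw, ew⟩ := himg.pow p k0 B lv l s hcop _
      ((himg.img p k0 B lv O r τ e l v hs _ hu).2 fun o j hj => by
        simp only [Pi.sub_apply, Finset.sum_apply, Finset.sum_sub_distrib]
        rw [Finset.sum_comm, cyc_sum hs h o (σ o) (hπ o), Finset.sum_congr rfl fun n _ =>
          cyc_sum hs (l ^ n) o (Equiv.addRight (Fin.ofNat _ n)) (fun i => (lpow n o i).1) j]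
        by_cases hn : (τ o).2 j = none
        · simp [hn, hc, (lpow _ o _).2, hj, su]
        · simp [hn])
    exact ⟨w, hw, by rw [add_sub_assoc, ← ew, add_sub_cancel]⟩
  · rw [(htool p k0 B lv hp).2, sgP, prod_mo r τ fun t n =>
      zm n s * chi (s : ZMod p) ^ (n * t.stc) * t.par ^ ((s - 1) / 2 * (n - 1))]
    have e1 : Perm.sign h.π = ∏ o, zm (r o + 1) s := by
      simp only [h, Perm.sign_permCongr, sign_sigma]
      exact Finset.prod_congr rfl fun o _ => (zm_eq _ _ _ (hσ o)).symm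
    rw [e1, ← Equiv.prod_comp e, Fintype.prod_sigma, ← Finset.prod_mul_distrib]
    refine Finset.prod_congr rfl fun o _ => ?_
    have e2 : (s - 1) / 2 = t := by omega
    simp only [← chH_apply hsq]
    rw [Finset.prod_congr rfl fun i _ => hch o i, Finset.prod_mul_distrib, Finset.prod_const,
      Finset.prod_pow_eq_pow_sum, sum_div _ _ _ (hσ o), e2, Finset.card_univ, Fintype.card_fin,
      ← pow_mul, mul_comm (r o + 1), Nat.add_sub_cancel, mul_assoc, mul_comm ((τ o).par ^ _)]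
  · let f : B → O := fun b => (e.symm b).1
    have hf : ∀ o i, f (e ⟨o, i⟩) = o := fun o i => by simp [f]
    have hsurj : Function.Surjective f := fun o => ⟨e ⟨o, 0⟩, hf o 0⟩
    have hlS : ∀ P : O → Prop, (∀ o, P o → (τ o).par = 1) → l ∈ Sb (lv := lv) hsq f P := by
      intro P hP b
      obtain ⟨⟨o, i⟩, rfl⟩ := e.surjective b
      refine ⟨by rw [hs.hπ, hf, hf], fun ho => ?_⟩
      rw [hf] at ho
      have := hcl 1 o i
      rwa [pow_one, hP o ho, one_pow] at this
    have hhS : ∀ P : O → Prop, (∀ o, P o → (τ o).par = 1 ∧ chi (s : ZMod p) ^ (τ o).stc = 1) →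
        h ∈ Sb (lv := lv) hsq f P := by
      intro P hP b
      obtain ⟨⟨o, i⟩, rfl⟩ := e.surjective b
      refine ⟨by rw [hπ, hf, hf], fun ho => ?_⟩
      rw [hf] at ho
      rw [hch, (hP o ho).1, (hP o ho).2, one_pow, one_mul]
    have hle : Subgroup.zpowers l ≤ Subgroup.closure {l, h} :=
      (Subgroup.zpowers_le).2 (Subgroup.subset_closure (by simp))
    have hcS : ∀ P : O → Prop, (∀ o, P o → (τ o).par = 1 ∧ chi (s : ZMod p) ^ (τ o).stc = 1) →
        Subgroup.closure {l, h} ≤ Sb (lv := lv) hsq f P := by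
      intro P hP
      rw [Subgroup.closure_le]
      rintro x (rfl | rfl)
      · exact hlS P fun o ho => (hP o ho).1
      · exact hhS P hP
    have horb : ∀ Δ : Subgroup (Lg p k0 lv), Subgroup.zpowers l ≤ Δ →
        Δ ≤ Subgroup.closure {l, h} → ∀ b b', f b = f b' ↔ ∃ δ ∈ Δ, δ.π b = b' := by
      intro Δ k1 k2 b b'
      constructor
      · obtain ⟨⟨o, i⟩, rfl⟩ := e.surjective b
        obtain ⟨⟨o', i'⟩, rfl⟩ := e.surjective b'
        rw [hf, hf]
        rintro rfl
        refine ⟨l ^ ((i' - i : Fin (r o + 1)) : ℕ), k1 (Subgroup.npow_mem_zpowers _ _), ?_⟩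
        rw [(lpow _ o i).1]
        simp
      · rintro ⟨δ, hδ, rfl⟩
        exact ((hcS (fun _ => False) (fun _ h => h.elim) (k2 hδ)) b).1.symm
    have t1 := (htool p k0 B lv hp).1 _ O f hsurj (horb _ le_rfl hle)
    have t2 := (htool p k0 B lv hp).1 _ O f hsurj (horb _ hle le_rfl)
    rw [MonoidHom.map_zpowers] at t1
    rw [MonoidHom.map_closure, Set.image_pair] at t2
    have e1 : soP (mo r τ) s =
        ∏ o, if (τ o).par = 1 then chi (s : ZMod p) ^ (τ o).stc else 1 := by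
      rw [soP, ← prod_mo r τ fun t _ => if t.par = 1 then chi (s : ZMod p) ^ t.stc else 1]
      simp
    rw [so, pow_add, t1, t2, e1, ← Finset.prod_mul_distrib]
    refine Finset.prod_congr rfl fun o _ => ?_
    by_cases hpar : (τ o).par = 1
    · have k0 : ∀ b, f b = o → ∀ δ ∈ Subgroup.zpowers l, δ.π b = b →
          ∏ j, chi (δ.c b j : ZMod p) = 1 := fun b hb δ hδ _ =>
        ((Subgroup.zpowers_le.2 (hlS (· = o) fun o' h' => h' ▸ hpar)) hδ b).2 hb
      rw [if_pos hpar, if_pos k0]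
      by_cases hx : chi (s : ZMod p) ^ (τ o).stc = 1
      · have k1 : ∀ b, f b = o → ∀ δ ∈ Subgroup.closure {l, h}, δ.π b = b →
            ∏ j, chi (δ.c b j : ZMod p) = 1 := fun b hb δ hδ _ =>
          (hcS (· = o) (fun o' h' => h' ▸ ⟨hpar, hx⟩) hδ b).2 hb
        rw [if_pos k1, hx]
        simp
      · rw [if_neg, mul_one, (Int.units_eq_one_or _).resolve_left hx]
        intro k
        have := k _ (hf o 0) h (Subgroup.subset_closure (by simp)) (by rw [hπ, hσ0])
        have k2 := hch o 0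
        rw [hpar, one_pow, one_mul] at k2
        exact hx (k2.symm.trans this)
    · have key : ∀ Δ : Subgroup (Lg p k0 lv), Subgroup.zpowers l ≤ Δ →
          ¬ ∀ b, f b = o → ∀ δ ∈ Δ, δ.π b = b → ∏ j, chi (δ.c b j : ZMod p) = 1 := by
        intro Δ k1 k
        have := k _ (hf o 0) (l ^ (r o + 1)) (k1 (Subgroup.npow_mem_zpowers _ _))
          (by rw [(lpow _ o 0).1]; simp)
        have k2 := hcl (r o + 1) o 0
        rw [Fin.val_zero, zero_add, Nat.div_self (Nat.succ_pos _), pow_one] at k2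
        exact hpar (k2.symm.trans this)
      rw [if_neg hpar, if_neg (key _ le_rfl), if_neg (key _ hle), one_mul]

end Pool.Agent.Lib.MP_1ae3da_al.GM
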