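import Pool.Agent.Lib.MP_1ae3da_al.GMat1

/-! Matching strict partitions, and all partitions, with local data. -/

namespace Pool.Agent.Lib.MP_1ae3da_al.GM

namespace MatM

open Finset

/-- strict partitions as multisets. -/
def uS : ST0 ≃ {ρ : Multiset ℕ // 0 ∉ ρ ∧ ρ.Nodup} where
  toFun A := ⟨A.1.val, A.2, A.1.nodup⟩
  invFun ρ := ⟨⟨ρ.1, ρ.2.2⟩, ρ.2.1⟩
  left_inv _ := rfl
  right_inv _ := rfl

lemma sum_zero (x : ST0) : x.1.sum id = 0 ↔ x = ⟨∅, Finset.notMem_empty 0⟩ := by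
  refine ⟨fun h => Subtype.ext (eq_empty_of_forall_notMem fun a ha => x.2 ?_), ?_⟩
  · have : a = 0 := sum_eq_zero_iff.1 h a ha
    exact this ▸ ha
  · rintro rfl
    rfl

lemma val_sum (A : Finset ℕ) : A.val.sum = A.sum id :=
  (congrArg Multiset.sum (Multiset.map_id A.val)).symm

lemma glue0 {I T P : Type} (lv : T → I) (Q : T → Prop) (W : Multiset ℕ → Prop)
    (v : P ≃ {ρ // W ρ}) :
    ∃ e : {m : T → Multiset ℕ // (∀ τ, Q τ → W (m τ)) ∧ ∀ τ, ¬ Q τ → m τ = 0} ≃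
      (∀ k, Unit × ({τ // lv τ = k ∧ Q τ} → P)), ∀ m k s, (v ((e m k).2 s)).1 = m.1 s.1 := by
  classical
  refine ⟨Equiv.ofBijective (fun m k => ((), fun s => v.symm ⟨m.1 s.1, m.2.1 _ s.2.2⟩))
    ⟨fun m m' h => ?_, fun f => ?_⟩, fun m k s => by simp⟩
  · refine Subtype.ext (funext fun τ => ?_)
    by_cases b : Q τ
    · exact congrArg Subtype.val (v.symm.injective
        (congrFun (congrArg Prod.snd (congrFun h (lv τ))) ⟨τ, rfl, b⟩))
    · rw [m.2.2 τ b, m'.2.2 τ b]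
  · refine ⟨⟨fun τ => if h : Q τ then (v ((f (lv τ)).2 ⟨τ, rfl, h⟩)).1 else 0,
      fun τ h => ?_, fun τ b => dif_neg b⟩, funext fun k => Prod.ext rfl (funext ?_)⟩
    · simp only [dif_pos h]
      exact (v _).2
    · rintro ⟨τ, rfl, h⟩
      exact v.symm_apply_eq.2 (Subtype.ext (dif_pos h))

end MatM

open Finset Mat1 MatM

theorem matM (htow : TowSt) (hrP : RunPSt) (hrS : RunSSt) (hsh : ShSt) (hcnt : CntSt)
    (hcmp : CmpSt) (htc : TyCntSt) : MatMSt := by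
  intro p k0 hp a n hp2 ha hn
  obtain ⟨CP, EP, gP, hP⟩ := hrP p hp.out
  obtain ⟨CS, ES, gS, hS⟩ := hrS p hp.out hp2
  obtain ⟨v, hv⟩ := hcnt
  have hs : ∀ k : Fin k0, (Ty.star p k).par = 1 := fun k => (htc p k0 k hp2).2.2.2.1
  have hn' : ∀ k : Fin k0, (Ty.star p k).nrm := fun k => (htc p k0 k hp2).2.2.1
  obtain ⟨e1, h1⟩ := htow p PT0 ST0 CP CS 1 ((p - 1) / 2) (fun x => szN x.1) (fun x => WP p x.1)
    (fun x => x.1.sum id) (fun x => WS p x.1) PT0.o ⟨∅, Finset.notMem_empty 0⟩ EP gP ES gS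
    (fun x => x.1.val) (Sim p) hp.out one_pos hsh.zero (WP_o p) sum_zero
    (by simp [WS, Hs, Vd]) rfl hP hS (fun a => hcmp.sim_refl p a hp.out)
    (fun a b c => hcmp.sim_trans p a b c hp.out)
    (fun k a b h => hcmp.sim_add p _ _ _ hp.out (hcmp.sim_map p _ _ hp.out h))
    k0 a (fun k => (p ^ k - 1) / 2) Empty (Sl p k0) ha (by simp) (c_succ hp2) (card_Sl htc hp2)
  obtain ⟨e2, h2⟩ := glue2 hs a _ _ uS v 1 (fun x => x.1.sum id) (fun x => szN x.1)
    (fun x => val_sum x.1) (fun x => by rw [hv, one_mul]) Gm fun m => by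
      constructor
      · rintro ⟨a1, a2, a3⟩
        refine ⟨fun k => ⟨a1 _, (a3 _ (hs k)).2⟩, fun τ _ => a1 τ, fun τ b1 b2 => ?_⟩
        by_cases c : τ.nrm
        · by_contra d
          exact b1 ((a3 τ ((Int.units_eq_one_or _).resolve_right fun h => b2 ⟨c, h⟩)).1 d)
        · exact a2 τ c
      · rintro ⟨a1, a2, a3⟩
        refine ⟨fun τ => ?_, fun τ c => a3 τ (fun h => c (h ▸ hn' _)) fun h => c h.1,
          fun τ c => ?_⟩
        · by_cases b1 : τ = Ty.star p τ.1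
          · rw [b1]
            exact (a1 _).1
          by_cases b2 : τ.nrm ∧ τ.par = -1
          · exact a2 τ b2
          · simp [a3 τ b1 b2]
        · by_cases b1 : τ = Ty.star p τ.1
          · refine ⟨fun _ => b1, ?_⟩
            rw [b1]
            exact (a1 _).2
          · simp [a3 τ b1 (by simp [c])]
  have key : ∀ A : Finset ℕ, padicValNat p (Hs A) = padicValNat p (n.factorial * Vd A) ↔
      WS p A = padicValNat p n.factorial := fun A => by
    have hA : 0 < Vd A := (hsh.pos (A, A)).2.1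
    rw [padicValNat.mul n.factorial_ne_zero hA.ne', WS]
    omega
  let e0 : STp p n ≃ {x : ST0 × (Empty → PT0) //
      x.1.1.sum id + 1 * ∑ s, szN (x.2 s).1 = ∑ k, a k * p ^ (k : ℕ) ∧
      WS p x.1.1 + (1 : ℕ) * ∑ s, WP p (x.2 s).1 =
        padicValNat p (∑ k, a k * p ^ (k : ℕ)).factorial} :=
    { toFun := fun A => ⟨(⟨A.1, A.2.1⟩, fun s => s.elim), by
        simpa [← hn] using And.intro A.2.2.1 ((key _).1 A.2.2.2)⟩
      invFun := fun x => ⟨x.1.1.1, x.1.1.2, by simpa [← hn] using x.2.1,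
        (key _).2 (by simpa [← hn] using x.2.2)⟩
      left_inv := fun _ => rfl
      right_inv := fun x => Subtype.ext (Prod.ext rfl (funext fun s => s.elim)) }
  refine ⟨e0.trans (e1.trans e2), fun A => ?_⟩
  have h3 : Sim p A.1.val (Lam (e2 (e1 (e0 A))).1) := by
    rw [h2]
    exact h1 (e0 A)
  refine ⟨(h3 A.2.1).2.1, fun q => hcmp.sim_dm p q n _ _ hp.out h3 A.2.1 ?_ ?_⟩
  · exact (card_le A.2.1).trans ((val_sum _).trans A.2.2.1).le
  · exact (lam_card (e2 _).2.1).trans hn.ge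

theorem mat0 (htow : TowSt) (hrP : RunPSt) (hsh : ShSt) (hcnt : CntSt) (htc : TyCntSt) :
    Mat0St := by
  intro p k0 hp a n hp2 ha hn
  classical
  obtain ⟨CP, EP, gP, hP⟩ := hrP p hp.out
  obtain ⟨v, hv⟩ := hcnt
  obtain ⟨e1, -⟩ := htow p PT0 Unit CP Unit 1 0 (fun x => szN x.1) (fun x => WP p x.1)
    (fun _ => 0) (fun _ => 0) PT0.o () EP gP 
    ⟨fun _ => ((), (), Fin.elim0), fun _ => (), fun _ => rfl, fun _ => Subsingleton.elim _ _⟩ (fun _ => 0)
    (fun _ => 0) (fun _ _ => True) hp.out one_pos hsh.zero (WP_o p) (by simp) rfl rfl hP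
    (by simp) (by simp) (by simp) (by simp)
    k0 a (fun k => p ^ k) Unit (fun k => {τ : Ty p k0 // τ.1 = k ∧ τ.nrm}) ha (by simp)
    (fun k => by rw [pow_succ', add_zero])
    (fun k => by rw [← Nat.card_eq_fintype_card, (htc p k0 k hp2).1])
  obtain ⟨e2, h2⟩ := glue0 (fun τ : Ty p k0 => τ.1) Ty.nrm _ v
  let e0 : PTp p n ≃ {x : Unit × (Unit → PT0) //
      0 + 1 * ∑ s, szN (x.2 s).1 = ∑ k, a k * p ^ (k : ℕ) ∧
      0 + (1 : ℕ) * ∑ s, WP p (x.2 s).1 =
        (padicValNat p (∑ k, a k * p ^ (k : ℕ)).factorial : ℤ)} :=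
    { toFun := fun A => ⟨((), fun _ => ⟨A.1, A.2.1.1⟩), by
        simpa [← hn] using ((mem_PTp hsh n _).1 A.2).2⟩
      invFun := fun x => ⟨(x.1.2 ()).1, (mem_PTp hsh n _).2 ⟨(x.1.2 ()).2, by
        simpa [← hn] using x.2⟩⟩
      left_inv := fun _ => rfl
      right_inv := fun x => rfl }
  refine Nat.card_congr (e0.trans (e1.trans ((e2.symm.subtypeEquiv
    (q := fun m => ∀ k, ∑ τ : Ty p k0 with τ.1 = k, (m.1 τ).sum = a k) fun f => ?_).trans
    ((Equiv.subtypeSubtypeEquivSubtypeInter _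
      (fun m : Ty p k0 → Multiset ℕ => ∀ k, ∑ τ : Ty p k0 with τ.1 = k, (m τ).sum = a k)).trans
      (Equiv.subtypeEquivRight fun m => ?_)))))
  · obtain ⟨m, rfl⟩ := e2.surjective f
    rw [e2.symm_apply_apply]
    refine forall_congr' fun k => ?_
    simp only [← hv, h2, zero_add, one_mul]
    rw [← sum_subtype (univ.filter fun τ : Ty p k0 => τ.1 = k ∧ τ.nrm) (by simp)
      fun τ => (m.1 τ).sum, sum_subset (s₂ := univ.filter fun τ : Ty p k0 => τ.1 = k)
      (fun τ h => by simp [(mem_filter.1 h).2.1]) fun τ b1 b2 => by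
        rw [m.2.2 τ fun c => b2 (mem_filter.2 ⟨mem_univ _, (mem_filter.1 b1).2, c⟩)]
        rfl]
  · rw [Val, and_assoc]
    refine and_congr_left fun h => ⟨fun b τ => ?_, fun b τ _ => b τ⟩
    by_cases c : τ.nrm
    · exact b τ c
    · simp [h.1 τ c]

end Pool.Agent.Lib.MP_1ae3da_al.GM
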