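import Pool.Agent.Lib.MP_1ae3da_al.GMat1

/-! Matching self conjugate partitions with local data. -/

namespace Pool.Agent.Lib.MP_1ae3da_al.GM

namespace MatP

open Finset

/-- self conjugate partitions and their diagonal hooks. -/
def uC : Finset ℕ ≃ {ρ : Multiset ℕ // ρ.Nodup ∧ ∀ r ∈ ρ, Odd r} where
  toFun A := ⟨hk A, A.nodup.map fun a b h => by simpa using h, fun r hr => by
    obtain ⟨a, -, rfl⟩ := Multiset.mem_map.1 hr
    exact ⟨a, rfl⟩⟩
  invFun ρ := ⟨ρ.1.map (· / 2), ρ.2.1.map_on fun a ha b hb h => by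
    have h1 := Nat.odd_iff.1 (ρ.2.2 a ha)
    have h2 := Nat.odd_iff.1 (ρ.2.2 b hb)
    omega⟩
  left_inv A := Finset.val_injective (by
    simp only [hk, Multiset.map_map]
    exact (Multiset.map_congr rfl fun a _ => by simp; omega).trans (Multiset.map_id _))
  right_inv ρ := Subtype.ext (by
    simp only [hk, Multiset.map_map]
    exact (Multiset.map_congr rfl fun a ha => by
      have h1 := Nat.odd_iff.1 (ρ.2.2 a ha)
      simp only [Function.comp, id]
      omega).trans (Multiset.map_id _))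

/-- doubling all parts. -/
def dbl : {ρ : Multiset ℕ // 0 ∉ ρ} ≃ {ρ : Multiset ℕ // 0 ∉ ρ ∧ ∀ r ∈ ρ, Even r} where
  toFun ρ := ⟨ρ.1.map (2 * ·), by simpa using ρ.2, fun r hr => by
    obtain ⟨a, -, rfl⟩ := Multiset.mem_map.1 hr
    exact even_two_mul a⟩
  invFun ρ := ⟨ρ.1.map (· / 2), fun h => by
    obtain ⟨a, ha, h⟩ := Multiset.mem_map.1 h
    have h1 := Nat.even_iff.1 (ρ.2.2 a ha)
    have h2 : a = 0 := by omega
    exact ρ.2.1 (h2 ▸ ha)⟩
  left_inv ρ := Subtype.ext (by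
    simp only [Multiset.map_map]
    exact (Multiset.map_congr rfl fun a _ => by simp).trans (Multiset.map_id _))
  right_inv ρ := Subtype.ext (by
    simp only [Multiset.map_map]
    exact (Multiset.map_congr rfl fun a ha => by
      have h1 := Nat.even_iff.1 (ρ.2.2 a ha)
      simp only [Function.comp, id]
      omega).trans (Multiset.map_id _))

lemma hk_sum (hsh : ShSt) (A : Finset ℕ) : (hk A).sum = szN (A, A) := by
  have h := ((hsh.pt _ (A, A)).1 ⟨rfl, rfl⟩).2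
  rw [h]
  change ∑ a ∈ A, (2 * a + 1) = ∑ a ∈ A, a + ∑ a ∈ A, a + A.card
  rw [sum_add_distrib, ← mul_sum, two_mul, card_eq_sum_ones]

lemma hk_zero (A : Finset ℕ) : 0 ∉ hk A := by simp [hk]

lemma sz_zero (hsh : ShSt) (A : Finset ℕ) : szN (A, A) = 0 ↔ A = ∅ := by
  rw [hsh.zero ⟨(A, A), rfl⟩, PT0.o, Subtype.mk.injEq, Prod.mk.injEq, and_self]

lemma sgn_one {r : ℕ} (hr : r ≠ 0) : (-1 : ℤˣ) ^ (r - 1) * 1 = 1 ↔ Odd r := by
  rw [mul_one, neg_one_pow_eq_one_iff_even (by decide), Nat.even_iff, Nat.odd_iff]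
  omega

lemma sgn_neg {r : ℕ} (hr : r ≠ 0) : (-1 : ℤˣ) ^ (r - 1) * -1 = 1 ↔ Even r := by
  rw [← pow_succ, Nat.sub_add_cancel (Nat.pos_of_ne_zero hr),
    neg_one_pow_eq_one_iff_even (by decide)]

end MatP

open Finset Mat1 MatP

theorem matP (htow : TowSt) (hrP : RunPSt) (hrC : RunCSt) (hsh : ShSt) (hcnt : CntSt)
    (hcmp : CmpSt) (htc : TyCntSt) : MatPSt := by
  intro p k0 hp a n hp2 ha hn
  obtain ⟨CP, EP, gP, hP⟩ := hrP p hp.out
  obtain ⟨CS, ES, gS, hS⟩ := hrC p hp.out hp2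
  obtain ⟨v, hv⟩ := hcnt
  have hs : ∀ k : Fin k0, (Ty.star p k).par = 1 := fun k => (htc p k0 k hp2).2.2.2.1
  have hn' : ∀ k : Fin k0, (Ty.star p k).nrm := fun k => (htc p k0 k hp2).2.2.1
  obtain ⟨e1, h1⟩ := htow p PT0 (Finset ℕ) CP CS 2 ((p - 1) / 2) (fun x => szN x.1)
    (fun x => WP p x.1) (fun x => szN (x, x)) (fun x => WP p (x, x)) PT0.o ∅ EP gP ES gS
    hk (Sim p) hp.out two_pos hsh.zero (WP_o p) (sz_zero hsh) (WP_o p) rfl hP hS
    (fun a => hcmp.sim_refl p a hp.out) (fun a b c => hcmp.sim_trans p a b c hp.out)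
    (fun k a b h => hcmp.sim_add p _ _ _ hp.out (hcmp.sim_map p _ _ hp.out h))
    k0 a (fun k => (p ^ k - 1) / 2) Empty (Sl p k0) ha (by simp) (c_succ hp2) (card_Sl htc hp2)
  obtain ⟨e2, h2⟩ := glue2 hs a _ _ uC (v.trans dbl) 2 (fun x => szN (x, x)) (fun x => szN x.1)
    (hk_sum hsh) (fun x => by rw [← hv]; exact Multiset.sum_map_mul_left.trans (by simp)) Gp
    fun m => by
      constructor
      · rintro ⟨a1, a2, a3, a4⟩
        refine ⟨fun k => ⟨(a3 _ (hs k)).2, fun r hr => ?_⟩, fun τ c => ⟨a1 τ, fun r hr => ?_⟩,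
          fun τ b1 b2 => ?_⟩
        · exact (sgn_one fun h => a1 _ (h ▸ hr)).1 (hs k ▸ a4 _ r hr)
        · exact (sgn_neg fun h => a1 _ (h ▸ hr)).1 (c.2 ▸ a4 _ r hr)
        by_cases c : τ.nrm
        · by_contra d
          exact b1 ((a3 τ ((Int.units_eq_one_or _).resolve_right fun h => b2 ⟨c, h⟩)).1 d)
        · exact a2 τ c
      · rintro ⟨a1, a2, a3⟩
        have a0 : ∀ τ, 0 ∉ m τ := fun τ => by
          by_cases b1 : τ = Ty.star p τ.1
          · rw [b1]
            exact fun h => by simpa using (a1 _).2 0 h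
          by_cases b2 : τ.nrm ∧ τ.par = -1
          · exact (a2 τ b2).1
          · simp [a3 τ b1 b2]
        refine ⟨a0, fun τ c => a3 τ (fun h => c (h ▸ hn' _)) fun h => c h.1,
          fun τ c => ?_, fun τ r hr => ?_⟩
        · by_cases b1 : τ = Ty.star p τ.1
          · refine ⟨fun _ => b1, ?_⟩
            rw [b1]
            exact (a1 _).1
          · simp [a3 τ b1 (by simp [c])]
        · have r0 : r ≠ 0 := fun h => a0 _ (h ▸ hr)
          by_cases b1 : τ = Ty.star p τ.1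
          · rw [b1] at hr ⊢
            rw [hs]
            exact (sgn_one r0).2 ((a1 _).2 r hr)
          by_cases b2 : τ.nrm ∧ τ.par = -1
          · rw [b2.2]
            exact (sgn_neg r0).2 ((a2 τ b2).2 r hr)
          · simp [a3 τ b1 b2] at hr
  let e0 : CTp p n ≃ {x : Finset ℕ × (Empty → PT0) //
      szN (x.1, x.1) + 2 * ∑ s, szN (x.2 s).1 = ∑ k, a k * p ^ (k : ℕ) ∧
      WP p (x.1, x.1) + (2 : ℕ) * ∑ s, WP p (x.2 s).1 =
        padicValNat p (∑ k, a k * p ^ (k : ℕ)).factorial} :=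
    { toFun := fun A => ⟨(A.1, fun s => s.elim), by
        simpa [← hn] using ((mem_PTp hsh n _).1 A.2).2⟩
      invFun := fun x => ⟨x.1.1, (mem_PTp hsh n _).2 ⟨rfl, by simpa [← hn] using x.2⟩⟩
      left_inv := fun _ => rfl
      right_inv := fun x => Subtype.ext (Prod.ext rfl (funext fun s => s.elim)) }
  refine ⟨e0.trans (e1.trans e2), fun A q => ?_⟩
  have h3 : Sim p (hk A.1) (Lam (e2 (e1 (e0 A))).1) := by
    rw [h2]
    exact h1 (e0 A)
  refine hcmp.sim_dm p q n _ _ hp.out h3 (hk_zero _) ?_ ((lam_card (e2 _).2.1).trans hn.ge)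
  exact (card_le (hk_zero _)).trans ((hk_sum hsh _).trans ((mem_PTp hsh n _).1 A.2).2.1).le

end Pool.Agent.Lib.MP_1ae3da_al.GM
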