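import Pool.Agent.Lib.MP_1ae3da_al.GT

/-! The Murnaghan-Nakayama rule for the Frobenius coefficients. -/

namespace Pool.Agent.Lib.MP_1ae3da_al.GM

open Equiv

namespace Mn

lemma prod_X {N : ℕ} (b : Fin N → ℕ) :
    (∏ i, MvPolynomial.X i ^ b i : MvPolynomial (Fin N) ℤ) =
      MvPolynomial.monomial (Finsupp.equivFunOnFinite.symm b) 1 := by
  rw [MvPolynomial.monomial_eq, Finsupp.prod_fintype _ _ (by simp)]
  simp

lemma base (N : ℕ) (β : Fin N → ℕ) :
    cf β 0 = ∑ w : Perm (Fin N), if β = fun i => (w i : ℕ) then (Perm.sign w : ℤ) else 0 := by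
  classical
  unfold cf
  rw [Multiset.map_zero, Multiset.prod_zero, mul_one, MvPolynomial.coeff_sum]
  refine Finset.sum_congr rfl fun w _ => ?_
  rw [MvPolynomial.coeff_smul, prod_X (fun i => (w i : ℕ)), MvPolynomial.coeff_monomial]
  by_cases h : β = fun i => (w i : ℕ)
  · rw [if_pos h, if_pos (by rw [h])]; simp
  · rw [if_neg h, if_neg (fun h' => h (Finsupp.equivFunOnFinite.symm.injective h').symm)]; simp

lemma step (N : ℕ) (β : Fin N → ℕ) (r : ℕ) (ρ : Multiset ℕ) : cf β (r ::ₘ ρ) =
    ∑ i, if r ≤ β i then cf (Function.update β i (β i - r)) ρ else 0 := by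
  classical
  unfold cf
  rw [Multiset.map_cons, Multiset.prod_cons, mul_comm (MvPolynomial.psum _ _ r), ← mul_assoc,
    MvPolynomial.psum, Finset.mul_sum, MvPolynomial.coeff_sum]
  refine Finset.sum_congr rfl fun i _ => ?_
  rw [MvPolynomial.X_pow_eq_monomial, MvPolynomial.coeff_mul_monomial', mul_one]
  have h1 : Finsupp.single i r ≤ Finsupp.equivFunOnFinite.symm β ↔ r ≤ β i := by
    rw [Finsupp.single_le_iff]; simp
  have h2 : Finsupp.equivFunOnFinite.symm β - Finsupp.single i r =
      Finsupp.equivFunOnFinite.symm (Function.update β i (β i - r)) := by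
    ext j
    by_cases hj : j = i
    · subst hj; simp
    · simp [hj]
  rw [h2]
  simp only [h1]

lemma anti (N : ℕ) (β : Fin N → ℕ) (w : Perm (Fin N)) (ρ : Multiset ℕ) :
    cf (β ∘ w) ρ = Perm.sign w * cf β ρ := by
  induction ρ using Multiset.induction_on generalizing β with
  | empty =>
    rw [base, base, Finset.mul_sum, ← Equiv.sum_comp (Equiv.mulRight w)]
    refine Finset.sum_congr rfl fun u _ => ?_
    have : (β ∘ w = fun i => ((Equiv.mulRight w u) i : ℕ)) ↔ β = fun i => (u i : ℕ) := by
      constructor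
      · intro h
        funext i
        have := congrFun h (w.symm i)
        simpa using this
      · intro h
        funext i
        simp [h]
    simp only [this]
    split_ifs
    · simp [mul_comm]
    · simp
  | cons r ρ ih =>
    rw [step, step, Finset.mul_sum, ← Equiv.sum_comp w (fun i => (Perm.sign w : ℤ) *
      if r ≤ β i then cf (Function.update β i (β i - r)) ρ else 0)]
    refine Finset.sum_congr rfl fun i _ => ?_
    rw [← Function.update_comp_eq_of_injective β w.injective, ih]
    simp only [Function.comp_apply]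
    split_ifs <;> simp

lemma rep (N : ℕ) (β : Fin N → ℕ) (ρ : Multiset ℕ) (h : ¬ Function.Injective β) :
    cf β ρ = 0 := by
  obtain ⟨i, j, e, hij⟩ := Function.not_injective_iff.1 h
  have h1 : β ∘ swap i j = β := by
    funext k
    simp only [Function.comp_apply]
    rcases eq_or_ne k i with rfl | hi
    · simp [e]
    rcases eq_or_ne k j with rfl | hj
    · simp [e]
    rw [swap_apply_of_ne_of_ne hi hj]
  have h2 := anti N β (swap i j) ρ
  rw [h1, Perm.sign_swap hij] at h2
  simp only [Units.val_neg, Units.val_one] at h2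
  omega

lemma cfS_eq (A : Finset ℕ) (N : ℕ) (h : A.card = N) (ρ : Multiset ℕ) :
    cfS A ρ = cf (A.orderEmbOfFin h) ρ := by
  subst h; rfl

lemma mono (N : ℕ) (β : Fin N → ℕ) (A : Finset ℕ) (ρ : Multiset ℕ) (hβ : StrictMono β)
    (hA : Finset.univ.image β = A) : cfS A ρ = cf β ρ := by
  have h : A.card = N := by
    rw [← hA, Finset.card_image_of_injective _ hβ.injective]; simp
  rw [cfS_eq A N h, ← Finset.orderEmbOfFin_unique h (f := β) (fun x => by rw [← hA]; simp) hβ]

lemma image_val (N : ℕ) (w : Perm (Fin N)) :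
    Finset.univ.image (fun i => (w i : ℕ)) = Finset.range N := by
  ext x
  simp only [Finset.mem_image, Finset.mem_univ, true_and, Finset.mem_range]
  exact ⟨fun ⟨i, h⟩ => h ▸ (w i).2, fun h => ⟨w.symm ⟨x, h⟩, by simp⟩⟩

lemma baseS (A : Finset ℕ) : cfS A 0 = if A = Finset.range A.card then 1 else 0 := by
  split_ifs with h
  · rw [mono A.card (fun i => (i : ℕ)) A 0 Fin.val_strictMono
      (by rw [h, Finset.card_range]; exact image_val _ 1), base,
      Finset.sum_eq_single 1]
    · simp
    · intro w _ hw
      rw [if_neg]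
      intro e
      exact hw (Equiv.ext fun i => Fin.ext (congrFun e i).symm)
    · simp
  · rw [cfS_eq A _ rfl, base]
    refine Finset.sum_eq_zero fun w _ => if_neg fun e => h ?_
    rw [← image_val _ w, ← e, Finset.image_orderEmbOfFin_univ]

/-- sorting an injective tuple. -/
lemma sort (N : ℕ) (γ : Fin N → ℕ) (hγ : Function.Injective γ) (ρ : Multiset ℕ) :
    cf γ ρ = (∏ j, ∏ i ∈ Finset.Iio j, Int.sign ((γ j : ℤ) - γ i)) *
      cfS (Finset.univ.image γ) ρ := by
  have h : (Finset.univ.image γ).card = N := by
    rw [Finset.card_image_of_injective _ hγ]; simp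
  set δ := (Finset.univ.image γ).orderEmbOfFin h with hδ
  have hex : ∀ i, ∃ k, δ k = γ i := fun i => by
    have : γ i ∈ Finset.univ.image δ := by
      rw [hδ, Finset.image_orderEmbOfFin_univ]; simp
    simpa using this
  choose f hf using hex
  have hfi : Function.Injective f := fun a b e => hγ (by rw [← hf, ← hf, e])
  let w : Perm (Fin N) := Equiv.ofBijective f (Finite.injective_iff_bijective.1 hfi)
  have hw : γ = δ ∘ w := funext fun i => (hf i).symm
  have h1 := w.prod_Iio_comp_eq_sign_mul_prod (f := fun i j => Int.sign ((δ j : ℤ) - δ i))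
    (fun i j => by rw [← Int.sign_neg, neg_sub])
  have h2 : (∏ j, ∏ i ∈ Finset.Iio j, Int.sign ((δ j : ℤ) - δ i)) = 1 := by
    refine Finset.prod_eq_one fun j _ => Finset.prod_eq_one fun i hi => ?_
    have := δ.strictMono (Finset.mem_Iio.1 hi)
    exact Int.sign_eq_one_of_pos (by omega)
  rw [cfS_eq _ N h, ← hδ]
  conv_lhs => rw [hw, anti]
  congr 1
  simp only [h2, mul_one] at h1
  rw [hw]
  simpa using h1.symm

lemma stepS (A : Finset ℕ) (r : ℕ) (ρ : Multiset ℕ) (hr : 0 < r) : cfS A (r ::ₘ ρ) =
    ∑ x ∈ A with (r ≤ x ∧ x - r ∉ A), (-1) ^ (A.filter fun y => x - r < y ∧ y < x).card *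
      cfS (insert (x - r) (A.erase x)) ρ := by
  classical
  set N := A.card
  set β := A.orderEmbOfFin (k := N) rfl with hβ
  have hA : Finset.univ.image β = A := Finset.image_orderEmbOfFin_univ A rfl
  have hmem : ∀ y, y ∈ A ↔ ∃ k, β k = y := fun y => by rw [← hA]; simp
  rw [cfS_eq A N rfl, ← hβ, step, Finset.sum_filter]
  conv_rhs => rw [← hA, Finset.sum_image (fun a _ b _ e => β.injective e), hA]
  refine Finset.sum_congr rfl fun i _ => ?_
  by_cases h1 : r ≤ β i
  swap
  · simp [h1]
  by_cases h2 : β i - r ∈ A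
  · rw [if_pos h1, if_neg (by simp [h2])]
    apply rep
    obtain ⟨k, hk⟩ := (hmem _).1 h2
    have hki : k ≠ i := by rintro rfl; omega
    intro hinj
    exact hki (hinj (by simp [hki, hk]))
  rw [if_pos h1, if_pos ⟨h1, h2⟩]
  have hne : ∀ k, β k ≠ β i - r := fun k e => h2 ((hmem _).2 ⟨k, e⟩)
  have hinj : Function.Injective (Function.update β i (β i - r)) := by
    intro a b e
    by_cases ha : a = i <;> by_cases hb : b = i
    · rw [ha, hb]
    · subst ha; simp only [Function.update_self, Function.update_of_ne hb] at e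
      exact absurd e.symm (hne b)
    · subst hb; simp only [Function.update_self, Function.update_of_ne ha] at e
      exact absurd e (hne a)
    · simp only [Function.update_of_ne ha, Function.update_of_ne hb] at e
      exact β.injective e
  have himg : Finset.univ.image (Function.update β i (β i - r)) =
      insert (β i - r) (A.erase (β i)) := by
    ext y
    simp only [Finset.mem_image, Finset.mem_univ, true_and, Finset.mem_insert, Finset.mem_erase,
      hmem]
    constructor
    · rintro ⟨k, rfl⟩
      by_cases hk : k = i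
      · subst hk; simp
      · right
        rw [Function.update_of_ne hk]
        exact ⟨fun e => hk (β.injective e), k, rfl⟩
    · rintro (rfl | ⟨h, k, rfl⟩)
      · exact ⟨i, by simp⟩
      · exact ⟨k, Function.update_of_ne (fun e => h (by rw [e])) _ _⟩
  rw [sort N _ hinj, himg]
  congr 1
  rw [Finset.prod_eq_single i]
  · have hc : (A.filter fun y => β i - r < y ∧ y < β i) =
        ((Finset.Iio i).filter fun k => β i - r < β k).image β := by
      ext y
      simp only [Finset.mem_filter, hmem, Finset.mem_image, Finset.mem_Iio]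
      constructor
      · rintro ⟨⟨k, rfl⟩, h3, h4⟩
        exact ⟨k, ⟨β.lt_iff_lt.1 h4, h3⟩, rfl⟩
      · rintro ⟨k, ⟨h3, h4⟩, rfl⟩
        exact ⟨⟨k, rfl⟩, h4, β.lt_iff_lt.2 h3⟩
    rw [hc, Finset.card_image_of_injective _ β.injective, ← Finset.prod_const,
      Finset.prod_filter]
    refine Finset.prod_congr rfl fun k hk => ?_
    rw [Function.update_self, Function.update_of_ne (Finset.mem_Iio.1 hk).ne]
    have := hne k
    split_ifs with h3
    · exact Int.sign_eq_neg_one_of_neg (by omega)
    · exact Int.sign_eq_one_of_pos (by omega)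
  · intro j _ hj
    refine Finset.prod_eq_one fun k hk => ?_
    have h3 := β.strictMono (Finset.mem_Iio.1 hk)
    rw [Function.update_of_ne hj]
    by_cases hki : k = i
    · subst hki
      rw [Function.update_self]
      exact Int.sign_eq_one_of_pos (by omega)
    · rw [Function.update_of_ne hki]
      exact Int.sign_eq_one_of_pos (by omega)
  · simp

lemma mem_bs (N : ℕ) (A B : Finset ℕ) (y : ℕ) :
    y ∈ bs N (A, B) ↔ (∃ a ∈ A, a + N = y) ∨ (y < N ∧ ∀ b ∈ B, N - 1 - b ≠ y) := by
  simp [bs]

end Mn

theorem mnSt : MnSt :=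
  ⟨Mn.base, Mn.step, Mn.anti, Mn.rep, Mn.mono, Mn.baseS, Mn.stepS⟩

theorem nsE (hmn : MnSt) : NsESt := by
  intro N A
  induction A using Finset.induction_on_max with
  | empty =>
    intro _
    have : bs N (∅, ∅) = Finset.range N := by simp [bs]
    rw [this, hk, Finset.empty_val, Multiset.map_zero, hmn.baseS]
    simp
  | insert a s ha ih =>
    intro hA
    have haN : a < N := hA a (by simp)
    have has : a ∉ s := fun h => lt_irrefl _ (ha a h)
    have h1 : hk (insert a s) = (2 * a + 1) ::ₘ hk s := by
      rw [hk, Finset.insert_val_of_notMem has, Multiset.map_cons, hk]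
    have h2 : ((bs N (insert a s, insert a s)).filter fun x =>
        2 * a + 1 ≤ x ∧ x - (2 * a + 1) ∉ bs N (insert a s, insert a s)) = {a + N} := by
      ext x
      simp only [Finset.mem_filter, Mn.mem_bs, Finset.mem_singleton, Finset.mem_insert]
      constructor
      · rintro ⟨h3, h4, h5⟩
        have hx : x ≤ a + N := by
          rcases h3 with ⟨b, hb, rfl⟩ | ⟨h, -⟩
          · rcases hb with rfl | hb
            · exact le_rfl
            · have := ha b hb; omega
          · omega
        by_contra hne
        refine h5 (Or.inr ⟨by omega, fun b hb => ?_⟩)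
        rcases hb with rfl | hb
        · omega
        · have := ha b hb; omega
      · rintro rfl
        refine ⟨Or.inl ⟨a, Or.inl rfl, rfl⟩, by omega, ?_⟩
        rintro (⟨b, -, hb⟩ | ⟨-, h⟩)
        · omega
        · exact h a (Or.inl rfl) (by omega)
    have h3 : insert (a + N - (2 * a + 1)) ((bs N (insert a s, insert a s)).erase (a + N)) =
        bs N (s, s) := by
      ext y
      simp only [Finset.mem_insert, Finset.mem_erase, Mn.mem_bs]
      constructor
      · rintro (rfl | ⟨h, ⟨b, hb, rfl⟩ | ⟨h4, h5⟩⟩)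
        · exact Or.inr ⟨by omega, fun b hb => by have := ha b hb; omega⟩
        · rcases hb with rfl | hb
          · exact absurd rfl h
          · exact Or.inl ⟨b, hb, rfl⟩
        · exact Or.inr ⟨h4, fun b hb => h5 b (Or.inr hb)⟩
      · rintro (⟨b, hb, rfl⟩ | ⟨h4, h5⟩)
        · exact Or.inr ⟨by have := ha b hb; omega, Or.inl ⟨b, Or.inr hb, rfl⟩⟩
        · by_cases hy : y = a + N - (2 * a + 1)
          · exact Or.inl hy
          · refine Or.inr ⟨by omega, Or.inr ⟨h4, fun b hb => ?_⟩⟩
            rcases hb with rfl | hb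
            · omega
            · exact h5 b hb
    rw [h1, hmn.stepS _ _ _ (by omega), h2, Finset.sum_singleton, h3, mul_pow,
      ih fun b hb => hA b (by simp [hb]), ← pow_mul, mul_comm _ 2, pow_mul]
    simp

end Pool.Agent.Lib.MP_1ae3da_al.GM
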