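import Pool.Agent.Lib.MP_1ae3da_al.GT

/-! Quasi-elementary groups are monomial. -/

namespace Pool.Agent.Lib.MP_1ae3da_al.GM

open Equiv Module

namespace Mon

/-- induction from a subgroup, written with the extension by zero. -/
lemma ind_ext {G : Type} [Group G] [Fintype G] [DecidableEq G] (I : Subgroup G) [Fintype I]
    (ψ : I → K) (φ : G → K) (h1 : ∀ x : I, φ x = ψ x) (h0 : ∀ x, x ∉ I → φ x = 0) (g : G) :
    ind I.subtype ψ g = (Fintype.card I : K)⁻¹ * ∑ y : G, φ (y⁻¹ * g * y) := by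
  classical
  unfold ind
  congr 1
  simp only [nc, Finset.card_filter, Nat.cast_sum, Finset.mul_sum]
  rw [Finset.sum_comm]
  refine Finset.sum_congr rfl fun y _ => ?_
  by_cases hy : y⁻¹ * g * y ∈ I
  · rw [Finset.sum_eq_single (⟨_, hy⟩ : I)]
    · rw [if_pos (by simp [mul_assoc]), ← h1]; simp
    · intro x _ hx
      rw [if_neg]
      · simp
      · intro e
        apply hx
        apply Subtype.ext
        simp only [Subgroup.coe_subtype] at e
        simp [mul_assoc, e]
    · simp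
  · rw [h0 _ hy]
    refine Finset.sum_eq_zero fun x _ => ?_
    rw [if_neg]
    · simp
    · intro e
      apply hy
      simp only [Subgroup.coe_subtype] at e
      have : y⁻¹ * g * y = x := by simp [mul_assoc, e]
      rw [this]; exact x.2

lemma ind_add {C G : Type} [Group C] [Group G] [Fintype C] [Fintype G] [DecidableEq G]
    (f : C →* G) (a b : C → K) : ind f (a + b) = ind f a + ind f b := by
  funext g
  simp only [ind, Pi.add_apply, add_mul, Finset.sum_add_distrib, mul_add]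

/-- an element that is not scalar and whose eigenspaces are permuted gives a proper subgroup from
which the character is induced. -/
lemma imprim (hch : ChSt) {G : Type} [Group G] [Fintype G] [DecidableEq G] {n : ℕ}
    (ρ : Representation K G (Fin n → K)) (hρ : ρ.IsIrreducible) (a : G)
    (ha : ¬ ∃ c : K, ∀ v, ρ a v = c • v)
    (hp : ∀ (g : G) (c : K), ∃ c' : K, ∀ v, ρ a v = c • v → ρ a (ρ g v) = c' • ρ g v) :
    ∃ (I : Subgroup G) (_ : Fintype I) (ψ : I → K), I ≠ ⊤ ∧ ψ ∈ Ch I ∧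
      ρ.character = ind I.subtype ψ := by
  classical
  have := nontrivial_of_irr ρ hρ
  obtain ⟨c, hc⟩ := Module.End.exists_eigenvalue (ρ a)
  set W : Submodule K (Fin n → K) := Module.End.eigenspace (ρ a) c with hW
  have hWm : ∀ v, v ∈ W ↔ ρ a v = c • v := fun v => Module.End.mem_eigenspace_iff
  have hW0 : W ≠ ⊥ := hc
  have hW1 : W ≠ ⊤ := fun h => ha ⟨c, fun v => (hWm v).1 (h ▸ trivial)⟩
  let I0 : Submonoid G :=
    { carrier := {g | ∀ v ∈ W, ρ g v ∈ W}
      one_mem' := fun v hv => by simpa using hv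
      mul_mem' := fun {x y} hx hy v hv => by
        rw [map_mul]; exact hx _ (hy v hv) }
  let I : Subgroup G :=
    { toSubmonoid := I0
      inv_mem' := fun {g} hg => by
        have h1 : g⁻¹ = g ^ (orderOf g - 1) := by
          rw [inv_eq_iff_mul_eq_one, ← pow_succ', Nat.sub_add_cancel (orderOf_pos g),
            pow_orderOf_eq_one]
        rw [h1]
        exact I0.pow_mem hg _ }
  have hI : ∀ g, g ∈ I ↔ ∀ v ∈ W, ρ g v ∈ W := fun g => Iff.rfl
  have hdis : Disjoint (⨆ (c' : K) (_ : c' ≠ c), Module.End.eigenspace (ρ a) c') W :=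
    (Module.End.eigenspaces_iSupIndep (ρ a) c).symm
  obtain ⟨U, hU, hcU⟩ := hdis.exists_isCompl
  let P : (Fin n → K) →ₗ[K] (Fin n → K) := W.projection U hcU.symm
  have hP1 : ∀ v, P v ∈ W := Submodule.projection_apply_mem hcU.symm
  have hP2 : ∀ v ∈ W, P v = v := fun v hv => Submodule.projection_apply_of_mem_left hcU.symm hv
  have hP3 : ∀ g, g ∉ I → ∀ v ∈ W, P (ρ g v) = 0 := by
    intro g hg v hv
    obtain ⟨c', hc'⟩ := hp g c
    have hne : c' ≠ c := by
      rintro rfl
      exact hg fun w hw => (hWm _).2 (hc' w ((hWm w).1 hw))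
    refine Submodule.projection_apply_of_mem_right hcU.symm (hU ?_)
    exact Submodule.mem_iSup_of_mem c' (Submodule.mem_iSup_of_mem hne
      (Module.End.mem_eigenspace_iff.2 (hc' v ((hWm v).1 hv))))
  let ρI : Representation K I (Fin n → K) := ρ.comp I.subtype
  let S : Subrepresentation ρI := ⟨W, fun g v hv => g.2 v hv⟩
  refine ⟨I, inferInstance, S.toRepresentation.character, ?_, (hch.b I).rep _ _, ?_⟩
  · intro h
    rcases inv_eq_bot_or_top ρ hρ W (fun g v hv => (hI g).1 (h ▸ trivial) v hv) with h | h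
    · exact hW0 h
    · exact hW1 h
  funext g
  rw [ind_ext I _ (fun x => LinearMap.trace K _ (ρ x * P))
    (fun x => (char_sub ρI S P hP1 hP2 x).symm) ?_ g]
  · obtain ⟨t, ht⟩ := schur ρ hρ (∑ y : G, ρ y * P * ρ y⁻¹) (by
      intro h v
      simp only [LinearMap.sum_apply, map_sum]
      symm
      refine Fintype.sum_equiv (Equiv.mulLeft h) _ _ fun y => ?_
      simp only [Equiv.coe_mulLeft, Module.End.mul_apply, mul_inv_rev, map_mul]
      rw [← Module.End.mul_apply (ρ h⁻¹), ← map_mul, inv_mul_cancel, map_one]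
      rfl)
    obtain ⟨w, hw, hw0⟩ := Submodule.exists_mem_ne_zero_of_ne_bot hW0
    have htI : t = Fintype.card I := by
      have h1 := ht w
      rw [LinearMap.sum_apply] at h1
      have h2 : ∀ y : G, (ρ y * P * ρ y⁻¹) w = if y ∈ I then w else 0 := by
        intro y
        simp only [Module.End.mul_apply]
        split_ifs with hy
        · rw [hP2 _ ((hI _).1 (I.inv_mem hy) w hw), ← Module.End.mul_apply, ← map_mul,
            mul_inv_cancel, map_one]
          rfl
        · rw [hP3 _ (fun h => hy (by simpa using I.inv_mem h)) w hw, map_zero]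
      rw [Finset.sum_congr rfl fun y _ => h2 y, ← Finset.sum_filter, Finset.sum_const,
        ← Nat.cast_smul_eq_nsmul K] at h1
      rw [Fintype.card_subtype]
      exact (smul_left_injective K hw0 h1).symm
    have h3 : ∑ y : G, LinearMap.trace K _ (ρ (y⁻¹ * g * y) * P) =
        LinearMap.trace K _ (ρ g * ∑ y : G, ρ y * P * ρ y⁻¹) := by
      rw [Finset.mul_sum, map_sum]
      refine Finset.sum_congr rfl fun y _ => ?_
      rw [map_mul ρ, map_mul ρ, mul_assoc, mul_assoc, LinearMap.trace_mul_comm]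
      simp only [mul_assoc]
    have h4 : ∑ y : G, ρ y * P * ρ y⁻¹ = t • (1 : Module.End K (Fin n → K)) :=
      LinearMap.ext fun v => ht v
    have hc0 : (Fintype.card I : K) ≠ 0 := Nat.cast_ne_zero.mpr Fintype.card_ne_zero
    rw [h3, h4, mul_smul_comm, mul_one, map_smul, htI, smul_eq_mul, ← mul_assoc,
      inv_mul_cancel₀ hc0, one_mul]
    rfl
  · intro x hx
    have hPP : P * P = P := LinearMap.ext fun v => hP2 _ (hP1 v)
    have h0 : P * (ρ x * P) = 0 := LinearMap.ext fun v => hP3 x hx _ (hP1 v)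
    change LinearMap.trace K _ (ρ x * P) = 0
    rw [← hPP, ← mul_assoc, LinearMap.trace_mul_comm, h0, map_zero]

/-- an irreducible character induced from a character is induced from an irreducible one. -/
lemma to_irr (hch : ChSt) {G : Type} [Group G] [Fintype G] [DecidableEq G] (I : Subgroup G)
    [Fintype I] (ψ : I → K) (hψ : ψ ∈ Ch I) (χ : G → K) (hχ : χ ∈ Irr G)
    (h : χ = ind I.subtype ψ) : ∃ θ ∈ Irr I, χ = ind I.subtype θ := by
  classical
  have hA := hch.a G
  have hI := hch.a I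
  have hH := hch.h I G I.subtype
  have hψ0 : ψ ≠ 0 := by
    rintro rfl
    obtain ⟨n, hn⟩ := hχ
    have h1 := hn.one
    have h2 := hn.pos
    rw [h, hH.ind_one I.subtype_injective] at h1
    simp only [Pi.zero_apply, mul_zero] at h1
    have : n = 0 := by exact_mod_cast h1.symm
    omega
  obtain ⟨θ, hθ, hne⟩ : ∃ θ ∈ Irr I, ip ψ θ ≠ 0 := by
    by_contra hcon
    push Not at hcon
    exact hψ0 (hI.compl ψ (hI.cl ψ (hI.ch_vc ψ hψ)) hcon)
  refine ⟨θ, hθ, ?_⟩
  have hu := hH.ind_ch θ (hI.irr_ch θ hθ)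
  have hv := hH.ind_ch _ (hI.ch_sub ψ hψ θ hθ hne)
  have hs : χ = ind I.subtype θ + ind I.subtype (ψ - θ) := by
    rw [← ind_add, add_sub_cancel, h]
  have hu0 : ind I.subtype θ ≠ 0 := by
    intro e
    obtain ⟨n, hn⟩ := hθ
    have h1 := hH.ind_one I.subtype_injective θ
    rw [e, hn.one] at h1
    have h2 : (I.subtype.range.index : K) ≠ 0 :=
      Nat.cast_ne_zero.mpr Subgroup.index_ne_zero_of_finite
    have h3 : (n : K) ≠ 0 := Nat.cast_ne_zero.mpr hn.pos.ne'
    exact mul_ne_zero h2 h3 h1.symm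
  obtain ⟨hcu, hu'⟩ := (hA.ch_iff _).1 hu
  obtain ⟨hcv, hv'⟩ := (hA.ch_iff _).1 hv
  have key : ∀ η ∈ Irr G, η ≠ χ → ip (ind I.subtype θ) η = 0 ∧ ip (ind I.subtype (ψ - θ)) η = 0 := by
    intro η hη hne
    obtain ⟨a, ha⟩ := hu' η hη
    obtain ⟨b, hb⟩ := hv' η hη
    have h0 := hA.orth0 χ hχ η hη hne.symm
    rw [hs, ip_add_left, ha, hb] at h0
    have h1 : a + b = 0 := by exact_mod_cast h0
    have ha0 : a = 0 := by omega
    have hb0 : b = 0 := by omega
    rw [ha, hb, ha0, hb0]; simp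
  obtain ⟨a, ha⟩ := hu' χ hχ
  obtain ⟨b, hb⟩ := hv' χ hχ
  have h0 : ip (ind I.subtype θ + ind I.subtype (ψ - θ)) χ = 1 := by
    rw [← hs]; exact hA.orth1 χ hχ
  rw [ip_add_left, ha, hb] at h0
  have h1 : a + b = 1 := by exact_mod_cast h0
  have ha0 : a ≠ 0 := by
    rintro rfl
    refine hu0 (hA.compl _ hcu fun η hη => ?_)
    by_cases e : η = χ
    · rw [e, ha]; simp
    · exact (key η hη e).1
  have hb0 : b = 0 := by omega
  have : ind I.subtype (ψ - θ) = 0 := by
    refine hA.compl _ hcv fun η hη => ?_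
    by_cases e : η = χ
    · rw [e, hb, hb0]; simp
    · exact (key η hη e).2
  rw [hs, this, add_zero]

lemma qe_sub {G : Type} [Group G] (h : QE G) (I : Subgroup G) : QE I := by
  obtain ⟨l, C, hC, hl, hcyc, hp⟩ := h
  refine ⟨l, C.subgroupOf I, inferInstance, hl, ?_, ?_⟩
  · let f : C.subgroupOf I →* C :=
      { toFun := fun x => ⟨x.1.1, x.2⟩
        map_one' := rfl
        map_mul' := fun _ _ => rfl }
    exact isCyclic_of_injective f fun x y e =>
      Subtype.ext (Subtype.ext (congrArg (fun z : C => (z : G)) e))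
  · intro q
    obtain ⟨x, rfl⟩ := QuotientGroup.mk_surjective q
    obtain ⟨k, hk⟩ := hp (QuotientGroup.mk (x : G))
    refine ⟨k, ?_⟩
    rw [← QuotientGroup.mk_pow, QuotientGroup.eq_one_iff] at hk ⊢
    exact hk

/-- the elements that act as scalars. -/
def scal {G : Type} [Group G] {n : ℕ} (ρ : Representation K G (Fin n → K)) : Subgroup G where
  carrier := {g | ∃ c : Kˣ, ∀ v, ρ g v = (c : K) • v}
  one_mem' := ⟨1, fun v => by simp⟩
  mul_mem' := by
    rintro x y ⟨c, hc⟩ ⟨d, hd⟩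
    exact ⟨c * d, fun v => by
      rw [map_mul, Module.End.mul_apply, hd, map_smul, hc, Units.val_mul, smul_smul, mul_comm]⟩
  inv_mem' := by
    rintro x ⟨c, hc⟩
    refine ⟨c⁻¹, fun v => ?_⟩
    have h1 : ρ x⁻¹ (ρ x v) = v := by
      rw [← Module.End.mul_apply, ← map_mul, inv_mul_cancel, map_one]; rfl
    rw [hc, map_smul] at h1
    conv_rhs => rw [← h1]
    rw [smul_smul, Units.inv_mul, one_smul]

instance scal_normal {G : Type} [Group G] {n : ℕ} (ρ : Representation K G (Fin n → K)) :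
    (scal ρ).Normal := ⟨by
  rintro x ⟨c, hc⟩ g
  refine ⟨c, fun v => ?_⟩
  rw [map_mul, map_mul, Module.End.mul_apply, Module.End.mul_apply, hc, map_smul,
    ← Module.End.mul_apply (ρ g), ← map_mul, mul_inv_cancel, map_one]
  rfl⟩

lemma mem_scal {G : Type} [Group G] {n : ℕ} (ρ : Representation K G (Fin n → K))
    (hρ : ρ.IsIrreducible) (g : G) (c : K) (h : ∀ v, ρ g v = c • v) : g ∈ scal ρ := by
  have := nontrivial_of_irr ρ hρ
  have hc : c ≠ 0 := by
    rintro rfl
    obtain ⟨v, hv⟩ := exists_ne (0 : Fin n → K)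
    apply hv
    have h1 : ρ g⁻¹ (ρ g v) = v := by
      rw [← Module.End.mul_apply, ← map_mul, inv_mul_cancel, map_one]; rfl
    rw [h, zero_smul, map_zero] at h1
    exact h1.symm
  exact ⟨Units.mk0 c hc, h⟩

lemma conj_apply {G : Type} [Group G] {n : ℕ} (ρ : Representation K G (Fin n → K)) (a g : G)
    (v : Fin n → K) : ρ a (ρ g v) = ρ g (ρ (g⁻¹ * a * g) v) := by
  rw [← Module.End.mul_apply, ← map_mul, ← Module.End.mul_apply, ← map_mul]
  congr 2
  group

/-- the dichotomy for a quasi-elementary group. -/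
lemma dich {G : Type} [Group G] [Fintype G] (h : QE G) {n : ℕ}
    (ρ : Representation K G (Fin n → K)) (hρ : ρ.IsIrreducible) :
    n = 1 ∨ ∃ a : G, (¬ ∃ c : K, ∀ v, ρ a v = c • v) ∧
      ∀ (g : G) (c : K), ∃ c' : K, ∀ v, ρ a v = c • v → ρ a (ρ g v) = c' • ρ g v := by
  classical
  obtain ⟨l, C, hC, hl, hcyc, hp⟩ := h
  by_cases htop : scal ρ = ⊤
  · left
    have := nontrivial_of_irr ρ hρ
    obtain ⟨v, hv⟩ := exists_ne (0 : Fin n → K)
    rcases inv_eq_bot_or_top ρ hρ (Submodule.span K {v}) (fun g w hw => by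
      obtain ⟨c, hc⟩ : g ∈ scal ρ := htop ▸ trivial
      rw [hc]; exact Submodule.smul_mem _ _ hw) with h | h
    · exact absurd (Submodule.span_singleton_eq_bot.1 h) hv
    · have h1 := finrank_span_singleton (K := K) hv
      rw [h, finrank_top, Module.finrank_fin_fun] at h1
      exact h1
  right
  by_cases hle : C ≤ scal ρ
  · have : Fact l.Prime := ⟨hl⟩
    have hq : IsPGroup l (G ⧸ scal ρ) := by
      intro q
      obtain ⟨x, rfl⟩ := QuotientGroup.mk_surjective q
      obtain ⟨k, hk⟩ := hp (QuotientGroup.mk (x : G))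
      refine ⟨k, ?_⟩
      rw [← QuotientGroup.mk_pow, QuotientGroup.eq_one_iff] at hk ⊢
      exact hle hk
    have : Nontrivial (G ⧸ scal ρ) := QuotientGroup.nontrivial_iff.2 htop
    have := hq.center_nontrivial
    obtain ⟨⟨q, hq1⟩, hq2⟩ := exists_ne (1 : Subgroup.center (G ⧸ scal ρ))
    obtain ⟨a, rfl⟩ := QuotientGroup.mk_surjective q
    refine ⟨a, ?_, fun g c => ?_⟩
    · rintro ⟨c, hc⟩
      exact hq2 (Subtype.ext ((QuotientGroup.eq_one_iff a).2 (mem_scal ρ hρ a c hc)))
    · have h1 : a⁻¹ * (g⁻¹ * a * g) ∈ scal ρ := by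
        rw [← QuotientGroup.eq, QuotientGroup.mk_mul, QuotientGroup.mk_mul,
          Subgroup.mem_center_iff.1 hq1, mul_assoc, QuotientGroup.mk_inv, inv_mul_cancel, mul_one]
      obtain ⟨d, hd⟩ := h1
      refine ⟨d * c, fun v hv => ?_⟩
      have h2 : g⁻¹ * a * g = a * (a⁻¹ * (g⁻¹ * a * g)) := by group
      rw [conj_apply, h2, map_mul, Module.End.mul_apply, hd, map_smul, hv, smul_smul, map_smul]
  · obtain ⟨⟨a, haC⟩, ha⟩ := IsCyclic.exists_monoid_generator (α := C)
    have hpow : ∀ x ∈ C, ∃ k : ℕ, a ^ k = x := by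
      intro x hx
      obtain ⟨k, hk⟩ := ha ⟨x, hx⟩
      exact ⟨k, congrArg Subtype.val hk⟩
    refine ⟨a, ?_, fun g c => ?_⟩
    · rintro ⟨c, hc⟩
      refine hle fun x hx => ?_
      obtain ⟨k, rfl⟩ := hpow x hx
      exact (scal ρ).pow_mem (mem_scal ρ hρ a c hc) k
    · obtain ⟨k, hk⟩ := hpow (g⁻¹ * a * g) (by simpa using hC.conj_mem a haC g⁻¹)
      refine ⟨c ^ k, fun v hv => ?_⟩
      have h2 : ∀ m : ℕ, ρ (a ^ m) v = c ^ m • v := by
        intro m
        induction m with
        | zero => simp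
        | succ m ih =>
          rw [pow_succ', map_mul, Module.End.mul_apply, ih, map_smul, hv, smul_smul, pow_succ]
      rw [conj_apply, ← hk, h2, map_smul]

lemma main (hch : ChSt) (N : ℕ) : ∀ (G : Type) [Group G] [Fintype G] [DecidableEq G],
    Fintype.card G = N → QE G → ∀ χ ∈ Irr G, ∃ (D : Type) (_ : Group D) (_ : Fintype D)
      (f : D →* G) (l : D →* K), Function.Injective f ∧ χ = ind f ⇑l := by
  induction N using Nat.strong_induction_on with
  | _ N ih =>
  intro G _ _ _ hN hq χ hχ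
  classical
  obtain ⟨n, ρ, hρ, rfl⟩ := hχ
  rcases dich hq ρ hρ with rfl | ⟨a, ha, hp⟩
  · obtain ⟨l, hl⟩ := (hch.b G).lin1 ρ.character ⟨ρ, hρ, rfl⟩
    refine ⟨(⊤ : Subgroup G), inferInstance, inferInstance, (⊤ : Subgroup G).subtype,
      l.comp (⊤ : Subgroup G).subtype, Subgroup.subtype_injective _, ?_⟩
    funext g
    rw [ind_ext ⊤ (l.comp (⊤ : Subgroup G).subtype) l (fun _ => rfl)
      (fun x hx => absurd trivial hx), hl]
    have h1 : ∀ y : G, l (y⁻¹ * g * y) = l g := by
      intro y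
      rw [map_mul, map_mul, mul_comm, ← mul_assoc, ← map_mul, mul_inv_cancel, map_one, one_mul]
    have h2 : Fintype.card (⊤ : Subgroup G) = Fintype.card G :=
      Fintype.card_congr Subgroup.topEquiv.toEquiv
    have hc0 : (Fintype.card G : K) ≠ 0 := Nat.cast_ne_zero.mpr Fintype.card_ne_zero
    simp only [h1, Finset.sum_const, Finset.card_univ, nsmul_eq_mul, h2]
    rw [← mul_assoc, inv_mul_cancel₀ hc0, one_mul]
  · obtain ⟨I, _, ψ, hI, hψ, e⟩ := imprim hch ρ hρ a ha hp
    obtain ⟨θ, hθ, e'⟩ := to_irr hch I ψ hψ ρ.character ⟨n, ρ, hρ, rfl⟩ e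
    have hlt : Fintype.card I < N := by
      rw [← hN, ← Nat.card_eq_fintype_card, ← Nat.card_eq_fintype_card]
      refine lt_of_le_of_ne I.card_le_card_group fun h => hI ?_
      exact Subgroup.eq_top_of_card_eq I h
    obtain ⟨D, _, _, f, l, hf, hl⟩ := ih _ hlt I rfl (qe_sub hq I) θ hθ
    refine ⟨D, inferInstance, inferInstance, I.subtype.comp f, l,
      I.subtype_injective.comp hf, ?_⟩
    rw [e', hl, (hch.h I G I.subtype).ind_ind]

end Mon

theorem mon (hch : ChSt) : MonSt := by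
  intro G _ _ _ hq χ hχ
  classical
  obtain ⟨D, _, _, f, l, hf, e⟩ := Mon.main hch _ G rfl hq χ hχ
  let E : D ≃* f.range := MonoidHom.ofInjective hf
  refine ⟨f.range, inferInstance, l.comp E.symm.toMonoidHom, ?_⟩
  rw [e]
  funext g
  unfold ind
  rw [Fintype.card_congr E.toEquiv]
  congr 1
  refine Fintype.sum_equiv E.toEquiv _ _ fun x => ?_
  simp [E, MonoidHom.ofInjective_apply]

end Pool.Agent.Lib.MP_1ae3da_al.GM
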