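import Pool.Agent.Lib.MP_1ae3da_al.GT

/-! The irreducible characters of the symmetric groups. -/

namespace Pool.Agent.Lib.MP_1ae3da_al.GM

open Equiv

namespace Ns

lemma lt1 {n : ℕ} {w : Finset ℕ × Finset ℕ} (hw : w ∈ PT n) : ∀ a ∈ w.1, a < n := by
  intro a ha
  have h1 : id a ≤ w.1.sum id := Finset.single_le_sum (fun _ _ => Nat.zero_le _) ha
  have h2 : 0 < w.1.card := Finset.card_pos.2 ⟨a, ha⟩
  have h3 := hw.2
  simp only [id] at h1 h3 ⊢
  omega

lemma lt2 {n : ℕ} {w : Finset ℕ × Finset ℕ} (hw : w ∈ PT n) : ∀ a ∈ w.2, a < n := by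
  intro a ha
  have h1 : id a ≤ w.2.sum id := Finset.single_le_sum (fun _ _ => Nat.zero_le _) ha
  have h2 : 0 < w.2.card := Finset.card_pos.2 ⟨a, ha⟩
  have h3 := hw.2
  have h4 := hw.1
  simp only [id] at h1 h3 ⊢
  omega

lemma li {G : Type} [Group G] [Fintype G] (ha : ChA G) :
    LinearIndependent K fun χ : Irr G => χ.1 := by
  classical
  rw [linearIndependent_iff']
  intro s a h χ hχ
  have h1 := congrArg (fun f => ip f χ.1) h
  simp only [ip_sum_left, ip_smul_left] at h1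
  rw [Finset.sum_eq_single χ, ha.orth1 _ χ.2, mul_one] at h1
  · rw [h1]; simp [ip]
  · intro ψ _ hne
    rw [ha.orth0 _ ψ.2 _ χ.2 fun e => hne (Subtype.ext e), mul_zero]
  · exact fun h => absurd hχ h

lemma card_le {G : Type} [Group G] [Fintype G] (ha : ChA G) (T : Type) [Finite T] (φ : G → T)
    (r : T → G) (h : ∀ g, IsConj (r (φ g)) g) : (Irr G).ncard ≤ Nat.card T := by
  have := ha.fin.fintype
  have := Fintype.ofFinite T
  have h1 : LinearIndependent K fun χ : Irr G => χ.1 ∘ r := by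
    refine LinearIndependent.of_comp (LinearMap.funLeft K K φ) ?_
    convert li ha using 1
    funext χ g
    obtain ⟨c, hc⟩ := isConj_iff.1 (h g)
    change χ.1 (r (φ g)) = χ.1 g
    conv_rhs => rw [← hc]
    exact (ha.cl _ (ha.ch_vc _ (ha.irr_ch _ χ.2)) _ _).symm
  have h2 := h1.fintype_card_le_finrank
  rwa [Module.finrank_fintype_fun_eq_card, ← Nat.card_eq_fintype_card, Nat.card_coe_set_eq,
    ← Nat.card_eq_fintype_card] at h2

end Ns

theorem ns (hch : ChSt) (hpa : PermASt) (hav : AvSt) (hnA : NsASt) (hnB : NsBSt) (hnC : NsCSt)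
    (hnD : NsDSt) (hnE : NsESt) (hsh : ShSt) (hcnt : CntSt) : NsSt := by
  intro Ω _ _
  have hP := hpa Ω
  have hA := hch.a (Perm Ω)
  set n := Fintype.card Ω with hn
  set c : Finset ℕ × Finset ℕ → Perm Ω → K := fun w g => (cfS (bs n w) (ty g) : K) with hc
  have hb : ∀ w ∈ PT n, (bs n w).card = n ∧ (bs n w).sum id = n + n.choose 2 ∧
      (∏ a ∈ bs n w, a.factorial) * (Vd w.1 * Vd w.2) = Hn w * Vd (bs n w) := by
    intro w hw
    have h := hsh.bsz n w hw.1 (Ns.lt2 hw)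
    rwa [((hsh.pt n w).1 hw).2] at h
  have hvc : ∀ w, c w ∈ VC (Perm Ω) := fun w => hnA Ω _ _
  have hip : ∀ w ∈ PT n, ∀ w' ∈ PT n, ip (c w) (c w') = if bs n w = bs n w' then 1 else 0 := by
    intro w hw w' hw'
    obtain ⟨a1, a2, -⟩ := hb w hw
    obtain ⟨b1, b2, -⟩ := hb w' hw'
    rw [← hnB n _ _ (b1.trans a1.symm) (by rw [a1, a2]) (by rw [a1, b2]), ← hP.dict, ip,
      Nat.card_perm, Nat.card_eq_fintype_card]
    simp only [hc, hP.inv, hn]
  have hdeg : ∀ w ∈ PT n, cfS (bs n w) (ty (1 : Perm Ω)) * (Hn w : ℤ) =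
      (n.factorial * (Vd w.1 * Vd w.2) : ℕ) := by
    intro w hw
    obtain ⟨a1, a2, a3⟩ := hb w hw
    have h1 := hnC n (bs n w) (by rw [a1, a2])
    have h2 : (Vd (bs n w) : ℤ) ≠ 0 := by exact_mod_cast (hsh.pos (bs n w, ∅)).2.1.ne'
    apply mul_right_cancel₀ h2
    rw [hP.one, mul_assoc, ← Nat.cast_mul, ← a3, Nat.cast_mul, ← mul_assoc, h1]
    push_cast; ring
  have hmaps : Set.MapsTo c (PT n) (Irr (Perm Ω)) := by
    intro w hw
    refine (hA.norm_one _ (hvc w) (by rw [hip w hw w hw, if_pos rfl])).resolve_right ?_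
    rintro ⟨m, hm⟩
    have h1 : -(cfS (bs n w) (ty (1 : Perm Ω)) : K) = m := hm.one
    have h2 : cfS (bs n w) (ty (1 : Perm Ω)) = -m := by
      have : -cfS (bs n w) (ty (1 : Perm Ω)) = m := by exact_mod_cast h1
      omega
    have h3 := hdeg w hw
    have h4 : 0 < n.factorial * (Vd w.1 * Vd w.2) :=
      Nat.mul_pos n.factorial_pos (Nat.mul_pos (hsh.pos w).2.1 (hsh.pos w.swap).2.1)
    rw [h2, neg_mul, ← Nat.cast_mul] at h3
    omega
  have hinj : Set.InjOn c (PT n) := by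
    intro w hw w' hw' h
    have h1 := hip w hw w' hw'
    rw [← h, hip w hw w hw, if_pos rfl] at h1
    have h2 : bs n w = bs n w' := by
      by_contra h2
      rw [if_neg h2] at h1
      exact one_ne_zero h1
    apply hsh.bij.1.iterate n
    rw [hsh.iter n w (Ns.lt2 hw), hsh.iter n w' (Ns.lt2 hw'), h2]
  have hfin : (PT n).Finite := Set.Finite.of_injOn hmaps hinj hA.fin
  refine ⟨c, ⟨hmaps, hinj, ?_⟩, fun w hw => ⟨?_, fun g => ?_, fun g => ⟨_, rfl⟩, fun h g hg => ?_⟩⟩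
  · obtain ⟨e, he⟩ := hcnt
    have := hfin.to_subtype
    have hr : ∀ w : PT n, ∃ g : Perm Ω, ty g = (e ⟨w.1, w.2.1⟩).1 := fun w =>
      hP.ex _ (e _).2 (by rw [he]; exact ((hsh.pt n w.1).1 w.2).2)
    choose r hr using hr
    have h1 := Ns.card_le hA (PT n) (fun g => ⟨(e.symm ⟨ty g, hP.pos g⟩).1,
      (hsh.pt n _).2 ⟨(e.symm _).2, by rw [← he, e.apply_symm_apply]; exact hP.sum g⟩⟩) r
      fun g => (hP.conj _ _).2 (by rw [hr]; simp)
    rw [Nat.card_coe_set_eq, ← hinj.ncard_image] at h1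
    exact (Set.eq_of_subset_of_ncard_le hmaps.image_subset h1 hA.fin).symm.subset
  · simp only [hc]
    exact_mod_cast hdeg w hw
  · simp only [hc]
    rw [hnD n w hw.1 (Ns.lt1 hw) (Ns.lt2 hw) _ (hP.pos g), hP.sign, hP.sum]
    simp [uK, hn]
  · simp only [hc]
    have h1 := hnE n w.1 (Ns.lt1 hw)
    rw [hg, show w = (w.1, w.1) from Prod.ext rfl h, ← sq]
    exact_mod_cast h1

end Pool.Agent.Lib.MP_1ae3da_al.GM
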