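import Pool.Agent.Lib.MP_1ae3da_al.GT

/-! The Frobenius coefficients are virtual characters of the symmetric group. -/

namespace Pool.Agent.Lib.MP_1ae3da_al.GM

open Equiv

namespace NsA

variable {Ω : Type} [Fintype Ω] [DecidableEq Ω]

open Classical in
/-- the size of an orbit. -/
noncomputable def sz (g : Perm Ω) (o : Quotient (Perm.SameCycle.setoid g)) : ℕ :=
  (Finset.univ.filter fun y => Quotient.mk _ y = o).card

omit [DecidableEq Ω] in
lemma sz_mk (g : Perm Ω) (x : Ω) : sz g (Quotient.mk _ x) = Function.minimalPeriod g x := by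
  classical
  have h := MulAction.minimalPeriod_eq_card g x
  have e : (fun y => g • y) = g := rfl
  rw [e] at h
  rw [h, sz, ← Set.toFinset_card]
  congr 1
  ext y
  simp only [Finset.mem_filter, Finset.mem_univ, true_and, Set.mem_toFinset,
    MulAction.mem_orbit_iff, Quotient.eq]
  constructor
  · intro h
    obtain ⟨i, hi⟩ := Perm.SameCycle.symm h
    exact ⟨⟨g ^ i, i, rfl⟩, hi⟩
  · rintro ⟨⟨_, i, rfl⟩, hi⟩
    exact Perm.SameCycle.symm ⟨i, hi⟩

open Classical in
lemma ty_eq (h : PermA Ω) (g : Perm Ω) : ty g = Finset.univ.val.map (sz g) := by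
  ext r
  rcases Nat.eq_zero_or_pos r with rfl | hr
  · rw [Multiset.count_eq_zero.2 (h.pos g), eq_comm, Multiset.count_eq_zero]
    intro hm
    obtain ⟨o, -, ho⟩ := Multiset.mem_map.1 hm
    obtain ⟨x, rfl⟩ := o.exists_rep
    rw [sz, Finset.card_eq_zero] at ho
    have : x ∈ (∅ : Finset Ω) := by rw [← ho]; simp
    simp at this
  · refine Nat.eq_of_mul_eq_mul_left hr ?_
    rw [h.per, Multiset.count_map]
    have e1 : (Finset.univ.filter fun x => Function.minimalPeriod g x = r).card =
        ∑ o ∈ Finset.univ.filter fun o => sz g o = r, sz g o := by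
      rw [Finset.card_eq_sum_card_fiberwise (f := fun x => Quotient.mk (Perm.SameCycle.setoid g) x)
        (t := Finset.univ.filter fun o => sz g o = r)]
      · refine Finset.sum_congr rfl fun o ho => ?_
        rw [sz]
        congr 1
        ext y
        simp only [Finset.mem_filter, Finset.mem_univ, true_and, and_iff_right_iff_imp]
        rintro rfl
        rw [← sz_mk]
        exact (Finset.mem_filter.1 ho).2
      · intro x hx
        simp only [Finset.coe_filter, Finset.mem_univ, true_and, Set.mem_ofPred_eq] at hx ⊢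
        rw [sz_mk, hx]
    rw [e1, Finset.sum_congr rfl fun o ho => (Finset.mem_filter.1 ho).2, Finset.sum_const,
      smul_eq_mul, mul_comm]
    congr 1
    rw [Finset.card_def, Finset.filter_val]
    congr 1
    exact Multiset.filter_congr fun o _ => eq_comm

lemma prod_psum (h : PermA Ω) (N : ℕ) (g : Perm Ω) :
    ((ty g).map (MvPolynomial.psum (Fin N) ℤ)).prod =
      ∑ f : Ω → Fin N, if f ∘ g = f then ∏ x, MvPolynomial.X (f x) else 0 := by
  classical
  rw [ty_eq h, Multiset.map_map]
  change ∏ o, ∑ i, MvPolynomial.X i ^ sz g o = _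
  rw [Finset.prod_univ_sum, Fintype.piFinset_univ, ← Finset.sum_filter]
  refine Finset.sum_bij (fun φ _ => fun x => φ (Quotient.mk _ x)) ?_ ?_ ?_ ?_
  · intro φ _
    simp only [Finset.mem_filter, Finset.mem_univ, true_and]
    funext x
    exact congrArg φ (Quotient.sound (Perm.SameCycle.symm ⟨1, by simp⟩))
  · intro φ _ ψ _ e
    funext o
    obtain ⟨x, rfl⟩ := o.exists_rep
    exact congrFun e x
  · intro f hf
    have hf' : ∀ x, f (g x) = f x := congrFun (Finset.mem_filter.1 hf).2
    have hp : ∀ (n : ℕ) x, f ((g ^ n) x) = f x := by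
      intro n
      induction n with
      | zero => simp
      | succ n ih => intro x; rw [pow_succ', Perm.mul_apply, hf', ih]
    refine ⟨Quotient.lift f fun x y hxy => ?_, Finset.mem_univ _, rfl⟩
    obtain ⟨n, -, rfl⟩ := Perm.SameCycle.exists_pow_eq' hxy
    exact (hp n x).symm
  · intro φ _
    rw [← Finset.prod_fiberwise (s := Finset.univ)
      (g := fun x => Quotient.mk (Perm.SameCycle.setoid g) x)]
    refine Finset.prod_congr rfl fun o _ => ?_
    rw [sz, ← Finset.prod_const]
    exact Finset.prod_congr rfl fun x hx => by rw [← (Finset.mem_filter.1 hx).2]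

lemma fix_mem (hch : ChSt) {m : Type} [Fintype m] [DecidableEq m] (c : (Ω → m) → ℤ)
    (hc : ∀ f (g : Perm Ω), c (f ∘ g) = c f) :
    (fun g : Perm Ω => ((∑ f : Ω → m, if f ∘ g = f then c f else 0 : ℤ) : K)) ∈ VC (Perm Ω) := by
  classical
  have h1 : ∀ k : ℤ, (fun g : Perm Ω => ∑ f : Ω → m, if c f = k ∧ f ∘ g = f then (1 : K) else 0) ∈
      VC (Perm Ω) := by
    intro k
    refine (hch.a _).ch_vc _ ((hch.b (Perm Ω)).mat (Ω → m)
      (fun g => Matrix.of fun f f' => if c f = k ∧ f ∘ g = f' then (1 : K) else 0) ?_)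
    intro x y
    ext f f''
    rw [Matrix.mul_apply, Finset.sum_eq_single (f ∘ x)]
    · simp only [Matrix.of_apply, hc, and_true, Perm.coe_mul, Function.comp_assoc]
      by_cases e : c f = k <;> simp [e]
    · intro f' _ hf
      simp [hf.symm]
    · simp
  have h2 : (fun g : Perm Ω => ((∑ f : Ω → m, if f ∘ g = f then c f else 0 : ℤ) : K)) =
      ∑ k ∈ Finset.univ.image c,
        k • fun g : Perm Ω => ∑ f : Ω → m, if c f = k ∧ f ∘ g = f then (1 : K) else 0 := by
    funext g
    simp only [Finset.sum_apply, Pi.smul_apply, Finset.smul_sum]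
    rw [Finset.sum_comm, Int.cast_sum]
    refine Finset.sum_congr rfl fun f _ => ?_
    rw [Finset.sum_eq_single (c f)]
    · by_cases e : f ∘ g = f <;> simp [e]
    · intro k _ hk
      simp [hk.symm]
    · simp
  rw [h2]
  exact AddSubgroup.sum_mem _ fun k _ => AddSubgroup.zsmul_mem _ (h1 k) k

end NsA

theorem nsA (hch : ChSt) (hpa : PermASt) : NsASt := by
  intro Ω _ _ N β
  have h := NsA.fix_mem hch (Ω := Ω) (fun f : Ω → Fin N =>
    MvPolynomial.coeff (Finsupp.equivFunOnFinite.symm β)
      ((∑ w : Perm (Fin N), (Perm.sign w : ℤ) • ∏ i, MvPolynomial.X i ^ (w i : ℕ)) *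
        ∏ x, MvPolynomial.X (f x) : MvPolynomial (Fin N) ℤ)) fun f g => by
      congr 2
      exact Equiv.prod_comp g fun x => MvPolynomial.X (f x)
  convert h using 3 with g
  rw [cf, NsA.prod_psum (hpa Ω), Finset.mul_sum, MvPolynomial.coeff_sum]
  refine Finset.sum_congr rfl fun f _ => ?_
  split_ifs <;> simp

end Pool.Agent.Lib.MP_1ae3da_al.GM
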