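import Pool.Agent.Lib.MP_1ae3da_al.GT

/-! Orthonormality of the Frobenius coefficients. -/

namespace Pool.Agent.Lib.MP_1ae3da_al.GM

open Equiv

namespace NsB

variable {N : ℕ}

/-- the signed delta function. -/
def D (b c : Fin N → ℕ) : ℤ :=
  ∑ w : Perm (Fin N), if b = c ∘ w then (Perm.sign w : ℤ) else 0

lemma D_left (b c : Fin N → ℕ) (u : Perm (Fin N)) :
    D (b ∘ u) c = Perm.sign u * D b c := by
  unfold D
  rw [Finset.mul_sum, ← Equiv.sum_comp (Equiv.mulRight u)]
  refine Finset.sum_congr rfl fun w _ => ?_
  have : (b ∘ u = c ∘ (Equiv.mulRight u w)) ↔ b = c ∘ w := by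
    constructor
    · intro h
      funext i
      have := congrFun h (u⁻¹ i)
      simpa using this
    · rintro rfl
      funext i
      simp
  simp only [this]
  split_ifs <;> simp [mul_comm]

lemma D_right (b c : Fin N → ℕ) (u : Perm (Fin N)) :
    D b (c ∘ u) = Perm.sign u * D b c := by
  unfold D
  rw [Finset.mul_sum, ← Equiv.sum_comp (Equiv.mulLeft u) (fun w : Perm (Fin N) =>
    (Perm.sign u : ℤ) * if b = c ∘ w then (Perm.sign w : ℤ) else 0)]
  refine Finset.sum_congr rfl fun w _ => ?_
  have : (b = c ∘ (Equiv.mulLeft u w)) ↔ b = (c ∘ u) ∘ w := Iff.rfl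
  simp only [this]
  split_ifs
  · simp only [Equiv.coe_mulLeft, map_mul, Units.val_mul]
    rw [← mul_assoc, ← Units.val_mul, Int.units_mul_self, Units.val_one, one_mul]
  · simp

lemma comp_swap {b : Fin N → ℕ} {i j : Fin N} (h : b i = b j) : b ∘ swap i j = b := by
  funext k
  simp only [Function.comp, swap_apply_def]
  split_ifs with h1 h2
  · rw [h1, h]
  · rw [h2, h]
  · rfl

lemma D_left0 {b : Fin N → ℕ} (c : Fin N → ℕ) (h : ¬ Function.Injective b) : D b c = 0 := by
  obtain ⟨i, j, h1, h2⟩ := Function.not_injective_iff.1 h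
  have := D_left b c (swap i j)
  rw [comp_swap h1, Perm.sign_swap h2] at this
  simp only [Units.val_neg, Units.val_one] at this
  omega

lemma D_right0 (b : Fin N → ℕ) {c : Fin N → ℕ} (h : ¬ Function.Injective c) : D b c = 0 := by
  obtain ⟨i, j, h1, h2⟩ := Function.not_injective_iff.1 h
  have := D_right b c (swap i j)
  rw [comp_swap h1, Perm.sign_swap h2] at this
  simp only [Units.val_neg, Units.val_one] at this
  omega

lemma D_self {b : Fin N → ℕ} (h : Function.Injective b) : D b b = 1 := by
  unfold D
  rw [Finset.sum_eq_single 1]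
  · simp
  · intro w _ hw
    rw [if_neg]
    intro e
    apply hw
    ext i
    have := h (congrFun e i)
    simp only [Perm.one_apply]
    exact congrArg Fin.val this.symm
  · simp

lemma adj (b c : Fin N → ℕ) (s : ℕ) :
    ∑ j, (if s ≤ c j then D b (Function.update c j (c j - s)) else 0) =
      ∑ j, D (Function.update b j (b j + s)) c := by
  have h1 : ∀ j, (if s ≤ c j then D b (Function.update c j (c j - s)) else 0) =
      ∑ w : Perm (Fin N), if s ≤ c j ∧ b = Function.update c j (c j - s) ∘ w then
        (Perm.sign w : ℤ) else 0 := by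
    intro j
    unfold D
    split_ifs with h <;> simp [h]
  simp only [h1]
  unfold D
  rw [Finset.sum_comm, Finset.sum_comm (f := fun j (w : Perm (Fin N)) =>
    if Function.update b j (b j + s) = c ∘ w then (Perm.sign w : ℤ) else 0)]
  refine Finset.sum_congr rfl fun w _ => ?_
  rw [← Equiv.sum_comp w]
  refine Finset.sum_congr rfl fun j _ => ?_
  refine if_congr ⟨?_, ?_⟩ rfl rfl
  · rintro ⟨h2, h3⟩
    funext k
    have := congrFun h3 k
    by_cases hk : k = j
    · subst hk
      simp only [Function.comp, Function.update_self] at this ⊢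
      omega
    · simp only [Function.comp] at this ⊢
      rw [Function.update_of_ne (fun e => hk (w.injective e))] at this
      rw [Function.update_of_ne hk, this]
  · intro h
    have h2 := congrFun h j
    simp only [Function.comp, Function.update_self] at h2
    refine ⟨by omega, ?_⟩
    funext k
    by_cases hk : k = j
    · subst hk
      simp only [Function.comp, Function.update_self]
      omega
    · have := congrFun h k
      simp only [Function.comp] at this ⊢
      rw [Function.update_of_ne hk] at this
      rw [Function.update_of_ne (fun e => hk (w.injective e)), this]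

/-- move `r + 1` from place `i` to place `j`. -/
def mv (b : Fin N → ℕ) (i j : Fin N) (r : ℕ) : Fin N → ℕ :=
  Function.update (Function.update b i (b i - (r + 1))) j
    (Function.update b i (b i - (r + 1)) j + (r + 1))

lemma pair (f : (Fin N → ℕ) → ℤ) (hf : ∀ b i j, i ≠ j → f (b ∘ swap i j) = -f b)
    (b : Fin N → ℕ) (i j : Fin N) (hij : i ≠ j) :
    ∑ r ∈ Finset.range (b i), f (mv b i j r) + ∑ r ∈ Finset.range (b j), f (mv b j i r) =
      -f b := by
  set g : ℕ → ℤ := fun u => f (Function.update (Function.update b i u) j (b i + b j - u)) with hg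
  have e1 : ∑ r ∈ Finset.range (b i), f (mv b i j r) = ∑ u ∈ Finset.range (b i), g u := by
    rw [← Finset.sum_range_reflect g]
    refine Finset.sum_congr rfl fun r hr => ?_
    rw [Finset.mem_range] at hr
    simp only [hg, mv]
    rw [Function.update_of_ne hij.symm]
    congr 2
    · congr 1
      omega
    · omega
  have e2 : ∑ r ∈ Finset.range (b j), f (mv b j i r) =
      ∑ r ∈ Finset.range (b j), g (b i + 1 + r) := by
    refine Finset.sum_congr rfl fun r hr => ?_
    rw [Finset.mem_range] at hr
    simp only [hg, mv]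
    rw [Function.update_of_ne hij, Function.update_comm hij.symm]
    congr 2
    · congr 1
      omega
    · omega
  have e3 : g (b i) = f b := by
    simp only [hg]
    rw [Function.update_eq_self, Nat.add_sub_cancel_left, Function.update_eq_self]
  have e4 : ∑ u ∈ Finset.range (b i + 1 + b j), g u = 0 := by
    have : ∑ u ∈ Finset.range (b i + 1 + b j), g u =
        -∑ u ∈ Finset.range (b i + 1 + b j), g u := by
      conv_lhs => rw [← Finset.sum_range_reflect g]
      rw [← Finset.sum_neg_distrib]
      refine Finset.sum_congr rfl fun u hu => ?_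
      rw [Finset.mem_range] at hu
      simp only [hg]
      rw [← hf _ i j hij]
      congr 1
      funext k
      simp only [Function.comp, swap_apply_def]
      split_ifs with h1 h2
      · subst h1
        rw [Function.update_of_ne hij, Function.update_self, Function.update_self]
        omega
      · subst h2
        rw [Function.update_of_ne hij, Function.update_self, Function.update_self]
        omega
      · rw [Function.update_of_ne h2, Function.update_of_ne h1, Function.update_of_ne h2,
          Function.update_of_ne h1]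
    omega
  rw [Finset.sum_range_add, Finset.sum_range_succ, e3] at e4
  rw [e1, e2]
  omega

lemma two_choose (N : ℕ) : 2 * (N.choose 2 : ℤ) = N * N - N := by
  induction N with
  | zero => simp
  | succ n ih =>
    rw [Nat.choose_succ_succ' n 1, Nat.choose_one_right]
    push_cast
    rw [mul_add, ih]
    ring

lemma key (f : (Fin N → ℕ) → ℤ) (hf : ∀ b i j, i ≠ j → f (b ∘ swap i j) = -f b)
    (b : Fin N → ℕ) :
    ∑ i, ∑ j, ∑ r ∈ Finset.range (b i), f (mv b i j r) =
      (((∑ i, b i : ℕ) : ℤ) - N.choose 2) * f b := by
  set X : Fin N → Fin N → ℤ := fun i j => ∑ r ∈ Finset.range (b i), f (mv b i j r) with hX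
  have h1 : ∀ i j, X i j + X j i = (if i = j then (2 * (b i : ℤ) + 1) * f b else 0) - f b := by
    intro i j
    split_ifs with h
    · subst h
      have : X i i = b i * f b := by
        simp only [hX]
        rw [Finset.sum_congr rfl (g := fun _ => f b)]
        · simp
        · intro r hr
          rw [Finset.mem_range] at hr
          simp only [mv]
          rw [Function.update_idem, Function.update_self, Nat.sub_add_cancel (by omega),
            Function.update_eq_self]
      rw [this]
      ring
    · rw [zero_sub]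
      exact pair f hf b i j h
  have h2 : 2 * ∑ i, ∑ j, X i j = ∑ i, ∑ j, (X i j + X j i) := by
    simp only [Finset.sum_add_distrib]
    rw [Finset.sum_comm (f := fun i j => X j i)]
    ring
  simp only [h1, Finset.sum_sub_distrib, Finset.sum_ite_eq, Finset.mem_univ, if_true,
    Finset.sum_const, Finset.card_univ, Fintype.card_fin, nsmul_eq_mul] at h2
  rw [← Finset.sum_mul, Finset.sum_add_distrib, ← Finset.mul_sum] at h2
  simp only [Finset.sum_const, Finset.card_univ, Fintype.card_fin, nsmul_eq_mul, mul_one] at h2
  have h3 := two_choose N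
  change ∑ i, ∑ j, X i j = _
  push_cast
  have h4 : 2 * ∑ i, ∑ j, X i j = 2 * ((∑ i, (b i : ℤ) - N.choose 2) * f b) := by
    rw [h2]
    linear_combination (f b) * h3
  omega

lemma sum_val (N : ℕ) : ∑ i : Fin N, (i : ℕ) = N.choose 2 := by
  rw [Fin.sum_univ_eq_sum_range (fun i => i) N, Finset.sum_range_id, Nat.choose_two_right]

lemma le_of_strictMono {a : Fin N → ℕ} (h : StrictMono a) (i : Fin N) : (i : ℕ) ≤ a i := by
  obtain ⟨i, hi⟩ := i
  induction i with
  | zero => exact Nat.zero_le _
  | succ k ih =>
    have h1 := ih (by omega)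
    have h2 : a ⟨k, by omega⟩ < a ⟨k + 1, hi⟩ := h (by simp [Fin.lt_def])
    simp only at h1 ⊢
    omega

lemma minimal {b : Fin N → ℕ} (h : Function.Injective b) : N.choose 2 ≤ ∑ i, b i ∧
    (∑ i, b i = N.choose 2 → ∃ u : Perm (Fin N), b = Fin.val ∘ u) := by
  have hs : StrictMono (b ∘ Tuple.sort b) :=
    (Tuple.monotone_sort b).strictMono_of_injective (h.comp (Tuple.sort b).injective)
  have e : ∑ i, b i = ∑ i, (b ∘ Tuple.sort b) i := (Equiv.sum_comp (Tuple.sort b) b).symm
  rw [e, ← sum_val]
  refine ⟨Finset.sum_le_sum fun i _ => le_of_strictMono hs i, fun h2 => ⟨(Tuple.sort b)⁻¹, ?_⟩⟩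
  have := (Finset.sum_eq_sum_iff_of_le fun i _ => le_of_strictMono hs i).1 h2.symm
  funext i
  have := this ((Tuple.sort b)⁻¹ i) (Finset.mem_univ _)
  simpa using this.symm

lemma sum_update (b : Fin N → ℕ) (i : Fin N) (s : ℕ) (h : s ≤ b i) :
    ∑ k, Function.update b i (b i - s) k + s = ∑ k, b k := by
  rw [Finset.sum_update_of_mem (Finset.mem_univ i),
    ← Finset.add_sum_erase Finset.univ b (Finset.mem_univ i), Finset.sdiff_singleton_eq_erase]
  omega

/-- the combinatorial recursion. -/
lemma recD (b c : Fin N → ℕ) (m : ℕ) (hb : ∑ i, b i = m + N.choose 2) :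
    ∑ r ∈ Finset.range m, ∑ i, ∑ j, (if r + 1 ≤ b i then if r + 1 ≤ c j then
      D (Function.update b i (b i - (r + 1))) (Function.update c j (c j - (r + 1))) else 0
      else 0) = m * D b c := by
  have h1 : ∀ i, ∑ r ∈ Finset.range m, ∑ j, (if r + 1 ≤ b i then if r + 1 ≤ c j then
      D (Function.update b i (b i - (r + 1))) (Function.update c j (c j - (r + 1))) else 0
      else 0) = ∑ j, ∑ r ∈ Finset.range (b i), D (mv b i j r) c := by
    intro i
    rw [Finset.sum_comm (s := Finset.univ) (t := Finset.range (b i))]
    have h2 : ∀ r, ∑ j, D (mv b i j r) c = ∑ j, (if r + 1 ≤ c j then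
        D (Function.update b i (b i - (r + 1))) (Function.update c j (c j - (r + 1))) else 0) :=
      fun r => (adj _ c (r + 1)).symm
    simp only [h2]
    have h3 : ∀ r, ∑ j, (if r + 1 ≤ b i then if r + 1 ≤ c j then
        D (Function.update b i (b i - (r + 1))) (Function.update c j (c j - (r + 1))) else 0
        else 0) = if r + 1 ≤ b i then ∑ j, (if r + 1 ≤ c j then
        D (Function.update b i (b i - (r + 1))) (Function.update c j (c j - (r + 1))) else 0)
        else 0 := by
      intro r
      split_ifs <;> simp
    simp only [h3]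
    rw [← Finset.sum_filter]
    refine Finset.sum_subset (fun r hr => ?_) fun r hr hr' => ?_
    · rw [Finset.mem_filter] at hr
      rw [Finset.mem_range]
      omega
    · rw [Finset.mem_range] at hr
      rw [Finset.mem_filter, Finset.mem_range] at hr'
      refine Finset.sum_eq_zero fun j _ => ?_
      rw [D_left0, ite_self]
      intro hi
      have h4 := (minimal hi).1
      have h5 := sum_update b i (r + 1) (by omega)
      omega
  rw [Finset.sum_comm]
  simp only [h1]
  rw [key (fun b => D b c) (fun b i j hij => by
    rw [D_left, Perm.sign_swap hij]; simp) b, hb]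
  push_cast
  ring

lemma Av_succ (n : ℕ) (F : Multiset ℕ → K) : Av (n + 1) F =
    ((n + 1 : ℕ) : K)⁻¹ * ∑ r ∈ Finset.range (n + 1), Av (n - r) fun ρ => F ((r + 1) ::ₘ ρ) := by
  rw [Av, ← Fin.sum_univ_eq_sum_range (fun r => Av (n - r) fun ρ => F ((r + 1) ::ₘ ρ)) (n + 1)]
  simp only [LinearMap.smul_apply, LinearMap.sum_apply, LinearMap.comp_apply, smul_eq_mul]
  rfl

lemma tuple (hmn : MnSt) (n : ℕ) : ∀ b c : Fin N → ℕ, ∑ i, b i = n + N.choose 2 →
    ∑ i, c i = n + N.choose 2 →
    Av n (fun ρ => (cf b ρ : K) * (cf c ρ : K)) = (D b c : K) := by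
  induction n using Nat.strong_induction_on with
  | _ n ih =>
  intro b c hb hc
  cases n with
  | zero =>
    rw [Av, LinearMap.proj_apply, ← Int.cast_mul]
    congr 1
    have e : ∀ β : Fin N → ℕ, cf β 0 = D β Fin.val := fun β => hmn.base N β
    rw [e, e]
    by_cases hi : Function.Injective c
    · obtain ⟨u, rfl⟩ := (minimal hi).2 (by omega)
      rw [D_left, D_right, D_self Fin.val_injective]
      ring
    · rw [D_left0 _ hi, D_right0 _ hi, mul_zero]
  | succ n =>
    rw [Av_succ]
    have h1 : ∀ r ∈ Finset.range (n + 1),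
        Av (n - r) (fun ρ => (cf b ((r + 1) ::ₘ ρ) : K) * (cf c ((r + 1) ::ₘ ρ) : K)) =
        ((∑ i, ∑ j, (if r + 1 ≤ b i then if r + 1 ≤ c j then
          D (Function.update b i (b i - (r + 1))) (Function.update c j (c j - (r + 1))) else 0
          else 0) : ℤ) : K) := by
      intro r hr
      rw [Finset.mem_range] at hr
      have h2 : (fun ρ => (cf b ((r + 1) ::ₘ ρ) : K) * (cf c ((r + 1) ::ₘ ρ) : K)) =
          ∑ i, ∑ j, (if r + 1 ≤ b i then if r + 1 ≤ c j then
            (fun ρ => (cf (Function.update b i (b i - (r + 1))) ρ : K) *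
              (cf (Function.update c j (c j - (r + 1))) ρ : K)) else 0 else 0) := by
        funext ρ
        rw [hmn.step, hmn.step]
        push_cast
        rw [Finset.sum_mul_sum, Finset.sum_apply]
        refine Finset.sum_congr rfl fun i _ => ?_
        rw [Finset.sum_apply]
        refine Finset.sum_congr rfl fun j _ => ?_
        split_ifs <;> simp
      rw [h2, map_sum]
      push_cast
      refine Finset.sum_congr rfl fun i _ => ?_
      rw [map_sum]
      refine Finset.sum_congr rfl fun j _ => ?_
      split_ifs with h3 h4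
      · have h5 := sum_update b i (r + 1) h3
        have h6 := sum_update c j (r + 1) h4
        exact ih (n - r) (by omega) _ _ (by omega) (by omega)
      · simp
      · simp
    rw [Finset.sum_congr rfl h1, ← Int.cast_sum, recD b c (n + 1) hb, Int.cast_mul,
      Int.cast_natCast, ← mul_assoc, inv_mul_cancel₀ (Nat.cast_ne_zero.2 (Nat.succ_ne_zero n)),
      one_mul]

end NsB

theorem nsB (hmn : MnSt) (hav : AvSt) : NsBSt := by
  intro n A B hc hA hB
  have im : ∀ (S : Finset ℕ) (h : S.card = A.card),
      Finset.univ.image (S.orderEmbOfFin h) = S := fun S h => by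
    apply Finset.coe_injective
    simp
  have sm : ∀ (S : Finset ℕ) (h : S.card = A.card), ∑ i, S.orderEmbOfFin h i = S.sum id := by
    intro S h
    conv_rhs => rw [← im S h]
    rw [Finset.sum_image fun i _ j _ e => (S.orderEmbOfFin h).injective e]
    rfl
  have e1 : ∀ (S : Finset ℕ) (h : S.card = A.card) (ρ : Multiset ℕ),
      cfS S ρ = cf (S.orderEmbOfFin h) ρ := fun S h ρ =>
    hmn.mono _ _ S ρ (S.orderEmbOfFin h).strictMono (im S h)
  simp only [e1 A rfl, e1 B hc]
  rw [NsB.tuple hmn n _ _ (by rw [sm, hA]) (by rw [sm, hB])]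
  split_ifs with h
  · subst h
    rw [NsB.D_self (A.orderEmbOfFin rfl).injective, Int.cast_one]
  · unfold NsB.D
    rw [Finset.sum_eq_zero, Int.cast_zero]
    intro w _
    rw [if_neg]
    intro e
    apply h
    rw [← im A rfl, ← im B hc, e, ← Finset.image_image, Finset.image_univ_equiv]

end Pool.Agent.Lib.MP_1ae3da_al.GM
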