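import Pool.Agent.Lib.MP_1ae3da_al.GT

/-! The degree formula and the transposition rule for the Frobenius coefficients. -/

namespace Pool.Agent.Lib.MP_1ae3da_al.GM

open Finset Equiv

namespace NsC

/-- the determinant of falling factorials. -/
def D {N : ℕ} (β : Fin N → ℕ) : ℤ :=
  ∑ w : Perm (Fin N), (Perm.sign w : ℤ) * ∏ i, ((β i).descFactorial (w i) : ℤ)

lemma D_eq {N : ℕ} (β : Fin N → ℕ) : D β = ∏ i, ∏ j ∈ Ioi i, ((β j : ℤ) - β i) := by
  rw [← Matrix.det_vandermonde, Matrix.det_eval_matrixOfPolynomials_eq_det_vandermonde _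
    (fun j : Fin N => descPochhammer ℤ j) (fun j => descPochhammer_natDegree ℤ j)
    (fun j => monic_descPochhammer ℤ j), ← Matrix.det_transpose, Matrix.det_apply', D]
  refine sum_congr rfl fun w _ => ?_
  simp [descPochhammer_eval_eq_descFactorial]

lemma sum_w {N : ℕ} (w : Perm (Fin N)) : ∑ i, (w i : ℕ) = N.choose 2 := by
  rw [Equiv.sum_comp w (fun i => (i : ℕ)), Fin.sum_univ_eq_sum_range (fun i => i) N, sum_range_id,
    Nat.choose_two_right]

lemma desc_step (b k : ℕ) :
    (b : ℤ) * ((b - 1).descFactorial k : ℤ) = ((b : ℤ) - k) * (b.descFactorial k : ℤ) := by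
  rcases b with _ | b
  · rcases k with _ | k <;> simp
  · have h1 := Nat.succ_descFactorial_succ b k
    rw [Nat.descFactorial_succ] at h1
    rcases le_or_gt k (b + 1) with h | h
    · rw [Nat.add_sub_cancel, ← Nat.cast_sub h]
      exact_mod_cast h1.symm
    · rw [Nat.descFactorial_eq_zero_iff_lt.2 h,
        Nat.descFactorial_eq_zero_iff_lt.2 (show b + 1 - 1 < k by omega)]
      simp

lemma D_step {N : ℕ} (β : Fin N → ℕ) :
    ∑ i, (β i : ℤ) * D (Function.update β i (β i - 1)) =
      ((∑ i, β i : ℕ) - (N.choose 2 : ℕ) : ℤ) * D β := by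
  simp only [D, mul_sum]
  rw [sum_comm]
  refine sum_congr rfl fun w _ => ?_
  rw [← sum_w w]
  push_cast
  rw [← sum_sub_distrib, sum_mul]
  refine sum_congr rfl fun i _ => ?_
  rw [← mul_prod_erase _ _ (mem_univ i), ← mul_prod_erase _ (fun j => ((β j).descFactorial (w j) : ℤ))
    (mem_univ i), Function.update_self,
    prod_congr rfl (g := fun j => ((β j).descFactorial (w j) : ℤ)) fun j hj => by
      rw [Function.update_of_ne (ne_of_mem_erase hj)]]
  linear_combination ((Perm.sign w : ℤ) *
    ∏ j ∈ univ.erase i, ((β j).descFactorial (w j) : ℤ)) * desc_step (β i) (w i)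

lemma cf_one (hmn : MnSt) {N : ℕ} (n : ℕ) : ∀ β : Fin N → ℕ, ∑ i, β i = n + N.choose 2 →
    cf β (Multiset.replicate n 1) * ∏ i, ((β i).factorial : ℤ) = n.factorial * D β := by
  induction n with
  | zero =>
    intro β hβ
    rw [Multiset.replicate_zero, hmn.base, D, sum_mul, Nat.factorial_zero, Nat.cast_one, one_mul]
    refine sum_congr rfl fun w _ => ?_
    split_ifs with h
    · subst h
      simp [Nat.descFactorial_self]
    · rw [zero_mul, eq_comm]
      refine mul_eq_zero_of_right _ ?_
      by_contra hne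
      refine h (funext fun i => ?_)
      have hle : ∀ j ∈ (univ : Finset (Fin N)), (w j : ℕ) ≤ β j := fun j hj => by
        by_contra hlt
        exact hne (prod_eq_zero hj (by
          rw [Nat.descFactorial_eq_zero_iff_lt.2 (not_le.1 hlt), Nat.cast_zero]))
      exact ((sum_eq_sum_iff_of_le hle).1 (by rw [sum_w, hβ, zero_add]) i (mem_univ i)).symm
  | succ n ih =>
    intro β hβ
    have h1 := D_step β
    rw [hβ] at h1
    push_cast at h1
    rw [Multiset.replicate_succ, hmn.step, sum_mul, Nat.factorial_succ]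
    push_cast
    rw [mul_comm ((n : ℤ) + 1), mul_assoc, show ((n : ℤ) + 1) * D β =
      ∑ i, (β i : ℤ) * D (Function.update β i (β i - 1)) by rw [h1]; ring, mul_sum]
    refine sum_congr rfl fun i _ => ?_
    split_ifs with h
    · have h2 := ih (Function.update β i (β i - 1)) (by
        rw [sum_update_of_mem (mem_univ i)]
        rw [← add_sum_erase _ _ (mem_univ i)] at hβ
        rw [sdiff_singleton_eq_erase]
        omega)
      rw [← mul_prod_erase _ _ (mem_univ i), Function.update_self,
        prod_congr rfl (g := fun j => ((β j).factorial : ℤ)) fun j hj => by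
          rw [Function.update_of_ne (ne_of_mem_erase hj)]] at h2
      rw [← mul_prod_erase _ _ (mem_univ i), ← Nat.mul_factorial_pred (show β i ≠ 0 by omega)]
      push_cast
      linear_combination (β i : ℤ) * h2
    · rw [show β i = 0 by omega]
      simp

/-- the complement read backwards. -/
def du (M : ℕ) (A : Finset ℕ) : Finset ℕ := (range M).filter fun y => M - 1 - y ∉ A

lemma mem_du {M : ℕ} {A : Finset ℕ} {y : ℕ} : y ∈ du M A ↔ y < M ∧ M - 1 - y ∉ A := by
  simp [du]

lemma card_du {M : ℕ} {A : Finset ℕ} (hA : ∀ a ∈ A, a < M) : (du M A).card + A.card = M := by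
  have h1 : (du M A).card = (range M \ A).card := by
    refine card_bij (fun y _ => M - 1 - y) ?_ ?_ ?_
    · intro y hy
      rw [mem_du] at hy
      exact mem_sdiff.2 ⟨mem_range.2 (by omega), hy.2⟩
    · intro y hy z hz e
      rw [mem_du] at hy hz
      omega
    · intro x hx
      rw [mem_sdiff, mem_range] at hx
      refine ⟨M - 1 - x, mem_du.2 ⟨by omega, ?_⟩, by omega⟩
      rw [show M - 1 - (M - 1 - x) = x by omega]
      exact hx.2
  rw [h1, card_sdiff_add_card_eq_card fun a ha => mem_range.2 (hA a ha), card_range]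

lemma between {M : ℕ} (A : Finset ℕ) {x r : ℕ} (hx : x < M) (hr : r ≤ x) (h0 : 0 < r) :
    ((du M A).filter fun y => M - 1 - (x - r) - r < y ∧ y < M - 1 - (x - r)).card +
      (A.filter fun y => x - r < y ∧ y < x).card + 1 = r := by
  have h1 : ((du M A).filter fun y => M - 1 - (x - r) - r < y ∧ y < M - 1 - (x - r)).card =
      ((Ioo (x - r) x).filter fun y => y ∉ A).card := by
    refine card_bij (fun y _ => M - 1 - y) ?_ ?_ ?_
    · intro y hy
      rw [mem_filter, mem_du] at hy
      exact mem_filter.2 ⟨mem_Ioo.2 (by omega), hy.1.2⟩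
    · intro y hy z hz e
      rw [mem_filter, mem_du] at hy hz
      omega
    · intro y hy
      rw [mem_filter, mem_Ioo] at hy
      refine ⟨M - 1 - y, mem_filter.2 ⟨mem_du.2 ⟨by omega, ?_⟩, by omega⟩, by omega⟩
      rw [show M - 1 - (M - 1 - y) = y by omega]
      exact hy.2
  have h2 : (A.filter fun y => x - r < y ∧ y < x) = (Ioo (x - r) x).filter fun y => y ∈ A := by
    ext y
    simp only [mem_filter, mem_Ioo]
    tauto
  rw [h1, h2, add_comm (card _), card_filter_add_card_filter_not, Nat.card_Ioo]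
  omega

lemma cf_du (hmn : MnSt) (N : ℕ) (ρ : Multiset ℕ) : 0 ∉ ρ → ∀ A : Finset ℕ,
    (∀ a ∈ A, a < 2 * N) → A.card = N →
    cfS (du (2 * N) A) ρ = (-1) ^ (ρ.sum + ρ.card) * cfS A ρ := by
  induction ρ using Multiset.induction_on with
  | empty =>
    intro _ A hA hc
    have h1 := card_du hA
    rw [hmn.baseS, hmn.baseS, show (du (2 * N) A).card = N by omega, hc]
    simp only [Multiset.sum_zero, Multiset.card_zero, add_zero, pow_zero, one_mul]
    refine if_congr ⟨fun h => ?_, fun h => ?_⟩ rfl rfl
    · refine eq_of_subset_of_card_le (fun a ha => ?_) (by rw [hc, card_range])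
      by_contra hn
      have h2 := hA a ha
      have h3 : 2 * N - 1 - a ∈ du (2 * N) A := by
        rw [h]
        rw [mem_range] at hn ⊢
        omega
      rw [mem_du, show 2 * N - 1 - (2 * N - 1 - a) = a by omega] at h3
      exact h3.2 ha
    · ext y
      rw [mem_du, h, mem_range, mem_range]
      omega
  | cons r ρ ih =>
    intro h0 A hA hc
    have hr : 0 < r := Nat.pos_of_ne_zero fun h => h0 (h ▸ Multiset.mem_cons_self _ _)
    have h0' : 0 ∉ ρ := fun h => h0 (Multiset.mem_cons_of_mem h)
    rw [hmn.stepS _ _ _ hr, hmn.stepS _ _ _ hr, mul_sum, eq_comm]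
    refine sum_bij (fun x _ => 2 * N - 1 - (x - r)) ?_ ?_ ?_ ?_
    · intro x hx
      obtain ⟨h1, h2, h3⟩ := mem_filter.1 hx
      have := hA x h1
      refine mem_filter.2 ⟨mem_du.2 ⟨by omega, ?_⟩, by omega, fun h => ?_⟩
      · rwa [show 2 * N - 1 - (2 * N - 1 - (x - r)) = x - r by omega]
      · rw [mem_du, show 2 * N - 1 - (2 * N - 1 - (x - r) - r) = x by omega] at h
        exact h.2 h1
    · intro x hx y hy e
      obtain ⟨h1, h2, -⟩ := mem_filter.1 hx
      obtain ⟨k1, k2, -⟩ := mem_filter.1 hy
      have := hA x h1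
      have := hA y k1
      omega
    · intro y hy
      obtain ⟨h1, h2, h3⟩ := mem_filter.1 hy
      rw [mem_du] at h1 h3
      refine ⟨2 * N - 1 - (y - r), mem_filter.2 ⟨?_, by omega, ?_⟩, by omega⟩
      · by_contra hn
        exact h3 ⟨by omega, hn⟩
      · rw [show 2 * N - 1 - (y - r) - r = 2 * N - 1 - y by omega]
        exact h1.2
    · intro x hx
      obtain ⟨h1, h2, h3⟩ := mem_filter.1 hx
      have hx2 := hA x h1
      have e1 : insert (2 * N - 1 - (x - r) - r) ((du (2 * N) A).erase (2 * N - 1 - (x - r))) =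
          du (2 * N) (insert (x - r) (A.erase x)) := by
        ext y
        simp only [mem_insert, mem_erase, mem_du]
        constructor
        · rintro (rfl | ⟨k1, k2, k3⟩)
          · refine ⟨by omega, ?_⟩
            rw [show 2 * N - 1 - (2 * N - 1 - (x - r) - r) = x by omega]
            rintro (k | k)
            · omega
            · exact k.1 rfl
          · refine ⟨k2, ?_⟩
            rintro (k | k)
            · omega
            · exact k3 k.2
        · rintro ⟨k1, k2⟩
          by_cases hy : 2 * N - 1 - y = x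
          · left; omega
          · right
            exact ⟨fun k => k2 (Or.inl (by omega)), k1, fun k => k2 (Or.inr ⟨hy, k⟩)⟩
      rw [e1, ih h0' _ ?_ ?_]
      · have h4 := between (M := 2 * N) A hx2 h2 hr
        rw [Multiset.sum_cons, Multiset.card_cons, ← mul_assoc, ← mul_assoc, ← pow_add, ← pow_add]
        congr 1
        rw [neg_one_pow_eq_pow_mod_two, neg_one_pow_eq_pow_mod_two (n := _ + (ρ.sum + ρ.card))]
        congr 1
        omega
      · intro a ha
        rcases mem_insert.1 ha with rfl | ha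
        · omega
        · exact hA a (mem_of_mem_erase ha)
      · rw [card_insert_of_notMem fun h => h3 (mem_of_mem_erase h), card_erase_of_mem h1]
        have := card_pos.2 ⟨x, h1⟩
        omega

lemma mem_bs {N : ℕ} {w : Finset ℕ × Finset ℕ} (hb : ∀ b ∈ w.2, b < N) (x : ℕ) :
    x ∈ bs N w ↔ (N ≤ x ∧ x - N ∈ w.1) ∨ (x < N ∧ N - 1 - x ∉ w.2) := by
  simp only [bs, mem_union, mem_image, mem_sdiff, mem_range]
  refine or_congr ⟨?_, ?_⟩ (and_congr_right fun hx => not_congr ⟨?_, ?_⟩)
  · rintro ⟨a, ha, rfl⟩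
    exact ⟨by omega, by rwa [Nat.add_sub_cancel]⟩
  · rintro ⟨h1, h2⟩
    exact ⟨_, h2, by omega⟩
  · rintro ⟨b, h1, rfl⟩
    have := hb b h1
    rwa [show N - 1 - (N - 1 - b) = b by omega]
  · intro h
    exact ⟨_, h, by omega⟩

lemma card_bs {N : ℕ} {w : Finset ℕ × Finset ℕ} (hc : w.1.card = w.2.card)
    (hb : ∀ b ∈ w.2, b < N) : (bs N w).card = N := by
  have h1 : (w.2.image fun b => N - 1 - b) ⊆ range N := by
    intro x hx
    obtain ⟨b, hb', rfl⟩ := mem_image.1 hx
    have := hb b hb'
    exact mem_range.2 (by omega)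
  have h2 : (w.2.image fun b => N - 1 - b).card = w.2.card := by
    refine card_image_of_injOn fun a ha b hb' e => ?_
    have := hb a ha
    have := hb b hb'
    have e' : N - 1 - a = N - 1 - b := e
    omega
  have h3 := card_sdiff_add_card_eq_card h1
  rw [bs, card_union_of_disjoint, card_image_of_injective _ (add_left_injective N)]
  · rw [card_range] at h3
    omega
  · refine disjoint_left.2 fun x hx hx' => ?_
    obtain ⟨a, -, rfl⟩ := mem_image.1 hx
    have := mem_range.1 (mem_sdiff.1 hx').1
    omega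

end NsC

open NsC in
theorem nsC (hmn : MnSt) : NsCSt := by
  intro n A hA
  let β : Fin A.card ↪o ℕ := A.orderEmbOfFin rfl
  have hβ : ∀ {M : Type} [CommMonoid M] (f : ℕ → M), ∏ a ∈ A, f a = ∏ i, f (β i) := by
    intro M _ f
    conv_lhs => rw [← map_orderEmbOfFin_univ A rfl]
    rw [prod_map]
    rfl
  have hs : ∑ i, β i = n + A.card.choose 2 := by
    rw [← hA]
    conv_rhs => rw [← map_orderEmbOfFin_univ A rfl]
    rw [sum_map]
    rfl
  have h1 := cf_one hmn n β hs
  rw [D_eq] at h1
  have h2 : ((Vd A : ℕ) : ℤ) = ∏ i, ∏ j ∈ Ioi i, ((β j : ℤ) - β i) := by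
    rw [Vd, hβ, Nat.cast_prod]
    refine prod_congr rfl fun i _ => ?_
    rw [prod_filter, hβ, ← prod_filter, Nat.cast_prod]
    refine prod_congr ?_ fun j hj => ?_
    · ext j
      simp
    · rw [Nat.cast_sub (β.monotone (mem_Ioi.1 hj).le)]
  rw [Nat.cast_mul, h2, hβ, Nat.cast_prod]
  exact h1

open NsC in
theorem nsD (hmn : MnSt) : NsDSt := by
  intro N w hc ha hb ρ h0
  have e : bs N w.swap = du (2 * N) (bs N w) := by
    ext y
    rw [mem_du, mem_bs hb, mem_bs (w := w.swap) ha]
    simp only [Prod.fst_swap, Prod.snd_swap]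
    rcases lt_or_ge y N with h | h
    · rw [show 2 * N - 1 - y - N = N - 1 - y by omega]
      constructor
      · rintro (k | k)
        · omega
        · refine ⟨by omega, ?_⟩
          rintro (l | l)
          · exact k.2 l.2
          · omega
      · rintro ⟨-, k⟩
        exact Or.inr ⟨h, fun l => k (Or.inl ⟨by omega, l⟩)⟩
    · constructor
      · rintro (k | k)
        · have := hb _ k.2
          refine ⟨by omega, ?_⟩
          rintro (l | l)
          · omega
          · rw [show N - 1 - (2 * N - 1 - y) = y - N by omega] at l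
            exact l.2 k.2
        · omega
      · rintro ⟨k1, k⟩
        refine Or.inl ⟨h, ?_⟩
        by_contra l
        refine k (Or.inr ⟨by omega, ?_⟩)
        rwa [show N - 1 - (2 * N - 1 - y) = y - N by omega]
  rw [e]
  refine cf_du hmn N ρ h0 _ (fun a h => ?_) (card_bs hc hb)
  rcases (mem_bs hb a).1 h with k | k
  · have := ha _ k.2
    omega
  · omega

end Pool.Agent.Lib.MP_1ae3da_al.GM
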