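import Pool.Agent.Lib.MP_1ae3da_al.GT

/-! The cycle type of a diagonal scaling of a vector space over the prime field. -/

namespace Pool.Agent.Lib.MP_1ae3da_al.GM

open Equiv Module

namespace NumA

variable {p : ℕ} [Fact p.Prime]

/-- the diagonal scaling. -/
def T {k : ℕ} : (Fin k → (ZMod p)ˣ) →* Perm (Fin k → ZMod p) :=
  MulAction.toPermHom (Fin k → (ZMod p)ˣ) (Fin k → ZMod p)

lemma T_apply {k : ℕ} (c : Fin k → (ZMod p)ˣ) (x : Fin k → ZMod p) (i : Fin k) :
    T c x i = (c i : ZMod p) * x i := rfl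

lemma per_dvd {k : ℕ} (c : Fin k → (ZMod p)ˣ) (x : Fin k → ZMod p) (n : ℕ) :
    Function.minimalPeriod (T c) x ∣ n ↔ ∀ i, x i = 0 ∨ c i ^ n = 1 := by
  rw [← Function.isPeriodicPt_iff_minimalPeriod_dvd, Function.IsPeriodicPt, Function.IsFixedPt,
    ← Perm.coe_pow, ← map_pow, funext_iff]
  refine forall_congr' fun i => ?_
  rw [T_apply, Pi.pow_apply]
  constructor
  · intro h
    by_cases hx : x i = 0
    · exact Or.inl hx
    · right
      apply Units.ext
      exact mul_right_cancel₀ hx (by rw [h, Units.val_one, one_mul])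
  · rintro (h | h)
    · rw [h, mul_zero]
    · rw [h, Units.val_one, one_mul]

lemma per_zero {k : ℕ} (c : Fin (k + 1) → (ZMod p)ˣ) (x : Fin k → ZMod p) :
    Function.minimalPeriod (T c) (Fin.cons 0 x) = Function.minimalPeriod (T (Fin.tail c)) x := by
  have h : ∀ n, Function.minimalPeriod (T c) (Fin.cons 0 x) ∣ n ↔
      Function.minimalPeriod (T (Fin.tail c)) x ∣ n := by
    intro n
    rw [per_dvd, per_dvd, Fin.forall_fin_succ]
    simp [Fin.tail]
  exact Nat.dvd_antisymm ((h _).2 dvd_rfl) ((h _).1 dvd_rfl)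

lemma per_ne {k : ℕ} (c : Fin (k + 1) → (ZMod p)ˣ) (a : ZMod p) (ha : a ≠ 0)
    (x : Fin k → ZMod p) : Function.minimalPeriod (T c) (Fin.cons a x) =
      orderOf (c 0) * Function.minimalPeriod (T (Fin.tail c ^ orderOf (c 0))) x := by
  have h : ∀ n, Function.minimalPeriod (T c) (Fin.cons a x) ∣ n ↔
      orderOf (c 0) ∣ n ∧ ∀ i, x i = 0 ∨ c i.succ ^ n = 1 := by
    intro n
    rw [per_dvd, Fin.forall_fin_succ, orderOf_dvd_iff_pow_eq_one]
    simp [ha]
  have h' : ∀ n, Function.minimalPeriod (T (Fin.tail c ^ orderOf (c 0))) x ∣ n ↔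
      ∀ i, x i = 0 ∨ c i.succ ^ (orderOf (c 0) * n) = 1 := by
    intro n
    rw [per_dvd]
    simp [Fin.tail, pow_mul]
  apply Nat.dvd_antisymm
  · exact (h _).2 ⟨dvd_mul_right _ _, (h' _).1 dvd_rfl⟩
  · obtain ⟨⟨m, hm⟩, h2⟩ := (h _).1 dvd_rfl
    rw [hm] at h2 ⊢
    exact Nat.mul_dvd_mul_left _ ((h' m).2 h2)

lemma ty_rec (hpa : PermASt) {k : ℕ} (c : Fin (k + 1) → (ZMod p)ˣ) (e : ℕ)
    (he : orderOf (c 0) * e = p - 1) :
    ty (T c) = ty (T (Fin.tail c)) +
      e • (ty (T (Fin.tail c ^ orderOf (c 0)))).map (orderOf (c 0) * ·) := by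
  classical
  set u := orderOf (c 0) with hu
  have hu0 : 0 < u := orderOf_pos _
  have h1 := hpa (Fin (k + 1) → ZMod p)
  have h2 := hpa (Fin k → ZMod p)
  have hcnt : ∀ r, r * (e * ((ty (T (Fin.tail c ^ u))).map (u * ·)).count r) =
      (p - 1) * (Finset.univ.filter fun x =>
        u * Function.minimalPeriod (T (Fin.tail c ^ u)) x = r).card := by
    intro r
    by_cases hr : u ∣ r
    · obtain ⟨m, rfl⟩ := hr
      rw [Multiset.count_map_eq_count' _ _ (mul_right_injective₀ hu0.ne') m]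
      simp only [Nat.mul_right_inj hu0.ne']
      rw [← h2.per, ← he]; ring
    · rw [Multiset.count_eq_zero_of_notMem, Finset.card_eq_zero.2]
      · simp
      · exact Finset.filter_eq_empty_iff.2 fun x _ h => hr ⟨_, h.symm⟩
      · intro h
        obtain ⟨m, _, hm⟩ := Multiset.mem_map.1 h
        exact hr ⟨m, hm.symm⟩
  ext r
  rw [Multiset.count_add, Multiset.count_nsmul]
  rcases Nat.eq_zero_or_pos r with rfl | hr
  · rw [Multiset.count_eq_zero_of_notMem (h1.pos _), Multiset.count_eq_zero_of_notMem (h2.pos _),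
      Multiset.count_eq_zero_of_notMem]
    · simp
    · intro h
      obtain ⟨m, hm, hm'⟩ := Multiset.mem_map.1 h
      rcases Nat.mul_eq_zero.1 hm' with h | rfl
      · omega
      · exact h2.pos _ hm
  apply Nat.eq_of_mul_eq_mul_left hr
  rw [mul_add, hcnt, h1.per, h2.per]
  simp only [Finset.card_filter]
  rw [← Fintype.sum_equiv (Fin.consEquiv fun _ : Fin (k + 1) => ZMod p)
    (fun w => if Function.minimalPeriod (T c) (Fin.cons w.1 w.2) = r then 1 else 0) _
    (fun _ => rfl), Fintype.sum_prod_type, ← Finset.add_sum_erase _ _ (Finset.mem_univ 0)]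
  congr 1
  · simp only [per_zero]
  · rw [Finset.sum_congr rfl (g := fun _ => ∑ x, if
        u * Function.minimalPeriod (T (Fin.tail c ^ u)) x = r then 1 else 0)]
    · rw [Finset.sum_const, Finset.card_erase_of_mem (Finset.mem_univ _), Finset.card_univ,
        ZMod.card, smul_eq_mul]
    · intro a ha
      simp only [per_ne c a (Finset.ne_of_mem_erase ha), hu]

omit [Fact p.Prime] in
lemma eta_pow (hp : p % 2 = 1) (a b : ℕ) (h : p % 4 = 3 → a % 2 = b % 2) :
    ((-1 : ℤ) ^ (p / 2)) ^ a = ((-1) ^ (p / 2)) ^ b := by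
  by_cases h3 : p % 4 = 3
  · have h1 : Odd (p / 2) := Nat.odd_iff.2 (by omega)
    rw [h1.neg_one_pow, neg_one_pow_eq_pow_mod_two, h h3, ← neg_one_pow_eq_pow_mod_two]
  · have h1 : Even (p / 2) := Nat.even_iff.2 (by omega)
    rw [h1.neg_one_pow, one_pow, one_pow]

omit [Fact p.Prime] in
lemma jac_neg (hp : p % 2 = 1) : jacobiSym (-1) p = (-1) ^ (p / 2) := by
  rw [jacobiSym.at_neg_one (Nat.odd_iff.2 hp), ZMod.χ₄_eq_neg_one_pow hp]

omit [Fact p.Prime] in
lemma jac_u (hp : p % 2 = 1) (u e : ℕ) (h : u * e + 1 = p) (he : e % 2 = 1) :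
    jacobiSym u p = ((-1) ^ (p / 2)) ^ (e / 2 + 1) := by
  have h1 : jacobiSym e p = ((-1) ^ (p / 2)) ^ (e / 2) := by
    rw [jacobiSym.quadratic_reciprocity (Nat.odd_iff.2 he) (Nat.odd_iff.2 hp)]
    have : jacobiSym p e = jacobiSym 1 e := by
      apply jacobiSym.mod_left'
      rw [← h]; push_cast
      rw [add_comm, Int.add_mul_emod_self_right]
    rw [this, jacobiSym.one_left, mul_one, mul_comm, pow_mul]
  have h2 : jacobiSym u p * jacobiSym e p = (-1) ^ (p / 2) := by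
    rw [← jacobiSym.mul_left, ← jac_neg hp]
    apply jacobiSym.mod_left'
    have : (u : ℤ) * e = -1 + 1 * p := by rw [← h]; push_cast; ring
    rw [this, Int.add_mul_emod_self_right]
  have h3 : ((-1 : ℤ) ^ (p / 2)) ^ (e / 2) * ((-1) ^ (p / 2)) ^ (e / 2) = 1 := by
    rw [← pow_add, eta_pow hp _ 0 (fun _ => by omega), pow_zero]
  rw [h1] at h2
  calc jacobiSym u p = jacobiSym u p * (((-1 : ℤ) ^ (p / 2)) ^ (e / 2) *
        ((-1) ^ (p / 2)) ^ (e / 2)) := by rw [h3, mul_one]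
    _ = _ := by rw [← mul_assoc, h2, pow_succ']

omit [Fact p.Prime] in
lemma jac_sq (u e : ℕ) (h : u * e + 1 = p) : jacobiSym u p ^ 2 = 1 := by
  apply jacobiSym.sq_one
  rw [Int.gcd_natCast_natCast, ← h]
  simp

lemma chi_one : chi (1 : ZMod p) = 1 := by simp [chi]

lemma chi_pow (hsq : SqSt) (c : (ZMod p)ˣ) (u : ℕ) :
    chi ((c ^ u : (ZMod p)ˣ) : ZMod p) = chi (c : ZMod p) ^ u := by
  induction u with
  | zero => simp [chi_one]
  | succ u ih =>
    rw [pow_succ, Units.val_mul, hsq.chi_mul p _ _ Fact.out (Units.ne_zero _) (Units.ne_zero _),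
      ih, pow_succ]

lemma chi_ord (hp : p % 2 = 1) (c : (ZMod p)ˣ) (e : ℕ) (h : orderOf c * e + 1 = p) :
    chi (c : ZMod p) = if e % 2 = 0 then 1 else -1 := by
  have h0 : 0 < orderOf c := orderOf_pos _
  have : IsSquare (c : ZMod p) ↔ e % 2 = 0 := by
    rw [ZMod.euler_criterion p (Units.ne_zero c), ← Units.val_pow_eq_pow_val, Units.val_eq_one,
      ← orderOf_dvd_iff_pow_eq_one]
    constructor
    · rintro ⟨m, hm⟩
      have : orderOf c * e = orderOf c * (2 * m) := by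
        rw [mul_left_comm, ← hm]; omega
      have := Nat.eq_of_mul_eq_mul_left h0 this
      omega
    · intro he
      refine ⟨e / 2, ?_⟩
      have : orderOf c * e = 2 * (orderOf c * (e / 2)) := by
        rw [mul_left_comm]; congr 1; omega
      omega
  unfold chi
  simp only [this]

/-- the invariant. -/
def Good (p n : ℕ) (s : ℤˣ) (c : ℕ) (J : ℤ) : Prop :=
  (s = 1 → c % 2 = 1 ∧ J = ((-1) ^ (p / 2)) ^ ((n - c) / 2)) ∧
    (s = -1 → c % 2 = 0 ∧ J = ((-1) ^ (p / 2)) ^ (c / 2))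

omit [Fact p.Prime] in
lemma step (hp : p % 2 = 1) (u e n : ℕ) (h : u * e + 1 = p) (hn : n % 2 = 1) (s : ℤˣ)
    (c c' : ℕ) (J J' : ℤ) (hc : c ≤ n) (hc' : c' ≤ n) (hcc : c + e * c' ≤ n * p)
    (h1 : Good p n s c J) (h2 : Good p n (s ^ u) c' J') :
    Good p (n * p) ((if e % 2 = 0 then 1 else -1) * s) (c + e * c')
      (J * (jacobiSym u p ^ c' * J') ^ e) := by
  have hJ' : J' ^ 2 = 1 := by
    rcases Int.units_eq_one_or (s ^ u) with hs | hs
    · rw [(h2.1 hs).2, ← pow_mul, eta_pow hp _ 0 (fun _ => by omega), pow_zero]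
    · rw [(h2.2 hs).2, ← pow_mul, eta_pow hp _ 0 (fun _ => by omega), pow_zero]
  have hsq : (jacobiSym u p ^ c' * J') ^ 2 = 1 := by
    rw [mul_pow, hJ', ← pow_mul, mul_comm c', pow_mul, jac_sq u e h, one_pow, one_mul]
  have hnp : p % 4 = 3 → (n * p + n) % 4 = 0 := by
    intro h3
    have : n * p + n = 4 * (n * (p / 4 + 1)) := by
      conv_lhs => rw [← Nat.div_add_mod p 4, h3]
      ring
    omega
  have hne : (1 : ℤˣ) ≠ -1 := by decide
  by_cases he : e % 2 = 0
  · obtain ⟨f, rfl⟩ : ∃ f, e = 2 * f := ⟨e / 2, by omega⟩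
    rw [if_pos he, one_mul, pow_mul, hsq, one_pow, mul_one]
    have huf : p % 4 = 3 → u % 2 = 1 ∧ f % 2 = 1 := by
      intro h3
      have : (u * f) % 2 = 1 := by
        have : u * (2 * f) = 2 * (u * f) := by ring
        omega
      exact ⟨Nat.odd_iff.1 (Nat.odd_mul.1 (Nat.odd_iff.2 this)).1,
        Nat.odd_iff.1 (Nat.odd_mul.1 (Nat.odd_iff.2 this)).2⟩
    have hfc : p % 4 = 3 → (f * c') % 2 = c' % 2 := by
      intro h3
      rw [Nat.mul_mod, (huf h3).2, one_mul, Nat.mod_mod]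
    rw [mul_assoc] at hcc ⊢
    refine ⟨fun hs => ⟨by have := (h1.1 hs).1; omega, ?_⟩,
      fun hs => ⟨by have := (h1.2 hs).1; omega, ?_⟩⟩
    · rw [(h1.1 hs).2]
      refine eta_pow hp _ _ fun h3 => ?_
      have a1 := (h1.1 hs).1
      have a2 := (h2.1 (by rw [hs, one_pow])).1
      have a3 := hfc h3
      have a4 := hnp h3
      omega
    · rw [(h1.2 hs).2]
      refine eta_pow hp _ _ fun h3 => ?_
      have a1 := (h1.2 hs).1
      have a2 := (h2.2 (by rw [hs, (Nat.odd_iff.2 (huf h3).1).neg_one_pow])).1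
      have a3 := hfc h3
      omega
  · obtain ⟨f, rfl⟩ : ∃ f, e = 2 * f + 1 := ⟨e / 2, by omega⟩
    have hu : u % 2 = 0 := by
      have : u * (2 * f + 1) = 2 * (u * f) + u := by ring
      omega
    have hs' : s ^ u = 1 := by
      rcases Int.units_eq_one_or s with rfl | rfl
      · exact one_pow _
      · exact (Nat.even_iff.2 hu).neg_one_pow
    obtain ⟨a2, hJ2⟩ := h2.1 hs'
    have hfc : (f * c') % 2 = f % 2 := by
      rw [Nat.mul_mod, a2, mul_one, Nat.mod_mod]
    have hfc' : ((2 * f + 1) / 2 + 1) * c' = f * c' + c' := by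
      have : (2 * f + 1) / 2 = f := by omega
      rw [this]; ring
    have hec : (2 * f + 1) * c' = 2 * (f * c') + c' := by ring
    rw [if_neg he, pow_succ, pow_mul, hsq, one_pow, one_mul, jac_u hp u _ h (by omega), hJ2,
      ← pow_mul, hfc', ← pow_add]
    rw [hec] at hcc ⊢
    rcases Int.units_eq_one_or s with rfl | rfl
    · obtain ⟨a1, hJ⟩ := h1.1 rfl
      refine ⟨fun hs => absurd hs (by decide), fun _ => ⟨by omega, ?_⟩⟩
      rw [hJ, ← pow_add]
      refine eta_pow hp _ _ fun h3 => ?_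
      omega
    · obtain ⟨a1, hJ⟩ := h1.2 rfl
      refine ⟨fun _ => ⟨by omega, ?_⟩, fun hs => absurd hs (by decide)⟩
      rw [hJ, ← pow_add]
      refine eta_pow hp _ _ fun h3 => ?_
      have a4 := hnp h3
      omega

lemma card_le (hpa : PermASt) {Ω : Type} [Fintype Ω] [DecidableEq Ω] (g : Perm Ω) :
    (ty g).card ≤ Fintype.card Ω := by
  rw [← (hpa Ω).sum g]
  have := Multiset.card_nsmul_le_sum (s := ty g) (a := 1) fun x hx =>
    Nat.pos_of_ne_zero fun h => (hpa Ω).pos g (h ▸ hx)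
  simpa using this

lemma good (hsq : SqSt) (hpa : PermASt) (hp : p % 2 = 1) (k : ℕ) : ∀ c : Fin k → (ZMod p)ˣ,
    Good p (p ^ k) (∏ i, chi (c i : ZMod p)) (ty (T c)).card
      (jacobiSym ((ty (T c)).prod : ℕ) p) := by
  have hcard : ∀ k, Fintype.card (Fin k → ZMod p) = p ^ k := fun k => by simp [ZMod.card]
  induction k with
  | zero =>
    intro c
    have h1 : T c = 1 := Subsingleton.elim _ _
    rw [h1, (hpa _).one, hcard]
    refine ⟨fun _ => by simp [jacobiSym.one_left], fun h => absurd h (by simp)⟩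
  | succ k ih =>
    intro c
    obtain ⟨e, he⟩ := ZMod.orderOf_units_dvd_card_sub_one (c 0)
    have hp1 : 1 < p := (Fact.out : p.Prime).one_lt
    have he' : orderOf (c 0) * e + 1 = p := by omega
    have hle := card_le hpa (T c)
    have h1 := ih (Fin.tail c)
    have h2 := ih (Fin.tail c ^ orderOf (c 0))
    have l1 := card_le hpa (T (Fin.tail c))
    have l2 := card_le hpa (T (Fin.tail c ^ orderOf (c 0)))
    rw [hcard] at hle l1 l2
    simp only [Pi.pow_apply, chi_pow hsq, Finset.prod_pow] at h2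
    rw [ty_rec hpa c e he.symm] at hle ⊢
    rw [Multiset.card_add, Multiset.card_nsmul, Multiset.card_map, pow_succ] at hle ⊢
    rw [Fin.prod_univ_succ, chi_ord hp (c 0) e he', Multiset.prod_add, Multiset.prod_nsmul,
      Multiset.prod_map_mul, Multiset.map_const', Multiset.prod_replicate, Multiset.map_id']
    push_cast
    rw [jacobiSym.mul_left, jacobiSym.pow_left, jacobiSym.mul_left, jacobiSym.pow_left]
    push_cast at h1 h2
    exact step hp _ e _ he' (Nat.odd_iff.1 ((Nat.odd_iff.2 hp).pow)) _ _ _ _ _ l1 l2 hle h1 h2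

/-- the points of a single block. -/
def eqv {k0 : ℕ} (k : Fin k0) : (Fin k → ZMod p) ≃ Om p k0 (fun _ : Unit => k) where
  toFun x := ⟨((), fun j => if h : (j : ℕ) < k then x ⟨j, h⟩ else 0),
    fun j hj => dif_neg (not_lt.2 hj)⟩
  invFun w := fun i => w.1.2 (Fin.castLE k.2.le i)
  left_inv x := by
    funext i
    simp
  right_inv w := by
    apply Subtype.ext
    refine Prod.ext rfl (funext fun j => ?_)
    dsimp only
    split_ifs with h
    · rfl
    · exact (w.2 j (not_lt.1 h)).symm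

lemma tor_eq {k0 : ℕ} (τ : Ty p k0) : Lg.tp τ.tor =
    (eqv τ.1).permCongr (T fun i => τ.sc (Fin.castLE τ.1.2.le i)) := by
  ext1 w
  apply Subtype.ext
  refine Prod.ext rfl (funext fun j => ?_)
  simp only [Lg.tp_apply, Lg.ap, Ty.tor, permCongr_apply, eqv, coe_fn_mk, coe_fn_symm_mk]
  by_cases h : (j : ℕ) < τ.1
  · rw [dif_pos h, if_pos (show j < τ.1 from h), T_apply]
    rfl
  · rw [dif_neg h, w.2 j (not_lt.1 h), mul_zero]

lemma par_eq {k0 : ℕ} (τ : Ty p k0) (h : τ.nrm) :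
    τ.par = ∏ i : Fin τ.1, chi (τ.sc (Fin.castLE τ.1.2.le i) : ZMod p) := by
  unfold Ty.par
  symm
  refine Finset.prod_of_injOn (Fin.castLE τ.1.2.le) (Fin.castLE_injective _).injOn
    (fun _ _ => Finset.mem_univ _) ?_ fun _ _ => rfl
  intro j _ hj
  have : τ.1 ≤ j := by
    by_contra hlt
    exact hj ⟨⟨j, not_le.1 hlt⟩, Finset.mem_coe.2 (Finset.mem_univ _), rfl⟩
  rw [Ty.sc, h j this]
  exact chi_one

end NumA

open NumA in
theorem numA (hsq : SqSt) (hpa : PermASt) (hpb : PermBSt) (hsA : SylASt) : NumASt := by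
  intro p k0 _ τ hp2 hn
  have hp : p % 2 = 1 := Nat.odd_iff.1 ((Fact.out : p.Prime).odd_of_ne_two hp2)
  have hcard : Fintype.card (Fin τ.1 → ZMod p) = p ^ (τ.1 : ℕ) := by simp [ZMod.card]
  have hg := good hsq hpa hp τ.1 fun i => τ.sc (Fin.castLE τ.1.2.le i)
  rw [← par_eq τ hn] at hg
  rw [tor_eq, (hpa _).congr]
  refine ⟨by rw [(hpa _).sum, hcard], fun h => ?_, fun h => ?_, fun h => ?_⟩
  · obtain ⟨h1, h2⟩ := hg.1 h
    refine ⟨Nat.odd_iff.2 h1, ?_⟩
    rw [jacobiSym.mul_left, jacobiSym.pow_left, jac_neg hp, h2, ← pow_add,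
      eta_pow hp _ 0 (fun _ => by omega), pow_zero]
  · obtain ⟨h1, h2⟩ := hg.2 h
    refine ⟨Nat.even_iff.2 h1, ?_⟩
    rw [jacobiSym.mul_left, jacobiSym.pow_left, jac_neg hp, h2, ← pow_add,
      eta_pow hp _ 0 (fun _ => by omega), pow_zero]
  · have h1 : (fun i => τ.sc (Fin.castLE τ.1.2.le i)) = 1 := by
      funext i
      have h2 : τ.2 (Fin.castLE τ.1.2.le i) = none := by
        have := congrFun (congrArg Prod.snd h) (Fin.castLE τ.1.2.le i)
        rw [this]
        exact if_pos i.2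
      rw [Ty.sc, h2]
      rfl
    rw [h1, map_one, (hpa _).one, hcard]

end Pool.Agent.Lib.MP_1ae3da_al.GM
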