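import Pool.Agent.Lib.MP_1ae3da_al.GT

/-! Discriminants of the local classes. -/

namespace Pool.Agent.Lib.MP_1ae3da_al.GM

open Equiv

namespace Num

variable {p k0 : ℕ} [Fact p.Prime]

/-- the multiset of all cycles. -/
def cyc (m : Ty p k0 → Multiset ℕ) : Multiset (Ty p k0 × ℕ) := ∑ τ, (m τ).map (Prod.mk τ)

lemma mem_cyc {m : Ty p k0 → Multiset ℕ} {c : Ty p k0 × ℕ} (h : c ∈ cyc m) : c.2 ∈ m c.1 := by
  rw [cyc, Multiset.mem_sum] at h
  obtain ⟨τ, -, h⟩ := h
  obtain ⟨r, hr, rfl⟩ := Multiset.mem_map.1 h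
  exact hr

lemma flat_prod {M : Type} [CommMonoid M] (m : Ty p k0 → Multiset ℕ) (f : Ty p k0 → ℕ → M) :
    ∏ τ, ((m τ).map (f τ)).prod = ((cyc m).map fun c => f c.1 c.2).prod := by
  rw [cyc]
  induction (Finset.univ : Finset (Ty p k0)) using Finset.induction_on with
  | empty => simp
  | insert τ s h ih =>
    rw [Finset.prod_insert h, Finset.sum_insert h, Multiset.map_add, Multiset.prod_add, ih,
      Multiset.map_map]
    rfl

lemma flat_sum {M : Type} [AddCommMonoid M] (m : Ty p k0 → Multiset ℕ) (f : Ty p k0 → ℕ → M) :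
    ∑ τ, ((m τ).map (f τ)).sum = ((cyc m).map fun c => f c.1 c.2).sum := by
  rw [cyc]
  induction (Finset.univ : Finset (Ty p k0)) using Finset.induction_on with
  | empty => simp
  | insert τ s h ih =>
    rw [Finset.sum_insert h, Finset.sum_insert h, Multiset.map_add, Multiset.sum_add, ih,
      Multiset.map_map]
    rfl

lemma star_sum {M : Type} [AddCommMonoid M] (g : Ty p k0 → M) :
    ∑ k, g (Ty.star p k) = ∑ τ : Ty p k0, if τ = Ty.star p τ.1 then g τ else 0 := by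
  rw [Fintype.sum_prod_type]
  refine Finset.sum_congr rfl fun k _ => ?_
  rw [Finset.sum_eq_single (Ty.star p k).2]
  · exact (if_pos rfl).symm
  · intro f _ hf
    exact if_neg fun e => hf (congrArg Prod.snd e)
  · simp

/-- the orbit lengths of the scaling of a type. -/
noncomputable def tt (τ : Ty p k0) : Multiset ℕ := ty (Lg.tp τ.tor)
/-- contribution of a cycle to `n`. -/
def cn (c : Ty p k0 × ℕ) : ℕ := c.2 * p ^ (c.1.1 : ℕ)
/-- contribution to `tyM`. -/
noncomputable def ct (c : Ty p k0 × ℕ) : Multiset ℕ := (tt c.1).map fun u => c.2 * u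
/-- contribution to `Lam`. -/
def cl (c : Ty p k0 × ℕ) : Multiset ℕ :=
  if c.1 = Ty.star p c.1.1 then {p ^ (c.1.1 : ℕ) * c.2} else 0
/-- contribution to the exponent of `pst`. -/
def ce (c : Ty p k0 × ℕ) : ℕ := if c.1 = Ty.star p c.1.1 then c.1.1 else 0

lemma n_eq {a : Fin k0 → ℕ} {m : Ty p k0 → Multiset ℕ} (h : Val a m) :
    ∑ k, a k * p ^ (k : ℕ) = ((cyc m).map cn).sum := by
  refine Eq.trans ?_ (flat_sum m fun τ r => r * p ^ (τ.1 : ℕ))
  rw [← Finset.sum_fiberwise Finset.univ (fun τ : Ty p k0 => τ.1)]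
  refine Finset.sum_congr rfl fun k _ => ?_
  rw [← h.2.2 k, Finset.sum_mul]
  refine Finset.sum_congr rfl fun τ hτ => ?_
  rw [Finset.mem_filter] at hτ
  rw [Multiset.sum_map_mul_right, Multiset.map_id', hτ.2]

lemma tyM_eq (m : Ty p k0 → Multiset ℕ) : tyM m = ((cyc m).map ct).sum :=
  flat_sum m fun τ r => (tt τ).map fun u => r * u

lemma Lam_eq (m : Ty p k0 → Multiset ℕ) : Lam m = ((cyc m).map cl).sum := by
  refine Eq.trans ?_ (flat_sum m fun τ r => cl (τ, r))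
  refine (star_sum fun τ : Ty p k0 => (m τ).map fun r => p ^ (τ.1 : ℕ) * r).trans ?_
  refine Finset.sum_congr rfl fun τ _ => ?_
  simp only [cl]
  split_ifs
  · exact (Multiset.bind_singleton _ _).symm
  · simp

lemma e_eq (m : Ty p k0 → Multiset ℕ) :
    ∑ k : Fin k0, (k : ℕ) * (m (Ty.star p k)).card = ((cyc m).map ce).sum := by
  refine Eq.trans ?_ (flat_sum m fun τ r => ce (τ, r))
  refine (star_sum fun τ : Ty p k0 => (τ.1 : ℕ) * (m τ).card).trans ?_
  refine Finset.sum_congr rfl fun τ _ => ?_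
  simp only [ce]
  split_ifs
  · simp [mul_comm]
  · simp

lemma choose_two_add (d g : ℕ) :
    (-1 : ℤ) ^ (d + 2 * g).choose 2 = (-1) ^ d.choose 2 * (-1) ^ g := by
  induction g with
  | zero => simp
  | succ g ih =>
    have : (d + 2 * (g + 1)).choose 2 = (d + 2 * g).choose 2 + 2 * (d + 2 * g) + 1 := by
      rw [show d + 2 * (g + 1) = d + 2 * g + 1 + 1 by ring, Nat.choose_succ_succ' _ 1,
        Nat.choose_succ_succ' _ 1, Nat.choose_one_right, Nat.choose_one_right]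
      ring
    rw [this, pow_succ, pow_add, pow_mul, ih, pow_succ (-1 : ℤ) g, neg_one_sq, one_pow]
    ring

lemma card_le_sum {ρ : Multiset ℕ} (h : 0 ∉ ρ) : ρ.card ≤ ρ.sum := by
  have := Multiset.card_nsmul_le_sum (s := ρ) (a := 1) fun x hx =>
    Nat.one_le_iff_ne_zero.2 fun e => h (e ▸ hx)
  simpa using this

/-- an even power of `p` times a nonzero square modulo `p`. -/
def S (p : ℕ) (x : ℤ) : Prop := Cmp p x 1

omit [Fact p.Prime] in
lemma S.cmp {a b : ℤ} (h : S p (a * b)) : Cmp p a b := by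
  obtain ⟨j, w, h1, h2⟩ := h
  exact ⟨j, w, by rw [← h1, mul_one], h2⟩

lemma S.mul (hcmp : CmpSt) {a b : ℤ} (h : S p a) (h' : S p b) : S p (a * b) := by
  have := hcmp.mul p a 1 b 1 Fact.out h h'
  rwa [mul_one] at this

lemma S.sq (hcmp : CmpSt) {e : ℤ} (h : e ≠ 0) : S p (e ^ 2) := by
  have := hcmp.sq p 1 e Fact.out one_ne_zero h
  rwa [one_mul] at this

lemma S.of (hcmp : CmpSt) {x e w : ℤ} (h : e ≠ 0) (hw : jacobiSym w p = 1) (hx : x = e ^ 2 * w) :
    S p x :=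
  hx ▸ (S.sq hcmp h).mul hcmp (hcmp.unit p w 1 (by rwa [mul_one]))

lemma odd_p (hp : p ≠ 2) : Odd p := (Fact.out : p.Prime).odd_of_ne_two hp

omit [Fact p.Prime] in
lemma sign_pow (hp : Odd p) (k : ℕ) :
    ∃ g, p ^ k = 1 + 2 * g ∧ (-1 : ℤ) ^ g = ((-1) ^ ((p - 1) / 2)) ^ k := by
  obtain ⟨h, rfl⟩ := hp
  have e : (2 * h + 1 - 1) / 2 = h := by omega
  rw [e]
  induction k with
  | zero => exact ⟨0, by simp, by simp⟩
  | succ k ih =>
    obtain ⟨g, h1, h2⟩ := ih
    refine ⟨g + h + 2 * (g * h), by rw [pow_succ, h1]; ring, ?_⟩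
    rw [pow_add, pow_add, pow_mul, h2, neg_one_sq, one_pow]
    ring

lemma ct_card (c : Ty p k0 × ℕ) : (ct c).card = (tt c.1).card := Multiset.card_map _ _

lemma ct_prod (c : Ty p k0 × ℕ) : (ct c).prod = c.2 ^ (tt c.1).card * (tt c.1).prod := by
  rw [ct, Multiset.prod_map_mul, Multiset.map_const', Multiset.prod_replicate, Multiset.map_id']

lemma cyc1 (hnuA : NumASt) (hcmp : CmpSt) (htc : TyCntSt) (hp : p ≠ 2) (c : Ty p k0 × ℕ)
    (h0 : c.2 ≠ 0) (hn : c.1.nrm) (hg : c.1.par = 1 → c.1 = Ty.star p c.1.1) :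
    ∃ g, (ct c).card = (cl c).card + 2 * g ∧
      S p ((-1) ^ g * ((ct c).prod : ℕ) * ((cl c).prod : ℕ) * pst p ^ ce c) := by
  obtain ⟨-, -, h2, h3⟩ := hnuA p k0 c.1 hp hn
  have hp0 : (p : ℤ) ≠ 0 := Nat.cast_ne_zero.2 (Fact.out : p.Prime).ne_zero
  have hr : (c.2 : ℤ) ≠ 0 := Nat.cast_ne_zero.2 h0
  rw [ct_card, ct_prod]
  rcases Int.units_eq_one_or c.1.par with h | h
  · have hs := hg h
    have ht : tt c.1 = Multiset.replicate (p ^ (c.1.1 : ℕ)) 1 := h3 hs
    obtain ⟨g, g1, g2⟩ := sign_pow (odd_p hp) (c.1.1 : ℕ)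
    refine ⟨g, ?_, ?_⟩
    · rw [ht, cl, if_pos hs, Multiset.card_replicate, Multiset.card_singleton, g1]
    · rw [ht, cl, if_pos hs, ce, if_pos hs, Multiset.card_replicate, Multiset.prod_singleton,
        Multiset.prod_replicate, g2, pst]
      refine S.of hcmp (e := ((-1) ^ ((p - 1) / 2) * p) ^ (c.1.1 : ℕ) * (c.2 : ℤ) ^ (g + 1))
        (w := 1) (by positivity) (jacobiSym.one_left p) ?_
      push_cast
      rw [g1, mul_pow]
      ring
  · have hs : ¬ c.1 = Ty.star p c.1.1 := fun e => by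
      have := (htc p k0 c.1.1 hp).2.2.2.1
      rw [← e, h] at this
      exact absurd this (by decide)
    obtain ⟨⟨g, g1⟩, g2⟩ := h2 h
    change (tt c.1).card = g + g at g1
    change jacobiSym ((-1) ^ ((tt c.1).card / 2) * ((tt c.1).prod : ℕ)) p = 1 at g2
    rw [g1, show (g + g) / 2 = g by omega] at g2
    refine ⟨g, ?_, ?_⟩
    · rw [cl, if_neg hs, g1, Multiset.card_zero]
      ring
    · rw [cl, if_neg hs, ce, if_neg hs, g1]
      refine S.of hcmp (e := (c.2 : ℤ) ^ g) (by positivity) g2 ?_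
      rw [Multiset.prod_zero]
      push_cast
      ring

lemma all1 (hcmp : CmpSt) (C : Multiset (Ty p k0 × ℕ))
    (h : ∀ c ∈ C, ∃ g, (ct c).card = (cl c).card + 2 * g ∧
      S p ((-1) ^ g * ((ct c).prod : ℕ) * ((cl c).prod : ℕ) * pst p ^ ce c)) :
    ∃ g, (C.map ct).sum.card = (C.map cl).sum.card + 2 * g ∧
      S p ((-1) ^ g * ((C.map ct).sum.prod : ℕ) * ((C.map cl).sum.prod : ℕ) *
        pst p ^ (C.map ce).sum) := by
  induction C using Multiset.induction_on with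
  | empty => exact ⟨0, by simp, by simpa using S.sq (p := p) hcmp one_ne_zero⟩
  | cons c C ih =>
    obtain ⟨g, g1, g2⟩ := h c (Multiset.mem_cons_self _ _)
    obtain ⟨g', g1', g2'⟩ := ih fun c hc => h c (Multiset.mem_cons_of_mem hc)
    refine ⟨g + g', ?_, ?_⟩
    · simp only [Multiset.map_cons, Multiset.sum_cons, Multiset.card_add]
      omega
    · simp only [Multiset.map_cons, Multiset.sum_cons, Multiset.prod_add]
      convert g2.mul hcmp g2' using 1
      push_cast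
      ring

/-- the discriminant of a cycle. -/
noncomputable def cd (c : Ty p k0 × ℕ) : ℤ :=
  (-1) ^ (c.2 - 1).choose 2 * (c.2 : ℤ) ^ c.2 * (c.1.par : ℤ) ^ (c.2 - 1)

omit [Fact p.Prime] in
lemma par_cases {r : ℕ} {u : ℤˣ} (h0 : r ≠ 0) (h : (-1) ^ (r - 1) * u = 1) :
    (u = 1 ∧ ∃ t, r = 2 * t + 1) ∨ (u = -1 ∧ ∃ t, r = 2 * t + 2) := by
  rcases Nat.even_or_odd' (r - 1) with ⟨t, ht | ht⟩
  · rw [ht, pow_mul] at h
    exact Or.inl ⟨by simpa using h, t, by omega⟩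
  · rw [ht, pow_succ, pow_mul] at h
    refine Or.inr ⟨?_, t, by omega⟩
    have : -u = 1 := by simpa using h
    rw [← this, neg_neg]

lemma cyc2 (hnuA : NumASt) (hcmp : CmpSt) (hpa : PermASt) (hp : p ≠ 2) (c : Ty p k0 × ℕ)
    (h0 : c.2 ≠ 0) (hn : c.1.nrm) (hg : (-1) ^ (c.2 - 1) * c.1.par = 1) :
    ∃ g, cn c = (ct c).card + 2 * g ∧ S p ((-1) ^ g * ((ct c).prod : ℕ) * cd c) := by
  obtain ⟨h1, h2, h3, -⟩ := hnuA p k0 c.1 hp hn
  have hr : (c.2 : ℤ) ≠ 0 := Nat.cast_ne_zero.2 h0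
  have hle : (tt c.1).card ≤ p ^ (c.1.1 : ℕ) := h1 ▸ card_le_sum ((hpa _).pos _)
  obtain ⟨f, hf⟩ : Odd (p ^ (c.1.1 : ℕ)) := (odd_p hp).pow
  rw [ct_card, ct_prod, cn, cd]
  rcases par_cases h0 hg with ⟨h, t, ht⟩ | ⟨h, t, ht⟩
  · obtain ⟨⟨g, g1⟩, g2⟩ := h2 h
    change (tt c.1).card = 2 * g + 1 at g1
    change jacobiSym ((-1) ^ ((p ^ (c.1.1 : ℕ) - (tt c.1).card) / 2) * ((tt c.1).prod : ℕ)) p = 1
      at g2
    obtain ⟨d, rfl⟩ : ∃ d, f = g + d := ⟨f - g, by omega⟩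
    rw [g1, hf, show (2 * (g + d) + 1 - (2 * g + 1)) / 2 = d by omega] at g2
    refine ⟨d + t + 2 * (t * (g + d)), by rw [g1, hf, ht]; ring, ?_⟩
    refine S.of hcmp (e := (-1) ^ t * (c.2 : ℤ) ^ (g + t + 1)) (by positivity) g2 ?_
    have e1 : (-1 : ℤ) ^ (c.2 - 1).choose 2 = (-1) ^ t := by
      have := choose_two_add 0 t
      rw [ht]
      simpa using this
    have e2 : (c.2 : ℤ) ^ c.2 = (c.2 : ℤ) ^ (2 * t + 1) := by rw [← ht]
    rw [e1, e2, h, g1, pow_add, pow_mul]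
    push_cast
    ring
  · obtain ⟨⟨g, g1⟩, g2⟩ := h3 h
    change (tt c.1).card = g + g at g1
    change jacobiSym ((-1) ^ ((tt c.1).card / 2) * ((tt c.1).prod : ℕ)) p = 1 at g2
    obtain ⟨d, rfl⟩ : ∃ d, f = g + d := ⟨f - g, by omega⟩
    rw [g1, show (g + g) / 2 = g by omega] at g2
    refine ⟨g + t + 1 + 2 * (d + t * (g + d)), by rw [g1, hf, ht]; ring, ?_⟩
    refine S.of hcmp (e := (-1) ^ t * (c.2 : ℤ) ^ (g + t + 1)) (by positivity) g2 ?_
    have e1 : (-1 : ℤ) ^ (c.2 - 1).choose 2 = (-1) ^ t := by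
      have := choose_two_add 1 t
      rw [ht, show 2 * t + 2 - 1 = 1 + 2 * t by omega]
      simpa using this
    have e2 : (c.2 : ℤ) ^ c.2 = (c.2 : ℤ) ^ (2 * t + 2) := by rw [← ht]
    have e3 : (-1 : ℤ) ^ (c.2 - 1) = -1 := by
      rw [ht, show 2 * t + 2 - 1 = 2 * t + 1 by omega, pow_succ, pow_mul]
      simp
    rw [e1, e2, h, Units.val_neg, Units.val_one, e3, g1, pow_add, pow_mul]
    push_cast
    ring

lemma all2 (hcmp : CmpSt) (C : Multiset (Ty p k0 × ℕ))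
    (h : ∀ c ∈ C, ∃ g, cn c = (ct c).card + 2 * g ∧ S p ((-1) ^ g * ((ct c).prod : ℕ) * cd c)) :
    ∃ g, (C.map cn).sum = (C.map ct).sum.card + 2 * g ∧
      S p ((-1) ^ g * ((C.map ct).sum.prod : ℕ) * (C.map cd).prod) := by
  induction C using Multiset.induction_on with
  | empty => exact ⟨0, by simp, by simpa using S.sq (p := p) hcmp one_ne_zero⟩
  | cons c C ih =>
    obtain ⟨g, g1, g2⟩ := h c (Multiset.mem_cons_self _ _)
    obtain ⟨g', g1', g2'⟩ := ih fun c hc => h c (Multiset.mem_cons_of_mem hc)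
    refine ⟨g + g', ?_, ?_⟩
    · simp only [Multiset.map_cons, Multiset.sum_cons, Multiset.card_add]
      omega
    · simp only [Multiset.map_cons, Multiset.sum_cons, Multiset.prod_add, Multiset.prod_cons]
      convert g2.mul hcmp g2' using 1
      push_cast
      ring

lemma cyc0 (htc : TyCntSt) (hp : p ≠ 2) (c : Ty p k0 × ℕ) (h0 : c.2 ≠ 0)
    (hg : c.1.par = 1 → c.1 = Ty.star p c.1.1) :
    (-1) ^ (c.2 - 1) * c.1.par = (-1) ^ (cn c + (cl c).card) := by
  have ho : Odd (p ^ (c.1.1 : ℕ)) := (odd_p hp).pow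
  obtain ⟨t, ht⟩ : ∃ t, c.2 = t + 1 := ⟨c.2 - 1, by omega⟩
  have e : (-1 : ℤˣ) ^ cn c = (-1) ^ t * -1 := by
    rw [cn, mul_comm, pow_mul, ho.neg_one_pow, ht, pow_succ]
  rw [pow_add, e, ht, Nat.add_sub_cancel]
  rcases Int.units_eq_one_or c.1.par with h | h
  · rw [cl, if_pos (hg h), h]
    simp
  · have hs : ¬ c.1 = Ty.star p c.1.1 := fun e => by
      have := (htc p k0 c.1.1 hp).2.2.2.1
      rw [← e, h] at this
      exact absurd this (by decide)
    rw [cl, if_neg hs, h]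
    simp

lemma all0 (C : Multiset (Ty p k0 × ℕ)) :
    (C.map fun c => (-1 : ℤˣ) ^ (cn c + (cl c).card)).prod =
      (-1) ^ ((C.map cn).sum + (C.map cl).sum.card) := by
  induction C using Multiset.induction_on with
  | empty => simp
  | cons c C ih =>
    simp only [Multiset.map_cons, Multiset.sum_cons, Multiset.prod_cons, Multiset.card_add, ih]
    rw [← pow_add]
    congr 1
    ring

lemma allc (C : Multiset (Ty p k0 × ℕ)) (h : ∀ c ∈ C, (ct c).card ≤ cn c) :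
    (C.map ct).sum.card ≤ (C.map cn).sum := by
  induction C using Multiset.induction_on with
  | empty => simp
  | cons c C ih =>
    have h1 := h c (Multiset.mem_cons_self _ _)
    have h2 := ih fun c hc => h c (Multiset.mem_cons_of_mem hc)
    simp only [Multiset.map_cons, Multiset.sum_cons, Multiset.card_add]
    omega

lemma pow_sum (x : ℤˣ) (C : Multiset (Ty p k0 × ℕ)) :
    (C.map fun c => x ^ ce c).prod = x ^ (C.map ce).sum := by
  induction C using Multiset.induction_on with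
  | empty => simp
  | cons c C ih => simp only [Multiset.map_cons, Multiset.sum_cons, Multiset.prod_cons, ih, pow_add]

lemma soP_eq (m : Ty p k0 → Multiset ℕ) (s : ℕ) : soP m s =
    ((cyc m).map fun c => if c.1.par = 1 then chi (s : ZMod p) ^ c.1.stc else 1).prod := by
  rw [← flat_prod m fun τ _ => if τ.par = 1 then chi (s : ZMod p) ^ τ.stc else 1, soP]
  simp only [Multiset.map_const', Multiset.prod_replicate]

end Num

open _root_.Pool.Agent.Lib.MP_1ae3da_al.GM.Num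

theorem num (hnuA : NumASt) (hcmp : CmpSt) (hpa : PermASt) (htc : TyCntSt) : NumSt := by
  intro p k0 _ q a m hp hv
  have h0 : ∀ c ∈ cyc m, c.2 ≠ 0 := fun c hc e => hv.1 c.1 (e ▸ mem_cyc hc)
  have hne : ∀ c ∈ cyc m, m c.1 ≠ 0 := fun c hc e => by
    have := mem_cyc hc
    rw [e] at this
    exact absurd this (Multiset.notMem_zero _)
  have hn : ∀ c ∈ cyc m, c.1.nrm := fun c hc => by_contra fun e => hne c hc (hv.2.1 _ e)
  have hq : (2 * (q : ℤ)) ≠ 0 := mul_ne_zero two_ne_zero q.ne_zero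
  refine ⟨⟨?_, ?_⟩, fun hg => ?_, fun hg => ?_, fun hg => ?_⟩
  · rw [Lam, Multiset.mem_sum]
    rintro ⟨k, -, h⟩
    obtain ⟨r, hr, e⟩ := Multiset.mem_map.1 h
    rcases Nat.mul_eq_zero.1 e with e | e
    · exact (Fact.out : p.Prime).ne_zero (pow_eq_zero_iff'.1 e).1
    · exact hv.1 _ (e ▸ hr)
  · rw [tyM, Multiset.mem_sum]
    rintro ⟨τ, -, h⟩
    obtain ⟨r, hr, h⟩ := Multiset.mem_bind.1 h
    obtain ⟨u, hu, e⟩ := Multiset.mem_map.1 h
    rcases Nat.mul_eq_zero.1 e with e | e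
    · exact hv.1 _ (e ▸ hr)
    · exact (hpa _).pos _ (e ▸ hu)
  · have : sgm m = (-1) ^ (∑ k, a k * p ^ (k : ℕ) + (Lam m).card) := by
      rw [sgm, flat_prod m fun τ r => (-1) ^ (r - 1) * τ.par, n_eq hv, Lam_eq, ← all0]
      exact congrArg _ (Multiset.map_congr rfl fun c hc =>
        cyc0 htc hp c (h0 c hc) fun h => (hg _ h).1 (hne c hc))
    rw [this]
    exact neg_one_pow_eq_one_iff_even (by decide)
  · obtain ⟨g, g1, g2⟩ := all1 hcmp (cyc m) fun c hc =>
      cyc1 hnuA hcmp htc hp c (h0 c hc) (hn c hc) fun h => (hg _ h).1 (hne c hc)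
    have hle := allc (cyc m) fun c hc => by
      have h1 : (tt c.1).sum = _ := (hnuA p k0 c.1 hp (hn c hc)).1
      have h2 : (tt c.1).card ≤ (tt c.1).sum := card_le_sum ((hpa _).pos _)
      rw [ct_card, cn]
      exact (h1 ▸ h2).trans (Nat.le_mul_of_pos_left _ (Nat.pos_of_ne_zero (h0 c hc)))
    rw [← tyM_eq, ← Lam_eq] at g1
    rw [← tyM_eq, ← Lam_eq, ← e_eq] at g2
    rw [← tyM_eq, ← n_eq hv] at hle
    generalize ∑ k, a k * p ^ (k : ℕ) = n at hle ⊢
    apply S.cmp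
    obtain ⟨d, hd⟩ : ∃ d, n - (tyM m).card = d := ⟨_, rfl⟩
    have hd' : n - (Lam m).card = d + 2 * g := by omega
    rw [Dm, Dm, hd, hd', choose_two_add]
    convert (S.sq hcmp (e := (-1) ^ d.choose 2 * (2 * (q : ℤ)) ^ (d + g))
      (by positivity)).mul hcmp g2 using 1
    ring
  · obtain ⟨g, g1, g2⟩ := all2 hcmp (cyc m) fun c hc =>
      cyc2 hnuA hcmp hpa hp c (h0 c hc) (hn c hc) (hg _ _ (mem_cyc hc))
    rw [← tyM_eq, ← n_eq hv] at g1
    rw [← tyM_eq] at g2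
    rw [flat_prod m fun τ r => (-1) ^ (r - 1).choose 2 * (r : ℤ) ^ r * (τ.par : ℤ) ^ (r - 1)]
    apply S.cmp
    have hd : ∑ k, a k * p ^ (k : ℕ) - (tyM m).card = 0 + 2 * g := by omega
    rw [Dm, hd, choose_two_add]
    convert (S.sq hcmp (e := (2 * (q : ℤ)) ^ g) (by positivity)).mul hcmp g2 using 1
    change _ * ((cyc m).map cd).prod = _
    simp only [Nat.choose_zero_succ, pow_zero, zero_add]
    ring

theorem sgn (hnum : NumSt) (hsq : SqSt) (hcmp : CmpSt) (htc : TyCntSt) : SgnSt := by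
  intro p k0 _ q a m M σ s hp ha hv hM hσ hs u hu
  have hP : p.Prime := Fact.out
  have hN := hnum p k0 q a m hp hv
  have h0 : ∀ c ∈ cyc m, c.2 ≠ 0 := fun c hc e => hv.1 c.1 (e ▸ mem_cyc hc)
  have hne : ∀ c ∈ cyc m, m c.1 ≠ 0 := fun c hc e => by
    have := mem_cyc hc
    rw [e] at this
    exact absurd this (Multiset.notMem_zero _)
  have hf : p.factorial ∣ M := (Dvd.intro_left _ rfl).trans hM
  refine ⟨fun hg u' hu' => ?_, fun hg => ?_⟩
  · have h1 := hsq.pst p M σ s hP hp ((Nat.dvd_factorial hP.pos le_rfl).trans hf) hs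
    have h2 := hsq.cmp p _ _ σ _ hP hp hσ (hN.n1 hg)
      (hsq.eps_mul _ _ σ _ _ hu (hsq.eps_pow _ σ _ _ h1))
    rw [hsq.eps_uniq _ σ _ _ (hcmp.dm_ne q _ _ hN.pos.1) hu' h2, soP_eq, e_eq, ← Num.pow_sum]
    congr 2
    refine Multiset.map_congr rfl fun c hc => ?_
    rw [ce]
    have h3 := (htc p k0 c.1.1 hp).2.2.2
    by_cases h : c.1.par = 1
    · have h4 := (hg _ h).1 (hne c hc)
      rw [if_pos h, if_pos h4, ← h3.2, ← h4]
    · rw [if_neg h, if_neg fun e : c.1 = Ty.star p c.1.1 => h (by rw [e]; exact h3.1), pow_zero]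
  · have h1 := hN.n2 hg
    have h2 := hsq.cmp p _ _ σ _ hP hp hσ h1 hu
    have h3 := (hcmp.ne p _ _ hP h1).2
    rw [flat_prod m fun τ r => (-1) ^ (r - 1).choose 2 * (r : ℤ) ^ r * (τ.par : ℤ) ^ (r - 1)]
      at h2 h3
    have h4 := hsq.eps_prod _ (cyc m) cd
      (fun c => zm c.2 s * c.1.par ^ ((s - 1) / 2 * (c.2 - 1))) σ fun c hc => by
        have hr : c.2 ≤ a c.1.1 := by
          rw [← hv.2.2]
          exact (Multiset.le_sum_of_mem (mem_cyc hc)).trans
            (Finset.single_le_sum (f := fun τ => (m τ).sum) (fun _ _ => Nat.zero_le _)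
              (Finset.mem_filter.2 ⟨Finset.mem_univ _, rfl⟩))
        have hr0 := Nat.pos_of_ne_zero (h0 c hc)
        refine hsq.eps_mul _ _ σ _ _ (hsq.zol _ M σ s hr0
          ((Nat.dvd_factorial hr0 (hr.trans (ha _).le)).trans hf) hs) ?_
        rw [pow_mul]
        refine hsq.eps_pow _ σ _ _ ?_
        rcases Int.units_eq_one_or c.1.par with h | h
        · rw [h, one_pow]
          simpa using hsq.eps_sq 1 σ
        · rw [h]
          exact hsq.neg M σ s ((Dvd.intro _ rfl).trans hM) hs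
    rw [hsq.eps_uniq _ σ _ _ h3 h2 h4, soP_eq, sgP, flat_prod m fun τ r =>
      zm r s * chi (s : ZMod p) ^ (r * τ.stc) * τ.par ^ ((s - 1) / 2 * (r - 1)),
      ← Multiset.prod_map_mul]
    congr 1
    refine Multiset.map_congr rfl fun c hc => ?_
    have h5 : chi (s : ZMod p) ^ (c.2 * c.1.stc) *
        (if c.1.par = 1 then chi (s : ZMod p) ^ c.1.stc else 1) = 1 := by
      rcases par_cases (h0 c hc) (hg _ _ (mem_cyc hc)) with ⟨h, t, ht⟩ | ⟨h, t, ht⟩
      · rw [if_pos h, ← pow_add, ht, show (2 * t + 1) * c.1.stc + c.1.stc =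
          2 * ((t + 1) * c.1.stc) by ring, pow_mul, Int.units_sq, one_pow]
      · rw [if_neg (by rw [h]; decide), mul_one, ht, show (2 * t + 2) * c.1.stc =
          2 * ((t + 1) * c.1.stc) by ring, pow_mul, Int.units_sq, one_pow]
    rw [mul_right_comm (zm c.2 s), mul_assoc, mul_assoc, h5, mul_one]

end Pool.Agent.Lib.MP_1ae3da_al.GM
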