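import Pool.Agent.Lib.MP_1ae3da_al.GT

/-! The dimension of a space of equivariant functions is the number of good orbits. -/

namespace Pool.Agent.Lib.MP_1ae3da_al.GM

open Equiv Module

namespace Orb

variable {G : Type} [Group G] (Γ : Sg G) (T : Subgroup G) [T.Normal] (ω : ℤˣ) (a : ℕ)

lemma zc_pow (j : ℕ) (g : G) : Γ.z ^ j * g = g * Γ.z ^ j :=
  ((show Commute Γ.z g from Γ.zc g).pow_left j).eq

lemma z_pow_sq (j : ℕ) : Γ.z ^ j * Γ.z ^ j = 1 := by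
  rw [← (Commute.refl Γ.z).mul_pow, Γ.zz, one_pow]

/-- the relation in the quotient by `T`. -/
lemma rel_iff (x y : G) (u : ℤˣ) : Γ.Rel T ω a x y u ↔ ∃ (j : ℕ) (h : G),
    (y : G ⧸ T) = ((Γ.z ^ j * (h * x * h⁻¹) : G) : G ⧸ T) ∧ u = ω ^ j * Γ.sg h ^ a := by
  constructor
  · rintro ⟨r, hr, j, h, rfl, e⟩
    refine ⟨j, h, ?_, e⟩
    rw [mul_assoc, QuotientGroup.mk_mul, (QuotientGroup.eq_one_iff r).2 hr, one_mul]
  · rintro ⟨j, h, e1, e⟩
    refine ⟨y * (Γ.z ^ j * (h * x * h⁻¹))⁻¹, ?_, j, h, by group, e⟩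
    rw [← QuotientGroup.eq_one_iff, QuotientGroup.mk_mul, QuotientGroup.mk_inv, e1, mul_inv_cancel]

variable {Γ T ω a}

lemma rel_symm {x y : G} {u : ℤˣ} (h : Γ.Rel T ω a x y u) : Γ.Rel T ω a y x u := by
  rw [rel_iff] at h ⊢
  obtain ⟨j, g, e1, e⟩ := h
  refine ⟨j, g⁻¹, ?_, by rw [e, map_inv, Int.units_inv_eq_self]⟩
  have : x = Γ.z ^ j * (g⁻¹ * (Γ.z ^ j * (g * x * g⁻¹)) * g⁻¹⁻¹) := by
    rw [← mul_assoc g⁻¹, ← zc_pow Γ j g⁻¹]
    simp only [← mul_assoc, z_pow_sq]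
    group
  conv_lhs => rw [this]
  simp only [QuotientGroup.mk_mul, e1]

lemma rel_trans {x y w : G} {u v : ℤˣ} (h : Γ.Rel T ω a x y u) (k : Γ.Rel T ω a y w v) :
    Γ.Rel T ω a x w (v * u) := by
  rw [rel_iff] at h k ⊢
  obtain ⟨j, g, e1, e⟩ := h
  obtain ⟨j', g', e1', e'⟩ := k
  refine ⟨j' + j, g' * g, ?_, by rw [e, e', map_mul, mul_pow, pow_add, mul_mul_mul_comm]⟩
  have : Γ.z ^ (j' + j) * (g' * g * x * (g' * g)⁻¹) =
      Γ.z ^ j' * (g' * (Γ.z ^ j * (g * x * g⁻¹)) * g'⁻¹) := by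
    rw [← mul_assoc g', ← zc_pow Γ j g', pow_add]
    group
  rw [this, e1']
  simp only [QuotientGroup.mk_mul, e1]

lemma rel_pow {x y : G} {u : ℤˣ} (h : Γ.Rel T ω a x y u) {s : ℕ} (hs : Odd s) :
    Γ.Rel T ω a (x ^ s) (y ^ s) u := by
  rw [rel_iff] at h ⊢
  obtain ⟨j, g, e1, e⟩ := h
  refine ⟨j, g, ?_, e⟩
  have h1 : (Γ.z ^ j) ^ s = Γ.z ^ j := by
    obtain ⟨k, rfl⟩ := hs
    rw [pow_succ, pow_mul, sq, z_pow_sq, one_pow, one_mul]
  rw [QuotientGroup.mk_pow, e1, ← QuotientGroup.mk_pow,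
    Commute.mul_pow (zc_pow Γ j _), h1, conj_pow]

lemma odd_of_ex {M : ℕ} {σ : Ga} {s : ℕ} (hM : 2 ∣ M) (h : Ex M σ s) : Odd s := by
  obtain ⟨k, rfl⟩ := hM
  have h1 := h (-1) (by rw [pow_mul]; simp)
  rw [map_neg, map_one] at h1
  by_contra hs
  rw [(Nat.not_odd_iff_even.1 hs).neg_one_pow] at h1
  norm_num at h1

lemma uK_ne_one {u : ℤˣ} (h : u ≠ 1) : uK u = -1 := by
  rw [(Int.units_eq_one_or u).resolve_left h, uK_neg, uK_one]

end Orb

open Orb in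
theorem orb : OrbSt := by
  intro G _ _ Γ T _ ω a P M S ε L inv hM hrel hP hpow
  classical
  let D := {m : L // ∃ x, inv x = m ∧ P x ∧ (∀ u, Γ.Rel T ω a x x u → u = 1) ∧
    ∀ σ ∈ S, ∀ s, Ex M σ s → Γ.Rel T ω a x (x ^ s) (ε σ)}
  have hr := fun m : D => m.2.choose_spec
  set r : D → G := fun m => m.2.choose with hrd
  haveI : Finite D := Finite.of_injective r fun m m' h =>
    Subtype.ext (by rw [← (hr m).1, ← (hr m').1]; exact congrArg inv h)
  have uniq : ∀ (m : D) y u v, Γ.Rel T ω a (r m) y u → Γ.Rel T ω a (r m) y v → u = v := by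
    intro m y u v h1 h2
    have := (hr m).2.2.1 _ (rel_trans h1 (rel_symm h2))
    rw [← Int.units_inv_eq_self v, inv_mul_eq_one] at this
    exact this.symm
  let Φ : Γ.Sp T ω a P M S ε →ₗ[K] (D → K) :=
    (LinearMap.funLeft K K r).comp (Submodule.subtype _)
  have hinj : Function.Injective Φ := by
    rw [injective_iff_map_eq_zero]
    rintro ⟨f, h1, h2, h3⟩ hf
    have hr0 : ∀ m, f (r m) = 0 := fun m => congrFun hf m
    apply Subtype.ext
    funext x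
    change f x = 0
    by_contra hx
    have g1 : P x := by by_contra h; exact hx (h2 x h)
    have g2 : ∀ u, Γ.Rel T ω a x x u → u = 1 := fun u hu => by
      by_contra h
      have := h1 x x u hu
      rw [uK_ne_one h] at this
      exact hx (by linear_combination this / 2)
    have g3 : ∀ σ ∈ S, ∀ s, Ex M σ s → Γ.Rel T ω a x (x ^ s) (ε σ) := fun σ hσ s hs => by
      obtain ⟨u, hu⟩ := (hrel x (x ^ s)).2 (hpow σ hσ s hs x).symm
      have := (h1 _ _ _ hu).symm.trans (h3 σ hσ s hs x)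
      rwa [← uK_inj (mul_right_cancel₀ hx this)]
    let m : D := ⟨inv x, x, rfl, g1, g2, g3⟩
    obtain ⟨u, hu⟩ := (hrel (r m) x).2 (hr m).1
    exact hx (by rw [h1 _ _ _ hu, hr0, mul_zero])
  have hsurj : Function.Surjective Φ := by
    intro c
    have key : ∀ y, ∃ v : K, (∀ (m : D) u, Γ.Rel T ω a (r m) y u → v = uK u * c m) ∧
        ((¬ ∃ (m : D) (u : ℤˣ), Γ.Rel T ω a (r m) y u) → v = 0) := fun y => by
      by_cases h : ∃ (m : D) (u : ℤˣ), Γ.Rel T ω a (r m) y u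
      · obtain ⟨m, u, hu⟩ := h
        refine ⟨uK u * c m, fun m' u' hu' => ?_, fun h => absurd ⟨m, u, hu⟩ h⟩
        obtain rfl : m = m' := Subtype.ext <| by
          rw [← (hr m).1, ← (hr m').1]
          exact ((hrel _ _).1 ⟨u, hu⟩).trans ((hrel _ _).1 ⟨u', hu'⟩).symm
        rw [uniq m y u u' hu hu']
      · exact ⟨0, fun m u hu => absurd ⟨m, u, hu⟩ h, fun _ => rfl⟩
    choose f hf1 hf2 using key
    have e1 : ∀ x y u, Γ.Rel T ω a x y u → f y = uK u * f x := fun x y u h => by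
      by_cases hx : ∃ (m : D) (u : ℤˣ), Γ.Rel T ω a (r m) x u
      · obtain ⟨m, v, hv⟩ := hx
        rw [hf1 y m _ (rel_trans hv h), hf1 x m v hv, uK_mul, mul_assoc]
      · rw [hf2 x hx, mul_zero]
        exact hf2 y fun ⟨m, v, hv⟩ => hx ⟨m, _, rel_trans hv (rel_symm h)⟩
    refine ⟨⟨f, e1, fun x hx => hf2 x ?_, fun σ hσ s hs x => ?_⟩, ?_⟩
    · rintro ⟨m, u, hu⟩
      exact hx (hP _ _ ((hrel _ _).1 ⟨u, hu⟩) (hr m).2.1)
    · by_cases hx : ∃ (m : D) (u : ℤˣ), Γ.Rel T ω a (r m) x u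
      · obtain ⟨m, v, hv⟩ := hx
        rw [hf1 _ m _ (rel_trans ((hr m).2.2.2 σ hσ s hs) (rel_pow hv (odd_of_ex hM hs))),
          hf1 x m v hv, uK_mul]
        ring
      · rw [hf2 x hx, mul_zero]
        refine hf2 _ fun ⟨m, v, hv⟩ => hx ?_
        obtain ⟨w, hw⟩ := (hrel (x ^ s) x).2 (hpow σ hσ s hs x)
        exact ⟨m, _, rel_trans hv hw⟩
    · funext m
      change f (r m) = c m
      rw [hf1 _ m 1 ⟨1, T.one_mem, 0, 1, by simp, by simp⟩, uK_one, one_mul]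
  haveI := Fintype.ofFinite D
  rw [(LinearEquiv.ofBijective Φ ⟨hinj, hsurj⟩).finrank_eq, finrank_fintype_fun_eq_card,
    Nat.card_eq_fintype_card]

end Pool.Agent.Lib.MP_1ae3da_al.GM
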