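import Pool.Agent.Lib.MP_1ae3da_al.GT

/-! The adjoint of the induction product, for a first factor of odd type. -/

namespace Pool.Agent.Lib.MP_1ae3da_al.GM

namespace PeM

open Finset

lemma push (hch : ChSt) {C D : Type} [Group C] [Group D] [Fintype C] [Fintype D] [DecidableEq D]
    (f : C →* D) (hf : Function.Surjective f) (τ : C → K) (hτ : τ ∈ VC C) :
    ∃ Ψ ∈ VC D, ∀ g, (∑ c with f c = 1, (1 : K)) * Ψ g = ∑ c with f c = g, τ c := by
  refine ⟨ind f τ, (hch.h C D f).ind_vc τ hτ, fun g => ?_⟩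
  rw [(hch.h C D f).fib hf τ ((hch.a C).cl τ hτ) g]
  have h1 : (∑ c with f c = 1, (1 : K)) = (Nat.card f.ker : K) := by
    rw [sum_const, nsmul_eq_mul, mul_one]
    exact congrArg _ (Nat.subtype_card _ fun c => by simp [MonoidHom.mem_ker]).symm
  have h2 : (Nat.card f.ker : K) ≠ 0 := Nat.cast_ne_zero.2 Nat.card_pos.ne'
  rw [h1, ← mul_assoc, mul_inv_cancel₀ h2, one_mul]

lemma half {A : Type} [Group A] [Fintype A] (SA : Sg A) (t : A) (ht : SA.sg t = -1) :
    2 * (∑ x with SA.sg x = 1, (1 : K)) = Fintype.card A := by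
  have h1 : (∑ x with SA.sg x = 1, (1 : K)) = ∑ x with ¬ SA.sg x = 1, (1 : K) := by
    refine sum_equiv (Equiv.mulLeft t) (fun x => ?_) fun _ _ => rfl
    rcases Int.units_eq_one_or (SA.sg x) with h | h <;> simp [h, ht]
  rw [two_mul]
  nth_rewrite 2 [h1]
  rw [sum_filter_add_sum_filter_not]
  simp

variable {A B G : Type} [Group A] [Group B] [Group G] {SA : Sg A} {SB : Sg B} {SG : Sg G}
  (T : Tri SA SB SG)

lemma α_zp (u v : ℤˣ) : T.α (SA.zp u v) = SG.zp u v := by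
  unfold Sg.zp; split_ifs <;> simp [T.αz]

lemma β_zp (u v : ℤˣ) : T.β (SB.zp u v) = SG.zp u v := by
  unfold Sg.zp; split_ifs <;> simp [T.βz]

lemma comm' (x : A) (y : B) : T.β y * T.α x = SG.zp (SB.sg y) (SA.sg x) * (T.α x * T.β y) := by
  rw [T.comm, ← mul_assoc, SG.zp_symm, SG.zp_sq, one_mul]

variable (SA SB) in
/-- the twisted product of the two groups. -/
abbrev Tw : Type := B ⋊[SB.φ.comp SA.sg] A

noncomputable instance [Fintype A] [Fintype B] : Fintype (Tw SA SB) :=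
  Fintype.ofEquiv _ SemidirectProduct.equivProd.symm

variable (SA SB) in
/-- the map to the group with the grading operator. -/
def toTP : Tw SA SB →* SB.TP where
  toFun c := ⟨c.left, SA.sg c.right⟩
  map_one' := by ext <;> simp
  map_mul' c d := by ext <;> simp

/-- the map to the big group. -/
def toG : Tw SA SB →* G where
  toFun c := T.β c.left * T.α c.right
  map_one' := by simp
  map_mul' c d := by
    simp only [SemidirectProduct.mul_left, SemidirectProduct.mul_right, MonoidHom.comp_apply,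
      Sg.φ_apply, map_mul, β_zp]
    rw [mul_assoc (T.β c.left) (T.α c.right), ← mul_assoc (T.α c.right), T.comm]
    simp only [mul_assoc]

/-- the same with the roles exchanged. -/
def toG' : Tw SB SA →* G where
  toFun c := T.α c.left * T.β c.right
  map_one' := by simp
  map_mul' c d := by
    simp only [SemidirectProduct.mul_left, SemidirectProduct.mul_right, MonoidHom.comp_apply,
      Sg.φ_apply, map_mul, α_zp]
    rw [mul_assoc (T.α c.left) (T.β c.right), ← mul_assoc (T.β c.right), comm']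
    simp only [mul_assoc]

lemma fib1 [Fintype A] [Fintype B] [DecidableEq SB.TP] (h : Tw SA SB → K) (y : B) (u : ℤˣ) :
    ∑ c with toTP SA SB c = ⟨y, u⟩, h c = ∑ x with SA.sg x = u, h ⟨y, x⟩ := by
  symm
  refine sum_bij (fun x _ => (⟨y, x⟩ : Tw SA SB)) (fun x hx => ?_) (fun x _ x' _ e => ?_)
    (fun c hc => ?_) fun _ _ => rfl
  · rw [mem_filter] at hx ⊢
    exact ⟨mem_univ _, by rw [← hx.2]; rfl⟩
  · exact congrArg SemidirectProduct.right e
  · rw [mem_filter] at hc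
    have h1 : c.left = y := congrArg SemidirectProduct.left hc.2
    have h2 : SA.sg c.right = u := congrArg SemidirectProduct.right hc.2
    exact ⟨c.right, mem_filter.2 ⟨mem_univ _, h2⟩, by rw [← h1]⟩

theorem case1 (hch : ChSt) (hlat : LatSt) [Fintype A] [Finite B] [Finite G] (t : A)
    (ht : SA.sg t = -1) (U : A → K) (F : G → K) (S : A → Prop) (S' : G → Prop)
    (hU : SA.L1 U S) (hF : SG.L1 F S') : SB.L0 (T.prp U F) fun _ => True := by
  classical
  obtain ⟨χ, hχ, -, hU⟩ := hU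
  obtain ⟨ψ, hψ, hψz, hF⟩ := hF
  have := Fintype.ofFinite B
  have := Fintype.ofFinite G
  have hs : Function.Surjective (toTP SA SB) := by
    rintro ⟨y, u⟩
    rcases Int.units_eq_one_or u with rfl | rfl
    · exact ⟨⟨y, 1⟩, by ext <;> simp [toTP]⟩
    · exact ⟨⟨y, t⟩, by ext <;> simp [toTP, ht]⟩
  have h1 : (fun x => χ x⁻¹) ∘ (SemidirectProduct.rightHom : Tw SA SB →* A) ∈ VC (Tw SA SB) :=
    (hch.h _ _ _).comp _ ((hch.b A).inv χ hχ)
  have h2 : ψ ∘ toG T ∈ VC (Tw SA SB) := (hch.h _ _ _).comp _ hψ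
  obtain ⟨Ψ, hΨ, hv⟩ := push hch (toTP SA SB) hs _ ((hch.b _).mul _ h1 _ h2)
  have hn : (∑ c with toTP SA SB c = 1, (1 : K)) = ∑ x with SA.sg x = 1, (1 : K) :=
    fib1 (fun _ => 1) 1 1
  have hh := half SA t ht
  have hA : (Fintype.card A : K) ≠ 0 := Nat.cast_ne_zero.2 Fintype.card_ne_zero
  set n : K := ∑ x with SA.sg x = 1, (1 : K) with hnd
  have hn0 : n ≠ 0 := fun e => hA (by rw [← hh, e, mul_zero])
  have hv' : ∀ y u, n * Ψ ⟨y, u⟩ = ∑ x with SA.sg x = u, χ x⁻¹ * ψ (T.β y * T.α x) := by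
    intro y u
    rw [← hn, hv, fib1]
    rfl
  have hz : ∀ y u, Ψ ⟨SB.z * y, u⟩ = -Ψ ⟨y, u⟩ := by
    intro y u
    apply mul_left_cancel₀ hn0
    rw [mul_neg, hv', hv', ← sum_neg_distrib]
    refine sum_congr rfl fun x _ => ?_
    rw [map_mul, T.βz, mul_assoc, hψz, mul_neg]
  refine ⟨Ψ, hΨ, hz, fun y => ⟨?_, fun _ => trivial⟩⟩
  rcases Int.units_eq_one_or (SB.sg y) with hy | hy
  · apply mul_left_cancel₀ hn0
    rw [hv', Tri.prp, ← sum_filter_add_sum_filter_not univ fun x => SA.sg x = 1]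
    have e1 : ∑ x with ¬ SA.sg x = 1, U x⁻¹ * F (T.α x * T.β y) = 0 := by
      refine sum_eq_zero fun x hx => ?_
      have : SA.sg x⁻¹ = -1 := by
        rcases Int.units_eq_one_or (SA.sg x) with h | h
        · exact absurd h (mem_filter.1 hx).2
        · simp [h]
      rw [((hU _).2 this).1, zero_mul]
    have e2 : ∑ x with SA.sg x = 1, U x⁻¹ * F (T.α x * T.β y) =
        2 * ∑ x with SA.sg x = 1, χ x⁻¹ * ψ (T.β y * T.α x) := by
      rw [mul_sum]
      refine sum_congr rfl fun x hx => ?_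
      have hx' := (mem_filter.1 hx).2
      rw [(hU _).1 (by simp [hx']), (hF _).1 (by simp [T.αs, T.βs, hx', hy]), T.comm, hx',
        Sg.one_zp, one_mul, ← rt2_mul]
      ring
    rw [e1, e2, add_zero, ← hh]
    field_simp
  · have e0 : Ψ ⟨y, 1⟩ = 0 := (hlat B SB).ev 1 (fun y => Ψ ⟨y, 1⟩) (fun _ => True)
      ⟨fun _ => ⟨Ψ, hΨ, hz, fun _ => ⟨rfl, fun _ => trivial⟩⟩, fun h => absurd h (by decide)⟩ y hy
    rw [e0, Tri.prp, sum_eq_zero, mul_zero]
    intro x _
    rcases Int.units_eq_one_or (SA.sg x) with h | h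
    · rw [((hF _).2 (by simp [T.αs, T.βs, h, hy])).1, mul_zero]
    · rw [((hU _).2 (by simp [h])).1, zero_mul]

variable (SA SB) in
/-- pairs of equal parity. -/
def E0 : Subgroup (Tw SB SA) where
  carrier := {c | SB.sg c.right = SA.sg c.left}
  one_mem' := by simp
  mul_mem' := by
    intro a b ha hb
    simp only [Set.mem_ofPred_eq] at ha hb ⊢
    simp [ha, hb]
  inv_mem' := by
    intro a ha
    simp only [Set.mem_ofPred_eq] at ha ⊢
    simp [ha]

variable (SA SB) in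
abbrev E : Type := E0 SA SB × ℤˣ

variable (SA SB) in
/-- the projection to the second group. -/
def pB : E SA SB →* B :=
  (SemidirectProduct.rightHom.comp (E0 SA SB).subtype).comp (MonoidHom.fst _ _)

variable (SA SB) in
/-- the projection to the first group with its grading operator. -/
def pA : E SA SB →* SA.TP := ((toTP SB SA).comp (E0 SA SB).subtype).comp (MonoidHom.fst _ _)

/-- the map to the big group with its grading operator. -/
def pG : E SA SB →* SG.TP where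
  toFun c := ⟨toG' T c.1.1, c.2⟩
  map_one' := by ext <;> simp
  map_mul' c d := by
    have h : SG.sg (toG' T d.1.1) = 1 := by
      have h0 : SB.sg d.1.1.right = SA.sg d.1.1.left := d.1.2
      change SG.sg (T.α _ * T.β _) = 1
      rw [map_mul, T.αs, T.βs, h0, Int.units_mul_self]
    ext <;> simp [h]

lemma fib2 [Fintype A] [Fintype (E SA SB)] [DecidableEq B] (h : E SA SB → K) (k : A → ℤˣ → K)
    (y : B) (hk : ∀ x l (e : SB.sg y = SA.sg x), h (⟨⟨x, y⟩, e⟩, l) = k x l) :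
    ∑ c with pB SA SB c = y, h c = ∑ x with SA.sg x = SB.sg y, (k x 1 + k x (-1)) := by
  have e1 : ∀ x, k x 1 + k x (-1) = ∑ l : ℤˣ, k x l := by
    intro x
    rw [UnitsInt.univ, sum_pair (by decide)]
  simp only [e1]
  rw [← sum_product']
  refine sum_bij (fun c _ => (c.1.1.left, c.2)) (fun c hc => ?_) (fun c hc d hd e => ?_)
    (fun w hw => ?_) fun c hc => ?_
  · have h1 : c.1.1.right = y := (mem_filter.1 hc).2
    have h0 : SB.sg c.1.1.right = SA.sg c.1.1.left := c.1.2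
    exact mem_product.2 ⟨mem_filter.2 ⟨mem_univ _, by rw [← h1, h0]⟩, mem_univ _⟩
  · have h1 : c.1.1.right = y := (mem_filter.1 hc).2
    have h2 : d.1.1.right = y := (mem_filter.1 hd).2
    obtain ⟨e2, e3⟩ := Prod.mk.inj e
    exact Prod.ext (Subtype.ext (SemidirectProduct.ext e2 (h1.trans h2.symm))) e3
  · have h1 : SA.sg w.1 = SB.sg y := (mem_filter.1 (mem_product.1 hw).1).2
    exact ⟨(⟨⟨w.1, y⟩, h1.symm⟩, w.2), mem_filter.2 ⟨mem_univ _, rfl⟩, rfl⟩
  · obtain ⟨⟨⟨x, y'⟩, e⟩, l⟩ := c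
    obtain rfl : y' = y := (mem_filter.1 hc).2
    exact hk x l e

theorem case2 (hch : ChSt) (hlat : LatSt) (htw : TwSt) [Fintype A] [Finite B] [Finite G] (t : A)
    (ht : SA.sg t = -1) (U : A → K) (F : G → K) (S : A → Prop) (S' : G → Prop)
    (hU : SA.L1 U S) (hF : SG.L0 F S') : SB.L1 (T.prp U F) fun _ => True := by
  classical
  have hev := (hlat G SG).ev 1 F S' ⟨fun _ => hF, fun h => absurd h (by decide)⟩
  obtain ⟨χ, hχ, hχz, hU⟩ := hU
  obtain ⟨Φ, hΦ, hΦz, hF⟩ := hF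
  have := Fintype.ofFinite B
  have := Fintype.ofFinite G
  have : Fintype (E SA SB) := Fintype.ofFinite _
  obtain ⟨i, hi⟩ := IsAlgClosed.exists_eq_mul_self (-1 : K)
  have hs : Function.Surjective (pB SA SB) := by
    intro y
    rcases Int.units_eq_one_or (SB.sg y) with h | h
    · exact ⟨(⟨⟨1, y⟩, by change SB.sg y = SA.sg 1; simp [h]⟩, 1), rfl⟩
    · exact ⟨(⟨⟨t, y⟩, by change SB.sg y = SA.sg t; rw [h, ht]⟩, 1), rfl⟩
  have h1 := (hch.b _).inv _ (htw A (E SA SB) SA (pA SA SB) χ i hi.symm hχ hχz fun c => c.1.2)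
  have h2 : Φ ∘ pG T ∈ VC (E SA SB) := (hch.h _ _ _).comp _ hΦ
  obtain ⟨ψ, hψ, hv⟩ := push hch (pB SA SB) hs _ ((hch.b _).mul _ h1 _ h2)
  have hh := half SA t ht
  have hA : (Fintype.card A : K) ≠ 0 := Nat.cast_ne_zero.2 Fintype.card_ne_zero
  have hn : (∑ c with pB SA SB c = 1, (1 : K)) = Fintype.card A := by
    rw [fib2 (SA := SA) (SB := SB) (fun _ => 1) (fun _ _ => 1) 1 fun _ _ _ => rfl, map_one,
      sum_add_distrib, ← two_mul, hh]
  let κ : A → ℤˣ → K := fun x u => (if ((⟨x, u⟩ : SA.TP)⁻¹).right = 1 then 1 else i) *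
    χ ((⟨x, u⟩ : SA.TP)⁻¹).left
  have hv' : ∀ y, (Fintype.card A : K) * ψ y = ∑ x with SA.sg x = SB.sg y,
      (κ x (SB.sg y) * Φ ⟨T.α x * T.β y, 1⟩ + κ x (SB.sg y) * Φ ⟨T.α x * T.β y, -1⟩) := by
    intro y
    rw [← hn, hv]
    refine fib2 _ (fun x l => κ x (SB.sg y) * Φ ⟨T.α x * T.β y, l⟩) y fun x l e => ?_
    simp only [Pi.mul_apply, map_inv]
    rfl
  have hodd : ∀ x, ¬ SA.sg x = 1 → U x⁻¹ = 0 := by
    intro x hx
    rcases Int.units_eq_one_or (SA.sg x) with h | h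
    · exact absurd h hx
    · exact ((hU _).2 (by simp [h])).1
  refine ⟨ψ, hψ, fun y => ?_, fun y => ⟨fun hy => ?_, fun hy => ⟨?_, fun _ => trivial⟩⟩⟩
  · apply mul_left_cancel₀ hA
    rw [mul_neg, hv', hv', ← sum_neg_distrib, map_mul, SB.zs, one_mul]
    refine sum_congr rfl fun x _ => ?_
    rw [map_mul, T.βz, ← mul_assoc, ← SG.zc, mul_assoc SG.z, hΦz, hΦz]
    ring
  · have hκ : ∀ x, κ x 1 = χ x⁻¹ := fun x => by simp [κ]
    have e0 : ∑ x with SA.sg x = 1, χ x⁻¹ * Φ ⟨T.α x * T.β y, -1⟩ = 0 := by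
      have e : ∑ x with SA.sg x = 1, χ x⁻¹ * Φ ⟨T.α x * T.β y, -1⟩ =
          ∑ x with SA.sg x = 1, -(χ x⁻¹ * Φ ⟨T.α x * T.β y, -1⟩) := by
        symm
        refine sum_equiv (MulAut.conj t).toEquiv (fun x => by simp [ht]) fun x _ => ?_
        change _ = χ (t * x * t⁻¹)⁻¹ * Φ ⟨T.α (t * x * t⁻¹) * T.β y, -1⟩
        have c1 : χ (t * x * t⁻¹)⁻¹ = χ x⁻¹ := by
          rw [← (hch.a A).cl χ hχ x⁻¹ t]
          congr 1
          group
        have c2 := (hch.a _).cl Φ hΦ ⟨T.α x * T.β y, -1⟩ ⟨T.α t, 1⟩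
        have c3 : (⟨T.α t, 1⟩ * ⟨T.α x * T.β y, -1⟩ * ⟨T.α t, 1⟩⁻¹ : SG.TP) =
            ⟨SG.z * (T.α (t * x * t⁻¹) * T.β y), -1⟩ := by
          have c4 : T.β y * (T.α t)⁻¹ = (T.α t)⁻¹ * T.β y := by
            rw [← map_inv, T.comm, hy, Sg.zp_one, one_mul]
          ext
          · simp [T.αs, ht, mul_assoc, ← c4, SG.zc]
          · simp
        rw [c3, hΦz] at c2
        rw [c1, ← c2]
        ring
      rw [sum_neg_distrib] at e
      linear_combination e / 2
    apply mul_left_cancel₀ hA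
    rw [mul_left_comm, hv', hy, Tri.prp, ← mul_assoc, mul_inv_cancel₀ hA, one_mul,
      ← sum_filter_add_sum_filter_not univ fun x => SA.sg x = 1, sum_add_distrib]
    simp only [hκ]
    have e1 : ∑ x with ¬ SA.sg x = 1, U x⁻¹ * F (T.α x * T.β y) = 0 :=
      sum_eq_zero fun x hx => by rw [hodd x (mem_filter.1 hx).2, zero_mul]
    rw [e0, e1, add_zero, add_zero, mul_sum]
    refine sum_congr rfl fun x hx => ?_
    rw [(hU _).1 (by simp [(mem_filter.1 hx).2]), (hF _).1, mul_assoc]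
  · rw [Tri.prp, sum_eq_zero, mul_zero]
    intro x _
    by_cases h : SA.sg x = 1
    · rw [hev _ (by simp [T.αs, T.βs, h, hy]), mul_zero]
    · rw [hodd x h, zero_mul]

end PeM

theorem perpM (hch : ChSt) (hlat : LatSt) (htw : TwSt) : PerpSt (-1) := by
  intro A B G _ _ _ _ _ _ SA SB SG T e' U F S S' ht hU hF
  obtain ⟨t, ht⟩ := ht rfl
  refine ⟨fun h => ?_, fun h => ?_⟩
  · subst h
    exact PeM.case1 T hch hlat t ht U F S S' (hU.2 rfl) (hF.2 (by simp))
  · subst h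
    exact PeM.case2 T hch hlat htw t ht U F S S' (hU.2 rfl) (hF.1 (by simp))

end Pool.Agent.Lib.MP_1ae3da_al.GM
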