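import Pool.Agent.Lib.MP_1ae3da_al.GT

/-! Cycle types with fixed points included. -/

namespace Pool.Agent.Lib.MP_1ae3da_al.GM

open Equiv Finset

namespace PA

section basic
variable {Ω : Type} [Fintype Ω] [DecidableEq Ω]

lemma ty_def (g : Perm Ω) :
    ty g = g.cycleType + Multiset.replicate (Fintype.card Ω - g.support.card) 1 := rfl

lemma ty_sum (g : Perm Ω) : (ty g).sum = Fintype.card Ω := g.partition.parts_sum

lemma ty_pos (g : Perm Ω) : 0 ∉ ty g := fun h => lt_irrefl 0 (g.partition.parts_pos h)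

lemma ty_conj (g h : Perm Ω) : IsConj g h ↔ ty g = ty h := by
  rw [Perm.partition_eq_of_isConj, Nat.Partition.ext_iff]; rfl

lemma count_one (g : Perm Ω) : g.cycleType.count 1 = 0 :=
  Multiset.count_eq_zero.2 fun h => lt_irrefl 1 (Perm.one_lt_of_mem_cycleType h)

lemma ty_ex (ρ : Multiset ℕ) (h0 : 0 ∉ ρ) (hs : ρ.sum = Fintype.card Ω) :
    ∃ g : Perm Ω, ty g = ρ := by
  have h1 : ρ.filter (fun a => ¬ 2 ≤ a) = Multiset.replicate (ρ.filter fun a => ¬ 2 ≤ a).card 1 := by
    rw [Multiset.eq_replicate_card]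
    intro b hb
    rw [Multiset.mem_filter] at hb
    have : b ≠ 0 := fun h => h0 (h ▸ hb.1)
    omega
  have h2 := Multiset.filter_add_not (fun a => 2 ≤ a) ρ
  have h3 : (ρ.filter fun a => 2 ≤ a).sum + (ρ.filter fun a => ¬ 2 ≤ a).card = Fintype.card Ω := by
    rw [← hs]
    conv_rhs => rw [← h2, h1]
    simp
  obtain ⟨g, hg⟩ := (Perm.exists_with_cycleType_iff Ω (m := ρ.filter fun a => 2 ≤ a)).2
    ⟨by omega, fun a ha => (Multiset.mem_filter.1 ha).2⟩
  refine ⟨g, ?_⟩
  rw [ty_def, ← Perm.sum_cycleType, hg]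
  conv_rhs => rw [← h2, h1]
  congr 2
  omega

lemma ty_sign (g : Perm Ω) : Perm.sign g = (-1) ^ (Fintype.card Ω + (ty g).card) := by
  rw [Perm.sign_of_cycleType, ty_def, Multiset.card_add, Multiset.card_replicate,
    Perm.sum_cycleType]
  have h := g.support.card_le_univ
  have e : Fintype.card Ω + (g.cycleType.card + (Fintype.card Ω - g.support.card)) =
      g.support.card + g.cycleType.card + 2 * (Fintype.card Ω - g.support.card) := by omega
  rw [e, pow_add _ _ (2 * _), pow_mul]
  simp

omit [Fintype Ω] [DecidableEq Ω] in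
lemma per_iff (g : Perm Ω) (n : ℕ) (x : Ω) : Function.IsPeriodicPt g n x ↔ (g ^ n) x = x := by
  rw [Perm.coe_pow]; rfl

lemma mp_eq (g : Perm Ω) (x : Ω) (hx : g x ≠ x) :
    Function.minimalPeriod g x = (g.cycleOf x).support.card := by
  have h : ∀ n, Function.minimalPeriod g x ∣ n ↔ (g.cycleOf x).support.card ∣ n := fun n => by
    rw [← Function.isPeriodicPt_iff_minimalPeriod_dvd, per_iff]
    exact (Perm.isCycleOn_support_cycleOf g x).pow_apply_eq
      (Finset.mem_coe.2 ((Perm.mem_support_cycleOf_iff' hx).2 (Perm.SameCycle.refl g x)))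
  exact Nat.dvd_antisymm ((h _).2 dvd_rfl) ((h _).1 dvd_rfl)

omit [DecidableEq Ω] in
lemma mp_dvd (g : Perm Ω) (x : Ω) : Function.minimalPeriod g x ∣ orderOf g := by
  rw [← Function.isPeriodicPt_iff_minimalPeriod_dvd, per_iff, pow_orderOf_eq_one]; rfl

lemma ty_per (g : Perm Ω) (r : ℕ) : r * (ty g).count r =
    (Finset.univ.filter fun x => Function.minimalPeriod g x = r).card := by
  rcases Nat.lt_trichotomy r 1 with h | rfl | h
  · obtain rfl : r = 0 := by omega
    rw [zero_mul, eq_comm, Finset.card_eq_zero, Finset.filter_eq_empty_iff]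
    intro x _ hx
    have := mp_dvd g x
    rw [hx, zero_dvd_iff] at this
    exact (orderOf_pos g).ne' this
  · rw [one_mul, ty_def, Multiset.count_add, count_one, Multiset.count_replicate_self, zero_add,
      ← Finset.card_compl]
    congr 1
    ext x
    simp [Function.minimalPeriod_eq_one_iff_isFixedPt, Function.IsFixedPt]
  · have hne : ∀ x, Function.minimalPeriod g x = r → g x ≠ x := fun x hx h1 => by
      have := Function.minimalPeriod_eq_one_iff_isFixedPt.2 h1
      omega
    rw [ty_def, Multiset.count_add, Multiset.count_replicate, if_neg (by omega), add_zero,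
      Finset.card_eq_sum_card_fiberwise (f := fun x => g.cycleOf x)
        (t := g.cycleFactorsFinset.filter fun c => c.support.card = r)]
    · rw [Finset.sum_congr rfl (g := fun _ => r), Finset.sum_const, smul_eq_mul, mul_comm]
      · congr 1
        rw [Perm.cycleType_def, Multiset.count_map, Finset.card, Finset.filter_val]
        congr 1
        exact Multiset.filter_congr fun c _ => eq_comm
      · intro c hc
        rw [Finset.mem_filter] at hc
        rw [← hc.2]
        congr 1
        ext x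
        simp only [Finset.mem_filter, Finset.mem_univ, true_and]
        constructor
        · rintro ⟨h1, rfl⟩
          exact (Perm.mem_support_cycleOf_iff' (hne x (h1.trans hc.2))).2 (Perm.SameCycle.refl g x)
        · intro hx
          have h1 := Perm.cycle_is_cycleOf hx hc.1
          have h2 : g x ≠ x := Perm.mem_support.1 (Perm.mem_cycleFactorsFinset_support_le hc.1 hx)
          exact ⟨by rw [mp_eq g x h2, ← h1], h1.symm⟩
    · intro x hx
      have h1 := (Finset.mem_filter.1 (Finset.mem_coe.1 hx)).2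
      exact Finset.mem_coe.2 (Finset.mem_filter.2 ⟨Perm.cycleOf_mem_cycleFactorsFinset_iff.2
        (Perm.mem_support.2 (hne x h1)), by rw [← mp_eq g x (hne x h1), h1]⟩)

lemma ty_ext {Ω' : Type} [Fintype Ω'] [DecidableEq Ω'] (g : Perm Ω) (g' : Perm Ω') (e : Ω ≃ Ω')
    (h : ∀ x, Function.minimalPeriod g' (e x) = Function.minimalPeriod g x) : ty g' = ty g := by
  ext r
  rcases Nat.eq_zero_or_pos r with rfl | hr
  · rw [Multiset.count_eq_zero.2 (ty_pos _), Multiset.count_eq_zero.2 (ty_pos _)]
  · apply Nat.eq_of_mul_eq_mul_left hr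
    rw [ty_per, ty_per]
    symm
    exact Finset.card_equiv e fun x => by simp [h]

lemma ty_pow (g : Perm Ω) (s : ℕ) (hs : s.Coprime (orderOf g)) : ty (g ^ s) = ty g := by
  refine ty_ext g _ (Equiv.refl _) fun x => ?_
  rw [Equiv.refl_apply, Function.minimalPeriod_eq_minimalPeriod_iff]
  intro n
  rw [per_iff, ← pow_mul, ← per_iff, Function.isPeriodicPt_iff_minimalPeriod_dvd,
    Function.isPeriodicPt_iff_minimalPeriod_dvd]
  exact (Nat.Coprime.coprime_dvd_left (mp_dvd g x) hs.symm).dvd_mul_left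

lemma ty_congr {Ω' : Type} [Fintype Ω'] [DecidableEq Ω'] (e : Ω ≃ Ω') (g : Perm Ω) :
    ty (e.permCongr g) = ty g := by
  refine ty_ext g _ e fun x => ?_
  rw [Function.minimalPeriod_eq_minimalPeriod_iff]
  intro n
  rw [per_iff, per_iff]
  have : e.permCongr g ^ n = e.permCongr (g ^ n) := (map_pow e.permCongrHom g n).symm
  rw [this]
  simp

lemma supp_sub {I : Finset Ω} {g : Perm Ω} (hg : ∀ i ∉ I, g i = i) : g.support ⊆ I :=
  fun i hi => by_contra fun h => Perm.mem_support.1 hi (hg i h)

lemma tyI_def (I : Finset Ω) (g : Perm Ω) (hg : ∀ i ∉ I, g i = i) :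
    tyI I g = g.cycleType + Multiset.replicate (I.card - g.support.card) 1 := by
  have h1 := Finset.card_le_card (supp_sub hg)
  have h2 := I.card_le_univ
  have e : Fintype.card Ω - g.support.card =
      (I.card - g.support.card) + (Fintype.card Ω - I.card) := by omega
  rw [tyI, ty_def, e, Multiset.replicate_add, ← add_assoc, add_tsub_cancel_right]

lemma tyI_sub (I : Finset Ω) (g : Perm I) : tyI I (Perm.ofSubtype g) = ty g := by
  rw [tyI_def I _ fun i hi => Perm.ofSubtype_apply_of_not_mem g hi, ty_def,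
    ← Perm.sum_cycleType, ← Perm.sum_cycleType, Perm.cycleType_ofSubtype, Fintype.card_coe]

lemma ex_sub (I : Finset Ω) (g : Perm Ω) (hg : ∀ i ∉ I, g i = i) :
    ∃ g' : Perm I, Perm.ofSubtype g' = g := by
  have h : ∀ x, g x ∈ I ↔ x ∈ I := fun x => by
    by_cases hx : g x = x
    · rw [hx]
    · have h1 := supp_sub hg (Perm.mem_support.2 hx)
      have h2 := supp_sub hg (Perm.apply_mem_support.2 (Perm.mem_support.2 hx))
      exact iff_of_true h2 h1
  exact ⟨g.subtypePerm h, Perm.ofSubtype_subtypePerm h fun x hx => supp_sub hg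
    (Perm.mem_support.2 hx)⟩

end basic

/-- the product of the factorials of the multiplicities. -/
def w (ρ : Multiset ℕ) : ℕ := ∏ n ∈ ρ.toFinset, (ρ.count n).factorial

lemma w_cons (a : ℕ) (ρ : Multiset ℕ) : w (a ::ₘ ρ) = (ρ.count a + 1) * w ρ := by
  have h1 : w ρ = ∏ n ∈ insert a ρ.toFinset, (ρ.count n).factorial :=
    Finset.prod_subset (Finset.subset_insert _ _) fun x _ hx => by
      rw [Multiset.count_eq_zero.2 (by simpa using hx), Nat.factorial_zero]
  rw [h1, w, Multiset.toFinset_cons,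
    ← Finset.mul_prod_erase _ _ (Finset.mem_insert_self a ρ.toFinset),
    ← Finset.mul_prod_erase _ _ (Finset.mem_insert_self a ρ.toFinset),
    Multiset.count_cons_self, Nat.factorial_succ, mul_assoc]
  congr 2
  exact Finset.prod_congr rfl fun x hx => by
    rw [Multiset.count_cons_of_ne (Finset.ne_of_mem_erase hx)]

lemma w_pos (ρ : Multiset ℕ) : 0 < w ρ := Finset.prod_pos fun _ _ => Nat.factorial_pos _

lemma w_rep (c : Multiset ℕ) (hc : c.count 1 = 0) (k : ℕ) :
    w (c + Multiset.replicate k 1) = k.factorial * w c := by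
  induction k with
  | zero => simp
  | succ k ih =>
    rw [Multiset.replicate_succ, Multiset.add_cons, w_cons, ih, Multiset.count_add, hc,
      Multiset.count_replicate_self, zero_add, Nat.factorial_succ, mul_assoc]

/-- partitions of `n` as multisets. -/
def Pn (n : ℕ) : Finset (Multiset ℕ) := Finset.univ.image fun p : n.Partition => p.parts

lemma mem_Pn {n : ℕ} {ρ : Multiset ℕ} : ρ ∈ Pn n ↔ 0 ∉ ρ ∧ ρ.sum = n := by
  rw [Pn, Finset.mem_image]
  constructor
  · rintro ⟨p, -, rfl⟩
    exact ⟨fun h => lt_irrefl 0 (p.parts_pos h), p.parts_sum⟩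
  · rintro ⟨h1, h2⟩
    exact ⟨⟨ρ, fun {i} hi => Nat.pos_of_ne_zero fun h => h1 (h ▸ hi), h2⟩, Finset.mem_univ _, rfl⟩

lemma step (m a : ℕ) (ha : a ≠ 0) (F : Multiset ℕ → K) :
    ∑ ρ ∈ Pn m, ((ρ.prod * w ρ : ℕ) : K)⁻¹ * F (a ::ₘ ρ) =
      ∑ ρ ∈ Pn (a + m), ((ρ.count a * a : ℕ) : K) * (((ρ.prod * w ρ : ℕ) : K)⁻¹ * F ρ) := by
  have h1 : (Pn m).image (a ::ₘ ·) ⊆ Pn (a + m) := by
    intro ρ hρ
    obtain ⟨ρ', h, rfl⟩ := Finset.mem_image.1 hρ
    rw [mem_Pn] at h ⊢
    exact ⟨by simp [h.1, ha.symm], by simp [h.2]⟩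
  rw [← Finset.sum_subset h1, Finset.sum_image fun x _ y _ h => (Multiset.cons_inj_right a).1 h]
  · refine Finset.sum_congr rfl fun ρ hρ => ?_
    have h2 : ((ρ.count a + 1 : ℕ) : K) ≠ 0 := Nat.cast_ne_zero.2 (Nat.succ_ne_zero _)
    have h3 : (a : K) ≠ 0 := Nat.cast_ne_zero.2 ha
    rw [w_cons, Multiset.prod_cons, Multiset.count_cons_self, ← mul_assoc]
    congr 1
    have e : ((a * ρ.prod * ((ρ.count a + 1) * w ρ) : ℕ) : K) =
        (((ρ.count a + 1) * a : ℕ) : K) * ((ρ.prod * w ρ : ℕ) : K) := by push_cast; ring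
    rw [e, mul_inv, ← mul_assoc, mul_inv_cancel₀, one_mul]
    rw [Nat.cast_mul]
    exact mul_ne_zero h2 h3
  · intro ρ hρ hn
    have : a ∉ ρ := fun h => hn (Finset.mem_image.2 ⟨ρ.erase a, by
      rw [mem_Pn] at hρ ⊢
      refine ⟨fun h0 => hρ.1 (Multiset.mem_of_mem_erase h0), ?_⟩
      have := hρ.2
      rw [← Multiset.cons_erase h, Multiset.sum_cons] at this
      omega, Multiset.cons_erase h⟩)
    rw [Multiset.count_eq_zero.2 this]
    simp

lemma av_eq (n : ℕ) : ∀ F : Multiset ℕ → K,
    Av n F = ∑ ρ ∈ Pn n, ((ρ.prod * w ρ : ℕ) : K)⁻¹ * F ρ := by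
  induction n using Nat.strong_induction_on with
  | _ n ih =>
    intro F
    rcases n with _ | n
    · have : Pn 0 = {0} := by
        ext ρ
        rw [mem_Pn, Finset.mem_singleton]
        refine ⟨fun h => Multiset.eq_zero_of_forall_notMem fun x hx => ?_, fun h => by simp [h]⟩
        have h1 := Multiset.single_le_sum (fun _ _ => Nat.zero_le _) x hx
        obtain rfl : x = 0 := by omega
        exact h.1 hx
      rw [this, Av]
      simp [w]
    · rw [Av, LinearMap.smul_apply, LinearMap.sum_apply]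
      have h1 : ∀ r : Fin (n + 1), ((Av (n - r)).comp
          (LinearMap.funLeft K K fun ρ => ((r : ℕ) + 1) ::ₘ ρ)) F =
          ∑ ρ ∈ Pn (n + 1), ((ρ.count ((r : ℕ) + 1) * ((r : ℕ) + 1) : ℕ) : K) *
            (((ρ.prod * w ρ : ℕ) : K)⁻¹ * F ρ) := fun r => by
        have hr := r.2
        have e : n + 1 = (r + 1) + (n - r) := by omega
        rw [LinearMap.comp_apply, ih _ (by omega), congrArg Pn e]
        exact step (n - r) (r + 1) (Nat.succ_ne_zero _) F
      rw [Finset.sum_congr rfl fun r _ => h1 r, Finset.sum_comm, smul_eq_mul, Finset.mul_sum]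
      refine Finset.sum_congr rfl fun ρ hρ => ?_
      rw [mem_Pn] at hρ
      have h2 : ∑ r : Fin (n + 1), ρ.count ((r : ℕ) + 1) * ((r : ℕ) + 1) = n + 1 := by
        rw [Fin.sum_univ_eq_sum_range (fun r => ρ.count (r + 1) * (r + 1)) (n + 1)]
        have h3 := Finset.sum_multiset_count_of_subset ρ (Finset.range (n + 2)) fun x hx => by
          have h1 := Multiset.single_le_sum (fun _ _ => Nat.zero_le _) x
            (Multiset.mem_toFinset.1 hx)
          rw [Finset.mem_range]
          omega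
        rw [Finset.sum_range_succ', hρ.2] at h3
        simpa using h3.symm
      rw [← Finset.sum_mul, ← Nat.cast_sum, h2, ← mul_assoc,
        inv_mul_cancel₀ (Nat.cast_ne_zero.2 (Nat.succ_ne_zero n)), one_mul]

lemma dict {Ω : Type} [Fintype Ω] [DecidableEq Ω] (F : Multiset ℕ → K) :
    ((Fintype.card Ω).factorial : K)⁻¹ * ∑ g : Perm Ω, F (ty g) = Av (Fintype.card Ω) F := by
  rw [av_eq, ← Finset.sum_fiberwise_of_maps_to (s := Finset.univ) (t := Pn (Fintype.card Ω))
    (g := fun g : Perm Ω => ty g) (fun g _ => mem_Pn.2 ⟨ty_pos g, ty_sum g⟩), Finset.mul_sum]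
  refine Finset.sum_congr rfl fun ρ hρ => ?_
  rw [mem_Pn] at hρ
  obtain ⟨g, rfl⟩ := ty_ex (Ω := Ω) ρ hρ.1 hρ.2
  rw [Finset.sum_congr rfl (g := fun _ => F (ty g)) fun h hh => by
    rw [(Finset.mem_filter.1 hh).2], Finset.sum_const, nsmul_eq_mul, ← mul_assoc]
  congr 1
  have h1 := Perm.card_isConj_mul_eq g
  have h2 : Nat.card {h : Perm Ω | IsConj g h} =
      (Finset.univ.filter fun h : Perm Ω => ty h = ty g).card := by
    rw [← Nat.card_eq_finsetCard]
    exact Nat.card_congr (Equiv.subtypeEquivRight fun h => by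
      rw [Set.mem_setOf_eq, ty_conj, Finset.mem_filter, eq_comm]; simp)
  have h3 : (ty g).prod * w (ty g) = (Fintype.card Ω - g.cycleType.sum).factorial *
      g.cycleType.prod * ∏ n ∈ g.cycleType.toFinset, (g.cycleType.count n).factorial := by
    rw [ty_def, w_rep _ (count_one g), Multiset.prod_add, Multiset.prod_replicate, one_pow,
      mul_one, Perm.sum_cycleType, w]
    ring
  rw [h2, ← h3] at h1
  have h4 : (Finset.univ.filter fun h : Perm Ω => ty h = ty g).card ≠ 0 :=
    Finset.card_ne_zero.2 ⟨g, by simp⟩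
  rw [← h1, Nat.cast_mul, mul_inv, mul_right_comm, inv_mul_cancel₀ (Nat.cast_ne_zero.2 h4),
    one_mul]

end PA

open PA in
theorem permA : PermASt := fun Ω _ _ =>
  { sum := ty_sum
    pos := ty_pos
    one := by simp [ty_def]
    conj := ty_conj
    ex := ty_ex
    sign := ty_sign
    inv := fun g => by rw [ty_def, ty_def, Perm.cycleType_inv, Perm.support_inv]
    pow := ty_pow
    per := ty_per
    congr := fun _ _ _ e g => ty_congr e g
    tyI_univ := fun g => by simp [tyI]
    tyI_eq := fun I g hg => by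
      have h1 := Finset.card_le_card (supp_sub hg)
      have h2 := I.card_le_univ
      rw [tyI_def I g hg, ty_def, add_assoc, ← Multiset.replicate_add]
      congr 2
      omega
    tyI_sum := fun I g hg => by
      have h1 := Finset.card_le_card (supp_sub hg)
      rw [tyI_def I g hg, Multiset.sum_add, Perm.sum_cycleType, Multiset.sum_replicate,
        smul_eq_mul]
      omega
    tyI_sub := tyI_sub
    tyI_mul := fun I J g h hd hg hh => by
      have h1 := Finset.card_le_card (supp_sub hg)
      have h2 := Finset.card_le_card (supp_sub hh)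
      have h3 : g.Disjoint h := Perm.disjoint_iff_disjoint_support.2
        (hd.mono (supp_sub hg) (supp_sub hh))
      rw [tyI_def I g hg, tyI_def J h hh, tyI_def (I ∪ J) (g * h) fun i hi => by
          rw [Finset.mem_union, not_or] at hi
          rw [Perm.mul_apply, hh i hi.2, hg i hi.1],
        h3.cycleType_mul, h3.card_support_mul, Finset.card_union_of_disjoint hd, add_add_add_comm,
        ← Multiset.replicate_add]
      congr 2
      omega
    tyI_conj := fun I g h hg hh e => by
      obtain ⟨g', rfl⟩ := ex_sub I g hg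
      obtain ⟨h', rfl⟩ := ex_sub I h hh
      rw [tyI_sub, tyI_sub, ← ty_conj, isConj_iff] at e
      obtain ⟨k, rfl⟩ := e
      exact ⟨Perm.ofSubtype k, fun i hi => Perm.ofSubtype_apply_of_not_mem k hi, by
        rw [map_mul, map_mul, map_inv]⟩
    dict := dict }

end Pool.Agent.Lib.MP_1ae3da_al.GM
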