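import Pool.Agent.Lib.MP_1ae3da_al.GT

/-! Orbit counts and the sign of a normalising permutation on the set of orbits. -/

namespace Pool.Agent.Lib.MP_1ae3da_al.GM

open Equiv

namespace PermBAux

lemma oc_of {Ω O : Type} (Δ : Subgroup (Perm Ω)) (f : Ω → O) (hf : Function.Surjective f)
    (h : ∀ x y, f x = f y ↔ ∃ g ∈ Δ, g y = x) : oc Δ = Nat.card O := by
  unfold oc
  have key : ∀ x y : Ω, (MulAction.orbitRel Δ Ω) x y ↔ f x = f y := by
    intro x y
    rw [MulAction.orbitRel_apply, MulAction.mem_orbit_iff, h]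
    constructor
    · rintro ⟨⟨g, hg⟩, e⟩
      exact ⟨g, hg, e⟩
    · rintro ⟨g, hg, e⟩
      exact ⟨⟨g, hg⟩, e⟩
  refine Nat.card_congr (Equiv.ofBijective
    (Quotient.lift f (fun x y hxy => (key x y).1 hxy)) ⟨?_, ?_⟩)
  · intro a b
    induction a using Quotient.inductionOn
    induction b using Quotient.inductionOn
    intro e
    exact Quotient.sound ((key _ _).2 e)
  · intro o
    obtain ⟨x, rfl⟩ := hf o
    exact ⟨Quotient.mk _ x, rfl⟩

lemma mk_iff {Ω : Type} (Δ : Subgroup (Perm Ω)) (x y : Ω) :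
    (Quotient.mk (MulAction.orbitRel Δ Ω) x = Quotient.mk (MulAction.orbitRel Δ Ω) y) ↔
      ∃ g ∈ Δ, g y = x := by
  rw [Quotient.eq, MulAction.orbitRel_apply, MulAction.mem_orbit_iff]
  constructor
  · rintro ⟨⟨g, hg⟩, e⟩
    exact ⟨g, hg, e⟩
  · rintro ⟨g, hg, e⟩
    exact ⟨⟨g, hg⟩, e⟩

lemma sc_iff {Ω : Type} (l : Perm Ω) (x y : Ω) :
    l.SameCycle x y ↔ ∃ g ∈ Subgroup.zpowers l, g y = x := by
  constructor
  · intro h
    obtain ⟨i, hi⟩ := h.symm
    exact ⟨l ^ i, Subgroup.zpow_mem_zpowers _ _, hi⟩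
  · rintro ⟨g, ⟨i, rfl⟩, e⟩
    exact Perm.SameCycle.symm ⟨i, e⟩

lemma oc_zp_of {Ω O : Type} (l : Perm Ω) (f : Ω → O) (hf : Function.Surjective f)
    (h : ∀ x y, f x = f y ↔ l.SameCycle x y) : oc (Subgroup.zpowers l) = Nat.card O :=
  oc_of _ f hf fun x y => (h x y).trans (sc_iff l x y)

lemma oc_map {Ω Ω' : Type} (e : Ω ≃ Ω') (Δ : Subgroup (Perm Ω)) :
    oc (Δ.map e.permCongrHom.toMonoidHom) = oc Δ := by
  refine oc_of _ (fun x => Quotient.mk (MulAction.orbitRel Δ Ω) (e.symm x)) ?_ ?_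
  · intro q
    induction q using Quotient.inductionOn with
    | _ x => exact ⟨e x, by simp⟩
  · intro x y
    rw [mk_iff]
    constructor
    · rintro ⟨g, hg, h⟩
      refine ⟨e.permCongr g, ⟨g, hg, rfl⟩, ?_⟩
      simp [Equiv.permCongr_apply, h]
    · rintro ⟨g', ⟨g, hg, rfl⟩, h⟩
      refine ⟨g, hg, ?_⟩
      rw [← h]
      change g (e.symm y) = e.symm (e.permCongr g y)
      simp [Equiv.permCongr_apply]

lemma so_congr {Ω Ω' : Type} (e : Ω ≃ Ω') (l h : Perm Ω) :
    so (e.permCongr l) (e.permCongr h) = so l h := by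
  unfold so
  rw [← oc_map e (Subgroup.zpowers l), ← oc_map e (Subgroup.closure {l, h}),
    MonoidHom.map_zpowers, MonoidHom.map_closure, Set.image_pair]
  rfl

section fin
variable {Ω : Type} [Fintype Ω] [DecidableEq Ω]

lemma card_fib (l : Perm Ω) {O : Type} [DecidableEq O] (f : Ω → O)
    (h : ∀ x y, f x = f y ↔ l.SameCycle x y) (x : Ω) :
    (Finset.univ.filter fun y => f y = f x).card = Function.minimalPeriod l x := by
  classical
  have h1 := MulAction.minimalPeriod_eq_card l x
  have h2 : (fun y : Ω => l • y) = l := rfl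
  rw [h2] at h1
  rw [h1, ← Set.toFinset_card]
  congr 1
  ext y
  simp only [Finset.mem_filter, Finset.mem_univ, true_and, Set.mem_toFinset,
    MulAction.mem_orbit_iff, h, sc_iff]
  constructor
  · rintro ⟨g, hg, e⟩
    exact ⟨⟨g, hg⟩, e⟩
  · rintro ⟨⟨g, hg⟩, e⟩
    exact ⟨g, hg, e⟩

lemma ty_eq (ha : PermA Ω) (l : Perm Ω) {O : Type} [Fintype O] [DecidableEq O] (f : Ω → O)
    (hf : Function.Surjective f) (h : ∀ x y, f x = f y ↔ l.SameCycle x y) :
    ty l = Finset.univ.val.map fun o => (Finset.univ.filter fun y => f y = o).card := by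
  ext r
  rw [Multiset.count_map]
  change _ = (Finset.univ.filter fun o : O =>
    r = (Finset.univ.filter fun y => f y = o).card).card
  rcases Nat.eq_zero_or_pos r with rfl | hr
  · rw [Multiset.count_eq_zero.2 (ha.pos l)]
    symm
    rw [Finset.card_eq_zero, Finset.filter_eq_empty_iff]
    intro o _ e
    obtain ⟨x, rfl⟩ := hf o
    have : x ∈ Finset.univ.filter fun y => f y = f x := by simp
    rw [Finset.card_eq_zero.1 e.symm] at this
    simp at this
  · apply Nat.eq_of_mul_eq_mul_left hr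
    rw [ha.per l r]
    rw [Finset.card_eq_sum_card_fiberwise (f := f) (t := Finset.univ.filter fun o : O =>
      r = (Finset.univ.filter fun y => f y = o).card)]
    · rw [mul_comm, ← smul_eq_mul, ← Finset.sum_const]
      refine Finset.sum_congr rfl fun o ho => ?_
      have ho' := (Finset.mem_filter.1 ho).2
      conv_rhs => rw [ho']
      congr 1
      ext y
      simp only [Finset.mem_filter, Finset.mem_univ, true_and, and_iff_right_iff_imp]
      rintro rfl
      rw [ho', card_fib l f h]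
    · intro x hx
      simp only [Finset.coe_filter, Finset.mem_univ, true_and, Set.mem_setOf_eq] at hx ⊢
      rw [card_fib l f h, hx]

lemma mk_sc (l : Perm Ω) (x y : Ω) :
    (Quotient.mk (Perm.SameCycle.setoid l) x = Quotient.mk (Perm.SameCycle.setoid l) y) ↔
      l.SameCycle x y := Quotient.eq

lemma oc_zp (ha : PermA Ω) (g : Perm Ω) : oc (Subgroup.zpowers g) = (ty g).card := by
  classical
  haveI : Fintype (Quotient (Perm.SameCycle.setoid g)) := Fintype.ofFinite _
  rw [oc_zp_of g _ Quotient.mk_surjective (mk_sc g),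
    ty_eq ha g _ Quotient.mk_surjective (mk_sc g), Multiset.card_map, Nat.card_eq_fintype_card]
  rfl

lemma so_eq (hpa : PermASt) (l h : Perm Ω) (O : Type) [Fintype O] [DecidableEq O] (f : Ω → O)
    (η : Perm O) (hf : Function.Surjective f) (hs : ∀ x y, f x = f y ↔ l.SameCycle x y)
    (hη : ∀ x, f (h x) = η (f x)) : so l h = Perm.sign η := by
  have hpow : ∀ (i : ℕ) (y : Ω), f ((h ^ i) y) = (η ^ i) (f y) := by
    intro i
    induction i with
    | zero => intro y; simp
    | succ i ih => intro y; rw [pow_succ', pow_succ', Perm.mul_apply, Perm.mul_apply, hη, ih]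
  have hl : l ∈ Subgroup.closure ({l, h} : Set (Perm Ω)) := Subgroup.subset_closure (by simp)
  have hh : h ∈ Subgroup.closure ({l, h} : Set (Perm Ω)) := Subgroup.subset_closure (by simp)
  have h2 : oc (Subgroup.closure {l, h}) = oc (Subgroup.zpowers η) := by
    rw [oc_zp_of η _ Quotient.mk_surjective (mk_sc η)]
    refine oc_of _ (fun x => Quotient.mk (Perm.SameCycle.setoid η) (f x))
      (Quotient.mk_surjective.comp hf) ?_
    intro x y
    rw [mk_sc]
    constructor
    · intro hxy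
      obtain ⟨i, -, hi⟩ := hxy.symm.exists_pow_eq'
      rw [← hpow, hs] at hi
      obtain ⟨j, hj⟩ := hi
      exact ⟨l ^ j * h ^ i, mul_mem (zpow_mem hl _) (pow_mem hh _), hj⟩
    · rintro ⟨g, hg, rfl⟩
      have : ∀ y, η.SameCycle (f (g y)) (f y) := by
        induction hg using Subgroup.closure_induction with
        | mem a ha =>
          intro y
          rcases ha with rfl | rfl
          · rw [(hs (a y) y).2 (Perm.SameCycle.symm ⟨1, by simp⟩)]
          · rw [hη]
            exact Perm.SameCycle.symm ⟨1, by simp⟩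
        | one => intro y; simpa using Perm.SameCycle.refl _ _
        | mul a b _ _ iha ihb => intro y; exact (iha (b y)).trans (ihb y)
        | inv a _ iha =>
          intro y
          have := iha (a⁻¹ y)
          rw [show a (a⁻¹ y) = y by simp] at this
          exact this.symm
      exact this y
  unfold so
  rw [h2, oc_zp_of l f hf hs, oc_zp (hpa O) η, (hpa O).sign, Nat.card_eq_fintype_card]

lemma so_ex (l h : Perm Ω) (hl : h * l * h⁻¹ ∈ Subgroup.zpowers l) :
    ∃ η : Perm (Quotient (Perm.SameCycle.setoid l)),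
      ∀ x, Quotient.mk _ (h x) = η (Quotient.mk _ x) := by
  have hmap : ∀ x y, l.SameCycle x y → l.SameCycle (h x) (h y) := by
    rintro x y ⟨i, rfl⟩
    obtain ⟨k, hk⟩ := zpow_mem hl i
    refine ⟨k, ?_⟩
    have hk' : l ^ k = (h * l * h⁻¹) ^ i := hk
    rw [hk', conj_zpow]
    simp
  let F : Quotient (Perm.SameCycle.setoid l) → Quotient (Perm.SameCycle.setoid l) :=
    Quotient.map h hmap
  have hF : Function.Surjective F := by
    intro q
    induction q using Quotient.inductionOn with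
    | _ x => exact ⟨Quotient.mk _ (h⁻¹ x), by simp [F, Quotient.map_mk]⟩
  exact ⟨Equiv.ofBijective F ⟨Finite.injective_iff_surjective.2 hF, hF⟩, fun x => rfl⟩

lemma so_mul (hpa : PermASt) (l h h' : Perm Ω) (hl : h * l * h⁻¹ ∈ Subgroup.zpowers l)
    (hl' : h' * l * h'⁻¹ ∈ Subgroup.zpowers l) : so l (h * h') = so l h * so l h' := by
  classical
  haveI : Fintype (Quotient (Perm.SameCycle.setoid l)) := Fintype.ofFinite _
  obtain ⟨η, hη⟩ := so_ex l h hl
  obtain ⟨η', hη'⟩ := so_ex l h' hl'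
  rw [so_eq hpa l h _ _ η Quotient.mk_surjective (mk_sc l) hη,
    so_eq hpa l h' _ _ η' Quotient.mk_surjective (mk_sc l) hη',
    so_eq hpa l (h * h') _ _ (η * η') Quotient.mk_surjective (mk_sc l)
      (fun x => by rw [Perm.mul_apply, Perm.mul_apply, hη, hη']), map_mul]

lemma so_fix (hpa : PermASt) (l h : Perm Ω) (hx : ∀ x, l.SameCycle x (h x)) : so l h = 1 := by
  classical
  haveI : Fintype (Quotient (Perm.SameCycle.setoid l)) := Fintype.ofFinite _
  rw [so_eq hpa l h _ _ 1 Quotient.mk_surjective (mk_sc l)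
    (fun x => (mk_sc l _ _).2 (hx x).symm), map_one]

lemma strict (hpa : PermASt) (l h : Perm Ω) (s : ℕ) (hn : (ty l).Nodup)
    (hs : h * l * h⁻¹ = l ^ s) : so l h = 1 := by
  classical
  haveI : Fintype (Quotient (Perm.SameCycle.setoid l)) := Fintype.ofFinite _
  obtain ⟨η, hη⟩ := so_ex l h (hs ▸ Subgroup.npow_mem_zpowers l s)
  rw [ty_eq (hpa Ω) l _ Quotient.mk_surjective (mk_sc l)] at hn
  have hinj := Multiset.inj_on_of_nodup_map hn
  refine so_fix hpa l h fun x => ?_
  rw [← mk_sc]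
  refine hinj _ (by simp) _ (by simp) ?_
  refine Finset.card_bij (fun y _ => h y) ?_ ?_ ?_
  · intro y hy
    simp only [Finset.mem_filter, Finset.mem_univ, true_and] at hy ⊢
    rw [hη, hη, hy]
  · intro a _ b _ e
    exact h.injective e
  · intro y hy
    simp only [Finset.mem_filter, Finset.mem_univ, true_and] at hy
    refine ⟨h⁻¹ y, ?_, by simp⟩
    simp only [Finset.mem_filter, Finset.mem_univ, true_and]
    apply η.injective
    rw [← hη, ← hη, ← hy]
    simp

lemma zpow_iff (l : Perm Ω) (x : Ω) (i j : ℤ) :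
    (l ^ i) x = (l ^ j) x ↔ (Function.minimalPeriod l x : ℤ) ∣ i - j := by
  have h1 := MulAction.zpow_smul_eq_iff_minimalPeriod_dvd (a := l) (b := x) (n := i - j)
  have h2 : (fun y : Ω => l • y) = l := rfl
  rw [h2] at h1
  rw [← h1, Perm.smul_def]
  have : l ^ i = l ^ j * l ^ (i - j) := by rw [← zpow_add]; congr 1; ring
  rw [this, Perm.mul_apply, EmbeddingLike.apply_eq_iff_eq]

lemma nonstrict (hpa : PermASt) (l : Perm Ω) (hn : ¬ (ty l).Nodup) :
    ∃ h : Perm Ω, h * l * h⁻¹ = l ∧ so l h = -1 := by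
  classical
  haveI : Fintype (Quotient (Perm.SameCycle.setoid l)) := Fintype.ofFinite _
  rw [ty_eq (hpa Ω) l _ Quotient.mk_surjective (mk_sc l),
    Multiset.nodup_map_iff_inj_on Finset.univ.nodup] at hn
  push Not at hn
  obtain ⟨o, -, o', -, hc, hne⟩ := hn
  obtain ⟨x, rfl⟩ := Quotient.mk_surjective o
  obtain ⟨y, rfl⟩ := Quotient.mk_surjective o'
  rw [card_fib l _ (mk_sc l), card_fib l _ (mk_sc l)] at hc
  have hxy : ¬ l.SameCycle x y := fun h => hne ((mk_sc l x y).2 h)
  have hiff : ∀ i j : ℤ, (l ^ i) x = (l ^ j) x ↔ (l ^ i) y = (l ^ j) y := by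
    intro i j
    rw [zpow_iff, zpow_iff, hc]
  let H : Ω → Ω := fun z =>
    if hz : l.SameCycle x z then (l ^ hz.choose) y
    else if hz' : l.SameCycle y z then (l ^ hz'.choose) x else z
  have H1 : ∀ i : ℤ, H ((l ^ i) x) = (l ^ i) y := by
    intro i
    have hz : l.SameCycle x ((l ^ i) x) := ⟨i, rfl⟩
    simp only [H, dif_pos hz]
    exact (hiff _ _).1 hz.choose_spec
  have H2 : ∀ i : ℤ, H ((l ^ i) y) = (l ^ i) x := by
    intro i
    have hz' : l.SameCycle y ((l ^ i) y) := ⟨i, rfl⟩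
    have hz : ¬ l.SameCycle x ((l ^ i) y) := fun h => hxy (h.trans hz'.symm)
    simp only [H, dif_neg hz, dif_pos hz']
    exact (hiff _ _).2 hz'.choose_spec
  have H3 : ∀ z, ¬ l.SameCycle x z → ¬ l.SameCycle y z → H z = z := by
    intro z h1 h2
    simp only [H, dif_neg h1, dif_neg h2]
  have hsucc : ∀ (i : ℤ) (z : Ω), l ((l ^ i) z) = (l ^ (1 + i)) z := by
    intro i z
    rw [zpow_add, zpow_one, Perm.mul_apply]
  have hinv : Function.Involutive H := by
    intro z
    by_cases h1 : l.SameCycle x z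
    · obtain ⟨i, rfl⟩ := h1
      rw [H1, H2]
    · by_cases h2 : l.SameCycle y z
      · obtain ⟨i, rfl⟩ := h2
        rw [H2, H1]
      · rw [H3 z h1 h2, H3 z h1 h2]
  have hcomm : ∀ z, H (l z) = l (H z) := by
    intro z
    by_cases h1 : l.SameCycle x z
    · obtain ⟨i, rfl⟩ := h1
      rw [hsucc, H1, H1, hsucc]
    · by_cases h2 : l.SameCycle y z
      · obtain ⟨i, rfl⟩ := h2
        rw [hsucc, H2, H2, hsucc]
      · rw [H3 z h1 h2, H3 (l z) (by simpa using h1) (by simpa using h2)]
  refine ⟨hinv.toPerm H, ?_, ?_⟩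
  · rw [mul_inv_eq_iff_eq_mul]
    ext z
    exact hcomm z
  · rw [so_eq hpa l _ _ _ (Equiv.swap (Quotient.mk _ x) (Quotient.mk _ y)) Quotient.mk_surjective
      (mk_sc l) ?_, Perm.sign_swap hne]
    intro z
    change Quotient.mk _ (H z) = _
    have e : ∀ (i : ℤ) (w : Ω), Quotient.mk (Perm.SameCycle.setoid l) ((l ^ i) w) =
        Quotient.mk _ w := fun i w => (mk_sc l _ _).2 (Perm.SameCycle.symm ⟨i, rfl⟩)
    by_cases h1 : l.SameCycle x z
    · obtain ⟨i, rfl⟩ := h1
      rw [H1, e, e, swap_apply_left]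
    · by_cases h2 : l.SameCycle y z
      · obtain ⟨i, rfl⟩ := h2
        rw [H2, e, e, swap_apply_right]
      · rw [H3 z h1 h2, swap_apply_of_ne_of_ne]
        · exact fun h => h1 ((mk_sc l _ _).1 h).symm
        · exact fun h => h2 ((mk_sc l _ _).1 h).symm

end fin

end PermBAux

theorem permB (hpa : PermASt) : PermBSt := by
  intro Ω _ _
  exact
    { oc_zp := PermBAux.oc_zp (hpa Ω)
      oc_map := fun _ e Δ => PermBAux.oc_map e Δ
      so_congr := fun _ e l h => PermBAux.so_congr e l h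
      so_conj := fun k l h => PermBAux.so_congr k l h
      so_eq := fun l h O _ _ f η => PermBAux.so_eq hpa l h O f η
      so_ex := PermBAux.so_ex
      so_mul := PermBAux.so_mul hpa
      so_fix := PermBAux.so_fix hpa
      strict := PermBAux.strict hpa
      nonstrict := PermBAux.nonstrict hpa }

end Pool.Agent.Lib.MP_1ae3da_al.GM
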