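import Pool.Agent.Lib.MP_1ae3da_al.GT

/-! The induction product of two lattices, first factor of odd type. -/

namespace Pool.Agent.Lib.MP_1ae3da_al.GM

namespace PrM

lemma sum_zero_of_neg {A B : Type} [Fintype A] [Fintype B] (e : A ≃ A) (e' : B ≃ B)
    (D : A → B → K) (h : ∀ x y, D (e x) (e' y) = -D x y) : ∑ x, ∑ y, D x y = 0 := by
  have h1 : ∑ x, ∑ y, D x y = ∑ x, ∑ y, D (e x) (e' y) := by
    rw [← Equiv.sum_comp e]
    exact Finset.sum_congr rfl fun x _ => (Equiv.sum_comp e' _).symm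
  have h2 : ∑ x, ∑ y, D (e x) (e' y) = -∑ x, ∑ y, D x y := by
    simp only [h, Finset.sum_neg_distrib]
  have h3 : (2 : K) * ∑ x, ∑ y, D x y = 0 := by linear_combination h1 + h2
  simpa using h3

lemma nc_cast {G : Type} [Group G] [Fintype G] [DecidableEq G] (g m : G) :
    (nc g m : K) = ∑ h, if g * h = h * m then 1 else 0 := by
  rw [Finset.sum_boole]; rfl

lemma nc_cen {G : Type} [Group G] [Fintype G] [DecidableEq G] (c g m : G)
    (hc : ∀ x, c * x = x * c) : nc (c * g) (c * m) = nc g m := by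
  unfold nc
  congr 1
  ext h
  simp only [Finset.mem_filter, Finset.mem_univ, true_and]
  rw [← mul_assoc h, ← hc h, mul_assoc, mul_assoc, mul_left_cancel_iff]

lemma sum_two (f : ℤˣ → K) : ∑ l, f l = f 1 + f (-1) := by
  have : (Finset.univ : Finset ℤˣ) = {1, -1} := by decide
  rw [this, Finset.sum_pair (by decide)]

section tp
variable {G : Type} [Group G] [Fintype G] (Γ : Sg G)

lemma nc_right [DecidableEq Γ.TP] {g m : G} {u l : ℤˣ}
    (h : nc (⟨g, u⟩ : Γ.TP) ⟨m, l⟩ ≠ 0) : u = l := by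
  obtain ⟨y, hy⟩ := nc_ne_zero h
  have := congrArg SemidirectProduct.right hy
  simp only [SemidirectProduct.mul_right] at this
  rw [mul_comm] at this
  exact mul_left_cancel this

lemma nc_even [DecidableEq Γ.TP] [DecidableEq G] (g m : G) (hm : Γ.sg m = 1) :
    (nc (⟨g, 1⟩ : Γ.TP) ⟨m, 1⟩ : K) = 2 * nc g m := by
  rw [nc_cast, nc_cast, ← Equiv.sum_comp SemidirectProduct.equivProd.symm, Fintype.sum_prod_type,
    Finset.mul_sum]
  refine Finset.sum_congr rfl fun h _ => ?_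
  have : ∀ v : ℤˣ, ((⟨g, 1⟩ : Γ.TP) * SemidirectProduct.equivProd.symm (h, v) =
      SemidirectProduct.equivProd.symm (h, v) * ⟨m, 1⟩) ↔ g * h = h * m := by
    intro v
    rw [SemidirectProduct.ext_iff]
    simp [SemidirectProduct.equivProd, hm]
  simp only [this, sum_two]
  ring

end tp

section main
variable {A B G : Type} [Group A] [Group B] [Group G] {SA : Sg A} {SB : Sg B} {SG : Sg G}

variable (SA SB) in
/-- the inducing group. -/
def E : Subgroup (SA.TP × B × ℤˣ) where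
  carrier := {c | c.1.right = SA.sg c.1.left ∧ SA.sg c.1.left = SB.sg c.2.1}
  one_mem' := by simp
  mul_mem' := by
    rintro a b ⟨h1, h2⟩ ⟨k1, k2⟩
    constructor
    · simp [h1, k1]
    · simp [h2, k2]
  inv_mem' := by
    rintro a ⟨h1, h2⟩
    constructor
    · simp [h1]
    · simp [h2]

/-- the homomorphism to the extended group. -/
def ph (T : Tri SA SB SG) : E SA SB →* SG.TP where
  toFun c := ⟨T.α c.1.1.left * T.β c.1.2.1, c.1.2.2⟩
  map_one' := by ext <;> simp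
  map_mul' := by
    rintro ⟨⟨⟨x, u⟩, y, l⟩, h1, h2⟩ ⟨⟨⟨x', u'⟩, y', l'⟩, k1, k2⟩
    simp only at h1 h2 k1 k2
    have hz : T.α (SA.zp u (SA.sg x')) = SG.zp (SA.sg x') (SB.sg y) := by
      rw [h1, h2, SA.zp_symm]
      unfold Sg.zp
      split_ifs <;> simp [T.αz]
    have hs : SG.sg (T.α x' * T.β y') = 1 := by
      rw [map_mul, T.αs, T.βs, k2, Int.units_mul_self]
    have hc : SG.zp (SA.sg x') (SB.sg y) * (T.α x' * T.β y) = T.β y * T.α x' := by
      rw [T.comm, ← mul_assoc, SG.zp_sq, one_mul]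
    ext
    · simp only [Subgroup.coe_mul, Prod.fst_mul, Prod.snd_mul, SemidirectProduct.mul_left,
        Sg.φ_apply, map_mul T.α, map_mul T.β, hz, hs, Sg.zp_one, one_mul]
      calc T.α x * (SG.zp (SA.sg x') (SB.sg y) * T.α x') * (T.β y * T.β y')
          = T.α x * (SG.zp (SA.sg x') (SB.sg y) * (T.α x' * T.β y)) * T.β y' := by group
        _ = _ := by rw [hc]; group
    · simp

/-- coordinates on the inducing group. -/
def eqv : E SA SB ≃ {w : A × B × ℤˣ // SA.sg w.1 = SB.sg w.2.1} where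
  toFun c := ⟨(c.1.1.left, c.1.2), c.2.2⟩
  invFun w := ⟨(⟨w.1.1, SA.sg w.1.1⟩, w.1.2), rfl, w.2⟩
  left_inv := by
    rintro ⟨⟨⟨x, u⟩, y, l⟩, h1, h2⟩
    simp only at h1
    subst h1
    rfl
  right_inv w := rfl

lemma sum_E [Fintype A] [Fintype B] [Fintype (E SA SB)] (F : A → B → ℤˣ → K) :
    ∑ c : E SA SB, F c.1.1.left c.1.2.1 c.1.2.2 =
      ∑ l, ∑ x, ∑ y, if SA.sg x = SB.sg y then F x y l else 0 := by
  classical
  have h1 : ∑ c : E SA SB, F c.1.1.left c.1.2.1 c.1.2.2 =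
      ∑ w : {w : A × B × ℤˣ // SA.sg w.1 = SB.sg w.2.1}, F w.1.1 w.1.2.1 w.1.2.2 :=
    Fintype.sum_equiv eqv _ _ fun _ => rfl
  rw [h1, ← Finset.sum_subtype (Finset.univ.filter fun w : A × B × ℤˣ => SA.sg w.1 = SB.sg w.2.1)
    (by simp) (fun w => F w.1 w.2.1 w.2.2), Finset.sum_filter, Fintype.sum_prod_type]
  simp only [Fintype.sum_prod_type]
  rw [Finset.sum_comm (s := (Finset.univ : Finset ℤˣ))]
  refine Finset.sum_congr rfl fun x _ => Finset.sum_comm

lemma card_E [Fintype A] [Fintype B] [Fintype (E SA SB)] (t : A) (ht : SA.sg t = -1) :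
    (Fintype.card (E SA SB) : K) = Fintype.card A * Fintype.card B := by
  have h1 := sum_E (SA := SA) (SB := SB) fun _ _ _ => 1
  simp only [Finset.sum_const, Finset.card_univ, nsmul_eq_mul, mul_one] at h1
  have h2 : ∀ y : B, 2 * ∑ x : A, (if SA.sg x = SB.sg y then (1 : K) else 0) =
      Fintype.card A := by
    intro y
    have h3 : ∑ x : A, (if SA.sg x = SB.sg y then (1 : K) else 0) =
        ∑ x : A, (if SA.sg (t * x) = SB.sg y then (1 : K) else 0) :=
      (Equiv.sum_comp (Equiv.mulLeft t) _).symm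
    rw [two_mul]
    nth_rewrite 2 [h3]
    rw [← Finset.sum_add_distrib]
    have h4 : ∀ x : A, (if SA.sg x = SB.sg y then (1 : K) else 0) +
        (if SA.sg (t * x) = SB.sg y then (1 : K) else 0) = 1 := by
      intro x
      rw [map_mul, ht]
      rcases Int.units_eq_one_or (SA.sg x) with h | h <;>
        rcases Int.units_eq_one_or (SB.sg y) with k | k <;> simp [h, k]
    simp only [h4]
    simp
  rw [h1, Finset.sum_comm]
  have h5 : (Fintype.card ℤˣ : K) = 2 := by simp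
  rw [h5, Finset.mul_sum]
  simp only [h2]
  simp [mul_comm]

/-- the summand of the induced character. -/
noncomputable def W [Fintype G] [DecidableEq SG.TP] (T : Tri SA SB SG) (i : K) (χ : A → K)
    (χ' : B → K) (γ : SG.TP) (x : A) (y : B) (l : ℤˣ) : K :=
  if SA.sg x = SB.sg y then (if SA.sg x = 1 then 1 else i) * χ x * χ' y *
    nc γ (⟨T.α x * T.β y, l⟩ : SG.TP) else 0

lemma W_spin [Fintype G] [DecidableEq SG.TP] (T : Tri SA SB SG) (i : K) (χ : A → K)
    (χ' : B → K) (h' : ∀ y, χ' (SB.z * y) = -χ' y) (g : G) (u : ℤˣ) (x : A) (y : B) (l : ℤˣ) :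
    W T i χ χ' ⟨SG.z * g, u⟩ x (SB.z * y) l = -W T i χ χ' ⟨g, u⟩ x y l := by
  have hc : ∀ η : SG.TP, (⟨SG.z, 1⟩ : SG.TP) * η = η * ⟨SG.z, 1⟩ := by
    intro η
    ext
    · simp [SG.zs, SG.zc]
    · simp
  have e1 : (⟨SG.z * g, u⟩ : SG.TP) = ⟨SG.z, 1⟩ * ⟨g, u⟩ := by ext <;> simp
  have e2 : (⟨T.α x * T.β (SB.z * y), l⟩ : SG.TP) = ⟨SG.z, 1⟩ * ⟨T.α x * T.β y, l⟩ := by
    ext
    · simp only [SemidirectProduct.mul_left, map_one, MulAut.one_apply, map_mul T.β, T.βz]
      rw [← mul_assoc, ← SG.zc, mul_assoc]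
    · simp
  unfold W
  rw [e1, e2, nc_cen _ _ _ hc, h', map_mul, SB.zs, one_mul]
  split_ifs <;> ring

lemma W_cancel [Fintype G] [DecidableEq SG.TP] (T : Tri SA SB SG) (i : K) (χ : A → K)
    (χ' : B → K) (hcl : Cl χ) (h' : ∀ y, χ' (SB.z * y) = -χ' y) (t : A) (ht : SA.sg t = -1)
    (γ : SG.TP) (x : A) (y : B) (l : ℤˣ) (hl : SA.sg x ≠ l) :
    W T i χ χ' γ (t * x * t⁻¹) (SB.z * y) l = -W T i χ χ' γ x y l := by
  have hs : SA.sg (t * x * t⁻¹) = SA.sg x := by
    rw [map_mul, map_mul, map_inv, mul_inv_cancel_comm]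
  unfold W
  rw [hs, hcl, h', map_mul SB.sg, SB.zs, one_mul]
  by_cases hxy : SA.sg x = SB.sg y
  · have e2 : (⟨T.α (t * x * t⁻¹) * T.β (SB.z * y), l⟩ : SG.TP) =
        (⟨T.α t⁻¹, 1⟩ : SG.TP)⁻¹ * ⟨T.α x * T.β y, l⟩ * ⟨T.α t⁻¹, 1⟩ := by
      rw [mul_assoc (⟨T.α t⁻¹, 1⟩ : SG.TP)⁻¹, eq_inv_mul_iff_mul_eq]
      have ht' : SA.sg t⁻¹ = -1 := by rw [map_inv, ht]; rfl
      have hc := T.comm t⁻¹ y
      rw [ht'] at hc
      have hz : SG.z * SG.zp (-1) (SB.sg y) = SG.zp l (-1) := by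
        rw [hxy] at hl
        rcases Int.units_eq_one_or l with h | h <;>
          rcases Int.units_eq_one_or (SB.sg y) with k | k <;> simp_all [SG.zz]
      ext
      · simp only [SemidirectProduct.mul_left, map_one, MulAut.one_apply, Sg.φ_apply, T.αs, ht',
          map_mul T.α, map_mul T.β, T.βz]
        calc T.α t⁻¹ * (T.α t * T.α x * T.α t⁻¹ * (SG.z * T.β y))
            = T.α x * ((T.α t⁻¹ * SG.z) * T.β y) := by rw [map_inv]; group
          _ = T.α x * (SG.z * (T.α t⁻¹ * T.β y)) := by rw [← SG.zc]; group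
          _ = T.α x * ((SG.zp l (-1) * T.β y) * T.α t⁻¹) := by rw [hc, ← hz]; group
          _ = _ := by rw [SG.zp_comm]; group
      · simp
    rw [e2, nc_conj, if_pos hxy, if_pos hxy]
    ring
  · simp [hxy]

lemma sum_W [Fintype A] [Fintype B] [Fintype G] [DecidableEq SG.TP] (T : Tri SA SB SG) (i : K)
    (χ : A → K) (χ' : B → K) (hcl : Cl χ) (h' : ∀ y, χ' (SB.z * y) = -χ' y) (t : A)
    (ht : SA.sg t = -1) (γ : SG.TP) (l : ℤˣ) :
    ∑ x, ∑ y, W T i χ χ' γ x y l =
      ∑ x, ∑ y, if SA.sg x = l then W T i χ χ' γ x y l else 0 := by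
  have h0 : ∑ x, ∑ y, (if SA.sg x = l then 0 else W T i χ χ' γ x y l) = 0 := by
    refine sum_zero_of_neg (MulAut.conj t).toEquiv (Equiv.mulLeft SB.z)
      (fun x y => if SA.sg x = l then 0 else W T i χ χ' γ x y l) fun x y => ?_
    have hs : SA.sg (t * x * t⁻¹) = SA.sg x := by
      rw [map_mul, map_mul, map_inv, mul_inv_cancel_comm]
    change (if SA.sg (t * x * t⁻¹) = l then 0 else
      W T i χ χ' γ (t * x * t⁻¹) (SB.z * y) l) = _
    rw [hs]
    by_cases hl : SA.sg x = l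
    · simp [hl]
    · rw [if_neg hl, if_neg hl, W_cancel T i χ χ' hcl h' t ht γ x y l hl]
  have h1 : ∑ x, ∑ y, W T i χ χ' γ x y l =
      (∑ x, ∑ y, if SA.sg x = l then W T i χ χ' γ x y l else 0) +
        ∑ x, ∑ y, (if SA.sg x = l then 0 else W T i χ χ' γ x y l) := by
    rw [← Finset.sum_add_distrib]
    refine Finset.sum_congr rfl fun x _ => ?_
    rw [← Finset.sum_add_distrib]
    refine Finset.sum_congr rfl fun y _ => ?_
    split_ifs <;> simp
  rw [h1, h0, add_zero]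

lemma odd_odd (hch : ChSt) (htw : TwSt) [Fintype A] [Fintype B] [Fintype G] [DecidableEq G]
    (T : Tri SA SB SG) (U : A → K) (V : B → K) (S : A → Prop) (S' : B → Prop) (t : A)
    (ht : SA.sg t = -1) (hU : SA.L1 U S) (hV : SB.L1 V S') :
    SG.L0 (T.pr U V) fun g => ∃ (x : A) (y : B) (h : G) (j : ℕ), S x ∧ S' y ∧
      g * h = h * (SG.z ^ j * (T.α x * T.β y)) := by
  classical
  obtain ⟨χ, hχ, hz, hU⟩ := hU
  obtain ⟨χ', hχ', hz', hV⟩ := hV
  obtain ⟨i, hi⟩ := IsAlgClosed.exists_eq_mul_self (-1 : K)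
  let _ : Fintype (E SA SB) := Fintype.ofFinite _
  have hcl : Cl χ := (hch.a A).cl χ hχ
  let f1 : E SA SB →* SA.TP := (MonoidHom.fst _ _).comp (E SA SB).subtype
  let f2 : E SA SB →* B := (MonoidHom.fst _ _).comp ((MonoidHom.snd _ _).comp (E SA SB).subtype)
  have v1 := htw A (E SA SB) SA f1 χ i hi.symm hχ hz fun c => c.2.1
  have v2 := (hch.h _ _ f2).comp χ' hχ'
  have v3 := (hch.h _ _ (ph T)).ind_vc _ ((hch.b _).mul _ v1 _ v2)
  have key : ∀ γ, ind (ph T)
      ((fun c => (if (f1 c).right = 1 then 1 else i) * χ (f1 c).left) * χ' ∘ f2) γ =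
      ((Fintype.card A : K) * Fintype.card B)⁻¹ * ∑ l, ∑ x, ∑ y, W T i χ χ' γ x y l := by
    intro γ
    unfold ind W
    rw [card_E t ht, ← sum_E]
    congr 1
    refine Finset.sum_congr rfl fun c _ => ?_
    have : (f1 c).right = SA.sg c.1.1.left := c.2.1
    simp only [Pi.mul_apply, this]
    rfl
  refine ⟨_, v3, fun g u => ?_, fun g => ⟨?_, fun hne => ?_⟩⟩
  · rw [key, key, ← mul_neg, ← Finset.sum_neg_distrib]
    congr 1
    refine Finset.sum_congr rfl fun l _ => ?_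
    rw [← Finset.sum_neg_distrib]
    refine Finset.sum_congr rfl fun x _ => ?_
    rw [← Finset.sum_neg_distrib, ← Equiv.sum_comp (Equiv.mulLeft SB.z)]
    exact Finset.sum_congr rfl fun y _ => W_spin T i χ χ' hz' g u x y l
  · rw [key, sum_two, sum_W T i χ χ' hcl hz' t ht _ 1]
    have h0 : ∑ x, ∑ y, W T i χ χ' ⟨g, 1⟩ x y (-1) = 0 := by
      refine Finset.sum_eq_zero fun x _ => Finset.sum_eq_zero fun y _ => ?_
      have : nc (⟨g, 1⟩ : SG.TP) ⟨T.α x * T.β y, -1⟩ = 0 := by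
        by_contra h
        exact absurd (nc_right SG h) (by decide)
      rw [W, this]
      simp
    rw [h0, add_zero]
    unfold Tri.pr
    congr 1
    refine Finset.sum_congr rfl fun x _ => Finset.sum_congr rfl fun y _ => ?_
    rcases Int.units_eq_one_or (SA.sg x) with h | h
    · rcases Int.units_eq_one_or (SB.sg y) with k | k
      · have hm : SG.sg (T.α x * T.β y) = 1 := by rw [map_mul, T.αs, T.βs, h, k, mul_one]
        rw [if_pos h, W, if_pos (h.trans k.symm), if_pos h, nc_even SG _ _ hm, (hU x).1 h,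
          (hV y).1 k, ← rt2_mul]
        ring
      · rw [((hV y).2 k).1, if_pos h, W, if_neg (by rw [h, k]; decide)]
        simp
    · rw [((hU x).2 h).1, if_neg (by rw [h]; decide)]
      simp
  · rw [key] at hne
    obtain ⟨l, -, h1⟩ := Finset.exists_ne_zero_of_sum_ne_zero (right_ne_zero_of_mul hne)
    rw [sum_W T i χ χ' hcl hz' t ht] at h1
    obtain ⟨x, -, h2⟩ := Finset.exists_ne_zero_of_sum_ne_zero h1
    obtain ⟨y, -, h3⟩ := Finset.exists_ne_zero_of_sum_ne_zero h2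
    by_cases hl : SA.sg x = l
    swap
    · exact absurd (if_neg hl) h3
    rw [if_pos hl, W] at h3
    by_cases hxy : SA.sg x = SB.sg y
    swap
    · exact absurd (if_neg hxy) h3
    rw [if_pos hxy] at h3
    have h4 : nc (⟨g, -1⟩ : SG.TP) ⟨T.α x * T.β y, l⟩ ≠ 0 := by
      intro h; rw [h] at h3; simp at h3
    have h5 := nc_right SG h4
    have hx : SA.sg x = -1 := hl.trans h5.symm
    have hy : SB.sg y = -1 := hxy.symm.trans hx
    have h6 : χ x ≠ 0 := by intro h; rw [h] at h3; simp at h3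
    have h7 : χ' y ≠ 0 := by intro h; rw [h] at h3; simp at h3
    obtain ⟨η, hη⟩ := nc_ne_zero h4
    have h8 := congrArg SemidirectProduct.left hη
    have hm : SG.sg (T.α x * T.β y) = 1 := by
      rw [map_mul, T.αs, T.βs, hx, hy, Int.units_mul_self]
    simp only [SemidirectProduct.mul_left, Sg.φ_apply, hm, Sg.zp_one, one_mul] at h8
    rcases Int.units_eq_one_or (SG.sg η.left) with h | h
    · refine ⟨x, y, η.left, 0, ((hU x).2 hx).2 h6, ((hV y).2 hy).2 h7, ?_⟩
      simpa [h] using h8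
    · refine ⟨x, y, η.left, 1, ((hU x).2 hx).2 h6, ((hV y).2 hy).2 h7, ?_⟩
      rw [h, Sg.zp_neg] at h8
      calc g * η.left = g * (SG.z * η.left) * SG.z := by
            rw [SG.zc, mul_assoc, mul_assoc, SG.zz, mul_one]
        _ = _ := by rw [h8, pow_one, SG.zc, mul_assoc]

/-- the two factors exchanged. -/
def swp (T : Tri SA SB SG) : Tri SB SA SG where
  α := T.β
  β := T.α
  αz := T.βz
  βz := T.αz
  αs := T.βs
  βs := T.αs
  comm y x := by rw [T.comm, SG.zp_symm, ← mul_assoc, SG.zp_sq, one_mul]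

lemma pr_swp [Fintype A] [Fintype B] [Fintype G] [DecidableEq G] (T : Tri SA SB SG) (U : A → K)
    (V : B → K) : (swp T).pr V U = T.pr U V := by
  funext g
  unfold Tri.pr
  rw [Finset.sum_comm, mul_comm (Fintype.card B : K)]
  congr 1
  refine Finset.sum_congr rfl fun x _ => Finset.sum_congr rfl fun y _ => ?_
  have : (swp T).α y * (swp T).β x = (T.α x)⁻¹ * (T.α x * T.β y) * T.α x := by
    change T.β y * T.α x = _
    group
  rw [this, nc_conj]
  ring

end main

end PrM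

theorem prodM (hch : ChSt) (hlat : LatSt) (htw : TwSt) (hprP : ProdSt 1) : ProdSt (-1) := by
  intro A B G _ _ _ _ _ _ _ SA SB SG T e' U V S S' ht hU hV
  rcases Int.units_eq_one_or e' with rfl | rfl
  · have h1 := hprP B A G SB SA SG (PrM.swp T) (-1) V U S' S (fun h => absurd h (by decide)) hV hU
    rw [PrM.pr_swp, one_mul] at h1
    rw [mul_one]
    refine (hlat G SG).mono _ _ _ _ ?_ h1
    rintro g ⟨y, x, h, j, hy, hx, hg⟩
    refine ⟨x, y, h * (T.α x)⁻¹, j, hx, hy, ?_⟩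
    change g * h = h * (SG.z ^ j * (T.β y * T.α x)) at hg
    have hc : SG.z ^ j * T.α x = T.α x * SG.z ^ j :=
      (Commute.pow_left (SG.zc (T.α x)) j).eq
    calc g * (h * (T.α x)⁻¹) = h * (SG.z ^ j * T.β y) := by rw [← mul_assoc, hg]; group
      _ = h * (T.α x)⁻¹ * ((T.α x * SG.z ^ j) * T.β y) := by group
      _ = _ := by rw [← hc]; group
  · obtain ⟨t, ht⟩ := ht rfl
    refine ⟨fun _ => PrM.odd_odd hch htw T U V S S' t ht (hU.2 rfl) (hV.2 rfl), fun h => ?_⟩
    exact absurd h (by decide)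

end Pool.Agent.Lib.MP_1ae3da_al.GM
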