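import Pool.Agent.Lib.MP_1ae3da_al.GT

/-! The runner decomposition of self conjugate partitions. -/

namespace Pool.Agent.Lib.MP_1ae3da_al.GM

open Finset

namespace RunC

/-- the `i`-th runner. -/
def rn (p : ℕ) (A : Finset ℕ) (i : ℕ) : Finset ℕ :=
  (A.filter fun a => a % p = i).image (· / p)

lemma mem_rn {p : ℕ} (A : Finset ℕ) {i : ℕ} (hi : i < p) (a : ℕ) :
    a ∈ rn p A i ↔ p * a + i ∈ A := by
  have hp : 0 < p := by omega
  simp only [rn, mem_image, mem_filter]
  constructor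
  · rintro ⟨b, ⟨hb, rfl⟩, rfl⟩
    rwa [Nat.div_add_mod]
  · intro h
    refine ⟨_, ⟨h, ?_⟩, ?_⟩
    · rw [Nat.mul_add_mod, Nat.mod_eq_of_lt hi]
    · rw [Nat.add_comm, Nat.add_mul_div_left _ _ hp, Nat.div_eq_of_lt hi, zero_add]

lemma sum_rn {M : Type} [AddCommMonoid M] {p : ℕ} (hp : 0 < p) (A : Finset ℕ) (f : ℕ → M) :
    ∑ a ∈ A, f a = ∑ i ∈ range p, ∑ a ∈ rn p A i, f (p * a + i) := by
  rw [← sum_fiberwise_of_maps_to (s := A) (t := range p) (g := fun a => a % p)
    (fun a _ => mem_range.2 (Nat.mod_lt a hp))]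
  refine sum_congr rfl fun i _ => ?_
  rw [rn, sum_image]
  · refine sum_congr rfl fun a ha => ?_
    rw [← (mem_filter.1 ha).2, Nat.div_add_mod]
  · intro a ha b hb hab
    have h1 := (mem_filter.1 ha).2
    have h2 := (mem_filter.1 hb).2
    have h3 : a / p = b / p := hab
    rw [← Nat.div_add_mod a p, ← Nat.div_add_mod b p, h1, h2, h3]

lemma sum_split {M : Type} [AddCommMonoid M] (h : ℕ) (F : ℕ → M) :
    ∑ i ∈ range (2 * h + 1), F i = F h + ∑ i : Fin h, (F i + F (2 * h - i)) := by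
  rw [Fin.sum_univ_eq_sum_range (fun i => F i + F (2 * h - i)) h, sum_add_distrib,
    show 2 * h + 1 = (h + 1) + h by ring, sum_range_add, sum_range_succ, ← sum_range_reflect
      (fun x => F (h + 1 + x)) h]
  rw [add_comm (∑ x ∈ range h, F x), add_assoc]
  congr 2
  refine sum_congr rfl fun i hi => ?_
  have := mem_range.1 hi
  congr 1
  omega

lemma two_choose (n : ℕ) : 2 * (n.choose 2 : ℤ) = n * (n - 1) := by
  induction n with
  | zero => simp
  | succ n ih => rw [Nat.choose_succ_succ', Nat.choose_one_right]; push_cast; linear_combination ih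

lemma pairs (A : Finset ℕ) :
    ∑ a ∈ A, ∑ b ∈ A, (if a < b then (1 : ℤ) else 0) = A.card.choose 2 := by
  have h1 : ∑ a ∈ A, ∑ b ∈ A, (if a < b then (1 : ℤ) else 0) =
      ∑ a ∈ A, ∑ b ∈ A, (if b < a then (1 : ℤ) else 0) := sum_comm
  have h2 : ∑ a ∈ A, ∑ b ∈ A, ((if a < b then (1 : ℤ) else 0) + (if b < a then (1 : ℤ) else 0) +
      (if a = b then (1 : ℤ) else 0)) = ∑ _a ∈ A, ∑ _b ∈ A, (1 : ℤ) := by
    refine sum_congr rfl fun a _ => sum_congr rfl fun b _ => ?_
    rcases lt_trichotomy a b with h | h | h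
    · simp [h, h.not_gt, h.ne]
    · simp [h]
    · simp [h, h.not_gt, h.ne']
  simp only [sum_add_distrib, sum_ite_eq, sum_const, nsmul_eq_mul, mul_one] at h2
  rw [sum_congr rfl fun a ha => if_pos ha, sum_const, nsmul_eq_mul, mul_one, ← h1] at h2
  have h3 := two_choose A.card
  linarith

/-- the valuation as an integer. -/
def v (p n : ℕ) : ℤ := padicValNat p n

lemma v_prod {p : ℕ} [Fact p.Prime] (s : Finset ℕ) (f : ℕ → ℕ) (hf : ∀ a ∈ s, f a ≠ 0) :
    v p (∏ a ∈ s, f a) = ∑ a ∈ s, v p (f a) := by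
  classical
  induction s using Finset.induction_on with
  | empty => simp [v]
  | insert a s ha ih =>
    rw [prod_insert ha, sum_insert ha, ← ih fun b hb => hf b (mem_insert_of_mem hb), v,
      padicValNat.mul (hf a (mem_insert_self _ _))
        (prod_ne_zero_iff.2 fun b hb => hf b (mem_insert_of_mem hb))]
    simp [v]

lemma v_mul {p : ℕ} [Fact p.Prime] {a b : ℕ} (ha : a ≠ 0) (hb : b ≠ 0) :
    v p (a * b) = v p a + v p b := by
  rw [v, padicValNat.mul ha hb]; simp [v]

lemma v_pmul {p : ℕ} [hp : Fact p.Prime] {a : ℕ} (ha : a ≠ 0) : v p (p * a) = 1 + v p a := by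
  rw [v_mul hp.out.ne_zero ha]; simp [v]

lemma v_zero {p a : ℕ} (ha : ¬ p ∣ a) : v p a = 0 := by
  simp [v, padicValNat.eq_zero_of_not_dvd ha]

lemma vd_ne (A : Finset ℕ) : Vd A ≠ 0 :=
  prod_ne_zero_iff.2 fun a _ => prod_ne_zero_iff.2 fun b hb => by
    have := (mem_filter.1 hb).2
    omega

lemma v_vd {p : ℕ} [Fact p.Prime] (A : Finset ℕ) :
    v p (Vd A) = ∑ a ∈ A, ∑ b ∈ A, if a < b then v p (b - a) else 0 := by
  rw [Vd, v_prod]
  · refine sum_congr rfl fun a _ => ?_
    rw [v_prod, sum_filter]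
    intro b hb
    have := (mem_filter.1 hb).2
    omega
  · intro a _
    refine prod_ne_zero_iff.2 fun b hb => ?_
    have := (mem_filter.1 hb).2
    omega

lemma v_hn {p : ℕ} [Fact p.Prime] (A B : Finset ℕ) :
    v p (Hn (A, B)) = ∑ a ∈ A, v p a.factorial + ∑ b ∈ B, v p b.factorial +
      ∑ a ∈ A, ∑ b ∈ B, v p (a + b + 1) := by
  have h1 : ∀ C : Finset ℕ, ∏ a ∈ C, a.factorial ≠ 0 := fun C =>
    prod_ne_zero_iff.2 fun a _ => a.factorial_ne_zero
  have h2 : ∀ a, ∏ b ∈ B, (a + b + 1) ≠ 0 := fun a => prod_ne_zero_iff.2 fun b _ => by omega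
  rw [Hn, v_mul (mul_ne_zero (h1 _) (h1 _)) (prod_ne_zero_iff.2 fun a _ => h2 a),
    v_mul (h1 _) (h1 _), v_prod _ _ fun a _ => a.factorial_ne_zero,
    v_prod _ _ fun a _ => a.factorial_ne_zero, v_prod _ _ fun a _ => h2 a]
  congr 1
  exact sum_congr rfl fun a _ => v_prod _ _ fun b _ => by omega

lemma wp_eq {p : ℕ} [Fact p.Prime] (A B : Finset ℕ) :
    WP p (A, B) = v p (Hn (A, B)) - v p (Vd A) - v p (Vd B) := by
  have := v_mul (p := p) (vd_ne A) (vd_ne B)
  simp only [v] at this ⊢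
  rw [WP, this]; ring

lemma wp_swap {p : ℕ} [Fact p.Prime] (A B : Finset ℕ) : WP p (B, A) = WP p (A, B) := by
  rw [wp_eq, wp_eq, v_hn, v_hn, sum_comm (s := B)]
  simp only [add_comm]
  ring

lemma sz_swap (A B : Finset ℕ) : szN (B, A) = szN (A, B) := by
  simp only [szN]; ring

lemma sz_eq (hsh : ShSt) (A B : Finset ℕ) : (szN (A, B) : ℤ) =
    ∑ a ∈ A, (a : ℤ) + ∑ b ∈ B, (b : ℤ) + A.card * B.card - A.card.choose 2 - B.card.choose 2 := by
  have h1 := (hsh.pos (A, B)).2.2.2
  have h2 := (hsh.pos (B, A)).2.2.2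
  simp only [szN] at h1 h2 ⊢
  rw [Nat.cast_add, Nat.cast_add, Nat.cast_sub h1, Nat.cast_sub h2]
  push_cast [id]
  ring

lemma fac_rn {p : ℕ} [hp : Fact p.Prime] (A : Finset ℕ) :
    ∑ a ∈ A, v p a.factorial =
      ∑ i ∈ range p, (∑ a ∈ rn p A i, (a : ℤ) + ∑ a ∈ rn p A i, v p a.factorial) := by
  rw [sum_rn hp.out.pos]
  refine sum_congr rfl fun i hi => ?_
  rw [← sum_add_distrib]
  refine sum_congr rfl fun a _ => ?_
  rw [v, padicValNat_factorial_mul_add a (mem_range.1 hi), padicValNat_factorial_mul]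
  simp [v, add_comm]

lemma vd_rn {p : ℕ} [hp : Fact p.Prime] (A : Finset ℕ) :
    v p (Vd A) = ∑ i ∈ range p, (((rn p A i).card.choose 2 : ℤ) + v p (Vd (rn p A i))) := by
  rw [v_vd, sum_rn hp.out.pos]
  refine sum_congr rfl fun i hi => ?_
  rw [← pairs, v_vd, ← sum_add_distrib]
  refine sum_congr rfl fun a _ => ?_
  rw [sum_rn hp.out.pos, sum_eq_single i, ← sum_add_distrib]
  · refine sum_congr rfl fun b _ => ?_
    by_cases h : a < b
    · have h1 : p * a + i < p * b + i := by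
        have := Nat.mul_lt_mul_of_pos_left h hp.out.pos
        omega
      rw [if_pos h, if_pos h, if_pos h1, Nat.add_sub_add_right, ← Nat.mul_sub, v_pmul (by omega)]
    · have h1 : ¬ p * a + i < p * b + i := by
        have := Nat.mul_le_mul_left p (not_lt.1 h)
        omega
      rw [if_neg h, if_neg h, if_neg h1, add_zero]
  · intro j hj hji
    refine sum_eq_zero fun b _ => ?_
    split_ifs with h
    · refine v_zero fun hd => hji ?_
      have h1 : (p * a + i) % p = (p * b + j) % p := (Nat.modEq_iff_dvd' h.le).2 hd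
      rwa [Nat.mul_add_mod, Nat.mul_add_mod, Nat.mod_eq_of_lt (mem_range.1 hi),
        Nat.mod_eq_of_lt (mem_range.1 hj), eq_comm] at h1
    · rfl
  · intro h; exact absurd hi h

lemma cr_rn {p : ℕ} [hp : Fact p.Prime] (A B : Finset ℕ) :
    ∑ a ∈ A, ∑ b ∈ B, v p (a + b + 1) =
      ∑ i ∈ range p, (((rn p A i).card : ℤ) * (rn p B (p - 1 - i)).card +
        ∑ a ∈ rn p A i, ∑ b ∈ rn p B (p - 1 - i), v p (a + b + 1)) := by
  rw [sum_rn hp.out.pos]
  refine sum_congr rfl fun i hi => ?_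
  have hi' := mem_range.1 hi
  have : ((rn p A i).card : ℤ) * (rn p B (p - 1 - i)).card =
      ∑ _a ∈ rn p A i, ∑ _b ∈ rn p B (p - 1 - i), (1 : ℤ) := by simp
  rw [this, ← sum_add_distrib]
  refine sum_congr rfl fun a _ => ?_
  rw [sum_rn hp.out.pos, sum_eq_single (p - 1 - i), ← sum_add_distrib]
  · refine sum_congr rfl fun b _ => ?_
    have : p * a + i + (p * b + (p - 1 - i)) + 1 = p * (a + b + 1) := by
      have : i + (p - 1 - i) + 1 = p := by omega
      linear_combination this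
    rw [this, v_pmul (by omega)]
  · intro j hj hji
    have hj' := mem_range.1 hj
    refine sum_eq_zero fun b _ => v_zero fun hd => hji ?_
    have h1 : p * a + i + (p * b + j) + 1 = p * (a + b) + (i + j + 1) := by ring
    rw [h1, Nat.dvd_add_right (dvd_mul_right _ _)] at hd
    obtain ⟨c, hc⟩ := hd
    have h2 : c = 1 := by
      rcases c with _ | _ | c
      · omega
      · rfl
      · have : p * (c + 1 + 1) = p * c + p + p := by ring
        omega
    subst h2
    omega
  · intro h; exact absurd (mem_range.2 (by omega)) h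

lemma wp_rn (hsh : ShSt) {p : ℕ} [hp : Fact p.Prime] (A : Finset ℕ) :
    WP p (A, A) = ∑ i ∈ range p, ((szN (rn p A i, rn p A (p - 1 - i)) : ℤ) +
      WP p (rn p A i, rn p A (p - 1 - i))) := by
  have h1 := fac_rn (p := p) A
  have h2 := vd_rn (p := p) A
  have h1' := h1
  have h2' := h2
  rw [← sum_range_reflect] at h1' h2'
  rw [wp_eq, v_hn, cr_rn]
  simp only [sz_eq hsh, wp_eq, v_hn, sum_add_distrib, sum_sub_distrib] at h1 h2 h1' h2' ⊢
  linarith

lemma sz_hk (hsh : ShSt) (A : Finset ℕ) : (szN (A, A) : ℤ) = ∑ a ∈ A, (2 * (a : ℤ) + 1) := by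
  rw [sz_eq hsh, sum_add_distrib, ← mul_sum]
  have := two_choose A.card
  simp only [sum_const, nsmul_eq_mul, mul_one]
  linarith

lemma map_eq (A : Finset ℕ) (f : ℕ → ℕ) : A.val.map f = ∑ a ∈ A, ({f a} : Multiset ℕ) := by
  classical
  induction A using Finset.induction_on with
  | empty => simp
  | insert a s ha ih => rw [sum_insert ha, ← ih, insert_val_of_notMem ha]; simp

/-- the runner decomposition. -/
def E0 (h : ℕ) (A : Finset ℕ) : Finset ℕ × (Fin h → Finset ℕ × Finset ℕ) :=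
  (rn (2 * h + 1) A h, fun i => (rn (2 * h + 1) A i, rn (2 * h + 1) A (2 * h - i)))

lemma E0_bij (h : ℕ) : Function.Bijective (E0 h) := by
  constructor
  · intro A B hAB
    have key : ∀ i < 2 * h + 1, rn (2 * h + 1) A i = rn (2 * h + 1) B i := by
      intro i hi
      rcases lt_trichotomy i h with hlt | rfl | hgt
      · exact congrArg (fun w => (w.2 ⟨i, hlt⟩).1) hAB
      · exact congrArg (fun w => w.1) hAB
      · have := congrArg (fun w => (w.2 ⟨2 * h - i, by omega⟩).2) hAB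
        simp only [E0] at this
        rwa [show 2 * h - (2 * h - i) = i by omega] at this
    ext a
    have hm := Nat.mod_lt a (show 0 < 2 * h + 1 by omega)
    rw [← Nat.div_add_mod a (2 * h + 1), ← mem_rn A hm, ← mem_rn B hm, key _ hm]
  · rintro ⟨A0, w⟩
    let F : ℕ → Finset ℕ := fun i => if hi : i < h then (w ⟨i, hi⟩).1 else
      if hj : 2 * h - i < h then (w ⟨2 * h - i, hj⟩).2 else A0
    have key : ∀ i < 2 * h + 1, rn (2 * h + 1) ((range (2 * h + 1)).biUnion fun j =>
        (F j).image fun a => (2 * h + 1) * a + j) i = F i := by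
      intro i hi
      ext a
      rw [mem_rn _ hi]
      simp only [mem_biUnion, mem_range, mem_image]
      constructor
      · rintro ⟨j, hj, b, hb, e⟩
        have h1 := congrArg (· % (2 * h + 1)) e
        simp only [Nat.mul_add_mod, Nat.mod_eq_of_lt hi, Nat.mod_eq_of_lt hj] at h1
        subst h1
        have h2 : b = a := Nat.eq_of_mul_eq_mul_left (show 0 < 2 * h + 1 by omega)
          (Nat.add_right_cancel e)
        exact h2 ▸ hb
      · intro ha
        exact ⟨i, hi, a, ha, rfl⟩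
    refine ⟨(range (2 * h + 1)).biUnion fun j => (F j).image fun a => (2 * h + 1) * a + j, ?_⟩
    refine Prod.ext ?_ (funext fun i => Prod.ext ?_ ?_)
    · simp only [E0]
      rw [key h (by omega)]
      simp only [F]
      rw [dif_neg (lt_irrefl h), dif_neg (by omega)]
    · simp only [E0]
      rw [key i (by omega)]
      simp only [F]
      rw [dif_pos i.2]
    · simp only [E0]
      have := i.2
      rw [key _ (by omega)]
      simp only [F]
      rw [dif_neg (by omega), dif_pos (by omega)]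
      congr 2
      exact Fin.ext (by simp only; omega)

/-- the hooks outside the middle runner. -/
def rho (h : ℕ) (A : Finset ℕ) : Multiset ℕ :=
  ∑ i : Fin h, ((rn (2 * h + 1) A i).val.map (fun a => 2 * ((2 * h + 1) * a + i) + 1) +
    (rn (2 * h + 1) A (2 * h - i)).val.map fun a => 2 * ((2 * h + 1) * a + (2 * h - i)) + 1)

lemma hk_eq (h : ℕ) (A : Finset ℕ) :
    hk A = (hk (rn (2 * h + 1) A h)).map ((2 * h + 1) * ·) + rho h A := by
  rw [hk, map_eq, sum_rn (show 0 < 2 * h + 1 by omega), sum_split, rho, hk, Multiset.map_map,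
    map_eq]
  congr 1
  · refine sum_congr rfl fun a _ => ?_
    congr 1
    simp only [Function.comp]
    ring
  · simp only [map_eq]

lemma rho_card (h : ℕ) (A : Finset ℕ) : (rho h A).card =
    ∑ i : Fin h, (rn (2 * h + 1) A i).card + ∑ i : Fin h, (rn (2 * h + 1) A (2 * h - i)).card := by
  simp [rho, Multiset.card_sum, sum_add_distrib]

lemma rho_pos (h : ℕ) (A : Finset ℕ) : 0 ∉ rho h A := by
  simp [rho, Multiset.mem_sum]

lemma rho_prod (h : ℕ) (A : Finset ℕ) : (((rho h A).prod : ℕ) : ZMod (2 * h + 1)) =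
    (-1) ^ (∑ i : Fin h, (rn (2 * h + 1) A (2 * h - i)).card) *
      ∏ i : Fin h, (2 * (i : ℕ) + 1 : ZMod (2 * h + 1)) ^
        ((rn (2 * h + 1) A i).card + (rn (2 * h + 1) A (2 * h - i)).card) := by
  have h0 : ((2 * h + 1 : ℕ) : ZMod (2 * h + 1)) = 0 := ZMod.natCast_self _
  rw [rho, Multiset.prod_sum, Nat.cast_prod, ← prod_pow_eq_pow_sum, ← prod_mul_distrib]
  refine prod_congr rfl fun i _ => ?_
  rw [Multiset.prod_add, Nat.cast_mul, ← Finset.prod_eq_multiset_prod,
    ← Finset.prod_eq_multiset_prod, Nat.cast_prod, Nat.cast_prod,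
    prod_congr rfl (g := fun _ => (2 * (i : ℕ) + 1 : ZMod (2 * h + 1))),
    prod_congr (s₁ := rn (2 * h + 1) A (2 * h - i)) rfl
      (g := fun _ => -(2 * (i : ℕ) + 1 : ZMod (2 * h + 1))), prod_const, prod_const, neg_pow,
    pow_add]
  · ring
  · intro a _
    have hi : (i : ℕ) ≤ 2 * h := by have := i.2; omega
    push_cast [Nat.cast_sub hi] at h0 ⊢
    linear_combination (2 * (a : ZMod (2 * h + 1)) + 2) * h0
  · intro a _
    push_cast at h0 ⊢
    linear_combination (2 * (a : ZMod (2 * h + 1))) * h0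

lemma rho_sim (hcmp : CmpSt) (h : ℕ) (hp : (2 * h + 1).Prime) (A B : Finset ℕ)
    (hAB : ∀ i : Fin h, (rn (2 * h + 1) A i).card + (rn (2 * h + 1) B (2 * h - i)).card =
      (rn (2 * h + 1) B i).card + (rn (2 * h + 1) A (2 * h - i)).card) :
    Sim (2 * h + 1) (rho h A) (rho h B) := by
  intro _
  have := Fact.mk hp
  have hs := sum_congr (s₁ := univ) rfl fun i _ => hAB i
  rw [sum_add_distrib, sum_add_distrib] at hs
  refine ⟨rho_pos h B, ?_, ?_⟩
  · rw [rho_card, rho_card, Nat.even_iff]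
    omega
  · refine hcmp.zmod _ _ _ (∏ i : Fin h, (2 * (i : ℕ) + 1 : ZMod (2 * h + 1)) ^
      ((rn (2 * h + 1) A i).card + (rn (2 * h + 1) B (2 * h - i)).card)) hp ?_ ?_
    · refine prod_ne_zero_iff.2 fun i _ => pow_ne_zero _ fun h0 => ?_
      have h1 : ((2 * (i : ℕ) + 1 : ℕ) : ZMod (2 * h + 1)) = 0 := by push_cast; exact h0
      have h2 := Nat.le_of_dvd (by omega) ((ZMod.natCast_eq_zero_iff _ _).1 h1)
      have := i.2
      omega
    · simp only [Int.cast_mul, Int.cast_pow, Int.cast_neg, Int.cast_one, Int.cast_natCast]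
      rw [rho_prod, rho_prod, rho_card, rho_card, ← prod_pow, mul_mul_mul_comm,
        mul_mul_mul_comm ((-1 : ZMod (2 * h + 1)) ^ ∑ i : Fin h, _), ← mul_assoc,
        ← prod_mul_distrib, ← pow_add, ← pow_add, ← pow_add, Even.neg_one_pow, one_mul]
      · refine prod_congr rfl fun i _ => ?_
        rw [← pow_add, ← pow_mul]
        congr 1
        have := hAB i
        omega
      · rw [Nat.even_iff]
        omega

lemma sz_rn (hsh : ShSt) (h : ℕ) (A : Finset ℕ) : (szN (A, A) : ℤ) =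
    ∑ i : Fin h, (fun c : ℤ => (2 * h + 1) * c ^ 2 - (2 * h + 1) * c + (2 * (i : ℕ) + 1) * c)
      (((rn (2 * h + 1) A i).card : ℤ) - (rn (2 * h + 1) A (2 * h - i)).card) +
    (2 * h + 1) * ((szN (rn (2 * h + 1) A h, rn (2 * h + 1) A h) : ℤ) +
      2 * ∑ i : Fin h, (szN (rn (2 * h + 1) A i, rn (2 * h + 1) A (2 * h - i)) : ℤ)) := by
  rw [sz_hk hsh, sum_rn (show 0 < 2 * h + 1 by omega), sum_split, sz_hk hsh, mul_add, mul_sum,
    mul_sum, mul_sum, add_left_comm, ← sum_add_distrib]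
  congr 1
  · refine sum_congr rfl fun a _ => ?_
    push_cast
    ring
  · refine sum_congr rfl fun i _ => ?_
    have hi : (i : ℕ) ≤ 2 * h := by have := i.2; omega
    have h1 := two_choose (rn (2 * h + 1) A i).card
    have h2 := two_choose (rn (2 * h + 1) A (2 * h - i)).card
    rw [sz_eq hsh]
    push_cast [Nat.cast_sub hi]
    simp only [sum_add_distrib, ← mul_sum, sum_const, nsmul_eq_mul, mul_add, mul_one]
    linear_combination (2 * (h : ℤ) + 1) * h1 + (2 * (h : ℤ) + 1) * h2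

end RunC

open RunC in
theorem runC (hsh : ShSt) (hcmp : CmpSt) : RunCSt := by
  intro p hp h2
  obtain ⟨h, rfl⟩ : ∃ h, p = 2 * h + 1 := hp.odd_of_ne_two h2
  have := Fact.mk hp
  rw [show (2 * h + 1 - 1) / 2 = h by omega]
  obtain ⟨e, he⟩ := hsh.eqv
  let E1 : Finset ℕ × (Fin h → Finset ℕ × Finset ℕ) ≃ (Fin h → ℤ) × Finset ℕ × (Fin h → PT0) :=
    { toFun := fun w => (fun i => (e (w.2 i)).1, w.1, fun i => (e (w.2 i)).2)
      invFun := fun w => (w.2.1, fun i => e.symm (w.1 i, w.2.2 i))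
      left_inv := fun w => by simp
      right_inv := fun w => by simp }
  let E := (Equiv.ofBijective _ (E0_bij h)).trans E1
  have hE1 : ∀ x i, (E x).1 i =
      ((rn (2 * h + 1) x i).card : ℤ) - (rn (2 * h + 1) x (2 * h - i)).card := fun x i => (he _).1
  have hE2 : ∀ x, (E x).2.1 = rn (2 * h + 1) x h := fun x => rfl
  have hE3 : ∀ x i, szN ((E x).2.2 i).1 =
      szN (rn (2 * h + 1) x i, rn (2 * h + 1) x (2 * h - i)) := fun x i => (he _).2.1
  have hE4 : ∀ x i, WP (2 * h + 1) ((E x).2.2 i).1 =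
      WP (2 * h + 1) (rn (2 * h + 1) x i, rn (2 * h + 1) x (2 * h - i)) :=
    fun x i => (he _).2.2 _ hp
  refine ⟨Fin h → ℤ, E, fun c => szN (E.symm (c, ∅, fun _ => PT0.o), E.symm (c, ∅, fun _ => PT0.o)),
    fun x => ?_⟩
  obtain ⟨y, hy⟩ : ∃ y, y = E.symm ((E x).1, ∅, fun _ => PT0.o) := ⟨_, rfl⟩
  rw [← hy]
  have hy' : E y = ((E x).1, ∅, fun _ => PT0.o) := by rw [hy, Equiv.apply_symm_apply]
  have hy1 : ∀ i, (E y).1 i = (E x).1 i := fun i => by rw [hy']
  have hy2 : rn (2 * h + 1) y h = ∅ := by rw [← hE2, hy']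
  refine ⟨?_, ?_, ?_⟩
  · have h1 := sz_rn hsh h x
    have h3 := sz_rn hsh h y
    simp only [← hE1, ← hE3, hy1, hy2] at h1 h3
    have h4 : szN PT0.o.1 = 0 := (hsh.zero _).2 rfl
    have h5 : szN (∅, ∅) = 0 := h4
    simp only [hy', h4, h5] at h3
    rw [← hE2] at h1
    zify
    rw [h1, ← hy, h3]
    simp
  · rw [wp_rn hsh, sum_split, hE2]
    simp only [hE3, hE4, Nat.add_sub_cancel]
    rw [show 2 * h - h = h by omega, mul_sum]
    congr 1
    refine sum_congr rfl fun i _ => ?_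
    have := i.2
    rw [show 2 * h - (2 * h - (i : ℕ)) = i by omega, sz_swap (rn (2 * h + 1) x i),
      wp_swap (rn (2 * h + 1) x i)]
    push_cast
    ring
  · rw [hk_eq h x, hk_eq h y, hy2, hE2, add_comm _ (Multiset.map _ (hk (rn (2 * h + 1) x h)))]
    have : hk ∅ = 0 := rfl
    rw [this, Multiset.map_zero, zero_add]
    refine hcmp.sim_add _ _ _ _ hp (rho_sim hcmp h hp x y fun i => ?_)
    have := hy1 i
    rw [hE1, hE1] at this
    omega

end Pool.Agent.Lib.MP_1ae3da_al.GM
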