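import Pool.Agent.Lib.MP_1ae3da_al.GRun0

/-! Cores and quotients of partitions. -/

namespace Pool.Agent.Lib.MP_1ae3da_al.GM

namespace RunP

open Finset Run0

/-- the decomposition of a pair into runners. -/
def rwE {p : ℕ} (hp : 0 < p) : Finset ℕ × Finset ℕ ≃ (Fin p → Finset ℕ × Finset ℕ) :=
  ((rnE hp).prodCongr ((rnE hp).trans (Equiv.arrowCongr Fin.revPerm (Equiv.refl _)))).trans
    (Equiv.arrowProdEquivProdArrow _ _ _).symm

lemma rwE_apply {p : ℕ} (hp : 0 < p) (w : Finset ℕ × Finset ℕ) (i : Fin p) :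
    rwE hp w i = rw2 p w i := rfl

end RunP

open Finset Run0 RunP

theorem runP (hsh : ShSt) : RunPSt := by
  intro p hp
  have : Fact p.Prime := ⟨hp⟩
  obtain ⟨e, he⟩ := hsh.eqv
  let E0 : Finset ℕ × Finset ℕ ≃ (Fin p → ℤ) × (Fin p → PT0) :=
    ((rwE hp.pos).trans (Equiv.piCongrRight fun _ => e)).trans
      (Equiv.arrowProdEquivProdArrow _ _ _)
  have h1 : ∀ w, (E0 w).1 = fun i => ((rw2 p w i).1.card : ℤ) - (rw2 p w i).2.card :=
    fun w => funext fun i => (he (rw2 p w i)).1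
  have h2 : ∀ w i, (E0 w).2 i = (e (rw2 p w i)).2 := fun _ _ => rfl
  let E : PT0 ≃ {c : Fin p → ℤ // ∑ i, c i = 0} × (Fin p → PT0) :=
    (E0.subtypeEquiv (q := fun y => ∑ i, y.1 i = 0) fun w => by
      rw [h1, ← chg_rn hp.pos, sub_eq_zero, Nat.cast_inj]).trans
      (Equiv.prodSubtypeFstEquivSubtypeProd (p := fun c : Fin p → ℤ => ∑ i, c i = 0))
  have k1 : ∀ x, (E x).1.1 = (E0 x.1).1 := fun _ => rfl
  have k2 : ∀ x, (E x).2 = (E0 x.1).2 := fun _ => rfl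
  have k3 : ∀ x : PT0, 2 * (szN x.1 : ℤ) =
      G2 p (E x).1.1 + 2 * p * ∑ i, (szN ((E x).2 i).1 : ℤ) := fun x => by
    rw [szN_rn hsh hp.pos, k1, h1, k2]
    simp only [h2, (he _).2.1]
  refine ⟨_, E, fun c => szN (E.symm (c, fun _ => PT0.o)).1, fun x => ⟨?_, ?_⟩⟩
  · have a1 := k3 x
    have a2 := k3 (E.symm ((E x).1, fun _ => PT0.o))
    rw [Equiv.apply_symm_apply] at a2
    simp only [(hsh.zero _).2 rfl, Nat.cast_zero, sum_const_zero, mul_zero, add_zero] at a2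
    zify
    linarith
  · rw [WP_rn hsh, k2]
    simp only [h2, (he _).2.1, (he _).2.2 p hp]

end Pool.Agent.Lib.MP_1ae3da_al.GM
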