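import Pool.Agent.Lib.MP_1ae3da_al.GT

/-! The runner decomposition of strict partitions. -/

namespace Pool.Agent.Lib.MP_1ae3da_al.GM

namespace RunS

open Finset

/-- the beads on runner `r`. -/
def R (p r : ℕ) (A : Finset ℕ) : Finset ℕ := (A.filter fun a => a % p = r).image (· / p)

lemma mem_R {p r : ℕ} (hr : r < p) (A : Finset ℕ) (a : ℕ) : a ∈ R p r A ↔ p * a + r ∈ A := by
  have hp : 0 < p := by omega
  simp only [R, mem_image, mem_filter]
  constructor
  · rintro ⟨b, ⟨hb, rfl⟩, rfl⟩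
    rwa [Nat.div_add_mod]
  · intro h
    refine ⟨_, ⟨h, ?_⟩, ?_⟩
    · rw [Nat.mul_add_mod, Nat.mod_eq_of_lt hr]
    · rw [Nat.mul_add_div hp, Nat.div_eq_of_lt hr, add_zero]

lemma sum_split {M : Type} [AddCommMonoid M] {p : ℕ} (hp : 0 < p) (A : Finset ℕ) (F : ℕ → M) :
    ∑ a ∈ A, F a = ∑ r ∈ range p, ∑ a ∈ R p r A, F (p * a + r) := by
  rw [← sum_fiberwise_of_maps_to (s := A) (t := range p) (g := fun a => a % p)
    fun a _ => mem_range.2 (Nat.mod_lt _ hp)]
  refine sum_congr rfl fun r _ => ?_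
  rw [R, sum_image]
  · refine sum_congr rfl fun a ha => ?_
    rw [← (mem_filter.1 ha).2, Nat.div_add_mod]
  · intro a ha b hb hab
    have h1 := (mem_filter.1 (mem_coe.1 ha)).2
    have h2 := (mem_filter.1 (mem_coe.1 hb)).2
    have h3 : a / p = b / p := hab
    rw [← Nat.div_add_mod a p, ← Nat.div_add_mod b p, h1, h2, h3]

lemma range_split {M : Type} [AddCommMonoid M] (h : ℕ) (F : ℕ → M) :
    ∑ r ∈ range (2 * h + 1), F r =
      F 0 + ∑ i : Fin h, (F (i + 1) + F (2 * h + 1 - (i + 1))) := by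
  rw [sum_range_succ', add_comm, two_mul, sum_range_add, sum_add_distrib,
    Fin.sum_univ_eq_sum_range (fun i => F (i + 1)),
    Fin.sum_univ_eq_sum_range (fun i => F (h + h + 1 - (i + 1))), ← sum_range_reflect _ h]
  congr 2
  rw [← sum_range_reflect _ h]
  refine sum_congr rfl fun i hi => ?_
  have := mem_range.1 hi
  congr 1
  omega

lemma pair_sum (A : Finset ℕ) (f : ℕ → ℕ → ℤ) (hs : ∀ a b, f a b = f b a) (h0 : ∀ a, f a a = 0) :
    ∑ a ∈ A, ∑ b ∈ A, f a b = 2 * ∑ a ∈ A, ∑ b ∈ A with a < b, f a b := by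
  have h1 : ∀ a b, f a b = (if a < b then f a b else 0) + (if b < a then f b a else 0) := by
    intro a b
    rcases lt_trichotomy a b with h | h | h
    · rw [if_pos h, if_neg (by omega), add_zero]
    · subst h; simp [h0]
    · rw [if_neg (by omega), if_pos h, zero_add, hs]
  rw [sum_congr rfl fun a _ => sum_congr rfl fun b _ => h1 a b]
  simp only [sum_add_distrib, sum_filter]
  rw [sum_comm (f := fun a b => if b < a then f b a else 0), two_mul]

section val
variable {p : ℕ} [hp : Fact p.Prime]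

lemma v_prod {ι : Type} (s : Finset ι) (f : ι → ℕ) (hf : ∀ i ∈ s, f i ≠ 0) :
    (padicValNat p (∏ i ∈ s, f i) : ℤ) = ∑ i ∈ s, (padicValNat p (f i) : ℤ) := by
  classical
  induction s using Finset.induction_on with
  | empty => simp
  | insert a s ha ih =>
    rw [prod_insert ha, sum_insert ha, padicValNat.mul (hf a (mem_insert_self _ _))
      (prod_ne_zero_iff.2 fun i hi => hf i (mem_insert_of_mem hi)), Nat.cast_add,
      ih fun i hi => hf i (mem_insert_of_mem hi)]

variable (p) in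
/-- valuations of the differences. -/
def vD (A : Finset ℕ) : ℤ := ∑ a ∈ A, ∑ b ∈ A, (padicValNat p (Nat.dist a b) : ℤ)
variable (p) in
/-- valuations of the sums. -/
def vS (A : Finset ℕ) : ℤ := ∑ a ∈ A, ∑ b ∈ A, if a = b then 0 else (padicValNat p (a + b) : ℤ)
variable (p) in
/-- valuations of the factorials. -/
def vF (A : Finset ℕ) : ℤ := ∑ a ∈ A, (padicValNat p a.factorial : ℤ)
variable (p) in
/-- valuations of the mixed sums. -/
def vM (U V : Finset ℕ) : ℤ := ∑ a ∈ U, ∑ b ∈ V, (padicValNat p (a + b + 1) : ℤ)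

lemma Vd_ne (A : Finset ℕ) : Vd A ≠ 0 :=
  prod_ne_zero_iff.2 fun a _ => prod_ne_zero_iff.2 fun b hb => by
    have := (mem_filter.1 hb).2
    omega

lemma vD_eq (A : Finset ℕ) : vD p A = 2 * padicValNat p (Vd A) := by
  rw [vD, pair_sum A _ (fun a b => by rw [Nat.dist_comm]) (fun a => by simp), Vd, v_prod]
  · congr 1
    refine sum_congr rfl fun a _ => ?_
    rw [v_prod]
    · refine sum_congr rfl fun b hb => ?_
      rw [Nat.dist_eq_sub_of_le (mem_filter.1 hb).2.le]
    · intro b hb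
      have := (mem_filter.1 hb).2
      omega
  · exact fun a _ => prod_ne_zero_iff.2 fun b hb => by
      have := (mem_filter.1 hb).2
      omega

lemma WS_eq (A : Finset ℕ) : 2 * WS p A = 2 * vF p A + vS p A - vD p A := by
  have h1 : ∀ a ∈ A, ∏ b ∈ A with a < b, (a + b) ≠ 0 := fun a _ =>
    prod_ne_zero_iff.2 fun b hb => by
      have := (mem_filter.1 hb).2
      omega
  rw [vD_eq, vS, pair_sum A _ (fun a b => by simp only [add_comm a b, eq_comm])
    (fun a => by simp), WS, Hs,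
    padicValNat.mul (prod_ne_zero_iff.2 fun a _ => a.factorial_ne_zero) (prod_ne_zero_iff.2 h1),
    Nat.cast_add, v_prod _ _ fun a _ => a.factorial_ne_zero, v_prod _ _ h1, vF]
  have h2 : ∑ a ∈ A, (padicValNat p (∏ b ∈ A with a < b, (a + b)) : ℤ) =
      ∑ a ∈ A, ∑ b ∈ A with a < b, if a = b then 0 else (padicValNat p (a + b) : ℤ) := by
    refine sum_congr rfl fun a _ => ?_
    rw [v_prod]
    · refine sum_congr rfl fun b hb => ?_
      rw [if_neg (mem_filter.1 hb).2.ne]
    · intro b hb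
      have := (mem_filter.1 hb).2
      omega
  rw [h2]
  ring

lemma WP_eq (U V : Finset ℕ) :
    2 * WP p (U, V) = 2 * vF p U + 2 * vF p V + 2 * vM p U V - vD p U - vD p V := by
  have h0 : ∀ A : Finset ℕ, ∏ a ∈ A, a.factorial ≠ 0 := fun A =>
    prod_ne_zero_iff.2 fun a _ => a.factorial_ne_zero
  have h1 : ∀ a ∈ U, ∏ b ∈ V, (a + b + 1) ≠ 0 := fun a _ =>
    prod_ne_zero_iff.2 fun b _ => by omega
  rw [vD_eq, vD_eq, WP, Hn]
  dsimp only
  rw [padicValNat.mul (mul_ne_zero (h0 U) (h0 V)) (prod_ne_zero_iff.2 h1),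
    padicValNat.mul (h0 U) (h0 V), padicValNat.mul (Vd_ne U) (Vd_ne V)]
  simp only [Nat.cast_add]
  rw [v_prod _ _ fun a _ => a.factorial_ne_zero, v_prod _ _ fun a _ => a.factorial_ne_zero,
    v_prod _ _ h1, sum_congr rfl fun a _ => v_prod V (fun b => a + b + 1) fun b _ => by omega]
  simp only [vF, vM]
  ring

lemma off_diag (U : Finset ℕ) (f : ℕ → ℕ → ℤ) :
    ∑ a ∈ U, ∑ b ∈ U, (if a = b then 0 else 1 + f a b) =
      (U.card : ℤ) * U.card - U.card + ∑ a ∈ U, ∑ b ∈ U, if a = b then 0 else f a b := by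
  have h1 : ∀ a ∈ U, ∑ b ∈ U, (if a = b then 0 else 1 + f a b) =
      (U.card : ℤ) - 1 + ∑ b ∈ U, if a = b then 0 else f a b := by
    intro a ha
    have h2 : ∀ b, (if a = b then 0 else 1 + f a b) =
        1 - (if a = b then 1 else 0) + if a = b then 0 else f a b := by
      intro b; split_ifs <;> simp
    simp only [h2, sum_add_distrib, sum_sub_distrib, sum_ite_eq, if_pos ha, sum_const,
      nsmul_eq_mul, mul_one]
  rw [sum_congr rfl h1, sum_add_distrib, sum_const, nsmul_eq_mul]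
  ring

lemma v_mul {n : ℕ} (hn : n ≠ 0) : (padicValNat p (p * n) : ℤ) = 1 + padicValNat p n := by
  rw [padicValNat.mul hp.1.ne_zero hn, padicValNat_self]
  push_cast
  rfl

lemma vF_split (A : Finset ℕ) :
    vF p A = ∑ r ∈ range p, (((R p r A).sum id : ℕ) + vF p (R p r A)) := by
  rw [vF, sum_split hp.1.pos]
  refine sum_congr rfl fun r hr => ?_
  rw [vF, Nat.cast_sum, ← sum_add_distrib]
  refine sum_congr rfl fun a _ => ?_
  rw [padicValNat_factorial_mul_add _ (mem_range.1 hr), padicValNat_factorial_mul]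
  push_cast
  simp [add_comm]

lemma vD_split (A : Finset ℕ) : vD p A = ∑ r ∈ range p,
    (((R p r A).card : ℤ) * (R p r A).card - (R p r A).card + vD p (R p r A)) := by
  rw [vD, sum_split hp.1.pos]
  refine sum_congr rfl fun r hr => ?_
  have hr' := mem_range.1 hr
  have h1 : vD p (R p r A) = ∑ a ∈ R p r A, ∑ b ∈ R p r A,
      if a = b then 0 else (padicValNat p (Nat.dist a b) : ℤ) := by
    refine sum_congr rfl fun a _ => sum_congr rfl fun b _ => ?_
    split_ifs with h
    · subst h; simp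
    · rfl
  rw [h1, ← off_diag]
  refine sum_congr rfl fun a _ => ?_
  rw [sum_split hp.1.pos, sum_eq_single_of_mem r hr]
  · refine sum_congr rfl fun b _ => ?_
    rw [Nat.dist_add_add_right, Nat.dist_mul_left]
    split_ifs with h
    · subst h; simp
    · exact v_mul fun h' => h (Nat.eq_of_dist_eq_zero h')
  · intro s hs hsr
    have hs' := mem_range.1 hs
    refine sum_eq_zero fun b _ => ?_
    rw [padicValNat.eq_zero_of_not_dvd, Nat.cast_zero]
    intro hd
    have h2 : p * a + r ≡ p * b + s [MOD p] := by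
      rcases le_total (p * a + r) (p * b + s) with h | h
      · rw [Nat.dist_eq_sub_of_le h] at hd
        exact (Nat.modEq_iff_dvd' h).2 hd
      · rw [Nat.dist_eq_sub_of_le_right h] at hd
        exact ((Nat.modEq_iff_dvd' h).2 hd).symm
    rw [Nat.ModEq, Nat.mul_add_mod, Nat.mul_add_mod, Nat.mod_eq_of_lt hr',
      Nat.mod_eq_of_lt hs'] at h2
    exact hsr h2.symm

lemma vS_inner (A : Finset ℕ) {r : ℕ} (hr : r < p) (a : ℕ) :
    (∑ b ∈ A, if p * a + r = b then 0 else (padicValNat p (p * a + r + b) : ℤ)) =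
      ∑ b ∈ R p ((p - r) % p) A, if p * a + r = p * b + (p - r) % p then 0 else
        (padicValNat p (p * a + r + (p * b + (p - r) % p)) : ℤ) := by
  rw [sum_split hp.1.pos, sum_eq_single_of_mem ((p - r) % p)
    (mem_range.2 (Nat.mod_lt _ hp.1.pos))]
  intro s hs hsr
  have hs' := mem_range.1 hs
  refine sum_eq_zero fun b _ => ?_
  split_ifs with h
  · rfl
  rw [padicValNat.eq_zero_of_not_dvd, Nat.cast_zero]
  intro hd
  have h2 : p ∣ r + s := by
    have h3 : p * a + r + (p * b + s) = p * (a + b) + (r + s) := by ring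
    rw [h3] at hd
    exact (Nat.dvd_add_right (dvd_mul_right _ _)).1 hd
  obtain ⟨k, hk⟩ := h2
  have hk2 : k < 2 := by
    by_contra hk2
    have : p * 2 ≤ p * k := Nat.mul_le_mul_left _ (by omega)
    omega
  apply hsr
  interval_cases k
  · have h4 : r = 0 := by omega
    have h5 : s = 0 := by omega
    simp [h4, h5]
  · have h4 : s = p - r := by omega
    rw [← h4, Nat.mod_eq_of_lt hs']

lemma vS_pair (A : Finset ℕ) {r : ℕ} (hr0 : 0 < r) (hr : r < p) (h2 : 2 * r ≠ p) :
    (∑ a ∈ R p r A, ∑ b ∈ A, if p * a + r = b then 0 else (padicValNat p (p * a + r + b) : ℤ)) =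
      ((R p r A).card : ℤ) * (R p (p - r) A).card + vM p (R p r A) (R p (p - r) A) := by
  have h1 : (p - r) % p = p - r := Nat.mod_eq_of_lt (by omega)
  have h3 : ∀ a b, (if p * a + r = p * b + (p - r) then 0 else
      (padicValNat p (p * a + r + (p * b + (p - r))) : ℤ)) =
      1 + (padicValNat p (a + b + 1) : ℤ) := by
    intro a b
    rw [if_neg, ← v_mul (by omega)]
    · congr 2
      rw [mul_add, mul_add, mul_one]
      omega
    · intro h
      have h4 := congrArg (· % p) h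
      simp only [Nat.mul_add_mod, h1, Nat.mod_eq_of_lt hr] at h4
      omega
  simp only [vS_inner A hr, h1, h3, sum_add_distrib, sum_const, nsmul_eq_mul, mul_one, vM]

omit hp in
lemma vM_comm (U V : Finset ℕ) : vM p U V = vM p V U := by
  rw [vM, vM, sum_comm]
  simp only [add_comm]

lemma vS_zero (A : Finset ℕ) :
    (∑ a ∈ R p 0 A, ∑ b ∈ A, if p * a + 0 = b then 0 else (padicValNat p (p * a + 0 + b) : ℤ)) =
      ((R p 0 A).card : ℤ) * (R p 0 A).card - (R p 0 A).card + vS p (R p 0 A) := by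
  rw [vS, ← off_diag]
  refine sum_congr rfl fun a _ => ?_
  rw [vS_inner A hp.1.pos]
  simp only [Nat.sub_zero, Nat.mod_self, add_zero]
  refine sum_congr rfl fun b _ => ?_
  by_cases h : a = b
  · simp [h]
  · rw [if_neg h, if_neg fun h' => h (Nat.eq_of_mul_eq_mul_left hp.1.pos h'), ← mul_add,
      v_mul (by omega)]

end val

lemma szN_eq (hsh : ShSt) (U V : Finset ℕ) : 2 * (szN (U, V) : ℤ) =
    2 * (U.sum id : ℕ) + 2 * (V.sum id : ℕ) - ((U.card : ℤ) * U.card - U.card) -
      ((V.card : ℤ) * V.card - V.card) + 2 * (U.card * V.card) := by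
  have h1 := (hsh.pos (U, V)).2.2.2
  have h2 := (hsh.pos (V, U)).2.2.2
  have h3 : ∀ n : ℕ, 2 * (n.choose 2 : ℤ) = n * n - n := by
    intro n
    induction n with
    | zero => simp
    | succ n ih =>
      rw [Nat.choose_succ_succ, Nat.choose_one_right]
      push_cast
      linear_combination ih
  rw [szN]
  dsimp only at h1 h2 ⊢
  rw [Nat.cast_add, Nat.cast_add, Nat.cast_sub h1, Nat.cast_sub h2, Nat.cast_mul]
  linear_combination -h3 U.card - h3 V.card

/-- the pairs of runners. -/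
def W (h : ℕ) (A : Finset ℕ) (i : Fin h) : Finset ℕ × Finset ℕ :=
  (R (2 * h + 1) (i + 1) A, R (2 * h + 1) (2 * h + 1 - (i + 1)) A)

lemma WS_split (hsh : ShSt) (h : ℕ) [hp : Fact (2 * h + 1).Prime] (A : Finset ℕ) :
    WS (2 * h + 1) A = (((R (2 * h + 1) 0 A).sum id : ℕ) : ℤ) +
      WS (2 * h + 1) (R (2 * h + 1) 0 A) +
      ∑ i : Fin h, ((szN (W h A i) : ℤ) + WP (2 * h + 1) (W h A i)) := by
  have e1 := WS_eq (p := 2 * h + 1) A
  have e2 := WS_eq (p := 2 * h + 1) (R (2 * h + 1) 0 A)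
  have e3 := vF_split (p := 2 * h + 1) A
  have e4 := vD_split (p := 2 * h + 1) A
  have e5 : vS (2 * h + 1) A = _ := sum_split hp.1.pos A _
  rw [range_split] at e3 e4 e5
  rw [vS_zero] at e5
  have e6 : 2 * ∑ i : Fin h, ((szN (W h A i) : ℤ) + WP (2 * h + 1) (W h A i)) =
      2 * ∑ i : Fin h, (((((W h A i).1.sum id : ℕ) : ℤ) + vF (2 * h + 1) (W h A i).1) +
        ((((W h A i).2.sum id : ℕ) : ℤ) + vF (2 * h + 1) (W h A i).2)) +
      ∑ i : Fin h, ((∑ a ∈ (W h A i).1, ∑ b ∈ A, if (2 * h + 1) * a + (i + 1) = b then 0 else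
          (padicValNat (2 * h + 1) ((2 * h + 1) * a + (i + 1) + b) : ℤ)) +
        (∑ a ∈ (W h A i).2, ∑ b ∈ A, if (2 * h + 1) * a + (2 * h + 1 - (i + 1)) = b then 0 else
          (padicValNat (2 * h + 1) ((2 * h + 1) * a + (2 * h + 1 - (i + 1)) + b) : ℤ))) -
      ∑ i : Fin h, ((((W h A i).1.card : ℤ) * (W h A i).1.card - (W h A i).1.card +
          vD (2 * h + 1) (W h A i).1) +
        (((W h A i).2.card : ℤ) * (W h A i).2.card - (W h A i).2.card +
          vD (2 * h + 1) (W h A i).2)) := by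
    rw [mul_sum, mul_sum, ← sum_add_distrib, ← sum_sub_distrib]
    refine sum_congr rfl fun i _ => ?_
    have hi := i.2
    have f1 := vS_pair (p := 2 * h + 1) A (r := i + 1) (by omega) (by omega) (by omega)
    have f2 := vS_pair (p := 2 * h + 1) A (r := 2 * h + 1 - (i + 1)) (by omega) (by omega)
      (by omega)
    rw [show 2 * h + 1 - (2 * h + 1 - (i + 1)) = i + 1 by omega, vM_comm] at f2
    have f3 := szN_eq hsh (W h A i).1 (W h A i).2
    have f4 := WP_eq (p := 2 * h + 1) (W h A i).1 (W h A i).2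
    simp only [W] at f3 f4 ⊢
    linear_combination f3 + f4 - f1 - f2
  simp only [W] at e6 ⊢
  have : (2 : ℤ) ≠ 0 := two_ne_zero
  apply mul_left_cancel₀ this
  linear_combination e1 - e2 - e6 + 2 * e3 + e5 - e4

/-- the non multiples. -/
def rho (h : ℕ) (w : Fin h → Finset ℕ × Finset ℕ) : Multiset ℕ :=
  ∑ i : Fin h, ((w i).1.val.map (fun a => (2 * h + 1) * a + (i + 1)) +
    (w i).2.val.map fun a => (2 * h + 1) * a + (2 * h + 1 - (i + 1)))

lemma sum_sing (A : Finset ℕ) (f : ℕ → ℕ) :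
    ∑ a ∈ A, ({f a} : Multiset ℕ) = A.val.map f := by
  induction A using Finset.induction_on with
  | empty => simp
  | insert a s ha ih => rw [sum_insert ha, ih, insert_val_of_notMem ha, Multiset.map_cons,
      Multiset.singleton_add]

lemma val_split (h : ℕ) (A : Finset ℕ) :
    A.val = (R (2 * h + 1) 0 A).val.map ((2 * h + 1) * ·) + rho h (W h A) := by
  have e1 := sum_split (p := 2 * h + 1) (by omega) A fun a => ({a} : Multiset ℕ)
  rw [range_split] at e1
  rw [sum_sing A fun a => a, Multiset.map_id'] at e1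
  simp only [sum_sing, add_zero] at e1
  exact e1

lemma rho_card (h : ℕ) (w : Fin h → Finset ℕ × Finset ℕ) :
    (rho h w).card = ∑ i, (w i).1.card + ∑ i, (w i).2.card := by
  simp [rho, Multiset.card_sum, sum_add_distrib]

lemma rho_sum (hsh : ShSt) (h : ℕ) (w : Fin h → Finset ℕ × Finset ℕ) :
    2 * ((rho h w).sum : ℤ) = 2 * (2 * h + 1) * ∑ i, (szN (w i) : ℤ) +
      ∑ i : Fin h, ((2 * h + 1) * (((w i).1.card - (w i).2.card) * ((w i).1.card - (w i).2.card) -
        ((w i).1.card - (w i).2.card)) + 2 * (i + 1) * (((w i).1.card : ℤ) - (w i).2.card)) := by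
  have h1 : ∀ (U : Finset ℕ) (r : ℕ), (U.val.map fun a => (2 * h + 1) * a + r).sum =
      (2 * h + 1) * U.sum id + r * U.card := by
    intro U r
    change ∑ a ∈ U, ((2 * h + 1) * a + r) = _
    rw [sum_add_distrib, ← mul_sum, sum_const, smul_eq_mul, mul_comm r]
    rfl
  rw [rho, Multiset.sum_sum, Nat.cast_sum, mul_sum, mul_sum, ← sum_add_distrib]
  refine sum_congr rfl fun i _ => ?_
  have hi := i.2
  have f3 := szN_eq hsh (w i).1 (w i).2
  rw [Multiset.sum_add, h1, h1]
  obtain ⟨k, hk⟩ : ∃ k, 2 * h + 1 = k + (i + 1) := ⟨2 * h + 1 - (i + 1), by omega⟩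
  have hk' : (k : ℤ) = 2 * h + 1 - (i + 1) := by omega
  rw [show 2 * h + 1 - (i + 1) = k by omega]
  simp only [Nat.cast_add, Nat.cast_mul, hk', Nat.cast_one, Nat.cast_ofNat]
  linear_combination (-(2 * h + 1)) * f3

lemma rho_zero (h : ℕ) (w : Fin h → Finset ℕ × Finset ℕ) : 0 ∉ rho h w := by
  rw [rho, Multiset.mem_sum]
  rintro ⟨i, -, hi⟩
  have := i.2
  simp only [Multiset.mem_add, Multiset.mem_map] at hi
  rcases hi with ⟨a, -, ha⟩ | ⟨a, -, ha⟩ <;> omega

lemma rho_prod (h : ℕ) (w : Fin h → Finset ℕ × Finset ℕ) :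
    (((rho h w).prod : ℕ) : ZMod (2 * h + 1)) = (-1) ^ (∑ i, (w i).2.card) *
      ∏ i : Fin h, (((i + 1 : ℕ) : ZMod (2 * h + 1))) ^ ((w i).1.card + (w i).2.card) := by
  have h1 : ∀ (U : Finset ℕ) (r : ℕ), (((U.val.map fun a => (2 * h + 1) * a + r).prod : ℕ) :
      ZMod (2 * h + 1)) = (r : ZMod (2 * h + 1)) ^ U.card := by
    intro U r
    change ((∏ a ∈ U, ((2 * h + 1) * a + r) : ℕ) : ZMod (2 * h + 1)) = _
    rw [Nat.cast_prod, ← prod_const]
    refine prod_congr rfl fun a _ => ?_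
    rw [Nat.cast_add, Nat.cast_mul, ZMod.natCast_self, zero_mul, zero_add]
  rw [rho, Multiset.prod_sum, Nat.cast_prod, ← prod_pow_eq_pow_sum, ← prod_mul_distrib]
  refine prod_congr rfl fun i _ => ?_
  have hi := i.2
  rw [Multiset.prod_add, Nat.cast_mul, h1, h1, Nat.cast_sub (by omega), ZMod.natCast_self,
    zero_sub, neg_pow, pow_add]
  ring

lemma rho_sim (hcmp : CmpSt) (h : ℕ) (hp : (2 * h + 1).Prime)
    (w w' : Fin h → Finset ℕ × Finset ℕ)
    (hw : ∀ i, ((w i).1.card : ℤ) - (w i).2.card = ((w' i).1.card : ℤ) - (w' i).2.card) :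
    Sim (2 * h + 1) (rho h w) (rho h w') := by
  have := Fact.mk hp
  have h1 : ∀ i, (w i).1.card + (w' i).2.card = (w' i).1.card + (w i).2.card := fun i => by
    have := hw i
    omega
  have h2 : ∑ i, (w i).1.card + ∑ i, (w' i).2.card = ∑ i, (w' i).1.card + ∑ i, (w i).2.card := by
    rw [← sum_add_distrib, ← sum_add_distrib]
    exact sum_congr rfl fun i _ => h1 i
  refine fun _ => ⟨rho_zero h w', ?_, ?_⟩
  · rw [rho_card, rho_card, Nat.even_iff]
    omega
  · refine hcmp.zmod _ _ _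
      (∏ i : Fin h, (((i + 1 : ℕ) : ZMod (2 * h + 1))) ^ ((w' i).1.card + (w i).2.card)) hp
      (prod_ne_zero_iff.2 fun i _ => pow_ne_zero _ ?_) ?_
    · have := i.2
      rw [Ne, ZMod.natCast_eq_zero_iff]
      exact Nat.not_dvd_of_pos_of_lt (by omega) (by omega)
    · have h3 : Even ((rho h w).card / 2 + (∑ i, (w i).2.card) +
          ((rho h w').card / 2 + ∑ i, (w' i).2.card)) := by
        rw [rho_card, rho_card, Nat.even_iff]
        omega
      have h4 := h3.neg_one_pow (α := ZMod (2 * h + 1))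
      have h5 : (∏ i : Fin h, (((i + 1 : ℕ) : ZMod (2 * h + 1))) ^ ((w i).1.card + (w i).2.card)) *
          (∏ i : Fin h, (((i + 1 : ℕ) : ZMod (2 * h + 1))) ^ ((w' i).1.card + (w' i).2.card)) =
          (∏ i : Fin h, (((i + 1 : ℕ) : ZMod (2 * h + 1))) ^
            ((w' i).1.card + (w i).2.card)) ^ 2 := by
        rw [← prod_mul_distrib, ← prod_pow]
        refine prod_congr rfl fun i _ => ?_
        rw [← pow_add, ← pow_mul]
        congr 1
        have := h1 i
        omega
      simp only [Int.cast_mul, Int.cast_pow, Int.cast_neg, Int.cast_one, Int.cast_natCast]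
      rw [rho_prod, rho_prod, ← h5]
      simp only [pow_add (-1 : ZMod (2 * h + 1))] at h4
      linear_combination (∏ i : Fin h, (((i + 1 : ℕ) : ZMod (2 * h + 1))) ^
        ((w i).1.card + (w i).2.card)) * (∏ i : Fin h, (((i + 1 : ℕ) : ZMod (2 * h + 1))) ^
          ((w' i).1.card + (w' i).2.card)) * h4

/-- the decomposition into runners. -/
def dec (h : ℕ) (A : ST0) : ST0 × (Fin h → Finset ℕ × Finset ℕ) :=
  (⟨R (2 * h + 1) 0 A.1, fun h0 => A.2 (by simpa using (mem_R (by omega) _ _).1 h0)⟩, W h A.1)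

lemma dec_bij (h : ℕ) : Function.Bijective (dec h) := by
  constructor
  · intro A B hAB
    have h1 : R (2 * h + 1) 0 A.1 = R (2 * h + 1) 0 B.1 :=
      congrArg (fun x : ST0 × (Fin h → Finset ℕ × Finset ℕ) => x.1.1) hAB
    have h2 : W h A.1 = W h B.1 := congrArg Prod.snd hAB
    apply Subtype.ext
    apply Finset.val_injective
    rw [val_split h A.1, val_split h B.1, h1, h2]
  · rintro ⟨A0, w⟩
    let B : ℕ → Finset ℕ := fun r => if r = 0 then A0.1 else
      if h1 : r - 1 < h then (w ⟨r - 1, h1⟩).1 else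
        if h2 : 2 * h - r < h then (w ⟨2 * h - r, h2⟩).2 else ∅
    let A : Finset ℕ := (range (2 * h + 1)).biUnion fun r =>
      (B r).image fun a => (2 * h + 1) * a + r
    have hA : ∀ r < 2 * h + 1, R (2 * h + 1) r A = B r := by
      intro r hr
      ext a
      rw [mem_R hr]
      simp only [A, mem_biUnion, mem_range, mem_image]
      constructor
      · rintro ⟨s, hs, b, hb, e⟩
        have e1 := congrArg (· % (2 * h + 1)) e
        simp only [Nat.mul_add_mod, Nat.mod_eq_of_lt hs, Nat.mod_eq_of_lt hr] at e1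
        subst e1
        have e2 := Nat.eq_of_mul_eq_mul_left (by omega) (Nat.add_right_cancel e)
        rwa [← e2]
      · exact fun ha => ⟨r, hr, a, ha, rfl⟩
    have hA0 : R (2 * h + 1) 0 A = A0.1 := by rw [hA 0 (by omega)]; simp [B]
    refine ⟨⟨A, fun h0 => A0.2 ?_⟩, Prod.ext (Subtype.ext hA0) (funext fun i => ?_)⟩
    · rw [← hA0, mem_R (by omega)]
      simpa using h0
    · have hi := i.2
      change W h A i = w i
      rw [W, hA _ (by omega), hA _ (by omega)]
      simp only [B]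
      rw [if_neg (by omega), dif_pos (by omega), if_neg (by omega), dif_neg (by omega),
        dif_pos (by omega)]
      refine Prod.ext ?_ ?_
      · simp
      · dsimp only
        congr 3
        omega

end RunS

open RunS Finset in
theorem runS (hsh : ShSt) (hcmp : CmpSt) : RunSSt := by
  intro p hp hp2
  obtain ⟨h, rfl⟩ : ∃ h, p = 2 * h + 1 := hp.odd_of_ne_two hp2
  have := Fact.mk hp
  rw [show (2 * h + 1 - 1) / 2 = h by omega]
  obtain ⟨e, he⟩ := hsh.eqv
  let E2 : ST0 × (Fin h → Finset ℕ × Finset ℕ) ≃ (Fin h → ℤ) × ST0 × (Fin h → PT0) :=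
    { toFun := fun x => (fun i => (e (x.2 i)).1, x.1, fun i => (e (x.2 i)).2)
      invFun := fun y => (y.2.1, fun i => e.symm (y.1 i, y.2.2 i))
      left_inv := fun x => by simp
      right_inv := fun y => by simp }
  let E := (Equiv.ofBijective _ (dec_bij h)).trans E2
  have hE1 : ∀ x i, (E x).1 i = ((W h x.1 i).1.card : ℤ) - (W h x.1 i).2.card :=
    fun x i => (he (W h x.1 i)).1
  have hE2 : ∀ x, (E x).2.1.1 = R (2 * h + 1) 0 x.1 := fun x => rfl
  have hE3 : ∀ x i, szN ((E x).2.2 i).1 = szN (W h x.1 i) := fun x i => (he (W h x.1 i)).2.1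
  have hE4 : ∀ x i, WP (2 * h + 1) ((E x).2.2 i).1 = WP (2 * h + 1) (W h x.1 i) :=
    fun x i => (he (W h x.1 i)).2.2 _ hp
  let b : (Fin h → ℤ) → ST0 := fun c => E.symm (c, ⟨∅, notMem_empty 0⟩, fun _ => PT0.o)
  have hb : ∀ c, E (b c) = (c, ⟨∅, notMem_empty 0⟩, fun _ => PT0.o) := fun c =>
    E.apply_symm_apply _
  have hb1 : ∀ c, (b c).1.val = rho h (W h (b c).1) := fun c => by
    rw [val_split h (b c).1, ← hE2, hb]
    simp
  have hb2 : ∀ x i, ((W h x.1 i).1.card : ℤ) - (W h x.1 i).2.card =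
      ((W h (b (E x).1).1 i).1.card : ℤ) - (W h (b (E x).1).1 i).2.card := fun x i => by
    rw [← hE1, ← hE1, hb]
  have hb3 : ∀ c i, szN (W h (b c).1 i) = 0 := fun c i => by
    rw [← hE3, hb]
    exact (hsh.zero _).2 rfl
  refine ⟨Fin h → ℤ, E, fun c => (b c).1.val.sum, fun x => ⟨?_, ?_, ?_⟩⟩
  · have e1 := rho_sum hsh h (W h x.1)
    have e2 := rho_sum hsh h (W h (b (E x).1).1)
    simp only [← hb2, hb3] at e2
    have e3 : x.1.sum id = (2 * h + 1) * (R (2 * h + 1) 0 x.1).sum id + (rho h (W h x.1)).sum := by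
      have e4 := congrArg Multiset.sum (val_split h x.1)
      rw [Multiset.sum_add, Multiset.sum_map_mul_left] at e4
      rw [Multiset.map_id'] at e4
      simpa only [Finset.sum, Multiset.map_id] using e4
    simp only [hE2, hE3, hb1]
    rw [e3]
    simp only [Nat.cast_zero, sum_const_zero] at e2
    rw [← Nat.cast_sum] at e1
    generalize (rho h (W h x.1)).sum = s1 at e1 ⊢
    generalize (rho h (W h (b (E x).1).1)).sum = s2 at e2 ⊢
    generalize (R (2 * h + 1) 0 x.1).sum id = s3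
    generalize ∑ i, szN (W h x.1 i) = s4 at e1 ⊢
    have h2 : (2 : ℤ) ≠ 0 := two_ne_zero
    zify
    apply mul_left_cancel₀ h2
    linear_combination e1 - e2
  · simp only [hE2, hE3, hE4]
    rw [WS_split hsh h x.1]
    simp
  · change Sim _ _ ((b (E x).1).1.val + _)
    rw [hb1, hE2, add_comm (rho _ _)]
    conv_lhs => rw [val_split h x.1]
    exact hcmp.sim_add _ _ _ _ hp (rho_sim hcmp h hp _ _ (hb2 x))

end Pool.Agent.Lib.MP_1ae3da_al.GM
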