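import Pool.Agent.Lib.MP_1ae3da_al.GT

namespace Pool.Agent.Lib.MP_1ae3da_al.GM

namespace Sh

def up (A : Finset ℕ) : Finset ℕ := A.image (· + 1)

lemma mem_up {A : Finset ℕ} {x : ℕ} : x ∈ up A ↔ ∃ a ∈ A, a + 1 = x := by
  simp [up]

lemma zero_not_up (A : Finset ℕ) : 0 ∉ up A := by simp [mem_up]

lemma prod_up {M : Type} [CommMonoid M] (A : Finset ℕ) (f : ℕ → M) :
    ∏ a ∈ up A, f a = ∏ a ∈ A, f (a + 1) := by
  unfold up
  rw [Finset.prod_image]
  intro a _ b _ h
  simpa using h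

lemma card_up (A : Finset ℕ) : (up A).card = A.card := by
  unfold up
  exact Finset.card_image_of_injective _ (add_left_injective 1)

lemma sum_up (A : Finset ℕ) : (up A).sum id = A.sum id + A.card := by
  unfold up
  rw [Finset.sum_image (by intro a _ b _ h; simpa using h)]
  simp [Finset.sum_add_distrib]

lemma Vd_eq (A : Finset ℕ) : Vd A = ∏ a ∈ A, ∏ b ∈ A, if a < b then b - a else 1 := by
  unfold Vd
  refine Finset.prod_congr rfl fun a _ => ?_
  rw [Finset.prod_filter]

lemma Vd_up (A : Finset ℕ) : Vd (up A) = Vd A := by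
  rw [Vd_eq, Vd_eq, prod_up]
  refine Finset.prod_congr rfl fun a _ => ?_
  rw [prod_up]
  refine Finset.prod_congr rfl fun b _ => ?_
  simp

lemma Vd_ins (A : Finset ℕ) : Vd (insert 0 (up A)) = (∏ a ∈ A, (a + 1)) * Vd A := by
  rw [← Vd_up A, Vd_eq, Vd_eq, Finset.prod_insert (zero_not_up A),
    Finset.prod_insert (zero_not_up A)]
  congr 1
  · rw [prod_up]; simp
  · refine Finset.prod_congr rfl fun a _ => ?_
    rw [Finset.prod_insert (zero_not_up A)]
    simp

lemma fact_up (A : Finset ℕ) :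
    ∏ a ∈ up A, a.factorial = (∏ a ∈ A, (a + 1)) * ∏ a ∈ A, a.factorial := by
  rw [prod_up, ← Finset.prod_mul_distrib]
  exact Finset.prod_congr rfl fun a _ => Nat.factorial_succ a

lemma cases_up (B : Finset ℕ) : (∃ C, B = up C) ∨ ∃ C, B = insert 0 (up C) := by
  by_cases h : 0 ∈ B
  · right
    refine ⟨(B.erase 0).image (· - 1), ?_⟩
    ext x
    simp only [Finset.mem_insert, mem_up, Finset.mem_image, Finset.mem_erase]
    constructor
    · intro hx
      by_cases h0 : x = 0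
      · exact Or.inl h0
      · exact Or.inr ⟨x - 1, ⟨x, ⟨h0, hx⟩, rfl⟩, by omega⟩
    · rintro (rfl | ⟨a, ⟨b, ⟨hb0, hb⟩, rfl⟩, rfl⟩)
      · exact h
      · have : b - 1 + 1 = b := by omega
        rwa [this]
  · left
    refine ⟨B.image (· - 1), ?_⟩
    ext x
    simp only [mem_up, Finset.mem_image]
    constructor
    · intro hx
      have h0 : x ≠ 0 := fun e => h (e ▸ hx)
      exact ⟨x - 1, ⟨x, hx, rfl⟩, by omega⟩
    · rintro ⟨a, ⟨b, hb, rfl⟩, rfl⟩
      have h0 : b ≠ 0 := fun e => h (e ▸ hb)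
      have : b - 1 + 1 = b := by omega
      rwa [this]

lemma dn_up (C : Finset ℕ) : (up C).image (· - 1) = C := by
  unfold up
  rw [Finset.image_image]
  ext x
  simp

lemma sh1_up (A C : Finset ℕ) : sh1 (A, up C) = (insert 0 (up A), C) := by
  unfold sh1
  simp only [zero_not_up, if_false]
  rw [Finset.erase_eq_of_notMem (zero_not_up C), dn_up]
  congr 1
  rw [Finset.union_comm]
  rfl

lemma sh1_ins (A C : Finset ℕ) : sh1 (A, insert 0 (up C)) = (up A, C) := by
  unfold sh1
  simp only [Finset.mem_insert_self, if_true]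
  rw [Finset.erase_insert (zero_not_up C), dn_up, Finset.union_empty]
  rfl

lemma inv1 (w : Finset ℕ × Finset ℕ) : (sh1 (sh1 w).swap).swap = w := by
  obtain ⟨A, B⟩ := w
  rcases cases_up B with ⟨C, rfl⟩ | ⟨C, rfl⟩
  · rw [sh1_up]
    change (sh1 (C, insert 0 (up A))).swap = _
    rw [sh1_ins]; rfl
  · rw [sh1_ins]
    change (sh1 (C, up A)).swap = _
    rw [sh1_up]; rfl

lemma bij : Function.Bijective sh1 := by
  constructor
  · intro a b h
    rw [← inv1 a, h, inv1]
  · intro w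
    refine ⟨(sh1 w.swap).swap, ?_⟩
    have := inv1 w.swap
    rw [← Prod.swap_swap (sh1 (sh1 w.swap).swap), this, Prod.swap_swap]

lemma chg (w : Finset ℕ × Finset ℕ) :
    ((sh1 w).1.card : ℤ) - (sh1 w).2.card = (w.1.card : ℤ) - w.2.card + 1 := by
  obtain ⟨A, B⟩ := w
  rcases cases_up B with ⟨C, rfl⟩ | ⟨C, rfl⟩
  · rw [sh1_up]
    simp only [Finset.card_insert_of_notMem (zero_not_up A), card_up]
    push_cast; ring
  · rw [sh1_ins]
    simp only [Finset.card_insert_of_notMem (zero_not_up C), card_up]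
    push_cast; ring

lemma choose_succ (c : ℕ) : (c + 1).choose 2 = c.choose 2 + c := by
  rw [Nat.choose_succ_succ' c 1, Nat.choose_one_right, add_comm]

lemma two_choose (c : ℕ) : 2 * c.choose 2 + c = c * c := by
  induction c with
  | zero => simp
  | succ c ih => rw [choose_succ]; nlinarith

lemma choose_le (A : Finset ℕ) : A.card.choose 2 ≤ A.sum id := by
  induction A using Finset.induction_on_max with
  | empty => simp
  | insert a s hs ih =>
    have ha : a ∉ s := fun h => lt_irrefl _ (hs a h)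
    rw [Finset.card_insert_of_notMem ha, Finset.sum_insert ha, choose_succ]
    have : s.card ≤ a := by
      have h1 : s ⊆ Finset.range a := fun x hx => Finset.mem_range.2 (hs x hx)
      simpa using Finset.card_le_card h1
    simp only [id] at *
    omega

lemma sum_ins (A : Finset ℕ) : (insert 0 (up A)).sum id = A.sum id + A.card := by
  rw [Finset.sum_insert (zero_not_up A), sum_up]; simp

lemma sz (w : Finset ℕ × Finset ℕ) : szN (sh1 w) = szN w := by
  obtain ⟨A, B⟩ := w
  rcases cases_up B with ⟨C, rfl⟩ | ⟨C, rfl⟩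
  · rw [sh1_up]
    have h1 := choose_le A
    have h3 := choose_le C
    simp only [szN, Finset.card_insert_of_notMem (zero_not_up A), card_up,
      sum_ins, sum_up, choose_succ, add_mul, one_mul] at *
    omega
  · rw [sh1_ins]
    have h1 := choose_le A
    have h3 := choose_le C
    simp only [szN, Finset.card_insert_of_notMem (zero_not_up C), card_up,
      sum_ins, sum_up, choose_succ, mul_add, mul_one] at *
    omega

lemma rat (w : Finset ℕ × Finset ℕ) :
    Hn (sh1 w) * (Vd w.1 * Vd w.2) = Hn w * (Vd (sh1 w).1 * Vd (sh1 w).2) := by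
  obtain ⟨A, B⟩ := w
  have hX : ∀ C : Finset ℕ, ∏ a ∈ up A, ∏ b ∈ C, (a + b + 1) =
      ∏ a ∈ A, ∏ b ∈ up C, (a + b + 1) := by
    intro C
    rw [prod_up]
    refine Finset.prod_congr rfl fun a _ => ?_
    rw [prod_up]
    exact Finset.prod_congr rfl fun b _ => by ring
  rcases cases_up B with ⟨C, rfl⟩ | ⟨C, rfl⟩
  · rw [sh1_up]
    simp only [Hn, Finset.prod_insert (zero_not_up A), Vd_up, Vd_ins, fact_up, hX, zero_add,
      Nat.factorial_zero]
    ring
  · rw [sh1_ins]
    simp only [Hn, Finset.prod_insert (zero_not_up C), Vd_up, Vd_ins, fact_up, hX, add_zero,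
      Nat.factorial_zero, Finset.prod_mul_distrib]
    ring

lemma Vd_pos (A : Finset ℕ) : 0 < Vd A := by
  unfold Vd
  refine Finset.prod_pos fun a _ => Finset.prod_pos fun b hb => ?_
  have := (Finset.mem_filter.1 hb).2
  omega

lemma Hn_pos (w : Finset ℕ × Finset ℕ) : 0 < Hn w := by
  unfold Hn
  refine Nat.mul_pos (Nat.mul_pos ?_ ?_) ?_
  · exact Finset.prod_pos fun a _ => Nat.factorial_pos a
  · exact Finset.prod_pos fun a _ => Nat.factorial_pos a
  · exact Finset.prod_pos fun a _ => Finset.prod_pos fun b _ => by omega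

lemma Hs_pos (A : Finset ℕ) : 0 < Hs A := by
  unfold Hs
  refine Nat.mul_pos (Finset.prod_pos fun a _ => Nat.factorial_pos a) ?_
  refine Finset.prod_pos fun a _ => Finset.prod_pos fun b hb => ?_
  have := (Finset.mem_filter.1 hb).2
  omega

lemma bs_step (N : ℕ) (w : Finset ℕ × Finset ℕ) (h : ∀ b ∈ w.2, b < N + 1) :
    bs N (sh1 w) = bs (N + 1) w := by
  obtain ⟨A, B⟩ := w
  rcases cases_up B with ⟨C, rfl⟩ | ⟨C, rfl⟩
  · rw [sh1_up]
    have hC : ∀ c ∈ C, c < N := fun c hc => by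
      have := h (c + 1) (mem_up.2 ⟨c, hc, rfl⟩); omega
    ext x
    simp only [bs, Finset.mem_union, Finset.mem_image, Finset.mem_insert, mem_up,
      Finset.mem_sdiff, Finset.mem_range]
    constructor
    · rintro (⟨a, rfl | ⟨a', ha', rfl⟩, rfl⟩ | ⟨h1, h2⟩)
      · right
        refine ⟨by omega, ?_⟩
        rintro ⟨b, ⟨c, hc, rfl⟩, h3⟩
        have := hC c hc
        omega
      · left; exact ⟨a', ha', by omega⟩
      · right
        refine ⟨by omega, ?_⟩
        rintro ⟨b, ⟨c, hc, rfl⟩, h3⟩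
        exact h2 ⟨c, hc, by omega⟩
    · rintro (⟨a, ha, rfl⟩ | ⟨h1, h2⟩)
      · left; exact ⟨a + 1, Or.inr ⟨a, ha, rfl⟩, by omega⟩
      · by_cases hx : x = N
        · left; exact ⟨0, Or.inl rfl, by omega⟩
        · right
          refine ⟨by omega, ?_⟩
          rintro ⟨c, hc, h3⟩
          exact h2 ⟨c + 1, ⟨c, hc, rfl⟩, by omega⟩
  · rw [sh1_ins]
    ext x
    simp only [bs, Finset.mem_union, Finset.mem_image, Finset.mem_insert, mem_up,
      Finset.mem_sdiff, Finset.mem_range]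
    constructor
    · rintro (⟨a, ⟨a', ha', rfl⟩, rfl⟩ | ⟨h1, h2⟩)
      · left; exact ⟨a', ha', by omega⟩
      · right
        refine ⟨by omega, ?_⟩
        rintro ⟨b, rfl | ⟨c, hc, rfl⟩, h3⟩
        · omega
        · exact h2 ⟨c, hc, by omega⟩
    · rintro (⟨a, ha, rfl⟩ | ⟨h1, h2⟩)
      · left; exact ⟨a + 1, ⟨a, ha, rfl⟩, by omega⟩
      · right
        have hx : x ≠ N := fun e => h2 ⟨0, Or.inl rfl, by omega⟩
        refine ⟨by omega, ?_⟩
        rintro ⟨c, hc, h3⟩
        exact h2 ⟨c + 1, Or.inr ⟨c, hc, rfl⟩, by omega⟩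

lemma snd_lt (N : ℕ) (w : Finset ℕ × Finset ℕ) (h : ∀ b ∈ w.2, b < N + 1) :
    ∀ b ∈ (sh1 w).2, b < N := by
  intro b hb
  simp only [sh1, Finset.mem_image, Finset.mem_erase] at hb
  obtain ⟨c, ⟨h0, hc⟩, rfl⟩ := hb
  have := h c hc
  omega

lemma iter (N : ℕ) : ∀ w : Finset ℕ × Finset ℕ, (∀ b ∈ w.2, b < N) → sh1^[N] w = (bs N w, ∅) := by
  induction N with
  | zero =>
    intro w h
    obtain ⟨A, B⟩ := w
    have hB : B = ∅ := Finset.eq_empty_of_forall_notMem fun b hb => by simpa using h b hb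
    subst hB
    simp [bs]
  | succ N ih =>
    intro w h
    rw [Function.iterate_succ_apply, ih _ (snd_lt N w h), bs_step N w h]

lemma iter_chg (N : ℕ) (w : Finset ℕ × Finset ℕ) :
    ((sh1^[N] w).1.card : ℤ) - (sh1^[N] w).2.card = (w.1.card : ℤ) - w.2.card + N := by
  induction N with
  | zero => simp
  | succ N ih => rw [Function.iterate_succ_apply', chg, ih]; push_cast; ring

lemma iter_sz (N : ℕ) (w : Finset ℕ × Finset ℕ) : szN (sh1^[N] w) = szN w := by
  induction N with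
  | zero => simp
  | succ N ih => rw [Function.iterate_succ_apply', sz, ih]

lemma iter_rat (N : ℕ) (w : Finset ℕ × Finset ℕ) :
    Hn (sh1^[N] w) * (Vd w.1 * Vd w.2) = Hn w * (Vd (sh1^[N] w).1 * Vd (sh1^[N] w).2) := by
  induction N with
  | zero => simp
  | succ N ih =>
    rw [Function.iterate_succ_apply']
    set v := sh1^[N] w
    have h1 := rat v
    have hp : 0 < Vd v.1 * Vd v.2 := Nat.mul_pos (Vd_pos _) (Vd_pos _)
    refine Nat.eq_of_mul_eq_mul_right hp ?_
    calc Hn (sh1 v) * (Vd w.1 * Vd w.2) * (Vd v.1 * Vd v.2)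
        = Hn (sh1 v) * (Vd v.1 * Vd v.2) * (Vd w.1 * Vd w.2) := by ring
      _ = Hn v * (Vd w.1 * Vd w.2) * (Vd (sh1 v).1 * Vd (sh1 v).2) := by rw [h1]; ring
      _ = _ := by rw [ih]; ring

lemma bsz (N : ℕ) (w : Finset ℕ × Finset ℕ) (hc : w.1.card = w.2.card) (h : ∀ b ∈ w.2, b < N) :
    (bs N w).card = N ∧ (bs N w).sum id = szN w + N.choose 2 ∧
    (∏ a ∈ bs N w, a.factorial) * (Vd w.1 * Vd w.2) = Hn w * Vd (bs N w) := by
  have h1 := iter_chg N w
  have h2 := iter_sz N w
  have h3 := iter_rat N w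
  rw [iter N w h] at h1 h2 h3
  have hcard : (bs N w).card = N := by
    simp only [Finset.card_empty, hc] at h1
    omega
  refine ⟨hcard, ?_, ?_⟩
  · have h4 := choose_le (bs N w)
    rw [← h2]
    simp only [szN, Finset.card_empty, Finset.sum_empty, hcard] at *
    simp only [Nat.choose_zero_succ, mul_zero]
    omega
  · simpa [Hn, Vd] using h3

lemma wp (p : ℕ) (hp : p.Prime) (w : Finset ℕ × Finset ℕ) : WP p (sh1 w) = WP p w := by
  haveI := Fact.mk hp
  have h := congrArg (padicValNat p) (rat w)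
  rw [padicValNat.mul (Hn_pos _).ne' (Nat.mul_pos (Vd_pos _) (Vd_pos _)).ne',
    padicValNat.mul (Hn_pos _).ne' (Nat.mul_pos (Vd_pos _) (Vd_pos _)).ne'] at h
  unfold WP
  omega

noncomputable def E : Equiv.Perm (Finset ℕ × Finset ℕ) := Equiv.ofBijective sh1 bij

lemma zp (f : Finset ℕ × Finset ℕ → ℤ) (d : ℤ) (h : ∀ w, f (sh1 w) = f w + d) (k : ℤ) :
    ∀ w, f ((E ^ k) w) = f w + k * d := by
  induction k using Int.induction_on with
  | zero => simp
  | succ k ih =>
    intro w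
    rw [zpow_add_one, Equiv.Perm.mul_apply, ih]
    change f (sh1 w) + _ = _
    rw [h]; ring
  | pred k ih =>
    intro w
    rw [zpow_sub_one, Equiv.Perm.mul_apply, ih]
    have h1 := h (E⁻¹ w)
    have h2 : sh1 (E⁻¹ w) = w := E.apply_symm_apply w
    rw [h2] at h1
    rw [h1]; ring

def cg (w : Finset ℕ × Finset ℕ) : ℤ := (w.1.card : ℤ) - w.2.card

lemma cg_zp (k : ℤ) (w : Finset ℕ × Finset ℕ) : cg ((E ^ k) w) = cg w + k := by
  simpa using zp cg 1 chg k w

noncomputable def eq0 : Finset ℕ × Finset ℕ ≃ ℤ × PT0 where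
  toFun w := (cg w, ⟨(E ^ (-cg w)) w, by
    have := cg_zp (-cg w) w
    unfold cg at this ⊢
    omega⟩)
  invFun x := (E ^ x.1) x.2.1
  left_inv w := by
    simp only
    rw [← Equiv.Perm.mul_apply, ← zpow_add]
    simp
  right_inv x := by
    obtain ⟨k, w, hw⟩ := x
    have h1 : cg ((E ^ k) w) = k := by
      rw [cg_zp]; unfold cg; omega
    refine Prod.ext h1 (Subtype.ext ?_)
    simp only [h1]
    rw [← Equiv.Perm.mul_apply, ← zpow_add]
    simp

lemma pt (n : ℕ) (w : Finset ℕ × Finset ℕ) :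
    w ∈ PT n ↔ w.1.card = w.2.card ∧ szN w = n := by
  have h1 := choose_le w.1
  have h2 := choose_le w.2
  have h3 := two_choose w.2.card
  simp only [PT, Set.mem_setOf_eq, szN]
  constructor
  · rintro ⟨hc, hs⟩
    refine ⟨hc, ?_⟩
    rw [hc] at h1 hs ⊢
    omega
  · rintro ⟨hc, hs⟩
    refine ⟨hc, ?_⟩
    rw [hc] at h1 hs ⊢
    omega

end Sh

theorem shSt : ShSt where
  bij := Sh.bij
  chg := Sh.chg
  sz := Sh.sz
  rat := Sh.rat
  iter := Sh.iter
  bsz := Sh.bsz
  eqv := ⟨Sh.eq0, fun w => ⟨rfl, by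
      have := Sh.zp (fun w => (szN w : ℤ)) 0 (fun w => by simp [Sh.sz]) (-Sh.cg w) w
      change szN ((Sh.E ^ (-Sh.cg w)) w) = szN w
      simpa using this, fun p hp => by
      have := Sh.zp (WP p) 0 (fun w => by simp [Sh.wp p hp]) (-Sh.cg w) w
      change WP p ((Sh.E ^ (-Sh.cg w)) w) = WP p w
      simpa using this⟩⟩
  pos := fun w => ⟨Sh.Hn_pos w, Sh.Vd_pos _, Sh.Hs_pos _, Sh.choose_le _⟩
  pt := Sh.pt
  zero := fun w => by
    constructor
    · intro h
      obtain ⟨⟨A, B⟩, hw⟩ := w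
      have h1 := ((Sh.pt 0 (A, B)).2 ⟨hw, h⟩).2
      simp only at h1 hw
      have hA : A = ∅ := Finset.card_eq_zero.1 (by omega)
      have hB : B = ∅ := Finset.card_eq_zero.1 (by omega)
      subst hA hB
      rfl
    · rintro rfl
      simp [PT0.o, szN]

end Pool.Agent.Lib.MP_1ae3da_al.GM
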