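import Pool.Agent.Lib.MP_1ae3da_al.GT

/-! Solomon's induction theorem. -/

namespace Pool.Agent.Lib.MP_1ae3da_al.GM

open MulAction

namespace Sol

lemma qe_iff (H : Type) [Group H] : QE H ↔ ∃ (l : ℕ) (C : Subgroup H), C.Normal ∧ l.Prime ∧
    IsCyclic C ∧ ∀ h : H, ∃ k : ℕ, h ^ l ^ k ∈ C := by
  constructor
  · rintro ⟨l, C, hC, hl, hc, hp⟩
    refine ⟨l, C, hC, hl, hc, fun h => ?_⟩
    obtain ⟨k, hk⟩ := hp (h : H ⧸ C)
    exact ⟨k, by rwa [← QuotientGroup.mk_pow, QuotientGroup.eq_one_iff] at hk⟩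
  · rintro ⟨l, C, hC, hl, hc, hp⟩
    refine ⟨l, C, hC, hl, hc, fun q => ?_⟩
    obtain ⟨h, rfl⟩ := QuotientGroup.mk_surjective q
    obtain ⟨k, hk⟩ := hp h
    exact ⟨k, by rwa [← QuotientGroup.mk_pow, QuotientGroup.eq_one_iff]⟩

lemma qe_inj {H L : Type} [Group H] [Group L] (φ : L →* H) (hφ : Function.Injective φ)
    (h : QE H) : QE L := by
  rw [qe_iff] at h ⊢
  obtain ⟨l, C, hC, hl, hc, hp⟩ := h
  refine ⟨l, C.comap φ, hC.comap φ, hl, ?_, fun x => ?_⟩
  · refine isCyclic_of_injective (φ.subgroupComap C) ?_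
    intro a b hab
    exact Subtype.ext (hφ (congrArg Subtype.val hab))
  · obtain ⟨k, hk⟩ := hp (φ x)
    exact ⟨k, by simpa using hk⟩

variable {G : Type} [Group G] [Fintype G]

lemma cnt {X : Type} [MulAction G X] [Finite X] (x : X) (g : G) :
    Nat.card {y : G // g • y • x = y • x} =
      Nat.card {b : X // b ∈ orbit G x ∧ g • b = b} * Nat.card (stabilizer G x) := by
  classical
  let := Fintype.ofFinite X
  rw [Nat.card_eq_fintype_card, Fintype.card_subtype, Nat.card_eq_fintype_card,
    Fintype.card_subtype]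
  rw [Finset.card_eq_sum_card_fiberwise (f := fun y : G => y • x)
    (t := Finset.univ.filter fun b : X => b ∈ orbit G x ∧ g • b = b)]
  · rw [Finset.sum_const_nat]
    intro b hb
    obtain ⟨⟨a, rfl⟩, hb⟩ := (Finset.mem_filter.1 hb).2
    rw [Nat.card_eq_fintype_card, Fintype.card_subtype]
    refine Finset.card_bij (fun y _ => a⁻¹ * y) ?_ ?_ ?_
    · intro y hy
      simp only [Finset.mem_filter, Finset.mem_univ, true_and, mem_stabilizer_iff] at hy ⊢
      rw [mul_smul, hy.2, inv_smul_smul]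
    · intro y _ z _ h
      exact mul_left_cancel h
    · intro y hy
      simp only [Finset.mem_filter, Finset.mem_univ, true_and, mem_stabilizer_iff] at hy
      refine ⟨a * y, ?_, by simp⟩
      simp only [Finset.mem_filter, Finset.mem_univ, true_and, mul_smul, hy, and_true]
      exact hb
  · intro y hy
    simp only [Finset.coe_filter, Finset.mem_univ, true_and, Set.mem_ofPred_eq] at hy ⊢
    exact ⟨mem_orbit x y, hy⟩

lemma sum_nc [DecidableEq G] (H : Subgroup G) [Fintype H] (g : G) :
    ∑ h : H, nc g (h : G) = Nat.card {y : G // y⁻¹ * g * y ∈ H} := by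
  classical
  rw [Nat.card_eq_fintype_card, Fintype.card_subtype]
  simp only [nc, Finset.card_filter]
  rw [Finset.sum_comm]
  refine Finset.sum_congr rfl fun y _ => ?_
  by_cases hy : y⁻¹ * g * y ∈ H
  · rw [if_pos hy, Finset.sum_eq_single (⟨_, hy⟩ : H)]
    · rw [if_pos (by group)]
    · intro h _ hh
      rw [if_neg]
      intro e
      apply hh
      apply Subtype.ext
      change (h : G) = y⁻¹ * g * y
      rw [mul_assoc, e]; group
    · simp
  · rw [if_neg hy]
    refine Finset.sum_eq_zero fun h _ => if_neg fun e => hy ?_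
    rw [mul_assoc, e]
    simp

lemma ind_stab [DecidableEq G] {X : Type} [MulAction G X] [Finite X] (x : X)
    [Fintype (stabilizer G x)] (g : G) :
    ind (stabilizer G x).subtype (1 : stabilizer G x → K) g =
      (Nat.card {b : X // b ∈ orbit G x ∧ g • b = b} : K) := by
  have h1 := sum_nc (stabilizer G x) g
  have h2 := cnt x g
  have h3 : Nat.card {y : G // y⁻¹ * g * y ∈ stabilizer G x} =
      Nat.card {y : G // g • y • x = y • x} := by
    refine Nat.card_congr (Equiv.subtypeEquivRight fun y => ?_)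
    rw [mem_stabilizer_iff, mul_smul, mul_smul, inv_smul_eq_iff]
  rw [h3, h2, Nat.card_eq_fintype_card (α := stabilizer G x)] at h1
  have hc : (Fintype.card (stabilizer G x) : K) ≠ 0 := Nat.cast_ne_zero.mpr Fintype.card_ne_zero
  simp only [ind, Pi.one_apply, one_mul, Subgroup.coe_subtype]
  rw [← Nat.cast_sum, h1]
  push_cast
  field_simp

/-- number of fixed points. -/
noncomputable def fx (X : Type) [MulAction G X] (g : G) : ℕ := Nat.card (fixedBy X g)

omit [Fintype G] in
open Classical in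
lemma fx_eq (X : Type) [MulAction G X] [Fintype X] (g : G) :
    fx X g = (Finset.univ.filter fun b : X => g • b = b).card := by
  rw [fx, Nat.card_eq_fintype_card, Fintype.card_subtype]
  rfl

omit [Fintype G] in
lemma fx_prod (X Y : Type) [MulAction G X] [MulAction G Y] (g : G) :
    fx (X × Y) g = fx X g * fx Y g := by
  rw [fx, fx, fx, ← Nat.card_prod]
  refine Nat.card_congr
    { toFun := fun p => (⟨p.1.1, congrArg Prod.fst p.2⟩, ⟨p.1.2, congrArg Prod.snd p.2⟩)
      invFun := fun p => ⟨(p.1.1, p.2.1), Prod.ext p.1.2 p.2.2⟩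
      left_inv := fun _ => rfl
      right_inv := fun _ => rfl }

lemma fx_mem [DecidableEq G] (X : Type) [MulAction G X] [Finite X]
    (hX : ∀ x : X, QE (stabilizer G x)) :
    (fun g => (fx X g : K)) ∈ AddSubgroup.closure
      {f : G → K | ∃ (H : Subgroup G) (_ : Fintype H), QE H ∧ f = ind H.subtype 1} := by
  classical
  let := Fintype.ofFinite X
  let := Fintype.ofFinite (orbitRel.Quotient G X)
  have : (fun g => (fx X g : K)) = ∑ ω : orbitRel.Quotient G X,
      ind (stabilizer G (Quotient.out ω : X)).subtype 1 := by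
    funext g
    rw [Finset.sum_apply]
    simp only [ind_stab]
    rw [fx_eq, ← Nat.cast_sum, Finset.card_eq_sum_card_fiberwise
      (f := fun b : X => (Quotient.mk'' b : orbitRel.Quotient G X)) (t := Finset.univ)
      (fun _ _ => Finset.mem_coe.2 (Finset.mem_univ _))]
    congr 1
    refine Finset.sum_congr rfl fun ω _ => ?_
    rw [Nat.card_eq_fintype_card, Fintype.card_subtype]
    congr 1
    ext b
    simp only [Finset.mem_filter, Finset.mem_univ, true_and]
    rw [and_comm, ← orbitRel_apply, ← Quotient.eq'', Quotient.out_eq']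
  rw [this]
  exact AddSubgroup.sum_mem _ fun ω _ => AddSubgroup.subset_closure ⟨_, _, hX _, rfl⟩

omit [Fintype G] in
lemma fx_mod (X : Type) [MulAction G X] [Finite X] (x : G) (l a : ℕ) (hl : l.Prime) :
    fx X (x ^ l ^ a) ≡ fx X x [MOD l] := by
  classical
  have := Fact.mk hl
  let := Fintype.ofFinite (fixedBy X (x ^ l ^ a))
  let f : Function.End (fixedBy X (x ^ l ^ a)) := fun b => ⟨x • b.1, by
    have hb : x ^ l ^ a • b.1 = b.1 := b.2
    change x ^ l ^ a • x • b.1 = x • b.1
    rw [← mul_smul, ← pow_succ, pow_succ', mul_smul, hb]⟩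
  have hf : ∀ (n : ℕ) b, ((f ^ n) b).1 = x ^ n • b.1 := by
    intro n
    induction n with
    | zero => intro b; simp; rfl
    | succ n ih =>
      intro b
      rw [pow_succ, pow_succ, mul_smul]
      exact ih (f b)
  have h1 : f ^ l ^ a = 1 := by
    funext b
    exact Subtype.ext ((hf _ b).trans b.2)
  have h2 := Equiv.Perm.card_fixedPoints_modEq h1
  rw [← Nat.card_eq_fintype_card, ← Nat.card_eq_fintype_card] at h2
  have h3 : Nat.card f.fixedPoints = fx X x := by
    refine Nat.card_congr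
      { toFun := fun p => ⟨p.1.1, congrArg Subtype.val p.2⟩
        invFun := fun p => ⟨⟨p.1, ?_⟩, Subtype.ext p.2⟩
        left_inv := fun _ => rfl
        right_inv := fun _ => rfl }
    have : x ∈ stabilizer G p.1 := p.2
    exact (stabilizer G p.1).pow_mem this _
  rw [← h3]
  exact h2

lemma exists_H (c : G) (l : ℕ) (hl : l.Prime) :
    ∃ (H : Subgroup G) (t : ℕ), Subgroup.zpowers c ≤ H ∧
      H ≤ Subgroup.normalizer (Subgroup.zpowers c : Set G) ∧
      (∀ h ∈ H, ∃ k : ℕ, h ^ l ^ k ∈ Subgroup.zpowers c) ∧ ¬ l ∣ t ∧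
      t * Nat.card H = Nat.card (Subgroup.normalizer (Subgroup.zpowers c : Set G)) := by
  have := Fact.mk hl
  set C := Subgroup.zpowers c
  set N := Subgroup.normalizer (C : Set G)
  have : (C.subgroupOf N).Normal := Subgroup.normal_subgroupOf_of_le_normalizer le_rfl
  let P : Sylow l (N ⧸ C.subgroupOf N) := default
  let H0 : Subgroup N := (P : Subgroup (N ⧸ C.subgroupOf N)).comap (QuotientGroup.mk' _)
  refine ⟨H0.map N.subtype, H0.index, ?_, Subgroup.map_subtype_le _, ?_, ?_, ?_⟩
  · intro y hy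
    refine ⟨⟨y, Subgroup.le_normalizer hy⟩, ?_, rfl⟩
    change QuotientGroup.mk' _ _ ∈ (P : Subgroup (N ⧸ C.subgroupOf N))
    rw [QuotientGroup.mk'_apply, (QuotientGroup.eq_one_iff _).2 (by exact hy)]
    exact one_mem _
  · rintro _ ⟨y, hy, rfl⟩
    obtain ⟨k, hk⟩ := P.isPGroup' ⟨_, hy⟩
    refine ⟨k, ?_⟩
    have := congrArg Subtype.val hk
    simp only [SubmonoidClass.mk_pow, QuotientGroup.mk'_apply, OneMemClass.coe_one] at this
    rw [← QuotientGroup.mk_pow, QuotientGroup.eq_one_iff] at this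
    exact this
  · rw [Subgroup.index_comap_of_surjective _ (QuotientGroup.mk'_surjective _)]
    exact P.not_dvd_index
  · rw [Subgroup.card_map_of_injective N.subtype_injective, Subgroup.index_mul_card]

lemma exists_X (x : G) (l : ℕ) (hl : l.Prime) :
    ∃ H : Subgroup G, QE H ∧ ¬ l ∣ fx (G ⧸ H) x := by
  classical
  obtain ⟨a, m, hm, ham⟩ := Nat.exists_eq_pow_mul_and_not_dvd (orderOf_pos x).ne' l hl.ne_one
  set c := x ^ l ^ a with hc
  have hcm : c ^ m = 1 := by rw [hc, ← pow_mul, ← ham, pow_orderOf_eq_one]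
  obtain ⟨H, t, h1, h2, h3, h4, h5⟩ := exists_H c l hl
  refine ⟨H, ?_, fun hd => h4 ?_⟩
  · rw [qe_iff]
    refine ⟨l, (Subgroup.zpowers c).subgroupOf H, Subgroup.normal_subgroupOf_of_le_normalizer h2,
      hl, ?_, fun h => ?_⟩
    · exact isCyclic_of_injective (Subgroup.subgroupOfEquivOfLe h1).toMonoidHom
        (Subgroup.subgroupOfEquivOfLe h1).injective
    · obtain ⟨k, hk⟩ := h3 h.1 h.2
      exact ⟨k, hk⟩
  · have hd' : l ∣ fx (G ⧸ H) c := (fx_mod (G ⧸ H) x l a hl).dvd_iff (dvd_refl l) |>.2 hd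
    suffices t = fx (G ⧸ H) c by rwa [this]
    have h6 := cnt ((1 : G) : G ⧸ H) c
    rw [stabilizer_quotient] at h6
    have h7 : Nat.card {b : G ⧸ H // b ∈ orbit G ((1 : G) : G ⧸ H) ∧ c • b = b}
        = fx (G ⧸ H) c := by
      refine Nat.card_congr (Equiv.subtypeEquivRight fun b => and_iff_right ?_)
      rw [orbit_eq_univ]
      trivial
    have h8 : Nat.card {y : G // c • y • ((1 : G) : G ⧸ H) = y • ((1 : G) : G ⧸ H)}
        = Nat.card (Subgroup.normalizer (Subgroup.zpowers c : Set G)) := by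
      refine Nat.card_congr (Equiv.subtypeEquivRight fun y => ?_)
      have : c • y • ((1 : G) : G ⧸ H) = y • ((1 : G) : G ⧸ H) ↔ y⁻¹ * c * y ∈ H := by
        rw [← inv_smul_eq_iff, ← mul_smul, ← mul_smul, ← mem_stabilizer_iff, stabilizer_quotient]
      rw [this]
      constructor
      · intro hy
        obtain ⟨k, hk⟩ := h3 _ hy
        have hdm : (y⁻¹ * c * y) ^ m = 1 := by
          have := conj_pow (a := y⁻¹) (b := c) (i := m)
          rw [inv_inv] at this
          rw [this, hcm]; simp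
        have hco : (l ^ k).gcd (orderOf (y⁻¹ * c * y)) = 1 :=
          Nat.Coprime.pow_left k (Nat.Coprime.coprime_dvd_right (orderOf_dvd_of_pow_eq_one hdm)
            ((Nat.Prime.coprime_iff_not_dvd hl).2 hm))
        have hd : y⁻¹ * c * y ∈ Subgroup.zpowers c :=
          (Subgroup.zpowers_le.2 hk) (mem_zpowers_pow_iff.2 hco)
        rw [← inv_mem_iff]
        refine Subgroup.mem_normalizer_fintype ?_
        rintro _ ⟨j, rfl⟩
        have := conj_zpow (a := y⁻¹) (b := c) (i := j)
        simp only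
        rw [← this, inv_inv]
        exact (Subgroup.zpowers c).zpow_mem hd j
      · intro hy
        exact h1 ((Subgroup.mem_normalizer_iff''.1 hy c).1 (Subgroup.mem_zpowers c))
    rw [h7, h8, ← h5] at h6
    exact Nat.eq_of_mul_eq_mul_right Nat.card_pos h6

/-- the lemma of Banaschewski. -/
lemma ban {ι : Type} [Fintype ι] (A : AddSubgroup (ι → ℤ)) (hA : ∀ f ∈ A, ∀ g ∈ A, f * g ∈ A)
    (h : ∀ (x : ι) (l : ℕ), l.Prime → ∃ f ∈ A, ¬ (l : ℤ) ∣ f x) : (1 : ι → ℤ) ∈ A := by
  classical
  have h1 : ∀ x : ι, ∃ f ∈ A, f x = 1 := by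
    intro x
    obtain ⟨n, hn⟩ := Int.subgroup_cyclic (A.map (Pi.evalAddMonoidHom (fun _ => ℤ) x))
    have hdv : ∀ f ∈ A, n ∣ f x := by
      intro f hf
      have : f x ∈ AddSubgroup.closure {n} := hn ▸ ⟨f, hf, rfl⟩
      obtain ⟨k, hk⟩ := AddSubgroup.mem_closure_singleton.1 this
      exact ⟨k, by rw [← hk, smul_eq_mul, mul_comm]⟩
    have hn1 : n.natAbs = 1 := by
      by_contra hne
      obtain ⟨l, hl, hln⟩ := Nat.exists_prime_and_dvd hne
      obtain ⟨f, hf, hfl⟩ := h x l hl
      exact hfl ((Int.natCast_dvd.2 hln).trans (hdv f hf))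
    have : (1 : ℤ) ∈ AddSubgroup.closure {n} := by
      refine AddSubgroup.mem_closure_singleton.2 ⟨n, ?_⟩
      rw [smul_eq_mul, ← Int.natAbs_mul_self, hn1]
      rfl
    rw [← hn] at this
    obtain ⟨f, hf, hfx⟩ := this
    exact ⟨f, hf, hfx⟩
  choose F hF hF1 using h1
  have h2 : ∀ s : Finset ι, 1 - ∏ x ∈ s, (1 - F x) ∈ A := by
    intro s
    induction s using Finset.induction_on with
    | empty => simp
    | insert a s ha ih =>
      rw [Finset.prod_insert ha]
      have : 1 - (1 - F a) * ∏ x ∈ s, (1 - F x) = (1 - ∏ x ∈ s, (1 - F x)) + F a -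
          F a * (1 - ∏ x ∈ s, (1 - F x)) := by ring
      rw [this]
      exact A.sub_mem (A.add_mem ih (hF a)) (hA _ (hF a) _ ih)
  have h3 : ∏ x, (1 - F x) = 0 := by
    funext y
    rw [Finset.prod_apply]
    exact Finset.prod_eq_zero (Finset.mem_univ y) (by simp [hF1])
  simpa [h3] using h2 Finset.univ

end Sol

open Sol in
theorem sol (hch : ChSt) : SolSt := by
  intro G _ _ _
  let S : Set (G → ℤ) := {f | ∃ (X : Type) (_ : MulAction G X) (_ : Finite X),
    (∀ x : X, QE (stabilizer G x)) ∧ f = fun g => (fx X g : ℤ)}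
  have hS : ∀ f ∈ S, ∀ g ∈ S, f * g ∈ S := by
    rintro _ ⟨X, _, _, hX, rfl⟩ _ ⟨Y, _, _, -, rfl⟩
    refine ⟨X × Y, inferInstance, inferInstance, fun p => ?_, ?_⟩
    · have : stabilizer G p ≤ stabilizer G p.1 := fun g hg => congrArg Prod.fst hg
      exact qe_inj (Subgroup.inclusion this) (Subgroup.inclusion_injective this) (hX p.1)
    · funext g
      simp [fx_prod]
  have h1 : (1 : G → ℤ) ∈ AddSubgroup.closure S := by
    refine ban _ (fun f hf g hg => ?_) fun x l hl => ?_
    · induction hf, hg using AddSubgroup.closure_induction₂ with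
      | mem f g hf hg => exact AddSubgroup.subset_closure (hS f hf g hg)
      | zero_left => simp
      | zero_right => simp
      | add_left a b c _ _ _ h1 h2 => rw [add_mul]; exact add_mem h1 h2
      | add_right a b c _ _ _ h1 h2 => rw [mul_add]; exact add_mem h1 h2
      | neg_left a b _ _ h => rw [neg_mul]; exact neg_mem h
      | neg_right a b _ _ h => rw [mul_neg]; exact neg_mem h
    · obtain ⟨H, hH, hl'⟩ := exists_X x l hl
      refine ⟨fun g => (fx (G ⧸ H) g : ℤ), AddSubgroup.subset_closure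
        ⟨G ⧸ H, inferInstance, inferInstance, fun q => ?_, rfl⟩, ?_⟩
      · obtain ⟨a, ha⟩ := exists_smul_eq G q ((1 : G) : G ⧸ H)
        have e := stabilizerEquivStabilizer ha.symm
        rw [stabilizer_quotient] at e
        exact qe_inj e.toMonoidHom e.injective hH
      · exact fun hd => hl' (Int.natCast_dvd_natCast.1 hd)
  have h2 : ∀ f ∈ AddSubgroup.closure S, (fun g => (f g : K)) ∈ AddSubgroup.closure
      {f : G → K | ∃ (H : Subgroup G) (_ : Fintype H), QE H ∧ f = ind H.subtype 1} := by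
    intro f hf
    induction hf using AddSubgroup.closure_induction with
    | mem f hf =>
      obtain ⟨X, _, _, hX, rfl⟩ := hf
      simpa using fx_mem X hX
    | zero => convert AddSubgroup.zero_mem _ using 1; funext g; simp
    | add a b _ _ h1 h2 => convert AddSubgroup.add_mem _ h1 h2 using 1; funext g; simp
    | neg a _ h => convert AddSubgroup.neg_mem _ h using 1; funext g; simp
  convert h2 1 h1 using 1
  funext g
  simp

end Pool.Agent.Lib.MP_1ae3da_al.GM
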