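import Pool.Agent.Lib.MP_1ae3da_al.GT

/-! The normalised `Q`-functions come from virtual spin characters. -/

namespace Pool.Agent.Lib.MP_1ae3da_al.GM

open Equiv Module

namespace Spin

lemma rt2_ne : rt2 ≠ 0 := fun h => by
  have := rt2_mul
  rw [h, mul_zero] at this
  exact two_ne_zero this.symm

lemma qf_sup {k : ℕ} {ρ : Multiset ℕ} (h : qf k ρ ≠ 0) : ρ.sum = k ∧ ∀ m ∈ ρ, Odd m := by
  unfold qf at h
  split_ifs at h with h1
  · refine ⟨h1, fun m hm => ?_⟩
    by_contra hodd
    exact h (Multiset.prod_eq_zero (Multiset.mem_map.2 ⟨m, hm, if_neg hodd⟩))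
  · exact absurd rfl h

lemma conv_smul (a b : K) (F G : Multiset ℕ → K) (ρ : Multiset ℕ) :
    conv (fun x => a * F x) (fun x => b * G x) ρ = a * b * conv F G ρ := by
  unfold conv
  rw [← Multiset.sum_map_mul_left]
  congr 1
  exact Multiset.map_congr rfl fun w _ => by ring

lemma ls_sum {G : Type} [Group G] {Γ : Sg G} (h : LatG Γ) (e : ℤˣ) (S : G → Prop) (s : Finset ℕ)
    (U : ℕ → G → K) (hU : ∀ k ∈ s, Γ.LS e (U k) S) : Γ.LS e (∑ k ∈ s, U k) S := by
  classical
  induction s using Finset.induction_on with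
  | empty => exact h.zero e S
  | insert a s ha ih =>
    rw [Finset.sum_insert ha]
    exact h.add _ _ _ _ (hU a (Finset.mem_insert_self _ _))
      (ih fun k hk => hU k (Finset.mem_insert_of_mem hk))

lemma ls_sign {G : Type} [Group G] {Γ : Sg G} (h : LatG Γ) (e : ℤˣ) (S : G → Prop) (k : ℕ)
    (U : G → K) (hU : Γ.LS e U S) : Γ.LS e (fun x => (-1) ^ k * U x) S := by
  rcases Nat.even_or_odd k with hk | hk
  · simpa [hk.neg_one_pow] using hU
  · simp only [hk.neg_one_pow, neg_one_mul]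
    exact h.neg e U S hU

variable {Ω : Type} [Fintype Ω] [DecidableEq Ω] {X : Type} [Group X] [Finite X]
  {C : Cover Ω X} {τ : X → K}

lemma odd_of (hcb : CbSt) (I : Finset Ω) (hI : I.Nonempty)
    (h : ((-1 : ℤˣ)) ^ (I.card + 1) = -1) : ∃ t, (C.sgI I).sg t = -1 := by
  apply (hcb Ω X C).odd
  have := hI.card_pos
  by_contra hcon
  have h1 : I.card = 1 := by omega
  rw [h1] at h
  exact absurd h (by decide)

lemma odd_iff (hpa : PermASt) (I : Finset Ω) (x : C.sub I) :
    (∀ m ∈ ty (C.π x), Odd m) ↔ ∀ m ∈ tyI I (C.π x), Odd m := by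
  rw [(hpa Ω).tyI_eq I (C.π x) x.2]
  constructor
  · exact fun h m hm => h m (Multiset.mem_add.2 (Or.inl hm))
  · intro h m hm
    rcases Multiset.mem_add.1 hm with hm | hm
    · exact h m hm
    · rw [Multiset.eq_of_mem_replicate hm]; exact odd_one

/-- multiplication by a basic function. -/
lemma mulB (hpr : ∀ e, ProdSt e) (hlat : LatSt) (hconv : ConvSt) (hcb : CbSt) (hpa : PermASt)
    (hτ : Tau C τ) (I J : Finset Ω) (hd : Disjoint I J) (hI : I.Nonempty) (e : ℤˣ)
    (F : Multiset ℕ → K) (hF : ∀ ρ, F ρ ≠ 0 → ρ.sum = J.card) (P : Multiset ℕ → Prop)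
    (h : (C.sgI J).LS e (fun y => τ y * F (tyI J (C.π y))) fun y => P (tyI J (C.π y))) :
    (C.sgI (I ∪ J)).LS ((-1) ^ (I.card + 1) * e)
      (fun g => τ g * (rt2⁻¹ * conv (qf I.card) F (tyI (I ∪ J) (C.π g))))
      fun g => ∃ ρ, P ρ ∧ tyI (I ∪ J) (C.π g) = I.card ::ₘ ρ := by
  classical
  letI := Fintype.ofFinite (C.sub I)
  letI := Fintype.ofFinite (C.sub J)
  letI := Fintype.ofFinite (C.sub (I ∪ J))
  obtain ⟨T, ha, hb⟩ := (hcb Ω X C).tri I J hd
  have h1 := hpr ((-1) ^ (I.card + 1)) _ _ _ _ _ _ T e _ _ _ _ (odd_of hcb I hI) (hτ.bs I hI) h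
  have h2 := hconv Ω X C τ hτ I J T (fun ρ => rt2⁻¹ * qf I.card ρ) F hd ha hb
    (fun ρ hρ => (qf_sup (right_ne_zero_of_mul hρ)).1) hF
  have h3 : ∀ ρ, conv (fun ρ => rt2⁻¹ * qf I.card ρ) F ρ = rt2⁻¹ * conv (qf I.card) F ρ := by
    intro ρ
    have := conv_smul rt2⁻¹ 1 (qf I.card) F ρ
    simpa using this
  rw [funext h2] at h1
  simp only [h3] at h1
  refine (hlat _ _).mono _ _ _ _ ?_ h1
  rintro g ⟨x, y, k, j, hx, hy, e1⟩
  refine ⟨_, hy, ?_⟩
  have e2 : C.π g = C.π k * (C.π x * C.π y) * (C.π k)⁻¹ := by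
    have := congrArg (fun u : C.sub (I ∪ J) => C.π u) e1
    simp only [Subgroup.coe_mul, map_mul, SubgroupClass.coe_pow, map_pow, Cover.sgI_z, C.πz,
      one_pow, one_mul, ha, hb] at this
    rw [← this, mul_inv_cancel_right]
  have e3 : ty (C.π g) = ty (C.π x * C.π y) :=
    (((hpa Ω).conj _ _).1 (isConj_iff.2 ⟨_, e2.symm⟩)).symm
  have e4 := (hpa Ω).tyI_mul I J _ _ hd x.2 y.2
  rw [tyI, e3, ← tyI, e4, hx, Multiset.singleton_add]

/-- the adjoint of multiplication by a basic function. -/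
lemma perpB (hpe : ∀ e, PerpSt e) (hcb : CbSt) (hpa : PermASt)
    (hτ : Tau C τ) (I J : Finset Ω) (hd : Disjoint I J) (hI : I.Nonempty) (e : ℤˣ)
    (F : Multiset ℕ → K) (S : C.sub (I ∪ J) → Prop)
    (h : (C.sgI (I ∪ J)).LS ((-1) ^ (I.card + 1) * e)
      (fun y => τ y * F (tyI (I ∪ J) (C.π y))) S) :
    (C.sgI J).LS e (fun y => τ y * (rt2⁻¹ * perp I.card F (tyI J (C.π y)))) fun _ => True := by
  classical
  letI := Fintype.ofFinite (C.sub I)
  obtain ⟨T, ha, hb⟩ := (hcb Ω X C).tri I J hd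
  have h1 := hpe ((-1) ^ (I.card + 1)) _ _ _ _ _ _ T e _ _ _ _ (odd_of hcb I hI) (hτ.bs I hI) h
  convert h1 using 1
  funext y
  rw [perp, ← (hcb Ω X C).dict I, Tri.prp, Finset.mul_sum, Finset.mul_sum, Finset.mul_sum,
    Finset.mul_sum]
  refine Finset.sum_congr rfl fun x _ => ?_
  have e1 : tyI I (C.π (x⁻¹ : C.sub I)) = tyI I (C.π x) := by
    rw [tyI, tyI, Subgroup.coe_inv, map_inv, (hpa Ω).inv]
  rw [e1, Subgroup.coe_mul, ha, hb, hτ.mul I J hd x x.2 y y.2, map_mul,
    (hpa Ω).tyI_mul I J _ _ hd x.2 y.2, Subgroup.coe_inv, hτ.inv]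
  by_cases hq : qf I.card (tyI I (C.π x)) = 0
  · simp [hq]
  · have := hτ.sq1 x ((odd_iff hpa I x).2 (qf_sup hq).2)
    linear_combination (-(Fintype.card (C.sub I) : K)⁻¹ * rt2⁻¹ * qf I.card (tyI I (C.π x)) *
      τ y * F (tyI I (C.π x) + tyI J (C.π y))) * this

end Spin

open Spin

theorem spin (hlat : LatSt) (hprP : ProdSt 1) (hprM : ProdSt (-1)) (hpeP : PerpSt 1)
    (hpeM : PerpSt (-1)) (hconv : ConvSt) (hcb : CbSt) (hpa : PermASt) (hav : AvSt) : SpinSt := by
  have hpr : ∀ e, ProdSt e := fun e => by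
    rcases Int.units_eq_one_or e with rfl | rfl <;> assumption
  have hpe : ∀ e, PerpSt e := fun e => by
    rcases Int.units_eq_one_or e with rfl | rfl <;> assumption
  intro Ω _ _ X _ _ C τ hτ l
  induction l with
  | nil =>
    intro _ I hI
    obtain rfl : I = ∅ := Finset.card_eq_zero.1 hI
    have h0 : ∀ x : C.sub ∅, tyI ∅ (C.π x) = 0 := by
      intro x
      have h1 := (hpa Ω).tyI_sum ∅ (C.π x) x.2
      have h2 : C.π x = 1 := Equiv.ext fun i => x.2 i (by simp)
      rw [h2, tyI, (hpa Ω).one]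
      simp
    simp only [h0, UQ, if_true, mul_one, List.sum_nil, List.length_nil, add_zero, pow_zero]
    exact (hlat _ _).mono _ _ _ _ (fun _ _ => by simp) hτ.bs0
  | cons j l ih =>
    intro h0 I hI
    have hj : 0 < j := Nat.pos_of_ne_zero fun e => h0 (by simp [e])
    have hl : 0 ∉ l := fun e => h0 (List.mem_cons_of_mem _ e)
    rw [List.sum_cons] at hI
    have hsup : ∀ ρ, UQ l ρ ≠ 0 → ρ.sum = l.sum := fun ρ h => (hav.sup l ρ h).1
    have hterm : ∀ k ∈ Finset.range (l.sum + 1), (C.sgI I).LS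
        ((-1) ^ ((j :: l).sum + (j :: l).length))
        (fun x => (-1) ^ k * (τ x * (rt2⁻¹ * conv (qf (j + k)) (perp k (UQ l)) (tyI I (C.π x)))))
        fun x => tyI I (C.π x) = (j :: l : List ℕ) := by
      intro k hk
      have hk' : k ≤ l.sum := Nat.lt_succ_iff.1 (Finset.mem_range.1 hk)
      apply ls_sign (hlat _ _)
      obtain ⟨I1, hI1, c1⟩ := Finset.exists_subset_card_eq (s := I) (n := j + k) (by omega)
      obtain ⟨J, hd, rfl⟩ : ∃ J, Disjoint I1 J ∧ I1 ∪ J = I :=
        ⟨I \ I1, Finset.disjoint_sdiff, Finset.union_sdiff_of_subset hI1⟩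
      have cJ : k + J.card = l.sum := by
        rw [Finset.card_union_of_disjoint hd] at hI; omega
      have hne : I1.Nonempty := Finset.card_pos.1 (by omega)
      rcases Nat.eq_zero_or_pos k with rfl | hk0
      · have h1 := mulB hpr hlat hconv hcb hpa hτ I1 J hd hne _ (UQ l)
          (fun ρ h => by rw [hsup ρ h]; omega) (fun ρ => ρ = (l : Multiset ℕ))
          (ih hl J (by omega))
        rw [hav.perp_zero, ← c1]
        have e : ((-1 : ℤˣ)) ^ (I1.card + 1) * (-1) ^ (l.sum + l.length) =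
            (-1) ^ ((j :: l).sum + (j :: l).length) := by
          rw [← pow_add, c1, List.sum_cons, List.length_cons]
          congr 1; omega
        rw [e] at h1
        refine (hlat _ _).mono _ _ _ _ ?_ h1
        rintro g ⟨ρ, rfl, e1⟩
        rw [e1, c1]; rfl
      · obtain ⟨L, hL, cL⟩ := Finset.exists_subset_card_eq (s := I1) (n := k) (by omega)
        have hdL : Disjoint L J := hd.mono_left hL
        have h1 := ih hl (L ∪ J) (by rw [Finset.card_union_of_disjoint hdL]; omega)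
        have e : ((-1 : ℤˣ)) ^ (l.sum + l.length) =
            (-1) ^ (L.card + 1) * ((-1) ^ (L.card + 1) * (-1) ^ (l.sum + l.length)) := by
          rw [← mul_assoc, Int.units_mul_self, one_mul]
        rw [e] at h1
        have h2 := perpB hpe hcb hpa hτ L J hdL (Finset.card_pos.1 (by omega)) _ _ _ h1
        have h3 := mulB hpr hlat hconv hcb hpa hτ I1 J hd hne _
          (fun ρ => rt2⁻¹ * perp L.card (UQ l) ρ)
          (fun ρ h => by
            have := hav.sup_perp L.card l.sum _ hsup ρ (right_ne_zero_of_mul h)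
            omega) (fun _ => True) h2
        have h4 := (hlat _ _).flip _ _ _
          (fun x : C.sub (I1 ∪ J) => tyI (I1 ∪ J) (C.π x) = (j :: l : List ℕ)) h3
        have e2 : -((-1 : ℤˣ) ^ (I1.card + 1) * ((-1) ^ (L.card + 1) * (-1) ^ (l.sum + l.length)))
            = (-1) ^ ((j :: l).sum + (j :: l).length) := by
          rw [c1, cL, List.sum_cons, List.length_cons]
          simp only [pow_add, pow_one]
          have := Int.units_mul_self ((-1 : ℤˣ) ^ k)
          generalize ((-1 : ℤˣ) ^ k) = a at *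
          generalize ((-1 : ℤˣ) ^ j) = b
          generalize ((-1 : ℤˣ) ^ l.sum) = c
          generalize ((-1 : ℤˣ) ^ l.length) = d
          revert a b c d
          decide
        rw [e2] at h4
        convert h4 using 1
        funext x
        have := conv_smul 1 rt2⁻¹ (qf I1.card) (perp L.card (UQ l)) (tyI (I1 ∪ J) (C.π x))
        simp only [one_mul] at this
        rw [Pi.smul_apply, this, smul_eq_mul, c1, cL]
        have := rt2_ne
        field_simp
    convert ls_sum (hlat _ _) _ _ _ _ hterm using 1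
    funext x
    rw [Finset.sum_apply, UQ]
    simp only [Finset.mul_sum]
    exact Finset.sum_congr rfl fun k _ => by ring

end Pool.Agent.Lib.MP_1ae3da_al.GM
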