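import Pool.Agent.Lib.MP_1ae3da_al.GT

/-! Square roots of integers and the action of Galois automorphisms on them. -/

namespace Pool.Agent.Lib.MP_1ae3da_al.GM

open Equiv

namespace Sq

lemma prim (N : ℕ) (hN : 0 < N) : ∃ ζ : K, IsPrimitiveRoot ζ N := by
  have : NeZero (N : K) := ⟨by exact_mod_cast hN.ne'⟩
  have : NeZero N := ⟨hN.ne'⟩
  exact HasEnoughRootsOfUnity.exists_primitiveRoot K N

lemma ex (M : ℕ) (σ : Ga) (hM : 0 < M) : ∃ s, Ex M σ s := by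
  obtain ⟨k, -, hk⟩ := exists_exponent σ M hM
  exact ⟨k, hk⟩

lemma cop (M : ℕ) (σ : Ga) (s : ℕ) (hM : 0 < M) (h : Ex M σ s) : s.Coprime M := by
  obtain ⟨ζ, hζ⟩ := prim M hM
  have h1 : IsPrimitiveRoot (σ ζ) M := hζ.map_of_injective σ.injective
  rw [h ζ hζ.pow_eq_one] at h1
  exact (hζ.pow_iff_coprime hM s).mp h1

lemma dvd (M M' : ℕ) (σ : Ga) (s : ℕ) (hd : M ∣ M') (h : Ex M' σ s) : Ex M σ s := by
  obtain ⟨c, rfl⟩ := hd
  intro ξ hξ
  exact h ξ (by rw [pow_mul, hξ, one_pow])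

lemma root (D : ℤ) : ∃ y : K, y ^ 2 = D := by
  obtain ⟨y, hy⟩ := IsAlgClosed.exists_eq_mul_self (D : K)
  exact ⟨y, by rw [hy, sq]⟩

lemma eps_of (D : ℤ) (σ : Ga) (u : ℤˣ) (y : K) (hy : y ^ 2 = D) (h : σ y = uK u * y) :
    Eps D σ u := by
  intro y' hy'
  rcases sq_eq_sq_iff_eq_or_eq_neg.1 (hy'.trans hy.symm) with rfl | rfl
  · exact h
  · rw [map_neg, h, mul_neg]

lemma eps_ex (D : ℤ) (σ : Ga) : ∃ u, Eps D σ u := by
  obtain ⟨y, hy⟩ := root D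
  have h : (σ y) ^ 2 = y ^ 2 := by rw [← map_pow, hy, map_intCast]
  rcases sq_eq_sq_iff_eq_or_eq_neg.1 h with h | h
  · exact ⟨1, eps_of D σ 1 y hy (by simpa using h)⟩
  · exact ⟨-1, eps_of D σ (-1) y hy (by simpa using h)⟩

lemma eps_uniq (D : ℤ) (σ : Ga) (u v : ℤˣ) (hD : D ≠ 0) (hu : Eps D σ u) (hv : Eps D σ v) :
    u = v := by
  obtain ⟨y, hy⟩ := root D
  have h0 : y ≠ 0 := by
    rintro rfl
    exact hD (by exact_mod_cast (by simpa using hy.symm : (D : K) = 0))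
  exact uK_inj (mul_right_cancel₀ h0 ((hu y hy).symm.trans (hv y hy)))

lemma eps_mul (D D' : ℤ) (σ : Ga) (u v : ℤˣ) (hu : Eps D σ u) (hv : Eps D' σ v) :
    Eps (D * D') σ (u * v) := by
  obtain ⟨y, hy⟩ := root D
  obtain ⟨y', hy'⟩ := root D'
  refine eps_of _ σ _ (y * y') (by rw [mul_pow, hy, hy', Int.cast_mul]) ?_
  rw [map_mul, hu y hy, hv y' hy', uK_mul]; ring

lemma eps_sq (e : ℤ) (σ : Ga) : Eps (e ^ 2) σ 1 :=
  eps_of _ σ _ (e : K) (by rw [Int.cast_pow]) (by simp)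

lemma eps_one (σ : Ga) : Eps 1 σ 1 := by simpa using eps_sq 1 σ

lemma eps_pow (D : ℤ) (σ : Ga) (u : ℤˣ) (k : ℕ) (h : Eps D σ u) : Eps (D ^ k) σ (u ^ k) := by
  induction k with
  | zero => simpa using eps_one σ
  | succ k ih => rw [pow_succ, pow_succ]; exact eps_mul _ _ σ _ _ ih h

lemma eps_prod (ι : Type) (s : Multiset ι) (D : ι → ℤ) (u : ι → ℤˣ) (σ : Ga)
    (h : ∀ i ∈ s, Eps (D i) σ (u i)) : Eps (s.map D).prod σ (s.map u).prod := by
  induction s using Multiset.induction_on with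
  | empty => simpa using eps_one σ
  | cons a s ih =>
    rw [Multiset.map_cons, Multiset.map_cons, Multiset.prod_cons, Multiset.prod_cons]
    exact eps_mul _ _ σ _ _ (h a (Multiset.mem_cons_self _ _))
      (ih fun i hi => h i (Multiset.mem_cons_of_mem hi))

lemma chi_eq (p : ℕ) [Fact p.Prime] (a : ZMod p) (ha : a ≠ 0) :
    ((chi a : ℤˣ) : ℤ) = quadraticChar (ZMod p) a := by
  unfold chi
  split_ifs with h
  · rw [(quadraticChar_one_iff_isSquare ha).2 h]; rfl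
  · rw [quadraticChar_neg_one_iff_not_isSquare.2 h]; rfl

lemma chi_mul (p : ℕ) (a b : ZMod p) (hp : p.Prime) (ha : a ≠ 0) (hb : b ≠ 0) :
    chi (a * b) = chi a * chi b := by
  have : Fact p.Prime := ⟨hp⟩
  apply Units.ext
  rw [Units.val_mul, chi_eq p _ ha, chi_eq p _ hb, chi_eq p _ (mul_ne_zero ha hb), map_mul]

lemma chi_neg (p : ℕ) (hp : p.Prime) (h2 : p ≠ 2) : ∃ c : (ZMod p)ˣ, chi (c : ZMod p) = -1 := by
  have : Fact p.Prime := ⟨hp⟩
  obtain ⟨c, hc⟩ := quadraticChar_exists_neg_one' (F := ZMod p) (by rwa [ZMod.ringChar_zmod_n])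
  exact ⟨c, Units.ext (by rw [chi_eq p _ c.ne_zero, hc]; rfl)⟩

lemma pst' (p M : ℕ) (σ : Ga) (s : ℕ) (hp : p.Prime) (h2 : p ≠ 2) (hd : p ∣ M) (h : Ex M σ s) :
    Eps (pst p) σ (chi (s : ZMod p)) := by
  have : Fact p.Prime := ⟨hp⟩
  have h' := dvd p M σ s hd h
  have hc := cop p σ s hp.pos h'
  obtain ⟨ζ, hζ⟩ := prim p hp.pos
  have hr : ringChar (ZMod p) ≠ 2 := by rwa [ZMod.ringChar_zmod_n]
  set χ : MulChar (ZMod p) K := (quadraticChar (ZMod p)).ringHomComp (Int.castRingHom K) with hχ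
  have h1 : χ ≠ 1 :=
    (MulChar.ringHomComp_ne_one_iff (Int.castRingHom K).injective_int).2 (quadraticChar_ne_one hr)
  have hq : χ.IsQuadratic := (quadraticChar_isQuadratic (ZMod p)).comp _
  have hψ := AddChar.zmodChar_primitive_of_primitive_root p hζ
  set ψ := AddChar.zmodChar p ((IsPrimitiveRoot.iff_def ζ p).mp hζ).left with hψd
  have hodd : p % 2 = 1 := hp.eq_two_or_odd.resolve_left h2
  refine eps_of _ σ _ (gaussSum χ ψ) ?_ ?_
  · rw [gaussSum_sq h1 hq hψ, hχ, MulChar.ringHomComp_apply, quadraticChar_neg_one hr,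
      ZMod.card, ZMod.χ₄_eq_neg_one_pow hodd, pst, show (p - 1) / 2 = p / 2 by omega]
    simp
  · have hs : (s : ZMod p) ≠ 0 := by
      rw [Ne, ZMod.natCast_eq_zero_iff]
      exact (Nat.Prime.coprime_iff_not_dvd hp).1 hc.symm
    have e1 : σ (gaussSum χ ψ) = gaussSum χ (ψ.mulShift (Units.mk0 _ hs : (ZMod p)ˣ)) := by
      simp only [gaussSum, map_sum, map_mul]
      refine Finset.sum_congr rfl fun a _ => ?_
      congr 1
      · rw [hχ, MulChar.ringHomComp_apply]; simp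
      · rw [h' (ψ a) (by
          rw [hψd, AddChar.zmodChar_apply, ← pow_mul, mul_comm, pow_mul, hζ.pow_eq_one, one_pow]),
          AddChar.mulShift_apply, Units.val_mk0, ← nsmul_eq_mul, AddChar.map_nsmul_eq_pow]
    have e2 := gaussSum_mulShift χ ψ (Units.mk0 _ hs : (ZMod p)ˣ)
    have e3 : χ (Units.mk0 _ hs : (ZMod p)ˣ) = uK (chi (s : ZMod p)) := by
      rw [hχ, MulChar.ringHomComp_apply, Units.val_mk0, ← chi_eq p _ hs]; rfl
    rw [e3] at e2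
    rw [e1, ← e2, ← mul_assoc, uK_sq, one_mul]

lemma uK_pow (k : ℕ) : uK ((-1) ^ k) = (-1) ^ k := by simp [uK]

lemma neg' (M : ℕ) (σ : Ga) (s : ℕ) (hd : 4 ∣ M) (h : Ex M σ s) :
    Eps (-1) σ ((-1) ^ ((s - 1) / 2)) := by
  have h' := dvd 4 M σ s hd h
  have hc := cop 4 σ s (by norm_num) h'
  have hs : s % 2 = 1 := by
    have : s.Coprime 2 := hc.coprime_dvd_right (by norm_num)
    exact Nat.odd_iff.1 (Nat.coprime_two_right.1 this)
  obtain ⟨y, hy⟩ := root (-1)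
  refine eps_of _ σ _ y hy ?_
  have hy' : y ^ 2 = -1 := by simpa using hy
  rw [h' y (by rw [show 4 = 2 * 2 from rfl, pow_mul, hy']; norm_num), uK_pow, ← hy', ← pow_mul,
    ← pow_succ]
  congr 1; omega

lemma sign_rev (r : ℕ) : Perm.sign (Fin.revPerm : Perm (Fin r)) = (-1) ^ r.choose 2 := by
  rw [Perm.sign_eq_prod_prod_Iio]
  have : ∀ j : Fin r, ∏ i ∈ Finset.Iio j,
      (if (Fin.revPerm : Perm (Fin r)) i < Fin.revPerm j then (1 : ℤˣ) else -1) = (-1) ^ (j : ℕ) := by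
    intro j
    rw [Finset.prod_congr rfl (g := fun _ => -1), Finset.prod_const, Fin.card_Iio]
    intro i hi
    rw [if_neg]
    simpa using (Finset.mem_Iio.1 hi).le
  rw [Finset.prod_congr rfl fun j _ => this j, Finset.prod_pow_eq_pow_sum,
    Fin.sum_univ_eq_sum_range (fun j => j), Finset.sum_range_id, Nat.choose_two_right]

lemma det_sq (n : ℕ) (ζ : K) (hζ : IsPrimitiveRoot ζ (n + 1)) :
    (Matrix.of fun i j : Fin (n + 1) => ζ ^ ((i : ℕ) * j)).det ^ 2 =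
      (-1) ^ n.choose 2 * ((n + 1 : ℕ) : K) ^ (n + 1) := by
  set ν : Perm (Fin (n + 1)) := finRotate (n + 1) * Fin.revPerm with hν
  have hνs : Perm.sign ν = (-1) ^ n.choose 2 := by
    rw [hν, map_mul, sign_finRotate, sign_rev, Nat.choose_succ_succ' n 1, Nat.choose_one_right,
      pow_add, Nat.add_sub_cancel, ← mul_assoc, Int.units_mul_self, one_mul]
  have hν2 : ∀ i k : Fin (n + 1), ν i = k ↔ n + 1 ∣ (i : ℕ) + k := by
    intro i k
    have hi := i.2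
    have hk := k.2
    rw [hν, Perm.mul_apply, finRotate_apply, Fin.ext_iff, Fin.val_add, Fin.revPerm_apply,
      Fin.val_rev, Fin.val_one', Nat.add_mod_mod]
    rcases Nat.eq_zero_or_pos (i : ℕ) with h0 | h0
    · rw [h0, show n + 1 - (0 + 1) + 1 = n + 1 by omega, Nat.mod_self, zero_add]
      exact ⟨fun h => h ▸ dvd_zero _, fun h => (Nat.eq_zero_of_dvd_of_lt h hk).symm⟩
    · rw [Nat.mod_eq_of_lt (by omega)]
      refine ⟨fun h => ⟨1, by omega⟩, fun ⟨c, hc⟩ => ?_⟩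
      have : c = 1 := by
        rcases c with _ | _ | c
        · omega
        · rfl
        · nlinarith
      subst this; omega
  have hm : (Matrix.of fun i j : Fin (n + 1) => ζ ^ ((i : ℕ) * j)) *
      (Matrix.of fun i j : Fin (n + 1) => ζ ^ ((i : ℕ) * j)) =
      ((n + 1 : ℕ) : K) • (1 : Matrix (Fin (n + 1)) (Fin (n + 1)) K).submatrix ν id := by
    ext i k
    have e : ∀ j : Fin (n + 1), ζ ^ ((i : ℕ) * j) * ζ ^ ((j : ℕ) * k) = (ζ ^ ((i : ℕ) + k)) ^ (j : ℕ) := by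
      intro j; rw [← pow_add, ← pow_mul]; congr 1; ring
    simp only [Matrix.mul_apply, Matrix.of_apply, e, Matrix.smul_apply, Matrix.submatrix_apply,
      id, Matrix.one_apply, hν2, smul_eq_mul]
    rw [Fin.sum_univ_eq_sum_range (fun j => (ζ ^ ((i : ℕ) + k)) ^ j)]
    split_ifs with h
    · rw [(hζ.pow_eq_one_iff_dvd _).2 h]; simp
    · have h1 : ζ ^ ((i : ℕ) + k) - 1 ≠ 0 := sub_ne_zero.2 (mt (hζ.pow_eq_one_iff_dvd _).1 h)
      have h2 := mul_geom_sum (ζ ^ ((i : ℕ) + k)) (n + 1)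
      rw [← pow_mul, mul_comm _ (n + 1), pow_mul, hζ.pow_eq_one, one_pow, sub_self] at h2
      rw [(mul_eq_zero.1 h2).resolve_left h1, mul_zero]
  rw [sq, ← Matrix.det_mul, hm, Matrix.det_smul, Matrix.det_permute, hνs, Matrix.det_one,
    Fintype.card_fin]
  simp [mul_comm]

lemma zol' (r M : ℕ) (σ : Ga) (s : ℕ) (hr : 0 < r) (hd : r ∣ M) (h : Ex M σ s) :
    Eps ((-1) ^ (r - 1).choose 2 * (r : ℤ) ^ r) σ (zm r s) := by
  have h' := dvd r M σ s hd h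
  have hc := cop r σ s hr h'
  obtain ⟨ζ, hζ⟩ := prim r hr
  have hex : ∃ e : Perm (Fin r), ∀ j, (e j : ℕ) = s * j % r := by
    refine ⟨Equiv.ofBijective (fun j => ⟨s * j % r, Nat.mod_lt _ hr⟩)
      (Finite.injective_iff_bijective.1 fun i j hij => ?_), fun _ => rfl⟩
    have h1 : s * i ≡ s * j [MOD r] := congrArg Fin.val hij
    exact Fin.ext (Nat.ModEq.eq_of_lt_of_lt (Nat.ModEq.cancel_left_of_coprime hc.symm h1) i.2 j.2)
  rw [zm, dif_pos hex]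
  have he := hex.choose_spec
  generalize hex.choose = e at he
  obtain ⟨n, rfl⟩ : ∃ n, r = n + 1 := ⟨r - 1, by omega⟩
  refine eps_of _ σ _ _ ((det_sq n ζ hζ).trans (by simp)) ?_
  rw [uK, ← Matrix.det_permute]
  refine (RingHom.map_det σ.toRingHom _).trans ?_
  congr 1
  ext i j
  simp only [RingHom.mapMatrix_apply, Matrix.map_apply, Matrix.of_apply, Matrix.submatrix_apply,
    id, he, RingEquiv.toRingHom_eq_coe, RingHom.coe_coe, map_pow, h' ζ hζ.pow_eq_one]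
  rw [pow_mul, pow_mul, ← pow_eq_pow_mod _ hζ.pow_eq_one, ← pow_mul ζ s]

/-- the action on the square root of `w` is given by the Jacobi symbol. -/
def Q (σ : Ga) (s : ℕ) (w : ℤ) : Prop := ∃ u : ℤˣ, (u : ℤ) = jacobiSym w s ∧ Eps w σ u

lemma Q.mul {σ : Ga} {s : ℕ} {a b : ℤ} (ha : Q σ s a) (hb : Q σ s b) : Q σ s (a * b) := by
  obtain ⟨u, h1, h2⟩ := ha
  obtain ⟨v, h3, h4⟩ := hb
  exact ⟨u * v, by rw [Units.val_mul, h1, h3, jacobiSym.mul_left], eps_mul _ _ σ _ _ h2 h4⟩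

lemma odd_of {σ : Ga} {s : ℕ} (h : Ex 8 σ s) : s % 2 = 1 := by
  have : s.Coprime 2 := (cop 8 σ s (by norm_num) h).coprime_dvd_right (by norm_num)
  exact Nat.odd_iff.1 (Nat.coprime_two_right.1 this)

lemma Q_neg {σ : Ga} {s : ℕ} (h : Ex 8 σ s) : Q σ s (-1) := by
  have hs := odd_of h
  refine ⟨_, ?_, neg' 8 σ s (by norm_num) h⟩
  rw [jacobiSym.at_neg_one (Nat.odd_iff.2 hs), ZMod.χ₄_eq_neg_one_pow hs,
    show (s - 1) / 2 = s / 2 by omega]
  simp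

lemma Q_two {σ : Ga} {s : ℕ} (h : Ex 8 σ s) : Q σ s 2 := by
  have hs := odd_of h
  obtain ⟨ζ, hζ⟩ := prim 8 (by norm_num)
  have h4 : ζ ^ 4 = -1 := (hζ.pow (by norm_num) (show 8 = 4 * 2 from rfl)).eq_neg_one_of_two_right
  have hy : (ζ - ζ ^ 3) ^ 2 = ((2 : ℤ) : K) := by
    push_cast
    linear_combination (ζ ^ 2 - 2) * h4
  have hσ : σ (ζ - ζ ^ 3) = ζ ^ (s % 8) - (ζ ^ (s % 8)) ^ 3 := by
    rw [map_sub, map_pow, h ζ hζ.pow_eq_one, ← pow_eq_pow_mod _ hζ.pow_eq_one]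
  have hj : jacobiSym 2 s = if s % 8 = 1 ∨ s % 8 = 7 then 1 else -1 := by
    rw [jacobiSym.at_two (Nat.odd_iff.2 hs), ZMod.χ₈_nat_eq_if_mod_eight, if_neg (by omega)]
  have : s % 8 = 1 ∨ s % 8 = 7 ∨ s % 8 = 3 ∨ s % 8 = 5 := by omega
  rcases this with h8 | h8 | h8 | h8 <;> rw [h8] at hσ hj
  · exact ⟨1, by rw [hj]; simp, eps_of _ σ _ _ hy (by rw [hσ]; simp)⟩
  · refine ⟨1, by rw [hj]; simp, eps_of _ σ _ _ hy ?_⟩
    rw [hσ, uK_one]
    linear_combination (ζ ^ 3 - ζ ^ 17 + ζ ^ 13 - ζ ^ 9 + ζ ^ 5 - ζ) * h4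
  · refine ⟨-1, by rw [hj]; simp, eps_of _ σ _ _ hy ?_⟩
    rw [hσ, uK_neg, uK_one]
    linear_combination (-ζ ^ 5 + ζ) * h4
  · refine ⟨-1, by rw [hj]; simp, eps_of _ σ _ _ hy ?_⟩
    rw [hσ, uK_neg, uK_one]
    linear_combination (ζ - ζ ^ 11 + ζ ^ 7 - ζ ^ 3) * h4

lemma Q_pow {σ : Ga} {s : ℕ} {a : ℤ} (ha : Q σ s a) (k : ℕ) : Q σ s (a ^ k) := by
  induction k with
  | zero => exact ⟨1, by simp, by simpa using eps_one σ⟩
  | succ k ih => rw [pow_succ]; exact ih.mul ha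

lemma Q_prime {σ : Ga} {s l : ℕ} (hl : l.Prime) (h : Ex 8 σ s) (h' : Ex l σ s) : Q σ s l := by
  rcases eq_or_ne l 2 with rfl | h2
  · exact Q_two h
  have : Fact l.Prime := ⟨hl⟩
  have hs := odd_of h
  have hodd : l % 2 = 1 := hl.eq_two_or_odd.resolve_left h2
  have hs0 : (s : ZMod l) ≠ 0 := by
    rw [Ne, ZMod.natCast_eq_zero_iff]
    exact (Nat.Prime.coprime_iff_not_dvd hl).1 (cop l σ s hl.pos h').symm
  have h1 : Q σ s (pst l) := by
    refine ⟨_, ?_, pst' l l σ s hl h2 dvd_rfl h'⟩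
    rw [chi_eq l _ hs0, pst, jacobiSym.mul_left, jacobiSym.pow_left,
      jacobiSym.at_neg_one (Nat.odd_iff.2 hs), ZMod.χ₄_eq_neg_one_pow hs,
      jacobiSym.quadratic_reciprocity (Nat.odd_iff.2 hodd) (Nat.odd_iff.2 hs),
      show (l - 1) / 2 = l / 2 by omega, ← pow_mul, ← mul_assoc, ← pow_add, mul_comm (s / 2),
      ← two_mul, pow_mul, neg_one_sq, one_pow, one_mul, ← jacobiSym.legendreSym.to_jacobiSym,
      legendreSym, Int.cast_natCast]
  have h3 := (Q_pow (Q_neg h) ((l - 1) / 2)).mul h1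
  rwa [pst, ← mul_assoc, ← pow_add, ← two_mul, pow_mul, neg_one_sq, one_pow, one_mul] at h3

lemma Q_nat {σ : Ga} {s : ℕ} (h : Ex 8 σ s) (n : ℕ) : n ≠ 0 → Ex n σ s → Q σ s n := by
  induction n using induction_on_primes with
  | zero => exact fun h => absurd rfl h
  | one => exact fun _ _ => ⟨1, by simp, by simpa using eps_one σ⟩
  | prime_mul l a hl ih =>
    intro h0 h1
    rw [Nat.cast_mul]
    exact (Q_prime hl h (dvd _ _ σ s (dvd_mul_right _ _) h1)).mul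
      (ih (right_ne_zero_of_mul h0) (dvd _ _ σ s (dvd_mul_left _ _) h1))

lemma Q_int {σ : Ga} {s : ℕ} (w : ℤ) (h0 : w ≠ 0) (h : Ex (8 * w.natAbs) σ s) : Q σ s w := by
  have h8 := dvd _ _ σ s (dvd_mul_right _ _) h
  have h1 := Q_nat h8 w.natAbs (Int.natAbs_ne_zero.2 h0) (dvd _ _ σ s (dvd_mul_left _ _) h)
  rcases Int.natAbs_eq w with e | e
  · rwa [e]
  · have := (Q_neg h8).mul h1
    rwa [neg_one_mul, ← e] at this

lemma cmp' (p : ℕ) (D D' : ℤ) (σ : Ga) (u : ℤˣ) (hp : p.Prime) (h2 : p ≠ 2) (hσ : σ ∈ Hl p)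
    (hc : Cmp p D D') (h : Eps D σ u) : Eps D' σ u := by
  obtain ⟨j, w, h1, hw⟩ := hc
  have : NeZero p := ⟨hp.ne_zero⟩
  have hg : w.gcd p = 1 := by
    by_contra hg
    rw [jacobiSym.eq_zero_iff_not_coprime.2 hg] at hw
    exact zero_ne_one hw
  have h0 : w ≠ 0 := by
    rintro rfl
    exact hp.one_lt.ne' (by simpa using hg)
  have hcop : (8 * w.natAbs).Coprime p := by
    refine Nat.Coprime.mul_left ?_ hg
    exact Nat.Coprime.pow_left 3 ((Nat.coprime_primes Nat.prime_two hp).2 h2.symm)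
  obtain ⟨e, he⟩ := hσ _ hcop
  obtain ⟨v, hv, hv'⟩ := Q_int w h0 he
  rw [jacobiSym.pow_right, hw, one_pow] at hv
  obtain rfl : v = 1 := Units.ext hv
  have h3 : Eps (D * D') σ (1 * 1) := by
    rw [h1, mul_comm 2 j, pow_mul]
    exact eps_mul _ _ σ _ _ (eps_sq _ σ) hv'
  obtain ⟨u', hu'⟩ := eps_ex D' σ
  have h4 : D * D' ≠ 0 := by
    rw [h1]
    exact mul_ne_zero (pow_ne_zero _ (by exact_mod_cast hp.ne_zero)) h0
  have h5 := eps_uniq _ σ _ _ h4 (eps_mul _ _ σ _ _ h hu') h3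
  obtain rfl : u = u' := by
    rw [mul_one, mul_eq_one_iff_eq_inv, Int.units_inv_eq_self] at h5
    exact h5
  exact hu'

lemma mod' (p M : ℕ) (σ : Ga) (s : ℕ) (hp : p.Prime) (hσ : σ ∈ Hl p) (hd : p - 1 ∣ M)
    (h : Ex M σ s) : s ≡ 1 [MOD p - 1] := by
  have h1 := hp.one_lt
  have h' := dvd _ M σ s hd h
  obtain ⟨e, he⟩ := hσ (p - 1) (by
    obtain ⟨q, rfl⟩ : ∃ q, p = q + 1 := ⟨p - 1, by omega⟩
    simp)
  obtain ⟨ζ, hζ⟩ := prim (p - 1) (by omega)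
  have e1 : ζ ^ s = ζ ^ p ^ e := (h' ζ hζ.pow_eq_one).symm.trans (he ζ hζ.pow_eq_one)
  have e2 : s ≡ p ^ e [MOD p - 1] := by
    rw [pow_eq_pow_mod _ hζ.pow_eq_one, pow_eq_pow_mod (p ^ e) hζ.pow_eq_one] at e1
    exact hζ.pow_inj (Nat.mod_lt _ (by omega)) (Nat.mod_lt _ (by omega)) e1
  have e3 : p ≡ 1 [MOD p - 1] := ((Nat.modEq_iff_dvd' h1.le).2 dvd_rfl).symm
  exact e2.trans (by simpa using e3.pow e)

lemma hl' (p : ℕ) (σ : K ≃ₐ[ℚ] K) (hp : p.Prime) (hσ : σ ∈ NSV.H p) : σ.toRingEquiv ∈ Hl p := by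
  unfold NSV.H at hσ
  induction hσ using Subgroup.closure_induction with
  | mem x hx =>
    obtain ⟨e, he⟩ := hx
    exact fun m hm => ⟨e, fun ξ hξ => he m ξ hm hξ⟩
  | one => exact fun m _ => ⟨0, fun ξ _ => by simp⟩
  | mul x y _ _ hx hy =>
    intro m hm
    obtain ⟨e, he⟩ := hx m hm
    obtain ⟨f, hf⟩ := hy m hm
    refine ⟨e + f, fun ξ hξ => ?_⟩
    have h1 : x ξ = ξ ^ p ^ e := he ξ hξ
    have h2 : y ξ = ξ ^ p ^ f := hf ξ hξ
    change x (y ξ) = _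
    rw [h2, map_pow, h1, ← pow_mul, pow_add]
  | inv x _ hx =>
    intro m hm
    obtain ⟨e, he⟩ := hx m hm
    have hm0 : 0 < m := Nat.pos_of_ne_zero (by
      rintro rfl
      exact hp.one_lt.ne' (by simpa using hm))
    obtain ⟨t, ht⟩ : ∃ t, m.totient = t + 1 := ⟨m.totient - 1, by
      have := Nat.totient_pos.2 hm0; omega⟩
    refine ⟨t * e, fun ξ hξ => ?_⟩
    have h1 : x ξ = ξ ^ p ^ e := he ξ hξ
    change x.symm ξ = _
    rw [AlgEquiv.symm_apply_eq, map_pow, h1, ← pow_mul, ← pow_add,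
      show e + t * e = m.totient * e by rw [ht]; ring, pow_eq_pow_mod _ hξ, pow_mul]
    have h2 : (p ^ m.totient) ^ e ≡ 1 [MOD m] := by
      simpa using (Nat.ModEq.pow_totient hm.symm).pow e
    rw [h2, ← pow_eq_pow_mod _ hξ, pow_one]

end Sq

theorem sqSt : SqSt where
  ex := Sq.ex
  cop := Sq.cop
  dvd := Sq.dvd
  refl _ _ _ := by simp
  eps_ex := Sq.eps_ex
  eps_uniq := Sq.eps_uniq
  eps_refl D u hD h := Sq.eps_uniq D _ u 1 hD h fun _ _ => by simp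
  eps_of := Sq.eps_of
  eps_mul := Sq.eps_mul
  eps_sq := Sq.eps_sq
  eps_pow := Sq.eps_pow
  eps_prod := Sq.eps_prod
  pst := Sq.pst'
  neg := Sq.neg'
  zol := Sq.zol'
  cmp := Sq.cmp'
  mod := Sq.mod'
  hl := Sq.hl'
  chi_mul := Sq.chi_mul
  chi_neg := Sq.chi_neg

end Pool.Agent.Lib.MP_1ae3da_al.GM
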