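import Pool.Agent.Lib.MP_1ae3da_al.GT

/-! Basic facts on the Sylow subgroup of the local model. -/

namespace Pool.Agent.Lib.MP_1ae3da_al.GM

open Equiv

namespace SyA

variable {p k0 : ℕ} [Fact p.Prime] {B : Type} {lv : B → Fin k0}

lemma om_ext {w w' : Om p k0 lv} (h1 : w.1.1 = w'.1.1) (h2 : ∀ j, w.1.2 j = w'.1.2 j) : w = w' :=
  Subtype.ext (Prod.ext h1 (funext h2))

/-- truncation of a point at a coordinate. -/
def tr (j : Fin k0) (w : Om p k0 lv) : Om p k0 lv :=
  ⟨(w.1.1, fun i => if i < j then w.1.2 i else 0), fun i h => by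
    have := w.2 i h
    simp [this]⟩

/-- the zero point of a block. -/
def zp (b : B) : Om p k0 lv := ⟨(b, 0), fun _ _ => rfl⟩

lemma agree {f : Om p k0 lv → Om p k0 lv}
    (h : ∀ (w w' : Om p k0 lv) (j : Fin k0), w.1.1 = w'.1.1 →
      (∀ i < j, w.1.2 i = w'.1.2 i) → (f w).1.2 j - w.1.2 j = (f w').1.2 j - w'.1.2 j)
    {w w' : Om p k0 lv} (hb : w.1.1 = w'.1.1) (P : Fin k0 → Prop)
    (hP : ∀ i i', i' < i → P i → P i')
    (he : ∀ i, P i → (f w).1.2 i = (f w').1.2 i) : ∀ i, P i → w.1.2 i = w'.1.2 i := by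
  intro i
  induction i using WellFoundedLT.induction with
  | ind i ih =>
    intro hi
    have := h w w' i hb fun i' hi' => ih i' hi' (hP i i' hi' hi)
    rw [he i hi] at this
    exact sub_right_injective this

lemma card_fib (a : Fin k0) [Fintype {f : Fin k0 → ZMod p // ∀ j, a ≤ j → f j = 0}] :
    Fintype.card {f : Fin k0 → ZMod p // ∀ j, a ≤ j → f j = 0} = p ^ (a : ℕ) := by
  classical
  have e : {f : Fin k0 → ZMod p // ∀ j, a ≤ j → f j = 0} ≃ ({j : Fin k0 // j < a} → ZMod p) :=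
    { toFun := fun f j => f.1 j.1
      invFun := fun g => ⟨fun j => if h : j < a then g ⟨j, h⟩ else 0,
        fun j hj => dif_neg (not_lt.2 hj)⟩
      left_inv := fun f => Subtype.ext (funext fun j => by
        by_cases h : j < a
        · simp [h]
        · simp [h, f.2 j (not_lt.1 h)])
      right_inv := fun g => funext fun j => by simp [j.2] }
  rw [Fintype.card_congr e, Fintype.card_fun, ZMod.card, Fintype.card_subtype]
  congr 1
  rw [← Fin.card_Iio a]
  congr 1
  ext j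
  simp

lemma card [Fintype B] [DecidableEq B] :
    Fintype.card (Om p k0 lv) = ∑ b, p ^ (lv b : ℕ) := by
  classical
  have e : Om p k0 lv ≃ Σ b : B, {f : Fin k0 → ZMod p // ∀ j, lv b ≤ j → f j = 0} :=
    { toFun := fun w => ⟨w.1.1, ⟨w.1.2, w.2⟩⟩
      invFun := fun x => ⟨(x.1, x.2.1), x.2.2⟩
      left_inv := fun _ => rfl
      right_inv := fun _ => rfl }
  rw [Fintype.card_congr e, Fintype.card_sigma]
  exact Finset.sum_congr rfl fun b _ => card_fib (lv b)

lemma tp_mem [Finite B] (l : Lg p k0 lv) (h : Lg.tp l ∈ Qs p k0 lv) : l = 1 := by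
  classical
  obtain ⟨h1, h2⟩ := (mem_Qs _).1 h
  refine Lg.ext (Equiv.ext fun b => h1 (zp b)) (funext fun b => funext fun j => ?_)
  by_cases hj : lv b ≤ j
  · exact l.hc b j hj
  · have := h2 ⟨(b, Pi.single j 1), fun i hi => by
      have : i ≠ j := fun e => hj (e ▸ hi)
      simp [this]⟩ (zp b) j rfl fun i hi => by simp [zp, hi.ne]
    simp only [Lg.tp_apply, Lg.ap, zp, Pi.single_eq_same, mul_one, Pi.zero_apply, mul_zero,
      sub_zero] at this
    apply Units.ext
    simpa using sub_eq_zero.1 this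

lemma pow_step {h : Perm (Om p k0 lv)} (hh : InQ h) (i : Fin k0)
    (hf : ∀ w, ∀ i' < i, (h w).1.2 i' = w.1.2 i') (m : ℕ) (w : Om p k0 lv) :
    ((h ^ m) w).1.1 = w.1.1 ∧ (∀ i' < i, ((h ^ m) w).1.2 i' = w.1.2 i') ∧
      ((h ^ m) w).1.2 i = w.1.2 i + m * ((h w).1.2 i - w.1.2 i) := by
  induction m with
  | zero => simp
  | succ m ih =>
    obtain ⟨a1, a2, a3⟩ := ih
    rw [pow_succ', Perm.mul_apply]
    refine ⟨by rw [hh.1, a1], fun i' hi' => by rw [hf _ _ hi', a2 _ hi'], ?_⟩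
    have := hh.2 _ _ i a1 a2
    push_cast
    linear_combination this + a3

lemma pow_fix [Finite B] {g : Perm (Om p k0 lv)} (hg : g ∈ Qs p k0 lv) (n : ℕ) :
    ∀ w, ∀ i : Fin k0, (i : ℕ) < n → ((g ^ p ^ n) w).1.2 i = w.1.2 i := by
  induction n with
  | zero => intro w i hi; omega
  | succ n ih =>
    intro w i hi
    have hq : InQ (g ^ p ^ n) := (mem_Qs _).1 ((Qs p k0 lv).pow_mem hg _)
    have := (pow_step hq i (fun w i' hi' => ih w i' (by
      have : (i' : ℕ) < i := hi'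
      omega)) p w).2.2
    rw [pow_succ, pow_mul, this]
    simp

lemma pg [Finite B] : IsPGroup p (Qs p k0 lv) := by
  intro g
  refine ⟨k0, Subtype.ext (Equiv.ext fun w => ?_)⟩
  have hq : InQ (g.1 ^ p ^ k0) := (mem_Qs _).1 ((Qs p k0 lv).pow_mem g.2 _)
  exact om_ext (hq.1 w) fun j => pow_fix g.2 k0 w j j.2

lemma ph_mul [Fintype B] [DecidableEq B] {g g' : Perm (Om p k0 lv)} (hg : InQ g) (hg' : InQ g') :
    ph (g * g') = ph g + ph g' := by
  funext b j
  simp only [ph, Pi.add_apply]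
  set S := Finset.univ.filter fun w : Om p k0 lv => w.1.1 = b ∧ ∀ i, j ≤ i → w.1.2 i = 0 with hS
  have hm : ∀ w ∈ S, tr j (g' w) ∈ S := by
    intro w hw
    simp only [hS, Finset.mem_filter, Finset.mem_univ, true_and] at hw ⊢
    exact ⟨(hg'.1 w).trans hw.1, fun i hi => if_neg (not_lt.2 hi)⟩
  have hi : ∀ w ∈ S, ∀ w' ∈ S, tr j (g' w) = tr j (g' w') → w = w' := by
    intro w hw w' hw' e
    simp only [hS, Finset.mem_filter, Finset.mem_univ, true_and] at hw hw'
    have hb : w.1.1 = w'.1.1 := hw.1.trans hw'.1.symm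
    refine om_ext hb fun i => ?_
    by_cases h : i < j
    · refine agree hg'.2 hb (fun i => i < j) (fun _ _ a c => a.trans c) (fun i hi => ?_) i h
      have := congrArg (fun x : Om p k0 lv => x.1.2 i) e
      simpa [tr, hi] using this
    · rw [hw.2 i (not_lt.1 h), hw'.2 i (not_lt.1 h)]
  have hs : ∑ w ∈ S, (g (tr j (g' w))).1.2 j = ∑ w ∈ S, (g w).1.2 j := by
    refine Finset.sum_bij (fun w _ => tr j (g' w)) hm hi (fun c hc => ?_) fun _ _ => rfl
    obtain ⟨a, ha, e⟩ := Finset.surj_on_of_inj_on_of_card_le (s := S) (t := S)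
      (fun w _ => tr j (g' w)) hm (fun a a' ha ha' => hi a ha a' ha') le_rfl c hc
    exact ⟨a, ha, e.symm⟩
  rw [← hs, ← Finset.sum_add_distrib]
  refine Finset.sum_congr rfl fun w _ => ?_
  have := hg.2 (g' w) (tr j (g' w)) j rfl fun i hi => by simp [tr, hi]
  have h0 : (tr j (g' w)).1.2 j = 0 := by simp [tr]
  rw [Perm.mul_apply]
  linear_combination this - h0

lemma ph_vz [Fintype B] [DecidableEq B] {g : Perm (Om p k0 lv)} (hg : InQ g) :
    Vz lv (ph g) := by
  intro b j hj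
  refine Finset.sum_eq_zero fun w hw => ?_
  simp only [Finset.mem_filter, Finset.mem_univ, true_and] at hw
  exact (g w).2 j (by rw [hg.1, hw.1]; exact hj)

lemma ph_surj [Fintype B] [DecidableEq B] (v : B → Fin k0 → ZMod p) (hv : Vz lv v) :
    ∃ g ∈ Qs p k0 lv, ph g = v := by
  classical
  let f : Om p k0 lv → Om p k0 lv := fun w =>
    ⟨(w.1.1, fun j => w.1.2 j + if ∀ i < j, w.1.2 i = 0 then v w.1.1 j else 0), fun j hj => by
      have h1 := w.2 j hj
      have h2 := hv w.1.1 j hj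
      simp [h1, h2]⟩
  have h2 : ∀ (w w' : Om p k0 lv) (j : Fin k0), w.1.1 = w'.1.1 →
      (∀ i < j, w.1.2 i = w'.1.2 i) → (f w).1.2 j - w.1.2 j = (f w').1.2 j - w'.1.2 j := by
    intro w w' j hb hj
    have : (∀ i < j, w.1.2 i = 0) ↔ ∀ i < j, w'.1.2 i = 0 :=
      forall_congr' fun i => forall_congr' fun hi => by rw [hj i hi]
    simp only [f, add_sub_cancel_left, this, hb]
  have hinj : Function.Injective f := by
    intro w w' e
    have hb0 := congrArg (fun x : Om p k0 lv => x.1.1) e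
    have hb : w.1.1 = w'.1.1 := hb0
    exact om_ext hb fun i => agree h2 hb (fun _ => True) (fun _ _ _ _ => trivial)
      (fun i _ => by rw [e]) i trivial
  refine ⟨Equiv.ofBijective f (Finite.injective_iff_bijective.1 hinj), ⟨fun _ => rfl, h2⟩, ?_⟩
  funext b j
  rw [ph, Finset.sum_eq_single (zp b)]
  · simp [f, zp]
  · intro w hw hne
    simp only [Finset.mem_filter, Finset.mem_univ, true_and] at hw
    have : ¬ ∀ i < j, w.1.2 i = 0 := fun h => hne (om_ext hw.1 fun i => by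
      by_cases hi : i < j
      · exact h i hi
      · exact hw.2 i (not_lt.1 hi))
    simp only [Equiv.ofBijective_apply, f, if_neg this, add_zero]
    exact hw.2 j le_rfl
  · intro h
    exact absurd (by simp [zp]) h

lemma conj_ap (l : Lg p k0 lv) (g : Perm (Om p k0 lv)) (u : Om p k0 lv) :
    (Lg.tp l * g * (Lg.tp l)⁻¹) (Lg.tp l u) = l.ap (g u) := by
  simp only [Perm.mul_apply, Perm.coe_inv, Equiv.symm_apply_apply]
  rfl

lemma conj_mem (l : Lg p k0 lv) {g : Perm (Om p k0 lv)} (hg : InQ g) :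
    InQ (Lg.tp l * g * (Lg.tp l)⁻¹) := by
  refine ⟨fun w => ?_, fun w w' j hb hj => ?_⟩
  · obtain ⟨u, rfl⟩ := (Lg.tp l).surjective w
    rw [conj_ap]
    exact congrArg l.π (hg.1 u)
  · obtain ⟨u, rfl⟩ := (Lg.tp l).surjective w
    obtain ⟨u', rfl⟩ := (Lg.tp l).surjective w'
    rw [conj_ap, conj_ap]
    have hb' : u.1.1 = u'.1.1 := l.π.injective hb
    have := hg.2 u u' j hb' fun i hi => by
      have e := hj i hi
      simp only [Lg.tp_apply, Lg.ap, hb'] at e
      exact (Units.mul_right_inj _).1 e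
    simp only [Lg.tp_apply, Lg.ap, hg.1, hb']
    linear_combination (l.c u'.1.1 j : ZMod p) * this

lemma conj_ph [Fintype B] [DecidableEq B] (l : Lg p k0 lv) {g : Perm (Om p k0 lv)} (hg : InQ g) :
    ph (Lg.tp l * g * (Lg.tp l)⁻¹) = l.act (ph g) := by
  funext b j
  rw [Lg.act, ph, ph, Finset.mul_sum]
  symm
  refine Finset.sum_equiv (Lg.tp l) (fun u => ?_) fun u hu => ?_
  · simp only [Finset.mem_filter, Finset.mem_univ, true_and, Lg.tp_apply, Lg.ap,
      Units.mul_right_eq_zero]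
    refine and_congr_left fun _ => ?_
    rw [Perm.eq_inv_iff_eq]
  · simp only [Finset.mem_filter, Finset.mem_univ, true_and] at hu
    rw [conj_ap]
    simp only [Lg.ap, hg.1, hu.1]

end SyA

theorem sylA : SylASt := fun _ _ _ _ _ _ _ =>
  { card := SyA.card
    tp_inj := (injective_iff_map_eq_one _).2 fun l h => SyA.tp_mem l (h ▸ one_mem _)
    pg := SyA.pg
    ph_mul := fun _ hg _ hg' => SyA.ph_mul hg hg'
    ph_vz := fun _ hg => SyA.ph_vz hg
    ph_surj := SyA.ph_surj
    conj := fun l _ hg => ⟨SyA.conj_mem l hg, SyA.conj_ph l hg⟩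
    tp_mem := SyA.tp_mem }

end Pool.Agent.Lib.MP_1ae3da_al.GM
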