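import Pool.Agent.Lib.MP_1ae3da_al.GSylD

/-! The subgroup `Qs` of the model has index prime to `p`. -/

namespace Pool.Agent.Lib.MP_1ae3da_al.GM

open Equiv

namespace SylB

lemma val_fac (p : ℕ) [Fact p.Prime] (m : ℕ) : ∀ a : ℕ → ℕ, (∀ k < m, a k < p) →
    padicValNat p (∑ k ∈ Finset.range m, a k * p ^ k).factorial =
      ∑ k ∈ Finset.range m, a k * ∑ j ∈ Finset.range k, p ^ j := by
  induction m with
  | zero => intro a _; simp
  | succ m ih =>
    intro a ha
    have e : ∑ k ∈ Finset.range (m + 1), a k * p ^ k =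
        p * (∑ k ∈ Finset.range m, a (k + 1) * p ^ k) + a 0 := by
      rw [Finset.sum_range_succ', Finset.mul_sum, pow_zero, mul_one]
      congr 1
      exact Finset.sum_congr rfl fun k _ => by ring
    rw [e, padicValNat_factorial_mul_add _ (ha 0 (by omega)), padicValNat_factorial_mul,
      ih (fun k => a (k + 1)) fun k hk => ha _ (by omega), Finset.sum_range_succ',
      ← Finset.sum_add_distrib]
    simp only [Finset.range_zero, Finset.sum_empty, mul_zero, add_zero]
    exact Finset.sum_congr rfl fun k _ => by rw [Finset.sum_range_succ, mul_add]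

lemma sum_lv {k0 : ℕ} {B : Type} [Fintype B] (lv : B → Fin k0) (f : ℕ → ℕ) :
    ∑ b, f (lv b) = ∑ k ∈ Finset.range k0,
      (Finset.univ.filter fun b => (lv b : ℕ) = k).card * f k := by
  rw [← Finset.sum_fiberwise_of_maps_to (s := Finset.univ) (t := Finset.range k0)
    (g := fun b => (lv b : ℕ)) fun b _ => Finset.mem_range.2 (lv b).2]
  refine Finset.sum_congr rfl fun k _ => ?_
  rw [Finset.sum_congr rfl fun b hb => congrArg f (Finset.mem_filter.1 hb).2, Finset.sum_const,
    smul_eq_mul]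

variable {p k0 : ℕ} [Fact p.Prime] {B : Type} {lv : B → Fin k0}

variable (p lv) in
/-- a block, a coordinate below its level and a prefix. -/
abbrev D : Type := Σ b : B, Σ j : Fin (lv b), Fin j → ZMod p

/-- the translation vector attached to a function on `D`. -/
def tv (F : D p lv → ZMod p) (w : Om p k0 lv) (j : Fin k0) : ZMod p :=
  if h : (j : ℕ) < lv w.1.1 then F ⟨w.1.1, ⟨j, h⟩, fun i => w.1.2 ⟨i, i.2.trans j.2⟩⟩ else 0

lemma tv_zero (F : D p lv → ZMod p) (w : Om p k0 lv) (j : Fin k0) (h : lv w.1.1 ≤ j) :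
    tv F w j = 0 := dif_neg (not_lt.2 h)

lemma tv_E (F : D p lv → ZMod p) (w w' : Om p k0 lv) (j : Fin k0) (h : SylD.E j w w') :
    tv F w j = tv F w' j := by
  obtain ⟨⟨b, x⟩, hx⟩ := w
  obtain ⟨⟨b', x'⟩, hx'⟩ := w'
  obtain ⟨h1, h2⟩ := h
  obtain rfl : b = b' := h1
  unfold tv
  split_ifs with h
  · have : (fun i : Fin j => x ⟨i, i.2.trans j.2⟩) = fun i : Fin j => x' ⟨i, i.2.trans j.2⟩ :=
      funext fun i => h2 _ i.2
    exact congrArg (fun y : Fin j → ZMod p => F ⟨b, ⟨j, h⟩, y⟩) this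
  · rfl

lemma tv_inj {F F' : D p lv → ZMod p} (h : tv F = tv F') : F = F' := by
  funext ⟨b, j, y⟩
  let w : Om p k0 lv := ⟨(b, fun i => if h : (i : ℕ) < j then y ⟨i, h⟩ else 0), fun i hi =>
    dif_neg (by have := j.2; have : (lv b : ℕ) ≤ i := hi; omega)⟩
  have key : ∀ F : D p lv → ZMod p, tv F w ⟨j, j.2.trans (lv b).2⟩ = F ⟨b, j, y⟩ := by
    intro F
    unfold tv
    rw [dif_pos j.2]
    refine congrArg (fun y : Fin j → ZMod p => F ⟨b, j, y⟩) (funext fun i => ?_)
    exact dif_pos i.2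
  rw [← key F, ← key F', h]

lemma card_le [Fintype B] [DecidableEq B] :
    p ^ (∑ b, ∑ j ∈ Finset.range (lv b), p ^ j) ≤ Nat.card (Qs p k0 lv) := by
  choose q hq using fun F : D p lv → ZMod p => SylD.ex_Q (tv F) (tv_zero F) (tv_E F)
  have hinj : Function.Injective fun F => (⟨q F, (hq F).1⟩ : Qs p k0 lv) := by
    intro F F' h
    have h' : q F = q F' := congrArg Subtype.val h
    refine tv_inj (funext fun w => funext fun j => ?_)
    have := (hq F).2 w j
    rw [h', (hq F').2 w j] at this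
    exact (add_left_cancel this).symm
  refine le_trans (le_of_eq ?_) (Nat.card_le_card_of_injective _ hinj)
  rw [Nat.card_eq_fintype_card, Fintype.card_fun, ZMod.card, Fintype.card_sigma]
  congr 1
  refine Finset.sum_congr rfl fun b _ => ?_
  rw [Fintype.card_sigma, Finset.sum_range]
  exact Finset.sum_congr rfl fun j _ => by rw [Fintype.card_fun, ZMod.card, Fintype.card_fin]

end SylB

theorem sylB (hsA : SylASt) : SylBSt := by
  intro p k0 hp B _ _ lv hlt hdvd
  have hA := hsA p k0 B lv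
  obtain ⟨e, he⟩ := hA.pg.exists_card_eq
  have h1 := SylB.card_le (p := p) (lv := lv)
  rw [he, Nat.pow_le_pow_iff_right hp.out.one_lt] at h1
  have h2 : p ^ (e + 1) ∣ (Fintype.card (Om p k0 lv)).factorial := by
    rw [← Fintype.card_perm, ← Nat.card_eq_fintype_card, ← (Qs p k0 lv).card_mul_index, he,
      pow_succ]
    exact Nat.mul_dvd_mul_left _ hdvd
  rw [padicValNat_dvd_iff_le (Nat.factorial_ne_zero _), hA.card,
    SylB.sum_lv lv (fun k => p ^ k), SylB.val_fac,
    ← SylB.sum_lv lv fun k => ∑ j ∈ Finset.range k, p ^ j] at h2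
  · omega
  · intro k hk
    have := hlt ⟨k, hk⟩
    simpa only [Fin.ext_iff] using this

end Pool.Agent.Lib.MP_1ae3da_al.GM
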