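import Pool.Agent.Lib.MP_1ae3da_al.GSylD

/-! The kernel of the abelianisation map of the Sylow subgroup of the model. -/

namespace Pool.Agent.Lib.MP_1ae3da_al.GM

open Equiv

namespace SylC

open SylD
open scoped commutatorElement

variable {p k0 : ℕ} [Fact p.Prime] {B : Type} {lv : B → Fin k0}

/-- `q` translates the coordinate `j` by `f`. -/
def IsT (j : Fin k0) (f : Om p k0 lv → ZMod p) (q : Perm (Om p k0 lv)) : Prop :=
  (∀ w, (q w).1.1 = w.1.1) ∧ ∀ w i, (q w).1.2 i = w.1.2 i + if i = j then f w else 0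

/-- admissible translation functions. -/
def Ad (j : Fin k0) (f : Om p k0 lv → ZMod p) : Prop :=
  (∀ w, lv w.1.1 ≤ j → f w = 0) ∧ ∀ w w', E j w w' → f w = f w'

lemma om_ext {w w' : Om p k0 lv} (h1 : w.1.1 = w'.1.1) (h2 : ∀ i, w.1.2 i = w'.1.2 i) :
    w = w' := Subtype.ext (Prod.ext h1 (funext h2))

lemma ex_T [Finite B] {j : Fin k0} {f : Om p k0 lv → ZMod p} (hf : Ad j f) :
    ∃ q ∈ Qs p k0 lv, IsT j f q := by
  obtain ⟨q, hq, hv⟩ := ex_Q (lv := lv) (p := p) (fun w i => if i = j then f w else 0)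
    (by
      intro w i hi
      split_ifs with h
      · exact hf.1 w (h ▸ hi)
      · rfl)
    (by
      intro w w' i h
      split_ifs with hij
      · subst hij; exact hf.2 w w' h
      · rfl)
  exact ⟨q, hq, hq.1, hv⟩

lemma IsT.E {j : Fin k0} {f : Om p k0 lv → ZMod p} {q : Perm (Om p k0 lv)} (h : IsT j f q)
    (w : Om p k0 lv) : E j (q w) w := by
  refine ⟨h.1 w, fun i hi => ?_⟩
  rw [h.2, if_neg (fun e => by rw [e] at hi; exact lt_irrefl _ hi), add_zero]

lemma IsT.uniq {j : Fin k0} {f : Om p k0 lv → ZMod p} {q q' : Perm (Om p k0 lv)} (h : IsT j f q)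
    (h' : IsT j f q') : q = q' :=
  Equiv.ext fun w => om_ext (by rw [h.1, h'.1]) fun i => by rw [h.2, h'.2]

lemma IsT.one (j : Fin k0) : IsT (lv := lv) (p := p) j 0 1 :=
  ⟨fun _ => rfl, fun w i => by simp⟩

lemma IsT.mul {j : Fin k0} {f f' : Om p k0 lv → ZMod p} {q q' : Perm (Om p k0 lv)}
    (hf : Ad j f) (h : IsT j f q) (h' : IsT j f' q') : IsT j (f + f') (q * q') := by
  refine ⟨fun w => by rw [Perm.mul_apply, h.1, h'.1], fun w i => ?_⟩
  rw [Perm.mul_apply, h.2, h'.2, hf.2 _ _ (h'.E w)]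
  split_ifs
  · simp only [Pi.add_apply]; ring
  · simp

lemma Ad.add {j : Fin k0} {f f' : Om p k0 lv → ZMod p} (h : Ad j f) (h' : Ad j f') :
    Ad j (f + f') :=
  ⟨fun w hw => by simp [h.1 w hw, h'.1 w hw],
    fun w w' e => by simp only [Pi.add_apply, h.2 w w' e, h'.2 w w' e]⟩

lemma Ad.neg {j : Fin k0} {f : Om p k0 lv → ZMod p} (h : Ad j f) : Ad j (-f) :=
  ⟨fun w hw => by simp [h.1 w hw], fun w w' e => by simp only [Pi.neg_apply, h.2 w w' e]⟩

lemma Ad.comp {j : Fin k0} {f : Om p k0 lv → ZMod p} (h : Ad j f) {q : Perm (Om p k0 lv)}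
    (hq : InQ q) : Ad j (f ∘ q) :=
  ⟨fun w hw => h.1 _ (by rw [hq.1]; exact hw), fun w w' e => h.2 _ _ (inq_E hq e)⟩

variable (lv) in
/-- the functions whose translation is in the commutator subgroup. -/
def S [Finite B] (j : Fin k0) : AddSubmonoid (Om p k0 lv → ZMod p) where
  carrier := {f | Ad j f ∧ ∃ q ∈ ⁅Qs p k0 lv, Qs p k0 lv⁆, IsT j f q}
  zero_mem' := ⟨⟨fun _ _ => rfl, fun _ _ _ => rfl⟩, 1, Subgroup.one_mem _, IsT.one j⟩
  add_mem' := by
    rintro f f' ⟨a, q, hq, h⟩ ⟨a', q', hq', h'⟩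
    exact ⟨a.add a', q * q', Subgroup.mul_mem _ hq hq', h.mul a h'⟩

lemma comm_mem [Finite B] {j : Fin k0} {F : Om p k0 lv → ZMod p} (hF : Ad j F)
    {τ : Perm (Om p k0 lv)} (hτ : InQ τ) (a : B → Fin k0 → ZMod p)
    (ha : ∀ w i, (τ w).1.2 i = w.1.2 i + a w.1.1 i) : F ∘ τ + -F ∈ S lv j := by
  obtain ⟨T, hT, h1⟩ := ex_T hF
  obtain ⟨T', -, h2⟩ := ex_T hF.neg
  obtain ⟨X, -, h3⟩ := ex_T (hF.comp hτ)
  have e1 : T * T' = 1 := by
    have := IsT.mul hF h1 h2
    rw [add_neg_cancel] at this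
    exact this.uniq (IsT.one j)
  have e2 : τ * X = T * τ := by
    refine Equiv.ext fun w => om_ext ?_ fun i => ?_
    · rw [Perm.mul_apply, Perm.mul_apply, hτ.1, h3.1, h1.1, hτ.1]
    · rw [Perm.mul_apply, Perm.mul_apply, ha, h3.2, h1.2, ha, h3.1]
      simp only [Function.comp_apply]
      ring
  refine ⟨(hF.comp hτ).add hF.neg, X * T', ?_, IsT.mul (hF.comp hτ) h3 h2⟩
  have e3 : X * T' = ⁅τ⁻¹, T⁆ := by
    rw [commutatorElement_def, inv_inv, ← eq_inv_of_mul_eq_one_right e1, mul_assoc τ⁻¹, ← e2]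
    group
  rw [e3]
  exact Subgroup.commutator_mem_commutator ((Qs p k0 lv).inv_mem hτ) hT

/-- the origin of a block. -/
def org (b : B) : Om p k0 lv := ⟨(b, 0), fun _ _ => rfl⟩

/-- the truncation of a point. -/
def tr (j : Fin k0) (w : Om p k0 lv) : Om p k0 lv :=
  ⟨(w.1.1, fun i => if i < j then w.1.2 i else 0), fun i hi => by
    have := w.2 i hi
    simp [this]⟩

lemma tr_E (j : Fin k0) (w : Om p k0 lv) : E j w (tr j w) :=
  ⟨rfl, fun i hi => by
    have : i < j := hi
    simp [tr, this]⟩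

open Classical in
lemma delta_mem [Finite B] {j : Fin k0} {f : Om p k0 lv → ZMod p} (hf : Ad j f)
    (u : Om p k0 lv) :
    (fun w => (if E j w u then f u else 0) - if E j w (org u.1.1) then f u else 0) ∈ S lv j := by
  obtain ⟨τ, hτ, hv⟩ := ex_Q (lv := lv) (p := p)
    (fun w i => if w.1.1 = u.1.1 then -u.1.2 i else 0)
    (by
      intro w i hi
      split_ifs with a1
      · rw [u.2 i (by rw [← a1]; exact hi), neg_zero]
      · rfl)
    (by
      intro w w' i h
      rw [h.1])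
  have hF : Ad j fun w : Om p k0 lv => if E j w (org u.1.1) then f u else 0 := by
    refine ⟨fun w hw => ?_, fun w w' e => ?_⟩
    · beta_reduce
      split_ifs with h
      · exact hf.1 u (by rw [show u.1.1 = w.1.1 from h.1.symm]; exact hw)
      · rfl
    · exact if_congr ⟨fun h => e.symm.trans h, fun h => e.trans h⟩ rfl rfl
  have := comm_mem hF hτ (fun b i => if b = u.1.1 then -u.1.2 i else 0) hv
  convert this using 1
  funext w
  simp only [Pi.add_apply, Pi.neg_apply, Function.comp_apply, ← sub_eq_add_neg]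
  congr 1
  refine if_congr ⟨fun h => ⟨(hτ.1 w).trans h.1, fun i hi => ?_⟩,
    fun h => ⟨(hτ.1 w).symm.trans h.1, fun i hi => ?_⟩⟩ rfl rfl
  · rw [hv, if_pos h.1, h.2 i hi]
    simp [org]
  · have h1 : w.1.1 = u.1.1 := (hτ.1 w).symm.trans h.1
    have h2 := h.2 i hi
    rw [hv, if_pos h1] at h2
    exact add_neg_eq_zero.1 h2

lemma zero_sum [Fintype B] [DecidableEq B] {j : Fin k0} {f : Om p k0 lv → ZMod p} (hf : Ad j f)
    (h0 : ∀ b, ∑ w : Om p k0 lv with (w.1.1 = b ∧ ∀ i, j ≤ i → w.1.2 i = 0), f w = 0) :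
    f ∈ S lv j := by
  classical
  have := (S lv j).sum_mem (t := Finset.univ.filter fun u : Om p k0 lv => ∀ i, j ≤ i → u.1.2 i = 0)
    (f := fun u w => (if E j w u then f u else 0) - if E j w (org u.1.1) then f u else 0)
    fun u _ => delta_mem hf u
  convert this using 1
  funext w
  rw [Finset.sum_apply, Finset.sum_sub_distrib]
  have e1 : ∑ u : Om p k0 lv with (∀ i, j ≤ i → u.1.2 i = 0), (if E j w u then f u else 0) =
      f w := by
    rw [Finset.sum_eq_single (tr j w), if_pos (tr_E j w), ← hf.2 _ _ (tr_E j w)]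
    · intro u hu hne
      rw [if_neg]
      intro h
      refine hne (om_ext h.1.symm fun i => ?_)
      by_cases hi : i < j
      · rw [← h.2 i hi]; simp [tr, hi]
      · rw [(Finset.mem_filter.1 hu).2 i (not_lt.1 hi)]; simp [tr, hi]
    · intro h
      exact absurd (Finset.mem_filter.2 ⟨Finset.mem_univ _, fun i hi => by
        simp [tr, not_lt.2 hi]⟩) h
  have e2 : ∑ u : Om p k0 lv with (∀ i, j ≤ i → u.1.2 i = 0),
      (if E j w (org u.1.1) then f u else 0) = 0 := by
    by_cases hw : E j w (org w.1.1)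
    · rw [← Finset.sum_filter, Finset.filter_filter]
      refine Eq.trans (Finset.sum_congr (Finset.filter_congr fun u _ => ?_) fun _ _ => rfl)
        (h0 w.1.1)
      constructor
      · rintro ⟨a, b⟩
        exact ⟨b.1.symm, a⟩
      · rintro ⟨a, b⟩
        exact ⟨b, a ▸ hw⟩
    · refine Finset.sum_eq_zero fun u _ => if_neg fun h => hw ⟨rfl, h.2⟩
  rw [e1, e2, sub_zero]

lemma step [Fintype B] [DecidableEq B] (hA : SylA p k0 lv) (d : ℕ) :
    ∀ g ∈ Qs p k0 lv, (∀ (w : Om p k0 lv) (i : Fin k0), (i : ℕ) + d < k0 → (g w).1.2 i = w.1.2 i) →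
      ph g = 0 → g ∈ ⁅Qs p k0 lv, Qs p k0 lv⁆ := by
  induction d with
  | zero =>
    intro g hg h _
    have : g = 1 := Equiv.ext fun w => om_ext (hg.1 w) fun i => h w i i.2
    rw [this]
    exact Subgroup.one_mem _
  | succ d ih =>
    intro g hg h hp
    by_cases hd : d < k0
    swap
    · exact ih g hg (fun w i hi => absurd hi (by omega)) hp
    let j : Fin k0 := ⟨k0 - 1 - d, by omega⟩
    have hj : (j : ℕ) = k0 - 1 - d := rfl
    let f : Om p k0 lv → ZMod p := fun w => w.1.2 j - (g w).1.2 j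
    have hf : Ad j f := by
      refine ⟨fun w hw => ?_, fun w w' e => ?_⟩
      · change w.1.2 j - (g w).1.2 j = 0
        rw [w.2 j hw, (g w).2 j (by rw [hg.1]; exact hw), sub_zero]
      · have := inq_sub hg e
        change w.1.2 j - (g w).1.2 j = w'.1.2 j - (g w').1.2 j
        linear_combination -this
    have h0 : ∀ b, ∑ w : Om p k0 lv with (w.1.1 = b ∧ ∀ i, j ≤ i → w.1.2 i = 0), f w = 0 := by
      intro b
      have : ph g b j = 0 := by rw [hp]; rfl
      rw [ph] at this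
      rw [← neg_eq_zero, ← Finset.sum_neg_distrib]
      refine Eq.trans (Finset.sum_congr rfl fun w hw => ?_) this
      change -(w.1.2 j - (g w).1.2 j) = _
      rw [(Finset.mem_filter.1 hw).2.2 j le_rfl]
      ring
    obtain ⟨-, T, hT, h1⟩ := zero_sum hf h0
    have hTQ : T ∈ Qs p k0 lv := Subgroup.commutator_le_self _ hT
    have hpT : ph T = 0 := by
      funext b i
      rw [ph]
      by_cases hij : i = j
      · subst hij
        refine Eq.trans (Finset.sum_congr rfl fun w hw => ?_) (h0 b)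
        rw [h1.2, if_pos rfl, (Finset.mem_filter.1 hw).2.2 _ le_rfl, zero_add]
      · refine Finset.sum_eq_zero fun w hw => ?_
        rw [h1.2, if_neg hij, (Finset.mem_filter.1 hw).2.2 _ le_rfl, zero_add]
    have hE : ∀ w, E j (g w) w := fun w => ⟨hg.1 w, fun i hi => h w i (by omega)⟩
    have := ih (T * g) (Subgroup.mul_mem _ hTQ hg) (fun w i hi => by
      rw [Perm.mul_apply, h1.2]
      split_ifs with hij
      · rw [hf.2 _ _ (hE w), hij]
        change (g w).1.2 j + (w.1.2 j - (g w).1.2 j) = _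
        ring
      · rw [add_zero]
        refine h w i ?_
        have : (i : ℕ) ≠ j := fun e => hij (Fin.ext e)
        omega) (by rw [hA.ph_mul T hTQ g hg, hpT, hp, add_zero])
    exact (Subgroup.mul_mem_cancel_left _ hT).1 this

end SylC

theorem sylC (hsA : SylASt) : SylCSt := by
  intro p k0 _ B _ _ lv g hg hp
  exact SylC.step (hsA p k0 B lv) k0 g hg (fun w i hi => absurd hi (by omega)) hp

end Pool.Agent.Lib.MP_1ae3da_al.GM
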