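import Pool.Agent.Lib.MP_1ae3da_al.GT

/-! The normalised basic spin character. -/

namespace Pool.Agent.Lib.MP_1ae3da_al.GM

open Equiv

namespace TauA

section alg
variable {A : Type} [Ring A] [Algebra K A]

lemma half {a : K} (h : a = -a) : a = 0 := by linear_combination (2 : K)⁻¹ * h

/-- a tracial functional that vanishes at one vanishes on all words of even length. -/
lemma wick (S : A → Prop) (hS : ∀ v w, S v → S w → ∃ c : K, v * w = c • (1 : A) - w * v)
    (f : A →ₗ[K] K) (hf : ∀ v, S v → ∀ a, f (v * a) = f (a * v)) (h1 : f 1 = 0) (n : ℕ) :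
    ∀ L : List A, (∀ v ∈ L, S v) → L.length = 2 * n → f L.prod = 0 := by
  induction n with
  | zero =>
    intro L _ hL
    obtain rfl : L = [] := List.length_eq_zero_iff.1 hL
    simpa using h1
  | succ n ih =>
    intro L hL hlen
    obtain _ | ⟨v, L⟩ := L
    · simp at hlen
    have hv : S v := hL v (by simp)
    have key : ∀ R P : List A, (∀ w ∈ R, S w) → (∀ w ∈ P, S w) →
        P.length + R.length = 2 * n + 1 →
        f (P.prod * v * R.prod) = (-1) ^ R.length * f (P.prod * R.prod * v) := by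
      intro R
      induction R with
      | nil => intro P _ _ _; simp
      | cons w R ihR =>
        intro P hR hP hl
        obtain ⟨c, hc⟩ := hS v w hv (hR w (by simp))
        have h0 : f (P ++ R).prod = 0 := ih _ (by
          intro u hu
          rcases List.mem_append.1 hu with h | h
          · exact hP u h
          · exact hR u (by simp [h])) (by simp at hl ⊢; omega)
        have h2 := ihR (P ++ [w]) (fun u hu => hR u (by simp [hu])) (by
          intro u hu
          rcases List.mem_append.1 hu with h | h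
          · exact hP u h
          · exact hR u (by simp at h; simp [h])) (by simp at hl ⊢; omega)
        have e : P.prod * v * (w :: R).prod =
            c • (P ++ R).prod - (P ++ [w]).prod * v * R.prod := by
          simp only [List.prod_cons, List.prod_append, List.prod_nil, mul_one]
          calc P.prod * v * (w * R.prod) = P.prod * (v * w) * R.prod := by simp only [mul_assoc]
            _ = _ := by
              rw [hc]
              simp only [mul_sub, sub_mul, mul_smul_comm, smul_mul_assoc, mul_one, mul_assoc]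
        rw [e, map_sub, map_smul, h0, h2]
        simp only [List.prod_cons, List.prod_append, List.prod_nil, mul_one, List.length_cons,
          pow_succ, mul_assoc, smul_zero]
        ring
    have h3 := key L [] (fun u hu => hL u (by simp [hu])) (by simp) (by simp at hlen ⊢; omega)
    have hl : L.length = 2 * n + 1 := by simp at hlen; omega
    rw [hl, ← (Odd.neg_one_pow ⟨n, rfl⟩ : (-1 : K) ^ (2 * n + 1) = -1).symm] at h3
    simp only [List.prod_nil, one_mul, ← hf v hv] at h3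
    rw [List.prod_cons]
    exact half (by linear_combination h3)

lemma anti_list (h : A) (L : List A) (hL : ∀ v ∈ L, h * v = -(v * h)) :
    h * L.prod = (-1 : K) ^ L.length • (L.prod * h) := by
  induction L with
  | nil => simp
  | cons v L ih =>
    rw [List.prod_cons, ← mul_assoc, hL v (by simp), neg_mul, mul_assoc,
      ih fun u hu => hL u (by simp [hu])]
    simp [pow_succ, mul_assoc]

/-- the pairing of two differences of generators. -/
noncomputable def Bc {Ω : Type} [DecidableEq Ω] (i j k l : Ω) : K :=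
  2 * ((if i = k then 1 else 0) - (if i = l then 1 else 0) - (if j = k then 1 else 0) +
    (if j = l then 1 else 0))

lemma anticomm {Ω : Type} [DecidableEq Ω] (I : Finset Ω) (g : Ω → A) (κ : K)
    (h1 : ∀ i ∈ I, g i * g i = 1) (h2 : ∀ i ∈ I, ∀ j ∈ I, i ≠ j → g i * g j = -(g j * g i))
    {i j k l : Ω} (hi : i ∈ I) (hj : j ∈ I) (hk : k ∈ I) (hl : l ∈ I) :
    (κ • (g i - g j)) * (κ • (g k - g l)) =
      (κ ^ 2 * Bc i j k l) • (1 : A) - (κ • (g k - g l)) * (κ • (g i - g j)) := by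
  have d : ∀ a ∈ I, ∀ b ∈ I, g a * g b = (2 * (if a = b then 1 else 0) : K) • (1 : A) - g b * g a := by
    intro a ha b hb
    by_cases h : a = b
    · subst h
      simp only [if_true, mul_one, h1 a ha, two_smul]
      abel
    · simp [h, h2 a ha b hb h]
  simp only [smul_mul_assoc, mul_smul_comm, mul_sub, sub_mul, Bc]
  rw [d i hi k hk, d i hi l hl, d j hj k hk, d j hj l hl]
  module

lemma tr_anti (T : A →ₗ[K] K) (hT : ∀ a b, T (a * b) = T (b * a)) {u v Y : A}
    (h1 : u * Y = Y * u) (h2 : u * v = -(v * u)) : T (u * v * Y) = 0 := by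
  apply half
  calc T (u * v * Y) = T (v * Y * u) := by rw [mul_assoc, hT]
    _ = T (v * u * Y) := by rw [mul_assoc, ← h1, mul_assoc]
    _ = -T (u * v * Y) := by rw [h2]; simp

end alg

variable {Ω : Type} [Fintype Ω] [DecidableEq Ω] {X : Type} [Group X] (C : Cover Ω X)

/-- the generators of `C.sub I`. -/
def Lt (I : Finset Ω) (y : C.sub I) : Prop := ∃ i ∈ I, ∃ j ∈ I, i ≠ j ∧ (y : X) = C.t i j

lemma words (hcb : CbSt) (hword : WordSt) (I : Finset Ω) (x : C.sub I) :
    ∃ (e : ℕ) (L : List (C.sub I)), (∀ y ∈ L, Lt C I y) ∧ x = (C.sgI I).z ^ e * L.prod ∧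
      Perm.sign (C.π x) = (-1) ^ L.length := by
  obtain ⟨e, L, h1, -, h3⟩ := hword Ω X C I x x.2
  have key : ∀ L : List (Ω × Ω), (∀ w ∈ L, w.1 ∈ I ∧ w.2 ∈ I ∧ w.1 ≠ w.2) →
      ∃ L' : List (C.sub I), (∀ y ∈ L', Lt C I y) ∧
        ((L'.prod : C.sub I) : X) = (L.map fun w => C.t w.1 w.2).prod ∧
        Perm.sign (C.π (L'.prod : C.sub I)) = (-1) ^ L'.length := by
    intro L
    induction L with
    | nil => intro _; exact ⟨[], by simp, by simp, by simp⟩
    | cons w L ih =>
      intro h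
      obtain ⟨L', a1, a2, a3⟩ := ih fun u hu => h u (by simp [hu])
      obtain ⟨b1, b2, b3⟩ := h w (by simp)
      refine ⟨⟨C.t w.1 w.2, (hcb Ω X C).t_mem I _ b1 _ b2 b3⟩ :: L', ?_, ?_, ?_⟩
      · intro y hy
        rcases List.mem_cons.1 hy with rfl | hy
        · exact ⟨_, b1, _, b2, b3, rfl⟩
        · exact a1 y hy
      · rw [List.prod_cons, Subgroup.coe_mul, a2]; simp
      · rw [List.prod_cons, Subgroup.coe_mul, map_mul, map_mul, a3, C.πt _ _ b3,
          Perm.sign_swap b3, List.length_cons, pow_succ, mul_comm]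
  obtain ⟨L', a1, a2, a3⟩ := key L fun w hw => ⟨(h1 w hw).1, (h1 w hw).2.1, (h1 w hw).2.2.1⟩
  have hx : x = (C.sgI I).z ^ e * L'.prod := Subtype.ext (by
    rw [Subgroup.coe_mul, a2, Subgroup.coe_pow, Cover.sgI_z]; exact h3)
  refine ⟨e, L', a1, hx, ?_⟩
  rw [← a3]
  conv_lhs => rw [hx]
  rw [Subgroup.coe_mul, Subgroup.coe_pow, Cover.sgI_z, map_mul, map_pow, C.πz]
  simp

section rep
variable {A : Type} [Ring A] [Algebra K A]

lemma phi_word (I : Finset Ω) (Φ : C.sub I →* A) (hz : Φ (C.sgI I).z = -1) (e : ℕ)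
    (L : List (C.sub I)) : Φ ((C.sgI I).z ^ e * L.prod) = (-1 : K) ^ e • (L.map Φ).prod := by
  rw [map_mul, map_pow, hz, map_list_prod]
  rcases neg_one_pow_eq_or K e with h | h
  · rw [h, (neg_one_pow_eq_one_iff_even (by norm_num)).1 h |>.neg_one_pow]; simp
  · have : Odd e := (neg_one_pow_eq_neg_one_iff_odd (by norm_num)).1 h
    rw [h, this.neg_one_pow]; simp

lemma core (hcb : CbSt) (hword : WordSt) (I : Finset Ω) (Φ : C.sub I →* A)
    (hz : Φ (C.sgI I).z = -1)
    (hS : ∀ y y', Lt C I y → Lt C I y' → ∃ c : K, Φ y * Φ y' = c • (1 : A) - Φ y' * Φ y)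
    (f : A →ₗ[K] K) (hf : ∀ y, Lt C I y → ∀ a, f (Φ y * a) = f (a * Φ y)) (h1 : f 1 = 0)
    (x : C.sub I) (hx : Perm.sign (C.π x) = 1) : f (Φ x) = 0 := by
  obtain ⟨e, L, a1, a2, a3⟩ := words C hcb hword I x
  rw [hx] at a3
  obtain ⟨n, hn⟩ : Even L.length := (neg_one_pow_eq_one_iff_even (by decide)).1 a3.symm
  rw [a2, phi_word C I Φ hz, map_smul,
    wick (fun v => ∃ y, Lt C I y ∧ v = Φ y) ?_ f ?_ h1 n _ ?_ (by simp; omega), smul_zero]
  · rintro _ _ ⟨y, hy, rfl⟩ ⟨y', hy', rfl⟩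
    exact hS y y' hy hy'
  · rintro _ ⟨y, hy, rfl⟩
    exact hf y hy
  · intro v hv
    obtain ⟨y, hy, rfl⟩ := List.mem_map.1 hv
    exact ⟨y, a1 y hy, rfl⟩

lemma anti (hcb : CbSt) (hword : WordSt) (I : Finset Ω) (Φ : C.sub I →* A)
    (hz : Φ (C.sgI I).z = -1) (h : A) (hh : ∀ y, Lt C I y → h * Φ y = -(Φ y * h))
    (x : C.sub I) : h * Φ x = uK (Perm.sign (C.π x)) • (Φ x * h) := by
  obtain ⟨e, L, a1, a2, a3⟩ := words C hcb hword I x
  rw [a3]
  conv_lhs => rw [a2]
  conv_rhs => rw [a2]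
  rw [phi_word C I Φ hz, mul_smul_comm, anti_list h (L.map Φ), smul_mul_assoc, smul_comm]
  · simp [uK]
  · intro v hv
    obtain ⟨y, hy, rfl⟩ := List.mem_map.1 hv
    exact hh y (a1 y hy)

/-- a representation of the whole cover with a normalised trace and one extra generator. -/
structure Base (T : A →ₗ[K] K) (Φ : X →* A) (g : Ω → A) (κ : K) (P : A) : Prop where
  hT : ∀ a b, T (a * b) = T (b * a)
  T1 : T 1 = 1
  hκ : 2 * κ ^ 2 = uK C.q
  g1 : ∀ i, g i * g i = 1
  g2 : ∀ i j, i ≠ j → g i * g j = -(g j * g i)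
  hz : Φ C.z = -1
  ht : ∀ i j, i ≠ j → Φ (C.t i j) = κ • (g i - g j)
  P1 : P * P = 1
  P2 : ∀ i, P * g i = -(g i * P)

variable {C} {T : A →ₗ[K] K} {Φ : X →* A} {g : Ω → A} {κ : K} {P : A}

lemma Base.anti (B : Base C T Φ g κ P) (hcb : CbSt) (hword : WordSt) (I : Finset Ω) (h : A)
    (hh : ∀ i ∈ I, h * g i = -(g i * h)) (x : X) (hx : x ∈ C.sub I) :
    h * Φ x = uK (Perm.sign (C.π x)) • (Φ x * h) := by
  refine TauA.anti C hcb hword I (Φ.comp (C.sub I).subtype) B.hz h ?_ ⟨x, hx⟩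
  rintro y ⟨i, hi, j, hj, hij, hy⟩
  change h * Φ y = -(Φ y * h)
  rw [hy, B.ht i j hij, mul_smul_comm, smul_mul_assoc, mul_sub, sub_mul, hh i hi, hh j hj,
    ← smul_neg]
  congr 1
  abel

lemma mem_univ (x : X) : x ∈ C.sub Finset.univ := fun i hi => absurd (Finset.mem_univ i) hi

lemma Base.odd (B : Base C T Φ g κ P) (hcb : CbSt) (hword : WordSt) (x : X)
    (hx : Perm.sign (C.π x) = -1) : T (Φ x) = 0 := by
  have h := B.anti hcb hword Finset.univ P (fun i _ => B.P2 i) x (mem_univ x)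
  rw [hx] at h
  apply half
  calc T (Φ x) = T (P * (P * Φ x)) := by rw [← mul_assoc, B.P1, one_mul]
    _ = -T (Φ x) := by
      rw [B.hT, h]
      simp [mul_assoc, B.P1]

lemma Base.lt (B : Base C T Φ g κ P) {I : Finset Ω} {i j k l : Ω} (hij : i ≠ j) (hkl : k ≠ l)
    {y y' : C.sub I} (hy : (y : X) = C.t i j) (hy' : (y' : X) = C.t k l) :
    Φ y * Φ y' = (κ ^ 2 * Bc i j k l) • (1 : A) - Φ y' * Φ y := by
  rw [hy, hy', B.ht i j hij, B.ht k l hkl]
  exact anticomm Finset.univ g κ (fun i _ => B.g1 i) (fun i _ j _ => B.g2 i j) (by simp) (by simp)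
    (by simp) (by simp)

lemma Base.mul (B : Base C T Φ g κ P) (hcb : CbSt) (hword : WordSt) (I J : Finset Ω)
    (hd : Disjoint I J) (x : X) (hx : x ∈ C.sub I) (y : X) (hy : y ∈ C.sub J) :
    T (Φ (x * y)) = T (Φ x) * T (Φ y) := by
  have hc := (hcb Ω X C).comm I J hd
  rcases Int.units_eq_one_or (Perm.sign (C.π x)) with h1 | h1 <;>
    rcases Int.units_eq_one_or (Perm.sign (C.π y)) with h2 | h2
  · have := core C hcb hword I (Φ.comp (C.sub I).subtype) B.hz ?_
      (T.comp (LinearMap.mulRight K (Φ y)) - T (Φ y) • T) ?_ (by simp [B.T1]) ⟨x, hx⟩ h1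
    · simp only [LinearMap.sub_apply, LinearMap.comp_apply, LinearMap.mulRight_apply,
        LinearMap.smul_apply, smul_eq_mul, MonoidHom.comp_apply, Subgroup.subtype_apply] at this
      rw [map_mul]
      linear_combination this
    · rintro u u' ⟨i, -, j, -, hij, hu⟩ ⟨k, -, l, -, hkl, hu'⟩
      exact ⟨_, B.lt hij hkl hu hu'⟩
    · intro u _ a
      have h3 := hc u u.2 y hy
      rw [Cover.toSg_sg C y, h2, Sg.zp_one, one_mul] at h3
      have h4 : Φ u * Φ y = Φ y * Φ u := by rw [← map_mul, h3, map_mul]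
      simp only [LinearMap.sub_apply, LinearMap.comp_apply, LinearMap.mulRight_apply,
        LinearMap.smul_apply, smul_eq_mul, MonoidHom.comp_apply, Subgroup.subtype_apply]
      rw [B.hT (Φ u) a, mul_assoc (Φ u), B.hT (Φ u), mul_assoc, ← h4, mul_assoc]
  · rw [B.odd hcb hword y h2, B.odd hcb hword (x * y) (by simp [h1, h2]), mul_zero]
  · rw [B.odd hcb hword x h1, B.odd hcb hword (x * y) (by simp [h1, h2]), zero_mul]
  · rw [B.odd hcb hword x h1, zero_mul]
    apply half
    have h3 := hc x hx y hy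
    rw [Cover.toSg_sg C y, Cover.toSg_sg C x, h1, h2, Sg.zp_neg, Cover.toSg_z] at h3
    conv_lhs => rw [h3]
    rw [map_mul Φ, B.hz, map_mul Φ, map_mul Φ, B.hT (Φ x)]
    simp

lemma Base.tsq (B : Base C T Φ g κ P) {i j : Ω} (hij : i ≠ j) :
    Φ (C.t i j) * Φ (C.t i j) = uK C.q • (1 : A) := by
  rw [← map_mul, C.t_sq i j hij]
  rcases Int.units_eq_one_or C.q with h | h
  · simp [h]
  · simp [h, B.hz]

lemma Base.tinv (B : Base C T Φ g κ P) {i j : Ω} (hij : i ≠ j) :
    Φ (C.t i j)⁻¹ = uK C.q • Φ (C.t i j) := by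
  have : Φ (C.t i j) = uK C.q • Φ (C.t i j)⁻¹ := by
    calc Φ (C.t i j) = Φ (C.t i j) * Φ (C.t i j) * Φ (C.t i j)⁻¹ := by
          rw [mul_assoc, ← map_mul, mul_inv_cancel, map_one, mul_one]
      _ = _ := by rw [B.tsq hij]; simp
  rw [this, smul_smul, uK_sq, one_smul]

lemma Base.inv (B : Base C T Φ g κ P) (hcb : CbSt) (hword : WordSt) (x : X) :
    T (Φ x⁻¹) = T (Φ x) := by
  rcases Int.units_eq_one_or (Perm.sign (C.π x)) with h1 | h1
  swap
  · rw [B.odd hcb hword x h1, B.odd hcb hword x⁻¹ (by simp [h1])]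
  let Ψ : C.sub Finset.univ →* A × Aᵐᵒᵖ :=
    { toFun := fun y => (Φ y, MulOpposite.op (Φ (y : X)⁻¹))
      map_one' := by simp
      map_mul' := fun a b => by simp }
  have hΨ : ∀ y, Ψ y = (Φ y, MulOpposite.op (Φ (y : X)⁻¹)) := fun _ => rfl
  have := core C hcb hword Finset.univ Ψ ?_ ?_
    (T.comp (LinearMap.fst K _ _) -
      (T.comp (MulOpposite.opLinearEquiv K).symm.toLinearMap).comp (LinearMap.snd K _ _))
    ?_ (by simp) ⟨x, mem_univ x⟩ h1
  · simp only [hΨ] at this
    exact (sub_eq_zero.1 this).symm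
  · rw [hΨ, Cover.sgI_z, inv_eq_of_mul_eq_one_right (show C.z * C.z = 1 from C.toSg.zz)]
    simp [B.hz, Prod.ext_iff]
  · rintro u u' ⟨i, -, j, -, hij, hu⟩ ⟨k, -, l, -, hkl, hu'⟩
    refine ⟨κ ^ 2 * Bc i j k l, ?_⟩
    have h := B.lt hij hkl hu hu'
    refine Prod.ext h ?_
    simp only [hΨ, Prod.snd_mul, Prod.snd_sub, Prod.smul_snd, Prod.snd_one]
    apply MulOpposite.unop_injective
    rw [hu, hu'] at h ⊢
    simp only [MulOpposite.unop_mul, MulOpposite.unop_op, MulOpposite.unop_sub,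
      MulOpposite.unop_smul, MulOpposite.unop_one, B.tinv hij, B.tinv hkl, smul_mul_assoc,
      mul_smul_comm, smul_smul, uK_sq, one_smul, h]
    abel
  · intro y _ a
    simp [hΨ, B.hT (Φ y), B.hT a.2.unop]

lemma Base.univ (B : Base C T Φ g κ P) (hcb : CbSt) (hword : WordSt) (I : Finset Ω) (m : Type)
    [Fintype m] [DecidableEq m] (g' : Ω → Matrix m m K) (κ' : K) (Φ' : C.sub I →* Matrix m m K)
    (hκ : 2 * κ' ^ 2 = uK C.q) (h1 : ∀ i ∈ I, g' i * g' i = 1)
    (h2 : ∀ i ∈ I, ∀ j ∈ I, i ≠ j → g' i * g' j = -(g' j * g' i)) (hz : Φ' (C.sgI I).z = -1)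
    (ht : ∀ (x : C.sub I), ∀ i ∈ I, ∀ j ∈ I, i ≠ j → (x : X) = C.t i j → Φ' x = κ' • (g' i - g' j))
    (x : C.sub I) (hx : Perm.sign (C.π x) = 1) : (Φ' x).trace = Fintype.card m * T (Φ x) := by
  have hk : κ' ^ 2 = κ ^ 2 := by linear_combination (2 : K)⁻¹ * (hκ - B.hκ)
  have := core C hcb hword I ((Φ.comp (C.sub I).subtype).prod Φ') ?_ ?_
    ((Fintype.card m : K) • T.comp (LinearMap.fst K _ _) -
      (Matrix.traceLinearMap m K K).comp (LinearMap.snd K _ _)) ?_ (by simp [B.T1]) x hx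
  · exact (sub_eq_zero.1 this).symm
  · exact Prod.ext B.hz hz
  · rintro u u' ⟨i, hi, j, hj, hij, hu⟩ ⟨k, hk', l, hl, hkl, hu'⟩
    refine ⟨κ ^ 2 * Bc i j k l, Prod.ext (B.lt hij hkl hu hu') ?_⟩
    change Φ' u * Φ' u' = (κ ^ 2 * Bc i j k l) • 1 - Φ' u' * Φ' u
    rw [ht u i hi j hj hij hu, ht u' k hk' l hl hkl hu', ← hk]
    exact anticomm I g' κ' h1 h2 hi hj hk' hl
  · intro y _ a
    simp [B.hT (Φ y), Matrix.trace_mul_comm (Φ' y)]

lemma Base.step (B : Base C T Φ g κ P) (hcb : CbSt) (hword : WordSt) {a b c : Ω} (hab : a ≠ b)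
    (hbc : b ≠ c) (hac : a ≠ c) (x : X) (hs : Perm.sign (C.π x) = 1)
    (ha : C.π (C.t b c * (C.t a b * x)) a = a) (hb : C.π (C.t b c * (C.t a b * x)) b = b) :
    T (Φ x) = -κ ^ 2 * T (Φ (C.t b c * (C.t a b * x))) := by
  set y := C.t b c * (C.t a b * x) with hy
  have hys : Perm.sign (C.π y) = 1 := by
    simp [hy, C.πt _ _ hab, C.πt _ _ hbc, hs, Perm.sign_swap hab, Perm.sign_swap hbc]
  have hc : ∀ d, C.π y d = d → g d * Φ y = Φ y * g d := by
    intro d hd
    have := B.anti hcb hword (Finset.univ.erase d) (g d)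
      (fun i hi => B.g2 d i (Finset.ne_of_mem_erase hi).symm) y (fun i hi => by
        obtain rfl : i = d := by simpa using hi
        exact hd)
    rwa [hys, uK_one, one_smul] at this
  have hx : x = (C.t a b)⁻¹ * ((C.t b c)⁻¹ * y) := by rw [hy]; group
  have e : Φ x = κ ^ 2 • (g a * g b * Φ y - g a * g c * Φ y - Φ y + g b * g c * Φ y) := by
    conv_lhs => rw [hx]
    rw [map_mul, map_mul, B.tinv hab, B.tinv hbc, B.ht _ _ hab, B.ht _ _ hbc]
    simp only [smul_mul_assoc, mul_smul_comm, smul_smul, ← mul_assoc, sub_mul, mul_sub, B.g1,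
      one_mul]
    rw [show κ ^ 2 = uK C.q * κ * (uK C.q * κ) by linear_combination (-κ ^ 2) * uK_sq C.q]
    module
  rw [e, map_smul, map_add, map_sub, map_sub, tr_anti T B.hT (hc a ha) (B.g2 a b hab),
    tr_anti T B.hT (hc a ha) (B.g2 a c hac), tr_anti T B.hT (hc b hb) (B.g2 b c hbc)]
  simp

lemma Base.cyc (B : Base C T Φ g κ P) (hcb : CbSt) (hword : WordSt) (k : ℕ) : ∀ x : X,
    (C.π x = 1 ∧ k = 0) ∨ ((C.π x).IsCycle ∧ (C.π x).support.card = 2 * k + 1) →
    T (Φ x) ^ 2 * 4 ^ k = 1 := by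
  induction k with
  | zero =>
    rintro x (⟨h, -⟩ | ⟨h, h'⟩)
    · rcases (C.ker x).1 h with rfl | rfl
      · simp [B.T1]
      · simp [B.hz, B.T1]
    · have := h.two_le_card_support
      omega
  | succ k ih =>
    rintro x (⟨-, h⟩ | ⟨h, h'⟩)
    · omega
    have hs : Perm.sign (C.π x) = 1 := by
      rw [h.sign, h', Odd.neg_one_pow ⟨k + 1, rfl⟩, neg_neg]
    set σ := C.π x with hσ
    obtain ⟨a, ha, -⟩ := id h
    have h2 : σ (σ a) ≠ a := fun h2 => by
      rw [h.eq_swap_of_apply_apply_eq_self ha h2, Perm.card_support_swap ha.symm] at h'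
      omega
    have c1 := h.swap_mul ha h2
    have s1 := Perm.support_swap_mul_eq σ a h2
    set b := σ a with hb
    set σ' := swap a b * σ with hσ'
    have n1 : σ'.support.card = 2 * k + 2 := by
      rw [s1, Finset.sdiff_singleton_eq_erase, Finset.card_erase_of_mem (Perm.mem_support.2 ha), h']
      omega
    have fa : σ' a = a := by simp [hσ', ← hb]
    have mb : σ' b ≠ b := by
      rw [← Perm.mem_support, s1]
      exact Finset.mem_sdiff.2 ⟨Perm.apply_mem_support.2 (Perm.mem_support.2 ha), by simpa using ha⟩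
    set c := σ' b with hc
    have hac : a ≠ c := fun e => ha (σ'.injective (by rw [fa]; exact e)).symm
    have hp : C.π (C.t b c * (C.t a b * x)) = swap b c * σ' := by
      rw [map_mul, map_mul, C.πt _ _ ha.symm, C.πt _ _ mb.symm]
    have st := B.step hcb hword ha.symm mb.symm hac x hs
      (by rw [hp, Perm.mul_apply, fa, swap_apply_of_ne_of_ne ha.symm hac])
      (by rw [hp, Perm.mul_apply, ← hc, swap_apply_right])
    have h3 := ih (C.t b c * (C.t a b * x)) (by
      rw [hp]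
      by_cases h3 : σ' (σ' b) = b
      · have e := c1.eq_swap_of_apply_apply_eq_self mb h3
        left
        refine ⟨by rw [← hc] at e; rw [e]; simp, ?_⟩
        rw [e, Perm.card_support_swap mb.symm] at n1
        omega
      · right
        refine ⟨c1.swap_mul mb h3, ?_⟩
        rw [Perm.support_swap_mul_eq σ' b h3, Finset.sdiff_singleton_eq_erase,
          Finset.card_erase_of_mem (Perm.mem_support.2 mb), n1]
        omega)
    have h4 : (2 * κ ^ 2) * (2 * κ ^ 2) = 1 := by rw [B.hκ, uK_sq]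
    rw [st, pow_succ (4 : K)]
    linear_combination h3 + T (Φ (C.t b c * (C.t a b * x))) ^ 2 * 4 ^ k * h4

end rep

lemma dI (hpa : PermASt) (I : Finset Ω) (σ : Perm Ω) (h : ∀ i ∉ I, σ i = i) :
    Fintype.card Ω - (ty σ).card + (tyI I σ).card = I.card := by
  have h1 := (hpa Ω).tyI_eq I σ h
  have h2 := (hpa Ω).tyI_sum I σ h
  have h3 : (tyI I σ).card ≤ (tyI I σ).sum := by
    have := Multiset.card_nsmul_le_sum (s := tyI I σ) (a := 1) fun m hm =>
      Nat.one_le_iff_ne_zero.2 fun e => (hpa Ω).pos σ (by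
        rw [h1]; exact Multiset.mem_add.2 (Or.inl (e ▸ hm)))
    simpa using this
  have h4 := Finset.card_le_univ I
  rw [h1, Multiset.card_add, Multiset.card_replicate]
  omega

lemma odd_iff (σ : Perm Ω) : (∀ m ∈ ty σ, Odd m) ↔ ∀ m ∈ σ.cycleType, Odd m := by
  rw [ty, Perm.parts_partition]
  refine ⟨fun h m hm => h m (Multiset.mem_add.2 (Or.inl hm)), fun h m hm => ?_⟩
  rcases Multiset.mem_add.1 hm with hm | hm
  · exact h m hm
  · rw [Multiset.eq_of_mem_replicate hm]; exact odd_one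

lemma even_of_odd (s : Multiset ℕ) (h : ∀ m ∈ s, Odd m) : Even (s.sum + s.card) := by
  induction s using Multiset.induction_on with
  | empty => simp
  | cons a s ih =>
    obtain ⟨u, hu⟩ := ih fun m hm => h m (Multiset.mem_cons_of_mem hm)
    obtain ⟨v, hv⟩ := h a (Multiset.mem_cons_self _ _)
    exact ⟨u + v + 1, by rw [Multiset.sum_cons, Multiset.card_cons]; omega⟩

lemma exists_base (hlift : LiftSt) (hgam : GamSt) : ∃ (N : ℕ) (Φ : X →* Matrix (Fin N) (Fin N) K)
    (g : Ω → Matrix (Fin N) (Fin N) K) (κ : K) (P : Matrix (Fin N) (Fin N) K),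
    Base C ((N : K)⁻¹ • Matrix.traceLinearMap (Fin N) K K) Φ g κ P := by
  obtain ⟨g, g1, g2⟩ := hgam (Fintype.card Ω) (Option Ω) (by simp; omega)
  obtain ⟨κ, hκ⟩ := IsAlgClosed.exists_eq_mul_self (uK C.q / 2)
  have hκ' : 2 * κ ^ 2 = uK C.q := by linear_combination (-2 : K) * hκ
  obtain ⟨Φ, hz, ht⟩ := hlift Ω X C Finset.univ _ (fun i => g (some i)) κ hκ'
    (fun i _ => g1 _) fun i _ j _ h => g2 _ _ (by simpa using h)
  refine ⟨2 ^ Fintype.card Ω, Φ.comp ((MonoidHom.id X).codRestrict _ mem_univ),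
    fun i => g (some i), κ, g none, ?_, ?_, hκ', fun i => g1 _,
    fun i j h => g2 _ _ (by simpa using h), hz,
    fun i j h => ht _ i (by simp) j (by simp) h rfl, g1 _, fun i => g2 _ _ (by simp)⟩
  · intro a b
    simp [Matrix.trace_mul_comm a]
  · simp

end TauA

open TauA in
theorem tauA (hch : ChSt) (hsq : SqSt) (hpa : PermASt) (hcb : CbSt) (hword : WordSt)
    (hlift : LiftSt) (hgam : GamSt) : TauASt := by
  intro Ω _ _ X _ _ C
  have : Fintype X := Fintype.ofFinite X
  obtain ⟨N, Φ, g, κ, P, B⟩ := exists_base C hlift hgam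
  set T : Matrix (Fin N) (Fin N) K →ₗ[K] K := (N : K)⁻¹ • Matrix.traceLinearMap (Fin N) K K
    with hT
  let τ : X → K := fun x => rt2 ^ (Fintype.card Ω - (ty (C.π x)).card) * T (Φ x)
  have hτ : ∀ x, τ x = rt2 ^ (Fintype.card Ω - (ty (C.π x)).card) * T (Φ x) := fun _ => rfl
  have hone : τ 1 = 1 := by simp [hτ, (hpa Ω).one, B.T1]
  have hzneg : ∀ x, τ (C.z * x) = -τ x := by
    intro x
    rw [hτ, hτ, map_mul, map_mul Φ, C.πz, B.hz]
    simp
  have hmul : ∀ I J : Finset Ω, Disjoint I J → ∀ x ∈ C.sub I, ∀ y ∈ C.sub J,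
      τ (x * y) = τ x * τ y := by
    intro I J hd x hx y hy
    have h1 := dI hpa I (C.π x) hx
    have h2 := dI hpa J (C.π y) hy
    have h3 := dI hpa (I ∪ J) (C.π x * C.π y) fun i hi => by
      rw [Finset.mem_union, not_or] at hi
      rw [Perm.mul_apply, hy i hi.2, hx i hi.1]
    rw [(hpa Ω).tyI_mul I J _ _ hd hx hy, Multiset.card_add, Finset.card_union_of_disjoint hd] at h3
    rw [hτ, hτ, hτ, B.mul hcb hword I J hd x hx y hy, map_mul,
      show Fintype.card Ω - (ty (C.π x * C.π y)).card = Fintype.card Ω - (ty (C.π x)).card +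
        (Fintype.card Ω - (ty (C.π y)).card) by omega, pow_add]
    ring
  have hsq' : ∀ (σ : Perm Ω) (x : X), C.π x = σ →
      ((∀ m ∈ σ.cycleType, Odd m) → τ x * τ x = 1) ∧ (¬ (∀ m ∈ σ.cycleType, Odd m) → τ x = 0) := by
    intro σ
    induction σ using Perm.cycle_induction_on with
    | base_one =>
      intro x hx
      refine ⟨fun _ => ?_, fun h => absurd (by simp) h⟩
      rcases (C.ker x).1 hx with rfl | rfl
      · rw [hone, mul_one]
      · have := hzneg 1
        rw [mul_one, hone] at this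
        rw [this]; simp
    | base_cycles σ hσ =>
      rintro x rfl
      rw [hσ.cycleType]
      simp only [Multiset.mem_singleton, forall_eq]
      refine ⟨?_, fun h => ?_⟩
      · rintro ⟨k, hk⟩
        have h1 := B.cyc hcb hword k x (Or.inr ⟨hσ, hk⟩)
        have h2 := Finset.card_le_univ (C.π x).support
        have h3 : Fintype.card Ω - (ty (C.π x)).card = 2 * k := by
          rw [ty, Perm.parts_partition, hσ.cycleType, Multiset.card_add, Multiset.card_replicate,
            Multiset.card_singleton]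
          omega
        have h4 : rt2 ^ (2 * k) * rt2 ^ (2 * k) = 4 ^ k := by
          rw [← mul_pow, rt2_mul, pow_mul]; norm_num
        rw [hτ, h3]
        linear_combination h1 + T (Φ x) ^ 2 * h4
      · rw [hτ, B.odd hcb hword x, mul_zero]
        rw [hσ.sign, (Nat.not_odd_iff_even.1 h).neg_one_pow]
    | induction_disjoint σ σ' hd _ ih ih' =>
      intro x hx
      obtain ⟨y, hy⟩ := C.surj σ
      have hy' : C.π (y⁻¹ * x) = σ' := by rw [map_mul, map_inv, hy, hx, inv_mul_cancel_left]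
      have e := hmul σ.support σ'.support hd.disjoint_support y
        (fun i hi => by rw [hy]; exact Perm.notMem_support.1 hi) (y⁻¹ * x)
        (fun i hi => by rw [hy']; exact Perm.notMem_support.1 hi)
      rw [mul_inv_cancel_left] at e
      obtain ⟨a1, a0⟩ := ih y hy
      obtain ⟨b1, b0⟩ := ih' _ hy'
      rw [hd.cycleType_mul, e]
      refine ⟨fun h => ?_, fun h => ?_⟩
      · have a := a1 fun m hm => h m (Multiset.mem_add.2 (Or.inl hm))
        have b := b1 fun m hm => h m (Multiset.mem_add.2 (Or.inr hm))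
        linear_combination τ (y⁻¹ * x) * τ (y⁻¹ * x) * a + b
      · by_cases ha : ∀ m ∈ σ.cycleType, Odd m
        · rw [b0 fun hb => h fun m hm => (Multiset.mem_add.1 hm).elim (ha m) (hb m), mul_zero]
        · rw [a0 ha, zero_mul]
  have hs1 : ∀ x, (∀ m ∈ ty (C.π x), Odd m) → τ x * τ x = 1 := fun x h =>
    (hsq' _ x rfl).1 ((odd_iff _).1 h)
  have hs0 : ∀ x, ¬ (∀ m ∈ ty (C.π x), Odd m) → τ x = 0 := fun x h =>
    (hsq' _ x rfl).2 fun h' => h ((odd_iff _).2 h')
  refine ⟨τ, hs1, hs0, hone, hzneg, ?_, ?_, hmul, ?_, ?_⟩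
  · intro x h
    rw [hτ, hτ, map_mul Φ, B.hT, ← map_mul Φ, inv_mul_cancel_left, map_mul, map_mul, map_inv,
      ← ((hpa Ω).conj _ _).1 (isConj_iff.2 ⟨C.π h, rfl⟩)]
  · intro x
    rw [hτ, hτ, B.inv hcb hword, map_inv, (hpa Ω).inv]
  · intro M σ s x hM hx hs
    have h1 : ty (C.π (x ^ s)) = ty (C.π x) := by
      rw [map_pow]
      refine (hpa Ω).pow _ _ ((hsq.cop M σ s hM hs).coprime_dvd_right ?_)
      exact orderOf_dvd_of_pow_eq_one (by rw [← map_pow, hx, map_one])
    have h2 := (hch.b X).gal _ ((hch.a X).ch_vc _ ((hch.b X).mat (Fin N) Φ Φ.map_mul)) σ M s x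
      hM hx hs
    have h3 : σ (T (Φ x)) = T (Φ (x ^ s)) := by
      simp only [hT, LinearMap.smul_apply, Matrix.traceLinearMap_apply, smul_eq_mul, map_mul,
        map_inv₀, map_natCast]
      rw [h2]
    by_cases h : ∀ m ∈ ty (C.π x), Odd m
    · obtain ⟨k, hk⟩ := even_of_odd _ h
      have h4 := dI hpa Finset.univ (C.π x) (mem_univ x)
      rw [(hpa Ω).tyI_univ, Finset.card_univ] at h4
      rw [(hpa Ω).sum] at hk
      have h5 : rt2 ^ (Fintype.card Ω - (ty (C.π x)).card) = 2 ^ (k - (ty (C.π x)).card) := by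
        rw [← rt2_mul, mul_pow, ← pow_add]
        congr 1
        omega
      have h6 : σ (τ x) = τ x := by
        rcases mul_self_eq_one_iff.1 (hs1 x h) with e | e <;> simp [e]
      rw [← h6, hτ, hτ, h1, h5, map_mul, h3, map_pow σ, map_ofNat]
    · rw [hs0 x h, hs0 _ (by rwa [h1])]
  · intro I m _ _ g' κ' Φ' hκ h1 h2 hz ht x hx
    rw [B.univ hcb hword I m g' κ' Φ' hκ h1 h2 hz ht x hx, hτ, ← dI hpa I (C.π x) x.2, pow_add]
    ring

end Pool.Agent.Lib.MP_1ae3da_al.GM
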