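import Pool.Agent.Lib.MP_1ae3da_al.GT

/-! The basic spin characters of the Young subgroups. -/

namespace Pool.Agent.Lib.MP_1ae3da_al.GM

open Equiv

namespace TauB

section words
variable {J m : Type} [Fintype m] [DecidableEq m] (g : J → Matrix m m K)

/-- the span of the words of length `n`. -/
noncomputable def Wn (n : ℕ) : Submodule K (Matrix m m K) :=
  Submodule.span K {A | ∃ L : List J, L.length = n ∧ A = (L.map g).prod}

lemma Wn_one : (1 : Matrix m m K) ∈ Wn g 0 := Submodule.subset_span ⟨[], rfl, rfl⟩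

lemma Wn_gen (i : J) : g i ∈ Wn g 1 := Submodule.subset_span ⟨[i], rfl, by simp⟩

lemma Wn_mul {a b : ℕ} {A B : Matrix m m K} (hA : A ∈ Wn g a) (hB : B ∈ Wn g b) :
    A * B ∈ Wn g (a + b) := by
  induction hA using Submodule.span_induction with
  | mem A hA =>
    induction hB using Submodule.span_induction with
    | mem B hB =>
      obtain ⟨L, rfl, rfl⟩ := hA
      obtain ⟨L', rfl, rfl⟩ := hB
      exact Submodule.subset_span ⟨L ++ L', by simp, by simp⟩
    | zero => simp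
    | add x y _ _ h1 h2 => rw [mul_add]; exact add_mem h1 h2
    | smul c x _ h => rw [mul_smul_comm]; exact Submodule.smul_mem _ _ h
  | zero => simp
  | add x y _ _ h1 h2 => rw [add_mul]; exact add_mem h1 h2
  | smul c x _ h => rw [smul_mul_assoc]; exact Submodule.smul_mem _ _ h

lemma anti_prod (B : Matrix m m K) (L : List (Matrix m m K)) (h : ∀ A ∈ L, B * A = -(A * B)) :
    B * L.prod = (-1 : K) ^ L.length • (L.prod * B) := by
  induction L with
  | nil => simp
  | cons A L ih =>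
    rw [List.prod_cons, ← mul_assoc, h A (by simp), neg_mul, mul_assoc,
      ih fun A' hA' => h A' (by simp [hA']), List.length_cons, pow_succ, mul_smul_comm]
    simp [mul_assoc]

lemma tr_zero (B A : Matrix m m K) (hB : B * B = 1) (h : B * A = -(A * B)) : A.trace = 0 := by
  have h1 : A.trace = (B * A * B).trace := by
    rw [Matrix.trace_mul_comm (B * A) B, ← mul_assoc, hB, one_mul]
  rw [h, neg_mul, mul_assoc, hB, mul_one, Matrix.trace_neg] at h1
  linear_combination (2⁻¹ : K) * h1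

lemma Wn_tr [Fintype J] (h1 : ∀ i, g i * g i = 1) (h2 : ∀ i j, i ≠ j → g i * g j = -(g j * g i))
    {n : ℕ} (hn : Odd n) (hJ : n < Fintype.card J) {A : Matrix m m K} (hA : A ∈ Wn g n) :
    A.trace = 0 := by
  classical
  induction hA using Submodule.span_induction with
  | mem A hA =>
    obtain ⟨L, rfl, rfl⟩ := hA
    obtain ⟨k, hk⟩ : ∃ k, k ∉ L := by
      by_contra hne
      push Not at hne
      have : (Finset.univ : Finset J) ⊆ L.toFinset := fun k _ => List.mem_toFinset.2 (hne k)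
      have := (Finset.card_le_card this).trans (List.toFinset_card_le L)
      rw [Finset.card_univ] at this
      omega
    refine tr_zero (g k) _ (h1 k) ?_
    rw [anti_prod (g k) (L.map g), List.length_map, hn.neg_one_pow]
    · simp
    · intro A hA
      obtain ⟨i, hi, rfl⟩ := List.mem_map.1 hA
      exact h2 k i fun e => hk (e ▸ hi)
  | zero => simp
  | add x y _ _ h1 h2 => rw [Matrix.trace_add, h1, h2, add_zero]
  | smul c x _ h => rw [Matrix.trace_smul, h, smul_zero]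

end words

section sums
variable {Ω m : Type} [Fintype m] [DecidableEq m] (I : Finset Ω)
  (g : Ω → Matrix m m K) (h1 : ∀ i ∈ I, g i * g i = 1)
  (h2 : ∀ i ∈ I, ∀ j ∈ I, i ≠ j → g i * g j = -(g j * g i))
include h1 h2

lemma sum_anti (i : Ω) (hi : i ∈ I) :
    (∑ k ∈ I, g k) * g i + g i * ∑ k ∈ I, g k = (2 : K) • 1 := by
  rw [Finset.sum_mul, Finset.mul_sum, ← Finset.sum_add_distrib, Finset.sum_eq_single i]
  · rw [h1 i hi, two_smul]
  · intro k hk hki
    rw [h2 k hk i hi hki, neg_add_cancel]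
  · intro h
    exact absurd hi h

lemma exists_P (hI : I.Nonempty) : ∃ c : K, (c • ∑ k ∈ I, g k) * (c • ∑ k ∈ I, g k) = 1 := by
  have hc : (I.card : K) ≠ 0 := Nat.cast_ne_zero.2 hI.card_pos.ne'
  obtain ⟨c, hc2⟩ := IsAlgClosed.exists_eq_mul_self ((I.card : K)⁻¹)
  refine ⟨c, ?_⟩
  have h3 : (∑ k ∈ I, g k) * (∑ k ∈ I, g k) + (∑ k ∈ I, g k) * ∑ k ∈ I, g k
      = ((2 : K) * I.card) • 1 := by
    have : ∑ i ∈ I, ((∑ k ∈ I, g k) * g i + g i * ∑ k ∈ I, g k) = ∑ i ∈ I, (2 : K) • 1 :=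
      Finset.sum_congr rfl fun i hi => sum_anti I g h1 h2 i hi
    rw [Finset.sum_add_distrib, ← Finset.mul_sum, ← Finset.sum_mul, Finset.sum_const] at this
    rw [this, ← Nat.cast_smul_eq_nsmul K, smul_smul, mul_comm]
  have h4 : (∑ k ∈ I, g k) * (∑ k ∈ I, g k) = (I.card : K) • 1 := by
    rw [← two_smul K, mul_smul] at h3
    exact smul_right_injective _ two_ne_zero h3
  rw [smul_mul_smul_comm, h4, smul_smul, ← hc2, inv_mul_cancel₀ hc, one_smul]

lemma P_anti (c κ : K) (i : Ω) (hi : i ∈ I) (j : Ω) (hj : j ∈ I) :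
    (c • ∑ k ∈ I, g k) * (κ • (g i - g j)) = -((κ • (g i - g j)) * (c • ∑ k ∈ I, g k)) := by
  have a := sum_anti I g h1 h2 i hi
  have b := sum_anti I g h1 h2 j hj
  have : (∑ k ∈ I, g k) * (g i - g j) = -((g i - g j) * ∑ k ∈ I, g k) := by
    rw [mul_sub, sub_mul, eq_neg_iff_add_eq_zero]
    calc _ = ((∑ k ∈ I, g k) * g i + g i * ∑ k ∈ I, g k) -
        ((∑ k ∈ I, g k) * g j + g j * ∑ k ∈ I, g k) := by abel
      _ = 0 := by rw [a, b, sub_self]
  rw [smul_mul_smul_comm, smul_mul_smul_comm, this, smul_neg, mul_comm c κ]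

end sums

section cover
variable {Ω : Type} [Fintype Ω] [DecidableEq Ω] {X : Type} [Group X] {C : Cover Ω X}

lemma form (hcb : CbC C) (hword : WordSt) (I : Finset Ω) {A : Type} [Ring A]
    (T : Ω → Ω → A) (Φ : C.sub I →* A) (hz : Φ (C.sgI I).z = -1)
    (ht : ∀ (x : C.sub I), ∀ i ∈ I, ∀ j ∈ I, i ≠ j → (x : X) = C.t i j → Φ x = T i j)
    (x : C.sub I) : ∃ (e : ℕ) (L : List (Ω × Ω)), (∀ w ∈ L, w.1 ∈ I ∧ w.2 ∈ I ∧ w.1 ≠ w.2) ∧
      L.length + (tyI I (C.π x)).card = I.card ∧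
      Φ x = (-1) ^ e * (L.map fun w => T w.1 w.2).prod ∧ Perm.sign (C.π x) = (-1) ^ L.length := by
  have key : ∀ L : List (Ω × Ω), (∀ w ∈ L, w.1 ∈ I ∧ w.2 ∈ I ∧ w.1 ≠ w.2) →
      ∃ y : C.sub I, (y : X) = (L.map fun w => C.t w.1 w.2).prod ∧
        Φ y = (L.map fun w => T w.1 w.2).prod ∧ Perm.sign (C.π y) = (-1) ^ L.length := by
    intro L
    induction L with
    | nil => exact fun _ => ⟨1, rfl, by simp, by simp⟩
    | cons w L ih =>
      intro h
      obtain ⟨y, hy1, hy2, hy3⟩ := ih fun w' hw' => h w' (by simp [hw'])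
      obtain ⟨a, b, c⟩ := h w (by simp)
      refine ⟨⟨C.t w.1 w.2, hcb.t_mem I _ a _ b c⟩ * y, by simp [hy1], ?_, ?_⟩
      · rw [map_mul, ht _ _ a _ b c rfl, hy2]; simp
      · rw [Subgroup.coe_mul, map_mul, map_mul, hy3, C.πt _ _ c, Perm.sign_swap c,
          List.length_cons, pow_succ']
  obtain ⟨e, L, hL, hlen, hx⟩ := hword Ω X C I x x.2
  obtain ⟨y, hy1, hy2, hy3⟩ := key L fun w hw => ⟨(hL w hw).1, (hL w hw).2.1, (hL w hw).2.2.1⟩
  have hxy : x = (C.sgI I).z ^ e * y := Subtype.ext (by rw [hx, ← hy1]; simp)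
  refine ⟨e, L, fun w hw => ⟨(hL w hw).1, (hL w hw).2.1, (hL w hw).2.2.1⟩, hlen, ?_, ?_⟩
  · rw [hxy, map_mul, map_pow, hz, hy2]
  · rw [← hy3, hxy]
    simp [C.πz]

lemma tau_odd (hpa : PermA Ω) {τ : X → K} (hτ : Tau0 C τ) (x : X)
    (hx : Perm.sign (C.π x) = -1) : τ x = 0 := by
  refine hτ.sq0 x fun h => ?_
  have key : ∀ ρ : Multiset ℕ, (∀ m ∈ ρ, Odd m) → Even (ρ.sum + ρ.card) := by
    intro ρ
    induction ρ using Multiset.induction_on with
    | empty => simp
    | cons a ρ ih =>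
      intro h
      obtain ⟨k, hk⟩ := h a (by simp)
      obtain ⟨l, hl⟩ := ih fun m hm => h m (by simp [hm])
      rw [Multiset.sum_cons, Multiset.card_cons]
      exact ⟨k + l + 1, by omega⟩
  have := key _ h
  rw [hpa.sum] at this
  rw [hpa.sign, this.neg_one_pow] at hx
  exact absurd hx (by decide)

lemma uform (hpa : PermA Ω) {τ : X → K} (hτ : Tau0 C τ) (I : Finset Ω) (x : C.sub I) :
    τ x * (rt2⁻¹ * qf I.card (tyI I (C.π x))) =
      τ x * (rt2⁻¹ * rt2 ^ (tyI I (C.π x)).card) := by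
  by_cases h : ∀ m ∈ ty (C.π x), Odd m
  · congr 2
    rw [qf, if_pos (hpa.tyI_sum I _ x.2), Multiset.map_congr rfl (g := fun _ => rt2)]
    · simp
    · intro m hm
      exact if_pos (h m (Multiset.mem_of_le (Multiset.sub_le_self _ _) hm))
  · rw [hτ.sq0 x h, zero_mul, zero_mul]

lemma full (hpa : PermA Ω) (I : Finset Ω) (hI : I.Nonempty) (x : C.sub I)
    (h : (tyI I (C.π x)).card ≤ 1) : tyI I (C.π x) = {I.card} := by
  have h1 := hpa.tyI_sum I _ x.2
  have h2 := hI.card_pos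
  rcases Nat.le_one_iff_eq_zero_or_eq_one.1 h with h | h
  · rw [Multiset.card_eq_zero.1 h] at h1
    simp only [Multiset.sum_zero] at h1
    omega
  · obtain ⟨a, ha⟩ := Multiset.card_eq_one.1 h
    rw [ha] at h1 ⊢
    rw [← h1, Multiset.sum_singleton]

lemma rt2_ne : rt2 ≠ 0 := fun h => by
  have := rt2_mul
  rw [h, mul_zero] at this
  exact two_ne_zero this.symm

lemma rt2_pow (r : ℕ) : rt2 ^ (2 * r) = 2 ^ r := by rw [pow_mul, sq, rt2_mul]

/-- the Clifford model on `I` inside a family indexed by `J`. -/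
lemma model (hcb : CbC C) (hword : WordSt) (hlift : LiftSt) {τ : X → K} (hτ : Tau0 C τ)
    (I : Finset Ω) (hI : I.Nonempty) {J m : Type} [Fintype m] [DecidableEq m]
    (g : J → Matrix m m K) (h1 : ∀ i, g i * g i = 1)
    (h2 : ∀ i j, i ≠ j → g i * g j = -(g j * g i)) (ι : I → J) (hι : Function.Injective ι) :
    ∃ (Φ : C.sub I →* Matrix m m K) (P : Matrix m m K), Φ (C.sgI I).z = -1 ∧ P * P = 1 ∧
      P ∈ Wn g 1 ∧ (∀ k, k ∉ Set.range ι → g k * P = -(P * g k)) ∧
      (∀ x : C.sub I, Perm.sign (C.π x) = 1 →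
        (Φ x).trace * rt2 ^ I.card = Fintype.card m * τ x * rt2 ^ (tyI I (C.π x)).card) ∧
      ∀ x : C.sub I, ∃ d : ℕ, d + (tyI I (C.π x)).card = I.card ∧
        Perm.sign (C.π x) = (-1) ^ d ∧ Φ x ∈ Wn g d ∧ P * Φ x = (-1 : K) ^ d • (Φ x * P) ∧
        ∀ k, k ∉ Set.range ι → g k * Φ x = (-1 : K) ^ d • (Φ x * g k) := by
  let g' : Ω → Matrix m m K := fun i => if h : i ∈ I then g (ι ⟨i, h⟩) else 0
  have hg : ∀ i (h : i ∈ I), g' i = g (ι ⟨i, h⟩) := fun i h => dif_pos h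
  have k1 : ∀ i ∈ I, g' i * g' i = 1 := fun i h => by rw [hg i h, h1]
  have k2 : ∀ i ∈ I, ∀ j ∈ I, i ≠ j → g' i * g' j = -(g' j * g' i) := fun i hi j hj hij => by
    rw [hg i hi, hg j hj]
    exact h2 _ _ fun e => hij (congrArg Subtype.val (hι e))
  have k3 : ∀ k, k ∉ Set.range ι → ∀ i ∈ I, g k * g' i = -(g' i * g k) := fun k hk i hi => by
    rw [hg i hi]
    exact h2 _ _ fun e => hk ⟨_, e.symm⟩
  have k4 : ∀ i ∈ I, g' i ∈ Wn g 1 := fun i hi => by rw [hg i hi]; exact Wn_gen g _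
  obtain ⟨κ, hκ⟩ := IsAlgClosed.exists_eq_mul_self (uK C.q / 2)
  have hκ' : 2 * κ ^ 2 = uK C.q := by rw [sq, ← hκ]; field_simp
  obtain ⟨Φ, hz, ht⟩ := hlift Ω X C I (Matrix m m K) g' κ hκ' k1 k2
  obtain ⟨c, hc⟩ := exists_P I g' k1 k2 hI
  refine ⟨Φ, c • ∑ k ∈ I, g' k, hz, hc, Submodule.smul_mem _ _ (Submodule.sum_mem _ k4), ?_,
    hτ.univ I m g' κ Φ hκ' k1 k2 hz ht, fun x => ?_⟩
  · intro k hk
    rw [mul_smul_comm, smul_mul_assoc, Finset.mul_sum, Finset.sum_mul, ← smul_neg,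
      ← Finset.sum_neg_distrib, Finset.sum_congr rfl (k3 k hk)]
  · obtain ⟨e, L, hL, hlen, hΦ, hs⟩ := form hcb hword I (fun i j => κ • (g' i - g' j)) Φ hz ht x
    have hΦ' : Φ x = (-1 : K) ^ e • (L.map fun w => κ • (g' w.1 - g' w.2)).prod := by
      rw [hΦ]
      rcases neg_one_pow_eq_or K e with h | h <;> rcases Nat.even_or_odd e with h' | h' <;>
        simp [h'.neg_one_pow]
    have hanti : ∀ B : Matrix m m K, (∀ i ∈ I, ∀ j ∈ I,
        B * (κ • (g' i - g' j)) = -((κ • (g' i - g' j)) * B)) →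
        B * Φ x = (-1 : K) ^ L.length • (Φ x * B) := by
      intro B hB
      rw [hΦ', mul_smul_comm, anti_prod, List.length_map, smul_mul_assoc, smul_comm]
      intro A hA
      obtain ⟨w, hw, rfl⟩ := List.mem_map.1 hA
      exact hB _ (hL w hw).1 _ (hL w hw).2.1
    refine ⟨L.length, hlen, hs, ?_, hanti _ fun i hi j hj => P_anti I g' k1 k2 c κ i hi j hj,
      fun k hk => hanti _ fun i hi j hj => ?_⟩
    · rw [hΦ']
      refine Submodule.smul_mem _ _ ?_
      clear hΦ hΦ' hanti hs hlen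
      induction L with
      | nil => exact Wn_one g
      | cons w L ih =>
        rw [List.map_cons, List.prod_cons, List.length_cons, add_comm]
        exact Wn_mul g (Submodule.smul_mem _ _ (sub_mem (k4 _ (hL w (by simp)).1)
          (k4 _ (hL w (by simp)).2.1))) (ih fun w' hw' => hL w' (by simp [hw']))
    · rw [mul_smul_comm, smul_mul_assoc, mul_sub, sub_mul, k3 k hk i hi, k3 k hk j hj,
        ← smul_neg]
      congr 1
      abel

lemma par {d : ℕ} {u : ℤˣ} (h : u = (-1) ^ d) : (u = 1 ∧ Even d) ∨ (u = -1 ∧ Odd d) := by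
  rcases Nat.even_or_odd d with h' | h'
  · exact Or.inl ⟨by rw [h, h'.neg_one_pow], h'⟩
  · exact Or.inr ⟨by rw [h, h'.neg_one_pow], h'⟩

lemma odd_case [Finite X] (hch : ChSt) (hpa : PermA Ω) (hcb : CbC C) (hword : WordSt)
    (hlift : LiftSt) (hgam : GamSt) {τ : X → K} (hτ : Tau0 C τ) (I : Finset Ω) (r : ℕ)
    (hI : I.card = 2 * r + 1) :
    (C.sgI I).L0 (fun x => τ x * (rt2⁻¹ * qf I.card (tyI I (C.π x))))
      fun x => tyI I (C.π x) = {I.card} := by
  classical
  have hne : I.Nonempty := Finset.card_pos.1 (by omega)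
  let := Fintype.ofFinite (C.sub I)
  obtain ⟨g, h1, h2⟩ := hgam r I (by simp [hI])
  obtain ⟨Φ, P, hz, hP, hPW, -, huniv, hx⟩ :=
    model hcb hword hlift hτ I hne g h1 h2 id Function.injective_id
  let ρ : (C.sgI I).TP → Matrix (Fin (2 ^ r)) (Fin (2 ^ r)) K :=
    fun y => Φ y.left * if y.right = 1 then 1 else P
  have hρ : ∀ a b, ρ (a * b) = ρ a * ρ b := by
    rintro ⟨x, u⟩ ⟨y, v⟩
    obtain ⟨d, -, hs, -, hd, -⟩ := hx y
    have hPy : ∀ B, P * (Φ y * B) = (-1 : K) ^ d • (Φ y * (P * B)) := fun B => by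
      rw [← mul_assoc, hd, smul_mul_assoc, mul_assoc]
    have hu : (-1 : ℤˣ) ≠ 1 := by decide
    simp only [ρ, SemidirectProduct.mul_left, SemidirectProduct.mul_right, Sg.φ_apply, map_mul,
      Cover.sgI_sg]
    rcases par hs with ⟨hs, he⟩ | ⟨hs, he⟩ <;> rcases Int.units_eq_one_or u with rfl | rfl <;>
      rcases Int.units_eq_one_or v with rfl | rfl <;>
      simp [hs, hu, hz, mul_assoc, hPy, hd, he.neg_one_pow, hP]
  refine ⟨fun y => (ρ y).trace, (hch.a _).ch_vc _ ((hch.b _).mat _ ρ hρ), fun x u => ?_,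
    fun x => ?_⟩
  · simp only [ρ, map_mul, hz, neg_mul, one_mul, Matrix.trace_neg]
  obtain ⟨d, hlen, hs, hW, hd, -⟩ := hx x
  have hu : (-1 : ℤˣ) ≠ 1 := by decide
  constructor
  · simp only [ρ, if_true, mul_one]
    rcases par hs with ⟨hs, he⟩ | ⟨hs, he⟩
    · have := huniv x hs
      rw [hI, pow_succ, rt2_pow, Fintype.card_fin] at this
      rw [uform hpa hτ]
      push_cast at this
      have h3 := rt2_ne
      have h4 : (2 : K) ^ r ≠ 0 := pow_ne_zero _ two_ne_zero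
      field_simp
      apply mul_left_cancel₀ h4
      linear_combination -this
    · rw [tau_odd hpa hτ x hs, zero_mul, tr_zero P _ hP]
      rw [hd, he.neg_one_pow, neg_one_smul]
  · simp only [ρ, if_neg hu]
    intro hne0
    refine full hpa I hne x ?_
    by_contra hlt
    apply hne0
    rcases par hs with ⟨hs, he⟩ | ⟨hs, he⟩
    · refine Wn_tr g h1 h2 he.add_one ?_ (Wn_mul g hW hPW)
      rw [Fintype.card_coe]
      omega
    · refine tr_zero P _ hP ?_
      rw [← mul_assoc, hd, he.neg_one_pow, neg_one_smul, neg_mul]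

lemma even_case [Finite X] (hch : ChSt) (hpa : PermA Ω) (hcb : CbC C) (hword : WordSt)
    (hlift : LiftSt) (hgam : GamSt) {τ : X → K} (hτ : Tau0 C τ) (I : Finset Ω) (hne : I.Nonempty)
    (r : ℕ) (hI : I.card = 2 * r) :
    (C.sgI I).L1 (fun x => τ x * (rt2⁻¹ * qf I.card (tyI I (C.π x))))
      fun x => tyI I (C.π x) = {I.card} := by
  classical
  let := Fintype.ofFinite (C.sub I)
  obtain ⟨g, h1, h2⟩ := hgam r (Option I) (by simp [hI])
  obtain ⟨Φ, P, hz, hP, hPW, hP0, huniv, hx⟩ :=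
    model hcb hword hlift hτ I hne g h1 h2 some (Option.some_injective _)
  have hn : (none : Option I) ∉ Set.range some := by simp
  have hP1 := hP0 none hn
  obtain ⟨i, hi⟩ := IsAlgClosed.exists_eq_mul_self (-1 : K)
  set N := g none with hN
  have hNN : N * N = 1 := h1 none
  have hQ : P * N * (P * N) = -1 := by
    rw [mul_assoc, ← mul_assoc N, hP1, neg_mul, mul_assoc, hNN, mul_one, mul_neg, hP]
  have hQΦ : ∀ x, P * N * Φ x = Φ x * (P * N) := by
    intro x
    obtain ⟨d, -, -, -, hd, hd'⟩ := hx x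
    rw [mul_assoc, hd' none hn, mul_smul_comm, ← mul_assoc, hd, smul_mul_assoc, smul_smul,
      ← mul_pow, mul_assoc, neg_mul_neg, one_mul, one_pow, one_smul]
  let E : Matrix (Fin (2 ^ r)) (Fin (2 ^ r)) K := (2⁻¹ : K) • (1 + i • (P * N))
  have hE : E * E = E := by
    simp only [E, smul_mul_smul_comm, add_mul, mul_add, one_mul, mul_one, hQ, ← hi]
    module
  have hEΦ : ∀ x, E * Φ x = Φ x * E := by
    intro x
    simp only [E, smul_mul_assoc, mul_smul_comm, add_mul, mul_add, one_mul, mul_one, hQΦ]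
  have htr : ∀ x, (Φ x * E).trace = 2⁻¹ * ((Φ x).trace + i * (Φ x * (P * N)).trace) := by
    intro x
    simp only [E, mul_smul_comm, mul_add, mul_one, Matrix.trace_smul, Matrix.trace_add,
      smul_eq_mul]
  refine ⟨fun x => (Φ x * E).trace, (hch.a _).ch_vc _ ((hch.b _).mat _ (fun x => Φ x * E)
    fun x y => ?_), fun x => ?_, fun x => ?_⟩
  · rw [map_mul, mul_assoc (Φ x) E, ← mul_assoc E, hEΦ, mul_assoc (Φ y), hE, mul_assoc]
  · simp only [map_mul, hz, neg_mul, one_mul, Matrix.trace_neg]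
  obtain ⟨d, hlen, hs, hW, hd, hd'⟩ := hx x
  have hd0 := hd' none hn
  have hu : (-1 : ℤˣ) ≠ 1 := by decide
  rw [Cover.sgI_sg]
  rcases par hs with ⟨hs, he⟩ | ⟨hs, he⟩
  · refine ⟨fun _ => ?_, fun h => absurd (h.symm.trans hs) hu⟩
    have := huniv x hs
    rw [hI, rt2_pow, Fintype.card_fin] at this
    push_cast at this
    have h3 := rt2_ne
    have h4 : (2 : K) ^ r ≠ 0 := pow_ne_zero _ two_ne_zero
    have h5 : (Φ x * (P * N)).trace = 0 := by
      refine tr_zero N _ hNN ?_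
      rw [← mul_assoc, hd0, he.neg_one_pow, one_smul, mul_assoc, ← mul_assoc N, hP1, mul_assoc,
        neg_mul, mul_neg]
    have h6 : (Φ x).trace = τ x * rt2 ^ (tyI I (C.π x)).card := by
      apply mul_left_cancel₀ h4
      linear_combination this
    change τ x * _ = rt2 * (Φ x * E).trace
    rw [uform hpa hτ, htr, h5, h6]
    field_simp
    linear_combination (-(τ x * rt2 ^ (tyI I (C.π x)).card)) * rt2_mul
  · refine ⟨fun h => absurd (hs.symm.trans h) hu, fun _ => ⟨?_, fun hne0 => ?_⟩⟩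
    · change τ x * _ = 0
      rw [tau_odd hpa hτ x hs, zero_mul]
    · refine full hpa I hne x ?_
      by_contra hlt
      apply hne0
      change (Φ x * E).trace = 0
      have h5 : (Φ x).trace = 0 := by
        refine tr_zero P _ hP ?_
        rw [hd, he.neg_one_pow, neg_one_smul]
      have h6 : (Φ x * (P * N)).trace = 0 := by
        have h8 : N ∈ Wn g 1 := Wn_gen g none
        have h7 : P * N ∈ Wn g (1 + 1) := Wn_mul g hPW h8
        refine Wn_tr g h1 h2 (he.add_even ⟨1, rfl⟩) ?_ (Wn_mul g hW h7)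
        rw [Fintype.card_option, Fintype.card_coe]
        omega
      rw [htr, h5, h6]
      simp

lemma zero_case [Finite X] (hch : ChSt) {τ : X → K} (hτ : Tau0 C τ) :
    (C.sgI ∅).L0 (fun x => τ x) fun _ => True := by
  classical
  let := Fintype.ofFinite (C.sub ∅)
  let ρ : (C.sgI ∅).TP → Matrix Unit Unit K := fun y => τ y.left • 1
  have hρ : ∀ a b, ρ (a * b) = ρ a * ρ b := by
    rintro ⟨x, u⟩ ⟨y, v⟩
    have hy : C.π y = 1 := Equiv.ext fun i => y.2 i (by simp)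
    simp only [ρ, SemidirectProduct.mul_left, Sg.φ_apply, Cover.sgI_sg, hy, map_one, Sg.zp_one,
      one_mul, Subgroup.coe_mul, smul_mul_smul_comm]
    rw [hτ.mul ∅ ∅ (by simp) x x.2 y y.2]
  refine ⟨fun y => (ρ y).trace, (hch.a _).ch_vc _ ((hch.b _).mat _ ρ hρ), fun x u => ?_,
    fun x => ⟨?_, fun _ => trivial⟩⟩
  · simp [ρ, hτ.zneg]
  · simp [ρ]

end cover

end TauB

open TauB in
theorem tauB (hch : ChSt) (hpa : PermASt) (hcb : CbSt) (hword : WordSt) (hlift : LiftSt)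
    (hgam : GamSt) : TauBSt := by
  intro Ω _ _ X _ _ C τ hτ
  have hu : (-1 : ℤˣ) ≠ 1 := by decide
  refine ⟨hτ.sq1, hτ.sq0, hτ.one, hτ.zneg, hτ.cl, hτ.inv, hτ.mul, hτ.pow,
    ⟨fun _ => zero_case hch hτ, fun h => absurd h.symm hu⟩, fun I hI => ?_⟩
  obtain ⟨r, hr | hr⟩ := Nat.even_or_odd' I.card
  · have : (-1 : ℤˣ) ^ (I.card + 1) = -1 := Odd.neg_one_pow ⟨r, by omega⟩
    rw [this]
    exact ⟨fun h => absurd h hu, fun _ =>
      even_case hch (hpa Ω) (hcb Ω X C) hword hlift hgam hτ I hI r hr⟩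
  · have : (-1 : ℤˣ) ^ (I.card + 1) = 1 := Even.neg_one_pow ⟨r + 1, by omega⟩
    rw [this]
    exact ⟨fun _ => odd_case hch (hpa Ω) (hcb Ω X C) hword hlift hgam hτ I r hr,
      fun h => absurd h.symm hu⟩

end Pool.Agent.Lib.MP_1ae3da_al.GM
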