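import Pool.Agent.Lib.MP_1ae3da_al.GT

/-! The parity of the number of orbits on the local model, and the sign. -/

namespace Pool.Agent.Lib.MP_1ae3da_al.GM

open Equiv

namespace Tool

variable {p : ℕ} [Fact p.Prime]

lemma ex_om (p : ℕ) [Fact p.Prime] : ∃ ω : (ZMod p)ˣ →* K, Function.Injective ω := by
  have hp : p.Prime := Fact.out
  have h1 : p - 1 ≠ 0 := by have := hp.two_le; omega
  haveI : NeZero (p - 1) := ⟨h1⟩
  haveI : NeZero ((p - 1 : ℕ) : K) := ⟨Nat.cast_ne_zero.2 h1⟩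
  obtain ⟨ζ, hζ⟩ := HasEnoughRootsOfUnity.exists_primitiveRoot K (p - 1)
  have hc : Nat.card (ZMod p)ˣ = Nat.card (rootsOfUnity (p - 1) K) := by
    rw [HasEnoughRootsOfUnity.natCard_rootsOfUnity, Nat.card_eq_fintype_card,
      ZMod.card_units]
  let e : (ZMod p)ˣ ≃* rootsOfUnity (p - 1) K := mulEquivOfCyclicCardEq hc
  refine ⟨(Units.coeHom K).comp ((rootsOfUnity (p - 1) K).subtype.comp e.toMonoidHom), ?_⟩
  intro x y h
  apply e.injective
  apply Subtype.ext
  apply Units.ext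
  exact h

lemma om_pow (ω : (ZMod p)ˣ →* K) (c : (ZMod p)ˣ) : ω c ^ (p - 1) = 1 := by
  rw [← map_pow, ZMod.units_pow_card_sub_one_eq_one, map_one]

lemma om_half (hp2 : p ≠ 2) (ω : (ZMod p)ˣ →* K) (hω : Function.Injective ω) (c : (ZMod p)ˣ) :
    ω c ^ (p / 2) = uK (chi (c : ZMod p)) := by
  have hp : p.Prime := Fact.out
  have hc : (c : ZMod p) ≠ 0 := c.ne_zero
  rw [← map_pow]
  unfold chi
  split_ifs with h
  · have h1 : c ^ (p / 2) = 1 := Units.ext (by
      rw [Units.val_pow_eq_pow_val]; exact (ZMod.euler_criterion p hc).1 h)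
    rw [h1, map_one, uK_one]
  · have h0 : c ^ (p / 2) ≠ 1 := fun h1 => h ((ZMod.euler_criterion p hc).2 (by
      rw [← Units.val_pow_eq_pow_val, h1, Units.val_one]))
    have h2 : ω (c ^ (p / 2)) * ω (c ^ (p / 2)) = 1 := by
      rw [← map_mul, ← pow_add]
      have : p / 2 + p / 2 = p - 1 := by
        have := hp.eq_two_or_odd.resolve_left hp2
        omega
      rw [this, ZMod.units_pow_card_sub_one_eq_one, map_one]
    rcases mul_self_eq_one_iff.1 h2 with h3 | h3
    · exact absurd (hω (h3.trans (map_one ω).symm)) h0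
    · rw [h3, uK_neg, uK_one]

/-- the fixed points in one coordinate. -/
lemma one_coord (ω : (ZMod p)ˣ →* K) (hω : Function.Injective ω) (c : (ZMod p)ˣ) (h : Prop)
    [Decidable h] :
    ((Finset.univ.filter fun x : ZMod p => (h → x = 0) ∧ (c : ZMod p) * x = x).card : K) =
      ∑ a ∈ (if h then {0} else Finset.range p), ω c ^ a := by
  have hp : p.Prime := Fact.out
  by_cases hh : h
  · have : (Finset.univ.filter fun x : ZMod p => (h → x = 0) ∧ (c : ZMod p) * x = x) = {0} := by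
      ext x
      simp only [Finset.mem_filter, Finset.mem_univ, true_and, Finset.mem_singleton]
      exact ⟨fun k => k.1 hh, fun k => by simp [k]⟩
    rw [this]; simp [hh]
  · by_cases hc : c = 1
    · subst hc
      have : (Finset.univ.filter fun x : ZMod p => (h → x = 0) ∧
          ((1 : (ZMod p)ˣ) : ZMod p) * x = x) = Finset.univ := by
        ext x; simp [hh]
      rw [this]; simp [hh, ZMod.card]
    · have : (Finset.univ.filter fun x : ZMod p => (h → x = 0) ∧ (c : ZMod p) * x = x) = {0} := by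
        ext x
        simp only [Finset.mem_filter, Finset.mem_univ, true_and, Finset.mem_singleton]
        refine ⟨fun k => ?_, fun k => by simp [k]⟩
        by_contra hx
        exact hc (Units.ext (by simpa using mul_right_cancel₀ hx (k.2.trans (one_mul x).symm)))
      rw [this, if_neg hh]
      have h1 : ω c ≠ 1 := fun k => hc (hω (k.trans (map_one ω).symm))
      have h2 : p = (p - 1) + 1 := by have := hp.two_le; omega
      have h3 : ∑ a ∈ Finset.range (p - 1), ω c ^ a = 0 := by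
        have := mul_geom_sum (ω c) (p - 1)
        rw [om_pow, sub_self] at this
        exact (mul_eq_zero.1 this).resolve_left (sub_ne_zero.2 h1)
      have h4 : Finset.range p = Finset.range ((p - 1) + 1) := congrArg _ h2
      rw [h4, Finset.sum_range_succ, h3, om_pow]; simp

variable {k0 : ℕ} {B : Type} [Fintype B] [DecidableEq B] {lv : B → Fin k0}

/-- the exponents. -/
def R (p : ℕ) (lv : B → Fin k0) (b : B) : Finset (Fin k0 → ℕ) :=
  Fintype.piFinset fun j => if lv b ≤ j then {0} else Finset.range p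

lemma fix_card (ω : (ZMod p)ˣ →* K) (hω : Function.Injective ω) (δ : Lg p k0 lv) :
    ((Finset.univ.filter fun w : Om p k0 lv => δ.ap w = w).card : K) =
      ∑ b, if δ.π b = b then ∑ a ∈ R p lv b, ∏ j, ω (δ.c b j) ^ a j else 0 := by
  classical
  rw [Finset.card_eq_sum_card_fiberwise (f := fun w : Om p k0 lv => w.1.1) (t := Finset.univ)
    (fun _ _ => Finset.mem_coe.2 (Finset.mem_univ _)), Nat.cast_sum]
  refine Finset.sum_congr rfl fun b _ => ?_
  split_ifs with hb
  · rw [R, ← Finset.prod_univ_sum]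
    simp only [← one_coord ω hω]
    rw [← Nat.cast_prod, ← Fintype.card_piFinset]
    congr 1
    refine Finset.card_bij (fun w _ => w.1.2) ?_ ?_ ?_
    · intro w hw
      simp only [Finset.mem_filter, Finset.mem_univ, true_and] at hw
      simp only [Fintype.mem_piFinset, Finset.mem_filter, Finset.mem_univ, true_and]
      intro j
      refine ⟨fun h => w.2 j (by rwa [hw.2]), ?_⟩
      have := congrFun (congrArg (fun u : Om p k0 lv => u.1.2) hw.1) j
      simpa [Lg.ap, hw.2] using this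
    · intro w hw w' hw' h
      simp only [Finset.mem_filter, Finset.mem_univ, true_and] at hw hw'
      exact Subtype.ext (Prod.ext (hw.2.trans hw'.2.symm) h)
    · intro x hx
      simp only [Fintype.mem_piFinset, Finset.mem_filter, Finset.mem_univ, true_and] at hx
      refine ⟨⟨(b, x), fun j h => (hx j).1 h⟩, ?_, rfl⟩
      simp only [Finset.mem_filter, Finset.mem_univ, true_and, and_true]
      apply Subtype.ext
      exact Prod.ext hb (funext fun j => (hx j).2)
  · rw [Nat.cast_eq_zero, Finset.card_eq_zero, Finset.eq_empty_iff_forall_notMem]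
    intro w hw
    simp only [Finset.mem_filter, Finset.mem_univ, true_and] at hw
    apply hb
    have := congrArg (fun u : Om p k0 lv => u.1.1) hw.1
    simpa [Lg.ap, hw.2] using this

/-- the stabiliser of a block. -/
def St (Δ : Subgroup (Lg p k0 lv)) (b : B) : Subgroup Δ where
  carrier := {δ | δ.1.π b = b}
  one_mem' := rfl
  mul_mem' := by
    intro x y hx hy
    change x.1.π (y.1.π b) = b
    rw [hy, hx]
  inv_mem' := by
    intro x hx
    change x.1.π⁻¹ b = b
    rw [Perm.inv_eq_iff_eq]; exact hx.symm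

/-- the character of the stabiliser attached to an exponent. -/
noncomputable def ch (ω : (ZMod p)ˣ →* K) (Δ : Subgroup (Lg p k0 lv)) (b : B) (a : Fin k0 → ℕ) :
    St Δ b →* K where
  toFun δ := ∏ j, ω (δ.1.1.c b j) ^ a j
  map_one' := by simp
  map_mul' x y := by
    have hy : y.1.1.π b = b := y.2
    simp [hy, mul_pow, Finset.prod_mul_distrib]

open Classical in
/-- the exponents with trivial character. -/
noncomputable def A (ω : (ZMod p)ˣ →* K) (Δ : Subgroup (Lg p k0 lv)) (b : B) :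
    Finset (Fin k0 → ℕ) :=
  (R p lv b).filter fun a => ∀ δ ∈ Δ, δ.π b = b → ∏ j, ω (δ.c b j) ^ a j = 1

lemma st_sum (ω : (ZMod p)ˣ →* K) (Δ : Subgroup (Lg p k0 lv)) [Fintype Δ] (b : B) :
    (∑ δ : Δ, if δ.1.π b = b then ∑ a ∈ R p lv b, ∏ j, ω (δ.1.c b j) ^ a j else 0) =
      (Nat.card (St Δ b) : K) * (A ω Δ b).card := by
  classical
  have h1 : (∑ δ : Δ, if δ.1.π b = b then ∑ a ∈ R p lv b, ∏ j, ω (δ.1.c b j) ^ a j else 0) =
      ∑ δ : St Δ b, ∑ a ∈ R p lv b, ch ω Δ b a δ := by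
    rw [← Finset.sum_filter]
    exact Finset.sum_subtype _ (fun δ => by simp [St]) _
  rw [h1, Finset.sum_comm, A, Finset.card_filter, Nat.cast_sum, Finset.mul_sum]
  refine Finset.sum_congr rfl fun a _ => ?_
  rw [sum_hom_units, Nat.card_eq_fintype_card]
  by_cases h : ch ω Δ b a = 1
  · rw [if_pos h, if_pos, Nat.cast_one, mul_one]
    intro δ hδ hb
    exact DFunLike.congr_fun h ⟨⟨δ, hδ⟩, hb⟩
  · rw [if_neg h, if_neg, Nat.cast_zero, mul_zero]
    intro k
    exact h (MonoidHom.ext fun δ => k δ.1.1 δ.1.2 δ.2)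

lemma conj_c (γ δ : Lg p k0 lv) (b : B) (h : δ.π (γ.π b) = γ.π b) :
    (γ⁻¹ * δ * γ).π b = b ∧ ∀ j, (γ⁻¹ * δ * γ).c b j = δ.c (γ.π b) j := by
  refine ⟨by simp [h], fun j => ?_⟩
  simp only [Lg.mul_c, Lg.inv_c, h]
  simp [mul_comm]

lemma A_sub (ω : (ZMod p)ˣ →* K) (Δ : Subgroup (Lg p k0 lv)) (γ : Lg p k0 lv) (hγ : γ ∈ Δ)
    (b : B) : A ω Δ b ⊆ A ω Δ (γ.π b) := by
  classical
  intro a ha
  simp only [A, Finset.mem_filter] at ha ⊢
  refine ⟨by simpa only [R, γ.hπ] using ha.1, fun δ hδ h => ?_⟩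
  have := ha.2 _ (Δ.mul_mem (Δ.mul_mem (Δ.inv_mem hγ) hδ) hγ) (conj_c γ δ b h).1
  simpa only [(conj_c γ δ b h).2] using this

lemma A_eq (ω : (ZMod p)ˣ →* K) (Δ : Subgroup (Lg p k0 lv)) (γ : Lg p k0 lv) (hγ : γ ∈ Δ)
    (b : B) : A ω Δ (γ.π b) = A ω Δ b := by
  refine Finset.Subset.antisymm ?_ (A_sub ω Δ γ hγ b)
  simpa using A_sub ω Δ γ⁻¹ (Δ.inv_mem hγ) (γ.π b)

lemma st_card (Δ : Subgroup (Lg p k0 lv)) [Fintype Δ] (b0 : B) (s : Finset B)
    (hs : ∀ b, b ∈ s ↔ ∃ δ ∈ Δ, δ.π b0 = b) : ∑ b ∈ s, Nat.card (St Δ b) = Fintype.card Δ := by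
  classical
  rw [← Finset.card_univ, Finset.card_eq_sum_card_fiberwise (f := fun δ : Δ => δ.1.π b0) (t := s)
    (fun δ _ => Finset.mem_coe.2 ((hs _).2 ⟨δ.1, δ.2, rfl⟩))]
  refine Finset.sum_congr rfl fun b hb => ?_
  obtain ⟨γ, hγ, rfl⟩ := (hs b).1 hb
  rw [← Fintype.card_coe, ← Nat.card_eq_fintype_card]
  refine Nat.card_congr ⟨fun δ => ⟨δ.1 * ⟨γ, hγ⟩, ?_⟩, fun δ => ⟨δ.1 * ⟨γ, hγ⟩⁻¹, ?_⟩, ?_, ?_⟩
  · simp only [Finset.mem_filter, Finset.mem_univ, true_and]
    exact δ.2
  · have := δ.2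
    simp only [Finset.mem_filter, Finset.mem_univ, true_and] at this
    change (δ.1.1 * γ⁻¹).π (γ.π b0) = γ.π b0
    simpa using this
  · intro δ; simp
  · intro δ; simp

lemma oc_eq (ω : (ZMod p)ˣ →* K) (hω : Function.Injective ω)
    (hinj : Function.Injective (Lg.tp : Lg p k0 lv →* _)) (Δ : Subgroup (Lg p k0 lv))
    (O : Type) [Fintype O] (f : B → O) (g : O → B) (hg : ∀ o, f (g o) = o)
    (hf : ∀ b b', f b = f b' ↔ ∃ δ ∈ Δ, δ.π b = b') :
    oc (Δ.map Lg.tp) = ∑ o, (A ω Δ (g o)).card := by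
  classical
  haveI : Finite (Lg p k0 lv) := Finite.of_injective _ hinj
  haveI : Fintype Δ := Fintype.ofFinite _
  haveI : Fintype (Δ.map Lg.tp) := Fintype.ofFinite _
  haveI : Fintype (MulAction.orbitRel.Quotient (Δ.map Lg.tp) (Om p k0 lv)) := Fintype.ofFinite _
  have h1 := MulAction.sum_card_fixedBy_eq_card_orbits_mul_card_group (Δ.map Lg.tp) (Om p k0 lv)
  let e := (Δ.equivMapOfInjective Lg.tp hinj).toEquiv
  have h2 : Fintype.card (Δ.map Lg.tp) = Fintype.card Δ := (Fintype.card_congr e).symm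
  have h3 : (∑ x : Δ.map Lg.tp, Fintype.card (MulAction.fixedBy (Om p k0 lv) x)) =
      ∑ δ : Δ, (Finset.univ.filter fun w : Om p k0 lv => δ.1.ap w = w).card := by
    refine (Fintype.sum_equiv e _ _ fun δ => ?_).symm
    rw [← Fintype.card_coe]
    refine Fintype.card_congr (Equiv.subtypeEquivRight fun w => ?_)
    simp only [Finset.mem_filter, Finset.mem_univ, true_and, MulAction.mem_fixedBy]
    exact Iff.rfl
  rw [h3, h2] at h1
  have h4 : ((∑ δ : Δ, (Finset.univ.filter fun w : Om p k0 lv => δ.1.ap w = w).card : ℕ) : K) =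
      ((∑ o, (A ω Δ (g o)).card : ℕ) : K) * Fintype.card Δ := by
    rw [Nat.cast_sum]
    simp only [fix_card ω hω]
    rw [Finset.sum_comm]
    simp only [st_sum]
    rw [← Finset.sum_fiberwise (s := Finset.univ) (g := f), Nat.cast_sum, Finset.sum_mul]
    refine Finset.sum_congr rfl fun o _ => ?_
    have hs : ∀ b, b ∈ Finset.univ.filter (fun b => f b = o) ↔ ∃ δ ∈ Δ, δ.π (g o) = b := by
      intro b
      rw [← hf, hg]
      simp [eq_comm]
    rw [← st_card Δ (g o) _ hs, Nat.cast_sum, Finset.mul_sum]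
    refine Finset.sum_congr rfl fun b hb => ?_
    obtain ⟨γ, hγ, rfl⟩ := (hs b).1 hb
    rw [A_eq ω Δ γ hγ, mul_comm]
  rw [h1, Nat.cast_mul] at h4
  have h5 : (Fintype.card Δ : K) ≠ 0 := Nat.cast_ne_zero.2 Fintype.card_ne_zero
  have h6 := Nat.cast_injective (mul_right_cancel₀ h5 h4)
  rw [← h6, oc, Nat.card_eq_fintype_card]

lemma uK_prod {ι : Type} (s : Finset ι) (u : ι → ℤˣ) : uK (∏ i ∈ s, u i) = ∏ i ∈ s, uK (u i) := by
  simp [uK]

lemma chi_one : chi (1 : ZMod p) = 1 := by simp [chi]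

open Classical in
lemma A_par (hp2 : p ≠ 2) (ω : (ZMod p)ˣ →* K) (hω : Function.Injective ω)
    (Δ : Subgroup (Lg p k0 lv)) (b : B) :
    (-1 : ℤˣ) ^ (A ω Δ b).card =
      if ∀ δ ∈ Δ, δ.π b = b → ∏ j, chi (δ.c b j : ZMod p) = 1 then -1 else 1 := by
  have hp : p.Prime := Fact.out
  have hodd := hp.eq_two_or_odd.resolve_left hp2
  have h2 := hp.two_le
  let a0 : Fin k0 → ℕ := fun j => if lv b ≤ j then 0 else p / 2
  let ι : (Fin k0 → ℕ) → Fin k0 → ℕ := fun a j => if lv b ≤ j then 0 else p - 1 - a j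
  have hR : ∀ a, a ∈ R p lv b ↔ ∀ j, (lv b ≤ j → a j = 0) ∧ a j < p := by
    intro a
    simp only [R, Fintype.mem_piFinset]
    refine forall_congr' fun j => ?_
    split_ifs with h
    · simp only [Finset.mem_singleton]
      exact ⟨fun k => ⟨fun _ => k, by omega⟩, fun k => k.1 h⟩
    · simp [h]
  have ha0 : ∀ δ : Lg p k0 lv, ∏ j, ω (δ.c b j) ^ a0 j = uK (∏ j, chi (δ.c b j : ZMod p)) := by
    intro δ
    rw [uK_prod]
    refine Finset.prod_congr rfl fun j _ => ?_
    simp only [a0]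
    split_ifs with h
    · rw [δ.hc b j h]; simp [chi_one]
    · exact om_half hp2 ω hω _
  have hmem : a0 ∈ A ω Δ b ↔ ∀ δ ∈ Δ, δ.π b = b → ∏ j, chi (δ.c b j : ZMod p) = 1 := by
    simp only [A, Finset.mem_filter, ha0]
    have : a0 ∈ R p lv b := (hR _).2 fun j => by
      simp only [a0]; split_ifs with h
      · exact ⟨fun _ => rfl, by omega⟩
      · exact ⟨fun k => absurd k h, by omega⟩
    simp only [this, true_and]
    refine forall_congr' fun δ => forall_congr' fun _ => forall_congr' fun _ => ?_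
    rw [← uK_one]; exact uK_inj.eq_iff
  have hι : ∀ a ∈ A ω Δ b, ι a ∈ A ω Δ b := by
    intro a ha
    simp only [A, Finset.mem_filter] at ha ⊢
    refine ⟨(hR _).2 fun j => ?_, fun δ hδ h => ?_⟩
    · simp only [ι]; split_ifs with h
      · exact ⟨fun _ => rfl, by omega⟩
      · exact ⟨fun k => absurd k h, by omega⟩
    · have h3 : (∏ j, ω (δ.c b j) ^ ι a j) * ∏ j, ω (δ.c b j) ^ a j = 1 := by
        rw [← Finset.prod_mul_distrib]
        refine Finset.prod_eq_one fun j _ => ?_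
        simp only [ι]; split_ifs with h
        · rw [δ.hc b j h]; simp
        · rw [← pow_add]
          have := ((hR a).1 ha.1 j).2
          rw [show p - 1 - a j + a j = p - 1 by omega, om_pow]
      rwa [ha.2 δ hδ h, mul_one] at h3
  have hιι : ∀ a ∈ A ω Δ b, ι (ι a) = a := by
    intro a ha
    have := (hR a).1 (Finset.mem_filter.1 ha).1
    funext j
    simp only [ι]; split_ifs with h
    · exact ((this j).1 h).symm
    · have := (this j).2; omega
  have hfix : ∀ a, ι a = a → a = a0 := by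
    intro a h
    funext j
    have := congrFun h j
    simp only [ι, a0] at this ⊢
    split_ifs at this ⊢ <;> omega
  have hι0 : ι a0 = a0 := by
    funext j
    simp only [ι, a0]
    split_ifs <;> omega
  have h0 : ∏ _a ∈ (A ω Δ b).erase a0, (-1 : ℤˣ) = 1 := by
    refine Finset.prod_involution (fun a _ => ι a) (fun _ _ => by simp) ?_ ?_ ?_
    · intro a ha _ h
      exact (Finset.mem_erase.1 ha).1 (hfix a h)
    · intro a ha
      refine Finset.mem_erase.2 ⟨fun h => (Finset.mem_erase.1 ha).1 ?_,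
        hι a (Finset.mem_erase.1 ha).2⟩
      rw [← hιι a (Finset.mem_erase.1 ha).2, h, hι0]
    · intro a ha
      exact hιι a (Finset.mem_erase.1 ha).2
  rw [← Finset.prod_const]
  by_cases h : a0 ∈ A ω Δ b
  · rw [if_pos (hmem.1 h), ← Finset.mul_prod_erase _ _ h, h0, mul_one]
  · rw [if_neg (fun k => h (hmem.2 k)), ← Finset.erase_eq_of_notMem h, h0]

open Classical in
lemma first (hp2 : p ≠ 2) (hinj : Function.Injective (Lg.tp : Lg p k0 lv →* _))
    (Δ : Subgroup (Lg p k0 lv)) (O : Type) [Fintype O] (f : B → O) (hs : Function.Surjective f)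
    (hf : ∀ b b', f b = f b' ↔ ∃ δ ∈ Δ, δ.π b = b') :
    (-1 : ℤˣ) ^ oc (Δ.map Lg.tp) = ∏ o : O, if ∀ b, f b = o → ∀ δ ∈ Δ, δ.π b = b →
      ∏ j, chi (δ.c b j : ZMod p) = 1 then -1 else 1 := by
  obtain ⟨ω, hω⟩ := ex_om p
  choose g hg using hs
  rw [oc_eq ω hω hinj Δ O f g hg hf, ← Finset.prod_pow_eq_pow_sum]
  refine Finset.prod_congr rfl fun o _ => ?_
  rw [A_par hp2 ω hω]
  refine if_congr ⟨fun h b hb δ hδ hδb => ?_, fun h => h _ (hg o)⟩ rfl rfl
  obtain ⟨γ, hγ, rfl⟩ := (hf (g o) b).1 ((hg o).trans hb.symm)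
  have := h _ (Δ.mul_mem (Δ.mul_mem (Δ.inv_mem hγ) hδ) hγ) (conj_c γ δ _ hδb).1
  simpa only [(conj_c γ δ _ hδb).2] using this

lemma card_par (hp2 : p ≠ 2) (hs : SylA p k0 lv) :
    (-1 : ℤˣ) ^ Fintype.card (Om p k0 lv) = (-1) ^ Fintype.card B := by
  have hp : p.Prime := Fact.out
  rw [hs.card, ← Finset.prod_pow_eq_pow_sum, ← Finset.card_univ, ← Finset.prod_const]
  exact Finset.prod_congr rfl fun b _ => Odd.neg_one_pow (hp.odd_of_ne_two hp2).pow

lemma mem_zp (hinj : Function.Injective (Lg.tp : Lg p k0 lv →* _)) (l δ : Lg p k0 lv)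
    (h : δ ∈ Subgroup.zpowers l) : ∃ n : ℕ, l ^ n = δ := by
  haveI : Finite (Lg p k0 lv) := Finite.of_injective _ hinj
  exact mem_powers_iff_mem_zpowers.2 h

lemma sign_tp (hp2 : p ≠ 2) (hpa : PermASt) (hpb : PermBSt) (hs : SylA p k0 lv)
    (l : Lg p k0 lv) : Perm.sign (Lg.tp l) =
      (-1) ^ Fintype.card B * (-1) ^ oc ((Subgroup.zpowers l).map Lg.tp) := by
  rw [(hpa _).sign, pow_add, card_par hp2 hs, MonoidHom.map_zpowers, (hpb _).oc_zp]

lemma sign_perm (hp2 : p ≠ 2) (hpa : PermASt) (hpb : PermBSt) (hs : SylA p k0 lv)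
    (l : Lg p k0 lv) (hl : ∀ b j, l.c b j = 1) : Perm.sign (Lg.tp l) = Perm.sign l.π := by
  classical
  haveI : Fintype (MulAction.orbitRel.Quotient (Subgroup.zpowers l.π) B) := Fintype.ofFinite _
  have hc : ∀ (n : ℕ) b j, (l ^ n).c b j = 1 := by
    intro n
    induction n with
    | zero => intro b j; simp
    | succ n ih => intro b j; rw [pow_succ, Lg.mul_c, ih, hl, mul_one]
  rw [sign_tp hp2 hpa hpb hs, first hp2 hs.tp_inj _
    (MulAction.orbitRel.Quotient (Subgroup.zpowers l.π) B) (fun b => Quotient.mk _ b)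
    Quotient.mk_surjective, (hpa _).sign, pow_add, ← (hpb _).oc_zp, oc, Nat.card_eq_fintype_card,
    ← Finset.card_univ (α := MulAction.orbitRel.Quotient (Subgroup.zpowers l.π) B),
    ← Finset.prod_const]
  · congr 1
    refine Finset.prod_congr rfl fun o _ => if_pos fun b _ δ hδ _ => ?_
    obtain ⟨n, rfl⟩ := mem_zp hs.tp_inj l δ hδ
    simp [hc, chi_one]
  · intro b b'
    rw [eq_comm, Quotient.eq]
    have hm : Subgroup.zpowers l.π = (Subgroup.zpowers l).map Lg.pi :=
      (MonoidHom.map_zpowers Lg.pi l).symm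
    constructor
    · rintro ⟨⟨g, hg⟩, h⟩
      rw [hm] at hg
      obtain ⟨δ, hδ, rfl⟩ := hg
      exact ⟨δ, hδ, h⟩
    · rintro ⟨δ, hδ, h⟩
      exact ⟨⟨δ.π, hm ▸ ⟨δ, hδ, rfl⟩⟩, h⟩

lemma sign_scal (hp2 : p ≠ 2) (hsq : SqSt) (hpa : PermASt) (hpb : PermBSt) (hs : SylA p k0 lv)
    (l : Lg p k0 lv) (hl : l.π = 1) :
    Perm.sign (Lg.tp l) = ∏ b, ∏ j, chi (l.c b j : ZMod p) := by
  classical
  have hp : p.Prime := Fact.out
  have hπ : ∀ n : ℕ, (l ^ n).π = 1 := by
    intro n
    induction n with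
    | zero => simp
    | succ n ih => rw [pow_succ, Lg.mul_π, ih, hl, mul_one]
  have hc : ∀ (n : ℕ) b, ∏ j, chi ((l ^ n).c b j : ZMod p) =
      (∏ j, chi (l.c b j : ZMod p)) ^ n := by
    intro n b
    induction n with
    | zero => simp [chi_one]
    | succ n ih =>
      rw [pow_succ, pow_succ, ← ih, ← Finset.prod_mul_distrib]
      refine Finset.prod_congr rfl fun j _ => ?_
      rw [Lg.mul_c, hl, Perm.one_apply, Units.val_mul,
        hsq.chi_mul p _ _ hp (Units.ne_zero _) (Units.ne_zero _)]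
  rw [sign_tp hp2 hpa hpb hs, first hp2 hs.tp_inj _ B id Function.surjective_id,
    ← Finset.card_univ, ← Finset.prod_const, ← Finset.prod_mul_distrib]
  · refine Finset.prod_congr rfl fun b _ => ?_
    rcases Int.units_eq_one_or (∏ j, chi (l.c b j : ZMod p)) with h | h
    · rw [if_pos, h]
      · simp
      · rintro b' rfl δ hδ _
        obtain ⟨n, rfl⟩ := mem_zp hs.tp_inj l δ hδ
        rw [hc]
        simp only [id] at h
        rw [h, one_pow]
    · rw [if_neg, h, mul_one]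
      intro k
      have := k b rfl l (Subgroup.mem_zpowers l) (by rw [hl]; rfl)
      rw [h] at this
      exact absurd this (by decide)
  · intro b b'
    constructor
    · rintro (rfl : b = b')
      exact ⟨1, Subgroup.one_mem _, rfl⟩
    · rintro ⟨δ, hδ, h⟩
      obtain ⟨n, rfl⟩ := mem_zp hs.tp_inj l δ hδ
      rw [hπ] at h
      exact h

end Tool

theorem tool (hsq : SqSt) (hpa : PermASt) (hpb : PermBSt) (hsA : SylASt) : ToolSt := by
  intro p k0 _ B _ _ lv hp2
  have hs := hsA p k0 B lv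
  refine ⟨fun Δ O _ f h1 h2 => Tool.first hp2 hs.tp_inj Δ O f h1 h2, fun l => ?_⟩
  let l1 : Lg p k0 lv := ⟨l.π, fun _ _ => 1, l.hπ, fun _ _ _ => rfl⟩
  let l2 : Lg p k0 lv := ⟨1, l.c, fun _ => rfl, l.hc⟩
  have h : l = l1 * l2 := Lg.ext (mul_one _).symm (funext fun _ => funext fun _ => (one_mul _).symm)
  have h1 := Tool.sign_perm hp2 hpa hpb hs l1 fun _ _ => rfl
  have h2 := Tool.sign_scal hp2 hsq hpa hpb hs l2 rfl
  conv_lhs => rw [h, map_mul, map_mul, h1, h2]

end Pool.Agent.Lib.MP_1ae3da_al.GM
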