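import Pool.Agent.Lib.MP_1ae3da_al.GT

namespace Pool.Agent.Lib.MP_1ae3da_al.GM

namespace Tow

/-- one step of the tower: split off the cores. -/
def D {p h : ℕ} {P Sx CP CS : Type} (EP : P ≃ CP × (Fin p → P))
    (ES : Sx ≃ CS × Sx × (Fin h → P)) (S : Type) :
    Sx × (S → P) ≃ (CS × (S → CP)) × (Sx × ((S × Fin p) ⊕ Fin h → P)) where
  toFun x := (((ES x.1).1, fun s => (EP (x.2 s)).1),
    ((ES x.1).2.1, Sum.elim (fun sj => (EP (x.2 sj.1)).2 sj.2) (ES x.1).2.2))
  invFun y := (ES.symm (y.1.1, y.2.1, fun i => y.2.2 (Sum.inr i)),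
    fun s => EP.symm (y.1.2 s, fun j => y.2.2 (Sum.inl (s, j))))
  left_inv x := by
    refine Prod.ext ?_ (funext fun s => ?_)
    · exact ES.symm_apply_apply x.1
    · exact EP.symm_apply_apply (x.2 s)
  right_inv y := by
    refine Prod.ext (Prod.ext ?_ (funext fun s => ?_)) (Prod.ext ?_ (funext fun t => ?_))
    · simp
    · simp
    · simp
    · rcases t with t | t <;> simp

theorem vf (p : ℕ) (hp : p.Prime) (n : ℕ) :
    padicValNat p n.factorial = n / p + padicValNat p (n / p).factorial := by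
  have := Fact.mk hp
  have h1 := padicValNat_mul_div_factorial (p := p) n
  have h2 := padicValNat_factorial_mul (p := p) (n / p)
  omega

theorem vmono (p : ℕ) (hp : p.Prime) {m n : ℕ} (h : m ≤ n) :
    padicValNat p m.factorial ≤ padicValNat p n.factorial := by
  have := Fact.mk hp
  rw [← padicValNat_dvd_iff_le (Nat.factorial_ne_zero n)]
  exact pow_padicValNat_dvd.trans (Nat.factorial_dvd_factorial h)

theorem map_tower (p k0 : ℕ) (m : Fin k0 → Multiset ℕ) :
    (∑ k : Fin k0, (m k).map (p ^ (k : ℕ) * ·)).map (p * ·) =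
      ∑ k : Fin k0, (m k).map (p ^ ((k : ℕ) + 1) * ·) := by
  refine (map_sum (Multiset.mapAddMonoidHom (p * ·)) _ _).trans ?_
  refine Finset.sum_congr rfl fun k _ => ?_
  rw [Multiset.coe_mapAddMonoidHom, Multiset.map_map]
  congr 1
  funext t
  simp only [Function.comp_apply, pow_succ]
  ring

section
variable {p : ℕ} {P Sx CP CS : Type} (μ : ℕ) {h : ℕ} (szP : P → ℕ) (wP : P → ℤ)
  (szS : Sx → ℕ) (wS : Sx → ℤ) (gP : CP → ℕ) (gS : CS → ℕ)

/-- total size. -/
def N {S : Type} [Fintype S] (x : Sx × (S → P)) : ℕ := szS x.1 + μ * ∑ s, szP (x.2 s)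

/-- total weight. -/
def W {S : Type} [Fintype S] (x : Sx × (S → P)) : ℤ := wS x.1 + μ * ∑ s, wP (x.2 s)

/-- total core size. -/
def G {S : Type} [Fintype S] (x : CS × (S → CP)) : ℕ := gS x.1 + μ * ∑ s, gP (x.2 s)

variable (EP : P ≃ CP × (Fin p → P)) (ES : Sx ≃ CS × Sx × (Fin h → P))

theorem N_D (hP : ∀ x, szP x = gP (EP x).1 + p * ∑ i, szP ((EP x).2 i))
    (hS : ∀ x, szS x = gS (ES x).1 + p * (szS (ES x).2.1 + μ * ∑ i, szP ((ES x).2.2 i)))
    {S : Type} [Fintype S] (x : Sx × (S → P)) :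
    N μ szP szS x = G μ gP gS (D EP ES S x).1 + p * N μ szP szS (D EP ES S x).2 := by
  unfold N G
  have h1 : ∑ s, szP (x.2 s) = ∑ s, gP (EP (x.2 s)).1 + p * ∑ s, ∑ i, szP ((EP (x.2 s)).2 i) := by
    rw [Finset.mul_sum, ← Finset.sum_add_distrib]
    exact Finset.sum_congr rfl fun s _ => hP _
  rw [h1, hS x.1, Fintype.sum_sum_type, Fintype.sum_prod_type]
  simp only [D, Equiv.coe_fn_mk, Sum.elim_inl, Sum.elim_inr]
  ring

theorem W_D (hP : ∀ x, wP x = ∑ i, ((szP ((EP x).2 i) : ℤ) + wP ((EP x).2 i)))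
    (hS : ∀ x, wS x = (szS (ES x).2.1 : ℤ) + wS (ES x).2.1 +
      μ * ∑ i, ((szP ((ES x).2.2 i) : ℤ) + wP ((ES x).2.2 i)))
    {S : Type} [Fintype S] (x : Sx × (S → P)) :
    W μ wP wS x = (N μ szP szS (D EP ES S x).2 : ℤ) + W μ wP wS (D EP ES S x).2 := by
  unfold N W
  have h1 : ∑ s, wP (x.2 s) = ∑ s, ∑ i, (szP ((EP (x.2 s)).2 i) : ℤ) +
      ∑ s, ∑ i, wP ((EP (x.2 s)).2 i) := by
    rw [← Finset.sum_add_distrib]
    exact Finset.sum_congr rfl fun s _ => by rw [hP, Finset.sum_add_distrib]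
  rw [h1, hS x.1, Finset.sum_add_distrib, Fintype.sum_sum_type, Fintype.sum_sum_type,
    Fintype.sum_prod_type, Fintype.sum_prod_type]
  simp only [D, Equiv.coe_fn_mk, Sum.elim_inl, Sum.elim_inr]
  push_cast
  ring

theorem N_zero {o : P} {oS : Sx} (hμ : 0 < μ) (hP : ∀ x, szP x = 0 ↔ x = o)
    (hS : ∀ x, szS x = 0 ↔ x = oS) {S : Type} [Fintype S] (x : Sx × (S → P)) :
    N μ szP szS x = 0 ↔ x = (oS, fun _ => o) := by
  unfold N
  constructor
  · intro hx
    have h1 : szS x.1 = 0 := by omega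
    have h2 : μ * ∑ s, szP (x.2 s) = 0 := by omega
    have h3 : ∑ s, szP (x.2 s) = 0 := (Nat.mul_eq_zero.1 h2).resolve_left hμ.ne'
    refine Prod.ext ((hS _).1 h1) (funext fun s => (hP _).1 ?_)
    exact Finset.sum_eq_zero_iff.1 h3 s (Finset.mem_univ s)
  · rintro rfl
    simp [(hS oS).2 rfl, (hP o).2 rfl]

end

end Tow

open Tow in
theorem tow : TowSt := by
  intro p P Sx CP CS μ h szP wP szS wS o oS EP gP ES gS ρ Sm hp hμ hP0 hwo hS0 hwS hρ hP hS
    hrefl htrans hmap
  have hN := fun (S : Type) [Fintype S] (x : Sx × (S → P)) =>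
    N_D μ szP szS gP gS EP ES (fun x => (hP x).1) (fun x => (hS x).1) x
  have hW := fun (S : Type) [Fintype S] (x : Sx × (S → P)) =>
    W_D μ szP wP szS wS EP ES (fun x => (hP x).2) (fun x => (hS x).2.1) x
  have hZ := fun (S : Type) [Fintype S] (x : Sx × (S → P)) => N_zero μ szP szS hμ hP0 hS0 x
  have hW0 : ∀ (S : Type) [Fintype S], W μ wP wS ((oS, fun _ => o) : Sx × (S → P)) = 0 := by
    intro S _
    simp [W, hwo, hwS]
  have hp1 : 1 < p := hp.one_lt
  have hp0 : 0 < p := hp.pos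
  have hle : ∀ (n : ℕ) (S : Type) [Fintype S] (x : Sx × (S → P)), N μ szP szS x = n →
      W μ wP wS x ≤ padicValNat p n.factorial := by
    intro n
    induction n using Nat.strong_induction_on with
    | _ n ih =>
      intro S _ x hx
      rcases Nat.eq_zero_or_pos n with rfl | hn
      · rw [(hZ S x).1 hx, hW0]
        exact Int.natCast_nonneg _
      · have h1 := hN S x
        have h2 : N μ szP szS (D EP ES S x).2 ≤ n / p := by
          rw [Nat.le_div_iff_mul_le hp0, mul_comm]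
          omega
        have h3 : n / p < n := Nat.div_lt_self hn hp1
        have h4 := ih _ (lt_of_le_of_lt h2 h3) _ (D EP ES S x).2 rfl
        have h5 := vmono p hp h2
        rw [hW S x, vf p hp n, Nat.cast_add]
        omega
  -- the equality case
  have heq : ∀ (a0 n' : ℕ), a0 < p → ∀ (S : Type) [Fintype S] (x : Sx × (S → P)),
      (N μ szP szS x = a0 + p * n' ∧ W μ wP wS x = padicValNat p (a0 + p * n').factorial) ↔
      (G μ gP gS (D EP ES S x).1 = a0 ∧ (N μ szP szS (D EP ES S x).2 = n' ∧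
        W μ wP wS (D EP ES S x).2 = padicValNat p n'.factorial)) := by
    intro a0 n' ha S _ x
    have hd : (a0 + p * n') / p = n' := by
      rw [Nat.add_mul_div_left _ _ hp0, Nat.div_eq_of_lt ha, zero_add]
    rw [vf p hp (a0 + p * n'), hd, hW S x, hN S x]
    constructor
    · rintro ⟨h1, h2⟩
      have h3 : N μ szP szS (D EP ES S x).2 ≤ n' := by
        rw [← hd, Nat.le_div_iff_mul_le hp0, mul_comm]
        omega
      have h4 := hle _ _ (D EP ES S x).2 rfl
      have h5 := vmono p hp h3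
      rw [Nat.cast_add] at h2
      have h6 : N μ szP szS (D EP ES S x).2 = n' := by omega
      rw [h6] at h1 h2
      exact ⟨by omega, h6, by omega⟩
    · rintro ⟨h1, h2, h3⟩
      rw [h1, h2, h3, Nat.cast_add]
      exact ⟨rfl, rfl⟩
  -- objects of small size
  have hlev : ∀ (a0 : ℕ), a0 < p → ∀ (S T : Type) [Fintype S] [Fintype T], (T ≃ S) →
      ∃ L : {c : CS × (S → CP) // G μ gP gS c = a0} ≃ {y : Sx × (T → P) // N μ szP szS y = a0},
        ∀ c, (L c).1.1 = ES.symm (c.1.1, oS, fun _ => o) := by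
    intro a0 ha S T _ _ e
    have hG : ∀ c : CS × (S → CP), G μ gP gS ((c.1, c.2 ∘ e) : CS × (T → CP)) = G μ gP gS c := by
      intro c
      unfold G
      rw [← e.sum_comp fun s => gP (c.2 s)]
      rfl
    have hs : ∀ y : Sx × (T → P), N μ szP szS y = a0 →
        (D EP ES T y).2 = (oS, fun _ => o) ∧ G μ gP gS (D EP ES T y).1 = a0 := by
      intro y hy
      have h1 := hN T y
      have h2 : N μ szP szS (D EP ES T y).2 = 0 := by
        by_contra h0
        have : p * 1 ≤ p * N μ szP szS (D EP ES T y).2 :=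
          Nat.mul_le_mul_left p (Nat.pos_of_ne_zero h0)
        omega
      refine ⟨(hZ _ _).1 h2, ?_⟩
      rw [h2] at h1
      omega
    refine ⟨⟨fun c => ⟨(D EP ES T).symm ((c.1.1, c.1.2 ∘ e), (oS, fun _ => o)), ?_⟩,
      fun y => ⟨((D EP ES T y.1).1.1, (D EP ES T y.1).1.2 ∘ e.symm), ?_⟩, ?_, ?_⟩, fun c => rfl⟩
    · rw [hN T, Equiv.apply_symm_apply, hG, c.2, (hZ _ _).2 rfl, mul_zero, add_zero]
    · refine Eq.trans ?_ (hs y.1 y.2).2
      rw [← hG]
      congr 1
      refine Prod.ext rfl (funext fun t => ?_)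
      simp
    · intro c
      apply Subtype.ext
      simp only [Equiv.apply_symm_apply]
      refine Prod.ext rfl (funext fun s => ?_)
      simp
    · intro y
      apply Subtype.ext
      simp only
      rw [Equiv.symm_apply_eq]
      refine Prod.ext (Prod.ext rfl (funext fun t => ?_)) (hs y.1 y.2).1.symm
      simp
  intro k0
  induction k0 with
  | zero =>
    intro a c S0 _ Sl _ _ _ _ _
    refine ⟨⟨fun _ => ⟨fun k => k.elim0, fun k => k.elim0⟩,
      fun _ => ⟨(oS, fun _ => o), ?_, ?_⟩, ?_, ?_⟩, ?_⟩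
    · simpa [N] using (hZ S0 (oS, fun _ => o)).2 rfl
    · simpa [W] using hW0 S0
    · intro x
      apply Subtype.ext
      have h1 := x.2.1
      simp only [Finset.univ_eq_empty, Finset.sum_empty] at h1
      exact ((hZ S0 x.1).1 h1).symm
    · intro f
      apply Subtype.ext
      funext k
      exact k.elim0
    · intro x
      have h1 := x.2.1
      simp only [Finset.univ_eq_empty, Finset.sum_empty] at h1 ⊢
      rw [(hZ S0 x.1).1 h1, hρ]
      exact hrefl 0
  | succ k0 ih =>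
    intro a c S0 _ Sl _ ha hc0 hc hSl
    obtain ⟨e1, he1⟩ := ih (fun k => a k.succ) (fun k => c (k + 1)) ((S0 × Fin p) ⊕ Fin h)
      (fun k => Sl k.succ) (fun k => ha _)
      (by simp only [Fintype.card_sum, Fintype.card_prod, Fintype.card_fin, hc0, hc 0, mul_comm])
      (fun k => hc _) (fun k => by rw [hSl]; rfl)
    obtain ⟨L, hL⟩ := hlev (a 0) (ha 0) S0 (Sl 0)
      (Fintype.equivOfCardEq (by rw [hSl, hc0]; rfl))
    have hn : ∑ k, a k * p ^ (k : ℕ) = a 0 + p * ∑ k : Fin k0, a k.succ * p ^ (k : ℕ) := by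
      rw [Fin.sum_univ_succ, Finset.mul_sum]
      simp only [Fin.val_zero, pow_zero, mul_one, Fin.val_succ, pow_succ]
      congr 1
      exact Finset.sum_congr rfl fun k _ => by ring
    have hq := fun x : Sx × (S0 → P) =>
      heq (a 0) (∑ k : Fin k0, a k.succ * p ^ (k : ℕ)) (ha 0) S0 x
    rw [← hn] at hq
    refine ⟨⟨fun x => ⟨Fin.cons (L ⟨(D EP ES S0 x.1).1, ((hq x.1).1 x.2).1⟩).1
        (e1 ⟨(D EP ES S0 x.1).2, ((hq x.1).1 x.2).2⟩).1, ?_⟩,
      fun f => ⟨(D EP ES S0).symm ((L.symm ⟨f.1 0, f.2 0⟩).1,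
        (e1.symm ⟨fun k => f.1 k.succ, fun k => f.2 k.succ⟩).1), ?_⟩, ?_, ?_⟩, ?_⟩
    · intro k
      refine Fin.cases ?_ (fun k => ?_) k
      · exact (L _).2
      · exact (e1 _).2 k
    · refine (hq _).2 ?_
      rw [Equiv.apply_symm_apply]
      exact ⟨(L.symm _).2, (e1.symm _).2⟩
    · intro x
      apply Subtype.ext
      simp only [Fin.cons_zero, Fin.cons_succ, Subtype.coe_eta, Equiv.symm_apply_apply,
        Prod.mk.eta]
    · intro f
      apply Subtype.ext
      simp only [Equiv.apply_symm_apply, Subtype.coe_eta]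
      exact Fin.cons_self_tail f.1
    · intro x
      rw [Fin.sum_univ_succ (M := Multiset ℕ)]
      simp only [Equiv.coe_fn_mk, Fin.cons_zero, Fin.cons_succ, Fin.val_zero, pow_zero, one_mul,
        Multiset.map_id', Fin.val_succ]
      rw [hL]
      have h1 := he1 ⟨(D EP ES S0 x.1).2, ((hq x.1).1 x.2).2⟩
      have h2 := hmap (ρ (ES.symm ((ES x.1.1).1, oS, fun _ => o))) _ _ h1
      have h3 := htrans _ _ _ (hS x.1.1).2.2 h2
      rw [map_tower] at h3
      exact h3

end Pool.Agent.Lib.MP_1ae3da_al.GM
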