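import Pool.Agent.Lib.MP_1ae3da_al.GT

/-! The universal formula for the sign of a power map on a class of a spin cover. -/

namespace Pool.Agent.Lib.MP_1ae3da_al.GM

open Equiv Module

theorem uf (hch : ChSt) (hsq : SqSt) (hpa : PermASt) (hpb : PermBSt) (hcb : CbSt)
    (hlift : LiftSt) (hgam : GamSt) (hw1 : UfW1St) (hw2 : UfW2St) : UfSt := by
  intro Ω _ _ X _ _ C x h j s M σ hM hx hs e
  classical
  set n := Fintype.card Ω with hn
  obtain ⟨g, g1, g2⟩ := hgam n Ω (by omega)
  obtain ⟨κ, hκ⟩ := IsAlgClosed.exists_pow_nat_eq (uK C.q / 2) two_pos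
  have hκ' : 2 * κ ^ 2 = uK C.q := by rw [hκ]; ring
  obtain ⟨Φ0, p1, p2⟩ := hlift Ω X C Finset.univ _ g κ hκ' (fun i _ => g1 i)
    fun i _ j _ => g2 i j
  have hcb' := hcb Ω X C
  let inc : X →* C.sub Finset.univ :=
    (MonoidHom.id X).codRestrict _ fun y => by rw [hcb'.univ]; trivial
  let Φ := Φ0.comp inc
  have Φz : Φ C.z = -1 := p1
  have Φt : ∀ i j, i ≠ j → Φ (C.t i j) = κ • (g i - g j) := fun i j hij =>
    p2 _ i (Finset.mem_univ _) j (Finset.mem_univ _) hij rfl
  have act : ∀ y : X, ∀ i, Φ y * g i = (Perm.sign (C.π y) : ℤ) • (g (C.π y i) * Φ y) := by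
    intro y
    have hy : y ∈ Subgroup.closure
        ({C.z} ∪ {x | ∃ i ∈ Finset.univ, ∃ j ∈ Finset.univ, i ≠ j ∧ x = C.t i j}) := by
      rw [← hcb'.gen, hcb'.univ]; trivial
    induction hy using Subgroup.closure_induction with
    | mem y hy =>
      intro i
      rcases hy with rfl | ⟨a, -, b, -, hab, rfl⟩
      · simp [Φz, C.πz]
      · rw [Φt a b hab, C.πt a b hab, Perm.sign_swap hab]
        simp only [Units.val_neg, Units.val_one, neg_smul, one_smul, smul_mul_assoc,
          mul_smul_comm, ← smul_neg]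
        congr 1
        by_cases ha : i = a
        · subst ha
          rw [swap_apply_left, sub_mul, mul_sub, g1, g1, neg_sub]
        · by_cases hb : i = b
          · subst hb
            rw [swap_apply_right, sub_mul, mul_sub, g1, g1, neg_sub]
          · rw [swap_apply_of_ne_of_ne ha hb, sub_mul, mul_sub, g2 i a ha, g2 i b hb]
            abel
    | one => intro i; simp
    | mul a b _ _ iha ihb =>
      intro i
      rw [map_mul, mul_assoc, ihb, mul_smul_comm, ← mul_assoc, iha, smul_mul_assoc, smul_smul,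
        map_mul, map_mul, Units.val_mul, mul_comm (Perm.sign (C.π a) : ℤ), mul_assoc]
      rfl
    | inv a _ iha =>
      intro i
      have h1 := iha ((C.π a)⁻¹ i)
      have h2 : Φ a⁻¹ * Φ a = 1 := by rw [← map_mul, inv_mul_cancel, map_one]
      have h3 : Φ a * Φ a⁻¹ = 1 := by rw [← map_mul, mul_inv_cancel, map_one]
      have h4 : C.π a ((C.π a)⁻¹ i) = i := by simp
      rw [h4] at h1
      have h5 : g ((C.π a)⁻¹ i) * Φ a⁻¹ = (Perm.sign (C.π a) : ℤ) • (Φ a⁻¹ * g i) := by
        calc g ((C.π a)⁻¹ i) * Φ a⁻¹ = Φ a⁻¹ * (Φ a * g ((C.π a)⁻¹ i)) * Φ a⁻¹ := by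
              rw [← mul_assoc, h2, one_mul]
          _ = _ := by
              rw [h1, mul_smul_comm, smul_mul_assoc, mul_assoc, mul_assoc, h3, mul_one]
      rw [map_inv C.π, h5, Perm.sign_inv, smul_smul, ← Units.val_mul, Int.units_mul_self]
      simp
  set l := C.π x with hl
  let L := (Finset.univ : Finset Ω).toList
  let LO := (Finset.univ.image fun a : Ω => Finset.univ.filter fun y => l.SameCycle a y).toList
  have hO : Orb l L LO := ⟨Finset.nodup_toList _, fun i => by simp [L], Finset.nodup_toList _,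
    fun O => by simp [LO, eq_comm]⟩
  obtain ⟨w1, w2⟩ := hw1 Ω _ g l L LO g1 g2 hO
  have w3 := hw2 Ω X C _ g κ Φ x L LO g1 g2 Φz Φt hO
  rw [← hl, ← hn] at w3
  rw [← hn] at w1 w2
  set W := Wd g L LO
  set c := (ty l).card with hc
  set d := n - c with hd
  set P : ℕ := (ty l).prod with hP
  have hP0 : (P : K) ≠ 0 := Nat.cast_ne_zero.2 (Multiset.prod_ne_zero ((hpa Ω).pos l))
  obtain ⟨b, hb⟩ := IsAlgClosed.exists_pow_nat_eq (((-1) ^ d.choose 2 * P : K)⁻¹) two_pos
  have hS0 : ((-1) ^ d.choose 2 * P : K) ≠ 0 := mul_ne_zero (pow_ne_zero _ (by norm_num)) hP0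
  let J := b • W
  have JJ : J * J = 1 := by
    simp only [J, smul_mul_assoc, mul_smul_comm, smul_smul]
    rw [w1, ← sq, hb, ← zsmul_one, ← Int.cast_smul_eq_zsmul K, smul_smul]
    push_cast
    rw [inv_mul_cancel₀ hS0, one_smul]
  have hsign : Perm.sign l = (-1) ^ (n + c) := (hpa Ω).sign l
  have rule : ∀ y : X, C.π y * l * (C.π y)⁻¹ ∈ Subgroup.zpowers l → Φ y * J =
      uK (so l (C.π y) * if Perm.sign l = 1 then Perm.sign (C.π y) else 1) • (J * Φ y) := by
    intro y hy
    have := w2 (Φ y) (C.π y) _ (act y) hy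
    simp only [J, mul_smul_comm, smul_mul_assoc]
    rw [this, smul_comm b, ← Int.cast_smul_eq_zsmul K]
    congr 1
    change uK _ = uK _
    congr 1
    rw [mul_comm, hsign]
    congr 1
    rcases Nat.even_or_odd (n + c) with k | k
    · rw [k.neg_one_pow, if_pos rfl]
      rcases Int.units_eq_one_or (Perm.sign (C.π y)) with u | u <;> simp [u, k.neg_one_pow]
    · rw [k.neg_one_pow, if_neg (by decide)]
      rcases Int.units_eq_one_or (Perm.sign (C.π y)) with u | u <;> simp [u, k.neg_one_pow]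
  have hxJ : Commute (Φ x) J := by
    have := rule x (by rw [← hl, mul_inv_cancel_right]; exact Subgroup.mem_zpowers l)
    rw [← hl, (hpb Ω).so_fix l l fun a => ⟨1, by simp⟩] at this
    have h1 : (if Perm.sign l = 1 then Perm.sign l else 1) = 1 := by
      split_ifs with k
      · exact k
      · rfl
    rw [h1, mul_one, uK_one, one_smul] at this
    exact this
  have hgal : σ (Φ x * J).trace = (Φ (x ^ s) * J).trace := by
    let Z := Subgroup.zpowers x
    letI := Fintype.ofFinite Z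
    have hZ : ∀ y : Z, Commute (Φ y) J := by
      rintro ⟨_, k, rfl⟩
      obtain ⟨k', hk'⟩ := (mem_powers_iff_mem_zpowers (x := x)).2 ⟨k, rfl⟩
      change Commute (Φ (x ^ k)) J
      rw [← show x ^ k' = x ^ k from hk', map_pow]
      exact hxJ.pow_left _
    let E : Matrix (Fin (2 ^ n)) (Fin (2 ^ n)) K := (1 / 2 : K) • (1 + J)
    have EE : E * E = E := by
      simp only [E, smul_mul_assoc, mul_smul_comm, smul_smul, add_mul, mul_add, one_mul, mul_one,
        JJ]
      module
    have hE : ∀ y : Z, Commute (Φ y) E := fun y =>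
      ((Commute.one_right _).add_right (hZ y)).smul_right _
    have m1 := (hch.a Z).ch_vc _ ((hch.b Z).mat _ (fun y : Z => Φ y * E) fun a b => by
      rw [Subgroup.coe_mul, map_mul, mul_assoc, mul_assoc, ← mul_assoc E, ← (hE b).eq, mul_assoc,
        EE])
    have m2 := (hch.a Z).ch_vc _ ((hch.b Z).mat _ (fun y : Z => Φ y) fun a b => by
      rw [Subgroup.coe_mul, map_mul])
    have a1 := (hch.b Z).gal _ m1 σ M s ⟨x, Subgroup.mem_zpowers x⟩ hM (Subtype.ext hx) hs
    have a2 := (hch.b Z).gal _ m2 σ M s ⟨x, Subgroup.mem_zpowers x⟩ hM (Subtype.ext hx) hs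
    have tr : ∀ y : X, (Φ y * J).trace = 2 * (Φ y * E).trace - (Φ y).trace := fun y => by
      simp only [E, mul_smul_comm, mul_add, mul_one, Matrix.trace_smul, Matrix.trace_add,
        smul_eq_mul]
      ring
    rw [tr, tr, map_sub, map_mul, map_ofNat]
    exact congrArg₂ (fun a b => 2 * a - b) a1 a2
  have hconj : C.π h * l * (C.π h)⁻¹ = l ^ s := by
    have := congrArg C.π e
    simpa [C.πz] using this
  have hr := rule h (by rw [hconj]; exact Subgroup.npow_mem_zpowers l s)
  set u := so l (C.π h) * if Perm.sign l = 1 then Perm.sign (C.π h) else 1 with hu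
  have hzj : C.z ^ j * C.z ^ j = 1 := by
    rw [← (Commute.refl C.z).mul_pow, show C.z * C.z = 1 from C.toSg.zz, one_pow]
  have hy : (Φ (x ^ s) * J).trace = uK ((-1) ^ j * u) * (Φ x * J).trace := by
    have e1 : x ^ s = C.z ^ j * (h * x * h⁻¹) := by rw [e, ← mul_assoc, hzj, one_mul]
    have h3 : Φ h⁻¹ * Φ h = 1 := by rw [← map_mul, inv_mul_cancel, map_one]
    have h4 : Φ h⁻¹ * J * Φ h = uK u • J := by
      have : J * Φ h = uK u • (Φ h * J) := by rw [hr, smul_smul, uK_sq, one_smul]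
      rw [mul_assoc, this, mul_smul_comm, ← mul_assoc, h3, one_mul]
    have h5 : (Φ C.z) ^ j = uK ((-1) ^ j) • (1 : Matrix (Fin (2 ^ n)) (Fin (2 ^ n)) K) := by
      rw [Φz]
      rcases Nat.even_or_odd j with k | k <;> simp [k.neg_one_pow]
    rw [e1, map_mul, map_pow, h5, smul_mul_assoc, one_mul, smul_mul_assoc, Matrix.trace_smul,
      map_mul, map_mul, mul_assoc, mul_assoc, Matrix.trace_mul_comm, mul_assoc, h4,
      mul_smul_comm, Matrix.trace_smul, uK_mul ((-1) ^ j) u, smul_eq_mul, smul_eq_mul, mul_assoc]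
  rw [mul_assoc, ← hu]
  have h2n : ((2 : K) ^ n) ≠ 0 := pow_ne_zero _ two_ne_zero
  refine hsq.eps_of _ σ _ (2 ^ d / 2 ^ n * (Φ x * J).trace) ?_ ?_
  · have e1 : (Φ x * J).trace = b * (Φ x * W).trace := by
      simp only [J, mul_smul_comm, Matrix.trace_smul, smul_eq_mul]
    have e2 : (κ ^ d) ^ 2 = (uK C.q / 2) ^ d := by rw [← pow_mul, mul_comm, pow_mul, hκ]
    have e3 : ((-1 : K) ^ d.choose 2) * (-1) ^ d.choose 2 = 1 := by
      rw [← mul_pow]; simp
    rw [e1, mul_pow, mul_pow, w3, hb, mul_pow, mul_pow, e2, Dm, ← hc, ← hd, ← hP,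
      Fintype.card_fin, mul_inv, inv_eq_of_mul_eq_one_right e3]
    simp only [uK]
    push_cast
    simp only [div_pow, mul_pow]
    field_simp
  · rw [map_mul, hgal, hy, map_div₀, map_pow, map_pow, map_ofNat]
    ring

end Pool.Agent.Lib.MP_1ae3da_al.GM
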