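import Pool.Agent.Lib.MP_1ae3da_al.GNsA

/-! The square and the conjugates of the product of all generators and all orbit sums. -/

namespace Pool.Agent.Lib.MP_1ae3da_al.GM

open Equiv

namespace UfW1

variable {A : Type} [Ring A]

/-- moving an element through a product. -/
lemma move (x : A) (c : ℤ) : ∀ M : List A, (∀ y ∈ M, y * x = c • (x * y)) →
    M.prod * x = c ^ M.length • (x * M.prod)
  | [], _ => by simp
  | y :: M, h => by
    rw [List.prod_cons, mul_assoc, move x c M fun z hz => h z (List.mem_cons_of_mem _ hz),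
      mul_smul_comm, ← mul_assoc, h y List.mem_cons_self, smul_mul_assoc, smul_smul,
      List.length_cons, pow_succ, mul_assoc x]

lemma sq_prod : ∀ M : List A, M.Pairwise (fun x y => x * y = -(y * x)) →
    M.prod * M.prod = ((-1 : ℤ) ^ M.length.choose 2) • (M.map fun x => x * x).prod
  | [], _ => by simp
  | x :: M, h => by
    rw [List.pairwise_cons] at h
    have h1 := move x (-1) M fun y hy => by rw [h.1 y hy]; simp
    rw [List.prod_cons, mul_assoc, ← mul_assoc M.prod, h1, smul_mul_assoc, mul_assoc x M.prod,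
      sq_prod M h.2, List.map_cons, List.prod_cons, List.length_cons, Nat.choose_succ_succ',
      Nat.choose_one_right, pow_add]
    simp only [mul_smul_comm, smul_smul, mul_assoc]

variable {ι : Type} [DecidableEq ι]

lemma gen_move (g : ι → A) (ha : ∀ i j, i ≠ j → g i * g j = -(g j * g i)) (i : ι) :
    ∀ L : List ι, g i * (L.map g).prod =
      ((-1 : ℤ) ^ (L.length + L.count i)) • ((L.map g).prod * g i)
  | [] => by simp
  | j :: L => by
    rw [List.map_cons, List.prod_cons]
    by_cases h : j = i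
    · subst h
      have ih := gen_move g ha j L
      rw [List.length_cons, List.count_cons_self, mul_assoc]
      conv_lhs => rw [ih, mul_smul_comm]
      congr 1
      ring
    · rw [← mul_assoc, ha i j (Ne.symm h), neg_mul, mul_assoc, gen_move g ha i L, List.length_cons,
        List.count_cons_of_ne h, mul_smul_comm, mul_assoc, ← neg_smul]
      congr 1
      ring

lemma swap1 (e : ι → A) (ha : ∀ i j, i ≠ j → e i * e j = -(e j * e i)) (x y : ι) :
    ∀ L : List ι, L.Nodup → x ∉ L → y ∈ L →
      e y * (L.map (e ∘ swap x y)).prod = -(e x * (L.map e).prod)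
  | [], _, _, h => by simp at h
  | z :: L, hn, hx, hy => by
    rw [List.nodup_cons] at hn
    have hxz : x ≠ z := fun h => hx (h ▸ List.mem_cons_self)
    have hxL : x ∉ L := fun h => hx (List.mem_cons_of_mem _ h)
    rw [List.map_cons, List.map_cons, List.prod_cons, List.prod_cons]
    by_cases h : z = y
    · subst h
      have : L.map (e ∘ swap x z) = L.map e := List.map_congr_left fun w hw => by
        rw [Function.comp_apply, swap_apply_of_ne_of_ne (ne_of_mem_of_not_mem hw hxL)
          (ne_of_mem_of_not_mem hw hn.1)]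
      rw [this, Function.comp_apply, swap_apply_right, ← mul_assoc, ha z x hxz.symm, neg_mul,
        mul_assoc]
    · have hyL : y ∈ L := (List.mem_cons.1 hy).resolve_left (Ne.symm h)
      rw [Function.comp_apply, swap_apply_of_ne_of_ne hxz.symm h, ← mul_assoc, ha y z (Ne.symm h),
        neg_mul, mul_assoc, swap1 e ha x y L hn.2 hxL hyL, ← mul_assoc (e x), ha x z hxz]
      simp [mul_assoc]

lemma swap2 (e : ι → A) (ha : ∀ i j, i ≠ j → e i * e j = -(e j * e i)) (x y : ι) (hxy : x ≠ y) :
    ∀ L : List ι, L.Nodup → x ∈ L → y ∈ L →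
      (L.map (e ∘ swap x y)).prod = -(L.map e).prod
  | [], _, _, h => by simp at h
  | z :: L, hn, hx, hy => by
    rw [List.nodup_cons] at hn
    rw [List.map_cons, List.map_cons, List.prod_cons, List.prod_cons, Function.comp_apply]
    by_cases h1 : z = x
    · subst h1
      rw [swap_apply_left]
      exact swap1 e ha z y L hn.2 hn.1 ((List.mem_cons.1 hy).resolve_left hxy.symm)
    by_cases h2 : z = y
    · subst h2
      rw [swap_apply_right, swap_comm]
      exact swap1 e ha z x L hn.2 hn.1 ((List.mem_cons.1 hx).resolve_left hxy)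
    rw [swap_apply_of_ne_of_ne h1 h2, swap2 e ha x y hxy L hn.2
      ((List.mem_cons.1 hx).resolve_left (Ne.symm h1))
      ((List.mem_cons.1 hy).resolve_left (Ne.symm h2)), mul_neg]

/-- permuting pairwise anticommuting factors multiplies the product by the sign. -/
lemma perm_prod [Fintype ι] (e : ι → A) (ha : ∀ i j, i ≠ j → e i * e j = -(e j * e i))
    (L : List ι) (hn : L.Nodup) (hL : ∀ i, i ∈ L) (η : Perm ι) :
    (L.map (e ∘ η)).prod = (Perm.sign η : ℤ) • (L.map e).prod := by
  induction η using Perm.swap_induction_on' with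
  | one => simp
  | mul_swap η x y hxy ih =>
    have := swap2 (e ∘ η) (fun i j h => ha _ _ (η.injective.ne h)) x y hxy L hn (hL x) (hL y)
    rw [Perm.coe_mul, ← Function.comp_assoc, this, ih, Perm.sign_mul, Perm.sign_swap hxy]
    simp

omit [DecidableEq ι] in
lemma conj_prod (e e' : ι → A) (a : A) (c : ℤ) (h : ∀ i, a * e i = c • (e' i * a)) :
    ∀ L : List ι, a * (L.map e).prod = c ^ L.length • ((L.map e').prod * a)
  | [] => by simp
  | i :: L => by
    rw [List.map_cons, List.prod_cons, ← mul_assoc, h, smul_mul_assoc, mul_assoc,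
      conj_prod e e' a c h L, mul_smul_comm, smul_smul, List.map_cons, List.prod_cons,
      List.length_cons, pow_succ', mul_assoc (e' i)]

omit [DecidableEq ι] in
lemma sum_anti (g : ι → A) (ha : ∀ i j, i ≠ j → g i * g j = -(g j * g i)) (O O' : Finset ι)
    (h : Disjoint O O') :
    (∑ i ∈ O, g i) * ∑ i ∈ O', g i = -((∑ i ∈ O', g i) * ∑ i ∈ O, g i) := by
  rw [Finset.sum_mul_sum, Finset.sum_mul_sum, Finset.sum_comm (s := O'), ← Finset.sum_neg_distrib]
  refine Finset.sum_congr rfl fun i hi => ?_
  rw [← Finset.sum_neg_distrib]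
  exact Finset.sum_congr rfl fun j hj => ha i j fun e => Finset.disjoint_left.1 h hi (e ▸ hj)

lemma sum_sq (g : ι → A) (hs : ∀ i, g i * g i = 1)
    (ha : ∀ i j, i ≠ j → g i * g j = -(g j * g i)) (O : Finset ι) :
    (∑ i ∈ O, g i) * ∑ i ∈ O, g i = (O.card : A) := by
  induction O using Finset.induction_on with
  | empty => simp
  | insert a O haO ih =>
    have := sum_anti g ha {a} O (Finset.disjoint_singleton_left.2 haO)
    rw [Finset.sum_singleton] at this
    rw [Finset.sum_insert haO, Finset.card_insert_of_notMem haO, add_mul, mul_add, mul_add, hs,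
      ih, this]
    push_cast
    abel

lemma parity (c d : ℕ) : ((-1 : ℤ) ^ (c + d + 1)) ^ c * ((-1) ^ (c + d).choose 2 *
    (-1) ^ c.choose 2) = (-1) ^ d.choose 2 := by
  induction c with
  | zero => simp
  | succ c ih =>
    rw [← ih, show c + 1 + d = (c + d) + 1 by ring, Nat.choose_succ_succ' (c + d),
      Nat.choose_succ_succ' c, Nat.choose_one_right, Nat.choose_one_right]
    have h2 : ∀ k : ℕ, ((-1 : ℤ) ^ k) * (-1) ^ k = 1 := fun k => by
      rw [← mul_pow]; simp
    have e1 : ((-1 : ℤ) ^ (c + d + 1 + 1)) ^ (c + 1) =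
        ((-1) ^ (c + d + 1)) ^ c * ((-1) ^ c * (-1) ^ (c + d)) := by
      rw [pow_succ _ c, pow_succ _ (c + d + 1), mul_pow, pow_succ _ (c + d)]
      ring
    rw [e1, pow_add (-1) (c + d) ((c + d).choose (1 + 1)), pow_add (-1) c (c.choose (1 + 1))]
    linear_combination ((-1 : ℤ) ^ (c + d + 1)) ^ c * ((-1) ^ (c + d).choose 2 *
      (-1) ^ c.choose 2) * ((-1) ^ c * (-1) ^ c * h2 (c + d) + h2 c)

variable {Ω : Type} [Fintype Ω] [DecidableEq Ω]

/-- the orbit of a point. -/
def orb (l : Perm Ω) (x : Ω) : Finset Ω := Finset.univ.filter fun y => l.SameCycle x y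

lemma mem_orb (l : Perm Ω) (x y : Ω) : y ∈ orb l x ↔ l.SameCycle x y := by simp [orb]

lemma orb_eq (l : Perm Ω) (x y : Ω) : orb l x = orb l y ↔ l.SameCycle x y := by
  refine ⟨fun h => ?_, fun h => ?_⟩
  · rw [← mem_orb, h, mem_orb]
  · ext z
    rw [mem_orb, mem_orb]
    exact ⟨fun k => h.symm.trans k, fun k => h.trans k⟩

lemma ty_list (hpa : PermA Ω) (l : Perm Ω) (LO : List (Finset Ω)) (hn : LO.Nodup)
    (hO : ∀ O, O ∈ LO ↔ ∃ x, O = orb l x) : ty l = (LO.map Finset.card : List ℕ) := by
  classical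
  let F : Quotient (Perm.SameCycle.setoid l) → Finset Ω :=
    fun o => Finset.univ.filter fun y => Quotient.mk _ y = o
  have hF : ∀ x, F (Quotient.mk _ x) = orb l x := fun x => by
    ext y
    simp only [F, Finset.mem_filter, Finset.mem_univ, true_and, mem_orb, Quotient.eq]
    exact ⟨fun h => Perm.SameCycle.symm h, fun h => Perm.SameCycle.symm h⟩
  have hi : Function.Injective F := fun o o' h => by
    obtain ⟨x, rfl⟩ := o.exists_rep
    obtain ⟨y, rfl⟩ := o'.exists_rep
    rw [hF, hF, orb_eq] at h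
    exact Quotient.sound h
  have : (LO : Multiset (Finset Ω)) = Finset.univ.val.map F := by
    rw [Multiset.Nodup.ext (Multiset.coe_nodup.2 hn) (Finset.univ.nodup.map hi)]
    intro O
    rw [Multiset.mem_coe, hO, Multiset.mem_map]
    constructor
    · rintro ⟨x, rfl⟩
      exact ⟨_, Finset.mem_univ_val _, hF x⟩
    · rintro ⟨o, -, rfl⟩
      obtain ⟨x, rfl⟩ := o.exists_rep
      exact ⟨x, hF x⟩
  rw [NsA.ty_eq hpa, ← Multiset.map_coe, this, Multiset.map_map]
  congr 1

end UfW1

open UfW1 in
theorem ufW1 (hpa : PermASt) (hpb : PermBSt) : UfW1St := by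
  intro Ω _ _ A _ g l L LO hs ha ⟨hL, hL', hn, hO⟩
  classical
  have hO' : ∀ O, O ∈ LO ↔ ∃ x, O = orb l x := hO
  have hty := ty_list (hpa Ω) l LO hn hO'
  have hc : (ty l).card = LO.length := by rw [hty]; simp
  have hlen : L.length = Fintype.card Ω := by
    rw [← List.toFinset_card_of_nodup hL]
    congr 1
    ext i
    simp [hL' i]
  have hdis : ∀ O ∈ LO, ∀ O' ∈ LO, O ≠ O' → Disjoint O O' := by
    intro O h O' h' hne
    obtain ⟨x, rfl⟩ := (hO' O).1 h
    obtain ⟨y, rfl⟩ := (hO' O').1 h'
    rw [Finset.disjoint_left]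
    intro z hz hz'
    rw [mem_orb] at hz hz'
    exact hne ((orb_eq l x y).2 (hz.trans hz'.symm))
  refine ⟨?_, fun a h u hg hh => ?_⟩
  · have hle : LO.length ≤ Fintype.card Ω := by
      rw [← hc, ← (hpa Ω).sum l]
      have := Multiset.card_nsmul_le_sum (s := ty l) (a := 1) fun x hx =>
        Nat.pos_of_ne_zero fun e => (hpa Ω).pos l (e ▸ hx)
      simpa using this
    obtain ⟨d, hd⟩ := Nat.exists_eq_add_of_le hle
    have h1 := move (L.map g).prod ((-1) ^ (L.length + 1)) (LO.map fun O => ∑ i ∈ O, g i) (by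
      intro y hy
      obtain ⟨O, -, rfl⟩ := List.mem_map.1 hy
      rw [Finset.sum_mul, Finset.mul_sum, Finset.smul_sum]
      refine Finset.sum_congr rfl fun i _ => ?_
      rw [gen_move g ha i L, List.count_eq_one_of_mem hL (hL' i)])
    have h2 := sq_prod (L.map g) (List.pairwise_map.2 (hL.imp fun h => ha _ _ h))
    have h3 := sq_prod (LO.map fun O => ∑ i ∈ O, g i) (List.pairwise_map.2
      (hn.imp_of_mem fun h h' hne => sum_anti g ha _ _ (hdis _ h _ h' hne)))
    have h4 : ((L.map g).map fun x => x * x).prod = 1 := by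
      refine List.prod_eq_one fun y hy => ?_
      obtain ⟨x, hx, rfl⟩ := List.mem_map.1 hy
      obtain ⟨i, -, rfl⟩ := List.mem_map.1 hx
      exact hs i
    have h5 : ((LO.map fun O => ∑ i ∈ O, g i).map fun x => x * x).prod =
        (((ty l).prod : ℕ) : A) := by
      rw [hty, Multiset.prod_coe, Nat.cast_list_prod, List.map_map, List.map_map]
      congr 1
      exact List.map_congr_left fun O _ => sum_sq g hs ha O
    rw [Wd, mul_assoc, ← mul_assoc (LO.map fun O => ∑ i ∈ O, g i).prod, h1, smul_mul_assoc,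
      mul_smul_comm, mul_assoc, ← mul_assoc, h2, h3, h4, h5, List.length_map, List.length_map,
      hc, hlen, hd, Nat.add_sub_cancel_left, ← parity LO.length d, smul_mul_smul_comm, smul_smul,
      one_mul, zsmul_eq_mul, Int.cast_mul (_ * _), Int.cast_natCast]
  · obtain ⟨η', hη'⟩ := (hpb Ω).so_ex l h hh
    have hsc : ∀ x y, l.SameCycle (h x) (h y) ↔ l.SameCycle x y := fun x y => by
      have e1 : l.SameCycle (h x) (h y) ↔ Quotient.mk (Perm.SameCycle.setoid l) (h x) =
        Quotient.mk _ (h y) := (Quotient.eq (r := Perm.SameCycle.setoid l)).symm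
      have e2 : l.SameCycle x y ↔ Quotient.mk (Perm.SameCycle.setoid l) x =
        Quotient.mk _ y := (Quotient.eq (r := Perm.SameCycle.setoid l)).symm
      rw [e1, e2, hη', hη', η'.apply_eq_iff_eq]
    have hm : ∀ x, (orb l x).map h.toEmbedding = orb l (h x) := fun x => by
      ext y
      obtain ⟨y, rfl⟩ := h.surjective y
      rw [mem_orb, hsc, ← mem_orb]
      exact Finset.mem_map' _
    let η0 : {O // O ∈ LO} → {O // O ∈ LO} := fun O => ⟨O.1.map h.toEmbedding, by
      obtain ⟨x, hx⟩ := (hO' O.1).1 O.2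
      exact (hO' _).2 ⟨h x, by rw [hx, hm]⟩⟩
    have hi : Function.Injective η0 := fun O O' e =>
      Subtype.ext (Finset.map_injective _ (congrArg Subtype.val e))
    let η : Perm {O // O ∈ LO} := Equiv.ofBijective η0 (Finite.injective_iff_bijective.1 hi)
    have hso : so l h = Perm.sign η := (hpb Ω).so_eq l h _
      (fun x => (⟨orb l x, (hO' _).2 ⟨x, rfl⟩⟩ : {O // O ∈ LO})) η
      (fun O => by
        obtain ⟨x, hx⟩ := (hO' O.1).1 O.2
        exact ⟨x, Subtype.ext hx.symm⟩)
      (fun x y => by rw [Subtype.mk.injEq, orb_eq])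
      (fun x => Subtype.ext (hm x).symm)
    let e : {O // O ∈ LO} → A := fun O => ∑ i ∈ O.1, g i
    have he : (LO.map fun O => ∑ i ∈ O, g i) = LO.attach.map e :=
      (List.attach_map_val (l := LO) (f := fun O => ∑ i ∈ O, g i)).symm
    have h1 := conj_prod g (g ∘ h) a u hg L
    have h2 := conj_prod e (e ∘ η) a u (fun O => by
      change a * ∑ i ∈ O.1, g i = (u : ℤ) • ((∑ i ∈ O.1.map h.toEmbedding, g i) * a)
      rw [Finset.sum_map, Finset.mul_sum, Finset.sum_mul, Finset.smul_sum]
      exact Finset.sum_congr rfl fun i _ => hg i) LO.attach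
    rw [perm_prod g ha L hL hL'] at h1
    rw [perm_prod e (fun O O' hne => sum_anti g ha _ _
      (hdis _ O.2 _ O'.2 fun e => hne (Subtype.ext e))) _ (List.nodup_attach.2 hn)
      (List.mem_attach _)] at h2
    rw [Wd, he, ← mul_assoc, h1, smul_mul_assoc, mul_assoc, h2, hso, hc, hlen, List.length_attach]
    simp only [smul_mul_assoc, mul_smul_comm, smul_smul, mul_assoc]
    congr 1
    push_cast
    ring

end Pool.Agent.Lib.MP_1ae3da_al.GM
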