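import Pool.Agent.Lib.MP_1ae3da_al.GT

/-! The trace of a lift times the universal commuting element. -/

namespace Pool.Agent.Lib.MP_1ae3da_al.GM

open Equiv

namespace UfW2

section star
variable {Ω : Type} [Fintype Ω] [DecidableEq Ω]

/-- `l` is a product of transpositions joining each point to the base point of its orbit. -/
def Star (l : Perm Ω) (b : Ω → Ω) (Ly : List Ω) : Prop :=
  (∀ y, b (l y) = b y) ∧ (∀ y, l.SameCycle (b y) y) ∧ Ly.Nodup ∧ (∀ y, y ∈ Ly ↔ b y ≠ y) ∧
    l = (Ly.map fun y => swap y (b y)).prod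

lemma sc_of (l l' : Perm Ω) (h : ∀ w, l.SameCycle w (l' w)) {u v : Ω}
    (huv : l'.SameCycle u v) : l.SameCycle u v := by
  obtain ⟨k, -, rfl⟩ := huv.exists_pow_eq'
  have : ∀ k : ℕ, l.SameCycle u ((l' ^ k) u) := by
    intro k
    induction k with
    | zero => exact Perm.SameCycle.refl _ _
    | succ k ih => rw [pow_succ', Perm.mul_apply]; exact ih.trans (h _)
  exact this k

lemma fix_of {l : Perm Ω} {u a : Ω} (h : l.SameCycle u a) (ha : l a = a) : u = a :=
  (h.symm.eq_of_left ha).symm

lemma star_step (l : Perm Ω) (x : Ω) (hx : l x ≠ x) (b : Ω → Ω) (Ly : List Ω)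
    (h : Star (l * swap x (l x)) b Ly) (hb : b x = x) :
    Star l (Function.update b (l x) x) (Ly ++ [l x]) := by
  obtain ⟨h1, h2, h3, h4, h5⟩ := h
  set a := l x with ha
  set l' := l * swap x a with hl'
  have hfa : l' a = a := by simp [hl', ha]
  have hba : b a = a := fix_of (h2 a) hfa
  have haL : a ∉ Ly := fun h => (h4 a).1 h hba
  have hne : ∀ y, y ≠ a → l' y ≠ a := fun y hy h => hy (l'.injective (h.trans hfa.symm))
  have hl : ∀ y, l y = l' (swap x a y) := fun y => by simp [hl']
  refine ⟨fun y => ?_, fun y => ?_, ?_, fun y => ?_, ?_⟩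
  · by_cases hy : y = x
    · rw [hy, ← ha, Function.update_self, Function.update_of_ne hx.symm, hb]
    by_cases hy2 : y = a
    · rw [hl, hy2, swap_apply_right, Function.update_of_ne (hne x hx.symm), h1, hb,
        Function.update_self]
    · rw [hl, swap_apply_of_ne_of_ne hy hy2, Function.update_of_ne (hne y hy2), h1,
        Function.update_of_ne hy2]
  · by_cases hy2 : y = a
    · rw [hy2, Function.update_self, ha]
      exact Perm.sameCycle_apply_right.2 (Perm.SameCycle.refl _ _)
    · rw [Function.update_of_ne hy2]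
      refine sc_of l l' (fun w => ?_) (h2 y)
      by_cases hw : w = a
      · rw [hw, hfa]
      by_cases hw2 : w = x
      · rw [hw2, hl', Perm.mul_apply, swap_apply_left, ha]
        exact Perm.sameCycle_apply_right.2
          (Perm.sameCycle_apply_right.2 (Perm.SameCycle.refl _ _))
      · rw [hl', Perm.mul_apply, swap_apply_of_ne_of_ne hw2 hw]
        exact Perm.sameCycle_apply_right.2 (Perm.SameCycle.refl _ _)
  · rw [List.nodup_append]
    refine ⟨h3, List.nodup_singleton _, fun u hu v hv e => haL ?_⟩
    rw [List.mem_singleton] at hv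
    rwa [← hv, ← e]
  · by_cases hy2 : y = a
    · rw [hy2, Function.update_self]
      simp [hx.symm]
    · rw [Function.update_of_ne hy2, ← h4]
      simp [hy2]
  · rw [List.map_append, List.prod_append]
    have e : (Ly.map fun y => swap y (Function.update b a x y)) = Ly.map fun y => swap y (b y) :=
      List.map_congr_left fun y hy => by
        rw [Function.update_of_ne (fun e : y = a => haL (e ▸ hy))]
    rw [e, ← h5]
    simp [hl', swap_comm a x, mul_assoc]

lemma star_ex (n : ℕ) : ∀ (l : Perm Ω), l.support.card = n → ∀ x : Ω,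
    ∃ b Ly, Star l b Ly ∧ b x = x := by
  induction n using Nat.strong_induction_on with
  | _ n ih =>
  intro l hn
  have key : ∀ x, l x ≠ x → ∃ b Ly, Star l b Ly ∧ b x = x := by
    intro x hx
    have hlt : (l * swap x (l x)).support.card < n := by
      rw [← hn]
      refine Finset.card_lt_card ⟨fun y hy => ?_, fun h => ?_⟩
      · rw [Perm.mem_support] at hy ⊢
        intro hy'
        have h1 : y ≠ x := fun e => hx (e ▸ hy')
        have h2 : y ≠ l x := fun e => h1 (l.injective (hy'.trans e))
        exact hy (by rw [Perm.mul_apply, swap_apply_of_ne_of_ne h1 h2, hy'])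
      · have := h (Perm.mem_support.2 fun e => hx (l.injective e))
        simp at this
    obtain ⟨b, Ly, h, hb⟩ := ih _ hlt _ rfl x
    exact ⟨_, _, star_step l x hx b Ly h hb, by rw [Function.update_of_ne hx.symm, hb]⟩
  intro x
  by_cases hx : l x = x
  · by_cases h1 : l = 1
    · refine ⟨id, [], ⟨fun y => by simp [h1], fun y => Perm.SameCycle.refl _ _, List.nodup_nil,
        by simp, by simp [h1]⟩, rfl⟩
    · obtain ⟨y, hy⟩ : ∃ y, l y ≠ y := by
        by_contra h
        push Not at h
        exact h1 (Equiv.ext h)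
      obtain ⟨b, Ly, h, -⟩ := key y hy
      exact ⟨b, Ly, h, fix_of (h.2.1 x) hx⟩
  · exact key x hx

lemma star_ex' (l : Perm Ω) : ∃ b Ly, Star l b Ly := by
  rcases isEmpty_or_nonempty Ω with h | ⟨⟨x⟩⟩
  · exact ⟨id, [], fun y => h.elim y, fun y => h.elim y, List.nodup_nil, fun y => h.elim y,
      Subsingleton.elim _ _⟩
  · obtain ⟨b, Ly, h, -⟩ := star_ex _ l rfl x
    exact ⟨b, Ly, h⟩

lemma Star.iff {l : Perm Ω} {b : Ω → Ω} {Ly : List Ω} (h : Star l b Ly) (u v : Ω) :
    l.SameCycle u v ↔ b u = b v := by
  constructor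
  · intro huv
    obtain ⟨k, -, rfl⟩ := huv.exists_pow_eq'
    have : ∀ k : ℕ, b u = b ((l ^ k) u) := by
      intro k
      induction k with
      | zero => rfl
      | succ k ih => rw [pow_succ', Perm.mul_apply, h.1, ih]
    exact this k
  · intro e
    exact (h.2.1 u).symm.trans (e ▸ h.2.1 v)

lemma Star.idem {l : Perm Ω} {b : Ω → Ω} {Ly : List Ω} (h : Star l b Ly) (u : Ω) :
    b (b u) = b u := (h.iff _ _).1 (h.2.1 u)

lemma card_sc (l : Perm Ω) (y : Ω) :
    (Finset.univ.filter fun v => l.SameCycle y v).card = Function.minimalPeriod l y := by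
  have hp : 0 < Function.minimalPeriod l y :=
    Function.minimalPeriod_pos_of_mem_periodicPts
      (l.injective.mem_periodicPts y)
  have e : (Finset.univ.filter fun v => l.SameCycle y v) =
      (Finset.range (Function.minimalPeriod l y)).image fun k => l^[k] y := by
    ext v
    simp only [Finset.mem_filter, Finset.mem_univ, true_and, Finset.mem_image, Finset.mem_range]
    constructor
    · intro h
      obtain ⟨k, -, rfl⟩ := h.exists_pow_eq'
      exact ⟨k % _, Nat.mod_lt _ hp, by
        rw [Function.iterate_mod_minimalPeriod_eq, Perm.iterate_eq_pow]⟩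
    · rintro ⟨k, -, rfl⟩
      exact ⟨k, by rw [zpow_natCast, Perm.iterate_eq_pow]⟩
  rw [e, Finset.card_image_of_injOn, Finset.card_range]
  intro i hi j hj hij
  exact Function.iterate_injOn_Iio_minimalPeriod (by simpa using hi) (by simpa using hj) hij

/-- the size of the fibre. -/
def sz (b : Ω → Ω) (y : Ω) : ℕ := (Finset.univ.filter fun v => b v = y).card

lemma Star.per {l : Perm Ω} {b : Ω → Ω} {Ly : List Ω} (h : Star l b Ly) (y : Ω) :
    Function.minimalPeriod l y = sz b (b y) := by
  rw [← card_sc, sz]
  congr 1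
  ext v
  simp [h.iff, eq_comm]

lemma Star.ty_eq (hpa : PermA Ω) {l : Perm Ω} {b : Ω → Ω} {Ly : List Ω} (h : Star l b Ly) :
    ty l = (Finset.univ.filter fun y => b y = y).val.map (sz b) := by
  ext r
  have key : r * (ty l).count r =
      r * ((Finset.univ.filter fun y => b y = y).val.map (sz b)).count r := by
    rw [hpa.per, Multiset.count_map, Finset.card_eq_sum_card_fiberwise
      (f := b) (t := (Finset.univ.filter fun y => b y = y).filter fun y => r = sz b y)]
    · rw [Finset.sum_congr rfl (g := fun _ => r), Finset.sum_const, smul_eq_mul, mul_comm]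
      · rfl
      · intro y hy
        simp only [Finset.mem_filter, Finset.mem_univ, true_and] at hy
        rw [hy.2, sz]
        congr 1
        ext v
        simp only [Finset.mem_filter, Finset.mem_univ, true_and, and_iff_right_iff_imp]
        intro e
        rw [h.per, e, sz]
    · intro y hy
      simp only [Finset.coe_filter, Finset.mem_filter, Finset.mem_univ, true_and,
        Set.mem_ofPred_eq] at hy ⊢
      exact ⟨h.idem y, by rw [← hy, h.per]⟩
  rcases Nat.eq_zero_or_pos r with rfl | hr
  · rw [Multiset.count_eq_zero.2 (hpa.pos l), eq_comm, Multiset.count_eq_zero]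
    intro h0
    obtain ⟨y, hy, e⟩ := Multiset.mem_map.1 h0
    rw [sz, Finset.card_eq_zero] at e
    have : y ∈ Finset.univ.filter fun v => b v = y := by simpa using hy
    simp [e] at this
  · exact Nat.eq_of_mul_eq_mul_left hr key

/-- the vectors: orbit sums at base points, differences at the other points. -/
noncomputable def V (b : Ω → Ω) (y : Ω) : Ω → K :=
  if b y = y then fun i => if b i = y then 1 else 0 else Pi.single y 1 - Pi.single (b y) 1

lemma det_V (b : Ω → Ω) (hb : ∀ u, b (b u) = b u) :
    (Matrix.of fun i y => V b y i).det =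
      ((∏ y ∈ Finset.univ.filter fun y => b y = y, sz b y : ℕ) : K) := by
  set U : Matrix Ω Ω K := Matrix.of fun i j =>
    if b i = i then (if b j = i then 1 else 0) else (if j = i then 1 else 0) with hU
  have h1 : U.det = 1 := by
    rw [Matrix.twoBlockTriangular_det U fun i => b i = i]
    · have a1 : U.toSquareBlockProp (fun i => b i = i) = 1 := by
        ext ⟨i, hi⟩ ⟨j, hj⟩
        simp [Matrix.toSquareBlockProp, Matrix.toBlock, hU, hi, hj, Matrix.one_apply, eq_comm]
      have a2 : U.toSquareBlockProp (fun i => ¬ b i = i) = 1 := by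
        ext ⟨i, hi⟩ ⟨j, hj⟩
        change U i j = _
        rw [hU, Matrix.of_apply, if_neg hi]
        simp only [Matrix.one_apply, Subtype.mk.injEq, eq_comm]
      rw [a1, a2]; simp
    · intro i hi j hj
      have : j ≠ i := fun e => hi (e ▸ hj)
      simp [hU, hi, this]
  set W := U * Matrix.of fun i y => V b y i with hW
  have w1 : ∀ i y, b i = i → W i y = ∑ j with b j = i, V b y j := by
    intro i y hi
    simp [hW, hU, Matrix.mul_apply, hi, Finset.sum_filter]
  have w2 : ∀ i y, ¬ b i = i → W i y = V b y i := by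
    intro i y hi
    simp [hW, hU, Matrix.mul_apply, hi]
  have h2 : W.det = ((∏ y ∈ Finset.univ.filter fun y => b y = y, sz b y : ℕ) : K) := by
    rw [Matrix.twoBlockTriangular_det' W fun i => b i = i]
    · have a1 : W.toSquareBlockProp (fun i => b i = i) =
          Matrix.diagonal fun i => (sz b i.1 : K) := by
        ext ⟨i, hi⟩ ⟨j, hj⟩
        change W i j = _
        simp only [w1 i j hi, V, if_pos hj, Matrix.diagonal_apply, Subtype.mk.injEq]
        by_cases e : i = j
        · rw [if_pos e, ← e, Finset.sum_congr rfl (g := fun _ => (1 : K))]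
          · simp [sz]
          · intro v hv
            rw [if_pos (Finset.mem_filter.1 hv).2]
        · rw [if_neg e]
          refine Finset.sum_eq_zero fun v hv => if_neg fun e' => e ?_
          rw [← (Finset.mem_filter.1 hv).2, e']
      have a2 : W.toSquareBlockProp (fun i => ¬ b i = i) = 1 := by
        ext ⟨i, hi⟩ ⟨j, hj⟩
        have : i ≠ b j := fun e => hi (by rw [e, hb])
        simp [Matrix.toSquareBlockProp, Matrix.toBlock, w2 i j hi, V, hj, Matrix.one_apply,
          Pi.single_apply, this]
      rw [a1, a2, Matrix.det_diagonal, Matrix.det_one, mul_one, Nat.cast_prod,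
        Finset.prod_subtype (Finset.univ.filter fun y => b y = y) (p := fun y => b y = y)
          (by simp)]
    · intro i hi j hj
      rw [w1 i j hi]
      simp [V, hj, Finset.sum_sub_distrib, Pi.single_apply, hb]
  rw [← h2, hW, Matrix.det_mul, h1, one_mul]

end star

section cl
variable {Ω : Type} [Fintype Ω] [DecidableEq Ω] {m : Type} [Fintype m] [DecidableEq m]
  {g : Ω → Matrix m m K} (h1 : ∀ i, g i * g i = 1)
  (h2 : ∀ i j, i ≠ j → g i * g j = -(g j * g i))

include h2 in
lemma anti (i : Ω) : ∀ is : List Ω, i ∉ is →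
    g i * (is.map g).prod = ((-1 : K) ^ is.length) • ((is.map g).prod * g i)
  | [], _ => by simp
  | j :: is, h => by
    rw [List.mem_cons, not_or] at h
    rw [List.map_cons, List.prod_cons, ← mul_assoc, h2 i j h.1, neg_mul, mul_assoc,
      anti i is h.2, List.length_cons, pow_succ]
    simp [mul_assoc]

include h2 in
lemma perm_pm {L L' : List Ω} (h : L.Perm L') :
    ∃ s : K, s * s = 1 ∧ (L.map g).prod = s • (L'.map g).prod := by
  induction h with
  | nil => exact ⟨1, by simp, by simp⟩
  | cons x _ ih =>
    obtain ⟨s, hs, e⟩ := ih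
    exact ⟨s, hs, by simp [e]⟩
  | swap x y l =>
    by_cases e : y = x
    · exact ⟨1, by simp, by simp [e]⟩
    · exact ⟨-1, by simp, by simp [← mul_assoc, h2 y x e]⟩
  | trans _ _ ih ih' =>
    obtain ⟨s, hs, e⟩ := ih
    obtain ⟨s', hs', e'⟩ := ih'
    refine ⟨s * s', by linear_combination s' * s' * hs + hs', by rw [e, e', smul_smul]⟩

include h1 in
lemma rev_mul : ∀ L : List Ω, (L.reverse.map g).prod * (L.map g).prod = 1
  | [] => by simp
  | i :: L => by
    rw [List.reverse_cons, List.map_append, List.prod_append, List.map_cons, List.map_cons,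
      List.map_nil, List.prod_cons, List.prod_nil, mul_one, List.prod_cons, mul_assoc,
      ← mul_assoc (g i), h1, one_mul, rev_mul L]

variable (g) in
/-- the linear map attached to the generators. -/
noncomputable def γ : (Ω → K) →ₗ[K] Matrix m m K := Fintype.linearCombination K g

lemma γ_apply (w : Ω → K) : γ g w = ∑ i, w i • g i := Fintype.linearCombination_apply _ _ _

lemma γ_single (i : Ω) : γ g (Pi.single i 1) = g i := by
  simp [γ_apply, Pi.single_apply]

include h1 h2 in
lemma γ_anti (u v : Ω → K) : ∃ c : K, γ g u * γ g v + γ g v * γ g u = c • 1 := by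
  refine ⟨∑ i, 2 * (u i * v i), ?_⟩
  rw [γ_apply, γ_apply, Finset.sum_mul_sum, Finset.sum_mul_sum, Finset.sum_comm (s := Finset.univ)
    (f := fun i j => v i • g i * u j • g j), ← Finset.sum_add_distrib, Finset.sum_smul]
  refine Finset.sum_congr rfl fun i _ => ?_
  rw [← Finset.sum_add_distrib, Finset.sum_eq_single i]
  · simp only [smul_mul_smul_comm, h1, mul_comm (v i), two_mul, add_smul]
  · intro j _ hj
    simp only [smul_mul_smul_comm, h2 j i hj, mul_comm (v j), smul_neg, add_neg_cancel]
  · simp

variable {L : List Ω} (hL : L.Nodup) (hL' : ∀ i, i ∈ L)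

include hL hL' in
lemma len_eq : L.length = Fintype.card Ω := by
  rw [← List.toFinset_card_of_nodup hL, ← Finset.card_univ]
  congr 1
  ext i
  simp [hL']

include h2 hL hL' in
lemma low0 (is : List Ω) (hl : is.length + 2 = Fintype.card Ω) :
    ((is.map g).prod * (L.map g).prod).trace = 0 := by
  obtain ⟨i, hi⟩ : ∃ i, i ∉ is := by
    by_contra h
    push Not at h
    have : (Finset.univ : Finset Ω).card ≤ is.toFinset.card :=
      Finset.card_le_card fun i _ => List.mem_toFinset.2 (h i)
    have h3 := List.toFinset_card_le is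
    rw [Finset.card_univ] at this
    omega
  obtain ⟨s, -, e⟩ := perm_pm h2 (List.perm_cons_erase (hL' i))
  have hi2 : i ∉ L.erase i := hL.not_mem_erase
  have hlen : (L.erase i).length = is.length + 1 := by
    rw [List.length_erase_of_mem (hL' i), len_eq hL hL']; omega
  have a1 := anti h2 i is hi
  have a2 := anti h2 i _ hi2
  rw [hlen] at a2
  rw [e, List.map_cons, List.prod_cons, mul_smul_comm, Matrix.trace_smul]
  set W := (is.map g).prod
  set G := ((L.erase i).map g).prod
  have : (W * (g i * G)).trace = -(W * (g i * G)).trace := by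
    conv_lhs => rw [a2, mul_smul_comm, ← mul_assoc, Matrix.trace_smul, Matrix.trace_mul_comm,
      ← mul_assoc, a1, smul_mul_assoc, Matrix.trace_smul, smul_smul, ← pow_add, mul_assoc]
    rw [Odd.neg_one_pow ⟨is.length, by ring⟩]
    simp
  rw [self_eq_neg.1 this, smul_zero]

include h2 hL hL' in
lemma low : ∀ (ws : List (Ω → K)) (is : List Ω), is.length + ws.length + 2 = Fintype.card Ω →
    ((is.map g).prod * (ws.map (γ g)).prod * (L.map g).prod).trace = 0
  | [], is, h => by simpa using low0 h2 hL hL' is (by simpa using h)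
  | w :: ws, is, h => by
    rw [List.map_cons, List.prod_cons, γ_apply, Finset.sum_mul, Finset.mul_sum, Finset.sum_mul,
      Matrix.trace_sum]
    refine Finset.sum_eq_zero fun i _ => ?_
    have := low ws (is ++ [i]) (by simp at h ⊢; omega)
    rw [List.map_append, List.prod_append] at this
    simp only [List.map_cons, List.map_nil, List.prod_cons, List.prod_nil, mul_one] at this
    rw [smul_mul_assoc, mul_smul_comm, smul_mul_assoc, Matrix.trace_smul, ← mul_assoc, this,
      smul_zero]

variable (g L) in
/-- the trace form on lists of vectors. -/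
noncomputable def T (ws : List (Ω → K)) : K := ((ws.map (γ g)).prod * (L.map g).prod).trace

include h1 h2 hL hL' in
lemma T_swap (A B : List (Ω → K)) (u v : Ω → K) (h : A.length + B.length + 2 = Fintype.card Ω) :
    T g L (A ++ u :: v :: B) = -T g L (A ++ v :: u :: B) := by
  obtain ⟨c, hc⟩ := γ_anti h1 h2 u v
  have h0 := low h2 hL hL' (A ++ B) [] (by simpa using h)
  rw [eq_neg_iff_add_eq_zero, T, T, ← Matrix.trace_add, ← add_mul]
  simp only [List.map_append, List.prod_append, List.map_cons, List.prod_cons, List.map_nil,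
    List.prod_nil, one_mul] at h0 ⊢
  rw [← mul_add, ← mul_assoc (γ g u), ← mul_assoc (γ g v), ← add_mul, hc, smul_mul_assoc,
    one_mul, mul_smul_comm, smul_mul_assoc, Matrix.trace_smul, h0, smul_zero]

include h1 h2 hL hL' in
lemma T_dup (u : Ω → K) (B : List (Ω → K)) : ∀ (M A : List (Ω → K)),
    A.length + M.length + B.length + 2 = Fintype.card Ω → T g L (A ++ u :: (M ++ u :: B)) = 0
  | [], A, h => self_eq_neg.1 (T_swap h1 h2 hL hL' A B u u (by simpa using h))
  | v :: M, A, h => by
    rw [List.cons_append, T_swap h1 h2 hL hL' A _ u v (by simp at h ⊢; omega)]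
    have := T_dup u B M (A ++ [v]) (by simp at h ⊢; omega)
    rw [List.append_assoc, List.singleton_append] at this
    rw [this, neg_zero]

include h1 h2 hL hL' in
lemma T_nodup (ws : List (Ω → K)) (h : ws.length = Fintype.card Ω) (hn : ¬ ws.Nodup) :
    T g L ws = 0 := by
  rw [List.nodup_iff_sublist] at hn
  push Not at hn
  obtain ⟨u, hu⟩ := hn
  obtain ⟨r1, r2, rfl, m1, m2⟩ := List.cons_sublist_iff.1 hu
  obtain ⟨A, M, rfl⟩ := List.append_of_mem m1
  obtain ⟨M', B, rfl⟩ := List.append_of_mem (List.singleton_sublist.1 m2)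
  have := T_dup h1 h2 hL hL' u B (M ++ M') A (by simp at h ⊢; omega)
  simpa using this

include h1 h2 hL hL' in
lemma T_det {P : List Ω} (hP : P.Nodup) (hP' : ∀ i, i ∈ P) (w : Ω → Ω → K) :
    T g L (P.map w) ^ 2 = (Fintype.card m * (Matrix.of fun i y => w y i).det) ^ 2 := by
  let e := hP.getEquivOfForallMemList P hP'
  let φ : Matrix m m K →ₗ[K] K :=
    (Matrix.traceLinearMap m K K).comp (LinearMap.mulRight K (L.map g).prod)
  let A0 : MultilinearMap K (fun _ : Ω => Ω → K) K :=
    (φ.compMultilinearMap ((MultilinearMap.mkPiAlgebraFin K P.length (Matrix m m K)).compLinearMap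
      fun _ => γ g)).domDomCongr e
  have hA : ∀ w, A0 w = T g L (P.map w) := by
    intro w
    have : (List.ofFn fun i => γ g (w (e i))) = (P.map w).map (γ g) := by
      rw [List.map_map]
      conv_rhs => rw [← List.ofFn_get P, List.map_ofFn]
      rfl
    simp [A0, φ, T, this]
  let A : (Ω → K) [⋀^Ω]→ₗ[K] K :=
    { A0 with
      map_eq_zero_of_eq' := fun v i j hv hij => by
        change A0 v = 0
        rw [hA]
        refine T_nodup h1 h2 hL hL' _ (by rw [List.length_map, len_eq hP hP']) fun hn => hij ?_
        exact List.inj_on_of_nodup_map hn (hP' i) (hP' j) hv }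
  have hA' : ∀ w, A w = T g L (P.map w) := hA
  have e1 := congrArg (fun f : (Ω → K) [⋀^Ω]→ₗ[K] K => f w)
    (A.eq_smul_basis_det (Pi.basisFun K Ω))
  simp only [AlternatingMap.smul_apply, smul_eq_mul, hA'] at e1
  have e2 : (Pi.basisFun K Ω).det w = (Matrix.of fun i y => w y i).det := by
    rw [Module.Basis.det_apply]
    congr 1
  have hperm : P.Perm L.reverse :=
    (List.perm_ext_iff_of_nodup hP (List.nodup_reverse.2 hL)).2 fun a => by simp [hP', hL']
  obtain ⟨s, hs, e3⟩ := perm_pm h2 hperm
  have e4 : T g L (P.map (Pi.basisFun K Ω)) = s * Fintype.card m := by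
    have : (P.map (Pi.basisFun K Ω)).map (γ g) = P.map g := by
      rw [List.map_map]
      exact List.map_congr_left fun i _ => by simp [γ_single]
    rw [T, this, e3, smul_mul_assoc, rev_mul h1, Matrix.trace_smul, Matrix.trace_one, smul_eq_mul]
  rw [e1, e2, e4]
  linear_combination (Fintype.card m * (Matrix.of fun i y => w y i).det) ^ 2 * hs

end cl

lemma list_pre {α β : Type} (P : α → Prop) (f : α → β) : ∀ LO : List β,
    (∀ O ∈ LO, ∃ y, P y ∧ O = f y) → ∃ LB : List α, (∀ y ∈ LB, P y) ∧ LO = LB.map f
  | [], _ => ⟨[], by simp, rfl⟩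
  | O :: LO, h => by
    obtain ⟨y, hy, e⟩ := h O (by simp)
    obtain ⟨LB, k1, k2⟩ := list_pre P f LO fun O hO => h O (by simp [hO])
    exact ⟨y :: LB, by simpa [hy] using k1, by simp [e, k2]⟩

lemma prod_smul {α A : Type} [Ring A] [Algebra K A] (κ : K) (f : α → A) : ∀ L : List α,
    (L.map fun y => κ • f y).prod = κ ^ L.length • (L.map f).prod
  | [] => by simp
  | y :: L => by
    rw [List.map_cons, List.prod_cons, prod_smul κ f L, List.map_cons, List.prod_cons,
      smul_mul_smul_comm, List.length_cons, pow_succ']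

end UfW2

open UfW2 in
theorem ufW2 (hpa : PermASt) (hpb : PermBSt) (hcb : CbSt) (hword : WordSt) : UfW2St := by
  intro Ω _ _ X _ C m _ _ g κ Φ x L LO h1 h2 hz ht hO
  obtain ⟨hL, hL', hLO, hLO'⟩ := hO
  obtain ⟨b, Ly, hs⟩ := star_ex' (C.π x)
  have hF : ∀ y, (Finset.univ.filter fun v => (C.π x).SameCycle y v) =
      Finset.univ.filter fun v => b v = b y := by
    intro y
    ext v
    simp [hs.iff, eq_comm]
  obtain ⟨LB, hB1, hB2⟩ := list_pre (fun y => b y = y)
    (fun y => Finset.univ.filter fun v => b v = y) LO fun O hO => by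
      obtain ⟨y, rfl⟩ := (hLO' O).1 hO
      exact ⟨b y, hs.idem y, hF y⟩
  have hB3 : ∀ y, b y = y → y ∈ LB := by
    intro y hy
    have : (Finset.univ.filter fun v => b v = b y) ∈ LO := (hLO' _).2 ⟨y, (hF y).symm⟩
    rw [hB2, List.mem_map] at this
    obtain ⟨y', k1, k2⟩ := this
    have : y ∈ Finset.univ.filter fun v => b v = y' := by rw [k2]; simp
    rw [← hy, (Finset.mem_filter.1 this).2]
    exact k1
  have hP : (LB ++ Ly).Nodup := by
    rw [List.nodup_append]
    exact ⟨List.Nodup.of_map _ (hB2 ▸ hLO), hs.2.2.1, fun u hu v hv e =>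
      (hs.2.2.2.1 v).1 hv (e ▸ hB1 u hu)⟩
  have hP' : ∀ i, i ∈ LB ++ Ly := by
    intro i
    rw [List.mem_append, hs.2.2.2.1]
    by_cases e : b i = i
    · exact Or.inl (hB3 i e)
    · exact Or.inr e
  have hty := hs.ty_eq (hpa Ω)
  have hlen : Ly.length = Fintype.card Ω - (ty (C.π x)).card := by
    have k1 := len_eq hP hP'
    have k2 : LB.length = (ty (C.π x)).card := by
      rw [hty, Multiset.card_map, ← List.toFinset_card_of_nodup (List.Nodup.of_append_left hP)]
      change _ = (Finset.univ.filter fun y => b y = y).card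
      congr 1
      ext y
      simpa using ⟨hB1 y, hB3 y⟩
    rw [List.length_append] at k1
    omega
  have hπ : C.π (Ly.map fun y => C.t y (b y)).prod = C.π x := by
    rw [map_list_prod, List.map_map]
    conv_rhs => rw [hs.2.2.2.2]
    congr 1
    exact List.map_congr_left fun y hy => C.πt _ _ ((hs.2.2.2.1 y).1 hy).symm
  obtain ⟨j, hj⟩ := (hcb Ω X C).lift _ _ hπ
  have hΦ : Φ x = ((-1 : K) ^ j * κ ^ Ly.length) • ((Ly.map (V b)).map (γ g)).prod := by
    have : (Ly.map fun y => C.t y (b y)).map Φ = Ly.map fun y => κ • γ g (V b y) := by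
      rw [List.map_map]
      refine List.map_congr_left fun y hy => ?_
      have hy' := (hs.2.2.2.1 y).1 hy
      rw [Function.comp_apply, ht _ _ hy'.symm, V, if_neg hy', map_sub, γ_single, γ_single]
    conv_lhs => rw [hj]
    have k : (-1 : Matrix m m K) ^ j = ((-1 : K) ^ j) • 1 := by
      rcases Nat.even_or_odd j with h | h <;> simp [h.neg_one_pow]
    rw [map_mul, map_pow, hz, map_list_prod, this, prod_smul, List.map_map, mul_smul, k,
      smul_one_mul]
    rfl
  have hFF : (LO.map fun O => ∑ i ∈ O, g i).prod = ((LB.map (V b)).map (γ g)).prod := by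
    rw [hB2, List.map_map, List.map_map]
    congr 1
    refine List.map_congr_left fun y hy => ?_
    simp [V, hB1 y hy, γ_apply, Finset.sum_filter]
  have hT := T_det h1 h2 hL hL' hP hP' (V b)
  rw [det_V b hs.idem] at hT
  have hprod : (ty (C.π x)).prod = ∏ y ∈ Finset.univ.filter fun y => b y = y, sz b y := by
    rw [hty]; rfl
  rw [Wd, ← mul_assoc, Matrix.trace_mul_comm, hFF, hΦ, smul_mul_assoc, mul_smul_comm,
    Matrix.trace_smul, ← mul_assoc, ← List.prod_append, ← List.map_append, ← List.map_append,
    smul_eq_mul, mul_pow, ← hlen, hprod]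
  rw [T] at hT
  rw [hT, mul_pow, ← pow_mul, Even.neg_one_pow ⟨j, by ring⟩]
  ring

end Pool.Agent.Lib.MP_1ae3da_al.GM
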