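import Pool.Agent.Lib.MP_1ae3da_al.GFin
import Pool.Agent.Lib.MP_1ae3da_al.GChA
import Pool.Agent.Lib.MP_1ae3da_al.GDeg
import Pool.Agent.Lib.MP_1ae3da_al.GChB
import Pool.Agent.Lib.MP_1ae3da_al.GChH
import Pool.Agent.Lib.MP_1ae3da_al.GIx
import Pool.Agent.Lib.MP_1ae3da_al.GCmp
import Pool.Agent.Lib.MP_1ae3da_al.GSq
import Pool.Agent.Lib.MP_1ae3da_al.GAbsC
import Pool.Agent.Lib.MP_1ae3da_al.GAbsM
import Pool.Agent.Lib.MP_1ae3da_al.GAbsQ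
import Pool.Agent.Lib.MP_1ae3da_al.GOrb
import Pool.Agent.Lib.MP_1ae3da_al.GFa1
import Pool.Agent.Lib.MP_1ae3da_al.GFa2
import Pool.Agent.Lib.MP_1ae3da_al.GSol
import Pool.Agent.Lib.MP_1ae3da_al.GMon
import Pool.Agent.Lib.MP_1ae3da_al.GBr
import Pool.Agent.Lib.MP_1ae3da_al.GFb
import Pool.Agent.Lib.MP_1ae3da_al.GIto
import Pool.Agent.Lib.MP_1ae3da_al.GPermA
import Pool.Agent.Lib.MP_1ae3da_al.GPermB
import Pool.Agent.Lib.MP_1ae3da_al.GAv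
import Pool.Agent.Lib.MP_1ae3da_al.GFkB
import Pool.Agent.Lib.MP_1ae3da_al.GFkC
import Pool.Agent.Lib.MP_1ae3da_al.GSh
import Pool.Agent.Lib.MP_1ae3da_al.GCnt
import Pool.Agent.Lib.MP_1ae3da_al.GMn
import Pool.Agent.Lib.MP_1ae3da_al.GNsA
import Pool.Agent.Lib.MP_1ae3da_al.GNsB
import Pool.Agent.Lib.MP_1ae3da_al.GNsC
import Pool.Agent.Lib.MP_1ae3da_al.GNs
import Pool.Agent.Lib.MP_1ae3da_al.GCb
import Pool.Agent.Lib.MP_1ae3da_al.GCox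
import Pool.Agent.Lib.MP_1ae3da_al.GCov
import Pool.Agent.Lib.MP_1ae3da_al.GTauA
import Pool.Agent.Lib.MP_1ae3da_al.GTauB
import Pool.Agent.Lib.MP_1ae3da_al.GUfW1
import Pool.Agent.Lib.MP_1ae3da_al.GUfW2
import Pool.Agent.Lib.MP_1ae3da_al.GUf
import Pool.Agent.Lib.MP_1ae3da_al.GAut
import Pool.Agent.Lib.MP_1ae3da_al.GIso
import Pool.Agent.Lib.MP_1ae3da_al.GLat
import Pool.Agent.Lib.MP_1ae3da_al.GExt
import Pool.Agent.Lib.MP_1ae3da_al.GPrP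
import Pool.Agent.Lib.MP_1ae3da_al.GPrM
import Pool.Agent.Lib.MP_1ae3da_al.GPeM
import Pool.Agent.Lib.MP_1ae3da_al.GConv
import Pool.Agent.Lib.MP_1ae3da_al.GSpin
import Pool.Agent.Lib.MP_1ae3da_al.GGlM
import Pool.Agent.Lib.MP_1ae3da_al.GGlQ
import Pool.Agent.Lib.MP_1ae3da_al.GGlP
import Pool.Agent.Lib.MP_1ae3da_al.GSylA
import Pool.Agent.Lib.MP_1ae3da_al.GSylB
import Pool.Agent.Lib.MP_1ae3da_al.GSylC
import Pool.Agent.Lib.MP_1ae3da_al.GSylD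
import Pool.Agent.Lib.MP_1ae3da_al.GTool
import Pool.Agent.Lib.MP_1ae3da_al.GImg
import Pool.Agent.Lib.MP_1ae3da_al.GLp1
import Pool.Agent.Lib.MP_1ae3da_al.GLp3
import Pool.Agent.Lib.MP_1ae3da_al.GLp4a
import Pool.Agent.Lib.MP_1ae3da_al.GLp4b
import Pool.Agent.Lib.MP_1ae3da_al.GLp5
import Pool.Agent.Lib.MP_1ae3da_al.GLocp
import Pool.Agent.Lib.MP_1ae3da_al.GNumA
import Pool.Agent.Lib.MP_1ae3da_al.GNumB
import Pool.Agent.Lib.MP_1ae3da_al.GLcm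
import Pool.Agent.Lib.MP_1ae3da_al.GLci
import Pool.Agent.Lib.MP_1ae3da_al.GLoc
import Pool.Agent.Lib.MP_1ae3da_al.GLc
import Pool.Agent.Lib.MP_1ae3da_al.GRunP
import Pool.Agent.Lib.MP_1ae3da_al.GRunS
import Pool.Agent.Lib.MP_1ae3da_al.GRunC
import Pool.Agent.Lib.MP_1ae3da_al.GTow
import Pool.Agent.Lib.MP_1ae3da_al.GMatM
import Pool.Agent.Lib.MP_1ae3da_al.GMatP

/-! All intermediate statements hold; the two main theorems. -/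

namespace Pool.Agent.Lib.MP_1ae3da_al.GM

open Equiv

theorem A_ha : ChASt :=
  chA
theorem A_hd : DegSt :=
  deg A_ha
theorem A_hb : ChBSt :=
  chB A_ha A_hd
theorem A_hh : ChHSt :=
  chH A_ha A_hb
theorem A_hcmp : CmpSt :=
  cmpSt
theorem A_hsq : SqSt :=
  sqSt
theorem A_horb : OrbSt :=
  orb
theorem A_hpa : PermASt :=
  permA
theorem A_hpb : PermBSt :=
  permB A_hpa
theorem A_hav : AvSt :=
  avSt
theorem A_hfB : FkBSt :=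
  fkB A_hav
theorem A_hfD : FkDSt :=
  fkD A_hav
theorem A_hfC : FkCSt :=
  fkC A_hav A_hfD
theorem A_hsh : ShSt :=
  shSt
theorem A_hcnt : CntSt :=
  cnt A_hsh
theorem A_hmn : MnSt :=
  mnSt
theorem A_hnE : NsESt :=
  nsE A_hmn
theorem A_hnB : NsBSt :=
  nsB A_hmn A_hav
theorem A_hnC : NsCSt :=
  nsC A_hmn
theorem A_hnD : NsDSt :=
  nsD A_hmn
theorem A_hcb : CbSt :=
  cb A_hpa
theorem A_hword : WordSt :=
  word A_hpa A_hcb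
theorem A_hcox : CoxSt :=
  cox
theorem A_hgam : GamSt :=
  gam
theorem A_hlift : LiftSt :=
  lift A_hcox A_hcb
theorem A_hmod : ModSt :=
  modSt A_hcox A_hgam
theorem A_hcov : CovSt :=
  cov
theorem A_hw1 : UfW1St :=
  ufW1 A_hpa A_hpb
theorem A_hw2 : UfW2St :=
  ufW2 A_hpa A_hpb A_hcb A_hword
theorem A_haut : AutSt :=
  aut
theorem A_haut2 : Aut2St :=
  aut2 A_haut A_hcb
theorem A_hiso : IsoSt :=
  iso A_hcox A_hmod A_hcb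
theorem A_hconv : ConvSt :=
  convSt A_hpa A_hcb A_hav
theorem A_hsA : SylASt :=
  sylA
theorem A_hsB : SylBSt :=
  sylB A_hsA
theorem A_hsC : SylCSt :=
  sylC A_hsA
theorem A_hsD : SylDSt :=
  sylD A_hsA
theorem A_htool : ToolSt :=
  tool A_hsq A_hpa A_hpb A_hsA
theorem A_himg : ImgSt :=
  img
theorem A_hl0 : Lp0St :=
  lp0 A_himg
theorem A_hl1 : Lp1St :=
  lp1 A_himg
theorem A_hl2 : Lp2St :=
  lp2
theorem A_hl3 : Lp3St :=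
  lp3 A_htool A_hpa A_hpb A_himg
theorem A_hl4a : Lp4aSt :=
  lp4a A_htool A_hsq A_hpa A_hpb A_himg
theorem A_hl4b : Lp4bSt :=
  lp4b A_htool A_hsq A_hpa A_hpb A_himg
theorem A_hl5 : Lp5St :=
  lp5 A_htool A_hsq A_hpa A_hpb A_himg
theorem A_hlocp : LocpSt :=
  locp A_hpa A_hpb A_himg A_hl0 A_hl1 A_hl2 A_hl3 A_hl4a A_hl4b A_hl5
theorem A_htc : TyCntSt :=
  tyCnt A_hsq
theorem A_hnuA : NumASt :=
  numA A_hsq A_hpa A_hpb A_hsA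
theorem A_hnum : NumSt :=
  num A_hnuA A_hcmp A_hpa A_htc
theorem A_hsgn : SgnSt :=
  sgn A_hnum A_hsq A_hcmp A_htc
theorem A_hlcm : LcmSt :=
  lcm A_hsA A_hsC A_hsD A_hcb
theorem A_hrP : RunPSt :=
  runP A_hsh
theorem A_hrS : RunSSt :=
  runS A_hsh A_hcmp
theorem A_hrC : RunCSt :=
  runC A_hsh A_hcmp
theorem A_htow : TowSt :=
  tow
theorem A_hmM : MatMSt :=
  matM A_htow A_hrP A_hrS A_hsh A_hcnt A_hcmp A_htc
theorem A_hm0 : Mat0St :=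
  mat0 A_htow A_hrP A_hsh A_hcnt A_htc
theorem A_hmP : MatPSt :=
  matP A_htow A_hrP A_hrC A_hsh A_hcnt A_hcmp A_htc
theorem A_hch : ChSt := ⟨A_ha, A_hb, A_hh⟩
theorem A_hix : IxSt :=
  ix A_hch
theorem A_habC : AbsCSt :=
  absC A_hch A_hix A_hsq
theorem A_habM : AbsMSt :=
  absM A_hch A_hix A_hsq
theorem A_habQ : AbsQSt :=
  absQ A_hch A_hix A_hsq
theorem A_hfa1 : Fa1St :=
  fa1 A_hch A_hix
theorem A_hfa2 : Fa2St :=
  fa2 A_hch A_hix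
theorem A_hsol : SolSt :=
  sol A_hch
theorem A_hmon : MonSt :=
  mon A_hch
theorem A_hbr : BrSt :=
  br A_hch A_hsol A_hmon
theorem A_hfb : FbSt :=
  fb A_hch A_hix A_hbr A_hsq
theorem A_hito : ItoSt :=
  ito A_hch
theorem A_hnA : NsASt :=
  nsA A_hch A_hpa
theorem A_hns : NsSt :=
  ns A_hch A_hpa A_hav A_hnA A_hnB A_hnC A_hnD A_hnE A_hsh A_hcnt
theorem A_htA : TauASt :=
  tauA A_hch A_hsq A_hpa A_hcb A_hword A_hlift A_hgam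
theorem A_htB : TauBSt :=
  tauB A_hch A_hpa A_hcb A_hword A_hlift A_hgam
theorem A_huf : UfSt :=
  uf A_hch A_hsq A_hpa A_hpb A_hcb A_hlift A_hgam A_hw1 A_hw2
theorem A_hlat : LatSt :=
  lat A_hch
theorem A_htw : TwSt :=
  twSt A_hch
theorem A_he1 : Ext1St :=
  ext1 A_hch
theorem A_he0 : Ext0St :=
  ext0 A_hch A_hix
theorem A_hprP : ProdSt 1 :=
  prodP A_hch A_hlat
theorem A_hpeP : PerpSt 1 :=
  perpP A_hch A_hlat
theorem A_hprM : ProdSt (-1) :=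
  prodM A_hch A_hlat A_htw A_hprP
theorem A_hpeM : PerpSt (-1) :=
  perpM A_hch A_hlat A_htw
theorem A_hspin : SpinSt :=
  spin A_hlat A_hprP A_hprM A_hpeP A_hpeM A_hconv A_hcb A_hpa A_hav
theorem A_hgP : GlpSt :=
  glp A_hch A_hix A_hsq A_hcmp A_hpa A_hpb A_hcb A_huf A_hns A_hsh
theorem A_hlci : LciSt :=
  lci A_hlocp A_huf A_hsgn A_hnum A_hsq A_hcmp A_hsA A_hcb
theorem A_hloc : LocSt :=
  loc A_hlcm A_hlci A_hsA A_hsB A_hcb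
theorem A_hlc : LcSt :=
  lc A_hch A_hix A_habC A_habM A_habQ A_horb A_hito A_hsq A_hcmp
theorem A_htau : TauSt := fun Ω _ _ X _ _ C =>
  (A_htA Ω X C).imp fun τ h => A_htB Ω X C τ h
theorem A_hgM : GlmMSt :=
  glmM A_hch A_hix A_habM A_hsq A_hcmp A_hpa A_hpb A_hcb A_htau A_huf A_hlat A_he0 A_hspin A_hav A_hfB A_hfC A_hsh
theorem A_hgQ : GlmQSt :=
  glmQ A_hch A_hix A_habQ A_hsq A_hcmp A_hpa A_hpb A_hcb A_htau A_huf A_hlat A_he1 A_hspin A_hav A_hfB A_hfC A_hsh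

theorem A_core : CoreSt := fun Ω _ _ X X0 N N0 _ _ _ _ _ C Γ hΓ p hp hp2 R Δ j hL =>
  faHyp A_hix A_hsq A_hcmp A_hgM A_hgQ A_hgP A_hloc A_hlc A_hnum A_hmM A_hmP A_hm0 Ω X X0 N N0 C Γ
    hΓ p hp hp2 R Δ j hL

theorem thm1 (n p : ℕ) (hn : 8 ≤ n) (hp : p.Prime) (hp2 : p ≠ 2) (hpn : p ≤ n) (X : Type)
    [Group X] [Finite X] (f : X →* alternatingGroup (Fin n)) (hX : commutator X = ⊤)
    (hf : Function.Surjective f) (hc : f.ker ≤ Subgroup.center X) (hk : f.ker ≠ ⊥)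
    (R : Sylow p X) : NSV.Inductive p X R :=
  main1 A_core A_hfa2 A_hfb A_haut2 A_hcb A_hiso n p hn hp hp2 hpn X f hX hf hc hk R

theorem thm2 (n p : ℕ) (hp : p.Prime) (hp2 : p ≠ 2) (X : Type) [Group X] [Finite X]
    (π : X →* Perm (Fin n)) (hs : Function.Surjective π) (hk : Nat.card π.ker = 2)
    (hc : ∃ (x y : X) (a b c d : Fin n), [a, b, c, d].Nodup ∧ π x = swap a b ∧ π y = swap c d ∧
      x * y ≠ y * x)
    (G : Subgroup X) (hG : (Perm.sign.comp π).ker ≤ G) (P : Sylow p G) :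
    ∃ f : NSV.IrrP p G ≃ NSV.IrrP p (Subgroup.normalizer (P : Set G)),
      ∀ σ ∈ NSV.H p, ∀ χ χ' : NSV.IrrP p G, χ'.1 = σ ∘ χ.1 → (f χ').1 = σ ∘ (f χ).1 :=
  main2 A_core A_hfa1 A_hfa2 A_hcov A_hsq n p hp hp2 X π hs hk hc G hG P

end Pool.Agent.Lib.MP_1ae3da_al.GM
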