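import Mathlib

/-! The closure of Navarro's group in the Krull topology. -/

namespace Pool.Agent.Lib.MP_1ae3da_al

open Pointwise

variable {K : Type} [Field K] [CharZero K] [IsAlgClosed K] [Algebra.IsAlgebraic ℚ K]

omit [IsAlgClosed K] in
lemma isClosed_apply (x y : K) : IsClosed {τ : K ≃ₐ[ℚ] K | τ x = y} := by
  by_cases h : ∃ τ : K ≃ₐ[ℚ] K, τ x = y
  · obtain ⟨τ₀, rfl⟩ := h
    have h1 := Subgroup.isClosed_of_isOpen _ (stabilizer_isOpen_of_isIntegral (K := ℚ) x)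
    have : {τ : K ≃ₐ[ℚ] K | τ x = τ₀ x}
        = (fun τ => τ₀⁻¹ * τ) ⁻¹' (MulAction.stabilizer (K ≃ₐ[ℚ] K) x : Set (K ≃ₐ[ℚ] K)) := by
      ext τ
      simp only [Set.mem_setOf_eq, Set.mem_preimage, SetLike.mem_coe, MulAction.mem_stabilizer_iff,
        mul_smul, inv_smul_eq_iff]
      rfl
    rw [this]
    exact h1.preimage (continuous_const_mul _)
  · have : {τ : K ≃ₐ[ℚ] K | τ x = y} = ∅ := by
      ext τ; simpa using fun e => h ⟨τ, e⟩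
    rw [this]; exact isClosed_empty

omit [IsAlgClosed K] in
lemma isClosed_pow (n a : ℕ) : IsClosed {τ : K ≃ₐ[ℚ] K | ∀ ξ : K, ξ ^ n = 1 → τ ξ = ξ ^ a} := by
  simp only [Set.setOf_forall]
  exact isClosed_iInter fun ξ => isClosed_iInter fun _ => isClosed_apply _ _

omit [IsAlgClosed K] [Algebra.IsAlgebraic ℚ K] in
lemma directed_pow (p a : ℕ) : Directed (· ⊇ ·) fun n : {n : ℕ // n.Coprime p} =>
    {τ : K ≃ₐ[ℚ] K | ∀ ξ : K, ξ ^ n.1 = 1 → τ ξ = ξ ^ a} := by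
  intro n m
  refine ⟨⟨n.1 * m.1, Nat.Coprime.mul_left n.2 m.2⟩, ?_, ?_⟩
  · intro τ h ξ hξ
    exact h ξ (by rw [pow_mul, hξ, one_pow])
  · intro τ h ξ hξ
    exact h ξ (by rw [pow_mul', hξ, one_pow])

lemma exists_frobenius (p : ℕ) (hp : p.Prime) :
    ∃ φ : K ≃ₐ[ℚ] K, ∀ (n : ℕ) (ξ : K), n.Coprime p → ξ ^ n = 1 → φ ξ = ξ ^ p := by
  haveI : IsAlgClosure ℚ K := ⟨inferInstance, inferInstance⟩
  haveI : Nonempty {n : ℕ // n.Coprime p} := ⟨⟨1, by simp⟩⟩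
  obtain ⟨φ, hφ⟩ := IsCompact.nonempty_iInter_of_directed_nonempty_isCompact_isClosed _
    (directed_pow (K := K) p p) (by
      rintro ⟨n, hn⟩
      have hn0 : 0 < n := Nat.pos_of_ne_zero (by
        rintro rfl
        exact hp.one_lt.ne' (by simpa using hn))
      haveI : NeZero (n : K) := ⟨by exact_mod_cast hn0.ne'⟩
      haveI : NeZero n := ⟨hn0.ne'⟩
      obtain ⟨ω, hω⟩ := HasEnoughRootsOfUnity.exists_primitiveRoot K n
      have h1 : IsPrimitiveRoot (ω ^ p) n := hω.pow_of_coprime p hn.symm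
      obtain ⟨τ, hτ⟩ := minpoly.exists_algEquiv_of_root' (K := ℚ) (x := ω ^ p) (y := ω)
        (Algebra.IsAlgebraic.isAlgebraic ω) (by
          rw [← Polynomial.cyclotomic_eq_minpoly_rat hω hn0,
            Polynomial.cyclotomic_eq_minpoly_rat h1 hn0, minpoly.aeval])
      refine ⟨τ, fun ξ hξ => ?_⟩
      obtain ⟨i, -, rfl⟩ := hω.eq_pow_of_pow_eq_one hξ
      rw [map_pow, hτ, ← pow_mul, ← pow_mul, mul_comm])
    (fun n => (isClosed_pow _ _).isCompact) (fun n => isClosed_pow _ _)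
  exact ⟨φ, fun n ξ hn hξ => Set.mem_iInter.mp hφ ⟨n, hn⟩ ξ hξ⟩

theorem mem_closure_of_local (p : ℕ) (hp : p.Prime) (σ : K ≃ₐ[ℚ] K)
    (h : ∀ n : ℕ, n.Coprime p → ∃ e : ℕ, ∀ ξ : K, ξ ^ n = 1 → σ ξ = ξ ^ p ^ e) :
    σ ∈ closure {τ : K ≃ₐ[ℚ] K |
      ∃ e : ℕ, ∀ (n : ℕ) (ξ : K), n.Coprime p → ξ ^ n = 1 → τ ξ = ξ ^ p ^ e} := by
  haveI : IsAlgClosure ℚ K := ⟨inferInstance, inferInstance⟩
  haveI : Nonempty {n : ℕ // n.Coprime p} := ⟨⟨1, by simp⟩⟩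
  obtain ⟨φ, hφ⟩ := exists_frobenius (K := K) p hp
  have hφe : ∀ (e n : ℕ) (ξ : K), n.Coprime p → ξ ^ n = 1 → (φ ^ e) ξ = ξ ^ p ^ e := by
    intro e n ξ hn hξ
    induction e with
    | zero => simp
    | succ e ih => rw [pow_succ', AlgEquiv.mul_apply, ih, map_pow, hφ n ξ hn hξ, ← pow_mul,
        ← pow_succ']
  rw [mem_closure_iff]
  intro W hW hσ
  let A : Set (K ≃ₐ[ℚ] K) := (fun a => σ * a⁻¹) ⁻¹' W
  have hA : IsOpen A := hW.preimage (by fun_prop)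
  let I : Set (K ≃ₐ[ℚ] K) := ⋂ n : {n : ℕ // n.Coprime p},
    {τ : K ≃ₐ[ℚ] K | ∀ ξ : K, ξ ^ n.1 = 1 → τ ξ = ξ ^ 1}
  obtain ⟨n, hn⟩ := exists_subset_nhds_of_compactSpace (directed_pow (K := K) p 1)
    (fun n => isClosed_pow _ _) (U := I * A) (fun x hx =>
      (hA.mul_left).mem_nhds ⟨x, hx, 1, by simpa [A] using hσ, mul_one x⟩)
  obtain ⟨e, he⟩ := h n.1 n.2
  obtain ⟨ρ, hρ, a, ha, hρa⟩ := hn (a := (φ ^ e)⁻¹ * σ) (by
    intro ξ hξ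
    rw [AlgEquiv.mul_apply, he ξ hξ, ← hφe e n.1 ξ n.2 hξ, ← AlgEquiv.mul_apply, inv_mul_cancel]
    simp)
  refine ⟨φ ^ e * ρ, ?_, e, fun m ξ hm hξ => ?_⟩
  · have : φ ^ e * ρ = σ * a⁻¹ := by
      have h1 : ρ * a = (φ ^ e)⁻¹ * σ := hρa
      rw [eq_mul_inv_iff_mul_eq, mul_assoc, h1, mul_inv_cancel_left]
    rw [this]; exact ha
  · rw [AlgEquiv.mul_apply, Set.mem_iInter.mp hρ ⟨m, hm⟩ ξ hξ, pow_one, hφe e m ξ hm hξ]

end Pool.Agent.Lib.MP_1ae3da_al
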