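import Pool.Agent.Lib.MP_1ae3da_al.Tri

/-! Every nonzero representation of `GL_m(F_p)` has an eigenvector for the unitriangular group
whose eigenvalue only depends on the first superdiagonal. -/

namespace Pool.Agent.Lib.MP_1ae3da_al

open Matrix Module

variable {K : Type} [Field K] [CharZero K] {V : Type} [AddCommGroup V] [Module K V]
  {p : ℕ} [Fact p.Prime] {m : ℕ}

omit [CharZero K] in
lemma sum_psi {A : Type} [AddCommGroup A] [Fintype A] (ψ : AddChar (ZMod p) K)
    (hψ : ∀ t, ψ t = 1 → t = 0) (f : A →+ ZMod p) [Decidable (∀ a, f a = 0)] :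
    ∑ a, ψ (f a) = if ∀ a, f a = 0 then (Fintype.card A : K) else 0 := by
  classical
  have := AddChar.sum_eq_ite (ψ.compAddMonoidHom f)
  simp only [AddChar.compAddMonoidHom_apply] at this
  rw [this]
  congr 1
  apply propext
  constructor
  · intro h a
    exact hψ _ (by simpa using DFunLike.congr_fun h a)
  · intro h
    ext a
    simp [h a]

/-- the first `c` columns vanish. -/
def Col (c : ℕ) (n : Matrix (Fin m) (Fin m) (ZMod p)) : Prop :=
  ∀ i j : Fin m, (j : ℕ) < c → n i j = 0

/-- the matrix with column `c` given by the first `c` entries of `a`. -/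
def colM (c : Fin m) : (Fin m → ZMod p) →+ Matrix (Fin m) (Fin m) (ZMod p) where
  toFun a := Matrix.of fun i j => if j = c ∧ (i : ℕ) < c then a i else 0
  map_zero' := by ext i j; simp
  map_add' a b := by
    ext i j
    simp only [of_apply, Pi.add_apply, Matrix.add_apply]
    split_ifs <;> simp

lemma colM_apply (c : Fin m) (a : Fin m → ZMod p) (i j : Fin m) :
    colM c a i j = if j = c ∧ (i : ℕ) < c then a i else 0 := rfl

lemma colM_lev (c : Fin m) (a : Fin m → ZMod p) : Lev 1 (colM c a) := by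
  intro i j hij
  rw [colM_apply, if_neg]
  rintro ⟨rfl, h⟩
  omega

lemma mul_colM (c : Fin m) (a : Fin m → ZMod p) {n : Matrix (Fin m) (Fin m) (ZMod p)}
    (hn : Col c n) : n * colM c a = 0 := by
  ext i j
  rw [Matrix.mul_apply]
  refine Finset.sum_eq_zero fun l _ => ?_
  by_cases hl : (l : ℕ) < c
  · rw [hn i l hl, zero_mul]
  · rw [colM_apply, if_neg (fun h => hl h.2), mul_zero]

lemma colM_col (c : Fin m) (a : Fin m → ZMod p) : Col c (colM c a) := by
  intro i j hj
  rw [colM_apply, if_neg]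
  rintro ⟨rfl, _⟩
  omega

lemma Col.mul {c : ℕ} {n : Matrix (Fin m) (Fin m) (ZMod p)} (hn : Col c n)
    (A : Matrix (Fin m) (Fin m) (ZMod p)) : Col c (A * n) := by
  intro i j hj
  rw [Matrix.mul_apply]
  exact Finset.sum_eq_zero fun l _ => by rw [hn l j hj, mul_zero]

lemma exists_h (c : Fin m) (μ : Fin m → ZMod p) :
    ∃ h : GL (Fin m) (ZMod p),
      (∀ i j : Fin m, (c : ℕ) ≤ i → (h : Matrix (Fin m) (Fin m) (ZMod p)) i j
        = (1 : Matrix (Fin m) (Fin m) (ZMod p)) i j) ∧
      ∀ j : Fin m, (j : ℕ) + 1 < c → (μ ᵥ* (h : Matrix (Fin m) (Fin m) (ZMod p))) j = 0 := by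
  by_cases h0 : ∀ i : Fin m, (i : ℕ) < c → μ i = 0
  · refine ⟨1, fun _ _ _ => rfl, fun j hj => ?_⟩
    simp [h0 j (by omega)]
  push Not at h0
  obtain ⟨i0, hi0, hμ⟩ := h0
  let l : Fin m := ⟨c - 1, by have := c.2; omega⟩
  let ν : Fin m → ZMod p := fun j => if j = i0 then 1 else -(μ j) / μ i0
  let T : Matrix (Fin m) (Fin m) (ZMod p) := updateRow 1 i0 ν
  have hT : T.det = 1 := by
    have := det_updateRow_sum (1 : Matrix (Fin m) (Fin m) (ZMod p)) i0 ν
    have e : ∑ k, ν k • (1 : Matrix (Fin m) (Fin m) (ZMod p)) k = ν := by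
      funext j
      simp [Finset.sum_apply, one_apply]
    rw [e] at this
    rw [this]; simp [ν]
  have hdet : (T.submatrix id (Equiv.swap i0 l)).det ≠ 0 := by
    rw [det_permute', hT, mul_one]
    rcases Int.units_eq_one_or (Equiv.Perm.sign (Equiv.swap i0 l)) with h | h <;> simp [h]
  refine ⟨GeneralLinearGroup.mkOfDetNeZero _ hdet, ?_, ?_⟩
  · intro i j hi
    have h1 : i ≠ i0 := by intro e; rw [e] at hi; omega
    have h2 : i ≠ l := by intro e; rw [e] at hi; simp only [l] at hi; omega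
    simp only [GeneralLinearGroup.val_mkOfDetNeZero, submatrix_apply, id, T,
      updateRow_ne h1, one_apply]
    congr 1
    apply propext
    rw [← Equiv.symm_apply_eq, Equiv.symm_swap, Equiv.swap_apply_of_ne_of_ne h1 h2]
  · intro j hj
    have h1 : Equiv.swap i0 l j ≠ i0 := by
      rw [Ne, Equiv.apply_eq_iff_eq_symm_apply, Equiv.symm_swap, Equiv.swap_apply_left]
      intro e; rw [e] at hj; simp only [l] at hj; omega
    simp only [GeneralLinearGroup.val_mkOfDetNeZero, vecMul, dotProduct, submatrix_apply, id]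
    generalize Equiv.swap i0 l j = k at h1
    rw [← Finset.add_sum_erase _ _ (Finset.mem_univ i0), Finset.sum_eq_single k]
    · simp only [T, updateRow_self, updateRow_ne h1, one_apply_eq, ν, if_neg h1]
      field_simp
      ring
    · intro b hb hbk
      have : b ≠ i0 := by simpa using hb
      simp [T, updateRow_ne this, one_apply_ne hbk]
    · intro h; exfalso; apply h; simpa using h1

lemma eig_step (ρ : Representation K (GL (Fin m) (ZMod p)) V) (ψ : AddChar (ZMod p) K)
    (hψ : ∀ t, ψ t = 1 → t = 0) (c : Fin m) (v : V) (hv : v ≠ 0)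
    (ℓ : Matrix (Fin m) (Fin m) (ZMod p) →+ ZMod p)
    (h2 : ∀ n, Lev 2 n → Col (c + 1) n → ℓ n = 0)
    (h1 : ∀ n, Lev 1 n → Col (c + 1) n → ρ (uni n) v = ψ (ℓ n) • v) :
    ∃ (v' : V) (ℓ' : Matrix (Fin m) (Fin m) (ZMod p) →+ ZMod p), v' ≠ 0 ∧
      (∀ n, Lev 2 n → Col c n → ℓ' n = 0) ∧
      ∀ n, Lev 1 n → Col c n → ρ (uni n) v' = ψ (ℓ' n) • v' := by
  classical
  have hcol : ∀ {n : Matrix (Fin m) (Fin m) (ZMod p)}, Col (c + 1) n → Col c n :=
    fun h i j hj => h i j (by omega)
  have hxx : ∀ a b : Fin m → ZMod p, uni (colM c a) * uni (colM c b) = uni (colM c (a + b)) := by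
    intro a b
    ext1
    rw [Units.val_mul, uni_val (colM_lev _ _), uni_val (colM_lev _ _), uni_val (colM_lev _ _),
      map_add]
    simp only [mul_add, add_mul, mul_one, one_mul, mul_colM c b (colM_col c a)]
    abel
  have hW : ∀ a n, Lev 1 n → Col (c + 1) n →
      ρ (uni n) (ρ (uni (colM c a)) v) = ψ (ℓ n) • ρ (uni (colM c a)) v := by
    intro a n hn hc
    have l2 : Lev 2 (colM c a * n) := (colM_lev c a).mul hn
    have l1 : Lev 1 (n - colM c a * n) := hn.sub (l2.mono (by omega))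
    have c1 : Col (c + 1) (n - colM c a * n) := fun i j hj => by
      rw [Matrix.sub_apply, hc i j hj, hc.mul _ i j hj, sub_zero]
    have e : uni n * uni (colM c a) = uni (colM c a) * uni (n - colM c a * n) := by
      ext1
      rw [Units.val_mul, Units.val_mul, uni_val (colM_lev _ _), uni_val hn, uni_val l1]
      simp only [mul_add, add_mul, mul_one, one_mul, mul_colM c a (hcol hc), mul_sub,
        ← mul_assoc, mul_colM c a (colM_col c a), zero_mul]
      abel
    rw [← Module.End.mul_apply, ← map_mul, e, map_mul, Module.End.mul_apply, h1 _ l1 c1,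
      map_smul, map_sub, h2 _ l2 (hc.mul _), sub_zero]
  let w : (Fin m → ZMod p) → V := fun μ => ∑ a, ψ (-(μ ⬝ᵥ a)) • ρ (uni (colM c a)) v
  obtain ⟨μ, hμ⟩ : ∃ μ, w μ ≠ 0 := by
    by_contra hc
    push Not at hc
    have e1 : ∑ μ, w μ = 0 := by simp [hc]
    simp only [w] at e1
    rw [Finset.sum_comm, Finset.sum_eq_single 0] at e1
    · simp only [dotProduct_zero, neg_zero, AddChar.map_zero_eq_one, map_zero, uni_zero, map_one,
        Module.End.one_apply, one_smul, Finset.sum_const, Finset.card_univ] at e1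
      rw [← Nat.cast_smul_eq_nsmul K, smul_eq_zero] at e1
      rcases e1 with e1 | e1
      · exact Fintype.card_ne_zero (Nat.cast_eq_zero.mp e1)
      · exact hv e1
    · intro a _ ha
      let f : (Fin m → ZMod p) →+ ZMod p :=
        { toFun := fun μ => -(μ ⬝ᵥ a), map_zero' := by simp,
          map_add' := fun x y => by rw [add_dotProduct, neg_add] }
      have := sum_psi ψ hψ f
      rw [if_neg] at this
      · rw [← Finset.sum_smul]
        change (∑ μ, ψ (f μ)) • _ = 0
        rw [this, zero_smul]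
      · intro hf
        apply ha
        funext i
        simpa [f] using hf (Pi.single i 1)
    · simp
  have hw1 : ∀ n, Lev 1 n → Col (c + 1) n → ρ (uni n) (w μ) = ψ (ℓ n) • w μ := by
    intro n hn hc
    simp only [w, map_sum, map_smul, hW _ n hn hc, Finset.smul_sum]
    exact Finset.sum_congr rfl fun a _ => smul_comm _ _ _
  have hw2 : ∀ b, ρ (uni (colM c b)) (w μ) = ψ (μ ⬝ᵥ b) • w μ := by
    intro b
    simp only [w, map_sum, map_smul, Finset.smul_sum, ← Module.End.mul_apply, ← map_mul, hxx]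
    refine Fintype.sum_equiv (Equiv.addLeft b) _ _ fun a => ?_
    simp only [Equiv.coe_addLeft, smul_smul, ← AddChar.map_add_eq_mul, dotProduct_add]
    congr 2
    ring
  let cc : Matrix (Fin m) (Fin m) (ZMod p) →+ (Fin m → ZMod p) :=
    { toFun := fun n i => n i c, map_zero' := rfl, map_add' := fun _ _ => rfl }
  have hcc : ∀ n i, cc n i = n i c := fun _ _ => rfl
  let ℓ1 : Matrix (Fin m) (Fin m) (ZMod p) →+ ZMod p :=
    { toFun := fun n => ℓ (n - colM c (cc n)) + μ ⬝ᵥ cc n
      map_zero' := by simp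
      map_add' := fun x y => by
        rw [map_add, map_add, dotProduct_add, add_sub_add_comm, map_add]; ring }
  have hℓ1 : ∀ n, ℓ1 n = ℓ (n - colM c (cc n)) + μ ⬝ᵥ cc n := fun _ => rfl
  have hrem : ∀ n, Lev 1 n → Col c n → Col (c + 1) (n - colM c (cc n)) := by
    intro n hn hc i j hj
    rw [Matrix.sub_apply, colM_apply]
    split_ifs with h
    · rw [h.1, hcc, sub_self]
    · rw [sub_zero]
      by_cases hjc : (j : ℕ) < c
      · exact hc i j hjc
      · have e : j = c := Fin.ext (by omega)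
        apply hn
        have : ¬ (i : ℕ) < c := fun h' => h ⟨e, h'⟩
        omega
  have hw3 : ∀ n, Lev 1 n → Col c n → ρ (uni n) (w μ) = ψ (ℓ1 n) • w μ := by
    intro n hn hc
    have l1 : Lev 1 (n - colM c (cc n)) := hn.sub (colM_lev _ _)
    have c1 := hrem n hn hc
    have e : uni n = uni (n - colM c (cc n)) * uni (colM c (cc n)) := by
      ext1
      rw [Units.val_mul, uni_val (colM_lev _ _), uni_val hn, uni_val l1]
      simp only [mul_add, add_mul, mul_one, one_mul, mul_colM c _ (hcol c1)]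
      abel
    conv_lhs => rw [e]
    rw [map_mul, Module.End.mul_apply, hw2, map_smul, hw1 _ l1 c1, smul_smul,
      ← AddChar.map_add_eq_mul, hℓ1, add_comm]
  obtain ⟨h, hR, hM⟩ := exists_h c μ
  have hrow : ∀ (n : Matrix (Fin m) (Fin m) (ZMod p)) (i j : Fin m), (c : ℕ) ≤ i →
      ((h : Matrix (Fin m) (Fin m) (ZMod p)) * n) i j = n i j := by
    intro n i j hi
    rw [Matrix.mul_apply]
    simp [hR i _ hi, one_apply]
  have hlev : ∀ n, Lev 1 n → Col c n → Lev 1 ((h : Matrix (Fin m) (Fin m) (ZMod p)) * n) := by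
    intro n hn hc i j hij
    by_cases hi : (c : ℕ) ≤ i
    · rw [hrow n i j hi, hn i j hij]
    · exact hc.mul _ i j (by omega)
  refine ⟨ρ h⁻¹ (w μ), ℓ1.comp (AddMonoidHom.mulLeft (h : Matrix (Fin m) (Fin m) (ZMod p))),
    ?_, ?_, ?_⟩
  · intro h0
    apply hμ
    have := congrArg (ρ h) h0
    rwa [← Module.End.mul_apply, ← map_mul, mul_inv_cancel, map_one, map_zero] at this
  · intro n hn hc
    have hn1 : Lev 1 n := hn.mono (by omega)
    have c1 := hrem _ (hlev n hn1 hc) (hc.mul _)
    simp only [AddMonoidHom.comp_apply, AddMonoidHom.coe_mulLeft, hℓ1]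
    rw [h2 _ _ c1, zero_add]
    · have : cc ((h : Matrix (Fin m) (Fin m) (ZMod p)) * n)
          = (h : Matrix (Fin m) (Fin m) (ZMod p)) *ᵥ cc n := rfl
      rw [this, dotProduct_mulVec]
      refine Finset.sum_eq_zero fun l _ => ?_
      by_cases hl : (l : ℕ) + 1 < c
      · rw [hM l hl, zero_mul]
      · rw [hcc, hn l c (by omega), mul_zero]
    · intro i j hij
      by_cases hi : (c : ℕ) ≤ i
      · rw [Matrix.sub_apply, hrow n i j hi, hn i j hij, colM_apply, if_neg (by omega), sub_zero]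
      · exact c1 i j (by omega)
  · intro n hn hc
    have hnh : n * (h : Matrix (Fin m) (Fin m) (ZMod p)) = n := by
      ext i j
      conv_rhs => rw [← mul_one n]
      rw [Matrix.mul_apply, Matrix.mul_apply]
      refine Finset.sum_congr rfl fun l _ => ?_
      by_cases hl : (l : ℕ) < c
      · rw [hc i l hl, zero_mul, zero_mul]
      · rw [hR l j (by omega)]
    have e : uni n * h⁻¹ = h⁻¹ * uni ((h : Matrix (Fin m) (Fin m) (ZMod p)) * n) := by
      rw [mul_inv_eq_iff_eq_mul, mul_assoc, eq_inv_mul_iff_mul_eq]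
      ext1
      rw [Units.val_mul, Units.val_mul, uni_val hn, uni_val (hlev n hn hc), mul_add, add_mul,
        mul_assoc, hnh, mul_one, one_mul]
    rw [← Module.End.mul_apply, ← map_mul, e, map_mul, Module.End.mul_apply,
      hw3 _ (hlev n hn hc) (hc.mul _), map_smul]
    rfl

theorem exists_eig [Nontrivial V] (ρ : Representation K (GL (Fin m) (ZMod p)) V)
    (ψ : AddChar (ZMod p) K) (hψ : ∀ t, ψ t = 1 → t = 0) :
    ∃ (v : V) (ℓ : Matrix (Fin m) (Fin m) (ZMod p) →+ ZMod p), v ≠ 0 ∧
      (∀ n, Lev 2 n → ℓ n = 0) ∧ ∀ n, Lev 1 n → ρ (uni n) v = ψ (ℓ n) • v := by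
  have key : ∀ d c : ℕ, c + d = m →
      ∃ (v : V) (ℓ : Matrix (Fin m) (Fin m) (ZMod p) →+ ZMod p), v ≠ 0 ∧
      (∀ n, Lev 2 n → Col c n → ℓ n = 0) ∧
      ∀ n, Lev 1 n → Col c n → ρ (uni n) v = ψ (ℓ n) • v := by
    intro d
    induction d with
    | zero =>
      intro c hc
      obtain ⟨v, hv⟩ := exists_ne (0 : V)
      refine ⟨v, 0, hv, fun _ _ _ => rfl, fun n _ hn => ?_⟩
      have : n = 0 := by
        ext i j
        exact hn i j (by have := j.2; omega)
      simp [this, uni_zero]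
    | succ d ih =>
      intro c hc
      obtain ⟨v, ℓ, hv, h2, h1⟩ := ih (c + 1) (by omega)
      exact eig_step ρ ψ hψ ⟨c, by omega⟩ v hv ℓ h2 h1
  obtain ⟨v, ℓ, hv, h2, h1⟩ := key m 0 (by omega)
  exact ⟨v, ℓ, hv, fun n hn => h2 n hn (fun _ _ h => absurd h (Nat.not_lt_zero _)),
    fun n hn => h1 n hn (fun _ _ h => absurd h (Nat.not_lt_zero _))⟩

end Pool.Agent.Lib.MP_1ae3da_al
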