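import Pool.Agent.Lib.MP_1ae3da_al.GT

/-! Counting the pairs of associate characters by functions on odd elements. -/

namespace Pool.Agent.Lib.MP_1ae3da_al.GM

open Equiv Module

namespace AbsQ

/-- representatives for a fixed point free involution. -/
lemma reps {α : Type} [DecidableEq α] (s : Finset α) (t : α → α) (h1 : ∀ x ∈ s, t x ∈ s)
    (h2 : ∀ x, t (t x) = x) (h3 : ∀ x ∈ s, t x ≠ x) :
    ∃ R : Finset α, s = R ∪ R.image t ∧ Disjoint R (R.image t) := by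
  classical
  letI : LinearOrder α := linearOrderOfSTO WellOrderingRel
  refine ⟨s.filter fun x => x < t x, ?_, ?_⟩
  · ext x
    simp only [Finset.mem_union, Finset.mem_filter, Finset.mem_image]
    constructor
    · intro hx
      rcases lt_or_gt_of_ne (h3 x hx) with h | h
      · exact Or.inr ⟨t x, ⟨h1 x hx, by rwa [h2]⟩, h2 x⟩
      · exact Or.inl ⟨hx, h⟩
    · rintro (h | ⟨y, h, rfl⟩)
      exacts [h.1, h1 y h.1]
  · rw [Finset.disjoint_left]
    intro x hx hy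
    obtain ⟨y, h, rfl⟩ := Finset.mem_image.1 hy
    have a := (Finset.mem_filter.1 hx).2
    rw [h2] at a
    exact lt_asymm a (Finset.mem_filter.1 h).2

lemma uK_eq {u v : ℤˣ} {a : K} (ha : a ≠ 0) (h : a = uK u * uK v * a) : u = v := by
  have : uK u * uK v = 1 := mul_right_cancel₀ ha (by rw [← h, one_mul])
  apply uK_inj
  rw [← mul_one (uK u), ← uK_sq v, ← mul_assoc, this, one_mul]

variable {G G0 : Type} [Group G] [Group G0] [Fintype G] (Γ : Gr G G0) {p : ℕ} {T : Subgroup G}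
  {M : ℕ} {S : Set Ga} {ω : ℤˣ} {ε : Ga → ℤˣ}

lemma irr {χ : G → K} (h : χ ∈ IrrP G p) : χ ∈ Irr G := h.imp fun _ h => h.1

lemma tw_mem (hx : IxG Γ) {χ : G → K} (h : χ ∈ Γ.IQ p S ω ε) : Γ.tw χ ∈ Γ.IQ p S ω ε := by
  obtain ⟨⟨n, h1, h1'⟩, h2, h3, h4⟩ := h
  refine ⟨⟨n, hx.tw_irr n χ h1, h1'⟩, fun x => ?_, by rw [hx.tw_tw]; exact h3.symm, fun σ hσ => ?_⟩
  · simp only [Sg.tw, map_mul, Γ.zs, one_mul, h2]; ring
  · have : σ ∘ Γ.tw χ = Γ.tw (σ ∘ χ) := by
      funext x; simp [Sg.tw, uK]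
    rw [this, h4 σ hσ]
    split_ifs <;> rfl

lemma rel_val (ha : ChA G) (H : AbsH Γ p T M S) {χ : G → K} (h : χ ∈ Γ.IQ p S ω ε) {x y : G}
    {u : ℤˣ} (r : Γ.Rel T ω 0 x y u) : χ y = uK u * χ x := by
  obtain ⟨r, hr, j, g, rfl, rfl⟩ := r
  have i := irr h.1
  rw [mul_assoc, (H.hG χ i).1 h.1 r hr, pow_zero, mul_one]
  induction j with
  | zero => simpa using ha.cl χ (ha.ch_vc _ (ha.irr_ch _ i)) x g
  | succ j ih => rw [pow_succ', mul_assoc, h.2.1, ih, pow_succ', uK_mul, mul_assoc]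

lemma del_mem (ha : ChA G) (hb : ChB G) (hx : IxG Γ) (H : AbsH Γ p T M S) {χ : G → K}
    (h : χ ∈ Γ.IQ p S ω ε) : χ - Γ.tw χ ∈ Γ.Sp T ω 0 (fun x => Γ.sg x = -1) M S ε := by
  have h' := tw_mem Γ hx h
  refine ⟨fun x y u r => ?_, fun x hn => ?_, fun σ hσ s hs x => ?_⟩
  · simp only [Pi.sub_apply, rel_val Γ ha H h r, rel_val Γ ha H h' r, mul_sub]
  · have : Γ.sg x = 1 := (Int.units_eq_one_or _).resolve_right hn
    simp [Sg.tw, this]
  · have a := hb.gal χ (ha.ch_vc _ (ha.irr_ch _ (irr h.1))) σ M s x H.pos (H.exp x) hs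
    have b := hb.gal _ (ha.ch_vc _ (ha.irr_ch _ (irr h'.1))) σ M s x H.pos (H.exp x) hs
    have c := congrFun (h.2.2.2 σ hσ) x
    have d := congrFun (h'.2.2.2 σ hσ) x
    rw [Function.comp_apply] at c d
    rw [Pi.sub_apply, ← a, ← b, c, d, hx.tw_tw]
    rcases Int.units_eq_one_or (ε σ) with e | e <;> simp [e]

omit [Fintype G] in
lemma sp_cl {f : G → K} (hf : f ∈ Γ.Sp T ω 0 (fun x => Γ.sg x = -1) M S ε) : Cl f := fun g h => by
  simpa using hf.1 g (h * g * h⁻¹) 1 ⟨1, T.one_mem, 0, h, by simp, by simp⟩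

lemma ip_tw {f : G → K} (hf : f ∈ Γ.Sp T ω 0 (fun x => Γ.sg x = -1) M S ε) (χ : G → K) :
    ip f (Γ.tw χ) = -ip f χ := by
  simp only [ip, ← mul_neg, ← Finset.sum_neg_distrib]
  congr 1
  refine Finset.sum_congr rfl fun g _ => ?_
  by_cases e : Γ.sg g = -1
  · simp [Sg.tw, e]
  · simp [hf.2.1 g e]

lemma ip_shift (f χ : G → K) (r : G) :
    ip χ f = (Nat.card G : K)⁻¹ * ∑ g, χ (r * g) * f (r * g)⁻¹ := by
  rw [ip, ← Equiv.sum_comp (Equiv.mulLeft r)]
  rfl

lemma mem_of (ha : ChA G) (hb : ChB G) (hsq : SqSt) (H : AbsH Γ p T M S) (hc : Γ.Cov p S ω)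
    {f : G → K} (hf : f ∈ Γ.Sp T ω 0 (fun x => Γ.sg x = -1) M S ε) {χ : G → K} (i : χ ∈ Irr G)
    (hn : ip f χ ≠ 0) : χ ∈ Γ.IQ p S ω ε := by
  classical
  have cl := sp_cl Γ hf
  have sw : ∀ a b, f (a * b) = f (b * a) := fun a b => by
    rw [← cl (b * a) a]; congr 1; group
  have h1 : χ ∈ IrrP G p := by
    haveI := H.nrm
    refine (H.hG χ i).2 ((hb.ker χ i T).resolve_right fun h => hn ?_)
    have e : ∀ r : T, ip f χ = (Nat.card G : K)⁻¹ * ∑ g, χ (r * g) * f g⁻¹ := by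
      intro r
      rw [ha.symm, ip_shift f χ r]
      congr 1
      refine Finset.sum_congr rfl fun g _ => ?_
      rw [mul_inv_rev, sw, hf.1 g⁻¹ _ 1 ⟨(r : G)⁻¹, T.inv_mem r.2, 0, 1, by simp, by simp⟩]
      simp
    have e2 : ∑ _r : T, ip f χ = 0 := by
      rw [Finset.sum_congr rfl fun r _ => e r, ← Finset.mul_sum, Finset.sum_comm]
      simp only [← Finset.sum_mul, h, zero_mul, Finset.sum_const_zero, mul_zero]
    simpa using e2
  have h2 : ∀ x, χ (Γ.z * x) = uK ω * χ x := by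
    obtain ⟨ω', h⟩ := hb.cen χ i Γ.z Γ.zc Γ.zz
    have zi : Γ.z⁻¹ = Γ.z := inv_eq_of_mul_eq_one_right Γ.zz
    obtain rfl : ω' = ω := by
      refine uK_eq hn ?_
      rw [ha.symm]
      conv_lhs => rw [ip_shift f χ Γ.z]
      rw [ip, mul_left_comm]
      congr 1
      rw [Finset.mul_sum]
      refine Finset.sum_congr rfl fun g _ => ?_
      rw [mul_inv_rev, sw, zi, h, hf.1 g⁻¹ _ ω ⟨1, T.one_mem, 1, 1, by simp, by simp⟩]
      ring
    exact h
  have h3 : Γ.tw χ ≠ χ := by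
    intro e
    have := ip_tw Γ hf χ
    rw [e] at this
    exact hn (by linear_combination this / 2)
  obtain ⟨ε', h4⟩ := hc.2 χ ⟨h1, h2, h3, by simp⟩
  refine ⟨h1, h2, h3, fun σ hσ => ?_⟩
  rw [h4.2.2.2 σ hσ]
  obtain ⟨s, hs⟩ := hsq.ex M σ H.pos
  have bij : Function.Bijective fun x : G => x ^ s := by
    refine Finite.surjective_iff_bijective.1 fun x => ?_
    obtain ⟨m, hm⟩ := exists_pow_eq_self_of_coprime (x := x)
      ((hsq.cop M σ s H.pos hs).coprime_dvd_right (orderOf_dvd_of_pow_eq_one (H.exp x)))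
    exact ⟨x ^ m, by show (x ^ m) ^ s = x; rw [← pow_mul, mul_comm, pow_mul, hm]⟩
  have e1 : ip f χ = uK (ε σ) * ip f (σ ∘ χ) := by
    conv_lhs => rw [ip, ← Equiv.sum_comp (Equiv.ofBijective _ bij)]
    rw [ip, mul_left_comm]
    congr 1
    rw [Finset.mul_sum]
    refine Finset.sum_congr rfl fun g _ => ?_
    rw [Equiv.ofBijective_apply, hf.2.2 σ hσ s hs, ← inv_pow, Function.comp_apply,
      hb.gal χ (ha.ch_vc _ (ha.irr_ch _ i)) σ M s _ H.pos (H.exp _) hs, mul_assoc]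
  have e2 : ip f (σ ∘ χ) = uK (ε' σ) * ip f χ := by
    rw [h4.2.2.2 σ hσ]
    rcases Int.units_eq_one_or (ε' σ) with e | e <;> simp [e, ip_tw Γ hf]
  rw [uK_eq hn (by rw [mul_assoc, ← e2, ← e1] : _ = uK (ε σ) * uK (ε' σ) * _)]

end AbsQ

open AbsQ in
theorem absQ (hch : ChSt) (hix : IxSt) (hsq : SqSt) : AbsQSt := by
  intro G G0 _ _ _ Γ p T M S H ω ε hc
  classical
  haveI := Fintype.ofFinite G
  have ha := hch.a G
  have hb := hch.b G
  have hx := hix G G0 Γ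
  have fin : (Γ.IQ p S ω ε).Finite := ha.fin.subset fun χ h => irr h.1
  obtain ⟨R, hR, hD⟩ := reps fin.toFinset Γ.tw (fun χ h => by simpa using tw_mem Γ hx (by simpa using h))
    hx.tw_tw fun χ h => (fin.mem_toFinset.1 h).2.2.1
  have inj : Function.Injective Γ.tw := Function.LeftInverse.injective hx.tw_tw
  have mR : ∀ χ ∈ R, χ ∈ Γ.IQ p S ω ε := fun χ h =>
    fin.mem_toFinset.1 (hR ▸ Finset.mem_union_left _ h)
  have li : LinearIndependent K fun χ : R => χ.1 - Γ.tw χ.1 := by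
    rw [Fintype.linearIndependent_iff]
    intro g hg ψ
    have e : ∀ χ : R, ip (g χ • (χ.1 - Γ.tw χ.1)) ψ.1 = if χ = ψ then g χ else 0 := by
      intro χ
      have a := ha.orth0 _ (irr (tw_mem Γ hx (mR _ χ.2)).1) _ (irr (mR _ ψ.2).1) fun e =>
        Finset.disjoint_left.1 hD ψ.2 (Finset.mem_image.2 ⟨_, χ.2, e⟩)
      rw [ip_smul_left, sub_eq_add_neg, ← neg_one_smul K, ip_add_left, ip_smul_left, a]
      split_ifs with h
      · rw [h, ha.orth1 _ (irr (mR _ ψ.2).1)]; simp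
      · rw [ha.orth0 _ (irr (mR _ χ.2).1) _ (irr (mR _ ψ.2).1) fun e => h (Subtype.ext e)]; simp
    have := congrArg (fun f => ip f ψ.1) hg
    simp only [ip_sum_left, e] at this
    simpa [ip] using this
  have sp : Γ.Sp T ω 0 (fun x => Γ.sg x = -1) M S ε =
      Submodule.span K (Set.range fun χ : R => χ.1 - Γ.tw χ.1) := by
    refine le_antisymm (fun f hf => ?_) (Submodule.span_le.2 ?_)
    · rw [ha.expand f (sp_cl Γ hf) ha.fin.toFinset (by simp),
        ← Finset.sum_subset (s₁ := fin.toFinset), hR, Finset.sum_union hD,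
        Finset.sum_image fun _ _ _ _ e => inj e, ← Finset.sum_add_distrib]
      · refine Submodule.sum_mem _ fun χ h => ?_
        rw [ip_tw Γ hf, neg_smul, ← sub_eq_add_neg, ← smul_sub]
        exact Submodule.smul_mem _ _ (Submodule.subset_span ⟨⟨χ, h⟩, rfl⟩)
      · intro χ h
        simpa using irr (fin.mem_toFinset.1 h).1
      · intro χ h h'
        by_cases e : ip f χ = 0
        · simp [e]
        · exact absurd (fin.mem_toFinset.2 (mem_of Γ ha hb hsq H hc hf (by simpa using h) e)) h'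
    · rintro _ ⟨χ, rfl⟩
      exact del_mem Γ ha hb hx H (mR _ χ.2)
  rw [sp, finrank_span_eq_card li, Set.ncard_eq_toFinset_card _ fin, hR,
    Finset.card_union_of_disjoint hD, Finset.card_image_of_injective _ inj, Fintype.card_coe, two_mul]

end Pool.Agent.Lib.MP_1ae3da_al.GM
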