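import Pool.Agent.Lib.MP_1ae3da_al.GT
import Pool.Agent.Lib.MP_1ae3da_al.GFkB

/-! The basic properties of the average over symmetric groups. -/

namespace Pool.Agent.Lib.MP_1ae3da_al.GM

namespace AvJ

open Finset FkB

lemma av_congr (n : ℕ) : ∀ F G : Multiset ℕ → K, (∀ ρ, ρ.sum = n → 0 ∉ ρ → F ρ = G ρ) →
    Av n F = Av n G := by
  induction n using Nat.strong_induction_on with
  | _ n ih =>
    intro F G h
    rcases n with _ | n
    · rw [Av_zero, Av_zero]
      exact h 0 rfl (by simp)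
    · rw [Av_succ, Av_succ]
      refine congrArg _ (sum_congr rfl fun r hr => ?_)
      rw [mem_range] at hr
      refine ih (n - r) (by omega) _ _ fun ρ hρ h0 => h _ ?_ ?_
      · rw [Multiset.sum_cons]; omega
      · rw [Multiset.mem_cons, not_or]
        exact ⟨by omega, h0⟩

lemma av_pos (n : ℕ) : ∀ f : Multiset ℕ → ℚ, (∀ ρ, 0 ≤ f ρ) → ∃ q : ℚ, 0 ≤ q ∧
    Av n (fun ρ => (f ρ : K)) = q ∧ ∀ ρ, ρ.sum = n → 0 ∉ ρ → 0 < f ρ → 0 < q := by
  induction n using Nat.strong_induction_on with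
  | _ n ih =>
    intro f hf
    rcases n with _ | n
    · refine ⟨f 0, hf 0, Av_zero _, fun ρ hρ h0 hp => ?_⟩
      have : ρ = 0 := by
        refine Multiset.eq_zero_of_forall_notMem fun x hx => h0 ?_
        have := Multiset.le_sum_of_mem hx
        rwa [show x = 0 by omega] at hx
      rwa [this] at hp
    · have h1 := fun r : ℕ => ih (n - r) (by omega) (fun ρ => f ((r + 1) ::ₘ ρ)) fun ρ => hf _
      choose q hq0 hq1 hq2 using h1
      refine ⟨((n + 1 : ℕ) : ℚ)⁻¹ * ∑ r ∈ range (n + 1), q r,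
        mul_nonneg (by positivity) (sum_nonneg fun r _ => hq0 r), ?_, fun ρ hρ h0 hp => ?_⟩
      · rw [Av_succ]
        simp only [hq1]
        push_cast
        rfl
      · have hne : ρ ≠ 0 := by
          rintro rfl
          simp at hρ
        obtain ⟨x, hx⟩ := Multiset.exists_mem_of_ne_zero hne
        obtain ⟨σ, rfl⟩ := Multiset.exists_cons_of_mem hx
        rw [Multiset.mem_cons, not_or] at h0
        rw [Multiset.sum_cons] at hρ
        obtain ⟨r, rfl⟩ : ∃ r, x = r + 1 := ⟨x - 1, by omega⟩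
        refine mul_pos (by positivity) (sum_pos' (fun r _ => hq0 r)
          ⟨r, mem_range.mpr (by omega), hq2 r σ (by omega) h0.2 hp⟩)

lemma av_single (ρ : Multiset ℕ) (h0 : 0 ∉ ρ) : Av ρ.sum (Pi.single ρ 1) ≠ 0 := by
  obtain ⟨q, _, h1, h2⟩ := av_pos ρ.sum (fun σ => if σ = ρ then 1 else 0)
    (fun σ => by split_ifs <;> norm_num)
  have h3 : (Pi.single ρ 1 : Multiset ℕ → K) = fun σ => ((if σ = ρ then 1 else 0 : ℚ) : K) := by
    funext σ
    rw [Pi.single_apply]
    split_ifs <;> simp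
  rw [h3, h1]
  exact Rat.cast_ne_zero.mpr (h2 ρ rfl h0 (by simp)).ne'

lemma mul_av (a : ℕ) (H : Multiset ℕ → K) :
    ∑ r ∈ range a, (Av (a - 1 - r) fun ρ => H ((r + 1) ::ₘ ρ)) = a * Av a H := by
  rcases a with _ | n
  · simp
  · have : ((n + 1 : ℕ) : K) ≠ 0 := Nat.cast_ne_zero.mpr (by omega)
    rw [Av_succ, mul_inv_cancel_left₀ this]
    rfl

lemma conv_cons (F G : Multiset ℕ → K) (r : ℕ) (ρ : Multiset ℕ) :
    conv F G (r ::ₘ ρ) = conv F (fun σ => G (r ::ₘ σ)) ρ + conv (fun σ => F (r ::ₘ σ)) G ρ := by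
  unfold conv
  rw [Multiset.antidiagonal_cons, Multiset.map_add, Multiset.sum_add, Multiset.map_map,
    Multiset.map_map]
  rfl

lemma sum_trunc (a n : ℕ) (h : a ≤ n) (f : ℕ → K) (hf : ∀ r, a ≤ r → f r = 0) :
    ∑ r ∈ range n, f r = ∑ r ∈ range a, f r := by
  refine (sum_subset (range_subset_range.mpr h) fun r _ hr => hf r ?_).symm
  rw [mem_range] at hr
  omega

lemma fub (n : ℕ) : ∀ (a b : ℕ), a + b = n → ∀ (F F' Φ : Multiset ℕ → K),
    (∀ ρ, F ρ ≠ 0 → ρ.sum = a) → (∀ ρ, F' ρ ≠ 0 → ρ.sum = b) →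
    Av n (fun ρ => conv F F' ρ * Φ ρ) =
      Av a fun ρ1 => Av b fun ρ2 => F ρ1 * F' ρ2 * Φ (ρ1 + ρ2) := by
  induction n using Nat.strong_induction_on with
  | _ n ih =>
    intro a b hab F F' Φ hF hF'
    rcases Nat.eq_zero_or_pos n with rfl | hn
    · obtain rfl : a = 0 := by omega
      obtain rfl : b = 0 := by omega
      simp [Av_zero, conv]
    · have hne : (n : K) ≠ 0 := Nat.cast_ne_zero.mpr (by omega)
      refine mul_left_cancel₀ hne ?_
      rw [← mul_av]
      simp only [conv_cons, add_mul, lin_add]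
      rw [sum_add_distrib, sum_trunc b n (by omega), sum_trunc a n (by omega)]
      · have h1 : ∑ r ∈ range b, (Av (n - 1 - r) fun ρ =>
            conv F (fun σ => F' ((r + 1) ::ₘ σ)) ρ * Φ ((r + 1) ::ₘ ρ)) =
            b * Av a fun ρ1 => Av b fun ρ2 => F ρ1 * F' ρ2 * Φ (ρ1 + ρ2) := by
          rw [← lin_mul]
          simp only [← mul_av b]
          rw [lin_sum]
          refine sum_congr rfl fun r hr => ?_
          rw [mem_range] at hr
          rw [ih (n - 1 - r) (by omega) a (b - 1 - r) (by omega) F (fun σ => F' ((r + 1) ::ₘ σ))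
            (fun ρ => Φ ((r + 1) ::ₘ ρ)) hF (fun ρ h => by
              have := hF' _ h
              rw [Multiset.sum_cons] at this
              omega)]
          simp only [Multiset.add_cons]
        have h2 : ∑ r ∈ range a, (Av (n - 1 - r) fun ρ =>
            conv (fun σ => F ((r + 1) ::ₘ σ)) F' ρ * Φ ((r + 1) ::ₘ ρ)) =
            a * Av a fun ρ1 => Av b fun ρ2 => F ρ1 * F' ρ2 * Φ (ρ1 + ρ2) := by
          rw [← mul_av a]
          refine sum_congr rfl fun r hr => ?_
          rw [mem_range] at hr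
          rw [ih (n - 1 - r) (by omega) (a - 1 - r) b (by omega) (fun σ => F ((r + 1) ::ₘ σ)) F'
            (fun ρ => Φ ((r + 1) ::ₘ ρ)) (fun ρ h => by
              have := hF _ h
              rw [Multiset.sum_cons] at this
              omega) hF']
          simp only [Multiset.cons_add]
        rw [h1, h2, ← hab]
        push_cast
        ring
      · intro r hr
        have : (fun σ => F ((r + 1) ::ₘ σ)) = fun _ => 0 := by
          funext σ
          by_contra h
          have := hF _ h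
          rw [Multiset.sum_cons] at this
          omega
        rw [this]
        simp [conv, lin_zero]
      · intro r hr
        have : (fun σ => F' ((r + 1) ::ₘ σ)) = fun _ => 0 := by
          funext σ
          by_contra h
          have := hF' _ h
          rw [Multiset.sum_cons] at this
          omega
        rw [this]
        simp [conv, lin_zero]

lemma perp_ne (k : ℕ) (F : Multiset ℕ → K) (ρ : Multiset ℕ) (h : perp k F ρ ≠ 0) :
    ∃ σ : Multiset ℕ, σ.sum = k ∧ F (σ + ρ) ≠ 0 := by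
  by_contra h'
  apply h
  have : (fun σ => qf k σ * F (σ + ρ)) = fun _ => 0 := by
    funext σ
    by_contra h0
    exact h' ⟨σ, qf_sup k σ (left_ne_zero_of_mul h0), right_ne_zero_of_mul h0⟩
  rw [perp, this, lin_zero]

lemma qf_odd (k : ℕ) (ρ : Multiset ℕ) (h : qf k ρ ≠ 0) : ∀ m ∈ ρ, Odd m := by
  intro m hm
  by_contra h'
  apply h
  rw [qf_eq]
  split_ifs
  · exact Multiset.prod_eq_zero (Multiset.mem_map.mpr ⟨m, hm, if_neg h'⟩)
  · rfl

lemma sup : ∀ (l : List ℕ) (ρ : Multiset ℕ), UQ l ρ ≠ 0 → ρ.sum = l.sum ∧ ∀ m ∈ ρ, Odd m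
  | [], ρ, h => by
    have : ρ = 0 := by
      by_contra h'
      exact h (if_neg h')
    subst this
    simp
  | j :: l, ρ, h => by
    rw [UQ] at h
    obtain ⟨k, _, hk⟩ := exists_ne_zero_of_sum_ne_zero (right_ne_zero_of_mul h)
    have h1 : ∃ w ∈ ρ.antidiagonal, qf (j + k) w.1 * perp k (UQ l) w.2 ≠ 0 := by
      by_contra h'
      apply right_ne_zero_of_mul hk
      refine Multiset.sum_eq_zero fun x hx => ?_
      obtain ⟨w, hw, rfl⟩ := Multiset.mem_map.mp hx
      by_contra h0
      exact h' ⟨w, hw, h0⟩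
    obtain ⟨w, hw, h2⟩ := h1
    rw [Multiset.mem_antidiagonal] at hw
    obtain ⟨σ, h3, h4⟩ := perp_ne k _ _ (right_ne_zero_of_mul h2)
    obtain ⟨h5, h6⟩ := sup l _ h4
    have h7 := qf_sup _ _ (left_ne_zero_of_mul h2)
    rw [Multiset.sum_add] at h5
    subst hw
    refine ⟨by rw [Multiset.sum_add, List.sum_cons]; omega, fun m hm => ?_⟩
    rcases Multiset.mem_add.mp hm with hm | hm
    · exact qf_odd _ _ (left_ne_zero_of_mul h2) m hm
    · exact h6 m (Multiset.mem_add.mpr (Or.inr hm))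

end AvJ

theorem avSt : AvSt where
  congr := AvJ.av_congr
  single := AvJ.av_single
  fub a b := AvJ.fub (a + b) a b rfl
  sup := AvJ.sup
  sup_perp k n F hF ρ h := by
    obtain ⟨σ, h1, h2⟩ := AvJ.perp_ne k F ρ h
    have := hF _ h2
    rw [Multiset.sum_add] at this
    omega
  perp_zero F := by
    funext ρ
    simp [perp, FkB.Av_zero, qf]

end Pool.Agent.Lib.MP_1ae3da_al.GM
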