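import Pool.Agent.Lib.MP_1ae3da_al.GT

/-! The presentation lemma, gamma matrices, the basic spin lift and the model cover. -/

namespace Pool.Agent.Lib.MP_1ae3da_al.GM

open Equiv

namespace Cox

section pres
variable {Ω : Type} [DecidableEq Ω] {Y : Type} [Group Y]

/-- the subgroup generated by `Z` and the `T i j`. -/
def Hc (Z : Y) (T : Ω → Ω → Y) (I : Finset Ω) : Subgroup Y :=
  Subgroup.closure ({Z} ∪ {x | ∃ i ∈ I, ∃ j ∈ I, i ≠ j ∧ x = T i j})

omit [DecidableEq Ω] in
lemma Z_mem (Z : Y) (T : Ω → Ω → Y) (I : Finset Ω) : Z ∈ Hc Z T I :=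
  Subgroup.subset_closure (Or.inl rfl)

omit [DecidableEq Ω] in
lemma T_mem (Z : Y) (T : Ω → Ω → Y) {I : Finset Ω} {i j : Ω} (hi : i ∈ I) (hj : j ∈ I)
    (hij : i ≠ j) : T i j ∈ Hc Z T I :=
  Subgroup.subset_closure (Or.inr ⟨i, hi, j, hj, hij, rfl⟩)

lemma swap_mem {I : Finset Ω} {k l i : Ω} (hk : k ∈ I) (hl : l ∈ I) (hi : i ∈ I) :
    swap k l i ∈ I := by
  rw [swap_apply_def]; split_ifs <;> assumption

theorem main (Z : Y) (T : Ω → Ω → Y) (f : Y →* Perm Ω) (hZ : Z * Z = 1) (hf : f Z = 1)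
    (I : Finset Ω) :
    (∀ i ∈ I, ∀ j ∈ I, i ≠ j → f (T i j) = swap i j ∧ Z * T i j = T i j * Z ∧
      (T i j * T i j = 1 ∨ T i j * T i j = Z) ∧ ∀ k ∈ I, ∀ l ∈ I, k ≠ l →
        T k l * T i j * (T k l)⁻¹ = Z * T (swap k l i) (swap k l j)) →
    ∀ y ∈ Hc Z T I, f y = 1 → y = 1 ∨ y = Z := by
  have hZi : Z⁻¹ = Z := inv_eq_of_mul_eq_one_right hZ
  induction I using Finset.induction_on with
  | empty =>
    intro _ y hy h0
    clear h0
    induction hy using Subgroup.closure_induction with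
    | mem x hx =>
      rcases hx with hx | ⟨i, hi, _⟩
      · exact Or.inr hx
      · simp at hi
    | one => exact Or.inl rfl
    | mul x y _ _ hx hy =>
      rcases hx with rfl | rfl <;> rcases hy with rfl | rfl <;> simp [hZ]
    | inv x _ hx => rcases hx with rfl | rfl <;> simp [hZi]
  | insert n I hn ih =>
    intro h y hy hfy
    have mi : ∀ {i}, i ∈ I → i ∈ insert n I := fun hi => Finset.mem_insert_of_mem hi
    have mn : n ∈ insert n I := Finset.mem_insert_self n I
    have ne : ∀ {i}, i ∈ I → n ≠ i := fun hi e => hn (e ▸ hi)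
    have ih' := ih fun i hi j hj hij => ⟨(h i (mi hi) j (mi hj) hij).1,
      (h i (mi hi) j (mi hj) hij).2.1, (h i (mi hi) j (mi hj) hij).2.2.1,
      fun k hk l hl hkl => (h i (mi hi) j (mi hj) hij).2.2.2 k (mi hk) l (mi hl) hkl⟩
    have fix : ∀ x ∈ Hc Z T I, f x n = n := by
      intro x hx
      induction hx using Subgroup.closure_induction with
      | mem x hx =>
        rcases hx with hx | ⟨i, hi, j, hj, hij, rfl⟩
        · rw [Set.mem_singleton_iff.1 hx, hf]; rfl
        · rw [(h i (mi hi) j (mi hj) hij).1, swap_apply_of_ne_of_ne (ne hi) (ne hj)]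
      | one => simp
      | mul x y _ _ hx hy => rw [map_mul, Perm.mul_apply, hy, hx]
      | inv x _ hx => rw [map_inv, Perm.inv_eq_iff_eq, hx]
    let P : Y → Prop := fun y => y ∈ Hc Z T I ∨ ∃ k ∈ I, ∃ x ∈ Hc Z T I, y = T n k * x
    have PZ : ∀ y, P y → P (Z * y) := by
      rintro y (hy | ⟨k, hk, x, hx, rfl⟩)
      · exact Or.inl (mul_mem (Z_mem Z T I) hy)
      · refine Or.inr ⟨k, hk, Z * x, mul_mem (Z_mem Z T I) hx, ?_⟩
        rw [← mul_assoc, (h n mn k (mi hk) (ne hk)).2.1, mul_assoc]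
    have Pn : ∀ j ∈ I, ∀ y, P y → P (T n j * y) := by
      rintro j hj y (hy | ⟨k, hk, x, hx, rfl⟩)
      · exact Or.inr ⟨j, hj, y, hy, rfl⟩
      · by_cases hjk : j = k
        · subst hjk
          rw [← mul_assoc]
          rcases (h n mn j (mi hj) (ne hj)).2.2.1 with e | e <;> rw [e]
          · exact Or.inl (by simpa using hx)
          · exact Or.inl (mul_mem (Z_mem Z T I) hx)
        · have e := (h k (mi hk) j (mi hj) (Ne.symm hjk)).2.2.2 n mn k (mi hk) (ne hk)
          rw [swap_apply_right, swap_apply_of_ne_of_ne (ne hj).symm hjk,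
            mul_inv_eq_iff_eq_mul] at e
          have e2 : T n j * (T n k * x) = Z * (T n k * (T k j * x)) := by
            rw [← mul_assoc (T n k), e]; simp only [← mul_assoc, hZ, one_mul]
          rw [e2]
          exact PZ _ (Or.inr ⟨k, hk, _, mul_mem (T_mem Z T hk hj (Ne.symm hjk)) hx, rfl⟩)
    have PT : ∀ i ∈ insert n I, ∀ j ∈ insert n I, i ≠ j → ∀ y, P y → P (T i j * y) := by
      intro i hi j hj hij y hy
      rcases Finset.mem_insert.1 hi with rfl | hi'
      · rcases Finset.mem_insert.1 hj with rfl | hj'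
        · exact absurd rfl hij
        · exact Pn j hj' y hy
      · rcases Finset.mem_insert.1 hj with rfl | hj'
        · have e := (h i hi j hj hij).2.2.2 i hi j hj hij
          rw [swap_apply_left, swap_apply_right, mul_inv_cancel_right] at e
          rw [e, mul_assoc]
          exact PZ _ (Pn i hi' y hy)
        · rcases hy with hy | ⟨k, hk, x, hx, rfl⟩
          · exact Or.inl (mul_mem (T_mem Z T hi' hj' hij) hy)
          · have e := (h n mn k (mi hk) (ne hk)).2.2.2 i hi j hj hij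
            rw [swap_apply_of_ne_of_ne (ne hi') (ne hj'), mul_inv_eq_iff_eq_mul] at e
            rw [← mul_assoc, e, mul_assoc, mul_assoc]
            exact PZ _ (Or.inr ⟨_, swap_mem hi' hj' hk, _,
              mul_mem (T_mem Z T hi' hj' hij) hx, rfl⟩)
    have all : P y := by
      clear hfy
      induction hy using Subgroup.closure_induction_left with
      | one => exact Or.inl (one_mem _)
      | mul_left x hx y _ hy =>
        rcases hx with hx | ⟨i, hi, j, hj, hij, rfl⟩
        · rw [Set.mem_singleton_iff.1 hx]; exact PZ y hy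
        · exact PT i hi j hj hij y hy
      | inv_mul_cancel x hx y _ hy =>
        rcases hx with hx | ⟨i, hi, j, hj, hij, rfl⟩
        · rw [Set.mem_singleton_iff.1 hx, hZi]; exact PZ y hy
        · rcases (h i hi j hj hij).2.2.1 with e | e
          · rw [inv_eq_of_mul_eq_one_right e]; exact PT i hi j hj hij y hy
          · have e2 : (T i j)⁻¹ = Z * T i j := by
              apply inv_eq_of_mul_eq_one_left; rw [mul_assoc, e, hZ]
            rw [e2, mul_assoc]; exact PZ _ (PT i hi j hj hij y hy)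
    rcases all with hy' | ⟨k, hk, x, hx, rfl⟩
    · exact ih' y hy' hfy
    · exfalso
      have e := congrArg (fun s : Perm Ω => s n) hfy
      simp only [map_mul, Perm.mul_apply, fix x hx, (h n mn k (mi hk) (ne hk)).1,
        swap_apply_left, Perm.one_apply] at e
      exact ne hk e.symm

end pres

section gamma

/-- existence of a family of anticommuting involutions. -/
def PG (m J : Type) [Fintype m] [DecidableEq m] : Prop :=
  ∃ g : J → Matrix m m K, (∀ i, g i * g i = 1) ∧ ∀ i j, i ≠ j → g i * g j = -(g j * g i)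

variable {m m' J J' : Type} [Fintype m] [DecidableEq m] [Fintype m'] [DecidableEq m']

lemma PG.reindex (e : m ≃ m') : PG m J → PG m' J := by
  rintro ⟨g, h1, h2⟩
  refine ⟨fun i => Matrix.reindexAlgEquiv K K e (g i), fun i => ?_, fun i j hij => ?_⟩
  · rw [← map_mul, h1, map_one]
  · rw [← map_mul, ← map_mul, h2 i j hij, map_neg]

lemma PG.emb (f : J' ↪ J) : PG m J → PG m J' := by
  rintro ⟨g, h1, h2⟩
  exact ⟨fun i => g (f i), fun i => h1 _, fun i j hij => h2 _ _ (f.injective.ne hij)⟩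

lemma PG.step : PG m J → PG (m ⊕ m) (J ⊕ Bool) := by
  rintro ⟨g, h1, h2⟩
  obtain ⟨c, hc⟩ := IsAlgClosed.exists_eq_mul_self (-1 : K)
  let u : Matrix m m K := c • 1
  have hu : u * u = -1 := by
    simp only [u, smul_mul_smul_comm, mul_one, ← hc, neg_smul, one_smul]
  have hug : ∀ x : Matrix m m K, x * u = u * x := fun x => by simp [u]
  refine ⟨Sum.elim (fun i => Matrix.fromBlocks 0 (g i) (g i) 0)
    (fun b => if b then Matrix.fromBlocks 0 (-u) u 0 else Matrix.fromBlocks 1 0 0 (-1)), ?_, ?_⟩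
  · rintro (i | b)
    · simp [Matrix.fromBlocks_multiply, h1]
    · cases b <;> simp [Matrix.fromBlocks_multiply, hu]
  · rintro (i | b) (j | b') hij
    · have : i ≠ j := fun e => hij (by rw [e])
      simp [Matrix.fromBlocks_multiply, h2 i j this, Matrix.fromBlocks_neg]
    · cases b' <;> simp [Matrix.fromBlocks_multiply, Matrix.fromBlocks_neg, hug]
    · cases b <;> simp [Matrix.fromBlocks_multiply, Matrix.fromBlocks_neg, hug]
    · cases b <;> cases b' <;> simp [Matrix.fromBlocks_multiply, Matrix.fromBlocks_neg] at hij ⊢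

lemma PG.all (r : ℕ) : PG (Fin (2 ^ r)) (Fin (2 * r + 1)) := by
  induction r with
  | zero =>
    refine ⟨fun _ => 1, fun _ => by simp, fun i j hij => absurd ?_ hij⟩
    have := i.2; have := j.2; ext; omega
  | succ r ih =>
    refine PG.emb (J := Fin (2 * r + 1) ⊕ Bool)
      (Fintype.equivOfCardEq (by simp; ring)).toEmbedding
      (PG.reindex (Fintype.equivOfCardEq (by simp; ring)) ih.step)

end gamma

section cliff
variable {Ω : Type} [DecidableEq Ω] {A : Type} [Ring A] [Algebra K A]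

/-- the Clifford relations. -/
structure Cf (I : Finset Ω) (g : Ω → A) (κ : K) (q : ℤˣ) : Prop where
  hκ : 2 * κ ^ 2 = uK q
  sq : ∀ i ∈ I, g i * g i = 1
  anti : ∀ i ∈ I, ∀ j ∈ I, i ≠ j → g i * g j = -(g j * g i)

variable {I : Finset Ω} {g : Ω → A} {κ : K} {q : ℤˣ}

omit [DecidableEq Ω] in
lemma Cf.a_sq (h : Cf I g κ q) {i j : Ω} (hi : i ∈ I) (hj : j ∈ I) (hij : i ≠ j) :
    (κ • (g i - g j)) * (κ • (g i - g j)) = uK q • (1 : A) := by
  have e : (g i - g j) * (g i - g j) = (2 : K) • (1 : A) := by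
    rw [sub_mul, mul_sub, mul_sub, h.sq i hi, h.sq j hj, h.anti i hi j hj hij, two_smul]
    abel
  rw [smul_mul_smul_comm, e, smul_smul, ← h.hκ]
  congr 1; ring

/-- the unit attached to a transposition. -/
noncomputable def Cf.U (h : Cf I g κ q) (i j : Ω) : Aˣ :=
  if hij : i ∈ I ∧ j ∈ I ∧ i ≠ j then
    ⟨κ • (g i - g j), uK q • (κ • (g i - g j)),
      by rw [mul_smul_comm, h.a_sq hij.1 hij.2.1 hij.2.2, smul_smul, uK_sq, one_smul],
      by rw [smul_mul_assoc, h.a_sq hij.1 hij.2.1 hij.2.2, smul_smul, uK_sq, one_smul]⟩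
  else 1

lemma Cf.U_val (h : Cf I g κ q) {i j : Ω} (hi : i ∈ I) (hj : j ∈ I) (hij : i ≠ j) :
    (h.U i j : A) = κ • (g i - g j) := by
  rw [Cf.U, dif_pos ⟨hi, hj, hij⟩]

lemma Cf.U_sq (h : Cf I g κ q) {i j : Ω} (hi : i ∈ I) (hj : j ∈ I) (hij : i ≠ j) :
    h.U i j * h.U i j = if q = 1 then 1 else -1 := by
  apply Units.ext
  rw [Units.val_mul, h.U_val hi hj hij, h.a_sq hi hj hij]
  rcases Int.units_eq_one_or q with rfl | rfl <;> simp

lemma Cf.U_g (h : Cf I g κ q) {k l : Ω} (hk : k ∈ I) (hl : l ∈ I) (hkl : k ≠ l) {m : Ω}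
    (hm : m ∈ I) : (h.U k l : A) * g m = -(g (swap k l m) * h.U k l) := by
  rw [h.U_val hk hl hkl, smul_mul_assoc, mul_smul_comm, ← smul_neg]
  congr 1
  rw [swap_apply_def]
  split_ifs with h1 h2
  · subst h1; rw [sub_mul, mul_sub, h.sq m hm, h.sq l hl]; abel
  · subst h2; rw [sub_mul, mul_sub, h.sq m hm, h.sq k hk]; abel
  · rw [sub_mul, mul_sub, h.anti m hm k hk h1, h.anti m hm l hl h2]; abel

lemma Cf.U_conj (h : Cf I g κ q) {i j k l : Ω} (hi : i ∈ I) (hj : j ∈ I) (hij : i ≠ j)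
    (hk : k ∈ I) (hl : l ∈ I) (hkl : k ≠ l) :
    h.U k l * h.U i j * (h.U k l)⁻¹ = -1 * h.U (swap k l i) (swap k l j) := by
  rw [mul_inv_eq_iff_eq_mul]
  apply Units.ext
  simp only [Units.val_mul, Units.val_neg, Units.val_one]
  rw [h.U_val hi hj hij, h.U_val (swap_mem hk hl hi) (swap_mem hk hl hj)
    ((swap k l).injective.ne hij), mul_smul_comm, mul_sub, h.U_g hk hl hkl hi,
    h.U_g hk hl hkl hj, neg_one_mul, neg_mul, smul_mul_assoc, sub_mul, ← smul_neg]
  congr 1; abel

end cliff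

end Cox

theorem cox : CoxSt := fun _ _ _ _ _ I Z T f hZ hf h y hy => Cox.main Z T f hZ hf I h y hy

theorem gam : GamSt := by
  intro r J _ hJ
  obtain ⟨f⟩ : Nonempty (J ↪ Fin (2 * r + 1)) :=
    Function.Embedding.nonempty_of_card_le (by simpa using hJ)
  exact Cox.PG.emb f (Cox.PG.all r)

theorem lift (hcox : CoxSt) (hcb : CbSt) : LiftSt := by
  intro Ω _ _ X _ C I A _ _ g κ hκ h1 h2
  have h : Cox.Cf I g κ C.q := ⟨hκ, h1, h2⟩
  let Z : X × Aˣ := (C.z, -1)
  let T : Ω → Ω → X × Aˣ := fun i j => (C.t i j, h.U i j)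
  let H := Cox.Hc Z T I
  have hzz : C.z * C.z = 1 := C.toSg.zz
  have key : ∀ y ∈ H, C.π y.1 = 1 → y = 1 ∨ y = Z := by
    intro y hy hy1
    refine hcox Ω (X × Aˣ) I Z T (C.π.comp (MonoidHom.fst X Aˣ)) ?_ ?_ ?_ y hy hy1
    · ext <;> simp [Z, hzz]
    · simp [Z, C.πz]
    · intro i hi j hj hij
      refine ⟨by simpa [T] using C.πt i j hij, ?_, ?_, fun k hk l hl hkl => ?_⟩
      · refine Prod.ext (C.toSg.zc _) ?_
        simp [Z, T]
      · have e1 := C.t_sq i j hij
        have e2 := h.U_sq hi hj hij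
        by_cases hq : C.q = 1
        · rw [if_pos hq] at e1 e2; exact Or.inl (Prod.ext e1 e2)
        · rw [if_neg hq] at e1 e2; exact Or.inr (Prod.ext e1 e2)
      · refine Prod.ext ?_ (h.U_conj hi hj hij hk hl hkl)
        have e := C.t_conj (C.t k l) i j hij
        rw [C.πt k l hkl, Perm.sign_swap hkl, if_neg (by decide)] at e
        exact e
  have uniq : ∀ x u u', (x, u) ∈ H → (x, u') ∈ H → u = u' := by
    intro x u u' hu hu'
    rcases key _ (H.mul_mem (H.inv_mem hu) hu') (by simp) with e | e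
    · have := congrArg Prod.snd e
      simpa [inv_mul_eq_one] using this
    · have := congrArg Prod.fst e
      exact absurd (by simpa [Z] using this.symm) C.z_ne
  have ex0 : ∀ x ∈ C.sub I, ∃ u, (x, u) ∈ H := by
    rw [(hcb Ω X C).gen I]
    intro x hx
    induction hx using Subgroup.closure_induction with
    | mem x hx =>
      rcases hx with hx | ⟨i, hi, j, hj, hij, rfl⟩
      · rw [Set.mem_singleton_iff.1 hx]; exact ⟨-1, Cox.Z_mem Z T I⟩
      · exact ⟨_, Cox.T_mem Z T hi hj hij⟩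
    | one => exact ⟨1, H.one_mem⟩
    | mul x y _ _ hx hy =>
      obtain ⟨u, hu⟩ := hx
      obtain ⟨v, hv⟩ := hy
      exact ⟨u * v, H.mul_mem hu hv⟩
    | inv x _ hx =>
      obtain ⟨u, hu⟩ := hx
      exact ⟨u⁻¹, H.inv_mem hu⟩
  have ex : ∀ x : C.sub I, ∃ u, ((x : X), u) ∈ H := fun x => ex0 x x.2
  choose φ hφ using ex
  let Φ0 : C.sub I →* Aˣ := MonoidHom.mk' φ fun x y =>
    uniq _ _ _ (hφ (x * y)) (H.mul_mem (hφ x) (hφ y))
  refine ⟨(Units.coeHom A).comp Φ0, ?_, fun x i hi j hj hij hx => ?_⟩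
  · have e : φ (C.sgI I).z = -1 := uniq _ _ _ (hφ _) (Cox.Z_mem Z T I)
    show (φ _ : A) = -1
    rw [e]; simp
  · have e : φ x = h.U i j := uniq _ _ _ (hφ x) (by rw [hx]; exact Cox.T_mem Z T hi hj hij)
    show (φ x : A) = _
    rw [e, h.U_val hi hj hij]

theorem modSt (hcox : CoxSt) (hgam : GamSt) : ModSt := by
  intro Ω _ _ q
  obtain ⟨g, h1, h2⟩ := hgam (Fintype.card Ω) Ω (by omega)
  obtain ⟨κ, hκ⟩ := IsAlgClosed.exists_eq_mul_self (uK q / 2)
  let A := Matrix (Fin (2 ^ Fintype.card Ω)) (Fin (2 ^ Fintype.card Ω)) K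
  have h : Cox.Cf (Finset.univ : Finset Ω) g κ q :=
    ⟨by rw [sq, ← hκ]; field_simp, fun i _ => h1 i, fun i _ j _ hij => h2 i j hij⟩
  let Z : Aˣ × Perm Ω := (-1, 1)
  let T : Ω → Ω → Aˣ × Perm Ω := fun i j => (h.U i j, swap i j)
  let H := Cox.Hc Z T Finset.univ
  have mu := fun i : Ω => Finset.mem_univ i
  have hZ : Z * Z = 1 := by ext <;> simp [Z]
  have key : ∀ y ∈ H, y.2 = 1 → y = 1 ∨ y = Z := by
    intro y hy hy1
    refine hcox Ω (Aˣ × Perm Ω) Finset.univ Z T (MonoidHom.snd _ _) hZ rfl ?_ y hy hy1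
    intro i hi j hj hij
    refine ⟨rfl, ?_, ?_, fun k hk l hl hkl => ?_⟩
    · refine Prod.ext ?_ ?_ <;> simp [Z, T]
    · have e2 := h.U_sq hi hj hij
      by_cases hq : q = 1
      · rw [if_pos hq] at e2; exact Or.inl (Prod.ext e2 (swap_mul_self i j))
      · rw [if_neg hq] at e2; exact Or.inr (Prod.ext e2 (swap_mul_self i j))
    · refine Prod.ext (h.U_conj hi hj hij hk hl hkl) ?_
      show swap k l * swap i j * (swap k l)⁻¹ = 1 * swap (swap k l i) (swap k l j)
      rw [one_mul, swap_apply_apply]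
  have act : ∀ y ∈ H, ∀ m, (y.1 : A) * g m = uK (Perm.sign y.2) • (g (y.2 m) * y.1) := by
    intro y hy
    induction hy using Subgroup.closure_induction with
    | mem x hx =>
      intro m
      rcases hx with hx | ⟨i, hi, j, hj, hij, rfl⟩
      · rw [Set.mem_singleton_iff.1 hx]; simp [Z]
      · show (h.U i j : A) * g m = uK (Perm.sign (swap i j)) • (g (swap i j m) * h.U i j)
        rw [h.U_g hi hj hij (mu m), Perm.sign_swap hij]; simp
    | one => intro m; simp
    | mul x y _ _ hx hy =>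
      intro m
      rw [Prod.fst_mul, Prod.snd_mul, Units.val_mul, mul_assoc, hy, mul_smul_comm, ← mul_assoc,
        hx, smul_mul_assoc, smul_smul, map_mul, uK_mul, mul_comm (uK _), mul_assoc]
      rfl
    | inv x _ hx =>
      intro m
      have e := hx (x.2⁻¹ m)
      rw [show x.2 (x.2⁻¹ m) = m by simp] at e
      have e2 : g m * (x.1 : A) = uK (Perm.sign x.2) • ((x.1 : A) * g (x.2⁻¹ m)) := by
        rw [e, smul_smul, uK_sq, one_smul]
      rw [Prod.fst_inv, Prod.snd_inv, Perm.sign_inv]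
      calc ((x.1⁻¹ : Aˣ) : A) * g m
          = (x.1⁻¹ : Aˣ) * (g m * (x.1 : A)) * (x.1⁻¹ : Aˣ) := by
            rw [mul_assoc, mul_assoc, Units.mul_inv, mul_one]
        _ = _ := by
            rw [e2, mul_smul_comm, smul_mul_assoc, ← mul_assoc, Units.inv_mul, one_mul]
  let π : H →* Perm Ω := (MonoidHom.snd _ _).comp H.subtype
  let z : H := ⟨Z, Cox.Z_mem Z T _⟩
  let t : Ω → Ω → H := fun i j =>
    if hij : i ≠ j then ⟨T i j, Cox.T_mem Z T (mu i) (mu j) hij⟩ else 1
  have ht : ∀ i j, i ≠ j → (t i j : Aˣ × Perm Ω) = T i j := fun i j hij => by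
    simp only [t, dif_pos hij]
  have surj : Function.Surjective π := by
    intro s
    induction s using Perm.swap_induction_on with
    | one => exact ⟨1, map_one _⟩
    | swap_mul s i j hij ih =>
      obtain ⟨x, rfl⟩ := ih
      refine ⟨t i j * x, ?_⟩
      rw [map_mul]
      congr 1
      show (t i j : Aˣ × Perm Ω).2 = _
      rw [ht i j hij]
  have ker : ∀ x : H, π x = 1 ↔ x = 1 ∨ x = z := by
    intro x
    constructor
    · intro hx
      rcases key x x.2 hx with e | e
      · exact Or.inl (Subtype.ext e)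
      · exact Or.inr (Subtype.ext e)
    · rintro (rfl | rfl)
      · exact map_one _
      · rfl
  have fin : Finite H := by
    choose s hs using surj
    refine Finite.of_surjective
      (fun w : Perm Ω × Bool => if w.2 then s w.1 else s w.1 * z) fun x => ?_
    rcases (ker ((s (π x))⁻¹ * x)).1 (by simp [hs]) with e | e
    · exact ⟨(π x, true), inv_mul_eq_one.1 e⟩
    · exact ⟨(π x, false), (inv_mul_eq_iff_eq_mul.1 e).symm⟩
  refine ⟨H, inferInstance, fin, ⟨π, z, q, t, surj, ker, ?_, ?_, ?_, ?_⟩, rfl⟩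
  · intro e
    have e1 : ((-1 : Aˣ) : A) = ((1 : Aˣ) : A) :=
      congrArg (fun y : H => (((y : Aˣ × Perm Ω).1 : Aˣ) : A)) e
    have e2 := congrFun (congrFun e1 ⟨0, by positivity⟩) ⟨0, by positivity⟩
    simp [A] at e2
    norm_num at e2
  · intro i j hij
    show (t i j : Aˣ × Perm Ω).2 = _
    rw [ht i j hij]
  · intro i j hij
    apply Subtype.ext
    have e2 := h.U_sq (mu i) (mu j) hij
    rw [Subgroup.coe_mul, ht i j hij]
    by_cases hq : q = 1
    · rw [if_pos hq] at e2 ⊢; exact Prod.ext e2 (swap_mul_self i j)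
    · rw [if_neg hq] at e2 ⊢; exact Prod.ext e2 (swap_mul_self i j)
  · intro x i j hij
    apply Subtype.ext
    have hne : π x i ≠ π x j := (π x).injective.ne hij
    rw [Subgroup.coe_mul, Subgroup.coe_mul, Subgroup.coe_mul, Subgroup.coe_inv, ht i j hij,
      ht _ _ hne, mul_inv_eq_iff_eq_mul]
    have e : ((x : Aˣ × Perm Ω).1 : A) * h.U i j
        = uK (Perm.sign (π x)) • ((h.U (π x i) (π x j) : A) * (x : Aˣ × Perm Ω).1) := by
      rw [h.U_val (mu i) (mu j) hij, h.U_val (mu _) (mu _) hne, mul_smul_comm, mul_sub,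
        act x x.2 i, act x x.2 j, smul_mul_assoc, sub_mul, smul_comm, ← smul_sub]
      rfl
    have e' : (x : Aˣ × Perm Ω).2 * swap i j = swap (π x i) (π x j) * (x : Aˣ × Perm Ω).2 :=
      mul_swap_eq_swap_mul _ i j
    rcases Int.units_eq_one_or (Perm.sign (π x)) with hs | hs
    · rw [if_pos hs]
      rw [hs] at e
      refine Prod.ext (Units.ext ?_) ?_
      · simpa [T] using e
      · simpa [T] using e'
    · rw [if_neg (by rw [hs]; decide)]
      rw [hs] at e
      refine Prod.ext (Units.ext ?_) ?_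
      · simpa [T, z, Z] using e
      · simpa [T, z, Z] using e'

end Pool.Agent.Lib.MP_1ae3da_al.GM
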