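import Pool.Agent.Lib.MP_1ae3da_al.Ind

/-! Galois-McKay for the double covers of symmetric and alternating groups: definitions. -/

namespace Pool.Agent.Lib.MP_1ae3da_al.GM

open Equiv

abbrev K : Type := AlgebraicClosure ℚ
abbrev Ga : Type := K ≃+* K

/-- a sign as an element of `K`. -/
noncomputable def uK (u : ℤˣ) : K := ((u : ℤ) : K)

@[simp] lemma uK_one : uK 1 = 1 := by simp [uK]
@[simp] lemma uK_neg (u : ℤˣ) : uK (-u) = -uK u := by simp [uK]
lemma uK_mul (u v : ℤˣ) : uK (u * v) = uK u * uK v := by simp [uK]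
lemma uK_sq (u : ℤˣ) : uK u * uK u = 1 := by rw [← uK_mul, Int.units_mul_self, uK_one]
lemma uK_ne (u : ℤˣ) : uK u ≠ 0 := by simp [uK]
lemma uK_inj : Function.Injective uK := fun u v h => Units.ext (by simpa [uK] using h)

/-- a square root of two. -/
noncomputable def rt2 : K := (IsAlgClosed.exists_eq_mul_self (2 : K)).choose

lemma rt2_mul : rt2 * rt2 = 2 := (IsAlgClosed.exists_eq_mul_self (2 : K)).choose_spec.symm

section chars
variable (G : Type) [Group G]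

def Irr : Set (G → K) := {χ | ∃ n, IsIrr n χ}
def IrrP (p : ℕ) : Set (G → K) := {χ | ∃ n, IsIrr n χ ∧ ¬ p ∣ n}
/-- virtual characters. -/
noncomputable def VC : AddSubgroup (G → K) := AddSubgroup.closure (Irr G)
/-- characters. -/
noncomputable def Ch : AddSubmonoid (G → K) := AddSubmonoid.closure (Irr G)

variable {G}
/-- class functions. -/
def Cl (f : G → K) : Prop := ∀ g h, f (h * g * h⁻¹) = f g

end chars

/-! ### Galois automorphisms -/

/-- `σ` is the `s`-th power map on the `M`-th roots of unity. -/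
def Ex (M : ℕ) (σ : Ga) (s : ℕ) : Prop := ∀ ξ : K, ξ ^ M = 1 → σ ξ = ξ ^ s
/-- the closure of Navarro's group. -/
def Hl (p : ℕ) : Set Ga := {σ | ∀ m : ℕ, m.Coprime p → ∃ e : ℕ, Ex m σ (p ^ e)}
/-- `σ` multiplies the square roots of `D` by `u`. -/
def Eps (D : ℤ) (σ : Ga) (u : ℤˣ) : Prop := ∀ y : K, y ^ 2 = (D : K) → σ y = uK u * y
/-- `D D'` is an even power of `p` times a nonzero square modulo `p`. -/
def Cmp (p : ℕ) (D D' : ℤ) : Prop :=
  ∃ (j : ℕ) (w : ℤ), D * D' = (p : ℤ) ^ (2 * j) * w ∧ jacobiSym w p = 1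
/-- `p* = (-1)^((p-1)/2) p`. -/
def pst (p : ℕ) : ℤ := (-1) ^ ((p - 1) / 2) * p
open Classical in
/-- the quadratic character as a sign. -/
noncomputable def chi {p : ℕ} (c : ZMod p) : ℤˣ := if IsSquare c then 1 else -1
open Classical in
/-- the sign of multiplication by `s` on the residues modulo `r`. -/
noncomputable def zm (r s : ℕ) : ℤˣ :=
  if h : ∃ e : Perm (Fin r), ∀ j, (e j : ℕ) = s * j % r then Perm.sign h.choose else 1

/-! ### graded groups -/

/-- a group with a sign character and a central element of order at most two. -/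
@[ext] structure Sg (G : Type) [Group G] where
  sg : G →* ℤˣ
  z : G
  zc : ∀ g, z * g = g * z
  zz : z * z = 1
  zs : sg z = 1

namespace Sg
variable {G : Type} [Group G] (Γ : Sg G)

/-- `z` if both signs are `-1`, and `1` otherwise. -/
def zp (u v : ℤˣ) : G := if u = -1 ∧ v = -1 then Γ.z else 1

lemma zp_comm (u v : ℤˣ) (g : G) : Γ.zp u v * g = g * Γ.zp u v := by
  unfold zp; split_ifs <;> simp [Γ.zc]

lemma zp_symm (u v : ℤˣ) : Γ.zp u v = Γ.zp v u := by simp [zp, and_comm]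

lemma zp_mul (u v w : ℤˣ) : Γ.zp u (v * w) = Γ.zp u v * Γ.zp u w := by
  rcases Int.units_eq_one_or u with rfl | rfl <;> rcases Int.units_eq_one_or v with rfl | rfl <;>
    rcases Int.units_eq_one_or w with rfl | rfl <;> simp [zp, Γ.zz]

lemma zp_mul' (u v w : ℤˣ) : Γ.zp (u * v) w = Γ.zp u w * Γ.zp v w := by
  rw [zp_symm, zp_mul, zp_symm, Γ.zp_symm w v]

@[simp] lemma zp_one (u : ℤˣ) : Γ.zp u 1 = 1 := by simp [zp]
@[simp] lemma one_zp (u : ℤˣ) : Γ.zp 1 u = 1 := by simp [zp]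
@[simp] lemma zp_neg : Γ.zp (-1) (-1) = Γ.z := by simp [zp]
@[simp] lemma sg_zp (u v : ℤˣ) : Γ.sg (Γ.zp u v) = 1 := by
  unfold zp; split_ifs <;> simp [Γ.zs]
lemma zp_sq (u v : ℤˣ) : Γ.zp u v * Γ.zp u v = 1 := by
  rw [← zp_mul, Int.units_mul_self, zp_one]

/-- the automorphisms `x ↦ z x` on odd elements. -/
def φ : ℤˣ →* MulAut G where
  toFun u :=
    { toFun := fun x => Γ.zp u (Γ.sg x) * x
      invFun := fun x => Γ.zp u (Γ.sg x) * x
      left_inv := fun x => by simp [← mul_assoc, zp_sq]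
      right_inv := fun x => by simp [← mul_assoc, zp_sq]
      map_mul' := fun x y => by
        rw [map_mul, zp_mul, mul_assoc, mul_assoc, ← mul_assoc x, ← Γ.zp_comm u (Γ.sg y) x,
          mul_assoc] }
  map_one' := by ext x; simp
  map_mul' u v := by ext x; simp [zp_mul', mul_assoc]

@[simp] lemma φ_apply (u : ℤˣ) (x : G) : Γ.φ u x = Γ.zp u (Γ.sg x) * x := rfl

/-- the group with the grading operator adjoined. -/
abbrev TP : Type := G ⋊[Γ.φ] ℤˣ

noncomputable instance [Fintype G] : Fintype Γ.TP :=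
  Fintype.ofEquiv _ SemidirectProduct.equivProd.symm

/-- the twist by the sign character. -/
noncomputable def tw (χ : G → K) : G → K := fun x => uK (Γ.sg x) * χ x

/-- `U` is the even part of a virtual supermodule whose graded trace is supported in `S`. -/
def L0 (U : G → K) (S : G → Prop) : Prop :=
  ∃ Ψ ∈ VC Γ.TP, (∀ x u, Ψ ⟨Γ.z * x, u⟩ = -Ψ ⟨x, u⟩) ∧
    ∀ x, U x = Ψ ⟨x, 1⟩ ∧ (Ψ ⟨x, -1⟩ ≠ 0 → S x)

/-- `U / √2` is the even part of a virtual spin character whose odd part is supported in `S`. -/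
def L1 (U : G → K) (S : G → Prop) : Prop :=
  ∃ χ ∈ VC G, (∀ x, χ (Γ.z * x) = -χ x) ∧
    ∀ x, (Γ.sg x = 1 → U x = rt2 * χ x) ∧ (Γ.sg x = -1 → U x = 0 ∧ (χ x ≠ 0 → S x))

def LS (e : ℤˣ) (U : G → K) (S : G → Prop) : Prop :=
  (e = 1 → Γ.L0 U S) ∧ (e = -1 → Γ.L1 U S)

/-- `p'`-degree characters of `G` that are not self associate, with central sign `ω`, on whose
pair `S` acts through `ε`. -/
def IQ (p : ℕ) (S : Set Ga) (ω : ℤˣ) (ε : Ga → ℤˣ) : Set (G → K) :=
  {χ | χ ∈ IrrP G p ∧ (∀ x, χ (Γ.z * x) = uK ω * χ x) ∧ Γ.tw χ ≠ χ ∧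
    ∀ σ ∈ S, σ ∘ χ = if ε σ = 1 then χ else Γ.tw χ}

/-- `p'`-degree characters of `G` with central sign `ω`. -/
def IA (p : ℕ) (ω : ℤˣ) : Set (G → K) :=
  {χ | χ ∈ IrrP G p ∧ ∀ x, χ (Γ.z * x) = uK ω * χ x}

/-- `y = r z^j h x h⁻¹` with `r ∈ T`, and the attached sign. -/
def Rel (T : Subgroup G) (ω : ℤˣ) (a : ℕ) (x y : G) (u : ℤˣ) : Prop :=
  ∃ r ∈ T, ∃ (j : ℕ) (h : G), y = r * Γ.z ^ j * (h * x * h⁻¹) ∧ u = ω ^ j * Γ.sg h ^ a

/-- functions that are equivariant for `Rel`, supported on `P`, and on which the power maps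
attached to `S` act through `ε`. -/
def Sp (T : Subgroup G) (ω : ℤˣ) (a : ℕ) (P : G → Prop) (M : ℕ) (S : Set Ga) (ε : Ga → ℤˣ) :
    Submodule K (G → K) where
  carrier := {f | (∀ x y u, Γ.Rel T ω a x y u → f y = uK u * f x) ∧ (∀ x, ¬ P x → f x = 0) ∧
    ∀ σ ∈ S, ∀ s, Ex M σ s → ∀ x, f (x ^ s) = uK (ε σ) * f x}
  zero_mem' := ⟨by simp, by simp, by simp⟩
  add_mem' := by
    rintro f g ⟨h1, h2, h3⟩ ⟨k1, k2, k3⟩
    refine ⟨fun x y u h => ?_, fun x h => ?_, fun σ hσ s hs x => ?_⟩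
    · simp only [Pi.add_apply, h1 x y u h, k1 x y u h, mul_add]
    · simp [h2 x h, k2 x h]
    · simp only [Pi.add_apply, h3 σ hσ s hs x, k3 σ hσ s hs x, mul_add]
  smul_mem' := by
    rintro c f ⟨h1, h2, h3⟩
    refine ⟨fun x y u h => ?_, fun x h => ?_, fun σ hσ s hs x => ?_⟩
    · simp only [Pi.smul_apply, smul_eq_mul, h1 x y u h]; ring
    · simp [h2 x h]
    · simp only [Pi.smul_apply, smul_eq_mul, h3 σ hσ s hs x]; ring

end Sg

/-- two graded groups mapping to a third one with supercommuting images. -/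
structure Tri {A B G : Type} [Group A] [Group B] [Group G] (SA : Sg A) (SB : Sg B) (SG : Sg G) where
  α : A →* G
  β : B →* G
  αz : α SA.z = SG.z
  βz : β SB.z = SG.z
  αs : ∀ x, SG.sg (α x) = SA.sg x
  βs : ∀ y, SG.sg (β y) = SB.sg y
  comm : ∀ x y, α x * β y = SG.zp (SA.sg x) (SB.sg y) * (β y * α x)

namespace Tri
variable {A B G : Type} [Group A] [Group B] [Group G] {SA : Sg A} {SB : Sg B} {SG : Sg G}
  (T : Tri SA SB SG)

/-- the induction product. -/
noncomputable def pr [Fintype A] [Fintype B] [Fintype G] [DecidableEq G] (U : A → K) (V : B → K)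
    (g : G) : K :=
  ((Fintype.card A : K) * Fintype.card B)⁻¹ * ∑ x, ∑ y, U x * V y * nc g (T.α x * T.β y)

/-- the adjoint of the induction product. -/
noncomputable def prp [Fintype A] (U : A → K) (F : G → K) (y : B) : K :=
  (Fintype.card A : K)⁻¹ * ∑ x, U x⁻¹ * F (T.α x * T.β y)

end Tri

/-- a graded group `G` with its even part `G0`. -/
structure Gr (G G0 : Type) [Group G] [Group G0] extends Sg G where
  ι : G0 →* G
  inj : Function.Injective ι
  rng : ∀ g, sg g = 1 ↔ ∃ x, ι x = g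
  odd : ∃ t, sg t = -1

namespace Gr
variable {G G0 : Type} [Group G] [Group G0] (Γ : Gr G G0)

lemma ex_cj (t : G) (x : G0) : ∃ y, Γ.ι y = t * Γ.ι x * t⁻¹ := by
  rw [← Γ.rng, map_mul, map_mul, map_inv, (Γ.rng _).2 ⟨x, rfl⟩]; simp

/-- conjugation by `t` on `G0`. -/
noncomputable def cj (t : G) (x : G0) : G0 := (Γ.ex_cj t x).choose

lemma ι_cj (t : G) (x : G0) : Γ.ι (Γ.cj t x) = t * Γ.ι x * t⁻¹ := (Γ.ex_cj t x).choose_spec

lemma sg_ι (x : G0) : Γ.sg (Γ.ι x) = 1 := (Γ.rng _).2 ⟨x, rfl⟩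

/-- conjugation as a homomorphism to the automorphism group. -/
noncomputable def cjA : G →* MulAut G0 where
  toFun t :=
    { toFun := Γ.cj t
      invFun := Γ.cj t⁻¹
      left_inv := fun x => Γ.inj (by simp [ι_cj, mul_assoc])
      right_inv := fun x => Γ.inj (by simp [ι_cj, mul_assoc])
      map_mul' := fun x y => Γ.inj (by simp [ι_cj, mul_assoc]) }
  map_one' := by ext x; exact Γ.inj (by simp [ι_cj])
  map_mul' a b := by ext x; exact Γ.inj (by simp [ι_cj, mul_assoc])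

lemma cjA_apply (t : G) (x : G0) : Γ.cjA t x = Γ.cj t x := rfl

/-- `p'`-degree characters of `G0` that are not `G`-invariant, with central sign `ω`, on whose
pair `S` acts through `ε`. -/
def IM (p : ℕ) (S : Set Ga) (ω : ℤˣ) (ε : Ga → ℤˣ) : Set (G0 → K) :=
  {θ | θ ∈ IrrP G0 p ∧ (∀ x y, Γ.ι y = Γ.z * Γ.ι x → θ y = uK ω * θ x) ∧
    (∀ t, Γ.sg t = -1 → θ ∘ Γ.cj t ≠ θ) ∧
    ∀ σ ∈ S, ∀ t, Γ.sg t = ε σ → σ ∘ θ = θ ∘ Γ.cj t}

/-- every pair with central sign `ω` is stable under `S`. -/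
def Cov (p : ℕ) (S : Set Ga) (ω : ℤˣ) : Prop :=
  (∀ θ ∈ Γ.IM p ∅ ω 1, ∃ ε, θ ∈ Γ.IM p S ω ε) ∧ ∀ χ ∈ Γ.IQ p ∅ ω 1, ∃ ε, χ ∈ Γ.IQ p S ω ε

end Gr

/-! ### permutations and spin covers -/

section perm
variable {Ω : Type} [Fintype Ω] [DecidableEq Ω]

/-- the multiset of orbit lengths (fixed points included). -/
def ty (g : Perm Ω) : Multiset ℕ := g.partition.parts
/-- the number of orbits of a permutation group. -/
noncomputable def oc (Δ : Subgroup (Perm Ω)) : ℕ := Nat.card (MulAction.orbitRel.Quotient Δ Ω)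
/-- the sign of `h` on the set of orbits of `l` (when `h` normalises the group generated by
`l`). -/
noncomputable def so (l h : Perm Ω) : ℤˣ :=
  (-1) ^ (oc (Subgroup.zpowers l) + oc (Subgroup.closure {l, h}))
/-- the multiset of the lengths of the orbits inside `I`, for `g` supported in `I`. -/
def tyI (I : Finset Ω) (g : Perm Ω) : Multiset ℕ :=
  ty g - Multiset.replicate (Fintype.card Ω - I.card) 1

end perm

/-- the discriminant attached to `n` and a multiset of parts. -/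
def Dm (q : ℤˣ) (n : ℕ) (ρ : Multiset ℕ) : ℤ :=
  (-1) ^ (n - ρ.card).choose 2 * (2 * (q : ℤ)) ^ (n - ρ.card) * (ρ.prod : ℕ)

/-- a Schur double cover of the symmetric group of `Ω`. -/
structure Cover (Ω : Type) [Fintype Ω] [DecidableEq Ω] (X : Type) [Group X] where
  π : X →* Perm Ω
  z : X
  q : ℤˣ
  t : Ω → Ω → X
  surj : Function.Surjective π
  ker : ∀ x, π x = 1 ↔ x = 1 ∨ x = z
  z_ne : z ≠ 1
  πt : ∀ i j, i ≠ j → π (t i j) = swap i j
  t_sq : ∀ i j, i ≠ j → t i j * t i j = if q = 1 then 1 else z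
  t_conj : ∀ x i j, i ≠ j →
    x * t i j * x⁻¹ = (if Perm.sign (π x) = 1 then 1 else z) * t (π x i) (π x j)

namespace Cover
variable {Ω : Type} [Fintype Ω] [DecidableEq Ω] {X : Type} [Group X] (C : Cover Ω X)

lemma πz : C.π C.z = 1 := (C.ker _).2 (Or.inr rfl)

/-- the sign character and the central element. -/
def toSg : Sg X where
  sg := Perm.sign.comp C.π
  z := C.z
  zc g := by
    rcases (C.ker (g * C.z * g⁻¹)).1 (by simp [C.πz]) with h | h
    · exact absurd (by simpa using h) C.z_ne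
    · rw [mul_inv_eq_iff_eq_mul] at h; exact h.symm
  zz := by
    rcases (C.ker (C.z * C.z)).1 (by simp [C.πz]) with h | h
    · exact h
    · exact absurd (by simpa using h) C.z_ne
  zs := by simp [C.πz]

@[simp] lemma toSg_sg (x : X) : C.toSg.sg x = Perm.sign (C.π x) := rfl
@[simp] lemma toSg_z : C.toSg.z = C.z := rfl

/-- the elements supported in `I`. -/
def sub (I : Finset Ω) : Subgroup X where
  carrier := {x | ∀ i ∉ I, C.π x i = i}
  one_mem' := by simp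
  mul_mem' := by
    intro a b ha hb i hi
    rw [map_mul, Perm.mul_apply, hb i hi, ha i hi]
  inv_mem' := by
    intro a ha i hi
    rw [map_inv, Perm.inv_eq_iff_eq, ha i hi]

lemma z_mem (I : Finset Ω) : C.z ∈ C.sub I := fun i _ => by
  rw [C.πz]; rfl

/-- the graded structure of `C.sub I`. -/
def sgI (I : Finset Ω) : Sg (C.sub I) where
  sg := C.toSg.sg.comp (C.sub I).subtype
  z := ⟨C.z, C.z_mem I⟩
  zc g := Subtype.ext (C.toSg.zc g)
  zz := Subtype.ext C.toSg.zz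
  zs := C.toSg.zs

@[simp] lemma sgI_sg (I : Finset Ω) (x : C.sub I) : (C.sgI I).sg x = Perm.sign (C.π x) := rfl
@[simp] lemma sgI_z (I : Finset Ω) : ((C.sgI I).z : X) = C.z := rfl

end Cover

/-! ### functions on cycle types -/

/-- the average over the symmetric group of degree `n`, as a functional on functions of the
cycle type. -/
noncomputable def Av : ℕ → ((Multiset ℕ → K) →ₗ[K] K)
  | 0 => LinearMap.proj 0
  | n + 1 => ((n + 1 : ℕ) : K)⁻¹ • ∑ r : Fin (n + 1),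
      (Av (n - r)).comp (LinearMap.funLeft K K fun ρ => ((r : ℕ) + 1) ::ₘ ρ)
  decreasing_by omega

/-- the induction product. -/
noncomputable def conv (F G : Multiset ℕ → K) (ρ : Multiset ℕ) : K :=
  (ρ.antidiagonal.map fun w => F w.1 * G w.2).sum
/-- Schur's function `q_k`. -/
noncomputable def qf (k : ℕ) (ρ : Multiset ℕ) : K :=
  if ρ.sum = k then (ρ.map fun m => if Odd m then rt2 else 0).prod else 0
/-- the adjoint of multiplication by `q_k`. -/
noncomputable def perp (k : ℕ) (F : Multiset ℕ → K) (ρ : Multiset ℕ) : K :=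
  Av k fun ρ1 => qf k ρ1 * F (ρ1 + ρ)
/-- the normalised `Q`-functions. -/
noncomputable def UQ : List ℕ → Multiset ℕ → K
  | [] => fun ρ => if ρ = 0 then 1 else 0
  | j :: l => fun ρ => rt2⁻¹ * ∑ k ∈ Finset.range (l.sum + 1),
      (-1) ^ k * conv (qf (j + k)) (perp k (UQ l)) ρ

/-- the normalised basic spin character and its properties. -/
structure Tau {Ω : Type} [Fintype Ω] [DecidableEq Ω] {X : Type} [Group X] (C : Cover Ω X)
    (τ : X → K) : Prop where
  sq1 : ∀ x, (∀ m ∈ ty (C.π x), Odd m) → τ x * τ x = 1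
  sq0 : ∀ x, ¬ (∀ m ∈ ty (C.π x), Odd m) → τ x = 0
  one : τ 1 = 1
  zneg : ∀ x, τ (C.z * x) = -τ x
  cl : Cl τ
  inv : ∀ x, τ x⁻¹ = τ x
  mul : ∀ I J : Finset Ω, Disjoint I J → ∀ x ∈ C.sub I, ∀ y ∈ C.sub J, τ (x * y) = τ x * τ y
  pow : ∀ (M : ℕ) (σ : Ga) (s : ℕ) (x : X), 0 < M → x ^ M = 1 → Ex M σ s → τ (x ^ s) = τ x
  bs0 : (C.sgI ∅).LS 1 (fun x => τ x) fun _ => True
  bs : ∀ I : Finset Ω, I.Nonempty → (C.sgI I).LS ((-1) ^ (I.card + 1))
    (fun x => τ x * (rt2⁻¹ * qf I.card (tyI I (C.π x)))) fun x => tyI I (C.π x) = {I.card}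

/-- the Frobenius coefficient: the coefficient of `x ^ β` in `a_δ p_ρ`. -/
noncomputable def cf {N : ℕ} (β : Fin N → ℕ) (ρ : Multiset ℕ) : ℤ :=
  MvPolynomial.coeff (Finsupp.equivFunOnFinite.symm β)
    ((∑ w : Perm (Fin N), (Perm.sign w : ℤ) • ∏ i, MvPolynomial.X i ^ (w i : ℕ)) *
      (ρ.map (MvPolynomial.psum (Fin N) ℤ)).prod)

open Classical in
/-- the same for a set of beads, listed increasingly. -/
noncomputable def cfS (A : Finset ℕ) (ρ : Multiset ℕ) : ℤ := cf (A.orderEmbOfFin rfl) ρ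

/-! ### partitions -/

def Vd (A : Finset ℕ) : ℕ := ∏ a ∈ A, ∏ b ∈ A with a < b, (b - a)
def Hs (A : Finset ℕ) : ℕ := (∏ a ∈ A, a.factorial) * ∏ a ∈ A, ∏ b ∈ A with a < b, (a + b)
def Hn (w : Finset ℕ × Finset ℕ) : ℕ :=
  (∏ a ∈ w.1, a.factorial) * (∏ b ∈ w.2, b.factorial) * ∏ a ∈ w.1, ∏ b ∈ w.2, (a + b + 1)
/-- partitions of `n` in Frobenius coordinates. -/
def PT (n : ℕ) : Set (Finset ℕ × Finset ℕ) :=
  {w | w.1.card = w.2.card ∧ w.1.sum id + w.2.sum id + w.1.card = n}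
/-- those of `p'`-degree. -/
def PTp (p n : ℕ) : Set (Finset ℕ × Finset ℕ) :=
  {w | w ∈ PT n ∧ padicValNat p (Hn w) = padicValNat p (n.factorial * (Vd w.1 * Vd w.2))}
/-- strict partitions of `n` of `p'`-degree. -/
def STp (p n : ℕ) : Set (Finset ℕ) :=
  {A | 0 ∉ A ∧ A.sum id = n ∧ padicValNat p (Hs A) = padicValNat p (n.factorial * Vd A)}
/-- self conjugate partitions of `n` of `p'`-degree. -/
def CTp (p n : ℕ) : Set (Finset ℕ) := {A | (A, A) ∈ PTp p n}
/-- the diagonal hook lengths. -/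
def hk (A : Finset ℕ) : Multiset ℕ := A.val.map fun a => 2 * a + 1

/-- the size of the partition given by a set of particles and a set of holes. -/
def szN (w : Finset ℕ × Finset ℕ) : ℕ :=
  (w.1.sum id - w.1.card.choose 2) + (w.2.sum id - w.2.card.choose 2) + w.1.card * w.2.card
/-- the valuation of the product of the hook lengths. -/
def WP (p : ℕ) (w : Finset ℕ × Finset ℕ) : ℤ :=
  (padicValNat p (Hn w) : ℤ) - padicValNat p (Vd w.1 * Vd w.2)
/-- the valuation of the product of the bar lengths. -/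
def WS (p : ℕ) (A : Finset ℕ) : ℤ := (padicValNat p (Hs A) : ℤ) - padicValNat p (Vd A)
/-- all partitions. -/
abbrev PT0 : Type := {w : Finset ℕ × Finset ℕ // w.1.card = w.2.card}
/-- the empty partition. -/
def PT0.o : PT0 := ⟨(∅, ∅), rfl⟩
/-- all strict partitions. -/
abbrev ST0 : Type := {A : Finset ℕ // 0 ∉ A}
/-- moving the origin by one step. -/
def sh1 (w : Finset ℕ × Finset ℕ) : Finset ℕ × Finset ℕ :=
  (w.1.image (· + 1) ∪ (if 0 ∈ w.2 then ∅ else {0}), (w.2.erase 0).image (· - 1))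
/-- the set of beads after moving the origin by `N` steps. -/
def bs (N : ℕ) (w : Finset ℕ × Finset ℕ) : Finset ℕ :=
  w.1.image (· + N) ∪ (Finset.range N \ w.2.image fun b => N - 1 - b)
/-- same parity of the length and compatible signed products. -/
def Sim (p : ℕ) (ρ ρ' : Multiset ℕ) : Prop :=
  0 ∉ ρ → 0 ∉ ρ' ∧ Even (ρ.card + ρ'.card) ∧
    Cmp p ((-1) ^ (ρ.card / 2) * (ρ.prod : ℕ)) ((-1) ^ (ρ'.card / 2) * (ρ'.prod : ℕ))

/-! ### the local model -/

section model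
variable (p k0 : ℕ) [Fact p.Prime] {B : Type} (lv : B → Fin k0)

/-- the points: a block and coordinates that vanish from the level of the block on. -/
abbrev Om : Type := {w : B × (Fin k0 → ZMod p) // ∀ j, lv w.1 ≤ j → w.2 j = 0}

/-- the complement: level preserving permutations of the blocks and scalings. -/
@[ext] structure Lg where
  π : Perm B
  c : B → Fin k0 → (ZMod p)ˣ
  hπ : ∀ b, lv (π b) = lv b
  hc : ∀ b j, lv b ≤ j → c b j = 1

variable {p k0 lv}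

lemma Lg.hπ' (l : Lg p k0 lv) (b : B) : lv (l.π⁻¹ b) = lv b := by
  rw [← l.hπ (l.π⁻¹ b)]; simp

instance : Group (Lg p k0 lv) where
  mul l m := ⟨l.π * m.π, fun b j => l.c (m.π b) j * m.c b j,
    fun b => by rw [Perm.mul_apply, l.hπ, m.hπ],
    fun b j h => by rw [l.hc _ _ (by rwa [m.hπ]), m.hc _ _ h, mul_one]⟩
  one := ⟨1, fun _ _ => 1, fun _ => rfl, fun _ _ _ => rfl⟩
  inv l := ⟨l.π⁻¹, fun b j => (l.c (l.π⁻¹ b) j)⁻¹, l.hπ',
    fun b j h => by rw [l.hc _ _ (by rwa [l.hπ']), inv_one]⟩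
  mul_assoc a b c := Lg.ext (mul_assoc _ _ _) (funext fun _ => funext fun _ => mul_assoc _ _ _)
  one_mul a := Lg.ext (one_mul _) (funext fun _ => funext fun _ => one_mul _)
  mul_one a := Lg.ext (mul_one _) (funext fun _ => funext fun _ => mul_one _)
  inv_mul_cancel a := Lg.ext (inv_mul_cancel _) (funext fun b => funext fun j => by
    change (a.c (a.π⁻¹ (a.π b)) j)⁻¹ * a.c b j = 1
    simp)

@[simp] lemma Lg.mul_π (l m : Lg p k0 lv) : (l * m).π = l.π * m.π := rfl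
@[simp] lemma Lg.mul_c (l m : Lg p k0 lv) (b : B) (j : Fin k0) :
    (l * m).c b j = l.c (m.π b) j * m.c b j := rfl
@[simp] lemma Lg.one_π : (1 : Lg p k0 lv).π = 1 := rfl
@[simp] lemma Lg.one_c (b : B) (j : Fin k0) : (1 : Lg p k0 lv).c b j = 1 := rfl
@[simp] lemma Lg.inv_π (l : Lg p k0 lv) : l⁻¹.π = l.π⁻¹ := rfl
@[simp] lemma Lg.inv_c (l : Lg p k0 lv) (b : B) (j : Fin k0) :
    l⁻¹.c b j = (l.c (l.π⁻¹ b) j)⁻¹ := rfl

/-- the action on points. -/
def Lg.ap (l : Lg p k0 lv) (w : Om p k0 lv) : Om p k0 lv :=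
  ⟨(l.π w.1.1, fun j => (l.c w.1.1 j : ZMod p) * w.1.2 j), fun j h => by
    have := w.2 j (by rwa [← l.hπ])
    simp [this]⟩

lemma Lg.ap_mul (l m : Lg p k0 lv) (w : Om p k0 lv) : (l * m).ap w = l.ap (m.ap w) := by
  apply Subtype.ext
  simp [Lg.ap, mul_assoc]

lemma Lg.ap_one (w : Om p k0 lv) : (1 : Lg p k0 lv).ap w = w := by
  apply Subtype.ext
  simp [Lg.ap]

/-- the permutation representation. -/
def Lg.tp : Lg p k0 lv →* Perm (Om p k0 lv) where
  toFun l := ⟨l.ap, l⁻¹.ap, fun w => by rw [← Lg.ap_mul, inv_mul_cancel, Lg.ap_one],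
    fun w => by rw [← Lg.ap_mul, mul_inv_cancel, Lg.ap_one]⟩
  map_one' := Equiv.ext Lg.ap_one
  map_mul' l m := Equiv.ext (Lg.ap_mul l m)

/-- the action on the abelianised Sylow subgroup. -/
def Lg.act (l : Lg p k0 lv) (v : B → Fin k0 → ZMod p) : B → Fin k0 → ZMod p :=
  fun b j => (l.c (l.π⁻¹ b) j : ZMod p) * v (l.π⁻¹ b) j

/-- the action on blocks. -/
def Lg.pi : Lg p k0 lv →* Perm B := ⟨⟨Lg.π, rfl⟩, fun _ _ => rfl⟩

@[simp] lemma Lg.pi_apply (l : Lg p k0 lv) : Lg.pi l = l.π := rfl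
@[simp] lemma Lg.tp_apply (l : Lg p k0 lv) (w : Om p k0 lv) : Lg.tp l w = l.ap w := rfl

lemma Lg.act_mul (l m : Lg p k0 lv) (v : B → Fin k0 → ZMod p) :
    (l * m).act v = l.act (m.act v) := by
  funext b j; simp [Lg.act, mul_assoc]
@[simp] lemma Lg.act_one (v : B → Fin k0 → ZMod p) : (1 : Lg p k0 lv).act v = v := by
  funext b j; simp [Lg.act]
lemma Lg.act_add (l : Lg p k0 lv) (v w : B → Fin k0 → ZMod p) :
    l.act (v + w) = l.act v + l.act w := by
  funext b j; simp [Lg.act, mul_add]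
lemma Lg.act_sub (l : Lg p k0 lv) (v w : B → Fin k0 → ZMod p) :
    l.act (v - w) = l.act v - l.act w := by
  funext b j; simp [Lg.act, mul_sub]
lemma Lg.act_smul (l : Lg p k0 lv) (c : ZMod p) (v : B → Fin k0 → ZMod p) :
    l.act (c • v) = c • l.act v := by
  funext b j; simp [Lg.act, mul_left_comm]
@[simp] lemma Lg.act_zero (l : Lg p k0 lv) : l.act 0 = 0 := by
  funext b j; simp [Lg.act]

variable (lv) in
/-- vectors of the abelianised Sylow subgroup. -/
def Vz (v : B → Fin k0 → ZMod p) : Prop := ∀ b j, lv b ≤ j → v b j = 0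

/-- `h` conjugates `(l, v)` to `(l', v')` modulo the image of `1 - l'`. -/
def Rl (h l : Lg p k0 lv) (v : B → Fin k0 → ZMod p) (l' : Lg p k0 lv)
    (v' : B → Fin k0 → ZMod p) : Prop :=
  h * l * h⁻¹ = l' ∧ ∃ w, Vz lv w ∧ v' = h.act v + w - l'.act w

lemma Vz.act {v : B → Fin k0 → ZMod p} (hv : Vz lv v) (l : Lg p k0 lv) : Vz lv (l.act v) := by
  intro b j h
  rw [Lg.act, hv (l.π⁻¹ b) j (by rwa [l.hπ']), mul_zero]
lemma Vz.add {v w : B → Fin k0 → ZMod p} (hv : Vz lv v) (hw : Vz lv w) : Vz lv (v + w) :=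
  fun b j h => by simp [hv b j h, hw b j h]
lemma Vz.sub {v w : B → Fin k0 → ZMod p} (hv : Vz lv v) (hw : Vz lv w) : Vz lv (v - w) :=
  fun b j h => by simp [hv b j h, hw b j h]
lemma Vz.zero : Vz (p := p) lv 0 := fun _ _ _ => rfl

lemma Rl.refl (l : Lg p k0 lv) (v : B → Fin k0 → ZMod p) : Rl 1 l v l v :=
  ⟨by simp, 0, Vz.zero, by simp⟩

lemma Rl.trans {h h' l l' l'' : Lg p k0 lv} {v v' v'' : B → Fin k0 → ZMod p}
    (a : Rl h l v l' v') (b : Rl h' l' v' l'' v'') : Rl (h' * h) l v l'' v'' := by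
  obtain ⟨a1, w, hw, a2⟩ := a
  obtain ⟨b1, w', hw', b2⟩ := b
  refine ⟨by rw [← b1, ← a1]; group, h'.act w + w', (hw.act _).add hw', ?_⟩
  have : h' * l' = l'' * h' := by rw [← b1]; group
  rw [b2, a2, Lg.act_sub, Lg.act_add, Lg.act_add, ← Lg.act_mul h' l', this, Lg.act_mul,
    Lg.act_mul]
  abel

lemma Rl.symm {h l l' : Lg p k0 lv} {v v' : B → Fin k0 → ZMod p}
    (a : Rl h l v l' v') : Rl h⁻¹ l' v' l v := by
  obtain ⟨a1, w, hw, a2⟩ := a
  refine ⟨by rw [← a1]; group, 0 - h⁻¹.act w, Vz.zero.sub (hw.act _), ?_⟩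
  have : h⁻¹ * l' = l * h⁻¹ := by rw [← a1]; group
  rw [a2, Lg.act_sub, Lg.act_add, Lg.act_sub, ← Lg.act_mul h⁻¹ l', this, Lg.act_mul,
    ← Lg.act_mul h⁻¹ h, inv_mul_cancel, Lg.act_one, Lg.act_zero]
  abel

/-- the Sylow subgroup: blocks are fixed and the translation in coordinate `j` depends only on
the earlier coordinates. -/
def InQ (g : Perm (Om p k0 lv)) : Prop :=
  (∀ w, (g w).1.1 = w.1.1) ∧ ∀ (w w' : Om p k0 lv) (j : Fin k0), w.1.1 = w'.1.1 →
    (∀ i < j, w.1.2 i = w'.1.2 i) → (g w).1.2 j - w.1.2 j = (g w').1.2 j - w'.1.2 j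

variable (p k0 lv) in
/-- the Sylow subgroup as a submonoid. -/
def Qm : Submonoid (Perm (Om p k0 lv)) where
  carrier := {g | InQ g}
  one_mem' := ⟨fun _ => rfl, fun _ _ _ _ _ => by simp⟩
  mul_mem' := by
    rintro g g' ⟨h1, h2⟩ ⟨k1, k2⟩
    refine ⟨fun w => by rw [Perm.mul_apply, h1, k1], fun w w' j hb hj => ?_⟩
    have e1 := k2 w w' j hb hj
    have e2 := h2 (g' w) (g' w') j (by rw [k1, k1, hb]) fun i hi => by
      have := k2 w w' i hb fun i' hi' => hj i' (hi'.trans hi)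
      rw [hj i hi] at this
      exact sub_left_injective this
    simp only [Perm.mul_apply]
    linear_combination e1 + e2

variable (p k0 lv) in
/-- the Sylow subgroup. -/
def Qs [Finite B] : Subgroup (Perm (Om p k0 lv)) where
  toSubmonoid := Qm p k0 lv
  inv_mem' := fun {g} hg => by
    have h1 : g⁻¹ = g ^ (orderOf g - 1) := by
      rw [inv_eq_iff_mul_eq_one, ← pow_succ', Nat.sub_add_cancel (orderOf_pos g), pow_orderOf_eq_one]
    rw [h1]
    exact (Qm p k0 lv).pow_mem hg _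

lemma mem_Qs [Finite B] (g : Perm (Om p k0 lv)) : g ∈ Qs p k0 lv ↔ InQ g := Iff.rfl

/-- the abelianisation map of the Sylow subgroup. -/
def ph [Fintype B] [DecidableEq B] (g : Perm (Om p k0 lv)) (b : B) (j : Fin k0) : ZMod p :=
  ∑ w : Om p k0 lv with (w.1.1 = b ∧ ∀ i, j ≤ i → w.1.2 i = 0), (g w).1.2 j

variable (p k0) in
/-- types of cycles: a level and a class of the affine group in each coordinate. -/
abbrev Ty : Type := Fin k0 × (Fin k0 → Option (ZMod p)ˣ)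

def Ty.nrm (τ : Ty p k0) : Prop := ∀ j, τ.1 ≤ j → τ.2 j = some 1
def Ty.stc (τ : Ty p k0) : ℕ := (Finset.univ.filter fun j => τ.2 j = none).card
variable (p) in
def Ty.star (k : Fin k0) : Ty p k0 := (k, fun j => if j < k then none else some 1)
/-- the scaling factor in coordinate `j`. -/
def Ty.sc (τ : Ty p k0) (j : Fin k0) : (ZMod p)ˣ := (τ.2 j).getD 1
noncomputable def Ty.par (τ : Ty p k0) : ℤˣ := ∏ j, chi (τ.sc j : ZMod p)
/-- the scaling attached to a type, on a single block. -/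
def Ty.tor (τ : Ty p k0) : Lg p k0 (fun _ : Unit => τ.1) :=
  ⟨1, fun _ j => if j < τ.1 then τ.sc j else 1, fun _ => rfl,
    fun _ _ h => if_neg (not_lt.2 h)⟩

/-- local data: a multiset of cycle lengths for each type. -/
def Val (a : Fin k0 → ℕ) (m : Ty p k0 → Multiset ℕ) : Prop :=
  (∀ τ, 0 ∉ m τ) ∧ (∀ τ, ¬ τ.nrm → m τ = 0) ∧
    ∀ k, ∑ τ : Ty p k0 with τ.1 = k, (m τ).sum = a k
def Gm (m : Ty p k0 → Multiset ℕ) : Prop :=
  ∀ τ : Ty p k0, τ.par = 1 → (m τ ≠ 0 → τ = Ty.star p τ.1) ∧ (m τ).Nodup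
def Gp (m : Ty p k0 → Multiset ℕ) : Prop :=
  Gm m ∧ ∀ τ : Ty p k0, ∀ r ∈ m τ, (-1) ^ (r - 1) * τ.par = 1
def Lam (m : Ty p k0 → Multiset ℕ) : Multiset ℕ :=
  ∑ k : Fin k0, (m (Ty.star p k)).map fun r => p ^ (k : ℕ) * r
noncomputable def sgm (m : Ty p k0 → Multiset ℕ) : ℤˣ :=
  ∏ τ : Ty p k0, ((m τ).map fun r => (-1) ^ (r - 1) * τ.par).prod
noncomputable def tyM (m : Ty p k0 → Multiset ℕ) : Multiset ℕ :=
  ∑ τ : Ty p k0, (m τ).bind fun r => (ty (Lg.tp τ.tor)).map fun u => r * u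

/-- the sign of the element realising the power map. -/
noncomputable def sgP (m : Ty p k0 → Multiset ℕ) (s : ℕ) : ℤˣ :=
  ∏ τ : Ty p k0, ((m τ).map fun r =>
    zm r s * chi (s : ZMod p) ^ (r * τ.stc) * τ.par ^ ((s - 1) / 2 * (r - 1))).prod
/-- its sign on the set of orbits. -/
noncomputable def soP (m : Ty p k0 → Multiset ℕ) (s : ℕ) : ℤˣ :=
  ∏ τ : Ty p k0, (if τ.par = 1 then chi (s : ZMod p) ^ τ.stc else 1) ^ (m τ).card

/-- standard form of a pair `(l, v)`: cycles `o` of length `r o + 1` and type `τ o`. -/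
structure Std {O : Type} (r : O → ℕ) (τ : O → Ty p k0) (e : (Σ o, Fin (r o + 1)) ≃ B)
    (l : Lg p k0 lv) (v : B → Fin k0 → ZMod p) : Prop where
  nrm : ∀ o, (τ o).nrm
  hlv : ∀ o i, lv (e ⟨o, i⟩) = (τ o).1
  hπ : ∀ o i, l.π (e ⟨o, i⟩) = e ⟨o, i + 1⟩
  hc : ∀ o i j, l.c (e ⟨o, i⟩) j = if i = Fin.last (r o) then (τ o).sc j else 1
  hv : ∀ o i j, v (e ⟨o, i⟩) j = if i = 0 ∧ (τ o).2 j = none then 1 else 0

/-- the local data of a standard form. -/
def mo {O : Type} [Fintype O] (r : O → ℕ) (τ : O → Ty p k0) (t : Ty p k0) : Multiset ℕ :=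
  (Finset.univ.filter fun o => τ o = t).val.map fun o => r o + 1

/-- the properties of the complete invariant of pairs `(l, v)`. -/
structure LocP [Fintype B] [DecidableEq B] (a : Fin k0 → ℕ)
    (inv : Lg p k0 lv → (B → Fin k0 → ZMod p) → Ty p k0 → Multiset ℕ) : Prop where
  p1 : ∀ l v l' v', Vz lv v → Vz lv v' → (inv l v = inv l' v' ↔ ∃ h, Rl h l v l' v')
  p2 : ∀ m, Val a m ↔ ∃ l v, Vz lv v ∧ inv l v = m
  p3 : ∀ l v, Vz lv v → Perm.sign (Lg.tp l) = sgm (inv l v)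
  p4m : ∀ l v, Vz lv v → (Gm (inv l v) ↔ ∀ h, Rl h l v l v → so (Lg.tp l) (Lg.tp h) = 1)
  p4p : ∀ l v, Vz lv v → (Gp (inv l v) ↔ ∀ h, Rl h l v l v → Perm.sign (Lg.tp h) = 1)
  p5 : ∀ l v s, Vz lv v → s ≡ 1 [MOD p - 1] → ¬ p ∣ s → s.Coprime (orderOf l) →
    ∃ h, Rl h l v (l ^ s) (∑ i ∈ Finset.range s, (l ^ i).act v) ∧
      Perm.sign (Lg.tp h) = sgP (inv l v) s ∧ so (Lg.tp l) (Lg.tp h) = soP (inv l v) s
  p6 : ∀ l v, Vz lv v → ty (Lg.tp l) = tyM (inv l v)
  p7 : ∀ l v, Vz lv v → (∃ τ : Ty p k0, ∃ r ∈ inv l v τ, (-1) ^ (r - 1) * τ.par = -1) →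
    ∃ h, Rl h l v l v ∧ Perm.sign (Lg.tp h) = -1 ∧ so (Lg.tp l) (Lg.tp h) = 1

end model

end Pool.Agent.Lib.MP_1ae3da_al.GM
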