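import Pool.Agent.Lib.MP_1ae3da_al.GIx

/-! Labelled involutions on finite sets, and the labels of the characters. -/

namespace Pool.Agent.Lib.MP_1ae3da_al.GM

namespace Fa0

lemma fpf_model {A : Type} (a : A → A) (ha : ∀ x, a (a x) = x) (hf : ∀ x, a x ≠ x) :
    ∃ (Q : Set A) (e : A ≃ Q × Bool), ∀ x, e (a x) = ((e x).1, !(e x).2) := by
  classical
  obtain ⟨o, -⟩ := exists_wellOrder A
  have key : ∀ x, ¬ x < a x → a x < a (a x) := fun x h => by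
    rw [ha]; exact lt_of_le_of_ne (not_lt.1 h) (hf x)
  refine ⟨{x | x < a x}, ⟨fun x => if h : x < a x then (⟨x, h⟩, true) else (⟨a x, key x h⟩, false),
    fun q => if q.2 then q.1.1 else a q.1.1, fun x => ?_, ?_⟩, fun x => ?_⟩
  · by_cases h : x < a x <;> simp [h, ha]
  · rintro ⟨⟨x, hx⟩, b⟩
    have hx' : x < a x := hx
    cases b
    · have : ¬ a x < x := not_lt.2 hx'.le
      simp [ha, this]
    · simp [hx']
  · by_cases h : x < a x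
    · have : ¬ a x < x := not_lt.2 h.le
      simp [h, ha, this]
    · have : a x < x := by simpa [ha] using key x h
      simp [h, ha, this]

lemma fpf_equiv {A B : Type} [Finite A] [Finite B] (a : A → A) (b : B → B)
    (ha : ∀ x, a (a x) = x) (hb : ∀ x, b (b x) = x) (fa : ∀ x, a x ≠ x) (fb : ∀ x, b x ≠ x)
    (hc : Nat.card A = Nat.card B) : ∃ f : A ≃ B, ∀ x, f (a x) = b (f x) := by
  obtain ⟨Q, e, he⟩ := fpf_model a ha fa
  obtain ⟨Q', e', he'⟩ := fpf_model b hb fb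
  have h : Nat.card Q = Nat.card Q' := by
    rw [Nat.card_congr e, Nat.card_congr e', Nat.card_prod, Nat.card_prod] at hc
    simpa using hc
  obtain ⟨g⟩ := Finite.card_eq.1 h
  refine ⟨e.trans ((g.prodCongr (Equiv.refl _)).trans e'.symm), fun x => ?_⟩
  apply e'.injective
  rw [he']
  simp [he]

lemma glue {A B L : Type} [Finite A] [Finite B] (a : A → A) (b : B → B) (RA : A → L → Prop)
    (RB : B → L → Prop) (hA : ∀ x, ∃! l, RA x l) (hB : ∀ y, ∃! l, RB y l)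
    (ha : ∀ x, a (a x) = x) (hb : ∀ x, b (b x) = x) (hRa : ∀ x l, RA x l → RA (a x) l)
    (hRb : ∀ x l, RB x l → RB (b x) l) (F : L → Prop) (hFa : ∀ x l, RA x l → (a x = x ↔ F l))
    (hFb : ∀ x l, RB x l → (b x = x ↔ F l))
    (hc : ∀ l, Nat.card {x // RA x l} = Nat.card {y // RB y l}) :
    ∃ f : A ≃ B, (∀ x l, RA x l → RB (f x) l) ∧ ∀ x, f (a x) = b (f x) := by
  choose la hla ula using hA
  choose lb hlb ulb using hB
  have iA : ∀ x l, la x = l ↔ RA x l := fun x l => ⟨fun h => h ▸ hla x, fun h => (ula x l h).symm⟩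
  have iB : ∀ x l, lb x = l ↔ RB x l := fun x l => ⟨fun h => h ▸ hlb x, fun h => (ulb x l h).symm⟩
  have key : ∀ l, ∃ e : {x // la x = l} ≃ {y // lb y = l}, ∀ x (h : la x = l) (h' : la (a x) = l),
      (e ⟨a x, h'⟩).1 = b (e ⟨x, h⟩).1 := by
    intro l
    have hc' : Nat.card {x // la x = l} = Nat.card {y // lb y = l} := by
      simp only [iA, iB]; exact hc l
    by_cases hF : F l
    · obtain ⟨e⟩ := Finite.card_eq.1 hc'
      refine ⟨e, fun x h h' => ?_⟩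
      have h1 : a x = x := (hFa x l ((iA _ _).1 h)).2 hF
      rw [(hFb _ l ((iB _ _).1 (e ⟨x, h⟩).2)).2 hF]
      simp only [h1]
    · obtain ⟨e, he⟩ := fpf_equiv (A := {x // la x = l}) (B := {y // lb y = l})
        (fun x => ⟨a x.1, (iA _ _).2 (hRa _ _ ((iA _ _).1 x.2))⟩)
        (fun x => ⟨b x.1, (iB _ _).2 (hRb _ _ ((iB _ _).1 x.2))⟩)
        (fun x => Subtype.ext (ha _)) (fun x => Subtype.ext (hb _))
        (fun x h => hF ((hFa _ l ((iA _ _).1 x.2)).1 (congrArg Subtype.val h)))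
        (fun x h => hF ((hFb _ l ((iB _ _).1 x.2)).1 (congrArg Subtype.val h))) hc'
      exact ⟨e, fun x h h' => congrArg Subtype.val (he ⟨x, h⟩)⟩
  choose e he using key
  have hf : ∀ x l (h : la x = l), Equiv.ofFiberEquiv e x = (e l ⟨x, h⟩).1 := by
    intro x l h
    subst h
    rfl
  refine ⟨Equiv.ofFiberEquiv e, fun x l h => ?_, fun x => ?_⟩
  · rw [hf x l ((iA _ _).2 h)]
    exact (iB _ _).1 (e l _).2
  · have h' : la (a x) = la x := (iA _ _).2 (hRa _ _ (hla x))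
    rw [hf (a x) _ h', hf x _ rfl]
    exact he _ x rfl h'

lemma two_to_one {X Y : Type} (s : Set X) (hs : s.Finite) (f : X → Y) (a : X → X)
    (h1 : ∀ x ∈ s, a x ∈ s) (h2 : ∀ x ∈ s, a x ≠ x)
    (h3 : ∀ x ∈ s, ∀ y ∈ s, f y = f x ↔ y = x ∨ y = a x) : s.ncard = 2 * (f '' s).ncard := by
  classical
  rw [Set.ncard_eq_toFinset_card _ hs, Set.ncard_eq_toFinset_card _ (hs.image f),
    Finset.card_eq_sum_card_fiberwise (f := f) (t := (hs.image f).toFinset), mul_comm]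
  · refine Finset.sum_const_nat fun y hy => ?_
    rw [Set.Finite.mem_toFinset] at hy
    obtain ⟨x, hx, rfl⟩ := hy
    rw [← Finset.card_pair (h2 x hx).symm]
    congr 1
    ext y
    simp only [Finset.mem_filter, Set.Finite.mem_toFinset, Finset.mem_insert,
      Finset.mem_singleton]
    constructor
    · rintro ⟨h, e⟩
      exact (h3 x hx y h).1 e
    · rintro (rfl | rfl)
      · exact ⟨hx, rfl⟩
      · exact ⟨h1 x hx, (h3 x hx _ (h1 x hx)).2 (Or.inr rfl)⟩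
  · intro x hx
    rw [Finset.mem_coe, Set.Finite.mem_toFinset] at hx ⊢
    exact ⟨x, hx, rfl⟩

lemma card_sub {X : Type} (s u : Set X) (h : u ⊆ s) (P : Prop) :
    Nat.card {x : s // x.1 ∈ u ∧ P} = Nat.card {x : u // P} :=
  Nat.card_congr ⟨fun x => ⟨⟨x.1.1, x.2.1⟩, x.2.2⟩, fun x => ⟨⟨x.1.1, h x.1.2⟩, x.1.2, x.2⟩,
    fun _ => rfl, fun _ => rfl⟩

lemma card_sub_eq {X Y : Type} (s u : Set X) (h : u ⊆ s) (s' u' : Set Y) (h' : u' ⊆ s') (P : Prop)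
    (hc : u.ncard = u'.ncard) :
    Nat.card {x : s // x.1 ∈ u ∧ P} = Nat.card {x : s' // x.1 ∈ u' ∧ P} := by
  rw [card_sub s u h, card_sub s' u' h']
  by_cases hP : P
  · rw [Nat.card_congr (Equiv.subtypeUnivEquiv fun _ => hP),
      Nat.card_congr (Equiv.subtypeUnivEquiv fun _ => hP)]
    exact hc
  · haveI : IsEmpty {x : u // P} := ⟨fun x => hP x.2⟩
    haveI : IsEmpty {x : u' // P} := ⟨fun x => hP x.2⟩
    simp

/-- normalised sign functions. -/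
def Nm (S : Set Ga) (ε : Ga → ℤˣ) : Prop := ∀ σ ∉ S, ε σ = 1

variable {G G0 : Type} [Group G] [Group G0] (Γ : Gr G G0) {p : ℕ} {S : Set Ga}

lemma map_uK (σ : Ga) (u : ℤˣ) : σ (uK u) = uK u := by simp [uK]

lemma IQ_tw (hx : IxG Γ) {ω : ℤˣ} {ε : Ga → ℤˣ} {χ : G → K} (h : χ ∈ Γ.IQ p S ω ε) :
    Γ.tw χ ∈ Γ.IQ p S ω ε := by
  obtain ⟨⟨n, hn, hp⟩, hc, hne, hσ⟩ := h
  refine ⟨⟨n, hx.tw_irr n χ hn, hp⟩, fun x => ?_, ?_, fun σ hS => ?_⟩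
  · simp only [Sg.tw, map_mul, Γ.zs, one_mul, hc]; ring
  · rw [hx.tw_tw]; exact hne.symm
  · have : σ ∘ Γ.tw χ = Γ.tw (σ ∘ χ) := by
      funext x; simp [Sg.tw, map_uK]
    rw [this, hσ σ hS]
    split_ifs <;> rfl

lemma IQ_nm {ω : ℤˣ} {ε : Ga → ℤˣ} {χ : G → K} (h : χ ∈ Γ.IQ p S ω ε) :
    ∃ ε', χ ∈ Γ.IQ p S ω ε' ∧ Nm S ε' := by
  classical
  refine ⟨fun σ => if σ ∈ S then ε σ else 1, ⟨h.1, h.2.1, h.2.2.1, fun σ hσ => ?_⟩,
    fun σ hσ => if_neg hσ⟩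
  simp only [if_pos hσ]
  exact h.2.2.2 σ hσ

lemma IM_nm {ω : ℤˣ} {ε : Ga → ℤˣ} {θ : G0 → K} (h : θ ∈ Γ.IM p S ω ε) :
    ∃ ε', θ ∈ Γ.IM p S ω ε' ∧ Nm S ε' := by
  classical
  refine ⟨fun σ => if σ ∈ S then ε σ else 1, ⟨h.1, h.2.1, h.2.2.1, fun σ hσ => ?_⟩,
    fun σ hσ => if_neg hσ⟩
  simp only [if_pos hσ]
  exact h.2.2.2 σ hσ

lemma cen_uniq {χ : G → K} (h : χ ∈ IrrP G p) {ω ω' : ℤˣ}
    (h1 : ∀ x, χ (Γ.z * x) = uK ω * χ x) (h2 : ∀ x, χ (Γ.z * x) = uK ω' * χ x) : ω = ω' := by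
  obtain ⟨n, hn, hp⟩ := h
  have hn0 : (n : K) ≠ 0 := Nat.cast_ne_zero.2 fun e => hp (e ▸ dvd_zero p)
  have h1n : χ 1 = n := by
    obtain ⟨ρ, -, rfl⟩ := hn
    simp
  have := (h1 1).symm.trans (h2 1)
  rw [h1n] at this
  exact uK_inj (mul_right_cancel₀ hn0 this)

lemma IQ_uniq {ω ω' : ℤˣ} {ε ε' : Ga → ℤˣ} {χ : G → K} (h : χ ∈ Γ.IQ p S ω ε)
    (h' : χ ∈ Γ.IQ p S ω' ε') (n : Nm S ε) (n' : Nm S ε') : ω = ω' ∧ ε = ε' := by
  refine ⟨cen_uniq Γ h.1 h.2.1 h'.2.1, funext fun σ => ?_⟩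
  by_cases hσ : σ ∈ S
  · have e := (h.2.2.2 σ hσ).symm.trans (h'.2.2.2 σ hσ)
    rcases Int.units_eq_one_or (ε σ) with h1 | h1 <;>
      rcases Int.units_eq_one_or (ε' σ) with h2 | h2 <;> rw [h1, h2] at e <;> rw [h1, h2]
    · rw [if_pos rfl, if_neg (by decide)] at e
      exact absurd e.symm h.2.2.1
    · rw [if_pos rfl, if_neg (by decide)] at e
      exact absurd e h.2.2.1
  · rw [n σ hσ, n' σ hσ]

lemma IM_uniq {ω ω' : ℤˣ} {ε ε' : Ga → ℤˣ} {θ : G0 → K} (h : θ ∈ Γ.IM p S ω ε)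
    (h' : θ ∈ Γ.IM p S ω' ε') (n : Nm S ε) (n' : Nm S ε') : ω = ω' ∧ ε = ε' := by
  obtain ⟨t, ht⟩ := Γ.odd
  obtain ⟨z0, hz0⟩ := (Γ.rng Γ.z).1 Γ.zs
  have c1 : θ ∘ Γ.cj 1 = θ := by
    funext x
    have : Γ.cj 1 x = x := Γ.inj (by simp [Gr.ι_cj])
    simp [this]
  refine ⟨?_, funext fun σ => ?_⟩
  · obtain ⟨m, hm, hp⟩ := h.1
    have hn0 : (m : K) ≠ 0 := Nat.cast_ne_zero.2 fun e => hp (e ▸ dvd_zero p)
    have h1n : θ 1 = m := by
      obtain ⟨ρ, -, rfl⟩ := hm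
      simp
    have := (h.2.1 1 z0 (by simp [hz0])).symm.trans (h'.2.1 1 z0 (by simp [hz0]))
    rw [h1n] at this
    exact uK_inj (mul_right_cancel₀ hn0 this)
  · by_cases hσ : σ ∈ S
    · have e := h.2.2.2 σ hσ
      have e' := h'.2.2.2 σ hσ
      rcases Int.units_eq_one_or (ε σ) with h1 | h1 <;>
        rcases Int.units_eq_one_or (ε' σ) with h2 | h2 <;> rw [h1] at e <;> rw [h2] at e' <;>
        rw [h1, h2]
      · exact absurd (((e' t ht).symm.trans (e 1 (map_one _))).trans c1) (h.2.2.1 t ht)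
      · exact absurd (((e t ht).symm.trans (e' 1 (map_one _))).trans c1) (h.2.2.1 t ht)
    · rw [n σ hσ, n' σ hσ]

lemma IQ_ex (hch : ChSt) [Finite G] (hcov : ∀ ω, Γ.Cov p S ω) {χ : G → K} (h : χ ∈ IrrP G p)
    (hne : Γ.tw χ ≠ χ) : ∃ ω ε, χ ∈ Γ.IQ p S ω ε ∧ Nm S ε := by
  letI := Fintype.ofFinite G
  obtain ⟨ω, hω⟩ := (hch.b G).cen χ ⟨_, h.choose_spec.1⟩ Γ.z Γ.zc Γ.zz
  obtain ⟨ε, hε⟩ := (hcov ω).2 χ ⟨h, hω, hne, fun σ hσ => absurd hσ (Set.notMem_empty σ)⟩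
  exact ⟨ω, IQ_nm Γ hε⟩

lemma IM_ex (hch : ChSt) [Finite G] (hcov : ∀ ω, Γ.Cov p S ω) {θ : G0 → K} (h : θ ∈ IrrP G0 p)
    (hne : ∀ t, Γ.sg t = -1 → θ ∘ Γ.cj t ≠ θ) : ∃ ω ε, θ ∈ Γ.IM p S ω ε ∧ Nm S ε := by
  haveI : Finite G0 := Finite.of_injective Γ.ι Γ.inj
  letI := Fintype.ofFinite G0
  obtain ⟨z0, hz0⟩ := (Γ.rng Γ.z).1 Γ.zs
  obtain ⟨ω, hω⟩ := (hch.b G0).cen θ ⟨_, h.choose_spec.1⟩ z0
    (fun g => Γ.inj (by rw [map_mul, map_mul, hz0, Γ.zc])) (Γ.inj (by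
      rw [map_mul, hz0, Γ.zz, map_one]))
  have hc' : ∀ x y, Γ.ι y = Γ.z * Γ.ι x → θ y = uK ω * θ x := by
    intro x y e
    rw [← hz0, ← map_mul] at e
    rw [Γ.inj e, hω]
  obtain ⟨ε, hε⟩ := (hcov ω).1 θ ⟨h, hc', hne, fun σ hσ => absurd hσ (Set.notMem_empty σ)⟩
  exact ⟨ω, IM_nm Γ hε⟩

lemma irrP_fin (hch : ChSt) (G : Type) [Group G] [Finite G] (p : ℕ) : (IrrP G p).Finite := by
  letI := Fintype.ofFinite G
  exact (hch.a G).fin.subset fun χ h => ⟨_, h.choose_spec.1⟩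

lemma irrP_cl (hch : ChSt) {G : Type} [Group G] [Finite G] {p : ℕ} {χ : G → K}
    (h : χ ∈ IrrP G p) : Cl χ := by
  letI := Fintype.ofFinite G
  exact Ix.irr_cl hch ⟨_, h.choose_spec.1⟩

end Fa0

end Pool.Agent.Lib.MP_1ae3da_al.GM
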