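import Pool.Agent.Lib.MP_1ae3da_al.GT

/-! Matrix representations attached to the two types of characters of the even part. -/

namespace Pool.Agent.Lib.MP_1ae3da_al.GM

namespace Fb

open Classical

/-- the data of a representation of the stabiliser of `θ`; `m` says that `θ` is not invariant. -/
structure RepD {G G0 : Type} [Group G] [Group G0] (Γ : Gr G G0) (S : Set Ga) (θ : G0 → K)
    (m : Prop) (ω : ℤˣ) (ε : Ga → ℤˣ) {d : ℕ} (ρ : G → Matrix (Fin d) (Fin d) K) : Prop where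
  tr : ∀ x, (ρ (Γ.ι x)).trace = θ x
  st : ∀ g, (∀ x, θ (Γ.cj g x) = θ x) ↔ (m → Γ.sg g = 1)
  fx : ∀ σ ∈ S, ∀ g, (∀ x, σ (θ (Γ.cj g x)) = θ x) ↔ (m → Γ.sg g = ε σ)
  one : ρ 1 = 1
  mul : ∀ g h, (m → Γ.sg g = 1) → (m → Γ.sg h = 1) → ρ (g * h) = ρ g * ρ h
  ent : ∀ g, (m → Γ.sg g = 1) → ∀ i j, ρ g i j ∈ NSV.Qab
  z : ρ Γ.z = uK ω • (1 : Matrix (Fin d) (Fin d) K)
  sim : ∀ σ ∈ S, ∀ h, (m → Γ.sg h = ε σ) → ∃ U : (Matrix (Fin d) (Fin d) K)ˣ, ∀ y,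
    (m → Γ.sg y = 1) → (ρ (h * y * h⁻¹)).map σ =
      uK (if ε σ = 1 then 1 else Γ.sg y) • (U.val * ρ y * U.inv)

lemma scal (hch : ChSt) {G : Type} [Group G] [Finite G] {n : ℕ} {χ : G → K} (hχ : IsIrr n χ)
    (ρ : G →* Matrix (Fin n) (Fin n) K) (hρ : ∀ x, (ρ x).trace = χ x) (z : G)
    (hz : ∀ g, z * g = g * z) (c : K) (hc : χ z = c * χ 1) :
    ρ z = c • (1 : Matrix (Fin n) (Fin n) K) := by
  haveI := Fintype.ofFinite G
  have hI : (fun x => (ρ x).trace) ∈ Irr G := ⟨n, by rw [funext hρ]; exact hχ⟩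
  obtain ⟨c', hc'⟩ := (hch.b G).schur n ρ hI (ρ z) fun x => by
    rw [← map_mul, ← map_mul, hz]
  have h1 := hρ z
  rw [hc', Matrix.trace_smul, Matrix.trace_one, hc, hχ.one, Fintype.card_fin, smul_eq_mul] at h1
  have hn : (n : K) ≠ 0 := Nat.cast_ne_zero.2 hχ.pos.ne'
  rw [hc', mul_right_cancel₀ hn h1]

lemma sig_uK (σ : Ga) (u : ℤˣ) : σ (uK u) = uK u := by simp [uK]

lemma trace_map {n : ℕ} (σ : Ga) (A : Matrix (Fin n) (Fin n) K) :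
    (A.map σ).trace = σ A.trace := by
  simp [Matrix.trace, map_sum]

variable {G G0 : Type} [Group G] [Group G0] [Finite G]

lemma ex_sg (Γ : Gr G G0) (u : ℤˣ) : ∃ t, Γ.sg t = u := by
  rcases Int.units_eq_one_or u with rfl | rfl
  · exact ⟨1, map_one _⟩
  · exact Γ.odd

lemma cj_cj (Γ : Gr G G0) (t t' : G) (x : G0) : Γ.cj t (Γ.cj t' x) = Γ.cj (t * t') x :=
  Γ.inj (by simp [Gr.ι_cj, mul_assoc])

lemma repM (hch : ChSt) (hix : IxSt) (hbr : BrSt) (Γ : Gr G G0) (p : ℕ) (S : Set Ga) (ω : ℤˣ)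
    (ε : Ga → ℤˣ) (θ : G0 → K) (hθ : θ ∈ Γ.IM p S ω ε) :
    ∃ (d : ℕ) (ρ : G → Matrix (Fin d) (Fin d) K), RepD Γ S θ True ω ε ρ := by
  haveI : Finite G0 := Finite.of_injective _ Γ.inj
  haveI := Fintype.ofFinite G0
  obtain ⟨⟨n, hn, -⟩, h2, h3, h4⟩ := hθ
  obtain ⟨ρ, hρ, hq⟩ := hbr G0 n θ hn
  have hI : θ ∈ Irr G0 := ⟨n, hn⟩
  have hcl : Cl θ := (hch.a G0).cl θ ((hch.a G0).ch_vc θ ((hch.a G0).irr_ch θ hI))
  have hx := hix G G0 Γ
  have hext : ∀ x, Function.extend Γ.ι ρ 0 (Γ.ι x) = ρ x := fun x => Γ.inj.extend_apply _ _ _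
  have hst : ∀ g, (∀ x, θ (Γ.cj g x) = θ x) ↔ Γ.sg g = 1 := by
    intro g
    refine ⟨fun h => ?_, fun h x => congrFun (hx.cj_even θ hcl g h) x⟩
    rcases Int.units_eq_one_or (Γ.sg g) with h1 | h1
    · exact h1
    · exact absurd (funext h) (h3 g h1)
  have hfx : ∀ σ ∈ S, ∀ g, (∀ x, σ (θ (Γ.cj g x)) = θ x) ↔ Γ.sg g = ε σ := by
    intro σ hσ g
    obtain ⟨t, ht⟩ := ex_sg Γ (ε σ)
    have h5 : ∀ x, σ (θ x) = θ (Γ.cj t x) := fun x => congrFun (h4 σ hσ t ht) x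
    simp only [h5, cj_cj]
    rw [hst, map_mul, ht]
    rcases Int.units_eq_one_or (Γ.sg g) with h1 | h1 <;>
      rcases Int.units_eq_one_or (ε σ) with h6 | h6 <;> simp [h1, h6]
  refine ⟨n, Function.extend Γ.ι ρ 0, fun x => by rw [hext, hρ], fun g => by simpa using hst g,
    fun σ hσ g => by simpa using hfx σ hσ g, ?_, ?_, ?_, ?_, ?_⟩
  · rw [← map_one Γ.ι, hext, map_one]
  · intro g h hg hh
    obtain ⟨x, rfl⟩ := (Γ.rng g).1 (hg trivial)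
    obtain ⟨y, rfl⟩ := (Γ.rng h).1 (hh trivial)
    rw [← map_mul, hext, hext, hext, map_mul]
  · intro g hg i j
    obtain ⟨x, rfl⟩ := (Γ.rng g).1 (hg trivial)
    rw [hext]; exact hq x i j
  · obtain ⟨z0, hz0⟩ := (Γ.rng Γ.z).1 Γ.zs
    rw [← hz0, hext]
    refine scal hch hn ρ hρ z0 (fun g => Γ.inj ?_) _ (h2 1 z0 (by rw [hz0, map_one, mul_one]))
    rw [map_mul, map_mul, hz0, Γ.zc]
  · intro σ hσ h hh
    have h6 := (hfx σ hσ h).2 (hh trivial)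
    let ρ' : G0 →* Matrix (Fin n) (Fin n) K :=
      (σ.mapMatrix : Matrix (Fin n) (Fin n) K ≃+* Matrix (Fin n) (Fin n) K).toMonoidHom.comp
        (ρ.comp (Γ.cjA h).toMonoidHom)
    have hρ' : ∀ x, ρ' x = (ρ (Γ.cj h x)).map σ := fun x => rfl
    obtain ⟨U, hU⟩ := (hch.b G0).sim n ρ ρ' ⟨n, by rw [funext hρ]; exact hn⟩ fun x => by
      rw [hρ', trace_map, hρ, hρ, h6]
    refine ⟨U, fun y hy => ?_⟩
    obtain ⟨x, rfl⟩ := (Γ.rng y).1 (hy trivial)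
    rw [← Γ.ι_cj, hext, hext, ← hρ', hU, Γ.sg_ι, ite_self, uK_one, one_smul]

lemma repQ (hch : ChSt) (hbr : BrSt) (Γ : Gr G G0) (p : ℕ) (S : Set Ga) (ω : ℤˣ)
    (ε : Ga → ℤˣ) (χ : G → K) (hχ : χ ∈ Γ.IQ p S ω ε) :
    ∃ (d : ℕ) (ρ : G → Matrix (Fin d) (Fin d) K), RepD Γ S (χ ∘ Γ.ι) False ω ε ρ := by
  haveI := Fintype.ofFinite G
  obtain ⟨⟨n, hn, -⟩, h2, -, h4⟩ := hχ
  obtain ⟨ρ, hρ, hq⟩ := hbr G n χ hn
  have hI : χ ∈ Irr G := ⟨n, hn⟩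
  have hcl : Cl χ := (hch.a G).cl χ ((hch.a G).ch_vc χ ((hch.a G).irr_ch χ hI))
  have hs : ∀ σ ∈ S, ∀ y, σ (χ y) = uK (if ε σ = 1 then 1 else Γ.sg y) * χ y := by
    intro σ hσ y
    have := congrFun (h4 σ hσ) y
    split_ifs at this ⊢ with h
    · simpa using this
    · exact this
  refine ⟨n, ρ, fun x => hρ _, fun g => ?_, fun σ hσ g => ?_, map_one ρ,
    fun g h _ _ => map_mul ρ g h, fun g _ => hq g, ?_, ?_⟩
  · simp only [Function.comp, Gr.ι_cj, hcl _ g, implies_true, false_implies]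
  · simp only [Function.comp, Gr.ι_cj, hcl _ g, false_implies, iff_true]
    intro x
    rw [hs σ hσ, Γ.sg_ι, ite_self, uK_one, one_mul]
  · exact scal hch hn ρ hρ Γ.z Γ.zc _ (by rw [← h2 1, mul_one])
  · intro σ hσ h _
    let ρ' : G →* Matrix (Fin n) (Fin n) K :=
      { toFun := fun y => uK (if ε σ = 1 then 1 else Γ.sg y) • (ρ (h * y * h⁻¹)).map σ
        map_one' := by simp
        map_mul' := fun a b => by
          have e : h * (a * b) * h⁻¹ = (h * a * h⁻¹) * (h * b * h⁻¹) := by group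
          have e2 : uK (if ε σ = 1 then 1 else Γ.sg (a * b)) =
              uK (if ε σ = 1 then 1 else Γ.sg a) * uK (if ε σ = 1 then 1 else Γ.sg b) := by
            split_ifs
            · simp
            · rw [map_mul, uK_mul]
          rw [e, map_mul ρ, Matrix.map_mul, e2, smul_mul_smul_comm] }
    have hρ' : ∀ y, ρ' y = uK (if ε σ = 1 then 1 else Γ.sg y) • (ρ (h * y * h⁻¹)).map σ :=
      fun y => rfl
    obtain ⟨U, hU⟩ := (hch.b G).sim n ρ ρ' ⟨n, by rw [funext hρ]; exact hn⟩ fun x => by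
      rw [hρ', Matrix.trace_smul, trace_map, hρ, hρ, hcl, hs σ hσ, smul_eq_mul, ← mul_assoc,
        uK_sq, one_mul]
    refine ⟨U, fun y _ => ?_⟩
    rw [← hU, hρ', smul_smul, uK_sq, one_smul]

end Fb

end Pool.Agent.Lib.MP_1ae3da_al.GM
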