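import Pool.Agent.Lib.MP_1ae3da_al.GFb1

/-! Projective representations obtained from a lifting into a graded group. -/

namespace Pool.Agent.Lib.MP_1ae3da_al.GM

namespace Fb

open Classical

/-- a lifting `L` of `T` into `G`, multiplicative up to `z`. -/
structure Lift {𝒢 G G0 : Type} [Group 𝒢] [Group G] [Group G0] (A T : Subgroup 𝒢) (Θ : 𝒢 → K)
    (Γ : Gr G G0) (θ : G0 → K) (L : 𝒢 → G) (cc : 𝒢 → 𝒢 → Prop) (sgn : 𝒢 → ℤˣ) : Prop where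
  le : A ≤ T
  nrm : ∀ n ∈ A, ∀ h ∈ T, h * n * h⁻¹ ∈ A
  ev : ∀ n ∈ A, ∃ x, L n = Γ.ι x ∧ Θ n = θ x
  surj : ∀ x, ∃ n ∈ A, L n = Γ.ι x
  mul : ∀ a ∈ T, ∀ b ∈ T, L a * L b = (if cc a b then Γ.z else 1) * L (a * b)
  cl : ∀ n ∈ A, ∀ a b, cc (n * a) b ↔ cc a b
  cr : ∀ n ∈ A, ∀ a b, cc a (n * b) ↔ cc a b
  c1 : ∀ n ∈ A, ∀ a, ¬ cc n a ∧ ¬ cc a n
  sg : ∀ a ∈ T, Γ.sg (L a) = sgn a

variable {𝒢 G G0 : Type} [Group 𝒢] [Group G] [Group G0] {A T : Subgroup 𝒢} {Θ : 𝒢 → K}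
  {Γ : Gr G G0} {θ : G0 → K} {L : 𝒢 → G} {cc : 𝒢 → 𝒢 → Prop} {sgn : 𝒢 → ℤˣ}

lemma Lift.ml (H : Lift A T Θ Γ θ L cc sgn) {n a : 𝒢} (hn : n ∈ A) (ha : a ∈ T) :
    L (n * a) = L n * L a := by
  rw [H.mul n (H.le hn) a ha, if_neg (H.c1 n hn a).1, one_mul]

lemma Lift.mr (H : Lift A T Θ Γ θ L cc sgn) {n a : 𝒢} (hn : n ∈ A) (ha : a ∈ T) :
    L (a * n) = L a * L n := by
  rw [H.mul a ha n (H.le hn), if_neg (H.c1 n hn a).2, one_mul]

lemma Lift.one (H : Lift A T Θ Γ θ L cc sgn) : L 1 = 1 := by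
  have := H.ml A.one_mem T.one_mem
  rw [one_mul] at this
  exact mul_left_cancel (a := L 1) (by rw [← this, mul_one])

lemma Lift.conj (H : Lift A T Θ Γ θ L cc sgn) {n h : 𝒢} (hn : n ∈ A) (hh : h ∈ T) :
    L (h * n * h⁻¹) = L h * L n * (L h)⁻¹ := by
  have h1 := H.ml (H.nrm n hn h hh) hh
  rw [inv_mul_cancel_right, H.mr hn hh] at h1
  rw [h1, mul_inv_cancel_right]

lemma Lift.fix (H : Lift A T Θ Γ θ L cc sgn) {h : 𝒢} (hh : h ∈ T) (σ : K ≃ₐ[ℚ] K) :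
    NSV.Fix A Θ h σ ↔ ∀ x, σ (θ (Γ.cj (L h) x)) = θ x := by
  have key : ∀ n ∈ A, ∀ x, L n = Γ.ι x → Θ n = θ x ∧ Θ (h * n * h⁻¹) = θ (Γ.cj (L h) x) := by
    intro n hn x hx
    obtain ⟨x1, h1, h2⟩ := H.ev n hn
    obtain ⟨x2, h3, h4⟩ := H.ev _ (H.nrm n hn h hh)
    have e1 : x1 = x := Γ.inj (by rw [← h1, hx])
    have e2 : x2 = Γ.cj (L h) x := Γ.inj (by rw [← h3, H.conj hn hh, Γ.ι_cj, hx])
    exact ⟨by rw [h2, e1], by rw [h4, e2]⟩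
  constructor
  · intro hF x
    obtain ⟨n, hn, hx⟩ := H.surj x
    obtain ⟨h1, h2⟩ := key n hn x hx
    rw [← h1, ← h2]; exact hF n hn
  · intro hF n hn
    obtain ⟨x, hx, -⟩ := H.ev n hn
    obtain ⟨h1, h2⟩ := key n hn x hx
    rw [h1, h2]; exact hF x

lemma Lift.sgA (H : Lift A T Θ Γ θ L cc sgn) {n : 𝒢} (hn : n ∈ A) : Γ.sg (L n) = 1 := by
  obtain ⟨x, hx, -⟩ := H.ev n hn
  rw [hx, Γ.sg_ι]

lemma sg_ite (Γ : Gr G G0) (c : Prop) : Γ.sg (if c then Γ.z else 1) = 1 := by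
  split_ifs
  · exact Γ.zs
  · exact map_one _

variable {S : Set Ga} {m : Prop} {ω : ℤˣ} {ε : Ga → ℤˣ} {d : ℕ} {ρ : G → Matrix (Fin d) (Fin d) K}

lemma RepD.zmul (D : RepD Γ S θ m ω ε ρ) (c : Prop) (g : G) (hg : m → Γ.sg g = 1) :
    ρ ((if c then Γ.z else 1) * g) = uK (if c then ω else 1) • ρ g := by
  split_ifs
  · rw [D.mul _ _ (fun _ => Γ.zs) hg, D.z, smul_mul_assoc, one_mul]
  · rw [one_mul, uK_one, one_smul]

lemma fix_one (H : Lift A T Θ Γ θ L cc sgn) (D : RepD Γ S θ m ω ε ρ) {h : 𝒢} (hh : h ∈ T) :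
    NSV.Fix A Θ h 1 ↔ (m → Γ.sg (L h) = 1) := by
  rw [H.fix hh, ← D.st]; rfl

lemma assoc (H : Lift A T Θ Γ θ L cc sgn) (D : RepD Γ S θ m ω ε ρ) :
    NSV.Assoc A T Θ (fun a => ρ (L a)) (fun a b => uK (if cc a b then ω else 1)) := by
  refine ⟨fun n hn => ?_, fun x hx hF => ?_⟩
  · obtain ⟨x, h1, h2⟩ := H.ev n hn
    change (ρ (L n)).trace = Θ n
    rw [h1, h2, D.tr]
  · have h1 := (fix_one H D hx).1 hF
    have h2 : m → Γ.sg (L x)⁻¹ = 1 := fun h => by rw [map_inv, h1 h, inv_one]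
    refine ⟨?_, D.ent _ h1, fun n hn => ⟨?_, ?_⟩, fun y hy hG => ⟨?_, 2, two_pos, ?_⟩⟩
    · exact ⟨⟨ρ (L x), ρ (L x)⁻¹, by rw [← D.mul _ _ h1 h2, mul_inv_cancel, D.one],
        by rw [← D.mul _ _ h2 h1, inv_mul_cancel, D.one]⟩, rfl⟩
    · change ρ (L (n * x)) = ρ (L n) * ρ (L x)
      rw [H.ml hn hx, D.mul _ _ (fun _ => H.sgA hn) h1]
    · change ρ (L (x * n)) = ρ (L x) * ρ (L n)
      rw [H.mr hn hx, D.mul _ _ h1 fun _ => H.sgA hn]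
    · have h3 := (fix_one H D hy).1 hG
      have h4 := H.mul x hx y hy
      have h5 : m → Γ.sg (L (x * y)) = 1 := fun h => by
        have := congrArg Γ.sg h4
        rwa [map_mul, map_mul, h1 h, h3 h, sg_ite, one_mul, one_mul, eq_comm] at this
      change ρ (L x) * ρ (L y) = _ • ρ (L (x * y))
      rw [← D.mul _ _ h1 h3, h4, D.zmul _ _ h5]
    · rw [sq, uK_sq]

/-- the function attached to a pair `(h, σ)`. -/
noncomputable def mu (cc : 𝒢 → 𝒢 → Prop) (sgn : 𝒢 → ℤˣ) (ω e : ℤˣ) (h y : 𝒢) : K :=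
  uK (if cc (h * y * h⁻¹) h then ω else 1) * uK (if cc h y then ω else 1) *
    uK (if e = 1 then 1 else sgn y)

lemma isMu (H : Lift A T Θ Γ θ L cc sgn) (D : RepD Γ S θ m ω ε ρ) {h : 𝒢} (hh : h ∈ T)
    (σ : K ≃ₐ[ℚ] K) (hσ : σ.toRingEquiv ∈ S) (hF : NSV.Fix A Θ h σ) :
    NSV.Mu A T Θ (fun a => ρ (L a)) h σ (mu cc sgn ω (ε σ.toRingEquiv) h) := by
  have h1 : m → Γ.sg (L h) = ε σ.toRingEquiv := (D.fx _ hσ _).1 ((H.fix hh σ).1 hF)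
  obtain ⟨U, hU⟩ := D.sim _ hσ (L h) h1
  refine ⟨?_, U, fun y hy hG => ⟨fun n hn => ?_, ?_⟩⟩
  · unfold mu
    rw [mul_one, mul_inv_cancel, if_neg (H.c1 1 A.one_mem h).1, if_neg (H.c1 1 A.one_mem h).2,
      ← H.sg 1 T.one_mem, H.one, map_one, ite_self, uK_one, one_mul, one_mul]
  · unfold mu
    have e : h * (n * y) * h⁻¹ = (h * n * h⁻¹) * (h * y * h⁻¹) := by group
    have e2 : sgn (n * y) = sgn y := by
      rw [← H.sg _ (T.mul_mem (H.le hn) hy), ← H.sg _ hy, H.ml hn hy, map_mul, H.sgA hn, one_mul]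
    rw [e, e2]
    simp only [H.cl _ (H.nrm n hn h hh), H.cr n hn]
  · have h2 := (fix_one H D hy).1 hG
    have hc : h * y * h⁻¹ ∈ T := T.mul_mem (T.mul_mem hh hy) (T.inv_mem hh)
    have e1 := H.mul _ hc h hh
    have e2 := H.mul h hh y hy
    rw [inv_mul_cancel_right] at e1
    have zz : ∀ c : Prop, (if c then Γ.z else 1) * (if c then Γ.z else 1) = 1 := fun c => by
      split_ifs
      · exact Γ.zz
      · exact one_mul 1
    have e3 : L (h * y * h⁻¹) = (if cc (h * y * h⁻¹) h then Γ.z else 1) *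
        ((if cc h y then Γ.z else 1) * (L h * L y * (L h)⁻¹)) := by
      rw [e2, ← mul_assoc (if cc h y then Γ.z else 1), ← mul_assoc (if cc h y then Γ.z else 1), zz,
        one_mul, ← mul_assoc, ← e1, mul_inv_cancel_right]
    have h3 : m → Γ.sg (L h * L y * (L h)⁻¹) = 1 := fun hm => by
      rw [map_mul, map_mul, map_inv, h2 hm, mul_one, mul_inv_cancel]
    have h4 : m → Γ.sg ((if cc h y then Γ.z else 1) * (L h * L y * (L h)⁻¹)) = 1 := fun hm => by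
      rw [map_mul, sg_ite, h3 hm, one_mul]
    have h5 := hU (L y) h2
    have h6 : ∀ (u : ℤˣ) (M : Matrix (Fin d) (Fin d) K), (uK u • M).map σ = uK u • M.map σ := by
      intro u M
      ext i j
      simp [uK]
    change (ρ (L (h * y * h⁻¹))).map σ = _ • (U.val * ρ (L y) * U.inv)
    rw [e3, D.zmul _ _ h4, D.zmul _ _ h3, h6, h6]
    change _ • _ • (ρ (L h * L y * (L h)⁻¹)).map σ.toRingEquiv = _
    rw [h5, smul_smul, smul_smul, H.sg y hy]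
    rfl

end Fb

end Pool.Agent.Lib.MP_1ae3da_al.GM
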