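import Pool.Agent.Lib.MP_1ae3da_al.GT

/-! The final assembly: from the global and local counts to the main theorems. -/

namespace Pool.Agent.Lib.MP_1ae3da_al.GM

open Equiv Module

namespace Fin0

lemma digits (p n : ℕ) (hp : p.Prime) :
    ∃ (k0 : ℕ) (a : Fin k0 → ℕ), (∀ k, a k < p) ∧ n = ∑ k, a k * p ^ (k : ℕ) := by
  have key : ∀ k : ℕ, n % p ^ k = ∑ i ∈ Finset.range k, n / p ^ i % p * p ^ i := by
    intro k
    induction k with
    | zero => simp [Nat.mod_one]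
    | succ k ih => rw [Nat.mod_pow_succ, Finset.sum_range_succ, ih, mul_comm]
  refine ⟨n, fun k => n / p ^ (k : ℕ) % p, fun k => Nat.mod_lt _ hp.pos, ?_⟩
  rw [Fin.sum_univ_eq_sum_range (fun i => n / p ^ i % p * p ^ i) n, ← key,
    Nat.mod_eq_of_lt (Nat.lt_pow_self hp.one_lt)]

lemma card_sub {α β : Type} {P : α → Prop} {Q : β → Prop} (e : {a // P a} ≃ {b // Q b})
    (P' : α → Prop) (Q' : β → Prop) (P'' : α → Prop) (Q'' : β → Prop)
    (h : ∀ a, P' a.1 ↔ Q' (e a).1) (h1 : ∀ a, P'' a ↔ P a ∧ P' a) (h2 : ∀ b, Q'' b ↔ Q b ∧ Q' b) :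
    Nat.card {a // P'' a} = Nat.card {b // Q'' b} := by
  refine Nat.card_congr ?_
  refine (Equiv.subtypeEquivRight h1).trans (Equiv.trans ?_ (Equiv.subtypeEquivRight h2).symm)
  exact ((Equiv.subtypeSubtypeEquivSubtypeInter P P').symm.trans (e.subtypeEquiv h)).trans
    (Equiv.subtypeSubtypeEquivSubtypeInter Q Q')

end Fin0

open Fin0

theorem faHyp (hix : IxSt) (hsq : SqSt) (hcmp : CmpSt) (hgM : GlmMSt) (hgQ : GlmQSt)
    (hgP : GlpSt) (hloc : LocSt) (hlc : LcSt) (hnum : NumSt) (hmM : MatMSt) (hmP : MatPSt)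
    (hm0 : Mat0St) (Ω : Type) [Fintype Ω] [DecidableEq Ω] (X X0 N N0 : Type) [Group X] [Group X0]
    [Group N] [Group N0] [Finite X] (C : Cover Ω X) (Γ : Gr X X0) (hΓ : Γ.toSg = C.toSg) (p : ℕ)
    (hp : p.Prime) (hp2 : p ≠ 2) (R : Subgroup X) (Δ : Gr N N0) (j : N →* X)
    (hL : LocSet p C R Δ.toSg j) : FaHyp Γ Δ p (Hl p) := by
  classical
  haveI : Fact p.Prime := ⟨hp⟩
  haveI : Finite N := Finite.of_injective j hL.inj
  obtain ⟨k0, a, ha, hn⟩ := digits p (Fintype.card Ω) hp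
  set M := 4 * p.factorial * Nat.card X with hM
  have hM0 : 0 < M := Nat.mul_pos (Nat.mul_pos (by norm_num) p.factorial_pos) Nat.card_pos
  obtain ⟨inv, hI⟩ := hloc p k0 Ω X N C R Δ.toSg j a M hp2 ha hn hL hM0 dvd_rfl
  have hnorm : (R.comap j).Normal := ⟨fun x hx g => by
    have hg : j g ∈ Subgroup.normalizer (R : Set X) := (hL.rng _).2 ⟨g, rfl⟩
    rw [Subgroup.mem_comap, map_mul, map_mul, map_inv]
    exact (Subgroup.mem_normalizer_iff.1 hg _).1 hx⟩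
  have hidx : ¬ p ∣ (R.comap j).index := by
    intro h
    apply hL.idx
    rw [Subgroup.index_comap] at h
    have hle : R ≤ j.range := fun x hx => (hL.rng x).1 (Subgroup.le_normalizer hx)
    exact h.trans (Dvd.intro _ (Subgroup.relIndex_mul_index hle))
  have hC : LocC Δ p k0 C.q (Fintype.card Ω) a := by
    refine hlc p k0 N N0 Δ (R.comap j) C.q _ a M inv hp2 hnorm (hL.pg.comap_of_injective j hL.inj)
      hidx hM0 ⟨2 * p.factorial * Nat.card X, by rw [hM]; ring⟩ (fun x => hL.inj ?_) hI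
    rw [map_pow, map_one, hM, pow_mul', pow_card_eq_one', one_pow]
  obtain ⟨gM1, gM2⟩ := hgM Ω X X0 C Γ hΓ p (Hl p) hp hp2
  obtain ⟨gQ1, gQ2⟩ := hgQ Ω X X0 C Γ hΓ p (Hl p) hp hp2
  obtain ⟨gP1, gP2, gP3, gP4, gP5⟩ := hgP Ω X X0 C Γ hΓ p (Hl p) hp hp2
  obtain ⟨-, gE2, -, -, -⟩ := hgP Ω X X0 C Γ hΓ p ∅ hp hp2
  obtain ⟨eM, heM⟩ := hmM p k0 a _ hp2 ha hn
  obtain ⟨eP, heP⟩ := hmP p k0 a _ hp2 ha hn
  have e0 := hm0 p k0 a _ hp2 ha hn
  have hiff : ∀ (D D' : ℤ) (ε : Ga → ℤˣ), Cmp p D D' →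
      ((∀ σ ∈ Hl p, Eps D σ (ε σ)) ↔ ∀ σ ∈ Hl p, Eps D' σ (ε σ)) := fun D D' ε h =>
    ⟨fun k σ hσ => hsq.cmp p D D' σ _ hp hp2 hσ h (k σ hσ),
      fun k σ hσ => hsq.cmp p D' D σ _ hp hp2 hσ (hcmp.symm p _ _ h) (k σ hσ)⟩
  have hpar : ∀ A : STp p (Fintype.card Ω),
      Even (Fintype.card Ω + A.1.card) ↔ sgm (eM A).1 = 1 := by
    intro A
    have h1 := (hnum p k0 C.q a (eM A).1 hp2 (eM A).2.1).n0 (eM A).2.2
    rw [← hn] at h1
    have h2 := (heM A).1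
    rw [h1, Nat.even_add, Nat.even_add, Nat.even_add.1 h2]
  have hω : ∀ ω : ℤˣ, ω = 1 ∨ ω = -1 := Int.units_eq_one_or
  refine ⟨fun ω => ?_, hC.cov, fun ω ε => ?_, fun ω ε => ?_⟩
  · rcases hω ω with rfl | rfl
    · exact gP1
    · exact ⟨gM1, gQ1⟩
  · rcases hω ω with rfl | rfl
    · rw [gP2, hC.imp]
      congr 1
      exact card_sub eP (fun A => ∀ σ ∈ Hl p, Eps (Dm C.q (Fintype.card Ω) (hk A)) σ (ε σ))
        (fun m => ∀ σ ∈ Hl p, Eps (Dm C.q (Fintype.card Ω) (Lam m)) σ (ε σ)) _ _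
        (fun A => hiff _ _ ε (heP A C.q)) (fun _ => Iff.rfl) (fun _ => and_assoc.symm)
    · rw [gM2, hC.im]
      congr 1
      exact card_sub eM (fun A => Even (Fintype.card Ω + A.card) ∧
          ∀ σ ∈ Hl p, Eps (Dm C.q (Fintype.card Ω) A.val) σ (ε σ))
        (fun m => sgm m = 1 ∧ ∀ σ ∈ Hl p, Eps (Dm C.q (Fintype.card Ω) (Lam m)) σ (ε σ)) _ _
        (fun A => and_congr (hpar A) (hiff _ _ ε ((heM A).2 C.q))) (fun _ => Iff.rfl)
        (fun _ => and_assoc.symm)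
  · rcases hω ω with rfl | rfl
    · by_cases hε : ∀ σ ∈ Hl p, ε σ = 1
      · rw [gP3 ε hε, hC.iq1 ε hε]
        have r1 := (hix X X0 Γ).rel p hp hp2 1
        have r2 := (hix N N0 Δ).rel p hp hp2 1
        have r3 := gE2 1
        have r4 : Nat.card {A // A ∈ CTp p (Fintype.card Ω) ∧ ∀ σ ∈ (∅ : Set Ga),
            Eps (Dm C.q (Fintype.card Ω) (hk A)) σ ((1 : Ga → ℤˣ) σ)} =
            Nat.card {m : Ty p k0 → Multiset ℕ // Val a m ∧ Gp m} :=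
          card_sub eP (fun _ => True) (fun _ => True) _ _ (fun _ => Iff.rfl) (by simp) (by simp)
        rw [gP5, r3, r4, e0] at r1
        rw [hC.ia, hC.imp0] at r2
        omega
      · rw [gP4 ε hε, hC.iq0 ε hε]
    · rw [gQ2, hC.iq]
      congr 1
      refine card_sub eM (fun A => ¬ Even (Fintype.card Ω + A.card) ∧
          ∀ σ ∈ Hl p, Eps (Dm C.q (Fintype.card Ω) A.val) σ (ε σ))
        (fun m => sgm m = -1 ∧ ∀ σ ∈ Hl p, Eps (Dm C.q (Fintype.card Ω) (Lam m)) σ (ε σ)) _ _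
        (fun A => and_congr ?_ (hiff _ _ ε ((heM A).2 C.q))) (fun _ => Iff.rfl)
        (fun _ => and_assoc.symm)
      rw [hpar A]
      rcases hω (sgm (eM A).1) with h | h <;> simp [h]

namespace Fin0

variable {X X0 : Type} [Group X] [Group X0] (Γ : Gr X X0)

lemma range_eq : Γ.ι.range = Γ.sg.ker := by
  ext g; rw [MonoidHom.mem_ker, Γ.rng]; rfl

lemma index_range : Γ.ι.range.index = 2 := by
  rw [range_eq, Subgroup.index_ker]
  have : Γ.sg.range = ⊤ := by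
    rw [eq_top_iff]
    intro u _
    rcases Int.units_eq_one_or u with rfl | rfl
    · exact one_mem _
    · exact Γ.odd
  rw [this, Subgroup.card_top, Nat.card_eq_fintype_card, Fintype.card_units_int]

lemma mem_norm (R : Subgroup X0) (g : X) :
    g ∈ Subgroup.normalizer ((R.map Γ.ι : Subgroup X) : Set X) ↔ ∀ x, Γ.cj g x ∈ R ↔ x ∈ R := by
  have hm : ∀ x, Γ.ι x ∈ R.map Γ.ι ↔ x ∈ R := fun x => Subgroup.mem_map_iff_mem Γ.inj
  rw [Subgroup.mem_normalizer_iff]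
  constructor
  · intro h x
    rw [← hm, ← hm, Γ.ι_cj]
    exact (h _).symm
  · intro h y
    constructor
    · rintro ⟨x, hx, rfl⟩
      rw [← Γ.ι_cj, hm, h]; exact hx
    · rintro ⟨x, hx, e⟩
      have : y = Γ.ι (Γ.cj g⁻¹ x) := by rw [Γ.ι_cj, e]; group
      rw [this, hm, ← h]
      have : Γ.cj g (Γ.cj g⁻¹ x) = x := Γ.inj (by simp [Γ.ι_cj, mul_assoc])
      rw [this]; exact hx

lemma cj_ι (x y : X0) : Γ.cj (Γ.ι x) y = x * y * x⁻¹ := Γ.inj (by simp [Γ.ι_cj])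

lemma ι_mem_norm (R : Subgroup X0) (x : X0) :
    Γ.ι x ∈ Subgroup.normalizer ((R.map Γ.ι : Subgroup X) : Set X) ↔
      x ∈ Subgroup.normalizer (R : Set X0) := by
  rw [mem_norm, Subgroup.mem_normalizer_iff]
  simp only [cj_ι]
  exact forall_congr' fun _ => Iff.comm

lemma idx {p : ℕ} (hp : p.Prime) (hp2 : p ≠ 2) (R : Subgroup X0) (h : ¬ p ∣ R.index) :
    ¬ p ∣ (R.map Γ.ι).index := by
  rw [Subgroup.index_map_of_injective _ Γ.inj, index_range, hp.dvd_mul]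
  rintro (h1 | h1)
  · exact h h1
  · exact hp2 ((Nat.prime_dvd_prime_iff_eq hp Nat.prime_two).1 h1)

lemma exists_local [Finite X] {p : ℕ} (hp : p.Prime) (hp2 : p ≠ 2) (R : Subgroup X0)
    (hR : IsPGroup p R) (h : ¬ p ∣ R.index) :
    ∃ Δ : Gr (Subgroup.normalizer ((R.map Γ.ι : Subgroup X) : Set X))
      (Subgroup.normalizer (R : Set X0)),
      (∀ y, Γ.sg y.1 = Δ.sg y) ∧ Δ.z.1 = Γ.z ∧ ∀ x, (Δ.ι x).1 = Γ.ι x := by
  haveI : Fact p.Prime := ⟨hp⟩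
  have hz : Γ.z ∈ Subgroup.normalizer ((R.map Γ.ι : Subgroup X) : Set X) := by
    rw [Subgroup.mem_normalizer_iff]
    intro y
    rw [Γ.zc, mul_inv_cancel_right]
  have hodd : ∃ t ∈ Subgroup.normalizer ((R.map Γ.ι : Subgroup X) : Set X), Γ.sg t = -1 := by
    by_contra hcon
    have hle : Subgroup.normalizer ((R.map Γ.ι : Subgroup X) : Set X) ≤ Γ.sg.ker := by
      intro t ht
      rcases Int.units_eq_one_or (Γ.sg t) with h1 | h1
      · exact h1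
      · exact absurd ⟨t, ht, h1⟩ hcon
    have := Sylow.normalizer_sup_eq_top' (N := Γ.sg.ker)
      ((hR.map Γ.ι).toSylow (idx Γ hp hp2 R h)) (by
        rw [← range_eq]; exact R.map_le_range Γ.ι)
    have h2 : Γ.sg.ker = ⊤ := by
      rw [eq_top_iff, ← this]; exact sup_le hle le_rfl
    obtain ⟨t, ht⟩ := Γ.odd
    have : Γ.sg t = 1 := by rw [← MonoidHom.mem_ker, h2]; trivial
    rw [ht] at this
    exact absurd this (by decide)
  refine ⟨{ sg := Γ.sg.comp (Subgroup.subtype _)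
            z := ⟨Γ.z, hz⟩
            zc := fun g => Subtype.ext (Γ.zc g)
            zz := Subtype.ext Γ.zz
            zs := Γ.zs
            ι := (Γ.ι.comp (Subgroup.subtype _)).codRestrict _
              fun x => (ι_mem_norm Γ R x).2 x.2
            inj := fun x y e => Subtype.ext (Γ.inj (congrArg Subtype.val e))
            rng := fun g => ?_
            odd := ?_ }, fun _ => rfl, rfl, fun _ => rfl⟩
  · constructor
    · intro hg
      obtain ⟨x, hx⟩ := (Γ.rng g).1 hg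
      exact ⟨⟨x, (ι_mem_norm Γ R x).1 (hx ▸ g.2)⟩, Subtype.ext hx⟩
    · rintro ⟨x, rfl⟩
      exact Γ.sg_ι x
  · obtain ⟨t, ht, h1⟩ := hodd
    exact ⟨⟨t, ht⟩, h1⟩

end Fin0

/-- the counts agree for the normaliser of a Sylow subgroup. -/
def CoreSt : Prop := ∀ (Ω : Type) [Fintype Ω] [DecidableEq Ω] (X X0 N N0 : Type) [Group X]
  [Group X0] [Group N] [Group N0] [Finite X] (C : Cover Ω X) (Γ : Gr X X0), Γ.toSg = C.toSg →
  ∀ p : ℕ, p.Prime → p ≠ 2 → ∀ (R : Subgroup X) (Δ : Gr N N0) (j : N →* X),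
  LocSet p C R Δ.toSg j → FaHyp Γ Δ p (Hl p)

lemma core_local (hcore : CoreSt) {Ω : Type} [Fintype Ω] [DecidableEq Ω] {X X0 : Type} [Group X]
    [Group X0] [Finite X] (C : Cover Ω X) (Γ : Gr X X0) (hΓ : Γ.toSg = C.toSg) {p : ℕ}
    (hp : p.Prime) (hp2 : p ≠ 2) (R : Subgroup X0) (hR : IsPGroup p R) (h : ¬ p ∣ R.index) :
    ∃ Δ : Gr (Subgroup.normalizer ((R.map Γ.ι : Subgroup X) : Set X))
      (Subgroup.normalizer (R : Set X0)),
      ((∀ y, Γ.sg y.1 = Δ.sg y) ∧ Δ.z.1 = Γ.z ∧ ∀ x, (Δ.ι x).1 = Γ.ι x) ∧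
        FaHyp Γ Δ p (Hl p) := by
  obtain ⟨Δ, h1, h2, h3⟩ := exists_local Γ hp hp2 R hR h
  refine ⟨Δ, ⟨h1, h2, h3⟩, hcore Ω X X0 _ _ C Γ hΓ p hp hp2 (R.map Γ.ι) Δ (Subgroup.subtype _)
    ⟨hR.map _, idx Γ hp hp2 R h, Subtype.val_injective, fun g => ⟨fun hg => ⟨⟨g, hg⟩, rfl⟩, ?_⟩,
      fun y => ?_, ?_⟩⟩
  · rintro ⟨y, rfl⟩; exact y.2
  · rw [← h1, hΓ]; rfl
  · change Δ.z.1 = _
    rw [h2, hΓ]; rfl

theorem inductive_of_cover (hcore : CoreSt) (hfa2 : Fa2St) (hfb : FbSt) (haut2 : Aut2St)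
    (hcb : CbSt) {Ω : Type} [Fintype Ω] [DecidableEq Ω] {X X0 : Type} [Group X]
    [Group X0] [Finite X] (C : Cover Ω X) (Γ : Gr X X0) (hΓ : Γ.toSg = C.toSg) {p : ℕ}
    (hp : p.Prime) (hp2 : p ≠ 2) (h7 : 7 ≤ Fintype.card Ω) (hpn : p ≤ Fintype.card Ω)
    (R : Sylow p X0) : NSV.Inductive p X0 R := by
  haveI : Fact p.Prime := ⟨hp⟩
  haveI : Finite X0 := Finite.of_injective _ Γ.inj
  obtain ⟨Δ, ⟨h1, h2, h3⟩, hF⟩ := core_local hcore C Γ hΓ hp hp2 (R : Subgroup X0) R.2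
    R.not_dvd_index
  obtain ⟨a1, a2⟩ := haut2 Ω X X0 C Γ hΓ h7
  refine hfb X X0 _ Γ p R Δ (Subgroup.subtype _) hp Subtype.val_injective (fun g => ?_) h1 h2 h3
    (fun g hg => ?_) a1 (a2 p R hp hp2 hpn R.2 R.not_dvd_index)
    (hfa2 X X0 _ _ Γ Δ p _ hp hp2 hF)
  · rw [← mem_norm]
    exact ⟨fun hg => ⟨⟨g, hg⟩, rfl⟩, by rintro ⟨y, rfl⟩; exact y.2⟩
  · have := (hcb Ω X C).cent (by omega) g fun x hx => by
      obtain ⟨y, rfl⟩ := (Γ.rng x).1 (by rw [hΓ]; exact hx)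
      exact hg y
    rw [hΓ]; exact this

theorem main1 (hcore : CoreSt) (hfa2 : Fa2St) (hfb : FbSt) (haut2 : Aut2St) (hcb : CbSt)
    (hiso : IsoSt) (n p : ℕ) (hn : 8 ≤ n) (hp : p.Prime) (hp2 : p ≠ 2) (hpn : p ≤ n) (X : Type)
    [Group X] [Finite X] (f : X →* alternatingGroup (Fin n)) (hX : commutator X = ⊤)
    (hf : Function.Surjective f) (hc : f.ker ≤ Subgroup.center X) (hk : f.ker ≠ ⊥)
    (R : Sylow p X) : NSV.Inductive p X R := by
  obtain ⟨Y, _, _, C, Γ, hΓ⟩ := hiso n X f hn hX hf hc hk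
  exact inductive_of_cover hcore hfa2 hfb haut2 hcb C Γ hΓ hp hp2 (by simp; omega) (by simpa) R

lemma fa1_of_fa2 {G G0 N N0 : Type} [Group G] [Group G0] [Group N]
    [Group N0] (Γ : Gr G G0) (Δ : Gr N N0) (p : ℕ) (S : Set Ga)
    (h : FA2 Γ Δ p S) : FA1 p S G0 N0 := by
  classical
  obtain ⟨f, hf⟩ := h
  refine ⟨f, fun σ hσ θ θ' e => ?_⟩
  rcases hf θ with ⟨ω, ε, h1, h2, h3⟩ | ⟨ω, ε, χ, ψ, h1, h2, h3, h4⟩
  · rcases Int.units_eq_one_or (ε σ) with k | k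
    · have e1 := h1.2.2.2 σ hσ 1 (by rw [map_one, k])
      have e2 := h2.2.2.2 σ hσ 1 (by rw [map_one, k])
      have c1 : Γ.cj 1 = id := funext fun x => Γ.inj (by simp [Γ.ι_cj])
      have c2 : Δ.cj 1 = id := funext fun x => Δ.inj (by simp [Δ.ι_cj])
      rw [c1, Function.comp_id] at e1
      rw [c2, Function.comp_id] at e2
      rw [e2, show θ' = θ from Subtype.ext (e.trans e1)]
    · obtain ⟨t, ht⟩ := Γ.odd
      obtain ⟨t', ht'⟩ := Δ.odd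
      rw [h2.2.2.2 σ hσ t' (by rw [ht', k])]
      exact h3 t t' ht ht' θ' (e.trans (h1.2.2.2 σ hσ t (by rw [ht, k])))
  · have tw1 : Γ.tw χ ∘ Γ.ι = χ ∘ Γ.ι := funext fun x => by simp [Sg.tw, Γ.sg_ι]
    have tw2 : Δ.tw ψ ∘ Δ.ι = ψ ∘ Δ.ι := funext fun x => by simp [Sg.tw, Δ.sg_ι]
    have e1 : σ ∘ θ.1 = θ.1 := by
      rw [h3, ← Function.comp_assoc, h1.2.2.2 σ hσ]
      split_ifs
      · rfl
      · exact tw1
    have e2 : σ ∘ (f θ).1 = (f θ).1 := by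
      rw [h4, ← Function.comp_assoc, h2.2.2.2 σ hσ]
      split_ifs
      · rfl
      · exact tw2
    rw [e2, show θ' = θ from Subtype.ext (e.trans e1)]

/-- the graded structure attached to a subgroup equal to the kernel of the sign. -/
def grOf {X : Type} [Group X] (S : Sg X) (G : Subgroup X) (hG : G = S.sg.ker)
    (ho : ∃ t, S.sg t = -1) : Gr X G where
  toSg := S
  ι := G.subtype
  inj := Subtype.val_injective
  rng g := ⟨fun h => ⟨⟨g, hG ▸ h⟩, rfl⟩, by rintro ⟨x, rfl⟩; exact (hG ▸ x.2 : (x : X) ∈ S.sg.ker)⟩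
  odd := ho

lemma q1_top (hcore : CoreSt) (hfa1 : Fa1St) {Ω : Type} [Fintype Ω] [DecidableEq Ω] {X : Type}
    [Group X] [Finite X] (C : Cover Ω X) (ho : ∃ t, C.toSg.sg t = -1) {p : ℕ} (hp : p.Prime)
    (hp2 : p ≠ 2) (P : Sylow p X) :
    FA1 p (Hl p) X (Subgroup.normalizer ((P : Subgroup X) : Set X)) := by
  haveI : Fact p.Prime := ⟨hp⟩
  let Γ := grOf C.toSg C.toSg.sg.ker rfl ho
  have hle : (P : Subgroup X) ≤ C.toSg.sg.ker := by
    intro x hx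
    obtain ⟨k, hk⟩ := P.2 ⟨x, hx⟩
    have h1 : C.toSg.sg x ^ p ^ k = 1 := by
      rw [← map_pow, show x ^ p ^ k = 1 from congrArg Subtype.val hk, map_one]
    rcases Int.units_eq_one_or (C.toSg.sg x) with h | h
    · exact h
    · rw [h, (hp.odd_of_ne_two hp2).pow.neg_one_pow] at h1
      exact absurd h1 (by decide)
  have hmap : ((P : Subgroup X).subgroupOf C.toSg.sg.ker).map Γ.ι = P :=
    Subgroup.map_subgroupOf_eq_of_le hle
  obtain ⟨Δ, -, hF⟩ := core_local hcore C Γ rfl hp hp2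
    ((P : Subgroup X).subgroupOf C.toSg.sg.ker) (P.subtype hle).2 (P.subtype hle).not_dvd_index
  have := hfa1 X _ _ _ Γ Δ p _ hp hp2 hF
  rwa [hmap] at this

theorem main2 (hcore : CoreSt) (hfa1 : Fa1St) (hfa2 : Fa2St) (hcov : CovSt) (hsq : SqSt)
    (n p : ℕ) (hp : p.Prime) (hp2 : p ≠ 2) (X : Type) [Group X] [Finite X]
    (π : X →* Perm (Fin n)) (hs : Function.Surjective π) (hk : Nat.card π.ker = 2)
    (hc : ∃ (x y : X) (a b c d : Fin n), [a, b, c, d].Nodup ∧ π x = swap a b ∧ π y = swap c d ∧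
      x * y ≠ y * x)
    (G : Subgroup X) (hG : (Perm.sign.comp π).ker ≤ G) (P : Sylow p G) :
    ∃ f : NSV.IrrP p G ≃ NSV.IrrP p (Subgroup.normalizer (P : Set G)),
      ∀ σ ∈ NSV.H p, ∀ χ χ' : NSV.IrrP p G, χ'.1 = σ ∘ χ.1 → (f χ').1 = σ ∘ (f χ).1 := by
  haveI : Fact p.Prime := ⟨hp⟩
  have hI : ∀ (Y : Type) [Group Y], NSV.IrrP p Y = IrrP Y p := fun Y _ => by
    ext χ
    exact ⟨fun ⟨n, ρ, h1, h2, h3⟩ => ⟨n, ⟨ρ, h1, h2⟩, h3⟩,
      fun ⟨n, ⟨ρ, h1, h2⟩, h3⟩ => ⟨n, ρ, h1, h2, h3⟩⟩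
  suffices h : FA1 p (Hl p) G (Subgroup.normalizer ((P : Subgroup G) : Set G)) by
    rw [hI, hI]
    obtain ⟨f, hf⟩ := h
    exact ⟨f, fun σ hσ χ χ' e => hf σ.toRingEquiv (hsq.hl p σ hp hσ) χ χ' e⟩
  obtain ⟨x, y, a, b, c, d, hn, hx, hy, hxy⟩ := hc
  have hab : a ≠ b := by
    intro e; simp [e] at hn
  have hsx : Perm.sign (π x) = -1 := by rw [hx, Perm.sign_swap hab]
  by_cases hE : G = (Perm.sign.comp π).ker
  · obtain ⟨C, rfl⟩ := hcov (Fin n) X π hs hk ⟨x, y, a, b, c, d, hn, hx, hy, hxy⟩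
    let Γ := grOf C.toSg G hE ⟨x, hsx⟩
    obtain ⟨Δ, -, hF⟩ := core_local hcore C Γ rfl hp hp2 (P : Subgroup G) P.2 P.not_dvd_index
    exact fa1_of_fa2 Γ Δ p _ (hfa2 X _ _ _ Γ Δ p _ hp hp2 hF)
  · have hT : ∀ g, g ∈ G := by
      obtain ⟨t, ht, ht'⟩ : ∃ t ∈ G, t ∉ (Perm.sign.comp π).ker := by
        by_contra hcon
        exact hE (le_antisymm (fun t ht => by_contra fun h => hcon ⟨t, ht, h⟩) hG)
      intro g
      by_cases hg : g ∈ (Perm.sign.comp π).ker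
      · exact hG hg
      · have : g * t⁻¹ ∈ G := hG (by
          rw [MonoidHom.mem_ker] at *
          rw [map_mul, map_inv, (Int.units_eq_one_or _).resolve_left hg,
            (Int.units_eq_one_or _).resolve_left ht']
          simp)
        simpa using G.mul_mem this ht
    obtain ⟨C, hC⟩ := hcov (Fin n) G (π.comp G.subtype)
      (fun s => by obtain ⟨g, rfl⟩ := hs s; exact ⟨⟨g, hT g⟩, rfl⟩)
      (by
        rw [← hk]
        exact Nat.card_congr ⟨fun u => ⟨u.1.1, u.2⟩, fun u => ⟨⟨u.1, hT _⟩, u.2⟩,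
          fun _ => rfl, fun _ => rfl⟩)
      ⟨⟨x, hT x⟩, ⟨y, hT y⟩, a, b, c, d, hn, hx, hy, fun e => hxy (congrArg Subtype.val e)⟩
    exact q1_top hcore hfa1 C ⟨⟨x, hT x⟩, by rw [Cover.toSg_sg, hC]; exact hsx⟩ hp hp2 P

end Pool.Agent.Lib.MP_1ae3da_al.GM
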