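import Pool.Agent.Lib.MP_1ae3da_al.GT

/-! The global count for the even part, spin characters: the class functions attached to strict
partitions. -/

namespace Pool.Agent.Lib.MP_1ae3da_al.GM

open Equiv Module

namespace GlM

/-- the parts in decreasing order. -/
def srt (A : Finset ℕ) : List ℕ := A.sort (· ≥ ·)

lemma srt_val (A : Finset ℕ) : (srt A : Multiset ℕ) = A.val := Finset.sort_eq A _

lemma srt_nodup (A : Finset ℕ) : (srt A).Nodup := Finset.sort_nodup A _

lemma srt_mem (A : Finset ℕ) (a : ℕ) : a ∈ srt A ↔ a ∈ A := Finset.mem_sort _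

lemma srt_fin (A : Finset ℕ) : (srt A).toFinset = A := Finset.sort_toFinset A _

lemma srt_len (A : Finset ℕ) : (srt A).length = A.card := Finset.length_sort _

lemma srt_sum (A : Finset ℕ) : (srt A).sum = A.sum id := by
  rw [← Multiset.sum_coe, srt_val, Finset.sum, Multiset.map_id]

lemma srt_gt (A : Finset ℕ) : (srt A).Pairwise (· > ·) :=
  ((Finset.pairwise_sort A (· ≥ ·)).and (srt_nodup A)).imp fun h =>
    lt_of_le_of_ne h.1 (Ne.symm h.2)

variable {Ω : Type} [Fintype Ω] [DecidableEq Ω] {X : Type} [Group X] (C : Cover Ω X) (τ : X → K)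

/-- the class function attached to a strict partition. -/
noncomputable def U (A : Finset ℕ) (x : X) : K := τ x * UQ (srt A) (ty (C.π x))

lemma mem_univ (x : X) : x ∈ C.sub Finset.univ := fun i hi => absurd (Finset.mem_univ i) hi

variable {C τ}

lemma U_ls [Finite X] (hpa : PermASt) (hlat : LatSt) (hspin : SpinSt) (hτ : Tau C τ)
    {A : Finset ℕ} (h0 : 0 ∉ A) (hs : A.sum id = Fintype.card Ω) :
    C.toSg.LS ((-1) ^ (Fintype.card Ω + A.card)) (U C τ A) fun x => ty (C.π x) = A.val := by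
  have h1 := hspin Ω X C τ hτ (srt A) (by rwa [srt_mem]) Finset.univ
    (by rw [srt_sum, hs, Finset.card_univ])
  have h2 := (hlat _ (C.sgI Finset.univ)).map X C.toSg
    ((MonoidHom.id X).codRestrict _ (mem_univ C)) (fun _ => rfl) rfl _ _ _ h1
  rw [srt_sum, hs, srt_len, srt_val] at h2
  convert h2 using 1
  · funext x
    simp [U, (hpa Ω).tyI_univ]
  · funext x
    simp [(hpa Ω).tyI_univ]

lemma U_ip [Fintype X] (hpa : PermASt) (hcb : CbSt) (hav : AvSt) (hτ : Tau C τ)
    (A B : Finset ℕ) :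
    ip (U C τ A) (U C τ B) = Av (Fintype.card Ω) (UQ (srt A) * UQ (srt B)) := by
  rw [← (hcb Ω X C).dictX, ip]
  congr 1
  refine Finset.sum_congr rfl fun x _ => ?_
  simp only [U, Pi.mul_apply, map_inv, (hpa Ω).inv, hτ.inv]
  by_cases h : ∀ m ∈ ty (C.π x), Odd m
  · linear_combination (UQ (srt A) (ty (C.π x)) * UQ (srt B) (ty (C.π x))) * hτ.sq1 x h
  · have : UQ (srt A) (ty (C.π x)) = 0 := by
      by_contra hc
      exact h (hav.sup _ _ hc).2
    simp [this]

lemma U_one [Fintype X] (hpa : PermASt) (hcb : CbSt) (hav : AvSt) (hfB : FkBSt) (hτ : Tau C τ)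
    {A : Finset ℕ} (h0 : 0 ∉ A) (hs : A.sum id = Fintype.card Ω) :
    ip (U C τ A) (U C τ A) = 1 := by
  rw [U_ip hpa hcb hav hτ, ← hs, ← srt_sum]
  exact (hfB _ _ (srt_nodup A) (by rwa [srt_mem]) (srt_nodup A) (by rwa [srt_mem]) rfl).1

lemma U_zero [Fintype X] (hpa : PermASt) (hcb : CbSt) (hav : AvSt) (hfB : FkBSt) (hτ : Tau C τ)
    {A B : Finset ℕ} (h0 : 0 ∉ A) (hs : A.sum id = Fintype.card Ω) (k0 : 0 ∉ B)
    (ks : B.sum id = Fintype.card Ω) (hne : A ≠ B) : ip (U C τ A) (U C τ B) = 0 := by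
  rw [U_ip hpa hcb hav hτ, ← hs, ← srt_sum]
  refine (hfB _ _ (srt_nodup A) (by rwa [srt_mem]) (srt_nodup B) (by rwa [srt_mem])
    (by rw [srt_sum, srt_sum, hs, ks])).2 ?_
  rw [srt_val, srt_val]
  exact fun h => hne (Finset.val_injective h)

lemma U_deg (hpa : PermASt) (hfC : FkCSt) (hτ : Tau C τ)
    {A : Finset ℕ} (h0 : 0 ∉ A) (hs : A.sum id = Fintype.card Ω) :
    U C τ A 1 * (Hs A : K) = rt2 ^ (Fintype.card Ω - A.card) *
      ((Fintype.card Ω).factorial : K) * (Vd A : K) := by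
  have := hfC (srt A) (srt_gt A) (by rwa [srt_mem])
  rw [srt_sum, hs, srt_len, srt_fin] at this
  rw [U, hτ.one, one_mul, map_one, (hpa Ω).one, this]

lemma ty_pow [Finite X] (hpa : PermASt) (hsq : SqSt) {σ : Ga} {s : ℕ}
    (hs : Ex (Nat.card X) σ s) (x : X) : ty (C.π (x ^ s)) = ty (C.π x) := by
  rw [map_pow]
  refine (hpa Ω).pow _ s ((hsq.cop _ σ s Nat.card_pos hs).coprime_dvd_right ?_)
  exact (orderOf_map_dvd C.π x).trans (orderOf_dvd_natCard x)

lemma U_pow [Finite X] (hpa : PermASt) (hsq : SqSt) (hτ : Tau C τ) (A : Finset ℕ) {σ : Ga} {s : ℕ}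
    (hs : Ex (Nat.card X) σ s) (x : X) : U C τ A (x ^ s) = U C τ A x := by
  rw [U, U, ty_pow hpa hsq hs, hτ.pow _ σ s x Nat.card_pos pow_card_eq_one' hs]

/-- the valuation computation. -/
lemma val_iff {p a b m H F : ℕ} (hp : p.Prime) (h2 : p ≠ 2) (hm : 0 < m) (hH : 0 < H)
    (hF : 0 < F) (h : 2 ^ a * m * H = 2 ^ b * F) :
    ¬ p ∣ m ↔ padicValNat p H = padicValNat p F := by
  have := Fact.mk hp
  have e2 : ∀ c, padicValNat p (2 ^ c) = 0 := fun c =>
    padicValNat.eq_zero_of_not_dvd fun hd =>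
      h2 ((Nat.prime_dvd_prime_iff_eq hp Nat.prime_two).1 (hp.dvd_of_dvd_pow hd))
  have := congrArg (padicValNat p) h
  rw [padicValNat.mul (by positivity) hH.ne', padicValNat.mul (by positivity) hm.ne',
    padicValNat.mul (by positivity) hF.ne', e2, e2] at this
  constructor
  · intro hd
    rw [padicValNat.eq_zero_of_not_dvd hd] at this
    omega
  · intro he hd
    have := one_le_padicValNat_of_dvd hm.ne' hd
    omega

lemma zj_sq (C : Cover Ω X) (j : ℕ) : C.z ^ j * C.z ^ j = 1 := by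
  rw [← pow_two, ← pow_mul, mul_comm, pow_mul, pow_two, show C.z * C.z = 1 from C.toSg.zz, one_pow]

/-- the strict partitions of `n` form a finite set. -/
lemma fin_st (n : ℕ) : {A : Finset ℕ | A.sum id = n}.Finite := by
  refine (Finset.powerset (Finset.range (n + 1))).finite_toSet.subset fun A hA => ?_
  simp only [Finset.coe_powerset, Set.mem_preimage, Set.mem_powerset_iff]
  intro a ha
  have := Finset.single_le_sum (f := id) (fun _ _ => Nat.zero_le _) (Finset.mem_coe.1 ha)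
  simp only [Set.mem_ofPred_eq] at hA
  simp only [id] at this hA
  simp only [Finset.coe_range, Set.mem_Iio]
  omega

end GlM

end Pool.Agent.Lib.MP_1ae3da_al.GM
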