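import Mathlib

/-! Teichmüller lifts. -/

namespace Pool.Agent.Lib.MP_1ae3da_al

lemma card_units_cast (E : Type) [Field E] [Finite E] [Fintype Eˣ] :
    (Fintype.card Eˣ : E) = -1 := by
  classical
  haveI := Fintype.ofFinite E
  have h1 : Fintype.card Eˣ = Fintype.card E - 1 := by
    rw [← Fintype.card_units E]; congr; exact Subsingleton.elim _ _
  rw [h1, Nat.cast_sub Fintype.card_pos, FiniteField.cast_card_eq_zero]; simp

theorem exists_teich (K : Type) [Field K] [CharZero K] [IsAlgClosed K] (p : ℕ) [Fact p.Prime]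
    (E : Type) [Field E] [Finite E] [Algebra (ZMod p) E] :
    ∃ (k : Type) (_ : Field k) (r : integralClosure ℤ K →+* k) (j : E →+* k)
      (θ : Eˣ →* integralClosure ℤ K), ∀ x, r (θ x) * j x = 1 := by
  classical
  have hp : p.Prime := Fact.out
  haveI : Fintype Eˣ := Fintype.ofFinite _
  let O := integralClosure ℤ K
  haveI : (Ideal.span {(p : ℤ)}).IsMaximal :=
    PrincipalIdealRing.isMaximal_of_irreducible (Nat.prime_iff_prime_int.mp hp).irreducible
  obtain ⟨Q, hQ, hQ'⟩ := Ideal.exists_ideal_over_maximal_of_isIntegral (S := O)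
    (Ideal.span {(p : ℤ)}) (by
      rw [(RingHom.injective_iff_ker_eq_bot _).mp (algebraMap ℤ O).injective_int]; exact bot_le)
  letI : Field (O ⧸ Q) := Ideal.Quotient.field Q
  let k := AlgebraicClosure (O ⧸ Q)
  let r : O →+* k := (algebraMap (O ⧸ Q) k).comp (Ideal.Quotient.mk Q)
  have hpk : (p : k) = 0 := by
    have : (p : O) ∈ Q := by
      have : (p : ℤ) ∈ Q.comap (algebraMap ℤ O) := by
        rw [hQ']; exact Ideal.mem_span_singleton_self _
      simpa using this
    rw [← map_natCast r]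
    simp only [r, RingHom.comp_apply]
    rw [Ideal.Quotient.eq_zero_iff_mem.mpr this, map_zero]
  haveI : CharP k p := (CharP.charP_iff_prime_eq_zero hp).mpr hpk
  letI : Algebra (ZMod p) k := ZMod.algebra k p
  let j : E →ₐ[ZMod p] k := IsAlgClosed.lift
  obtain ⟨n, hn⟩ : ∃ n, Fintype.card Eˣ = n + 1 := ⟨_, (Nat.succ_pred_eq_of_pos Fintype.card_pos).symm⟩
  haveI : NeZero ((n + 1 : ℕ) : K) := ⟨by exact_mod_cast n.succ_ne_zero⟩
  obtain ⟨ω, hω⟩ := HasEnoughRootsOfUnity.exists_primitiveRoot K (n + 1)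
  let w : O := ⟨ω, hω.isIntegral n.succ_pos⟩
  have hw : IsPrimitiveRoot w (n + 1) :=
    IsPrimitiveRoot.of_map_of_injective (f := O.val) hω Subtype.val_injective
  have hrw : IsPrimitiveRoot (r w) (n + 1) := by
    refine IsPrimitiveRoot.mk_of_lt _ n.succ_pos (by rw [← map_pow, hw.pow_eq_one, map_one]) ?_
    intro l hl hl' h
    have h1 := congrArg r hw.prod_one_sub_pow_eq_order
    rw [map_prod, Finset.prod_eq_zero (i := l - 1) (Finset.mem_range.mpr (by omega))
      (by rw [map_sub, map_one, map_pow, Nat.sub_add_cancel hl, h, sub_self])] at h1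
    have h2 := congrArg j (card_units_cast E)
    rw [hn, map_natCast, map_neg, map_one] at h2
    rw [map_add, map_natCast, map_one, ← Nat.cast_succ, h2] at h1
    simp at h1
  have hex : ∀ x : Eˣ, ∃ i, r w ^ i = j (x⁻¹ : Eˣ) := by
    intro x
    obtain ⟨i, -, hi⟩ := hrw.eq_pow_of_pow_eq_one (ξ := j (x⁻¹ : Eˣ)) (by
      rw [← map_pow, ← Units.val_pow_eq_pow_val, ← hn, pow_card_eq_one, Units.val_one, map_one])
    exact ⟨i, hi⟩
  choose i hi using hex
  have hinj : ∀ a c : ℕ, r w ^ a = r w ^ c → w ^ a = w ^ c := by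
    intro a c h
    rw [pow_eq_pow_mod a hrw.pow_eq_one, pow_eq_pow_mod c hrw.pow_eq_one] at h
    rw [pow_eq_pow_mod a hw.pow_eq_one, pow_eq_pow_mod c hw.pow_eq_one,
      hrw.pow_inj (Nat.mod_lt _ n.succ_pos) (Nat.mod_lt _ n.succ_pos) h]
  let θ : Eˣ →* O :=
    { toFun := fun x => w ^ i x
      map_one' := by
        have := hinj (i 1) 0 (by rw [hi]; simp)
        simpa using this
      map_mul' := fun x y => by
        rw [← pow_add]
        apply hinj
        rw [pow_add, hi, hi, hi, mul_inv, Units.val_mul, map_mul] }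
  refine ⟨k, inferInstance, r, (j : E →+* k), θ, fun x => ?_⟩
  change r (w ^ i x) * j x = 1
  rw [map_pow, hi, ← map_mul, Units.inv_mul, map_one]

end Pool.Agent.Lib.MP_1ae3da_al
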