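import Pool.Agent.Lib.MP_1ae3da_al.Singer
import Pool.Agent.Lib.MP_1ae3da_al.Teich
import Pool.Agent.Lib.MP_1ae3da_al.Borel

/-! The case of `GL_m(F_p)`. -/

namespace Pool.Agent.Lib.MP_1ae3da_al

open Matrix Module

lemma orth {C R : Type} [CommGroup C] [Fintype C] [CommRing R] [IsDomain R] (θ : C →* R)
    (hθ : Function.Injective θ) (α β : C →* C) [Decidable (α = β)] :
    ∑ x, θ (α x) * θ (β x⁻¹) = if α = β then (Fintype.card C : R) else 0 := by
  classical
  have := sum_hom_units (θ.comp (α / β))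
  simp only [MonoidHom.comp_apply, MonoidHom.div_apply, div_eq_mul_inv, map_mul] at this
  simp only [map_inv]
  simp only [MonoidHom.mul_apply, MonoidHom.inv_apply, map_mul] at this
  rw [this]
  split_ifs with h1 h2 h2
  · simp
  · exfalso
    apply h2
    ext x
    have := DFunLike.congr_fun h1 x
    simp only [MonoidHom.comp_apply, MonoidHom.mul_apply, MonoidHom.inv_apply,
      MonoidHom.one_apply] at this
    rw [← map_one θ] at this
    exact mul_inv_eq_one.mp (hθ this)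
  · exfalso
    apply h1
    ext x
    simp [h2]
  · simp

variable {p : ℕ} [Fact p.Prime] {E : Type} [Field E] [Finite E] [Algebra (ZMod p) E]

omit [Finite E] in
lemma act_eq_id {γ : E ≃ₐ[ZMod p] E} (h : ∀ x, act γ x = x) : γ = 1 := by
  ext y
  by_cases hy : y = 0
  · simp [hy]
  · exact congrArg Units.val (h (Units.mk0 y hy))

lemma act_frob (e : ℕ) (x : Eˣ) :
    act (FiniteField.frobeniusAlgEquivOfAlgebraic (ZMod p) E ^ e) x = x ^ p ^ e := by
  ext
  rw [act_val, AlgEquiv.coe_pow, FiniteField.coe_frobeniusAlgEquivOfAlgebraic_iterate, ZMod.card]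
  simp

lemma exists_frob (γ : E ≃ₐ[ZMod p] E) : ∃ e : ℕ, ∀ x, act γ x = x ^ p ^ e := by
  obtain ⟨e, rfl⟩ := (FiniteField.bijective_frobeniusAlgEquivOfAlgebraic_pow (ZMod p) E).2 γ
  exact ⟨e, act_frob e⟩

section sums
variable [Fintype Eˣ] [Fintype (E ≃ₐ[ZMod p] E)] {R : Type} [CommRing R] [IsDomain R]
  (θ : Eˣ →* R) (hθ : Function.Injective θ) (κ : Eˣ →* Eˣ) (hκ : Function.Injective κ)
  (hc : ∀ (γ : E ≃ₐ[ZMod p] E) x, κ (act γ x) = act γ (κ x))
  (hb : ¬ ∃ γ : E ≃ₐ[ZMod p] E, ∀ x, κ x = act γ x)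

omit [Finite E]
include hθ in
lemma sum11 : ∑ γ : E ≃ₐ[ZMod p] E, ∑ x, θ (act γ x) * θ x⁻¹ = Fintype.card Eˣ := by
  classical
  rw [Finset.sum_eq_single 1]
  · have := orth θ hθ (MonoidHom.id _) (MonoidHom.id _)
    rw [if_pos rfl] at this
    exact this
  · intro γ _ hγ
    have := orth θ hθ (act γ) (MonoidHom.id _)
    rw [if_neg (fun h => hγ (act_eq_id fun x => DFunLike.congr_fun h x))] at this
    exact this
  · simp

include hθ hb in
lemma sum1k : ∑ γ : E ≃ₐ[ZMod p] E, ∑ x, θ (act γ x) * θ (κ x⁻¹) = 0 := by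
  classical
  refine Finset.sum_eq_zero fun γ _ => ?_
  have := orth θ hθ (act γ) κ
  rwa [if_neg (fun h => hb ⟨γ, fun x => (DFunLike.congr_fun h x).symm⟩)] at this

include hθ hb in
lemma sumk1 : ∑ γ : E ≃ₐ[ZMod p] E, ∑ x, θ (κ (act γ x)) * θ x⁻¹ = 0 := by
  classical
  refine Finset.sum_eq_zero fun γ _ => ?_
  have := orth θ hθ (κ.comp (act γ)) (MonoidHom.id _)
  rw [if_neg] at this
  · exact this
  · intro h
    refine hb ⟨γ⁻¹, fun x => ?_⟩
    have := DFunLike.congr_fun h (act γ⁻¹ x)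
    rwa [MonoidHom.comp_apply, ← act_mul, mul_inv_cancel, act_one] at this

end sums

variable {K : Type} [Field K] [CharZero K] [IsAlgClosed K] {m : ℕ}

lemma gauss_scalar {n : ℕ} (ρ : Representation K (GL (Fin m) (ZMod p)) (Fin n → K))
    (hρ : ρ.IsIrreducible) (ψ : AddChar (ZMod p) K) :
    ∃ γ : K, (∀ v, Phi ρ ψ v = γ • v) ∧ ∑ g, ρ.character g * ψ (tr g) = γ * n := by
  obtain ⟨γ, hγ⟩ := schur ρ hρ (Phi ρ ψ) (Phi_comm ρ ψ)
  refine ⟨γ, hγ, ?_⟩
  have h1 : Phi ρ ψ = γ • LinearMap.id := LinearMap.ext hγ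
  have h2 := congrArg (LinearMap.trace K _) h1
  rw [map_smul, LinearMap.trace_id, Phi, map_sum] at h2
  simp only [map_smul, smul_eq_mul, finrank_fintype_fun_eq_card, Fintype.card_fin] at h2
  rw [← h2]
  exact Finset.sum_congr rfl fun g _ => mul_comm _ _

theorem gl_case (σ : K ≃+* K) (hm : 2 ≤ m)
    (hmin : ∀ d, 0 < d → d < m → ∃ e : ℕ, ∀ ξ : K, ξ ^ (p ^ d - 1) = 1 → σ ξ = ξ ^ p ^ e)
    (hfail : ¬ ∃ e : ℕ, ∀ ξ : K, ξ ^ (p ^ m - 1) = 1 → σ ξ = ξ ^ p ^ e) :
    (∀ (n : ℕ) (χ : Bor m (ZMod p) → K), IsIrr n χ → ¬ p ∣ n → σ ∘ χ = χ) ∧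
    ∃ (n : ℕ) (χ : GL (Fin m) (ZMod p) → K), IsIrr n χ ∧ ¬ p ∣ n ∧ σ ∘ χ ≠ χ := by
  classical
  have hp : p.Prime := Fact.out
  let E := GaloisField p m
  have hE : finrank (ZMod p) E = m := GaloisField.finrank p (by omega)
  let b : Basis (Fin m) (ZMod p) E := Module.finBasisOfFinrankEq (ZMod p) E hE
  haveI : Fintype Eˣ := Fintype.ofFinite _
  have hcard : Fintype.card Eˣ = p ^ m - 1 := by
    rw [Fintype.card_eq_nat_card, Nat.card_units, GaloisField.card p m (by omega)]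
  obtain ⟨k₀, _, r, j, θ₀, hθ₀⟩ := exists_teich K p E
  let θ : Eˣ →* K := ((integralClosure ℤ K).val : _ →* K).comp θ₀
  have hθv : ∀ x, θ x = (θ₀ x : K) := fun _ => rfl
  let J : Eˣ →* k₀ := (j : E →* k₀).comp (Units.coeHom E)
  have hJ : Function.Injective J := j.injective.comp Units.val_injective
  have hrθ : ∀ x, r (θ₀ x) = J x⁻¹ := fun x => by
    rw [map_inv]; exact eq_inv_of_mul_eq_one_left (hθ₀ x)
  have hθ : Function.Injective θ := by
    intro x y h
    have : θ₀ x = θ₀ y := Subtype.ext h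
    have h2 := hrθ x
    rw [this, hrθ] at h2
    exact (inv_injective (hJ h2)).symm
  let N := p * (Fintype.card Eˣ * Nat.card (GL (Fin m) (ZMod p)))
  have hN : 0 < N := Nat.mul_pos hp.pos (Nat.mul_pos Fintype.card_pos Nat.card_pos)
  obtain ⟨k, hk, hσ⟩ := exists_exponent σ N hN
  let κ : Eˣ →* Eˣ := powMonoidHom k
  have hκv : ∀ x, κ x = x ^ k := fun _ => rfl
  have hκb : Function.Bijective κ := by
    apply Nat.Coprime.pow_left_bijective
    rw [← Fintype.card_eq_nat_card]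
    exact (hk.coprime_mul_left_right.coprime_mul_right_right).symm
  have hσθ : ∀ x, σ (θ x) = θ (κ x) := by
    intro x
    rw [hκv, map_pow, hσ]
    rw [← map_pow, show N = Fintype.card Eˣ * (p * Nat.card (GL (Fin m) (ZMod p))) by
      simp only [N]; ring, pow_mul, pow_card_eq_one, one_pow, map_one]
  have hcomm : ∀ (γ : E ≃ₐ[ZMod p] E) x, κ (act γ x) = act γ (κ x) := fun γ x =>
    (map_pow (act γ) x k).symm
  have hsmall : ∀ x : Eˣ, Small p m x → ∃ γ : E ≃ₐ[ZMod p] E, κ x = act γ x := by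
    rintro x ⟨d, hd, hdm, hx⟩
    obtain ⟨e, he⟩ := hmin d hd hdm
    refine ⟨_, (hθ ?_).trans (act_frob e x).symm⟩
    rw [← hσθ, map_pow, he]
    have h1 : x ^ p ^ d = x := Units.ext hx
    have h2 : x ^ (p ^ d - 1) = 1 := by
      have h3 : 1 ≤ p ^ d := Nat.one_le_pow _ _ hp.pos
      apply mul_right_cancel (b := x)
      rw [← pow_succ, Nat.sub_add_cancel h3, h1, one_mul]
    rw [← map_pow, h2, map_one]
  have hbig : ¬ ∃ γ : E ≃ₐ[ZMod p] E, ∀ x, κ x = act γ x := by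
    rintro ⟨γ, hγ⟩
    obtain ⟨e, he⟩ := exists_frob γ
    apply hfail
    refine ⟨e, fun ξ hξ => ?_⟩
    obtain ⟨g, hg⟩ := IsCyclic.exists_ofOrder_eq_natCard (α := Eˣ)
    have h1 : IsPrimitiveRoot (θ g) (p ^ m - 1) := by
      rw [← hcard, Fintype.card_eq_nat_card, ← hg]
      exact (IsPrimitiveRoot.orderOf g).map_of_injective hθ
    haveI : NeZero (p ^ m - 1) := ⟨by rw [← hcard]; exact Fintype.card_ne_zero⟩
    obtain ⟨i, -, rfl⟩ := h1.eq_pow_of_pow_eq_one hξ
    rw [← map_pow, hσθ, hγ, he, map_pow]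
  have hGpow : ∀ g : GL (Fin m) (ZMod p), g ^ N = 1 := fun g => by
    rw [show N = Nat.card (GL (Fin m) (ZMod p)) * (p * Fintype.card Eˣ) by simp only [N]; ring,
      pow_mul, pow_card_eq_one', one_pow]
  constructor
  · rintro n χ ⟨ρ, hρ, rfl⟩ hn
    funext g
    rw [Function.comp_apply, sigma_char ρ N hN g (Subtype.ext (hGpow g)) σ k hσ]
    apply borel_pow ρ hρ (by simpa using hn) k
    · rw [Ne, ZMod.natCast_eq_zero_iff]
      exact (hp.coprime_iff_not_dvd).mp hk.coprime_mul_right_right.symm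
    · intro t ht
      have h0 : algebraMap (ZMod p) E t ≠ 0 := by simpa using ht
      obtain ⟨γ, hγ⟩ := hsmall (Units.mk0 _ h0)
        ⟨1, one_pos, hm, by simp [← map_pow, ZMod.pow_card]⟩
      have := congrArg Units.val hγ
      rw [act_val, hκv] at this
      simp only [Units.val_pow_eq_pow_val, Units.val_mk0, AlgEquiv.commutes, ← map_pow] at this
      exact (algebraMap (ZMod p) E).injective this
  let τ : Eˣ → K := ⇑θ - ⇑(θ.comp κ)
  have hτv : ∀ x, τ x = θ x - θ (κ x) := fun _ => rfl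
  have hτ : ∀ x, Small p m x → ∑ γ : E ≃ₐ[ZMod p] E, τ (act γ x) = 0 := by
    intro x hx
    obtain ⟨γ₀, h0⟩ := hsmall x hx
    simp only [hτv, Finset.sum_sub_distrib, hcomm, h0, ← act_mul]
    rw [Fintype.sum_equiv (Equiv.mulRight γ₀) (fun γ => θ (act (γ * γ₀) x))
      (fun γ => θ (act γ x)) (fun _ => rfl), sub_self]
  obtain ⟨W, ρ, hρ⟩ := exists_rep_ind (sing b) θ
  obtain ⟨W', ρ', hρ'⟩ := exists_rep_ind (sing b) (θ.comp κ)
  have hδ : ρ.character - ρ'.character = ind (sing b) τ := by rw [hρ, hρ', ind_sub]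
  have hclass : ∀ g y, ind (sing b) τ (y * g * y⁻¹) = ind (sing b) τ g := by
    intro g y
    rw [← hδ]; simp
  have hcE : (Fintype.card Eˣ : K) ≠ 0 := Nat.cast_ne_zero.mpr Fintype.card_ne_zero
  have hcG : (Fintype.card (GL (Fin m) (ZMod p)) : K) ≠ 0 :=
    Nat.cast_ne_zero.mpr Fintype.card_ne_zero
  have hθκ : Function.Injective (θ.comp κ) := hθ.comp hκb.1
  have s11 := sum11 (p := p) θ hθ
  have s1k := sum1k θ hθ κ hbig
  have sk1 := sumk1 θ hθ κ hbig
  have skk := sum11 (p := p) (θ.comp κ) hθκ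
  have skkk := sumk1 (θ.comp κ) hθκ κ hbig
  simp only [MonoidHom.comp_apply] at skk skkk
  let o : Fin m := ⟨0, by omega⟩
  have ho : (o : ℕ) = 0 := rfl
  have hnorm : ip (ind (sing b) τ) (ind (sing b) τ) = 2 := by
    unfold ip
    rw [ind_recip (sing b) τ (fun g => ind (sing b) τ g⁻¹) (fun g y => by
      rw [← hclass g⁻¹ y]; congr 1; group), ← Fintype.card_eq_nat_card, ← mul_assoc, ← mul_assoc,
      inv_mul_cancel₀ hcG, one_mul]
    simp only [← map_inv, ind_sing b τ hτ]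
    rw [← Equiv.sum_comp (Equiv.inv Eˣ)]
    simp only [Equiv.inv_apply, inv_inv, Finset.mul_sum, hτv]
    rw [Finset.sum_comm]
    simp only [← Finset.mul_sum]
    rw [inv_mul_eq_iff_eq_mul₀ hcE]
    have : ∀ (γ : E ≃ₐ[ZMod p] E) (x : Eˣ),
        (θ x⁻¹ - θ (κ x⁻¹)) * (θ (act γ x) - θ (κ (act γ x)))
        = θ (act γ x) * θ x⁻¹ - θ (act γ x) * θ (κ x⁻¹) - θ (κ (act γ x)) * θ x⁻¹
          + θ (κ (act γ x)) * θ (κ x⁻¹) := fun _ _ => by ring
    simp only [this, Finset.sum_add_distrib, Finset.sum_sub_distrib]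
    rw [s11, s1k, sk1, skk]
    ring
  have hpar : ∀ g, Par o g → ind (sing b) τ g = 0 := fun g hg => ind_par b τ hτ hm hg
  obtain ⟨n, χ₁, χ₂, h1, h2, hχ⟩ := norm_two ρ ρ' (by rw [hδ, hnorm]) (by
    have := hpar 1 (fun j hj => by simp [Matrix.one_apply_ne hj])
    rwa [← hδ] at this)
  rw [hδ] at hχ
  have hmoved : ¬ (σ ∘ χ₁ = χ₁ ∧ σ ∘ χ₂ = χ₂) := by
    rintro ⟨e1, e2⟩
    have e3 : ∀ x : Eˣ, ∑ γ : E ≃ₐ[ZMod p] E, (θ (κ (act γ x)) - θ (κ (κ (act γ x))))
        = ∑ γ : E ≃ₐ[ZMod p] E, (θ (act γ x) - θ (κ (act γ x))) := by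
      intro x
      have h3 := ind_sing b τ hτ x
      have h4 : σ (ind (sing b) τ (sing b x)) = ind (sing b) τ (sing b x) := by
        rw [hχ, Pi.sub_apply, map_sub]
        exact congrArg₂ _ (congrFun e1 _) (congrFun e2 _)
      rw [h3, map_sum] at h4
      simpa only [hτv, map_sub, hσθ] using h4
    have e4 := congrArg (fun f : Eˣ → K => ∑ x, f x * θ (κ x⁻¹)) (funext e3)
    simp only [Finset.sum_mul, sub_mul, Finset.sum_sub_distrib] at e4
    rw [Finset.sum_comm, skk, Finset.sum_comm, skkk, Finset.sum_comm, s1k] at e4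
    apply hcE
    linear_combination (1 / 2 : K) * e4
  have hdeg : ¬ p ∣ n := by
    haveI : NeZero (p : K) := ⟨by exact_mod_cast hp.ne_zero⟩
    obtain ⟨ζ, hζ⟩ := HasEnoughRootsOfUnity.exists_primitiveRoot K p
    let ψ : AddChar (ZMod p) K := AddChar.zmodChar p hζ.pow_eq_one
    have hψζ : ∀ i : ℕ, ψ i = ζ ^ i := AddChar.zmodChar_apply' _
    have hψ : ∀ t, ψ t = 1 → t = 0 := fun t ht =>
      ((AddChar.zmodChar_primitive_of_primitive_root p hζ).zmod_char_eq_one_iff p t).mp ht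
    have hn0 := h1.pos
    obtain ⟨ρ₁, hρ₁, rfl⟩ := h1
    obtain ⟨ρ₂, hρ₂, rfl⟩ := h2
    obtain ⟨γ₁, g1, g1'⟩ := gauss_scalar ρ₁ hρ₁ ψ
    obtain ⟨γ₂, g2, g2'⟩ := gauss_scalar ρ₂ hρ₂ ψ
    let z : integralClosure ℤ K := ⟨ζ, hζ.isIntegral hp.pos⟩
    let s : ZMod p → integralClosure ℤ K := fun t => ∑ i ∈ Finset.range t.val, z ^ i
    have hs : ∀ t, ψ t - 1 = (ζ - 1) * (s t : K) := by
      intro t
      simp only [s, AddSubmonoidClass.coe_finsetSum, SubmonoidClass.coe_pow, z]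
      rw [mul_geom_sum, ← hψζ, ZMod.natCast_zmod_val]
    let D : integralClosure ℤ K := ∑ x, (θ₀ x - θ₀ (κ x)) * s (Algebra.trace (ZMod p) E x)
    have hpk : (p : k₀) = 0 := by
      rw [← map_natCast j, ← map_natCast (algebraMap (ZMod p) E)]; simp
    haveI : CharP k₀ p := (CharP.charP_iff_prime_eq_zero hp).mpr hpk
    have hrz : r z = 1 := by
      have : (r z - 1) ^ p = 0 := by
        rw [sub_pow_char, ← map_pow, one_pow, show z ^ p = 1 from Subtype.ext hζ.pow_eq_one,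
          map_one, sub_self]
      exact sub_eq_zero.mp (pow_eq_zero_iff hp.ne_zero |>.mp this)
    have hrs : ∀ x : Eˣ, r (s (Algebra.trace (ZMod p) E x)) = ∑ γ : E ≃ₐ[ZMod p] E, J (act γ x) := by
      intro x
      simp only [s, map_sum, map_pow, hrz, one_pow, Finset.sum_const, Finset.card_range,
        nsmul_eq_mul, mul_one]
      rw [← map_natCast j, ← map_natCast (algebraMap (ZMod p) E), ZMod.natCast_zmod_val,
        trace_eq_sum_automorphisms, map_sum]
      rfl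
    have hrD : r D = -1 := by
      simp only [D, map_sum, map_mul, map_sub, hrθ, hrs, Finset.mul_sum, sub_mul,
        Finset.sum_sub_distrib]
      rw [Finset.sum_comm, Finset.sum_comm (f := fun x γ => J (κ x)⁻¹ * J (act γ x))]
      have t1 := sum11 (p := p) J hJ
      have t2 := sum1k J hJ κ hbig
      simp only [mul_comm (J (act _ _)), map_inv κ] at t1 t2
      rw [t1, t2, sub_zero, ← map_natCast j, card_units_cast, map_neg, map_one]
    have hsum0 : ∑ x, τ x = 0 := by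
      simp only [hτv, Finset.sum_sub_distrib]
      rw [hκb.sum_comp θ, sub_self]
    have hG : (γ₁ - γ₂) * n * Fintype.card Eˣ
        = Fintype.card (GL (Fin m) (ZMod p)) * ((ζ - 1) * D) := by
      have e1 := ind_recip (sing b) τ (fun g => ψ (tr g)) (fun g y => by
        simp only [tr, Units.val_mul, Matrix.trace_units_conj])
      have e2 : ∑ x, τ x * ψ (tr (sing b x)) = (ζ - 1) * D := by
        have : ∀ x, τ x * ψ (tr (sing b x))
            = τ x + (ζ - 1) * ((θ₀ x - θ₀ (κ x)) * s (Algebra.trace (ZMod p) E x) :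
              integralClosure ℤ K) := by
          intro x
          have := hs (Algebra.trace (ZMod p) E x)
          rw [tr, sing_val, ← Algebra.trace_eq_matrix_trace]
          push_cast
          rw [← hθv, ← hθv, ← hτv]
          linear_combination (τ x) * this
        simp only [this, Finset.sum_add_distrib, hsum0, zero_add, D,
          AddSubmonoidClass.coe_finsetSum, Finset.mul_sum]
      rw [e2, hχ] at e1
      simp only [Pi.sub_apply, sub_mul, Finset.sum_sub_distrib, g1', g2'] at e1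
      rw [sub_mul, e1]
      field_simp
    have hζ1 : ζ - 1 ≠ 0 := sub_ne_zero.mpr (hζ.ne_one hp.one_lt)
    rcases stepA ρ₁ ρ₂ ψ hψ ho γ₁ γ₂ g1 g2 (fun g hg => by
      have := hpar g hg
      rw [hχ] at this
      exact sub_eq_zero.mp this) with h | ⟨f1, f2⟩
    · exfalso
      rw [h, sub_self, zero_mul, zero_mul, eq_comm, mul_eq_zero, mul_eq_zero] at hG
      have : D = 0 := Subtype.ext ((hG.resolve_left hcG).resolve_left hζ1)
      rw [this, map_zero] at hrD
      simp at hrD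
    · haveI := nontrivial_of_irr ρ₁ hρ₁
      obtain ⟨κ₁, i1, e1⟩ := stepB ρ₁ ζ ψ hψ hψζ ho γ₁ g1 f1
      obtain ⟨κ₂, i2, e2⟩ := stepB ρ₂ ζ ψ hψ hψζ ho γ₂ g2 f2
      have hU : (Nat.card (Uni m (ZMod p)) : K) ≠ 0 := Nat.cast_ne_zero.mpr Nat.card_pos.ne'
      rw [Fintype.card_eq_nat_card (α := GL (Fin m) (ZMod p)),
        ← (Uni m (ZMod p)).card_mul_index, e1, e2] at hG
      have e3 : ((⟨κ₁, i1⟩ - ⟨κ₂, i2⟩ : integralClosure ℤ K) * n * Fintype.card Eˣ)
          = (Uni m (ZMod p)).index * D := by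
        apply Subtype.ext
        push_cast at hG ⊢
        apply mul_left_cancel₀ (mul_ne_zero hU hζ1)
        linear_combination hG
      intro hpn
      have e4 := congrArg r e3
      rw [map_mul, map_mul, map_mul, hrD, map_natCast, map_natCast, map_natCast,
        (CharP.cast_eq_zero_iff k₀ p n).mpr hpn] at e4
      apply index_Uni (m := m) p
      rw [← CharP.cast_eq_zero_iff k₀ p]
      linear_combination e4
  by_cases e1 : σ ∘ χ₁ = χ₁
  · exact ⟨n, χ₂, h2, hdeg, fun e2 => hmoved ⟨e1, e2⟩⟩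
  · exact ⟨n, χ₁, h1, hdeg, e1⟩

end Pool.Agent.Lib.MP_1ae3da_al
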