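import Pool.Agent.Lib.MP_1ae3da_al.GT

/-! Coordinates on the normaliser of the Sylow subgroup. -/

namespace Pool.Agent.Lib.MP_1ae3da_al.GM

open Equiv

namespace Lcm

lemma odd_kill {G : Type} [Group G] {p : ℕ} (hp : p.Prime) (h2 : p ≠ 2) {u : G} (hu : u * u = 1)
    {k : ℕ} (hk : u ^ p ^ k = 1) : u = 1 := by
  obtain ⟨m, hm⟩ : Odd (p ^ k) := (hp.odd_of_ne_two h2).pow
  rwa [hm, pow_succ, pow_mul, pow_two, hu, one_pow, one_mul] at hk

lemma pg_pow {G : Type} [Group G] {p : ℕ} {R : Subgroup G} (h : IsPGroup p R) {r : G}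
    (hr : r ∈ R) : ∃ k, r ^ p ^ k = 1 := by
  obtain ⟨k, hk⟩ := h ⟨r, hr⟩
  exact ⟨k, by simpa using congrArg Subtype.val hk⟩

section cover
variable {Ω : Type} [Fintype Ω] [DecidableEq Ω] {X : Type} [Group X] (C : Cover Ω X)

lemma z_comm (e : ℕ) (g : X) : C.z ^ e * g = g * C.z ^ e :=
  (Commute.pow_left (show Commute C.z g from C.toSg.zc g) e).eq

lemma z_sq (e : ℕ) : C.z ^ e * C.z ^ e = 1 := by
  rw [← mul_pow_self, show C.z * C.z = 1 from C.toSg.zz, one_pow]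
where mul_pow_self : (C.z * C.z) ^ e = C.z ^ e * C.z ^ e := (Commute.refl C.z).mul_pow e

/-- a `p`-element over the image of `R` lies in `R`. -/
lemma mem_of {p : ℕ} (hp : p.Prime) (h2 : p ≠ 2) (hcb : CbC C) {R : Subgroup X}
    (hR : IsPGroup p R) {a : X} (ha : C.π a ∈ R.map C.π) {k : ℕ} (hk : a ^ p ^ k = 1) :
    a ∈ R := by
  obtain ⟨r, hr, e⟩ := ha
  obtain ⟨j, hj⟩ := hcb.lift r a e
  obtain ⟨m, hm⟩ := pg_pow hR hr
  have h1 : a ^ p ^ (k + m) = 1 := by rw [pow_add, pow_mul, hk, one_pow]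
  have h3 : r ^ p ^ (k + m) = 1 := by rw [pow_add, mul_comm, pow_mul, hm, one_pow]
  rw [hj, (show Commute (C.z ^ j) r from z_comm C j r).mul_pow, h3, mul_one] at h1
  rw [hj, odd_kill hp h2 (z_sq C j) h1, one_mul]
  exact hr

end cover

section model
variable {p k0 : ℕ} [Fact p.Prime] {B : Type} [Fintype B] [DecidableEq B] {lv : B → Fin k0}

lemma uniq (hA : SylA p k0 lv) {q q' : Perm (Om p k0 lv)} {l l' : Lg p k0 lv}
    (hq : q ∈ Qs p k0 lv) (hq' : q' ∈ Qs p k0 lv) (h : q * Lg.tp l = q' * Lg.tp l') :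
    q = q' ∧ l = l' := by
  have e : Lg.tp (l' * l⁻¹) = q'⁻¹ * q := by
    rw [map_mul, map_inv, eq_inv_mul_iff_mul_eq, ← mul_assoc, ← h, mul_inv_cancel_right]
  have := hA.tp_mem _ (e ▸ (Qs p k0 lv).mul_mem ((Qs p k0 lv).inv_mem hq') hq)
  have h1 : l = l' := (mul_inv_eq_one.1 this).symm
  subst h1
  exact ⟨mul_right_cancel h, rfl⟩

lemma ph_one (hA : SylA p k0 lv) : ph (1 : Perm (Om p k0 lv)) = 0 := by
  have := hA.ph_mul 1 (Subgroup.one_mem _) 1 (Subgroup.one_mem _)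
  rw [mul_one] at this
  exact left_eq_add.1 this

lemma sign_Q (hA : SylA p k0 lv) (h2 : p ≠ 2) {q : Perm (Om p k0 lv)} (hq : q ∈ Qs p k0 lv) :
    Perm.sign q = 1 := by
  obtain ⟨k, hk⟩ := pg_pow hA.pg hq
  refine odd_kill Fact.out h2 (Int.units_mul_self _) (k := k) ?_
  rw [← map_pow, hk, map_one]

/-- the coordinates of a homomorphism into the normaliser. -/
lemma coords (hA : SylA p k0 lv) {N : Type} [Group N] (P : N →* Perm (Om p k0 lv))
    (hP : ∀ x, ∃ q ∈ Qs p k0 lv, ∃ l : Lg p k0 lv, P x = q * Lg.tp l) :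
    ∃ (lg : N →* Lg p k0 lv) (vc : N → B → Fin k0 → ZMod p),
      (∀ x, ∃ q ∈ Qs p k0 lv, P x = q * Lg.tp (lg x) ∧ vc x = ph q) ∧
      ∀ x y, vc (x * y) = vc x + (lg x).act (vc y) := by
  choose q hq l hl using hP
  have key : ∀ x y, q (x * y) = q x * (Lg.tp (l x) * q y * (Lg.tp (l x))⁻¹) ∧
      l (x * y) = l x * l y := by
    intro x y
    refine uniq hA (hq _) (Subgroup.mul_mem _ (hq _) (hA.conj _ _ (hq _)).1) ?_
    rw [← hl, map_mul, hl, hl, map_mul]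
    group
  refine ⟨MonoidHom.mk' l fun x y => (key x y).2, fun x => ph (q x),
    fun x => ⟨q x, hq x, hl x, rfl⟩, fun x y => ?_⟩
  change ph (q (x * y)) = ph (q x) + (l x).act (ph (q y))
  rw [(key x y).1, hA.ph_mul _ (hq _) _ (hA.conj _ _ (hq _)).1, (hA.conj _ _ (hq _)).2]

end model

end Lcm

open scoped commutatorElement in
open Lcm in
theorem lcm (hsA : SylASt) (hsC : SylCSt) (hsD : SylDSt) (hcb : CbSt) : LcmSt := by
  intro p k0 _ B _ _ lv X N _ _ _ C R Δ j h2 hL hR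
  have hp : p.Prime := Fact.out
  have hA := hsA p k0 B lv
  have hC := hcb _ X C
  have hnj : ∀ y, j y ∈ Subgroup.normalizer (R : Set X) := fun y => (hL.rng _).2 ⟨y, rfl⟩
  obtain ⟨lg, vc, hd, hm⟩ := coords hA (C.π.comp j) fun x => hsD p k0 B lv _ (by
    rw [← hR]
    exact Subgroup.le_normalizer_map _ (Subgroup.mem_map_of_mem _ (hnj x)))
  simp only [MonoidHom.comp_apply] at hd
  have hv1 : vc 1 = 0 := by
    have := hm 1 1
    rw [mul_one, map_one, Lg.act_one] at this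
    exact left_eq_add.1 this
  have hvz : ∀ x, Vz lv (vc x) := fun x => by
    obtain ⟨q, hq, -, e⟩ := hd x
    exact e ▸ hA.ph_vz q hq
  have hQ : ∀ x, C.π (j x) ∈ Qs p k0 lv → lg x = 1 ∧ vc x = ph (C.π (j x)) := by
    intro x hx
    obtain ⟨q, hq, e1, e2⟩ := hd x
    obtain ⟨a, b⟩ := uniq hA hq hx (l := lg x) (l' := 1) (by rw [← e1, map_one, mul_one])
    exact ⟨b, by rw [e2, a]⟩
  have hRQ : ∀ r ∈ R.comap j, C.π (j r) ∈ Qs p k0 lv := fun r hr =>
    hR ▸ Subgroup.mem_map_of_mem _ hr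
  have hRj : ∀ a ∈ R, ∃ r ∈ R.comap j, j r = a := fun a ha => by
    obtain ⟨y, rfl⟩ := (hL.rng a).1 (Subgroup.le_normalizer ha)
    exact ⟨y, ha, rfl⟩
  have hQj : ∀ q ∈ Qs p k0 lv, ∃ r ∈ R.comap j, C.π (j r) = q := fun q hq => by
    rw [← hR] at hq
    obtain ⟨a, ha, rfl⟩ := hq
    obtain ⟨r, hr, rfl⟩ := hRj a ha
    exact ⟨r, hr, rfl⟩
  let Kk : Subgroup N :=
    { carrier := {x | lg x = 1 ∧ vc x = 0}
      one_mem' := ⟨map_one _, hv1⟩
      mul_mem' := by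
        rintro a b ⟨a1, a2⟩ ⟨b1, b2⟩
        exact ⟨by rw [map_mul, a1, b1, mul_one], by rw [hm, a2, b2, Lg.act_zero, add_zero]⟩
      inv_mem' := by
        rintro a ⟨a1, a2⟩
        refine ⟨by rw [map_inv, a1, inv_one], ?_⟩
        have := hm a a⁻¹
        rw [mul_inv_cancel, hv1, a1, a2, Lg.act_one, zero_add] at this
        exact this.symm }
  have hTK : ⁅R.comap j, R.comap j⁆ ≤ Kk := by
    rw [Subgroup.commutator_le]
    intro a ha b hb
    have hc := Subgroup.commutator_le_self _ (Subgroup.commutator_mem_commutator ha hb)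
    have l1 := (hQ _ (hRQ _ hc)).1
    refine ⟨l1, ?_⟩
    have e1 := (hm ⁅a, b⁆ (b * a)).symm.trans (congrArg vc (show ⁅a, b⁆ * (b * a) = a * b by
      rw [commutatorElement_def]; group))
    rw [l1, Lg.act_one, hm, hm, (hQ _ (hRQ _ ha)).1, (hQ _ (hRQ _ hb)).1, Lg.act_one,
      Lg.act_one, add_comm (vc b)] at e1
    exact add_eq_right.1 e1
  have hzK : Δ.z ∈ Kk := by
    have e : C.π (j Δ.z) = 1 := by rw [hL.z, C.πz]
    have := hQ Δ.z (e ▸ Subgroup.one_mem _)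
    rw [e, ph_one hA] at this
    exact this
  have hKT : ∀ k ∈ Kk, ∃ r ∈ ⁅R.comap j, R.comap j⁆, ∃ e : ℕ, k = r * Δ.z ^ e := by
    rintro k ⟨k1, k2⟩
    obtain ⟨q, hq, e1, e2⟩ := hd k
    rw [k1, map_one, mul_one] at e1
    have h1 := hsC p k0 B lv q hq (by rw [← e2, k2])
    have h3 : (R.comap j).map (C.π.comp j) = Qs p k0 lv :=
      le_antisymm (by rintro _ ⟨r, hr, rfl⟩; exact hRQ r hr) fun q hq => hQj q hq
    rw [← h3, ← Subgroup.map_commutator] at h1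
    obtain ⟨r, hr, e3⟩ := h1
    obtain ⟨e, he⟩ := hC.lift (j r) (j k) (by rw [e1]; exact e3)
    exact ⟨r, hr, e, hL.inj (by rw [he, map_mul, map_pow, hL.z, z_comm])⟩
  have hcj : ∀ h x, vc (h * x * h⁻¹) =
      (lg h).act (vc x) + vc h - (lg (h * x * h⁻¹)).act (vc h) := by
    intro h x
    have := hm (h * x * h⁻¹) h
    rw [inv_mul_cancel_right, hm h x] at this
    rw [add_comm, this, add_sub_cancel_right]
  have hsurj : ∀ l v, Vz lv v → ∃ x, lg x = l ∧ vc x = v := by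
    intro l v hv
    obtain ⟨q, hq, rfl⟩ := hA.ph_surj v hv
    obtain ⟨g, hg⟩ := C.surj (q * Lg.tp l)
    have aux : ∀ g : X, (∀ a ∈ Qs p k0 lv, C.π g * a * (C.π g)⁻¹ ∈ Qs p k0 lv) →
        ∀ r ∈ R, g * r * g⁻¹ ∈ R := by
      intro g h r hr
      obtain ⟨k, hk⟩ := pg_pow hL.pg hr
      refine mem_of C hp h2 hC hL.pg (k := k) ?_ (by rw [conj_pow, hk]; group)
      rw [hR, map_mul, map_mul, map_inv]
      exact h _ (hR ▸ Subgroup.mem_map_of_mem _ hr)
    have hn : g ∈ Subgroup.normalizer (R : Set X) := by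
      rw [Subgroup.mem_normalizer_iff]
      refine fun r => ⟨aux g (fun a ha => ?_) r, fun hr => ?_⟩
      · have := Subgroup.mul_mem _ (Subgroup.mul_mem _ hq (hA.conj l a ha).1)
          (Subgroup.inv_mem _ hq)
        rw [hg]
        convert this using 1
        group
      · have := aux g⁻¹ (fun a ha => by
          have := (hA.conj l⁻¹ _ (Subgroup.mul_mem _ (Subgroup.mul_mem _
            (Subgroup.inv_mem _ hq) ha) hq)).1
          rw [map_inv, hg]
          rw [map_inv] at this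
          convert this using 1
          group) _ hr
        convert this using 1
        group
    obtain ⟨x, rfl⟩ := (hL.rng g).1 hn
    obtain ⟨q', hq', e1, e2⟩ := hd x
    obtain ⟨a, b⟩ := uniq hA hq' hq (e1.symm.trans hg)
    exact ⟨x, b, by rw [e2, a]⟩
  refine ⟨lg, vc, hvz, hsurj, fun x => ?_, fun x s => ?_, ?_, ?_, ?_⟩
  · obtain ⟨q, hq, e1, -⟩ := hd x
    rw [hL.sg, e1, map_mul, sign_Q hA h2 hq, one_mul]
  · induction s with
    | zero => simp [hv1]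
    | succ s ih => rw [pow_succ, hm, ih, Finset.sum_range_succ, map_pow]
  · rintro x y r e h hr rfl
    obtain ⟨k1, k2⟩ := Kk.mul_mem (hTK hr) (Kk.pow_mem hzK e)
    have e1 : lg (r * Δ.z ^ e * (h * x * h⁻¹)) = lg (h * x * h⁻¹) := by
      rw [map_mul, k1, one_mul]
    refine ⟨by rw [e1, map_mul, map_mul, map_inv], vc h, hvz h, ?_⟩
    rw [e1, hm, k1, k2, Lg.act_one, zero_add, hcj]
  · rintro x y h ⟨e1, w, hw, e2⟩
    obtain ⟨h', rfl, rfl⟩ := hsurj h w hw
    have e3 : lg (h' * x * h'⁻¹) = lg y := by rw [← e1, map_mul, map_mul, map_inv]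
    have e4 : vc (h' * x * h'⁻¹) = vc y := by rw [hcj, e3, e2]
    have k1 : lg (y * (h' * x * h'⁻¹)⁻¹) = 1 := by rw [map_mul, map_inv, e3, mul_inv_cancel]
    have k2 : vc (y * (h' * x * h'⁻¹)⁻¹) = 0 := by
      have := hm (y * (h' * x * h'⁻¹)⁻¹) (h' * x * h'⁻¹)
      rw [inv_mul_cancel_right, k1, Lg.act_one, e4] at this
      exact right_eq_add.1 this
    obtain ⟨r, hr, e, he⟩ := hKT _ ⟨k1, k2⟩
    exact ⟨r, hr, e, h', rfl, by rw [← he, inv_mul_cancel_right]⟩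
  · intro x s r e h hr hx
    have : (R.comap j).Normal := ⟨fun a ha g => by
      rw [Subgroup.mem_comap, map_mul, map_mul, map_inv]
      exact (Subgroup.mem_normalizer_iff.1 (hnj g) _).1 ha⟩
    have aux : ∀ x, ∃ x0, C.π (j x0) = Lg.tp (lg x) ∧
        QuotientGroup.mk' (R.comap j) x0 = QuotientGroup.mk' (R.comap j) x := by
      intro x
      obtain ⟨q, hq, e1, -⟩ := hd x
      obtain ⟨a, ha, rfl⟩ := hQj q hq
      refine ⟨a⁻¹ * x, by rw [map_mul, map_mul, map_inv, map_inv, e1, inv_mul_cancel_left], ?_⟩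
      rw [map_mul, map_inv, (QuotientGroup.eq_one_iff a).2 ha |> fun t =>
        (show QuotientGroup.mk' (R.comap j) a = 1 from t), inv_one, one_mul]
    obtain ⟨x0, x1, x2⟩ := aux x
    obtain ⟨h0, h1, h3⟩ := aux h
    have hr1 : QuotientGroup.mk' (R.comap j) r = 1 :=
      (QuotientGroup.eq_one_iff r).2 (Subgroup.commutator_le_self _ hr)
    have hd1 : (Δ.z ^ e * (h0 * x0 * h0⁻¹))⁻¹ * x0 ^ s ∈ R.comap j := by
      rw [← QuotientGroup.eq_one_iff]
      change QuotientGroup.mk' (R.comap j) _ = 1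
      have := congrArg (QuotientGroup.mk' (R.comap j)) hx
      simp only [map_mul, map_pow, map_inv, hr1, one_mul] at this
      simp only [map_mul, map_pow, map_inv, x2, h3, this, inv_mul_cancel]
    have hd2 : C.π (j ((Δ.z ^ e * (h0 * x0 * h0⁻¹))⁻¹ * x0 ^ s)) =
        Lg.tp ((lg h * lg x * (lg h)⁻¹)⁻¹ * lg x ^ s) := by
      simp only [map_mul, map_pow, map_inv, x1, h1, hL.z, C.πz, one_pow, one_mul]
    have hd3 := hA.tp_mem _ (hd2 ▸ hRQ _ hd1)
    rw [hd3, map_one, C.ker] at hd2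
    have hd4 : j ((Δ.z ^ e * (h0 * x0 * h0⁻¹))⁻¹ * x0 ^ s) = 1 := by
      refine hd2.resolve_right fun hz => C.z_ne ?_
      obtain ⟨k, hk⟩ := pg_pow hL.pg (hz ▸ hd1 : C.z ∈ R)
      exact odd_kill hp h2 C.toSg.zz hk
    refine ⟨j x0, j h0, x1, h1, ?_⟩
    simp only [map_mul, map_pow, map_inv, hL.z] at hd4
    rw [← inv_mul_eq_one.1 hd4, ← mul_assoc, z_sq, one_mul]

end Pool.Agent.Lib.MP_1ae3da_al.GM
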