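import Pool.Agent.Lib.MP_1ae3da_al.GT

/-! Gluing level data into local data. -/

namespace Pool.Agent.Lib.MP_1ae3da_al.GM

namespace Mat1

open Finset

lemma glue {I T Sx P : Type} (lv : T → I) (st : I → T) (hst : ∀ k, lv (st k) = k) (Q : T → Prop)
    (hQ : ∀ k, ¬ Q (st k)) (U W : Multiset ℕ → Prop) (u : Sx ≃ {ρ // U ρ}) (v : P ≃ {ρ // W ρ}) :
    ∃ e : {m : T → Multiset ℕ // (∀ k, U (m (st k))) ∧ (∀ τ, Q τ → W (m τ)) ∧
        ∀ τ, τ ≠ st (lv τ) → ¬ Q τ → m τ = 0} ≃ (∀ k, Sx × ({τ // lv τ = k ∧ Q τ} → P)),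
      ∀ m k, (u (e m k).1).1 = m.1 (st k) ∧ ∀ s, (v ((e m k).2 s)).1 = m.1 s.1 := by
  classical
  refine ⟨Equiv.ofBijective (fun m k => (u.symm ⟨m.1 (st k), m.2.1 k⟩,
    fun s => v.symm ⟨m.1 s.1, m.2.2.1 _ s.2.2⟩)) ⟨fun m m' h => ?_, fun f => ?_⟩,
    fun m k => ⟨by simp, fun s => by simp⟩⟩
  · refine Subtype.ext (funext fun τ => ?_)
    have h1 := congrFun h (lv τ)
    by_cases a : τ = st (lv τ)
    · have := congrArg Subtype.val (u.symm.injective (congrArg Prod.fst h1))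
      rw [a]
      exact this
    by_cases b : Q τ
    · exact congrArg Subtype.val (v.symm.injective (congrFun (congrArg Prod.snd h1) ⟨τ, rfl, b⟩))
    · rw [m.2.2.2 τ a b, m'.2.2.2 τ a b]
  · let m : T → Multiset ℕ := fun τ => if τ = st (lv τ) then (u (f (lv τ)).1).1 else
      if h : Q τ then (v ((f (lv τ)).2 ⟨τ, rfl, h⟩)).1 else 0
    have m1 : ∀ k, m (st k) = (u (f k).1).1 := fun k => by
      have : ∀ k', k' = k → (f k').1 = (f k).1 := by rintro _ rfl; rfl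
      simp only [m]
      rw [if_pos (by rw [hst]), this _ (hst k)]
    have m2 : ∀ τ (h : Q τ), m τ = (v ((f (lv τ)).2 ⟨τ, rfl, h⟩)).1 := fun τ h => by
      simp only [m]
      rw [if_neg (fun a => hQ _ (a ▸ h)), dif_pos h]
    refine ⟨⟨m, fun k => m1 k ▸ (u _).2, fun τ h => m2 τ h ▸ (v _).2, fun τ a b => ?_⟩,
      funext fun k => Prod.ext ?_ (funext ?_)⟩
    · simp only [m]
      rw [if_neg a, dif_neg b]
    · exact u.symm_apply_eq.2 (Subtype.ext (m1 k))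
    · rintro ⟨τ, rfl, h⟩
      exact v.symm_apply_eq.2 (Subtype.ext (m2 τ h))

lemma card_le {ρ : Multiset ℕ} (h : 0 ∉ ρ) : ρ.card ≤ ρ.sum := by
  simpa using Multiset.card_nsmul_le_sum (s := ρ) (a := 1) fun x hx =>
    Nat.pos_of_ne_zero fun e => h (e ▸ hx)

variable {p k0 : ℕ} [Fact p.Prime]

lemma lam_card {a : Fin k0 → ℕ} {m : Ty p k0 → Multiset ℕ} (h : Val a m) :
    (Lam m).card ≤ ∑ k, a k * p ^ (k : ℕ) := by
  rw [Lam, Multiset.card_sum]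
  refine sum_le_sum fun k _ => ?_
  rw [Multiset.card_map]
  refine (card_le (h.1 _)).trans (le_trans ?_
    (Nat.le_mul_of_pos_right _ (pow_pos (Fact.out : p.Prime).pos _)))
  rw [← h.2.2 k]
  exact single_le_sum (f := fun τ => (m τ).sum) (fun _ _ => Nat.zero_le _) (by simp [Ty.star])

/-- the odd normalised types of level `k`. -/
abbrev Sl (p k0 : ℕ) [Fact p.Prime] (k : Fin k0) : Type :=
  {τ : Ty p k0 // τ.1 = k ∧ τ.nrm ∧ τ.par = -1}

noncomputable instance (k : Fin k0) : Fintype (Sl p k0 k) := Fintype.ofFinite _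

lemma sum_split (hs : ∀ k : Fin k0, (Ty.star p k).par = 1) (F : Ty p k0 → ℕ)
    (hF : ∀ τ, τ ≠ Ty.star p τ.1 → ¬ (τ.nrm ∧ τ.par = -1) → F τ = 0) (k : Fin k0) :
    ∑ τ : Ty p k0 with τ.1 = k, F τ = F (Ty.star p k) + ∑ s : Sl p k0 k, F s.1 := by
  classical
  rw [← sum_subtype (univ.filter fun τ : Ty p k0 => τ.1 = k ∧ τ.nrm ∧ τ.par = -1) (by simp) F,
    ← sum_insert (by simp [hs])]
  symm
  refine sum_subset (fun τ h => ?_) fun τ h1 h2 => ?_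
  · rcases mem_insert.1 h with rfl | h
    · simp [Ty.star]
    · simp [(mem_filter.1 h).2.1]
  · have h3 : τ.1 = k := (mem_filter.1 h1).2
    refine hF τ (fun h => h2 ?_) fun h => h2 ?_
    · rw [h, h3]
      exact mem_insert_self _ _
    · exact mem_insert_of_mem (mem_filter.2 ⟨mem_univ _, h3, h⟩)

lemma glue2 {Sx P : Type} (hs : ∀ k : Fin k0, (Ty.star p k).par = 1) (a : Fin k0 → ℕ)
    (U W : Multiset ℕ → Prop) (u : Sx ≃ {ρ // U ρ}) (v : P ≃ {ρ // W ρ}) (μ : ℕ) (szS : Sx → ℕ)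
    (szP : P → ℕ) (hu : ∀ x, (u x).1.sum = szS x) (hv : ∀ x, (v x).1.sum = μ * szP x)
    (G : (Ty p k0 → Multiset ℕ) → Prop)
    (hG : ∀ m : Ty p k0 → Multiset ℕ, ((∀ τ, 0 ∉ m τ) ∧ (∀ τ, ¬ τ.nrm → m τ = 0) ∧ G m) ↔
      (∀ k, U (m (Ty.star p k))) ∧ (∀ τ : Ty p k0, τ.nrm ∧ τ.par = -1 → W (m τ)) ∧
        ∀ τ, τ ≠ Ty.star p τ.1 → ¬ (τ.nrm ∧ τ.par = -1) → m τ = 0) :
    ∃ e : {f : ∀ k, Sx × (Sl p k0 k → P) // ∀ k, szS (f k).1 + μ * ∑ s, szP ((f k).2 s) = a k} ≃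
        {m : Ty p k0 → Multiset ℕ // Val a m ∧ G m},
      ∀ f, Lam (e f).1 = ∑ k : Fin k0, (u (f.1 k).1).1.map (p ^ (k : ℕ) * ·) := by
  obtain ⟨e, he⟩ := glue (fun τ : Ty p k0 => τ.1) (Ty.star p) (fun _ => rfl)
    (fun τ => τ.nrm ∧ τ.par = -1) (fun k h => by simpa [hs] using h.2) U W u v
  refine ⟨(e.symm.subtypeEquiv (q := fun m => ∀ k, ∑ τ : Ty p k0 with τ.1 = k, (m.1 τ).sum = a k)
    fun f => ?_).trans ((Equiv.subtypeSubtypeEquivSubtypeInter _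
      (fun m : Ty p k0 → Multiset ℕ => ∀ k, ∑ τ : Ty p k0 with τ.1 = k, (m τ).sum = a k)).trans
      (Equiv.subtypeEquivRight fun m => ?_)), fun f => ?_⟩
  · obtain ⟨m, rfl⟩ := e.surjective f
    rw [e.symm_apply_apply]
    refine forall_congr' fun k => ?_
    rw [sum_split hs (fun τ => (m.1 τ).sum) (fun τ h1 h2 => by rw [m.2.2.2 τ h1 h2]; rfl),
      ← (he m k).1, hu, mul_sum]
    simp only [← hv, (he m k).2]
  · rw [← hG, Val]
    tauto
  · change Lam (e.symm f.1).1 = _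
    refine sum_congr rfl fun k _ => ?_
    rw [← (he _ k).1, e.apply_symm_apply]

lemma c_succ (hp : p ≠ 2) (k : ℕ) : (p ^ (k + 1) - 1) / 2 = p * ((p ^ k - 1) / 2) + (p - 1) / 2 := by
  have ho := (Fact.out : p.Prime).odd_of_ne_two hp
  obtain ⟨x, hx⟩ := ho.pow (n := k)
  obtain ⟨y, hy⟩ := ho
  have h1 : (p ^ k - 1) / 2 = x := by omega
  have h2 : p ^ (k + 1) = 2 * (p * x + y) + 1 := by
    rw [pow_succ, hx]
    linear_combination hy
  rw [h1]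
  omega

lemma card_Sl (htc : TyCntSt) (hp : p ≠ 2) (k : Fin k0) :
    Fintype.card (Sl p k0 k) = (p ^ (k : ℕ) - 1) / 2 := by
  have := (htc p k0 k hp).2.1
  rw [← Nat.card_eq_fintype_card]
  change Nat.card {τ : Ty p k0 // τ.1 = k ∧ τ.nrm ∧ τ.par = -1} = _
  omega

lemma WP_o (p : ℕ) : WP p PT0.o.1 = 0 := by simp [WP, Hn, Vd, PT0.o]

lemma mem_PTp (hsh : ShSt) (n : ℕ) (w : Finset ℕ × Finset ℕ) : w ∈ PTp p n ↔
    w.1.card = w.2.card ∧ szN w = n ∧ WP p w = padicValNat p n.factorial := by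
  have h1 := (hsh.pos w).2.1
  have h2 := (hsh.pos w.swap).2.1
  rw [Prod.fst_swap] at h2
  rw [PTp, Set.mem_ofPred_eq, hsh.pt, padicValNat.mul n.factorial_ne_zero
    (mul_ne_zero h1.ne' h2.ne'), WP, and_assoc]
  refine and_congr_right fun _ => and_congr_right fun _ => ?_
  omega

end Mat1

end Pool.Agent.Lib.MP_1ae3da_al.GM
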