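import Pool.Agent.Lib.MP_1ae3da_al.GT

/-! Induction product and its adjoint when the first factor has type one. -/

namespace Pool.Agent.Lib.MP_1ae3da_al.GM

namespace PrP

section sd
variable {A H : Type} [Group A] [Group H] (ψ : H →* MulAut A)

lemma sum_sd [Fintype A] [Fintype H] [Fintype (A ⋊[ψ] H)] (f : A ⋊[ψ] H → K) :
    ∑ c, f c = ∑ x, ∑ h, f ⟨x, h⟩ := by
  rw [← Fintype.sum_prod_type' (fun x h => f ⟨x, h⟩)]
  exact Fintype.sum_equiv SemidirectProduct.equivProd _ _ fun _ => rfl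

lemma card_sd [Fintype A] [Fintype H] [Fintype (A ⋊[ψ] H)] :
    Fintype.card (A ⋊[ψ] H) = Fintype.card A * Fintype.card H := by
  rw [Fintype.card_congr SemidirectProduct.equivProd, Fintype.card_prod]

/-- averaging over the normal factor preserves virtual characters. -/
lemma avg_vc (hch : ChSt) [Fintype A] [Finite H] (τ : A ⋊[ψ] H → K) (hτ : τ ∈ VC (A ⋊[ψ] H)) :
    (fun h => (Fintype.card A : K)⁻¹ * ∑ x, τ ⟨x, h⟩) ∈ VC H := by
  classical
  let := Fintype.ofFinite H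
  let : Fintype (A ⋊[ψ] H) := Fintype.ofEquiv _ SemidirectProduct.equivProd.symm
  have hh := hch.h (A ⋊[ψ] H) H SemidirectProduct.rightHom
  have h1 := hh.ind_vc τ hτ
  convert h1 using 1
  funext h
  rw [hh.fib SemidirectProduct.rightHom_surjective τ ((hch.a _).cl τ hτ) h]
  have hk : Nat.card (SemidirectProduct.rightHom : A ⋊[ψ] H →* H).ker = Fintype.card A := by
    rw [← SemidirectProduct.range_inl_eq_ker_rightHom, ← Nat.card_eq_fintype_card]
    exact (Nat.card_congr (MonoidHom.ofInjective SemidirectProduct.inl_injective).toEquiv).symm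
  rw [hk, Finset.sum_filter, sum_sd]
  congr 1
  refine Finset.sum_congr rfl fun x _ => ?_
  simp [SemidirectProduct.rightHom_eq_right]

end sd

section core
variable {A H G : Type} [Group A] [Group H] [Group G] (SA : Sg A) (ν : H →* ℤˣ)

/-- the projection to the first factor. -/
def p1 : (A ⋊[SA.φ.comp ν] H) →* SA.TP where
  toFun c := ⟨c.left, ν c.right⟩
  map_one' := by ext <;> simp
  map_mul' c d := by ext <;> simp

/-- the product map. -/
def ph (a : A →* G) (b : H →* G)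
    (hab : ∀ h x, b h * a x = a (SA.zp (ν h) (SA.sg x) * x) * b h) :
    (A ⋊[SA.φ.comp ν] H) →* G where
  toFun c := a c.left * b c.right
  map_one' := by simp
  map_mul' c d := by
    simp only [SemidirectProduct.mul_left, SemidirectProduct.mul_right, MonoidHom.comp_apply,
      Sg.φ_apply]
    rw [map_mul a c.left, map_mul b, mul_assoc, mul_assoc, ← mul_assoc _ (b c.right),
      ← hab, mul_assoc]

lemma prod_core (hch : ChSt) [Fintype A] [Fintype H] [Fintype G] [DecidableEq G]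
    (a : A →* G) (b : H →* G) (hab : ∀ h x, b h * a x = a (SA.zp (ν h) (SA.sg x) * x) * b h)
    (Ψ : SA.TP → K) (hΨ : Ψ ∈ VC SA.TP) (χ : H → K) (hχ : χ ∈ VC H) :
    (fun g => ((Fintype.card A : K) * Fintype.card H)⁻¹ *
      ∑ x, ∑ h, Ψ ⟨x, ν h⟩ * χ h * nc g (a x * b h)) ∈ VC G := by
  classical
  let : Fintype (A ⋊[SA.φ.comp ν] H) := Fintype.ofEquiv _ SemidirectProduct.equivProd.symm
  have h1 := (hch.h _ _ (p1 SA ν)).comp Ψ hΨ
  have h2 := (hch.h (A ⋊[SA.φ.comp ν] H) H SemidirectProduct.rightHom).comp χ hχ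
  have h3 := (hch.h _ _ (ph SA ν a b hab)).ind_vc _ ((hch.b _).mul _ h1 _ h2)
  convert h3 using 1
  funext g
  rw [ind, sum_sd, card_sd, Nat.cast_mul]
  rfl

lemma perp_core (hch : ChSt) [Fintype A] [Finite H] [Finite G]
    (a : A →* G) (b : H →* G) (hab : ∀ h x, b h * a x = a (SA.zp (ν h) (SA.sg x) * x) * b h)
    (Ψ : SA.TP → K) (hΨ : Ψ ∈ VC SA.TP) (Φ : G → K) (hΦ : Φ ∈ VC G) :
    (fun h => (Fintype.card A : K)⁻¹ * ∑ x, Ψ (⟨x, ν h⟩ : SA.TP)⁻¹ * Φ (a x * b h)) ∈ VC H := by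
  classical
  let := Fintype.ofFinite H
  let := Fintype.ofFinite G
  let : Fintype (A ⋊[SA.φ.comp ν] H) := Fintype.ofEquiv _ SemidirectProduct.equivProd.symm
  have h1 := (hch.h _ _ (p1 SA ν)).comp _ ((hch.b _).inv Ψ hΨ)
  have h2 := (hch.h _ _ (ph SA ν a b hab)).comp Φ hΦ
  exact avg_vc (SA.φ.comp ν) hch _ ((hch.b _).mul _ h1 _ h2)

end core

section spin
variable {G : Type} [Group G] (Γ : Sg G)

lemma eq_zero_of_neg {a : K} (h : a = -a) : a = 0 := by
  have : (2 : K) * a = 0 := by linear_combination h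
  simpa using this

/-- a spin class function on `TP` vanishes over odd elements. -/
lemma odd_zero (Ψ : Γ.TP → K) (hc : Cl Ψ) (hs : ∀ x u, Ψ ⟨Γ.z * x, u⟩ = -Ψ ⟨x, u⟩) (x : G)
    (hx : Γ.sg x = -1) (u : ℤˣ) : Ψ ⟨x, u⟩ = 0 := by
  apply eq_zero_of_neg
  rw [← hs]
  rcases Int.units_eq_one_or u with rfl | rfl
  · rw [← hc ⟨x, 1⟩ ⟨1, -1⟩]
    congr 1
    rw [mul_inv_eq_iff_eq_mul]
    ext <;> simp [hx]
  · rw [← hc ⟨x, -1⟩ ⟨x, 1⟩]
    congr 1
    rw [mul_inv_eq_iff_eq_mul]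
    ext
    · simp only [SemidirectProduct.mul_left, Sg.φ_apply, hx, Sg.one_zp, Sg.zp_neg, one_mul]
      rw [← mul_assoc, mul_assoc Γ.z, ← Γ.zc x, ← mul_assoc Γ.z, Γ.zz, one_mul]
    · simp

lemma zp_pow (u v : ℤˣ) : ∃ j : ℕ, Γ.zp u v = Γ.z ^ j := by
  unfold Sg.zp
  split_ifs
  · exact ⟨1, by simp⟩
  · exact ⟨0, by simp⟩

lemma nc_z [Fintype G] [DecidableEq G] (Z : G) (hZ : ∀ g, Z * g = g * Z) (g m : G) :
    nc (Z * g) (Z * m) = nc g m := by
  unfold nc
  congr 1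
  ext y
  simp only [Finset.mem_filter, Finset.mem_univ, true_and]
  rw [← mul_assoc y, ← hZ y, mul_assoc, mul_assoc, mul_left_cancel_iff]

lemma nc_sg [Fintype G] [DecidableEq G] {g m : G} (h : nc g m ≠ 0) : Γ.sg g = Γ.sg m := by
  obtain ⟨y, hy⟩ := nc_ne_zero h
  have := congrArg Γ.sg hy
  rw [map_mul, map_mul, mul_comm] at this
  exact mul_left_cancel this

lemma nc_right [Fintype G] [DecidableEq Γ.TP] {g m : G} {u v : ℤˣ}
    (h : nc (⟨g, u⟩ : Γ.TP) ⟨m, v⟩ ≠ 0) : u = v := by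
  obtain ⟨y, hy⟩ := nc_ne_zero h
  have := congrArg SemidirectProduct.right hy
  simp only [SemidirectProduct.mul_right] at this
  rw [mul_comm] at this
  exact mul_left_cancel this

lemma nc_tp [Fintype G] [DecidableEq G] [DecidableEq Γ.TP] (g m : G) (hm : Γ.sg m = 1) :
    (nc (⟨g, 1⟩ : Γ.TP) ⟨m, 1⟩ : K) = 2 * nc g m := by
  simp only [nc, Finset.card_filter, Nat.cast_sum]
  rw [sum_sd, Finset.mul_sum]
  refine Finset.sum_congr rfl fun y _ => ?_
  have : ∀ w : ℤˣ, ((⟨g, 1⟩ : Γ.TP) * ⟨y, w⟩ = ⟨y, w⟩ * ⟨m, 1⟩) ↔ g * y = y * m := by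
    intro w
    rw [SemidirectProduct.ext_iff]
    simp [hm]
  simp only [this, Finset.sum_const, Finset.card_univ, Fintype.card_units_int, nsmul_eq_mul]
  simp

end spin

section tri
variable {A B G : Type} [Group A] [Group B] [Group G] {SA : Sg A} {SB : Sg B} {SG : Sg G}
  (T : Tri SA SB SG)

lemma α_zp (u v : ℤˣ) : T.α (SA.zp u v) = SG.zp u v := by
  unfold Sg.zp; split_ifs <;> simp [T.αz]

lemma β_zp (u v : ℤˣ) : T.β (SB.zp u v) = SG.zp u v := by
  unfold Sg.zp; split_ifs <;> simp [T.βz]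

lemma hab1 (y : B) (x : A) : T.β y * T.α x = T.α (SA.zp (SB.sg y) (SA.sg x) * x) * T.β y := by
  rw [map_mul, α_zp, mul_assoc, T.comm, ← mul_assoc, SG.zp_symm (SB.sg y), SG.zp_sq, one_mul]

/-- the twisted sign on `TP`. -/
def nu (SB : Sg B) : SB.TP →* ℤˣ where
  toFun h := SB.sg h.left * h.right
  map_one' := by simp
  map_mul' c d := by
    simp only [SemidirectProduct.mul_left, SemidirectProduct.mul_right, Sg.φ_apply, map_mul,
      Sg.sg_zp, one_mul]
    exact mul_mul_mul_comm _ _ _ _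

/-- the first map to `TP`. -/
def a0 : A →* SG.TP := SemidirectProduct.inl.comp T.α

/-- the second map to `TP`. -/
def b0 : SB.TP →* SG.TP where
  toFun h := ⟨T.β h.left, h.right⟩
  map_one' := by ext <;> simp
  map_mul' c d := by ext <;> simp [β_zp, T.βs]

lemma ab0 (x : A) (y : B) (v : ℤˣ) : a0 T x * b0 T ⟨y, v⟩ = ⟨T.α x * T.β y, v⟩ := by
  ext <;> simp [a0, b0]

lemma hab0 (h : SB.TP) (x : A) :
    b0 T h * a0 T x = a0 T (SA.zp (nu SB h) (SA.sg x) * x) * b0 T h := by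
  obtain ⟨y, v⟩ := h
  rw [ab0]
  ext
  · simp only [a0, b0, nu, MonoidHom.coe_mk, OneHom.coe_mk, MonoidHom.comp_apply,
      SemidirectProduct.mul_left, SemidirectProduct.left_inl, Sg.φ_apply, T.αs]
    rw [← mul_assoc, ← SG.zp_comm, mul_assoc, hab1, map_mul, map_mul, α_zp, α_zp, SG.zp_mul',
      SG.zp_comm (SB.sg y) _ (SG.zp v _)]
    simp only [mul_assoc]
  · simp [a0, b0]

lemma z_αβ (x : A) (y : B) : T.α (SA.z * x) * T.β y = SG.z * (T.α x * T.β y) := by
  rw [map_mul, T.αz, mul_assoc]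

lemma αβ_z (x : A) (y : B) : T.α x * T.β (SB.z * y) = SG.z * (T.α x * T.β y) := by
  rw [map_mul, T.βz, ← mul_assoc, ← SG.zc, mul_assoc]

lemma sg_αβ (x : A) (y : B) : SG.sg (T.α x * T.β y) = SA.sg x * SB.sg y := by
  rw [map_mul, T.αs, T.βs]

end tri

lemma neg_ne : (-1 : ℤˣ) ≠ 1 := by decide

end PrP

open PrP

theorem prodP (hch : ChSt) (hlat : LatSt) : ProdSt 1 := by
  intro A B G _ _ _ _ _ _ _ SA SB SG T e' U V S S' _ hU hV
  classical
  have _ := hlat
  obtain ⟨Ψ, hΨ, hs, hΨU⟩ := hU.1 rfl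
  have ho := odd_zero SA Ψ ((hch.a _).cl Ψ hΨ) hs
  have hev : ∀ x u, Ψ ⟨x, u⟩ ≠ 0 → SA.sg x = 1 := fun x u h =>
    (Int.units_eq_one_or _).resolve_right fun hx => h (ho x hx u)
  rw [one_mul]
  refine ⟨fun he => ?_, fun he => ?_⟩
  · obtain ⟨Ψ', hΨ', hs', hΨV⟩ := hV.1 he
    have ho' := odd_zero SB Ψ' ((hch.a _).cl Ψ' hΨ') hs'
    have hev' : ∀ x u, Ψ' ⟨x, u⟩ ≠ 0 → SB.sg x = 1 := fun x u h =>
      (Int.units_eq_one_or _).resolve_right fun hx => h (ho' x hx u)
    refine ⟨_, prod_core SA (nu SB) hch (a0 T) (b0 T) (hab0 T) Ψ hΨ Ψ' hΨ', ?_, fun g => ⟨?_, ?_⟩⟩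
    · intro g u
      rw [← mul_neg, ← Finset.sum_neg_distrib]
      congr 1
      refine (Fintype.sum_equiv (Equiv.mulLeft SA.z) _ _ fun x => ?_).symm
      rw [← Finset.sum_neg_distrib]
      refine Finset.sum_congr rfl fun h _ => ?_
      obtain ⟨y, v⟩ := h
      have e1 : ∀ (m : G) (w : ℤˣ), (⟨SG.z * m, w⟩ : SG.TP) = (⟨SG.z, 1⟩ : SG.TP) * ⟨m, w⟩ := by
        intro m w
        ext <;> simp
      rw [Equiv.coe_mulLeft, hs, ab0, ab0, z_αβ, e1, e1, nc_z]
      · ring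
      · rintro ⟨m, w⟩
        ext <;> simp [SG.zs, SG.zc]
    · rw [Tri.pr, card_sd, Fintype.card_units_int]
      have : ∀ x, ∑ h : SB.TP, Ψ ⟨x, nu SB h⟩ * Ψ' h * (nc (⟨g, 1⟩ : SG.TP) (a0 T x * b0 T h) : K)
          = 2 * ∑ y, U x * V y * nc g (T.α x * T.β y) := by
        intro x
        rw [sum_sd, Finset.mul_sum]
        refine Finset.sum_congr rfl fun y _ => ?_
        rw [Finset.sum_eq_single 1, ab0, (hΨU x).1, (hΨV y).1]
        · by_cases h2 : Ψ' ⟨y, 1⟩ = 0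
          · rw [h2]
            simp
          have hy := hev' _ _ h2
          have e2 : nu SB ⟨y, 1⟩ = 1 := by simp [nu, hy]
          rw [e2]
          by_cases h1 : Ψ ⟨x, 1⟩ = 0
          · rw [h1]
            simp
          rw [nc_tp SG g _ (by rw [sg_αβ, hev _ _ h1, hy, mul_one])]
          ring
        · intro v _ hv
          rw [ab0]
          have : nc (⟨g, 1⟩ : SG.TP) ⟨T.α x * T.β y, v⟩ = 0 := by
            by_contra h
            exact hv (nc_right SG h).symm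
          rw [this]
          simp
        · simp
      simp only [this, ← Finset.mul_sum]
      push_cast
      have hA : (Fintype.card A : K) ≠ 0 := Nat.cast_ne_zero.mpr Fintype.card_ne_zero
      have hB : (Fintype.card B : K) ≠ 0 := Nat.cast_ne_zero.mpr Fintype.card_ne_zero
      field_simp
    · intro hne
      obtain ⟨x, _, hx⟩ := Finset.exists_ne_zero_of_sum_ne_zero (right_ne_zero_of_mul hne)
      obtain ⟨⟨y, v⟩, _, hy⟩ := Finset.exists_ne_zero_of_sum_ne_zero hx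
      rw [ab0] at hy
      have h3 : nc (⟨g, -1⟩ : SG.TP) ⟨T.α x * T.β y, v⟩ ≠ 0 :=
        Nat.cast_ne_zero.mp (right_ne_zero_of_mul hy)
      obtain rfl := nc_right SG h3
      have h2 := right_ne_zero_of_mul (left_ne_zero_of_mul hy)
      have h1 := left_ne_zero_of_mul (left_ne_zero_of_mul hy)
      have e2 : nu SB ⟨y, -1⟩ = -1 := by simp [nu, hev' _ _ h2]
      rw [e2] at h1
      obtain ⟨⟨h, w⟩, hh⟩ := nc_ne_zero h3
      have h4 := congrArg SemidirectProduct.left hh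
      simp only [SemidirectProduct.mul_left, Sg.φ_apply, sg_αβ, hev _ _ h1, hev' _ _ h2, mul_one,
        Sg.zp_one, one_mul] at h4
      obtain ⟨j, hj⟩ := zp_pow SG (-1) (SG.sg h)
      refine ⟨x, y, h, j, (hΨU x).2 h1, (hΨV y).2 h2, ?_⟩
      rw [← hj, ← mul_assoc h, ← SG.zp_comm, mul_assoc, ← h4, ← mul_assoc g, ← SG.zp_comm,
        mul_assoc, ← mul_assoc, SG.zp_sq, one_mul]
  · obtain ⟨χ, hχ, hs', hχV⟩ := hV.2 he
    refine ⟨_, prod_core SA SB.sg hch T.α T.β (hab1 T) Ψ hΨ χ hχ, ?_,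
      fun g => ⟨fun hg => ?_, fun hg => ⟨?_, ?_⟩⟩⟩
    · intro g
      rw [← mul_neg, ← Finset.sum_neg_distrib]
      congr 1
      refine (Fintype.sum_equiv (Equiv.mulLeft SA.z) _ _ fun x => ?_).symm
      rw [← Finset.sum_neg_distrib]
      refine Finset.sum_congr rfl fun y _ => ?_
      rw [Equiv.coe_mulLeft, hs, z_αβ, nc_z _ SG.zc]
      ring
    · rw [Tri.pr, mul_left_comm]
      congr 1
      rw [Finset.mul_sum]
      refine Finset.sum_congr rfl fun x _ => ?_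
      rw [Finset.mul_sum]
      refine Finset.sum_congr rfl fun y _ => ?_
      by_cases h3 : nc g (T.α x * T.β y) = 0
      · simp [h3]
      have h4 := nc_sg SG h3
      rw [hg, sg_αβ] at h4
      rcases Int.units_eq_one_or (SB.sg y) with hy | hy
      · rw [hy, (hΨU x).1, (hχV y).1 hy]
        ring
      · have hx : SA.sg x = -1 := by
          rw [hy, mul_neg, mul_one] at h4
          exact neg_eq_iff_eq_neg.mp h4.symm
        rw [((hχV y).2 hy).1, ho x hx]
        simp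
    · rw [Tri.pr]
      refine mul_eq_zero_of_right _ (Finset.sum_eq_zero fun x _ => Finset.sum_eq_zero fun y _ => ?_)
      by_cases h3 : nc g (T.α x * T.β y) = 0
      · simp [h3]
      have h4 := nc_sg SG h3
      rw [hg, sg_αβ] at h4
      rcases Int.units_eq_one_or (SB.sg y) with hy | hy
      · rw [hy, mul_one] at h4
        rw [(hΨU x).1, ho x h4.symm]
        simp
      · rw [((hχV y).2 hy).1]
        simp
    · intro hne
      obtain ⟨x, _, hx⟩ := Finset.exists_ne_zero_of_sum_ne_zero (right_ne_zero_of_mul hne)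
      obtain ⟨y, _, hy⟩ := Finset.exists_ne_zero_of_sum_ne_zero hx
      have h3 : nc g (T.α x * T.β y) ≠ 0 := Nat.cast_ne_zero.mp (right_ne_zero_of_mul hy)
      have h2 := right_ne_zero_of_mul (left_ne_zero_of_mul hy)
      have h1 := left_ne_zero_of_mul (left_ne_zero_of_mul hy)
      have h4 := nc_sg SG h3
      rw [hg, sg_αβ, hev _ _ h1, one_mul] at h4
      rw [← h4] at h1
      obtain ⟨h, hh⟩ := nc_ne_zero h3
      exact ⟨x, y, h, 0, (hΨU x).2 h1, ((hχV y).2 h4.symm).2 h2, by simpa using hh⟩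

theorem perpP (hch : ChSt) (hlat : LatSt) : PerpSt 1 := by
  intro A B G _ _ _ _ _ _ SA SB SG T e' U F S S' _ hU hF
  classical
  have _ := hlat
  let := Fintype.ofFinite B
  let := Fintype.ofFinite G
  obtain ⟨Ψ, hΨ, hs, hΨU⟩ := hU.1 rfl
  have ho := odd_zero SA Ψ ((hch.a _).cl Ψ hΨ) hs
  have hi1 : ∀ x : A, (⟨x, 1⟩ : SA.TP)⁻¹ = ⟨x⁻¹, 1⟩ := fun x => by ext <;> simp
  have hi2 : ∀ (x : A) (u : ℤˣ), SA.sg x = -1 → Ψ (⟨x, u⟩ : SA.TP)⁻¹ = 0 := by
    intro x u hx
    exact ho _ (by simp [hx]) _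
  have hU0 : ∀ x : A, SA.sg x = -1 → U x⁻¹ = 0 := fun x hx => by
    rw [(hΨU _).1, ho _ (by simp [hx])]
  rw [one_mul] at hF
  refine ⟨fun he => ?_, fun he => ?_⟩
  · obtain ⟨Φ, hΦ, hs', hΦF⟩ := hF.1 he
    have ho' := odd_zero SG Φ ((hch.a _).cl Φ hΦ) hs'
    refine ⟨_, perp_core SA (nu SB) hch (a0 T) (b0 T) (hab0 T) Ψ hΨ Φ hΦ, ?_,
      fun y => ⟨?_, fun _ => trivial⟩⟩
    · intro y u
      rw [← mul_neg, ← Finset.sum_neg_distrib]
      congr 1
      refine Finset.sum_congr rfl fun x _ => ?_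
      have e2 : nu SB ⟨SB.z * y, u⟩ = nu SB ⟨y, u⟩ := by simp [nu, SB.zs]
      rw [e2, ab0, ab0, αβ_z, hs']
      ring
    · rw [Tri.prp]
      congr 1
      refine Finset.sum_congr rfl fun x _ => ?_
      rw [ab0, (hΦF _).1]
      rcases Int.units_eq_one_or (SA.sg x) with hx | hx
      · rcases Int.units_eq_one_or (SB.sg y) with hy | hy
        · have e2 : nu SB ⟨y, 1⟩ = 1 := by simp [nu, hy]
          rw [e2, hi1, (hΨU _).1]
        · rw [ho' _ (by rw [sg_αβ, hx, hy, one_mul])]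
          simp
      · rw [hU0 x hx, hi2 x _ hx]
  · obtain ⟨χ, hχ, hs', hχF⟩ := hF.2 he
    refine ⟨_, perp_core SA SB.sg hch T.α T.β (hab1 T) Ψ hΨ χ hχ, ?_,
      fun y => ⟨fun hy => ?_, fun hy => ⟨?_, fun _ => trivial⟩⟩⟩
    · intro y
      rw [← mul_neg, ← Finset.sum_neg_distrib]
      congr 1
      refine Finset.sum_congr rfl fun x _ => ?_
      rw [map_mul, SB.zs, one_mul, αβ_z, hs']
      ring
    · rw [Tri.prp, mul_left_comm]
      congr 1
      rw [Finset.mul_sum]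
      refine Finset.sum_congr rfl fun x _ => ?_
      rcases Int.units_eq_one_or (SA.sg x) with hx | hx
      · rw [hy, hi1, (hΨU _).1, (hχF _).1 (by rw [sg_αβ, hx, hy, one_mul])]
        ring
      · rw [hU0 x hx, hi2 x _ hx]
        simp
    · rw [Tri.prp]
      refine mul_eq_zero_of_right _ (Finset.sum_eq_zero fun x _ => ?_)
      rcases Int.units_eq_one_or (SA.sg x) with hx | hx
      · rw [((hχF _).2 (by rw [sg_αβ, hx, hy, one_mul])).1, mul_zero]
      · rw [hU0 x hx, zero_mul]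

end Pool.Agent.Lib.MP_1ae3da_al.GM
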