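import Pool.Agent.Lib.MP_1ae3da_al.GT

/-! Runners of a finite set of beads and valuations of the attached products. -/

namespace Pool.Agent.Lib.MP_1ae3da_al.GM

namespace Run0

open Finset

/-- the runner `i` of `A`. -/
def rn (p i : ℕ) (A : Finset ℕ) : Finset ℕ := (A.filter fun a => a % p = i).image (· / p)

lemma mem_rn {p i : ℕ} (hi : i < p) (A : Finset ℕ) (a : ℕ) : a ∈ rn p i A ↔ p * a + i ∈ A := by
  have hp : 0 < p := by omega
  simp only [rn, mem_image, mem_filter]
  constructor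
  · rintro ⟨b, ⟨hb, rfl⟩, rfl⟩
    rwa [Nat.div_add_mod]
  · intro h
    refine ⟨p * a + i, ⟨h, ?_⟩, ?_⟩
    · rw [Nat.mul_add_mod, Nat.mod_eq_of_lt hi]
    · rw [Nat.mul_add_div hp, Nat.div_eq_of_lt hi, add_zero]

lemma sum_rn {M : Type} [AddCommMonoid M] {p : ℕ} (hp : 0 < p) (A : Finset ℕ) (f : ℕ → M) :
    ∑ a ∈ A, f a = ∑ i : Fin p, ∑ a ∈ rn p i A, f (p * a + i) := by
  rw [← sum_fiberwise_of_maps_to (s := A) (t := (univ : Finset (Fin p)))
    (g := fun a => ⟨a % p, Nat.mod_lt _ hp⟩) (fun _ _ => mem_univ _)]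
  refine sum_congr rfl fun i _ => ?_
  symm
  refine sum_bij (fun a _ => p * a + i) (fun a ha => ?_) (fun a _ b _ h => ?_) (fun b hb => ?_)
    (fun _ _ => rfl)
  · rw [mem_filter]
    refine ⟨(mem_rn i.2 A a).1 ha, Fin.ext ?_⟩
    simp [Nat.mod_eq_of_lt i.2]
  · exact Nat.eq_of_mul_eq_mul_left hp (by omega)
  · rw [mem_filter] at hb
    have h : b % p = i := congrArg Fin.val hb.2
    have e : p * (b / p) + i = b := by rw [← h, Nat.div_add_mod]
    exact ⟨b / p, (mem_rn i.2 A _).2 (by rw [e]; exact hb.1), e⟩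

lemma card_rn {p : ℕ} (hp : 0 < p) (A : Finset ℕ) : A.card = ∑ i : Fin p, (rn p i A).card := by
  rw [card_eq_sum_ones, sum_rn hp]
  simp

/-- the decomposition into runners. -/
def rnE {p : ℕ} (hp : 0 < p) : Finset ℕ ≃ (Fin p → Finset ℕ) where
  toFun A i := rn p i A
  invFun F := univ.biUnion fun i : Fin p => (F i).image fun a => p * a + i
  left_inv A := by
    ext a
    simp only [mem_biUnion, mem_univ, true_and, mem_image]
    constructor
    · rintro ⟨i, b, hb, rfl⟩
      exact (mem_rn i.2 A b).1 hb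
    · intro h
      exact ⟨⟨a % p, Nat.mod_lt _ hp⟩, a / p,
        (mem_rn (Nat.mod_lt _ hp) A _).2 (by rwa [Nat.div_add_mod]), Nat.div_add_mod a p⟩
  right_inv F := by
    funext i
    ext a
    rw [mem_rn i.2]
    simp only [mem_biUnion, mem_univ, true_and, mem_image]
    constructor
    · rintro ⟨j, b, hb, h⟩
      have h1 : j = i := by
        have := congrArg (· % p) h
        simp only [Nat.mul_add_mod, Nat.mod_eq_of_lt i.2, Nat.mod_eq_of_lt j.2] at this
        exact Fin.ext this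
      subst h1
      have h2 : b = a := Nat.eq_of_mul_eq_mul_left hp (by omega)
      rwa [← h2]
    · exact fun h => ⟨i, a, h, rfl⟩

@[simp] lemma rnE_apply {p : ℕ} (hp : 0 < p) (A : Finset ℕ) (i : Fin p) :
    rnE hp A i = rn p i A := rfl

lemma val_prod {ι : Type} (p : ℕ) [Fact p.Prime] (s : Finset ι) (f : ι → ℕ)
    (h : ∀ i ∈ s, f i ≠ 0) : padicValNat p (∏ i ∈ s, f i) = ∑ i ∈ s, padicValNat p (f i) := by
  classical
  induction s using Finset.induction_on with
  | empty => simp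
  | insert a s ha ih =>
    rw [prod_insert ha, sum_insert ha, padicValNat.mul (h a (mem_insert_self _ _))
      (prod_ne_zero_iff.2 fun i hi => h i (mem_insert_of_mem hi)),
      ih fun i hi => h i (mem_insert_of_mem hi)]

lemma pairs (A : Finset ℕ) : ∑ a ∈ A, ∑ b ∈ A, (if a < b then 1 else 0) = A.card.choose 2 := by
  induction A using Finset.induction_on_max with
  | empty => simp
  | insert a s h ih =>
    have ha : a ∉ s := fun h' => lt_irrefl _ (h a h')
    rw [sum_insert ha, sum_insert ha, card_insert_of_notMem ha, Nat.choose_succ_succ,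
      Nat.choose_one_right, ← ih, sum_congr rfl fun x _ => sum_insert ha, sum_add_distrib,
      sum_congr rfl fun x hx => if_neg (not_lt.2 (h x hx).le),
      sum_congr rfl fun x hx => if_pos (h x hx)]
    simp

lemma val_Vd (p : ℕ) [Fact p.Prime] (A : Finset ℕ) : padicValNat p (Vd A) =
    ∑ a ∈ A, ∑ b ∈ A, if a < b then padicValNat p (b - a) else 0 := by
  have h : ∀ a : ℕ, ∀ b ∈ A.filter (a < ·), b - a ≠ 0 := fun a b hb => by
    have := (mem_filter.1 hb).2
    omega
  rw [Vd, val_prod p _ _ fun a _ => prod_ne_zero_iff.2 (h a)]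
  exact sum_congr rfl fun a _ => by rw [val_prod p _ _ (h a), sum_filter]

lemma val_fac (p : ℕ) [Fact p.Prime] (A : Finset ℕ) :
    padicValNat p (∏ a ∈ A, a.factorial) = ∑ a ∈ A, padicValNat p a.factorial :=
  val_prod p _ _ fun a _ => a.factorial_ne_zero

lemma val_cross (p : ℕ) [Fact p.Prime] (A B : Finset ℕ) :
    padicValNat p (∏ a ∈ A, ∏ b ∈ B, (a + b + 1)) =
      ∑ a ∈ A, ∑ b ∈ B, padicValNat p (a + b + 1) := by
  rw [val_prod p _ _ fun a _ => prod_ne_zero_iff.2 fun b _ => by omega]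
  exact sum_congr rfl fun a _ => val_prod p _ _ fun b _ => by omega

lemma val_pmul (p : ℕ) [hp : Fact p.Prime] {m : ℕ} (hm : m ≠ 0) :
    padicValNat p (p * m) = 1 + padicValNat p m := by
  rw [padicValNat.mul hp.out.ne_zero hm, padicValNat_self]

lemma fac_rn (p : ℕ) [hp : Fact p.Prime] (A : Finset ℕ) :
    padicValNat p (∏ a ∈ A, a.factorial) = ∑ i : Fin p,
      ((rn p i A).sum id + padicValNat p (∏ a ∈ rn p i A, a.factorial)) := by
  rw [val_fac, sum_rn hp.out.pos]
  refine sum_congr rfl fun i _ => ?_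
  rw [val_fac, ← sum_add_distrib]
  refine sum_congr rfl fun a _ => ?_
  rw [padicValNat_factorial_mul_add _ i.2, padicValNat_factorial_mul, id, add_comm]

lemma Vd_rn (p : ℕ) [hp : Fact p.Prime] (A : Finset ℕ) :
    padicValNat p (Vd A) = ∑ i : Fin p,
      ((rn p i A).card.choose 2 + padicValNat p (Vd (rn p i A))) := by
  have h0 := hp.out.pos
  rw [val_Vd, sum_rn h0]
  refine sum_congr rfl fun i _ => ?_
  rw [val_Vd, ← pairs, ← sum_add_distrib]
  refine sum_congr rfl fun a _ => ?_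
  rw [sum_rn h0, ← sum_add_distrib, sum_eq_single i]
  · refine sum_congr rfl fun b _ => ?_
    by_cases h : a < b
    · have h1 : p * a < p * b := Nat.mul_lt_mul_of_pos_left h h0
      rw [if_pos h, if_pos h, if_pos (by omega), ← val_pmul p (by omega), Nat.mul_sub]
      congr 1
      omega
    · have h1 : p * b ≤ p * a := Nat.mul_le_mul_left _ (not_lt.1 h)
      rw [if_neg h, if_neg h, if_neg (by omega)]
  · intro j _ hj
    refine sum_eq_zero fun b _ => ?_
    split_ifs with h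
    · refine padicValNat.eq_zero_of_not_dvd fun hd => hj ?_
      have := (Nat.modEq_iff_dvd' h.le).2 hd
      rw [Nat.ModEq, Nat.mul_add_mod, Nat.mul_add_mod, Nat.mod_eq_of_lt i.2,
        Nat.mod_eq_of_lt j.2] at this
      exact Fin.ext this.symm
    · rfl
  · simp

lemma cross_rn (p : ℕ) [hp : Fact p.Prime] (A B : Finset ℕ) :
    padicValNat p (∏ a ∈ A, ∏ b ∈ B, (a + b + 1)) = ∑ i : Fin p,
      ((rn p i A).card * (rn p i.rev B).card +
        padicValNat p (∏ a ∈ rn p i A, ∏ b ∈ rn p i.rev B, (a + b + 1))) := by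
  have h0 := hp.out.pos
  rw [val_cross, sum_rn h0]
  refine sum_congr rfl fun i _ => ?_
  rw [val_cross, ← smul_eq_mul, ← sum_const, ← sum_add_distrib]
  refine sum_congr rfl fun a _ => ?_
  have hi := i.2
  rw [sum_rn h0, card_eq_sum_ones, ← sum_add_distrib, sum_eq_single i.rev]
  · refine sum_congr rfl fun b _ => ?_
    rw [← val_pmul p (by omega), Fin.val_rev]
    congr 1
    rw [mul_add, mul_add]
    omega
  · intro j _ hj
    refine sum_eq_zero fun b _ => padicValNat.eq_zero_of_not_dvd fun hd => hj ?_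
    have hj2 := j.2
    have e : p * a + i + (p * b + j) + 1 = p * (a + b) + (i + j + 1) := by ring
    rw [e] at hd
    obtain ⟨k, hk⟩ := (Nat.dvd_add_right (dvd_mul_right _ _)).1 hd
    have k1 : k = 1 := by
      rcases k with _ | _ | k
      · omega
      · rfl
      · have : p * (k + 1 + 1) = p * k + 2 * p := by ring
        omega
    subst k1
    exact Fin.ext (by rw [Fin.val_rev]; omega)
  · simp

lemma szN_int (hsh : ShSt) (w : Finset ℕ × Finset ℕ) : (szN w : ℤ) =
    (w.1.sum id : ℕ) + (w.2.sum id : ℕ) + (w.1.card : ℤ) * w.2.card - (w.1.card.choose 2 : ℕ) -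
      (w.2.card.choose 2 : ℕ) := by
  have h1 := (hsh.pos w).2.2.2
  have h2 := (hsh.pos w.swap).2.2.2
  rw [Prod.fst_swap] at h2
  rw [szN, Nat.cast_add, Nat.cast_add, Nat.cast_sub h1, Nat.cast_sub h2, Nat.cast_mul]
  ring

lemma two_choose (n : ℕ) : 2 * ((n.choose 2 : ℕ) : ℤ) = (n : ℤ) * (n - 1) := by
  induction n with
  | zero => simp
  | succ n ih =>
    rw [Nat.choose_succ_succ, Nat.choose_one_right]
    push_cast
    linear_combination ih

lemma two_szN (hsh : ShSt) (w : Finset ℕ × Finset ℕ) : 2 * (szN w : ℤ) =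
    2 * (w.1.sum id : ℕ) + 2 * (w.2.sum id : ℕ) + w.1.card + w.2.card -
      ((w.1.card : ℤ) - w.2.card) ^ 2 := by
  rw [szN_int hsh]
  linear_combination -two_choose w.1.card - two_choose w.2.card

lemma WP_eq (hsh : ShSt) (p : ℕ) [Fact p.Prime] (w : Finset ℕ × Finset ℕ) : WP p w =
    (padicValNat p (∏ a ∈ w.1, a.factorial) : ℤ) + padicValNat p (∏ a ∈ w.2, a.factorial) +
      padicValNat p (∏ a ∈ w.1, ∏ b ∈ w.2, (a + b + 1)) - padicValNat p (Vd w.1) -
      padicValNat p (Vd w.2) := by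
  have h1 := (hsh.pos w).2.1
  have h2 := (hsh.pos w.swap).2.1
  rw [Prod.fst_swap] at h2
  have f : ∀ A : Finset ℕ, ∏ a ∈ A, a.factorial ≠ 0 := fun A =>
    prod_ne_zero_iff.2 fun a _ => a.factorial_ne_zero
  rw [WP, Hn, padicValNat.mul h1.ne' h2.ne', padicValNat.mul (mul_ne_zero (f _) (f _))
    (prod_ne_zero_iff.2 fun a _ => prod_ne_zero_iff.2 fun b _ => by omega),
    padicValNat.mul (f _) (f _)]
  push_cast
  ring

/-- the runner `i` of a pair. -/
def rw2 (p : ℕ) (w : Finset ℕ × Finset ℕ) (i : Fin p) : Finset ℕ × Finset ℕ :=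
  (rn p i w.1, rn p i.rev w.2)

lemma sum_rev {M : Type} [AddCommMonoid M] {p : ℕ} (f : Fin p → M) :
    ∑ i, f i = ∑ i : Fin p, f i.rev := (Equiv.sum_comp Fin.revPerm f).symm

lemma WP_rn (hsh : ShSt) (p : ℕ) [Fact p.Prime] (w : Finset ℕ × Finset ℕ) :
    WP p w = ∑ i, ((szN (rw2 p w i) : ℤ) + WP p (rw2 p w i)) := by
  rw [WP_eq hsh, fac_rn p w.1, fac_rn p w.2, cross_rn, Vd_rn p w.1, Vd_rn p w.2,
    sum_rev fun i : Fin p => (rn p i w.2).sum id + padicValNat p (∏ a ∈ rn p i w.2, a.factorial),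
    sum_rev fun i : Fin p => (rn p i w.2).card.choose 2 + padicValNat p (Vd (rn p i w.2))]
  simp only [Nat.cast_sum (s := univ), ← sum_add_distrib, ← sum_sub_distrib]
  refine sum_congr rfl fun i _ => ?_
  rw [szN_int hsh, WP_eq hsh]
  simp only [rw2, Nat.cast_add, Nat.cast_mul]
  ring

lemma sum_id_rn {p : ℕ} (hp : 0 < p) (A : Finset ℕ) :
    A.sum id = ∑ i : Fin p, (p * (rn p i A).sum id + i * (rn p i A).card) := by
  rw [sum_rn hp]
  refine sum_congr rfl fun i _ => ?_
  simp only [id, sum_add_distrib, mul_sum, sum_const, smul_eq_mul, mul_comm]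

lemma chg_rn {p : ℕ} (hp : 0 < p) (w : Finset ℕ × Finset ℕ) : (w.1.card : ℤ) - w.2.card =
    ∑ i, (((rw2 p w i).1.card : ℤ) - (rw2 p w i).2.card) := by
  rw [card_rn hp w.1, card_rn hp w.2, sum_rev fun i : Fin p => (rn p i w.2).card]
  simp only [Nat.cast_sum, ← sum_sub_distrib, rw2]

/-- twice the size of the core with given charges. -/
def G2 (p : ℕ) (c : Fin p → ℤ) : ℤ :=
  ∑ i : Fin p, ((2 * (i : ℕ) + 1 - p) * c i + p * c i ^ 2) - (∑ i, c i) ^ 2

lemma szN_rn (hsh : ShSt) {p : ℕ} (hp : 0 < p) (w : Finset ℕ × Finset ℕ) :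
    2 * (szN w : ℤ) = G2 p (fun i => ((rw2 p w i).1.card : ℤ) - (rw2 p w i).2.card) +
      2 * p * ∑ i, (szN (rw2 p w i) : ℤ) := by
  rw [G2, ← chg_rn hp, two_szN hsh, sum_id_rn hp w.1, sum_id_rn hp w.2,
    sum_rev fun i : Fin p => p * (rn p i w.2).sum id + i * (rn p i w.2).card, sub_add_eq_add_sub]
  congr 1
  rw [card_rn hp w.1, card_rn hp w.2, sum_rev fun i : Fin p => (rn p i w.2).card]
  simp only [Nat.cast_sum (s := univ), mul_sum (s := univ), ← sum_add_distrib]
  refine sum_congr rfl fun i _ => ?_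
  have hi := i.2
  have e : ((i.rev : ℕ) : ℤ) = p - 1 - (i : ℕ) := by rw [Fin.val_rev]; omega
  have h := two_szN hsh (rw2 p w i)
  simp only [rw2, Nat.cast_add, Nat.cast_mul, e] at h ⊢
  linear_combination (-(p : ℤ)) * h

end Run0

end Pool.Agent.Lib.MP_1ae3da_al.GM
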