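import Mathlib

/-! The inductive Galois-McKay condition of Navarro, Spaeth and Vallejo: definitions. -/

namespace Pool.Agent.Lib.MP_1ae3da_al.NSV

/-- The algebraic closure of the rationals. -/
abbrev Qbar : Type := AlgebraicClosure ℚ

/-- The irreducible characters of `G` of degree not divisible by `p`. -/
def IrrP (p : ℕ) (G : Type) [Group G] : Set (G → Qbar) :=
  {χ | ∃ (n : ℕ) (ρ : Representation Qbar G (Fin n → Qbar)),
    ρ.IsIrreducible ∧ χ = ρ.character ∧ ¬ p ∣ n}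

/-- The automorphisms raising all roots of unity of order prime to `p` to a fixed power `p ^ e`. -/
def H0 (p : ℕ) : Set (Qbar ≃ₐ[ℚ] Qbar) :=
  {σ | ∃ e : ℕ, ∀ (n : ℕ) (ξ : Qbar), n.Coprime p → ξ ^ n = 1 → σ ξ = ξ ^ p ^ e}

/-- Navarro's group. -/
noncomputable def H (p : ℕ) : Subgroup (Qbar ≃ₐ[ℚ] Qbar) := Subgroup.closure (H0 p)

/-- The maximal abelian extension of the rationals: generated by all roots of unity. -/
noncomputable def Qab : Subfield Qbar := Subfield.closure {ξ | ∃ n : ℕ, 0 < n ∧ ξ ^ n = 1}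

section triple
variable {G : Type} [Group G]

/-- the pair `(g, σ)` fixes the function `θ` on `N`. -/
def Fix (N : Subgroup G) (θ : G → Qbar) (g : G) (σ : Qbar ≃ₐ[ℚ] Qbar) : Prop :=
  ∀ n ∈ N, σ (θ (g * n * g⁻¹)) = θ n

/-- `P` is a projective representation of the stabiliser of `θ` in `T`, associated with the
character `θ` of `N`, with entries in `Qab` and factor set `α` with root of unity values. -/
def Assoc (N T : Subgroup G) (θ : G → Qbar) {d : ℕ} (P : G → Matrix (Fin d) (Fin d) Qbar)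
    (α : G → G → Qbar) : Prop :=
  (∀ n ∈ N, (P n).trace = θ n) ∧
  ∀ x ∈ T, Fix N θ x 1 → IsUnit (P x) ∧ (∀ i j, P x i j ∈ Qab) ∧
    (∀ n ∈ N, P (n * x) = P n * P x ∧ P (x * n) = P x * P n) ∧
    ∀ y ∈ T, Fix N θ y 1 → P x * P y = α x y • P (x * y) ∧ ∃ m : ℕ, 0 < m ∧ α x y ^ m = 1

/-- `μ` is the function attached to `P` and the pair `(h, σ)`: it is constant on cosets of `N`,
has value one at the identity, and `y ↦ σ (P (h y h⁻¹))` is similar to `μ P`. -/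
def Mu (N T : Subgroup G) (θ : G → Qbar) {d : ℕ} (P : G → Matrix (Fin d) (Fin d) Qbar)
    (h : G) (σ : Qbar ≃ₐ[ℚ] Qbar) (μ : G → Qbar) : Prop :=
  μ 1 = 1 ∧ ∃ U : (Matrix (Fin d) (Fin d) Qbar)ˣ, ∀ y ∈ T, Fix N θ y 1 →
    (∀ n ∈ N, μ (n * y) = μ y) ∧
    (P (h * y * h⁻¹)).map σ = μ y • (U.val * P y * U.inv)

/-- `(G, N, θ) ≥_c (T, N ⊓ T, φ)` as `H`-triples (only the values of `θ` on `N` and of `φ` on
`N ⊓ T` matter). -/
def GeC (p : ℕ) (N T : Subgroup G) (θ φ : G → Qbar) : Prop :=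
  (∀ g, ∃ σ ∈ H p, Fix N θ g σ) ∧ (∀ h ∈ T, ∃ σ ∈ H p, Fix (N ⊓ T) φ h σ) ∧
  N ⊔ T = ⊤ ∧ Subgroup.centralizer (N : Set G) ≤ T ∧
  (∀ h ∈ T, ∀ σ ∈ H p, Fix N θ h σ ↔ Fix (N ⊓ T) φ h σ) ∧
  ∃ (d d' : ℕ) (P : G → Matrix (Fin d) (Fin d) Qbar) (P' : G → Matrix (Fin d') (Fin d') Qbar)
    (α α' : G → G → Qbar), Assoc N ⊤ θ P α ∧ Assoc (N ⊓ T) T φ P' α' ∧
    (∀ x ∈ T, ∀ y ∈ T, Fix N θ x 1 → Fix N θ y 1 → α x y = α' x y) ∧
    (∀ c ∈ Subgroup.centralizer (N : Set G), ∃ ζ : Qbar, P c = ζ • 1 ∧ P' c = ζ • 1) ∧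
    ∀ h ∈ T, ∀ σ ∈ H p, Fix N θ h σ → ∃ μ μ' : G → Qbar,
      Mu N ⊤ θ P h σ μ ∧ Mu (N ⊓ T) T φ P' h σ μ' ∧ ∀ y ∈ T, Fix N θ y 1 → μ y = μ' y

end triple

variable {X : Type} [Group X]

/-- the automorphisms of `X` that stabilise `R` and the `H`-orbit of `θ`. -/
def Gam (p : ℕ) (R : Subgroup X) (θ : X → Qbar) : Subgroup (MulAut X) where
  carrier := {γ | (∀ x, γ x ∈ R ↔ x ∈ R) ∧ ∃ σ ∈ H p, ∀ x, θ (γ x) = σ (θ x)}
  one_mem' := ⟨fun _ => Iff.rfl, 1, one_mem _, fun _ => rfl⟩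
  mul_mem' := by
    rintro a b ⟨h1, σ, hσ, h2⟩ ⟨h3, τ, hτ, h4⟩
    exact ⟨fun x => (h1 _).trans (h3 x), σ * τ, mul_mem hσ hτ, fun x => by
      rw [MulAut.mul_apply, h2, h4]; rfl⟩
  inv_mem' := by
    rintro a ⟨h1, σ, hσ, h2⟩
    refine ⟨fun x => ?_, σ⁻¹, inv_mem hσ, fun x => ?_⟩
    · rw [← h1, MulAut.apply_inv_self]
    · have := h2 (a⁻¹ x)
      rw [MulAut.apply_inv_self] at this
      rw [this]
      exact (σ.symm_apply_apply _).symm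

/-- The inductive Galois-McKay condition for `X`, `p` and the Sylow subgroup `R`, with the
local subgroup `N = N_X(R)`. -/
def Inductive (p : ℕ) (X : Type) [Group X] (R : Subgroup X) : Prop :=
  Subgroup.normalizer (R : Set X) ≠ ⊤ ∧
  ∃ Ω : IrrP p X ≃ IrrP p (Subgroup.normalizer (R : Set X)),
    (∀ γ : MulAut X, (∀ x, γ x ∈ R ↔ x ∈ R) → ∀ σ ∈ H p, ∀ θ θ' : IrrP p X,
      (∀ x, θ'.1 x = σ (θ.1 (γ x))) → ∀ m m' : Subgroup.normalizer (R : Set X),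
        (m' : X) = γ m → (Ω θ').1 m = σ ((Ω θ).1 m')) ∧
    ∀ θ : IrrP p X, GeC (G := X ⋊[(Gam p R θ.1).subtype] Gam p R θ.1) p
      SemidirectProduct.inl.range
      (Subgroup.closure {g | g.left ∈ Subgroup.normalizer (R : Set X)})
      (fun g => θ.1 g.left) (fun g => Function.extend Subtype.val (Ω θ).1 0 g.left)

end Pool.Agent.Lib.MP_1ae3da_al.NSV
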