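import Pool.Agent.Lib.MP_1ae3da_al.GT

/-! The normaliser of the Sylow subgroup of the model. -/

namespace Pool.Agent.Lib.MP_1ae3da_al.GM

open Equiv

namespace SylD

variable {p k0 : ℕ} [Fact p.Prime] {B : Type} {lv : B → Fin k0}

lemma inv_ap {α : Type} (g : Perm α) (x : α) : g⁻¹ (g x) = x := by simp

/-- same block and same coordinates below `j`. -/
def E (j : ℕ) (w w' : Om p k0 lv) : Prop :=
  w.1.1 = w'.1.1 ∧ ∀ i : Fin k0, (i : ℕ) < j → w.1.2 i = w'.1.2 i

lemma E.refl (j : ℕ) (w : Om p k0 lv) : E j w w := ⟨rfl, fun _ _ => rfl⟩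

lemma E.symm {j : ℕ} {w w' : Om p k0 lv} (h : E j w w') : E j w' w :=
  ⟨h.1.symm, fun i hi => (h.2 i hi).symm⟩

lemma E.trans {j : ℕ} {w w' w'' : Om p k0 lv} (h : E j w w') (h' : E j w' w'') : E j w w'' :=
  ⟨h.1.trans h'.1, fun i hi => (h.2 i hi).trans (h'.2 i hi)⟩

lemma E.mono {i j : ℕ} (hij : i ≤ j) {w w' : Om p k0 lv} (h : E j w w') : E i w w' :=
  ⟨h.1, fun a ha => h.2 a (ha.trans_le hij)⟩

lemma E.eq {j : ℕ} {w w' : Om p k0 lv} (h : E j w w') (hj : (lv w.1.1 : ℕ) ≤ j) : w = w' := by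
  apply Subtype.ext
  refine Prod.ext h.1 (funext fun i => ?_)
  by_cases hi : (i : ℕ) < j
  · exact h.2 i hi
  · have h1 : lv w.1.1 ≤ i := Fin.le_def.2 (by omega)
    rw [w.2 i h1, w'.2 i (h.1 ▸ h1)]

lemma E.succ {j : Fin k0} {w w' : Om p k0 lv} (h : E j w w') (hj : w.1.2 j = w'.1.2 j) :
    E (j + 1) w w' := by
  refine ⟨h.1, fun i hi => ?_⟩
  by_cases hij : (i : ℕ) < j
  · exact h.2 i hij
  · have : i = j := Fin.ext (by omega)
    rw [this, hj]

lemma inq_sub {q : Perm (Om p k0 lv)} (hq : InQ q) {j : Fin k0} {w w' : Om p k0 lv}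
    (h : E j w w') : (q w).1.2 j - w.1.2 j = (q w').1.2 j - w'.1.2 j :=
  hq.2 w w' j h.1 fun i hi => h.2 i hi

lemma inq_E {q : Perm (Om p k0 lv)} (hq : InQ q) {j : ℕ} {w w' : Om p k0 lv}
    (h : E j w w') : E j (q w) (q w') := by
  refine ⟨by rw [hq.1, hq.1, h.1], fun i hi => ?_⟩
  have := inq_sub hq (h.mono hi.le)
  rw [h.2 i hi] at this
  exact sub_left_injective this

/-- triangular maps are elements of the Sylow subgroup. -/
lemma ex_Q [Finite B] (t : Om p k0 lv → Fin k0 → ZMod p)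
    (h0 : ∀ w j, lv w.1.1 ≤ j → t w j = 0)
    (h1 : ∀ w w' (j : Fin k0), E j w w' → t w j = t w' j) :
    ∃ q : Perm (Om p k0 lv), InQ q ∧ ∀ w j, (q w).1.2 j = w.1.2 j + t w j := by
  let f : Om p k0 lv → Om p k0 lv := fun w =>
    ⟨(w.1.1, fun j => w.1.2 j + t w j), fun j hj => by simp [w.2 j hj, h0 w j hj]⟩
  have hf : Function.Injective f := by
    intro w w' h
    have hb : w.1.1 = w'.1.1 := congrArg (fun x => x.1.1) h
    have hc : ∀ j, w.1.2 j + t w j = w'.1.2 j + t w' j := fun j =>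
      congrArg (fun x => x.1.2 j) h
    have key : ∀ j : ℕ, E j w w' := by
      intro j
      induction j with
      | zero => exact ⟨hb, fun i hi => absurd hi (Nat.not_lt_zero _)⟩
      | succ j ih =>
        refine ⟨hb, fun i hi => ?_⟩
        have := hc i
        rw [h1 w w' i (ih.mono (by omega))] at this
        exact add_right_cancel this
    exact (key _).eq le_rfl
  refine ⟨Equiv.ofBijective f (Finite.injective_iff_bijective.1 hf), ⟨fun w => rfl, ?_⟩,
    fun w j => rfl⟩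
  intro w w' j hb hj
  change w.1.2 j + t w j - w.1.2 j = w'.1.2 j + t w' j - w'.1.2 j
  rw [h1 w w' j ⟨hb, fun i hi => hj i hi⟩]
  ring

/-- two-point transitivity. -/
lemma ex_two [Finite B] {j : Fin k0} {u u' x x' : Om p k0 lv} (hu : E j u u') (hx : E j x x')
    (hb : u.1.1 = x.1.1) (hne : u.1.2 j ≠ u'.1.2 j)
    (ha : x'.1.2 j - x.1.2 j = u'.1.2 j - u.1.2 j) :
    ∃ q : Perm (Om p k0 lv), InQ q ∧ q u = x ∧ q u' = x' := by
  classical
  obtain ⟨q, hq, hv⟩ := ex_Q (lv := lv) (p := p)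
    (fun w i => if w.1.1 = u.1.1 then
      (if w.1.2 j = u'.1.2 j then x'.1.2 i - u'.1.2 i else x.1.2 i - u.1.2 i) else 0)
    (by
      intro w i hi
      split_ifs with a1 a2
      · rw [x'.2 i (by rw [← hx.1, ← hb, ← a1]; exact hi),
          u'.2 i (by rw [← hu.1, ← a1]; exact hi), sub_zero]
      · rw [x.2 i (by rw [← hb, ← a1]; exact hi), u.2 i (by rw [← a1]; exact hi), sub_zero]
      · rfl)
    (by
      intro w w' i h
      rw [h.1]
      by_cases hij : (j : ℕ) < i
      · rw [h.2 j hij]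
      · have e : x'.1.2 i - u'.1.2 i = x.1.2 i - u.1.2 i := by
          by_cases hij' : (i : ℕ) < j
          · rw [hx.2 i hij', hu.2 i hij']
          · have : i = j := Fin.ext (by omega)
            subst this
            linear_combination ha
        rw [e]
        simp)
  refine ⟨q, hq, ?_, ?_⟩
  · apply Subtype.ext
    refine Prod.ext (by rw [hq.1, hb]) (funext fun i => ?_)
    rw [hv, if_pos rfl, if_neg hne]
    ring
  · apply Subtype.ext
    refine Prod.ext (by rw [hq.1, ← hu.1, hb, hx.1]) (funext fun i => ?_)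
    rw [hv, if_pos hu.1.symm, if_pos rfl]
    ring

/-- transitivity on blocks. -/
lemma ex_one [Finite B] {u x : Om p k0 lv} (hb : u.1.1 = x.1.1) :
    ∃ q : Perm (Om p k0 lv), InQ q ∧ q u = x := by
  classical
  obtain ⟨q, hq, hv⟩ := ex_Q (lv := lv) (p := p)
    (fun w i => if w.1.1 = u.1.1 then x.1.2 i - u.1.2 i else 0)
    (by
      intro w i hi
      split_ifs with a1
      · rw [x.2 i (by rw [← hb, ← a1]; exact hi), u.2 i (by rw [← a1]; exact hi), sub_zero]
      · rfl)
    (by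
      intro w w' i h
      rw [h.1])
  refine ⟨q, hq, ?_⟩
  apply Subtype.ext
  refine Prod.ext (by rw [hq.1, hb]) (funext fun i => ?_)
  rw [hv, if_pos rfl]
  ring

/-- the translation of one coordinate on one block. -/
lemma ex_tau [Finite B] (b : B) (j : Fin k0) (hj : j < lv b) (a : ZMod p) :
    ∃ q : Perm (Om p k0 lv), InQ q ∧ (∀ w, E j w (q w)) ∧
      ∀ w, (q w).1.2 j = w.1.2 j + open Classical in if w.1.1 = b then a else 0 := by
  classical
  obtain ⟨q, hq, hv⟩ := ex_Q (lv := lv) (p := p)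
    (fun w i => if i = j then (if w.1.1 = b then a else 0) else 0)
    (by
      intro w i hi
      split_ifs with a1 a2
      · subst a1 a2
        exact absurd hj (not_lt.2 hi)
      · rfl
      · rfl)
    (by
      intro w w' i h
      rw [h.1])
  refine ⟨q, hq, fun w => ⟨(hq.1 w).symm, fun i hi => ?_⟩, fun w => ?_⟩
  · rw [hv, if_neg (fun h => by subst h; exact lt_irrefl _ hi), add_zero]
  · rw [hv, if_pos rfl]

/-- an invariant equivalence relation that joins two points first differing in coordinate `j`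
joins all points that agree below `j`. -/
lemma gen [Finite B] (R : Om p k0 lv → Om p k0 lv → Prop)
    (htr : ∀ a b c, R a b → R b c → R a c)
    (hinv : ∀ q, InQ q → ∀ a b, R a b → R (q a) (q b))
    {j : Fin k0} {u u' : Om p k0 lv} (hu : E j u u') (hne : u.1.2 j ≠ u'.1.2 j) (hR : R u u')
    {x : Om p k0 lv} (hx : E j u x) : R u x := by
  classical
  have hj : j < lv u.1.1 := by
    by_contra h
    exact hne (by rw [hu.eq (not_lt.1 h)])
  have one : ∀ y y', E j u y → E j u y' → y'.1.2 j - y.1.2 j = u'.1.2 j - u.1.2 j → R y y' := by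
    intro y y' hy hy' ha
    obtain ⟨q, hq, h1, h2⟩ := ex_two hu (hy.symm.trans hy') hy.1 hne ha
    rw [← h1, ← h2]
    exact hinv q hq _ _ hR
  have key : ∀ m : ℕ, ∀ y, E j u y →
      y.1.2 j - u.1.2 j = ((m : ZMod p) + 1) * (u'.1.2 j - u.1.2 j) → R u y := by
    intro m
    induction m with
    | zero => exact fun y hy ha => one u y (E.refl _ _) hy (by simpa using ha)
    | succ m ih =>
      intro y hy ha
      obtain ⟨q, -, h1, h2⟩ := ex_tau (p := p) u.1.1 j hj
        (((m : ZMod p) + 1) * (u'.1.2 j - u.1.2 j))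
      have h3 := h2 u
      rw [if_pos rfl] at h3
      refine htr _ _ _ (ih (q u) (h1 u) (by rw [h3]; ring)) (one _ _ (h1 u) hy ?_)
      rw [h3]
      push_cast at ha
      linear_combination ha
  have hne' : u'.1.2 j - u.1.2 j ≠ 0 := sub_ne_zero.2 hne.symm
  refine key ((x.1.2 j - u.1.2 j) / (u'.1.2 j - u.1.2 j) - 1).val x hx ?_
  rw [ZMod.natCast_zmod_val]
  field_simp
  ring

/-- `g` normalises the Sylow subgroup. -/
def Nm (g : Perm (Om p k0 lv)) : Prop := ∀ q, InQ q ↔ InQ (g * q * g⁻¹)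

lemma Nm.inv {g : Perm (Om p k0 lv)} (hg : Nm g) : Nm g⁻¹ := by
  intro q
  rw [hg (g⁻¹ * q * g⁻¹⁻¹)]
  simp [mul_assoc]

lemma nm_E [Finite B] (j : ℕ) : ∀ g : Perm (Om p k0 lv), Nm g →
    ∀ w w', E j w w' → E j (g w) (g w') := by
  classical
  induction j with
  | zero =>
    intro g hg w w' h
    obtain ⟨q, hq, h1⟩ := ex_one h.1
    refine ⟨?_, fun i hi => absurd hi (Nat.not_lt_zero _)⟩
    have := ((hg q).1 hq).1 (g w)
    rw [← this, ← h1]
    simp
  | succ j ih =>
    intro g hg w w' h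
    have h0 := ih g hg w w' (h.mono (Nat.le_succ j))
    by_cases hj : j < lv w.1.1
    swap
    · rw [(h.mono (Nat.le_succ j)).eq (not_lt.1 hj)]
      exact E.refl _ _
    obtain ⟨J, rfl⟩ : ∃ J : Fin k0, (J : ℕ) = j := ⟨⟨j, hj.trans (lv w.1.1).2⟩, rfl⟩
    refine h0.succ ?_
    by_contra hne
    obtain ⟨τ, -, h1, h2⟩ := ex_tau (p := p) w.1.1 J hj 1
    have key := gen (fun a b => E (J + 1) (g⁻¹ a) (g⁻¹ b)) (fun _ _ _ => E.trans)
      (fun q hq a b hab => by
        have := inq_E ((hg.inv q).1 hq) hab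
        simpa using this)
      h0 hne (by simpa using h) (ih g hg _ _ (h1 w))
    simp only [inv_ap] at key
    have h3 := key.2 J (Nat.lt_succ_self _)
    rw [h2, if_pos rfl] at h3
    simp at h3

lemma nm_E' [Finite B] {j : ℕ} {g : Perm (Om p k0 lv)} (hg : Nm g) {w w' : Om p k0 lv}
    (h : E j (g w) (g w')) : E j w w' := by
  simpa using nm_E j g⁻¹ hg.inv _ _ h

lemma nm_lv_le [Finite B] {g : Perm (Om p k0 lv)} (hg : Nm g) (w : Om p k0 lv) :
    lv w.1.1 ≤ lv (g w).1.1 := by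
  classical
  by_contra hlt
  obtain ⟨τ, -, h1, h2⟩ := ex_tau (p := p) w.1.1 (lv (g w).1.1) (not_le.1 hlt) 1
  have h3 := g.injective ((nm_E _ g hg _ _ (h1 w)).eq le_rfl)
  have h4 := h2 w
  rw [← h3, if_pos rfl] at h4
  simp at h4

lemma nm_lv [Finite B] {g : Perm (Om p k0 lv)} (hg : Nm g) (w : Om p k0 lv) :
    lv (g w).1.1 = lv w.1.1 :=
  le_antisymm (by simpa using nm_lv_le hg.inv (g w)) (nm_lv_le hg w)

/-- `g` is affine in each coordinate, with a slope that depends on the block only. -/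
lemma nm_aff [Finite B] {g : Perm (Om p k0 lv)} (hg : Nm g) (b : B) (j : Fin k0) :
    ∃ c : (ZMod p)ˣ, (lv b ≤ j → c = 1) ∧ ∀ w w' : Om p k0 lv, w.1.1 = b → E j w w' →
      (g w').1.2 j - (g w).1.2 j = c * (w'.1.2 j - w.1.2 j) := by
  classical
  by_cases hj : j < lv b
  swap
  · refine ⟨1, fun _ => rfl, fun w w' hb h => ?_⟩
    rw [h.eq (by rw [hb]; exact not_lt.1 hj)]
    simp
  obtain ⟨τ, hτ, h1, h2⟩ := ex_tau (p := p) b j hj 1
  have hσ := (hg τ).1 hτ
  -- the translation commutes with the Sylow subgroup on truncations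
  have com : ∀ q, InQ q → ∀ w, E (j + 1) (τ (q w)) (q (τ w)) := by
    intro q hq w
    refine E.succ ((h1 _).symm.trans (inq_E hq (h1 w))) ?_
    have := inq_sub hq (h1 w)
    rw [h2 w] at this
    rw [h2, hq.1]
    linear_combination this
  have cst : ∀ w w' : Om p k0 lv, w.1.1 = w'.1.1 →
      (g (τ w')).1.2 j - (g w').1.2 j = (g (τ w)).1.2 j - (g w).1.2 j := by
    intro w w' hb
    obtain ⟨q, hq, rfl⟩ := ex_one hb
    have e1 := (nm_E _ g hg _ _ (com q hq w)).2 j (Nat.lt_succ_self _)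
    have e2 := inq_sub ((hg q).1 hq) (nm_E _ g hg _ _ (h1 w))
    simp only [Perm.mul_apply, inv_ap] at e2
    rw [e1]
    linear_combination -e2
  let w0 : Om p k0 lv := ⟨(b, 0), fun _ _ => rfl⟩
  have hc : (g (τ w0)).1.2 j - (g w0).1.2 j ≠ 0 := by
    intro h
    have := (nm_E' hg ((nm_E _ g hg _ _ (h1 w0)).succ (sub_eq_zero.1 h).symm)).2 j
      (Nat.lt_succ_self _)
    rw [h2, if_pos rfl] at this
    simp at this
  refine ⟨Units.mk0 _ hc, fun h => absurd hj (not_lt.2 h), fun w w' hb h => ?_⟩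
  rw [Units.val_mk0]
  have key : ∀ m : ℕ, ∀ y, E j w y → y.1.2 j - w.1.2 j = m →
      (g y).1.2 j - (g w).1.2 j = ((g (τ w0)).1.2 j - (g w0).1.2 j) * m := by
    intro m
    induction m with
    | zero =>
      intro y hy ha
      have := (nm_E _ g hg _ _ (hy.succ (sub_eq_zero.1 (by simpa using ha)).symm)).2 j
        (Nat.lt_succ_self _)
      simp [this]
    | succ m ih =>
      intro y hy ha
      obtain ⟨y', rfl⟩ := τ.surjective y
      have hy' : E j w y' := hy.trans (h1 y').symm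
      have hb' : y'.1.1 = b := hy'.1.symm.trans hb
      rw [h2, if_pos hb'] at ha
      push_cast at ha ⊢
      have e1 := ih y' hy' (by linear_combination ha)
      have e2 := cst w0 y' hb'.symm
      linear_combination e1 + e2
  have := key (w'.1.2 j - w.1.2 j).val w' h (ZMod.natCast_zmod_val _).symm
  rwa [ZMod.natCast_zmod_val] at this

end SylD

set_option linter.unusedVariables false in
open SylD in
theorem sylD (hsA : SylASt) : SylDSt := by
  intro p k0 _ B _ _ lv g hg0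
  have hg : Nm g := fun q => (Subgroup.mem_normalizer_iff.1 hg0) q
  choose c hc1 hc2 using nm_aff hg
  let o : B → Om p k0 lv := fun b => ⟨(b, 0), fun _ _ => rfl⟩
  have ho : ∀ w : Om p k0 lv, (g (o w.1.1)).1.1 = (g w).1.1 := fun w =>
    (nm_E 0 g hg (o w.1.1) w ⟨rfl, fun i hi => absurd hi (Nat.not_lt_zero _)⟩).1
  have hinj : Function.Injective fun b => (g (o b)).1.1 := fun b b' h =>
    (nm_E' (j := 0) hg ⟨h, fun i hi => absurd hi (Nat.not_lt_zero _)⟩).1
  let l : Lg p k0 lv := ⟨Equiv.ofBijective _ (Finite.injective_iff_bijective.1 hinj), c,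
    fun b => nm_lv hg (o b), hc1⟩
  refine ⟨g * (Lg.tp l)⁻¹, ⟨fun u => ?_, fun u u' j hb hj => ?_⟩, l, by simp⟩
  · obtain ⟨w, rfl⟩ := (Lg.tp l).surjective u
    rw [Perm.mul_apply, inv_ap]
    exact (ho w).symm
  · obtain ⟨w, rfl⟩ := (Lg.tp l).surjective u
    obtain ⟨w', rfl⟩ := (Lg.tp l).surjective u'
    rw [Perm.mul_apply, inv_ap, Perm.mul_apply, inv_ap]
    have hb' : w.1.1 = w'.1.1 := l.π.injective hb
    have hE : E j w w' := ⟨hb', fun i hi => by
      have : (c w.1.1 i : ZMod p) * w.1.2 i = c w'.1.1 i * w'.1.2 i := hj i hi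
      rw [← hb'] at this
      exact mul_left_cancel₀ (Units.ne_zero _) this⟩
    have := hc2 _ j w w' rfl hE
    change (g w).1.2 j - (c w.1.1 j : ZMod p) * w.1.2 j =
      (g w').1.2 j - (c w'.1.1 j : ZMod p) * w'.1.2 j
    rw [← hb']
    linear_combination -this

end Pool.Agent.Lib.MP_1ae3da_al.GM
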