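import Pool.Agent.Lib.MP_1ae3da_al.GD
import Pool.Agent.Lib.MP_1ae3da_al.GS

/-! Galois-McKay for the double covers of symmetric and alternating groups: the statements of
the intermediate results. -/

namespace Pool.Agent.Lib.MP_1ae3da_al.GM

open Equiv Module

/-! ### character theory -/

structure ChA (G : Type) [Group G] [Fintype G] : Prop where
  fin : (Irr G).Finite
  cl : ∀ χ ∈ VC G, Cl χ
  symm : ∀ f g : G → K, ip f g = ip g f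
  orth1 : ∀ χ ∈ Irr G, ip χ χ = 1
  orth0 : ∀ χ ∈ Irr G, ∀ ψ ∈ Irr G, χ ≠ ψ → ip χ ψ = 0
  compl : ∀ f : G → K, Cl f → (∀ χ ∈ Irr G, ip f χ = 0) → f = 0
  expand : ∀ f : G → K, Cl f → ∀ s : Finset (G → K), (s : Set (G → K)) = Irr G →
    f = ∑ χ ∈ s, ip f χ • χ
  irr_ch : ∀ χ ∈ Irr G, χ ∈ Ch G
  ch_vc : ∀ χ ∈ Ch G, χ ∈ VC G
  vc_iff : ∀ f : G → K, f ∈ VC G ↔ Cl f ∧ ∀ χ ∈ Irr G, ∃ m : ℤ, ip f χ = m
  ch_iff : ∀ f : G → K, f ∈ Ch G ↔ Cl f ∧ ∀ χ ∈ Irr G, ∃ m : ℕ, ip f χ = m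
  ip_int : ∀ f ∈ VC G, ∀ g ∈ VC G, ∃ m : ℤ, ip f g = m
  norm_zero : ∀ f ∈ VC G, ip f f = 0 → f = 0
  norm_one : ∀ f ∈ VC G, ip f f = 1 → f ∈ Irr G ∨ -f ∈ Irr G
  ch_one : ∀ f ∈ Ch G, ip f f = 1 → f ∈ Irr G
  norm_two : ∀ f ∈ VC G, ip f f = 2 → ∃ χ ∈ Irr G, ∃ ψ ∈ Irr G, ∃ u v : ℤˣ, χ ≠ ψ ∧
    f = uK u • χ + uK v • ψ
  ch_deg : ∀ f ∈ Ch G, ∃ m : ℕ, f 1 = m ∧ (m = 0 → f = 0)
  ch_sub : ∀ f ∈ Ch G, ∀ χ ∈ Irr G, ip f χ ≠ 0 → f - χ ∈ Ch G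

structure ChB (G : Type) [Group G] [Fintype G] : Prop where
  rep : ∀ (V : Type) [AddCommGroup V] [Module K V] [FiniteDimensional K V]
    (ρ : Representation K G V), ρ.character ∈ Ch G
  mat : ∀ (m : Type) [Fintype m] [DecidableEq m] (ρ : G → Matrix m m K),
    (∀ x y, ρ (x * y) = ρ x * ρ y) → (fun x => (ρ x).trace) ∈ Ch G
  real : ∀ (n : ℕ) (χ : G → K), IsIrr n χ →
    ∃ ρ : G →* Matrix (Fin n) (Fin n) K, ∀ x, (ρ x).trace = χ x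
  sim : ∀ (n : ℕ) (ρ ρ' : G →* Matrix (Fin n) (Fin n) K), (fun x => (ρ x).trace) ∈ Irr G →
    (∀ x, (ρ' x).trace = (ρ x).trace) →
    ∃ U : (Matrix (Fin n) (Fin n) K)ˣ, ∀ x, ρ' x = U.val * ρ x * U.inv
  schur : ∀ (n : ℕ) (ρ : G →* Matrix (Fin n) (Fin n) K), (fun x => (ρ x).trace) ∈ Irr G →
    ∀ A : Matrix (Fin n) (Fin n) K, (∀ x, A * ρ x = ρ x * A) → ∃ c : K, A = c • 1
  mul : ∀ f ∈ VC G, ∀ g ∈ VC G, f * g ∈ VC G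
  mulC : ∀ f ∈ Ch G, ∀ g ∈ Ch G, f * g ∈ Ch G
  inv : ∀ f ∈ VC G, (fun x => f x⁻¹) ∈ VC G
  invI : ∀ (n : ℕ) (χ : G → K), IsIrr n χ → IsIrr n fun x => χ x⁻¹
  lin : ∀ (l : G →* K) (n : ℕ) (χ : G → K), IsIrr n χ → IsIrr n (⇑l * χ)
  lin1 : ∀ χ : G → K, IsIrr 1 χ → ∃ l : G →* K, χ = ⇑l
  gal : ∀ f ∈ VC G, ∀ (σ : Ga) (M s : ℕ) (x : G), 0 < M → x ^ M = 1 → Ex M σ s →
    σ (f x) = f (x ^ s)
  int : ∀ f ∈ VC G, ∀ x, IsIntegral ℤ (f x)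
  cen : ∀ χ ∈ Irr G, ∀ z : G, (∀ g, z * g = g * z) → z * z = 1 →
    ∃ ω : ℤˣ, ∀ x, χ (z * x) = uK ω * χ x
  deg : ∀ (n : ℕ) (χ : G → K), IsIrr n χ → n ∣ Nat.card G
  ker : ∀ χ ∈ Irr G, ∀ (T : Subgroup G) [T.Normal] [Fintype T],
    (∀ r ∈ T, ∀ x, χ (r * x) = χ x) ∨ ∀ x, ∑ r : T, χ (r * x) = 0

structure ChH {C G : Type} [Group C] [Group G] [Fintype C] [Fintype G] [DecidableEq G]
    (f : C →* G) : Prop where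
  comp : ∀ χ ∈ VC G, χ ∘ f ∈ VC C
  compC : ∀ χ ∈ Ch G, χ ∘ f ∈ Ch C
  infl : Function.Surjective f → ∀ (n : ℕ) (χ : G → K), IsIrr n χ → IsIrr n (χ ∘ f)
  defl : Function.Surjective f → ∀ (n : ℕ) (ψ : C → K), IsIrr n ψ →
    (∀ r x, f r = 1 → ψ (r * x) = ψ x) → ∃ χ : G → K, IsIrr n χ ∧ ψ = χ ∘ f
  frob : ∀ (τ : C → K) (φ : G → K), Cl φ → ip (ind f τ) φ = ip τ (φ ∘ f)
  ind_cl : ∀ τ : C → K, Cl (ind f τ)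
  ind_vc : ∀ τ ∈ VC C, ind f τ ∈ VC G
  ind_ch : ∀ τ ∈ Ch C, ind f τ ∈ Ch G
  ind_mul : ∀ (τ : C → K) (φ : G → K), Cl φ → ind f (τ * φ ∘ f) = ind f τ * φ
  ind_one : Function.Injective f → ∀ τ : C → K, ind f τ 1 = (f.range.index : K) * τ 1
  ind_ind : ∀ (D : Type) [Group D] [Fintype D] [DecidableEq C] (g : D →* C) (τ : D → K),
    ind f (ind g τ) = ind (f.comp g) τ
  fib : Function.Surjective f → ∀ τ : C → K, Cl τ → ∀ g,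
    ind f τ g = (Nat.card f.ker : K)⁻¹ * ∑ c with f c = g, τ c

def ChASt : Prop := ∀ (G : Type) [Group G] [Fintype G], ChA G
def DegSt : Prop := ∀ (G : Type) [Group G] [Fintype G], (∀ f ∈ VC G, ∀ x, IsIntegral ℤ (f x)) ∧
  ∀ (n : ℕ) (χ : G → K), IsIrr n χ → n ∣ Nat.card G
def ChBSt : Prop := ∀ (G : Type) [Group G] [Fintype G], ChB G
def ChHSt : Prop := ∀ (C G : Type) [Group C] [Group G] [Fintype C] [Fintype G] [DecidableEq G]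
  (f : C →* G), ChH f
/-- the toolbox of character theory. -/
structure ChSt : Prop where
  a : ChASt
  b : ChBSt
  h : ChHSt

/-! ### index two -/

structure IxG {G G0 : Type} [Group G] [Group G0] (Γ : Gr G G0) : Prop where
  tw_irr : ∀ (n : ℕ) (χ : G → K), IsIrr n χ → IsIrr n (Γ.tw χ)
  tw_tw : ∀ χ : G → K, Γ.tw (Γ.tw χ) = χ
  cj_irr : ∀ (n : ℕ) (θ : G0 → K) (t : G), IsIrr n θ → IsIrr n (θ ∘ Γ.cj t)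
  cj_even : ∀ θ : G0 → K, Cl θ → ∀ t, Γ.sg t = 1 → θ ∘ Γ.cj t = θ
  cj_mul : ∀ (θ : G0 → K) (t t' : G), (θ ∘ Γ.cj t) ∘ Γ.cj t' = θ ∘ Γ.cj (t * t')
  cj_odd : ∀ θ : G0 → K, Cl θ → ∀ t t', Γ.sg t = Γ.sg t' → θ ∘ Γ.cj t = θ ∘ Γ.cj t'
  res_cj : ∀ χ : G → K, Cl χ → ∀ t, (χ ∘ Γ.ι) ∘ Γ.cj t = χ ∘ Γ.ι
  a1 : ∀ (n : ℕ) (θ : G0 → K), IsIrr n θ → ∀ t, Γ.sg t = -1 → θ ∘ Γ.cj t = θ →
    ∃ χ : G → K, IsIrr n χ ∧ χ ∘ Γ.ι = θ ∧ Γ.tw χ ≠ χ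
  a2 : ∀ (n : ℕ) (χ : G → K), IsIrr n χ → Γ.tw χ ≠ χ → IsIrr n (χ ∘ Γ.ι)
  b1 : ∀ (n : ℕ) (χ : G → K), IsIrr n χ → Γ.tw χ = χ → ∃ (m : ℕ) (θ : G0 → K), IsIrr m θ ∧
    n = 2 * m ∧ ∀ t, Γ.sg t = -1 → θ ∘ Γ.cj t ≠ θ ∧ χ ∘ Γ.ι = θ + θ ∘ Γ.cj t
  b2 : ∀ (m : ℕ) (θ : G0 → K), IsIrr m θ → ∀ t, Γ.sg t = -1 → θ ∘ Γ.cj t ≠ θ →
    ∃ χ : G → K, IsIrr (2 * m) χ ∧ Γ.tw χ = χ ∧ χ ∘ Γ.ι = θ + θ ∘ Γ.cj t
  c1 : ∀ χ ∈ Irr G, ∀ χ' ∈ Irr G, χ' ∘ Γ.ι = χ ∘ Γ.ι → χ' = χ ∨ χ' = Γ.tw χ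
  c2 : ∀ θ ∈ Irr G0, ∀ θ' ∈ Irr G0, ∀ t, θ' + θ' ∘ Γ.cj t = θ + θ ∘ Γ.cj t →
    θ' = θ ∨ θ' = θ ∘ Γ.cj t
  ipι : ∀ [Fintype G] [Fintype G0] (f g : G → K), (∀ x, Γ.sg x = -1 → f x = 0) →
    ip (f ∘ Γ.ι) (g ∘ Γ.ι) = 2 * ip f g
  rel : ∀ p : ℕ, p.Prime → p ≠ 2 → ∀ ω : ℤˣ,
    2 * (Γ.IA p ω).ncard = 2 * (Γ.IQ p ∅ ω 1).ncard + (Γ.IM p ∅ ω 1).ncard

def IxSt : Prop := ∀ (G G0 : Type) [Group G] [Group G0] [Finite G] (Γ : Gr G G0), IxG Γ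

/-- the hypotheses of the counting lemmas. -/
structure AbsH {G G0 : Type} [Group G] [Group G0] (Γ : Gr G G0) (p : ℕ) (T : Subgroup G) (M : ℕ)
    (S : Set Ga) : Prop where
  nrm : T.Normal
  ev : ∀ r ∈ T, Γ.sg r = 1
  hG : ∀ χ ∈ Irr G, χ ∈ IrrP G p ↔ ∀ r ∈ T, ∀ x, χ (r * x) = χ x
  hG0 : ∀ θ ∈ Irr G0, θ ∈ IrrP G0 p ↔ ∀ r ∈ T, ∀ x y, Γ.ι y = r * Γ.ι x → θ y = θ x
  pos : 0 < M
  exp : ∀ g : G, g ^ M = 1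
  stab : ∀ ω, Γ.Sp T ω 0 (fun x => Γ.sg x = 1) M ∅ 1 ≤ Γ.Sp T ω 0 (fun x => Γ.sg x = 1) M S 1

def AbsCSt : Prop := ∀ (G G0 : Type) [Group G] [Group G0] [Finite G] (Γ : Gr G G0) (p : ℕ)
  (T : Subgroup G) (M : ℕ) (S : Set Ga), AbsH Γ p T M S → (∀ ω, Γ.Cov p S ω) ∧
  (Γ.IA p 1).ncard = finrank K (Γ.Sp T 1 0 (fun _ => True) M ∅ 1)

def AbsMSt : Prop := ∀ (G G0 : Type) [Group G] [Group G0] [Finite G] (Γ : Gr G G0) (p : ℕ)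
  (T : Subgroup G) (M : ℕ) (S : Set Ga), AbsH Γ p T M S → ∀ ω ε, Γ.Cov p S ω →
  (Γ.IM p S ω ε).ncard = 2 * finrank K (Γ.Sp T ω 1 (fun x => Γ.sg x = 1) M S ε)

def AbsQSt : Prop := ∀ (G G0 : Type) [Group G] [Group G0] [Finite G] (Γ : Gr G G0) (p : ℕ)
  (T : Subgroup G) (M : ℕ) (S : Set Ga), AbsH Γ p T M S → ∀ ω ε, Γ.Cov p S ω →
  (Γ.IQ p S ω ε).ncard = 2 * finrank K (Γ.Sp T ω 0 (fun x => Γ.sg x = -1) M S ε)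

def OrbSt : Prop := ∀ (G : Type) [Group G] [Finite G] (Γ : Sg G) (T : Subgroup G) [T.Normal]
  (ω : ℤˣ) (a : ℕ) (P : G → Prop) (M : ℕ) (S : Set Ga) (ε : Ga → ℤˣ) (L : Type) (inv : G → L),
  2 ∣ M → (∀ x y, (∃ u, Γ.Rel T ω a x y u) ↔ inv x = inv y) →
  (∀ x y, inv x = inv y → P x → P y) →
  (∀ σ ∈ S, ∀ s, Ex M σ s → ∀ x, inv (x ^ s) = inv x) →
  finrank K (Γ.Sp T ω a P M S ε) = Nat.card {m : L // ∃ x, inv x = m ∧ P x ∧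
    (∀ u, Γ.Rel T ω a x x u → u = 1) ∧ ∀ σ ∈ S, ∀ s, Ex M σ s → Γ.Rel T ω a x (x ^ s) (ε σ)}

/-- an `S`-equivariant bijection. -/
def FA1 (p : ℕ) (S : Set Ga) (G N : Type) [Group G] [Group N] : Prop :=
  ∃ f : IrrP G p ≃ IrrP N p, ∀ σ ∈ S, ∀ χ χ' : IrrP G p, χ'.1 = σ ∘ χ.1 →
    (f χ').1 = σ ∘ (f χ).1

/-- a bijection for the even parts that respects types, central signs and signs of `S`. -/
def FA2 {G G0 N N0 : Type} [Group G] [Group G0] [Group N] [Group N0] (Γ : Gr G G0) (Δ : Gr N N0)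
    (p : ℕ) (S : Set Ga) : Prop :=
  ∃ f : IrrP G0 p ≃ IrrP N0 p, ∀ θ : IrrP G0 p,
    (∃ ω ε, θ.1 ∈ Γ.IM p S ω ε ∧ (f θ).1 ∈ Δ.IM p S ω ε ∧ ∀ t t', Γ.sg t = -1 → Δ.sg t' = -1 →
      ∀ θ' : IrrP G0 p, θ'.1 = θ.1 ∘ Γ.cj t → (f θ').1 = (f θ).1 ∘ Δ.cj t') ∨
    ∃ ω ε χ ψ, χ ∈ Γ.IQ p S ω ε ∧ ψ ∈ Δ.IQ p S ω ε ∧ θ.1 = χ ∘ Γ.ι ∧ (f θ).1 = ψ ∘ Δ.ι

def FaHyp {G G0 N N0 : Type} [Group G] [Group G0] [Group N] [Group N0] (Γ : Gr G G0)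
    (Δ : Gr N N0) (p : ℕ) (S : Set Ga) : Prop :=
  (∀ ω, Γ.Cov p S ω) ∧ (∀ ω, Δ.Cov p S ω) ∧
  (∀ ω ε, (Γ.IM p S ω ε).ncard = (Δ.IM p S ω ε).ncard) ∧
  ∀ ω ε, (Γ.IQ p S ω ε).ncard = (Δ.IQ p S ω ε).ncard

def Fa1St : Prop := ∀ (G G0 N N0 : Type) [Group G] [Group G0] [Group N] [Group N0] [Finite G]
  [Finite N] (Γ : Gr G G0) (Δ : Gr N N0) (p : ℕ) (S : Set Ga), p.Prime → p ≠ 2 →
  FaHyp Γ Δ p S → FA1 p S G N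

def Fa2St : Prop := ∀ (G G0 N N0 : Type) [Group G] [Group G0] [Group N] [Group N0] [Finite G]
  [Finite N] (Γ : Gr G G0) (Δ : Gr N N0) (p : ℕ) (S : Set Ga), p.Prime → p ≠ 2 →
  FaHyp Γ Δ p S → FA2 Γ Δ p S

def FbSt : Prop := ∀ (G G0 N : Type) [Group G] [Group G0] [Group N] [Finite G] (Γ : Gr G G0)
  (p : ℕ) (R : Subgroup G0) (Δ : Gr N (Subgroup.normalizer (R : Set G0))) (j : N →* G),
  p.Prime → Function.Injective j → (∀ g, (∀ x, Γ.cj g x ∈ R ↔ x ∈ R) ↔ ∃ y, j y = g) →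
  (∀ y, Γ.sg (j y) = Δ.sg y) → j Δ.z = Γ.z → (∀ x, j (Δ.ι x) = Γ.ι x) →
  (∀ g, (∀ x, g * Γ.ι x = Γ.ι x * g) → g = 1 ∨ g = Γ.z) →
  (∀ γ : MulAut G0, ∃ g, Γ.cjA g = γ) → Subgroup.normalizer (R : Set G0) ≠ ⊤ →
  FA2 Γ Δ p (Hl p) → NSV.Inductive p G0 R

/-! ### Brauer and Ito -/

/-- quasi-elementary groups. -/
def QE (H : Type) [Group H] : Prop :=
  ∃ (l : ℕ) (C : Subgroup H) (_ : C.Normal), l.Prime ∧ IsCyclic C ∧ IsPGroup l (H ⧸ C)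

def SolSt : Prop := ∀ (G : Type) [Group G] [Fintype G] [DecidableEq G],
  (1 : G → K) ∈ AddSubgroup.closure
    {f : G → K | ∃ (H : Subgroup G) (_ : Fintype H), QE H ∧ f = ind H.subtype 1}

def MonSt : Prop := ∀ (G : Type) [Group G] [Fintype G] [DecidableEq G], QE G → ∀ χ ∈ Irr G,
  ∃ (H : Subgroup G) (_ : Fintype H) (l : H →* K), χ = ind H.subtype ⇑l

def BrSt : Prop := ∀ (G : Type) [Group G] [Finite G] (n : ℕ) (χ : G → K), IsIrr n χ →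
  ∃ ρ : G →* Matrix (Fin n) (Fin n) K, (∀ x, (ρ x).trace = χ x) ∧ ∀ x i j, ρ x i j ∈ NSV.Qab

def ItoSt : Prop := ∀ (G : Type) [Group G] [Finite G] (p : ℕ) (R : Subgroup G), p.Prime →
  R.Normal → IsPGroup p R → ¬ p ∣ R.index → ∀ χ ∈ Irr G,
    χ ∈ IrrP G p ↔ ∀ r ∈ ⁅R, R⁆, ∀ x, χ (r * x) = χ x

/-! ### square roots and Galois automorphisms -/

structure CmpSt : Prop where
  symm : ∀ (p : ℕ) (D D' : ℤ), Cmp p D D' → Cmp p D' D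
  ne : ∀ (p : ℕ) (D D' : ℤ), p.Prime → Cmp p D D' → D ≠ 0 ∧ D' ≠ 0
  refl : ∀ (p : ℕ) (D : ℤ), p.Prime → D ≠ 0 → Cmp p D D
  trans : ∀ (p : ℕ) (D D' D'' : ℤ), p.Prime → Cmp p D D' → Cmp p D' D'' → Cmp p D D''
  mul : ∀ (p : ℕ) (a b c d : ℤ), p.Prime → Cmp p a b → Cmp p c d → Cmp p (a * c) (b * d)
  prod : ∀ (p : ℕ) (ι : Type) (s : Multiset ι) (a b : ι → ℤ), p.Prime →
    (∀ i ∈ s, Cmp p (a i) (b i)) → Cmp p (s.map a).prod (s.map b).prod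
  sq : ∀ (p : ℕ) (D e : ℤ), p.Prime → D ≠ 0 → e ≠ 0 → Cmp p (D * e ^ 2) D
  cancel : ∀ (p : ℕ) (a b c : ℤ), p.Prime → Cmp p (a * c) (b * c) → Cmp p a b
  move : ∀ (p : ℕ) (a b c : ℤ), Cmp p (a * c) b → Cmp p a (b * c)
  unit : ∀ (p : ℕ) (D D' : ℤ), jacobiSym (D * D') p = 1 → Cmp p D D'
  zmod : ∀ (p : ℕ) (D D' : ℤ) (c : ZMod p), p.Prime → c ≠ 0 →
    ((D * D' : ℤ) : ZMod p) = c ^ 2 → Cmp p D D'
  sim_refl : ∀ (p : ℕ) (ρ : Multiset ℕ), p.Prime → Sim p ρ ρ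
  sim_trans : ∀ (p : ℕ) (ρ ρ' ρ'' : Multiset ℕ), p.Prime → Sim p ρ ρ' → Sim p ρ' ρ'' →
    Sim p ρ ρ''
  sim_add : ∀ (p : ℕ) (κ ρ ρ' : Multiset ℕ), p.Prime → Sim p ρ ρ' → Sim p (κ + ρ) (κ + ρ')
  sim_map : ∀ (p : ℕ) (ρ ρ' : Multiset ℕ), p.Prime → Sim p ρ ρ' →
    Sim p (ρ.map (p * ·)) (ρ'.map (p * ·))
  sim_dm : ∀ (p : ℕ) (q : ℤˣ) (n : ℕ) (ρ ρ' : Multiset ℕ), p.Prime → Sim p ρ ρ' → 0 ∉ ρ →
    ρ.card ≤ n → ρ'.card ≤ n → Cmp p (Dm q n ρ) (Dm q n ρ')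
  dm_ne : ∀ (q : ℤˣ) (n : ℕ) (ρ : Multiset ℕ), 0 ∉ ρ → Dm q n ρ ≠ 0

structure SqSt : Prop where
  ex : ∀ (M : ℕ) (σ : Ga), 0 < M → ∃ s, Ex M σ s
  cop : ∀ (M : ℕ) (σ : Ga) (s : ℕ), 0 < M → Ex M σ s → s.Coprime M
  dvd : ∀ (M M' : ℕ) (σ : Ga) (s : ℕ), M ∣ M' → Ex M' σ s → Ex M σ s
  refl : ∀ M : ℕ, Ex M (RingEquiv.refl K) 1
  eps_ex : ∀ (D : ℤ) (σ : Ga), ∃ u, Eps D σ u
  eps_uniq : ∀ (D : ℤ) (σ : Ga) (u v : ℤˣ), D ≠ 0 → Eps D σ u → Eps D σ v → u = v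
  eps_refl : ∀ (D : ℤ) (u : ℤˣ), D ≠ 0 → Eps D (RingEquiv.refl K) u → u = 1
  eps_of : ∀ (D : ℤ) (σ : Ga) (u : ℤˣ) (y : K), y ^ 2 = D → σ y = uK u * y → Eps D σ u
  eps_mul : ∀ (D D' : ℤ) (σ : Ga) (u v : ℤˣ), Eps D σ u → Eps D' σ v → Eps (D * D') σ (u * v)
  eps_sq : ∀ (e : ℤ) (σ : Ga), Eps (e ^ 2) σ 1
  eps_pow : ∀ (D : ℤ) (σ : Ga) (u : ℤˣ) (k : ℕ), Eps D σ u → Eps (D ^ k) σ (u ^ k)
  eps_prod : ∀ (ι : Type) (s : Multiset ι) (D : ι → ℤ) (u : ι → ℤˣ) (σ : Ga),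
    (∀ i ∈ s, Eps (D i) σ (u i)) → Eps (s.map D).prod σ (s.map u).prod
  pst : ∀ (p M : ℕ) (σ : Ga) (s : ℕ), p.Prime → p ≠ 2 → p ∣ M → Ex M σ s →
    Eps (pst p) σ (chi (s : ZMod p))
  neg : ∀ (M : ℕ) (σ : Ga) (s : ℕ), 4 ∣ M → Ex M σ s → Eps (-1) σ ((-1) ^ ((s - 1) / 2))
  zol : ∀ (r M : ℕ) (σ : Ga) (s : ℕ), 0 < r → r ∣ M → Ex M σ s →
    Eps ((-1) ^ (r - 1).choose 2 * (r : ℤ) ^ r) σ (zm r s)
  cmp : ∀ (p : ℕ) (D D' : ℤ) (σ : Ga) (u : ℤˣ), p.Prime → p ≠ 2 → σ ∈ Hl p → Cmp p D D' →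
    Eps D σ u → Eps D' σ u
  mod : ∀ (p M : ℕ) (σ : Ga) (s : ℕ), p.Prime → σ ∈ Hl p → p - 1 ∣ M → Ex M σ s →
    s ≡ 1 [MOD p - 1]
  hl : ∀ (p : ℕ) (σ : K ≃ₐ[ℚ] K), p.Prime → σ ∈ NSV.H p → σ.toRingEquiv ∈ Hl p
  chi_mul : ∀ (p : ℕ) (a b : ZMod p), p.Prime → a ≠ 0 → b ≠ 0 → chi (a * b) = chi a * chi b
  chi_neg : ∀ p : ℕ, p.Prime → p ≠ 2 → ∃ c : (ZMod p)ˣ, chi (c : ZMod p) = -1

/-! ### permutations -/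

structure PermA (Ω : Type) [Fintype Ω] [DecidableEq Ω] : Prop where
  sum : ∀ g : Perm Ω, (ty g).sum = Fintype.card Ω
  pos : ∀ g : Perm Ω, 0 ∉ ty g
  one : ty (1 : Perm Ω) = Multiset.replicate (Fintype.card Ω) 1
  conj : ∀ g h : Perm Ω, IsConj g h ↔ ty g = ty h
  ex : ∀ ρ : Multiset ℕ, 0 ∉ ρ → ρ.sum = Fintype.card Ω → ∃ g : Perm Ω, ty g = ρ
  sign : ∀ g : Perm Ω, Perm.sign g = (-1) ^ (Fintype.card Ω + (ty g).card)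
  inv : ∀ g : Perm Ω, ty g⁻¹ = ty g
  pow : ∀ (g : Perm Ω) (s : ℕ), s.Coprime (orderOf g) → ty (g ^ s) = ty g
  per : ∀ (g : Perm Ω) (r : ℕ), r * (ty g).count r =
    (Finset.univ.filter fun x => Function.minimalPeriod g x = r).card
  congr : ∀ (Ω' : Type) [Fintype Ω'] [DecidableEq Ω'] (e : Ω ≃ Ω') (g : Perm Ω),
    ty (e.permCongr g) = ty g
  tyI_univ : ∀ g : Perm Ω, tyI Finset.univ g = ty g
  tyI_eq : ∀ (I : Finset Ω) (g : Perm Ω), (∀ i ∉ I, g i = i) →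
    ty g = tyI I g + Multiset.replicate (Fintype.card Ω - I.card) 1
  tyI_sum : ∀ (I : Finset Ω) (g : Perm Ω), (∀ i ∉ I, g i = i) → (tyI I g).sum = I.card
  tyI_sub : ∀ (I : Finset Ω) (g : Perm I), tyI I (Perm.ofSubtype g) = ty g
  tyI_mul : ∀ (I J : Finset Ω) (g h : Perm Ω), Disjoint I J → (∀ i ∉ I, g i = i) →
    (∀ i ∉ J, h i = i) → tyI (I ∪ J) (g * h) = tyI I g + tyI J h
  tyI_conj : ∀ (I : Finset Ω) (g h : Perm Ω), (∀ i ∉ I, g i = i) → (∀ i ∉ I, h i = i) →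
    tyI I g = tyI I h → ∃ k : Perm Ω, (∀ i ∉ I, k i = i) ∧ h = k * g * k⁻¹
  dict : ∀ F : Multiset ℕ → K,
    ((Fintype.card Ω).factorial : K)⁻¹ * ∑ g : Perm Ω, F (ty g) = Av (Fintype.card Ω) F

structure PermB (Ω : Type) [Fintype Ω] [DecidableEq Ω] : Prop where
  oc_zp : ∀ g : Perm Ω, oc (Subgroup.zpowers g) = (ty g).card
  oc_map : ∀ (Ω' : Type) (e : Ω ≃ Ω') (Δ : Subgroup (Perm Ω)),
    oc (Δ.map e.permCongrHom.toMonoidHom) = oc Δ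
  so_congr : ∀ (Ω' : Type) (e : Ω ≃ Ω') (l h : Perm Ω),
    so (e.permCongr l) (e.permCongr h) = so l h
  so_conj : ∀ k l h : Perm Ω, so (k * l * k⁻¹) (k * h * k⁻¹) = so l h
  so_eq : ∀ (l h : Perm Ω) (O : Type) [Fintype O] [DecidableEq O] (f : Ω → O) (η : Perm O),
    Function.Surjective f → (∀ x y, f x = f y ↔ l.SameCycle x y) → (∀ x, f (h x) = η (f x)) →
    so l h = Perm.sign η
  so_ex : ∀ (l h : Perm Ω), h * l * h⁻¹ ∈ Subgroup.zpowers l →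
    ∃ η : Perm (Quotient (Perm.SameCycle.setoid l)), ∀ x, Quotient.mk _ (h x) = η (Quotient.mk _ x)
  so_mul : ∀ l h h' : Perm Ω, h * l * h⁻¹ ∈ Subgroup.zpowers l →
    h' * l * h'⁻¹ ∈ Subgroup.zpowers l → so l (h * h') = so l h * so l h'
  so_fix : ∀ l h : Perm Ω, (∀ x, l.SameCycle x (h x)) → so l h = 1
  strict : ∀ (l h : Perm Ω) (s : ℕ), (ty l).Nodup → h * l * h⁻¹ = l ^ s → so l h = 1
  nonstrict : ∀ l : Perm Ω, ¬ (ty l).Nodup → ∃ h : Perm Ω, h * l * h⁻¹ = l ∧ so l h = -1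

def PermASt : Prop := ∀ (Ω : Type) [Fintype Ω] [DecidableEq Ω], PermA Ω
def PermBSt : Prop := ∀ (Ω : Type) [Fintype Ω] [DecidableEq Ω], PermB Ω

/-! ### functions on cycle types -/

structure AvSt : Prop where
  congr : ∀ (n : ℕ) (F G : Multiset ℕ → K), (∀ ρ, ρ.sum = n → 0 ∉ ρ → F ρ = G ρ) →
    Av n F = Av n G
  single : ∀ ρ : Multiset ℕ, 0 ∉ ρ → Av ρ.sum (Pi.single ρ 1) ≠ 0
  fub : ∀ (a b : ℕ) (F F' Φ : Multiset ℕ → K), (∀ ρ, F ρ ≠ 0 → ρ.sum = a) →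
    (∀ ρ, F' ρ ≠ 0 → ρ.sum = b) → Av (a + b) (fun ρ => conv F F' ρ * Φ ρ) =
      Av a fun ρ1 => Av b fun ρ2 => F ρ1 * F' ρ2 * Φ (ρ1 + ρ2)
  sup : ∀ (l : List ℕ) (ρ : Multiset ℕ), UQ l ρ ≠ 0 → ρ.sum = l.sum ∧ ∀ m ∈ ρ, Odd m
  sup_perp : ∀ (k n : ℕ) (F : Multiset ℕ → K), (∀ ρ, F ρ ≠ 0 → ρ.sum = n) →
    ∀ ρ, perp k F ρ ≠ 0 → k + ρ.sum = n
  perp_zero : ∀ F : Multiset ℕ → K, perp 0 F = F

def FkBSt : Prop := ∀ l l' : List ℕ, l.Nodup → 0 ∉ l → l'.Nodup → 0 ∉ l' → l'.sum = l.sum →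
  Av l.sum (UQ l * UQ l) = 1 ∧ ((l : Multiset ℕ) ≠ l' → Av l.sum (UQ l * UQ l') = 0)

def FkDSt : Prop := ∀ (j : ℕ) (l : List ℕ), 0 < j → UQ (j :: j :: l) = 0

def FkCSt : Prop := ∀ l : List ℕ, l.Pairwise (· > ·) → 0 ∉ l →
  UQ l (Multiset.replicate l.sum 1) * (Hs l.toFinset : K) =
    rt2 ^ (l.sum - l.length) * (l.sum.factorial : K) * (Vd l.toFinset : K)

/-! ### characters of symmetric groups -/

structure MnSt : Prop where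
  base : ∀ (N : ℕ) (β : Fin N → ℕ),
    cf β 0 = ∑ w : Perm (Fin N), if β = fun i => (w i : ℕ) then (Perm.sign w : ℤ) else 0
  step : ∀ (N : ℕ) (β : Fin N → ℕ) (r : ℕ) (ρ : Multiset ℕ), cf β (r ::ₘ ρ) =
    ∑ i, if r ≤ β i then cf (Function.update β i (β i - r)) ρ else 0
  anti : ∀ (N : ℕ) (β : Fin N → ℕ) (w : Perm (Fin N)) (ρ : Multiset ℕ),
    cf (β ∘ w) ρ = Perm.sign w * cf β ρ
  rep : ∀ (N : ℕ) (β : Fin N → ℕ) (ρ : Multiset ℕ), ¬ Function.Injective β → cf β ρ = 0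
  mono : ∀ (N : ℕ) (β : Fin N → ℕ) (A : Finset ℕ) (ρ : Multiset ℕ), StrictMono β →
    Finset.univ.image β = A → cfS A ρ = cf β ρ
  baseS : ∀ A : Finset ℕ, cfS A 0 = if A = Finset.range A.card then 1 else 0
  stepS : ∀ (A : Finset ℕ) (r : ℕ) (ρ : Multiset ℕ), 0 < r → cfS A (r ::ₘ ρ) =
    ∑ x ∈ A with (r ≤ x ∧ x - r ∉ A), (-1) ^ (A.filter fun y => x - r < y ∧ y < x).card *
      cfS (insert (x - r) (A.erase x)) ρ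

def NsASt : Prop := ∀ (Ω : Type) [Fintype Ω] [DecidableEq Ω] (N : ℕ) (β : Fin N → ℕ),
  (fun g : Perm Ω => (cf β (ty g) : K)) ∈ VC (Perm Ω)

def NsBSt : Prop := ∀ (n : ℕ) (A B : Finset ℕ), B.card = A.card →
  A.sum id = n + A.card.choose 2 → B.sum id = n + A.card.choose 2 →
  Av n (fun ρ => (cfS A ρ : K) * (cfS B ρ : K)) = if A = B then 1 else 0

def NsCSt : Prop := ∀ (n : ℕ) (A : Finset ℕ), A.sum id = n + A.card.choose 2 →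
  cfS A (Multiset.replicate n 1) * (∏ a ∈ A, a.factorial : ℕ) = (n.factorial * Vd A : ℕ)

def NsDSt : Prop := ∀ (N : ℕ) (w : Finset ℕ × Finset ℕ), w.1.card = w.2.card →
  (∀ a ∈ w.1, a < N) → (∀ b ∈ w.2, b < N) → ∀ ρ : Multiset ℕ, 0 ∉ ρ →
  cfS (bs N w.swap) ρ = (-1) ^ (ρ.sum + ρ.card) * cfS (bs N w) ρ

def NsESt : Prop := ∀ (N : ℕ) (A : Finset ℕ), (∀ a ∈ A, a < N) →
  cfS (bs N (A, A)) (hk A) ^ 2 = 1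

def NsSt : Prop := ∀ (Ω : Type) [Fintype Ω] [DecidableEq Ω],
  ∃ c : Finset ℕ × Finset ℕ → Perm Ω → K,
    Set.BijOn c (PT (Fintype.card Ω)) (Irr (Perm Ω)) ∧ ∀ w ∈ PT (Fintype.card Ω),
      c w 1 * (Hn w : K) = ((Fintype.card Ω).factorial * (Vd w.1 * Vd w.2) : ℕ) ∧
      (∀ g, c w.swap g = uK (Perm.sign g) * c w g) ∧ (∀ g, ∃ m : ℤ, c w g = m) ∧
      (w.2 = w.1 → ∀ g, ty g = hk w.1 → c w g * c w g = 1)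

/-! ### spin covers -/

structure CbC {Ω : Type} [Fintype Ω] [DecidableEq Ω] {X : Type} [Group X] (C : Cover Ω X) :
    Prop where
  lift : ∀ x y, C.π x = C.π y → ∃ j : ℕ, y = C.z ^ j * x
  t_mem : ∀ (I : Finset Ω), ∀ i ∈ I, ∀ j ∈ I, i ≠ j → C.t i j ∈ C.sub I
  gen : ∀ I : Finset Ω,
    C.sub I = Subgroup.closure ({C.z} ∪ {x | ∃ i ∈ I, ∃ j ∈ I, i ≠ j ∧ x = C.t i j})
  univ : C.sub Finset.univ = ⊤
  comm : ∀ I J : Finset Ω, Disjoint I J → ∀ x ∈ C.sub I, ∀ y ∈ C.sub J,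
    x * y = C.toSg.zp (C.toSg.sg x) (C.toSg.sg y) * (y * x)
  card : ∀ I : Finset Ω, Nat.card (C.sub I) = 2 * I.card.factorial
  dict : ∀ (I : Finset Ω) [Fintype (C.sub I)] (F : Multiset ℕ → K),
    (Fintype.card (C.sub I) : K)⁻¹ * ∑ x : C.sub I, F (tyI I (C.π x)) = Av I.card F
  dictX : ∀ [Fintype X] (F : Multiset ℕ → K),
    (Nat.card X : K)⁻¹ * ∑ x : X, F (ty (C.π x)) = Av (Fintype.card Ω) F
  conj : ∀ I : Finset Ω, ∀ x ∈ C.sub I, ∀ y ∈ C.sub I, tyI I (C.π x) = tyI I (C.π y) →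
    ∃ h ∈ C.sub I, ∃ j : ℕ, h * x * h⁻¹ = C.z ^ j * y
  ex : ∀ (I : Finset Ω) (ρ : Multiset ℕ), 0 ∉ ρ → ρ.sum = I.card →
    ∃ x ∈ C.sub I, tyI I (C.π x) = ρ
  odd : ∀ I : Finset Ω, 2 ≤ I.card → ∃ t, (C.sgI I).sg t = -1
  cent : 4 ≤ Fintype.card Ω → ∀ g : X, (∀ x, C.toSg.sg x = 1 → g * x = x * g) → g = 1 ∨ g = C.z
  tri : ∀ I J : Finset Ω, Disjoint I J → ∃ T : Tri (C.sgI I) (C.sgI J) (C.sgI (I ∪ J)),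
    (∀ x, (T.α x : X) = x) ∧ ∀ y, (T.β y : X) = y
  map : ∀ (Ω' : Type) [Fintype Ω'] [DecidableEq Ω'] (e : Ω ≃ Ω'), ∃ C' : Cover Ω' X,
    (∀ x, C'.π x = e.permCongr (C.π x)) ∧ C'.z = C.z ∧ C'.q = C.q

def CbSt : Prop := ∀ (Ω : Type) [Fintype Ω] [DecidableEq Ω] (X : Type) [Group X] (C : Cover Ω X),
  CbC C

/-- the presentation lemma. -/
def CoxSt : Prop := ∀ (Ω : Type) [Fintype Ω] [DecidableEq Ω] (Y : Type) [Group Y]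
  (I : Finset Ω) (Z : Y) (T : Ω → Ω → Y) (f : Y →* Perm Ω), Z * Z = 1 → f Z = 1 →
  (∀ i ∈ I, ∀ j ∈ I, i ≠ j → f (T i j) = swap i j ∧ Z * T i j = T i j * Z ∧
    (T i j * T i j = 1 ∨ T i j * T i j = Z) ∧ ∀ k ∈ I, ∀ l ∈ I, k ≠ l →
      T k l * T i j * (T k l)⁻¹ = Z * T (swap k l i) (swap k l j)) →
  ∀ y ∈ Subgroup.closure ({Z} ∪ {x | ∃ i ∈ I, ∃ j ∈ I, i ≠ j ∧ x = T i j}), f y = 1 →
    y = 1 ∨ y = Z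

def LiftSt : Prop := ∀ (Ω : Type) [Fintype Ω] [DecidableEq Ω] (X : Type) [Group X]
  (C : Cover Ω X) (I : Finset Ω) (A : Type) [Ring A] [Algebra K A] (g : Ω → A) (κ : K),
  2 * κ ^ 2 = uK C.q → (∀ i ∈ I, g i * g i = 1) →
  (∀ i ∈ I, ∀ j ∈ I, i ≠ j → g i * g j = -(g j * g i)) →
  ∃ Φ : C.sub I →* A, Φ (C.sgI I).z = -1 ∧
    ∀ (x : C.sub I), ∀ i ∈ I, ∀ j ∈ I, i ≠ j → (x : X) = C.t i j → Φ x = κ • (g i - g j)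

def GamSt : Prop := ∀ (r : ℕ) (J : Type) [Fintype J], Fintype.card J ≤ 2 * r + 1 →
  ∃ g : J → Matrix (Fin (2 ^ r)) (Fin (2 ^ r)) K,
    (∀ i, g i * g i = 1) ∧ ∀ i j, i ≠ j → g i * g j = -(g j * g i)

def CovSt : Prop := ∀ (Ω : Type) [Fintype Ω] [DecidableEq Ω] (X : Type) [Group X]
  (π : X →* Perm Ω), Function.Surjective π → Nat.card π.ker = 2 →
  (∃ (x y : X) (a b c d : Ω), [a, b, c, d].Nodup ∧ π x = swap a b ∧ π y = swap c d ∧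
    x * y ≠ y * x) → ∃ C : Cover Ω X, C.π = π

def ModSt : Prop := ∀ (Ω : Type) [Fintype Ω] [DecidableEq Ω] (q : ℤˣ),
  ∃ (X : Type) (_ : Group X) (_ : Finite X) (C : Cover Ω X), C.q = q

/-- the part of `Tau` that does not mention lattices, and the universal trace formula. -/
structure Tau0 {Ω : Type} [Fintype Ω] [DecidableEq Ω] {X : Type} [Group X] (C : Cover Ω X)
    (τ : X → K) : Prop where
  sq1 : ∀ x, (∀ m ∈ ty (C.π x), Odd m) → τ x * τ x = 1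
  sq0 : ∀ x, ¬ (∀ m ∈ ty (C.π x), Odd m) → τ x = 0
  one : τ 1 = 1
  zneg : ∀ x, τ (C.z * x) = -τ x
  cl : Cl τ
  inv : ∀ x, τ x⁻¹ = τ x
  mul : ∀ I J : Finset Ω, Disjoint I J → ∀ x ∈ C.sub I, ∀ y ∈ C.sub J, τ (x * y) = τ x * τ y
  pow : ∀ (M : ℕ) (σ : Ga) (s : ℕ) (x : X), 0 < M → x ^ M = 1 → Ex M σ s → τ (x ^ s) = τ x
  univ : ∀ (I : Finset Ω) (m : Type) [Fintype m] [DecidableEq m] (g : Ω → Matrix m m K) (κ : K)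
    (Φ : C.sub I →* Matrix m m K), 2 * κ ^ 2 = uK C.q → (∀ i ∈ I, g i * g i = 1) →
    (∀ i ∈ I, ∀ j ∈ I, i ≠ j → g i * g j = -(g j * g i)) → Φ (C.sgI I).z = -1 →
    (∀ (x : C.sub I), ∀ i ∈ I, ∀ j ∈ I, i ≠ j → (x : X) = C.t i j → Φ x = κ • (g i - g j)) →
    ∀ x : C.sub I, Perm.sign (C.π x) = 1 →
      (Φ x).trace * rt2 ^ I.card = Fintype.card m * τ x * rt2 ^ (tyI I (C.π x)).card

def TauASt : Prop := ∀ (Ω : Type) [Fintype Ω] [DecidableEq Ω] (X : Type) [Group X] [Finite X]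
  (C : Cover Ω X), ∃ τ, Tau0 C τ

def TauBSt : Prop := ∀ (Ω : Type) [Fintype Ω] [DecidableEq Ω] (X : Type) [Group X] [Finite X]
  (C : Cover Ω X) (τ : X → K), Tau0 C τ → Tau C τ

/-- every element of `C.sub I` is, up to `z`, a reduced word in the generators. -/
def WordSt : Prop := ∀ (Ω : Type) [Fintype Ω] [DecidableEq Ω] (X : Type) [Group X]
  (C : Cover Ω X) (I : Finset Ω), ∀ x ∈ C.sub I, ∃ (e : ℕ) (L : List (Ω × Ω)),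
    (∀ w ∈ L, w.1 ∈ I ∧ w.2 ∈ I ∧ w.1 ≠ w.2 ∧ (C.π x).SameCycle w.1 w.2) ∧
    L.length + (tyI I (C.π x)).card = I.card ∧ x = C.z ^ e * (L.map fun w => C.t w.1 w.2).prod

/-- the product of all generators times the product of the orbit sums. -/
def Wd {Ω A : Type} [Ring A] (g : Ω → A) (L : List Ω) (LO : List (Finset Ω)) : A :=
  (L.map g).prod * (LO.map fun O => ∑ i ∈ O, g i).prod

/-- `L` lists the points and `LO` lists the orbits of `l`. -/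
def Orb {Ω : Type} [Fintype Ω] [DecidableEq Ω] (l : Perm Ω) (L : List Ω)
    (LO : List (Finset Ω)) : Prop :=
  L.Nodup ∧ (∀ i, i ∈ L) ∧ LO.Nodup ∧
    ∀ O, O ∈ LO ↔ ∃ x, O = Finset.univ.filter fun y => l.SameCycle x y

def UfW1St : Prop := ∀ (Ω : Type) [Fintype Ω] [DecidableEq Ω] (A : Type) [Ring A] (g : Ω → A)
  (l : Perm Ω) (L : List Ω) (LO : List (Finset Ω)), (∀ i, g i * g i = 1) →
  (∀ i j, i ≠ j → g i * g j = -(g j * g i)) → Orb l L LO →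
  Wd g L LO * Wd g L LO =
    (((-1) ^ (Fintype.card Ω - (ty l).card).choose 2 * ((ty l).prod : ℕ) : ℤ) : A) ∧
  ∀ (a : A) (h : Perm Ω) (u : ℤˣ), (∀ i, a * g i = (u : ℤ) • (g (h i) * a)) →
    h * l * h⁻¹ ∈ Subgroup.zpowers l → a * Wd g L LO =
      ((u ^ (Fintype.card Ω + (ty l).card) * Perm.sign h * so l h : ℤˣ) : ℤ) • (Wd g L LO * a)

def UfW2St : Prop := ∀ (Ω : Type) [Fintype Ω] [DecidableEq Ω] (X : Type) [Group X]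
  (C : Cover Ω X) (m : Type) [Fintype m] [DecidableEq m] (g : Ω → Matrix m m K) (κ : K)
  (Φ : X →* Matrix m m K) (x : X) (L : List Ω) (LO : List (Finset Ω)), (∀ i, g i * g i = 1) →
  (∀ i j, i ≠ j → g i * g j = -(g j * g i)) → Φ C.z = -1 →
  (∀ i j, i ≠ j → Φ (C.t i j) = κ • (g i - g j)) → Orb (C.π x) L LO →
  (Φ x * Wd g L LO).trace ^ 2 = (Fintype.card m * κ ^ (Fintype.card Ω - (ty (C.π x)).card) *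
    ((ty (C.π x)).prod : ℕ)) ^ 2

def TauSt : Prop := ∀ (Ω : Type) [Fintype Ω] [DecidableEq Ω] (X : Type) [Group X] [Finite X]
  (C : Cover Ω X), ∃ τ, Tau C τ

def UfSt : Prop := ∀ (Ω : Type) [Fintype Ω] [DecidableEq Ω] (X : Type) [Group X] [Finite X]
  (C : Cover Ω X) (x h : X) (j s M : ℕ) (σ : Ga), 0 < M → x ^ M = 1 → Ex M σ s →
  h * x * h⁻¹ = C.z ^ j * x ^ s →
  Eps (Dm C.q (Fintype.card Ω) (ty (C.π x))) σ ((-1) ^ j * so (C.π x) (C.π h) *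
    if Perm.sign (C.π x) = 1 then Perm.sign (C.π h) else 1)

def AutSt : Prop := ∀ (Ω : Type) [Fintype Ω] [DecidableEq Ω], 7 ≤ Fintype.card Ω →
  ∀ γ : MulAut (alternatingGroup Ω), ∃ s : Perm Ω, ∀ x, (γ x : Perm Ω) = s * x * s⁻¹

def Aut2St : Prop := ∀ (Ω : Type) [Fintype Ω] [DecidableEq Ω] (X X0 : Type) [Group X] [Group X0]
  (C : Cover Ω X) (Γ : Gr X X0), Γ.toSg = C.toSg → 7 ≤ Fintype.card Ω →
  (∀ γ : MulAut X0, ∃ g, Γ.cjA g = γ) ∧ ∀ (p : ℕ) (R : Subgroup X0), p.Prime → p ≠ 2 →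
    p ≤ Fintype.card Ω → IsPGroup p R → ¬ p ∣ R.index → Subgroup.normalizer (R : Set X0) ≠ ⊤

def IsoSt : Prop := ∀ (n : ℕ) (X0 : Type) [Group X0] [Finite X0]
  (f : X0 →* alternatingGroup (Fin n)), 8 ≤ n → commutator X0 = ⊤ → Function.Surjective f →
  f.ker ≤ Subgroup.center X0 → f.ker ≠ ⊥ →
  ∃ (X : Type) (_ : Group X) (_ : Finite X) (C : Cover (Fin n) X) (Γ : Gr X X0), Γ.toSg = C.toSg

/-! ### lattices of spin class functions -/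

structure LatG {G : Type} [Group G] (Γ : Sg G) : Prop where
  mono : ∀ e U (S S' : G → Prop), (∀ x, S x → S' x) → Γ.LS e U S → Γ.LS e U S'
  zero : ∀ e S, Γ.LS e 0 S
  add : ∀ e U V S, Γ.LS e U S → Γ.LS e V S → Γ.LS e (U + V) S
  neg : ∀ e U S, Γ.LS e U S → Γ.LS e (-U) S
  flip : ∀ e U S S', Γ.LS e U S → Γ.LS (-e) (rt2 • U) S'
  ev : ∀ e U S, Γ.LS e U S → ∀ x, Γ.sg x = -1 → U x = 0
  cl : ∀ e U S, Γ.LS e U S → Cl U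
  map : ∀ (G' : Type) [Group G'] [Finite G'] (Γ' : Sg G') (f : G' →* G),
    (∀ x, Γ.sg (f x) = Γ'.sg x) → f Γ'.z = Γ.z → ∀ e U S, Γ.LS e U S →
    Γ'.LS e (U ∘ f) (S ∘ f)

def LatSt : Prop := ∀ (G : Type) [Group G] [Finite G] (Γ : Sg G), LatG Γ

def Ext1St : Prop := ∀ (G : Type) [Group G] [Fintype G] (Γ : Sg G) (U : G → K) (S : G → Prop),
  Γ.L1 U S → ip U U = 1 → ∃ ψ ∈ Irr G, (∀ x, ψ (Γ.z * x) = -ψ x) ∧ Γ.tw ψ ≠ ψ ∧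
    (∃ u : ℤˣ, ∀ x, Γ.sg x = 1 → U x = uK u * rt2 * ψ x) ∧
    ∃ x, Γ.sg x = -1 ∧ S x ∧ ψ x⁻¹ ≠ 0

def Ext0St : Prop := ∀ (G G0 : Type) [Group G] [Group G0] [Fintype G] (Γ : Gr G G0)
  (U : G → K) (S : G → Prop), Γ.L0 U S → ip U U = 1 → ∃ θ ∈ Irr G0,
    (∀ x y, Γ.ι y = Γ.z * Γ.ι x → θ y = -θ x) ∧ ∀ t, Γ.sg t = -1 → θ ∘ Γ.cj t ≠ θ ∧
      (∃ u : ℤˣ, ∀ x, U (Γ.ι x) = uK u * (θ x + θ (Γ.cj t x))) ∧
      ∃ x, S (Γ.ι x) ∧ θ (Γ.cj t x⁻¹) ≠ θ x⁻¹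

def ProdSt (e : ℤˣ) : Prop := ∀ (A B G : Type) [Group A] [Group B] [Group G] [Fintype A]
  [Fintype B] [Fintype G] [DecidableEq G] (SA : Sg A) (SB : Sg B) (SG : Sg G)
  (T : Tri SA SB SG) (e' : ℤˣ) (U : A → K) (V : B → K) (S : A → Prop) (S' : B → Prop),
  (e = -1 → ∃ t, SA.sg t = -1) → SA.LS e U S → SB.LS e' V S' →
  SG.LS (e * e') (T.pr U V) fun g => ∃ (x : A) (y : B) (h : G) (j : ℕ), S x ∧ S' y ∧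
    g * h = h * (SG.z ^ j * (T.α x * T.β y))

def PerpSt (e : ℤˣ) : Prop := ∀ (A B G : Type) [Group A] [Group B] [Group G] [Fintype A]
  [Finite B] [Finite G] (SA : Sg A) (SB : Sg B) (SG : Sg G)
  (T : Tri SA SB SG) (e' : ℤˣ) (U : A → K) (F : G → K) (S : A → Prop) (S' : G → Prop),
  (e = -1 → ∃ t, SA.sg t = -1) → SA.LS e U S → SG.LS (e * e') F S' →
  SB.LS e' (T.prp U F) fun _ => True

/-- the twisted character on the subgroup of the elements `(x, sg x)`. -/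
def TwSt : Prop := ∀ (G E : Type) [Group G] [Group E] [Finite G] [Finite E] (Γ : Sg G)
  (f : E →* Γ.TP) (χ : G → K) (i : K), i * i = -1 → χ ∈ VC G → (∀ x, χ (Γ.z * x) = -χ x) →
  (∀ c, (f c).right = Γ.sg (f c).left) →
  (fun c => (if (f c).right = 1 then 1 else i) * χ (f c).left) ∈ VC E

def ConvSt : Prop := ∀ (Ω : Type) [Fintype Ω] [DecidableEq Ω] (X : Type) [Group X]
  (C : Cover Ω X) (τ : X → K), Tau C τ → ∀ (I J : Finset Ω) [Fintype (C.sub I)]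
  [Fintype (C.sub J)] [Fintype (C.sub (I ∪ J))] [DecidableEq (C.sub (I ∪ J))]
  (T : Tri (C.sgI I) (C.sgI J) (C.sgI (I ∪ J))) (F F' : Multiset ℕ → K), Disjoint I J →
  (∀ x, (T.α x : X) = x) → (∀ y, (T.β y : X) = y) → (∀ ρ, F ρ ≠ 0 → ρ.sum = I.card) →
  (∀ ρ, F' ρ ≠ 0 → ρ.sum = J.card) → ∀ g : C.sub (I ∪ J),
  T.pr (fun x => τ x * F (tyI I (C.π x))) (fun y => τ y * F' (tyI J (C.π y))) g =
    τ g * conv F F' (tyI (I ∪ J) (C.π g))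

def SpinSt : Prop := ∀ (Ω : Type) [Fintype Ω] [DecidableEq Ω] (X : Type) [Group X] [Finite X]
  (C : Cover Ω X) (τ : X → K), Tau C τ → ∀ (l : List ℕ), 0 ∉ l → ∀ I : Finset Ω,
  I.card = l.sum → (C.sgI I).LS ((-1) ^ (l.sum + l.length))
    (fun x => τ x * UQ l (tyI I (C.π x))) fun x => tyI I (C.π x) = (l : Multiset ℕ)

/-! ### the global counts -/

def GlmMSt : Prop := ∀ (Ω : Type) [Fintype Ω] [DecidableEq Ω] (X X0 : Type) [Group X] [Group X0]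
  [Finite X] (C : Cover Ω X) (Γ : Gr X X0), Γ.toSg = C.toSg → ∀ (p : ℕ) (S : Set Ga),
  p.Prime → p ≠ 2 → (∀ θ ∈ Γ.IM p ∅ (-1) 1, ∃ ε, θ ∈ Γ.IM p S (-1) ε) ∧
    ∀ ε, (Γ.IM p S (-1) ε).ncard = 2 * Nat.card {A // A ∈ STp p (Fintype.card Ω) ∧
      Even (Fintype.card Ω + A.card) ∧ ∀ σ ∈ S, Eps (Dm C.q (Fintype.card Ω) A.val) σ (ε σ)}

def GlmQSt : Prop := ∀ (Ω : Type) [Fintype Ω] [DecidableEq Ω] (X X0 : Type) [Group X] [Group X0]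
  [Finite X] (C : Cover Ω X) (Γ : Gr X X0), Γ.toSg = C.toSg → ∀ (p : ℕ) (S : Set Ga),
  p.Prime → p ≠ 2 → (∀ χ ∈ Γ.IQ p ∅ (-1) 1, ∃ ε, χ ∈ Γ.IQ p S (-1) ε) ∧
    ∀ ε, (Γ.IQ p S (-1) ε).ncard = 2 * Nat.card {A // A ∈ STp p (Fintype.card Ω) ∧
      ¬ Even (Fintype.card Ω + A.card) ∧ ∀ σ ∈ S, Eps (Dm C.q (Fintype.card Ω) A.val) σ (ε σ)}

def GlpSt : Prop := ∀ (Ω : Type) [Fintype Ω] [DecidableEq Ω] (X X0 : Type) [Group X] [Group X0]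
  [Finite X] (C : Cover Ω X) (Γ : Gr X X0), Γ.toSg = C.toSg → ∀ (p : ℕ) (S : Set Ga),
  p.Prime → p ≠ 2 → Γ.Cov p S 1 ∧
    (∀ ε, (Γ.IM p S 1 ε).ncard = 2 * Nat.card {A // A ∈ CTp p (Fintype.card Ω) ∧
      ∀ σ ∈ S, Eps (Dm C.q (Fintype.card Ω) (hk A)) σ (ε σ)}) ∧
    (∀ ε : Ga → ℤˣ, (∀ σ ∈ S, ε σ = 1) → (Γ.IQ p S 1 ε).ncard = (Γ.IQ p ∅ 1 1).ncard) ∧
    (∀ ε : Ga → ℤˣ, ¬ (∀ σ ∈ S, ε σ = 1) → (Γ.IQ p S 1 ε).ncard = 0) ∧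
    (Γ.IA p 1).ncard = Nat.card (PTp p (Fintype.card Ω))

/-! ### the Sylow subgroup of the model -/

structure SylA (p k0 : ℕ) [Fact p.Prime] {B : Type} [Fintype B] [DecidableEq B]
    (lv : B → Fin k0) : Prop where
  card : Fintype.card (Om p k0 lv) = ∑ b, p ^ (lv b : ℕ)
  tp_inj : Function.Injective (Lg.tp : Lg p k0 lv →* _)
  pg : IsPGroup p (Qs p k0 lv)
  ph_mul : ∀ g ∈ Qs p k0 lv, ∀ g' ∈ Qs p k0 lv, ph (g * g') = ph g + ph g'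
  ph_vz : ∀ g ∈ Qs p k0 lv, Vz lv (ph g)
  ph_surj : ∀ v, Vz lv v → ∃ g ∈ Qs p k0 lv, ph g = v
  conj : ∀ (l : Lg p k0 lv), ∀ g ∈ Qs p k0 lv,
    Lg.tp l * g * (Lg.tp l)⁻¹ ∈ Qs p k0 lv ∧ ph (Lg.tp l * g * (Lg.tp l)⁻¹) = l.act (ph g)
  tp_mem : ∀ l : Lg p k0 lv, Lg.tp l ∈ Qs p k0 lv → l = 1

def SylASt : Prop := ∀ (p k0 : ℕ) [Fact p.Prime] (B : Type) [Fintype B] [DecidableEq B]
  (lv : B → Fin k0), SylA p k0 lv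

def SylBSt : Prop := ∀ (p k0 : ℕ) [Fact p.Prime] (B : Type) [Fintype B] [DecidableEq B]
  (lv : B → Fin k0), (∀ k, (Finset.univ.filter fun b => lv b = k).card < p) →
  ¬ p ∣ (Qs p k0 lv).index

def SylCSt : Prop := ∀ (p k0 : ℕ) [Fact p.Prime] (B : Type) [Fintype B] [DecidableEq B]
  (lv : B → Fin k0), ∀ g ∈ Qs p k0 lv, ph g = 0 → g ∈ ⁅Qs p k0 lv, Qs p k0 lv⁆

def SylDSt : Prop := ∀ (p k0 : ℕ) [Fact p.Prime] (B : Type) [Fintype B] [DecidableEq B]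
  (lv : B → Fin k0), ∀ g ∈ Subgroup.normalizer (Qs p k0 lv : Set (Perm (Om p k0 lv))),
  ∃ q ∈ Qs p k0 lv, ∃ l : Lg p k0 lv, g = q * Lg.tp l

/-! ### classes of the local group -/

open Classical in
/-- the parity of the number of orbits, and the sign. -/
def ToolSt : Prop := ∀ (p k0 : ℕ) [Fact p.Prime] (B : Type) [Fintype B] [DecidableEq B]
  (lv : B → Fin k0), p ≠ 2 →
  (∀ (Δ : Subgroup (Lg p k0 lv)) (O : Type) [Fintype O] (f : B → O), Function.Surjective f →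
    (∀ b b', f b = f b' ↔ ∃ δ ∈ Δ, δ.π b = b') →
    (-1 : ℤˣ) ^ oc (Δ.map Lg.tp) = ∏ o : O, if ∀ b, f b = o → ∀ δ ∈ Δ, δ.π b = b →
      ∏ j, chi (δ.c b j : ZMod p) = 1 then -1 else 1) ∧
  ∀ l : Lg p k0 lv, Perm.sign (Lg.tp l) = Perm.sign l.π * ∏ b, ∏ j, chi (l.c b j : ZMod p)

def Lp0St : Prop := ∀ (p k0 : ℕ) [Fact p.Prime] (B : Type) [Fintype B] [DecidableEq B]
  (lv : B → Fin k0) (l : Lg p k0 lv) (v : B → Fin k0 → ZMod p), Vz lv v →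
  ∃ (O : Type) (_ : Fintype O) (r : O → ℕ) (τ : O → Ty p k0) (e : (Σ o, Fin (r o + 1)) ≃ B)
    (l' : Lg p k0 lv) (v' : B → Fin k0 → ZMod p) (h : Lg p k0 lv),
    Std r τ e l' v' ∧ Rl h l v l' v'

structure ImgSt : Prop where
  img : ∀ (p k0 : ℕ) [Fact p.Prime] (B : Type) (lv : B → Fin k0) (O : Type) (r : O → ℕ)
    (τ : O → Ty p k0) (e : (Σ o, Fin (r o + 1)) ≃ B) (l : Lg p k0 lv)
    (v : B → Fin k0 → ZMod p), Std r τ e l v → ∀ u, Vz lv u →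
    ((∃ w, Vz lv w ∧ u = w - l.act w) ↔ ∀ o j, (τ o).sc j = 1 → ∑ i, u (e ⟨o, i⟩) j = 0)
  pow : ∀ (p k0 : ℕ) [Fact p.Prime] (B : Type) [Finite B] (lv : B → Fin k0) (l : Lg p k0 lv)
    (s : ℕ), s.Coprime (orderOf l) → ∀ u, (∃ w, Vz lv w ∧ u = w - l.act w) →
    ∃ w, Vz lv w ∧ u = w - (l ^ s).act w
  vz : ∀ (p k0 : ℕ) [Fact p.Prime] (B : Type) (lv : B → Fin k0) (O : Type) (r : O → ℕ)
    (τ : O → Ty p k0) (e : (Σ o, Fin (r o + 1)) ≃ B) (l : Lg p k0 lv)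
    (v : B → Fin k0 → ZMod p), Std r τ e l v → Vz lv v
  lpow : ∀ (p k0 : ℕ) [Fact p.Prime] (B : Type) (lv : B → Fin k0) (O : Type) (r : O → ℕ)
    (τ : O → Ty p k0) (e : (Σ o, Fin (r o + 1)) ≃ B) (l : Lg p k0 lv)
    (v : B → Fin k0 → ZMod p), Std r τ e l v → ∀ (s : ℕ) (o : O) (i : Fin (r o + 1)),
    (l ^ s).π (e ⟨o, i⟩) = e ⟨o, i + Fin.ofNat (r o + 1) s⟩ ∧
    ∀ j, (l ^ s).c (e ⟨o, i⟩) j = (τ o).sc j ^ (((i : ℕ) + s) / (r o + 1))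

def Lp1St : Prop := ∀ (p k0 : ℕ) [Fact p.Prime] (B : Type) [Fintype B] [DecidableEq B]
  (lv : B → Fin k0) (O : Type) [Fintype O] (r : O → ℕ) (τ : O → Ty p k0)
  (e : (Σ o, Fin (r o + 1)) ≃ B) (l : Lg p k0 lv) (v : B → Fin k0 → ZMod p)
  (O' : Type) [Fintype O'] (r' : O' → ℕ) (τ' : O' → Ty p k0)
  (e' : (Σ o, Fin (r' o + 1)) ≃ B) (l' : Lg p k0 lv) (v' : B → Fin k0 → ZMod p),
  Std r τ e l v → Std r' τ' e' l' v' → (mo r τ = mo r' τ' ↔ ∃ h, Rl h l v l' v')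

def Lp2St : Prop := ∀ (p k0 : ℕ) [Fact p.Prime] (B : Type) [Fintype B] [DecidableEq B]
  (lv : B → Fin k0) (a : Fin k0 → ℕ), (∀ k, (Finset.univ.filter fun b => lv b = k).card = a k) →
  ∀ m : Ty p k0 → Multiset ℕ, Val a m ↔
    ∃ (O : Type) (_ : Fintype O) (r : O → ℕ) (τ : O → Ty p k0) (e : (Σ o, Fin (r o + 1)) ≃ B)
      (l : Lg p k0 lv) (v : B → Fin k0 → ZMod p), Std r τ e l v ∧ mo r τ = m

def Lp3St : Prop := ∀ (p k0 : ℕ) [Fact p.Prime] (B : Type) [Fintype B] [DecidableEq B]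
  (lv : B → Fin k0) (O : Type) [Fintype O] (r : O → ℕ) (τ : O → Ty p k0)
  (e : (Σ o, Fin (r o + 1)) ≃ B) (l : Lg p k0 lv) (v : B → Fin k0 → ZMod p), p ≠ 2 →
  Std r τ e l v → Perm.sign (Lg.tp l) = sgm (mo r τ) ∧ ty (Lg.tp l) = tyM (mo r τ)

/-- if the local data are good, the stabiliser has trivial signs. -/
def Lp4aSt : Prop := ∀ (p k0 : ℕ) [Fact p.Prime] (B : Type) [Fintype B] [DecidableEq B]
  (lv : B → Fin k0) (O : Type) [Fintype O] (r : O → ℕ) (τ : O → Ty p k0)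
  (e : (Σ o, Fin (r o + 1)) ≃ B) (l : Lg p k0 lv) (v : B → Fin k0 → ZMod p), p ≠ 2 →
  Std r τ e l v → ∀ h, Rl h l v l v →
  (Gm (mo r τ) → so (Lg.tp l) (Lg.tp h) = 1) ∧ (Gp (mo r τ) → Perm.sign (Lg.tp h) = 1)

/-- elements of the stabiliser with nontrivial signs. -/
def Lp4bSt : Prop := ∀ (p k0 : ℕ) [Fact p.Prime] (B : Type) [Fintype B] [DecidableEq B]
  (lv : B → Fin k0) (O : Type) [Fintype O] (r : O → ℕ) (τ : O → Ty p k0)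
  (e : (Σ o, Fin (r o + 1)) ≃ B) (l : Lg p k0 lv) (v : B → Fin k0 → ZMod p), p ≠ 2 →
  Std r τ e l v →
  (¬ Gm (mo r τ) → ∃ h, Rl h l v l v ∧ so (Lg.tp l) (Lg.tp h) = -1) ∧
  (¬ Gp (mo r τ) → ∃ h, Rl h l v l v ∧ Perm.sign (Lg.tp h) = -1) ∧
  ((∃ t : Ty p k0, ∃ k ∈ mo r τ t, (-1) ^ (k - 1) * t.par = -1) →
    ∃ h, Rl h l v l v ∧ Perm.sign (Lg.tp h) = -1 ∧ so (Lg.tp l) (Lg.tp h) = 1)

def Lp5St : Prop := ∀ (p k0 : ℕ) [Fact p.Prime] (B : Type) [Fintype B] [DecidableEq B]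
  (lv : B → Fin k0) (O : Type) [Fintype O] (r : O → ℕ) (τ : O → Ty p k0)
  (e : (Σ o, Fin (r o + 1)) ≃ B) (l : Lg p k0 lv) (v : B → Fin k0 → ZMod p), p ≠ 2 →
  Std r τ e l v → ∀ s : ℕ, s ≡ 1 [MOD p - 1] → ¬ p ∣ s → s.Coprime (orderOf l) →
  ∃ h, Rl h l v (l ^ s) (∑ i ∈ Finset.range s, (l ^ i).act v) ∧
    Perm.sign (Lg.tp h) = sgP (mo r τ) s ∧ so (Lg.tp l) (Lg.tp h) = soP (mo r τ) s

def LocpSt : Prop := ∀ (p k0 : ℕ) [Fact p.Prime] (B : Type) [Fintype B] [DecidableEq B]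
  (lv : B → Fin k0) (a : Fin k0 → ℕ), p ≠ 2 →
  (∀ k, (Finset.univ.filter fun b => lv b = k).card = a k) → ∃ inv, LocP (p := p) (lv := lv) a inv

/-! ### discriminants of the local classes -/

def NumASt : Prop := ∀ (p k0 : ℕ) [Fact p.Prime] (τ : Ty p k0), p ≠ 2 → τ.nrm →
  (ty (Lg.tp τ.tor)).sum = p ^ (τ.1 : ℕ) ∧
  (τ.par = 1 → Odd (ty (Lg.tp τ.tor)).card ∧
    jacobiSym ((-1) ^ ((p ^ (τ.1 : ℕ) - (ty (Lg.tp τ.tor)).card) / 2) *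
      ((ty (Lg.tp τ.tor)).prod : ℕ)) p = 1) ∧
  (τ.par = -1 → Even (ty (Lg.tp τ.tor)).card ∧
    jacobiSym ((-1) ^ ((ty (Lg.tp τ.tor)).card / 2) * ((ty (Lg.tp τ.tor)).prod : ℕ)) p = 1) ∧
  (τ = Ty.star p τ.1 → ty (Lg.tp τ.tor) = Multiset.replicate (p ^ (τ.1 : ℕ)) 1)

structure NumP (p k0 : ℕ) [Fact p.Prime] (q : ℤˣ) (n : ℕ) (m : Ty p k0 → Multiset ℕ) :
    Prop where
  pos : 0 ∉ Lam m ∧ 0 ∉ tyM m
  n0 : Gm m → (sgm m = 1 ↔ Even (n + (Lam m).card))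
  n1 : Gm m → Cmp p (Dm q n (tyM m) * pst p ^ ∑ k : Fin k0, (k : ℕ) * (m (Ty.star p k)).card)
    (Dm q n (Lam m))
  n2 : (∀ τ : Ty p k0, ∀ r ∈ m τ, (-1) ^ (r - 1) * τ.par = 1) → Cmp p (Dm q n (tyM m))
    (∏ τ : Ty p k0, ((m τ).map fun r : ℕ =>
      (-1) ^ (r - 1).choose 2 * (r : ℤ) ^ r * (τ.par : ℤ) ^ (r - 1)).prod)

def NumSt : Prop := ∀ (p k0 : ℕ) [Fact p.Prime] (q : ℤˣ) (a : Fin k0 → ℕ)
  (m : Ty p k0 → Multiset ℕ), p ≠ 2 → Val a m → NumP p k0 q (∑ k, a k * p ^ (k : ℕ)) m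

def SgnSt : Prop := ∀ (p k0 : ℕ) [Fact p.Prime] (q : ℤˣ) (a : Fin k0 → ℕ)
  (m : Ty p k0 → Multiset ℕ) (M : ℕ) (σ : Ga) (s : ℕ), p ≠ 2 → (∀ k, a k < p) → Val a m →
  4 * p.factorial ∣ M → σ ∈ Hl p → Ex M σ s → ∀ u,
  Eps (Dm q (∑ k, a k * p ^ (k : ℕ)) (tyM m)) σ u →
  (Gm m → ∀ u', Eps (Dm q (∑ k, a k * p ^ (k : ℕ)) (Lam m)) σ u' → u' = u * soP m s) ∧
  ((∀ τ : Ty p k0, ∀ r ∈ m τ, (-1) ^ (r - 1) * τ.par = 1) → u = sgP m s * soP m s)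

/-! ### the local group -/

/-- `N` is the normaliser of the Sylow subgroup `R`. -/
structure LocSet {Ω : Type} [Fintype Ω] [DecidableEq Ω] {X N : Type} [Group X] [Group N]
    (p : ℕ) (C : Cover Ω X) (R : Subgroup X) (Δ : Sg N) (j : N →* X) : Prop where
  pg : IsPGroup p R
  idx : ¬ p ∣ R.index
  inj : Function.Injective j
  rng : ∀ g, g ∈ Subgroup.normalizer (R : Set X) ↔ ∃ y, j y = g
  sg : ∀ y, Δ.sg y = Perm.sign (C.π (j y))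
  z : j Δ.z = C.z

/-- the exponent of the sign character: one on even elements, zero on odd elements. -/
def Sg.pa {N : Type} [Group N] (Δ : Sg N) (x : N) : ℕ := if Δ.sg x = 1 then 1 else 0

structure LocI {N : Type} [Group N] (Δ : Sg N) (T : Subgroup N) (p k0 : ℕ) [Fact p.Prime]
    (q : ℤˣ) (n : ℕ) (a : Fin k0 → ℕ) (M : ℕ) (inv : N → Ty p k0 → Multiset ℕ) : Prop where
  l1 : ∀ ω b x y, (∃ u, Δ.Rel T ω b x y u) ↔ inv x = inv y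
  l2 : ∀ m, Val a m ↔ ∃ x, inv x = m
  l3 : ∀ x, Δ.sg x = sgm (inv x)
  l4m : ∀ x, (∀ u, Δ.Rel T (-1) (Δ.pa x) x x u → u = 1) ↔ Gm (inv x)
  l4p : ∀ x, (∀ u, Δ.Rel T 1 1 x x u → u = 1) ↔ Gp (inv x)
  l5a : ∀ σ ∈ Hl p, ∀ s, Ex M σ s → ∀ x, Δ.Rel T 1 0 x (x ^ s) 1
  l5m : ∀ σ ∈ Hl p, ∀ s, Ex M σ s → ∀ x u, Gm (inv x) → Eps (Dm q n (Lam (inv x))) σ u →
    Δ.Rel T (-1) (Δ.pa x) x (x ^ s) u
  l5p : ∀ σ ∈ Hl p, ∀ s, Ex M σ s → ∀ x u, Gp (inv x) → Eps (Dm q n (Lam (inv x))) σ u →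
    Δ.Rel T 1 1 x (x ^ s) u
  l5e : ∀ σ ∈ Hl p, ∀ s, Ex M σ s → ∀ x, Δ.sg x = 1 →
    (∀ u, Δ.Rel T (-1) 0 x x u → u = 1) → Δ.Rel T (-1) 0 x (x ^ s) 1

/-- coordinates on the normaliser: `x = sec (q) * (lift of l)`. -/
structure LocM {N : Type} [Group N] (Δ : Sg N) (T : Subgroup N) {p k0 : ℕ} [Fact p.Prime]
    {B : Type} [Fintype B] [DecidableEq B] {lv : B → Fin k0} {X : Type} [Group X]
    (C : Cover (Om p k0 lv) X) (lg : N →* Lg p k0 lv) (vc : N → B → Fin k0 → ZMod p) : Prop where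
  vz : ∀ x, Vz lv (vc x)
  surj : ∀ l v, Vz lv v → ∃ x, lg x = l ∧ vc x = v
  sg : ∀ x, Δ.sg x = Perm.sign (Lg.tp (lg x))
  pow : ∀ x s, vc (x ^ s) = ∑ i ∈ Finset.range s, (lg x ^ i).act (vc x)
  rel : ∀ (x y : N) (r : N) (j : ℕ) (h : N), r ∈ T → y = r * Δ.z ^ j * (h * x * h⁻¹) →
    Rl (lg h) (lg x) (vc x) (lg y) (vc y)
  ex : ∀ (x y : N) (h : Lg p k0 lv), Rl h (lg x) (vc x) (lg y) (vc y) →
    ∃ r ∈ T, ∃ (j : ℕ) (h' : N), lg h' = h ∧ y = r * Δ.z ^ j * (h' * x * h'⁻¹)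
  lift : ∀ (x : N) (s : ℕ) (r : N) (j : ℕ) (h : N), r ∈ T →
    x ^ s = r * Δ.z ^ j * (h * x * h⁻¹) → ∃ x' h' : X, C.π x' = Lg.tp (lg x) ∧
      C.π h' = Lg.tp (lg h) ∧ h' * x' * h'⁻¹ = C.z ^ j * x' ^ s

/-- the coordinates exist in the model. -/
def LcmSt : Prop := ∀ (p k0 : ℕ) [Fact p.Prime] (B : Type) [Fintype B] [DecidableEq B]
  (lv : B → Fin k0) (X N : Type) [Group X] [Group N] [Finite X] (C : Cover (Om p k0 lv) X)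
  (R : Subgroup X) (Δ : Sg N) (j : N →* X), p ≠ 2 → LocSet p C R Δ j →
  R.map C.π = Qs p k0 lv → ∃ lg vc, LocM Δ ⁅R.comap j, R.comap j⁆ C lg vc

/-- from the coordinates to the invariant. -/
def LciSt : Prop := ∀ (p k0 : ℕ) [Fact p.Prime] (B : Type) [Fintype B] [DecidableEq B]
  (lv : B → Fin k0) (X N : Type) [Group X] [Group N] [Finite X] (C : Cover (Om p k0 lv) X)
  (Δ : Sg N) (T : Subgroup N) (lg : N →* Lg p k0 lv) (vc : N → B → Fin k0 → ZMod p)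
  (a : Fin k0 → ℕ) (M : ℕ), p ≠ 2 → (∀ k, a k < p) →
  (∀ k, (Finset.univ.filter fun b => lv b = k).card = a k) → LocM Δ T C lg vc → 0 < M →
  4 * p.factorial * Nat.card X ∣ M → ∃ inv, LocI Δ T p k0 C.q (∑ k, a k * p ^ (k : ℕ)) a M inv

def LocSt : Prop := ∀ (p k0 : ℕ) [Fact p.Prime] (Ω : Type) [Fintype Ω] [DecidableEq Ω]
  (X N : Type) [Group X] [Group N] [Finite X] (C : Cover Ω X) (R : Subgroup X) (Δ : Sg N)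
  (j : N →* X) (a : Fin k0 → ℕ) (M : ℕ), p ≠ 2 → (∀ k, a k < p) →
  Fintype.card Ω = ∑ k, a k * p ^ (k : ℕ) → LocSet p C R Δ j → 0 < M →
  4 * p.factorial * Nat.card X ∣ M →
  ∃ inv, LocI Δ ⁅R.comap j, R.comap j⁆ p k0 C.q (Fintype.card Ω) a M inv

structure LocC {N N0 : Type} [Group N] [Group N0] (Δ : Gr N N0) (p k0 : ℕ) [Fact p.Prime]
    (q : ℤˣ) (n : ℕ) (a : Fin k0 → ℕ) : Prop where
  cov : ∀ ω, Δ.Cov p (Hl p) ω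
  im : ∀ ε, (Δ.IM p (Hl p) (-1) ε).ncard = 2 * Nat.card {m : Ty p k0 → Multiset ℕ //
    Val a m ∧ Gm m ∧ sgm m = 1 ∧ ∀ σ ∈ Hl p, Eps (Dm q n (Lam m)) σ (ε σ)}
  iq : ∀ ε, (Δ.IQ p (Hl p) (-1) ε).ncard = 2 * Nat.card {m : Ty p k0 → Multiset ℕ //
    Val a m ∧ Gm m ∧ sgm m = -1 ∧ ∀ σ ∈ Hl p, Eps (Dm q n (Lam m)) σ (ε σ)}
  imp : ∀ ε, (Δ.IM p (Hl p) 1 ε).ncard = 2 * Nat.card {m : Ty p k0 → Multiset ℕ //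
    Val a m ∧ Gp m ∧ ∀ σ ∈ Hl p, Eps (Dm q n (Lam m)) σ (ε σ)}
  imp0 : (Δ.IM p ∅ 1 1).ncard = 2 * Nat.card {m : Ty p k0 → Multiset ℕ // Val a m ∧ Gp m}
  iq1 : ∀ ε : Ga → ℤˣ, (∀ σ ∈ Hl p, ε σ = 1) →
    (Δ.IQ p (Hl p) 1 ε).ncard = (Δ.IQ p ∅ 1 1).ncard
  iq0 : ∀ ε : Ga → ℤˣ, ¬ (∀ σ ∈ Hl p, ε σ = 1) → (Δ.IQ p (Hl p) 1 ε).ncard = 0
  ia : (Δ.IA p 1).ncard = Nat.card {m : Ty p k0 → Multiset ℕ // Val a m}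

def LcSt : Prop := ∀ (p k0 : ℕ) [Fact p.Prime] (N N0 : Type) [Group N] [Group N0] [Finite N]
  (Δ : Gr N N0) (R : Subgroup N) (q : ℤˣ) (n : ℕ) (a : Fin k0 → ℕ) (M : ℕ)
  (inv : N → Ty p k0 → Multiset ℕ), p ≠ 2 → R.Normal → IsPGroup p R → ¬ p ∣ R.index →
  0 < M → 2 ∣ M → (∀ x : N, x ^ M = 1) → LocI Δ.toSg ⁅R, R⁆ p k0 q n a M inv →
  LocC Δ p k0 q n a

/-! ### partitions -/

structure ShSt : Prop where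
  bij : Function.Bijective sh1
  chg : ∀ w, ((sh1 w).1.card : ℤ) - (sh1 w).2.card = (w.1.card : ℤ) - w.2.card + 1
  sz : ∀ w, szN (sh1 w) = szN w
  rat : ∀ w, Hn (sh1 w) * (Vd w.1 * Vd w.2) = Hn w * (Vd (sh1 w).1 * Vd (sh1 w).2)
  iter : ∀ (N : ℕ) (w : Finset ℕ × Finset ℕ), (∀ b ∈ w.2, b < N) → sh1^[N] w = (bs N w, ∅)
  bsz : ∀ (N : ℕ) (w : Finset ℕ × Finset ℕ), w.1.card = w.2.card → (∀ b ∈ w.2, b < N) →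
    (bs N w).card = N ∧ (bs N w).sum id = szN w + N.choose 2 ∧
    (∏ a ∈ bs N w, a.factorial) * (Vd w.1 * Vd w.2) = Hn w * Vd (bs N w)
  eqv : ∃ e : Finset ℕ × Finset ℕ ≃ ℤ × PT0, ∀ w, (e w).1 = (w.1.card : ℤ) - w.2.card ∧
    szN (e w).2.1 = szN w ∧ ∀ p : ℕ, p.Prime → WP p (e w).2.1 = WP p w
  pos : ∀ w : Finset ℕ × Finset ℕ, 0 < Hn w ∧ 0 < Vd w.1 ∧ 0 < Hs w.1 ∧
    w.1.card.choose 2 ≤ w.1.sum id
  pt : ∀ (n : ℕ) (w : Finset ℕ × Finset ℕ), w ∈ PT n ↔ w.1.card = w.2.card ∧ szN w = n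
  zero : ∀ w : PT0, szN w.1 = 0 ↔ w = PT0.o

def CntSt : Prop := ∃ e : PT0 ≃ {ρ : Multiset ℕ // 0 ∉ ρ}, ∀ w, (e w).1.sum = szN w.1

def RunPSt : Prop := ∀ p : ℕ, p.Prime →
  ∃ (CP : Type) (E : PT0 ≃ CP × (Fin p → PT0)) (g : CP → ℕ), ∀ x,
    szN x.1 = g (E x).1 + p * ∑ i, szN ((E x).2 i).1 ∧
    WP p x.1 = ∑ i, ((szN ((E x).2 i).1 : ℤ) + WP p ((E x).2 i).1)

def RunSSt : Prop := ∀ p : ℕ, p.Prime → p ≠ 2 →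
  ∃ (CS : Type) (E : ST0 ≃ CS × ST0 × (Fin ((p - 1) / 2) → PT0)) (g : CS → ℕ), ∀ x,
    x.1.sum id = g (E x).1 + p * ((E x).2.1.1.sum id + 1 * ∑ i, szN ((E x).2.2 i).1) ∧
    WS p x.1 = (((E x).2.1.1.sum id : ℕ) : ℤ) + WS p (E x).2.1.1 +
      (1 : ℕ) * ∑ i, ((szN ((E x).2.2 i).1 : ℤ) + WP p ((E x).2.2 i).1) ∧
    Sim p x.1.val ((E.symm ((E x).1, ⟨∅, Finset.notMem_empty 0⟩, fun _ => PT0.o)).1.val +
      (E x).2.1.1.val.map (p * ·))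

def RunCSt : Prop := ∀ p : ℕ, p.Prime → p ≠ 2 →
  ∃ (CS : Type) (E : Finset ℕ ≃ CS × Finset ℕ × (Fin ((p - 1) / 2) → PT0)) (g : CS → ℕ), ∀ x,
    szN (x, x) = g (E x).1 + p * (szN ((E x).2.1, (E x).2.1) + 2 * ∑ i, szN ((E x).2.2 i).1) ∧
    WP p (x, x) = (szN ((E x).2.1, (E x).2.1) : ℤ) + WP p ((E x).2.1, (E x).2.1) +
      (2 : ℕ) * ∑ i, ((szN ((E x).2.2 i).1 : ℤ) + WP p ((E x).2.2 i).1) ∧
    Sim p (hk x) (hk (E.symm ((E x).1, ∅, fun _ => PT0.o)) + (hk (E x).2.1).map (p * ·))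

/-- the abstract core tower. -/
def TowSt : Prop := ∀ (p : ℕ) (P Sx CP CS : Type) (μ h : ℕ) (szP : P → ℕ) (wP : P → ℤ)
  (szS : Sx → ℕ) (wS : Sx → ℤ) (o : P) (oS : Sx) (EP : P ≃ CP × (Fin p → P)) (gP : CP → ℕ)
  (ES : Sx ≃ CS × Sx × (Fin h → P)) (gS : CS → ℕ) (ρ : Sx → Multiset ℕ)
  (Sm : Multiset ℕ → Multiset ℕ → Prop), p.Prime → 0 < μ →
  (∀ x, szP x = 0 ↔ x = o) → wP o = 0 → (∀ x, szS x = 0 ↔ x = oS) → wS oS = 0 → ρ oS = 0 →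
  (∀ x, szP x = gP (EP x).1 + p * ∑ i, szP ((EP x).2 i) ∧
    wP x = ∑ i, ((szP ((EP x).2 i) : ℤ) + wP ((EP x).2 i))) →
  (∀ x, szS x = gS (ES x).1 + p * (szS (ES x).2.1 + μ * ∑ i, szP ((ES x).2.2 i)) ∧
    wS x = (szS (ES x).2.1 : ℤ) + wS (ES x).2.1 +
      μ * ∑ i, ((szP ((ES x).2.2 i) : ℤ) + wP ((ES x).2.2 i)) ∧
    Sm (ρ x) (ρ (ES.symm ((ES x).1, oS, fun _ => o)) + (ρ (ES x).2.1).map (p * ·))) →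
  (∀ a, Sm a a) → (∀ a b c, Sm a b → Sm b c → Sm a c) →
  (∀ k a b, Sm a b → Sm (k + a.map (p * ·)) (k + b.map (p * ·))) →
  ∀ (k0 : ℕ) (a : Fin k0 → ℕ) (c : ℕ → ℕ) (S0 : Type) [Fintype S0] (Sl : Fin k0 → Type)
    [∀ k, Fintype (Sl k)], (∀ k, a k < p) → Fintype.card S0 = c 0 →
    (∀ k, c (k + 1) = p * c k + h) → (∀ k, Fintype.card (Sl k) = c k) →
  ∃ e : {x : Sx × (S0 → P) // szS x.1 + μ * ∑ s, szP (x.2 s) = ∑ k, a k * p ^ (k : ℕ) ∧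
        wS x.1 + μ * ∑ s, wP (x.2 s) = padicValNat p (∑ k, a k * p ^ (k : ℕ)).factorial} ≃
      {f : ∀ k, Sx × (Sl k → P) // ∀ k, szS (f k).1 + μ * ∑ s, szP ((f k).2 s) = a k},
    ∀ x, Sm (ρ x.1.1) (∑ k : Fin k0, (ρ ((e x).1 k).1).map (p ^ (k : ℕ) * ·))

/-- the number of types. -/
def TyCntSt : Prop := ∀ (p k0 : ℕ) [Fact p.Prime] (k : Fin k0), p ≠ 2 →
  Nat.card {τ : Ty p k0 // τ.1 = k ∧ τ.nrm} = p ^ (k : ℕ) ∧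
  2 * Nat.card {τ : Ty p k0 // τ.1 = k ∧ τ.nrm ∧ τ.par = -1} + 1 = p ^ (k : ℕ) ∧
  (Ty.star p k).nrm ∧ (Ty.star p k).par = 1 ∧ (Ty.star p k).stc = k

def MatMSt : Prop := ∀ (p k0 : ℕ) [Fact p.Prime] (a : Fin k0 → ℕ) (n : ℕ), p ≠ 2 →
  (∀ k, a k < p) → n = ∑ k, a k * p ^ (k : ℕ) →
  ∃ e : STp p n ≃ {m : Ty p k0 → Multiset ℕ // Val a m ∧ Gm m}, ∀ A,
    Even (A.1.card + (Lam (e A).1).card) ∧ ∀ q, Cmp p (Dm q n A.1.val) (Dm q n (Lam (e A).1))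

def MatPSt : Prop := ∀ (p k0 : ℕ) [Fact p.Prime] (a : Fin k0 → ℕ) (n : ℕ), p ≠ 2 →
  (∀ k, a k < p) → n = ∑ k, a k * p ^ (k : ℕ) →
  ∃ e : CTp p n ≃ {m : Ty p k0 → Multiset ℕ // Val a m ∧ Gp m}, ∀ A q,
    Cmp p (Dm q n (hk A.1)) (Dm q n (Lam (e A).1))

def Mat0St : Prop := ∀ (p k0 : ℕ) [Fact p.Prime] (a : Fin k0 → ℕ) (n : ℕ), p ≠ 2 →
  (∀ k, a k < p) → n = ∑ k, a k * p ^ (k : ℕ) →
  Nat.card (PTp p n) = Nat.card {m : Ty p k0 → Multiset ℕ // Val a m}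

end Pool.Agent.Lib.MP_1ae3da_al.GM
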