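import Mathlib

/-! Elementary character theory over an algebraically closed field of characteristic zero. -/

namespace Pool.Agent.Lib.MP_1ae3da_al

open Representation Module

variable {K : Type} [Field K] {G : Type} [Group G]

/-- `χ` is an irreducible character of degree `n`. -/
def IsIrr (n : ℕ) (χ : G → K) : Prop :=
  ∃ ρ : Representation K G (Fin n → K), ρ.IsIrreducible ∧ χ = ρ.character

/-- the bilinear form on functions. -/
noncomputable def ip [Fintype G] (φ ψ : G → K) : K :=
  (Nat.card G : K)⁻¹ * ∑ g : G, φ g * ψ g⁻¹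

section ip
variable [Fintype G]

lemma ip_add_left (a b c : G → K) : ip (a + b) c = ip a c + ip b c := by
  simp [ip, add_mul, Finset.sum_add_distrib, mul_add]

lemma ip_add_right (a b c : G → K) : ip a (b + c) = ip a b + ip a c := by
  simp [ip, mul_add, Finset.sum_add_distrib]

lemma ip_smul_left (t : K) (a c : G → K) : ip (t • a) c = t * ip a c := by
  simp only [ip, Pi.smul_apply, smul_eq_mul, mul_assoc, ← Finset.mul_sum]; ring

lemma ip_smul_right (t : K) (a c : G → K) : ip a (t • c) = t * ip a c := by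
  simp only [ip, Pi.smul_apply, smul_eq_mul, Finset.mul_sum]
  exact Finset.sum_congr rfl fun g _ => by ring

lemma ip_sum_left {ι : Type} (s : Finset ι) (a : ι → G → K) (c : G → K) :
    ip (∑ i ∈ s, a i) c = ∑ i ∈ s, ip (a i) c := by
  classical
  induction s using Finset.induction_on with
  | empty => simp [ip]
  | insert i s hi ih => rw [Finset.sum_insert hi, Finset.sum_insert hi, ip_add_left, ih]

lemma ip_sum_right {ι : Type} (s : Finset ι) (a : ι → G → K) (c : G → K) :
    ip c (∑ i ∈ s, a i) = ∑ i ∈ s, ip c (a i) := by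
  classical
  induction s using Finset.induction_on with
  | empty => simp [ip]
  | insert i s hi ih => rw [Finset.sum_insert hi, Finset.sum_insert hi, ip_add_right, ih]

end ip

section basic
variable {V : Type} [AddCommGroup V] [Module K V]

/-- an invariant subspace of an irreducible representation is trivial or everything. -/
lemma inv_eq_bot_or_top (ρ : Representation K G V) (h : ρ.IsIrreducible) (W : Submodule K V)
    (hW : ∀ g v, v ∈ W → ρ g v ∈ W) : W = ⊥ ∨ W = ⊤ := by
  rcases h.eq_bot_or_eq_top ⟨W, fun g v hv => hW g v hv⟩ with h1 | h1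
  · left; exact congrArg Subrepresentation.toSubmodule h1
  · right; exact congrArg Subrepresentation.toSubmodule h1

lemma nontrivial_of_irr (ρ : Representation K G V) (h : ρ.IsIrreducible) : Nontrivial V := by
  by_contra hV
  rw [not_nontrivial_iff_subsingleton] at hV
  have : (⊥ : Subrepresentation ρ) = ⊤ := by
    apply Subrepresentation.toSubmodule_injective
    exact Subsingleton.elim _ _
  exact h.toNontrivial.exists_pair_ne.elim fun a ha => ha.elim fun b hab => by
    rcases h.eq_bot_or_eq_top a with rfl | rfl <;> rcases h.eq_bot_or_eq_top b with rfl | rfl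
    · exact hab rfl
    · exact hab this
    · exact hab this.symm
    · exact hab rfl

/-- Schur's lemma. -/
lemma schur [IsAlgClosed K] [FiniteDimensional K V] (ρ : Representation K G V)
    (h : ρ.IsIrreducible) (f : V →ₗ[K] V) (hf : ∀ g v, f (ρ g v) = ρ g (f v)) :
    ∃ c : K, ∀ v, f v = c • v := by
  haveI := nontrivial_of_irr ρ h
  obtain ⟨c, hc⟩ := Module.End.exists_eigenvalue f
  refine ⟨c, ?_⟩
  have := inv_eq_bot_or_top ρ h (Module.End.eigenspace f c) (by
    intro g v hv
    rw [Module.End.mem_eigenspace_iff] at hv ⊢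
    rw [hf, hv, map_smul])
  rcases this with h1 | h1
  · exact absurd h1 hc
  · intro v
    rw [← Module.End.mem_eigenspace_iff, h1]; trivial

lemma trace_idem [FiniteDimensional K V] (e : V →ₗ[K] V) (he : e * e = e) :
    ∃ r : ℕ, LinearMap.trace K V e = r :=
  ⟨_, (LinearMap.IsIdempotentElem.isProj_range e he).trace⟩

end basic

section maschke
variable [CharZero K] [Fintype G] {V : Type} [AddCommGroup V] [Module K V]
  [FiniteDimensional K V]

lemma card_ne_zero' : (Nat.card G : K) ≠ 0 := by
  exact_mod_cast Nat.card_pos.ne'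

/-- complements of invariant subspaces: an equivariant projection. -/
lemma exists_proj (ρ : Representation K G V) (W : Subrepresentation ρ) :
    ∃ W' : Subrepresentation ρ, IsCompl W.toSubmodule W'.toSubmodule := by
  haveI : NeZero (Nat.card G : K) := ⟨card_ne_zero'⟩
  obtain ⟨W', hW'⟩ := exists_isCompl W
  refine ⟨W', ?_, ?_⟩
  · rw [disjoint_iff]
    exact congrArg Subrepresentation.toSubmodule (disjoint_iff.mp hW'.disjoint)
  · rw [codisjoint_iff]
    exact congrArg Subrepresentation.toSubmodule (codisjoint_iff.mp hW'.codisjoint)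

omit [CharZero K] [Fintype G] [FiniteDimensional K V] in
lemma proj_comm (ρ : Representation K G V) (W W' : Subrepresentation ρ)
    (h : IsCompl W.toSubmodule W'.toSubmodule) (g : G) (v : V) :
    W.toSubmodule.projection W'.toSubmodule h (ρ g v)
      = ρ g (W.toSubmodule.projection W'.toSubmodule h v) := by
  have hv : v ∈ W.toSubmodule ⊔ W'.toSubmodule := by rw [h.sup_eq_top]; trivial
  obtain ⟨a, ha, b, hb, rfl⟩ := Submodule.mem_sup.mp hv
  simp only [map_add]
  rw [Submodule.projection_apply_of_mem_left h ha,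
    Submodule.projection_apply_of_mem_left h (W.apply_mem_toSubmodule g ha),
    Submodule.projection_apply_of_mem_right h hb,
    Submodule.projection_apply_of_mem_right h (W'.apply_mem_toSubmodule g hb), map_zero]

omit [CharZero K] [Fintype G] in
lemma char_sub (ρ : Representation K G V) (W : Subrepresentation ρ) (P : V →ₗ[K] V)
    (hP : ∀ v, P v ∈ W.toSubmodule) (hP' : ∀ v ∈ W.toSubmodule, P v = v) (g : G) :
    W.toRepresentation.character g = LinearMap.trace K V (ρ g * P) := by
  rw [← LinearMap.trace_restrict_eq_of_forall_mem W.toSubmodule (ρ g * P)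
    (fun x => W.apply_mem_toSubmodule g (hP x))]
  unfold Representation.character
  congr 1
  ext ⟨v, hv⟩
  simp [Subrepresentation.toRepresentation, hP' v hv]

omit [CharZero K] [Fintype G] in
lemma char_add (ρ : Representation K G V) (W W' : Subrepresentation ρ)
    (h : IsCompl W.toSubmodule W'.toSubmodule) :
    ρ.character = W.toRepresentation.character + W'.toRepresentation.character := by
  funext g
  rw [Pi.add_apply, char_sub ρ W (W.toSubmodule.projection W'.toSubmodule h)
      (Submodule.projection_apply_mem h) (fun v hv => Submodule.projection_apply_of_mem_left h hv),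
    char_sub ρ W' (W'.toSubmodule.projection W.toSubmodule h.symm)
      (Submodule.projection_apply_mem h.symm)
      (fun v hv => Submodule.projection_apply_of_mem_left h.symm hv), ← map_add, ← mul_add]
  unfold Representation.character
  congr 1
  have : W.toSubmodule.projection W'.toSubmodule h + W'.toSubmodule.projection W.toSubmodule h.symm
      = 1 := by
    ext v
    have hv : v ∈ W.toSubmodule ⊔ W'.toSubmodule := by rw [h.sup_eq_top]; trivial
    obtain ⟨a, ha, b, hb, rfl⟩ := Submodule.mem_sup.mp hv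
    simp only [map_add, LinearMap.add_apply]
    rw [Submodule.projection_apply_of_mem_left h ha, Submodule.projection_apply_of_mem_right h hb,
      Submodule.projection_apply_of_mem_left h.symm hb,
      Submodule.projection_apply_of_mem_right h.symm ha]
    simp
  rw [this, mul_one]

lemma irr_of_norm (ρ : Representation K G V) (h : ip ρ.character ρ.character = 1) :
    ρ.IsIrreducible := by
  haveI : Invertible (Nat.card G : K) := invertibleOfNonzero card_ne_zero'
  have h1 : finrank K (IntertwiningMap ρ ρ) = 1 := by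
    have := card_inv_mul_sum_char_mul_char_eq_finrank ρ ρ
    unfold ip at h
    rw [h] at this
    exact_mod_cast this.symm
  have hV : Nontrivial V := by
    by_contra hV
    rw [not_nontrivial_iff_subsingleton] at hV
    have : Subsingleton (IntertwiningMap ρ ρ) :=
      ⟨fun a b => IntertwiningMap.ext (Subsingleton.elim _ _)⟩
    rw [finrank_zero_of_subsingleton] at h1
    exact zero_ne_one h1
  have hne : (⊥ : Subrepresentation ρ) ≠ ⊤ := by
    intro h2
    have : (⊥ : Submodule K V) = ⊤ := congrArg Subrepresentation.toSubmodule h2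
    exact bot_ne_top this
  refine { toNontrivial := ⟨⊥, ⊤, hne⟩, eq_bot_or_eq_top := ?_ }
  intro W
  obtain ⟨W', hc⟩ := exists_proj ρ W
  let P : IntertwiningMap ρ ρ :=
    (W.toSubmodule.projection W'.toSubmodule hc).intertwiningMap_of_isIntertwiningMap ρ ρ
      (proj_comm ρ W W' hc)
  have hone : (1 : IntertwiningMap ρ ρ) ≠ 0 := by
    intro h0
    obtain ⟨v, hv⟩ := exists_ne (0 : V)
    exact hv (congrArg (fun f : IntertwiningMap ρ ρ => f v) h0)
  obtain ⟨c, hc'⟩ := (finrank_eq_one_iff_of_nonzero' _ hone).mp h1 P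
  have hP : ∀ v, W.toSubmodule.projection W'.toSubmodule hc v = c • v := fun v =>
    (congrArg (fun f : IntertwiningMap ρ ρ => f v) hc').symm
  by_cases h0 : c = 0
  · left
    apply Subrepresentation.toSubmodule_injective
    change W.toSubmodule = ⊥
    rw [eq_bot_iff]
    intro v hv
    have := hP v
    rw [Submodule.projection_apply_of_mem_left hc hv, h0, zero_smul] at this
    exact this
  · right
    apply Subrepresentation.toSubmodule_injective
    change W.toSubmodule = ⊤
    rw [eq_top_iff]
    intro v _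
    have := Submodule.projection_apply_mem hc v
    rw [hP] at this
    exact (Submodule.smul_mem_iff _ h0).mp this

variable [IsAlgClosed K]

lemma norm_of_irr (ρ : Representation K G V) (h : ρ.IsIrreducible) :
    ip ρ.character ρ.character = 1 := by
  haveI : Invertible (Nat.card G : K) := invertibleOfNonzero card_ne_zero'
  have := char_orthonormal ρ ρ
  rw [if_pos ⟨Representation.Equiv.refl ρ⟩] at this
  exact this

lemma isIrr_of_irr (ρ : Representation K G V) (h : ρ.IsIrreducible) :
    IsIrr (finrank K V) ρ.character := by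
  let e : V ≃ₗ[K] (Fin (finrank K V) → K) := (Module.finBasis K V).equivFun
  let ρ' : Representation K G (Fin (finrank K V) → K) :=
    (e.conjAlgEquiv K : _ →* _).comp ρ
  have hc : ρ'.character = ρ.character := by
    funext g
    exact LinearMap.trace_conj' (ρ g) e
  exact ⟨ρ', irr_of_norm _ (by rw [hc]; exact norm_of_irr ρ h), hc.symm⟩

lemma IsIrr.ip_eq {n m : ℕ} {χ ψ : G → K} (h1 : IsIrr n χ) (h2 : IsIrr m ψ) [Decidable (χ = ψ)] :
    ip χ ψ = if χ = ψ then 1 else 0 := by
  haveI : Invertible (Nat.card G : K) := invertibleOfNonzero card_ne_zero'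
  obtain ⟨ρ, hρ, rfl⟩ := h1
  obtain ⟨τ, hτ, rfl⟩ := h2
  split_ifs with h
  · rw [← h]; exact norm_of_irr ρ hρ
  · have := char_orthonormal ρ τ
    rw [if_neg] at this
    · exact this
    · rintro ⟨φ⟩
      exact h (char_iso φ).symm

omit [CharZero K] [Fintype G] [IsAlgClosed K] in
lemma IsIrr.one {n : ℕ} {χ : G → K} (h1 : IsIrr n χ) : χ 1 = n := by
  obtain ⟨ρ, _, rfl⟩ := h1
  simp

omit [CharZero K] [Fintype G] [IsAlgClosed K] in
lemma IsIrr.pos {n : ℕ} {χ : G → K} (h1 : IsIrr n χ) : 0 < n := by
  obtain ⟨ρ, hρ, rfl⟩ := h1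
  haveI := nontrivial_of_irr ρ hρ
  have := finrank_pos (R := K) (M := Fin n → K)
  simpa using this

/-- every character is a sum of irreducible characters. -/
lemma exists_decomp (d : ℕ) : ∀ (V : Type) [AddCommGroup V] [Module K V] [FiniteDimensional K V]
    (ρ : Representation K G V), finrank K V = d →
    ∃ s : Multiset (G → K), (∀ χ ∈ s, ∃ n, IsIrr n χ) ∧ ρ.character = s.sum := by
  induction d using Nat.strong_induction_on with
  | _ d ih =>
  intro V _ _ _ ρ hd
  by_cases hV : Subsingleton V
  · refine ⟨0, by simp, ?_⟩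
    funext g
    simp [Representation.character, Subsingleton.elim (ρ g) 0]
  by_cases hi : ρ.IsIrreducible
  · exact ⟨{ρ.character}, by simpa using ⟨_, isIrr_of_irr ρ hi⟩, by simp⟩
  rw [not_subsingleton_iff_nontrivial] at hV
  have hne : (⊥ : Subrepresentation ρ) ≠ ⊤ := by
    intro h2
    have : (⊥ : Submodule K V) = ⊤ := congrArg Subrepresentation.toSubmodule h2
    exact bot_ne_top this
  obtain ⟨W, hW⟩ : ∃ W : Subrepresentation ρ, ¬ (W = ⊥ ∨ W = ⊤) := by
    by_contra hc
    push Not at hc
    exact hi { toNontrivial := ⟨⊥, ⊤, hne⟩, eq_bot_or_eq_top := hc }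
  push Not at hW
  obtain ⟨W', hc⟩ := exists_proj ρ W
  have h1 : W.toSubmodule ≠ ⊤ := fun h => hW.2 (Subrepresentation.toSubmodule_injective h)
  have h2 : W'.toSubmodule ≠ ⊤ := by
    intro h
    apply hW.1
    apply Subrepresentation.toSubmodule_injective
    have := hc.disjoint
    rw [h, disjoint_top] at this
    exact this
  obtain ⟨s, hs, e1⟩ := ih _ (hd ▸ Submodule.finrank_lt h1) _ W.toRepresentation rfl
  obtain ⟨t, ht, e2⟩ := ih _ (hd ▸ Submodule.finrank_lt h2) _ W'.toRepresentation rfl
  refine ⟨s + t, ?_, by rw [char_add ρ W W' hc, e1, e2, Multiset.sum_add]⟩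
  intro χ hχ
  rcases Multiset.mem_add.mp hχ with h | h
  exacts [hs χ h, ht χ h]

/-- a virtual character of norm two and degree zero is a difference of two irreducible
characters of the same degree. -/
lemma norm_two {V' : Type} [AddCommGroup V'] [Module K V'] [FiniteDimensional K V']
    (ρ : Representation K G V) (ρ' : Representation K G V')
    (h2 : ip (ρ.character - ρ'.character) (ρ.character - ρ'.character) = 2)
    (h0 : ρ.character 1 - ρ'.character 1 = 0) :
    ∃ (n : ℕ) (χ₁ χ₂ : G → K), IsIrr n χ₁ ∧ IsIrr n χ₂ ∧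
      ρ.character - ρ'.character = χ₁ - χ₂ := by
  classical
  obtain ⟨s, hs, e1⟩ := exists_decomp _ V ρ rfl
  obtain ⟨t, ht, e2⟩ := exists_decomp _ V' ρ' rfl
  set S := (s + t).toFinset with hS
  have hSirr : ∀ χ ∈ S, ∃ n, IsIrr n χ := by
    intro χ hχ
    rw [hS, Multiset.mem_toFinset, Multiset.mem_add] at hχ
    rcases hχ with h | h
    exacts [hs χ h, ht χ h]
  let a : (G → K) → ℤ := fun χ => (s.count χ : ℤ) - t.count χ
  have hδ : ρ.character - ρ'.character = ∑ χ ∈ S, (a χ : K) • χ := by
    rw [e1, e2, Finset.sum_multiset_count_of_subset s S (by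
        intro x hx; simp only [hS, Multiset.mem_toFinset, Multiset.mem_add] at hx ⊢; tauto),
      Finset.sum_multiset_count_of_subset t S (by
        intro x hx; simp only [hS, Multiset.mem_toFinset, Multiset.mem_add] at hx ⊢; tauto),
      ← Finset.sum_sub_distrib]
    refine Finset.sum_congr rfl fun χ _ => ?_
    simp only [a]
    push_cast
    rw [sub_smul, Nat.cast_smul_eq_nsmul, Nat.cast_smul_eq_nsmul]
  set T := S.filter (fun χ => a χ ≠ 0) with hT
  have hδ' : ρ.character - ρ'.character = ∑ χ ∈ T, (a χ : K) • χ := by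
    rw [hδ, hT, Finset.sum_filter_of_ne]
    intro χ _ h h'
    exact h (by rw [h']; simp)
  have hTirr : ∀ χ ∈ T, ∃ n, IsIrr n χ := fun χ h => hSirr χ (Finset.mem_filter.mp h).1
  have hsq : ∑ χ ∈ T, a χ * a χ = 2 := by
    have : ((∑ χ ∈ T, a χ * a χ : ℤ) : K) = 2 := by
      rw [← h2, hδ', ip_sum_left]
      push_cast
      refine Finset.sum_congr rfl fun χ hχ => ?_
      rw [ip_smul_left, ip_sum_right, Finset.sum_eq_single χ]
      · obtain ⟨n, hn⟩ := hTirr χ hχ
        rw [ip_smul_right, hn.ip_eq hn, if_pos rfl, mul_one]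
      · intro ψ hψ hne
        obtain ⟨n, hn⟩ := hTirr χ hχ
        obtain ⟨m, hm⟩ := hTirr ψ hψ
        rw [ip_smul_right, hn.ip_eq hm, if_neg (Ne.symm hne), mul_zero]
      · intro h; exact absurd hχ h
    exact_mod_cast this
  have hge : ∀ χ ∈ T, 1 ≤ a χ * a χ := fun χ h => by
    have := (Finset.mem_filter.mp h).2
    exact mul_self_pos.mpr this
  have hcard : T.card ≤ 2 := by
    have := Finset.card_nsmul_le_sum T _ 1 hge
    rw [hsq] at this
    simpa using this
  have hcard2 : T.card = 2 := by
    rcases Nat.lt_or_ge T.card 2 with h | h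
    · exfalso
      have h1 : T.card ≤ 1 := by omega
      rcases T.eq_empty_or_nonempty with h3 | ⟨χ, hχ⟩
      · rw [h3] at hsq; simp at hsq
      · have : T = {χ} := by
          rw [Finset.eq_singleton_iff_unique_mem]
          exact ⟨hχ, fun x hx => Finset.card_le_one.mp h1 x hx χ hχ⟩
        rw [this, Finset.sum_singleton] at hsq
        have h5 : a χ ≤ 1 := by nlinarith
        have h6 : -1 ≤ a χ := by nlinarith
        generalize a χ = z at *
        interval_cases z <;> simp at hsq
    · omega
  obtain ⟨χ, ψ, hne, hT2⟩ := Finset.card_eq_two.mp hcard2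
  obtain ⟨n, hn⟩ := hTirr χ (by simp [hT2])
  obtain ⟨m, hm⟩ := hTirr ψ (by simp [hT2])
  have g1 := hge χ (by simp [hT2])
  have g2 := hge ψ (by simp [hT2])
  rw [hT2, Finset.sum_pair hne] at hsq hδ'
  have hdeg : a χ * n + a ψ * m = 0 := by
    have := congrFun hδ' 1
    rw [Pi.sub_apply, h0] at this
    simp only [Pi.add_apply, Pi.smul_apply, smul_eq_mul, hn.one, hm.one] at this
    exact_mod_cast this.symm
  have hn0 := hn.pos
  have hm0 := hm.pos
  have k1 : a χ = 1 ∨ a χ = -1 := mul_self_eq_one_iff.mp (by omega)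
  have k2 : a ψ = 1 ∨ a ψ = -1 := mul_self_eq_one_iff.mp (by omega)
  rcases k1 with k1 | k1 <;> rcases k2 with k2 | k2 <;> rw [k1, k2] at hdeg hδ'
  · omega
  · obtain rfl : n = m := by omega
    exact ⟨n, χ, ψ, hn, hm, by rw [hδ']; simp [sub_eq_add_neg]⟩
  · obtain rfl : n = m := by omega
    exact ⟨n, ψ, χ, hm, hn, by rw [hδ']; simp [sub_eq_neg_add]⟩
  · omega

/-- twisting an irreducible character by a field automorphism. -/
lemma IsIrr.twist {n : ℕ} {χ : G → K} (h : IsIrr n χ) (σ : K ≃+* K) : IsIrr n (σ ∘ χ) := by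
  obtain ⟨ρ, hρ, rfl⟩ := h
  let ρ' : Representation K G (Fin n → K) :=
    ((Matrix.toLinAlgEquiv' : Matrix (Fin n) (Fin n) K ≃ₐ[K] _) : _ →* _).comp
      (((σ : K →+* K).mapMatrix (m := Fin n)).toMonoidHom.comp
        (((LinearMap.toMatrixAlgEquiv' : _ ≃ₐ[K] Matrix (Fin n) (Fin n) K) : _ →* _).comp ρ))
  have hc : ρ'.character = σ ∘ ρ.character := by
    funext g
    have e1 : ρ'.character g = Matrix.trace ((LinearMap.toMatrix' (ρ g)).map σ) := by
      unfold Representation.character
      rw [← Matrix.trace_toLin'_eq]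
      rfl
    have e2 : ρ.character g = Matrix.trace (LinearMap.toMatrix' (ρ g)) := by
      unfold Representation.character
      rw [← Matrix.trace_toLin'_eq, Matrix.toLin'_toMatrix']
    rw [e1, Function.comp_apply, e2]
    simp [Matrix.trace]
  refine ⟨ρ', irr_of_norm _ ?_, hc.symm⟩
  have h1 := norm_of_irr ρ hρ
  rw [hc]
  have := congrArg σ h1
  simpa [ip] using this

/-- a homomorphism to the field is an irreducible character of degree one. -/
lemma isIrr_one (l : G →* K) : IsIrr 1 (l : G → K) := by
  let ρ : Representation K G (Fin 1 → K) :=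
    (algebraMap K (Module.End K (Fin 1 → K)) : K →* _).comp l
  have hc : ρ.character = l := by
    funext g
    simp [ρ, Representation.character, Algebra.algebraMap_eq_smul_one]
  refine ⟨ρ, irr_of_norm _ ?_, hc.symm⟩
  rw [hc]
  simp only [ip, ← map_mul, mul_inv_cancel, map_one, Finset.sum_const, Finset.card_univ,
    nsmul_eq_mul, mul_one, Fintype.card_eq_nat_card]
  exact inv_mul_cancel₀ card_ne_zero'

end maschke

/-- the Galois action on traces of operators of finite order. -/
lemma sigma_trace [CharZero K] [IsAlgClosed K] {V : Type} [AddCommGroup V] [Module K V]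
    [FiniteDimensional K V] (A : V →ₗ[K] V) (N : ℕ) (hN : 0 < N) (hA : A ^ N = 1) (σ : K ≃+* K)
    (k : ℕ) (hk : ∀ ξ : K, ξ ^ N = 1 → σ ξ = ξ ^ k) :
    σ (LinearMap.trace K V A) = LinearMap.trace K V (A ^ k) := by
  haveI : NeZero (N : K) := ⟨by exact_mod_cast hN.ne'⟩
  haveI : NeZero N := ⟨hN.ne'⟩
  obtain ⟨ω, hω⟩ := HasEnoughRootsOfUnity.exists_primitiveRoot K N
  have hω0 : ω ≠ 0 := hω.ne_zero hN.ne'
  have hN0 : (N : K) ≠ 0 := NeZero.ne _
  let e : ℕ → V →ₗ[K] V := fun j => (N : K)⁻¹ • ∑ a ∈ Finset.range N, ((ω ^ j)⁻¹ • A) ^ a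
  have hAe : ∀ j, ((ω ^ j)⁻¹ • A) * e j = e j := by
    intro j
    have h1 : ((ω ^ j)⁻¹ • A) ^ N = 1 := by
      rw [_root_.smul_pow, hA, inv_pow, ← pow_mul, mul_comm, pow_mul, hω.pow_eq_one]; simp
    have := mul_geom_sum ((ω ^ j)⁻¹ • A) N
    rw [h1, sub_self, sub_mul, one_mul, sub_eq_zero] at this
    simp only [e, mul_smul_comm, this]
  have hAe' : ∀ j a, ((ω ^ j)⁻¹ • A) ^ a * e j = e j := by
    intro j a
    induction a with
    | zero => simp
    | succ a ih => rw [pow_succ, mul_assoc, hAe, ih]
  have hee : ∀ j, e j * e j = e j := by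
    intro j
    conv_lhs => enter [1]; simp only [e]
    rw [smul_mul_assoc, Finset.sum_mul]
    simp only [hAe', Finset.sum_const, Finset.card_range]
    rw [← Nat.cast_smul_eq_nsmul K, smul_smul, inv_mul_cancel₀ hN0, one_smul]
  have hsum : ∑ j ∈ Finset.range N, e j = 1 := by
    simp only [e, ← Finset.smul_sum]
    rw [Finset.sum_comm]
    have : ∀ a ∈ Finset.range N, ∑ j ∈ Finset.range N, ((ω ^ j)⁻¹ • A) ^ a
        = if a = 0 then (N : K) • 1 else 0 := by
      intro a ha
      simp only [_root_.smul_pow, ← Finset.sum_smul]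
      split_ifs with h0
      · simp [h0]
      · have h1 : (ω ^ a)⁻¹ ≠ 1 := by
          rw [Ne, inv_eq_one]
          exact hω.pow_ne_one_of_pos_of_lt h0 (Finset.mem_range.mp ha)
        have h2 : ∑ j ∈ Finset.range N, ((ω ^ a)⁻¹) ^ j = 0 := by
          have := mul_geom_sum ((ω ^ a)⁻¹) N
          rw [inv_pow, ← pow_mul, mul_comm a N, pow_mul, hω.pow_eq_one, one_pow, inv_one,
            sub_self] at this
          exact (mul_eq_zero.mp this).resolve_left (sub_ne_zero.mpr h1)
        have h3 : ∑ j ∈ Finset.range N, ((ω ^ j)⁻¹) ^ a = 0 := by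
          rw [← h2]
          refine Finset.sum_congr rfl fun j _ => ?_
          simp only [inv_pow, ← pow_mul, mul_comm]
        rw [h3, zero_smul]
    rw [Finset.sum_congr rfl this, Finset.sum_ite_eq' (Finset.range N) 0,
      if_pos (Finset.mem_range.mpr hN), smul_smul, inv_mul_cancel₀ hN0, one_smul]
  choose r hr using fun j => trace_idem (e j) (hee j)
  have hpow : ∀ a, LinearMap.trace K V (A ^ a) = ∑ j ∈ Finset.range N, (ω ^ j) ^ a * r j := by
    intro a
    have : A ^ a = ∑ j ∈ Finset.range N, (ω ^ j) ^ a • e j := by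
      conv_lhs => rw [← mul_one (A ^ a), ← hsum, Finset.mul_sum]
      refine Finset.sum_congr rfl fun j _ => ?_
      conv_rhs => rw [← hAe' j a, _root_.smul_pow, smul_mul_assoc, smul_smul, ← mul_pow,
        mul_inv_cancel₀ (pow_ne_zero _ hω0), one_pow, one_smul]
    rw [this, map_sum]
    simp only [map_smul, hr, smul_eq_mul]
  have := hpow 1
  rw [pow_one] at this
  rw [this, hpow k, map_sum]
  refine Finset.sum_congr rfl fun j _ => ?_
  rw [map_mul, map_natCast, pow_one, hk]
  rw [← pow_mul, mul_comm, pow_mul, hω.pow_eq_one, one_pow]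

lemma sigma_char [CharZero K] [IsAlgClosed K] {V : Type} [AddCommGroup V] [Module K V]
    [FiniteDimensional K V] (ρ : Representation K G V) (N : ℕ) (hN : 0 < N) (g : G)
    (hg : g ^ N = 1) (σ : K ≃+* K) (k : ℕ) (hk : ∀ ξ : K, ξ ^ N = 1 → σ ξ = ξ ^ k) :
    σ (ρ.character g) = ρ.character (g ^ k) := by
  unfold Representation.character
  rw [map_pow]
  exact sigma_trace _ N hN (by rw [← map_pow, hg, map_one]) σ k hk

/-- the exponent of an automorphism on the `N`-th roots of unity. -/
lemma exists_exponent [CharZero K] [IsAlgClosed K] (σ : K ≃+* K) (N : ℕ) (hN : 0 < N) :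
    ∃ k : ℕ, k.Coprime N ∧ ∀ ξ : K, ξ ^ N = 1 → σ ξ = ξ ^ k := by
  haveI : NeZero (N : K) := ⟨by exact_mod_cast hN.ne'⟩
  haveI : NeZero N := ⟨hN.ne'⟩
  obtain ⟨ω, hω⟩ := HasEnoughRootsOfUnity.exists_primitiveRoot K N
  have h1 : IsPrimitiveRoot (σ ω) N := hω.map_of_injective σ.injective
  obtain ⟨k, -, hk⟩ := hω.eq_pow_of_pow_eq_one h1.pow_eq_one
  refine ⟨k, ?_, ?_⟩
  · rw [← hk] at h1
    exact (hω.pow_iff_coprime hN k).mp h1
  · intro ξ hξ
    obtain ⟨j, -, rfl⟩ := hω.eq_pow_of_pow_eq_one hξ
    rw [map_pow, ← hk, ← pow_mul, ← pow_mul, mul_comm]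

end Pool.Agent.Lib.MP_1ae3da_al
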