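import Pool.Agent.Lib.MP_1ae3da_al.Eig
import Pool.Agent.Lib.MP_1ae3da_al.Rep

/-! Gauss sums (in the sense of Kondo) of representations of `GL_m(F_p)`. -/

namespace Pool.Agent.Lib.MP_1ae3da_al

open Matrix Module

variable {K : Type} [Field K] [CharZero K] {V : Type} [AddCommGroup V] [Module K V]
  {p : ℕ} [Fact p.Prime] {m : ℕ}

/-- matrix trace of a group element. -/
abbrev tr (g : GL (Fin m) (ZMod p)) : ZMod p := Matrix.trace (g : Matrix (Fin m) (Fin m) (ZMod p))

/-- the Gauss sum operator. -/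
noncomputable def Phi (ρ : Representation K (GL (Fin m) (ZMod p)) V) (ψ : AddChar (ZMod p) K) :
    V →ₗ[K] V := ∑ g, ψ (tr g) • ρ g

omit [CharZero K] in
lemma Phi_comm (ρ : Representation K (GL (Fin m) (ZMod p)) V) (ψ : AddChar (ZMod p) K)
    (h : GL (Fin m) (ZMod p)) (v : V) : Phi ρ ψ (ρ h v) = ρ h (Phi ρ ψ v) := by
  simp only [Phi, LinearMap.sum_apply, LinearMap.smul_apply, map_sum, map_smul,
    ← Module.End.mul_apply, ← map_mul]
  refine (Fintype.sum_equiv (MulAut.conj h).toEquiv _ _ fun g => ?_).symm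
  simp only [MulEquiv.toEquiv_eq_coe, EquivLike.coe_coe, MulAut.conj_apply, inv_mul_cancel_right,
    tr, Units.val_mul, Matrix.trace_units_conj]

lemma phi_reduce (ρ : Representation K (GL (Fin m) (ZMod p)) V) (ψ : AddChar (ZMod p) K)
    (hψ : ∀ t, ψ t = 1 → t = 0) (A : AddSubgroup (Matrix (Fin m) (Fin m) (ZMod p)))
    (hA : ∀ n ∈ A, Lev 1 n) (ℓ : Matrix (Fin m) (Fin m) (ZMod p) →+ ZMod p) (v : V)
    (hv : ∀ n ∈ A, ρ (uni n) v = ψ (ℓ n) • v)
    [DecidablePred fun g : GL (Fin m) (ZMod p) =>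
      ∀ n ∈ A, ((g : Matrix (Fin m) (Fin m) (ZMod p)) * n).trace + ℓ n = 0] :
    Phi ρ ψ v = ∑ g : GL (Fin m) (ZMod p),
      if ∀ n ∈ A, ((g : Matrix (Fin m) (Fin m) (ZMod p)) * n).trace + ℓ n = 0
      then ψ (tr g) • ρ g v else 0 := by
  classical
  have hc : (Fintype.card A : K) ≠ 0 := Nat.cast_ne_zero.mpr Fintype.card_ne_zero
  apply smul_right_injective V hc
  have e1 : ∀ n : A, Phi ρ ψ v = ∑ g : GL (Fin m) (ZMod p),
      (ψ (tr g) * ψ (((g : Matrix (Fin m) (Fin m) (ZMod p)) * n.1).trace + ℓ n.1)) • ρ g v := by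
    intro n
    simp only [Phi, LinearMap.sum_apply, LinearMap.smul_apply]
    refine (Fintype.sum_equiv (Equiv.mulRight (uni n.1)) _ _ fun g => ?_).symm
    simp only [Equiv.coe_mulRight, map_mul, Module.End.mul_apply, hv n.1 n.2, map_smul, smul_smul,
      tr, Units.val_mul, uni_val (hA n.1 n.2), mul_add, mul_one, trace_add,
      AddChar.map_add_eq_mul, mul_assoc]
  have e2 : (Fintype.card A : K) • Phi ρ ψ v = ∑ n : A, Phi ρ ψ v := by
    rw [Finset.sum_const, Finset.card_univ, Nat.cast_smul_eq_nsmul]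
  change (Fintype.card A : K) • Phi ρ ψ v = (Fintype.card A : K) • _
  rw [e2, Finset.sum_congr rfl fun n _ => e1 n, Finset.sum_comm, Finset.smul_sum]
  refine Finset.sum_congr rfl fun g _ => ?_
  let f : A →+ ZMod p :=
    { toFun := fun n => ((g : Matrix (Fin m) (Fin m) (ZMod p)) * n.1).trace + ℓ n.1
      map_zero' := by simp
      map_add' := fun x y => by
        simp only [AddSubgroup.coe_add, mul_add, trace_add, map_add]; ring }
  have := sum_psi ψ hψ f
  rw [← Finset.sum_smul, ← Finset.mul_sum]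
  change (ψ (tr g) * ∑ n, ψ (f n)) • _ = _
  rw [this]
  by_cases hg : ∀ n ∈ A, ((g : Matrix (Fin m) (Fin m) (ZMod p)) * n).trace + ℓ n = 0
  · rw [if_pos hg, if_pos (show ∀ a : A, f a = 0 from fun n => hg n.1 n.2), smul_smul,
      mul_comm]
  · rw [if_neg hg, if_neg (show ¬ ∀ a : A, f a = 0 from fun h => hg fun n hn => h ⟨n, hn⟩)]
    simp

/-- first row matrices with zero corner. -/
def Row (o : Fin m) (p : ℕ) : AddSubgroup (Matrix (Fin m) (Fin m) (ZMod p)) where
  carrier := {n | ∀ i j, (i ≠ o ∨ j = o) → n i j = 0}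
  add_mem' ha hb i j h := by simp [ha i j h, hb i j h]
  zero_mem' _ _ _ := rfl
  neg_mem' ha i j h := by simp [ha i j h]

lemma Row_lev {o : Fin m} (ho : (o : ℕ) = 0) {n : Matrix (Fin m) (Fin m) (ZMod p)}
    (hn : n ∈ Row o p) : Lev 1 n := by
  intro i j hij
  apply hn
  by_cases hi : i = o
  · right; apply Fin.ext; rw [hi] at hij; omega
  · left; exact hi

lemma Row_mul {o : Fin m} {n n' : Matrix (Fin m) (Fin m) (ZMod p)}
    (hn : n ∈ Row o p) (hn' : n' ∈ Row o p) : n * n' = 0 := by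
  ext i j
  rw [Matrix.mul_apply]
  refine Finset.sum_eq_zero fun l _ => ?_
  by_cases hl : l = o
  · rw [hn i l (Or.inr hl), zero_mul]
  · rw [hn' l j (Or.inl hl), mul_zero]

lemma uni_Row {o : Fin m} (ho : (o : ℕ) = 0) (a b : Row o p) :
    uni a.1 * uni b.1 = uni (a + b).1 := by
  ext1
  rw [Units.val_mul, uni_val (Row_lev ho a.2), uni_val (Row_lev ho b.2),
    uni_val (Row_lev ho (a + b).2)]
  simp only [mul_add, add_mul, mul_one, one_mul, Row_mul a.2 b.2, AddSubgroup.coe_add]
  abel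

/-- `g` stabilises the first coordinate line. -/
def Par (o : Fin m) (g : GL (Fin m) (ZMod p)) : Prop :=
  ∀ j, j ≠ o → (g : Matrix (Fin m) (Fin m) (ZMod p)) j o = 0

lemma mul_first_col {o : Fin m} (ho : (o : ℕ) = 0) (g : Matrix (Fin m) (Fin m) (ZMod p))
    {n : Matrix (Fin m) (Fin m) (ZMod p)} (hn : Lev 1 n) (j : Fin m) :
    (g * (1 + n)) j o = g j o := by
  rw [mul_add, mul_one, Matrix.add_apply, Matrix.mul_apply, Finset.sum_eq_zero, add_zero]
  intro l _
  rw [hn l o (by omega), mul_zero]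

lemma stepA_aux [FiniteDimensional K V] (ρ : Representation K (GL (Fin m) (ZMod p)) V)
    (ψ : AddChar (ZMod p) K) (hψ : ∀ t, ψ t = 1 → t = 0) {o : Fin m} (ho : (o : ℕ) = 0) (γ : K)
    (hγ : ∀ v, Phi ρ ψ v = γ • v) [Fintype (Row o p)]
    [DecidablePred fun g : GL (Fin m) (ZMod p) =>
      ∀ n ∈ Row o p, ((g : Matrix (Fin m) (Fin m) (ZMod p)) * n).trace = 0] :
    (γ * ∑ a : Row o p, ρ.character (uni a.1) = ∑ g : GL (Fin m) (ZMod p),
      if ∀ n ∈ Row o p, ((g : Matrix (Fin m) (Fin m) (ZMod p)) * n).trace = 0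
      then ψ (tr g) * ∑ a : Row o p, ρ.character (g * uni a.1) else 0) ∧
    (∑ a : Row o p, ρ.character (uni a.1) = 0 →
      ∀ v, (∀ n ∈ Row o p, ρ (uni n) v = v) → v = 0) := by
  classical
  let E : V →ₗ[K] V := ∑ a : Row o p, ρ (uni a.1)
  have hE : ∀ b : Row o p, ρ (uni b.1) * E = E := by
    intro b
    simp only [E, Finset.mul_sum, ← map_mul, uni_Row ho]
    exact Fintype.sum_equiv (Equiv.addLeft b) _ _ (fun _ => rfl)
  have htr : LinearMap.trace K V E = ∑ a : Row o p, ρ.character (uni a.1) := by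
    simp only [E, map_sum]; rfl
  have hc : (Fintype.card (Row o p) : K) ≠ 0 := Nat.cast_ne_zero.mpr Fintype.card_ne_zero
  constructor
  · have e1 : γ • E = ∑ g : GL (Fin m) (ZMod p),
        if ∀ n ∈ Row o p, ((g : Matrix (Fin m) (Fin m) (ZMod p)) * n).trace = 0
        then ψ (tr g) • (ρ g * E) else 0 := by
      ext w
      have := phi_reduce ρ ψ hψ (Row o p) (fun n hn => Row_lev ho hn) 0 (E w) (by
        intro n hn
        rw [← Module.End.mul_apply, hE ⟨n, hn⟩]; simp)
      rw [LinearMap.smul_apply, ← hγ, this]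
      simp only [LinearMap.sum_apply]
      refine Finset.sum_congr rfl fun g _ => ?_
      simp only [AddMonoidHom.zero_apply, add_zero]
      split_ifs <;> simp
    have e2 := congrArg (LinearMap.trace K V) e1
    rw [map_smul, htr, smul_eq_mul, map_sum] at e2
    rw [e2]
    refine Finset.sum_congr rfl fun g _ => ?_
    split_ifs
    · simp only [map_smul, E, Finset.mul_sum, map_sum, smul_eq_mul, ← map_mul]; rfl
    · simp
  · intro h0 v hv
    have hid : IsIdempotentElem ((Fintype.card (Row o p) : K)⁻¹ • E) := by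
      change _ * _ = _
      rw [smul_mul_assoc, mul_smul_comm]
      congr 1
      conv_lhs => enter [2, 1]; simp only [E]
      rw [Finset.sum_mul]
      simp only [hE, Finset.sum_const, Finset.card_univ]
      rw [← Nat.cast_smul_eq_nsmul K, smul_smul, inv_mul_cancel₀ hc, one_smul]
    have := LinearMap.IsIdempotentElem.eq_zero_of_trace_eq_zero hid
      (by rw [map_smul, htr, h0, smul_zero])
    have e3 := congrArg (fun f : V →ₗ[K] V => f v) this
    simp only [E, LinearMap.smul_apply, LinearMap.sum_apply, LinearMap.zero_apply] at e3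
    rw [Finset.sum_congr rfl fun a _ => hv a.1 a.2, Finset.sum_const, Finset.card_univ,
      ← Nat.cast_smul_eq_nsmul K, smul_smul, inv_mul_cancel₀ hc, one_smul] at e3
    exact e3

theorem stepA [FiniteDimensional K V] {V' : Type} [AddCommGroup V'] [Module K V']
    [FiniteDimensional K V'] (ρ : Representation K (GL (Fin m) (ZMod p)) V)
    (ρ' : Representation K (GL (Fin m) (ZMod p)) V')
    (ψ : AddChar (ZMod p) K) (hψ : ∀ t, ψ t = 1 → t = 0) {o : Fin m} (ho : (o : ℕ) = 0)
    (γ γ' : K) (hγ : ∀ v, Phi ρ ψ v = γ • v) (hγ' : ∀ v, Phi ρ' ψ v = γ' • v)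
    (h : ∀ g, Par o g → ρ.character g = ρ'.character g) :
    γ = γ' ∨ ((∀ v, (∀ n ∈ Row o p, ρ (uni n) v = v) → v = 0) ∧
      (∀ v, (∀ n ∈ Row o p, ρ' (uni n) v = v) → v = 0)) := by
  classical
  obtain ⟨a1, a2⟩ := stepA_aux ρ ψ hψ ho γ hγ
  obtain ⟨b1, b2⟩ := stepA_aux ρ' ψ hψ ho γ' hγ'
  have hpar : ∀ (g : GL (Fin m) (ZMod p)) (a : Row o p), Par o g → Par o (g * uni a.1) := by
    intro g a hg j hj
    rw [Units.val_mul, uni_val (Row_lev ho a.2), mul_first_col ho _ (Row_lev ho a.2), hg j hj]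
  have e1 : ∑ a : Row o p, ρ.character (uni a.1) = ∑ a : Row o p, ρ'.character (uni a.1) := by
    refine Finset.sum_congr rfl fun a _ => h _ ?_
    have := hpar 1 a (fun j hj => by simp [Matrix.one_apply_ne hj])
    rwa [one_mul] at this
  by_cases h0 : ∑ a : Row o p, ρ.character (uni a.1) = 0
  · exact Or.inr ⟨a2 h0, b2 (e1 ▸ h0)⟩
  · left
    apply mul_right_cancel₀ h0
    rw [a1, e1, b1]
    refine Finset.sum_congr rfl fun g _ => ?_
    split_ifs with hg
    · congr 1
      refine Finset.sum_congr rfl fun a _ => h _ (hpar g a ?_)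
      intro j hj
      have := hg (single o j 1) (by
        intro a b hab
        apply single_apply_of_ne
        rintro ⟨rfl, rfl⟩
        rcases hab with hab | hab
        exacts [hab rfl, hj hab])
      simpa [trace_mul_single] using this
    · rfl

lemma sum_right_inv {G M : Type} [Group G] [Fintype G] [AddCommMonoid M] (U : Subgroup G)
    (H : G → M) (hH : ∀ g, ∀ u ∈ U, H (g * u) = H g) [Fintype (G ⧸ U)] :
    ∑ g, H g = Nat.card U • ∑ c : G ⧸ U, H c.out := by
  classical
  rw [← Finset.sum_fiberwise (s := Finset.univ) (g := fun g : G => (g : G ⧸ U)), Finset.smul_sum]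
  refine Finset.sum_congr rfl fun c _ => ?_
  have : ∑ u : U, H (c.out * u) = Nat.card U • H c.out := by
    simp [hH]
  rw [← this]
  symm
  refine Finset.sum_bij (fun u _ => c.out * u) ?_ ?_ ?_ (fun _ _ => rfl)
  · intro u _
    simp
  · intro a _ b _ hab
    exact Subtype.ext (mul_left_cancel hab)
  · intro g hg
    have hg' : (g : G ⧸ U) = c := (Finset.mem_filter.mp hg).2
    refine ⟨⟨c.out⁻¹ * g, ?_⟩, Finset.mem_univ _, by simp⟩
    rw [← QuotientGroup.eq, hg', QuotientGroup.out_eq']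

theorem stepB [Nontrivial V] (ρ : Representation K (GL (Fin m) (ZMod p)) V)
    (ζ : K) (ψ : AddChar (ZMod p) K) (hψ : ∀ t, ψ t = 1 → t = 0) (hζ : ∀ i : ℕ, ψ i = ζ ^ i)
    {o : Fin m} (ho : (o : ℕ) = 0) (γ : K) (hγ : ∀ v, Phi ρ ψ v = γ • v)
    (hfix : ∀ v, (∀ n ∈ Row o p, ρ (uni n) v = v) → v = 0) :
    ∃ κ : K, IsIntegral ℤ κ ∧ γ = Nat.card (Uni m (ZMod p)) * (ζ - 1) * κ := by
  classical
  obtain ⟨v, ℓ, hv, h2, h1⟩ := exists_eig ρ ψ hψ
  have hred := phi_reduce ρ ψ hψ (Nil m (ZMod p)) (fun n hn => hn) ℓ v (fun n hn => h1 n hn)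
  let Y : GL (Fin m) (ZMod p) → Prop := fun g =>
    ∀ n ∈ Nil m (ZMod p), ((g : Matrix (Fin m) (Fin m) (ZMod p)) * n).trace + ℓ n = 0
  let c : GL (Fin m) (ZMod p) → ZMod p := fun g => (g : Matrix (Fin m) (Fin m) (ZMod p)) o o
  let H : GL (Fin m) (ZMod p) → V := fun g => if Y g then ψ (tr g - c g) • ρ g v else 0
  have hYr : ∀ g u, u ∈ Uni m (ZMod p) → Y g → Y (g * u) := by
    intro g u hu hg n hn
    have e : ((g * u : GL (Fin m) (ZMod p)) : Matrix (Fin m) (Fin m) (ZMod p)) * n
        = g * (n + ((u : Matrix (Fin m) (Fin m) (ZMod p)) - 1) * n) := by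
      rw [Units.val_mul]; noncomm_ring
    have l2 : Lev 2 (((u : Matrix (Fin m) (Fin m) (ZMod p)) - 1) * n) := Lev.mul hu hn
    have := hg _ (Lev.add hn (l2.mono (by omega)))
    rw [map_add, h2 _ l2, add_zero] at this
    rw [e, this]
  have hYl : ∀ g u, u ∈ Uni m (ZMod p) → Y g → Y (u * g) := by
    intro g u hu hg n hn
    have e : (((u * g : GL (Fin m) (ZMod p)) : Matrix (Fin m) (Fin m) (ZMod p)) * n).trace
        = ((g : Matrix (Fin m) (Fin m) (ZMod p)) *
          (n + n * ((u : Matrix (Fin m) (Fin m) (ZMod p)) - 1))).trace := by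
      rw [Units.val_mul, mul_assoc, trace_mul_comm]
      congr 1
      noncomm_ring
    have l2 : Lev 2 (n * ((u : Matrix (Fin m) (Fin m) (ZMod p)) - 1)) := Lev.mul hn hu
    have := hg _ (Lev.add hn (l2.mono (by omega)))
    rw [map_add, h2 _ l2, add_zero] at this
    rw [e, this]
  have hcr : ∀ g u, u ∈ Uni m (ZMod p) → c (g * u) = c g := by
    intro g u hu
    have := mul_first_col ho (g : Matrix (Fin m) (Fin m) (ZMod p)) hu o
    simpa [c] using this
  have hHr : ∀ g, ∀ u ∈ Uni m (ZMod p), H (g * u) = H g := by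
    intro g u hu
    simp only [H]
    by_cases hg : Y g
    · rw [if_pos hg, if_pos (hYr g u hu hg), hcr g u hu, map_mul, Module.End.mul_apply]
      have e1 := h1 _ hu
      rw [uni_sub_one hu] at e1
      rw [e1, map_smul, smul_smul, ← AddChar.map_add_eq_mul]
      congr 2
      have := hg _ hu
      rw [mul_sub, mul_one, trace_sub] at this
      simp only [tr, Units.val_mul]
      linear_combination this
    · rw [if_neg hg, if_neg]
      intro h
      apply hg
      simpa using hYr _ u⁻¹ (inv_mem hu) h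
  have hHl : ∀ g, ∀ n ∈ Row o p, H (uni n * g) = ρ (uni n) (H g) := by
    intro g n hn
    simp only [H]
    by_cases hg : Y g
    · rw [if_pos hg, if_pos (hYl g _ (uni_mem n) hg), map_mul, Module.End.mul_apply, map_smul]
      congr 2
      simp only [tr, c, Units.val_mul, uni_val (Row_lev ho hn), add_mul, one_mul, trace_add,
        Matrix.add_apply]
      have : (n * (g : Matrix (Fin m) (Fin m) (ZMod p))).trace
          = (n * (g : Matrix (Fin m) (Fin m) (ZMod p))) o o := by
        rw [Matrix.trace, Finset.sum_eq_single o]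
        · rfl
        · intro i _ hi
          rw [Matrix.diag_apply, Matrix.mul_apply]
          exact Finset.sum_eq_zero fun l _ => by rw [hn i l (Or.inl hi), zero_mul]
        · simp
      rw [this]; ring
    · rw [if_neg hg, if_neg, map_zero]
      intro h
      apply hg
      simpa using hYl _ (uni n)⁻¹ (inv_mem (uni_mem n)) h
  have hsum : ∑ g, H g = 0 := by
    apply hfix
    intro n hn
    rw [map_sum]
    simp only [← hHl _ n hn]
    exact Fintype.sum_equiv (Equiv.mulLeft (uni n)) _ _ (fun _ => rfl)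
  let s : ZMod p → K := fun t => ∑ i ∈ Finset.range t.val, ζ ^ i
  have hs : ∀ t, ψ t - 1 = (ζ - 1) * s t := by
    intro t
    rw [mul_geom_sum, ← hζ, ZMod.natCast_zmod_val]
  let w : V := ∑ q : GL (Fin m) (ZMod p) ⧸ Uni m (ZMod p), s (c q.out) • H q.out
  have hmain : γ • v = ((Nat.card (Uni m (ZMod p)) : K) * (ζ - 1)) • w := by
    have e1 : γ • v = ∑ g, (ψ (c g) - 1) • H g := by
      simp only [sub_smul, Finset.sum_sub_distrib, one_smul, hsum, sub_zero]
      rw [← hγ, hred]
      refine Finset.sum_congr rfl fun g _ => ?_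
      simp only [H]
      by_cases hg : Y g
      · rw [if_pos hg, if_pos hg, smul_smul, ← AddChar.map_add_eq_mul, add_sub_cancel]
      · rw [if_neg hg, if_neg hg, smul_zero]
    rw [e1]
    simp only [hs, mul_smul, ← Finset.smul_sum]
    rw [sum_right_inv (Uni m (ZMod p)) (fun g => s (c g) • H g)
      (fun g u hu => by simp only [hcr g u hu, hHr g u hu]), Nat.cast_smul_eq_nsmul, smul_comm]
  have hζ1 : ζ - 1 ≠ 0 := by
    intro h
    have := hψ 1 (by have := hζ 1; rw [Nat.cast_one, pow_one] at this; rw [this, sub_eq_zero.mp h])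
    exact one_ne_zero this
  have hU : (Nat.card (Uni m (ZMod p)) : K) ≠ 0 := Nat.cast_ne_zero.mpr Nat.card_pos.ne'
  have hD := mul_ne_zero hU hζ1
  let κ : K := ((Nat.card (Uni m (ZMod p)) : K) * (ζ - 1))⁻¹ * γ
  have hκ : κ • v = w := by
    simp only [κ]
    rw [mul_smul, hmain, smul_smul, inv_mul_cancel₀ hD, one_smul]
  let Λ : Submodule ℤ V :=
    Submodule.span ℤ (Set.range fun x : ZMod p × GL (Fin m) (ZMod p) => ψ x.1 • ρ x.2 v)
  have hgen : ∀ t g, ψ t • ρ g v ∈ Λ := fun t g => Submodule.subset_span ⟨(t, g), rfl⟩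
  have hΛ : ∀ t g, ∀ x ∈ Λ, ψ t • ρ g x ∈ Λ := by
    intro t g x hx
    induction hx using Submodule.span_induction with
    | mem x hx =>
      obtain ⟨⟨t', g'⟩, rfl⟩ := hx
      simp only [map_smul, smul_smul, ← AddChar.map_add_eq_mul, ← Module.End.mul_apply, ← map_mul]
      exact hgen _ _
    | zero => simp
    | add x y _ _ hx hy => rw [map_add, smul_add]; exact Λ.add_mem hx hy
    | smul a x _ hx => rw [map_zsmul, smul_comm]; exact Λ.smul_mem a hx
  have hw : w ∈ Λ := by
    refine Λ.sum_mem fun q _ => ?_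
    simp only [s, Finset.sum_smul]
    refine Λ.sum_mem fun i _ => ?_
    simp only [H]
    split_ifs
    · rw [← hζ, smul_smul, ← AddChar.map_add_eq_mul]; exact hgen _ _
    · simp
  refine ⟨κ, ?_, by simp only [κ]; rw [← mul_assoc, mul_inv_cancel₀ hD, one_mul]⟩
  refine isIntegral_of_smul_mem_submodule Λ ?_ (Submodule.fg_span (Set.finite_range _)) κ ?_
  · intro h
    have := hgen 0 1
    rw [h] at this
    simp only [AddChar.map_zero_eq_one, map_one, Module.End.one_apply, one_smul,
      Submodule.mem_bot] at this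
    exact hv this
  · intro x hx
    induction hx using Submodule.span_induction with
    | mem x hx =>
      obtain ⟨⟨t', g'⟩, rfl⟩ := hx
      simp only
      rw [smul_comm, ← map_smul, hκ]
      exact hΛ _ _ _ hw
    | zero => simp
    | add x y _ _ hx hy => rw [smul_add]; exact Λ.add_mem hx hy
    | smul a x _ hx => rw [smul_comm]; exact Λ.smul_mem a hx

end Pool.Agent.Lib.MP_1ae3da_al
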