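import Pool.Agent.Lib.MP_1ae3da_al.Rep

/-! Induced class functions along a homomorphism `ι : C →* G`. -/

namespace Pool.Agent.Lib.MP_1ae3da_al

open Module

variable {K : Type} [Field K] {G C : Type} [Group G] [Group C] [Fintype G] [Fintype C]
  [DecidableEq G]

/-- number of `y` with `g y = y h`. -/
def nc (g h : G) : ℕ := (Finset.univ.filter fun y : G => g * y = y * h).card

/-- the induced function. -/
noncomputable def ind (ι : C →* G) (τ : C → K) (g : G) : K :=
  (Fintype.card C : K)⁻¹ * ∑ x, τ x * nc g (ι x)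

lemma nc_conj (g h a : G) : nc g (a⁻¹ * h * a) = nc g h := by
  unfold nc
  symm
  refine Finset.card_bij (fun y _ => y * a) ?_ ?_ ?_
  · intro y hy
    simp only [Finset.mem_filter, Finset.mem_univ, true_and] at hy ⊢
    rw [← mul_assoc, hy]; group
  · intro y _ z _ h; exact mul_right_cancel h
  · intro y hy
    simp only [Finset.mem_filter, Finset.mem_univ, true_and] at hy
    refine ⟨y * a⁻¹, ?_, by simp⟩
    simp only [Finset.mem_filter, Finset.mem_univ, true_and]
    rw [← mul_assoc, hy]; group

lemma nc_ne_zero {g h : G} (H : nc g h ≠ 0) : ∃ y, g * y = y * h := by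
  obtain ⟨y, hy⟩ := Finset.card_ne_zero.mp H
  exact ⟨y, (Finset.mem_filter.mp hy).2⟩

lemma ind_sub (ι : C →* G) (τ τ' : C → K) : ind ι (τ - τ') = ind ι τ - ind ι τ' := by
  funext g
  simp only [ind, Pi.sub_apply, sub_mul, Finset.sum_sub_distrib, mul_sub]

lemma ind_recip (ι : C →* G) (τ : C → K) (φ : G → K) (hφ : ∀ g y, φ (y * g * y⁻¹) = φ g) :
    ∑ g, ind ι τ g * φ g
      = (Fintype.card G : K) * (Fintype.card C : K)⁻¹ * ∑ x, τ x * φ (ι x) := by
  have key : ∀ h : G, ∑ g, (nc g h : K) * φ g = Fintype.card G * φ h := by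
    intro h
    simp only [nc, Finset.card_filter, Nat.cast_sum, Finset.sum_mul]
    rw [Finset.sum_comm]
    have : ∀ y : G, ∑ g : G, ((if g * y = y * h then 1 else 0 : ℕ) : K) * φ g = φ h := by
      intro y
      rw [Finset.sum_eq_single (y * h * y⁻¹)]
      · simp [hφ]
      · intro g _ hg
        rw [if_neg]
        · simp
        · intro e; apply hg; rw [← e]; simp
      · simp
    rw [Finset.sum_congr rfl fun y _ => this y]
    simp
  simp only [ind, mul_assoc, ← Finset.mul_sum, Finset.sum_mul]
  rw [Finset.sum_comm]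
  simp only [← Finset.mul_sum, key]
  rw [mul_left_comm]
  congr 1
  rw [Finset.mul_sum]
  exact Finset.sum_congr rfl fun x _ => by ring

omit [Group G] in
lemma trace_funLeft (f : G → G) :
    LinearMap.trace K (G → K) (LinearMap.funLeft K K f)
      = (Finset.univ.filter fun y : G => f y = y).card := by
  rw [LinearMap.trace_eq_matrix_trace K (Pi.basisFun K G), Matrix.trace, Finset.card_filter]
  push_cast
  refine Finset.sum_congr rfl fun y _ => ?_
  simp [LinearMap.toMatrix_apply, Pi.single_apply]

/-- the induced function of a linear character is a character. -/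
lemma exists_rep_ind [CharZero K] (ι : C →* G) (θ : C →* K) :
    ∃ (W : Submodule K (G → K)) (ρ : Representation K G W), ρ.character = ind ι θ := by
  let R : Representation K G (G → K) :=
    { toFun := fun g => LinearMap.funLeft K K fun y => g⁻¹ * y
      map_one' := by ext f y; simp
      map_mul' := fun a b => by ext f y; simp [mul_assoc] }
  have hR : ∀ g f y, R g f y = f (g⁻¹ * y) := fun _ _ _ => rfl
  let P : (G → K) →ₗ[K] (G → K) :=
    (Fintype.card C : K)⁻¹ • ∑ x, θ x • LinearMap.funLeft K K fun y => y * ι x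
  have hP : ∀ f y, P f y = (Fintype.card C : K)⁻¹ * ∑ x, θ x * f (y * ι x) := by
    intro f y
    simp [P, LinearMap.sum_apply, Finset.sum_apply]
  have hc : (Fintype.card C : K) ≠ 0 := Nat.cast_ne_zero.mpr Fintype.card_ne_zero
  have hPP : ∀ f, P (P f) = P f := by
    intro f
    funext y
    rw [hP]
    have : ∀ x, θ x * P f (y * ι x) = P f y := by
      intro x
      rw [hP, hP, mul_left_comm, Finset.mul_sum]
      congr 1
      refine Fintype.sum_equiv (Equiv.mulLeft x) _ _ fun x' => ?_
      simp [mul_assoc]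
    simp only [this, Finset.sum_const, Finset.card_univ, nsmul_eq_mul]
    rw [← mul_assoc, inv_mul_cancel₀ hc, one_mul]
  have hRP : ∀ g f, R g (P f) = P (R g f) := by
    intro g f
    funext y
    simp only [hR, hP, mul_assoc]
  let W : Subrepresentation R :=
    ⟨LinearMap.range P, by
      rintro g _ ⟨f, rfl⟩
      exact ⟨R g f, (hRP g f).symm⟩⟩
  refine ⟨W.toSubmodule, W.toRepresentation, ?_⟩
  funext g
  rw [char_sub R W P (fun v => ⟨v, rfl⟩) (by rintro _ ⟨f, rfl⟩; exact hPP f)]
  have : R g * P = (Fintype.card C : K)⁻¹ •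
      ∑ x, θ x • LinearMap.funLeft K K fun y => g⁻¹ * y * ι x := by
    apply LinearMap.ext
    intro f
    funext y
    rw [Module.End.mul_apply, hR, hP]
    simp [LinearMap.sum_apply, Finset.sum_apply]
  rw [this, map_smul, map_sum]
  simp only [map_smul, trace_funLeft, smul_eq_mul, ind, nc]
  congr 1
  refine Finset.sum_congr rfl fun x _ => ?_
  congr 3
  ext y
  simp only [Finset.mem_filter, Finset.mem_univ, true_and]
  rw [mul_assoc, inv_mul_eq_iff_eq_mul, eq_comm]

end Pool.Agent.Lib.MP_1ae3da_al
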