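import Pool.Agent.Lib.MP_1ae3da_al.Rep
import Pool.Agent.Lib.MP_1ae3da_al.Teich

/-! The case of the symmetric group of degree `p`. -/

namespace Pool.Agent.Lib.MP_1ae3da_al

open Equiv

lemma perm_isConj_pow {α : Type} [Fintype α] [DecidableEq α] (k : ℕ) (g : Perm α) :
    k.Coprime (orderOf g) → IsConj g (g ^ k) := by
  induction g using Perm.cycle_induction_on with
  | base_one => intro _; simp
  | base_cycles c hc =>
    intro hk
    exact hc.isConj (hc.pow_iff.mpr hk) (by rw [Perm.support_pow_coprime hk])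
  | induction_disjoint c d hd _ ih1 ih2 =>
    intro hk
    rw [hd.orderOf] at hk
    rw [hd.commute.mul_pow]
    exact Perm.Disjoint.isConj_mul (ih1 (hk.coprime_dvd_right (Nat.dvd_lcm_left _ _)))
      (ih2 (hk.coprime_dvd_right (Nat.dvd_lcm_right _ _))) hd (hd.pow_disjoint_pow k k)

variable {K : Type} [Field K] [CharZero K] [IsAlgClosed K]

lemma perm_fixed {α : Type} [Fintype α] [DecidableEq α] (σ : K ≃+* K) (n : ℕ) (χ : Perm α → K)
    (h : IsIrr n χ) : σ ∘ χ = χ := by
  obtain ⟨ρ, -, rfl⟩ := h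
  funext g
  obtain ⟨k, hk, hσ⟩ := exists_exponent σ (orderOf g) (orderOf_pos g)
  rw [Function.comp_apply, sigma_char ρ _ (orderOf_pos g) g (pow_orderOf_eq_one g) σ k hσ]
  obtain ⟨c, hc⟩ := isConj_iff.mp (perm_isConj_pow k g hk)
  rw [← hc, ρ.char_conj]

variable (p : ℕ) [Fact p.Prime]

/-- translations. -/
def Trans : Subgroup (Perm (ZMod p)) where
  carrier := {g | ∃ t, g = Equiv.addRight t}
  mul_mem' := by
    rintro _ _ ⟨a, rfl⟩ ⟨b, rfl⟩
    exact ⟨b + a, by ext x; simp [add_assoc]⟩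
  one_mem' := ⟨0, by ext x; simp⟩
  inv_mem' := by
    rintro _ ⟨a, rfl⟩
    exact ⟨-a, by ext x; simp⟩

lemma card_Trans : Nat.card (Trans p) = p := by
  have : Function.Bijective (fun t : ZMod p => (⟨Equiv.addRight t, t, rfl⟩ : Trans p)) := by
    constructor
    · intro a b h
      simpa using congrArg (fun g : Trans p => g.1 0) h
    · rintro ⟨_, t, rfl⟩
      exact ⟨t, rfl⟩
  rw [← Nat.card_eq_of_bijective _ this, Nat.card_zmod]

lemma index_Trans : ¬ p ∣ (Trans p).index := by
  have hp : p.Prime := Fact.out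
  have h1 := (Trans p).card_mul_index
  rw [card_Trans, Nat.card_perm, Nat.card_zmod, ← Nat.mul_factorial_pred hp.ne_zero] at h1
  rw [Nat.eq_of_mul_eq_mul_left hp.pos h1, hp.dvd_factorial]
  have := hp.pos
  omega

/-- the translations as a Sylow subgroup. -/
noncomputable def transSylow : Sylow p (Perm (ZMod p)) :=
  (IsPGroup.of_card (n := 1) (by rw [card_Trans, pow_one])).toSylow (index_Trans p)

lemma coe_transSylow : (transSylow p : Subgroup (Perm (ZMod p))) = Trans p := rfl

variable {p} in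
lemma norm_affine {g : Perm (ZMod p)} (hg : g ∈ Subgroup.normalizer (Trans p : Set (Perm (ZMod p))))
    (x y : ZMod p) : g (x + y) = g x + y * (g 1 - g 0) := by
  obtain ⟨a, ha⟩ := (Subgroup.mem_normalizer_iff.mp hg (Equiv.addRight 1)).mp ⟨1, rfl⟩
  have h1 : ∀ x, g (x + 1) = g x + a := fun x => by
    simpa using DFunLike.congr_fun ha (g x)
  have h2 : g 1 - g 0 = a := by
    have := h1 0
    rw [zero_add] at this
    rw [this]; ring
  rw [h2, ← ZMod.natCast_zmod_val y]
  generalize y.val = n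
  induction n with
  | zero => simp
  | succ n ih => rw [Nat.cast_succ, ← add_assoc, h1, ih]; ring

theorem sym_case (σ : K ≃+* K) (ξ : K) (hξ : ξ ^ (p - 1) = 1) (hσ : σ ξ ≠ ξ) :
    ∃ χ : Subgroup.normalizer (Trans p : Set (Perm (ZMod p))) → K, IsIrr 1 χ ∧ σ ∘ χ ≠ χ := by
  classical
  have hp : p.Prime := Fact.out
  obtain ⟨k₀, _, r, j, θ₀, hθ₀⟩ := exists_teich K p (ZMod p)
  let θ : (ZMod p)ˣ →* K := ((integralClosure ℤ K).val : _ →* K).comp θ₀
  have hθ : Function.Injective θ := by
    intro x y h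
    have : θ₀ x = θ₀ y := Subtype.ext h
    have h2 := hθ₀ x
    rw [this, ← hθ₀ y] at h2
    have h3 : r (θ₀ y) ≠ 0 := left_ne_zero_of_mul_eq_one (hθ₀ y)
    exact Units.ext (j.injective (mul_left_cancel₀ h3 h2))
  let l : Subgroup.normalizer (Trans p : Set (Perm (ZMod p))) →* ZMod p :=
    { toFun := fun g => g.1 1 - g.1 0
      map_one' := by simp
      map_mul' := fun g h => by
        have := norm_affine g.2 (h.1 0) (h.1 1 - h.1 0)
        rw [add_sub_cancel] at this
        simp only [Subgroup.coe_mul, Perm.mul_apply]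
        rw [this]; ring }
  haveI : Fintype (Subgroup.normalizer (Trans p : Set (Perm (ZMod p)))) := Fintype.ofFinite _
  refine ⟨θ.comp l.toHomUnits, isIrr_one _, ?_⟩
  obtain ⟨g, hg⟩ := IsCyclic.exists_ofOrder_eq_natCard (α := (ZMod p)ˣ)
  have h1 : IsPrimitiveRoot (θ g) (p - 1) := by
    have hc : Nat.card (ZMod p)ˣ = p - 1 := by rw [Nat.card_units, Nat.card_zmod]
    rw [← hc, ← hg]
    exact (IsPrimitiveRoot.orderOf g).map_of_injective hθ
  haveI : NeZero (p - 1) := ⟨by have := hp.two_le; omega⟩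
  obtain ⟨i, -, rfl⟩ := h1.eq_pow_of_pow_eq_one hξ
  rw [← map_pow] at hσ
  generalize g ^ i = a at hσ
  have ha : Equiv.mulLeft₀ (a : ZMod p) a.ne_zero
      ∈ Subgroup.normalizer (Trans p : Set (Perm (ZMod p))) := by
    rw [Subgroup.mem_normalizer_iff]
    intro h
    constructor
    · rintro ⟨t, rfl⟩
      refine ⟨a * t, ?_⟩
      rw [mul_inv_eq_iff_eq_mul]
      ext x
      simp only [Perm.coe_mul, Function.comp_apply, Equiv.coe_addRight, Equiv.mulLeft₀_apply,
        mul_add]
    · rintro ⟨t, ht⟩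
      refine ⟨(a : ZMod p)⁻¹ * t, ?_⟩
      ext x
      have := DFunLike.congr_fun ht (a * x)
      simp only [Perm.coe_mul, Function.comp_apply, Equiv.coe_addRight] at this
      rw [show (Equiv.mulLeft₀ (a : ZMod p) a.ne_zero)⁻¹ (a * x) = x from
        (Equiv.mulLeft₀ (a : ZMod p) a.ne_zero).symm_apply_apply x] at this
      apply mul_left_cancel₀ a.ne_zero
      simp only [Equiv.coe_addRight, mul_add, mul_inv_cancel_left₀ a.ne_zero]
      exact this
  intro h
  apply hσ
  have := congrFun h ⟨_, ha⟩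
  have e : l.toHomUnits ⟨_, ha⟩ = a := by
    ext
    simp [l]
  simpa only [Function.comp_apply, MonoidHom.comp_apply, e] using this

end Pool.Agent.Lib.MP_1ae3da_al
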