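import Pool.Agent.Lib.MP_1ae3da_al.GLCase
import Pool.Agent.Lib.MP_1ae3da_al.SymCase
import Pool.Agent.Lib.MP_1ae3da_al.Closure

/-! Assembly. -/

namespace Pool.Agent.Lib.MP_1ae3da_al

variable {K : Type} [Field K] [CharZero K] [IsAlgClosed K]

theorem no_bijection (p : ℕ) [Fact p.Prime] (σ : K ≃+* K)
    (h : ¬ ∀ n : ℕ, n.Coprime p → ∃ e : ℕ, ∀ ξ : K, ξ ^ n = 1 → σ ξ = ξ ^ p ^ e) :
    ∃ (G : Type) (_ : Group G) (_ : Finite G) (P : Sylow p G),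
      ¬ ∃ f : {χ : G → K | ∃ n, IsIrr n χ ∧ ¬ p ∣ n} ≃
          {χ : Subgroup.normalizer (P : Set G) → K | ∃ n, IsIrr n χ ∧ ¬ p ∣ n},
        ∀ χ ψ, ψ.1 = σ ∘ χ.1 → (f ψ).1 = σ ∘ (f χ).1 := by
  classical
  have hp : p.Prime := Fact.out
  have hex : ∃ m, 0 < m ∧ ¬ ∃ e : ℕ, ∀ ξ : K, ξ ^ (p ^ m - 1) = 1 → σ ξ = ξ ^ p ^ e := by
    push Not at h
    obtain ⟨n, hn, h⟩ := h
    have hn0 : 0 < n := Nat.pos_of_ne_zero (by
      rintro rfl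
      exact hp.one_lt.ne' (by simpa using hn))
    refine ⟨n.totient, Nat.totient_pos.mpr hn0, ?_⟩
    rintro ⟨e, he⟩
    obtain ⟨ξ, h1, h2⟩ := h e
    apply h2
    apply he
    obtain ⟨c, hc⟩ := (Nat.modEq_iff_dvd' (Nat.one_le_pow _ _ hp.pos)).mp
      (Nat.ModEq.pow_totient hn.symm).symm
    rw [hc, pow_mul, h1, one_pow]
  obtain ⟨hm0, hfail⟩ := Nat.find_spec hex
  have hmin : ∀ d, 0 < d → d < Nat.find hex →
      ∃ e : ℕ, ∀ ξ : K, ξ ^ (p ^ d - 1) = 1 → σ ξ = ξ ^ p ^ e := by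
    intro d hd hlt
    by_contra hc
    exact Nat.find_min hex hlt ⟨hd, hc⟩
  generalize Nat.find hex = m at hm0 hfail hmin
  by_cases hm : m = 1
  · subst hm
    obtain ⟨ξ, h1, h2⟩ : ∃ ξ : K, ξ ^ (p - 1) = 1 ∧ σ ξ ≠ ξ := by
      by_contra hc
      push Not at hc
      exact hfail ⟨0, by simpa using hc⟩
    obtain ⟨χ, hχ, hσ⟩ := sym_case p σ ξ h1 h2
    refine ⟨Equiv.Perm (ZMod p), inferInstance, inferInstance, transSylow p, ?_⟩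
    rintro ⟨f, hf⟩
    let c := f.symm ⟨χ, 1, hχ, hp.one_lt.ne' ∘ Nat.dvd_one.mp⟩
    obtain ⟨n, hn, -⟩ := c.2
    have := hf c c (perm_fixed σ n _ hn).symm
    simp only [c, Equiv.apply_symm_apply] at this
    exact hσ this.symm
  · obtain ⟨h1, n, χ, hχ, hn, hσ⟩ := gl_case (p := p) σ (by omega : 2 ≤ m) hmin hfail
    refine ⟨GL (Fin m) (ZMod p), inferInstance, inferInstance, uniSylow m p, ?_⟩
    have hN : Subgroup.normalizer ((uniSylow m p : Sylow p (GL (Fin m) (ZMod p))) :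
        Set (GL (Fin m) (ZMod p))) = Bor m (ZMod p) := normalizer_Uni
    rw [hN]
    rintro ⟨f, hf⟩
    have := hf ⟨χ, n, hχ, hn⟩ ⟨σ ∘ χ, n, hχ.twist σ, hn⟩ rfl
    obtain ⟨d, hd, hd'⟩ := (f ⟨χ, n, hχ, hn⟩).2
    rw [h1 d _ hd hd'] at this
    exact hσ (congrArg Subtype.val (f.injective (Subtype.ext this)))

end Pool.Agent.Lib.MP_1ae3da_al
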