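import Pool.Agent.Lib.MP_1ae3da_al.Ind
import Pool.Agent.Lib.MP_1ae3da_al.Gauss

/-! The Singer cycle in `GL_m(F_p)` and functions induced from it. -/

namespace Pool.Agent.Lib.MP_1ae3da_al

open Matrix Module

variable {K : Type} [Field K] {p : ℕ} [Fact p.Prime] {m : ℕ}
  {E : Type} [Field E] [Finite E] [Algebra (ZMod p) E] (b : Basis (Fin m) (ZMod p) E)

/-- the Singer cycle. -/
noncomputable def sing : Eˣ →* GL (Fin m) (ZMod p) :=
  Units.map (Algebra.leftMulMatrix b : E →* Matrix (Fin m) (Fin m) (ZMod p))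

omit [Finite E] in
lemma sing_val (x : Eˣ) :
    (sing b x : Matrix (Fin m) (Fin m) (ZMod p)) = Algebra.leftMulMatrix b (x : E) := rfl

/-- action of a field automorphism on units. -/
def act (γ : E ≃ₐ[ZMod p] E) : Eˣ →* Eˣ := Units.map (γ : E →* E)

omit [Finite E] in
lemma act_val (γ : E ≃ₐ[ZMod p] E) (x : Eˣ) : (act γ x : E) = γ x := rfl

omit [Finite E] in
lemma act_mul (γ δ : E ≃ₐ[ZMod p] E) (x : Eˣ) : act (γ * δ) x = act γ (act δ x) := rfl

omit [Finite E] in
lemma act_one (x : Eˣ) : act (1 : E ≃ₐ[ZMod p] E) x = x := rfl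

/-- matrix of a field automorphism. -/
noncomputable def frobM (γ : E ≃ₐ[ZMod p] E) : GL (Fin m) (ZMod p) :=
  ⟨LinearMap.toMatrix b b γ.toLinearMap, LinearMap.toMatrix b b γ.symm.toLinearMap,
    by rw [← LinearMap.toMatrix_mul, ← LinearMap.toMatrix_one b]; congr 1; ext x; simp,
    by rw [← LinearMap.toMatrix_mul, ← LinearMap.toMatrix_one b]; congr 1; ext x; simp⟩

omit [Finite E] in
lemma frobM_sing (γ : E ≃ₐ[ZMod p] E) (x : Eˣ) :
    (frobM b γ)⁻¹ * sing b (act γ x) * frobM b γ = sing b x := by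
  rw [mul_assoc, inv_mul_eq_iff_eq_mul]
  ext1
  simp only [Units.val_mul, sing_val, frobM, Algebra.leftMulMatrix_apply,
    ← LinearMap.toMatrix_mul]
  congr 1
  ext y
  simp [act_val]

lemma conj_orbit {x x' : Eˣ} {y : GL (Fin m) (ZMod p)} (h : sing b x * y = y * sing b x') :
    ∃ γ : E ≃ₐ[ZMod p] E, x' = act γ x := by
  have h1 : Algebra.leftMulMatrix b (x : E) * (y : Matrix (Fin m) (Fin m) (ZMod p))
      = y * Algebra.leftMulMatrix b (x' : E) := congrArg Units.val h
  have h2 : ∀ f : Polynomial (ZMod p),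
      Algebra.leftMulMatrix b (Polynomial.aeval (x : E) f) * (y : Matrix (Fin m) (Fin m) (ZMod p))
      = y * Algebra.leftMulMatrix b (Polynomial.aeval (x' : E) f) := by
    intro f
    induction f using Polynomial.induction_on with
    | C a => simp [Algebra.algebraMap_eq_smul_one]
    | add f g hf hg => simp only [map_add, add_mul, mul_add, hf, hg]
    | monomial n a hn =>
      rw [pow_succ', mul_left_comm, map_mul (Polynomial.aeval (x : E)), Polynomial.aeval_X,
        map_mul (Algebra.leftMulMatrix b), mul_assoc, hn, ← mul_assoc, h1,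
        map_mul (Polynomial.aeval (x' : E)) Polynomial.X, Polynomial.aeval_X,
        map_mul (Algebra.leftMulMatrix b) (x' : E), mul_assoc]
  have h3 := h2 (minpoly (ZMod p) (x : E))
  rw [minpoly.aeval, map_zero, zero_mul, eq_comm, Units.mul_right_eq_zero,
    map_eq_zero_iff _ (Algebra.leftMulMatrix_injective b)] at h3
  obtain ⟨γ, hγ⟩ := minpoly.exists_algEquiv_of_root'
    (Algebra.IsAlgebraic.isAlgebraic (x : E)) h3
  exact ⟨γ, Units.ext hγ.symm⟩

/-- `x` lies in a proper subfield. -/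
def Small (p m : ℕ) (x : Eˣ) : Prop := ∃ d, 0 < d ∧ d < m ∧ (x : E) ^ p ^ d = x

include b in
lemma adjoin_top {x : Eˣ} (hx : ¬ Small p m x) : Algebra.adjoin (ZMod p) {(x : E)} = ⊤ := by
  classical
  let L := IntermediateField.adjoin (ZMod p) {(x : E)}
  have hE : finrank (ZMod p) E = m := by simpa using finrank_eq_card_basis b
  haveI : Fintype L := Fintype.ofFinite _
  have hc : Fintype.card L = p ^ finrank (ZMod p) L := by
    rw [Module.card_eq_pow_finrank (K := ZMod p), ZMod.card]
  have hx' : (x : E) ^ p ^ finrank (ZMod p) L = x := by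
    have := FiniteField.pow_card (⟨x, IntermediateField.mem_adjoin_simple_self _ _⟩ : L)
    rw [hc] at this
    exact congrArg Subtype.val this
  have hle : finrank (ZMod p) L ≤ m := hE ▸ Submodule.finrank_le L.toSubmodule
  have heq : finrank (ZMod p) L = m := by
    by_contra h
    exact hx ⟨_, finrank_pos, by omega, hx'⟩
  have : L = ⊤ := IntermediateField.eq_of_le_of_finrank_eq le_top
    (by rw [heq, IntermediateField.finrank_top', hE])
  rw [← IntermediateField.adjoin_simple_toSubalgebra_of_isAlgebraic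
    (Algebra.IsAlgebraic.isAlgebraic (x : E))]
  change L.toSubalgebra = ⊤
  rw [this]; rfl

include b in
lemma act_inj {x : Eˣ} (hx : ¬ Small p m x) :
    Function.Injective fun γ : E ≃ₐ[ZMod p] E => act γ x := by
  intro γ δ h
  have h' : γ x = δ x := congrArg Units.val h
  have := AlgHom.ext_of_adjoin_eq_top (adjoin_top b hx) (φ₁ := (γ : E →ₐ[ZMod p] E))
    (φ₂ := (δ : E →ₐ[ZMod p] E)) (by rintro _ rfl; exact h')
  ext y
  exact DFunLike.congr_fun this y

lemma nc_self [Fintype Eˣ] {x : Eˣ} (hx : ¬ Small p m x) :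
    nc (sing b x) (sing b x) = Fintype.card Eˣ := by
  unfold nc
  symm
  rw [← Finset.card_univ]
  refine Finset.card_bij (fun z _ => sing b z) ?_ ?_ ?_
  · intro z _
    simp only [Finset.mem_filter, Finset.mem_univ, true_and, ← map_mul, mul_comm]
  · intro z _ w _ h
    exact Units.ext (Algebra.leftMulMatrix_injective b (congrArg Units.val h))
  · intro y hy
    have h1 : Algebra.leftMulMatrix b (x : E) * (y : Matrix (Fin m) (Fin m) (ZMod p))
        = y * Algebra.leftMulMatrix b (x : E) := congrArg Units.val (Finset.mem_filter.mp hy).2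
    have h2 : ∀ w : E, Algebra.leftMulMatrix b w * (y : Matrix (Fin m) (Fin m) (ZMod p))
        = y * Algebra.leftMulMatrix b w := by
      intro w
      have hw : w ∈ Algebra.adjoin (ZMod p) {(x : E)} := by rw [adjoin_top b hx]; trivial
      induction hw using Algebra.adjoin_induction with
      | mem z hz => rw [hz, h1]
      | algebraMap a => simp [Algebra.algebraMap_eq_smul_one]
      | add f g _ _ hf hg => simp only [map_add, add_mul, mul_add, hf, hg]
      | mul f g _ _ hf hg => rw [map_mul, mul_assoc, hg, ← mul_assoc, hf, mul_assoc]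
    let z : E := b.equivFun.symm ((y : Matrix (Fin m) (Fin m) (ZMod p)) *ᵥ b.repr 1)
    have hz : (b.repr z : Fin m → ZMod p) = (y : Matrix (Fin m) (Fin m) (ZMod p)) *ᵥ b.repr 1 :=
      b.equivFun.apply_symm_apply _
    have h3 : Algebra.leftMulMatrix b z = y := by
      apply Matrix.toLin'.injective
      apply LinearMap.ext
      intro v
      obtain ⟨w, rfl⟩ := b.equivFun.surjective v
      simp only [toLin'_apply, Basis.equivFun_apply]
      rw [Algebra.leftMulMatrix_mulVec_repr, mul_comm, ← Algebra.leftMulMatrix_mulVec_repr, hz,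
        mulVec_mulVec, h2, ← mulVec_mulVec, Algebra.leftMulMatrix_mulVec_repr, mul_one]
    have hz0 : z ≠ 0 := by
      intro h0
      rw [h0, map_zero] at h3
      have hm : Nonempty (Fin m) := b.index_nonempty
      exact y.ne_zero h3.symm
    exact ⟨Units.mk0 z hz0, Finset.mem_univ _, Units.ext h3⟩

omit [Finite E] in
lemma par_small {o : Fin m} (hm : 2 ≤ m) {g y : GL (Fin m) (ZMod p)} {x : Eˣ} (hg : Par o g)
    (h : g * y = y * sing b x) : Small p m x := by
  have h1 : (g : Matrix (Fin m) (Fin m) (ZMod p)) *ᵥ Pi.single o 1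
      = (g : Matrix (Fin m) (Fin m) (ZMod p)) o o • Pi.single o 1 := by
    funext j
    by_cases hj : j = o
    · simp [hj]
    · simp [hj, hg j hj]
  have h2 : sing b x * y⁻¹ = y⁻¹ * g := by
    rw [mul_inv_eq_iff_eq_mul, mul_assoc, h]; simp
  let z : E := b.equivFun.symm
    (((y⁻¹ : GL (Fin m) (ZMod p)) : Matrix (Fin m) (Fin m) (ZMod p)) *ᵥ Pi.single o 1)
  have hz : (b.repr z : Fin m → ZMod p)
      = ((y⁻¹ : GL (Fin m) (ZMod p)) : Matrix (Fin m) (Fin m) (ZMod p)) *ᵥ Pi.single o 1 :=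
    b.equivFun.apply_symm_apply _
  have h3 : (x : E) * z = (g : Matrix (Fin m) (Fin m) (ZMod p)) o o • z := by
    apply b.equivFun.injective
    rw [map_smul]
    simp only [Basis.equivFun_apply]
    rw [← Algebra.leftMulMatrix_mulVec_repr, hz, mulVec_mulVec, ← sing_val, ← Units.val_mul, h2,
      Units.val_mul, ← mulVec_mulVec, h1, mulVec_smul]
  have hz0 : z ≠ 0 := by
    intro h0
    rw [h0, map_zero] at hz
    have := congrArg ((y : Matrix (Fin m) (Fin m) (ZMod p)) *ᵥ ·) hz
    simp only [mulVec_mulVec, Units.mul_inv, one_mulVec, Finsupp.coe_zero, mulVec_zero] at this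
    simpa using congrFun this o
  rw [Algebra.smul_def] at h3
  refine ⟨1, one_pos, hm, ?_⟩
  rw [mul_right_cancel₀ hz0 h3, pow_one, ← map_pow, ZMod.pow_card]

variable [Fintype Eˣ] [Fintype (E ≃ₐ[ZMod p] E)]

omit [Finite E] in
lemma ind_avg (τ : Eˣ → K) (g : GL (Fin m) (ZMod p)) :
    (Fintype.card (E ≃ₐ[ZMod p] E) : K) * ind (sing b) τ g
      = ind (sing b) (fun x => ∑ γ : E ≃ₐ[ZMod p] E, τ (act γ x)) g := by
  unfold ind
  rw [mul_left_comm]
  congr 1
  simp only [Finset.sum_mul]
  rw [Finset.sum_comm, ← nsmul_eq_mul, ← Finset.card_univ, ← Finset.sum_const]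
  refine Finset.sum_congr rfl fun γ _ => ?_
  symm
  refine Fintype.sum_bijective (act γ) ?_ _ _ fun x => ?_
  · exact Function.bijective_iff_has_inverse.mpr ⟨act γ⁻¹, fun x => by rw [← act_mul]; simp [act_one],
      fun x => by rw [← act_mul]; simp [act_one]⟩
  · rw [← frobM_sing b γ x, nc_conj]

variable [CharZero K]

omit [Finite E] in
lemma ind_par (τ : Eˣ → K) (hτ : ∀ x, Small p m x → ∑ γ : E ≃ₐ[ZMod p] E, τ (act γ x) = 0)
    {o : Fin m} (hm : 2 ≤ m) {g : GL (Fin m) (ZMod p)} (hg : Par o g) :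
    ind (sing b) τ g = 0 := by
  have hc : (Fintype.card (E ≃ₐ[ZMod p] E) : K) ≠ 0 := Nat.cast_ne_zero.mpr Fintype.card_ne_zero
  apply mul_left_cancel₀ hc
  rw [ind_avg, mul_zero, ind, Finset.sum_eq_zero, mul_zero]
  intro x _
  by_cases h : nc g (sing b x) = 0
  · rw [h]; simp
  · obtain ⟨y, hy⟩ := nc_ne_zero h
    rw [hτ x (par_small b hm hg hy), zero_mul]

lemma ind_sing (τ : Eˣ → K) (hτ : ∀ x, Small p m x → ∑ γ : E ≃ₐ[ZMod p] E, τ (act γ x) = 0)
    (x₀ : Eˣ) : ind (sing b) τ (sing b x₀) = ∑ γ : E ≃ₐ[ZMod p] E, τ (act γ x₀) := by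
  classical
  by_cases hx : Small p m x₀
  · have hc : (Fintype.card (E ≃ₐ[ZMod p] E) : K) ≠ 0 := Nat.cast_ne_zero.mpr Fintype.card_ne_zero
    rw [hτ _ hx]
    apply mul_left_cancel₀ hc
    rw [ind_avg, mul_zero, ind, Finset.sum_eq_zero, mul_zero]
    intro x _
    by_cases h : nc (sing b x₀) (sing b x) = 0
    · rw [h]; simp
    · obtain ⟨y, hy⟩ := nc_ne_zero h
      obtain ⟨γ, rfl⟩ := conj_orbit b hy
      have := hτ _ hx
      rw [← Fintype.sum_equiv (Equiv.mulRight γ) (fun δ => τ (act δ (act γ x₀)))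
        (fun δ => τ (act δ x₀)) (fun _ => rfl)] at this
      rw [this, zero_mul]
  · have hc : (Fintype.card Eˣ : K) ≠ 0 := Nat.cast_ne_zero.mpr Fintype.card_ne_zero
    unfold ind
    rw [← Finset.sum_subset (Finset.subset_univ 
        (Finset.univ.image fun γ : E ≃ₐ[ZMod p] E => act γ x₀)),
      Finset.sum_image (fun a _ c _ h => act_inj b hx h), Finset.mul_sum]
    · refine Finset.sum_congr rfl fun γ _ => ?_
      rw [← nc_conj _ _ (frobM b γ), frobM_sing, nc_self b hx]
      field_simp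
    · intro x _ hx'
      by_cases h : nc (sing b x₀) (sing b x) = 0
      · rw [h]; simp
      · obtain ⟨y, hy⟩ := nc_ne_zero h
        obtain ⟨γ, rfl⟩ := conj_orbit b hy
        exact absurd (Finset.mem_image.mpr ⟨γ, Finset.mem_univ _, rfl⟩) hx'

end Pool.Agent.Lib.MP_1ae3da_al
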