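import Pool.Agent.Lib.MP_1ae3da_al.GChA
import Pool.Agent.Lib.MP_1ae3da_al.GDeg
import Pool.Agent.Lib.MP_1ae3da_al.GChB
import Pool.Agent.Lib.MP_1ae3da_al.GChH

/-! Wreath products and the Galois-McKay bijection: characters of subgroups extended by zero,
and orthogonality on cosets. -/

namespace Pool.Agent.Lib.MP_1ae3da_al.Wr

open GM

theorem hch : ChSt := ⟨chA, chB chA (deg chA), chH chA (chB chA (deg chA))⟩

section basic
variable {C G : Type} [Group C] [Group G]

lemma irr_comp [Finite C] [Finite G] (f : C →* G) (hf : Function.Surjective f) {n : ℕ}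
    {χ : G → K} (h : IsIrr n χ) : IsIrr n (χ ∘ f) := by
  classical
  haveI := Fintype.ofFinite C
  haveI := Fintype.ofFinite G
  exact (hch.h C G f).infl hf n χ h

lemma ch_comp [Finite C] [Finite G] (f : C →* G) {χ : G → K} (h : χ ∈ Ch G) :
    χ ∘ f ∈ Ch C := by
  classical
  haveI := Fintype.ofFinite C
  haveI := Fintype.ofFinite G
  exact (hch.h C G f).compC χ h

lemma irr_ch {n : ℕ} {χ : G → K} (h : IsIrr n χ) : χ ∈ Ch G :=
  AddSubmonoid.subset_closure ⟨n, h⟩

lemma ch_cl [Finite G] {χ : G → K} (h : χ ∈ Ch G) : Cl χ := by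
  haveI := Fintype.ofFinite G
  exact (hch.a G).cl χ ((hch.a G).ch_vc χ h)

lemma ch_mul [Finite G] {a b : G → K} (ha : a ∈ Ch G) (hb : b ∈ Ch G) : a * b ∈ Ch G := by
  haveI := Fintype.ofFinite G
  exact (hch.b G).mulC a ha b hb

lemma ch_inv [Finite G] {a : G → K} (ha : a ∈ Ch G) : (fun x => a x⁻¹) ∈ Ch G := by
  haveI := Fintype.ofFinite G
  induction ha using AddSubmonoid.closure_induction with
  | mem x hx =>
    obtain ⟨n, hn⟩ := hx
    exact irr_ch ((hch.b G).invI n x hn)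
  | zero => exact zero_mem _
  | add x y _ _ hx hy => exact add_mem hx hy

lemma irr_one [Finite G] : IsIrr 1 (1 : G → K) := by
  haveI := Fintype.ofFinite G
  exact isIrr_one (1 : G →* K)

lemma irr_gal [Finite G] {n : ℕ} {χ : G → K} (h : IsIrr n χ) (σ : Ga) : IsIrr n (σ ∘ χ) := by
  haveI := Fintype.ofFinite G
  exact h.twist σ

lemma deg_eq {n m : ℕ} {χ : G → K} (h : IsIrr n χ) (h' : χ 1 = (m : K)) : n = m := by
  rw [h.one] at h'
  exact Nat.cast_injective h'

lemma card_ne (G : Type) [Group G] [Finite G] : (Nat.card G : K) ≠ 0 :=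
  Nat.cast_ne_zero.2 Nat.card_pos.ne'

end basic

section zero
variable {S : Type} [Group S]

/-- irreducible characters of degree `n` of the subgroup `L`, extended by zero. -/
def IZ (L : Subgroup S) (n : ℕ) (ψ : S → K) : Prop :=
  (∀ k, k ∉ L → ψ k = 0) ∧ IsIrr n fun k : L => ψ k

/-- those of degree prime to `p`. -/
def IZp (p : ℕ) (L : Subgroup S) : Set (S → K) := {ψ | ∃ n, IZ L n ψ ∧ ¬ p ∣ n}

/-- the conjugate function. -/
def cf (g : S) (ψ : S → K) : S → K := fun k => ψ (g⁻¹ * k * g)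

lemma cf_mul (g h : S) (ψ : S → K) : cf (g * h) ψ = cf g (cf h ψ) := by
  funext k; simp [cf, mul_assoc]

@[simp] lemma cf_one (ψ : S → K) : cf 1 ψ = ψ := by
  funext k; simp [cf]

lemma cf_inv_cf (g : S) (ψ : S → K) : cf g⁻¹ (cf g ψ) = ψ := by
  rw [← cf_mul, inv_mul_cancel, cf_one]

lemma cf_cf_inv (g : S) (ψ : S → K) : cf g (cf g⁻¹ ψ) = ψ := by
  rw [← cf_mul, mul_inv_cancel, cf_one]

lemma cf_gal (g : S) (σ : Ga) (ψ : S → K) : cf g (σ ∘ ψ) = σ ∘ cf g ψ := rfl

lemma IZ.one {L : Subgroup S} {n : ℕ} {ψ : S → K} (h : IZ L n ψ) : ψ 1 = n := h.2.one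

lemma IZ.gal [Finite S] {L : Subgroup S} {n : ℕ} {ψ : S → K} (h : IZ L n ψ) (σ : Ga) :
    IZ L n (σ ∘ ψ) :=
  ⟨fun k hk => by simp [h.1 k hk], irr_gal h.2 σ⟩

lemma IZ.cf [Finite S] {L L' : Subgroup S} {n : ℕ} {ψ : S → K} (h : IZ L n ψ) (g : S)
    (hL : ∀ k, k ∈ L' ↔ g⁻¹ * k * g ∈ L) : IZ L' n (cf g ψ) := by
  refine ⟨fun k hk => h.1 _ fun hh => hk ((hL k).2 hh), ?_⟩
  let f : L' →* L :=
    { toFun := fun k => ⟨g⁻¹ * k * g, (hL k).1 k.2⟩
      map_one' := Subtype.ext (by simp)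
      map_mul' := fun a b => Subtype.ext (by simp [mul_assoc]) }
  refine irr_comp f (fun k => ⟨⟨g * k * g⁻¹, (hL _).2 (by simp [mul_assoc])⟩,
    Subtype.ext (by simp [f, mul_assoc])⟩) h.2

lemma IZ.cf_self [Finite S] {L : Subgroup S} {n : ℕ} {ψ : S → K} (h : IZ L n ψ) {g : S}
    (hg : g ∈ L) : Wr.cf g ψ = ψ := by
  funext k
  by_cases hk : k ∈ L
  · have := ch_cl (irr_ch h.2) ⟨k, hk⟩ ⟨g⁻¹, inv_mem hg⟩
    simpa [Wr.cf] using this
  · rw [h.1 k hk]
    refine h.1 _ fun hh => hk ?_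
    have := mul_mem (mul_mem hg hh) (inv_mem hg)
    simpa [mul_assoc] using this

lemma IZp.gal [Finite S] {p : ℕ} {L : Subgroup S} {ψ : S → K} (h : ψ ∈ IZp p L) (σ : Ga) :
    σ ∘ ψ ∈ IZp p L := by
  obtain ⟨n, h1, h2⟩ := h
  exact ⟨n, h1.gal σ, h2⟩

lemma IZp.cf [Finite S] {p : ℕ} {L L' : Subgroup S} {ψ : S → K} (h : ψ ∈ IZp p L) (g : S)
    (hL : ∀ k, k ∈ L' ↔ g⁻¹ * k * g ∈ L) : Wr.cf g ψ ∈ IZp p L' := by
  obtain ⟨n, h1, h2⟩ := h
  exact ⟨n, h1.cf g hL, h2⟩

lemma sum_sub [Fintype S] (L : Subgroup S) [Fintype L] (F : S → K) (hF : ∀ k, k ∉ L → F k = 0) :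
    ∑ k : S, F k = ∑ k : L, F k := by
  classical
  rw [← Finset.sum_subtype (Finset.univ.filter fun k => k ∈ L) (by simp) F, Finset.sum_filter]
  exact Finset.sum_congr rfl fun k _ => by
    by_cases hk : k ∈ L <;> simp [hk, hF]

lemma IZ.ext {L : Subgroup S} {n m : ℕ} {ψ ψ' : S → K} (h : IZ L n ψ) (h' : IZ L m ψ')
    (e : (fun k : L => ψ k) = fun k : L => ψ' k) : ψ = ψ' := by
  funext k
  by_cases hk : k ∈ L
  · exact congrFun e ⟨k, hk⟩
  · rw [h.1 k hk, h'.1 k hk]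

open Classical in
lemma IZ.orth [Fintype S] {L : Subgroup S} {n m : ℕ} {ψ ψ' : S → K} (h : IZ L n ψ)
    (h' : IZ L m ψ') : ∑ k, ψ k * ψ' k⁻¹ = if ψ = ψ' then (Nat.card L : K) else 0 := by
  haveI := Fintype.ofFinite L
  rw [sum_sub L _ fun k hk => by rw [h.1 k hk, zero_mul]]
  have h1 := h.2.ip_eq h'.2
  have h2 : ∑ k : L, ψ k * ψ' (k : S)⁻¹ =
      Nat.card L * ip (fun k : L => ψ k) (fun k : L => ψ' k) := by
    rw [ip, ← mul_assoc, mul_inv_cancel₀ (card_ne L), one_mul]; rfl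
  rw [h2, h1]
  by_cases e : ψ = ψ'
  · simp [e]
  · rw [if_neg e, if_neg fun e' => e (h.ext h' e'), mul_zero]

open Classical in
/-- extension by zero. -/
noncomputable def ez (L : Subgroup S) (χ : L → K) : S → K :=
  fun k => if h : k ∈ L then χ ⟨k, h⟩ else 0

lemma ez_res (L : Subgroup S) (χ : L → K) : (fun k : L => ez L χ k) = χ := by
  funext k; simp [ez]

lemma ez_iz {L : Subgroup S} {n : ℕ} {χ : L → K} (h : IsIrr n χ) : IZ L n (ez L χ) :=
  ⟨fun k hk => by simp [ez, hk], by rw [ez_res]; exact h⟩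

end zero

section coset
variable {W S : Type} [Group W] [Group S] [Fintype W] [DecidableEq S] (π : W →* S)

/-- the sum over a fibre. -/
noncomputable def fs (F : W → K) (k : S) : K := ∑ w with π w = k, F w

/-- the restriction of `π` to the preimage of `L`. -/
def rp (L : Subgroup S) : L.comap π →* L :=
  (π.comp (L.comap π).subtype).codRestrict L fun w => w.2

omit [Fintype W] [DecidableEq S] in
lemma rp_surj (hs : Function.Surjective π) (L : Subgroup S) : Function.Surjective (rp π L) := by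
  rintro ⟨k, hk⟩
  obtain ⟨w, rfl⟩ := hs k
  exact ⟨⟨w, hk⟩, rfl⟩

omit [Fintype W] [DecidableEq S] in
lemma card_rp (L : Subgroup S) : Nat.card (rp π L).ker = Nat.card π.ker :=
  Nat.card_congr ⟨fun u => ⟨u.1.1, congrArg Subtype.val u.2⟩,
    fun u => ⟨⟨u.1, by rw [Subgroup.mem_comap, u.2]; exact one_mem _⟩, Subtype.ext u.2⟩,
    fun _ => rfl, fun _ => rfl⟩

omit [DecidableEq S] in
lemma card_comap (hs : Function.Surjective π) (L : Subgroup S) :
    Nat.card (L.comap π) = Nat.card π.ker * Nat.card L := by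
  rw [← card_rp π L, ← Subgroup.card_mul_index (rp π L).ker, Subgroup.index_ker,
    MonoidHom.range_eq_top.2 (rp_surj π hs L), Subgroup.card_top]

lemma push [Fintype S] (hs : Function.Surjective π) (L : Subgroup S) [Fintype L]
    [Fintype (L.comap π)] (a : W → K) (ha : (fun w : L.comap π => a w) ∈ Ch (L.comap π)) :
    ind (rp π L) (fun w : L.comap π => a w) = fun k : L => (Nat.card π.ker : K)⁻¹ * fs π a k := by
  classical
  funext k
  rw [(hch.h _ _ (rp π L)).fib (rp_surj π hs L) _ (ch_cl ha), card_rp, fs]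
  congr 1
  refine Finset.sum_bij (fun w _ => (w : W)) (fun w hw => ?_) (fun _ _ _ _ h => Subtype.ext h)
    (fun w hw => ?_) fun _ _ => rfl
  · simp only [Finset.mem_filter, Finset.mem_univ, true_and] at hw ⊢
    exact congrArg Subtype.val hw
  · simp only [Finset.mem_filter, Finset.mem_univ, true_and] at hw ⊢
    exact ⟨⟨w, by rw [Subgroup.mem_comap, hw]; exact k.2⟩, Subtype.ext hw, rfl⟩

lemma push_ch [Fintype S] (hs : Function.Surjective π) (L : Subgroup S) (a : W → K)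
    (ha : (fun w : L.comap π => a w) ∈ Ch (L.comap π)) :
    (fun k : L => (Nat.card π.ker : K)⁻¹ * fs π a k) ∈ Ch L := by
  classical
  haveI := Fintype.ofFinite L
  haveI := Fintype.ofFinite (L.comap π)
  rw [← push π hs L a ha]
  exact (hch.h _ _ (rp π L)).ind_ch _ ha

lemma co_zero [Fintype S] (hs : Function.Surjective π) (L : Subgroup S) (a : W → K)
    (ha : (fun w : L.comap π => a w) ∈ Ch (L.comap π)) (h0 : fs π a 1 = 0) (k : S) (hk : k ∈ L) :
    fs π a k = 0 := by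
  haveI := Fintype.ofFinite L
  obtain ⟨m, h1, h2⟩ := (hch.a L).ch_deg _ (push_ch π hs L a ha)
  have : m = 0 := by
    have h3 : (m : K) = 0 := by rw [← h1]; simp [h0]
    exact Nat.cast_eq_zero.1 h3
  have h4 := congrFun (h2 this) ⟨k, hk⟩
  exact (mul_eq_zero.1 h4).resolve_left (inv_ne_zero (card_ne _))

lemma co_one [Fintype S] (hs : Function.Surjective π) (L : Subgroup S) (a : W → K)
    (ha : (fun w : L.comap π => a w) ∈ Ch (L.comap π))
    (h1 : fs π (fun w => a w * a w⁻¹) 1 = Nat.card π.ker) (k : S) (hk : k ∈ L) :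
    fs π (fun w => a w * a w⁻¹) k = Nat.card π.ker := by
  classical
  haveI := Fintype.ofFinite L
  haveI := Fintype.ofFinite (L.comap π)
  have hb : (fun w : L.comap π => a w * a (w : W)⁻¹) ∈ Ch (L.comap π) := ch_mul ha (ch_inv ha)
  have hc := push_ch π hs L (fun w => a w * a w⁻¹) hb
  have hip : ip (fun k : L => (Nat.card π.ker : K)⁻¹ * fs π (fun w => a w * a w⁻¹) k) 1 ≠ 0 := by
    rw [← push π hs L (fun w => a w * a w⁻¹) hb, (hch.h _ _ (rp π L)).frob _ _ fun _ _ => rfl]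
    intro h0
    have h2 : ip (fun w : L.comap π => a w) (fun w : L.comap π => a w) = 0 := by
      rw [← h0]; simp [ip]
    have h3 := (hch.a _).norm_zero _ ((hch.a _).ch_vc _ ha) h2
    have h4 : fs π (fun w => a w * a w⁻¹) 1 = 0 := by
      refine Finset.sum_eq_zero fun w hw => ?_
      have hw' : w ∈ L.comap π := by
        rw [Subgroup.mem_comap, (Finset.mem_filter.1 hw).2]; exact one_mem _
      rw [show a w = 0 from congrFun h3 ⟨w, hw'⟩, zero_mul]
    exact card_ne π.ker (h1 ▸ h4)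
  obtain ⟨m, h5, h6⟩ := (hch.a L).ch_deg _ ((hch.a L).ch_sub _ hc 1 ⟨1, irr_one⟩ hip)
  have : m = 0 := by
    have h3 : (m : K) = 0 := by
      rw [← h5]
      simp only [Pi.sub_apply, Pi.one_apply, OneMemClass.coe_one, h1]
      rw [inv_mul_cancel₀ (card_ne π.ker), sub_self]
    exact Nat.cast_eq_zero.1 h3
  have h7 := congrFun (h6 this) ⟨k, hk⟩
  simp only [Pi.sub_apply, Pi.one_apply, Pi.zero_apply, sub_eq_zero] at h7
  rw [← mul_one (Nat.card π.ker : K), ← h7, ← mul_assoc, mul_inv_cancel₀ (card_ne π.ker), one_mul]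

lemma fs_one (F : W → K) [Fintype π.ker] : fs π F 1 = ∑ m : π.ker, F m := by
  classical
  rw [fs, ← Finset.sum_subtype (Finset.univ.filter fun w => π w = 1) (by simp [MonoidHom.mem_ker]) F]

lemma sum_fs [Fintype S] (F : W → K) (l : S → K) :
    ∑ w, F w * l (π w) = ∑ k, fs π F k * l k := by
  rw [← Finset.sum_fiberwise Finset.univ π]
  refine Finset.sum_congr rfl fun k _ => ?_
  rw [fs, Finset.sum_mul]
  exact Finset.sum_congr rfl fun w hw => by rw [(Finset.mem_filter.1 hw).2]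

end coset

end Pool.Agent.Lib.MP_1ae3da_al.Wr
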