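import Pool.Agent.Lib.MP_1ae3da_al.W9

/-! Subgroups of index two, for characters extended by zero. -/

namespace Pool.Agent.Lib.MP_1ae3da_al.Wr

open GM Set

variable {S : Type} [Group S] (sg : S →* ℤˣ)

/-- the even part of a function. -/
noncomputable def rs (χ : S → K) : S → K := fun k => if sg k = 1 then χ k else 0

/-- half of the sum. -/
noncomputable def hf (χ δ : S → K) : S → K := fun k => (χ k + δ k) / 2

/-- the graded structure of a subgroup with an odd element. -/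
def grL (L : Subgroup S) {t : S} (ht : t ∈ L) (hs : sg t = -1) :
    Gr L (L ⊓ sg.ker : Subgroup S) where
  sg := sg.comp L.subtype
  z := 1
  zc := by simp
  zz := by simp
  zs := by simp
  ι := Subgroup.inclusion inf_le_left
  inj := Subgroup.inclusion_injective _
  rng g := ⟨fun h => ⟨⟨g, g.2, h⟩, rfl⟩, by rintro ⟨x, rfl⟩; exact x.2.2⟩
  odd := ⟨⟨t, ht⟩, hs⟩

variable {sg} {L : Subgroup S} {t : S} {χ χ' δ δ' θ : S → K} {n n' : ℕ}

lemma grL_cj (ht : t ∈ L) (hs : sg t = -1) (θ : S → K) :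
    (fun k : (L ⊓ sg.ker : Subgroup S) => θ k) ∘ (grL sg L ht hs).cj ⟨t⁻¹, inv_mem ht⟩ =
      fun k : (L ⊓ sg.ker : Subgroup S) => cf t θ k := by
  funext k
  have := congrArg Subtype.val ((grL sg L ht hs).ι_cj ⟨t⁻¹, inv_mem ht⟩ k)
  refine congrArg θ (this.trans ?_)
  change t⁻¹ * k * t⁻¹⁻¹ = _
  rw [inv_inv]

lemma grL_odd (ht : t ∈ L) (hs : sg t = -1) : (grL sg L ht hs).sg ⟨t⁻¹, inv_mem ht⟩ = -1 := by
  change sg t⁻¹ = -1
  rw [map_inv, hs]; rfl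

lemma ev_conj (hl : t ∈ L) (k : S) : k ∈ L ⊓ sg.ker ↔ t⁻¹ * k * t ∈ L ⊓ sg.ker := by
  simp only [Subgroup.mem_inf, MonoidHom.mem_ker, sg_conj]
  refine and_congr_left fun _ => ⟨fun h => mul_mem (mul_mem (inv_mem hl) h) hl, fun h => ?_⟩
  have := mul_mem (mul_mem hl h) (inv_mem hl)
  simpa [mul_assoc] using this

lemma rs_zero (h : ∀ k, k ∉ L → χ k = 0) (k : S) (hk : k ∉ L ⊓ sg.ker) : rs sg χ k = 0 := by
  unfold rs
  split_ifs with e
  · exact h k fun hh => hk ⟨hh, e⟩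
  · rfl

lemma rs_res (χ : S → K) : (fun k : (L ⊓ sg.ker : Subgroup S) => rs sg χ k) =
    fun k : (L ⊓ sg.ker : Subgroup S) => χ k := funext fun k => if_pos k.2.2

lemma rs_tw (χ : S → K) : rs sg (tw sg χ) = rs sg χ := by
  funext k
  unfold rs tw
  split_ifs with e <;> simp [*]

lemma rs_cf (g : S) (χ : S → K) : rs sg (cf g χ) = cf g (rs sg χ) := by
  funext k; simp only [rs, cf, sg_conj]

lemma rs_gal (σ : Ga) (χ : S → K) : rs sg (σ ∘ χ) = σ ∘ rs sg χ := by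
  funext k; simp [rs, apply_ite σ]

variable [Finite S]

lemma ixA2 (ht : t ∈ L) (hs : sg t = -1) (h : IZ L n χ) (hne : tw sg χ ≠ χ) :
    IZ (L ⊓ sg.ker) n (rs sg χ) :=
  ⟨rs_zero h.1, by
    rw [rs_res]
    exact (ix hch _ _ (grL sg L ht hs)).a2 n _ h.2 fun e => hne (h.tw.ext h e)⟩

lemma ixA1 (ht : t ∈ L) (hs : sg t = -1) (h : IZ (L ⊓ sg.ker) n θ) (he : cf t θ = θ) :
    ∃ χ, IZ L n χ ∧ tw sg χ ≠ χ ∧ rs sg χ = θ := by
  obtain ⟨χ, h1, h2, h3⟩ := (ix hch _ _ (grL sg L ht hs)).a1 n _ h.2 _ (grL_odd ht hs)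
    (by rw [grL_cj, he])
  have h4 : tw sg (ez L χ) ≠ ez L χ := fun e => h3 (by
    funext k
    have := congrFun e k
    rw [tw, congrFun (ez_res L χ) k] at this
    exact this)
  refine ⟨ez L χ, ez_iz h1, h4, (ixA2 ht hs (ez_iz h1) h4).ext h ?_⟩
  rw [rs_res, ← h2]
  exact funext fun k => congrFun (ez_res L χ) ⟨k, k.2.1⟩

lemma res_eq (h : IZ L n χ) (ht : tw sg χ = χ) {φ : S → K} (hφ : ∀ k, k ∉ L ⊓ sg.ker → φ k = 0)
    (e : ∀ k : (L ⊓ sg.ker : Subgroup S), χ k = φ k) : χ = φ := by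
  funext k
  by_cases hk : k ∈ L ⊓ sg.ker
  · exact e ⟨k, hk⟩
  · rw [hφ k hk]
    by_cases hL : k ∈ L
    · have h1 := congrFun ht k
      rw [tw, (Int.units_eq_one_or _).resolve_left fun e => hk ⟨hL, e⟩] at h1
      exact eq_zero_of_neg (by simpa using h1.symm)
    · exact h.1 k hL

lemma ixB2 (ht : t ∈ L) (hs : sg t = -1) (h : IZ (L ⊓ sg.ker) n θ) (he : cf t θ ≠ θ) :
    IZ L (2 * n) (θ + cf t θ) ∧ tw sg (θ + cf t θ) = θ + cf t θ := by
  have h0 := h.cf t (ev_conj ht)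
  obtain ⟨χ, h1, h2, h3⟩ := (ix hch _ _ (grL sg L ht hs)).b2 n _ h.2 _ (grL_odd ht hs)
    (by rw [grL_cj]; exact fun e => he (h0.ext h e))
  have h4 : tw sg (ez L χ) = ez L χ := (ez_iz h1).tw.ext (ez_iz h1) (by
    funext k
    rw [tw, congrFun (ez_res L χ) k]
    exact congrFun h2 k)
  rw [grL_cj] at h3
  have h5 : ez L χ = θ + cf t θ := res_eq (ez_iz h1) h4 (fun k hk => by simp [h.1 k hk, h0.1 k hk])
    fun k => (congrFun (ez_res L χ) ⟨k, k.2.1⟩).trans (congrFun h3 k)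
  exact h5 ▸ ⟨ez_iz h1, h4⟩

lemma ixB1 (ht : t ∈ L) (hs : sg t = -1) (h : IZ L n χ) (he : tw sg χ = χ) :
    ∃ m θ, IZ (L ⊓ sg.ker) m θ ∧ n = 2 * m ∧ cf t θ ≠ θ ∧ χ = θ + cf t θ := by
  obtain ⟨m, θ, h1, h2, h3⟩ := (ix hch _ _ (grL sg L ht hs)).b1 n _ h.2
    (funext fun k => congrFun he k)
  obtain ⟨h4, h5⟩ := h3 _ (grL_odd ht hs)
  rw [← ez_res _ θ, grL_cj] at h4 h5
  have h6 := ez_iz h1
  have h7 := h6.cf t (ev_conj ht)
  exact ⟨m, _, h6, h2, fun e => h4 (by rw [e]),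
    res_eq h he (fun k hk => by simp [h6.1 k hk, h7.1 k hk]) fun k => congrFun h5 k⟩

lemma ixC1 (ht : t ∈ L) (hs : sg t = -1) (h : IZ L n χ) (h' : IZ L n' χ')
    (e : rs sg χ' = rs sg χ) : χ' = χ ∨ χ' = tw sg χ :=
  ((ix hch _ _ (grL sg L ht hs)).c1 _ ⟨n, h.2⟩ _ ⟨n', h'.2⟩ (by
    have := congrArg (fun f (k : (L ⊓ sg.ker : Subgroup S)) => f k) e
    simp only [rs_res] at this
    exact this)).imp (fun e => h'.ext h e) fun e => h'.ext h.tw e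

omit [Finite S] in
lemma SP.hf_zero (h : SP sg L χ δ) (h0 : ∀ k, k ∉ L → χ k = 0) (k : S) (hk : k ∉ L ⊓ sg.ker) :
    hf χ δ k = 0 := by
  by_cases hL : k ∈ L
  · have := h.odd hL ((Int.units_eq_one_or _).resolve_left fun e => hk ⟨hL, e⟩)
    simp [hf, this]
  · simp [hf, h0 k hL, h.1 k hL]

lemma SP.hf_cf (h : SP sg L χ δ) (h0 : IZ L n χ) (ht : t ∈ L) (hs : sg t = -1) :
    Wr.cf t (hf χ δ) = hf χ (-δ) := by
  funext k
  have h1 := congrFun (h.conj ht) k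
  have h2 := congrFun (h0.cf_self ht) k
  simp only [Wr.cf, hf, hs, uK_neg, uK_one, neg_smul, one_smul] at h1 h2 ⊢
  rw [h1, h2]

omit [Group S] [Finite S] in
lemma hf_add (χ δ : S → K) : hf χ δ + hf χ (-δ) = χ := by
  funext k; simp only [hf, Pi.add_apply, Pi.neg_apply]; ring

omit [Group S] [Finite S] in
lemma hf_inj (e : hf χ δ = hf χ δ') : δ = δ' := by
  funext k
  have := congrFun e k
  simp only [hf] at this
  linear_combination 2 * this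

lemma SP.split (h : SP sg L χ δ) (h0 : IZ L n χ) (ht : t ∈ L) (hs : sg t = -1) {m : ℕ}
    (h1 : IZ (L ⊓ sg.ker) m θ) (h2 : χ = θ + Wr.cf t θ) : hf χ δ = θ ∨ hf χ (-δ) = θ := by
  have h3 : ∀ δ, SP sg L χ δ → (fun k : (L ⊓ sg.ker : Subgroup S) => hf χ δ k) ≠ 0 := by
    intro δ h e
    have e1 : hf χ δ 1 = 0 := congrFun e 1
    have e2 := congrFun (h.hf_cf h0 ht hs) 1
    have e3 := congrFun (hf_add χ δ) 1
    rw [Wr.cf, mul_one, inv_mul_cancel, e1] at e2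
    rw [Pi.add_apply, e1, ← e2, h0.one, add_zero] at e3
    exact h0.2.pos.ne (Nat.cast_injective (R := K) (by simpa using e3))
  have h4 : ∀ δ, SP sg L χ δ → ((fun k : (L ⊓ sg.ker : Subgroup S) => hf χ δ k) =
      fun k : (L ⊓ sg.ker : Subgroup S) => θ k) → hf χ δ = θ := by
    intro δ h e
    funext k
    by_cases hk : k ∈ L ⊓ sg.ker
    · exact congrFun e ⟨k, hk⟩
    · rw [h.hf_zero h0.1 k hk, h1.1 k hk]
  exact (ch_two h.half h.neg.half ⟨_, h1.2⟩ ⟨_, (h1.cf t (ev_conj ht)).2⟩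
    (funext fun k => congrFun ((hf_add χ δ).trans h2) k) (h3 _ h) (h3 _ h.neg)).imp (h4 _ h)
    (h4 _ h.neg)

lemma SP.irr (h : SP sg L χ δ) (h0 : IZ L n χ) (ht : t ∈ L) (hs : sg t = -1) :
    ∃ m, n = 2 * m ∧ IZ (L ⊓ sg.ker) m (hf χ δ) ∧ hf χ (-δ) ≠ hf χ δ := by
  obtain ⟨m, θ, h1, h2, h3, h4⟩ := ixB1 ht hs h0 (h.tw_eq h0.1)
  rcases h.split h0 ht hs h1 h4 with e | e
  · exact ⟨m, h2, e ▸ h1, by rw [← h.hf_cf h0 ht hs, e]; exact h3⟩
  · have e' := h.neg.hf_cf h0 ht hs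
    rw [neg_neg, e] at e'
    exact ⟨m, h2, e' ▸ h1.cf t (ev_conj ht), by rw [e, ← e']; exact h3.symm⟩

lemma SP.no_odd (h : SP sg L χ δ) (h0 : IZ L n χ) (ho : ∀ t ∈ L, sg t = 1) : δ = χ ∨ δ = -χ := by
  let f : L →* (L ⊓ sg.ker : Subgroup S) := Subgroup.inclusion fun k hk => ⟨hk, ho k hk⟩
  have h1 : ∀ δ, SP sg L χ δ → (fun k : (L ⊓ sg.ker : Subgroup S) => (χ k + δ k) / 2) ∘ f = 0 →
      δ = -χ := by
    intro δ h e
    funext k
    by_cases hk : k ∈ L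
    · have : (χ k + δ k) / 2 = 0 := congrFun e ⟨k, hk⟩
      rw [Pi.neg_apply]
      linear_combination 2 * this
    · simp [h.1 k hk, h0.1 k hk]
  refine (ch_split (ch_comp f h.neg.half) (ch_comp f h.half) ?_).imp
    (fun e => neg_injective (h1 _ h.neg e)) (h1 _ h)
  have : (fun k : (L ⊓ sg.ker : Subgroup S) => (χ k + (-δ) k) / 2) ∘ f +
      (fun k : (L ⊓ sg.ker : Subgroup S) => (χ k + δ k) / 2) ∘ f = fun k : L => χ k :=
    funext fun k => (add_comm _ _).trans (congrFun (hf_add χ δ) k)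
  rw [this]
  exact ⟨n, h0.2⟩

lemma IZ.ne_zero (h0 : IZ L n χ) : χ ≠ 0 := fun e =>
  h0.2.pos.ne' (Nat.cast_injective (R := K) (by rw [← h0.one, e]; simp))

lemma odd_or (sg : S →* ℤˣ) (L : Subgroup S) : (∃ t ∈ L, sg t = -1) ∨ ∀ t ∈ L, sg t = 1 := by
  by_cases h : ∃ t ∈ L, sg t = -1
  · exact Or.inl h
  · exact Or.inr fun t ht => (Int.units_eq_one_or _).resolve_right fun e => h ⟨t, ht, e⟩

lemma SP.ne_zero (h : SP sg L χ δ) (h0 : IZ L n χ) : δ ≠ 0 := by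
  rintro rfl
  rcases odd_or sg L with ⟨t, ht, hs⟩ | ho
  · obtain ⟨m, -, -, h1⟩ := h.irr h0 ht hs
    exact h1 (by rw [neg_zero])
  · rcases h.no_odd h0 ho with e | e
    · exact h0.ne_zero e.symm
    · exact h0.ne_zero (neg_eq_zero.1 e.symm)

lemma SP.uniq (h : SP sg L χ δ) (h' : SP sg L χ δ') (h0 : IZ L n χ) : δ' = δ ∨ δ' = -δ := by
  rcases odd_or sg L with ⟨t, ht, hs⟩ | ho
  · obtain ⟨m, -, h1, -⟩ := h'.irr h0 ht hs
    exact (h.split h0 ht hs h1 (by rw [h'.hf_cf h0 ht hs, hf_add])).imp (fun e => (hf_inj e).symm)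
      fun e => (hf_inj e).symm
  · rcases h.no_odd h0 ho with e | e <;> rcases h'.no_odd h0 ho with e' | e' <;> simp [e, e']

end Pool.Agent.Lib.MP_1ae3da_al.Wr
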