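import Pool.Agent.Lib.MP_1ae3da_al.W10

/-! Characters with associators, and descent to a group and to its even part. -/

namespace Pool.Agent.Lib.MP_1ae3da_al.Wr

open GM Set

variable {S : Type} [Group S]

/-- pairs of functions. -/
abbrev VV (S : Type) : Type := (S → K) × (S → K)

/-- characters of degree prime to `p` with a choice of an associator. -/
def AH (p : ℕ) (sg : S →* ℤˣ) (L : Subgroup S) : Set (VV S) :=
  {a | a.1 ∈ IZp p L ∧ (SP sg L a.1 a.2 ∨ (tw sg a.1 ≠ a.1 ∧ a.2 = 0))}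

/-- the parity change. -/
noncomputable def ta (sg : S →* ℤˣ) (a : VV S) : VV S := (tw sg a.1, -a.2)
/-- the Galois action. -/
noncomputable def ga {S : Type} (σ : Ga) (a : VV S) : VV S := (σ ∘ a.1, σ ∘ a.2)
/-- conjugation. -/
def ca (g : S) (a : VV S) : VV S := (cf g a.1, cf g a.2)

open Classical in
/-- the attached character of the even part. -/
noncomputable def mu (sg : S →* ℤˣ) (a : VV S) : S → K :=
  if a.2 = 0 then rs sg a.1 else hf a.1 a.2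

variable {p : ℕ} {sg : S →* ℤˣ} {L L' : Subgroup S} {a a' : VV S} {t t' : S} {T : Set Ga}

lemma ta_ta (a : VV S) : ta sg (ta sg a) = a := by simp [ta, tw_tw]

lemma ca_act : Act (ca : S → VV S → VV S) :=
  ⟨fun a => by simp [ca], fun g h a => by simp [ca, cf_mul]⟩

lemma gal_eq_zero {S : Type} (σ : Ga) (δ : S → K) : σ ∘ δ = 0 ↔ δ = 0 := by simp [funext_iff]

lemma cf_eq_zero (g : S) (δ : S → K) : cf g δ = 0 ↔ δ = 0 :=
  ⟨fun h => by rw [← cf_inv_cf g δ, h]; rfl, fun h => by rw [h]; rfl⟩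

lemma ta_ga (σ : Ga) (a : VV S) : ta sg (ga σ a) = ga σ (ta sg a) :=
  Prod.ext (tw_gal sg σ _) (funext fun k => (map_neg σ _).symm)

lemma ta_ca (g : S) (a : VV S) : ta sg (ca g a) = ca g (ta sg a) := Prod.ext (tw_cf sg g _) rfl

lemma mu_pos (h : a.2 = 0) : mu sg a = rs sg a.1 := if_pos h

lemma mu_neg (h : a.2 ≠ 0) : mu sg a = hf a.1 a.2 := if_neg h

lemma mu_ga (σ : Ga) (a : VV S) : mu sg (ga σ a) = σ ∘ mu sg a := by
  by_cases h : a.2 = 0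
  · rw [mu_pos h, mu_pos ((gal_eq_zero σ _).2 h)]
    exact rs_gal σ _
  · rw [mu_neg h, mu_neg fun e => h ((gal_eq_zero σ _).1 e)]
    funext k; simp [hf, ga, map_ofNat]

lemma mu_ca (g : S) (a : VV S) : mu sg (ca g a) = cf g (mu sg a) := by
  by_cases h : a.2 = 0
  · rw [mu_pos h, mu_pos ((cf_eq_zero g _).2 h)]
    exact rs_cf g _
  · rw [mu_neg h, mu_neg fun e => h ((cf_eq_zero g _).1 e)]
    rfl

lemma mu_ta (h : a.2 = 0) : mu sg (ta sg a) = mu sg a := by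
  rw [mu_pos h, mu_pos (neg_eq_zero.2 h)]
  exact rs_tw _

variable [Finite S]

lemma AH.sp (h : a ∈ AH p sg L) (h0 : a.2 ≠ 0) : SP sg L a.1 a.2 :=
  h.2.resolve_right fun e => h0 e.2

lemma AH.tw_iff (h : a ∈ AH p sg L) : tw sg a.1 = a.1 ↔ a.2 ≠ 0 := by
  obtain ⟨⟨n, h1, -⟩, h2⟩ := id h
  exact ⟨fun e => (h2.resolve_right fun e' => e'.1 e).ne_zero h1,
    fun e => (AH.sp h e).tw_eq h1.1⟩

lemma AH.tw_ne (h : a ∈ AH p sg L) (h0 : a.2 = 0) : tw sg a.1 ≠ a.1 := fun e =>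
  (AH.tw_iff h).1 e h0

lemma AH.ta (h : a ∈ AH p sg L) : ta sg a ∈ AH p sg L := by
  obtain ⟨⟨n, h1, h2⟩, h3 | h3⟩ := h
  · refine ⟨⟨n, h1.tw, h2⟩, Or.inl ?_⟩
    simp only [Wr.ta, h3.tw_eq h1.1]
    exact h3.neg
  · exact ⟨⟨n, h1.tw, h2⟩, Or.inr ⟨by simp only [Wr.ta, tw_tw]; exact h3.1.symm,
      by simp [Wr.ta, h3.2]⟩⟩

lemma AH.ga (h : a ∈ AH p sg L) (σ : Ga) : ga σ a ∈ AH p sg L :=
  ⟨IZp.gal h.1 σ, h.2.imp (fun e => e.gal σ) fun e => ⟨fun e' => e.1 (funext fun k =>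
    σ.injective (congrFun ((tw_gal sg σ _).symm.trans e') k)), (gal_eq_zero σ _).2 e.2⟩⟩

lemma AH.ca (h : a ∈ AH p sg L) (g : S) (hL : ∀ k, k ∈ L' ↔ g⁻¹ * k * g ∈ L) :
    ca g a ∈ AH p sg L' :=
  ⟨IZp.cf h.1 g hL, h.2.imp (fun e => e.cf g hL) fun e => ⟨fun e' => e.1 (by
    have := congrArg (cf g⁻¹) ((tw_cf sg g _).symm.trans e')
    simpa only [Wr.ca, cf_inv_cf] using this), (cf_eq_zero g _).2 e.2⟩⟩

lemma AH.ta_ne (h : a ∈ AH p sg L) : Wr.ta sg a ≠ a := fun e => by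
  have h1 := (AH.tw_iff h).1 (congrArg Prod.fst e)
  exact h1 (funext fun k => eq_zero_of_neg (congrFun (congrArg Prod.snd e) k).symm)

open Classical in
lemma AH.ca_self (h : a ∈ AH p sg L) {l : S} (hl : l ∈ L) :
    Wr.ca l a = if sg l = 1 ∨ a.2 = 0 then a else Wr.ta sg a := by
  obtain ⟨n, h1, -⟩ := h.1
  by_cases h0 : a.2 = 0
  · rw [if_pos (Or.inr h0)]
    exact Prod.ext (h1.cf_self hl) (by simp only [Wr.ca, h0]; rfl)
  · have h2 := (AH.sp h h0).conj hl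
    rcases Int.units_eq_one_or (sg l) with e | e
    · rw [if_pos (Or.inl e)]
      exact Prod.ext (h1.cf_self hl) (by simpa [e, Wr.ca, Wr.ta] using h2)
    · rw [if_neg (by simp [e, h0])]
      exact Prod.ext ((h1.cf_self hl).trans ((AH.tw_iff h).2 h0).symm) (by simpa [e, Wr.ca, Wr.ta] using h2)

lemma nu_surj : SurjOn Prod.fst (AH p sg L) (IZp p L) := by
  rintro χ ⟨n, h1, h2⟩
  by_cases h : tw sg χ = χ
  · obtain ⟨δ, hδ⟩ := exists_SP h1 h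
    exact ⟨(χ, δ), ⟨⟨n, h1, h2⟩, Or.inl hδ⟩, rfl⟩
  · exact ⟨(χ, 0), ⟨⟨n, h1, h2⟩, Or.inr ⟨h, rfl⟩⟩, rfl⟩

lemma nu_ker (h : a ∈ AH p sg L) (h' : a' ∈ AH p sg L) :
    a.1 = a'.1 ↔ a' = a ∨ (a.2 ≠ 0 ∧ a' = ta sg a) := by
  constructor
  · intro e
    by_cases h0 : a.2 = 0
    · refine Or.inl (Prod.ext e.symm ?_)
      rw [h0]
      by_contra h1
      exact AH.tw_ne h h0 (e ▸ (AH.tw_iff h').2 h1)
    · obtain ⟨n, h1, -⟩ := h.1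
      have h2 := (AH.tw_iff h).2 h0
      exact ((AH.sp h h0).uniq (e ▸ AH.sp h' ((AH.tw_iff h').1 (e ▸ h2))) h1).imp
        (Prod.ext e.symm) fun e' => ⟨h0, Prod.ext (e.symm.trans h2.symm) e'⟩
  · rintro (rfl | ⟨h0, rfl⟩)
    · rfl
    · exact ((AH.tw_iff h).2 h0).symm

lemma mu_maps (ht : t ∈ L) (hs : sg t = -1) : MapsTo (mu sg) (AH p sg L) (IZp p (L ⊓ sg.ker)) := by
  intro a h
  obtain ⟨n, h1, h2⟩ := h.1
  unfold mu
  split_ifs with h0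
  · exact ⟨n, ixA2 ht hs h1 (AH.tw_ne h h0), h2⟩
  · obtain ⟨m, e, h3, -⟩ := (AH.sp h h0).irr h1 ht hs
    exact ⟨m, h3, fun hd => h2 (e ▸ hd.mul_left 2)⟩

lemma mu_surj (hp : p.Prime) (hp2 : p ≠ 2) (ht : t ∈ L) (hs : sg t = -1) :
    SurjOn (mu sg) (AH p sg L) (IZp p (L ⊓ sg.ker)) := by
  rintro θ ⟨n, h1, h2⟩
  by_cases h : cf t θ = θ
  · obtain ⟨χ, h3, h4, h5⟩ := ixA1 ht hs h1 h
    exact ⟨(χ, 0), ⟨⟨n, h3, h2⟩, Or.inr ⟨h4, rfl⟩⟩, by simp [mu, h5]⟩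
  · obtain ⟨h3, h4⟩ := ixB2 ht hs h1 h
    obtain ⟨δ, hδ⟩ := exists_SP h3 h4
    have h5 : θ + cf t θ ∈ IZp p L := ⟨_, h3, fun hd => (hp.dvd_mul.1 hd).elim
      (fun e => hp2 ((Nat.prime_dvd_prime_iff_eq hp Nat.prime_two).1 e)) h2⟩
    rcases hδ.split h3 ht hs h1 rfl with e | e
    · exact ⟨(_, δ), ⟨h5, Or.inl hδ⟩, by simp [mu, hδ.ne_zero h3, e]⟩
    · exact ⟨(_, -δ), ⟨h5, Or.inl hδ.neg⟩, by simp [mu, hδ.ne_zero h3, e]⟩

lemma mu_cf (ht : t ∈ L) (hs : sg t = -1) (h : a ∈ AH p sg L) :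
    (cf t (mu sg a) = mu sg a ↔ a.2 = 0) ∧ cf t (mu sg a) = mu sg (ta sg a) := by
  obtain ⟨n, h1, -⟩ := h.1
  by_cases h0 : a.2 = 0
  · have : cf t (mu sg a) = mu sg a := by rw [← mu_ca, AH.ca_self h ht, if_pos (Or.inr h0)]
    exact ⟨by simp [this, h0], by rw [this, mu_ta h0]⟩
  · obtain ⟨m, -, -, h3⟩ := (AH.sp h h0).irr h1 ht hs
    have : cf t (mu sg a) = mu sg (ta sg a) := by
      rw [← mu_ca, AH.ca_self h ht, if_neg (by simp [hs, h0])]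
    refine ⟨?_, this⟩
    rw [this, mu_neg h0, mu_neg (neg_ne_zero.2 h0)]
    simpa [ta, h0, (AH.tw_iff h).2 h0] using h3

lemma mu_ker (ht : t ∈ L) (hs : sg t = -1) (h : a ∈ AH p sg L) (h' : a' ∈ AH p sg L) :
    mu sg a = mu sg a' ↔ a' = a ∨ (a.2 = 0 ∧ a' = ta sg a) := by
  constructor
  · intro e
    have h1 : a.2 = 0 ↔ a'.2 = 0 := by rw [← (mu_cf ht hs h).1, ← (mu_cf ht hs h').1, e]
    by_cases h0 : a.2 = 0
    · obtain ⟨n, h2, -⟩ := h.1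
      obtain ⟨n', h3, -⟩ := h'.1
      rw [mu_pos h0, mu_pos (h1.1 h0)] at e
      exact (ixC1 ht hs h2 h3 e.symm).imp (fun e' => Prod.ext e' ((h1.1 h0).trans h0.symm))
        fun e' => ⟨h0, Prod.ext e' (by simp [ta, h0, h1.1 h0])⟩
    · have h0' : a'.2 ≠ 0 := fun e => h0 (h1.2 e)
      have e' := congrArg (cf t) e
      rw [(mu_cf ht hs h).2, (mu_cf ht hs h').2, mu_neg (neg_ne_zero.2 h0),
        mu_neg (neg_ne_zero.2 h0')] at e'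
      rw [mu_neg h0, mu_neg h0'] at e
      simp only [ta, (AH.tw_iff h).2 h0, (AH.tw_iff h').2 h0'] at e'
      have h2 : a.1 = a'.1 := by rw [← hf_add a.1 a.2, e, e', hf_add]
      rw [← h2] at e
      exact Or.inl (Prod.ext h2.symm (hf_inj e).symm)
  · rintro (rfl | ⟨h0, rfl⟩)
    · rfl
    · exact (mu_ta h0).symm

/-- an equivariant bijection of the characters with associators. -/
def SE (p : ℕ) (T : Set Ga) (sg : S →* ℤˣ) (N : Set S) (L L' : Subgroup S) : Prop :=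
  ∃ E : VV S → VV S, BijOn E (AH p sg L) (AH p sg L') ∧ ∀ a ∈ AH p sg L,
    (∀ σ ∈ T, E (ga σ a) = ga σ (E a)) ∧ E (ta sg a) = ta sg (E a) ∧ ((E a).2 = 0 ↔ a.2 = 0) ∧
    ∀ g ∈ N, E (ca g a) = ca g (E a)

/-- an equivariant bijection of the characters. -/
def ZE (p : ℕ) (T : Set Ga) (N : Set S) (L L' : Subgroup S) : Prop :=
  ∃ e : (S → K) → (S → K), BijOn e (IZp p L) (IZp p L') ∧ ∀ ψ ∈ IZp p L,
    (∀ σ ∈ T, e (σ ∘ ψ) = σ ∘ e ψ) ∧ ∀ g ∈ N, e (cf g ψ) = cf g (e ψ)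

variable {N : Set S}

lemma SE.top (h : SE p T sg N L L') (hN : ∀ g ∈ N, ∀ k, k ∈ L ↔ g⁻¹ * k * g ∈ L) :
    ZE p T N L L' := by
  obtain ⟨E, h1, h2⟩ := h
  obtain ⟨f, f1, f2⟩ := descend h1 (Φ := Prod.fst) (Φ' := Prod.fst) nu_surj (fun a ha => ha.1)
    nu_surj (fun a ha => ha.1) fun a ha a' ha' => by
      rw [nu_ker ha ha', nu_ker (h1.1 ha) (h1.1 ha'), ← (h2 a ha).2.1, h1.2.1.eq_iff ha' ha,
        h1.2.1.eq_iff ha' (AH.ta ha), ne_eq, ne_eq, (h2 a ha).2.2.1]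
  refine ⟨f, f1, fun ψ hψ => ?_⟩
  obtain ⟨a, ha, rfl⟩ := nu_surj (sg := sg) hψ
  exact ⟨fun σ hσ => (f2 _ (AH.ga ha σ)).trans (by rw [(h2 a ha).1 σ hσ, f2 a ha]; rfl),
    fun g hg => (f2 _ (AH.ca ha g (hN g hg))).trans (by rw [(h2 a ha).2.2.2 g hg, f2 a ha]; rfl)⟩

lemma SE.even (hp : p.Prime) (hp2 : p ≠ 2) (h : SE p T sg N L L')
    (hN : ∀ g ∈ N, ∀ k, k ∈ L ↔ g⁻¹ * k * g ∈ L) (ht : t ∈ L) (hs : sg t = -1) (ht' : t' ∈ L')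
    (hs' : sg t' = -1) : ZE p T N (L ⊓ sg.ker) (L' ⊓ sg.ker) := by
  obtain ⟨E, h1, h2⟩ := h
  obtain ⟨f, f1, f2⟩ := descend h1 (mu_surj hp hp2 ht hs) (mu_maps ht' hs')
    (mu_surj hp hp2 ht' hs') (mu_maps ht hs) fun a ha a' ha' => by
      rw [mu_ker ht hs ha ha', mu_ker ht' hs' (h1.1 ha) (h1.1 ha'), ← (h2 a ha).2.1,
        h1.2.1.eq_iff ha' ha, h1.2.1.eq_iff ha' (AH.ta ha), (h2 a ha).2.2.1]
  refine ⟨f, f1, fun ψ hψ => ?_⟩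
  obtain ⟨a, ha, rfl⟩ := mu_surj hp hp2 ht hs hψ
  exact ⟨fun σ hσ => by rw [← mu_ga, f2 _ (AH.ga ha σ), (h2 a ha).1 σ hσ, f2 a ha, mu_ga],
    fun g hg => by
      rw [← mu_ca, f2 _ (AH.ca ha g (hN g hg)), (h2 a ha).2.2.2 g hg, f2 a ha, mu_ca]⟩

end Pool.Agent.Lib.MP_1ae3da_al.Wr
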