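import Pool.Agent.Lib.MP_1ae3da_al.W11
import Pool.Agent.Lib.MP_1ae3da_al.GFa0

/-! From the counts for a double cover to a bijection of characters with associators. -/

namespace Pool.Agent.Lib.MP_1ae3da_al.Wr

open GM Set

variable {S : Type} [Group S] [Finite S] {p : ℕ} {sg : S →* ℤˣ} {L L' : Subgroup S}

lemma defl_bij {C : Type} [Group C] [Finite C] (φ : C →* S) (hL : ∀ k, k ∈ L ↔ ∃ x, φ x = k) :
    BijOn (fun ψ : S → K => ψ ∘ φ) (IZp p L)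
      {ψ | ψ ∈ IrrP C p ∧ ∀ r x, φ r = 1 → ψ (r * x) = ψ x} := by
  classical
  haveI := Fintype.ofFinite C
  haveI := Fintype.ofFinite L
  let f : C →* L := φ.codRestrict L fun x => (hL _).2 ⟨x, rfl⟩
  have hf : Function.Surjective f := fun k => ((hL k).1 k.2).imp fun _ h => Subtype.ext h
  refine ⟨fun ψ ⟨n, h1, h2⟩ => ⟨⟨n, irr_comp f hf h1.2, h2⟩, fun r x h => by simp [h]⟩,
    fun ψ ⟨n, h1, _⟩ ψ' ⟨n', h2, _⟩ e => h1.ext h2 (hf.injective_comp_right e), ?_⟩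
  rintro ψ ⟨⟨n, h1, h2⟩, h3⟩
  obtain ⟨χ, h4, rfl⟩ := (hch.h C L f).defl hf n ψ h1 fun r x h => h3 r x (congrArg Subtype.val h)
  exact ⟨ez L χ, ⟨n, ez_iz h4, h2⟩, funext fun x => congrFun (ez_res L χ) (f x)⟩

/-- `T` acts on the pair of `a` through `ε`. -/
def Lb (sg : S →* ℤˣ) (T : Set Ga) (ε : Ga → ℤˣ) (a : VV S) : Prop :=
  ∀ σ ∈ T, ga σ a = if ε σ = 1 then a else ta sg a

/-- a graded group with a central element that covers `L`. -/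
structure Cv {X X0 : Type} [Group X] [Group X0] (Γ : Gr X X0) (sg : S →* ℤˣ) (L : Subgroup S)
    (φ : X →* S) : Prop where
  rng : ∀ k, k ∈ L ↔ ∃ x, φ x = k
  ker : ∀ x, φ x = 1 ↔ x = 1 ∨ x = Γ.z
  sg : ∀ x, sg (φ x) = Γ.sg x

section cv
variable {X X0 : Type} [Group X] [Group X0] [Finite X] {Γ : Gr X X0} {φ : X →* S}
  (H : Cv Γ sg L φ)
include H

lemma Cv.bijQ (T : Set Ga) (ε : Ga → ℤˣ) : BijOn (fun a : VV S => a.1 ∘ φ)
    {a | a ∈ AH p sg L ∧ a.2 = 0 ∧ Lb sg T ε a} (Γ.IQ p T 1 ε) := by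
  have hb := defl_bij (p := p) φ H.rng
  have h1 : ∀ χ : S → K, Γ.tw (χ ∘ φ) = tw sg χ ∘ φ := fun χ => funext fun x => by
    simp [Sg.tw, tw, H.sg]
  have h2 : ∀ χ ∈ IZp p L, tw sg χ ∈ IZp p L := fun χ ⟨n, h, h'⟩ => ⟨n, h.tw, h'⟩
  refine ⟨fun a ⟨ha, h0, hl⟩ => ⟨(hb.1 ha.1).1, fun x => ?_, ?_, fun σ hσ => ?_⟩,
    fun a ha a' ha' e => Prod.ext (hb.2.1 ha.1.1 ha'.1.1 e) (ha.2.1.trans ha'.2.1.symm), ?_⟩
  · simp [(H.ker _).2 (Or.inr rfl)]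
  · rw [h1]
    exact fun e => AH.tw_ne ha h0 (hb.2.1 (h2 _ ha.1) ha.1 e)
  · have := congrArg (fun b : VV S => b.1 ∘ φ) (hl σ hσ)
    refine this.trans ?_
    split_ifs
    · rfl
    · exact (h1 _).symm
  · rintro χ ⟨k1, k2, k3, k4⟩
    obtain ⟨ψ, hψ, rfl⟩ := hb.2.2 ⟨k1, fun r x h => by
      rcases (H.ker r).1 h with rfl | rfl
      · rw [one_mul]
      · rw [k2, uK_one, one_mul]⟩
    refine ⟨(ψ, 0), ⟨⟨hψ, Or.inr ⟨fun e => k3 (by rw [h1, e]), rfl⟩⟩, rfl, fun σ hσ => ?_⟩, rfl⟩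
    have := k4 σ hσ
    split_ifs at this ⊢
    · exact Prod.ext (hb.2.1 (IZp.gal hψ σ) hψ this) ((gal_eq_zero σ _).2 rfl)
    · exact Prod.ext (hb.2.1 (IZp.gal hψ σ) (h2 _ hψ) (this.trans (h1 _)))
        (((gal_eq_zero σ _).2 rfl).trans neg_zero.symm)

lemma Cv.bijM (hp : p.Prime) (hp2 : p ≠ 2) (T : Set Ga) (ε : Ga → ℤˣ) :
    BijOn (fun a : VV S => mu sg a ∘ (φ.comp Γ.ι))
      {a | a ∈ AH p sg L ∧ a.2 ≠ 0 ∧ Lb sg T ε a} (Γ.IM p T 1 ε) := by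
  classical
  haveI : Finite X0 := Finite.of_injective _ Γ.inj
  obtain ⟨t, ht⟩ := Γ.odd
  have hL : ∀ x, φ x ∈ L := fun x => (H.rng _).2 ⟨x, rfl⟩
  have hs : sg (φ t) = -1 := (H.sg t).trans ht
  have hb := defl_bij (p := p) (L := L ⊓ sg.ker) (φ.comp Γ.ι) fun k =>
    ⟨fun ⟨h1, h2⟩ => by
      obtain ⟨x, rfl⟩ := (H.rng k).1 h1
      obtain ⟨y, rfl⟩ := (Γ.rng x).1 ((H.sg x).symm.trans h2)
      exact ⟨y, rfl⟩, by
      rintro ⟨y, rfl⟩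
      exact ⟨hL _, (H.sg _).trans (Γ.sg_ι y)⟩⟩
  have hm := mu_maps (p := p) (hL t) hs
  have h1 : ∀ a ∈ AH p sg L, ∀ g, (mu sg a ∘ (φ.comp Γ.ι)) ∘ Γ.cj g =
      mu sg (if Γ.sg g = 1 ∨ a.2 = 0 then a else ta sg a) ∘ (φ.comp Γ.ι) := by
    intro a ha g
    have e : sg (φ g)⁻¹ = Γ.sg g := by rw [map_inv, H.sg, Int.units_inv_eq_self]
    rw [← e, ← AH.ca_self ha (inv_mem (hL g)), mu_ca]
    funext x
    simp [cf, Γ.ι_cj]
  have h2 : ∀ a ∈ AH p sg L, ∀ a' ∈ AH p sg L, a.2 ≠ 0 →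
      mu sg a ∘ (φ.comp Γ.ι) = mu sg a' ∘ (φ.comp Γ.ι) → a' = a := fun a ha a' ha' h0 e =>
    ((mu_ker (hL t) hs ha ha').1 (hb.2.1 (hm ha) (hm ha') e)).resolve_right fun h => h0 h.1
  refine ⟨fun a ⟨ha, h0, hl⟩ => ⟨(hb.1 (hm ha)).1, fun x y e => ?_, fun g hg => ?_,
    fun σ hσ g hg => ?_⟩, fun a ha a' ha' e => (h2 a ha.1 a' ha'.1 ha.2.1 e).symm, ?_⟩
  · simp [e, (H.ker _).2 (Or.inr rfl)]
  · rw [h1 a ha, if_neg (by simp [hg, h0])]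
    exact fun e => AH.ta_ne ha (h2 a ha _ (AH.ta ha) h0 e.symm)
  · rw [h1 a ha, hg, ← Function.comp_assoc, ← mu_ga, hl σ hσ]
    simp [h0]
  · rintro θ ⟨k1, k2, k3, k4⟩
    obtain ⟨ψ, hψ, rfl⟩ := hb.2.2 ⟨k1, fun r x h => by
      rcases (H.ker (Γ.ι r)).1 h with e | e
      · rw [Γ.inj (e.trans (map_one _).symm), one_mul]
      · rw [k2 x (r * x) (by rw [map_mul, e]), uK_one, one_mul]⟩
    obtain ⟨a, ha, rfl⟩ := mu_surj hp hp2 (hL t) hs hψ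
    have h0 : a.2 ≠ 0 := fun e => k3 t ht (by rw [h1 a ha, if_pos (Or.inr e)])
    refine ⟨a, ⟨ha, h0, fun σ hσ => ?_⟩, rfl⟩
    obtain ⟨g, hg⟩ : ∃ g, Γ.sg g = ε σ := by
      rcases Int.units_eq_one_or (ε σ) with e | e
      · exact ⟨1, by rw [e, map_one]⟩
      · exact ⟨t, by rw [e, ht]⟩
    have := k4 σ hσ g hg
    rw [h1 a ha, hg, ← Function.comp_assoc, ← mu_ga] at this
    refine (h2 _ (AH.ga ha σ) _ ?_ (fun e => h0 ((gal_eq_zero σ _).1 e)) this).symm.trans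
      (by simp [h0])
    split_ifs
    · exact ha
    · exact AH.ta ha

lemma Cv.lab (hp : p.Prime) (hp2 : p ≠ 2) {T : Set Ga} (hc : Γ.Cov p T 1) {a : VV S}
    (ha : a ∈ AH p sg L) : ∃ ε, Lb sg T ε a := by
  by_cases h0 : a.2 = 0
  · obtain ⟨ε, h⟩ := hc.2 _ ((H.bijQ ∅ 1).1 ⟨ha, h0, fun _ h => h.elim⟩)
    obtain ⟨a', h1, h2⟩ := (H.bijQ T ε).2.2 h
    obtain rfl : a' = a := (H.bijQ ∅ 1).2.1 ⟨h1.1, h1.2.1, fun _ h => h.elim⟩
      ⟨ha, h0, fun _ h => h.elim⟩ h2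
    exact ⟨ε, h1.2.2⟩
  · obtain ⟨ε, h⟩ := hc.1 _ ((H.bijM hp hp2 ∅ 1).1 ⟨ha, h0, fun _ h => h.elim⟩)
    obtain ⟨a', h1, h2⟩ := (H.bijM hp hp2 T ε).2.2 h
    obtain rfl : a' = a := (H.bijM hp hp2 ∅ 1).2.1 ⟨h1.1, h1.2.1, fun _ h => h.elim⟩
      ⟨ha, h0, fun _ h => h.elim⟩ h2
    exact ⟨ε, h1.2.2⟩

lemma Cv.fin (hp : p.Prime) (hp2 : p ≠ 2) : (AH p sg L).Finite := by
  haveI : Finite X0 := Finite.of_injective _ Γ.inj
  have h1 := (H.bijQ (p := p) ∅ 1).finite_iff_finite.2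
    ((Fa0.irrP_fin hch X p).subset fun _ h => h.1)
  have h2 := (H.bijM hp hp2 ∅ 1).finite_iff_finite.2
    ((Fa0.irrP_fin hch X0 p).subset fun _ h => h.1)
  refine (h1.union h2).subset fun a ha => ?_
  by_cases h0 : a.2 = 0
  · exact Or.inl ⟨ha, h0, fun _ h => h.elim⟩
  · exact Or.inr ⟨ha, h0, fun _ h => h.elim⟩

end cv

/-- the label of a character with associator. -/
def RL (sg : S →* ℤˣ) (T : Set Ga) (a : VV S) (l : Prop × (Ga → ℤˣ)) : Prop :=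
  (a.2 = 0 ↔ l.1) ∧ Lb sg T l.2 a ∧ ∀ σ, σ ∉ T → l.2 σ = 1

lemma RL_unique {T : Set Ga} {a : VV S} (ha : a ∈ AH p sg L) (h : ∃ ε, Lb sg T ε a) :
    ∃! l, RL sg T a l := by
  classical
  obtain ⟨ε, h⟩ := h
  refine ⟨(a.2 = 0, fun σ => if σ ∈ T then ε σ else 1), ⟨Iff.rfl, fun σ hσ => by
    simp only [if_pos hσ]; exact h σ hσ, fun σ hσ => if_neg hσ⟩, fun l ⟨h1, h2, h3⟩ =>
    Prod.ext (propext h1.symm) (funext fun σ => ?_)⟩
  by_cases hσ : σ ∈ T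
  · simp only [if_pos hσ]
    have e := (h2 σ hσ).symm.trans (h σ hσ)
    have := AH.ta_ne ha
    rcases Int.units_eq_one_or (l.2 σ) with e1 | e1 <;>
      rcases Int.units_eq_one_or (ε σ) with e2 | e2
    · rw [e1, e2]
    · rw [if_pos e1, if_neg (by simp [e2])] at e
      exact absurd e.symm this
    · rw [if_pos e2, if_neg (by simp [e1])] at e
      exact absurd e this
    · rw [e1, e2]
  · simp only [if_neg hσ]; exact h3 σ hσ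

omit [Finite S] in
lemma RL_ta {T : Set Ga} {a : VV S} {l : Prop × (Ga → ℤˣ)} (h : RL sg T a l) :
    RL sg T (ta sg a) l := by
  refine ⟨by simpa [ta] using h.1, fun σ hσ => ?_, h.2.2⟩
  rw [← ta_ga, h.2.1 σ hσ]
  split_ifs <;> rfl

omit [Finite S] in
lemma RL_card (T : Set Ga) (l : Prop × (Ga → ℤˣ)) (h : ∀ σ, σ ∉ T → l.2 σ = 1) :
    Nat.card {x : AH p sg L // RL sg T x.1 l} =
      {a | a ∈ AH p sg L ∧ (a.2 = 0 ↔ l.1) ∧ Lb sg T l.2 a}.ncard :=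
  Nat.card_congr ⟨fun x => ⟨x.1.1, x.1.2, x.2.1, x.2.2.1⟩,
    fun x => ⟨⟨x.1, x.2.1⟩, x.2.2.1, x.2.2.2, h⟩, fun _ => rfl, fun _ => rfl⟩

theorem SE.of_cv (hp : p.Prime) (hp2 : p ≠ 2) {X X0 N N0 : Type} [Group X] [Group X0] [Group N]
    [Group N0] [Finite X] [Finite N] {Γ : Gr X X0} {Δ : Gr N N0} {φ : X →* S} {φ' : N →* S}
    (H : Cv Γ sg L φ) (H' : Cv Δ sg L' φ') (hle : L' ≤ L) {T : Set Ga} (h : FaHyp Γ Δ p T) :
    SE p T sg L' L L' := by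
  classical
  haveI := (H.fin hp hp2).to_subtype
  haveI := (H'.fin hp hp2).to_subtype
  obtain ⟨f, f1, f2⟩ := Fa0.glue (A := AH p sg L) (B := AH p sg L')
    (fun a => ⟨ta sg a.1, AH.ta a.2⟩) (fun a => ⟨ta sg a.1, AH.ta a.2⟩)
    (fun a l => RL sg T a.1 l) (fun a l => RL sg T a.1 l)
    (fun a => RL_unique a.2 (H.lab hp hp2 (h.1 1) a.2))
    (fun a => RL_unique a.2 (H'.lab hp hp2 (h.2.1 1) a.2))
    (fun a => Subtype.ext (ta_ta _)) (fun a => Subtype.ext (ta_ta _)) (fun _ _ => RL_ta)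
    (fun _ _ => RL_ta) (fun _ => False)
    (fun a _ _ => ⟨fun e => AH.ta_ne a.2 (congrArg Subtype.val e), False.elim⟩)
    (fun a _ _ => ⟨fun e => AH.ta_ne a.2 (congrArg Subtype.val e), False.elim⟩)
    (fun l => by
      by_cases hl : ∀ σ, σ ∉ T → l.2 σ = 1
      · rw [RL_card T l hl, RL_card T l hl]
        by_cases hb : l.1
        · simp only [hb, iff_true]
          rw [(H.bijQ T l.2).ncard_eq, (H'.bijQ T l.2).ncard_eq, h.2.2.2]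
        · simp only [hb, iff_false]
          rw [(H.bijM hp hp2 T l.2).ncard_eq, (H'.bijM hp hp2 T l.2).ncard_eq, h.2.2.1]
      · haveI : IsEmpty {x : AH p sg L // RL sg T x.1 l} := ⟨fun x => hl x.2.2.2⟩
        haveI : IsEmpty {x : AH p sg L' // RL sg T x.1 l} := ⟨fun x => hl x.2.2.2⟩
        simp)
  let E : VV S → VV S := fun a => if h : a ∈ AH p sg L then (f ⟨a, h⟩).1 else a
  have hE : ∀ a (h : a ∈ AH p sg L), E a = (f ⟨a, h⟩).1 := fun a h => dif_pos h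
  have k1 : ∀ a ∈ AH p sg L, E (ta sg a) = ta sg (E a) := fun a ha => by
    rw [hE _ ha, hE _ (AH.ta ha)]
    exact congrArg Subtype.val (f2 ⟨a, ha⟩)
  have k0 : MapsTo E (AH p sg L) (AH p sg L') := fun a ha => by rw [hE _ ha]; exact (f _).2
  refine ⟨E, ⟨k0, fun a ha a' ha' e => ?_, fun b hb => ?_⟩, fun a ha => ?_⟩
  · rw [hE _ ha, hE _ ha'] at e
    exact congrArg Subtype.val (f.injective (Subtype.ext e))
  · exact ⟨_, (f.symm ⟨b, hb⟩).2, by rw [hE _ (f.symm ⟨b, hb⟩).2]; simp⟩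
  · obtain ⟨l, hl, -⟩ := RL_unique ha (H.lab hp hp2 (h.1 1) ha)
    have hl' := f1 ⟨a, ha⟩ l hl
    rw [← hE _ ha] at hl'
    have k2 : (E a).2 = 0 ↔ a.2 = 0 := hl'.1.trans hl.1.symm
    refine ⟨fun σ hσ => ?_, k1 a ha, k2, fun g hg => ?_⟩
    · rw [hl.2.1 σ hσ, hl'.2.1 σ hσ]
      split_ifs
      · rfl
      · exact k1 a ha
    · rw [AH.ca_self ha (hle hg), AH.ca_self (k0 ha) hg]
      simp only [k2]
      split_ifs
      · rfl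
      · exact k1 a ha

end Pool.Agent.Lib.MP_1ae3da_al.Wr
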