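import Pool.Agent.Lib.MP_1ae3da_al.W12

/-! Internal direct products of graded subgroups. -/

namespace Pool.Agent.Lib.MP_1ae3da_al.Wr

open GM Set

variable {S ι : Type} [Group S] [Fintype ι] [DecidableEq ι]

/-- `L` is the direct product of the subgroups `M x`, with components `r x`. -/
structure IP (sg : S →* ℤˣ) (L : Subgroup S) (M : ι → Subgroup S) (r : ι → S → S) : Prop where
  mem : ∀ k ∈ L, ∀ x, r x k ∈ M x
  mul : ∀ k ∈ L, ∀ l ∈ L, ∀ x, r x (k * l) = r x k * r x l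
  inj : ∀ k ∈ L, (∀ x, r x k = 1) → k = 1
  surj : ∀ f : ι → S, (∀ x, f x ∈ M x) → ∃ k ∈ L, ∀ x, r x k = f x
  sg : ∀ k ∈ L, sg k = ∏ x, sg (r x k)

open Classical in
/-- the product function. -/
noncomputable def pf (L : Subgroup S) (r : ι → S → S) (ψ : ι → S → K) : S → K :=
  fun k => if k ∈ L then ∏ x, ψ x (r x k) else 0

variable {sg : S →* ℤˣ} {L L' : Subgroup S} {M M' : ι → Subgroup S} {r : ι → S → S} {p : ℕ}

omit [DecidableEq ι] in
lemma pf_mem {k : S} (hk : k ∈ L) (ψ : ι → S → K) : pf L r ψ k = ∏ x, ψ x (r x k) := if_pos hk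

omit [DecidableEq ι] in
lemma pf_not (ψ : ι → S → K) (k : S) (hk : k ∉ L) : pf L r ψ k = 0 := if_neg hk

omit [DecidableEq ι] in
lemma pf_ext {ψ : ι → S → K} {φ : S → K} (h0 : ∀ k, k ∉ L → φ k = 0)
    (h : ∀ k ∈ L, φ k = ∏ x, ψ x (r x k)) : φ = pf L r ψ := by
  funext k
  by_cases hk : k ∈ L
  · rw [pf_mem hk, h k hk]
  · rw [pf_not _ _ hk, h0 k hk]

omit [DecidableEq ι] in
lemma uK_prod (s : Finset ι) (u : ι → ℤˣ) : uK (∏ i ∈ s, u i) = ∏ i ∈ s, uK (u i) := by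
  simp [uK]

omit [DecidableEq ι] in
lemma pf_smul (e : ι → ℤˣ) (ψ : ι → S → K) :
    pf L r (fun x => uK (e x) • ψ x) = uK (∏ x, e x) • pf L r ψ :=
  (pf_ext (fun k hk => by simp [pf_not _ _ hk]) fun k hk => by
    simp [pf_mem hk, uK_prod, Finset.prod_mul_distrib]).symm

omit [DecidableEq ι] in
lemma pf_gal (σ : Ga) (ψ : ι → S → K) : σ ∘ pf L r ψ = pf L r fun x => σ ∘ ψ x :=
  pf_ext (fun k hk => by simp [pf_not _ _ hk]) fun k hk => by simp [pf_mem hk, map_prod]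

omit [DecidableEq ι] in
lemma pf_cf (g : S) (w : ι ≃ ι) (hL : ∀ k, k ∈ L ↔ g⁻¹ * k * g ∈ L)
    (hr : ∀ k ∈ L, ∀ x, r x (g⁻¹ * k * g) = g⁻¹ * r (w x) k * g) (ψ : ι → S → K) :
    cf g (pf L r ψ) = pf L r fun x => cf g (ψ (w.symm x)) :=
  pf_ext (fun k hk => pf_not _ _ fun h => hk ((hL k).2 h)) fun k hk => by
    rw [cf, pf_mem ((hL k).1 hk)]
    exact Fintype.prod_equiv w _ _ fun x => by rw [hr k hk, w.symm_apply_apply]; rfl

section ip
variable (H : IP sg L M r)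
include H

/-- the isomorphism with the external product. -/
noncomputable def IP.eqv : L ≃* ∀ x, M x :=
  MulEquiv.ofBijective (MonoidHom.mk' (fun (k : L) x => (⟨r x k, H.mem k k.2 x⟩ : M x))
    fun a b => funext fun x => Subtype.ext (H.mul a a.2 b b.2 x))
    ⟨(injective_iff_map_eq_one _).2 fun k h => Subtype.ext (H.inj k k.2 fun x =>
      congrArg Subtype.val (congrFun h x)), fun f => by
        obtain ⟨k, hk, h⟩ := H.surj (fun x => f x) fun x => (f x).2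
        exact ⟨⟨k, hk⟩, funext fun x => Subtype.ext (h x)⟩⟩

lemma IP.res (ψ : ι → S → K) : (fun k : L => pf L r ψ k) =
    (fun g : ∀ x, M x => ∏ x, ψ x (g x)) ∘ (IP.eqv H) := funext fun k => pf_mem k.2 ψ

omit [DecidableEq ι] in
lemma IP.tw (ψ : ι → S → K) : tw sg (pf L r ψ) = pf L r fun x => Wr.tw sg (ψ x) :=
  pf_ext (fun k hk => by simp [Wr.tw, pf_not _ _ hk]) fun k hk => by
    simp only [Wr.tw, pf_mem hk, H.sg k hk, uK_prod, Finset.prod_mul_distrib]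

omit [DecidableEq ι] in
lemma IP.eq_zero {ψ : ι → S → K} (h : ∀ x k, k ∉ M x → ψ x k = 0) :
    pf L r ψ = 0 ↔ ∃ x, ψ x = 0 := by
  constructor
  · intro e
    by_contra hcon
    have h1 : ∀ x, ∃ k ∈ M x, ψ x k ≠ 0 := fun x => by
      obtain ⟨k, hk⟩ := Function.ne_iff.1 fun e => hcon ⟨x, e⟩
      exact ⟨k, by_contra fun h' => hk (h x k h'), hk⟩
    choose f h1 h2 using h1
    obtain ⟨k, hk, h3⟩ := H.surj f h1
    have := congrFun e k
    rw [pf_mem hk, Pi.zero_apply, Finset.prod_eq_zero_iff] at this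
    obtain ⟨x, -, hx⟩ := this
    exact h2 x (h3 x ▸ hx)
  · rintro ⟨x, hx⟩
    refine (pf_ext (φ := 0) (fun _ _ => rfl) fun k _ => ?_).symm
    rw [Finset.prod_eq_zero (Finset.mem_univ x) (by rw [hx]; rfl)]; rfl

lemma IP.sp {χ δ : ι → S → K} (h : ∀ x, SP sg (M x) (χ x) (δ x)) :
    SP sg L (pf L r χ) (pf L r δ) := by
  choose h0 m i1 i2 ρ A h1 h2 using h
  let tp : (∀ x, Matrix (m x) (m x) K) → Matrix (∀ x, m x) (∀ x, m x) K :=
    fun B i j => ∏ x, B x (i x) (j x)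
  have t1 : ∀ B C, tp B * tp C = tp fun x => B x * C x := fun B C => by
    ext i j
    simp only [tp, Matrix.mul_apply]
    rw [Finset.prod_univ_sum, Fintype.piFinset_univ]
    exact Finset.sum_congr rfl fun t _ => Finset.prod_mul_distrib.symm
  have t2 : ∀ B, (tp B).trace = ∏ x, (B x).trace := fun B => by
    simp only [tp, Matrix.trace, Matrix.diag]
    rw [Finset.prod_univ_sum, Fintype.piFinset_univ]
  have t3 : (tp fun _ => 1) = 1 := by
    ext i j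
    simp only [tp, Matrix.one_apply, Finset.prod_ite_zero, Finset.mem_univ, true_imp_iff,
      Finset.prod_const_one, funext_iff]
  refine ⟨pf_not _, ∀ x, m x, inferInstance, inferInstance, fun k => tp fun x => ρ x (r x k),
    tp A, by rw [t1, funext h1, t3], fun k hk => ⟨fun l hl => ?_, ?_, ?_, ?_⟩⟩
  · rw [t1]
    exact congrArg tp (funext fun x => by
      rw [H.mul k hk l hl, (h2 x _ (H.mem k hk x)).1 _ (H.mem l hl x)])
  · rw [t1, t1, funext fun x => (h2 x _ (H.mem k hk x)).2.1, H.sg k hk, uK_prod]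
    ext i j
    simp only [tp, Matrix.smul_apply, smul_eq_mul, Finset.prod_mul_distrib]
  · rw [t2, pf_mem hk]
    exact Finset.prod_congr rfl fun x _ => (h2 x _ (H.mem k hk x)).2.2.1
  · rw [t1, t2, pf_mem hk]
    exact Finset.prod_congr rfl fun x _ => (h2 x _ (H.mem k hk x)).2.2.2

variable [Finite S]

lemma IP.iz {n : ι → ℕ} {ψ : ι → S → K} (h : ∀ x, IZ (M x) (n x) (ψ x)) :
    IZ L (∏ x, n x) (pf L r ψ) :=
  ⟨pf_not _, by
    rw [H.res]
    exact irr_comp (IP.eqv H).toMonoidHom (IP.eqv H).surjective (prod_irr n _ fun x => (h x).2)⟩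

lemma IP.pf_inj {n n' : ι → ℕ} {ψ ψ' : ι → S → K} (h : ∀ x, IZ (M x) (n x) (ψ x))
    (h' : ∀ x, IZ (M x) (n' x) (ψ' x)) (e : pf L r ψ = pf L r ψ') : ψ = ψ' := by
  have e1 := congrArg (fun f (k : L) => f k) e
  simp only [H.res] at e1
  have e2 := prod_inj (G := fun x => M x) (fun x k => ψ x k) (fun x k => ψ' x k)
    (fun x => ⟨_, (h x).2⟩) (fun x => ⟨_, (h' x).2⟩) ((IP.eqv H).surjective.injective_comp_right e1)
  exact funext fun x => (h x).ext (h' x) (congrFun e2 x)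

lemma IP.all {n : ℕ} {Ψ : S → K} (h : IZ L n Ψ) :
    ∃ (d : ι → ℕ) (ψ : ι → S → K), (∀ x, IZ (M x) (d x) (ψ x)) ∧ Ψ = pf L r ψ ∧ n = ∏ x, d x := by
  obtain ⟨χ, h1, h2⟩ := prod_all (G := fun x => M x)
    ⟨n, irr_comp (IP.eqv H).symm.toMonoidHom (IP.eqv H).symm.surjective h.2⟩
  choose d hd using h1
  have h3 := H.iz fun x => ez_iz (hd x)
  have h4 : Ψ = pf L r fun x => ez (M x) (χ x) := h.ext h3 (by
    rw [H.res]
    funext k
    have := congrFun h2 ((IP.eqv H) k)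
    simp only [Function.comp, MulEquiv.coe_toMonoidHom, MulEquiv.symm_apply_apply] at this
    rw [this]
    exact Finset.prod_congr rfl fun x _ => (congrFun (ez_res _ _) _).symm)
  exact ⟨d, _, fun x => ez_iz (hd x), h4, deg_eq h.2 (by rw [← h3.one, ← h4]; rfl)⟩

end ip

/-- changing the sign of the associator. -/
noncomputable def sc (e : ℤˣ) (a : VV S) : VV S := (a.1, uK e • a.2)

/-- the product of characters with associators. -/
noncomputable def PA (L : Subgroup S) (r : ι → S → S) (b : ℤˣ × (ι → VV S)) : VV S :=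
  (pf L r fun x => (b.2 x).1, uK b.1 • pf L r fun x => (b.2 x).2)

/-- the families. -/
def FA (p : ℕ) (sg : S →* ℤˣ) (M : ι → Subgroup S) : Set (ℤˣ × (ι → VV S)) :=
  {b | ∀ x, b.2 x ∈ AH p sg (M x)}

lemma AH.supp {a : VV S} (h : a ∈ AH p sg L) (k : S) (hk : k ∉ L) : a.2 k = 0 :=
  h.2.elim (fun e => e.1 k hk) fun e => by rw [e.2]; rfl

variable [Finite S]

open Classical in
lemma AH.sc_eq {a : VV S} (h : a ∈ AH p sg L) (e : ℤˣ) :
    sc e a = if e = 1 ∨ a.2 = 0 then a else Wr.ta sg a := by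
  by_cases h0 : a.2 = 0
  · rw [if_pos (Or.inr h0)]
    exact Prod.ext rfl (by simp [sc, h0])
  · rcases Int.units_eq_one_or e with rfl | rfl
    · simp [sc]
    · rw [if_neg (by simp [h0])]
      exact Prod.ext ((AH.tw_iff h).2 h0).symm (by simp [sc, Wr.ta])

lemma AH.sc {a : VV S} (h : a ∈ AH p sg L) (e : ℤˣ) : sc e a ∈ AH p sg L := by
  rw [AH.sc_eq h]
  split_ifs
  · exact h
  · exact AH.ta h

section pa
variable (H : IP sg L M r)
include H

omit [DecidableEq ι] [Finite S] in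
lemma IP.pa_zero {b : ℤˣ × (ι → VV S)} (hb : b ∈ FA p sg M) :
    (PA L r b).2 = 0 ↔ ∃ x, (b.2 x).2 = 0 := by
  rw [← H.eq_zero fun x => AH.supp (hb x)]
  simp [PA, uK_ne]

lemma IP.pa_maps (hp : p.Prime) : MapsTo (PA L r) (FA p sg M) (AH p sg L) := by
  intro b hb
  choose n h1 h2 using fun x => (hb x).1
  refine ⟨⟨_, H.iz h1, by
    rw [hp.prime.dvd_finsetProd_iff]; exact fun ⟨x, _, h⟩ => h2 x h⟩, ?_⟩
  by_cases h : ∃ x, (b.2 x).2 = 0
  · refine Or.inr ⟨fun e => ?_, (H.pa_zero hb).2 h⟩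
    obtain ⟨x, hx⟩ := h
    exact AH.tw_ne (hb x) hx (congrFun (H.pf_inj (fun x => (h1 x).tw) h1 ((H.tw _).symm.trans e)) x)
  · exact Or.inl ((H.sp fun x => AH.sp (hb x) fun e => h ⟨x, e⟩).sign _)

lemma IP.pa_surj (hp : p.Prime) : SurjOn (PA L r) (FA p sg M) (AH p sg L) := by
  intro a ha
  obtain ⟨n, h1, h2⟩ := ha.1
  obtain ⟨d, ψ, h3, h4, rfl⟩ := H.all h1
  choose c hc h5 using fun x => nu_surj (sg := sg) (⟨d x, h3 x, fun h => h2 (h.trans
    (Finset.dvd_prod_of_mem d (Finset.mem_univ x)))⟩ : ψ x ∈ IZp p (M x))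
  have h6 : (1, c) ∈ FA p sg M := hc
  have h7 : (PA L r (1, c)).1 = a.1 := by simp only [PA, h5, h4]
  rcases (nu_ker (H.pa_maps hp h6) ha).1 h7 with e | ⟨h0, e⟩
  · exact ⟨_, h6, e.symm⟩
  · have h8 : (PA L r (-1, c)).1 = a.1 := by simp only [PA, h5, h4]
    have h9 : (PA L r (-1, c)).2 = a.2 := by
      rw [congrArg Prod.snd e]
      simp only [PA, ta, uK_neg, neg_smul]
    exact ⟨(-1, c), hc, Prod.ext h8 h9⟩

lemma IP.pa_ker {b b' : ℤˣ × (ι → VV S)} (hb : b ∈ FA p sg M) (hb' : b' ∈ FA p sg M) :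
    PA L r b = PA L r b' ↔ ∃ e : ι → ℤˣ, (∀ x, b'.2 x = sc (e x) (b.2 x)) ∧
      ((∃ x, (b.2 x).2 = 0) ∨ b.1 = b'.1 * ∏ x, e x) := by
  have key : ∀ e : ι → ℤˣ, (∀ x, b'.2 x = sc (e x) (b.2 x)) →
      (PA L r b').2 = uK (b'.1 * ∏ x, e x) • pf L r fun x => (b.2 x).2 := fun e he => by
    simp only [PA, he, sc, pf_smul, smul_smul, uK_mul]
  constructor
  · intro h
    choose n h1 _ using fun x => (hb x).1
    choose n' h1' _ using fun x => (hb' x).1
    have h2 := H.pf_inj h1 h1' (congrArg Prod.fst h)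
    have h3 : ∀ x, ∃ e, b'.2 x = sc e (b.2 x) := fun x => by
      rcases (nu_ker (hb x) (hb' x)).1 (congrFun h2 x) with e | ⟨h0, e⟩
      · exact ⟨1, by rw [AH.sc_eq (hb x), if_pos (Or.inl rfl), e]⟩
      · exact ⟨-1, by rw [AH.sc_eq (hb x), if_neg (by simp [h0]), e]⟩
    choose e he using h3
    refine ⟨e, he, or_iff_not_imp_left.2 fun h0 => uK_inj ?_⟩
    have h4 := (congrArg Prod.snd h).trans (key e he)
    exact smul_left_injective K (mt (H.eq_zero fun x => AH.supp (hb x)).1 h0) h4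
  · rintro ⟨e, he, h⟩
    refine Prod.ext (by simp only [PA, he, sc]) ?_
    rw [key e he]
    rcases h with h | h
    · simp only [PA, (H.eq_zero fun x => AH.supp (hb x)).2 h, smul_zero]
    · simp only [PA, h]

end pa

theorem SE.prod (hp : p.Prime) {T : Set Ga} {N : Set S} (H : IP sg L M r) (H' : IP sg L' M' r)
    (hle : L' ≤ L) (E : ι → VV S → VV S) (h1 : ∀ x, BijOn (E x) (AH p sg (M x)) (AH p sg (M' x)))
    (h2 : ∀ x, ∀ a ∈ AH p sg (M x), (∀ σ ∈ T, E x (ga σ a) = ga σ (E x a)) ∧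
      E x (ta sg a) = ta sg (E x a) ∧ ((E x a).2 = 0 ↔ a.2 = 0))
    (hN : ∀ g ∈ N, ∃ w : ι ≃ ι, (∀ k, k ∈ L ↔ g⁻¹ * k * g ∈ L) ∧ (∀ k, k ∈ L' ↔ g⁻¹ * k * g ∈ L') ∧
      (∀ k ∈ L, ∀ x, r x (g⁻¹ * k * g) = g⁻¹ * r (w x) k * g) ∧
      (∀ x k, k ∈ M (w x) ↔ g⁻¹ * k * g ∈ M x) ∧
      ∀ x, ∀ a ∈ AH p sg (M x), E (w x) (ca g a) = ca g (E x a)) : SE p T sg N L L' := by
  classical
  let e : ℤˣ × (ι → VV S) → ℤˣ × (ι → VV S) := fun b => (b.1, fun x => E x (b.2 x))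
  have he : BijOn e (FA p sg M) (FA p sg M') := ⟨fun b hb x => (h1 x).1 (hb x),
    fun b hb b' hb' h => Prod.ext (congrArg Prod.fst h :) (funext fun x =>
      (h1 x).2.1 (hb x) (hb' x) (congrFun (congrArg Prod.snd h) x)), fun b hb => by
      choose c hc h using fun x => (h1 x).2.2 (hb x)
      exact ⟨(b.1, c), hc, Prod.ext rfl (funext h)⟩⟩
  have k1 : ∀ x u, ∀ a ∈ AH p sg (M x), E x (sc u a) = sc u (E x a) := fun x u a ha => by
    rw [AH.sc_eq ha, AH.sc_eq ((h1 x).1 ha)]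
    simp only [(h2 x a ha).2.2]
    split_ifs
    · rfl
    · exact (h2 x a ha).2.1
  obtain ⟨F, F1, F2⟩ := descend he (H.pa_surj hp) (H'.pa_maps hp) (H'.pa_surj hp) (H.pa_maps hp)
    fun b hb b' hb' => by
      rw [H.pa_ker hb hb', H'.pa_ker (he.1 hb) (he.1 hb')]
      refine exists_congr fun u => and_congr (forall_congr' fun x => ?_)
        (or_congr_left (exists_congr fun x => (h2 x _ (hb x)).2.2.symm))
      simp only [e]
      rw [← k1 x _ _ (hb x), (h1 x).2.1.eq_iff (hb' x) (AH.sc (hb x) _)]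
  refine ⟨F, F1, fun a ha => ?_⟩
  obtain ⟨b, hb, rfl⟩ := H.pa_surj hp ha
  have g1 : ∀ (L : Subgroup S) σ b, ga σ (PA L r b) = PA L r (b.1, fun x => ga σ (b.2 x)) :=
    fun L σ b => Prod.ext (pf_gal σ _) (by
      simp only [PA, ga, ← pf_gal]
      funext k; simp [uK])
  have g2 : ∀ {L : Subgroup S} {M : ι → Subgroup S}, IP sg L M r → ∀ b,
      ta sg (PA L r b) = PA L r (-b.1, fun x => sc (-1) (ta sg (b.2 x))) :=
    fun H b => Prod.ext (H.tw _) (by simp [PA, ta, sc])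
  rw [F2 b hb]
  refine ⟨fun σ hσ => ?_, ?_, ?_, fun g hg => ?_⟩
  · rw [g1, g1, F2 _ fun x => AH.ga (hb x) σ]
    simp only [e, fun x => (h2 x _ (hb x)).1 σ hσ]
  · rw [g2 H, g2 H', F2 _ fun x => AH.sc (AH.ta (hb x)) _]
    simp only [e, fun x => k1 x (-1) _ (AH.ta (hb x)), fun x => (h2 x _ (hb x)).2.1]
  · rw [H.pa_zero hb, H'.pa_zero (he.1 hb)]
    exact exists_congr fun x => (h2 x _ (hb x)).2.2
  · obtain ⟨w, w1, w2, w3, w4, w5⟩ := hN g hg
    have g3 : ∀ L0 ≤ L, (∀ k, k ∈ L0 ↔ g⁻¹ * k * g ∈ L0) → ∀ b,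
        ca g (PA L0 r b) = PA L0 r (b.1, fun x => ca g (b.2 (w.symm x))) := fun L0 h0 h b =>
      Prod.ext (pf_cf g w h (fun k hk => w3 k (h0 hk)) _)
        (congrArg (uK b.1 • ·) (pf_cf g w h (fun k hk => w3 k (h0 hk)) fun x => (b.2 x).2))
    rw [g3 L le_rfl w1, g3 L' hle w2, F2 _ fun x => AH.ca (hb _) g (by simpa using w4 (w.symm x))]
    have := fun x => w5 (w.symm x) _ (hb _)
    simp only [Equiv.apply_symm_apply] at this
    simp only [e, this]

end Pool.Agent.Lib.MP_1ae3da_al.Wr
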