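import Pool.Agent.Lib.MP_1ae3da_al.W13
import Pool.Agent.Lib.MP_1ae3da_al.GAll

/-! The symmetric group of a block. -/

namespace Pool.Agent.Lib.MP_1ae3da_al.Wr

open GM Set Equiv

section gen
variable {S : Type} [Group S] {p : ℕ} {sg : S →* ℤˣ} {Q Q' L : Subgroup S}

lemma pg_ker (hp : p.Prime) (hp2 : p ≠ 2) (h : IsPGroup p Q) : Q ≤ sg.ker := by
  intro x hx
  obtain ⟨k, hk⟩ := h ⟨x, hx⟩
  have h1 : sg x ^ p ^ k = 1 := by
    rw [← map_pow, show x ^ p ^ k = 1 from congrArg Subtype.val hk, map_one]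
  rcases Int.units_eq_one_or (sg x) with h | h
  · exact h
  · rw [h, (hp.odd_of_ne_two hp2).pow.neg_one_pow] at h1
    exact absurd h1 (by decide)

lemma conj_mem_iff {g : S} (hg : g ∈ L) (k : S) : k ∈ L ↔ g⁻¹ * k * g ∈ L := by
  rw [mul_mem_cancel_right hg, mul_mem_cancel_left (inv_mem hg)]

lemma Syl.odd [Finite S] (hp : p.Prime) (hp2 : p ≠ 2) (h : Syl p Q) (hL : Q ≤ L) {t : S}
    (ht : t ∈ L) (hs : sg t = -1) : ∃ t' ∈ L ⊓ Nm Q, sg t' = -1 := by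
  obtain ⟨l, hl, h1⟩ := h.frat hp (le_inf hL (pg_ker (sg := sg) hp hp2 h.1)) t fun x hx =>
    ⟨(conj_mem_iff ht x).2 (hL hx), by
      have : sg (t⁻¹ * x * t) = 1 := pg_ker (sg := sg) hp hp2 h.1 hx
      rwa [sg_conj] at this⟩
  exact ⟨l * t, ⟨mul_mem hl.1 ht, h1⟩, by rw [map_mul, hs, show sg l = 1 from hl.2, one_mul]⟩

lemma Nm_cj {g : S} (hg : ∀ x, x ∈ Q' ↔ g⁻¹ * x * g ∈ Q) (k : S) :
    k ∈ Nm Q' ↔ g⁻¹ * k * g ∈ Nm Q := by
  simp only [mem_Nm, hg]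
  constructor
  · intro h x
    simpa [mul_assoc] using h (g * x * g⁻¹)
  · intro h x
    simpa [mul_assoc] using h (g⁻¹ * x * g)

lemma mem_Nm_inv [Finite S] {g : S} (h : ∀ x ∈ Q, g⁻¹ * x * g ∈ Q) : g ∈ Nm Q :=
  inv_mem_iff.1 (mem_Nm_fin.2 (by simpa only [inv_inv] using h))

variable {ι : Type} [Fintype ι] [DecidableEq ι] {M : ι → Subgroup S} {r : ι → S → S}

lemma IP.single (H : IP sg L M r) (hM : ∀ x, M x ≤ L)
    (hr : ∀ x y, ∀ u ∈ M x, r y u = if y = x then u else 1) (x : ι) (u : M x) :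
    ((H.eqv.symm (Pi.mulSingle x u) : L) : S) = u := by
  have : H.eqv ⟨u, hM x u.2⟩ = Pi.mulSingle x u := funext fun y => Subtype.ext (by
    change r y u = _
    rw [hr x y u u.2]
    split_ifs with h
    · subst h; simp
    · simp [Pi.mulSingle_eq_of_ne h])
  rw [← this, MulEquiv.symm_apply_apply]

lemma IP.gen (H : IP sg L M r) (hM : ∀ x, M x ≤ L)
    (hr : ∀ x y, ∀ u ∈ M x, r y u = if y = x then u else 1) {k : S} (hk : k ∈ L)
    (h : ∀ x, r x k ∈ Q) : k ∈ Q := by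
  have := Subgroup.pi_mem_of_mulSingle_mem (H := (Q.subgroupOf L).comap H.eqv.symm.toMonoidHom)
    (H.eqv ⟨k, hk⟩) fun x => by
      change ((H.eqv.symm _ : L) : S) ∈ Q
      rw [H.single hM hr]
      exact h x
  simpa [Subgroup.mem_subgroupOf] using this

lemma IP.of_one (H : IP 1 L M r) (hM : ∀ x, M x ≤ L)
    (hr : ∀ x y, ∀ u ∈ M x, r y u = if y = x then u else 1) (sg : S →* ℤˣ) : IP sg L M r := by
  refine ⟨H.mem, H.mul, H.inj, H.surj, fun k hk => ?_⟩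
  have h : (sg.comp L.subtype).comp H.eqv.symm.toMonoidHom =
      ∏ x, (sg.comp (M x).subtype).comp (Pi.evalMonoidHom (fun x => M x) x) :=
    MonoidHom.pi_ext fun x u => by
      rw [MonoidHom.finsetProd_apply, Finset.prod_eq_single x]
      · simpa using congrArg sg (H.single hM hr x u)
      · intro y _ hy
        simp [Pi.mulSingle_eq_of_ne hy]
      · simp
  have := DFunLike.congr_fun h (H.eqv ⟨k, hk⟩)
  rw [MonoidHom.finsetProd_apply] at this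
  exact (congrArg (fun u : L => sg u) (H.eqv.symm_apply_apply ⟨k, hk⟩)).symm.trans this

end gen

variable {Ω : Type}

/-- the permutations supported on `B`. -/
def Sy (B : Set Ω) : Subgroup (Perm Ω) where
  carrier := {k | ∀ ω, ω ∉ B → k ω = ω}
  one_mem' := fun _ _ => rfl
  mul_mem' := fun {a b} ha hb ω h => by rw [Perm.mul_apply, hb ω h, ha ω h]
  inv_mem' := fun {a} ha ω h => by rw [Perm.inv_eq_iff_eq, ha ω h]

/-- the permutations that fix the set `B`. -/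
def Iv (B : Set Ω) : Subgroup (Perm Ω) where
  carrier := {k | ∀ ω, k ω ∈ B ↔ ω ∈ B}
  one_mem' := fun _ => Iff.rfl
  mul_mem' := fun {a b} ha hb ω => by rw [Perm.mul_apply, ha, hb]
  inv_mem' := fun {a} ha ω => by rw [← ha]; simp

/-- the image of a set. -/
def im (g : Perm Ω) (B : Set Ω) : Set Ω := {ω | g⁻¹ ω ∈ B}

open Classical in
/-- the part of a permutation on `B`. -/
noncomputable def res (B : Set Ω) (k : Perm Ω) : Perm Ω :=
  if h : k ∈ Iv B then Perm.ofSubtype (k.subtypePerm (p := (· ∈ B)) h) else 1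

variable {B : Set Ω} {g k l : Perm Ω} {ω : Ω} {p : ℕ}

lemma im_act : Act (im : Perm Ω → Set Ω → Set Ω) :=
  ⟨fun _ => rfl, fun g h B => by ext ω; simp [im]⟩

lemma im_eq_iff : im g B = B ↔ g ∈ Iv B := by
  rw [← inv_mem_iff, Set.ext_iff]; rfl

lemma Sy_le : Sy B ≤ Iv B := fun k hk ω =>
  ⟨fun h => by_contra fun h' => h' (by rwa [hk ω h'] at h),
    fun h => by_contra fun h' => h' (by rwa [k.injective (hk _ h')])⟩

lemma Sy_im (g k : Perm Ω) : k ∈ Sy (im g B) ↔ g⁻¹ * k * g ∈ Sy B :=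
  ⟨fun h ω hω => by
    rw [Perm.mul_apply, Perm.mul_apply, h (g ω) (by simpa [im] using hω)]; simp,
    fun h ω hω => by simpa [Perm.inv_eq_iff_eq] using h _ hω⟩

lemma Iv_im (g k : Perm Ω) : k ∈ Iv (im g B) ↔ g⁻¹ * k * g ∈ Iv B :=
  ⟨fun h ω => by simpa [im] using h (g ω), fun h ω => by simpa [im] using h (g⁻¹ ω)⟩

lemma res_in (h : k ∈ Iv B) (hω : ω ∈ B) : res B k ω = k ω := by
  classical
  rw [res, dif_pos h, Perm.ofSubtype_apply_of_mem _ hω]; rfl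

lemma res_mem (B : Set Ω) (k : Perm Ω) : res B k ∈ Sy B := fun ω hω => by
  classical
  unfold res
  split_ifs
  · exact Perm.ofSubtype_apply_of_not_mem _ hω
  · rfl

lemma Sy_ext (hk : k ∈ Sy B) (hl : l ∈ Sy B) (h : ∀ ω ∈ B, k ω = l ω) : k = l := by
  ext ω
  by_cases hω : ω ∈ B
  · exact h ω hω
  · rw [hk ω hω, hl ω hω]

lemma res_self (h : k ∈ Sy B) : res B k = k :=
  Sy_ext (res_mem _ _) h fun _ hω => res_in (Sy_le h) hω

lemma res_mul (hk : k ∈ Iv B) (hl : l ∈ Iv B) : res B (k * l) = res B k * res B l :=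
  Sy_ext (res_mem _ _) (mul_mem (res_mem _ _) (res_mem _ _)) fun ω hω => by
    rw [res_in (mul_mem hk hl) hω, Perm.mul_apply, Perm.mul_apply, res_in hl hω,
      res_in hk ((hl ω).2 hω)]

lemma res_cj (g : Perm Ω) (hk : k ∈ Iv (im g B)) :
    res B (g⁻¹ * k * g) = g⁻¹ * res (im g B) k * g :=
  Sy_ext (res_mem _ _) ((Sy_im _ _).1 (res_mem _ _)) fun ω hω => by
    rw [res_in ((Iv_im _ _).1 hk) hω]
    simp only [Perm.mul_apply]
    rw [res_in hk (by simpa [im] using hω)]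

lemma Sy_cj (hg : g ∈ Iv B) (k : Perm Ω) : k ∈ Sy B ↔ g⁻¹ * k * g ∈ Sy B := by
  rw [← Sy_im, im_eq_iff.2 hg]

lemma cj_res (hg : g ∈ Iv B) (hk : k ∈ Sy B) : (res B g)⁻¹ * k * res B g = g⁻¹ * k * g := by
  rw [mul_assoc, inv_mul_eq_iff_eq_mul]
  refine Sy_ext (mul_mem hk (res_mem _ _)) (mul_mem (res_mem _ _) ((Sy_cj hg k).1 hk))
    fun ω hω => ?_
  rw [Perm.mul_apply, Perm.mul_apply, res_in hg hω,
    res_in hg ((Sy_le ((Sy_cj hg k).1 hk) ω).2 hω)]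
  simp

lemma cf_res (hg : g ∈ Iv B) {ψ : Perm Ω → K} (h : ∀ k, k ∉ Sy B → ψ k = 0) :
    cf (res B g) ψ = cf g ψ := by
  funext k
  by_cases hk : k ∈ Sy B
  · simp only [cf, cj_res hg hk]
  · exact (h _ (mt (conj_mem_iff (res_mem _ _) k).2 hk)).trans (h _ (mt (Sy_cj hg k).2 hk)).symm

/-- the projection to the block. -/
noncomputable def rh (B : Set Ω) : Iv B →* Sy B :=
  MonoidHom.mk' (fun k => ⟨res B k, res_mem _ _⟩) fun a b => Subtype.ext (res_mul a.2 b.2)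

variable [Fintype Ω] [DecidableEq Ω] {Q : Subgroup (Perm Ω)}

lemma res_nm (hg : g ∈ Iv B) (h : g ∈ Nm Q) : res B g ∈ Sy B ⊓ Nm (Q ⊓ Sy B) :=
  ⟨res_mem _ _, mem_Nm_inv fun x hx => by
    rw [cj_res hg hx.2]
    exact ⟨(mem_Nm.1 h x).1 hx.1, (Sy_cj hg x).1 hx.2⟩⟩

lemma res_syl (hp : p.Prime) (hQ : Syl p Q) (hB : Q ≤ Iv B) (hk : k ∈ Q) : res B k ∈ Q := by
  haveI : Fact p.Prime := ⟨hp⟩
  let A := (Q.subgroupOf (Iv B)).map ((Sy B).subtype.comp (rh B))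
  have h1 : IsPGroup p A := (hQ.sub hB).1.map _
  have h2 : Q ≤ Nm A := fun q hq => mem_Nm_inv (by
    rintro _ ⟨x, hx, rfl⟩
    refine ⟨⟨q⁻¹ * x * q, (conj_mem_iff (hB hq) _).1 x.2⟩, (conj_mem_iff hq _).1 hx, ?_⟩
    have := res_cj (B := B) q (k := x) (by rw [im_eq_iff.2 (hB hq)]; exact x.2)
    rwa [im_eq_iff.2 (hB hq)] at this)
  have h3 := hQ.le_of_pgroup hp (IsPGroup.to_sup_of_normal_right' hQ.1 h1 h2) le_sup_left
  exact h3.le (Subgroup.mem_sup_right ⟨⟨k, hB hk⟩, hk, rfl⟩)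

lemma syl_blk (hp : p.Prime) (hQ : Syl p Q) (hB : Q ≤ Iv B) :
    Syl p ((Q ⊓ Sy B).subgroupOf (Sy B)) := by
  have h1 : (Q ⊓ Sy B).subgroupOf (Sy B) = (Q.subgroupOf (Iv B)).map (rh B) := by
    ext k
    exact ⟨fun h => ⟨⟨k, Sy_le k.2⟩, h.1, Subtype.ext (res_self k.2)⟩,
      fun ⟨x, hx, e⟩ => e ▸ ⟨res_syl hp hQ hB hx, res_mem _ _⟩⟩
  rw [h1]
  exact ⟨(hQ.sub hB).1.map _, fun h => (hQ.sub hB).2 (h.trans (Subgroup.index_map_dvd _
    fun k => ⟨⟨k, Sy_le k.2⟩, Subtype.ext (res_self k.2)⟩))⟩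

theorem se_blk (hp : p.Prime) (hp2 : p ≠ 2) (hB : Q ≤ Sy B) (hQ : Syl p (Q.subgroupOf (Sy B))) :
    SE p (Hl p) Perm.sign (Sy B ⊓ Nm Q : Subgroup (Perm Ω)) (Sy B) (Sy B ⊓ Nm Q) := by
  classical
  haveI : Fact p.Prime := ⟨hp⟩
  by_cases ho : ∃ t ∈ Sy B, Perm.sign t = -1
  swap
  · have h : Sy B ⊓ Nm Q = Sy B := inf_eq_left.2 fun k hk => by
      have : k = 1 := Sy_ext hk (one_mem _) fun ω hω => by_contra fun h => ho
        ⟨swap (k ω) ω, fun η hη => swap_apply_of_ne_of_ne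
          (fun e => hη (e ▸ (Sy_le hk ω).2 hω)) fun e => hη (e ▸ hω), Perm.sign_swap h⟩
      exact this ▸ one_mem _
    rw [h]
    exact ⟨id, bijOn_id _, fun _ _ => ⟨fun _ _ => rfl, rfl, Iff.rfl, fun _ _ => rfl⟩⟩
  obtain ⟨X, _, _, C, -⟩ := A_hmod B 1
  let φ : X →* Perm Ω := (Perm.ofSubtype (p := (· ∈ B))).comp C.π
  have h1 : ∀ k, k ∈ Sy B ↔ ∃ x, φ x = k := fun k => ⟨fun h => by
    obtain ⟨x, hx⟩ := C.surj (k.subtypePerm (p := (· ∈ B)) (Sy_le h))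
    refine ⟨x, Eq.trans ?_ (res_self h)⟩
    rw [res, dif_pos (Sy_le h), ← hx]; rfl, by
    rintro ⟨x, rfl⟩ ω hω
    exact Perm.ofSubtype_apply_of_not_mem _ hω⟩
  have h2 : ∀ x, φ x = 1 ↔ x = 1 ∨ x = C.z := fun x => by
    rw [← C.ker]
    exact map_eq_one_iff _ Perm.ofSubtype_injective
  have h3 : ∀ x, Perm.sign (φ x) = C.toSg.sg x := fun x => Perm.sign_ofSubtype _
  let f : X →* Sy B := φ.codRestrict _ fun x => (h1 _).2 ⟨x, rfl⟩
  have hf : Function.Surjective f := fun k => ((h1 k).1 k.2).imp fun _ h => Subtype.ext h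
  obtain ⟨R, hR⟩ := Sylow.mapSurjective_surjective hf p (hQ.1.toSylow hQ.2)
  have h4 : ∀ k, k ∈ Q ↔ ∃ r ∈ (R : Subgroup X), φ r = k := fun k => by
    have e : (R : Subgroup X).map f = Q.subgroupOf (Sy B) := congrArg Sylow.toSubgroup hR
    constructor
    · intro h
      obtain ⟨r, hr, e'⟩ : (⟨k, hB h⟩ : Sy B) ∈ (R : Subgroup X).map f := e ▸ h
      exact ⟨r, hr, congrArg Subtype.val e'⟩
    · rintro ⟨r, hr, rfl⟩
      exact (e ▸ Subgroup.mem_map_of_mem f hr : f r ∈ Q.subgroupOf (Sy B))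
  have hS : Syl p (R : Subgroup X) := ⟨R.2, R.not_dvd_index⟩
  obtain ⟨t, ht, hs⟩ := ho
  obtain ⟨t, rfl⟩ := (h1 t).1 ht
  rw [h3] at hs
  obtain ⟨t', ht', hs'⟩ := hS.odd hp hp2 le_top (Subgroup.mem_top t) hs
  let D : Sg (Nm (R : Subgroup X)) :=
    { sg := C.toSg.sg.comp (Subgroup.subtype _)
      z := ⟨C.z, mem_Nm_fin.2 fun x hx => by
        rwa [show C.z * x = x * C.z from C.toSg.zc x, mul_inv_cancel_right]⟩
      zc := fun g => Subtype.ext (C.toSg.zc g)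
      zz := Subtype.ext C.toSg.zz
      zs := C.toSg.zs }
  refine SE.of_cv hp hp2 (Γ := grOf C.toSg _ rfl ⟨t, hs⟩) (Δ := grOf D _ rfl ⟨⟨t', ht'.2⟩, hs'⟩)
    (φ' := φ.comp (Subgroup.subtype _)) ⟨h1, h2, h3⟩ ⟨fun k => ⟨fun hk => ?_, ?_⟩, fun x => ?_,
    fun x => h3 x⟩ inf_le_left (A_core B X _ _ _ C _ rfl p hp hp2 R _ (Subgroup.subtype _)
      ⟨hS.1, hS.2, Subtype.val_injective, fun g => ⟨fun h => ⟨⟨g, h⟩, rfl⟩, ?_⟩, fun _ => rfl, rfl⟩)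
  · obtain ⟨x, rfl⟩ := (h1 k).1 hk.1
    obtain ⟨l, hl, h5⟩ := hS.frat hp (L := Q.comap φ) (fun r hr => (h4 _).2 ⟨r, hr, rfl⟩) x
      fun u hu => (mem_Nm.1 hk.2 _).2 ((h4 _).2 ⟨_, hu, by simp⟩)
    obtain ⟨r, hr, e⟩ := (h4 _).1 hl
    exact ⟨⟨r⁻¹ * (l * x), mul_mem (inv_mem (le_Nm _ hr)) h5⟩, by simp [e]⟩
  · rintro ⟨y, rfl⟩
    refine ⟨(h1 _).2 ⟨y, rfl⟩, mem_Nm_fin.2 fun q hq => ?_⟩
    obtain ⟨r, hr, rfl⟩ := (h4 q).1 hq
    exact (h4 _).2 ⟨_, mem_Nm_fin.1 y.2 r hr, by simp⟩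
  · exact (h2 x).trans (or_congr (by simp) (Subtype.ext_iff (a1 := x) (a2 := D.z)).symm)
  · rintro ⟨y, rfl⟩; exact y.2

end Pool.Agent.Lib.MP_1ae3da_al.Wr
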