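import Pool.Agent.Lib.MP_1ae3da_al.W7

/-! The normaliser of a Sylow subgroup of a wreath product. -/

namespace Pool.Agent.Lib.MP_1ae3da_al.Wr

open GM Set

variable {p : ℕ} {T : Set Ga} {G S Ω : Type} [Group G] [Group S] [MulAction S Ω]

variable (Ω) in
/-- the wreath product of two subgroups. -/
def wsub (P : Subgroup G) (Q : Subgroup S) : Subgroup (WrP G S Ω) where
  carrier := {w | (∀ ω, w.left ω ∈ P) ∧ w.right ∈ Q}
  one_mem' := ⟨fun _ => one_mem _, one_mem _⟩
  mul_mem' := fun ha hb => ⟨fun ω => mul_mem (ha.1 ω) (hb.1 _), mul_mem ha.2 hb.2⟩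
  inv_mem' := fun ha => ⟨fun ω => by rw [wr_inv_left]; exact inv_mem (ha.1 _), inv_mem ha.2⟩

lemma card_wsub [Fintype Ω] (P : Subgroup G) (Q : Subgroup S) :
    Nat.card (wsub Ω P Q) = Nat.card P ^ Fintype.card Ω * Nat.card Q := by
  have e : wsub Ω P Q ≃ (Ω → P) × Q :=
    ⟨fun w => (fun ω => ⟨w.1.left ω, w.2.1 ω⟩, ⟨w.1.right, w.2.2⟩),
      fun x => ⟨⟨fun ω => x.1 ω, x.2⟩, fun ω => (x.1 ω).2, x.2.2⟩, fun _ => rfl, fun _ => rfl⟩
  rw [Nat.card_congr e, Nat.card_prod, Nat.card_fun, Nat.card_eq_fintype_card (α := Ω)]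

lemma syl_wsub (hp : p.Prime) [Finite G] [Finite S] [Finite Ω] {P : Subgroup G} {Q : Subgroup S}
    (hP : Syl p P) (hQ : Syl p Q) : Syl p (wsub Ω P Q) := by
  haveI : Fact p.Prime := ⟨hp⟩
  haveI := Fintype.ofFinite Ω
  obtain ⟨a, ha⟩ := IsPGroup.iff_card.1 hP.1
  obtain ⟨b, hb⟩ := IsPGroup.iff_card.1 hQ.1
  refine ⟨IsPGroup.iff_card.2 ⟨a * Fintype.card Ω + b, by
    rw [card_wsub, ha, hb, pow_add, pow_mul]⟩, ?_⟩
  have h1 : (wsub Ω P Q).index = P.index ^ Fintype.card Ω * Q.index := by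
    apply Nat.eq_of_mul_eq_mul_left (Nat.card_pos (α := wsub Ω P Q))
    rw [Subgroup.card_mul_index, card_wsub, mul_mul_mul_comm, ← mul_pow, Subgroup.card_mul_index,
      Subgroup.card_mul_index, Nat.card_congr SemidirectProduct.equivProd, Nat.card_prod,
      Nat.card_fun, Nat.card_eq_fintype_card (α := Ω)]
  rw [h1, hp.dvd_mul]
  exact fun h => h.elim (fun h => hP.2 (hp.dvd_of_dvd_pow h)) hQ.2

lemma wr_conj_left (w x : WrP G S Ω) (ω : Ω) : (w * x * w⁻¹).left ω =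
    w.left ω * x.left (w.right⁻¹ • ω) * (w.left ((w.right * x.right * w.right⁻¹)⁻¹ • ω))⁻¹ := by
  rw [wr_left, wr_left, wr_inv_left]
  simp [mul_smul]

lemma mem_Nm_fin {S : Type} [Group S] [Finite S] {Q : Subgroup S} {g : S} :
    g ∈ Nm Q ↔ ∀ x ∈ Q, g * x * g⁻¹ ∈ Q :=
  ⟨fun h x hx => (Subgroup.mem_normalizer_iff.1 h x).1 hx, Subgroup.mem_normalizer_fintype⟩

lemma mem_Nm_wsub [Finite G] [Finite S] [Finite Ω] {P : Subgroup G} {Q : Subgroup S}
    {w : WrP G S Ω} : w ∈ Nm (wsub Ω P Q) ↔ w.right ∈ Nm Q ∧ (∀ ω, w.left ω ∈ Nm P) ∧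
      ∀ q ∈ Q, ∀ ω, w.left ω * (w.left (q⁻¹ • ω))⁻¹ ∈ P := by
  rw [mem_Nm_fin]
  constructor
  · intro h
    have h1 : w.right ∈ Nm Q := mem_Nm_fin.2 fun y hy =>
      (h (SemidirectProduct.inr y) ⟨fun _ => one_mem _, hy⟩).2
    refine ⟨h1, fun ω => mem_Nm_fin.2 fun u hu => ?_, fun q hq ω => ?_⟩
    · have := (h (SemidirectProduct.inl fun _ => u) ⟨fun _ => hu, one_mem _⟩).1 ω
      rw [wr_conj_left] at this
      simpa using this
    · have := (h (SemidirectProduct.inr (w.right⁻¹ * q * w.right))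
        ⟨fun _ => one_mem _, (mem_Nm.1 h1 q).1 hq⟩).1 ω
      rw [wr_conj_left] at this
      simpa [mul_assoc] using this
  · rintro ⟨h1, h2, h3⟩ x hx
    have h4 := mem_Nm_fin.1 h1 _ hx.2
    refine ⟨fun ω => ?_, h4⟩
    have := mul_mem (mem_Nm_fin.1 (h2 ω) _ (hx.1 (w.right⁻¹ • ω))) (h3 _ h4 ω)
    rw [wr_conj_left]
    simpa [mul_assoc] using this

lemma hom_pi {A : Type} [CommGroup A] [Fintype Ω] [DecidableEq Ω] (F : (Ω → G) →* A) (m : Ω → G) :
    F m = ∏ ω, F (Pi.mulSingle ω (m ω)) := by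
  have : F = ∏ ω, (F.comp (MonoidHom.mulSingle (fun _ : Ω => G) ω)).comp
      (Pi.evalMonoidHom (fun _ : Ω => G) ω) := by
    refine MonoidHom.pi_ext fun i x => ?_
    rw [MonoidHom.finsetProd_apply, Finset.prod_eq_single i]
    · simp
    · intro j _ hj
      simp [Pi.mulSingle_eq_of_ne hj]
    · simp
  conv_lhs => rw [this, MonoidHom.finsetProd_apply]
  rfl

theorem local_wr (hp : p.Prime) [Finite G] [Finite S] [Finite Ω] {P : Subgroup G} {Q : Subgroup S}
    (hP : Syl p P) (hQ : Syl p Q) {O : Type} [MulAction (Nm Q) O] {qt : Ω → O} (hO : Orb Q qt)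
    {B : Type} [Group B] {θ : B →* MulAut (Abelianization P)} {a : G → Abelianization P}
    {b : G → B} (H : LD P θ a b) :
    EB p T (WrP (Abelianization P ⋊[θ] B) (Nm Q) O) (Nm (wsub Ω P Q)) := by
  classical
  haveI := Fintype.ofFinite Ω
  haveI := Finite.of_surjective qt hO.surj
  haveI := Fintype.ofFinite O
  let rep : O → Ω := Function.surjInv hO.surj
  have hrep : ∀ o, qt (rep o) = o := Function.surjInv_eq hO.surj
  have k0 : ∀ w : Nm (wsub Ω P Q), ∀ ω ω', qt ω = qt ω' → w.1.left ω * (w.1.left ω')⁻¹ ∈ P := by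
    intro w ω ω' h
    obtain ⟨q, hq, rfl⟩ := (hO.eq _ _).1 h.symm
    simpa using (mem_Nm_wsub.1 w.2).2.2 q hq (q • ω')
  have k1 : ∀ w : Nm (wsub Ω P Q), ∀ ω, w.1.left ω ∈ Nm P := fun w => (mem_Nm_wsub.1 w.2).2.1
  have k2 : ∀ w : Nm (wsub Ω P Q), ∀ ω ω', qt ω = qt ω' → b (w.1.left ω) = b (w.1.left ω') :=
    fun w ω ω' h => H.b_congr (k1 w ω) (k1 w ω') (k0 w ω ω' h)
  let f : Nm (wsub Ω P Q) →* WrP (Abelianization P ⋊[θ] B) (Nm Q) O :=
    { toFun := fun w => ⟨fun o => ⟨∏ ω with qt ω = o, a (w.1.left ω), b (w.1.left (rep o))⟩,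
        ⟨w.1.right, (mem_Nm_wsub.1 w.2).1⟩⟩
      map_one' := SemidirectProduct.ext (funext fun o => SemidirectProduct.ext
        (Finset.prod_eq_one fun _ _ => H.a_one) H.b_one) rfl
      map_mul' := fun x y => by
        refine SemidirectProduct.ext (funext fun o => ?_) rfl
        rw [wr_left]
        have e0 : ∀ ω, (⟨x.1.right, (mem_Nm_wsub.1 x.2).1⟩ : Nm Q)⁻¹ • qt ω =
            qt (x.1.right⁻¹ • ω) := fun ω => hO.act _ ω
        refine SemidirectProduct.ext ?_ ?_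
        · simp only [SemidirectProduct.mul_left, Subgroup.coe_mul, wr_left, map_prod]
          rw [Finset.prod_congr rfl fun ω _ => H.coc _ (k1 x ω) _ (k1 y _),
            Finset.prod_mul_distrib]
          congr 1
          refine Finset.prod_equiv (MulAction.toPerm x.1.right⁻¹) (fun ω => ?_) fun ω hω => ?_
          · simp only [Finset.mem_filter, Finset.mem_univ, true_and, MulAction.toPerm_apply]
            rw [← e0, smul_left_cancel_iff]
          · rw [k2 x ω (rep o) ((Finset.mem_filter.1 hω).2.trans (hrep o).symm)]; rfl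
        · simp only [SemidirectProduct.mul_right, Subgroup.coe_mul, wr_left]
          rw [H.bm _ (k1 x _) _ (k1 y _), k2 y (x.1.right⁻¹ • rep o) (rep _)
            (by rw [hrep, ← e0, hrep])] }
  refine EB.local hp (syl_wsub hp hP hQ) f (fun x => ?_) fun w hw => ?_
  · choose n hn h1 h2 using fun o => H.surj (x.left o).left (x.left o).right
    choose n' hn' h1' h2' using fun o => H.surj 1 (x.left o).right
    let m : Ω → G := fun ω => if ω = rep (qt ω) then n (qt ω) else n' (qt ω)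
    have m1 : ∀ ω, m ω ∈ Nm P ∧ b (m ω) = (x.left (qt ω)).right := fun ω => by
      simp only [m]
      split_ifs
      · exact ⟨hn _, h2 _⟩
      · exact ⟨hn' _, h2' _⟩
    refine ⟨⟨⟨m, x.right⟩, mem_Nm_wsub.2 ⟨x.right.2, fun ω => (m1 ω).1, fun q hq ω => ?_⟩⟩,
      SemidirectProduct.ext (funext fun o => SemidirectProduct.ext ?_ ?_) rfl⟩
    · have e1 : qt (q⁻¹ • ω) = qt ω := (hO.eq _ _).2 ⟨q, hq, smul_inv_smul _ _⟩
      refine (H.bk _ (mul_mem (m1 _).1 (inv_mem (m1 _).1))).1 ?_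
      have e2 := H.bm _ (mul_mem (m1 ω).1 (inv_mem (m1 (q⁻¹ • ω)).1)) _ (m1 (q⁻¹ • ω)).1
      rw [inv_mul_cancel_right, (m1 _).2, (m1 _).2, e1] at e2
      exact (mul_eq_right.1 e2.symm)
    · change ∏ ω with qt ω = o, a (m ω) = _
      rw [Finset.prod_eq_single_of_mem (rep o) (by simp [hrep])]
      · simp only [m, hrep, if_true, h1]
      · intro ω hω hne
        have := (Finset.mem_filter.1 hω).2
        simp only [m, this, if_neg hne, h1']
    · change b (m (rep o)) = _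
      rw [(m1 _).2, hrep]
  · have h1 : w.1.right = 1 := congrArg (fun u => (u.right : S)) hw
    have h2 : ∀ o, (f w).left o = 1 := fun o => by rw [hw]; rfl
    have h3 : ∀ ω, w.1.left ω ∈ P := fun ω => (H.bk _ (k1 w ω)).1 (by
      rw [k2 w ω (rep (qt ω)) (hrep _).symm]
      exact congrArg SemidirectProduct.right (h2 (qt ω)))
    refine ⟨⟨h3, h1 ▸ one_mem _⟩, ?_⟩
    let J : (Ω → P) →* wsub Ω P Q :=
      { toFun := fun m => ⟨⟨fun ω => m ω, 1⟩, fun ω => (m ω).2, one_mem _⟩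
        map_one' := rfl
        map_mul' := fun x y => Subtype.ext (SemidirectProduct.ext
          (funext fun ω => by simp [wr_left]) (by simp)) }
    let F : (Ω → P) →* Abelianization (wsub Ω P Q) := Abelianization.of.comp J
    have h4 : ∀ ω ω' (u : P), qt ω = qt ω' → F (Pi.mulSingle ω u) = F (Pi.mulSingle ω' u) := by
      intro ω ω' u h
      obtain ⟨q, hq, rfl⟩ := (hO.eq _ _).1 h
      let y : wsub Ω P Q := ⟨SemidirectProduct.inr q, fun _ => one_mem _, hq⟩
      have e : J (Pi.mulSingle (q • ω) u) = y * J (Pi.mulSingle ω u) * y⁻¹ := by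
        refine Subtype.ext (SemidirectProduct.ext (funext fun η => ?_) (by simp [J, y]))
        rw [Subgroup.coe_mul, Subgroup.coe_mul, Subgroup.coe_inv, wr_conj_left]
        simp [J, y, Pi.mulSingle_apply, inv_smul_eq_iff]
      simp only [F, MonoidHom.comp_apply, e, map_mul, map_inv, mul_inv_cancel_comm]
    have h5 : (⟨w, h3, h1 ▸ one_mem _⟩ : wsub Ω P Q) = J fun ω => ⟨_, h3 ω⟩ :=
      Subtype.ext (SemidirectProduct.ext rfl h1)
    rw [h5]
    change F _ = 1
    rw [hom_pi, ← Finset.prod_fiberwise Finset.univ qt]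
    refine Finset.prod_eq_one fun o _ => ?_
    have h6 : ∏ ω with qt ω = o, a (w.1.left ω) = 1 := congrArg SemidirectProduct.left (h2 o)
    have h7 := congrArg (Abelianization.lift
      (F.comp (MonoidHom.mulSingle (fun _ : Ω => P) (rep o)))) h6
    rw [map_one, map_prod] at h7
    rw [← h7]
    refine Finset.prod_congr rfl fun ω hω => ?_
    rw [h4 ω (rep o) _ ((Finset.mem_filter.1 hω).2.trans (hrep o).symm), H.ap ⟨_, h3 ω⟩]
    rfl

lemma exists_orb (Q : Subgroup S) :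
    ∃ (O : Type) (_ : MulAction (Nm Q) O) (qt : Ω → O), Orb Q qt := by
  have h0 : ∀ (g : Nm Q) (x y : Ω), MulAction.orbitRel Q Ω x y →
      MulAction.orbitRel Q Ω ((g : S) • x) ((g : S) • y) := by
    rintro g x y ⟨q, rfl⟩
    exact ⟨⟨g * q * g⁻¹, (Subgroup.mem_normalizer_iff.1 g.2 q).1 q.2⟩, by
      simp [Subgroup.smul_def, mul_smul]⟩
  letI : MulAction (Nm Q) (Quotient (MulAction.orbitRel Q Ω)) :=
    { smul := fun g => Quotient.map' (fun x => (g : S) • x) (h0 g)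
      one_smul := fun o => Quotient.inductionOn' o fun x => congrArg Quotient.mk'' (one_smul S x)
      mul_smul := fun g h o => Quotient.inductionOn' o fun x =>
        congrArg Quotient.mk'' (mul_smul (g : S) h x) }
  refine ⟨Quotient (MulAction.orbitRel Q Ω), inferInstance, Quotient.mk'',
    Quotient.mk''_surjective, fun ω ω' => ?_, fun _ _ => rfl⟩
  rw [eq_comm, Quotient.eq'']
  exact ⟨fun ⟨q, h⟩ => ⟨q, q.2, h⟩, fun ⟨q, hq, h⟩ => ⟨⟨q, hq⟩, h⟩⟩

/-- the bijection passes to the wreath product. -/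
theorem wreath (hp : p.Prime) [Finite G] [Finite S] [Finite Ω] {P : Subgroup G} {Q : Subgroup S}
    (hP : Syl p P) (hQ : Syl p Q) (hG : EB p T G (Nm P)) (hEQ : EQ p T Ω Q)
    {R : Subgroup (WrP G S Ω)} (hR : Syl p R) : EB p T (WrP G S Ω) (Nm R) := by
  obtain ⟨O, _, qt, hO⟩ := exists_orb (Ω := Ω) Q
  obtain ⟨B, _, _, θ, a, b, H⟩ := exists_LD hp hP
  haveI := Finite.of_surjective qt hO.surj
  haveI : Finite (Abelianization P ⋊[θ] B) := Finite.of_equiv _ SemidirectProduct.equivProd.symm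
  obtain ⟨Φ, h1⟩ := exists_par (G := G) (S := S) (Ω := Ω) p hp
  obtain ⟨Φ', h2⟩ := exists_par (G := Abelianization P ⋊[θ] B) (S := Nm Q) (Ω := O) p hp
  exact ((transfer hO hp hQ hEQ (hG.trans (H.eb hp hP).symm) h1 h2).trans
    (local_wr hp hP hQ hO H)).trans (EB.conj hp (syl_wsub hp hP hQ) hR)

end Pool.Agent.Lib.MP_1ae3da_al.Wr
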