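import Pool.Agent.Lib.MP_1ae3da_al.W14
import Pool.Agent.Lib.MP_1ae3da_al.W8

/-! Young subgroups, and the groups between the alternating and the symmetric group. -/

namespace Pool.Agent.Lib.MP_1ae3da_al.Wr

open GM Set Equiv

variable {Ω X : Type} {p : ℕ}

/-- the blocks of a colouring. -/
def Bl (c : Ω → X) : Type := {B : Set Ω // ∃ ω, B = {η | c η = c ω}}

/-- the block of a point. -/
def bl (c : Ω → X) (ω : Ω) : Bl c := ⟨_, ω, rfl⟩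

variable {c : Ω → X}

lemma bl_mem (ω : Ω) : ω ∈ (bl c ω).1 := (rfl : c ω = c ω)

lemma bl_eq {x : Bl c} {ω : Ω} (h : ω ∈ x.1) : bl c ω = x := by
  obtain ⟨_, η, rfl⟩ := x
  exact Subtype.ext (Set.ext fun ζ => by
    change c ζ = c ω ↔ c ζ = c η
    rw [show c ω = c η from h])

lemma Stb_le (x : Bl c) : Stb (Perm Ω) c ≤ Iv x.1 := by
  obtain ⟨_, η, rfl⟩ := x
  intro k hk ω
  change c (k ω) = c η ↔ c ω = c η
  rw [show c (k ω) = c ω from hk ω]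

lemma Sy_le_Stb (x : Bl c) : Sy x.1 ≤ Stb (Perm Ω) c := fun k hk ω => by
  change c (k ω) = c ω
  by_cases h : ω ∈ x.1
  · have := (Sy_le hk ω).2 h
    rw [← bl_eq h] at this
    exact this
  · rw [hk ω h]

open Classical in
lemma res_single (x y : Bl c) (u : Perm Ω) (hu : u ∈ Sy x.1) :
    res y.1 u = if y = x then u else 1 := by
  split_ifs with h
  · rw [h, res_self hu]
  · exact Sy_ext (res_mem _ _) (one_mem _) fun ω hω => by
      rw [res_in (Stb_le y (Sy_le_Stb x hu)) hω]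
      exact hu ω fun h' => h ((bl_eq hω).symm.trans (bl_eq h'))

instance [Finite Ω] : Finite (Bl c) := Subtype.finite

variable [Fintype Ω] [DecidableEq Ω] {Q : Subgroup (Perm Ω)}

open Classical in
lemma ip_stb [Fintype (Bl c)] :
    IP Perm.sign (Stb (Perm Ω) c) (fun x : Bl c => Sy x.1) fun x => res x.1 := by
  refine IP.of_one ⟨fun k _ x => res_mem _ _, fun k hk l hl x => res_mul (Stb_le x hk) (Stb_le x hl),
    fun k hk h => ?_, fun f hf => ?_, fun _ _ => by simp⟩ Sy_le_Stb res_single _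
  · ext ω
    rw [← res_in (Stb_le (bl c ω) hk) (bl_mem ω), h]
  · have h1 : ∀ ω, ∀ u ∈ Sy (bl c ω).1, bl c (u ω) = bl c ω := fun ω u hu =>
      bl_eq ((Sy_le hu ω).2 (bl_mem ω))
    let k : Perm Ω := ⟨fun ω => f (bl c ω) ω, fun ω => (f (bl c ω))⁻¹ ω,
      fun ω => by simp only [h1 ω _ (hf _)]; simp,
      fun ω => by simp only [h1 ω _ (inv_mem (hf _))]; simp⟩
    have hk : k ∈ Stb (Perm Ω) c := fun ω => Sy_le_Stb _ (hf _) ω
    refine ⟨k, hk, fun x => Sy_ext (res_mem _ _) (hf x) fun ω hω => ?_⟩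
    rw [res_in (Stb_le x hk) hω, ← bl_eq hω]; rfl

open Classical in
lemma ip_loc [Fintype (Bl c)] (hp : p.Prime) (hQ : Syl p Q) (hc : Q ≤ Stb (Perm Ω) c) :
    IP Perm.sign (Stb (Perm Ω) c ⊓ Nm Q) (fun x : Bl c => Sy x.1 ⊓ Nm (Q ⊓ Sy x.1))
      fun x => res x.1 := by
  have H := ip_stb (c := c)
  refine ⟨fun k hk x => res_nm (Stb_le x hk.1) hk.2, fun k hk l hl => H.mul k hk.1 l hl.1,
    fun k hk => H.inj k hk.1, fun f hf => ?_, fun k hk => H.sg k hk.1⟩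
  obtain ⟨k, hk, h⟩ := H.surj f fun x => (hf x).1
  refine ⟨k, ⟨hk, mem_Nm_inv fun q hq => H.gen Sy_le_Stb res_single
    ((conj_mem_iff hk q).1 (hc hq)) fun x => ?_⟩, h⟩
  have h1 := im_eq_iff.2 (Stb_le x hk)
  rw [res_cj k (by rw [h1]; exact Stb_le x (hc hq)), h1,
    ← cj_res (Stb_le x hk) (res_mem _ _), h]
  exact ((mem_Nm.1 (hf x).2 _).1
    ⟨res_syl hp hQ (hc.trans (Stb_le x)) hq, res_mem _ _⟩).1

lemma loc_im {g : Perm Ω} (hg : g ∈ Nm Q) (B : Set Ω) (k : Perm Ω) :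
    k ∈ Sy (im g B) ⊓ Nm (Q ⊓ Sy (im g B)) ↔ g⁻¹ * k * g ∈ Sy B ⊓ Nm (Q ⊓ Sy B) :=
  and_congr (Sy_im _ _) (Nm_cj (fun x => and_congr (mem_Nm.1 hg x) (Sy_im _ _)) k)

lemma fam_blk (hp : p.Prime) (hp2 : p ≠ 2) (hQ : Syl p Q) :
    ∃ E : Set Ω → VV (Perm Ω) → VV (Perm Ω), ∀ B, Q ≤ Iv B →
      BijOn (E B) (AH p Perm.sign (Sy B)) (AH p Perm.sign (Sy B ⊓ Nm (Q ⊓ Sy B))) ∧
      ∀ a ∈ AH p Perm.sign (Sy B), (∀ σ ∈ Hl p, E B (ga σ a) = ga σ (E B a)) ∧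
        E B (ta Perm.sign a) = ta Perm.sign (E B a) ∧ ((E B a).2 = 0 ↔ a.2 = 0) ∧
        ∀ g ∈ Nm Q, E (im g B) (ca g a) = ca g (E B a) := by
  obtain ⟨E, h⟩ := bundle (Nm Q) im_act ca_act {B | Q ≤ Iv B} (fun B => AH p Perm.sign (Sy B))
    (fun B => AH p Perm.sign (Sy B ⊓ Nm (Q ⊓ Sy B))) (insert (ta Perm.sign) (ga '' Hl p))
    (fun a => a.2 = 0) (fun g hg B hB q hq => (Iv_im _ _).2 (hB ((mem_Nm.1 hg q).1 hq)))
    (fun g _ B a ha => AH.ca ha g (Sy_im g)) (fun g hg B a ha => AH.ca ha g (loc_im hg B))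
    (by
      rintro _ (rfl | ⟨σ, -, rfl⟩) g a
      · exact (ta_ca g a).symm
      · rfl)
    (fun g a => cf_eq_zero g _) fun B hB => by
      obtain ⟨e, h1, h2⟩ := se_blk hp hp2 inf_le_right (syl_blk hp hQ hB)
      refine ⟨e, h1, fun a ha => ⟨?_, (h2 a ha).2.2.1, fun g hg hgB => ?_⟩⟩
      · rintro _ (rfl | ⟨σ, hσ, rfl⟩)
        · exact (h2 a ha).2.1
        · exact (h2 a ha).1 σ hσ
      · have h3 : ∀ L ≤ Sy B, ∀ a ∈ AH p Perm.sign L, ca (res B g) a = ca g a :=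
          fun L hL a ha => Prod.ext (cf_res (im_eq_iff.1 hgB) fun k hk => by
            obtain ⟨n, h, -⟩ := ha.1
            exact h.1 k fun e => hk (hL e))
            (cf_res (im_eq_iff.1 hgB) fun k hk => AH.supp ha k fun e => hk (hL e))
        rw [← h3 _ le_rfl a ha, ← h3 _ inf_le_left _ (h1.1 ha)]
        exact (h2 a ha).2.2.2 _ (res_nm (im_eq_iff.1 hgB) hg)
  exact ⟨E, fun B hB => ⟨(h B hB).1, fun a ha => ⟨fun σ hσ =>
    ((h B hB).2 a ha).1 _ (Or.inr ⟨σ, hσ, rfl⟩), ((h B hB).2 a ha).1 _ (Or.inl rfl),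
    ((h B hB).2 a ha).2⟩⟩⟩

/-- the elements of the normaliser that permute the blocks. -/
def NB (Q : Subgroup (Perm Ω)) (c : Ω → X) : Set (Perm Ω) :=
  {g | g ∈ Nm Q ∧ ∀ ω ω', c (g⁻¹ • ω) = c (g⁻¹ • ω') ↔ c ω = c ω'}

omit [Fintype Ω] [DecidableEq Ω] in
lemma NB.stb {g : Perm Ω} (hg : g ∈ NB Q c) (k : Perm Ω) :
    k ∈ Stb (Perm Ω) c ↔ g⁻¹ * k * g ∈ Stb (Perm Ω) c := by
  rw [← Stb_ac, Stb_congr (c := ac g c) hg.2]

theorem se_stb (hp : p.Prime) (hp2 : p ≠ 2) (hQ : Syl p Q) (hc : Q ≤ Stb (Perm Ω) c) :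
    SE p (Hl p) Perm.sign (NB Q c) (Stb (Perm Ω) c) (Stb (Perm Ω) c ⊓ Nm Q) := by
  classical
  haveI := Fintype.ofFinite (Bl c)
  obtain ⟨E, h⟩ := fam_blk hp hp2 hQ
  have hB : ∀ x : Bl c, Q ≤ Iv x.1 := fun x => hc.trans (Stb_le x)
  refine SE.prod hp ip_stb (ip_loc hp hQ hc) inf_le_left (fun x => E x.1)
    (fun x => (h _ (hB x)).1) (fun x a ha => ⟨((h _ (hB x)).2 a ha).1,
      ((h _ (hB x)).2 a ha).2.1, ((h _ (hB x)).2 a ha).2.2.1⟩) fun g hg => ?_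
  have h1 : ∀ ω, im g {η | c η = c ω} = {η | c η = c (g ω)} := fun ω => Set.ext fun η => by
    have := hg.2 η (g • ω)
    rwa [inv_smul_smul] at this
  let w : Bl c ≃ Bl c := Equiv.subtypeEquiv
    ⟨im g, im g⁻¹, im_act.inv g, im_act.inv' g⟩ fun B =>
      ⟨fun ⟨ω, e⟩ => ⟨g ω, by rw [e]; exact h1 ω⟩, fun ⟨ω, e⟩ => ⟨g⁻¹ ω, by
        rw [← im_act.inv g B, ← im_act.inv g {η | c η = c (g⁻¹ ω)}, h1,
          show g (g⁻¹ ω) = ω from smul_inv_smul g ω]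
        exact congrArg _ e⟩⟩
  exact ⟨w, NB.stb hg, fun k => and_congr (NB.stb hg k) (conj_mem_iff hg.1 k),
    fun k hk x => res_cj g (Stb_le (w x) hk), fun x => Sy_im g,
    fun x a ha => ((h _ (hB x)).2 a ha).2.2.2 g hg.1⟩

lemma ZE.res {S : Type} [Group S] [Finite S] {T T' : Set Ga} {N : Set S} {L L' F : Subgroup S}
    (h : ZE p T N L L') (hT : T' ⊆ T) (hN : ∀ g ∈ N, ∀ k, k ∈ L ↔ g⁻¹ * k * g ∈ L) (hL : L ≤ F)
    (hL' : L' ≤ F) : ZE p T' {g : F | (g : S) ∈ N} (L.subgroupOf F) (L'.subgroupOf F) := by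
  obtain ⟨e, h1, h2⟩ := h
  have b := res_bij p hL
  have b' := res_bij p hL'
  obtain ⟨f, f1, f2⟩ := descend h1 b.2.2 b'.1 b'.2.2 b.1 fun a ha a' ha' => by
    rw [b.2.1.eq_iff ha ha', b'.2.1.eq_iff (h1.1 ha) (h1.1 ha'), h1.2.1.eq_iff ha ha']
  refine ⟨f, f1, fun ψ hψ => ?_⟩
  obtain ⟨a, ha, rfl⟩ := b.2.2 hψ
  exact ⟨fun σ hσ => (f2 _ (IZp.gal ha σ)).trans (by rw [(h2 a ha).1 σ (hT hσ), f2 a ha]; rfl),
    fun g hg => (f2 _ (IZp.cf ha g (hN g hg))).trans (by rw [(h2 a ha).2 g hg, f2 a ha]; rfl)⟩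

theorem eq_alt (hp : p.Prime) (hp2 : p ≠ 2) {T : Set Ga} (hT : T ⊆ Hl p)
    {F : Subgroup (Perm Ω)} (hF : alternatingGroup Ω ≤ F) {Q : Subgroup F} (hQ : Syl p Q) :
    EQ p T Ω Q := by
  intro X c hc
  have h0 : F = ⊤ ∨ F = Perm.sign.ker := or_iff_not_imp_right.2 fun h => by
    obtain ⟨t, ht, hs⟩ := SetLike.not_le_iff_exists.1 fun h' => h (le_antisymm h' hF)
    refine eq_top_iff.2 fun g _ => ?_
    by_cases hg : g ∈ Perm.sign.ker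
    · exact hF hg
    · refine (mul_mem_cancel_right ht).1 (hF ?_)
      rw [Perm.mem_alternatingGroup, map_mul, (Int.units_eq_one_or _).resolve_left hg,
        (Int.units_eq_one_or _).resolve_left hs]
      rfl
  have hN : ∀ g k : Perm Ω, k ∈ F ↔ g⁻¹ * k * g ∈ F := fun g k => by
    rcases h0 with rfl | rfl
    · simp
    · simp only [MonoidHom.mem_ker, sg_conj]
  have h1 : Syl p (Q.map F.subtype) := ⟨hQ.1.map _, by
    rw [Subgroup.index_map_subtype, hp.dvd_mul]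
    refine fun h => h.elim hQ.2 fun h => hp2 ((Nat.prime_dvd_prime_iff_eq hp Nat.prime_two).1
      (h.trans ((Subgroup.index_dvd_of_le hF).trans ?_)))
    rw [alternatingGroup_eq_sign_ker, Subgroup.index_ker, ← Fintype.card_units_int,
      ← Nat.card_eq_fintype_card]
    exact Subgroup.card_subgroup_dvd_card _⟩
  have h2 : Q.map F.subtype ≤ Stb (Perm Ω) c := by
    rintro _ ⟨q, hq, rfl⟩; exact hc hq
  have h3 : ∀ g : F, g ∈ Nm Q ↔ (g : Perm Ω) ∈ Nm (Q.map F.subtype) := fun g =>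
    ⟨fun h => mem_Nm_fin.2 (by
      rintro _ ⟨q, hq, rfl⟩; exact ⟨_, mem_Nm_fin.1 h q hq, rfl⟩), fun h => mem_Nm_fin.2 fun q hq =>
      (Subgroup.mem_map_iff_mem F.subtype_injective).1 (mem_Nm_fin.1 h _ ⟨q, hq, rfl⟩)⟩
  have h4 := se_stb hp hp2 h1 h2
  have h5 : ZE p (Hl p) (NB (Q.map F.subtype) c) (Stb (Perm Ω) c ⊓ F)
      (Stb (Perm Ω) c ⊓ Nm (Q.map F.subtype) ⊓ F) := by
    by_cases h : Stb (Perm Ω) c ≤ F
    · rw [inf_eq_left.2 h, inf_eq_left.2 (inf_le_left.trans h)]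
      exact h4.top fun g => NB.stb
    · obtain ⟨t, ht, hs⟩ := SetLike.not_le_iff_exists.1 h
      obtain rfl := h0.resolve_left fun e => h (e ▸ le_top)
      have hs' := (Int.units_eq_one_or _).resolve_left hs
      obtain ⟨t', ht', hs''⟩ := h1.odd hp hp2 h2 ht hs'
      exact h4.even hp hp2 (fun g => NB.stb) ht hs' ht' hs''
  obtain ⟨e, e1, e2⟩ := h5.res hT (fun g hg k => and_congr (NB.stb hg k) (hN g k))
    inf_le_right inf_le_right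
  have k1 : (Stb (Perm Ω) c ⊓ F).subgroupOf F = Stb F c :=
    Subgroup.ext fun k => ⟨fun h => h.1, fun h => ⟨h, k.2⟩⟩
  have k2 : (Stb (Perm Ω) c ⊓ Nm (Q.map F.subtype) ⊓ F).subgroupOf F = Stb F c ⊓ Nm Q :=
    Subgroup.ext fun k => ⟨fun h => ⟨h.1.1, (h3 k).2 h.1.2⟩, fun h => ⟨⟨h.1, (h3 k).1 h.2⟩, k.2⟩⟩
  rw [k1] at e1 e2
  rw [k2] at e1
  exact ⟨e, e1, fun ψ hψ => ⟨(e2 ψ hψ).1, fun g hg h => (e2 ψ hψ).2 g ⟨(h3 g).1 hg, h⟩⟩⟩

end Pool.Agent.Lib.MP_1ae3da_al.Wr
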