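import Pool.Agent.Lib.MP_1ae3da_al.W15

/-! The McKay-Galois conjecture passes to wreath products with symmetric and alternating groups. -/

namespace Pool.Agent.Lib.MP_1ae3da_al.Wr

open GM Set Equiv

lemma irrP_eq (p : ℕ) (Y : Type) [Group Y] : NSV.IrrP p Y = IrrP Y p := by
  ext χ
  exact ⟨fun ⟨n, ρ, h1, h2, h3⟩ => ⟨n, ⟨ρ, h1, h2⟩, h3⟩,
    fun ⟨n, ⟨ρ, h1, h2⟩, h3⟩ => ⟨n, ρ, h1, h2, h3⟩⟩

lemma eb_iff (p : ℕ) (U : Set (K ≃ₐ[ℚ] K)) (G N : Type) [Group G] [Group N] [Finite G] :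
    (∃ f : NSV.IrrP p G ≃ NSV.IrrP p N, ∀ σ ∈ U, ∀ χ ψ : NSV.IrrP p G,
      ψ.1 = σ ∘ χ.1 → (f ψ).1 = σ ∘ (f χ).1) ↔ EB p (AlgEquiv.toRingEquiv '' U) G N := by
  classical
  rw [irrP_eq, irrP_eq]
  constructor
  · rintro ⟨f, hf⟩
    refine ⟨fun χ => if h : χ ∈ IrrP G p then (f ⟨χ, h⟩).1 else 0, ⟨fun χ h => ?_,
      fun χ h ψ h' e => ?_, fun θ h => ⟨_, (f.symm ⟨θ, h⟩).2, ?_⟩⟩, ?_⟩
    · simp only [dif_pos h]; exact (f _).2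
    · simp only [dif_pos h, dif_pos h'] at e
      exact congrArg Subtype.val (f.injective (Subtype.ext e))
    · simp only [dif_pos (f.symm ⟨θ, h⟩).2]; simp
    · rintro _ ⟨σ, hσ, rfl⟩ χ h
      simp only [dif_pos h, dif_pos (irrP_gal h σ.toRingEquiv)]
      exact hf σ hσ _ _ rfl
  · rintro ⟨f, h1, h2⟩
    exact ⟨h1.equiv f, fun σ hσ χ ψ e => (congrArg f e).trans (h2 _ ⟨σ, hσ, rfl⟩ _ χ.2)⟩

theorem closure_wr (p : ℕ) (hp : p.Prime) (hp2 : p ≠ 2) (G : Type) [Group G] [Finite G]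
    (P : Sylow p G) (Ω : Type) [Fintype Ω] [DecidableEq Ω] (F : Subgroup (Perm Ω))
    (hF : alternatingGroup Ω ≤ F) (R : Sylow p (WrP G F Ω))
    (h : EB p (AlgEquiv.toRingEquiv '' NSV.H0 p) G (Nm (P : Subgroup G))) :
    EB p (AlgEquiv.toRingEquiv '' NSV.H0 p) (WrP G F Ω) (Nm (R : Subgroup (WrP G F Ω))) := by
  haveI : Fact p.Prime := ⟨hp⟩
  obtain ⟨Q⟩ : Nonempty (Sylow p F) := inferInstance
  have hQ : Syl p (Q : Subgroup F) := ⟨Q.2, Q.not_dvd_index⟩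
  refine wreath hp ⟨P.2, P.not_dvd_index⟩ hQ h (eq_alt hp hp2 ?_ hF hQ) ⟨R.2, R.not_dvd_index⟩
  rintro _ ⟨σ, hσ, rfl⟩
  exact A_hsq.hl p σ hp (Subgroup.subset_closure hσ)

end Pool.Agent.Lib.MP_1ae3da_al.Wr
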