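import Pool.Agent.Lib.MP_1ae3da_al.W1

/-! Clifford theory for a normal subgroup with an equivariant extension map. -/

namespace Pool.Agent.Lib.MP_1ae3da_al.Wr

open GM

variable {W S Y : Type} [Group W] [Group S]

/-- an equivariant extension map for the kernel of `π`. -/
structure Ext (π : W →* S) (YS : Set Y) (St : Y → Subgroup S) (act : S → Y → Y)
    (ex : Y → W → K) : Prop where
  surj : Function.Surjective π
  mem : ∀ k, ∀ y ∈ YS, act k y ∈ YS
  st : ∀ y k, k ∈ St y ↔ act k y = y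
  stc : ∀ y g k, k ∈ St (act g y) ↔ g⁻¹ * k * g ∈ St y
  ch : ∀ y ∈ YS, (fun w : (St y).comap π => ex y w) ∈ Ch ((St y).comap π)
  irr : ∀ y ∈ YS, (fun m : π.ker => ex y m) ∈ Irr π.ker
  inj : ∀ y ∈ YS, ∀ y' ∈ YS, ((fun m : π.ker => ex y m) = fun m : π.ker => ex y' m) → y = y'
  all : ∀ θ ∈ Irr π.ker, ∃ y ∈ YS, θ = fun m : π.ker => ex y m
  eqv : ∀ g, ∀ y ∈ YS, ∀ w, π w ∈ St y → ex (act (π g) y) (g * w * g⁻¹) = ex y w

/-- the induced character. -/
noncomputable def Phi [Fintype W] (π : W →* S) (L : Subgroup S) (e : W → K) (ψ : S → K) : W → K :=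
  fun w => (Nat.card (L.comap π) : K)⁻¹ * ∑ g : W, e (g⁻¹ * w * g) * ψ (π (g⁻¹ * w * g))

variable [Fintype W] {π : W →* S}

lemma Phi_ind [DecidableEq W] (L : Subgroup S) [Fintype (L.comap π)] (e : W → K) (ψ : S → K)
    (hψ : ∀ k, k ∉ L → ψ k = 0) :
    Phi π L e ψ = ind (L.comap π).subtype fun w => e w * ψ (π w) := by
  classical
  funext w
  rw [Phi, ChHs.ind_eq, Nat.card_eq_fintype_card]
  congr 1
  refine Finset.sum_congr rfl fun g _ => ?_
  by_cases h : g⁻¹ * w * g ∈ L.comap π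
  · rw [Finset.sum_eq_single_of_mem ⟨_, h⟩ (by simp)]
    intro b hb hne
    exact absurd (Subtype.ext (Finset.mem_filter.1 hb).2) hne
  · rw [hψ _ h, mul_zero, Finset.sum_eq_zero]
    intro b hb
    exact absurd ((Finset.mem_filter.1 hb).2 ▸ b.2) h

lemma Phi_cl (L : Subgroup S) (e : W → K) (ψ : S → K) : Cl (Phi π L e ψ) := by
  intro w h
  unfold Phi
  congr 1
  refine Fintype.sum_equiv (Equiv.mulLeft h⁻¹) _ _ fun g => ?_
  simp [mul_assoc]

lemma Phi_gal (L : Subgroup S) (e e' : W → K) (ψ : S → K) (σ : Ga) (hψ : ∀ k, k ∉ L → ψ k = 0)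
    (h : ∀ w, π w ∈ L → e' w = σ (e w)) : Phi π L e' (σ ∘ ψ) = σ ∘ Phi π L e ψ := by
  funext w
  simp only [Phi, Function.comp, map_mul σ, map_inv₀, map_natCast, map_sum]
  congr 1
  refine Finset.sum_congr rfl fun g _ => ?_
  by_cases hg : π (g⁻¹ * w * g) ∈ L
  · rw [h _ hg]
  · rw [hψ _ hg]; simp

lemma tau_ch [Finite S] (L : Subgroup S) (e : W → K) {n : ℕ} {ψ : S → K} (hψ : IZ L n ψ)
    (he : (fun w : L.comap π => e w) ∈ Ch (L.comap π)) :
    (fun w : L.comap π => e w * ψ (π w)) ∈ Ch (L.comap π) :=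
  ch_mul he (ch_comp (rp π L) (irr_ch hψ.2))

lemma ip_Phi (L : Subgroup S) (e : W → K) (ψ : S → K) (hψ : ∀ k, k ∉ L → ψ k = 0) (φ : W → K)
    (hφ : Cl φ) : ip (Phi π L e ψ) φ =
      (Nat.card (L.comap π) : K)⁻¹ * ∑ w, e w * φ w⁻¹ * ψ (π w) := by
  classical
  haveI := Fintype.ofFinite (L.comap π)
  rw [Phi_ind L e ψ hψ, (hch.h _ _ (L.comap π).subtype).frob _ _ hφ, ip,
    sum_sub (L.comap π) _ fun w hw => by rw [hψ _ hw, mul_zero]]
  congr 1
  exact Finset.sum_congr rfl fun w _ => by simp [mul_right_comm]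

variable {YS : Set Y} {St : Y → Subgroup S} {act : S → Y → Y} {ex : Y → W → K}

omit [Fintype W] in
lemma Ext.conj (H : Ext π YS St act ex) {y : Y} (hy : y ∈ YS) {ψ : S → K}
    (hψ : ∀ k, k ∉ St y → ψ k = 0) (g u : W) :
    ex y (g⁻¹ * u * g) * ψ (π (g⁻¹ * u * g)) = ex (act (π g) y) u * cf (π g) ψ (π u) := by
  have h0 : cf (π g) ψ (π u) = ψ (π (g⁻¹ * u * g)) := by simp [cf]
  rw [h0]
  by_cases h : π (g⁻¹ * u * g) ∈ St y
  · rw [← H.eqv g y hy _ h]
    simp [mul_assoc]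
  · rw [hψ _ h, mul_zero, mul_zero]

lemma ch_le {L L' : Subgroup S} (h : L' ≤ L) (e : W → K)
    (he : (fun w : L.comap π => e w) ∈ Ch (L.comap π)) :
    (fun w : L'.comap π => e w) ∈ Ch (L'.comap π) :=
  ch_comp (Subgroup.inclusion (Subgroup.comap_mono h)) he

open Classical in
lemma Ext.base [Fintype S] (H : Ext π YS St act ex) {y y' : Y} (hy : y ∈ YS) (hy' : y' ∈ YS)
    (l : S → K) (hl : ∀ k, l k ≠ 0 → k ∈ St y ⊓ St y') :
    ∑ w, ex y w * ex y' w⁻¹ * l (π w) = if y = y' then Nat.card π.ker * ∑ k, l k else 0 := by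
  haveI := Fintype.ofFinite π.ker
  rw [sum_fs π (fun w => ex y w * ex y' w⁻¹) l]
  have h0 : fs π (fun w => ex y w * ex y' w⁻¹) 1 = Nat.card π.ker *
      ip (fun m : π.ker => ex y m) (fun m : π.ker => ex y' m) := by
    rw [fs_one, ip, ← mul_assoc, mul_inv_cancel₀ (card_ne _), one_mul]; rfl
  split_ifs with e
  · subst e
    rw [(hch.a _).orth1 _ (H.irr y hy), mul_one] at h0
    rw [Finset.mul_sum]
    refine Finset.sum_congr rfl fun k _ => ?_
    by_cases hk : l k = 0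
    · rw [hk, mul_zero, mul_zero]
    · rw [co_one π H.surj (St y) _ (H.ch y hy) h0 k (hl k hk).1]
  · rw [(hch.a _).orth0 _ (H.irr y hy) _ (H.irr y' hy') fun h => e (H.inj y hy y' hy' h),
      mul_zero] at h0
    refine Finset.sum_eq_zero fun k _ => ?_
    by_cases hk : l k = 0
    · rw [hk, mul_zero]
    · rw [co_zero π H.surj (St y ⊓ St y') _ (ch_mul (ch_le inf_le_left _ (H.ch y hy))
        (ch_inv (ch_le inf_le_right _ (H.ch y' hy')))) h0 k (hl k hk), zero_mul]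

open Classical in
lemma Ext.ip_eq [Fintype S] (H : Ext π YS St act ex) {y y' : Y} (hy : y ∈ YS) (hy' : y' ∈ YS)
    {n n' : ℕ} {ψ ψ' : S → K} (hψ : IZ (St y) n ψ) (hψ' : IZ (St y') n' ψ') :
    ip (Phi π (St y) (ex y) ψ) (Phi π (St y') (ex y') ψ') =
      (Nat.card ((St y').comap π) : K)⁻¹ *
        ∑ g : W, if y = act (π g) y' ∧ ψ = cf (π g) ψ' then 1 else 0 := by
  rw [ip_Phi _ _ _ hψ.1 _ (Phi_cl _ _ _)]
  have h1 : ∀ w, ex y w * Phi π (St y') (ex y') ψ' w⁻¹ * ψ (π w) =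
      (Nat.card ((St y').comap π) : K)⁻¹ * ∑ g : W,
        ex y w * ex (act (π g) y') w⁻¹ * (ψ (π w) * cf (π g) ψ' (π w)⁻¹) := by
    intro w
    rw [Phi, mul_right_comm, mul_left_comm, Finset.mul_sum]
    congr 1
    refine Finset.sum_congr rfl fun g _ => ?_
    rw [H.conj hy' hψ'.1, map_inv]; ring
  rw [Finset.sum_congr rfl fun w _ => h1 w, ← Finset.mul_sum, mul_left_comm, Finset.sum_comm,
    Finset.mul_sum]
  congr 1
  refine Finset.sum_congr rfl fun g _ => ?_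
  have hz : IZ (St (act (π g) y')) n' (cf (π g) ψ') := hψ'.cf _ (H.stc y' _)
  rw [H.base hy (H.mem _ _ hy') (fun k => ψ k * cf (π g) ψ' k⁻¹) fun k hk =>
    ⟨by_contra fun h => hk (by rw [hψ.1 k h, zero_mul]),
      by_contra fun h => hk (by rw [hz.1 k⁻¹ fun h' => h ((Subgroup.inv_mem_iff _).1 h'),
        mul_zero])⟩]
  by_cases e : y = act (π g) y'
  · rw [if_pos e, hψ.orth (e ▸ hz), card_comap π H.surj]
    by_cases e' : ψ = cf (π g) ψ'
    · rw [if_pos e', if_pos ⟨e, e'⟩, Nat.cast_mul,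
        inv_mul_cancel₀ (mul_ne_zero (card_ne _) (card_ne _))]
    · rw [if_neg e', if_neg fun h => e' h.2, mul_zero, mul_zero]
  · rw [if_neg e, if_neg fun h => e h.1, mul_zero]

lemma Ext.irr_phi [Finite S] (H : Ext π YS St act ex) {y : Y} (hy : y ∈ YS) {n d : ℕ} {ψ : S → K}
    (hψ : IZ (St y) n ψ) (hd : ex y 1 = d) :
    IsIrr ((St y).index * d * n) (Phi π (St y) (ex y) ψ) := by
  classical
  haveI := Fintype.ofFinite S
  haveI := Fintype.ofFinite ((St y).comap π)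
  have h1 : Phi π (St y) (ex y) ψ ∈ Ch W := by
    rw [Phi_ind _ _ _ hψ.1]
    exact (hch.h _ _ _).ind_ch _ (tau_ch _ _ hψ (H.ch y hy))
  have h2 : ip (Phi π (St y) (ex y) ψ) (Phi π (St y) (ex y) ψ) = 1 := by
    rw [H.ip_eq hy hy hψ hψ, sum_sub ((St y).comap π) _ fun g hg => if_neg fun h =>
      hg ((H.st y _).2 h.1.symm)]
    rw [Finset.sum_congr rfl fun (g : (St y).comap π) _ =>
      if_pos ⟨((H.st y _).1 g.2).symm, (hψ.cf_self g.2).symm⟩]
    rw [Finset.sum_const, Finset.card_univ, nsmul_eq_mul, mul_one, ← Nat.card_eq_fintype_card,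
      inv_mul_cancel₀ (card_ne _)]
  obtain ⟨N, hN⟩ := (hch.a W).ch_one _ h1 h2
  have h3 : N = (St y).index * d * n := by
    refine deg_eq hN ?_
    rw [Phi_ind _ _ _ hψ.1, (hch.h _ _ _).ind_one Subtype.val_injective, Subgroup.range_subtype,
      Subgroup.index_comap_of_surjective _ H.surj]
    simp [hd, hψ.one, mul_assoc]
  exact h3 ▸ hN

lemma Ext.eq_iff [Finite S] (H : Ext π YS St act ex) {y y' : Y} (hy : y ∈ YS) (hy' : y' ∈ YS)
    {n n' : ℕ} {ψ ψ' : S → K} (hψ : IZ (St y) n ψ) (hψ' : IZ (St y') n' ψ') :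
    Phi π (St y) (ex y) ψ = Phi π (St y') (ex y') ψ' ↔ ∃ k, y = act k y' ∧ ψ = cf k ψ' := by
  classical
  haveI := Fintype.ofFinite S
  obtain ⟨d, hd⟩ := H.irr y hy
  obtain ⟨d', hd'⟩ := H.irr y' hy'
  have i1 := H.irr_phi hy hψ hd.one
  have i2 := H.irr_phi hy' hψ' hd'.one
  have h1 := i1.ip_eq i2
  rw [H.ip_eq hy hy' hψ hψ'] at h1
  constructor
  · intro e
    by_contra hcon
    rw [if_pos e, Finset.sum_eq_zero fun g _ => if_neg fun h => hcon ⟨_, h⟩, mul_zero] at h1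
    exact zero_ne_one h1
  · rintro ⟨k, hk⟩
    obtain ⟨g, rfl⟩ := H.surj k
    by_contra hcon
    rw [if_neg hcon, mul_eq_zero, inv_eq_zero, Finset.sum_boole, Nat.cast_eq_zero,
      Nat.cast_eq_zero, Finset.card_eq_zero] at h1
    rcases h1 with h | h
    · exact Nat.card_pos.ne' h
    · exact Finset.ne_empty_of_mem (Finset.mem_filter.2 ⟨Finset.mem_univ g, hk⟩) h

lemma Ext.exists_phi [Finite S] (H : Ext π YS St act ex) {χ : W → K} (hχ : χ ∈ Irr W) :
    ∃ y ∈ YS, ∃ n ψ, IZ (St y) n ψ ∧ χ = Phi π (St y) (ex y) ψ := by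
  classical
  haveI := Fintype.ofFinite S
  haveI := Fintype.ofFinite π.ker
  obtain ⟨N, hN⟩ := hχ
  have hc := irr_ch hN
  have h0 : ∃ θ ∈ Irr π.ker, ip (χ ∘ π.ker.subtype) θ ≠ 0 := by
    by_contra hcon
    push Not at hcon
    have h1 := congrFun ((hch.a _).compl _ (ch_cl (ch_comp π.ker.subtype hc)) hcon) 1
    simp only [Function.comp, map_one, hN.one, Pi.zero_apply, Nat.cast_eq_zero] at h1
    exact hN.pos.ne' h1
  obtain ⟨θ, hθ, h1⟩ := h0
  obtain ⟨y, hy, rfl⟩ := H.all θ hθ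
  haveI := Fintype.ofFinite (St y)
  have h2 := push_ch π H.surj (St y) (fun w => ex y w * χ w⁻¹)
    (ch_mul (H.ch y hy) (ch_inv (ch_comp ((St y).comap π).subtype hc)))
  have h3 : ∃ ψ ∈ Irr (St y), ip (fun k : St y =>
      (Nat.card π.ker : K)⁻¹ * fs π (fun w => ex y w * χ w⁻¹) k) ψ ≠ 0 := by
    by_contra hcon
    push Not at hcon
    have h4 := congrFun ((hch.a _).compl _ (ch_cl h2) hcon) 1
    apply h1
    rw [OneMemClass.coe_one, fs_one] at h4
    rw [(hch.a _).symm, ip]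
    exact h4
  obtain ⟨ψ, ⟨n, hn⟩, h4⟩ := h3
  have hz := ez_iz ((hch.b _).invI n ψ hn)
  refine ⟨y, hy, n, _, hz, ?_⟩
  obtain ⟨d, hd⟩ := H.irr y hy
  have h5 := (H.irr_phi hy hz hd.one).ip_eq hN
  by_contra hcon
  rw [if_neg fun e => hcon e.symm, ip_Phi _ _ _ hz.1 _ (ch_cl hc), mul_eq_zero, inv_eq_zero,
    sum_fs π (fun w => ex y w * χ w⁻¹), sum_sub (St y) _ fun k hk => by
      rw [hz.1 k hk, mul_zero]] at h5
  apply h4
  simp only [ip, mul_assoc, ← Finset.mul_sum]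
  rw [mul_eq_zero, mul_eq_zero]
  refine Or.inr (Or.inr ?_)
  rw [← h5.resolve_left (card_ne _)]
  exact Finset.sum_congr rfl fun k _ => by rw [congrFun (ez_res _ _) k]

end Pool.Agent.Lib.MP_1ae3da_al.Wr
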