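import Pool.Agent.Lib.MP_1ae3da_al.W2

/-! Characters of direct products and the canonical extension map of a wreath product. -/

namespace Pool.Agent.Lib.MP_1ae3da_al.Wr

open GM

section prod
variable {ι : Type} [Fintype ι] [DecidableEq ι] {G : ι → Type} [∀ i, Group (G i)]

lemma prod_ip [∀ i, Fintype (G i)] (a b : ∀ i, G i → K) :
    ip (fun g : ∀ i, G i => ∏ i, a i (g i)) (fun g => ∏ i, b i (g i)) = ∏ i, ip (a i) (b i) := by
  simp only [ip]
  rw [Finset.prod_mul_distrib, Finset.prod_univ_sum, Fintype.piFinset_univ, Nat.card_pi,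
    Nat.cast_prod, Finset.prod_inv_distrib]
  congr 1
  exact Finset.sum_congr rfl fun g _ => by rw [Finset.prod_mul_distrib]; rfl

lemma prod_ch [∀ i, Finite (G i)] (a : ∀ i, G i → K) (h : ∀ i, a i ∈ Ch (G i)) :
    (fun g : ∀ i, G i => ∏ i, a i (g i)) ∈ Ch (∀ i, G i) := by
  have h1 : (fun g : ∀ i, G i => ∏ i, a i (g i)) = ∏ i, a i ∘ Pi.evalMonoidHom G i := by
    funext g; simp [Finset.prod_apply]
  rw [h1]
  exact Finset.prod_induction _ (fun f => f ∈ Ch (∀ i, G i)) (fun _ _ => ch_mul)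
    (irr_ch irr_one) fun i _ => ch_comp _ (h i)

lemma prod_irr [∀ i, Finite (G i)] (n : ι → ℕ) (χ : ∀ i, G i → K) (h : ∀ i, IsIrr (n i) (χ i)) :
    IsIrr (∏ i, n i) fun g : ∀ i, G i => ∏ i, χ i (g i) := by
  haveI := fun i => Fintype.ofFinite (G i)
  obtain ⟨N, hN⟩ := (hch.a _).ch_one _ (prod_ch χ fun i => irr_ch (h i)) (by
    rw [prod_ip]
    exact Finset.prod_eq_one fun i _ => (hch.a _).orth1 _ ⟨_, h i⟩)
  have : N = ∏ i, n i := deg_eq hN (by simp [(h _).one])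
  exact this ▸ hN

lemma prod_inj [∀ i, Finite (G i)] (χ χ' : ∀ i, G i → K) (h : ∀ i, χ i ∈ Irr (G i))
    (h' : ∀ i, χ' i ∈ Irr (G i))
    (e : (fun g : ∀ i, G i => ∏ i, χ i (g i)) = fun g => ∏ i, χ' i (g i)) : χ = χ' := by
  haveI := fun i => Fintype.ofFinite (G i)
  funext i
  by_contra hne
  have h1 := prod_ip χ χ'
  rw [← e, prod_ip, Finset.prod_eq_one fun i _ => (hch.a _).orth1 _ (h i),
    Finset.prod_eq_zero (Finset.mem_univ i) ((hch.a _).orth0 _ (h i) _ (h' i) hne)] at h1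
  exact one_ne_zero h1

lemma prod_all [∀ i, Finite (G i)] {Ψ : (∀ i, G i) → K} (hΨ : Ψ ∈ Irr (∀ i, G i)) :
    ∃ χ : ∀ i, G i → K, (∀ i, χ i ∈ Irr (G i)) ∧ Ψ = fun g => ∏ i, χ i (g i) := by
  classical
  haveI := fun i => Fintype.ofFinite (G i)
  by_contra hcon
  let s : ∀ i, Finset (G i → K) := fun i => (hch.a (G i)).fin.toFinset
  let u : ∀ i, G i → K := fun i x => if x = 1 then 1 else 0
  have hu : ∀ i, u i = ∑ χ ∈ s i, ip (u i) χ • χ := fun i =>
    (hch.a (G i)).expand _ (fun g h => by simp [u, mul_inv_eq_one, mul_eq_left]) _ (by simp [s])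
  have h1 : (fun g : ∀ i, G i => ∏ i, u i (g i)) = ∑ χ ∈ Fintype.piFinset s,
      (∏ i, ip (u i) (χ i)) • fun g : ∀ i, G i => ∏ i, χ i (g i) := by
    funext g
    rw [Finset.prod_congr rfl fun i _ => congrFun (hu i) (g i)]
    simp only [Finset.sum_apply, Pi.smul_apply, smul_eq_mul]
    rw [Finset.prod_univ_sum]
    exact Finset.sum_congr rfl fun χ _ => Finset.prod_mul_distrib
  have h2 : ip (fun g : ∀ i, G i => ∏ i, u i (g i)) Ψ = 0 := by
    rw [h1, ip_sum_left]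
    refine Finset.sum_eq_zero fun χ hχ => ?_
    have h3 : ∀ i, χ i ∈ Irr (G i) := fun i => by simpa [s] using Fintype.mem_piFinset.1 hχ i
    choose n hn using h3
    rw [ip_smul_left, (hch.a _).orth0 _ ⟨_, prod_irr n χ hn⟩ _ hΨ fun e =>
      hcon ⟨χ, fun i => ⟨_, hn i⟩, e.symm⟩, mul_zero]
  obtain ⟨N, hN⟩ := hΨ
  rw [ip, Finset.sum_eq_single 1] at h2
  · have h3 := (mul_eq_zero.1 h2).resolve_left (inv_ne_zero (card_ne _))
    simp [u, hN.one, hN.pos.ne'] at h3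
  · intro g _ hg
    obtain ⟨i, hi⟩ := Function.ne_iff.1 hg
    rw [Finset.prod_eq_zero (Finset.mem_univ i) (if_neg hi), zero_mul]
  · simp

end prod

section tensor
variable {S Ω I : Type} [Group S] [MulAction S Ω] [Fintype Ω] [DecidableEq Ω] [Fintype I]

/-- a tensor product of matrices followed by a permutation of the factors. -/
noncomputable def TM (A : Ω → Matrix I I K) (k : S) : Matrix (Ω → I) (Ω → I) K :=
  fun i j => ∏ ω, A ω (i ω) (j (k⁻¹ • ω))

lemma TM_mul (A B : Ω → Matrix I I K) (k l : S) :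
    TM A k * TM B l = TM (fun ω => A ω * B (k⁻¹ • ω)) (k * l) := by
  ext i j
  simp only [Matrix.mul_apply, TM]
  rw [Finset.prod_univ_sum, Fintype.piFinset_univ]
  refine Fintype.sum_equiv (Equiv.arrowCongr (MulAction.toPerm k) (Equiv.refl I)) _ _ fun t => ?_
  rw [Finset.prod_mul_distrib]
  congr 1
  refine Fintype.prod_equiv (MulAction.toPerm k) _ _ fun ω => ?_
  simp [mul_smul]

lemma TM_cyc (U B : Ω → Matrix I I K) (k : S) :
    (TM (fun ω => U ω * B ω) k).trace = (TM (fun ω => B ω * U (k⁻¹ • ω)) k).trace := by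
  have h1 := TM_mul U B (1 : S) k
  have h2 := TM_mul B U k (1 : S)
  simp only [inv_one, one_smul, one_mul, mul_one] at h1 h2
  rw [← h1, ← h2, Matrix.trace_mul_comm]

lemma TM_one (A : Ω → Matrix I I K) : (TM A (1 : S)).trace = ∏ ω, (A ω).trace := by
  simp only [Matrix.trace, Matrix.diag, TM, inv_one, one_smul]
  rw [Finset.prod_univ_sum, Fintype.piFinset_univ]

lemma TM_conj (A : Ω → Matrix I I K) (k l : S) :
    (TM (fun ω => A (k⁻¹ • ω)) (k * l * k⁻¹)).trace = (TM A l).trace := by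
  simp only [Matrix.trace, Matrix.diag, TM]
  symm
  refine Fintype.sum_equiv (Equiv.arrowCongr (MulAction.toPerm k) (Equiv.refl I)) _ _ fun t => ?_
  refine Fintype.prod_equiv (MulAction.toPerm k) _ _ fun ω => ?_
  simp [mul_smul]

lemma TM_gal (A : Ω → Matrix I I K) (k : S) (σ : Ga) :
    (TM (fun ω => (A ω).map σ) k).trace = σ (TM A k).trace := by
  simp [Matrix.trace, Matrix.diag, TM, map_sum, map_prod]

end tensor

section pad
variable {G I : Type} [Group G] [Fintype I]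

/-- `ρ` is a representation with character `χ`, padded to the size `I`. -/
def PR (ρ : G → Matrix I I K) (χ : G → K) : Prop :=
  ∃ (n : ℕ) (ρ0 : G →* Matrix (Fin n) (Fin n) K) (A : Matrix I (Fin n) K) (B : Matrix (Fin n) I K),
    B * A = 1 ∧ (∀ g, ρ g = A * ρ0 g * B) ∧ ∀ g, (ρ0 g).trace = χ g

lemma PR.mul {ρ : G → Matrix I I K} {χ : G → K} (h : PR ρ χ) (x y : G) :
    ρ (x * y) = ρ x * ρ y := by
  obtain ⟨n, ρ0, A, B, h1, h2, -⟩ := h
  rw [h2, h2, h2, map_mul, Matrix.mul_assoc (A * ρ0 x), ← Matrix.mul_assoc B, ← Matrix.mul_assoc B,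
    h1, Matrix.one_mul, ← Matrix.mul_assoc, ← Matrix.mul_assoc]

lemma PR.trace {ρ : G → Matrix I I K} {χ : G → K} (h : PR ρ χ) (x : G) : (ρ x).trace = χ x := by
  obtain ⟨n, ρ0, A, B, h1, h2, h3⟩ := h
  rw [h2, Matrix.trace_mul_comm, ← Matrix.mul_assoc, h1, Matrix.one_mul, h3]

lemma PR.gal {ρ : G → Matrix I I K} {χ : G → K} (h : PR ρ χ) (σ : Ga) :
    PR (fun g => (ρ g).map σ) (σ ∘ χ) := by
  obtain ⟨n, ρ0, A, B, h1, h2, h3⟩ := h
  refine ⟨n, (σ.toRingHom.mapMatrix.toMonoidHom).comp ρ0, A.map σ, B.map σ, ?_, fun g => ?_,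
    fun g => ?_⟩
  · rw [← Matrix.map_mul, h1, Matrix.map_one _ (map_zero σ) (map_one σ)]
  · change (ρ g).map σ = _
    rw [h2, Matrix.map_mul, Matrix.map_mul]; rfl
  · rw [Function.comp, ← h3]
    simp [Matrix.trace, map_sum]

lemma PR.sim [Finite G] {ρ ρ' : G → Matrix I I K} {χ : G → K} (hχ : χ ∈ Irr G) (h : PR ρ χ)
    (h' : PR ρ' χ) : ∃ U V : Matrix I I K, ∀ g, ρ' g = U * (ρ g * V) ∧ ρ g * V * U = ρ g := by
  haveI := Fintype.ofFinite G
  obtain ⟨n, ρ0, A, B, h1, h2, h3⟩ := h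
  obtain ⟨n', ρ0', A', B', h1', h2', h3'⟩ := h'
  have hn : n' = n := by
    have e1 := h3 1
    have e2 := h3' 1
    rw [map_one, Matrix.trace_one, Fintype.card_fin] at e1 e2
    exact Nat.cast_injective (e2.trans e1.symm)
  subst hn
  obtain ⟨U, hU⟩ := (hch.b G).sim _ ρ0 ρ0' (by rw [funext h3]; exact hχ)
    fun x => (h3' x).trans (h3 x).symm
  have k1 : ∀ {J : Type} (X : Matrix (Fin n') J K), B * (A * X) = X := fun X => by
    rw [← Matrix.mul_assoc, h1, Matrix.one_mul]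
  have k2 : ∀ {J : Type} (X : Matrix (Fin n') J K), B' * (A' * X) = X := fun X => by
    rw [← Matrix.mul_assoc, h1', Matrix.one_mul]
  have k3 : ∀ {J : Type} (X : Matrix (Fin n') J K), U.inv * (U.val * X) = X := fun X => by
    rw [← Matrix.mul_assoc, U.inv_val, Matrix.one_mul]
  refine ⟨A' * U.val * B, A * U.inv * B', fun g => ⟨?_, ?_⟩⟩
  · simp only [h2, h2', hU, Matrix.mul_assoc, k1]
  · simp only [h2, Matrix.mul_assoc, k1, k2, k3]

lemma exists_PR (G : Type) [Group G] [Finite G] :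
    ∃ ρ : (G → K) → G → Matrix (Fin (Nat.card G)) (Fin (Nat.card G)) K,
      ∀ χ ∈ Irr G, PR (ρ χ) χ := by
  haveI := Fintype.ofFinite G
  have : ∀ χ : G → K, ∃ ρ : G → Matrix (Fin (Nat.card G)) (Fin (Nat.card G)) K,
      χ ∈ Irr G → PR ρ χ := by
    intro χ
    by_cases h : χ ∈ Irr G
    · obtain ⟨n, hn⟩ := h
      obtain ⟨ρ0, h0⟩ := (hch.b G).real n χ hn
      have hle : n ≤ Nat.card G := Nat.le_of_dvd Nat.card_pos ((hch.b G).deg n χ hn)
      refine ⟨_, fun _ => ⟨n, ρ0, fun i j => if i = Fin.castLE hle j then 1 else 0,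
        fun j i => if i = Fin.castLE hle j then 1 else 0, ?_, fun g => rfl, h0⟩⟩
      ext i j
      simp [Matrix.mul_apply, Matrix.one_apply, eq_comm]
    · exact ⟨0, fun h' => absurd h' h⟩
  choose ρ hρ using this
  exact ⟨ρ, hρ⟩

end pad

end Pool.Agent.Lib.MP_1ae3da_al.Wr
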