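import Pool.Agent.Lib.MP_1ae3da_al.W3

/-! The irreducible characters of a wreath product. -/

namespace Pool.Agent.Lib.MP_1ae3da_al.Wr

open GM

/-- the wreath product of `G` with a group `S` acting on `Ω`. -/
abbrev WrP (G S Ω : Type) [Group G] [Group S] [MulAction S Ω] : Type :=
  (Ω → G) ⋊[mulAutArrow] S

section col
variable {S Ω X X' : Type} [Group S] [MulAction S Ω]

variable (S) in
/-- the stabiliser of a colouring. -/
def Stb (c : Ω → X) : Subgroup S where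
  carrier := {k | ∀ ω, c (k • ω) = c ω}
  one_mem' := fun ω => by rw [one_smul]
  mul_mem' := fun {a b} ha hb ω => by rw [mul_smul, ha, hb]
  inv_mem' := fun {a} ha ω => by rw [← ha (a⁻¹ • ω), smul_inv_smul]

lemma mem_Stb {c : Ω → X} {k : S} : k ∈ Stb S c ↔ ∀ ω, c (k • ω) = c ω := Iff.rfl

/-- the action on colourings. -/
def ac (k : S) (c : Ω → X) : Ω → X := fun ω => c (k⁻¹ • ω)

lemma Stb_iff (c : Ω → X) (k : S) : k ∈ Stb S c ↔ ac k c = c := by
  rw [← inv_mem_iff, mem_Stb, funext_iff]; rfl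

lemma Stb_ac (c : Ω → X) (g k : S) : k ∈ Stb S (ac g c) ↔ g⁻¹ * k * g ∈ Stb S c := by
  simp only [mem_Stb, ac, mul_smul]
  exact ⟨fun h ω => by rw [h, inv_smul_smul], fun h ω => by
    have := h (g⁻¹ • ω); rwa [smul_inv_smul] at this⟩

lemma Stb_congr {c : Ω → X} {c' : Ω → X'} (h : ∀ ω ω', c ω = c ω' ↔ c' ω = c' ω') :
    Stb S c = Stb S c' := by
  ext k; simp only [mem_Stb, h]

lemma ac_mul (k l : S) (c : Ω → X) : ac (k * l) c = ac k (ac l c) := by
  funext ω; simp [ac, mul_smul]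

lemma Stb_gal {G : Type} (c : Ω → G → K) (σ : Ga) : Stb S (fun ω => σ ∘ c ω) = Stb S c :=
  Stb_congr fun _ _ => ⟨fun h => funext fun g => σ.injective (congrFun h g), fun h => by rw [h]⟩

end col

variable {G S Ω : Type} [Group G] [Group S] [MulAction S Ω]

lemma wr_left (a b : WrP G S Ω) (ω : Ω) :
    (a * b).left ω = a.left ω * b.left (a.right⁻¹ • ω) := rfl

lemma wr_inv_left (a : WrP G S Ω) (ω : Ω) : a⁻¹.left ω = (a.left (a.right • ω))⁻¹ := by
  rw [SemidirectProduct.inv_left]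
  change (a.left (a.right⁻¹⁻¹ • ω))⁻¹ = _
  rw [inv_inv]

instance [Finite G] [Finite S] [Finite Ω] : Finite (WrP G S Ω) :=
  Finite.of_equiv _ SemidirectProduct.equivProd.symm

/-- the base group as the kernel of the projection. -/
def kerL : (SemidirectProduct.rightHom : WrP G S Ω →* S).ker →* (Ω → G) where
  toFun m := m.1.left
  map_one' := rfl
  map_mul' a b := by
    funext ω
    have : a.1.right = 1 := a.2
    rw [Subgroup.coe_mul, wr_left, this, inv_one, one_smul]; rfl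

/-- the inverse map. -/
def kerR : (Ω → G) →* (SemidirectProduct.rightHom : WrP G S Ω →* S).ker :=
  SemidirectProduct.inl.codRestrict _ fun _ => rfl

lemma kerL_surj : Function.Surjective (kerL (G := G) (S := S) (Ω := Ω)) := fun m => ⟨kerR m, rfl⟩

lemma kerR_L (m : (SemidirectProduct.rightHom : WrP G S Ω →* S).ker) : kerR (kerL m) = m :=
  Subtype.ext (SemidirectProduct.ext rfl (Eq.symm m.2))

section ext
variable [Fintype Ω] [DecidableEq Ω] {I : Type} [Fintype I]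

/-- the canonical extension. -/
noncomputable def wex (ρ : (G → K) → G → Matrix I I K) (c : Ω → G → K) (w : WrP G S Ω) : K :=
  (TM (fun ω => ρ (c ω) (w.left ω)) w.right).trace

variable {ρ : (G → K) → G → Matrix I I K} (hρ : ∀ χ ∈ Irr G, PR (ρ χ) χ)
include hρ

lemma wex_ker {c : Ω → G → K} (hc : ∀ ω, c ω ∈ Irr G) :
    (fun m : (SemidirectProduct.rightHom : WrP G S Ω →* S).ker => wex ρ c m.1) =
      (fun g : Ω → G => ∏ ω, c ω (g ω)) ∘ kerL := by
  funext m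
  have : m.1.right = 1 := m.2
  rw [wex, this, TM_one]
  exact Finset.prod_congr rfl fun ω _ => (hρ _ (hc ω)).trace _

lemma wex_ch [Finite G] [Finite S] {c : Ω → G → K} (hc : ∀ ω, c ω ∈ Irr G) :
    (fun w : (Stb S c).comap (SemidirectProduct.rightHom : WrP G S Ω →* S) => wex ρ c w.1) ∈
      Ch ((Stb S c).comap (SemidirectProduct.rightHom : WrP G S Ω →* S)) := by
  classical
  haveI := Fintype.ofFinite ((Stb S c).comap (SemidirectProduct.rightHom : WrP G S Ω →* S))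
  refine (hch.b ((Stb S c).comap (SemidirectProduct.rightHom : WrP G S Ω →* S))).mat (Ω → I)
    (fun w => TM (fun ω => ρ (c ω) (w.1.left ω)) w.1.right) fun x y => ?_
  rw [TM_mul]
  congr 1
  funext ω
  have : c (x.1.right⁻¹ • ω) = c ω := inv_mem (s := Stb S c) x.2 ω
  rw [this, ← (hρ _ (hc ω)).mul]; rfl

lemma wex_gal [Finite G] {c : Ω → G → K} (hc : ∀ ω, c ω ∈ Irr G) (σ : Ga) (w : WrP G S Ω)
    (hw : w.right ∈ Stb S c) : wex ρ (fun ω => σ ∘ c ω) w = σ (wex ρ c w) := by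
  have h : ∀ χ : G → K, ∃ U V : Matrix I I K, χ ∈ Irr G → ∀ g,
      ρ (σ ∘ χ) g = U * ((ρ χ g).map σ * V) ∧ (ρ χ g).map σ * V * U = (ρ χ g).map σ := by
    intro χ
    by_cases h : χ ∈ Irr G
    · obtain ⟨n, hn⟩ := h
      obtain ⟨U, V, h1⟩ := PR.sim ⟨n, irr_gal hn σ⟩ ((hρ χ ⟨n, hn⟩).gal σ)
        (hρ _ ⟨n, irr_gal hn σ⟩)
      exact ⟨U, V, fun _ => h1⟩
    · exact ⟨0, 0, fun h' => absurd h' h⟩
  choose U V h using h
  rw [wex, wex, ← TM_gal, funext fun ω => (h _ (hc ω) (w.left ω)).1, TM_cyc]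
  congr 2
  funext ω
  rw [inv_mem (s := Stb S c) hw ω, (h _ (hc ω) _).2]

lemma wex_ext [Finite G] [Finite S] :
    Ext (SemidirectProduct.rightHom : WrP G S Ω →* S) {c : Ω → G → K | ∀ ω, c ω ∈ Irr G} (Stb S)
      ac (wex ρ) where
  surj := SemidirectProduct.rightHom_surjective
  mem _ _ hy _ := hy _
  st := Stb_iff
  stc := Stb_ac
  ch _ hy := wex_ch hρ hy
  irr y hy := by
    choose n hn using hy
    rw [wex_ker hρ fun ω => ⟨_, hn ω⟩]
    exact ⟨_, irr_comp kerL kerL_surj (prod_irr n y hn)⟩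
  inj y hy y' hy' e := by
    rw [wex_ker hρ hy, wex_ker hρ hy'] at e
    exact prod_inj y y' hy hy' (kerL_surj.injective_comp_right e)
  all θ hθ := by
    obtain ⟨n, hn⟩ := hθ
    obtain ⟨y, hy, e⟩ := prod_all (G := fun _ : Ω => G)
      ⟨n, irr_comp kerR (fun m => ⟨_, kerR_L m⟩) hn⟩
    refine ⟨y, hy, ?_⟩
    rw [wex_ker hρ hy, ← e]
    funext m
    simp [kerR_L]
  eqv g y hy w hw := by
    have h1 : wex ρ (ac g.right y) (SemidirectProduct.inr g.right * w *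
        (SemidirectProduct.inr g.right)⁻¹) = wex ρ y w := by
      rw [wex, wex, ← TM_conj (fun ω => ρ (y ω) (w.left ω)) g.right w.right]
      congr 2
      funext ω
      simp [ac, wr_left, wr_inv_left]
    have hm : SemidirectProduct.inr g.right * w * (SemidirectProduct.inr g.right)⁻¹ ∈
        (Stb S (ac g.right y)).comap (SemidirectProduct.rightHom : WrP G S Ω →* S) := by
      rw [Subgroup.mem_comap, Stb_ac]
      simpa [mul_assoc] using hw
    have h2 := ch_cl (wex_ch hρ (c := ac g.right y) fun ω => hy _) ⟨_, hm⟩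
      ⟨SemidirectProduct.inl g.left, by rw [Subgroup.mem_comap]; exact one_mem _⟩
    rw [← h1]
    refine Eq.trans ?_ h2
    change wex ρ (ac g.right y) _ = wex ρ _ (_ * (_ * w * _) * _)
    congr 1
    conv_lhs => rw [← SemidirectProduct.inl_left_mul_inr_right g]
    simp only [mul_assoc, mul_inv_rev]
    rfl

end ext

/-- the parametrisation of the characters of degree prime to `p`. -/
structure Par (p : ℕ) (S : Type) [Group S] [MulAction S Ω] {W : Type} [Group W]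
    (Φ : (Ω → G → K) → (S → K) → W → K) : Prop where
  mem : ∀ c ψ, (∀ ω, c ω ∈ IrrP G p) → ¬ p ∣ (Stb S c).index → ψ ∈ IZp p (Stb S c) →
    Φ c ψ ∈ IrrP W p
  all : ∀ χ ∈ IrrP W p, ∃ c ψ, (∀ ω, c ω ∈ IrrP G p) ∧ ¬ p ∣ (Stb S c).index ∧
    ψ ∈ IZp p (Stb S c) ∧ χ = Φ c ψ
  eq : ∀ c c' ψ ψ', (∀ ω, c ω ∈ IrrP G p) → (∀ ω, c' ω ∈ IrrP G p) → ψ ∈ IZp p (Stb S c) →
    ψ' ∈ IZp p (Stb S c') → (Φ c ψ = Φ c' ψ' ↔ ∃ k, c = ac k c' ∧ ψ = cf k ψ')
  gal : ∀ (σ : Ga) c ψ, (∀ ω, c ω ∈ IrrP G p) → ψ ∈ IZp p (Stb S c) →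
    Φ (fun ω => σ ∘ c ω) (σ ∘ ψ) = σ ∘ Φ c ψ

lemma irrP_irr {p : ℕ} {χ : G → K} (h : χ ∈ IrrP G p) : χ ∈ Irr G := h.imp fun _ h => h.1

theorem exists_par (p : ℕ) (hp : p.Prime) [Finite G] [Finite S] [Finite Ω] :
    ∃ Φ : (Ω → G → K) → (S → K) → WrP G S Ω → K, Par p S Φ := by
  classical
  haveI := Fintype.ofFinite Ω
  haveI := Fintype.ofFinite (WrP G S Ω)
  obtain ⟨ρ, hρ⟩ := exists_PR G
  have H := wex_ext (S := S) (Ω := Ω) hρ
  have hd : ∀ (c : Ω → G → K) (d : Ω → ℕ), (∀ ω, IsIrr (d ω) (c ω)) →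
      wex ρ c (1 : WrP G S Ω) = (∏ ω, d ω : ℕ) := by
    intro c d h
    rw [show wex ρ c (1 : WrP G S Ω) = _ from congrFun (wex_ker hρ fun ω => ⟨_, h ω⟩) 1]
    simp [(h _).one]
  refine ⟨fun c ψ => Phi SemidirectProduct.rightHom (Stb S c) (wex ρ c) ψ, ?_, ?_, ?_, ?_⟩
  · rintro c ψ hc hi ⟨n, h1, h2⟩
    choose d hd1 hd2 using hc
    refine ⟨_, H.irr_phi (fun ω => ⟨_, hd1 ω⟩) h1 (hd c d hd1), ?_⟩
    rw [hp.dvd_mul, hp.dvd_mul, hp.prime.dvd_finsetProd_iff]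
    rintro ((h | ⟨ω, -, h⟩) | h)
    · exact hi h
    · exact hd2 ω h
    · exact h2 h
  · rintro χ ⟨N, h1, h2⟩
    obtain ⟨c, hc, n, ψ, h3, rfl⟩ := H.exists_phi ⟨N, h1⟩
    choose d hd1 using id hc
    have h4 : N = (Stb S c).index * (∏ ω, d ω) * n := deg_eq h1 (H.irr_phi hc h3 (hd c d hd1)).one
    rw [h4] at h2
    exact ⟨c, ψ, fun ω => ⟨_, hd1 ω, fun h => h2 (((h.trans
      (Finset.dvd_prod_of_mem d (Finset.mem_univ ω))).mul_left _).mul_right _)⟩,
      fun h => h2 ((h.mul_right _).mul_right _), ⟨n, h3, fun h => h2 (h.mul_left _)⟩, rfl⟩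
  · rintro c c' ψ ψ' hc hc' ⟨n, h1, -⟩ ⟨n', h2, -⟩
    exact H.eq_iff (fun ω => irrP_irr (hc ω)) (fun ω => irrP_irr (hc' ω)) h1 h2
  · rintro σ c ψ hc ⟨n, h1, -⟩
    rw [Stb_gal]
    exact Phi_gal _ _ _ _ σ h1.1 fun w hw => wex_gal hρ (fun ω => irrP_irr (hc ω)) σ w hw

end Pool.Agent.Lib.MP_1ae3da_al.Wr
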