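import Pool.Agent.Lib.MP_1ae3da_al.W4

/-! Descent of bijections, equivariant families, and Sylow subgroups. -/

namespace Pool.Agent.Lib.MP_1ae3da_al.Wr

open GM Set

lemma descend {U U' X X' : Type} [Nonempty X'] {A : Set U} {B : Set U'} {e : U → U'}
    (he : BijOn e A B) {Φ : U → X} {Φ' : U' → X'} {C : Set X} {C' : Set X'}
    (h2 : SurjOn Φ A C) (h1' : MapsTo Φ' B C') (h2' : SurjOn Φ' B C') (h1 : MapsTo Φ A C)
    (hk : ∀ a ∈ A, ∀ a' ∈ A, Φ a = Φ a' ↔ Φ' (e a) = Φ' (e a')) :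
    ∃ f : X → X', BijOn f C C' ∧ ∀ a ∈ A, f (Φ a) = Φ' (e a) := by
  classical
  let f : X → X' := fun x => if h : ∃ a ∈ A, Φ a = x then Φ' (e h.choose) else Classical.ofNonempty
  have hf : ∀ a ∈ A, f (Φ a) = Φ' (e a) := by
    intro a ha
    have h : ∃ a' ∈ A, Φ a' = Φ a := ⟨a, ha, rfl⟩
    simp only [f, dif_pos h]
    exact (hk _ h.choose_spec.1 a ha).1 h.choose_spec.2
  refine ⟨f, ⟨fun x hx => ?_, fun x hx y hy h => ?_, fun x hx => ?_⟩, hf⟩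
  · obtain ⟨a, ha, rfl⟩ := h2 hx
    rw [hf a ha]; exact h1' (he.1 ha)
  · obtain ⟨a, ha, rfl⟩ := h2 hx
    obtain ⟨b, hb, rfl⟩ := h2 hy
    rw [hf a ha, hf b hb] at h
    exact (hk a ha b hb).2 h
  · obtain ⟨b, hb, rfl⟩ := h2' hx
    obtain ⟨a, ha, rfl⟩ := he.2.2 hb
    exact ⟨Φ a, h1 ha, hf a ha⟩

/-- an action given by a function. -/
structure Act {S Z : Type} [Group S] (a : S → Z → Z) : Prop where
  one : ∀ z, a 1 z = z
  mul : ∀ g h z, a (g * h) z = a g (a h z)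

lemma Act.inv {S Z : Type} [Group S] {a : S → Z → Z} (h : Act a) (g : S) (z : Z) :
    a g⁻¹ (a g z) = z := by rw [← h.mul, inv_mul_cancel, h.one]

lemma Act.inv' {S Z : Type} [Group S] {a : S → Z → Z} (h : Act a) (g : S) (z : Z) :
    a g (a g⁻¹ z) = z := by rw [← h.mul, mul_inv_cancel, h.one]

lemma bundle {S Z V : Type} [Group S] (N : Subgroup S) {a : S → Z → Z} {b : S → V → V}
    (ha : Act a) (hb : Act b) (ZS : Set Z) (SA SB : Z → Set V) (T : Set (V → V)) (ty : V → Prop)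
    (hZ : ∀ g ∈ N, ∀ z ∈ ZS, a g z ∈ ZS)
    (hA : ∀ g ∈ N, ∀ z, ∀ v ∈ SA z, b g v ∈ SA (a g z))
    (hB : ∀ g ∈ N, ∀ z, ∀ v ∈ SB z, b g v ∈ SB (a g z))
    (hT : ∀ t ∈ T, ∀ g v, b g (t v) = t (b g v)) (hty : ∀ g v, ty (b g v) ↔ ty v)
    (h : ∀ z ∈ ZS, ∃ e : V → V, BijOn e (SA z) (SB z) ∧ ∀ v ∈ SA z,
      (∀ t ∈ T, e (t v) = t (e v)) ∧ (ty (e v) ↔ ty v) ∧
      ∀ g ∈ N, a g z = z → e (b g v) = b g (e v)) :
    ∃ E : Z → V → V, ∀ z ∈ ZS, BijOn (E z) (SA z) (SB z) ∧ ∀ v ∈ SA z,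
      (∀ t ∈ T, E z (t v) = t (E z v)) ∧ (ty (E z v) ↔ ty v) ∧
      ∀ g ∈ N, E (a g z) (b g v) = b g (E z v) := by
  classical
  haveI : Nonempty (V → V) := ⟨id⟩
  choose! e he using h
  let s : Setoid Z := ⟨fun z z' => ∃ g ∈ N, a g z = z',
    fun z => ⟨1, one_mem _, ha.one z⟩,
    fun ⟨g, hg, h⟩ => ⟨g⁻¹, inv_mem hg, by rw [← h, ha.inv]⟩,
    fun ⟨g, hg, h⟩ ⟨g', hg', h'⟩ => ⟨g' * g, mul_mem hg' hg, by rw [ha.mul, h, h']⟩⟩
  let r : Z → Z := fun z => (Quotient.mk s z).out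
  have hr : ∀ z, ∃ g ∈ N, a g (r z) = z := fun z => Quotient.mk_out (s := s) z
  choose γ hγ hγ' using hr
  have hr2 : ∀ g ∈ N, ∀ z, r (a g z) = r z := fun g hg z => by
    have : Quotient.mk s z = Quotient.mk s (a g z) := Quotient.sound ⟨g, hg, rfl⟩
    simp only [r, this]
  have hr3 : ∀ z, a (γ z)⁻¹ z = r z := fun z => by
    conv_lhs => rw [← hγ' z]
    rw [← ha.mul, hγ', inv_mul_cancel, ha.one]
  refine ⟨fun z v => b (γ z) (e (r z) (b (γ z)⁻¹ v)), fun z hz => ?_⟩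
  have hrz : r z ∈ ZS := hr3 z ▸ hZ _ (inv_mem (hγ z)) z hz
  obtain ⟨h1, h2⟩ := he (r z) hrz
  have k1 : ∀ v ∈ SA z, b (γ z)⁻¹ v ∈ SA (r z) := fun v hv => hr3 z ▸ hA _ (inv_mem (hγ z)) z v hv
  refine ⟨⟨fun v hv => ?_, fun v hv w hw h => ?_, fun w hw => ?_⟩, fun v hv => ⟨fun t ht => ?_, ?_,
    fun g hg => ?_⟩⟩
  · have := hB _ (hγ z) _ _ (h1.1 (k1 v hv))
    rwa [hγ'] at this
  · have h3 := congrArg (b (γ z)⁻¹) h
    simp only [hb.inv] at h3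
    have h4 := congrArg (b (γ z)) (h1.2.1 (k1 v hv) (k1 w hw) h3)
    rwa [hb.inv', hb.inv'] at h4
  · obtain ⟨u, hu, h3⟩ := h1.2.2 (hr3 z ▸ hB _ (inv_mem (hγ z)) z w hw)
    refine ⟨b (γ z) u, ?_, ?_⟩
    · have := hA _ (hγ z) _ _ hu
      rwa [hγ'] at this
    · simp only [hb.inv, h3, hb.inv']
  · simp only
    rw [hT t ht, (h2 _ (k1 v hv)).1 t ht, hT t ht]
  · simp only
    rw [hty, (h2 _ (k1 v hv)).2.1, hty]
  · simp only
    have h3 := (h2 _ (k1 v hv)).2.2 ((γ (a g z))⁻¹ * g * γ z)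
      (mul_mem (mul_mem (inv_mem (hγ _)) hg) (hγ z)) (by
        rw [ha.mul, ha.mul, hγ', hr3, hr2 g hg])
    rw [← hb.mul, mul_inv_cancel_right, hb.mul] at h3
    rw [hr2 g hg, h3, ← hb.mul, ← hb.mul]
    congr 1
    group

section sylow
variable {S : Type} [Group S]

/-- Sylow subgroups. -/
def Syl (p : ℕ) (Q : Subgroup S) : Prop := IsPGroup p Q ∧ ¬ p ∣ Q.index

/-- the normaliser. -/
abbrev Nm (Q : Subgroup S) : Subgroup S := Subgroup.normalizer (Q : Set S)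

lemma mem_Nm {Q : Subgroup S} {g : S} : g ∈ Nm Q ↔ ∀ x, x ∈ Q ↔ g⁻¹ * x * g ∈ Q := by
  rw [← inv_mem_iff, Subgroup.mem_normalizer_iff]
  simp only [inv_inv]

lemma le_Nm (Q : Subgroup S) : Q ≤ Nm Q := Subgroup.le_normalizer

variable {p : ℕ}

open scoped Pointwise in
lemma Syl.conj [Finite S] (hp : p.Prime) {Q Q' : Subgroup S} (h : Syl p Q) (h' : Syl p Q') :
    ∃ g : S, ∀ x, x ∈ Q' ↔ g⁻¹ * x * g ∈ Q := by
  haveI : Fact p.Prime := ⟨hp⟩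
  obtain ⟨g, hg⟩ := MulAction.exists_smul_eq S (h.1.toSylow h.2) (h'.1.toSylow h'.2)
  refine ⟨g, fun x => ?_⟩
  have h1 : MulAut.conj g • Q = Q' := congrArg Sylow.toSubgroup hg
  rw [← h1, Subgroup.mem_pointwise_smul_iff_inv_smul_mem]
  simp

lemma Syl.sub {Q L : Subgroup S} (h : Syl p Q) (hL : Q ≤ L) : Syl p (Q.subgroupOf L) :=
  ⟨h.1.comap_subtype, fun hd => h.2 (hd.trans (Subgroup.relIndex_dvd_index_of_le hL))⟩

lemma Syl.conj_in [Finite S] (hp : p.Prime) {Q Q' L : Subgroup S} (h : Syl p Q) (h' : Syl p Q')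
    (hL : Q ≤ L) (hL' : Q' ≤ L) : ∃ g ∈ L, ∀ x, x ∈ Q' ↔ g⁻¹ * x * g ∈ Q := by
  obtain ⟨g, hg⟩ := (h.sub hL).conj hp (h'.sub hL')
  refine ⟨g, g.2, fun x => ⟨fun hx => (hg ⟨x, hL' hx⟩).1 hx, fun hx => ?_⟩⟩
  have hxL : x ∈ L := by
    have := mul_mem (mul_mem g.2 (hL hx)) (inv_mem g.2)
    simpa [mul_assoc] using this
  exact (hg ⟨x, hxL⟩).2 hx

lemma Syl.equiv {S' : Type} [Group S'] {Q : Subgroup S} (h : Syl p Q) (e : S' ≃* S) :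
    Syl p (Q.comap e.toMonoidHom) :=
  ⟨h.1.comap_of_injective _ e.injective, by
    rw [Subgroup.index_comap_of_surjective _ e.surjective]; exact h.2⟩

lemma Syl.exists_le [Finite S] (hp : p.Prime) {Q L : Subgroup S} (h : Syl p Q)
    (hL : ¬ p ∣ L.index) : ∃ g : S, ∀ x ∈ Q, g⁻¹ * x * g ∈ L := by
  haveI : Fact p.Prime := ⟨hp⟩
  obtain ⟨P⟩ : Nonempty (Sylow p L) := inferInstance
  have h1 : Syl p ((P : Subgroup L).map L.subtype) := ⟨P.2.map _, by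
    rw [Subgroup.index_map_subtype, hp.dvd_mul]
    exact fun hh => hh.elim P.not_dvd_index hL⟩
  obtain ⟨g, hg⟩ := h1.conj hp h
  exact ⟨g, fun x hx => Subgroup.map_subtype_le _ ((hg x).1 hx)⟩

lemma Syl.frat [Finite S] (hp : p.Prime) {Q L : Subgroup S} (h : Syl p Q) (hL : Q ≤ L) (k : S)
    (hk : ∀ x, k⁻¹ * x * k ∈ Q → x ∈ L) : ∃ l ∈ L, l * k ∈ Nm Q := by
  have h1 := h.equiv (MulAut.conj k⁻¹)
  obtain ⟨g, hg, h2⟩ := h1.conj_in hp h (fun x hx => hk x (by simpa using hx)) hL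
  refine ⟨g, hg, mem_Nm.2 fun x => ?_⟩
  rw [h2]
  simp [mul_assoc]

lemma Syl.le_of_pgroup [Finite S] (hp : p.Prime) {Q R : Subgroup S} (h : Syl p Q)
    (hR : IsPGroup p R) (hle : Q ≤ R) : R = Q := by
  haveI : Fact p.Prime := ⟨hp⟩
  exact (h.1.toSylow h.2).is_maximal' hR hle

end sylow

section res
variable {S : Type} [Group S] [Finite S]

lemma IZ.res {L N : Subgroup S} (hL : L ≤ N) {n : ℕ} {ψ : S → K} (h : IZ L n ψ) :
    IZ (L.subgroupOf N) n (ψ ∘ N.subtype) :=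
  ⟨fun k hk => h.1 _ hk, irr_comp (Subgroup.subgroupOfEquivOfLe hL).toMonoidHom
    (Subgroup.subgroupOfEquivOfLe hL).surjective h.2⟩

lemma res_bij (p : ℕ) {L N : Subgroup S} (hL : L ≤ N) :
    BijOn (fun ψ : S → K => ψ ∘ N.subtype) (IZp p L) (IZp p (L.subgroupOf N)) := by
  refine ⟨fun ψ ⟨n, h1, h2⟩ => ⟨n, h1.res hL, h2⟩, fun ψ ⟨n, h1, _⟩ ψ' ⟨n', h2, _⟩ h => ?_,
    fun φ ⟨n, h1, h2⟩ => ?_⟩
  · exact h1.ext h2 (funext fun k => congrFun h ⟨k, hL k.2⟩)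
  · have h3 := ez_iz (irr_comp (Subgroup.subgroupOfEquivOfLe hL).symm.toMonoidHom
      (Subgroup.subgroupOfEquivOfLe hL).symm.surjective h1.2)
    refine ⟨_, ⟨n, h3, h2⟩, (h3.res hL).ext h1 (funext fun k => ?_)⟩
    exact congrFun (ez_res L _) ⟨k.1.1, k.2⟩

end res

end Pool.Agent.Lib.MP_1ae3da_al.Wr
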