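import Pool.Agent.Lib.MP_1ae3da_al.W5

/-! The transfer of an equivariant bijection to a wreath product. -/

namespace Pool.Agent.Lib.MP_1ae3da_al.Wr

open GM Set

/-- a bijection of the characters of degree prime to `p` that commutes with `T`. -/
def EB (p : ℕ) (T : Set Ga) (G N : Type) [Group G] [Group N] : Prop :=
  ∃ f : (G → K) → (N → K), BijOn f (IrrP G p) (IrrP N p) ∧
    ∀ σ ∈ T, ∀ χ ∈ IrrP G p, f (σ ∘ χ) = σ ∘ f χ

/-- equivariant bijections for the stabilisers of the colourings fixed by `Q`. -/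
def EQ (p : ℕ) (T : Set Ga) {S : Type} (Ω : Type) [Group S] [MulAction S Ω] (Q : Subgroup S) :
    Prop :=
  ∀ (X : Type) (c : Ω → X), Q ≤ Stb S c → ∃ e : (S → K) → (S → K),
    BijOn e (IZp p (Stb S c)) (IZp p (Stb S c ⊓ Nm Q)) ∧ ∀ ψ ∈ IZp p (Stb S c),
      (∀ σ ∈ T, e (σ ∘ ψ) = σ ∘ e ψ) ∧ ∀ g ∈ Nm Q,
        (∀ ω ω', c (g⁻¹ • ω) = c (g⁻¹ • ω') ↔ c ω = c ω') → e (cf g ψ) = cf g (e ψ)

variable {p : ℕ} {T : Set Ga}

lemma irrP_gal {G : Type} [Group G] [Finite G] {χ : G → K} (h : χ ∈ IrrP G p) (σ : Ga) :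
    σ ∘ χ ∈ IrrP G p := h.imp fun _ h => ⟨irr_gal h.1 σ, h.2⟩

lemma EB.refl (G : Type) [Group G] : EB p T G G := ⟨id, bijOn_id _, fun _ _ _ _ => rfl⟩

lemma EB.trans {A B C : Type} [Group A] [Group B] [Group C] (h : EB p T A B) (h' : EB p T B C) :
    EB p T A C := by
  obtain ⟨f, h1, h2⟩ := h
  obtain ⟨g, h3, h4⟩ := h'
  exact ⟨g ∘ f, h3.comp h1, fun σ hσ χ hχ => by
    simp only [Function.comp_apply (f := g)]
    rw [h2 σ hσ χ hχ, h4 σ hσ _ (h1.1 hχ)]⟩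

lemma EB.symm {A B : Type} [Group A] [Group B] [Finite A] (h : EB p T A B) : EB p T B A := by
  obtain ⟨f, h1, h2⟩ := h
  refine ⟨Function.invFunOn f (IrrP A p), h1.symm h1.invOn_invFunOn.symm, fun σ hσ χ hχ => ?_⟩
  obtain ⟨θ, hθ, rfl⟩ := h1.2.2 hχ
  rw [← h2 σ hσ θ hθ, h1.invOn_invFunOn.1 hθ, h1.invOn_invFunOn.1 (irrP_gal hθ σ)]

section fam
variable {S Ω : Type} [Group S] [MulAction S Ω]

/-- the partition given by a colouring. -/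
def kr {X : Type} (c : Ω → X) : Ω → Ω → Prop := fun ω ω' => c ω = c ω'

lemma kr_iff {X : Type} (c : Ω → X) (ω ω' : Ω) : kr c ω = kr c ω' ↔ c ω = c ω' :=
  ⟨fun h => (congrFun h ω').mpr rfl, fun h => funext fun u => by simp only [kr, h]⟩

lemma kr_congr {X X' : Type} {c : Ω → X} {c' : Ω → X'}
    (h : ∀ ω ω', c ω = c ω' ↔ c' ω = c' ω') : kr c = kr c' :=
  funext fun ω => funext fun ω' => propext (h ω ω')

lemma cf_act : Act (cf : S → (S → K) → S → K) := ⟨cf_one, cf_mul⟩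

lemma Nm_conj {Q : Subgroup S} {g : S} (hg : g ∈ Nm Q) (k : S) :
    k ∈ Nm Q ↔ g⁻¹ * k * g ∈ Nm Q :=
  ⟨fun h => mul_mem (mul_mem (inv_mem hg) h) hg, fun h => by
    have := mul_mem (mul_mem hg h) (inv_mem hg)
    simpa [mul_assoc] using this⟩

lemma EQ.fam [Finite S] {Q : Subgroup S} (h : EQ p T Ω Q) :
    ∃ E : (Ω → Ω → Prop) → (S → K) → (S → K), ∀ (X : Type) (c : Ω → X), Q ≤ Stb S c →
      BijOn (E (kr c)) (IZp p (Stb S c)) (IZp p (Stb S c ⊓ Nm Q)) ∧ ∀ ψ ∈ IZp p (Stb S c),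
        (∀ σ ∈ T, E (kr c) (σ ∘ ψ) = σ ∘ E (kr c) ψ) ∧
        ∀ g ∈ Nm Q, E (kr (ac g c)) (cf g ψ) = cf g (E (kr c) ψ) := by
  let a : S → (Ω → Ω → Prop) → Ω → Ω → Prop := fun g r ω ω' => r (g⁻¹ • ω) (g⁻¹ • ω')
  have ha : Act a := ⟨fun r => by simp [a], fun g h r => by simp [a, mul_smul]⟩
  have h0 : ∀ g r ω ω', a g r ω = a g r ω' ↔ r (g⁻¹ • ω) = r (g⁻¹ • ω') := fun g r ω ω' =>
    ⟨fun h => funext fun u => by simpa [a] using congrFun h (g • u),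
      fun h => funext fun u => congrFun h _⟩
  have h1 : ∀ g r k, k ∈ Stb S (a g r) ↔ g⁻¹ * k * g ∈ Stb S r := fun g r k => by
    rw [← Stb_ac, Stb_congr (c' := ac g r) (h0 g r)]
  obtain ⟨E, hE⟩ := bundle (Nm Q) ha cf_act {r | Q ≤ Stb S r} (fun r => IZp p (Stb S r))
    (fun r => IZp p (Stb S r ⊓ Nm Q)) {t | ∃ σ ∈ T, t = fun ψ => σ ∘ ψ} (fun _ => True)
    (fun g hg r hr q hq => (h1 g r q).2 (hr ((mem_Nm.1 hg q).1 hq)))
    (fun g _ r v hv => IZp.cf hv g (h1 g r))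
    (fun g hg r v hv => IZp.cf hv g fun k => and_congr (h1 g r k) (Nm_conj hg k))
    (by rintro _ ⟨σ, -, rfl⟩ g v; rfl) (fun _ _ => Iff.rfl)
    (fun r hr => by
      obtain ⟨e, e1, e2⟩ := h _ r hr
      refine ⟨e, e1, fun v hv => ⟨?_, Iff.rfl, fun g hg hr => (e2 v hv).2 g hg fun ω ω' => ?_⟩⟩
      · rintro _ ⟨σ, hσ, rfl⟩
        exact (e2 v hv).1 σ hσ
      · rw [← h0, hr])
  refine ⟨E, fun X c hc => ?_⟩
  have h2 : Stb S (kr c) = Stb S c := Stb_congr (kr_iff c)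
  obtain ⟨e1, e2⟩ := hE (kr c) (by rw [← h2] at hc; exact hc)
  simp only [h2] at e1 e2
  exact ⟨e1, fun ψ hψ => ⟨fun σ hσ => (e2 ψ hψ).1 _ ⟨σ, hσ, rfl⟩, (e2 ψ hψ).2.2⟩⟩

end fam

/-- the set of orbits of `Q` with the action of the normaliser. -/
structure Orb {S Ω O : Type} [Group S] [MulAction S Ω] (Q : Subgroup S) [MulAction (Nm Q) O]
    (qt : Ω → O) : Prop where
  surj : Function.Surjective qt
  eq : ∀ ω ω', qt ω = qt ω' ↔ ∃ q ∈ Q, q • ω = ω'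
  act : ∀ (g : Nm Q) ω, g • qt ω = qt ((g : S) • ω)

section transfer
variable {S Ω O : Type} [Group S] [MulAction S Ω] {Q : Subgroup S} [MulAction (Nm Q) O]
  {qt : Ω → O} (hO : Orb Q qt)
include hO

lemma Orb.le {X : Type} (c : O → X) : Q ≤ Stb S (c ∘ qt) := fun q hq ω =>
  congrArg c ((hO.eq _ _).2 ⟨q, hq, rfl⟩).symm

lemma Orb.ac_comp {X : Type} (c : O → X) (g : Nm Q) : ac g c ∘ qt = ac (g : S) (c ∘ qt) := by
  funext ω
  simp only [ac, Function.comp, hO.act]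
  rfl

lemma Orb.stb {X : Type} (c : O → X) :
    (Stb S (c ∘ qt) ⊓ Nm Q).subgroupOf (Nm Q) = Stb (Nm Q) c := by
  ext g
  rw [Subgroup.inf_subgroupOf_right, Subgroup.mem_subgroupOf, Stb_iff, Stb_iff, ← hO.ac_comp]
  exact hO.surj.injective_comp_right.eq_iff

theorem transfer (hp : p.Prime) [Finite S] (hQ : Syl p Q) (hEQ : EQ p T Ω Q) {G G' W W' : Type}
    [Group G] [Group G'] [Group W] [Group W'] [Finite G] (hG : EB p T G G')
    {Φ : (Ω → G → K) → (S → K) → W → K} (H : Par p S Φ)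
    {Φ' : (O → G' → K) → (Nm Q → K) → W' → K} (H' : Par p (Nm Q) Φ') : EB p T W W' := by
  obtain ⟨E, hE⟩ := hEQ.fam
  obtain ⟨f, f1, f2⟩ := hG
  let A : Set ((O → G → K) × (S → K)) :=
    {a | (∀ o, a.1 o ∈ IrrP G p) ∧ a.2 ∈ IZp p (Stb S (a.1 ∘ qt))}
  let B : Set ((O → G' → K) × (Nm Q → K)) :=
    {b | (∀ o, b.1 o ∈ IrrP G' p) ∧ b.2 ∈ IZp p (Stb (Nm Q) b.1)}
  let e : (O → G → K) × (S → K) → (O → G' → K) × (Nm Q → K) :=
    fun a => (f ∘ a.1, E (kr (a.1 ∘ qt)) a.2 ∘ (Nm Q).subtype)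
  have k1 : ∀ c : O → G → K, (∀ o, c o ∈ IrrP G p) → BijOn
      (fun ψ => E (kr (c ∘ qt)) ψ ∘ (Nm Q).subtype) (IZp p (Stb S (c ∘ qt)))
      (IZp p (Stb (Nm Q) (f ∘ c))) := fun c hc => by
    rw [Stb_congr (c := f ∘ c) (c' := c) fun o o' => f1.2.1.eq_iff (hc o) (hc o'), ← hO.stb]
    exact (res_bij p inf_le_right).comp (hE _ _ (hO.le c)).1
  have k2 : ∀ c c' : O → G → K, (∀ o, c o ∈ IrrP G p) → (∀ o, c' o ∈ IrrP G p) →
      f ∘ c = f ∘ c' → c = c' := fun c c' hc hc' h =>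
    funext fun o => f1.2.1 (hc o) (hc' o) (congrFun h o)
  have he : BijOn e A B := by
    refine ⟨fun a ha => ⟨fun o => f1.1 (ha.1 o), (k1 _ ha.1).1 ha.2⟩, ?_, ?_⟩
    · rintro ⟨c, ψ⟩ ha ⟨c', ψ'⟩ ha' h
      obtain rfl : c = c' := k2 _ _ ha.1 ha'.1 (congrArg Prod.fst h)
      exact Prod.ext rfl ((k1 _ ha.1).2.1 ha.2 ha'.2 (congrArg Prod.snd h))
    · rintro ⟨d, φ⟩ ⟨hd, hφ⟩
      choose c hc hc' using fun o => f1.2.2 (hd o)
      obtain rfl : f ∘ c = d := funext hc'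
      obtain ⟨ψ, hψ, rfl⟩ := (k1 c hc).2.2 hφ
      exact ⟨(c, ψ), ⟨hc, hψ⟩, rfl⟩
  have k3 : ∀ (g : Nm Q), ∀ a ∈ A, E (kr (ac g a.1 ∘ qt)) (cf (g : S) a.2) ∘ (Nm Q).subtype =
      cf g (E (kr (a.1 ∘ qt)) a.2 ∘ (Nm Q).subtype) := fun g a ha => by
    rw [hO.ac_comp, ((hE _ _ (hO.le a.1)).2 _ ha.2).2 g g.2]
    rfl
  obtain ⟨F, F1, F2⟩ := descend he (Φ := fun a => Φ (a.1 ∘ qt) a.2) (Φ' := fun b => Φ' b.1 b.2)
    (C := IrrP W p) (C' := IrrP W' p)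
    (fun χ hχ => by
      obtain ⟨c, ψ, h1, h2, h3, rfl⟩ := H.all χ hχ
      obtain ⟨g, hg⟩ := hQ.exists_le hp h2
      have h4 : (ac g c ∘ Function.surjInv hO.surj) ∘ qt = ac g c := by
        funext ω
        obtain ⟨q, hq, h⟩ := (hO.eq _ _).1 (Function.surjInv_eq hO.surj (qt ω))
        have := (Stb_ac c g q).2 (hg q hq) (Function.surjInv hO.surj (qt ω))
        rw [h] at this
        exact this.symm
      have h5 := IZp.cf h3 g (Stb_ac c g)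
      refine ⟨(ac g c ∘ Function.surjInv hO.surj, cf g ψ), ⟨fun o => h1 _, by
        rw [h4]; exact h5⟩, ?_⟩
      simp only [h4]
      exact (H.eq _ _ _ _ (fun ω => h1 _) h1 h5 h3).2 ⟨g, rfl, rfl⟩)
    (fun b hb => H'.mem _ _ hb.1 (fun hd => (hQ.sub (le_Nm Q)).2 (hd.trans
      (Subgroup.index_dvd_of_le (by
        rw [← hO.stb]
        exact Subgroup.comap_mono (le_inf (hO.le _) (le_Nm Q)))))) hb.2)
    (fun χ hχ => by
      obtain ⟨c, ψ, h1, -, h3, rfl⟩ := H'.all χ hχ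
      exact ⟨(c, ψ), ⟨h1, h3⟩, rfl⟩)
    (fun a ha => H.mem _ _ (fun ω => ha.1 _)
      (fun hd => hQ.2 (hd.trans (Subgroup.index_dvd_of_le (hO.le _)))) ha.2)
    (fun a ha a' ha' => by
      rw [H.eq (a.1 ∘ qt) (a'.1 ∘ qt) _ _ (fun ω => ha.1 _) (fun ω => ha'.1 _) ha.2 ha'.2,
        H'.eq _ _ _ _ (he.1 ha).1 (he.1 ha').1 (he.1 ha).2 (he.1 ha').2]
      constructor
      · rintro ⟨k, h1, h2⟩
        obtain ⟨l, hl, hn⟩ := hQ.frat hp (hO.le a.1) k fun x hx => by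
          rw [h1, Stb_ac]; exact hO.le _ hx
        have h3 : a.1 = ac (⟨l * k, hn⟩ : Nm Q) a'.1 := by
          apply hO.surj.injective_comp_right
          simp only [hO.ac_comp]
          rw [ac_mul, ← h1, (Stb_iff _ _).1 hl]
        have h4 : a.2 = cf (l * k) a'.2 := by
          obtain ⟨n, hn, -⟩ := ha.2
          rw [cf_mul, ← h2, hn.cf_self hl]
        refine ⟨⟨l * k, hn⟩, ?_, ?_⟩
        · simp only [e, h3]; rfl
        · simp only [e]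
          rw [← k3 _ _ ha', ← h3, ← h4]
      · rintro ⟨g, h1, h2⟩
        have h3 : a.1 = ac g a'.1 := k2 _ _ ha.1 (fun o => ha'.1 _) h1
        refine ⟨g, by rw [h3, hO.ac_comp], (k1 _ ha.1).2.1 ha.2 ?_ ?_⟩
        · rw [h3, hO.ac_comp]
          exact IZp.cf ha'.2 _ (Stb_ac _ _)
        · simp only [e] at h2
          simp only
          rw [h2, ← k3 _ _ ha', ← h3])
  refine ⟨F, F1, fun σ hσ χ hχ => ?_⟩
  obtain ⟨⟨d, φ⟩, hb, h⟩ : ∃ b ∈ B, Φ' b.1 b.2 = F χ := by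
    obtain ⟨c, ψ, h1, -, h3, h⟩ := H'.all _ (F1.1 hχ)
    exact ⟨(c, ψ), ⟨h1, h3⟩, h.symm⟩
  obtain ⟨a, ha, h0⟩ := he.2.2 hb
  have ha1 : Φ (a.1 ∘ qt) a.2 ∈ IrrP W p := H.mem _ _ (fun ω => ha.1 _)
    (fun hd => hQ.2 (hd.trans (Subgroup.index_dvd_of_le (hO.le _)))) ha.2
  obtain rfl : Φ (a.1 ∘ qt) a.2 = χ := F1.2.1 ha1 hχ (by rw [F2 a ha, h0]; exact h)
  have ha' : ((fun o => σ ∘ a.1 o), σ ∘ a.2) ∈ A := ⟨fun o => irrP_gal (ha.1 o) σ, by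
    have := IZp.gal ha.2 σ
    rwa [← Stb_gal _ σ] at this⟩
  rw [← H.gal σ (a.1 ∘ qt) _ (fun ω => ha.1 _) ha.2, F2 a ha,
    ← H'.gal σ _ _ (he.1 ha).1 (he.1 ha).2]
  refine (F2 _ ha').trans ?_
  simp only [e]
  congr 1
  · exact funext fun o => f2 σ hσ _ (ha.1 o)
  · rw [kr_congr (c := (fun o => σ ∘ a.1 o) ∘ qt) (c' := a.1 ∘ qt) fun ω ω' =>
      ⟨fun h => funext fun g =>
      σ.injective (congrFun h g), fun h => congrArg (σ ∘ ·) h⟩,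
      ((hE _ _ (hO.le a.1)).2 _ ha.2).1 σ hσ]
    rfl

end transfer

end Pool.Agent.Lib.MP_1ae3da_al.Wr
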