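import Pool.Agent.Lib.MP_1ae3da_al.W6
import Pool.Agent.Lib.MP_1ae3da_al.GIto

/-! Quotients of the normaliser of a Sylow subgroup. -/

namespace Pool.Agent.Lib.MP_1ae3da_al.Wr

open GM Set

variable {p : ℕ} {T : Set Ga}

lemma EB.of_surj {C D : Type} [Group C] [Group D] [Finite C] (f : C →* D)
    (hf : Function.Surjective f)
    (h : ∀ ψ ∈ IrrP C p, ∀ r x, f r = 1 → ψ (r * x) = ψ x) : EB p T D C := by
  classical
  haveI := Finite.of_surjective f hf
  haveI := Fintype.ofFinite C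
  haveI := Fintype.ofFinite D
  refine ⟨fun χ => χ ∘ f, ⟨fun χ ⟨n, h1, h2⟩ => ⟨n, irr_comp f hf h1, h2⟩,
    fun _ _ _ _ e => hf.injective_comp_right e, fun ψ hψ => ?_⟩, fun _ _ _ _ => rfl⟩
  obtain ⟨n, h1, h2⟩ := id hψ
  obtain ⟨χ, h3, rfl⟩ := (hch.h C D f).defl hf n ψ h1 (h ψ hψ)
  exact ⟨χ, ⟨n, h3, h2⟩, rfl⟩

lemma EB.of_equiv {C D : Type} [Group C] [Group D] [Finite C] (e : C ≃* D) : EB p T D C :=
  EB.of_surj e.toMonoidHom e.surjective fun _ _ r x h => by
    rw [e.injective (h.trans (map_one e).symm), one_mul]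

lemma EB.local {G D : Type} [Group G] [Group D] [Finite G] (hp : p.Prime) {R : Subgroup G}
    (hR : Syl p R) (f : Nm R →* D) (hf : Function.Surjective f)
    (h : ∀ w : Nm R, f w = 1 → ∃ h : (w : G) ∈ R, Abelianization.of (⟨w, h⟩ : R) = 1) :
    EB p T D (Nm R) := by
  refine EB.of_surj f hf fun ψ hψ r x hr => ?_
  have h1 := hR.sub (le_Nm R)
  refine (ito hch (Nm R) p _ hp Subgroup.normal_in_normalizer h1.1 h1.2 ψ (irrP_irr hψ)).1 hψ r ?_ x
  obtain ⟨h2, h3⟩ := h r hr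
  have h4 : (⟨r, h2⟩ : R) ∈ commutator R := by rw [← Abelianization.ker_of]; exact h3
  have h5 := Subgroup.mem_map_of_mem (Subgroup.inclusion (le_Nm R)) h4
  rwa [commutator, Subgroup.map_commutator, ← MonoidHom.range_eq_map,
    Subgroup.inclusion_range] at h5

lemma EB.conj {G : Type} [Group G] [Finite G] (hp : p.Prime) {R R' : Subgroup G} (h : Syl p R)
    (h' : Syl p R') : EB p T (Nm R) (Nm R') := by
  obtain ⟨g, hg⟩ := h.conj hp h'
  have h1 : ∀ k, k ∈ Nm R' ↔ g⁻¹ * k * g ∈ Nm R := fun k => by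
    simp only [mem_Nm, hg]
    constructor
    · intro h x
      simpa [mul_assoc] using h (g * x * g⁻¹)
    · intro h x
      simpa [mul_assoc] using h (g⁻¹ * x * g)
  exact EB.of_equiv
    { toFun := fun k => ⟨g⁻¹ * k * g, (h1 k).1 k.2⟩
      invFun := fun k => ⟨g * k * g⁻¹, (h1 _).2 (by simp [mul_assoc])⟩
      left_inv := fun k => Subtype.ext (by simp [mul_assoc])
      right_inv := fun k => Subtype.ext (by simp [mul_assoc])
      map_mul' := fun a b => Subtype.ext (by simp [mul_assoc]) }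

/-- coordinates on the normaliser of `P` modulo the commutator subgroup of `P`. -/
structure LD {G B : Type} [Group G] [Group B] (P : Subgroup G)
    (θ : B →* MulAut (Abelianization P)) (a : G → Abelianization P) (b : G → B) : Prop where
  coc : ∀ n ∈ Nm P, ∀ n' ∈ Nm P, a (n * n') = a n * θ (b n) (a n')
  bm : ∀ n ∈ Nm P, ∀ n' ∈ Nm P, b (n * n') = b n * b n'
  bs : ∀ y, ∃ n ∈ Nm P, b n = y ∧ a n = 1
  bk : ∀ n ∈ Nm P, b n = 1 ↔ n ∈ P
  ap : ∀ u : P, a u = Abelianization.of u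

lemma exists_LD {G : Type} [Group G] [Finite G] (hp : p.Prime) {P : Subgroup G} (hP : Syl p P) :
    ∃ (B : Type) (_ : Group B) (_ : Finite B) (θ : B →* MulAut (Abelianization P))
      (a : G → Abelianization P) (b : G → B), LD P θ a b := by
  classical
  haveI : Fact p.Prime := ⟨hp⟩
  have h1 := hP.sub (le_Nm P)
  haveI : (P.subgroupOf (Nm P)).Normal := Subgroup.normal_in_normalizer
  obtain ⟨k, hk⟩ := IsPGroup.iff_card.1 h1.1
  obtain ⟨L, hL⟩ := Subgroup.exists_right_complement'_of_coprime (N := P.subgroupOf (Nm P))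
    (by rw [hk]; exact ((Nat.Prime.coprime_iff_not_dvd hp).2 h1.2).pow_left k)
  let s : Nm P →* L := hL.symm.QuotientMulEquiv.toMonoidHom.comp (QuotientGroup.mk' _)
  have s1 : ∀ l : L, s l = l := fun l => hL.symm.QuotientMulEquiv.apply_symm_apply l
  have s2 : ∀ n, s n = 1 ↔ (n : G) ∈ P := fun n => by
    change hL.symm.QuotientMulEquiv (QuotientGroup.mk n) = 1 ↔ _
    rw [MulEquiv.map_eq_one_iff, QuotientGroup.eq_one_iff]; rfl
  have s3 : ∀ n : Nm P, (n : G) * ((s n : Nm P) : G)⁻¹ ∈ P := fun n =>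
    (s2 (n * (s n : Nm P)⁻¹)).1 (by rw [map_mul, map_inv, s1, mul_inv_cancel])
  let θ : L →* MulAut (Abelianization P) :=
    { toFun := fun l => (P.normalizerMonoidHom l).abelianizationCongr
      map_one' := by rw [OneMemClass.coe_one, map_one]; exact abelianizationCongr_refl
      map_mul' := fun x y => by
        rw [Subgroup.coe_mul, map_mul]; exact (abelianizationCongr_trans _ _).symm }
  refine ⟨L, inferInstance, inferInstance, θ,
    fun g => if h : g ∈ Nm P then Abelianization.of ⟨_, s3 ⟨g, h⟩⟩ else 1,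
    fun g => if h : g ∈ Nm P then s ⟨g, h⟩ else 1, fun n hn n' hn' => ?_, fun n hn n' hn' => ?_,
    fun y => ⟨y.1, y.1.2, ?_, ?_⟩, fun n hn => ?_, fun u => ?_⟩
  · simp only [dif_pos hn, dif_pos hn', dif_pos (mul_mem hn hn')]
    change _ = _ * Abelianization.of (P.normalizerMonoidHom _ _)
    rw [← map_mul]
    congr 1
    apply Subtype.ext
    have : s ⟨n * n', mul_mem hn hn'⟩ = s ⟨n, hn⟩ * s ⟨n', hn'⟩ := map_mul s ⟨n, hn⟩ ⟨n', hn'⟩
    simp only [this]
    change _ = _ * (_ * _ * _)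
    simp [mul_assoc]
  · simp only [dif_pos hn, dif_pos hn', dif_pos (mul_mem hn hn')]
    exact map_mul s ⟨n, hn⟩ ⟨n', hn'⟩
  · simp only [dif_pos y.1.2]
    exact s1 y
  · simp only [dif_pos y.1.2]
    rw [← map_one Abelianization.of]
    congr 1
    apply Subtype.ext
    have : s ⟨y.1, y.1.2⟩ = y := s1 y
    simp [this]
  · simp only [dif_pos hn]
    exact s2 ⟨n, hn⟩
  · simp only [dif_pos (le_Nm P u.2)]
    congr 1
    apply Subtype.ext
    simp [(s2 ⟨u, le_Nm P u.2⟩).2 u.2]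

section ld
variable {G B : Type} [Group G] [Group B] {P : Subgroup G} {θ : B →* MulAut (Abelianization P)}
  {a : G → Abelianization P} {b : G → B} (H : LD P θ a b)
include H

lemma LD.b_one : b 1 = 1 := (H.bk 1 (one_mem _)).2 (one_mem _)

lemma LD.a_one : a 1 = 1 := (H.ap 1).trans (map_one _)

lemma LD.b_congr {n n' : G} (hn : n ∈ Nm P) (hn' : n' ∈ Nm P) (h : n * n'⁻¹ ∈ P) : b n = b n' := by
  have := H.bm _ (le_Nm P h) _ hn'
  rwa [inv_mul_cancel_right, (H.bk _ (le_Nm P h)).2 h, one_mul] at this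

lemma LD.surj (x : Abelianization P) (y : B) : ∃ n ∈ Nm P, a n = x ∧ b n = y := by
  obtain ⟨n, hn, h1, h2⟩ := H.bs y
  obtain ⟨u, rfl⟩ := QuotientGroup.mk_surjective x
  refine ⟨u * n, mul_mem (le_Nm P u.2) hn, ?_, ?_⟩
  · rw [H.coc _ (le_Nm P u.2) _ hn, h2, map_one, mul_one, H.ap]; rfl
  · rw [H.bm _ (le_Nm P u.2) _ hn, (H.bk _ (le_Nm P u.2)).2 u.2, one_mul, h1]

lemma LD.eb [Finite G] (hp : p.Prime) (hP : Syl p P) :
    EB p T (Abelianization P ⋊[θ] B) (Nm P) := by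
  let f : Nm P →* Abelianization P ⋊[θ] B :=
    { toFun := fun n => ⟨a n, b n⟩
      map_one' := SemidirectProduct.ext H.a_one H.b_one
      map_mul' := fun x y => SemidirectProduct.ext (H.coc _ x.2 _ y.2) (H.bm _ x.2 _ y.2) }
  refine EB.local hp hP f (fun x => ?_) fun w hw => ?_
  · obtain ⟨n, hn, h1, h2⟩ := H.surj x.left x.right
    exact ⟨⟨n, hn⟩, SemidirectProduct.ext h1 h2⟩
  · have h1 := (H.bk _ w.2).1 (congrArg SemidirectProduct.right hw)
    exact ⟨h1, (H.ap ⟨w, h1⟩).symm.trans (congrArg SemidirectProduct.left hw)⟩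

end ld

end Pool.Agent.Lib.MP_1ae3da_al.Wr
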