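import Pool.Agent.Lib.MP_1ae3da_al.W8
import Pool.Agent.Lib.MP_1ae3da_al.GIx

/-! Associators: self associate characters with their difference functions. -/

namespace Pool.Agent.Lib.MP_1ae3da_al.Wr

open GM Set

variable {S : Type} [Group S] (sg : S →* ℤˣ)

/-- the twist by the sign. -/
noncomputable def tw (χ : S → K) : S → K := fun k => uK (sg k) * χ k

/-- `χ` is the trace of a representation of `L` and `δ` the trace against an associator. -/
def SP (L : Subgroup S) (χ δ : S → K) : Prop :=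
  (∀ k, k ∉ L → δ k = 0) ∧ ∃ (m : Type) (_ : Fintype m) (_ : DecidableEq m)
    (ρ : S → Matrix m m K) (A : Matrix m m K), A * A = 1 ∧ ∀ x ∈ L,
      (∀ y ∈ L, ρ (x * y) = ρ x * ρ y) ∧ A * ρ x = uK (sg x) • (ρ x * A) ∧
      χ x = (ρ x).trace ∧ δ x = (A * ρ x).trace

lemma tw_tw (χ : S → K) : tw sg (tw sg χ) = χ := by
  funext k; simp [tw, ← mul_assoc, uK_sq]

lemma tw_gal (σ : Ga) (χ : S → K) : tw sg (σ ∘ χ) = σ ∘ tw sg χ := by
  funext k; simp [tw, uK]

lemma sg_conj (g k : S) : sg (g⁻¹ * k * g) = sg k := by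
  rw [map_mul, map_mul, mul_right_comm, ← map_mul, inv_mul_cancel, map_one, one_mul]

lemma tw_cf (g : S) (χ : S → K) : tw sg (cf g χ) = cf g (tw sg χ) := by
  funext k; simp only [tw, cf, sg_conj]

variable {sg} {L : Subgroup S} {χ δ : S → K}

lemma IZ.tw [Finite S] {n : ℕ} (h : IZ L n χ) : IZ L n (tw sg χ) := by
  haveI := Fintype.ofFinite L
  refine ⟨fun k hk => by simp [Wr.tw, h.1 k hk], ?_⟩
  exact (hch.b L).lin ((Int.castRingHom K).toMonoidHom.comp
    ((Units.coeHom ℤ).comp (sg.comp L.subtype))) n _ h.2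

lemma SP.neg (h : SP sg L χ δ) : SP sg L χ (-δ) := by
  obtain ⟨h0, m, _, _, ρ, A, h1, h2⟩ := h
  refine ⟨fun k hk => by simp [h0 k hk], m, inferInstance, inferInstance, ρ, -A, by simp [h1],
    fun x hx => ?_⟩
  obtain ⟨a, b, c, d⟩ := h2 x hx
  exact ⟨a, by simp [b], c, by simp [d]⟩

lemma SP.sign (h : SP sg L χ δ) (u : ℤˣ) : SP sg L χ (uK u • δ) := by
  rcases Int.units_eq_one_or u with rfl | rfl
  · simpa using h
  · simpa using h.neg

lemma SP.gal (h : SP sg L χ δ) (σ : Ga) : SP sg L (σ ∘ χ) (σ ∘ δ) := by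
  obtain ⟨h0, m, _, _, ρ, A, h1, h2⟩ := h
  refine ⟨fun k hk => by simp [h0 k hk], m, inferInstance, inferInstance, fun x => (ρ x).map σ,
    A.map σ, by
    rw [← Matrix.map_mul, h1, Matrix.map_one _ (map_zero σ) (map_one σ)], fun x hx => ?_⟩
  obtain ⟨a, b, c, d⟩ := h2 x hx
  refine ⟨fun y hy => by simp only [a y hy, Matrix.map_mul], ?_, ?_, ?_⟩
  · rw [← Matrix.map_mul, ← Matrix.map_mul, b]
    ext i j
    simp only [Matrix.map_apply, Matrix.smul_apply, smul_eq_mul, map_mul, uK, map_intCast]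
  · simp [c, Matrix.trace, map_sum]
  · rw [← Matrix.map_mul]
    simp only [Function.comp, d, Matrix.trace, map_sum, Matrix.diag, Matrix.map_apply]

lemma SP.cf (h : SP sg L χ δ) {L' : Subgroup S} (g : S) (hL : ∀ k, k ∈ L' ↔ g⁻¹ * k * g ∈ L) :
    SP sg L' (cf g χ) (cf g δ) := by
  obtain ⟨h0, m, _, _, ρ, A, h1, h2⟩ := h
  refine ⟨fun k hk => h0 _ fun hh => hk ((hL k).2 hh), m, inferInstance, inferInstance,
    fun x => ρ (g⁻¹ * x * g), A, h1, fun x hx => ?_⟩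
  obtain ⟨a, b, c, d⟩ := h2 _ ((hL x).1 hx)
  refine ⟨fun y hy => ?_, by rw [b, sg_conj], c, d⟩
  rw [← a _ ((hL y).1 hy)]
  simp [mul_assoc]

lemma eq_zero_of_neg {x : K} (h : x = -x) : x = 0 := by
  have : (2 : K) * x = 0 := by linear_combination h
  simpa using this

lemma SP.odd (h : SP sg L χ δ) {k : S} (hk : k ∈ L) (hs : sg k = -1) : χ k = 0 ∧ δ k = 0 := by
  obtain ⟨-, m, _, _, ρ, A, h1, h2⟩ := h
  obtain ⟨-, b, c, d⟩ := h2 k hk
  rw [hs, uK_neg, uK_one, neg_one_smul] at b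
  refine ⟨eq_zero_of_neg ?_, eq_zero_of_neg ?_⟩
  · have : ρ k = -(A * ρ k * A) := by rw [b, neg_mul, neg_neg, mul_assoc, h1, mul_one]
    rw [c]
    conv_lhs => rw [this, Matrix.trace_neg, Matrix.trace_mul_comm, ← mul_assoc, h1, one_mul]
  · rw [d]
    conv_lhs => rw [b, Matrix.trace_neg, Matrix.trace_mul_comm]

lemma SP.tw_eq (h : SP sg L χ δ) (h0 : ∀ k, k ∉ L → χ k = 0) : tw sg χ = χ := by
  funext k
  by_cases hk : k ∈ L
  · rcases Int.units_eq_one_or (sg k) with e | e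
    · simp [tw, e]
    · simp [tw, (h.odd hk e).1]
  · simp [tw, h0 k hk]

lemma SP.conj (h : SP sg L χ δ) {l : S} (hl : l ∈ L) : Wr.cf l δ = uK (sg l) • δ := by
  obtain ⟨h0, m, _, _, ρ, A, h1, h2⟩ := h
  funext k
  by_cases hk : k ∈ L
  · have hi := inv_mem hl
    have e1 : uK (sg l⁻¹) = uK (sg l) := by rw [map_inv, Int.units_inv_eq_self]
    rw [Wr.cf, (h2 _ (mul_mem (mul_mem hi hk) hl)).2.2.2, (h2 _ (mul_mem hi hk)).1 l hl,
      (h2 _ hi).1 k hk, ← mul_assoc, ← mul_assoc, (h2 _ hi).2.1, e1, smul_mul_assoc,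
      smul_mul_assoc, Matrix.trace_smul, mul_assoc, mul_assoc, Matrix.trace_mul_comm, mul_assoc,
      mul_assoc, ← (h2 l hl).1 _ hi, ← (h2 k hk).1 _ (mul_mem hl hi), mul_inv_cancel, mul_one,
      ← (h2 k hk).2.2.2]
    rfl
  · rw [Pi.smul_apply, h0 k hk, smul_zero]
    refine h0 _ fun hh => hk ?_
    have := mul_mem (mul_mem hl hh) (inv_mem hl)
    simpa [mul_assoc] using this

lemma SP.half [Finite S] (h : SP sg L χ δ) :
    (fun k : (L ⊓ sg.ker : Subgroup S) => (χ k + δ k) / 2) ∈ Ch (L ⊓ sg.ker : Subgroup S) := by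
  haveI := Fintype.ofFinite (L ⊓ sg.ker : Subgroup S)
  obtain ⟨-, m, _, _, ρ, A, h1, h2⟩ := h
  have h3 := (hch.b (L ⊓ sg.ker : Subgroup S)).mat m (fun k => (2 : K)⁻¹ • ((1 + A) * ρ k))
    fun x y => by
      have b := (h2 x x.2.1).2.1
      rw [show sg x = 1 from x.2.2, uK_one, one_smul] at b
      have e : (1 + A) * ρ x * ((1 + A) * ρ y) = (2 : K) • ((1 + A) * (ρ x * ρ y)) := by
        have e1 : ρ x * (1 + A) = (1 + A) * ρ x := by rw [mul_add, add_mul, b]; simp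
        have e2 : (1 + A) * (1 + A) = (2 : K) • (1 + A) := by
          rw [mul_add, add_mul, add_mul, h1, two_smul]; simp; abel
        rw [mul_assoc, ← mul_assoc (ρ x), e1, ← mul_assoc, ← mul_assoc, e2, smul_mul_assoc,
          smul_mul_assoc, mul_assoc]
      rw [smul_mul_smul_comm, e, smul_smul, Subgroup.coe_mul, (h2 x x.2.1).1 y y.2.1]
      congr 1
      norm_num
  have h4 : (fun k : (L ⊓ sg.ker : Subgroup S) => (χ k + δ k) / 2) =
      fun k : (L ⊓ sg.ker : Subgroup S) => ((2 : K)⁻¹ • ((1 + A) * ρ k)).trace := by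
    funext k
    rw [(h2 k k.2.1).2.2.1, (h2 k k.2.1).2.2.2, add_mul, one_mul, Matrix.trace_smul,
      Matrix.trace_add, smul_eq_mul, div_eq_inv_mul]
  rw [h4]; exact h3

lemma exists_SP [Finite S] {n : ℕ} (h : IZ L n χ) (ht : tw sg χ = χ) : ∃ δ, SP sg L χ δ := by
  classical
  haveI := Fintype.ofFinite L
  obtain ⟨ρ, hρ⟩ := (hch.b L).real n _ h.2
  let ρ' : L →* Matrix (Fin n) (Fin n) K :=
    { toFun := fun x => uK (sg x) • ρ x
      map_one' := by simp
      map_mul' := fun x y => by simp [uK_mul, smul_smul, mul_comm] }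
  have hi : (fun x => (ρ x).trace) ∈ Irr L := by rw [funext hρ]; exact ⟨n, h.2⟩
  obtain ⟨U, hU⟩ := (hch.b L).sim n ρ ρ' hi fun x => by
    change (uK (sg x) • ρ x).trace = _
    rw [Matrix.trace_smul, hρ]
    exact congrFun ht x
  have h1 : ∀ x : L, U.val * ρ x = uK (sg x) • (ρ x * U.val) := fun x => by
    have := congrArg (· * U.val) (hU x)
    simp only [mul_assoc, U.inv_val, mul_one] at this
    rw [← this, ← smul_mul_assoc]; rfl
  obtain ⟨c, hc⟩ := (hch.b L).schur n ρ hi (U.val * U.val) fun x => by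
    rw [mul_assoc, h1, mul_smul_comm, ← mul_assoc, h1, smul_mul_assoc, smul_smul, uK_sq, one_smul,
      mul_assoc]
  have hc0 : c ≠ 0 := by
    rintro rfl
    haveI : Nonempty (Fin n) := ⟨⟨0, h.2.pos⟩⟩
    exact (U * U).ne_zero (by simpa using hc)
  obtain ⟨r, rfl⟩ := IsAlgClosed.exists_eq_mul_self c
  have hr : r ≠ 0 := fun e => hc0 (by simp [e])
  refine ⟨ez L fun x => (r⁻¹ • U.val * ρ x).trace, fun k hk => by simp [ez, hk], Fin n,
    inferInstance, inferInstance, fun x => if hx : x ∈ L then ρ ⟨x, hx⟩ else 0, r⁻¹ • U.val, ?_,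
    fun x hx => ⟨fun y hy => ?_, ?_, ?_, ?_⟩⟩
  · rw [smul_mul_smul_comm, hc, smul_smul]
    field_simp
    simp
  · simp only [dif_pos hx, dif_pos hy, dif_pos (mul_mem hx hy)]
    exact map_mul ρ ⟨x, hx⟩ ⟨y, hy⟩
  · simp only [dif_pos hx]
    rw [smul_mul_assoc, h1, mul_smul_comm, smul_comm]
  · simp only [dif_pos hx]
    exact (hρ ⟨x, hx⟩).symm
  · simp only [dif_pos hx, ez]

lemma ip_nat {G : Type} [Group G] [Fintype G] {a b : G → K} (ha : a ∈ Ch G) (hb : b ∈ Ch G) :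
    ∃ m : ℕ, ip a b = m := by
  induction hb using AddSubmonoid.closure_induction with
  | mem x hx => exact (((hch.a G).ch_iff a).1 ha).2 x hx
  | zero => exact ⟨0, by simp [ip]⟩
  | add x y _ _ hx hy =>
    obtain ⟨m, h⟩ := hx
    obtain ⟨m', h'⟩ := hy
    exact ⟨m + m', by rw [ip_add_right, h, h', Nat.cast_add]⟩

lemma ch_split {G : Type} [Group G] [Finite G] {a b : G → K} (ha : a ∈ Ch G) (hb : b ∈ Ch G)
    (h : a + b ∈ Irr G) : a = 0 ∨ b = 0 := by
  haveI := Fintype.ofFinite G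
  have h1 := (hch.a G).orth1 _ h
  obtain ⟨x, hx⟩ := ip_nat ha ha
  obtain ⟨y, hy⟩ := ip_nat hb hb
  obtain ⟨z, hz⟩ := ip_nat ha hb
  rw [ip_add_left, ip_add_right, ip_add_right, (hch.a G).symm b a, hx, hy, hz] at h1
  have h2 : x + z + (z + y) = 1 := by exact_mod_cast h1
  have h3 : x = 0 ∨ y = 0 := by omega
  exact h3.imp (fun e => (hch.a G).norm_zero _ ((hch.a G).ch_vc _ ha) (by rw [hx, e]; simp))
    fun e => (hch.a G).norm_zero _ ((hch.a G).ch_vc _ hb) (by rw [hy, e]; simp)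

lemma ch_two {G : Type} [Group G] [Finite G] {a b θ θ' : G → K} (ha : a ∈ Ch G) (hb : b ∈ Ch G)
    (h : θ ∈ Irr G) (h' : θ' ∈ Irr G) (e : a + b = θ + θ') (ha0 : a ≠ 0) (hb0 : b ≠ 0) :
    a = θ ∨ b = θ := by
  haveI := Fintype.ofFinite G
  have key : ∀ a b : G → K, a ∈ Ch G → b ∈ Ch G → a + b = θ + θ' → b ≠ 0 → ip a θ ≠ 0 → a = θ := by
    intro a b ha hb e hb0 hi
    have h1 := (hch.a G).ch_sub a ha θ h hi
    have h2 : a - θ + b = θ' := by linear_combination e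
    exact sub_eq_zero.1 ((ch_split h1 hb (h2 ▸ h')).resolve_right hb0)
  by_cases hi : ip a θ = 0
  · refine Or.inr (key b a hb ha (by rw [add_comm, e]) ha0 fun hj => ?_)
    have h1 := congrArg (ip · θ) e
    obtain ⟨z, hz⟩ := ip_nat ((hch.a G).irr_ch _ h') ((hch.a G).irr_ch _ h)
    simp only [ip_add_left, hi, hj, (hch.a G).orth1 _ h, hz] at h1
    have h2 : 0 + 0 = 1 + z := by exact_mod_cast h1
    omega
  · exact Or.inl (key a b ha hb e hb0 hi)

end Pool.Agent.Lib.MP_1ae3da_al.Wr
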